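import Mathlib

set_option autoImplicit false

/-! Copies of landed files, bundled to shorten the build: Helper39.Area.Kernel, Helper39.Area.Wind, Helper52.EK.Defs, Helper22.Marshall.Parseval, Helper39.Area.Dirichlet, Helper39.EK.Dir, Helper39.EK.AreaForm, Helper39.Area.LogKernel, Helper39.Area.Ineq, Helper39.Area.AreaLog, Helper39.Area.Goluzin, Helper39.Area.GolMain, Helper39.EK.EnergyAux, Helper39.EK.Energy, Helper39.EK.E1a, Helper73.EK.DefsE2, Helper9.EK.Rot, Helper61.EK.GibbsOf, Helper71.EK.Alg, Helper28.EK.E6d, Helper70.EK.WfCont, Helper73.EK.Pois, Helper86.EK.E1b, Helper67.EK.E1c, Helper78.EK.NullU, Helper5.EK.Fub, Helper39.Area.Branch -/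

section

set_option autoImplicit false
open Complex MeasureTheory Metric Set
open scoped Real ENNReal ComplexConjugate

/-! The Cauchy kernel: `∫_{|u| < M} conj u ^ k / (v - u) dA(u) = π conj v ^ (k+1) / (k+1)`. -/

namespace Pool.Agent.Helper39.Area

theorem circle_inv_out {ρ : ℝ} (hρ : 0 < ρ) {v : ℂ} (hv : ρ < ‖v‖) :
    (∮ w in C(0, ρ), (v - w)⁻¹) = 0 := by
  apply Complex.circleIntegral_eq_zero_of_differentiable_on_off_countable hρ.le countable_empty
  · apply ContinuousOn.inv₀ (by fun_prop)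
    intro w hw h
    rw [sub_eq_zero] at h
    subst h
    rw [mem_closedBall, dist_zero_right] at hw
    linarith
  · intro w hw
    have hw' : w ∈ ball (0:ℂ) ρ := hw.1
    apply DifferentiableAt.inv (by fun_prop)
    intro h
    rw [sub_eq_zero] at h
    subst h
    rw [mem_ball, dist_zero_right] at hw'
    linarith

theorem circle_inv_in {ρ : ℝ} {v : ℂ} (hv : ‖v‖ < ρ) :
    (∮ w in C(0, ρ), (v - w)⁻¹) = - (2 * π * I) := by
  have h := circleIntegral.integral_sub_inv_of_mem_ball (c := 0) (w := v) (R := ρ)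
    (by simpa using hv)
  have h2 : (∮ w in C(0, ρ), (v - w)⁻¹) = ∮ w in C(0, ρ), (-1 : ℂ) * (w - v)⁻¹ := by
    congr 1
    funext w
    rw [← neg_sub w v, inv_neg]; ring
  rw [h2, circleIntegral.integral_const_mul, h]
  ring

theorem circle_pow_inv (ρ : ℝ) (k : ℕ) :
    (∮ w in C(0, ρ), (w ^ (k + 2))⁻¹) = 0 := by
  have h := circleIntegral.integral_sub_zpow_of_ne (n := -((k:ℤ) + 2)) (by omega) (0:ℂ) 0 ρ
  rw [← h]
  congr 1
  funext w
  rw [sub_zero, zpow_neg]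
  norm_cast

theorem circle_inv_zero {ρ : ℝ} (hρ : 0 < ρ) :
    (∮ w in C(0, ρ), (w ^ (0 + 1))⁻¹) = 2 * π * I := by
  have h := circleIntegral.integral_sub_center_inv (0:ℂ) hρ.ne'
  simpa using h

theorem cont_pow_inv {ρ : ℝ} (hρ : 0 < ρ) (k : ℕ) :
    CircleIntegrable (fun w : ℂ => (w ^ k)⁻¹) 0 ρ := by
  apply ContinuousOn.circleIntegrable hρ.le
  apply ContinuousOn.inv₀ (by fun_prop)
  intro w hw
  apply pow_ne_zero
  rintro rfl
  simp at hw
  exact hρ.ne hw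

theorem cont_sub_inv {ρ : ℝ} {v : ℂ} (hv : ‖v‖ ≠ ρ) :
    ContinuousOn (fun w : ℂ => (v - w)⁻¹) (sphere 0 ρ) := by
  apply ContinuousOn.inv₀ (by fun_prop)
  intro w hw h
  rw [sub_eq_zero] at h
  subst h
  simp at hw
  exact hv hw

theorem circle_kernel {ρ : ℝ} (hρ : 0 < ρ) {v : ℂ} (hv0 : v ≠ 0) (hv : ‖v‖ ≠ ρ) (k : ℕ) :
    (∮ w in C(0, ρ), (w ^ (k + 1))⁻¹ * (v - w)⁻¹) =
      if ρ < ‖v‖ then 2 * π * I * (v ^ (k + 1))⁻¹ else 0 := by
  have hcs := cont_sub_inv hv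
  have hint : ∀ j : ℕ, CircleIntegrable (fun w : ℂ => (w ^ j)⁻¹ * (v - w)⁻¹) 0 ρ := by
    intro j
    apply ContinuousOn.circleIntegrable hρ.le
    apply ContinuousOn.mul _ hcs
    apply ContinuousOn.inv₀ (by fun_prop)
    intro w hw
    apply pow_ne_zero
    rintro rfl
    simp at hw
    exact hρ.ne hw
  have key : ∀ j : ℕ, (∮ w in C(0, ρ), (w ^ (j + 1))⁻¹ * (v - w)⁻¹) =
      v⁻¹ * ((∮ w in C(0, ρ), (w ^ (j + 1))⁻¹) + ∮ w in C(0, ρ), (w ^ j)⁻¹ * (v - w)⁻¹) := by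
    intro j
    rw [← circleIntegral.integral_add (cont_pow_inv hρ _) (hint j),
      ← circleIntegral.integral_const_mul]
    apply circleIntegral.integral_congr hρ.le
    intro w hw
    have hw0 : w ≠ 0 := by
      rintro rfl
      simp at hw
      exact hρ.ne hw
    have hvw : v - w ≠ 0 := by
      intro h
      rw [sub_eq_zero] at h
      subst h
      simp at hw
      exact hv hw
    simp only
    field_simp
    ring
  induction k with
  | zero =>
    rw [key 0, circle_inv_zero hρ]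
    simp only [pow_zero, inv_one, one_mul]
    split_ifs with h
    · rw [circle_inv_out hρ h]; simp; ring
    · rw [circle_inv_in (lt_of_le_of_ne (not_lt.mp h) hv)]; simp
  | succ k ih =>
    rw [key (k + 1), circle_pow_inv, ih]
    split_ifs with h
    · field_simp
      ring
    · simp

/-- the angular integral -/
theorem angular {ρ : ℝ} (hρ : 0 < ρ) {v : ℂ} (hv : ‖v‖ ≠ ρ) (k : ℕ) :
    (∫ θ in Ioo (-π) π, conj (Complex.polarCoord.symm (ρ, θ)) ^ k /
      (v - Complex.polarCoord.symm (ρ, θ))) =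
      if ρ < ‖v‖ then 2 * π * ρ ^ (2 * k) * (v ^ (k + 1))⁻¹ else 0 := by
  have e1 : ∀ θ : ℝ, Complex.polarCoord.symm (ρ, θ) = circleMap 0 ρ θ := by
    intro θ
    rw [Complex.polarCoord_symm_apply, circleMap, zero_add, Complex.exp_mul_I]
    simp
  simp_rw [e1]
  rw [← integral_Ioc_eq_integral_Ioo, ← intervalIntegral.integral_of_le (by linarith [Real.pi_pos])]
  have hper : Function.Periodic (fun θ : ℝ => conj (circleMap 0 ρ θ) ^ k / (v - circleMap 0 ρ θ))
      (2 * π) := by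
    intro θ
    simp only [periodic_circleMap 0 ρ θ]
  have h2 := hper.intervalIntegral_add_eq (-π) 0
  rw [show -π + 2 * π = π by ring, zero_add] at h2
  rw [h2]
  -- express through a circle integral
  have e2 : (∫ θ in (0:ℝ)..2 * π, conj (circleMap 0 ρ θ) ^ k / (v - circleMap 0 ρ θ)) =
      (∮ w in C(0, ρ), ((ρ:ℂ) ^ (2 * k) * (-I)) * ((w ^ (k + 1))⁻¹ * (v - w)⁻¹)) := by
    rw [circleIntegral]
    apply intervalIntegral.integral_congr
    intro θ _
    simp only [deriv_circleMap, smul_eq_mul]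
    have hne : circleMap 0 ρ θ ≠ 0 := circleMap_ne_center (c := 0) (θ := θ) hρ.ne'
    have hc : conj (circleMap 0 ρ θ) = (ρ:ℂ) ^ 2 * (circleMap 0 ρ θ)⁻¹ := by
      rw [eq_mul_inv_iff_mul_eq₀ hne, mul_comm, Complex.mul_conj, Complex.normSq_eq_norm_sq]
      simp [abs_of_pos hρ]
    rw [hc, mul_pow, ← pow_mul, pow_succ, mul_inv, inv_pow, div_eq_mul_inv]
    have hI : I * -I = 1 := by simp
    linear_combination (-(((ρ:ℂ) ^ (2 * k)) * (circleMap 0 ρ θ ^ k)⁻¹ * (v - circleMap 0 ρ θ)⁻¹)) * hI * (circleMap 0 ρ θ * (circleMap 0 ρ θ)⁻¹) + (-(((ρ:ℂ) ^ (2 * k)) * (circleMap 0 ρ θ ^ k)⁻¹ * (v - circleMap 0 ρ θ)⁻¹)) * (mul_inv_cancel₀ hne)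
  rw [e2, circleIntegral.integral_const_mul]
  by_cases hv0 : v = 0
  · subst hv0
    have h3 : (∮ w in C(0, ρ), (w ^ (k + 1))⁻¹ * ((0:ℂ) - w)⁻¹) =
        ∮ w in C(0, ρ), (-1 : ℂ) * (w ^ (k + 2))⁻¹ := by
      congr 1
      funext w
      rw [zero_sub, inv_neg, pow_succ, pow_succ, pow_succ, mul_inv, mul_inv, mul_inv]
      ring
    rw [h3, circleIntegral.integral_const_mul, circle_pow_inv]
    simp
  · rw [circle_kernel hρ hv0 hv]
    split_ifs with h
    · have hI : I * -I = 1 := by simp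
      linear_combination (2 * π * (ρ:ℂ) ^ (2 * k) * (v ^ (k + 1))⁻¹) * hI
    · simp

/-- local integrability of the Cauchy kernel, uniformly -/
theorem lint_inv_ball (M : ℝ) :
    ∫⁻ u in ball (0:ℂ) M, ENNReal.ofReal (‖u‖⁻¹) ≤ ENNReal.ofReal (2 * π * M) := by
  rw [← lintegral_indicator measurableSet_ball, ← Complex.lintegral_comp_polarCoord_symm]
  calc _ ≤ ∫⁻ p in polarCoord.target, (Ioo 0 M ×ˢ Ioo (-π) π).indicator (fun _ => (1 : ℝ≥0∞)) p := by
        apply setLIntegral_mono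
        · exact measurable_const.indicator (measurableSet_Ioo.prod measurableSet_Ioo)
        rintro ⟨r, θ⟩ ⟨hr, hθ⟩
        simp only [mem_Ioi] at hr
        by_cases hrM : r < M
        · rw [indicator_of_mem (show (r, θ) ∈ Ioo 0 M ×ˢ Ioo (-π) π from ⟨⟨hr, hrM⟩, hθ⟩),
            indicator_of_mem (by rw [mem_ball, dist_zero_right, Complex.norm_polarCoord_symm, abs_of_pos hr]; exact hrM),
            Complex.norm_polarCoord_symm, abs_of_pos hr, smul_eq_mul, ← ENNReal.ofReal_mul hr.le,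
            mul_inv_cancel₀ hr.ne']
          simp
        · rw [indicator_of_notMem (by rw [mem_ball, dist_zero_right, Complex.norm_polarCoord_symm, abs_of_pos hr]; exact hrM)]
          simp
    _ ≤ ∫⁻ p, (Ioo 0 M ×ˢ Ioo (-π) π).indicator (fun _ => (1 : ℝ≥0∞)) p :=
        setLIntegral_le_lintegral _ _
    _ = ENNReal.ofReal (2 * π * M) := by
        rw [lintegral_indicator (measurableSet_Ioo.prod measurableSet_Ioo), setLIntegral_one,
          Measure.volume_eq_prod, Measure.prod_prod, Real.volume_Ioo, Real.volume_Ioo]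
        rcases le_total M 0 with h | h
        · rw [ENNReal.ofReal_of_nonpos (by linarith), zero_mul, ENNReal.ofReal_of_nonpos]
          nlinarith [Real.pi_pos]
        · rw [← ENNReal.ofReal_mul (by linarith)]
          congr 1; ring

theorem lint_inv (v : ℂ) (M : ℝ) :
    ∫⁻ u in ball (0:ℂ) M, ENNReal.ofReal (‖v - u‖⁻¹) ≤ ENNReal.ofReal (2 * π * (‖v‖ + M)) := by
  rw [← lintegral_indicator measurableSet_ball]
  calc ∫⁻ u, (ball (0:ℂ) M).indicator (fun u => ENNReal.ofReal (‖v - u‖⁻¹)) u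
      ≤ ∫⁻ u, (ball (0:ℂ) (‖v‖ + M)).indicator (fun u => ENNReal.ofReal (‖u‖⁻¹)) (v - u) := by
        apply lintegral_mono
        intro u
        by_cases hu : u ∈ ball (0:ℂ) M
        · have h2 : v - u ∈ ball (0:ℂ) (‖v‖ + M) := by
            rw [mem_ball, dist_zero_right] at hu ⊢
            linarith [norm_sub_le v u]
          rw [indicator_of_mem hu]
          show _ ≤ (ball (0:ℂ) (‖v‖ + M)).indicator (fun u => ENNReal.ofReal (‖u‖⁻¹)) (v - u)
          rw [indicator_of_mem h2]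
        · rw [indicator_of_notMem hu]; exact zero_le
    _ = ∫⁻ u, (ball (0:ℂ) (‖v‖ + M)).indicator (fun u => ENNReal.ofReal (‖u‖⁻¹)) u :=
        lintegral_sub_left_eq_self _ v
    _ ≤ _ := by
        rw [lintegral_indicator measurableSet_ball]
        exact lint_inv_ball _

theorem integrable_inv (v : ℂ) (M : ℝ) :
    IntegrableOn (fun u : ℂ => ‖v - u‖⁻¹) (ball (0:ℂ) M) := by
  refine ⟨(by fun_prop : Measurable fun u : ℂ => ‖v - u‖⁻¹).aestronglyMeasurable, ?_⟩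
  rw [hasFiniteIntegral_iff_enorm]
  refine lt_of_le_of_lt ?_ (lt_of_le_of_lt (lint_inv v M) ENNReal.ofReal_lt_top)
  apply lintegral_mono
  intro u
  simp only
  rw [← ofReal_norm, Real.norm_of_nonneg (by positivity)]

theorem integrable_kernel (k : ℕ) (M : ℝ) (v : ℂ) :
    IntegrableOn (fun u : ℂ => conj u ^ k / (v - u)) (ball (0:ℂ) M) := by
  have h := (integrable_inv v M).const_mul (M ^ k)
  refine Integrable.mono' h ?_ ?_
  · apply Measurable.aestronglyMeasurable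
    apply Measurable.div _ (by fun_prop)
    exact (Complex.continuous_conj.measurable).pow_const k
  · rw [ae_restrict_iff' measurableSet_ball]
    refine Filter.Eventually.of_forall ?_
    intro u hu
    rw [mem_ball, dist_zero_right] at hu
    rw [norm_div, norm_pow, RCLike.norm_conj, div_eq_mul_inv]
    gcongr

theorem kernel (k : ℕ) (M : ℝ) (v : ℂ) (hv : ‖v‖ < M) :
    ∫ u in ball (0:ℂ) M, conj u ^ k / (v - u) = π * conj v ^ (k + 1) / (k + 1) := by
  have hM : 0 < M := lt_of_le_of_lt (norm_nonneg v) hv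
  set f : ℂ → ℂ := (ball (0:ℂ) M).indicator (fun u => conj u ^ k / (v - u)) with hf
  have hfi : Integrable f := by
    rw [hf, integrable_indicator_iff measurableSet_ball]
    exact integrable_kernel k M v
  have hfm : Measurable f := by
    apply Measurable.indicator _ measurableSet_ball
    apply Measurable.div _ (by fun_prop)
    exact (Complex.continuous_conj.measurable).pow_const k
  have hsm : Measurable (fun p : ℝ × ℝ => (Complex.polarCoord.symm p : ℂ)) := by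
    simp only [Complex.polarCoord_symm_apply]
    fun_prop
  have hprod : IntegrableOn (fun p : ℝ × ℝ => p.1 • f (Complex.polarCoord.symm p))
      (Ioi (0:ℝ) ×ˢ Ioo (-π) π) := by
    refine ⟨(measurable_fst.smul (hfm.comp hsm)).aestronglyMeasurable, ?_⟩
    rw [hasFiniteIntegral_iff_enorm]
    have h1 := Complex.lintegral_comp_polarCoord_symm (fun u => ‖f u‖ₑ)
    have h2 : (∫⁻ p in Ioi (0:ℝ) ×ˢ Ioo (-π) π, ‖p.1 • f (Complex.polarCoord.symm p)‖ₑ) =
        ∫⁻ p in polarCoord.target, ENNReal.ofReal p.1 • ‖f (Complex.polarCoord.symm p)‖ₑ := by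
      apply setLIntegral_congr_fun (measurableSet_Ioi.prod measurableSet_Ioo)
      rintro ⟨r, θ⟩ ⟨hr, hθ⟩
      simp only [mem_Ioi] at hr
      simp only [smul_eq_mul]
      rw [enorm_smul]
      congr 1
      rw [← ofReal_norm, Real.norm_of_nonneg hr.le]
    rw [h2, h1]
    exact hfi.2
  rw [← integral_indicator measurableSet_ball, ← hf, ← Complex.integral_comp_polarCoord_symm]
  rw [show polarCoord.target = Ioi (0:ℝ) ×ˢ Ioo (-π) π from rfl]
  rw [Measure.volume_eq_prod] at hprod ⊢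
  rw [setIntegral_prod _ hprod]
  -- the inner integral
  have hin : ∀ r ∈ Ioi (0:ℝ), r ≠ ‖v‖ → r ≠ M →
      (∫ θ in Ioo (-π) π, (r, θ).1 • f (Complex.polarCoord.symm (r, θ))) =
        (Ioo 0 ‖v‖).indicator (fun r : ℝ => 2 * π * (v ^ (k + 1))⁻¹ * ((r ^ (2 * k + 1) : ℝ) : ℂ)) r := by
    intro r hr hrv _
    simp only [mem_Ioi] at hr
    by_cases hrM : r < M
    · have e : ∀ θ, (r, θ).1 • f (Complex.polarCoord.symm (r, θ)) =
          (r : ℂ) * (conj (Complex.polarCoord.symm (r, θ)) ^ k / (v - Complex.polarCoord.symm (r, θ))) := by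
        intro θ
        rw [hf, indicator_of_mem (by rw [mem_ball, dist_zero_right, Complex.norm_polarCoord_symm, abs_of_pos hr]; exact hrM)]
        simp
      simp_rw [e]
      rw [integral_const_mul, angular hr (Ne.symm hrv) k]
      by_cases h : r < ‖v‖
      · rw [if_pos h, indicator_of_mem (show r ∈ Ioo 0 ‖v‖ from ⟨hr, h⟩)]
        push_cast
        ring
      · rw [if_neg h, indicator_of_notMem (fun h' => h h'.2), mul_zero]
    · have e : ∀ θ, (r, θ).1 • f (Complex.polarCoord.symm (r, θ)) = 0 := by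
        intro θ
        rw [hf, indicator_of_notMem (by rw [mem_ball, dist_zero_right, Complex.norm_polarCoord_symm, abs_of_pos hr]; exact hrM)]
        simp
      simp_rw [e]
      rw [indicator_of_notMem (fun h' => hrM (h'.2.trans hv))]
      simp
  have hae : (∫ r in Ioi (0:ℝ), ∫ θ in Ioo (-π) π, (r, θ).1 • f (Complex.polarCoord.symm (r, θ))) =
      ∫ r in Ioi (0:ℝ), (Ioo 0 ‖v‖).indicator
        (fun r : ℝ => 2 * π * (v ^ (k + 1))⁻¹ * ((r ^ (2 * k + 1) : ℝ) : ℂ)) r := by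
    apply setIntegral_congr_ae measurableSet_Ioi
    have h1 : ∀ᵐ r : ℝ, r ≠ ‖v‖ := by
      simp [ae_iff, measure_singleton]
    have h2 : ∀ᵐ r : ℝ, r ≠ M := by
      simp [ae_iff, measure_singleton]
    filter_upwards [h1, h2] with r hr1 hr2 hr
    exact hin r hr hr1 hr2
  rw [hae, setIntegral_indicator measurableSet_Ioo, inter_eq_self_of_subset_right Ioo_subset_Ioi_self,
    integral_const_mul, integral_complex_ofReal, ← integral_Ioc_eq_integral_Ioo,
    ← intervalIntegral.integral_of_le (norm_nonneg v), integral_pow]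
  by_cases hv0 : v = 0
  · subst hv0; simp
  have hc : ((‖v‖ : ℝ) : ℂ) ^ 2 = v * conj v := by
    rw [Complex.mul_conj, Complex.normSq_eq_norm_sq]; push_cast; ring
  have hpow : ((‖v‖ : ℝ) : ℂ) ^ (2 * k + 1 + 1) = v ^ (k + 1) * conj v ^ (k + 1) := by
    rw [show 2 * k + 1 + 1 = 2 * (k + 1) by ring, pow_mul, hc, mul_pow]
  have hvk : v ^ (k + 1) ≠ 0 := pow_ne_zero _ hv0
  have hk : ((k : ℂ) + 1) ≠ 0 := by exact_mod_cast Nat.succ_ne_zero k
  push_cast
  rw [zero_pow (by omega), sub_zero, hpow, show (2 * (k:ℂ) + 1 + 1) = 2 * ((k:ℂ) + 1) by ring]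
  field_simp

end Pool.Agent.Helper39.Area

end

section

set_option autoImplicit false
open Complex MeasureTheory Metric Set Polynomial
open scoped Real ENNReal ComplexConjugate

/-! Winding numbers for the exterior map in the coordinate `ζ = 1/z`. -/

namespace Pool.Agent.Helper39.Area

/-- data of a univalent function `φ ζ = ζ⁻¹ + β ζ` on the punctured disc -/
structure Ext (β : ℂ → ℂ) : Prop where
  diff : DifferentiableOn ℂ β (ball 0 1)
  inj : ∀ ζ ω : ℂ, ζ ∈ ball (0:ℂ) 1 → ω ∈ ball (0:ℂ) 1 → ζ ≠ 0 → ω ≠ 0 →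
    ζ⁻¹ + β ζ = ω⁻¹ + β ω → ζ = ω
  ne : ∀ ζ : ℂ, ζ ∈ ball (0:ℂ) 1 → 1 - ζ ^ 2 * deriv β ζ ≠ 0

noncomputable def phi (β : ℂ → ℂ) (ζ : ℂ) : ℂ := ζ⁻¹ + β ζ
noncomputable def dphi (β : ℂ → ℂ) (ζ : ℂ) : ℂ := -(ζ ^ 2)⁻¹ + deriv β ζ
noncomputable def qq (β : ℂ → ℂ) (a ζ : ℂ) : ℂ := 1 - a * ζ * dslope β a ζ

variable {β : ℂ → ℂ}

theorem hasDerivAt_phi (h : DifferentiableOn ℂ β (ball 0 1)) {ζ : ℂ} (hζ : ζ ∈ ball (0:ℂ) 1)
    (h0 : ζ ≠ 0) : HasDerivAt (phi β) (dphi β ζ) ζ := by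
  have h1 := (h.differentiableAt (isOpen_ball.mem_nhds hζ)).hasDerivAt
  exact (hasDerivAt_inv h0).add h1

theorem phi_sub (a ζ : ℂ) (ha : a ≠ 0) (hζ : ζ ≠ 0) :
    phi β ζ - phi β a = (ζ⁻¹ - a⁻¹) * qq β a ζ := by
  unfold phi qq
  by_cases h : ζ = a
  · subst h; simp
  · rw [dslope_of_ne _ h, slope_def_field]
    have h1 : ζ - a ≠ 0 := sub_ne_zero.mpr h
    field_simp
    ring

theorem qq_diff (h : DifferentiableOn ℂ β (ball 0 1)) {a : ℂ} (ha : a ∈ ball (0:ℂ) 1) :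
    DifferentiableOn ℂ (qq β a) (ball 0 1) := by
  have h1 : DifferentiableOn ℂ (dslope β a) (ball 0 1) :=
    (Complex.differentiableOn_dslope (isOpen_ball.mem_nhds ha)).mpr h
  unfold qq
  fun_prop

theorem qq_ne (h : Ext β) {a ζ : ℂ} (ha : a ∈ ball (0:ℂ) 1) (hζ : ζ ∈ ball (0:ℂ) 1) :
    qq β a ζ ≠ 0 := by
  by_cases ha0 : a = 0
  · subst ha0; simp [qq]
  by_cases hζ0 : ζ = 0
  · subst hζ0; simp [qq]
  by_cases hne : ζ = a
  · subst hne
    have := h.ne ζ hζ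
    unfold qq
    rw [dslope_same]
    intro h'
    apply this
    rw [← h']; ring
  · intro hq
    have h1 := phi_sub (β := β) a ζ ha0 hζ0
    rw [hq, mul_zero, sub_eq_zero] at h1
    exact hne (h.inj ζ a hζ ha hζ0 ha0 h1)

theorem mem_ball_of_sphere {ρ : ℝ} (hρ1 : ρ < 1) {ζ : ℂ} (hζ : ζ ∈ closedBall (0:ℂ) ρ) :
    ζ ∈ ball (0:ℂ) 1 := by
  rw [mem_closedBall, dist_zero_right] at hζ
  rw [mem_ball, dist_zero_right]
  linarith

theorem sphere_ne {ρ : ℝ} (hρ : 0 < ρ) {ζ : ℂ} (hζ : ζ ∈ sphere (0:ℂ) ρ) : ζ ≠ 0 := by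
  rintro rfl
  simp at hζ
  exact hρ.ne hζ

/-- integral of a logarithmic derivative of a zero free function -/
theorem circle_logDeriv {ρ : ℝ} (hρ : 0 < ρ) (hρ1 : ρ < 1) {s : ℂ → ℂ}
    (hs : DifferentiableOn ℂ s (ball 0 1)) (hs0 : ∀ ζ ∈ closedBall (0:ℂ) ρ, s ζ ≠ 0) :
    (∮ ζ in C(0, ρ), deriv s ζ / s ζ) = 0 := by
  have hd : DifferentiableOn ℂ (deriv s) (ball 0 1) := hs.deriv isOpen_ball
  apply Complex.circleIntegral_eq_zero_of_differentiable_on_off_countable hρ.le countable_empty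
  · apply ContinuousOn.div
    · exact hd.continuousOn.mono (fun ζ hζ => mem_ball_of_sphere hρ1 hζ)
    · exact hs.continuousOn.mono (fun ζ hζ => mem_ball_of_sphere hρ1 hζ)
    · exact hs0
  · intro ζ hζ
    have hζ' : ζ ∈ closedBall (0:ℂ) ρ := ball_subset_closedBall hζ.1
    have hζ1 := mem_ball_of_sphere hρ1 hζ'
    exact (hd.differentiableAt (isOpen_ball.mem_nhds hζ1)).div
      (hs.differentiableAt (isOpen_ball.mem_nhds hζ1)) (hs0 ζ hζ')

theorem cont_logDeriv {ρ : ℝ} (hρ1 : ρ < 1) {s : ℂ → ℂ}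
    (hs : DifferentiableOn ℂ s (ball 0 1)) (hs0 : ∀ ζ ∈ closedBall (0:ℂ) ρ, s ζ ≠ 0) :
    ContinuousOn (fun ζ => deriv s ζ / s ζ) (sphere 0 ρ) := by
  have hd : DifferentiableOn ℂ (deriv s) (ball 0 1) := hs.deriv isOpen_ball
  apply ContinuousOn.div
  · exact hd.continuousOn.mono (fun ζ hζ => mem_ball_of_sphere hρ1 (sphere_subset_closedBall hζ))
  · exact hs.continuousOn.mono (fun ζ hζ => mem_ball_of_sphere hρ1 (sphere_subset_closedBall hζ))
  · intro ζ hζ; exact hs0 ζ (sphere_subset_closedBall hζ)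

/-- the logarithmic derivative of `φ - φ a` -/
theorem dphi_div (h : Ext β) {a ζ : ℂ} (ha : a ∈ ball (0:ℂ) 1) (hζ : ζ ∈ ball (0:ℂ) 1)
    (ha0 : a ≠ 0) (hζ0 : ζ ≠ 0) (hne : ζ ≠ a) :
    dphi β ζ / (phi β ζ - phi β a) = deriv (qq β a) ζ / qq β a ζ + (ζ - a)⁻¹ - ζ⁻¹ := by
  have hq := qq_ne h ha hζ
  have h1 : HasDerivAt (phi β) (-(ζ ^ 2)⁻¹ * qq β a ζ + (ζ⁻¹ - a⁻¹) * deriv (qq β a) ζ) ζ := by
    have h2 : HasDerivAt (fun ω => phi β a + (ω⁻¹ - a⁻¹) * qq β a ω)
        (-(ζ ^ 2)⁻¹ * qq β a ζ + (ζ⁻¹ - a⁻¹) * deriv (qq β a) ζ) ζ := by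
      have h3 := ((qq_diff h.diff ha).differentiableAt (isOpen_ball.mem_nhds hζ)).hasDerivAt
      exact (((hasDerivAt_inv hζ0).sub_const _).mul h3).const_add _
    apply h2.congr_of_eventuallyEq
    filter_upwards [isOpen_ne.mem_nhds hζ0] with ω hω
    rw [← phi_sub a ω ha0 hω]; ring
  have h4 := h1.unique (hasDerivAt_phi h.diff hζ hζ0)
  rw [← h4, phi_sub a ζ ha0 hζ0]
  have h5 : ζ - a ≠ 0 := sub_ne_zero.mpr hne
  have h6 : ζ⁻¹ - a⁻¹ ≠ 0 := by
    rw [sub_ne_zero]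
    intro h'
    exact hne (inv_injective h')
  have h7 : a - ζ ≠ 0 := sub_ne_zero.mpr (Ne.symm hne)
  have h8 : ζ⁻¹ - a⁻¹ = (a - ζ) / (ζ * a) := by field_simp
  rw [h8]
  field_simp
  ring

theorem wind_in (h : Ext β) {ρ : ℝ} (hρ : 0 < ρ) (hρ1 : ρ < 1) {a : ℂ} (ha : a ∈ ball (0:ℂ) ρ)
    (ha0 : a ≠ 0) : (∮ ζ in C(0, ρ), dphi β ζ / (phi β ζ - phi β a)) = 0 := by
  have ha1 : a ∈ ball (0:ℂ) 1 := mem_ball_of_sphere hρ1 (ball_subset_closedBall ha)
  have hq0 : ∀ ζ ∈ closedBall (0:ℂ) ρ, qq β a ζ ≠ 0 := fun ζ hζ =>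
    qq_ne h ha1 (mem_ball_of_sphere hρ1 hζ)
  have h1 : (∮ ζ in C(0, ρ), dphi β ζ / (phi β ζ - phi β a)) =
      ∮ ζ in C(0, ρ), (deriv (qq β a) ζ / qq β a ζ + (ζ - a)⁻¹ - ζ⁻¹) := by
    apply circleIntegral.integral_congr hρ.le
    intro ζ hζ
    apply dphi_div h ha1 (mem_ball_of_sphere hρ1 (sphere_subset_closedBall hζ)) ha0
      (sphere_ne hρ hζ)
    rintro rfl
    simp at hζ ha
    linarith
  have hc1 := (cont_logDeriv hρ1 (qq_diff h.diff ha1) hq0).circleIntegrable hρ.le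
  have hc2 : CircleIntegrable (fun ζ : ℂ => (ζ - a)⁻¹) 0 ρ := by
    apply ContinuousOn.circleIntegrable hρ.le
    apply ContinuousOn.inv₀ (by fun_prop)
    intro ζ hζ h'
    rw [sub_eq_zero] at h'
    subst h'
    simp at hζ ha
    linarith
  have hc3 : CircleIntegrable (fun ζ : ℂ => ζ⁻¹) 0 ρ := by
    apply ContinuousOn.circleIntegrable hρ.le
    apply ContinuousOn.inv₀ (by fun_prop)
    intro ζ hζ
    exact sphere_ne hρ hζ
  have hc12 : CircleIntegrable (fun ζ => deriv (qq β a) ζ / qq β a ζ + (ζ - a)⁻¹) 0 ρ :=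
    hc1.add hc2
  rw [h1, circleIntegral.integral_sub hc12 hc3, circleIntegral.integral_add hc1 hc2,
    circle_logDeriv hρ hρ1 (qq_diff h.diff ha1) hq0, circleIntegral.integral_sub_inv_of_mem_ball ha]
  have h2 := circle_inv_zero hρ
  simp only [zero_add, pow_one] at h2
  rw [h2]; ring

theorem wind_out (h : DifferentiableOn ℂ β (ball 0 1)) {ρ : ℝ} (hρ : 0 < ρ) (hρ1 : ρ < 1) {u : ℂ}
    (hu : ∀ ζ ∈ closedBall (0:ℂ) ρ, ζ ≠ 0 → phi β ζ ≠ u) :
    (∮ ζ in C(0, ρ), dphi β ζ / (phi β ζ - u)) = - (2 * π * I) := by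
  set s : ℂ → ℂ := fun ζ => 1 + ζ * (β ζ - u) with hs
  have hsd : DifferentiableOn ℂ s (ball 0 1) := by
    rw [hs]; fun_prop
  have hsphi : ∀ ζ : ℂ, ζ ≠ 0 → phi β ζ - u = ζ⁻¹ * s ζ := by
    intro ζ hζ
    simp only [phi, hs]
    field_simp
    ring
  have hs0 : ∀ ζ ∈ closedBall (0:ℂ) ρ, s ζ ≠ 0 := by
    intro ζ hζ
    by_cases h0 : ζ = 0
    · subst h0; simp [hs]
    · intro h'
      have h2 := hsphi ζ h0
      rw [h', mul_zero, sub_eq_zero] at h2
      exact hu ζ hζ h0 h2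
  have h1 : (∮ ζ in C(0, ρ), dphi β ζ / (phi β ζ - u)) =
      ∮ ζ in C(0, ρ), (deriv s ζ / s ζ - ζ⁻¹) := by
    apply circleIntegral.integral_congr hρ.le
    intro ζ hζ
    have hζ0 := sphere_ne hρ hζ
    have hζ1 := mem_ball_of_sphere hρ1 (sphere_subset_closedBall hζ)
    have hsne := hs0 ζ (sphere_subset_closedBall hζ)
    have h3 : HasDerivAt (phi β) (-(ζ ^ 2)⁻¹ * s ζ + ζ⁻¹ * deriv s ζ) ζ := by
      have h2 : HasDerivAt (fun ω => u + ω⁻¹ * s ω) (-(ζ ^ 2)⁻¹ * s ζ + ζ⁻¹ * deriv s ζ) ζ := by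
        have h3 := (hsd.differentiableAt (isOpen_ball.mem_nhds hζ1)).hasDerivAt
        exact ((hasDerivAt_inv hζ0).mul h3).const_add _
      apply h2.congr_of_eventuallyEq
      filter_upwards [isOpen_ne.mem_nhds hζ0] with ω hω
      rw [← hsphi ω hω]; ring
    have h4 := h3.unique (hasDerivAt_phi h hζ1 hζ0)
    simp only
    rw [← h4, hsphi ζ hζ0]
    field_simp
    ring
  have hc1 := (cont_logDeriv hρ1 hsd hs0).circleIntegrable hρ.le
  have hc3 : CircleIntegrable (fun ζ : ℂ => ζ⁻¹) 0 ρ := by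
    apply ContinuousOn.circleIntegrable hρ.le
    apply ContinuousOn.inv₀ (by fun_prop)
    intro ζ hζ
    exact sphere_ne hρ hζ
  rw [h1, circleIntegral.integral_sub hc1 hc3, circle_logDeriv hρ hρ1 hsd hs0]
  have h2 := circle_inv_zero hρ
  simp only [zero_add, pow_one] at h2
  rw [h2]; ring

theorem exact (h : DifferentiableOn ℂ β (ball 0 1)) {ρ : ℝ} (hρ : 0 < ρ) (hρ1 : ρ < 1)
    (Q : ℂ[X]) : (∮ ζ in C(0, ρ), Q.eval (phi β ζ) * dphi β ζ) = 0 := by
  have hcphi : ContinuousOn (phi β) (sphere 0 ρ) := fun ζ hζ =>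
    (hasDerivAt_phi h (mem_ball_of_sphere hρ1 (sphere_subset_closedBall hζ))
      (sphere_ne hρ hζ)).continuousAt.continuousWithinAt
  have hcd : ContinuousOn (dphi β) (sphere 0 ρ) := by
    apply ContinuousOn.add
    · apply ContinuousOn.neg
      apply ContinuousOn.inv₀ (by fun_prop)
      intro ζ hζ
      exact pow_ne_zero _ (sphere_ne hρ hζ)
    · exact (h.deriv isOpen_ball).continuousOn.mono
        (fun ζ hζ => mem_ball_of_sphere hρ1 (sphere_subset_closedBall hζ))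
  have hci : ∀ Q : ℂ[X], CircleIntegrable (fun ζ => Q.eval (phi β ζ) * dphi β ζ) 0 ρ := by
    intro Q
    apply ContinuousOn.circleIntegrable hρ.le
    exact (Q.continuous.comp_continuousOn hcphi).mul hcd
  induction Q using Polynomial.induction_on' with
  | add p q hp hq =>
    have : (∮ ζ in C(0, ρ), (p + q).eval (phi β ζ) * dphi β ζ) =
        ∮ ζ in C(0, ρ), (p.eval (phi β ζ) * dphi β ζ + q.eval (phi β ζ) * dphi β ζ) := by
      congr 1; funext ζ; rw [eval_add, add_mul]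
    rw [this, circleIntegral.integral_add (hci p) (hci q), hp, hq, add_zero]
  | monomial n a =>
    apply circleIntegral.integral_eq_zero_of_hasDerivWithinAt hρ.le
      (f := fun ζ => a * (phi β ζ ^ (n + 1) / (n + 1)))
    intro ζ hζ
    have h1 := hasDerivAt_phi h (mem_ball_of_sphere hρ1 (sphere_subset_closedBall hζ))
      (sphere_ne hρ hζ)
    have hn : ((n : ℂ) + 1) ≠ 0 := by exact_mod_cast Nat.succ_ne_zero n
    have h2 := ((h1.pow (n + 1)).div_const ((n:ℂ) + 1)).const_mul a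
    have h3 : (monomial n a).eval (phi β ζ) * dphi β ζ =
        a * (((n + 1 : ℕ) : ℂ) * phi β ζ ^ (n + 1 - 1) * dphi β ζ / ((n:ℂ) + 1)) := by
      rw [eval_monomial, Nat.add_sub_cancel]
      push_cast
      field_simp
    rw [h3]
    exact h2.hasDerivWithinAt

end Pool.Agent.Helper39.Area

end

section

set_option autoImplicit false
open Complex MeasureTheory Metric Set
open scoped Real ComplexConjugate

/-! Project EK (exact integral means of `psi'` for large negative powers): common definitions.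

Coordinates: `z` in the unit disc, `zeta = 1/z` outside; `phi β z = 1/z + β z`, `N β z = psi'(1/z)`.
Strip coordinate `ω = ξ + i η`, `0 ≤ η ≤ π`, `Z = exp ω`, `z = zf ω = (i - Z)/(i + Z)`. -/

namespace Pool.Agent.Helper52.EK

open Pool.Agent.Helper39.Area

/-- data of a univalent function `φ ζ = ζ⁻¹ + β ζ` on a punctured disc of radius `R > 1` -/
structure ExtR (β : ℂ → ℂ) (R : ℝ) : Prop where
  one_lt : 1 < R
  diff : DifferentiableOn ℂ β (ball 0 R)
  inj : ∀ ζ ω : ℂ, ζ ∈ ball (0:ℂ) R → ω ∈ ball (0:ℂ) R → ζ ≠ 0 → ω ≠ 0 →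
    ζ⁻¹ + β ζ = ω⁻¹ + β ω → ζ = ω
  ne : ∀ ζ : ℂ, ζ ∈ ball (0:ℂ) R → 1 - ζ ^ 2 * deriv β ζ ≠ 0

theorem ExtR.toExt {β : ℂ → ℂ} {R : ℝ} (h : ExtR β R) : Ext β := by
  have hs : ball (0:ℂ) 1 ⊆ ball 0 R := ball_subset_ball h.one_lt.le
  exact ⟨h.diff.mono hs, fun ζ ω h1 h2 => h.inj ζ ω (hs h1) (hs h2), fun ζ h1 => h.ne ζ (hs h1)⟩

/-- `N β z = psi'(1/z)` -/
noncomputable def N (β : ℂ → ℂ) (z : ℂ) : ℂ := 1 - z ^ 2 * deriv β z

/-- Poisson kernel of the disc -/
noncomputable def Pk (ζ z : ℂ) : ℝ := (1 - ‖z‖ ^ 2) / ‖ζ - z‖ ^ 2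

/-- normalised gradient of `log (Pk ζ)`: unimodular for `‖ζ‖ = 1`, `‖z‖ < 1` -/
noncomputable def ee (ζ z : ℂ) : ℂ := (1 - conj z * ζ) / (ζ - z)

/-- the point `e^(t + i θ)` -/
noncomputable def ep (t θ : ℝ) : ℂ := Complex.exp ((t : ℂ) + (θ : ℂ) * I)

/-- the entropy loss at the target `ζ` for the normalised field `w` -/
noncomputable def Kf (w : ℂ → ℂ) (ζ : ℂ) (t₀ t₂ : ℝ) : ℝ :=
  (2 * π)⁻¹ * ∫ t in t₀..t₂, ∫ θ in (-π)..π,
    (t₂ - t) * Pk ζ (ep t θ) * ‖ee ζ (ep t θ) - w (ep t θ)‖ ^ 2 / Real.sinh t ^ 2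

/-- the normalised gradient of `log ((1 - |z|^2)/|N|^2)` in the radial frame -/
noncomputable def mrad (β : ℂ → ℂ) (z : ℂ) : ℂ :=
  (z / ‖z‖) * (-conj z - (1 - ‖z‖ ^ 2) * (deriv (N β) z / N β z))

/-- the field built from the function `G` of the radial gradient -/
noncomputable def wf (G : ℂ → ℂ) (β : ℂ → ℂ) (z : ℂ) : ℂ :=
  conj (z / ‖z‖) * G (mrad β z)

/-- admissible functions `G` (the certificate uses `Gc`, below) -/
structure GLip (G : ℂ → ℂ) (L : ℝ) : Prop where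
  le_one : ∀ m, ‖G m‖ ≤ 1
  lip : ∀ m m', ‖G m - G m'‖ ≤ L * ‖m - m'‖
  rot : ∀ u m : ℂ, ‖u‖ = 1 → ‖G (u * m) - G m‖ ≤ L * ‖u - 1‖

/-- `m` for `‖m‖ ≤ 1`, its inverse point `m/‖m‖²` otherwise -/
noncomputable def Gc (m : ℂ) : ℂ := m / ((max 1 (‖m‖ ^ 2) : ℝ) : ℂ)

/-- strip coordinate to the disc -/
noncomputable def zf (ω : ℂ) : ℂ := (I - Complex.exp ω) / (I + Complex.exp ω)

/-- derivative of `zf` -/
noncomputable def zd (ω : ℂ) : ℂ := -2 * I * Complex.exp ω / (Complex.exp ω + I) ^ 2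

/-- `X = f_ω / (2 (f - f(a)))` in the strip coordinate -/
noncomputable def Xf (β : ℂ → ℂ) (a : ℝ) (ω : ℂ) : ℂ :=
  zd ω * dphi β (zf ω) / (2 * (phi β (zf ω) - phi β (a : ℂ)))

/-- `τ = (1-a)/(1+a)`: the point `a` is `ω = log τ + i π/2` -/
noncomputable def tau (a : ℝ) : ℝ := (1 - a) / (1 + a)

noncomputable def kap (a : ℝ) (ω : ℂ) : ℂ :=
  Complex.exp ω ^ 2 * (1 - (tau a : ℂ) ^ 2) /
    ((Complex.exp ω ^ 2 + (tau a : ℂ) ^ 2) * (Complex.exp ω ^ 2 + 1))

/-- the point `ξ + i η` -/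
noncomputable def pt (ξ η : ℝ) : ℂ := (ξ : ℂ) + (η : ℂ) * I

/-- `e₀ = -(c - i s)²`, with `c = cos η`, `s = sin η` -/
noncomputable def e0 (s c : ℝ) : ℂ := -((c : ℂ) - (s : ℂ) * I) ^ 2

/-- the function `m` of `X`, `Y = X'` and the angle -/
noncomputable def mX (X Y : ℂ) (s c : ℝ) : ℂ := (1 + e0 s c) * (2 * X - 1 + Y / X) - 1

/-- the integrand: `‖G m - e₀‖²` -/
noncomputable def TG (G : ℂ → ℂ) (X Y : ℂ) (s c : ℝ) : ℝ := ‖G (mX X Y s c) - e0 s c‖ ^ 2

/-- the closed rectangle of the strip -/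
def Rect (x₁ x₂ : ℝ) : Set ℂ := Icc x₁ x₂ ×ℂ Icc 0 π

/-- double integral over a rectangle of the strip -/
noncomputable def II (x₁ x₂ : ℝ) (F : ℝ → ℝ → ℝ) : ℝ := ∫ ξ in x₁..x₂, ∫ η in (0:ℝ)..π, F ξ η

/-- analytic without zeros near a closed rectangle of the strip -/
structure NiceX (X : ℂ → ℂ) (x₁ x₂ : ℝ) : Prop where
  an : AnalyticOnNhd ℂ X (Rect x₁ x₂)
  ne : ∀ ω ∈ Rect x₁ x₂, X ω ≠ 0

/-- a C¹ function of a complex variable with its partial derivatives -/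
structure C1f (W Wx Wy : ℂ → ℝ) : Prop where
  hd : ∀ X : ℂ, HasFDerivAt W (Wx X • reCLM + Wy X • imCLM) X
  cx : Continuous Wx
  cy : Continuous Wy

/-- a C² function with its first partial derivatives and its Laplacian -/
structure C2f (U Ux Uy Lap : ℂ → ℝ) : Prop where
  h1 : C1f U Ux Uy
  h2 : ∃ Uxx Uxy Uyy : ℂ → ℝ, C1f Ux Uxx Uxy ∧ C1f Uy Uxy Uyy ∧ ∀ X, Lap X = Uxx X + Uyy X

/-- the integrated form of the certificate, for a general functional `T` -/
def StripIneq (κ₂ : ℝ) (T : ℂ → ℂ → ℝ → ℝ → ℝ) : Prop :=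
  ∃ C₁ : ℝ, ∀ (X : ℂ → ℂ) (x₁ x₂ l : ℝ), 1 ≤ l → x₁ + l ≤ x₂ - l → NiceX X x₁ x₂ →
    II (x₁ + l) (x₂ - l) (fun ξ η => T (X (pt ξ η)) (deriv X (pt ξ η)) (Real.sin η) (Real.cos η)) ≤
      (κ₂ + C₁ / l) * II x₁ x₂ (fun ξ η => ‖X (pt ξ η) - 1‖ ^ 2)

end Pool.Agent.Helper52.EK

end

section


/-!
Parseval's identity for power series on circles.
-/

set_option autoImplicit false

open MeasureTheory Set Metric Filter Topology
open scoped ENNReal NNReal Real

namespace Pool.Agent.Helper22.Marshall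

theorem integral_exp_int (n : ℤ) (hn : n ≠ 0) :
    ∫ θ in (-π)..π, Complex.exp ((n : ℂ) * (θ : ℂ) * Complex.I) = 0 := by
  have h1 : ∀ θ : ℝ, (n : ℂ) * (θ : ℂ) * Complex.I = (n : ℂ) * Complex.I * (θ : ℂ) := by
    intro θ; ring
  simp_rw [h1]
  have hne : (n : ℂ) * Complex.I ≠ 0 :=
    mul_ne_zero (Int.cast_ne_zero.mpr hn) Complex.I_ne_zero
  rw [integral_exp_mul_complex hne]
  have h2 : Complex.exp ((n : ℂ) * Complex.I * ((π : ℝ) : ℂ))
      = Complex.exp ((n : ℂ) * Complex.I * ((-π : ℝ) : ℂ)) := by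
    rw [Complex.exp_eq_exp_iff_exists_int]
    refine ⟨n, ?_⟩
    push_cast
    ring
  rw [h2, sub_self, zero_div]

theorem hasSum_mul_aux (F G : ℕ → ℂ) (s t : ℂ) (h0 : HasSum F s) (h1 : HasSum G t)
    (h : Summable fun n => ‖F n‖) (h2 : Summable fun n => ‖G n‖) :
    HasSum (fun p : ℕ × ℕ => F p.1 * G p.2) (s * t) :=
  h0.mul h1 (summable_mul_of_summable_norm h h2)

theorem parseval_aux (c : ℕ → ℂ) (r : ℝ) (hr : 0 ≤ r)
    (hs : Summable fun n => ‖c n‖ * r ^ n) (f : ℝ → ℂ)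
    (hf : ∀ θ : ℝ, HasSum (fun n => c n * ((r : ℂ) * Complex.exp (θ * Complex.I)) ^ n) (f θ)) :
    HasSum (fun n => ‖c n‖ ^ 2 * r ^ (2 * n)) ((1 / (2 * π)) * ∫ θ in (-π)..π, ‖f θ‖ ^ 2) := by
  obtain ⟨F, hF⟩ : ∃ F : ℕ → ℝ → ℂ,
    F = fun (n : ℕ) (θ : ℝ) => c n * ((r : ℂ) * Complex.exp ((θ : ℂ) * Complex.I)) ^ n :=
    ⟨_, rfl⟩
  have hnormF : ∀ n θ, ‖F n θ‖ = ‖c n‖ * r ^ n := by
    intro n θ
    simp only [hF, norm_mul, norm_pow, Complex.norm_exp_ofReal_mul_I, mul_one]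
    rw [Complex.norm_real, Real.norm_of_nonneg hr]
  have hsn : ∀ θ, Summable fun n => ‖F n θ‖ := by
    intro θ
    simp_rw [hnormF]
    exact hs
  have hprod : ∀ θ, HasSum (fun p : ℕ × ℕ => F p.1 θ * (starRingEnd ℂ) (F p.2 θ))
      (f θ * (starRingEnd ℂ) (f θ)) := by
    intro θ
    have h1 : HasSum (fun n => (starRingEnd ℂ) (F n θ)) ((starRingEnd ℂ) (f θ)) := by
      have := (hf θ).map (starRingEnd ℂ) Complex.continuous_conj
      rw [hF]
      exact this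
    have h0 : HasSum (fun n => F n θ) (f θ) := by
      rw [hF]
      exact hf θ
    have h2 : Summable fun n => ‖(starRingEnd ℂ) (F n θ)‖ := by
      simp_rw [Complex.norm_conj]
      exact hsn θ
    exact hasSum_mul_aux (fun n => F n θ) (fun n => (starRingEnd ℂ) (F n θ)) _ _ h0 h1 (hsn θ) h2

  have hFc : ∀ n, Continuous (F n) := by
    intro n
    simp only [hF]
    fun_prop
  have hint : HasSum (fun p : ℕ × ℕ => ∫ θ in (-π)..π, F p.1 θ * (starRingEnd ℂ) (F p.2 θ))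
      (∫ θ in (-π)..π, f θ * (starRingEnd ℂ) (f θ)) := by
    have hpi : (-π : ℝ) ≤ π := by linarith [Real.pi_pos]
    have key : ∀ g : ℝ → ℂ, ∫ θ in (-π)..π, g θ = ∫ θ in Ioc (-π) π, g θ := fun g =>
      intervalIntegral.integral_of_le hpi
    simp_rw [key]
    have h2 := hasSum_integral_of_summable_integral_norm (μ := volume.restrict (Ioc (-π) π))
      (F := fun (p : ℕ × ℕ) (θ : ℝ) => F p.1 θ * (starRingEnd ℂ) (F p.2 θ)) ?_ ?_
    · have h3 : (fun θ => ∑' p : ℕ × ℕ, F p.1 θ * (starRingEnd ℂ) (F p.2 θ))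
          = fun θ => f θ * (starRingEnd ℂ) (f θ) := by
        funext θ
        exact (hprod θ).tsum_eq
      rw [h3] at h2
      exact h2
    · intro p
      apply Continuous.integrableOn_Ioc
      exact (hFc p.1).mul (Complex.continuous_conj.comp (hFc p.2))
    · have h4 : ∀ p : ℕ × ℕ, ∫ θ in Ioc (-π) π, ‖F p.1 θ * (starRingEnd ℂ) (F p.2 θ)‖
          = (2 * π) * ((‖c p.1‖ * r ^ p.1) * (‖c p.2‖ * r ^ p.2)) := by
        intro p
        have : ∀ θ, ‖F p.1 θ * (starRingEnd ℂ) (F p.2 θ)‖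
            = (‖c p.1‖ * r ^ p.1) * (‖c p.2‖ * r ^ p.2) := by
          intro θ
          rw [norm_mul, Complex.norm_conj, hnormF, hnormF]
        simp_rw [this]
        rw [setIntegral_const]
        simp only [smul_eq_mul]
        rw [Real.volume_real_Ioc_of_le hpi]
        ring
      simp_rw [h4]
      apply Summable.mul_left
      exact summable_mul_of_summable_norm
        (f := fun n => ‖c n‖ * r ^ n) (g := fun n => ‖c n‖ * r ^ n)
        (by simpa [abs_of_nonneg hr] using hs) (by simpa [abs_of_nonneg hr] using hs)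
  -- compute the integrals
  have hval : ∀ p : ℕ × ℕ, ∫ θ in (-π)..π, F p.1 θ * (starRingEnd ℂ) (F p.2 θ)
      = if p.1 = p.2 then ((2 * π * (‖c p.1‖ ^ 2 * r ^ (2 * p.1)) : ℝ) : ℂ) else 0 := by
    rintro ⟨m, n⟩
    have h5 : ∀ θ : ℝ, F m θ * (starRingEnd ℂ) (F n θ)
        = (c m * (starRingEnd ℂ) (c n) * (r : ℂ) ^ (m + n)) *
          Complex.exp (((m : ℤ) - (n : ℤ) : ℤ) * (θ : ℂ) * Complex.I) := by
      intro θ
      simp only [hF, map_mul, map_pow, Complex.conj_ofReal]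
      rw [← Complex.exp_conj]
      simp only [map_mul, Complex.conj_ofReal, Complex.conj_I]
      rw [mul_pow, mul_pow, ← Complex.exp_nat_mul, ← Complex.exp_nat_mul]
      have : Complex.exp (((m : ℤ) - (n : ℤ) : ℤ) * (θ : ℂ) * Complex.I)
          = Complex.exp ((m : ℂ) * ((θ : ℂ) * Complex.I))
            * Complex.exp ((n : ℂ) * ((θ : ℂ) * -Complex.I)) := by
        rw [← Complex.exp_add]
        congr 1
        push_cast
        ring
      rw [this]
      ring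
    simp only
    simp_rw [h5]
    rw [intervalIntegral.integral_const_mul]
    by_cases hmn : m = n
    · subst hmn
      rw [if_pos rfl]
      simp only [sub_self, Int.cast_zero, zero_mul, Complex.exp_zero]
      rw [intervalIntegral.integral_const, Complex.mul_conj, Complex.normSq_eq_norm_sq]
      simp only [sub_neg_eq_add, Complex.real_smul, mul_one]
      push_cast
      ring
    · rw [if_neg hmn, integral_exp_int _ (sub_ne_zero.mpr (by exact_mod_cast hmn)), mul_zero]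
  simp_rw [hval] at hint
  -- restrict to the diagonal
  have hdiag : HasSum (fun n : ℕ => ((2 * π * (‖c n‖ ^ 2 * r ^ (2 * n)) : ℝ) : ℂ))
      (∫ θ in (-π)..π, f θ * (starRingEnd ℂ) (f θ)) := by
    have hinj : Function.Injective (fun n : ℕ => (n, n)) := by
      intro a b h
      exact (Prod.mk.inj h).1
    have := (hinj.hasSum_iff (f := fun p : ℕ × ℕ =>
      if p.1 = p.2 then ((2 * π * (‖c p.1‖ ^ 2 * r ^ (2 * p.1)) : ℝ) : ℂ) else 0)
      (a := ∫ θ in (-π)..π, f θ * (starRingEnd ℂ) (f θ)) ?_).mpr hint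
    · simpa [Function.comp_def] using this
    · rintro ⟨a, b⟩ hab
      rw [if_neg]
      intro h
      apply hab
      refine ⟨a, ?_⟩
      simp only [Prod.mk.injEq, true_and]
      exact h
  have hreal : (∫ θ in (-π)..π, f θ * (starRingEnd ℂ) (f θ))
      = ((∫ θ in (-π)..π, ‖f θ‖ ^ 2 : ℝ) : ℂ) := by
    rw [← intervalIntegral.integral_ofReal]
    congr 1
    funext θ
    rw [Complex.mul_conj, Complex.normSq_eq_norm_sq]
  rw [hreal] at hdiag
  have h6 := Complex.hasSum_ofReal.mp hdiag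
  have h7 := h6.mul_left (1 / (2 * π))
  have hpi := Real.pi_pos
  have h8 : (fun n => ‖c n‖ ^ 2 * r ^ (2 * n))
      = fun n => 1 / (2 * π) * (2 * π * (‖c n‖ ^ 2 * r ^ (2 * n))) := by
    funext n
    field_simp
  rw [h8]
  exact h7

end Pool.Agent.Helper22.Marshall

end

section

set_option autoImplicit false
open Complex MeasureTheory Metric Set Filter Topology
open scoped Real ENNReal ComplexConjugate NNReal

/-! Positivity of the Dirichlet form `∮ conj E dE`. -/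

namespace Pool.Agent.Helper39.Area

theorem taylor_term {E : ℂ → ℂ} {R : ℝ} (hR : 0 < R) (hE : DifferentiableOn ℂ E (closedBall 0 R))
    (n : ℕ) (y : ℂ) : (cauchyPowerSeries E 0 R n fun _ => y) =
      y ^ n * (iteratedDeriv n E 0 / n.factorial) := by
  rw [cauchyPowerSeries_apply]
  have h1 := hE.circleIntegral_one_div_sub_center_pow_smul hR n
  have h2 : (∮ z in C(0, R), (y / (z - 0)) ^ n • (z - 0)⁻¹ • E z) =
      y ^ n * ∮ z in C(0, R), (1 / (z - 0) ^ (n + 1)) • E z := by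
    rw [← circleIntegral.integral_const_mul]
    congr 1
    funext z
    simp only [sub_zero, smul_eq_mul, div_pow, pow_succ, one_div, mul_inv]
    ring
  rw [h2, h1]
  have : (2 * π * I : ℂ) ≠ 0 := two_pi_I_ne_zero
  simp only [smul_eq_mul]
  field_simp

theorem sphere_ne' {ρ : ℝ} (hρ : 0 < ρ) {ζ : ℂ} (hζ : ζ ∈ sphere (0:ℂ) ρ) : ζ ≠ 0 := by
  rintro rfl
  simp at hζ
  exact hρ.ne hζ

theorem conj_sphere {ρ : ℝ} (hρ : 0 < ρ) {ζ : ℂ} (hζ : ζ ∈ sphere (0:ℂ) ρ) :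
    conj ζ = (ρ:ℂ) ^ 2 / ζ := by
  have h0 := sphere_ne' hρ hζ
  rw [eq_div_iff h0, mul_comm, Complex.mul_conj, Complex.normSq_eq_norm_sq]
  have : ‖ζ‖ = ρ := by simpa using hζ
  rw [this]
  push_cast
  rfl

theorem deriv_coeff {E : ℂ → ℂ} {R ρ : ℝ} (hE : DifferentiableOn ℂ E (ball 0 R)) (hρ : 0 < ρ)
    (hρR : ρ < R) (n : ℕ) :
    (∮ ζ in C(0, ρ), (ζ ^ n)⁻¹ * deriv E ζ) =
      2 * π * I * (n * (iteratedDeriv n E 0 / n.factorial)) := by
  have hd : DifferentiableOn ℂ (deriv E) (ball 0 R) := hE.deriv isOpen_ball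
  cases n with
  | zero =>
    simp only [pow_zero, inv_one, one_mul, CharP.cast_eq_zero, zero_mul, mul_zero]
    apply circleIntegral.integral_eq_zero_of_hasDerivWithinAt hρ.le (f := E)
    intro ζ hζ
    have h1 : ζ ∈ ball (0:ℂ) R := by
      rw [mem_ball, dist_zero_right]
      rw [mem_sphere, dist_zero_right] at hζ
      linarith
    exact (hE.differentiableAt (isOpen_ball.mem_nhds h1)).hasDerivAt.hasDerivWithinAt
  | succ n =>
    have h1 := (hd.mono (closedBall_subset_ball hρR)).circleIntegral_one_div_sub_center_pow_smul hρ n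
    have h2 : (∮ ζ in C(0, ρ), (ζ ^ (n + 1))⁻¹ * deriv E ζ) =
        ∮ z in C(0, ρ), (1 / (z - 0) ^ (n + 1)) • deriv E z := by
      congr 1
      funext z
      simp
    rw [h2, h1, ← iteratedDeriv_succ', Nat.factorial_succ]
    have h3 : ((n.factorial : ℕ) : ℂ) ≠ 0 := by exact_mod_cast n.factorial_ne_zero
    have h4 : ((n : ℂ) + 1) ≠ 0 := by exact_mod_cast Nat.succ_ne_zero n
    push_cast
    simp only [smul_eq_mul]
    field_simp

theorem dirichlet_nonneg {E : ℂ → ℂ} {R ρ : ℝ} (hE : DifferentiableOn ℂ E (ball 0 R)) (hρ : 0 < ρ)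
    (hρR : ρ < R) :
    ∃ c : ℝ, 0 ≤ c ∧ (∮ ζ in C(0, ρ), conj (E ζ) * deriv E ζ) = 2 * π * I * c := by
  obtain ⟨r, hρr, hrR⟩ := exists_between hρR
  have hr : 0 < r := hρ.trans hρr
  lift r to ℝ≥0 using hr.le
  have hEr : DifferentiableOn ℂ E (closedBall 0 r) := hE.mono (closedBall_subset_ball hrR)
  have hps := hEr.hasFPowerSeriesOnBall (by exact_mod_cast hr)
  obtain ⟨r', hρr', hr'r⟩ := exists_between hρr
  lift r' to ℝ≥0 using (hρ.trans hρr').le
  have hun := hps.tendstoUniformlyOn (r' := r') (by exact_mod_cast hr'r)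
  have hd : DifferentiableOn ℂ (deriv E) (ball 0 R) := hE.deriv isOpen_ball
  have hmem : ∀ ζ ∈ sphere (0:ℂ) ρ, ζ ∈ ball (0:ℂ) R := by
    intro ζ hζ
    rw [mem_ball, dist_zero_right]
    rw [mem_sphere, dist_zero_right] at hζ
    linarith
  have hdc : ContinuousOn (deriv E) (sphere 0 ρ) := hd.continuousOn.mono hmem
  set e : ℕ → ℂ := fun n => iteratedDeriv n E 0 / n.factorial with he
  have hpart : ∀ (N : ℕ) (y : ℂ), (cauchyPowerSeries E 0 r).partialSum N y =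
      ∑ n ∈ Finset.range N, y ^ n * e n := by
    intro N y
    unfold FormalMultilinearSeries.partialSum
    apply Finset.sum_congr rfl
    intro n _
    exact taylor_term hr hEr n y
  set T : ℕ → ℂ → ℂ := fun N y => ∑ n ∈ Finset.range N, y ^ n * e n with hT
  have hTc : ∀ N, Continuous (T N) := by
    intro N
    rw [hT]
    fun_prop
  have hTE : TendstoUniformlyOn T E atTop (sphere 0 ρ) := by
    have h1 : TendstoUniformlyOn T E atTop (ball 0 r') := by
      have h2 : (fun (n : ℕ) (y : ℂ) => (cauchyPowerSeries E 0 r).partialSum n y) = T := by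
        funext N y; exact hpart N y
      rw [h2] at hun
      simpa using hun
    apply h1.mono
    intro ζ hζ
    rw [mem_ball, dist_zero_right]
    rw [mem_sphere, dist_zero_right] at hζ
    linarith
  -- bound for the derivative
  obtain ⟨B, hB⟩ := (isCompact_sphere (0:ℂ) ρ).exists_bound_of_continuousOn hdc
  have hlim : Tendsto (fun N => ∮ ζ in C(0, ρ), conj (T N ζ) * deriv E ζ) atTop
      (𝓝 (∮ ζ in C(0, ρ), conj (E ζ) * deriv E ζ)) := by
    apply TendstoUniformlyOn.tendsto_circleIntegral_of_continuousOn hρ.le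
    · refine Eventually.of_forall fun N => ?_
      exact ((Complex.continuous_conj.comp (hTc N)).continuousOn).mul hdc
    · rw [Metric.tendstoUniformlyOn_iff] at hTE ⊢
      intro ε hε
      have hε' : 0 < ε / (|B| + 1) := by positivity
      filter_upwards [hTE _ hε'] with N hN ζ hζ
      have h1 := hN ζ hζ
      rw [dist_eq_norm] at h1 ⊢
      rw [← sub_mul, ← map_sub, norm_mul, RCLike.norm_conj]
      calc ‖E ζ - T N ζ‖ * ‖deriv E ζ‖ ≤ ‖E ζ - T N ζ‖ * (|B| + 1) := by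
            gcongr
            exact (hB ζ hζ).trans ((le_abs_self B).trans (by linarith))
        _ < ε / (|B| + 1) * (|B| + 1) := by gcongr
        _ = ε := by field_simp
  have hval : ∀ N, (∮ ζ in C(0, ρ), conj (T N ζ) * deriv E ζ) =
      2 * π * I * ((∑ n ∈ Finset.range N, (n:ℝ) * ρ ^ (2 * n) * ‖e n‖ ^ 2 : ℝ) : ℂ) := by
    intro N
    have h1 : (∮ ζ in C(0, ρ), conj (T N ζ) * deriv E ζ) =
        ∮ ζ in C(0, ρ), ∑ n ∈ Finset.range N,
          (ρ:ℂ) ^ (2 * n) * conj (e n) * ((ζ ^ n)⁻¹ * deriv E ζ) := by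
      apply circleIntegral.integral_congr hρ.le
      intro ζ hζ
      simp only [hT, map_sum, map_mul, map_pow, Finset.sum_mul]
      apply Finset.sum_congr rfl
      intro n _
      rw [conj_sphere hρ hζ, div_pow, ← pow_mul, div_eq_mul_inv]
      ring
    rw [h1, circleIntegral.integral_fun_sum]
    · push_cast
      rw [Finset.mul_sum]
      apply Finset.sum_congr rfl
      intro n _
      rw [circleIntegral.integral_const_mul, deriv_coeff hE hρ hρR n]
      have h5 : (((‖e n‖ : ℝ)) : ℂ) ^ 2 = e n * conj (e n) := by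
        rw [Complex.mul_conj, Complex.normSq_eq_norm_sq]
        push_cast
        rfl
      rw [h5]
      ring
    · intro n _
      apply ContinuousOn.circleIntegrable hρ.le
      apply continuousOn_const.mul
      apply ContinuousOn.mul _ hdc
      apply ContinuousOn.inv₀ (by fun_prop)
      intro ζ hζ
      exact pow_ne_zero _ (sphere_ne' hρ hζ)
  -- the limit
  have h2pi : (2 * π * I : ℂ) ≠ 0 := two_pi_I_ne_zero
  set L : ℂ := ∮ ζ in C(0, ρ), conj (E ζ) * deriv E ζ with hL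
  set c : ℕ → ℝ := fun N => ∑ n ∈ Finset.range N, (n:ℝ) * ρ ^ (2 * n) * ‖e n‖ ^ 2 with hc
  have hlim2 : Tendsto (fun N => ((c N : ℝ) : ℂ)) atTop (𝓝 ((2 * π * I : ℂ)⁻¹ * L)) := by
    have := hlim.const_mul ((2 * π * I : ℂ)⁻¹)
    refine this.congr ?_
    intro N
    rw [hval N, ← mul_assoc, inv_mul_cancel₀ h2pi, one_mul]
  have hre := (Complex.continuous_re.tendsto _).comp hlim2
  have him := (Complex.continuous_im.tendsto _).comp hlim2
  refine ⟨((2 * π * I : ℂ)⁻¹ * L).re, ?_, ?_⟩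
  · apply ge_of_tendsto' hre
    intro N
    simp only [Function.comp, Complex.ofReal_re, hc]
    positivity
  · have him0 : ((2 * π * I : ℂ)⁻¹ * L).im = 0 := by
      have h1 : (Complex.im ∘ fun N => ((c N : ℝ) : ℂ)) = fun _ => (0:ℝ) := by
        funext N; simp
      rw [h1] at him
      exact (tendsto_nhds_unique him tendsto_const_nhds)
    have h3 : ((((2 * π * I : ℂ)⁻¹ * L).re : ℝ) : ℂ) = (2 * π * I : ℂ)⁻¹ * L := by
      apply Complex.ext
      · simp
      · simp only [Complex.ofReal_im]; exact him0.symm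
    rw [h3, ← mul_assoc, mul_inv_cancel₀ h2pi, one_mul]

end Pool.Agent.Helper39.Area

end

section


/-!
Dirichlet integrals of analytic functions on discs: contour form, coefficients and area.
-/

set_option autoImplicit false

open Complex MeasureTheory Metric Set Filter Topology
open scoped Real ENNReal ComplexConjugate NNReal

namespace Pool.Agent.Helper39.EK

open Pool.Agent.Helper39.Area

/-- the contour form of the Dirichlet integral dominates the partial sums of the coefficient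
form -/
theorem dirichlet_sum {E : ℂ → ℂ} {R ρ : ℝ} (hE : DifferentiableOn ℂ E (ball 0 R)) (hρ : 0 < ρ)
    (hρR : ρ < R) :
    ∃ c : ℝ, (∀ N : ℕ, ∑ n ∈ Finset.range N,
        (n:ℝ) * ρ ^ (2 * n) * ‖iteratedDeriv n E 0 / n.factorial‖ ^ 2 ≤ c) ∧
      (∮ ζ in C(0, ρ), conj (E ζ) * deriv E ζ) = 2 * π * I * c := by
  obtain ⟨r, hρr, hrR⟩ := exists_between hρR
  have hr : 0 < r := hρ.trans hρr
  lift r to ℝ≥0 using hr.le
  have hEr : DifferentiableOn ℂ E (closedBall 0 r) := hE.mono (closedBall_subset_ball hrR)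
  have hps := hEr.hasFPowerSeriesOnBall (by exact_mod_cast hr)
  obtain ⟨r', hρr', hr'r⟩ := exists_between hρr
  lift r' to ℝ≥0 using (hρ.trans hρr').le
  have hun := hps.tendstoUniformlyOn (r' := r') (by exact_mod_cast hr'r)
  have hd : DifferentiableOn ℂ (deriv E) (ball 0 R) := hE.deriv isOpen_ball
  have hmem : ∀ ζ ∈ sphere (0:ℂ) ρ, ζ ∈ ball (0:ℂ) R := by
    intro ζ hζ
    rw [mem_ball, dist_zero_right]
    rw [mem_sphere, dist_zero_right] at hζ
    linarith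
  have hdc : ContinuousOn (deriv E) (sphere 0 ρ) := hd.continuousOn.mono hmem
  set e : ℕ → ℂ := fun n => iteratedDeriv n E 0 / n.factorial with he
  have hpart : ∀ (N : ℕ) (y : ℂ), (cauchyPowerSeries E 0 r).partialSum N y =
      ∑ n ∈ Finset.range N, y ^ n * e n := by
    intro N y
    unfold FormalMultilinearSeries.partialSum
    apply Finset.sum_congr rfl
    intro n _
    exact taylor_term hr hEr n y
  set T : ℕ → ℂ → ℂ := fun N y => ∑ n ∈ Finset.range N, y ^ n * e n with hT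
  have hTc : ∀ N, Continuous (T N) := by
    intro N
    rw [hT]
    fun_prop
  have hTE : TendstoUniformlyOn T E atTop (sphere 0 ρ) := by
    have h1 : TendstoUniformlyOn T E atTop (ball 0 r') := by
      have h2 : (fun (n : ℕ) (y : ℂ) => (cauchyPowerSeries E 0 r).partialSum n y) = T := by
        funext N y; exact hpart N y
      rw [h2] at hun
      simpa using hun
    apply h1.mono
    intro ζ hζ
    rw [mem_ball, dist_zero_right]
    rw [mem_sphere, dist_zero_right] at hζ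
    linarith
  obtain ⟨B, hB⟩ := (isCompact_sphere (0:ℂ) ρ).exists_bound_of_continuousOn hdc
  have hlim : Tendsto (fun N => ∮ ζ in C(0, ρ), conj (T N ζ) * deriv E ζ) atTop
      (𝓝 (∮ ζ in C(0, ρ), conj (E ζ) * deriv E ζ)) := by
    apply TendstoUniformlyOn.tendsto_circleIntegral_of_continuousOn hρ.le
    · refine Eventually.of_forall fun N => ?_
      exact ((Complex.continuous_conj.comp (hTc N)).continuousOn).mul hdc
    · rw [Metric.tendstoUniformlyOn_iff] at hTE ⊢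
      intro ε hε
      have hε' : 0 < ε / (|B| + 1) := by positivity
      filter_upwards [hTE _ hε'] with N hN ζ hζ
      have h1 := hN ζ hζ
      rw [dist_eq_norm] at h1 ⊢
      rw [← sub_mul, ← map_sub, norm_mul, RCLike.norm_conj]
      calc ‖E ζ - T N ζ‖ * ‖deriv E ζ‖ ≤ ‖E ζ - T N ζ‖ * (|B| + 1) := by
            gcongr
            exact (hB ζ hζ).trans ((le_abs_self B).trans (by linarith))
        _ < ε / (|B| + 1) * (|B| + 1) := by gcongr
        _ = ε := by field_simp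
  have hval : ∀ N, (∮ ζ in C(0, ρ), conj (T N ζ) * deriv E ζ) =
      2 * π * I * ((∑ n ∈ Finset.range N, (n:ℝ) * ρ ^ (2 * n) * ‖e n‖ ^ 2 : ℝ) : ℂ) := by
    intro N
    have h1 : (∮ ζ in C(0, ρ), conj (T N ζ) * deriv E ζ) =
        ∮ ζ in C(0, ρ), ∑ n ∈ Finset.range N,
          (ρ:ℂ) ^ (2 * n) * conj (e n) * ((ζ ^ n)⁻¹ * deriv E ζ) := by
      apply circleIntegral.integral_congr hρ.le
      intro ζ hζ
      simp only [hT, map_sum, map_mul, map_pow, Finset.sum_mul]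
      apply Finset.sum_congr rfl
      intro n _
      rw [conj_sphere hρ hζ, div_pow, ← pow_mul, div_eq_mul_inv]
      ring
    rw [h1, circleIntegral.integral_fun_sum]
    · push_cast
      rw [Finset.mul_sum]
      apply Finset.sum_congr rfl
      intro n _
      rw [circleIntegral.integral_const_mul, deriv_coeff hE hρ hρR n]
      have h5 : (((‖e n‖ : ℝ)) : ℂ) ^ 2 = e n * conj (e n) := by
        rw [Complex.mul_conj, Complex.normSq_eq_norm_sq]
        push_cast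
        rfl
      rw [h5]
      ring
    · intro n _
      apply ContinuousOn.circleIntegrable hρ.le
      apply continuousOn_const.mul
      apply ContinuousOn.mul _ hdc
      apply ContinuousOn.inv₀ (by fun_prop)
      intro ζ hζ
      exact pow_ne_zero _ (sphere_ne' hρ hζ)
  have h2pi : (2 * π * I : ℂ) ≠ 0 := two_pi_I_ne_zero
  set L : ℂ := ∮ ζ in C(0, ρ), conj (E ζ) * deriv E ζ with hL
  set c : ℕ → ℝ := fun N => ∑ n ∈ Finset.range N, (n:ℝ) * ρ ^ (2 * n) * ‖e n‖ ^ 2 with hc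
  have hlim2 : Tendsto (fun N => ((c N : ℝ) : ℂ)) atTop (𝓝 ((2 * π * I : ℂ)⁻¹ * L)) := by
    have := hlim.const_mul ((2 * π * I : ℂ)⁻¹)
    refine this.congr ?_
    intro N
    rw [hval N, ← mul_assoc, inv_mul_cancel₀ h2pi, one_mul]
  have hre := (Complex.continuous_re.tendsto _).comp hlim2
  have him := (Complex.continuous_im.tendsto _).comp hlim2
  have hmono : Monotone c := by
    refine monotone_nat_of_le_succ fun N => ?_
    simp only [hc, Finset.sum_range_succ]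
    have : 0 ≤ (N:ℝ) * ρ ^ (2 * N) * ‖e N‖ ^ 2 := by positivity
    linarith
  refine ⟨((2 * π * I : ℂ)⁻¹ * L).re, ?_, ?_⟩
  · intro N
    have h1 : Tendsto c atTop (𝓝 ((2 * π * I : ℂ)⁻¹ * L).re) := by
      refine hre.congr fun N => ?_
      simp only [Function.comp, Complex.ofReal_re]
    exact hmono.ge_of_tendsto h1 N
  · have him0 : ((2 * π * I : ℂ)⁻¹ * L).im = 0 := by
      have h1 : (Complex.im ∘ fun N => ((c N : ℝ) : ℂ)) = fun _ => (0:ℝ) := by
        funext N; simp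
      rw [h1] at him
      exact (tendsto_nhds_unique him tendsto_const_nhds)
    have h3 : ((((2 * π * I : ℂ)⁻¹ * L).re : ℝ) : ℂ) = (2 * π * I : ℂ)⁻¹ * L := by
      apply Complex.ext
      · simp
      · simp only [Complex.ofReal_im]; exact him0.symm
    rw [h3, ← mul_assoc, mul_inv_cancel₀ h2pi, one_mul]

end Pool.Agent.Helper39.EK

end

section

set_option autoImplicit false

open Complex MeasureTheory Metric Set Filter Topology
open scoped Real ENNReal ComplexConjugate NNReal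

namespace Pool.Agent.Helper39.EK

open Pool.Agent.Helper39.Area

/-- Parseval for the derivative -/
theorem parseval_deriv {E : ℂ → ℂ} {R s : ℝ} (hE : DifferentiableOn ℂ E (ball 0 R)) (hs : 0 ≤ s)
    (hsR : s < R) :
    HasSum (fun n : ℕ => ‖((n:ℂ) + 1) * (iteratedDeriv (n + 1) E 0 / (n + 1).factorial)‖ ^ 2 *
        s ^ (2 * n))
      ((1 / (2 * π)) * ∫ θ in (-π)..π, ‖deriv E ((s:ℂ) * Complex.exp (θ * I))‖ ^ 2) := by
  have hR : 0 < R := hs.trans_lt hsR
  have hd : DifferentiableOn ℂ (deriv E) (ball 0 R) := hE.deriv isOpen_ball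
  have hsum : ∀ z : ℂ, ‖z‖ < R → HasSum (fun n : ℕ =>
      ((n:ℂ) + 1) * (iteratedDeriv (n + 1) E 0 / (n + 1).factorial) * z ^ n) (deriv E z) := by
    intro z hz
    have h := Complex.hasSum_taylorSeries_on_ball (c := 0) (r := R) (z := z) hd (by simpa using hz)
    have he : (fun n : ℕ => ((n:ℂ) + 1) * (iteratedDeriv (n + 1) E 0 / (n + 1).factorial) * z ^ n)
        = fun n : ℕ => (n.factorial : ℂ)⁻¹ • (z - 0) ^ n • iteratedDeriv n (deriv E) 0 := by
      funext n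
      simp only [smul_eq_mul, sub_zero]
      rw [← iteratedDeriv_succ', Nat.factorial_succ, Nat.cast_mul, Nat.cast_succ]
      have h1 : ((n : ℂ) + 1) ≠ 0 := Nat.cast_add_one_ne_zero n
      have h2 : ((n.factorial : ℕ) : ℂ) ≠ 0 := Nat.cast_ne_zero.mpr (Nat.factorial_ne_zero n)
      field_simp
    rw [he]
    exact h
  have hnorm : ∀ θ : ℝ, ‖(s : ℂ) * Complex.exp ((θ : ℂ) * I)‖ = s := by
    intro θ
    rw [norm_mul, Complex.norm_exp_ofReal_mul_I, mul_one, Complex.norm_real,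
      Real.norm_of_nonneg hs]
  apply Pool.Agent.Helper22.Marshall.parseval_aux
    (fun n : ℕ => ((n:ℂ) + 1) * (iteratedDeriv (n + 1) E 0 / (n + 1).factorial)) s hs
  · have h := (hsum (s : ℂ) (by rw [Complex.norm_real, Real.norm_of_nonneg hs]; exact hsR)).summable
    have h2 := h.norm
    refine h2.congr fun n => ?_
    rw [norm_mul _ ((s : ℂ) ^ n), norm_pow, Complex.norm_real, Real.norm_of_nonneg hs]
  · intro θ
    exact hsum _ (by rw [hnorm]; exact hsR)

/-- the area form is at most the coefficient form -/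
theorem area_le {E : ℂ → ℂ} {R ρ c : ℝ} (hE : DifferentiableOn ℂ E (ball 0 R)) (hρ : 0 < ρ)
    (hρR : ρ < R) (hc : ∀ N : ℕ, ∑ n ∈ Finset.range N,
        (n:ℝ) * ρ ^ (2 * n) * ‖iteratedDeriv n E 0 / n.factorial‖ ^ 2 ≤ c) :
    ∫ z in ball (0:ℂ) ρ, ‖deriv E z‖ ^ 2 ≤ π * c := by
  have hd : DifferentiableOn ℂ (deriv E) (ball 0 R) := hE.deriv isOpen_ball
  set e : ℕ → ℂ := fun n => iteratedDeriv n E 0 / n.factorial with he
  set f : ℂ → ℝ := fun z => ‖deriv E z‖ ^ 2 with hf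
  have hfc : ContinuousOn f (ball 0 R) := (hd.continuousOn.norm).pow 2
  -- polar coordinates
  have h1 : ∫ z in ball (0:ℂ) ρ, f z =
      ∫ s in Ioo 0 ρ, ∫ θ in Ioo (-π) π, s * f ((s:ℂ) * Complex.exp (θ * I)) := by
    rw [← integral_indicator measurableSet_ball, ← Complex.integral_comp_polarCoord_symm]
    have h2 : ∫ p in polarCoord.target, p.1 • (ball (0:ℂ) ρ).indicator f
        (Complex.polarCoord.symm p) = ∫ p in Ioo 0 ρ ×ˢ Ioo (-π) π,
          p.1 * f ((p.1:ℂ) * Complex.exp (p.2 * I)) := by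
      have h3 : ∀ p ∈ polarCoord.target, p.1 • (ball (0:ℂ) ρ).indicator f
          (Complex.polarCoord.symm p) = (Ioo 0 ρ ×ˢ Ioo (-π) π).indicator
            (fun p => p.1 * f ((p.1:ℂ) * Complex.exp (p.2 * I))) p := by
        rintro ⟨r, θ⟩ ⟨hr, hθ⟩
        simp only [mem_Ioi] at hr hθ
        have h4 : Complex.polarCoord.symm (r, θ) = (r:ℂ) * Complex.exp (θ * I) := by
          rw [Complex.polarCoord_symm_apply, Complex.exp_mul_I, Complex.ofReal_cos,
            Complex.ofReal_sin]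
        have h5 : ‖Complex.polarCoord.symm (r, θ)‖ = r := by
          rw [h4, norm_mul, Complex.norm_exp_ofReal_mul_I, mul_one, Complex.norm_real,
            Real.norm_of_nonneg hr.le]
        by_cases hrρ : r < ρ
        · rw [indicator_of_mem (by rw [mem_ball, dist_zero_right, h5]; exact hrρ),
            indicator_of_mem (show (r, θ) ∈ Ioo 0 ρ ×ˢ Ioo (-π) π from ⟨⟨hr, hrρ⟩, hθ⟩), h4,
            smul_eq_mul]
        · rw [indicator_of_notMem (by rw [mem_ball, dist_zero_right, h5]; exact hrρ),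
            indicator_of_notMem (fun h : (r, θ) ∈ Ioo 0 ρ ×ˢ Ioo (-π) π => hrρ h.1.2), smul_zero]
      rw [setIntegral_congr_fun polarCoord.open_target.measurableSet h3,
        setIntegral_indicator (measurableSet_Ioo.prod measurableSet_Ioo)]
      congr 2
      apply inter_eq_right.2
      rintro ⟨r, θ⟩ ⟨hr, hθ⟩
      exact ⟨hr.1, hθ⟩
    rw [h2, Measure.volume_eq_prod, setIntegral_prod]
    -- integrability
    have h6 : ContinuousOn (fun p : ℝ × ℝ => p.1 * f ((p.1:ℂ) * Complex.exp (p.2 * I)))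
        (Icc 0 ρ ×ˢ Icc (-π) π) := by
      apply continuous_fst.continuousOn.mul
      apply hfc.comp (by fun_prop)
      rintro ⟨r, θ⟩ ⟨hr, hθ⟩
      simp only [mem_ball, dist_zero_right, norm_mul, Complex.norm_exp_ofReal_mul_I, mul_one,
        Complex.norm_real]
      rw [Real.norm_of_nonneg hr.1]
      exact hr.2.trans_lt hρR
    have h7 := h6.integrableOn_compact (μ := (volume : Measure (ℝ × ℝ)))
      (isCompact_Icc.prod isCompact_Icc)
    rw [Measure.volume_eq_prod] at h7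
    exact h7.mono_set (prod_mono Ioo_subset_Icc_self Ioo_subset_Icc_self)
  -- the inner integral
  have h8 : ∀ s ∈ Ioo 0 ρ, ∫ θ in Ioo (-π) π, s * f ((s:ℂ) * Complex.exp (θ * I)) =
      ∑' n : ℕ, 2 * π * (‖((n:ℂ) + 1) * e (n + 1)‖ ^ 2 * s ^ (2 * n + 1)) := by
    intro s hs
    have h9 := (parseval_deriv hE hs.1.le (hs.2.trans hρR)).mul_left (2 * π * s)
    have h10 : 2 * π * s * (1 / (2 * π) * ∫ θ in (-π)..π,
        ‖deriv E ((s:ℂ) * Complex.exp (θ * I))‖ ^ 2) =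
        ∫ θ in Ioo (-π) π, s * f ((s:ℂ) * Complex.exp (θ * I)) := by
      rw [integral_const_mul, intervalIntegral.integral_of_le (by linarith [Real.pi_pos]),
        integral_Ioc_eq_integral_Ioo]
      have hpi : 2 * π * s * (1 / (2 * π)) = s := by
        have : (2 * π) ≠ 0 := by positivity
        field_simp
      rw [← mul_assoc, hpi]
    rw [h10] at h9
    rw [← h9.tsum_eq]
    refine tsum_congr fun n => ?_
    simp only [he]
    ring
  rw [h1, setIntegral_congr_fun measurableSet_Ioo h8]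
  -- integrate the series
  have h11 : ∀ n : ℕ, ∫ s in Ioo 0 ρ, 2 * π * (‖((n:ℂ) + 1) * e (n + 1)‖ ^ 2 * s ^ (2 * n + 1)) =
      π * (((n:ℝ) + 1) * ρ ^ (2 * (n + 1)) * ‖e (n + 1)‖ ^ 2) := by
    intro n
    rw [integral_const_mul, integral_const_mul, ← integral_Ioc_eq_integral_Ioo,
      ← intervalIntegral.integral_of_le hρ.le, integral_pow, norm_mul]
    have h12 : ‖(n:ℂ) + 1‖ = (n:ℝ) + 1 := by
      have : ((n:ℂ) + 1) = (((n:ℝ) + 1 : ℝ) : ℂ) := by push_cast; rfl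
      rw [this, Complex.norm_real, Real.norm_of_nonneg (by positivity)]
    rw [h12, zero_pow (by omega), sub_zero]
    push_cast
    have h13 : ((2:ℝ) * n + 1 + 1) ≠ 0 := by positivity
    field_simp
    ring
  have h14 : ∀ N : ℕ, ∑ n ∈ Finset.range N,
      (((n:ℝ) + 1) * ρ ^ (2 * (n + 1)) * ‖e (n + 1)‖ ^ 2) ≤ c := by
    intro N
    have h15 := hc (N + 1)
    rw [Finset.sum_range_succ'] at h15
    simp only [Nat.cast_add, Nat.cast_one, Nat.cast_zero, zero_mul, add_zero] at h15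
    exact h15
  have h16 : Summable fun n : ℕ => ((n:ℝ) + 1) * ρ ^ (2 * (n + 1)) * ‖e (n + 1)‖ ^ 2 :=
    summable_of_sum_range_le (fun n => by positivity) h14
  have h17 := hasSum_integral_of_summable_integral_norm (μ := volume.restrict (Ioo (0:ℝ) ρ))
      (F := fun (n : ℕ) (s : ℝ) => 2 * π * (‖((n:ℂ) + 1) * e (n + 1)‖ ^ 2 * s ^ (2 * n + 1)))
      (fun n => by
        have : Continuous fun s : ℝ => 2 * π * (‖((n:ℂ) + 1) * e (n + 1)‖ ^ 2 * s ^ (2 * n + 1)) := by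
          fun_prop
        exact (this.continuousOn.integrableOn_compact isCompact_Icc).mono_set Ioo_subset_Icc_self)
      (by
        refine (h16.mul_left π).congr fun n => ?_
        rw [← h11 n]
        apply setIntegral_congr_fun measurableSet_Ioo
        intro s hs
        simp only
        rw [Real.norm_of_nonneg (by have := hs.1; positivity)])
  rw [← h17.tsum_eq]
  simp only [h11]
  rw [tsum_mul_left]
  exact mul_le_mul_of_nonneg_left (h16.tsum_le_of_sum_range_le h14) Real.pi_pos.le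

end Pool.Agent.Helper39.EK

end

section

set_option autoImplicit false
open Complex MeasureTheory Metric Set
open scoped Real ENNReal ComplexConjugate

/-! The logarithmic kernel: `∫_{|u| < M} (conj u)⁻¹ / (v - u) dA(u) = 2π (log |v| - log M)`. -/

namespace Pool.Agent.Helper39.Area

theorem angular_log {ρ : ℝ} (hρ : 0 < ρ) {v : ℂ} (hv : ‖v‖ ≠ ρ) :
    (∫ θ in Ioo (-π) π, (conj (Complex.polarCoord.symm (ρ, θ)))⁻¹ /
      (v - Complex.polarCoord.symm (ρ, θ))) =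
      if ρ < ‖v‖ then 0 else - (2 * π) * ((ρ:ℂ) ^ 2)⁻¹ := by
  have e1 : ∀ θ : ℝ, Complex.polarCoord.symm (ρ, θ) = circleMap 0 ρ θ := by
    intro θ
    rw [Complex.polarCoord_symm_apply, circleMap, zero_add, Complex.exp_mul_I]
    simp
  simp_rw [e1]
  rw [← integral_Ioc_eq_integral_Ioo, ← intervalIntegral.integral_of_le (by linarith [Real.pi_pos])]
  have hper : Function.Periodic (fun θ : ℝ => (conj (circleMap 0 ρ θ))⁻¹ / (v - circleMap 0 ρ θ))
      (2 * π) := by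
    intro θ
    simp only [periodic_circleMap 0 ρ θ]
  have h2 := hper.intervalIntegral_add_eq (-π) 0
  rw [show -π + 2 * π = π by ring, zero_add] at h2
  rw [h2]
  have e2 : (∫ θ in (0:ℝ)..2 * π, (conj (circleMap 0 ρ θ))⁻¹ / (v - circleMap 0 ρ θ)) =
      (∮ w in C(0, ρ), (((ρ:ℂ) ^ 2)⁻¹ * (-I)) * (v - w)⁻¹) := by
    rw [circleIntegral]
    apply intervalIntegral.integral_congr
    intro θ _
    simp only [deriv_circleMap, smul_eq_mul]
    have hne : circleMap 0 ρ θ ≠ 0 := circleMap_ne_center (c := 0) (θ := θ) hρ.ne'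
    have hρ' : (ρ:ℂ) ≠ 0 := by exact_mod_cast hρ.ne'
    have hc : (conj (circleMap 0 ρ θ))⁻¹ = ((ρ:ℂ) ^ 2)⁻¹ * circleMap 0 ρ θ := by
      have h3 : circleMap 0 ρ θ * conj (circleMap 0 ρ θ) = (ρ:ℂ) ^ 2 := by
        rw [Complex.mul_conj, Complex.normSq_eq_norm_sq]
        simp [abs_of_pos hρ]
      have h4 : conj (circleMap 0 ρ θ) ≠ 0 := by simpa using hne
      rw [inv_eq_iff_eq_inv, mul_inv, inv_inv, ← h3]
      field_simp
    rw [hc, div_eq_mul_inv]
    have hI : I * -I = 1 := by simp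
    linear_combination (-(((ρ:ℂ) ^ 2)⁻¹ * circleMap 0 ρ θ * (v - circleMap 0 ρ θ)⁻¹)) * hI
  rw [e2, circleIntegral.integral_const_mul]
  split_ifs with h
  · rw [circle_inv_out hρ h, mul_zero]
  · rw [circle_inv_in (lt_of_le_of_ne (not_lt.mp h) hv)]
    have hI : I * -I = 1 := by simp
    linear_combination (-(2 * π * ((ρ:ℂ) ^ 2)⁻¹)) * hI

theorem inv_mul_inv_le (u v : ℂ) (hv : v ≠ 0) :
    ‖u‖⁻¹ * ‖v - u‖⁻¹ ≤ ‖v‖⁻¹ * (‖u‖⁻¹ + ‖v - u‖⁻¹) := by
  by_cases hu : u = 0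
  · subst hu; simp; positivity
  by_cases huv : v - u = 0
  · rw [huv]; simp
    positivity
  have h1 : 0 < ‖u‖ := norm_pos_iff.mpr hu
  have h2 : 0 < ‖v - u‖ := norm_pos_iff.mpr huv
  have h3 : 0 < ‖v‖ := norm_pos_iff.mpr hv
  have h4 : ‖v‖ ≤ ‖u‖ + ‖v - u‖ := by
    calc ‖v‖ = ‖u + (v - u)‖ := by congr 1; ring
      _ ≤ _ := norm_add_le _ _
  rw [← sub_nonneg]
  have : ‖v‖⁻¹ * (‖u‖⁻¹ + ‖v - u‖⁻¹) - ‖u‖⁻¹ * ‖v - u‖⁻¹ =
      (‖u‖ + ‖v - u‖ - ‖v‖) / (‖v‖ * ‖u‖ * ‖v - u‖) := by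
    field_simp
    ring
  rw [this]
  apply div_nonneg (by linarith) (by positivity)

theorem measurable_logkernel (v : ℂ) : Measurable (fun u : ℂ => (conj u)⁻¹ / (v - u)) := by
  apply Measurable.div _ (by fun_prop)
  exact (Complex.continuous_conj.measurable).inv

theorem integrable_logkernel (M : ℝ) {v : ℂ} (hv : v ≠ 0) :
    IntegrableOn (fun u : ℂ => (conj u)⁻¹ / (v - u)) (ball (0:ℂ) M) := by
  have h0 := integrable_inv 0 M
  simp only [zero_sub, norm_neg] at h0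
  have h := (h0.add (integrable_inv v M)).const_mul (‖v‖⁻¹)
  refine Integrable.mono' h (measurable_logkernel v).aestronglyMeasurable ?_
  refine Filter.Eventually.of_forall ?_
  intro u
  rw [norm_div, norm_inv, RCLike.norm_conj, div_eq_mul_inv]
  exact inv_mul_inv_le u v hv

theorem logkernel (M : ℝ) {v : ℂ} (hv0 : v ≠ 0) (hv : ‖v‖ < M) :
    ∫ u in ball (0:ℂ) M, (conj u)⁻¹ / (v - u) = ((2 * π * (Real.log ‖v‖ - Real.log M) : ℝ) : ℂ) := by
  have hvpos : 0 < ‖v‖ := norm_pos_iff.mpr hv0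
  have hM : 0 < M := hvpos.trans hv
  set f : ℂ → ℂ := (ball (0:ℂ) M).indicator (fun u => (conj u)⁻¹ / (v - u)) with hf
  have hfi : Integrable f := by
    rw [hf, integrable_indicator_iff measurableSet_ball]
    exact integrable_logkernel M hv0
  have hfm : Measurable f := (measurable_logkernel v).indicator measurableSet_ball
  have hsm : Measurable (fun p : ℝ × ℝ => (Complex.polarCoord.symm p : ℂ)) := by
    simp only [Complex.polarCoord_symm_apply]
    fun_prop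
  have hprod : IntegrableOn (fun p : ℝ × ℝ => p.1 • f (Complex.polarCoord.symm p))
      (Ioi (0:ℝ) ×ˢ Ioo (-π) π) := by
    refine ⟨(measurable_fst.smul (hfm.comp hsm)).aestronglyMeasurable, ?_⟩
    rw [hasFiniteIntegral_iff_enorm]
    have h1 := Complex.lintegral_comp_polarCoord_symm (fun u => ‖f u‖ₑ)
    have h2 : (∫⁻ p in Ioi (0:ℝ) ×ˢ Ioo (-π) π, ‖p.1 • f (Complex.polarCoord.symm p)‖ₑ) =
        ∫⁻ p in polarCoord.target, ENNReal.ofReal p.1 • ‖f (Complex.polarCoord.symm p)‖ₑ := by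
      apply setLIntegral_congr_fun (measurableSet_Ioi.prod measurableSet_Ioo)
      rintro ⟨r, θ⟩ ⟨hr, hθ⟩
      simp only [mem_Ioi] at hr
      simp only [smul_eq_mul]
      rw [enorm_smul]
      congr 1
      rw [← ofReal_norm, Real.norm_of_nonneg hr.le]
    rw [h2, h1]
    exact hfi.2
  rw [← integral_indicator measurableSet_ball, ← hf, ← Complex.integral_comp_polarCoord_symm]
  rw [show polarCoord.target = Ioi (0:ℝ) ×ˢ Ioo (-π) π from rfl]
  rw [Measure.volume_eq_prod] at hprod ⊢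
  rw [setIntegral_prod _ hprod]
  -- the inner integral
  have hin : ∀ r ∈ Ioi (0:ℝ), r ≠ ‖v‖ → r ≠ M →
      (∫ θ in Ioo (-π) π, (r, θ).1 • f (Complex.polarCoord.symm (r, θ))) =
        (Ioo ‖v‖ M).indicator (fun r : ℝ => ((-(2 * π) * (r⁻¹) : ℝ) : ℂ)) r := by
    intro r hr hrv hrM'
    simp only [mem_Ioi] at hr
    by_cases hrM : r < M
    · have e : ∀ θ, (r, θ).1 • f (Complex.polarCoord.symm (r, θ)) =
          (r : ℂ) * ((conj (Complex.polarCoord.symm (r, θ)))⁻¹ / (v - Complex.polarCoord.symm (r, θ))) := by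
        intro θ
        rw [hf, indicator_of_mem (by rw [mem_ball, dist_zero_right, Complex.norm_polarCoord_symm, abs_of_pos hr]; exact hrM)]
        simp
      simp_rw [e]
      rw [integral_const_mul, angular_log hr (Ne.symm hrv)]
      have hr' : (r:ℂ) ≠ 0 := by exact_mod_cast hr.ne'
      by_cases h : r < ‖v‖
      · rw [if_pos h, indicator_of_notMem (fun h' => absurd h'.1 (not_lt.mpr h.le)), mul_zero]
      · rw [if_neg h, indicator_of_mem (show r ∈ Ioo ‖v‖ M from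
          ⟨lt_of_le_of_ne (not_lt.mp h) (Ne.symm hrv), hrM⟩)]
        push_cast
        field_simp
    · have e : ∀ θ, (r, θ).1 • f (Complex.polarCoord.symm (r, θ)) = 0 := by
        intro θ
        rw [hf, indicator_of_notMem (by rw [mem_ball, dist_zero_right, Complex.norm_polarCoord_symm, abs_of_pos hr]; exact hrM)]
        simp
      simp_rw [e]
      rw [indicator_of_notMem (fun h' => hrM h'.2)]
      simp
  have hae : (∫ r in Ioi (0:ℝ), ∫ θ in Ioo (-π) π, (r, θ).1 • f (Complex.polarCoord.symm (r, θ))) =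
      ∫ r in Ioi (0:ℝ), (Ioo ‖v‖ M).indicator (fun r : ℝ => ((-(2 * π) * (r⁻¹) : ℝ) : ℂ)) r := by
    apply setIntegral_congr_ae measurableSet_Ioi
    have h1 : ∀ᵐ r : ℝ, r ≠ ‖v‖ := by
      simp [ae_iff, measure_singleton]
    have h2 : ∀ᵐ r : ℝ, r ≠ M := by
      simp [ae_iff, measure_singleton]
    filter_upwards [h1, h2] with r hr1 hr2 hr
    exact hin r hr hr1 hr2
  have hsub : Ioo ‖v‖ M ⊆ Ioi (0:ℝ) := fun r hr => hvpos.trans hr.1
  rw [hae, setIntegral_indicator measurableSet_Ioo, inter_eq_self_of_subset_right hsub,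
    integral_complex_ofReal, ← integral_Ioc_eq_integral_Ioo,
    ← intervalIntegral.integral_of_le hv.le, intervalIntegral.integral_const_mul,
    integral_inv_of_pos hvpos hM, Real.log_div hM.ne' hvpos.ne']
  congr 1
  ring

end Pool.Agent.Helper39.Area

end

section

set_option autoImplicit false
open Complex MeasureTheory Metric Set Polynomial
open scoped Real ENNReal ComplexConjugate

/-! The area inequality for a polynomial of the exterior map. -/

namespace Pool.Agent.Helper39.Area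

variable {β : ℂ → ℂ}

theorem integrable_kernel_poly (p : ℂ[X]) (M : ℝ) (v : ℂ) :
    IntegrableOn (fun u : ℂ => conj (p.eval u) / (v - u)) (ball (0:ℂ) M) := by
  induction p using Polynomial.induction_on' with
  | add p q hp hq =>
    have : (fun u : ℂ => conj ((p + q).eval u) / (v - u)) =
        fun u => conj (p.eval u) / (v - u) + conj (q.eval u) / (v - u) := by
      funext u; rw [eval_add, map_add, add_div]
    rw [this]
    exact hp.add hq
  | monomial n a =>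
    have : (fun u : ℂ => conj ((monomial n a).eval u) / (v - u)) =
        fun u => conj a * (conj u ^ n / (v - u)) := by
      funext u; rw [eval_monomial, map_mul, map_pow, mul_div_assoc]
    rw [this]
    exact (integrable_kernel n M v).const_mul _

theorem kernel_poly (p : ℂ[X]) (M : ℝ) (v : ℂ) (hv : ‖v‖ < M) :
    ∫ u in ball (0:ℂ) M, conj ((derivative p).eval u) / (v - u) =
      π * (conj (p.eval v) - conj (p.eval 0)) := by
  induction p using Polynomial.induction_on' with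
  | add p q hp hq =>
    have : (fun u : ℂ => conj ((derivative (p + q)).eval u) / (v - u)) =
        fun u => conj ((derivative p).eval u) / (v - u) + conj ((derivative q).eval u) / (v - u) := by
      funext u; rw [derivative_add, eval_add, map_add, add_div]
    rw [this, integral_add (integrable_kernel_poly _ M v) (integrable_kernel_poly _ M v), hp, hq]
    simp only [eval_add, map_add]
    ring
  | monomial n a =>
    cases n with
    | zero => simp
    | succ n =>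
      have : (fun u : ℂ => conj ((derivative (monomial (n + 1) a)).eval u) / (v - u)) =
          fun u => conj a * (n + 1) * (conj u ^ n / (v - u)) := by
        funext u
        rw [derivative_monomial, eval_monomial]
        simp only [Nat.add_sub_cancel, map_mul, map_pow, Complex.conj_natCast]
        push_cast
        ring
      rw [this, integral_const_mul, kernel n M v hv]
      have hn : ((n : ℂ) + 1) ≠ 0 := by exact_mod_cast Nat.succ_ne_zero n
      simp only [eval_monomial, map_mul, map_pow]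
      rw [map_zero, zero_pow (Nat.succ_ne_zero n)]
      field_simp
      ring

theorem cont_phi (h : DifferentiableOn ℂ β (ball 0 1)) {ρ : ℝ} (hρ : 0 < ρ) (hρ1 : ρ < 1) :
    ContinuousOn (phi β) (sphere 0 ρ) := fun ζ hζ =>
  (hasDerivAt_phi h (mem_ball_of_sphere hρ1 (sphere_subset_closedBall hζ))
    (sphere_ne hρ hζ)).continuousAt.continuousWithinAt

theorem cont_dphi (h : DifferentiableOn ℂ β (ball 0 1)) {ρ : ℝ} (hρ : 0 < ρ) (hρ1 : ρ < 1) :
    ContinuousOn (dphi β) (sphere 0 ρ) := by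
  apply ContinuousOn.add
  · apply ContinuousOn.neg
    apply ContinuousOn.inv₀ (by fun_prop)
    intro ζ hζ
    exact pow_ne_zero _ (sphere_ne hρ hζ)
  · exact (h.deriv isOpen_ball).continuousOn.mono
      (fun ζ hζ => mem_ball_of_sphere hρ1 (sphere_subset_closedBall hζ))

theorem circleMap_mem {ρ : ℝ} (hρ : 0 < ρ) (θ : ℝ) : circleMap 0 ρ θ ∈ sphere (0:ℂ) ρ :=
  circleMap_mem_sphere 0 hρ.le θ

/-- the inner contour integral -/
theorem inner_int (h : DifferentiableOn ℂ β (ball 0 1)) {ρ : ℝ} (hρ : 0 < ρ) (hρ1 : ρ < 1)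
    (P : ℂ[X]) {u : ℂ} (hu : u ∉ phi β '' sphere 0 ρ) :
    (∮ ζ in C(0, ρ), P.eval (phi β ζ) * dphi β ζ / (phi β ζ - u)) =
      P.eval u * ∮ ζ in C(0, ρ), dphi β ζ / (phi β ζ - u) := by
  have hne : ∀ ζ ∈ sphere (0:ℂ) ρ, phi β ζ - u ≠ 0 := by
    intro ζ hζ h'
    exact hu ⟨ζ, hζ, sub_eq_zero.mp h'⟩
  have hc1 : CircleIntegrable (fun ζ => P.eval u * (dphi β ζ / (phi β ζ - u))) 0 ρ := by
    apply ContinuousOn.circleIntegrable hρ.le
    exact continuousOn_const.mul ((cont_dphi h hρ hρ1).div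
      ((cont_phi h hρ hρ1).sub continuousOn_const) hne)
  have hc2 : CircleIntegrable (fun ζ => (P /ₘ (X - C u)).eval (phi β ζ) * dphi β ζ) 0 ρ := by
    apply ContinuousOn.circleIntegrable hρ.le
    exact ((P /ₘ (X - C u)).continuous.comp_continuousOn (cont_phi h hρ hρ1)).mul
      (cont_dphi h hρ hρ1)
  have h1 : (∮ ζ in C(0, ρ), P.eval (phi β ζ) * dphi β ζ / (phi β ζ - u)) =
      ∮ ζ in C(0, ρ), (P.eval u * (dphi β ζ / (phi β ζ - u)) +
        (P /ₘ (X - C u)).eval (phi β ζ) * dphi β ζ) := by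
    apply circleIntegral.integral_congr hρ.le
    intro ζ hζ
    have h2 : P.eval (phi β ζ) = P.eval u + (phi β ζ - u) * (P /ₘ (X - C u)).eval (phi β ζ) := by
      have h3 := modByMonic_add_div P (X - C u)
      have h4 := congrArg (eval (phi β ζ)) h3
      rw [modByMonic_X_sub_C_eq_C_eval] at h4
      simpa using h4.symm
    simp only
    rw [h2]
    have := hne ζ hζ
    field_simp
  rw [h1, circleIntegral.integral_add hc1 hc2, exact h hρ hρ1, add_zero,
    circleIntegral.integral_const_mul]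

/-- the area inequality: `∮ conj P dP` is a nonpositive multiple of `2 i`. -/
theorem area_ineq (h : Ext β) {ρ : ℝ} (hρ : 0 < ρ) (hρ1 : ρ < 1) (p : ℂ[X]) :
    ∃ c : ℝ, 0 ≤ c ∧ (∮ ζ in C(0, ρ), conj (p.eval (phi β ζ)) *
      ((derivative p).eval (phi β ζ) * dphi β ζ)) = -(2 * I) * c := by
  have hphic := cont_phi h.diff hρ hρ1
  have hdc := cont_dphi h.diff hρ hρ1
  -- the radius
  obtain ⟨M, hM⟩ : ∃ M : ℝ, ∀ ζ ∈ sphere (0:ℂ) ρ, ‖phi β ζ‖ < M := by
    obtain ⟨M, hM⟩ := (isCompact_sphere (0:ℂ) ρ).exists_bound_of_continuousOn hphic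
    exact ⟨M + 1, fun ζ hζ => lt_of_le_of_lt (hM ζ hζ) (lt_add_one M)⟩
  have hMpos : 0 < M := lt_of_le_of_lt (norm_nonneg _) (hM _ (circleMap_mem hρ 0))
  set D : ℂ → ℂ := fun ζ => (derivative p).eval (phi β ζ) * dphi β ζ with hD
  have hDc : ContinuousOn D (sphere 0 ρ) :=
    ((derivative p).continuous.comp_continuousOn hphic).mul hdc
  -- Step 1: rewrite with the kernel
  have e1 : (∮ ζ in C(0, ρ), conj (p.eval (phi β ζ)) * D ζ) =
      ∮ ζ in C(0, ρ), ((π:ℂ)⁻¹ * (D ζ * ∫ u in ball (0:ℂ) M,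
        conj ((derivative p).eval u) / (phi β ζ - u)) + conj (p.eval 0) * D ζ) := by
    apply circleIntegral.integral_congr hρ.le
    intro ζ hζ
    simp only
    rw [kernel_poly p M _ (hM ζ hζ)]
    have : (π:ℂ) ≠ 0 := by exact_mod_cast Real.pi_ne_zero
    field_simp
    ring
  have hpc : ContinuousOn (fun ζ => conj (p.eval (phi β ζ))) (sphere 0 ρ) :=
    Complex.continuous_conj.comp_continuousOn (p.continuous.comp_continuousOn hphic)
  have hci2 : CircleIntegrable (fun ζ => conj (p.eval 0) * D ζ) 0 ρ :=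
    (continuousOn_const.mul hDc).circleIntegrable hρ.le
  have hci1 : CircleIntegrable (fun ζ => (π:ℂ)⁻¹ * (D ζ * ∫ u in ball (0:ℂ) M,
        conj ((derivative p).eval u) / (phi β ζ - u))) 0 ρ := by
    apply ContinuousOn.circleIntegrable hρ.le
    have hcc : ContinuousOn (fun ζ => conj (p.eval (phi β ζ)) * D ζ - conj (p.eval 0) * D ζ)
        (sphere 0 ρ) := (hpc.mul hDc).sub (continuousOn_const.mul hDc)
    apply hcc.congr
    intro ζ hζ
    simp only
    rw [kernel_poly p M _ (hM ζ hζ)]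
    have : (π:ℂ) ≠ 0 := by exact_mod_cast Real.pi_ne_zero
    field_simp
  have e2 : (∮ ζ in C(0, ρ), conj (p.eval 0) * D ζ) = 0 := by
    rw [circleIntegral.integral_const_mul, hD, exact h.diff hρ hρ1, mul_zero]
  rw [e1, circleIntegral.integral_add hci1 hci2, e2, add_zero, circleIntegral.integral_const_mul]
  -- Step 2: Fubini
  have e3 : (∮ ζ in C(0, ρ), D ζ * ∫ u in ball (0:ℂ) M,
        conj ((derivative p).eval u) / (phi β ζ - u)) =
      ∫ u in ball (0:ℂ) M, conj ((derivative p).eval u) *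
        ∮ ζ in C(0, ρ), (derivative p).eval (phi β ζ) * dphi β ζ / (phi β ζ - u) := by
    simp only [circleIntegral]
    have e4 : (∫ θ in (0:ℝ)..2 * π, deriv (circleMap 0 ρ) θ • (D (circleMap 0 ρ θ) *
        ∫ u in ball (0:ℂ) M, conj ((derivative p).eval u) / (phi β (circleMap 0 ρ θ) - u))) =
        ∫ θ in (0:ℝ)..2 * π, ∫ u in ball (0:ℂ) M, deriv (circleMap 0 ρ) θ * (D (circleMap 0 ρ θ) *
          (conj ((derivative p).eval u) / (phi β (circleMap 0 ρ θ) - u))) := by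
      congr 1
      funext θ
      rw [smul_eq_mul, ← integral_const_mul, ← integral_const_mul]
    have e5 : (∫ u in ball (0:ℂ) M, conj ((derivative p).eval u) *
        ∫ θ in (0:ℝ)..2 * π, deriv (circleMap 0 ρ) θ •
          ((derivative p).eval (phi β (circleMap 0 ρ θ)) * dphi β (circleMap 0 ρ θ) /
            (phi β (circleMap 0 ρ θ) - u))) =
        ∫ u in ball (0:ℂ) M, ∫ θ in (0:ℝ)..2 * π, deriv (circleMap 0 ρ) θ * (D (circleMap 0 ρ θ) *
          (conj ((derivative p).eval u) / (phi β (circleMap 0 ρ θ) - u))) := by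
      congr 1
      funext u
      rw [← intervalIntegral.integral_const_mul]
      congr 1
      funext θ
      simp only [hD, smul_eq_mul]
      ring
    rw [e4, e5]
    simp only [intervalIntegral.integral_of_le Real.two_pi_pos.le]
    apply integral_integral_swap
    -- integrability
    have hcθ : Continuous (fun θ : ℝ => circleMap 0 ρ θ) := continuous_circleMap 0 ρ
    have hc1 : Continuous (fun θ : ℝ => phi β (circleMap 0 ρ θ)) :=
      hphic.comp_continuous hcθ (fun θ => circleMap_mem hρ θ)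
    have hc2 : Continuous (fun θ : ℝ => deriv (circleMap 0 ρ) θ * D (circleMap 0 ρ θ)) := by
      have : deriv (circleMap 0 ρ) = fun θ => circleMap 0 ρ θ * I := by
        funext θ; rw [deriv_circleMap]
      apply Continuous.mul
      · rw [this]; fun_prop
      · exact hDc.comp_continuous hcθ (fun θ => circleMap_mem hρ θ)
    have hmeas : Measurable (fun z : ℝ × ℂ => deriv (circleMap 0 ρ) z.1 * (D (circleMap 0 ρ z.1) *
          (conj ((derivative p).eval z.2) / (phi β (circleMap 0 ρ z.1) - z.2)))) := by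
      have m1 : Measurable (fun z : ℝ × ℂ => deriv (circleMap 0 ρ) z.1 * D (circleMap 0 ρ z.1)) :=
        hc2.measurable.comp measurable_fst
      have m2 : Measurable (fun z : ℝ × ℂ => conj ((derivative p).eval z.2)) :=
        (Complex.continuous_conj.comp (derivative p).continuous).measurable.comp measurable_snd
      have m3 : Measurable (fun z : ℝ × ℂ => phi β (circleMap 0 ρ z.1) - z.2) :=
        (hc1.measurable.comp measurable_fst).sub measurable_snd
      have e : (fun z : ℝ × ℂ => deriv (circleMap 0 ρ) z.1 * (D (circleMap 0 ρ z.1) *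
          (conj ((derivative p).eval z.2) / (phi β (circleMap 0 ρ z.1) - z.2)))) =
          fun z : ℝ × ℂ => (deriv (circleMap 0 ρ) z.1 * D (circleMap 0 ρ z.1)) *
          (conj ((derivative p).eval z.2) / (phi β (circleMap 0 ρ z.1) - z.2)) := by
        funext z; ring
      rw [e]
      exact m1.mul (m2.div m3)
    show Integrable (fun z : ℝ × ℂ => deriv (circleMap 0 ρ) z.1 * (D (circleMap 0 ρ z.1) *
          (conj ((derivative p).eval z.2) / (phi β (circleMap 0 ρ z.1) - z.2))))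
          ((volume.restrict (Ioc 0 (2 * π))).prod (volume.restrict (ball 0 M)))
    refine ⟨hmeas.aestronglyMeasurable, ?_⟩
    -- bounds
    obtain ⟨B1, hB1⟩ := (isCompact_Icc (a := (0:ℝ)) (b := 2 * π)).exists_bound_of_continuousOn
      hc2.continuousOn
    obtain ⟨B2, hB2⟩ := (isCompact_closedBall (0:ℂ) M).exists_bound_of_continuousOn
      (Complex.continuous_conj.comp (derivative p).continuous).continuousOn
    rw [hasFiniteIntegral_iff_enorm]
    rw [lintegral_prod _ (hmeas.enorm.aemeasurable)]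
    calc ∫⁻ θ in Ioc (0:ℝ) (2 * π), ∫⁻ u in ball (0:ℂ) M, ‖deriv (circleMap 0 ρ) θ *
          (D (circleMap 0 ρ θ) *
          (conj ((derivative p).eval u) / (phi β (circleMap 0 ρ θ) - u)))‖ₑ
        ≤ ∫⁻ θ in Ioc (0:ℝ) (2 * π), ENNReal.ofReal (B1 * B2) * ENNReal.ofReal (2 * π * (M + M)) := by
          apply setLIntegral_mono measurable_const
          intro θ hθ
          have hθ' : θ ∈ Icc (0:ℝ) (2 * π) := Ioc_subset_Icc_self hθ
          calc ∫⁻ u in ball (0:ℂ) M, ‖deriv (circleMap 0 ρ) θ * (D (circleMap 0 ρ θ) *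
                (conj ((derivative p).eval u) / (phi β (circleMap 0 ρ θ) - u)))‖ₑ
              ≤ ∫⁻ u in ball (0:ℂ) M, ENNReal.ofReal (B1 * B2) *
                  ENNReal.ofReal (‖phi β (circleMap 0 ρ θ) - u‖⁻¹) := by
                apply setLIntegral_mono
                · apply Measurable.const_mul
                  exact (by fun_prop : Measurable fun u : ℂ => ‖phi β (circleMap 0 ρ θ) - u‖⁻¹).ennreal_ofReal
                intro u hu
                rw [← ofReal_norm, ← ENNReal.ofReal_mul (mul_nonneg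
                  ((norm_nonneg _).trans (hB1 θ hθ')) ((norm_nonneg _).trans (hB2 u (ball_subset_closedBall hu))))]
                apply ENNReal.ofReal_le_ofReal
                have b1 := hB1 θ hθ'
                have b2 := hB2 u (ball_subset_closedBall hu)
                simp only [Function.comp] at b2
                calc ‖deriv (circleMap 0 ρ) θ * (D (circleMap 0 ρ θ) *
                      (conj ((derivative p).eval u) / (phi β (circleMap 0 ρ θ) - u)))‖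
                    = ‖deriv (circleMap 0 ρ) θ * D (circleMap 0 ρ θ)‖ *
                      ‖conj ((derivative p).eval u)‖ * ‖phi β (circleMap 0 ρ θ) - u‖⁻¹ := by
                      rw [← mul_assoc, norm_mul, norm_div, div_eq_mul_inv]
                      ring
                  _ ≤ B1 * B2 * ‖phi β (circleMap 0 ρ θ) - u‖⁻¹ := by
                      apply mul_le_mul_of_nonneg_right _ (by positivity)
                      exact mul_le_mul b1 b2 (norm_nonneg _) ((norm_nonneg _).trans b1)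
            _ = ENNReal.ofReal (B1 * B2) * ∫⁻ u in ball (0:ℂ) M,
                  ENNReal.ofReal (‖phi β (circleMap 0 ρ θ) - u‖⁻¹) := by
                rw [lintegral_const_mul' _ _ ENNReal.ofReal_ne_top]
            _ ≤ ENNReal.ofReal (B1 * B2) * ENNReal.ofReal (2 * π * (M + M)) := by
                gcongr
                refine (lint_inv _ M).trans ?_
                apply ENNReal.ofReal_le_ofReal
                have := (hM _ (circleMap_mem hρ θ)).le
                have hpi := Real.pi_pos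
                nlinarith
      _ < ⊤ := by
          rw [setLIntegral_const]
          apply ENNReal.mul_lt_top
          · exact ENNReal.mul_lt_top ENNReal.ofReal_lt_top ENNReal.ofReal_lt_top
          · rw [Real.volume_Ioc]; exact ENNReal.ofReal_lt_top
  rw [e3]
  -- Step 3: evaluate the inner integral almost everywhere
  have hnull : volume (phi β '' sphere 0 ρ) = 0 := by
    apply addHaar_image_eq_zero_of_differentiableOn_of_addHaar_eq_zero
    · intro ζ hζ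
      have h1 := hasDerivAt_phi h.diff (mem_ball_of_sphere hρ1 (sphere_subset_closedBall hζ))
        (sphere_ne hρ hζ)
      exact (h1.hasFDerivAt.restrictScalars ℝ).differentiableAt.differentiableWithinAt
    · exact Measure.addHaar_sphere volume 0 ρ
  set S : Set ℂ := phi β '' (ball 0 ρ \ {0}) with hS
  have hSo : IsOpen S := by
    -- open mapping
    have ho : ∀ ζ ∈ ball (0:ℂ) ρ \ {0}, S ∈ nhds (phi β ζ) := by
      rintro ζ ⟨hζ, hζ0⟩
      have hζ0' : ζ ≠ 0 := hζ0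
      have hζ1 : ζ ∈ ball (0:ℂ) 1 := mem_ball_of_sphere hρ1 (ball_subset_closedBall hζ)
      have hst : HasStrictDerivAt (phi β) (dphi β ζ) ζ := by
        have h1 : DifferentiableOn ℂ (phi β) (ball 0 1 \ {0}) := by
          rintro ω ⟨hω, hω0⟩
          exact (hasDerivAt_phi h.diff hω hω0).differentiableAt.differentiableWithinAt
        have h2 : AnalyticAt ℂ (phi β) ζ :=
          h1.analyticAt ((isOpen_ball.sdiff isClosed_singleton).mem_nhds ⟨hζ1, hζ0⟩)
        have h3 := h2.hasStrictDerivAt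
        rwa [(hasDerivAt_phi h.diff hζ1 hζ0').deriv] at h3
      have hd0 : dphi β ζ ≠ 0 := by
        have := h.ne ζ hζ1
        intro h'
        apply this
        have : 1 - ζ ^ 2 * deriv β ζ = - ζ ^ 2 * dphi β ζ := by
          unfold dphi
          field_simp
          ring
        rw [this, h', mul_zero]
      have hmap := hst.map_nhds_eq hd0
      rw [← hmap]
      exact Filter.image_mem_map ((isOpen_ball.sdiff isClosed_singleton).mem_nhds ⟨hζ, hζ0⟩)
    rw [isOpen_iff_mem_nhds]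
    rintro _ ⟨ζ, hζ, rfl⟩
    exact ho ζ hζ
  have hae : ∀ᵐ u : ℂ, conj ((derivative p).eval u) *
        (∮ ζ in C(0, ρ), (derivative p).eval (phi β ζ) * dphi β ζ / (phi β ζ - u)) =
      -(2 * π * I) * ((Sᶜ.indicator (fun u => ‖(derivative p).eval u‖ ^ 2) u : ℝ) : ℂ) := by
    have : ∀ᵐ u : ℂ, u ∉ phi β '' sphere 0 ρ := measure_eq_zero_iff_ae_notMem.mp hnull
    filter_upwards [this] with u hu
    rw [inner_int h.diff hρ hρ1 _ hu]
    by_cases huS : u ∈ S
    · rw [indicator_of_notMem (by simpa using huS)]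
      obtain ⟨a, ⟨ha, ha0⟩, rfl⟩ := huS
      rw [wind_in h hρ hρ1 ha ha0]
      simp
    · rw [indicator_of_mem (by simpa using huS)]
      rw [wind_out h.diff hρ hρ1]
      · have h7 : (((‖(derivative p).eval u‖ ^ 2 : ℝ)) : ℂ) =
            (derivative p).eval u * conj ((derivative p).eval u) := by
          rw [Complex.mul_conj, Complex.normSq_eq_norm_sq]
        rw [h7]; ring
      · intro ζ hζ hζ0 h'
        rcases lt_or_eq_of_le (show ‖ζ‖ ≤ ρ by simpa using hζ) with h8 | h8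
        · exact huS ⟨ζ, ⟨by simpa using h8, hζ0⟩, h'⟩
        · exact hu ⟨ζ, by simpa using h8, h'⟩
  rw [setIntegral_congr_ae measurableSet_ball (hae.mono fun u hu _ => hu), integral_const_mul,
    integral_complex_ofReal]
  refine ⟨∫ u in ball (0:ℂ) M, Sᶜ.indicator (fun u => ‖(derivative p).eval u‖ ^ 2) u, ?_, ?_⟩
  · apply integral_nonneg
    intro u
    apply indicator_nonneg
    intro u _
    positivity
  · have : (π:ℂ) ≠ 0 := by exact_mod_cast Real.pi_ne_zero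
    field_simp

end Pool.Agent.Helper39.Area

end

section

set_option autoImplicit false
open Complex MeasureTheory Metric Set
open scoped Real ENNReal ComplexConjugate

/-! The area inequality for the logarithm of the exterior map. -/

namespace Pool.Agent.Helper39.Area

variable {β : ℂ → ℂ}

/-- the inner contour integral -/
theorem inner_log (h : Ext β) {ρ : ℝ} (hρ : 0 < ρ) (hρ1 : ρ < 1)
    {a : ℂ} (ha : a ∈ ball (0:ℂ) ρ) (ha0 : a ≠ 0) {u : ℂ} (hu0 : u ≠ 0)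
    (hu : phi β a + u ∉ phi β '' sphere 0 ρ) :
    (∮ ζ in C(0, ρ), dphi β ζ / (phi β ζ - phi β a) / (phi β ζ - phi β a - u)) =
      u⁻¹ * ∮ ζ in C(0, ρ), dphi β ζ / (phi β ζ - (phi β a + u)) := by
  have ha1 : a ∈ ball (0:ℂ) 1 := mem_ball_of_sphere hρ1 (ball_subset_closedBall ha)
  have hne : ∀ ζ ∈ sphere (0:ℂ) ρ, phi β ζ - (phi β a + u) ≠ 0 := by
    intro ζ hζ h'
    exact hu ⟨ζ, hζ, sub_eq_zero.mp h'⟩
  have hne2 : ∀ ζ ∈ sphere (0:ℂ) ρ, phi β ζ - phi β a ≠ 0 := by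
    intro ζ hζ h'
    have h2 := h.inj ζ a (mem_ball_of_sphere hρ1 (sphere_subset_closedBall hζ)) ha1
      (sphere_ne hρ hζ) ha0 (sub_eq_zero.mp h')
    subst h2
    simp at ha hζ
    linarith
  have hc1 : CircleIntegrable (fun ζ => dphi β ζ / (phi β ζ - (phi β a + u))) 0 ρ := by
    apply ContinuousOn.circleIntegrable hρ.le
    exact (cont_dphi h.diff hρ hρ1).div
      ((cont_phi h.diff hρ hρ1).sub continuousOn_const) hne
  have hc2 : CircleIntegrable (fun ζ => dphi β ζ / (phi β ζ - phi β a)) 0 ρ := by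
    apply ContinuousOn.circleIntegrable hρ.le
    exact (cont_dphi h.diff hρ hρ1).div
      ((cont_phi h.diff hρ hρ1).sub continuousOn_const) hne2
  have h1 : (∮ ζ in C(0, ρ), dphi β ζ / (phi β ζ - phi β a) / (phi β ζ - phi β a - u)) =
      ∮ ζ in C(0, ρ), u⁻¹ * (dphi β ζ / (phi β ζ - (phi β a + u)) -
        dphi β ζ / (phi β ζ - phi β a)) := by
    apply circleIntegral.integral_congr hρ.le
    intro ζ hζ
    have h3 := hne ζ hζ
    have h4 := hne2 ζ hζ
    have h5 : phi β ζ - phi β a - u ≠ 0 := by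
      intro h'
      apply h3
      rw [← h']; ring
    simp only
    rw [show phi β ζ - (phi β a + u) = phi β ζ - phi β a - u by ring]
    field_simp
    ring
  rw [h1, circleIntegral.integral_const_mul, circleIntegral.integral_sub hc1 hc2,
    wind_in h hρ hρ1 ha ha0, sub_zero]

/-- the area inequality for `log (φ - φ a)` -/
theorem area_log (h : Ext β) {ρ : ℝ} (hρ : 0 < ρ) (hρ1 : ρ < 1)
    {a : ℂ} (ha : a ∈ ball (0:ℂ) ρ) (ha0 : a ≠ 0) :
    ∃ c : ℝ, 0 ≤ c ∧ (∮ ζ in C(0, ρ), ((2 * Real.log ‖phi β ζ - phi β a‖ : ℝ) : ℂ) *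
      (dphi β ζ / (phi β ζ - phi β a))) = -(2 * I) * c := by
  have ha1 : a ∈ ball (0:ℂ) 1 := mem_ball_of_sphere hρ1 (ball_subset_closedBall ha)
  have hphic := cont_phi h.diff hρ hρ1
  have hdc := cont_dphi h.diff hρ hρ1
  set w : ℂ := phi β a with hw
  have hne2 : ∀ ζ ∈ sphere (0:ℂ) ρ, phi β ζ - w ≠ 0 := by
    intro ζ hζ h'
    have h2 := h.inj ζ a (mem_ball_of_sphere hρ1 (sphere_subset_closedBall hζ)) ha1
      (sphere_ne hρ hζ) ha0 (sub_eq_zero.mp h')
    subst h2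
    simp at ha hζ
    linarith
  have hvc : ContinuousOn (fun ζ => phi β ζ - w) (sphere 0 ρ) := hphic.sub continuousOn_const
  -- the radius
  obtain ⟨M, hM⟩ : ∃ M : ℝ, ∀ ζ ∈ sphere (0:ℂ) ρ, ‖phi β ζ - w‖ < M := by
    obtain ⟨M, hM⟩ := (isCompact_sphere (0:ℂ) ρ).exists_bound_of_continuousOn hvc
    exact ⟨M + 1, fun ζ hζ => lt_of_le_of_lt (hM ζ hζ) (lt_add_one M)⟩
  have hMpos : 0 < M := lt_of_le_of_lt (norm_nonneg _) (hM _ (circleMap_mem hρ 0))
  -- the lower bound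
  obtain ⟨d, hd0, hd⟩ : ∃ d : ℝ, 0 < d ∧ ∀ ζ ∈ sphere (0:ℂ) ρ, ‖phi β ζ - w‖⁻¹ ≤ d := by
    have : ContinuousOn (fun ζ => (phi β ζ - w)⁻¹) (sphere 0 ρ) := hvc.inv₀ hne2
    obtain ⟨M, hM⟩ := (isCompact_sphere (0:ℂ) ρ).exists_bound_of_continuousOn this
    refine ⟨|M| + 1, by positivity, fun ζ hζ => ?_⟩
    have := hM ζ hζ
    rw [norm_inv] at this
    linarith [le_abs_self M]
  set D : ℂ → ℂ := fun ζ => dphi β ζ / (phi β ζ - w) with hD
  have hDc : ContinuousOn D (sphere 0 ρ) := hdc.div hvc hne2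
  -- Step 1: rewrite with the kernel
  have e1 : (∮ ζ in C(0, ρ), ((2 * Real.log ‖phi β ζ - w‖ : ℝ) : ℂ) * D ζ) =
      ∮ ζ in C(0, ρ), ((π:ℂ)⁻¹ * (D ζ * ∫ u in ball (0:ℂ) M,
        (conj u)⁻¹ / (phi β ζ - w - u)) + ((2 * Real.log M : ℝ) : ℂ) * D ζ) := by
    apply circleIntegral.integral_congr hρ.le
    intro ζ hζ
    simp only
    rw [logkernel M (hne2 ζ hζ) (hM ζ hζ)]
    have : (π:ℂ) ≠ 0 := by exact_mod_cast Real.pi_ne_zero
    push_cast
    field_simp
    ring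
  have hlc : ContinuousOn (fun ζ => ((2 * Real.log ‖phi β ζ - w‖ : ℝ) : ℂ)) (sphere 0 ρ) := by
    apply Complex.continuous_ofReal.comp_continuousOn
    apply continuousOn_const.mul
    apply ContinuousOn.log hvc.norm
    intro ζ hζ
    exact norm_ne_zero_iff.mpr (hne2 ζ hζ)
  have hci2 : CircleIntegrable (fun ζ => ((2 * Real.log M : ℝ) : ℂ) * D ζ) 0 ρ :=
    (continuousOn_const.mul hDc).circleIntegrable hρ.le
  have hci1 : CircleIntegrable (fun ζ => (π:ℂ)⁻¹ * (D ζ * ∫ u in ball (0:ℂ) M,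
        (conj u)⁻¹ / (phi β ζ - w - u))) 0 ρ := by
    apply ContinuousOn.circleIntegrable hρ.le
    have hcc : ContinuousOn (fun ζ => ((2 * Real.log ‖phi β ζ - w‖ : ℝ) : ℂ) * D ζ -
        ((2 * Real.log M : ℝ) : ℂ) * D ζ) (sphere 0 ρ) :=
      (hlc.mul hDc).sub (continuousOn_const.mul hDc)
    apply hcc.congr
    intro ζ hζ
    simp only
    rw [logkernel M (hne2 ζ hζ) (hM ζ hζ)]
    have : (π:ℂ) ≠ 0 := by exact_mod_cast Real.pi_ne_zero
    push_cast
    field_simp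
  have e2 : (∮ ζ in C(0, ρ), ((2 * Real.log M : ℝ) : ℂ) * D ζ) = 0 := by
    rw [circleIntegral.integral_const_mul, hD, wind_in h hρ hρ1 ha ha0, mul_zero]
  rw [e1, circleIntegral.integral_add hci1 hci2, e2, add_zero, circleIntegral.integral_const_mul]
  -- Step 2: Fubini
  have e3 : (∮ ζ in C(0, ρ), D ζ * ∫ u in ball (0:ℂ) M, (conj u)⁻¹ / (phi β ζ - w - u)) =
      ∫ u in ball (0:ℂ) M, (conj u)⁻¹ *
        ∮ ζ in C(0, ρ), dphi β ζ / (phi β ζ - w) / (phi β ζ - w - u) := by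
    simp only [circleIntegral]
    have e4 : (∫ θ in (0:ℝ)..2 * π, deriv (circleMap 0 ρ) θ • (D (circleMap 0 ρ θ) *
        ∫ u in ball (0:ℂ) M, (conj u)⁻¹ / (phi β (circleMap 0 ρ θ) - w - u))) =
        ∫ θ in (0:ℝ)..2 * π, ∫ u in ball (0:ℂ) M, deriv (circleMap 0 ρ) θ * (D (circleMap 0 ρ θ) *
          ((conj u)⁻¹ / (phi β (circleMap 0 ρ θ) - w - u))) := by
      congr 1
      funext θ
      rw [smul_eq_mul, ← integral_const_mul, ← integral_const_mul]
    have e5 : (∫ u in ball (0:ℂ) M, (conj u)⁻¹ *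
        ∫ θ in (0:ℝ)..2 * π, deriv (circleMap 0 ρ) θ •
          (dphi β (circleMap 0 ρ θ) / (phi β (circleMap 0 ρ θ) - w) /
            (phi β (circleMap 0 ρ θ) - w - u))) =
        ∫ u in ball (0:ℂ) M, ∫ θ in (0:ℝ)..2 * π, deriv (circleMap 0 ρ) θ * (D (circleMap 0 ρ θ) *
          ((conj u)⁻¹ / (phi β (circleMap 0 ρ θ) - w - u))) := by
      congr 1
      funext u
      rw [← intervalIntegral.integral_const_mul]
      congr 1
      funext θ
      simp only [hD, smul_eq_mul]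
      ring
    rw [e4, e5]
    simp only [intervalIntegral.integral_of_le Real.two_pi_pos.le]
    apply integral_integral_swap
    -- integrability
    have hcθ : Continuous (fun θ : ℝ => circleMap 0 ρ θ) := continuous_circleMap 0 ρ
    have hc1 : Continuous (fun θ : ℝ => phi β (circleMap 0 ρ θ) - w) :=
      hvc.comp_continuous hcθ (fun θ => circleMap_mem hρ θ)
    have hc2 : Continuous (fun θ : ℝ => deriv (circleMap 0 ρ) θ * D (circleMap 0 ρ θ)) := by
      have : deriv (circleMap 0 ρ) = fun θ => circleMap 0 ρ θ * I := by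
        funext θ; rw [deriv_circleMap]
      apply Continuous.mul
      · rw [this]; fun_prop
      · exact hDc.comp_continuous hcθ (fun θ => circleMap_mem hρ θ)
    have hmeas : Measurable (fun z : ℝ × ℂ => deriv (circleMap 0 ρ) z.1 * (D (circleMap 0 ρ z.1) *
          ((conj z.2)⁻¹ / (phi β (circleMap 0 ρ z.1) - w - z.2)))) := by
      have m1 : Measurable (fun z : ℝ × ℂ => deriv (circleMap 0 ρ) z.1 * D (circleMap 0 ρ z.1)) :=
        hc2.measurable.comp measurable_fst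
      have m2 : Measurable (fun z : ℝ × ℂ => (conj z.2)⁻¹) :=
        (Complex.continuous_conj.measurable.inv).comp measurable_snd
      have m3 : Measurable (fun z : ℝ × ℂ => phi β (circleMap 0 ρ z.1) - w - z.2) :=
        (hc1.measurable.comp measurable_fst).sub measurable_snd
      have e : (fun z : ℝ × ℂ => deriv (circleMap 0 ρ) z.1 * (D (circleMap 0 ρ z.1) *
          ((conj z.2)⁻¹ / (phi β (circleMap 0 ρ z.1) - w - z.2)))) =
          fun z : ℝ × ℂ => (deriv (circleMap 0 ρ) z.1 * D (circleMap 0 ρ z.1)) *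
          ((conj z.2)⁻¹ / (phi β (circleMap 0 ρ z.1) - w - z.2)) := by
        funext z; ring
      rw [e]
      exact m1.mul (m2.div m3)
    show Integrable (fun z : ℝ × ℂ => deriv (circleMap 0 ρ) z.1 * (D (circleMap 0 ρ z.1) *
          ((conj z.2)⁻¹ / (phi β (circleMap 0 ρ z.1) - w - z.2))))
          ((volume.restrict (Ioc 0 (2 * π))).prod (volume.restrict (ball 0 M)))
    refine ⟨hmeas.aestronglyMeasurable, ?_⟩
    -- bounds
    obtain ⟨B1, hB1⟩ := (isCompact_Icc (a := (0:ℝ)) (b := 2 * π)).exists_bound_of_continuousOn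
      hc2.continuousOn
    have hB10 : 0 ≤ B1 := (norm_nonneg _).trans (hB1 0 ⟨le_rfl, Real.two_pi_pos.le⟩)
    rw [hasFiniteIntegral_iff_enorm]
    rw [lintegral_prod _ (hmeas.enorm.aemeasurable)]
    calc ∫⁻ θ in Ioc (0:ℝ) (2 * π), ∫⁻ u in ball (0:ℂ) M, ‖deriv (circleMap 0 ρ) θ *
          (D (circleMap 0 ρ θ) *
          ((conj u)⁻¹ / (phi β (circleMap 0 ρ θ) - w - u)))‖ₑ
        ≤ ∫⁻ θ in Ioc (0:ℝ) (2 * π), ENNReal.ofReal (B1 * d) *
            (ENNReal.ofReal (2 * π * M) + ENNReal.ofReal (2 * π * (M + M))) := by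
          apply setLIntegral_mono measurable_const
          intro θ hθ
          have hθ' : θ ∈ Icc (0:ℝ) (2 * π) := Ioc_subset_Icc_self hθ
          set v : ℂ := phi β (circleMap 0 ρ θ) - w with hv
          have hv0 : v ≠ 0 := hne2 _ (circleMap_mem hρ θ)
          have hvd : ‖v‖⁻¹ ≤ d := hd _ (circleMap_mem hρ θ)
          have hvM : ‖v‖ < M := hM _ (circleMap_mem hρ θ)
          calc ∫⁻ u in ball (0:ℂ) M, ‖deriv (circleMap 0 ρ) θ * (D (circleMap 0 ρ θ) *
                ((conj u)⁻¹ / (v - u)))‖ₑ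
              ≤ ∫⁻ u in ball (0:ℂ) M, ENNReal.ofReal (B1 * d) *
                  (ENNReal.ofReal (‖u‖⁻¹) + ENNReal.ofReal (‖v - u‖⁻¹)) := by
                apply setLIntegral_mono
                · apply Measurable.const_mul
                  exact (by fun_prop : Measurable fun u : ℂ => ‖u‖⁻¹).ennreal_ofReal.add
                    (by fun_prop : Measurable fun u : ℂ => ‖v - u‖⁻¹).ennreal_ofReal
                intro u hu
                rw [← ofReal_norm, ← ENNReal.ofReal_add (by positivity) (by positivity),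
                  ← ENNReal.ofReal_mul (by positivity)]
                apply ENNReal.ofReal_le_ofReal
                have b1 := hB1 θ hθ'
                calc ‖deriv (circleMap 0 ρ) θ * (D (circleMap 0 ρ θ) *
                      ((conj u)⁻¹ / (v - u)))‖
                    = ‖deriv (circleMap 0 ρ) θ * D (circleMap 0 ρ θ)‖ *
                      (‖u‖⁻¹ * ‖v - u‖⁻¹) := by
                      rw [← mul_assoc, norm_mul, norm_div, norm_inv, RCLike.norm_conj, div_eq_mul_inv]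
                  _ ≤ B1 * (‖v‖⁻¹ * (‖u‖⁻¹ + ‖v - u‖⁻¹)) := by
                      apply mul_le_mul b1 (inv_mul_inv_le u v hv0) (by positivity) hB10
                  _ ≤ B1 * (d * (‖u‖⁻¹ + ‖v - u‖⁻¹)) := by gcongr
                  _ = B1 * d * (‖u‖⁻¹ + ‖v - u‖⁻¹) := by ring
            _ = ENNReal.ofReal (B1 * d) * (∫⁻ u in ball (0:ℂ) M, ENNReal.ofReal (‖u‖⁻¹) +
                  ENNReal.ofReal (‖v - u‖⁻¹)) := by
                rw [lintegral_const_mul' _ _ ENNReal.ofReal_ne_top]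
            _ = ENNReal.ofReal (B1 * d) * ((∫⁻ u in ball (0:ℂ) M, ENNReal.ofReal (‖u‖⁻¹)) +
                  ∫⁻ u in ball (0:ℂ) M, ENNReal.ofReal (‖v - u‖⁻¹)) := by
                rw [lintegral_add_left (by fun_prop : Measurable fun u : ℂ => ‖u‖⁻¹).ennreal_ofReal]
            _ ≤ ENNReal.ofReal (B1 * d) *
                (ENNReal.ofReal (2 * π * M) + ENNReal.ofReal (2 * π * (M + M))) := by
                gcongr
                · exact lint_inv_ball M
                · refine (lint_inv _ M).trans ?_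
                  apply ENNReal.ofReal_le_ofReal
                  have hpi := Real.pi_pos
                  nlinarith
      _ < ⊤ := by
          rw [setLIntegral_const]
          apply ENNReal.mul_lt_top
          · apply ENNReal.mul_lt_top ENNReal.ofReal_lt_top
            exact ENNReal.add_lt_top.mpr ⟨ENNReal.ofReal_lt_top, ENNReal.ofReal_lt_top⟩
          · rw [Real.volume_Ioc]; exact ENNReal.ofReal_lt_top
  rw [e3]
  -- Step 3: evaluate the inner integral almost everywhere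
  have hnull : volume (phi β '' sphere 0 ρ) = 0 := by
    apply addHaar_image_eq_zero_of_differentiableOn_of_addHaar_eq_zero
    · intro ζ hζ
      have h1 := hasDerivAt_phi h.diff (mem_ball_of_sphere hρ1 (sphere_subset_closedBall hζ))
        (sphere_ne hρ hζ)
      exact (h1.hasFDerivAt.restrictScalars ℝ).differentiableAt.differentiableWithinAt
    · exact Measure.addHaar_sphere volume 0 ρ
  set S : Set ℂ := phi β '' (ball 0 ρ \ {0}) with hS
  have hSo : IsOpen S := by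
    have ho : ∀ ζ ∈ ball (0:ℂ) ρ \ {0}, S ∈ nhds (phi β ζ) := by
      rintro ζ ⟨hζ, hζ0⟩
      have hζ0' : ζ ≠ 0 := hζ0
      have hζ1 : ζ ∈ ball (0:ℂ) 1 := mem_ball_of_sphere hρ1 (ball_subset_closedBall hζ)
      have hst : HasStrictDerivAt (phi β) (dphi β ζ) ζ := by
        have h1 : DifferentiableOn ℂ (phi β) (ball 0 1 \ {0}) := by
          rintro ω ⟨hω, hω0⟩
          exact (hasDerivAt_phi h.diff hω hω0).differentiableAt.differentiableWithinAt
        have h2 : AnalyticAt ℂ (phi β) ζ :=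
          h1.analyticAt ((isOpen_ball.sdiff isClosed_singleton).mem_nhds ⟨hζ1, hζ0⟩)
        have h3 := h2.hasStrictDerivAt
        rwa [(hasDerivAt_phi h.diff hζ1 hζ0').deriv] at h3
      have hd0 : dphi β ζ ≠ 0 := by
        have := h.ne ζ hζ1
        intro h'
        apply this
        have : 1 - ζ ^ 2 * deriv β ζ = - ζ ^ 2 * dphi β ζ := by
          unfold dphi
          field_simp
          ring
        rw [this, h', mul_zero]
      have hmap := hst.map_nhds_eq hd0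
      rw [← hmap]
      exact Filter.image_mem_map ((isOpen_ball.sdiff isClosed_singleton).mem_nhds ⟨hζ, hζ0⟩)
    rw [isOpen_iff_mem_nhds]
    rintro _ ⟨ζ, hζ, rfl⟩
    exact ho ζ hζ
  set T : Set ℂ := {u | w + u ∉ S} with hT
  have hae : ∀ᵐ u : ℂ, (conj u)⁻¹ *
        (∮ ζ in C(0, ρ), dphi β ζ / (phi β ζ - w) / (phi β ζ - w - u)) =
      -(2 * π * I) * ((T.indicator (fun u => (‖u‖ ^ 2)⁻¹) u : ℝ) : ℂ) := by
    have h1 : ∀ᵐ u : ℂ, w + u ∉ phi β '' sphere 0 ρ := by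
      have h2 : volume ((fun u => w + u) ⁻¹' (phi β '' sphere 0 ρ)) = 0 := by
        rw [measure_preimage_add]; exact hnull
      exact measure_eq_zero_iff_ae_notMem.mp h2
    have h2 : ∀ᵐ u : ℂ, u ≠ 0 := by
      have : volume ({0} : Set ℂ) = 0 := measure_singleton 0
      filter_upwards [measure_eq_zero_iff_ae_notMem.mp this] with u hu
      simpa using hu
    filter_upwards [h1, h2] with u hu hu0
    rw [inner_log h hρ hρ1 ha ha0 hu0 hu]
    by_cases huS : w + u ∈ S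
    · rw [indicator_of_notMem (by simpa [hT] using huS)]
      obtain ⟨b, ⟨hb, hb0⟩, hbw⟩ := huS
      rw [← hw, ← hbw, wind_in h hρ hρ1 hb hb0]
      simp
    · rw [indicator_of_mem (by simpa [hT] using huS)]
      rw [wind_out h.diff hρ hρ1]
      · have h7 : (((‖u‖ ^ 2)⁻¹ : ℝ) : ℂ) = u⁻¹ * (conj u)⁻¹ := by
          rw [← mul_inv, Complex.mul_conj, Complex.normSq_eq_norm_sq]
          push_cast
          rfl
        rw [h7]; ring
      · intro ζ hζ hζ0 h'
        rcases lt_or_eq_of_le (show ‖ζ‖ ≤ ρ by simpa using hζ) with h8 | h8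
        · exact huS ⟨ζ, ⟨by simpa using h8, hζ0⟩, h'⟩
        · exact hu ⟨ζ, by simpa using h8, h'⟩
  rw [setIntegral_congr_ae measurableSet_ball (hae.mono fun u hu _ => hu), integral_const_mul,
    integral_complex_ofReal]
  refine ⟨∫ u in ball (0:ℂ) M, T.indicator (fun u => (‖u‖ ^ 2)⁻¹) u, ?_, ?_⟩
  · apply integral_nonneg
    intro u
    apply indicator_nonneg
    intro u _
    positivity
  · have : (π:ℂ) ≠ 0 := by exact_mod_cast Real.pi_ne_zero
    field_simp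

end Pool.Agent.Helper39.Area

end

section

set_option autoImplicit false
open Complex MeasureTheory Metric Set Filter Topology
open scoped Real ENNReal ComplexConjugate NNReal

/-! The Goluzin inequality at one point. -/

namespace Pool.Agent.Helper39.Area

/-- conjugate of a circle integral -/
theorem conj_circle {ρ : ℝ} (hρ : 0 < ρ) (f : ℂ → ℂ) :
    conj (∮ ζ in C(0, ρ), f ζ) = ∮ ζ in C(0, ρ), (-((ρ:ℂ) ^ 2 / ζ ^ 2)) * conj (f ζ) := by
  rw [circleIntegral, circleIntegral, intervalIntegral.integral_of_le Real.two_pi_pos.le,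
    intervalIntegral.integral_of_le Real.two_pi_pos.le, ← integral_conj]
  congr 1
  funext θ
  have hne : circleMap 0 ρ θ ≠ 0 := circleMap_ne_center (c := 0) (θ := θ) hρ.ne'
  have hc : conj (circleMap 0 ρ θ) = (ρ:ℂ) ^ 2 / circleMap 0 ρ θ :=
    conj_sphere hρ (circleMap_mem_sphere 0 hρ.le θ)
  simp only [deriv_circleMap, smul_eq_mul, map_mul, Complex.conj_I, hc]
  field_simp

theorem parts {ρ : ℝ} (hρ : 0 < ρ) {f g f' g' : ℂ → ℂ}
    (hf : ∀ ζ ∈ sphere (0:ℂ) ρ, HasDerivAt f (f' ζ) ζ)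
    (hg : ∀ ζ ∈ sphere (0:ℂ) ρ, HasDerivAt g (g' ζ) ζ)
    (hf' : ContinuousOn f' (sphere 0 ρ)) (hg' : ContinuousOn g' (sphere 0 ρ)) :
    (∮ ζ in C(0, ρ), f ζ * g' ζ) = - ∮ ζ in C(0, ρ), g ζ * f' ζ := by
  have hfc : ContinuousOn f (sphere 0 ρ) := fun ζ hζ => (hf ζ hζ).continuousAt.continuousWithinAt
  have hgc : ContinuousOn g (sphere 0 ρ) := fun ζ hζ => (hg ζ hζ).continuousAt.continuousWithinAt
  have h1 : (∮ ζ in C(0, ρ), (f' ζ * g ζ + f ζ * g' ζ)) = 0 := by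
    apply circleIntegral.integral_eq_zero_of_hasDerivWithinAt hρ.le (f := fun ζ => f ζ * g ζ)
    intro ζ hζ
    exact ((hf ζ hζ).mul (hg ζ hζ)).hasDerivWithinAt
  have hi1 : CircleIntegrable (fun ζ => f' ζ * g ζ) 0 ρ := (hf'.mul hgc).circleIntegrable hρ.le
  have hi2 : CircleIntegrable (fun ζ => f ζ * g' ζ) 0 ρ := (hfc.mul hg').circleIntegrable hρ.le
  rw [circleIntegral.integral_add hi1 hi2] at h1
  have h2 : (∮ ζ in C(0, ρ), f' ζ * g ζ) = ∮ ζ in C(0, ρ), g ζ * f' ζ := by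
    congr 1; funext ζ; ring
  rw [h2] at h1
  linear_combination h1

theorem cauchy_zero {ρ R : ℝ} (hρ : 0 < ρ) (hρR : ρ < R) {W : ℂ → ℂ}
    (hW : DifferentiableOn ℂ W (ball 0 R)) : (∮ ζ in C(0, ρ), W ζ) = 0 := by
  apply Complex.circleIntegral_eq_zero_of_differentiable_on_off_countable hρ.le countable_empty
  · exact hW.continuousOn.mono (closedBall_subset_ball hρR)
  · intro ζ hζ
    exact hW.differentiableAt (isOpen_ball.mem_nhds
      (closedBall_subset_ball hρR (ball_subset_closedBall hζ.1)))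

/-- derivative of `log (1 - a / ζ)` -/
noncomputable def gp (a ζ : ℂ) : ℂ := (ζ - a)⁻¹ - ζ⁻¹

/-- reproducing property -/
theorem repro {ρ R : ℝ} (hρ : 0 < ρ) (hρR : ρ < R) {W : ℂ → ℂ}
    (hW : DifferentiableOn ℂ W (ball 0 R)) {a : ℂ} (ha : a ∈ ball (0:ℂ) ρ) :
    (∮ ζ in C(0, ρ), W ζ * gp a ζ) = 2 * π * I * (W a - W 0) := by
  have hWc : DifferentiableOn ℂ W (closedBall 0 ρ) := hW.mono (closedBall_subset_ball hρR)
  have h1 := hWc.circleIntegral_sub_inv_smul ha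
  have h2 := hWc.circleIntegral_sub_inv_smul (mem_ball_self hρ)
  have hWs : ContinuousOn W (sphere 0 ρ) := hWc.continuousOn.mono sphere_subset_closedBall
  have hc : ∀ b ∈ ball (0:ℂ) ρ, CircleIntegrable (fun z => (z - b)⁻¹ • W z) 0 ρ := by
    intro b hb
    apply ContinuousOn.circleIntegrable hρ.le
    have hb' : ContinuousOn (fun z : ℂ => (z - b)⁻¹) (sphere 0 ρ) := by
      apply ContinuousOn.inv₀ (by fun_prop)
      intro ζ hζ h'
      rw [sub_eq_zero] at h'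
      subst h'
      simp at hζ hb
      linarith
    exact hb'.smul hWs
  have h3 : (∮ ζ in C(0, ρ), W ζ * gp a ζ) =
      ∮ ζ in C(0, ρ), ((ζ - a)⁻¹ • W ζ - (ζ - 0)⁻¹ • W ζ) := by
    congr 1
    funext ζ
    simp only [gp, smul_eq_mul, sub_zero]
    ring
  rw [h3, circleIntegral.integral_sub (hc a ha) (hc 0 (mem_ball_self hρ)), h1, h2]
  simp only [smul_eq_mul]
  ring

section

variable {ρ : ℝ} {a : ℂ}

/-- `log (1 - conj a ζ / ρ²)` -/
noncomputable def Lam (ρ : ℝ) (a ζ : ℂ) : ℂ := Complex.log (1 - conj a * ζ / (ρ:ℂ) ^ 2)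

noncomputable def Lamp (ρ : ℝ) (a ζ : ℂ) : ℂ := (-(conj a / (ρ:ℂ) ^ 2)) / (1 - conj a * ζ / (ρ:ℂ) ^ 2)

theorem lam_re (hρ : 0 < ρ) (_ha : a ∈ ball (0:ℂ) ρ) (ha0 : a ≠ 0) {ζ : ℂ}
    (hζ : ζ ∈ ball (0:ℂ) (ρ ^ 2 / ‖a‖)) : 0 < (1 - conj a * ζ / (ρ:ℂ) ^ 2).re := by
  have ha' : 0 < ‖a‖ := norm_pos_iff.mpr ha0
  have h1 : ‖conj a * ζ / (ρ:ℂ) ^ 2‖ < 1 := by
    rw [norm_div, norm_mul, RCLike.norm_conj, norm_pow, Complex.norm_real, Real.norm_eq_abs,
      abs_of_pos hρ, div_lt_one (by positivity)]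
    rw [mem_ball, dist_zero_right, lt_div_iff₀ ha'] at hζ
    linarith
  have h2 := (abs_le.mp (Complex.abs_re_le_norm (conj a * ζ / (ρ:ℂ) ^ 2))).2
  rw [Complex.sub_re, Complex.one_re]
  linarith

theorem lam_hasDeriv (hρ : 0 < ρ) (ha : a ∈ ball (0:ℂ) ρ) (ha0 : a ≠ 0) {ζ : ℂ}
    (hζ : ζ ∈ ball (0:ℂ) (ρ ^ 2 / ‖a‖)) : HasDerivAt (Lam ρ a) (Lamp ρ a ζ) ζ := by
  have h1 : HasDerivAt (fun ζ : ℂ => 1 - conj a * ζ / (ρ:ℂ) ^ 2) (-(conj a / (ρ:ℂ) ^ 2)) ζ := by
    have h2 := (((hasDerivAt_id ζ).const_mul (conj a)).div_const ((ρ:ℂ) ^ 2)).const_sub 1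
    have e : (-(conj a / (ρ:ℂ) ^ 2)) = -(conj a * 1 / (ρ:ℂ) ^ 2) := by ring
    rw [e]
    exact h2
  exact h1.clog (Or.inl (lam_re hρ ha ha0 hζ))

theorem rad_lt (hρ : 0 < ρ) (ha : a ∈ ball (0:ℂ) ρ) (ha0 : a ≠ 0) : ρ < ρ ^ 2 / ‖a‖ := by
  have ha' : 0 < ‖a‖ := norm_pos_iff.mpr ha0
  rw [lt_div_iff₀ ha']
  rw [mem_ball, dist_zero_right] at ha
  nlinarith

theorem lam_diff (hρ : 0 < ρ) (ha : a ∈ ball (0:ℂ) ρ) (ha0 : a ≠ 0) :
    DifferentiableOn ℂ (Lam ρ a) (ball 0 (ρ ^ 2 / ‖a‖)) := fun _ hζ =>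
  (lam_hasDeriv hρ ha ha0 hζ).differentiableAt.differentiableWithinAt

theorem conj_lam (hρ : 0 < ρ) (ha : a ∈ ball (0:ℂ) ρ) (ha0 : a ≠ 0) {ζ : ℂ}
    (hζ : ζ ∈ sphere (0:ℂ) ρ) : conj (Lam ρ a ζ) = Complex.log (1 - a / ζ) := by
  have h1 : ζ ∈ ball (0:ℂ) (ρ ^ 2 / ‖a‖) := by
    have := rad_lt hρ ha ha0
    rw [mem_ball, dist_zero_right]
    rw [mem_sphere, dist_zero_right] at hζ
    linarith
  have h2 := lam_re hρ ha ha0 h1
  have h3 : (1 - conj a * ζ / (ρ:ℂ) ^ 2).arg ≠ π := by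
    intro h
    rw [Complex.arg_eq_pi_iff] at h
    linarith [h.1]
  rw [Lam, ← Complex.log_conj _ h3]
  congr 1
  have hρ' : (ρ:ℂ) ≠ 0 := by exact_mod_cast hρ.ne'
  have h0 := sphere_ne' hρ hζ
  simp only [map_sub, map_one, map_div₀, map_mul, Complex.conj_conj, map_pow, Complex.conj_ofReal]
  rw [conj_sphere hρ hζ]
  field_simp

theorem g_hasDeriv (ha : a ∈ ball (0:ℂ) ρ) (hρ : 0 < ρ) {ζ : ℂ}
    (hζ : ζ ∈ sphere (0:ℂ) ρ) : HasDerivAt (fun ζ => Complex.log (1 - a / ζ)) (gp a ζ) ζ := by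
  have h0 := sphere_ne' hρ hζ
  have hne : ζ - a ≠ 0 := by
    intro h'
    rw [sub_eq_zero] at h'
    subst h'
    simp at hζ ha
    linarith
  have h1 : HasDerivAt (fun ζ : ℂ => 1 - a / ζ) (a / ζ ^ 2) ζ := by
    have h2 := ((hasDerivAt_inv h0).const_mul a).const_sub 1
    have e : a / ζ ^ 2 = -(a * -(ζ ^ 2)⁻¹) := by field_simp
    rw [e]
    exact h2
  have h2 : 0 < (1 - a / ζ).re := by
    have h3 : ‖a / ζ‖ < 1 := by
      rw [norm_div]
      rw [mem_ball, dist_zero_right] at ha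
      rw [mem_sphere, dist_zero_right] at hζ
      rw [hζ, div_lt_one hρ]
      exact ha
    have h4 := (abs_le.mp (Complex.abs_re_le_norm (a / ζ))).2
    rw [Complex.sub_re, Complex.one_re]
    linarith
  have h5 := h1.clog (Or.inl h2)
  have e : a / ζ ^ 2 / (1 - a / ζ) = gp a ζ := by
    unfold gp
    have h6 : 1 - a / ζ = (ζ - a) / ζ := by field_simp
    rw [h6]
    field_simp
    ring
  rw [← e]
  exact h5

theorem gp_cont (ha : a ∈ ball (0:ℂ) ρ) (hρ : 0 < ρ) : ContinuousOn (gp a) (sphere 0 ρ) := by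
  apply ContinuousOn.sub
  · apply ContinuousOn.inv₀ (by fun_prop)
    intro ζ hζ h'
    rw [sub_eq_zero] at h'
    subst h'
    simp at hζ ha
    linarith
  · exact ContinuousOn.inv₀ (by fun_prop) (fun ζ hζ => sphere_ne' hρ hζ)

/-- relation between the two derivatives -/
theorem lamp_eq (hρ : 0 < ρ) (ha : a ∈ ball (0:ℂ) ρ) (ha0 : a ≠ 0) {ζ : ℂ}
    (hζ : ζ ∈ sphere (0:ℂ) ρ) : (-((ρ:ℂ) ^ 2 / ζ ^ 2)) * conj (gp a ζ) = Lamp ρ a ζ := by
  have h1 : ζ ∈ ball (0:ℂ) (ρ ^ 2 / ‖a‖) := by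
    have := rad_lt hρ ha ha0
    rw [mem_ball, dist_zero_right]
    rw [mem_sphere, dist_zero_right] at hζ
    linarith
  have h2 := lam_re hρ ha ha0 h1
  have hne : 1 - conj a * ζ / (ρ:ℂ) ^ 2 ≠ 0 := by
    intro h; rw [h] at h2; simp at h2
  have hρ' : (ρ:ℂ) ≠ 0 := by exact_mod_cast hρ.ne'
  have h0 := sphere_ne' hρ hζ
  have h3 : (ρ:ℂ) ^ 2 - conj a * ζ ≠ 0 := by
    intro h
    apply hne
    rw [sub_eq_zero] at h
    rw [← h]
    field_simp
    ring
  have h4 : (ρ:ℂ) ^ 2 / ζ - conj a = ((ρ:ℂ) ^ 2 - conj a * ζ) / ζ := by field_simp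
  have h5 : 1 - conj a * ζ / (ρ:ℂ) ^ 2 = ((ρ:ℂ) ^ 2 - conj a * ζ) / (ρ:ℂ) ^ 2 := by field_simp
  unfold gp Lamp
  simp only [map_sub, map_inv₀]
  rw [conj_sphere hρ hζ, h4, h5]
  generalize conj a = x at h3 ⊢
  have h6 : (ρ:ℂ) ^ 2 - ζ * x ≠ 0 := by rwa [mul_comm] at h3
  field_simp
  ring

theorem gp_eq (hρ : 0 < ρ) (ha : a ∈ ball (0:ℂ) ρ) (ha0 : a ≠ 0) {ζ : ℂ}
    (hζ : ζ ∈ sphere (0:ℂ) ρ) : (-((ρ:ℂ) ^ 2 / ζ ^ 2)) * conj (Lamp ρ a ζ) = gp a ζ := by
  rw [← lamp_eq hρ ha ha0 hζ]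
  have hρ' : (ρ:ℂ) ≠ 0 := by exact_mod_cast hρ.ne'
  have h0 := sphere_ne' hρ hζ
  simp only [map_mul, map_neg, map_div₀, map_pow, Complex.conj_ofReal, Complex.conj_conj]
  rw [conj_sphere hρ hζ]
  field_simp

theorem lamp_cont (hρ : 0 < ρ) (ha : a ∈ ball (0:ℂ) ρ) (ha0 : a ≠ 0) :
    ContinuousOn (Lamp ρ a) (sphere 0 ρ) := by
  unfold Lamp
  apply ContinuousOn.div continuousOn_const (by fun_prop)
  intro ζ hζ h
  have h1 : ζ ∈ ball (0:ℂ) (ρ ^ 2 / ‖a‖) := by
    have := rad_lt hρ ha ha0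
    rw [mem_ball, dist_zero_right]
    rw [mem_sphere, dist_zero_right] at hζ
    linarith
  have h2 := lam_re hρ ha ha0 h1
  rw [h] at h2; simp at h2

end

end Pool.Agent.Helper39.Area

end

section

set_option autoImplicit false
open Complex MeasureTheory Metric Set Filter Topology
open scoped Real ENNReal ComplexConjugate NNReal

/-! The Goluzin inequality at one point, main computation. -/

namespace Pool.Agent.Helper39.Area

variable {β : ℂ → ℂ}

theorem lam_zero (ρ : ℝ) (a : ℂ) : Lam ρ a 0 = 0 := by simp [Lam]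

theorem lam_self {ρ : ℝ} (hρ : 0 < ρ) {a : ℂ} (ha : a ∈ ball (0:ℂ) ρ) :
    Lam ρ a a = ((Real.log (1 - ‖a‖ ^ 2 / ρ ^ 2) : ℝ) : ℂ) := by
  have h1 : conj a * a = ((‖a‖ ^ 2 : ℝ) : ℂ) := by
    rw [mul_comm, Complex.mul_conj, Complex.normSq_eq_norm_sq]
  have h2 : 0 ≤ 1 - ‖a‖ ^ 2 / ρ ^ 2 := by
    rw [mem_ball, dist_zero_right] at ha
    have : ‖a‖ ^ 2 / ρ ^ 2 ≤ 1 := by
      rw [div_le_one (by positivity)]
      gcongr
    linarith
  rw [Lam, h1, Complex.ofReal_log h2]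
  congr 1
  push_cast
  ring

theorem log_bound_aux (h : Ext β) {ρ : ℝ} (hρ : 0 < ρ) (hρ1 : ρ < 1)
    {a : ℂ} (ha : a ∈ ball (0:ℂ) ρ) (ha0 : a ≠ 0) {F : ℂ → ℂ}
    (hF : ∀ ζ ∈ ball (0:ℂ) 1, HasDerivAt F (deriv (qq β a) ζ / qq β a ζ) ζ)
    (hF0 : F 0 = 0) (hexp : ∀ ζ ∈ ball (0:ℂ) 1, Complex.exp (F ζ) = qq β a ζ) :
    ‖F a‖ ≤ - Real.log (1 - ‖a‖ ^ 2 / ρ ^ 2) := by
  have ha1 : a ∈ ball (0:ℂ) 1 := mem_ball_of_sphere hρ1 (ball_subset_closedBall ha)
  have hapos : 0 < ‖a‖ := norm_pos_iff.mpr ha0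
  have haρ : ‖a‖ < ρ := by simpa using ha
  set Q : ℂ → ℂ := fun ζ => deriv (qq β a) ζ / qq β a ζ with hQ
  set R : ℝ := min 1 (ρ ^ 2 / ‖a‖) with hR
  have hρR : ρ < R := lt_min hρ1 (rad_lt hρ ha ha0)
  have hR1 : ball (0:ℂ) R ⊆ ball 0 1 := ball_subset_ball (min_le_left _ _)
  have hR2 : ball (0:ℂ) R ⊆ ball 0 (ρ ^ 2 / ‖a‖) := ball_subset_ball (min_le_right _ _)
  have hsR : sphere (0:ℂ) ρ ⊆ ball 0 R := by
    intro ζ hζ
    rw [mem_ball, dist_zero_right]
    rw [mem_sphere, dist_zero_right] at hζ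
    linarith
  have hFd : DifferentiableOn ℂ F (ball 0 R) := fun ζ hζ =>
    (hF ζ (hR1 hζ)).differentiableAt.differentiableWithinAt
  have hQd : DifferentiableOn ℂ Q (ball 0 R) := by
    have h1 : DifferentiableOn ℂ (deriv F) (ball 0 R) := hFd.deriv isOpen_ball
    apply h1.congr
    intro ζ hζ
    exact (hF ζ (hR1 hζ)).deriv.symm
  have hLd : DifferentiableOn ℂ (Lam ρ a) (ball 0 R) := (lam_diff hρ ha ha0).mono hR2
  have hLpd : DifferentiableOn ℂ (Lamp ρ a) (ball 0 R) := by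
    have h1 : DifferentiableOn ℂ (deriv (Lam ρ a)) (ball 0 R) := hLd.deriv isOpen_ball
    apply h1.congr
    intro ζ hζ
    exact (lam_hasDeriv hρ ha ha0 (hR2 hζ)).deriv.symm
  have hFc : ContinuousOn F (sphere 0 ρ) := hFd.continuousOn.mono hsR
  have hQc : ContinuousOn Q (sphere 0 ρ) := hQd.continuousOn.mono hsR
  have hLc : ContinuousOn (Lam ρ a) (sphere 0 ρ) := hLd.continuousOn.mono hsR
  have hLpc : ContinuousOn (Lamp ρ a) (sphere 0 ρ) := hLpd.continuousOn.mono hsR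
  have hgpc : ContinuousOn (gp a) (sphere 0 ρ) := gp_cont ha hρ
  set G : ℂ → ℂ := fun ζ => Complex.log (1 - a / ζ) with hG
  have hGc : ContinuousOn G (sphere 0 ρ) := fun ζ hζ =>
    (g_hasDeriv ha hρ hζ).continuousAt.continuousWithinAt
  have hcFc : ContinuousOn (fun ζ => conj (F ζ)) (sphere 0 ρ) :=
    Complex.continuous_conj.comp_continuousOn hFc
  have hFs : ∀ ζ ∈ sphere (0:ℂ) ρ, HasDerivAt F (Q ζ) ζ := fun ζ hζ => hF ζ (hR1 (hsR hζ))
  have hLs : ∀ ζ ∈ sphere (0:ℂ) ρ, HasDerivAt (Lam ρ a) (Lamp ρ a ζ) ζ := fun ζ hζ =>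
    lam_hasDeriv hρ ha ha0 (hR2 (hsR hζ))
  have hGs : ∀ ζ ∈ sphere (0:ℂ) ρ, HasDerivAt G (gp a ζ) ζ := fun ζ hζ => g_hasDeriv ha hρ hζ
  have hGL : ∀ ζ ∈ sphere (0:ℂ) ρ, conj (Lam ρ a ζ) = G ζ := fun ζ hζ => conj_lam hρ ha ha0 hζ
  set ℓ : ℝ := - Real.log (1 - ‖a‖ ^ 2 / ρ ^ 2) with hℓ
  have hfrac : 0 < ‖a‖ ^ 2 / ρ ^ 2 := by positivity
  have hfrac1 : ‖a‖ ^ 2 / ρ ^ 2 < 1 := by
    rw [div_lt_one (by positivity)]
    exact pow_lt_pow_left₀ haρ hapos.le two_ne_zero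
  have hℓpos : 0 < ℓ := by
    rw [hℓ, neg_pos]
    exact Real.log_neg (by linarith) (by linarith)
  have hLa : Lam ρ a a = -(ℓ:ℂ) := by
    rw [lam_self hρ ha, hℓ]; push_cast; ring
  have hL0 : Lam ρ a 0 = 0 := lam_zero ρ a
  -- the basic integrals
  have I3 : (∮ ζ in C(0, ρ), G ζ * Q ζ) = -(2 * π * I * F a) := by
    rw [parts hρ hGs hFs hgpc hQc, repro hρ hρR hFd ha, hF0, sub_zero]
  have I4 : (∮ ζ in C(0, ρ), G ζ * gp a ζ) = 0 := by
    have h1 := parts hρ hGs hGs hgpc hgpc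
    have h2 : (2:ℂ) * (∮ ζ in C(0, ρ), G ζ * gp a ζ) = 0 := by linear_combination h1
    simpa using h2
  obtain ⟨A, hA0, hA⟩ := dirichlet_nonneg hFd hρ hρR
  have I5 : (∮ ζ in C(0, ρ), conj (F ζ) * Q ζ) = 2 * π * I * A := by
    rw [← hA]
    apply circleIntegral.integral_congr hρ.le
    intro ζ hζ
    simp only
    rw [(hFs ζ hζ).deriv]
  have I6 : (∮ ζ in C(0, ρ), conj (F ζ) * gp a ζ) = 0 := by
    have h1 := conj_circle hρ (fun ζ => conj (F ζ) * gp a ζ)
    have h2 : (∮ ζ in C(0, ρ), (-((ρ:ℂ) ^ 2 / ζ ^ 2)) * conj (conj (F ζ) * gp a ζ)) =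
        ∮ ζ in C(0, ρ), F ζ * Lamp ρ a ζ := by
      apply circleIntegral.integral_congr hρ.le
      intro ζ hζ
      simp only
      rw [map_mul, Complex.conj_conj, ← lamp_eq hρ ha ha0 hζ]
      ring
    have hz : (∮ ζ in C(0, ρ), F ζ * Lamp ρ a ζ) = 0 := cauchy_zero hρ hρR (hFd.mul hLpd)
    rw [h2, hz] at h1
    simpa using h1
  have I7 : (∮ ζ in C(0, ρ), conj (F ζ) * Lamp ρ a ζ) = -(2 * π * I * conj (F a)) := by
    have h1 := conj_circle hρ (fun ζ => conj (F ζ) * Lamp ρ a ζ)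
    have h2 : (∮ ζ in C(0, ρ), (-((ρ:ℂ) ^ 2 / ζ ^ 2)) * conj (conj (F ζ) * Lamp ρ a ζ)) =
        ∮ ζ in C(0, ρ), F ζ * gp a ζ := by
      apply circleIntegral.integral_congr hρ.le
      intro ζ hζ
      simp only
      rw [map_mul, Complex.conj_conj, ← gp_eq hρ ha ha0 hζ]
      ring
    rw [h2, repro hρ hρR hFd ha, hF0, sub_zero] at h1
    have h3 := congrArg conj h1
    rw [Complex.conj_conj] at h3
    rw [h3]
    simp only [map_mul, Complex.conj_ofReal, Complex.conj_I, map_ofNat]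
    ring
  have I8 : (∮ ζ in C(0, ρ), G ζ * Lamp ρ a ζ) = 2 * π * I * ℓ := by
    rw [parts hρ hGs hLs hgpc hLpc, repro hρ hρR hLd ha, hLa, hL0]
    ring
  -- the area inequality
  obtain ⟨c, hc0, hc⟩ := area_log h hρ hρ1 ha ha0
  set c0 : ℂ := ((-2 * Real.log ‖a‖ : ℝ) : ℂ) with hc0'
  have hW : DifferentiableOn ℂ (fun ζ => c0 + Lam ρ a ζ + F ζ) (ball 0 R) :=
    ((differentiableOn_const c0).add hLd).add hFd
  have hWc : ContinuousOn (fun ζ => c0 + Lam ρ a ζ + F ζ) (sphere 0 ρ) := hW.continuousOn.mono hsR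
  have I1 : (∮ ζ in C(0, ρ), (c0 + Lam ρ a ζ + F ζ) * Q ζ) = 0 :=
    cauchy_zero hρ hρR (hW.mul hQd)
  have I2 : (∮ ζ in C(0, ρ), (c0 + Lam ρ a ζ + F ζ) * gp a ζ) = 2 * π * I * (F a - ℓ) := by
    rw [repro hρ hρR hW ha, hLa, hL0, hF0]
    ring
  have hJ : (∮ ζ in C(0, ρ), ((2 * Real.log ‖phi β ζ - phi β a‖ : ℝ) : ℂ) *
      (dphi β ζ / (phi β ζ - phi β a))) =
      ∮ ζ in C(0, ρ), ((((((c0 + Lam ρ a ζ + F ζ) * Q ζ) + ((c0 + Lam ρ a ζ + F ζ) * gp a ζ)) +
        (G ζ * Q ζ)) + (G ζ * gp a ζ)) + (conj (F ζ) * Q ζ)) + (conj (F ζ) * gp a ζ) := by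
    apply circleIntegral.integral_congr hρ.le
    intro ζ hζ
    have hζ1 : ζ ∈ ball (0:ℂ) 1 := hR1 (hsR hζ)
    have hζ0 : ζ ≠ 0 := sphere_ne' hρ hζ
    have hne : ζ ≠ a := by
      rintro rfl
      simp at hζ
      linarith
    have h1 : ((2 * Real.log ‖phi β ζ - phi β a‖ : ℝ) : ℂ) =
        c0 + Lam ρ a ζ + F ζ + G ζ + conj (F ζ) := by
      have h2 : phi β ζ - phi β a = -a⁻¹ * (1 - a / ζ) * qq β a ζ := by
        rw [phi_sub a ζ ha0 hζ0]
        field_simp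
        ring
      have h3 : (1 - a / ζ) ≠ 0 := by
        intro h'
        rw [sub_eq_zero, eq_div_iff hζ0, one_mul] at h'
        exact hne h'
      have h4 : qq β a ζ ≠ 0 := qq_ne h ha1 hζ1
      have h5 : Real.log ‖phi β ζ - phi β a‖ = - Real.log ‖a‖ + (G ζ).re + (F ζ).re := by
        rw [h2, norm_mul, norm_mul, norm_neg, norm_inv,
          Real.log_mul (mul_ne_zero (inv_ne_zero hapos.ne') (norm_ne_zero_iff.mpr h3))
            (norm_ne_zero_iff.mpr h4),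
          Real.log_mul (inv_ne_zero hapos.ne') (norm_ne_zero_iff.mpr h3), Real.log_inv, hG,
          Complex.log_re, ← hexp ζ hζ1, Complex.norm_exp, Real.log_exp]
      have h6 : Lam ρ a ζ = conj (G ζ) := by rw [← hGL ζ hζ, Complex.conj_conj]
      rw [h5, h6, hc0']
      have h7 := Complex.add_conj (G ζ)
      have h8 := Complex.add_conj (F ζ)
      push_cast at h7 h8 ⊢
      linear_combination -h7 - h8
    simp only
    rw [h1, dphi_div h ha1 hζ1 ha0 hζ0 hne]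
    simp only [gp, hQ]
    ring
  have hc1 : CircleIntegrable (fun ζ => (c0 + Lam ρ a ζ + F ζ) * Q ζ) 0 ρ :=
    (hWc.mul hQc).circleIntegrable hρ.le
  have hc2 : CircleIntegrable (fun ζ => (c0 + Lam ρ a ζ + F ζ) * gp a ζ) 0 ρ :=
    (hWc.mul hgpc).circleIntegrable hρ.le
  have hc3 : CircleIntegrable (fun ζ => G ζ * Q ζ) 0 ρ := (hGc.mul hQc).circleIntegrable hρ.le
  have hc4 : CircleIntegrable (fun ζ => G ζ * gp a ζ) 0 ρ := (hGc.mul hgpc).circleIntegrable hρ.le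
  have hc5 : CircleIntegrable (fun ζ => conj (F ζ) * Q ζ) 0 ρ :=
    (hcFc.mul hQc).circleIntegrable hρ.le
  have hc6 : CircleIntegrable (fun ζ => conj (F ζ) * gp a ζ) 0 ρ :=
    (hcFc.mul hgpc).circleIntegrable hρ.le
  have hc12 : CircleIntegrable (fun ζ => ((c0 + Lam ρ a ζ + F ζ) * Q ζ) +
      ((c0 + Lam ρ a ζ + F ζ) * gp a ζ)) 0 ρ := hc1.add hc2
  have hc13 : CircleIntegrable (fun ζ => (((c0 + Lam ρ a ζ + F ζ) * Q ζ) +
      ((c0 + Lam ρ a ζ + F ζ) * gp a ζ)) + (G ζ * Q ζ)) 0 ρ := hc12.add hc3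
  have hc14 : CircleIntegrable (fun ζ => ((((c0 + Lam ρ a ζ + F ζ) * Q ζ) +
      ((c0 + Lam ρ a ζ + F ζ) * gp a ζ)) + (G ζ * Q ζ)) + (G ζ * gp a ζ)) 0 ρ := hc13.add hc4
  have hc15 : CircleIntegrable (fun ζ => (((((c0 + Lam ρ a ζ + F ζ) * Q ζ) +
      ((c0 + Lam ρ a ζ + F ζ) * gp a ζ)) + (G ζ * Q ζ)) + (G ζ * gp a ζ)) +
      (conj (F ζ) * Q ζ)) 0 ρ := hc14.add hc5
  rw [hJ, circleIntegral.integral_add hc15 hc6, circleIntegral.integral_add hc14 hc5,
    circleIntegral.integral_add hc13 hc4, circleIntegral.integral_add hc12 hc3,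
    circleIntegral.integral_add hc1 hc2, I1, I2, I3, I4, I5, I6] at hc
  have hpi : (π:ℂ) ≠ 0 := by exact_mod_cast Real.pi_ne_zero
  have hAc : (A:ℂ) = ℓ - c / π := by
    have hI : (2 * I : ℂ) ≠ 0 := by simp
    have : (2 * I : ℂ) * (π * A) = (2 * I : ℂ) * (π * ℓ - c) := by linear_combination hc
    have h2 := mul_left_cancel₀ hI this
    field_simp
    linear_combination h2
  have hAr : A = ℓ - c / π := by exact_mod_cast hAc
  have hAle : A ≤ ℓ := by
    rw [hAr]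
    have : 0 ≤ c / π := div_nonneg hc0 Real.pi_pos.le
    linarith
  -- the Dirichlet form of the combination
  set lam : ℂ := F a / ℓ with hlam
  have hEd : DifferentiableOn ℂ (fun ζ => F ζ + lam * Lam ρ a ζ) (ball 0 R) :=
    hFd.add (hLd.const_mul lam)
  obtain ⟨c2, hc20, hc2'⟩ := dirichlet_nonneg hEd hρ hρR
  have hℓc : (ℓ:ℂ) ≠ 0 := by exact_mod_cast hℓpos.ne'
  have hE : (∮ ζ in C(0, ρ), conj (F ζ + lam * Lam ρ a ζ) *
      deriv (fun ζ => F ζ + lam * Lam ρ a ζ) ζ) =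
      ∮ ζ in C(0, ρ), (((conj (F ζ) * Q ζ) + lam * (conj (F ζ) * Lamp ρ a ζ)) +
        conj lam * (G ζ * Q ζ)) + (conj lam * lam) * (G ζ * Lamp ρ a ζ) := by
    apply circleIntegral.integral_congr hρ.le
    intro ζ hζ
    have h1 : deriv (fun ζ => F ζ + lam * Lam ρ a ζ) ζ = Q ζ + lam * Lamp ρ a ζ :=
      ((hFs ζ hζ).add ((hLs ζ hζ).const_mul lam)).deriv
    simp only
    rw [h1, map_add, map_mul, hGL ζ hζ]
    ring
  have hd2 : CircleIntegrable (fun ζ => lam * (conj (F ζ) * Lamp ρ a ζ)) 0 ρ :=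
    (continuousOn_const.mul (hcFc.mul hLpc)).circleIntegrable hρ.le
  have hd3 : CircleIntegrable (fun ζ => conj lam * (G ζ * Q ζ)) 0 ρ :=
    (continuousOn_const.mul (hGc.mul hQc)).circleIntegrable hρ.le
  have hd4 : CircleIntegrable (fun ζ => (conj lam * lam) * (G ζ * Lamp ρ a ζ)) 0 ρ :=
    (continuousOn_const.mul (hGc.mul hLpc)).circleIntegrable hρ.le
  have hd12 : CircleIntegrable (fun ζ => (conj (F ζ) * Q ζ) +
      lam * (conj (F ζ) * Lamp ρ a ζ)) 0 ρ := hc5.add hd2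
  have hd13 : CircleIntegrable (fun ζ => ((conj (F ζ) * Q ζ) +
      lam * (conj (F ζ) * Lamp ρ a ζ)) + conj lam * (G ζ * Q ζ)) 0 ρ := hd12.add hd3
  rw [hE, circleIntegral.integral_add hd13 hd4, circleIntegral.integral_add hd12 hd3,
    circleIntegral.integral_add hc5 hd2, circleIntegral.integral_const_mul,
    circleIntegral.integral_const_mul, circleIntegral.integral_const_mul, I5, I7, I3, I8] at hc2'
  have hFa : F a * conj (F a) = ((‖F a‖ ^ 2 : ℝ) : ℂ) := by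
    rw [Complex.mul_conj, Complex.normSq_eq_norm_sq]
  have hclam : conj lam = conj (F a) / ℓ := by
    rw [hlam, map_div₀, Complex.conj_ofReal]
  have hfin : (A:ℂ) = c2 + ((‖F a‖ ^ 2 : ℝ) : ℂ) / ℓ := by
    have h2pi : (2 * π * I : ℂ) ≠ 0 := two_pi_I_ne_zero
    apply mul_left_cancel₀ h2pi
    rw [← hFa]
    rw [hclam, hlam] at hc2'
    have h9 : (2 * π * I : ℂ) * A + F a / ℓ * -(2 * π * I * conj (F a)) +
        conj (F a) / ℓ * -(2 * π * I * F a) + conj (F a) / ℓ * (F a / ℓ) * (2 * π * I * ℓ) =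
        2 * π * I * (A - F a * conj (F a) / ℓ) := by
      field_simp
      ring
    rw [h9] at hc2'
    linear_combination hc2'
  have hfinr : A = c2 + ‖F a‖ ^ 2 / ℓ := by exact_mod_cast hfin
  have h10 : ‖F a‖ ^ 2 / ℓ ≤ ℓ := by linarith
  rw [div_le_iff₀ hℓpos] at h10
  nlinarith [norm_nonneg (F a)]

theorem log_bound (h : Ext β) {a : ℂ} (ha : a ∈ ball (0:ℂ) 1) {F : ℂ → ℂ}
    (hF : ∀ ζ ∈ ball (0:ℂ) 1, HasDerivAt F (deriv (qq β a) ζ / qq β a ζ) ζ)
    (hF0 : F 0 = 0) (hexp : ∀ ζ ∈ ball (0:ℂ) 1, Complex.exp (F ζ) = qq β a ζ) :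
    ‖F a‖ ≤ - Real.log (1 - ‖a‖ ^ 2) := by
  by_cases ha0 : a = 0
  · subst ha0; simp [hF0]
  have ha' : ‖a‖ < 1 := by simpa using ha
  have hlim : Tendsto (fun ρ : ℝ => - Real.log (1 - ‖a‖ ^ 2 / ρ ^ 2)) (𝓝[<] 1)
      (𝓝 (- Real.log (1 - ‖a‖ ^ 2))) := by
    have h1 : ContinuousAt (fun ρ : ℝ => - Real.log (1 - ‖a‖ ^ 2 / ρ ^ 2)) 1 := by
      apply ContinuousAt.neg
      apply ContinuousAt.log
      · apply ContinuousAt.sub continuousAt_const
        apply ContinuousAt.div continuousAt_const (by fun_prop) (by norm_num)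
      · have : ‖a‖ ^ 2 < 1 := by nlinarith [norm_nonneg a]
        simp only [one_pow, div_one]
        linarith
    have h2 := h1.tendsto
    simp only [one_pow, div_one] at h2
    exact h2.mono_left nhdsWithin_le_nhds
  apply ge_of_tendsto hlim
  have h1 : Ioo ‖a‖ 1 ∈ 𝓝[<] (1:ℝ) := Ioo_mem_nhdsLT ha'
  filter_upwards [h1] with ρ hρ
  exact log_bound_aux h ((norm_nonneg a).trans_lt hρ.1) hρ.2 (by simpa using hρ.1) ha0 hF hF0 hexp

end Pool.Agent.Helper39.Area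

end

section


/-!
The energy of the logarithm of a difference, on a disc of radius `ρ < 1`.
-/

set_option autoImplicit false

open Complex MeasureTheory Metric Set Filter Topology
open scoped Real ENNReal ComplexConjugate NNReal

namespace Pool.Agent.Helper39.EK

open Pool.Agent.Helper39.Area

variable {β : ℂ → ℂ}

theorem energy_aux (h : Ext β) {ρ : ℝ} (hρ : 0 < ρ) (hρ1 : ρ < 1)
    {a : ℂ} (ha : a ∈ ball (0:ℂ) ρ) (ha0 : a ≠ 0) {F : ℂ → ℂ}
    (hF : ∀ ζ ∈ ball (0:ℂ) 1, HasDerivAt F (deriv (qq β a) ζ / qq β a ζ) ζ)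
    (hF0 : F 0 = 0) (hexp : ∀ ζ ∈ ball (0:ℂ) 1, Complex.exp (F ζ) = qq β a ζ) :
    ∃ c2 : ℝ, c2 ≤ 2 * (- Real.log (1 - ‖a‖ ^ 2 / ρ ^ 2)) + 2 * (F a).re ∧
      ∀ N : ℕ, ∑ n ∈ Finset.range N, (n:ℝ) * ρ ^ (2 * n) *
        ‖iteratedDeriv n (fun ζ => F ζ - Lam ρ a ζ) 0 / n.factorial‖ ^ 2 ≤ c2 := by
  have ha1 : a ∈ ball (0:ℂ) 1 := mem_ball_of_sphere hρ1 (ball_subset_closedBall ha)
  have hapos : 0 < ‖a‖ := norm_pos_iff.mpr ha0
  have haρ : ‖a‖ < ρ := by simpa using ha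
  set Q : ℂ → ℂ := fun ζ => deriv (qq β a) ζ / qq β a ζ with hQ
  set R : ℝ := min 1 (ρ ^ 2 / ‖a‖) with hR
  have hρR : ρ < R := lt_min hρ1 (rad_lt hρ ha ha0)
  have hR1 : ball (0:ℂ) R ⊆ ball 0 1 := ball_subset_ball (min_le_left _ _)
  have hR2 : ball (0:ℂ) R ⊆ ball 0 (ρ ^ 2 / ‖a‖) := ball_subset_ball (min_le_right _ _)
  have hsR : sphere (0:ℂ) ρ ⊆ ball 0 R := by
    intro ζ hζ
    rw [mem_ball, dist_zero_right]
    rw [mem_sphere, dist_zero_right] at hζ
    linarith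
  have hFd : DifferentiableOn ℂ F (ball 0 R) := fun ζ hζ =>
    (hF ζ (hR1 hζ)).differentiableAt.differentiableWithinAt
  have hQd : DifferentiableOn ℂ Q (ball 0 R) := by
    have h1 : DifferentiableOn ℂ (deriv F) (ball 0 R) := hFd.deriv isOpen_ball
    apply h1.congr
    intro ζ hζ
    exact (hF ζ (hR1 hζ)).deriv.symm
  have hLd : DifferentiableOn ℂ (Lam ρ a) (ball 0 R) := (lam_diff hρ ha ha0).mono hR2
  have hLpd : DifferentiableOn ℂ (Lamp ρ a) (ball 0 R) := by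
    have h1 : DifferentiableOn ℂ (deriv (Lam ρ a)) (ball 0 R) := hLd.deriv isOpen_ball
    apply h1.congr
    intro ζ hζ
    exact (lam_hasDeriv hρ ha ha0 (hR2 hζ)).deriv.symm
  have hFc : ContinuousOn F (sphere 0 ρ) := hFd.continuousOn.mono hsR
  have hQc : ContinuousOn Q (sphere 0 ρ) := hQd.continuousOn.mono hsR
  have hLc : ContinuousOn (Lam ρ a) (sphere 0 ρ) := hLd.continuousOn.mono hsR
  have hLpc : ContinuousOn (Lamp ρ a) (sphere 0 ρ) := hLpd.continuousOn.mono hsR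
  have hgpc : ContinuousOn (gp a) (sphere 0 ρ) := gp_cont ha hρ
  set G : ℂ → ℂ := fun ζ => Complex.log (1 - a / ζ) with hG
  have hGc : ContinuousOn G (sphere 0 ρ) := fun ζ hζ =>
    (g_hasDeriv ha hρ hζ).continuousAt.continuousWithinAt
  have hcFc : ContinuousOn (fun ζ => conj (F ζ)) (sphere 0 ρ) :=
    Complex.continuous_conj.comp_continuousOn hFc
  have hFs : ∀ ζ ∈ sphere (0:ℂ) ρ, HasDerivAt F (Q ζ) ζ := fun ζ hζ => hF ζ (hR1 (hsR hζ))
  have hLs : ∀ ζ ∈ sphere (0:ℂ) ρ, HasDerivAt (Lam ρ a) (Lamp ρ a ζ) ζ := fun ζ hζ =>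
    lam_hasDeriv hρ ha ha0 (hR2 (hsR hζ))
  have hGs : ∀ ζ ∈ sphere (0:ℂ) ρ, HasDerivAt G (gp a ζ) ζ := fun ζ hζ => g_hasDeriv ha hρ hζ
  have hGL : ∀ ζ ∈ sphere (0:ℂ) ρ, conj (Lam ρ a ζ) = G ζ := fun ζ hζ => conj_lam hρ ha ha0 hζ
  set ℓ : ℝ := - Real.log (1 - ‖a‖ ^ 2 / ρ ^ 2) with hℓ
  have hfrac : 0 < ‖a‖ ^ 2 / ρ ^ 2 := by positivity
  have hfrac1 : ‖a‖ ^ 2 / ρ ^ 2 < 1 := by
    rw [div_lt_one (by positivity)]
    exact pow_lt_pow_left₀ haρ hapos.le two_ne_zero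
  have hℓpos : 0 < ℓ := by
    rw [hℓ, neg_pos]
    exact Real.log_neg (by linarith) (by linarith)
  have hLa : Lam ρ a a = -(ℓ:ℂ) := by
    rw [lam_self hρ ha, hℓ]; push_cast; ring
  have hL0 : Lam ρ a 0 = 0 := lam_zero ρ a
  -- the basic integrals
  have I3 : (∮ ζ in C(0, ρ), G ζ * Q ζ) = -(2 * π * I * F a) := by
    rw [parts hρ hGs hFs hgpc hQc, repro hρ hρR hFd ha, hF0, sub_zero]
  have I4 : (∮ ζ in C(0, ρ), G ζ * gp a ζ) = 0 := by
    have h1 := parts hρ hGs hGs hgpc hgpc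
    have h2 : (2:ℂ) * (∮ ζ in C(0, ρ), G ζ * gp a ζ) = 0 := by linear_combination h1
    simpa using h2
  obtain ⟨A, hA0, hA⟩ := dirichlet_nonneg hFd hρ hρR
  have I5 : (∮ ζ in C(0, ρ), conj (F ζ) * Q ζ) = 2 * π * I * A := by
    rw [← hA]
    apply circleIntegral.integral_congr hρ.le
    intro ζ hζ
    simp only
    rw [(hFs ζ hζ).deriv]
  have I6 : (∮ ζ in C(0, ρ), conj (F ζ) * gp a ζ) = 0 := by
    have h1 := conj_circle hρ (fun ζ => conj (F ζ) * gp a ζ)
    have h2 : (∮ ζ in C(0, ρ), (-((ρ:ℂ) ^ 2 / ζ ^ 2)) * conj (conj (F ζ) * gp a ζ)) =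
        ∮ ζ in C(0, ρ), F ζ * Lamp ρ a ζ := by
      apply circleIntegral.integral_congr hρ.le
      intro ζ hζ
      simp only
      rw [map_mul, Complex.conj_conj, ← lamp_eq hρ ha ha0 hζ]
      ring
    have hz : (∮ ζ in C(0, ρ), F ζ * Lamp ρ a ζ) = 0 := cauchy_zero hρ hρR (hFd.mul hLpd)
    rw [h2, hz] at h1
    simpa using h1
  have I7 : (∮ ζ in C(0, ρ), conj (F ζ) * Lamp ρ a ζ) = -(2 * π * I * conj (F a)) := by
    have h1 := conj_circle hρ (fun ζ => conj (F ζ) * Lamp ρ a ζ)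
    have h2 : (∮ ζ in C(0, ρ), (-((ρ:ℂ) ^ 2 / ζ ^ 2)) * conj (conj (F ζ) * Lamp ρ a ζ)) =
        ∮ ζ in C(0, ρ), F ζ * gp a ζ := by
      apply circleIntegral.integral_congr hρ.le
      intro ζ hζ
      simp only
      rw [map_mul, Complex.conj_conj, ← gp_eq hρ ha ha0 hζ]
      ring
    rw [h2, repro hρ hρR hFd ha, hF0, sub_zero] at h1
    have h3 := congrArg conj h1
    rw [Complex.conj_conj] at h3
    rw [h3]
    simp only [map_mul, Complex.conj_ofReal, Complex.conj_I, map_ofNat]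
    ring
  have I8 : (∮ ζ in C(0, ρ), G ζ * Lamp ρ a ζ) = 2 * π * I * ℓ := by
    rw [parts hρ hGs hLs hgpc hLpc, repro hρ hρR hLd ha, hLa, hL0]
    ring
  -- the area inequality
  obtain ⟨c, hc0, hc⟩ := area_log h hρ hρ1 ha ha0
  set c0 : ℂ := ((-2 * Real.log ‖a‖ : ℝ) : ℂ) with hc0'
  have hW : DifferentiableOn ℂ (fun ζ => c0 + Lam ρ a ζ + F ζ) (ball 0 R) :=
    ((differentiableOn_const c0).add hLd).add hFd
  have hWc : ContinuousOn (fun ζ => c0 + Lam ρ a ζ + F ζ) (sphere 0 ρ) := hW.continuousOn.mono hsR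
  have I1 : (∮ ζ in C(0, ρ), (c0 + Lam ρ a ζ + F ζ) * Q ζ) = 0 :=
    cauchy_zero hρ hρR (hW.mul hQd)
  have I2 : (∮ ζ in C(0, ρ), (c0 + Lam ρ a ζ + F ζ) * gp a ζ) = 2 * π * I * (F a - ℓ) := by
    rw [repro hρ hρR hW ha, hLa, hL0, hF0]
    ring
  have hJ : (∮ ζ in C(0, ρ), ((2 * Real.log ‖phi β ζ - phi β a‖ : ℝ) : ℂ) *
      (dphi β ζ / (phi β ζ - phi β a))) =
      ∮ ζ in C(0, ρ), ((((((c0 + Lam ρ a ζ + F ζ) * Q ζ) + ((c0 + Lam ρ a ζ + F ζ) * gp a ζ)) +
        (G ζ * Q ζ)) + (G ζ * gp a ζ)) + (conj (F ζ) * Q ζ)) + (conj (F ζ) * gp a ζ) := by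
    apply circleIntegral.integral_congr hρ.le
    intro ζ hζ
    have hζ1 : ζ ∈ ball (0:ℂ) 1 := hR1 (hsR hζ)
    have hζ0 : ζ ≠ 0 := sphere_ne' hρ hζ
    have hne : ζ ≠ a := by
      rintro rfl
      simp at hζ
      linarith
    have h1 : ((2 * Real.log ‖phi β ζ - phi β a‖ : ℝ) : ℂ) =
        c0 + Lam ρ a ζ + F ζ + G ζ + conj (F ζ) := by
      have h2 : phi β ζ - phi β a = -a⁻¹ * (1 - a / ζ) * qq β a ζ := by
        rw [phi_sub a ζ ha0 hζ0]
        field_simp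
        ring
      have h3 : (1 - a / ζ) ≠ 0 := by
        intro h'
        rw [sub_eq_zero, eq_div_iff hζ0, one_mul] at h'
        exact hne h'
      have h4 : qq β a ζ ≠ 0 := qq_ne h ha1 hζ1
      have h5 : Real.log ‖phi β ζ - phi β a‖ = - Real.log ‖a‖ + (G ζ).re + (F ζ).re := by
        rw [h2, norm_mul, norm_mul, norm_neg, norm_inv,
          Real.log_mul (mul_ne_zero (inv_ne_zero hapos.ne') (norm_ne_zero_iff.mpr h3))
            (norm_ne_zero_iff.mpr h4),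
          Real.log_mul (inv_ne_zero hapos.ne') (norm_ne_zero_iff.mpr h3), Real.log_inv, hG,
          Complex.log_re, ← hexp ζ hζ1, Complex.norm_exp, Real.log_exp]
      have h6 : Lam ρ a ζ = conj (G ζ) := by rw [← hGL ζ hζ, Complex.conj_conj]
      rw [h5, h6, hc0']
      have h7 := Complex.add_conj (G ζ)
      have h8 := Complex.add_conj (F ζ)
      push_cast at h7 h8 ⊢
      linear_combination -h7 - h8
    simp only
    rw [h1, dphi_div h ha1 hζ1 ha0 hζ0 hne]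
    simp only [gp, hQ]
    ring
  have hc1 : CircleIntegrable (fun ζ => (c0 + Lam ρ a ζ + F ζ) * Q ζ) 0 ρ :=
    (hWc.mul hQc).circleIntegrable hρ.le
  have hc2 : CircleIntegrable (fun ζ => (c0 + Lam ρ a ζ + F ζ) * gp a ζ) 0 ρ :=
    (hWc.mul hgpc).circleIntegrable hρ.le
  have hc3 : CircleIntegrable (fun ζ => G ζ * Q ζ) 0 ρ := (hGc.mul hQc).circleIntegrable hρ.le
  have hc4 : CircleIntegrable (fun ζ => G ζ * gp a ζ) 0 ρ := (hGc.mul hgpc).circleIntegrable hρ.le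
  have hc5 : CircleIntegrable (fun ζ => conj (F ζ) * Q ζ) 0 ρ :=
    (hcFc.mul hQc).circleIntegrable hρ.le
  have hc6 : CircleIntegrable (fun ζ => conj (F ζ) * gp a ζ) 0 ρ :=
    (hcFc.mul hgpc).circleIntegrable hρ.le
  have hc12 : CircleIntegrable (fun ζ => ((c0 + Lam ρ a ζ + F ζ) * Q ζ) +
      ((c0 + Lam ρ a ζ + F ζ) * gp a ζ)) 0 ρ := hc1.add hc2
  have hc13 : CircleIntegrable (fun ζ => (((c0 + Lam ρ a ζ + F ζ) * Q ζ) +
      ((c0 + Lam ρ a ζ + F ζ) * gp a ζ)) + (G ζ * Q ζ)) 0 ρ := hc12.add hc3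
  have hc14 : CircleIntegrable (fun ζ => ((((c0 + Lam ρ a ζ + F ζ) * Q ζ) +
      ((c0 + Lam ρ a ζ + F ζ) * gp a ζ)) + (G ζ * Q ζ)) + (G ζ * gp a ζ)) 0 ρ := hc13.add hc4
  have hc15 : CircleIntegrable (fun ζ => (((((c0 + Lam ρ a ζ + F ζ) * Q ζ) +
      ((c0 + Lam ρ a ζ + F ζ) * gp a ζ)) + (G ζ * Q ζ)) + (G ζ * gp a ζ)) +
      (conj (F ζ) * Q ζ)) 0 ρ := hc14.add hc5
  rw [hJ, circleIntegral.integral_add hc15 hc6, circleIntegral.integral_add hc14 hc5,
    circleIntegral.integral_add hc13 hc4, circleIntegral.integral_add hc12 hc3,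
    circleIntegral.integral_add hc1 hc2, I1, I2, I3, I4, I5, I6] at hc
  have hpi : (π:ℂ) ≠ 0 := by exact_mod_cast Real.pi_ne_zero
  have hAc : (A:ℂ) = ℓ - c / π := by
    have hI : (2 * I : ℂ) ≠ 0 := by simp
    have : (2 * I : ℂ) * (π * A) = (2 * I : ℂ) * (π * ℓ - c) := by linear_combination hc
    have h2 := mul_left_cancel₀ hI this
    field_simp
    linear_combination h2
  have hAr : A = ℓ - c / π := by exact_mod_cast hAc
  have hAle : A ≤ ℓ := by
    rw [hAr]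
    have : 0 ≤ c / π := div_nonneg hc0 Real.pi_pos.le
    linarith
  -- the Dirichlet form of the combination
  have hEd : DifferentiableOn ℂ (fun ζ => F ζ - Lam ρ a ζ) (ball 0 R) := hFd.sub hLd
  obtain ⟨c2, hc20, hc2'⟩ := dirichlet_sum hEd hρ hρR
  have hE : (∮ ζ in C(0, ρ), conj (F ζ - Lam ρ a ζ) *
      deriv (fun ζ => F ζ - Lam ρ a ζ) ζ) =
      ∮ ζ in C(0, ρ), (((conj (F ζ) * Q ζ) - (conj (F ζ) * Lamp ρ a ζ)) -
        (G ζ * Q ζ)) + (G ζ * Lamp ρ a ζ) := by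
    apply circleIntegral.integral_congr hρ.le
    intro ζ hζ
    have h1 : deriv (fun ζ => F ζ - Lam ρ a ζ) ζ = Q ζ - Lamp ρ a ζ :=
      ((hFs ζ hζ).sub (hLs ζ hζ)).deriv
    simp only
    rw [h1, map_sub, hGL ζ hζ]
    ring
  have hd2 : CircleIntegrable (fun ζ => conj (F ζ) * Lamp ρ a ζ) 0 ρ :=
    (hcFc.mul hLpc).circleIntegrable hρ.le
  have hd4 : CircleIntegrable (fun ζ => G ζ * Lamp ρ a ζ) 0 ρ :=
    (hGc.mul hLpc).circleIntegrable hρ.le
  have hd12 : CircleIntegrable (fun ζ => (conj (F ζ) * Q ζ) -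
      (conj (F ζ) * Lamp ρ a ζ)) 0 ρ := hc5.sub hd2
  have hd13 : CircleIntegrable (fun ζ => ((conj (F ζ) * Q ζ) -
      (conj (F ζ) * Lamp ρ a ζ)) - (G ζ * Q ζ)) 0 ρ := hd12.sub hc3
  rw [hE, circleIntegral.integral_add hd13 hd4, circleIntegral.integral_sub hd12 hc3,
    circleIntegral.integral_sub hc5 hd2, I5, I7, I3, I8] at hc2'
  have hfin : (A:ℂ) + 2 * ((F a).re : ℂ) + ℓ = c2 := by
    have h2pi : (2 * π * I : ℂ) ≠ 0 := two_pi_I_ne_zero
    apply mul_left_cancel₀ h2pi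
    have h8 := Complex.add_conj (F a)
    push_cast at h8
    rw [← hc2', ← h8]
    ring
  have hfinr : A + 2 * (F a).re + ℓ = c2 := by exact_mod_cast hfin
  refine ⟨c2, ?_, hc20⟩
  linarith

end Pool.Agent.Helper39.EK

end

section


/-!
E1: the energy inequality.
-/

set_option autoImplicit false

open Complex MeasureTheory Metric Set Filter Topology
open scoped Real ENNReal ComplexConjugate NNReal

namespace Pool.Agent.Helper39.EK

open Pool.Agent.Helper39.Area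

variable {β : ℂ → ℂ}

theorem energy_rho (h : Ext β) {ρ₀ ρ : ℝ} (hρ₀ : 0 < ρ₀) (hρ : ρ₀ < ρ) (hρ1 : ρ < 1)
    {a : ℂ} (ha : a ∈ ball (0:ℂ) ρ) (ha0 : a ≠ 0) {F : ℂ → ℂ}
    (hF : ∀ ζ ∈ ball (0:ℂ) 1, HasDerivAt F (deriv (qq β a) ζ / qq β a ζ) ζ)
    (hF0 : F 0 = 0) (hexp : ∀ ζ ∈ ball (0:ℂ) 1, Complex.exp (F ζ) = qq β a ζ) :
    ∫ z in ball (0:ℂ) ρ₀, ‖deriv F z + conj a / ((ρ:ℂ) ^ 2 - conj a * z)‖ ^ 2 ≤
      π * (2 * (- Real.log (1 - ‖a‖ ^ 2 / ρ ^ 2)) + 2 * (F a).re) := by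
  have hρp : 0 < ρ := hρ₀.trans hρ
  obtain ⟨c2, hc2, hsum⟩ := energy_aux h hρp hρ1 ha ha0 hF hF0 hexp
  set R : ℝ := min 1 (ρ ^ 2 / ‖a‖) with hR
  have hρR : ρ < R := lt_min hρ1 (rad_lt hρp ha ha0)
  have hR1 : ball (0:ℂ) R ⊆ ball 0 1 := ball_subset_ball (min_le_left _ _)
  have hR2 : ball (0:ℂ) R ⊆ ball 0 (ρ ^ 2 / ‖a‖) := ball_subset_ball (min_le_right _ _)
  have hFd : DifferentiableOn ℂ F (ball 0 R) := fun ζ hζ =>
    (hF ζ (hR1 hζ)).differentiableAt.differentiableWithinAt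
  have hLd : DifferentiableOn ℂ (Lam ρ a) (ball 0 R) := (lam_diff hρp ha ha0).mono hR2
  have hEd : DifferentiableOn ℂ (fun ζ => F ζ - Lam ρ a ζ) (ball 0 R) := hFd.sub hLd
  have h1 := area_le hEd hρp hρR hsum
  have hder : ∀ z ∈ ball (0:ℂ) R, deriv (fun ζ => F ζ - Lam ρ a ζ) z =
      deriv F z + conj a / ((ρ:ℂ) ^ 2 - conj a * z) := by
    intro z hz
    have h2 : deriv (fun ζ => F ζ - Lam ρ a ζ) z = deriv F z - Lamp ρ a z :=
      (((hF z (hR1 hz)).differentiableAt.hasDerivAt).sub (lam_hasDeriv hρp ha ha0 (hR2 hz))).deriv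
    rw [h2, Lamp]
    have hρc : (ρ:ℂ) ^ 2 ≠ 0 := pow_ne_zero _ (by exact_mod_cast hρp.ne')
    have h3 : (1 - conj a * z / (ρ:ℂ) ^ 2) = ((ρ:ℂ) ^ 2 - conj a * z) / (ρ:ℂ) ^ 2 := by
      rw [sub_div, div_self hρc]
    rw [h3, neg_div, sub_neg_eq_add, div_div_div_cancel_right₀ hρc]
  have hcont : ContinuousOn (fun z => ‖deriv F z + conj a / ((ρ:ℂ) ^ 2 - conj a * z)‖ ^ 2)
      (closedBall 0 ρ) := by
    have h4 : ContinuousOn (fun z => ‖deriv (fun ζ => F ζ - Lam ρ a ζ) z‖ ^ 2) (closedBall 0 ρ) :=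
      (((hEd.deriv isOpen_ball).continuousOn.mono (closedBall_subset_ball hρR)).norm).pow 2
    refine h4.congr fun z hz => ?_
    simp only
    rw [hder z (closedBall_subset_ball hρR hz)]
  have hint : IntegrableOn (fun z => ‖deriv F z + conj a / ((ρ:ℂ) ^ 2 - conj a * z)‖ ^ 2)
      (ball 0 ρ) :=
    (hcont.integrableOn_compact (isCompact_closedBall _ _)).mono_set ball_subset_closedBall
  calc ∫ z in ball (0:ℂ) ρ₀, ‖deriv F z + conj a / ((ρ:ℂ) ^ 2 - conj a * z)‖ ^ 2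
      ≤ ∫ z in ball (0:ℂ) ρ, ‖deriv F z + conj a / ((ρ:ℂ) ^ 2 - conj a * z)‖ ^ 2 :=
        setIntegral_mono_set hint (ae_of_all _ fun _ => by positivity)
          (ball_subset_ball hρ.le).eventuallyLE
    _ = ∫ z in ball (0:ℂ) ρ, ‖deriv (fun ζ => F ζ - Lam ρ a ζ) z‖ ^ 2 := by
        apply setIntegral_congr_fun measurableSet_ball
        intro z hz
        simp only
        rw [hder z (ball_subset_ball hρR.le hz)]
    _ ≤ π * c2 := h1
    _ ≤ _ := mul_le_mul_of_nonneg_left hc2 Real.pi_pos.le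

/-- E1: the energy inequality -/
theorem energy (h : Ext β) {ρ₀ : ℝ} (hρ₀ : 0 < ρ₀) (hρ₀1 : ρ₀ < 1)
    {a : ℂ} (ha : a ∈ ball (0:ℂ) 1) (ha0 : a ≠ 0) {F : ℂ → ℂ}
    (hF : ∀ ζ ∈ ball (0:ℂ) 1, HasDerivAt F (deriv (qq β a) ζ / qq β a ζ) ζ)
    (hF0 : F 0 = 0) (hexp : ∀ ζ ∈ ball (0:ℂ) 1, Complex.exp (F ζ) = qq β a ζ) :
    ∫ z in ball (0:ℂ) ρ₀, ‖deriv F z + conj a / (1 - conj a * z)‖ ^ 2 ≤
      2 * π * (- Real.log (1 - ‖a‖ ^ 2) + (F a).re) := by
  have ha1 : ‖a‖ < 1 := by simpa using ha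
  have hapos : 0 < ‖a‖ := norm_pos_iff.mpr ha0
  have hFd : DifferentiableOn ℂ F (ball 0 1) := fun ζ hζ =>
    (hF ζ hζ).differentiableAt.differentiableWithinAt
  have hdc : ContinuousOn (deriv F) (closedBall 0 ρ₀) :=
    (hFd.deriv isOpen_ball).continuousOn.mono (closedBall_subset_ball hρ₀1)
  obtain ⟨M, hM⟩ := (isCompact_closedBall (0:ℂ) ρ₀).exists_bound_of_continuousOn hdc
  have hM0 : 0 ≤ M := (norm_nonneg _).trans (hM 0 (mem_closedBall_self hρ₀.le))
  have haρ : ‖a‖ * ρ₀ < 1 := by nlinarith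
  set δ : ℝ := (1 - ‖a‖ * ρ₀) / 2 with hδ
  have hδ0 : 0 < δ := by rw [hδ]; linarith
  have hlow : ∀ ρ : ℝ, (1 + ‖a‖ * ρ₀) / 2 ≤ ρ ^ 2 → ∀ z ∈ ball (0:ℂ) ρ₀,
      δ ≤ ‖(ρ:ℂ) ^ 2 - conj a * z‖ := by
    intro ρ hρ z hz
    have h1 : ‖(ρ:ℂ) ^ 2‖ = ρ ^ 2 := by
      rw [norm_pow, Complex.norm_real, Real.norm_eq_abs, sq_abs]
    have h2 : ‖conj a * z‖ ≤ ‖a‖ * ρ₀ := by
      rw [norm_mul, RCLike.norm_conj]
      rw [mem_ball, dist_zero_right] at hz
      exact mul_le_mul_of_nonneg_left hz.le (norm_nonneg _)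
    have h3 := norm_sub_norm_le ((ρ:ℂ) ^ 2) (conj a * z)
    rw [h1] at h3
    rw [hδ]
    linarith
  have hev : ∀ᶠ ρ : ℝ in 𝓝[<] 1, ρ₀ < ρ ∧ ‖a‖ < ρ ∧ ρ < 1 ∧ (1 + ‖a‖ * ρ₀) / 2 ≤ ρ ^ 2 := by
    have h1 : ∀ᶠ ρ : ℝ in 𝓝[<] 1, ρ₀ < ρ :=
      (eventually_gt_nhds hρ₀1).filter_mono nhdsWithin_le_nhds
    have h2 : ∀ᶠ ρ : ℝ in 𝓝[<] 1, ‖a‖ < ρ :=
      (eventually_gt_nhds ha1).filter_mono nhdsWithin_le_nhds
    have h3 : ∀ᶠ ρ : ℝ in 𝓝[<] 1, ρ < 1 := eventually_mem_nhdsWithin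
    have h4 : ∀ᶠ ρ : ℝ in 𝓝[<] 1, (1 + ‖a‖ * ρ₀) / 2 < ρ ^ 2 := by
      have h5 : Tendsto (fun ρ : ℝ => ρ ^ 2) (𝓝[<] 1) (𝓝 (1 ^ 2)) :=
        ((continuous_pow 2).tendsto 1).mono_left nhdsWithin_le_nhds
      exact h5.eventually (eventually_gt_nhds (by linarith))
    filter_upwards [h1, h2, h3, h4] with ρ a1 a2 a3 a4
    exact ⟨a1, a2, a3, a4.le⟩
  have hL : Tendsto (fun ρ : ℝ => ∫ z in ball (0:ℂ) ρ₀,
      ‖deriv F z + conj a / ((ρ:ℂ) ^ 2 - conj a * z)‖ ^ 2) (𝓝[<] 1)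
      (𝓝 (∫ z in ball (0:ℂ) ρ₀, ‖deriv F z + conj a / (1 - conj a * z)‖ ^ 2)) := by
    apply tendsto_integral_filter_of_dominated_convergence (fun _ => (M + ‖a‖ / δ) ^ 2)
    · filter_upwards [hev] with ρ hρ
      have hc : ContinuousOn (fun z => ‖deriv F z + conj a / ((ρ:ℂ) ^ 2 - conj a * z)‖ ^ 2)
          (ball 0 ρ₀) := by
        apply ContinuousOn.pow
        apply ContinuousOn.norm
        apply (hdc.mono ball_subset_closedBall).add
        apply ContinuousOn.div continuousOn_const (by fun_prop)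
        intro z hz h0
        have := hlow ρ hρ.2.2.2 z hz
        rw [h0, norm_zero] at this
        linarith
      exact hc.aestronglyMeasurable measurableSet_ball
    · filter_upwards [hev] with ρ hρ
      filter_upwards [ae_restrict_mem measurableSet_ball] with z hz
      rw [Real.norm_of_nonneg (by positivity)]
      gcongr
      refine (norm_add_le _ _).trans (add_le_add (hM z (ball_subset_closedBall hz)) ?_)
      rw [norm_div, RCLike.norm_conj]
      exact div_le_div_of_nonneg_left (norm_nonneg _) hδ0 (hlow ρ hρ.2.2.2 z hz)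
    · exact integrableOn_const measure_ball_lt_top.ne
    · filter_upwards [ae_restrict_mem measurableSet_ball] with z hz
      have hne : (1:ℂ) - conj a * z ≠ 0 := by
        intro h0
        have := hlow 1 (by linarith) z hz
        rw [Complex.ofReal_one, one_pow, h0, norm_zero] at this
        linarith
      have h1 : Tendsto (fun ρ : ℝ => (ρ:ℂ) ^ 2 - conj a * z) (𝓝[<] 1)
          (𝓝 (((1:ℝ):ℂ) ^ 2 - conj a * z)) := by
        have hc : Continuous fun ρ : ℝ => (ρ:ℂ) ^ 2 - conj a * z := by fun_prop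
        exact (hc.tendsto 1).mono_left nhdsWithin_le_nhds
      rw [Complex.ofReal_one, one_pow] at h1
      exact (((tendsto_const_nhds (x := conj a)).div h1 hne).const_add (deriv F z)).norm.pow 2
  have hRlim : Tendsto (fun ρ : ℝ => π * (2 * (- Real.log (1 - ‖a‖ ^ 2 / ρ ^ 2)) + 2 * (F a).re))
      (𝓝[<] 1) (𝓝 (π * (2 * (- Real.log (1 - ‖a‖ ^ 2 / 1 ^ 2)) + 2 * (F a).re))) := by
    have h1 : ContinuousAt (fun ρ : ℝ => π * (2 * (- Real.log (1 - ‖a‖ ^ 2 / ρ ^ 2)) +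
        2 * (F a).re)) 1 := by
      have h2 : (1:ℝ) - ‖a‖ ^ 2 / 1 ^ 2 ≠ 0 := by
        have : ‖a‖ ^ 2 < 1 := by nlinarith
        rw [one_pow, div_one]
        linarith
      have h3 : ContinuousAt (fun ρ : ℝ => 1 - ‖a‖ ^ 2 / ρ ^ 2) 1 := by
        apply continuousAt_const.sub
        apply continuousAt_const.div (by fun_prop)
        norm_num
      have h4 := h3.log h2
      exact continuousAt_const.mul ((continuousAt_const.mul h4.neg).add continuousAt_const)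
    exact h1.tendsto.mono_left nhdsWithin_le_nhds
  have hfin := le_of_tendsto_of_tendsto hL hRlim (by
    filter_upwards [hev] with ρ hρ
    exact energy_rho h hρ₀ hρ.1 hρ.2.2.1 (by simpa using hρ.2.1) ha0 hF hF0 hexp)
  rw [one_pow, div_one] at hfin
  linarith

end Pool.Agent.Helper39.EK

end

section


/-!
E1a: the energy on the disc, and the lower bound for `N`.
-/

set_option autoImplicit false

open Complex MeasureTheory Metric Set Filter Topology
open scoped Real ENNReal ComplexConjugate NNReal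

namespace Pool.Agent.Helper39.EK

open Pool.Agent.Helper39.Area Pool.Agent.Helper52.EK

/-- derivative of `log ((f z - f a) / ((1/z - 1/a) (1 - a z)))` -/
noncomputable def Dd (β : ℂ → ℂ) (a : ℝ) (z : ℂ) : ℂ :=
  dphi β z / (phi β z - phi β a) - (-z⁻¹ + (z - a)⁻¹ - a / (1 - a * z))

/-- the logarithm of the divided difference -/
theorem exists_log {β : ℂ → ℂ} (h : Ext β) {a : ℂ} (ha : a ∈ ball (0:ℂ) 1) :
    ∃ F : ℂ → ℂ, F 0 = 0 ∧
      (∀ ζ ∈ ball (0:ℂ) 1, HasDerivAt F (deriv (qq β a) ζ / qq β a ζ) ζ) ∧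
      ∀ ζ ∈ ball (0:ℂ) 1, Complex.exp (F ζ) = qq β a ζ := by
  have h0b : (0:ℂ) ∈ ball (0:ℂ) 1 := mem_ball_self one_pos
  have hqd := qq_diff h.diff ha
  have hQd : DifferentiableOn ℂ (fun ζ => deriv (qq β a) ζ / qq β a ζ) (ball 0 1) :=
    (hqd.deriv isOpen_ball).div hqd (fun ζ hζ => qq_ne h ha hζ)
  obtain ⟨F, hF0, hF⟩ := hQd.isExactOn_ball.with_val_at 0 0
  refine ⟨F, hF0, hF, ?_⟩
  have hderiv : ∀ ζ ∈ ball (0:ℂ) 1, HasDerivAt (fun ζ => Complex.exp (-F ζ) * qq β a ζ) 0 ζ := by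
    intro ζ hζ
    have h1 := ((hF ζ hζ).neg.cexp).mul ((hqd.differentiableAt (isOpen_ball.mem_nhds hζ)).hasDerivAt)
    have h2 := qq_ne h ha hζ
    have e : (0:ℂ) = Complex.exp (-F ζ) * -(deriv (qq β a) ζ / qq β a ζ) * qq β a ζ +
        Complex.exp (-F ζ) * deriv (qq β a) ζ := by
      field_simp
      ring
    rw [e]
    exact h1
  intro ζ hζ
  have h1 : Complex.exp (-F ζ) * qq β a ζ = Complex.exp (-F 0) * qq β a 0 := by
    apply (convex_ball (0:ℂ) 1).is_const_of_fderivWithin_eq_zero (𝕜 := ℂ)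
      (f := fun ζ => Complex.exp (-F ζ) * qq β a ζ) _ _ hζ h0b
    · intro ω hω
      exact (hderiv ω hω).differentiableAt.differentiableWithinAt
    · intro ω hω
      have h3 := (hderiv ω hω).hasFDerivAt.hasFDerivWithinAt (s := ball (0:ℂ) 1)
      rw [h3.fderivWithin (isOpen_ball.uniqueDiffWithinAt hω)]
      ext
      simp
  rw [hF0, neg_zero, Complex.exp_zero, one_mul] at h1
  have h2 : qq β a 0 = 1 := by simp [qq]
  rw [h2, Complex.exp_neg] at h1
  have h3 := Complex.exp_ne_zero (F ζ)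
  field_simp at h1
  exact h1.symm

theorem qq_self {β : ℂ → ℂ} (a : ℂ) : qq β a a = N β a := by
  rw [qq, dslope_same, N]
  ring

theorem N_ge {β : ℂ → ℂ} (h : Ext β) {z : ℂ} (hz : ‖z‖ < 1) : 1 - ‖z‖ ^ 2 ≤ ‖N β z‖ := by
  have hz1 : z ∈ ball (0:ℂ) 1 := by simpa using hz
  obtain ⟨F, hF0, hF, hexp⟩ := exists_log h hz1
  have h1 := log_bound h hz1 hF hF0 hexp
  have h2 : 0 < 1 - ‖z‖ ^ 2 := by nlinarith [norm_nonneg z]
  rw [← qq_self, ← hexp z hz1, Complex.norm_exp]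
  have h3 : -‖F z‖ ≤ (F z).re := by
    have := Complex.abs_re_le_norm (F z)
    exact (neg_le_neg this).trans (neg_abs_le _)
  calc 1 - ‖z‖ ^ 2 = Real.exp (Real.log (1 - ‖z‖ ^ 2)) := (Real.exp_log h2).symm
    _ ≤ Real.exp (F z).re := Real.exp_le_exp.mpr (by linarith)

theorem E1a {β : ℂ → ℂ} (h : Ext β) {a ρ : ℝ} (ha : 0 < a) (haρ : a < ρ) (hρ : ρ < 1) :
    IntegrableOn (fun z : ℂ => ‖Dd β a z‖ ^ 2) (ball 0 ρ) ∧
    ∫ z in ball (0:ℂ) ρ, ‖Dd β a z‖ ^ 2 ≤ 2 * π * Real.log (‖N β a‖ / (1 - a ^ 2)) := by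
  have hρ0 : 0 < ρ := ha.trans haρ
  have ha1 : ((a:ℝ):ℂ) ∈ ball (0:ℂ) 1 := by
    rw [mem_ball, dist_zero_right, Complex.norm_real, Real.norm_of_nonneg ha.le]
    linarith
  have ha0 : ((a:ℝ):ℂ) ≠ 0 := by exact_mod_cast ha.ne'
  obtain ⟨F, hF0, hF, hexp⟩ := exists_log h ha1
  have hFd : DifferentiableOn ℂ F (ball 0 1) := fun ζ hζ =>
    (hF ζ hζ).differentiableAt.differentiableWithinAt
  set g : ℂ → ℝ := fun z => ‖deriv F z + conj (a:ℂ) / (1 - conj (a:ℂ) * z)‖ ^ 2 with hg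
  have hgc : ContinuousOn g (closedBall 0 ρ) := by
    have hdc : ContinuousOn (deriv F) (closedBall 0 ρ) :=
      (hFd.deriv isOpen_ball).continuousOn.mono (closedBall_subset_ball hρ)
    apply ContinuousOn.pow
    apply ContinuousOn.norm
    apply hdc.add
    apply ContinuousOn.div continuousOn_const (by fun_prop)
    intro z hz h0
    rw [mem_closedBall, dist_zero_right] at hz
    have h1 : conj (a:ℂ) * z = 1 := (sub_eq_zero.mp h0).symm
    have h2 : ‖conj (a:ℂ) * z‖ = 1 := by rw [h1, norm_one]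
    rw [norm_mul, RCLike.norm_conj, Complex.norm_real, Real.norm_of_nonneg ha.le] at h2
    nlinarith [norm_nonneg z]
  have hgi : IntegrableOn g (ball 0 ρ) :=
    (hgc.integrableOn_compact (isCompact_closedBall _ _)).mono_set ball_subset_closedBall
  have hae : (fun z : ℂ => ‖Dd β a z‖ ^ 2) =ᵐ[volume.restrict (ball (0:ℂ) ρ)] g := by
    have h1 : ∀ᵐ z : ℂ ∂(volume.restrict (ball (0:ℂ) ρ)), z ∈ ball (0:ℂ) ρ :=
      ae_restrict_mem measurableSet_ball
    have h2 : ∀ᵐ z : ℂ ∂(volume.restrict (ball (0:ℂ) ρ)), z ≠ 0 := by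
      apply ae_restrict_of_ae
      exact measure_eq_zero_iff_ae_notMem.mp (measure_singleton (μ := (volume : Measure ℂ)) 0)
    have h3 : ∀ᵐ z : ℂ ∂(volume.restrict (ball (0:ℂ) ρ)), z ≠ a := by
      apply ae_restrict_of_ae
      exact measure_eq_zero_iff_ae_notMem.mp (measure_singleton (μ := (volume : Measure ℂ)) (a:ℂ))
    filter_upwards [h1, h2, h3] with z hz hz0 hza
    have hz1 : z ∈ ball (0:ℂ) 1 := ball_subset_ball hρ.le hz
    rw [hg, Dd, dphi_div h ha1 hz1 ha0 hz0 hza]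
    simp only
    rw [(hF z hz1).deriv, Complex.conj_ofReal]
    congr 2
    ring
  refine ⟨hgi.congr hae.symm, ?_⟩
  rw [integral_congr_ae hae]
  have h4 := energy h hρ0 hρ ha1 ha0 hF hF0 hexp
  refine h4.trans (le_of_eq ?_)
  have h5 : ‖N β (a:ℂ)‖ = Real.exp (F a).re := by
    rw [← qq_self, ← hexp _ ha1, Complex.norm_exp]
  have h6 : (0:ℝ) < 1 - a ^ 2 := by nlinarith
  rw [h5, Real.log_div (Real.exp_pos _).ne' h6.ne', Real.log_exp, Complex.norm_real,
    Real.norm_of_nonneg ha.le]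
  ring

end Pool.Agent.Helper39.EK

end

section

set_option autoImplicit false
open Complex MeasureTheory Metric Set
open scoped Real ComplexConjugate

/-! Project EK, E2 (entropy): the common definitions, copied from the specification. -/

namespace Pool.Agent.Helper52.EK

noncomputable def uu (ρ : ℝ → ℝ) (t θ : ℝ) : ℝ :=
  (2 * π)⁻¹ * ∫ α in (0:ℝ)..(2 * π), Pk (Complex.exp (α * I)) (ep t θ) * ρ α

noncomputable def AA (ρ : ℝ → ℝ) (t : ℝ) : ℝ :=
  (2 * π)⁻¹ * ∫ θ in (-π)..π, uu ρ t θ * Real.log (uu ρ t θ)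

/-- a probability density on the circle -/
structure Dens (ρ : ℝ → ℝ) : Prop where
  cont : Continuous ρ
  pos : ∀ α, 0 < ρ α
  per : Function.Periodic ρ (2 * π)
  one : ∫ α in (0:ℝ)..(2 * π), ρ α = 2 * π

noncomputable def ut (ρ : ℝ → ℝ) (t θ : ℝ) : ℝ := deriv (fun t' => uu ρ t' θ) t
noncomputable def uth (ρ : ℝ → ℝ) (t θ : ℝ) : ℝ := deriv (fun θ' => uu ρ t θ') θ
noncomputable def A1 (ρ : ℝ → ℝ) (t : ℝ) : ℝ :=
  (2 * π)⁻¹ * ∫ θ in (-π)..π, (1 + Real.log (uu ρ t θ)) * ut ρ t θ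
noncomputable def A2 (ρ : ℝ → ℝ) (t : ℝ) : ℝ :=
  (2 * π)⁻¹ * ∫ θ in (-π)..π, (ut ρ t θ ^ 2 + uth ρ t θ ^ 2) / uu ρ t θ

/-- the double average of the loss at height t -/
noncomputable def kk (ρ : ℝ → ℝ) (w : ℂ → ℂ) (t : ℝ) : ℝ :=
  (2 * π)⁻¹ * ∫ θ in (-π)..π, (2 * π)⁻¹ * ∫ α in (0:ℝ)..(2 * π),
    ρ α * (Pk (Complex.exp (α * I)) (ep t θ) *
      ‖ee (Complex.exp (α * I)) (ep t θ) - w (ep t θ)‖ ^ 2 / Real.sinh t ^ 2)

end Pool.Agent.Helper52.EK

end

section

set_option autoImplicit false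
open Complex MeasureTheory Metric Set
open scoped Real ComplexConjugate

/-! Project EK, module E6b: rotation of the data. -/

namespace Pool.Agent.Helper9.EK

open Pool.Agent.Helper39.Area Pool.Agent.Helper52.EK

/-- rotated data: `phi (rotβ β α) z = e^(iα) phi β (e^(iα) z)` -/
noncomputable def rotβ (β : ℂ → ℂ) (α : ℝ) (z : ℂ) : ℂ :=
  Complex.exp (α * I) * β (Complex.exp (α * I) * z)

theorem norm_exp_mul (α : ℝ) (z : ℂ) : ‖Complex.exp (α * I) * z‖ = ‖z‖ := by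
  rw [norm_mul, Complex.norm_exp_ofReal_mul_I, one_mul]

theorem mem_ball_rot {α R : ℝ} {z : ℂ} (hz : z ∈ ball (0:ℂ) R) :
    Complex.exp (α * I) * z ∈ ball (0:ℂ) R := by
  rw [mem_ball_zero_iff] at hz ⊢
  rwa [norm_exp_mul]

theorem deriv_rotβ {β : ℂ → ℂ} (α : ℝ) (z : ℂ) :
    deriv (rotβ β α) z = Complex.exp (α * I) * (Complex.exp (α * I) *
      deriv β (Complex.exp (α * I) * z)) := by
  have h1 : rotβ β α = fun z => Complex.exp (α * I) * (fun z => β (Complex.exp (α * I) * z)) z := rfl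
  rw [h1, deriv_const_mul_field, deriv_comp_mul_left, smul_eq_mul]

theorem rot_N' {β : ℂ → ℂ} (α : ℝ) (z : ℂ) :
    N (rotβ β α) z = N β (Complex.exp (α * I) * z) := by
  unfold N
  rw [deriv_rotβ]
  ring

theorem rot_N {β : ℂ → ℂ} {R : ℝ} (_h : ExtR β R) (α : ℝ) {z : ℂ} (_hz : ‖z‖ < R) :
    N (rotβ β α) z = N β (Complex.exp (α * I) * z) := rot_N' α z

theorem rot_ExtR {β : ℂ → ℂ} {R : ℝ} (h : ExtR β R) (α : ℝ) : ExtR (rotβ β α) R := by
  have hc : Complex.exp (α * I) ≠ 0 := Complex.exp_ne_zero _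
  refine ⟨h.one_lt, ?_, ?_, ?_⟩
  · have h1 : DifferentiableOn ℂ (fun z => β (Complex.exp (α * I) * z)) (ball 0 R) :=
      h.diff.comp (differentiableOn_id.const_mul _) (fun z hz => mem_ball_rot hz)
    exact h1.const_mul _
  · intro ζ ω hζ hω hζ0 hω0 he
    have h2 := h.inj (Complex.exp (α * I) * ζ) (Complex.exp (α * I) * ω) (mem_ball_rot hζ)
      (mem_ball_rot hω) (mul_ne_zero hc hζ0) (mul_ne_zero hc hω0) ?_
    · exact mul_left_cancel₀ hc h2
    · apply mul_left_cancel₀ hc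
      have e1 : ∀ w : ℂ, Complex.exp (α * I) * ((Complex.exp (α * I) * w)⁻¹ +
          β (Complex.exp (α * I) * w)) = w⁻¹ + rotβ β α w := by
        intro w
        unfold rotβ
        rw [mul_add, mul_inv, ← mul_assoc, mul_inv_cancel₀ hc, one_mul]
      rw [e1, e1, he]
  · intro ζ hζ
    have h3 := h.ne (Complex.exp (α * I) * ζ) (mem_ball_rot hζ)
    have h4 := rot_N' (β := β) α ζ
    unfold N at h4
    rw [h4]
    exact h3

theorem ep_add (t θ α : ℝ) : ep t (θ + α) = Complex.exp (α * I) * ep t θ := by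
  unfold ep
  rw [← Complex.exp_add]
  congr 1
  push_cast
  ring

theorem ep_two_pi (t θ : ℝ) : ep t (θ + 2 * π) = ep t θ := by
  rw [ep_add]
  have : Complex.exp (((2 * π : ℝ) : ℂ) * I) = 1 := by
    push_cast
    exact Complex.exp_two_pi_mul_I
  rw [this, one_mul]

theorem norm_exp_one (α : ℝ) : ‖Complex.exp (α * I)‖ = 1 := Complex.norm_exp_ofReal_mul_I α

theorem conj_exp_mul (α : ℝ) : conj (Complex.exp (α * I)) * Complex.exp (α * I) = 1 := by
  rw [← Complex.normSq_eq_conj_mul_self, Complex.normSq_eq_norm_sq, norm_exp_one]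
  simp

theorem Pk_rot (α : ℝ) (z : ℂ) : Pk (Complex.exp (α * I)) (Complex.exp (α * I) * z) = Pk 1 z := by
  unfold Pk
  rw [norm_exp_mul]
  have : Complex.exp (α * I) - Complex.exp (α * I) * z = Complex.exp (α * I) * (1 - z) := by ring
  rw [this, norm_exp_mul]

theorem ee_rot (α : ℝ) (z : ℂ) : ee (Complex.exp (α * I)) (Complex.exp (α * I) * z) =
    conj (Complex.exp (α * I)) * ee 1 z := by
  unfold ee
  have hc : Complex.exp (α * I) ≠ 0 := Complex.exp_ne_zero _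
  have e1 : Complex.exp (α * I) - Complex.exp (α * I) * z = Complex.exp (α * I) * (1 - z) := by ring
  have e2 : 1 - conj (Complex.exp (α * I) * z) * Complex.exp (α * I) = 1 - conj z * 1 := by
    rw [map_mul]
    have := conj_exp_mul α
    linear_combination (-(conj z)) * this
  have e3 : (Complex.exp (α * I))⁻¹ = conj (Complex.exp (α * I)) := by
    rw [eq_comm, ← mul_eq_one_iff_eq_inv₀ hc]
    exact conj_exp_mul α
  rw [e1, e2, div_eq_mul_inv, mul_inv, e3]
  ring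

theorem mrad_rot {β : ℂ → ℂ} (α : ℝ) (z : ℂ) :
    mrad (rotβ β α) z = mrad β (Complex.exp (α * I) * z) := by
  have h1 : N (rotβ β α) = fun z => N β (Complex.exp (α * I) * z) := funext (rot_N' α)
  unfold mrad
  rw [h1, deriv_comp_mul_left, smul_eq_mul, norm_exp_mul, map_mul]
  have := conj_exp_mul α
  have e : ∀ A : ℂ, Complex.exp (α * I) * z / (‖z‖ : ℂ) *
      (-(conj (Complex.exp (α * I)) * conj z) - A) =
      z / (‖z‖ : ℂ) * (-(conj (Complex.exp (α * I)) * Complex.exp (α * I)) * conj z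
        - Complex.exp (α * I) * A) := by
    intro A; ring
  rw [e, this]
  ring

theorem wf_rot {G β : ℂ → ℂ} (α : ℝ) (z : ℂ) :
    wf G β (Complex.exp (α * I) * z) = conj (Complex.exp (α * I)) * wf G (rotβ β α) z := by
  unfold wf
  rw [mrad_rot, norm_exp_mul, mul_div_assoc, map_mul]
  ring

theorem rot_Kf' {β G : ℂ → ℂ} (α : ℝ) (t₀ t₂ : ℝ) :
    Kf (wf G β) (Complex.exp (α * I)) t₀ t₂ = Kf (wf G (rotβ β α)) 1 t₀ t₂ := by
  unfold Kf
  congr 1
  apply intervalIntegral.integral_congr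
  intro t _
  show (∫ θ in (-π)..π, (t₂ - t) * Pk (Complex.exp (α * I)) (ep t θ) *
      ‖ee (Complex.exp (α * I)) (ep t θ) - wf G β (ep t θ)‖ ^ 2 / Real.sinh t ^ 2) =
    ∫ θ in (-π)..π, (t₂ - t) * Pk 1 (ep t θ) *
      ‖ee 1 (ep t θ) - wf G (rotβ β α) (ep t θ)‖ ^ 2 / Real.sinh t ^ 2
  set f : ℝ → ℝ := fun θ => (t₂ - t) * Pk (Complex.exp (α * I)) (ep t θ) *
      ‖ee (Complex.exp (α * I)) (ep t θ) - wf G β (ep t θ)‖ ^ 2 / Real.sinh t ^ 2 with hf
  have hper : Function.Periodic f (2 * π) := by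
    intro θ
    simp only [hf, ep_two_pi]
  have hshift : ∀ θ, f (θ + α) = (t₂ - t) * Pk 1 (ep t θ) *
      ‖ee 1 (ep t θ) - wf G (rotβ β α) (ep t θ)‖ ^ 2 / Real.sinh t ^ 2 := by
    intro θ
    simp only [hf]
    rw [ep_add, Pk_rot, ee_rot, wf_rot, ← mul_sub, norm_mul]
    have : ‖conj (Complex.exp (α * I))‖ = 1 := by
      rw [RCLike.norm_conj, norm_exp_one]
    rw [this, one_mul]
  have h1 : (∫ θ in (-π)..π, (t₂ - t) * Pk 1 (ep t θ) *
      ‖ee 1 (ep t θ) - wf G (rotβ β α) (ep t θ)‖ ^ 2 / Real.sinh t ^ 2) =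
      ∫ θ in (-π)..π, f (θ + α) := by
    apply intervalIntegral.integral_congr
    intro θ _
    exact (hshift θ).symm
  rw [h1, intervalIntegral.integral_comp_add_right]
  have h2 := hper.intervalIntegral_add_eq (-π) (-π + α)
  have e1 : -π + 2 * π = π := by ring
  have e2 : -π + α + 2 * π = π + α := by ring
  rw [e1, e2] at h2
  exact h2

theorem rot_Kf {β : ℂ → ℂ} {R : ℝ} (_h : ExtR β R) {G : ℂ → ℂ} {L : ℝ} (_hG : GLip G L) (α : ℝ)
    {t₂ : ℝ} (_h1 : -1 < t₂) (_h2 : t₂ < 0) :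
    Kf (wf G β) (Complex.exp (α * I)) (-1) t₂ = Kf (wf G (rotβ β α)) 1 (-1) t₂ :=
  rot_Kf' α (-1) t₂

end Pool.Agent.Helper9.EK

end

section

set_option autoImplicit false
open Complex MeasureTheory Metric Set
open scoped Real ComplexConjugate

/-! Project EK, module E6c: the Gibbs variational step. -/

namespace Pool.Agent.Helper61.EK

open Pool.Agent.Helper39.Area Pool.Agent.Helper52.EK Pool.Agent.Helper9.EK

/-- the statement of the entropy inequality (E2) -/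
def EntropyStmt : Prop := ∃ C : ℝ, ∀ (ρ : ℝ → ℝ) (w : ℂ → ℂ) (a : ℝ), Dens ρ →
    ContinuousOn w {z | 0 < ‖z‖ ∧ ‖z‖ < 1} → Real.exp (-1) < a → a < 1 →
    -Real.log (1 - a ^ 2) - C ≤ (2 * π)⁻¹ * (∫ α in (0:ℝ)..(2 * π), ρ α * Real.log (ρ α)) +
      (2 * π)⁻¹ * ∫ α in (0:ℝ)..(2 * π), ρ α * Kf w (Complex.exp (α * I)) (-1) (Real.log a)

/-- the statement of the continuity of the loss (E2e) -/
def KfContStmt : Prop := ∀ {w : ℂ → ℂ}, ContinuousOn w {z | 0 < ‖z‖ ∧ ‖z‖ < 1} → ∀ {t₂ : ℝ},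
    -1 < t₂ → t₂ < 0 → Continuous (fun α : ℝ => Kf w (Complex.exp (α * I)) (-1) t₂)

theorem N_circ_cont {β : ℂ → ℂ} {R : ℝ} (h : ExtR β R) {a : ℝ} (ha : 0 < a) (ha1 : a < 1) :
    Continuous (fun α : ℝ => N β (a * Complex.exp (α * I))) := by
  have hmem : ∀ α : ℝ, (a * Complex.exp (α * I) : ℂ) ∈ ball (0:ℂ) R := by
    intro α
    rw [mem_ball_zero_iff, norm_mul, Complex.norm_exp_ofReal_mul_I, mul_one, Complex.norm_real,
      Real.norm_eq_abs, abs_of_pos ha]
    exact ha1.trans h.one_lt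
  have hd : ContinuousOn (deriv β) (ball 0 R) := (h.diff.deriv isOpen_ball).continuousOn
  have hc : Continuous (fun α : ℝ => (a * Complex.exp (α * I) : ℂ)) := by fun_prop
  have h1 : Continuous (fun α : ℝ => deriv β (a * Complex.exp (α * I))) :=
    hd.comp_continuous hc hmem
  unfold N
  exact continuous_const.sub ((hc.pow 2).mul h1)

theorem N_circ_pos {β : ℂ → ℂ} {R : ℝ} (h : ExtR β R) {a : ℝ} (ha : 0 < a) (ha1 : a < 1) (α : ℝ) :
    0 < ‖N β (a * Complex.exp (α * I))‖ := by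
  rw [norm_pos_iff]
  apply h.ne
  rw [mem_ball_zero_iff, norm_mul, Complex.norm_exp_ofReal_mul_I, mul_one, Complex.norm_real,
      Real.norm_eq_abs, abs_of_pos ha]
  exact ha1.trans h.one_lt

theorem exp_per (α : ℝ) : Complex.exp (((α + 2 * π : ℝ) : ℂ) * I) = Complex.exp (α * I) := by
  push_cast
  rw [add_mul, Complex.exp_add, Complex.exp_two_pi_mul_I, mul_one]

/-- Gibbs, from the entropy inequality and the two continuity statements -/
theorem gibbs_of {κ : ℝ} {G : ℂ → ℂ}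
    (hE : EntropyStmt) (hKc : KfContStmt)
    (hwc : ∀ {β : ℂ → ℂ}, Ext β → ContinuousOn (wf G β) {z | 0 < ‖z‖ ∧ ‖z‖ < 1})
    (hK : ∃ C a₀ : ℝ, a₀ < 1 ∧ ∀ (β : ℂ → ℂ) (R a : ℝ), ExtR β R → a₀ < a → a < 1 →
      Kf (wf G β) 1 (-1) (Real.log a) ≤ κ * Real.log (‖N β a‖ / (1 - a ^ 2)) + C) :
    ∃ C a₀ : ℝ, a₀ < 1 ∧ ∀ (β : ℂ → ℂ) (R a : ℝ), ExtR β R → a₀ < a → a < 1 →
      (2 * π)⁻¹ * (∫ α in (0:ℝ)..(2 * π), ‖N β (a * Complex.exp (α * I))‖ ^ (-κ)) ≤
        C * (1 - a ^ 2) ^ (-(κ - 1)) := by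
  obtain ⟨C₁, hE⟩ := hE
  obtain ⟨C₂, a₀, ha₀, hK⟩ := hK
  refine ⟨Real.exp (C₁ + C₂), max a₀ (Real.exp (-1)), ?_, ?_⟩
  · apply max_lt ha₀
    rw [Real.exp_lt_one_iff]
    norm_num
  intro β R a h haa ha1
  have ha0 : a₀ < a := (le_max_left _ _).trans_lt haa
  have hae : Real.exp (-1) < a := (le_max_right _ _).trans_lt haa
  have hap : 0 < a := (Real.exp_pos _).trans hae
  have h2π : (0:ℝ) < 2 * π := by positivity
  have hs : 0 < 1 - a ^ 2 := by nlinarith
  set f : ℝ → ℝ := fun α => ‖N β (a * Complex.exp (α * I))‖ with hf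
  have hfc : Continuous f := (N_circ_cont h hap ha1).norm
  have hfp : ∀ α, 0 < f α := fun α => N_circ_pos h hap ha1 α
  set g : ℝ → ℝ := fun α => f α ^ (-κ) with hg
  have hgc : Continuous g := hfc.rpow_const (fun α => Or.inl (hfp α).ne')
  have hgp : ∀ α, 0 < g α := fun α => Real.rpow_pos_of_pos (hfp α) _
  have hfper : Function.Periodic f (2 * π) := by
    intro α
    simp only [hf]
    rw [exp_per]
  have hI : 0 < ∫ α in (0:ℝ)..(2 * π), g α :=
    intervalIntegral.intervalIntegral_pos_of_pos (hgc.intervalIntegrable _ _) hgp h2π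
  set M : ℝ := (2 * π)⁻¹ * (∫ α in (0:ℝ)..(2 * π), g α) with hM
  have hMp : 0 < M := mul_pos (inv_pos.mpr h2π) hI
  set ρ : ℝ → ℝ := fun α => M⁻¹ * g α with hρ
  have hρc : Continuous ρ := continuous_const.mul hgc
  have hρp : ∀ α, 0 < ρ α := fun α => mul_pos (inv_pos.mpr hMp) (hgp α)
  have hone : ∫ α in (0:ℝ)..(2 * π), ρ α = 2 * π := by
    simp only [hρ]
    rw [intervalIntegral.integral_const_mul]
    rw [hM]
    field_simp
  have hdens : Dens ρ := by
    refine ⟨hρc, hρp, ?_, hone⟩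
    intro α
    simp only [hρ, hg]
    rw [hfper α]
  have hw := hwc h.toExt
  have hlog1 : -1 < Real.log a := (Real.lt_log_iff_exp_lt hap).mpr hae
  have hlog2 : Real.log a < 0 := Real.log_neg hap ha1
  have hmain := hE ρ (wf G β) a hdens hw hae ha1
  have hlogρ : ∀ α, Real.log (ρ α) = -κ * Real.log (f α) - Real.log M := by
    intro α
    simp only [hρ, hg]
    rw [Real.log_mul (inv_pos.mpr hMp).ne' (hgp α).ne', Real.log_inv, Real.log_rpow (hfp α)]
    ring
  have hKf : ∀ α : ℝ, Kf (wf G β) (Complex.exp (α * I)) (-1) (Real.log a) ≤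
      κ * Real.log (f α) - κ * Real.log (1 - a ^ 2) + C₂ := by
    intro α
    rw [rot_Kf' α]
    have h1 := hK (rotβ β α) R a (rot_ExtR h α) ha0 ha1
    have h2 : N (rotβ β α) (a : ℂ) = N β (a * Complex.exp (α * I)) := by
      rw [rot_N' α, mul_comm]
    rw [h2, Real.log_div (hfp α).ne' hs.ne'] at h1
    simp only [hf]
    linarith
  have hi1 : IntervalIntegrable (fun α => ρ α * Real.log (ρ α)) volume 0 (2 * π) :=
    (hρc.mul (hρc.log fun α => (hρp α).ne')).intervalIntegrable _ _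
  have hi2 : IntervalIntegrable
      (fun α => ρ α * Kf (wf G β) (Complex.exp (α * I)) (-1) (Real.log a)) volume 0 (2 * π) :=
    (hρc.mul (hKc hw hlog1 hlog2)).intervalIntegrable _ _
  have hsum : (∫ α in (0:ℝ)..(2 * π), ρ α * Real.log (ρ α)) +
      (∫ α in (0:ℝ)..(2 * π), ρ α * Kf (wf G β) (Complex.exp (α * I)) (-1) (Real.log a)) ≤
      (2 * π) * (-Real.log M - κ * Real.log (1 - a ^ 2) + C₂) := by
    rw [← intervalIntegral.integral_add hi1 hi2]
    have hle : (∫ α in (0:ℝ)..(2 * π), (ρ α * Real.log (ρ α) +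
        ρ α * Kf (wf G β) (Complex.exp (α * I)) (-1) (Real.log a))) ≤
        ∫ α in (0:ℝ)..(2 * π), ρ α * (-Real.log M - κ * Real.log (1 - a ^ 2) + C₂) := by
      apply intervalIntegral.integral_mono_on h2π.le (hi1.add hi2)
        ((hρc.mul continuous_const).intervalIntegrable _ _)
      intro α _
      have h1 := mul_le_mul_of_nonneg_left (hKf α) (hρp α).le
      show ρ α * Real.log (ρ α) + ρ α * Kf (wf G β) (Complex.exp (α * I)) (-1) (Real.log a) ≤
        ρ α * (-Real.log M - κ * Real.log (1 - a ^ 2) + C₂)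
      rw [hlogρ α]
      linarith
    rw [intervalIntegral.integral_mul_const, hone] at hle
    exact hle
  have hsum2 := mul_le_mul_of_nonneg_left hsum (inv_pos.mpr h2π).le
  rw [mul_add, ← mul_assoc, inv_mul_cancel₀ h2π.ne', one_mul] at hsum2
  have hlogM : Real.log M ≤ (C₁ + C₂) + -(κ - 1) * Real.log (1 - a ^ 2) := by linarith
  have : M ≤ Real.exp ((C₁ + C₂) + -(κ - 1) * Real.log (1 - a ^ 2)) :=
    (Real.log_le_iff_le_exp hMp).mp hlogM
  rw [Real.exp_add] at this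
  rw [Real.rpow_def_of_pos hs, mul_comm (Real.log (1 - a ^ 2))]
  exact this

end Pool.Agent.Helper61.EK

end

section


/-!
Project EK, E5: the algebra between the 2x2 forms and the pointwise inequality.
-/

set_option autoImplicit false
open Complex MeasureTheory Metric Set
open scoped Real ComplexConjugate

namespace Pool.Agent.Helper71.EK

open Pool.Agent.Helper52.EK

/-- binary forms -/
lemma form2 {a b d : ℝ} (ha : 0 ≤ a) (hd : 0 ≤ d) (hb : b ^ 2 ≤ a * d) (s c : ℝ) :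
    0 ≤ a * s ^ 2 + 2 * b * (s * c) + d * c ^ 2 := by
  rcases ha.eq_or_lt with h0 | h0
  · have hb0 : b = 0 := by
      rw [← h0, zero_mul] at hb
      exact pow_eq_zero_iff (two_ne_zero) |>.1 (le_antisymm hb (sq_nonneg b))
    rw [← h0, hb0]
    have : 0 ≤ d * c ^ 2 := by positivity
    linarith
  · have h1 : a * (a * s ^ 2 + 2 * b * (s * c) + d * c ^ 2) =
        (a * s + b * c) ^ 2 + (a * d - b ^ 2) * c ^ 2 := by ring
    have h2 : 0 ≤ a * (a * s ^ 2 + 2 * b * (s * c) + d * c ^ 2) := by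
      rw [h1]
      have : 0 ≤ a * d - b ^ 2 := by linarith
      positivity
    exact nonneg_of_mul_nonneg_right h2 h0

/-- completing the square in `u = (u1, u2)` -/
lemma square {D N h g1 g2 f1 f2 : ℝ} (hD : 0 < D) (hN : 0 < N)
    (hg : g1 ^ 2 + g2 ^ 2 ≤ N * h) (u1 u2 : ℝ) :
    0 ≤ N / D ^ 4 * (u1 ^ 2 + u2 ^ 2)
      + 2 / D ^ 3 * ((f1 * g1 + f2 * g2) * u1 - (f1 * g2 - f2 * g1) * u2)
      + (f1 ^ 2 + f2 ^ 2) * h / D ^ 2 := by
  have key : D ^ 4 * N * (N / D ^ 4 * (u1 ^ 2 + u2 ^ 2)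
      + 2 / D ^ 3 * ((f1 * g1 + f2 * g2) * u1 - (f1 * g2 - f2 * g1) * u2)
      + (f1 ^ 2 + f2 ^ 2) * h / D ^ 2) =
      (N * u1 + D * (f1 * g1 + f2 * g2)) ^ 2 + (N * u2 - D * (f1 * g2 - f2 * g1)) ^ 2
      + D ^ 2 * (f1 ^ 2 + f2 ^ 2) * (N * h - (g1 ^ 2 + g2 ^ 2)) := by
    field_simp
    ring
  have hpos : 0 < D ^ 4 * N := by positivity
  refine nonneg_of_mul_nonneg_right ?_ hpos
  rw [key]
  have : 0 ≤ N * h - (g1 ^ 2 + g2 ^ 2) := by linarith
  positivity

lemma e0_norm {s c : ℝ} (h : s ^ 2 + c ^ 2 = 1) : ‖e0 s c‖ = 1 := by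
  have h1 : ‖(c : ℂ) - (s : ℂ) * I‖ ^ 2 = 1 := by
    rw [← Complex.normSq_eq_norm_sq, Complex.normSq_apply]
    simp
    nlinarith
  rw [e0, norm_neg, norm_pow, h1]

/-- the value of `TG Gc` -/
lemma TG_mul {X Y : ℂ} {s c : ℝ} (h : s ^ 2 + c ^ 2 = 1) :
    TG Gc X Y s c * max 1 (‖mX X Y s c‖ ^ 2) = ‖mX X Y s c - e0 s c‖ ^ 2 := by
  have he := e0_norm h
  rw [TG]
  generalize mX X Y s c = m
  rcases le_or_gt (‖m‖ ^ 2) 1 with h1 | h1
  · rw [Gc, max_eq_left h1]; simp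
  · have hm : 0 < ‖m‖ ^ 2 := by linarith
    rw [Gc, max_eq_right h1.le]
    show ‖m / ((‖m‖ ^ 2 : ℝ) : ℂ) - e0 s c‖ ^ 2 * ‖m‖ ^ 2 = ‖m - e0 s c‖ ^ 2
    rw [← Complex.normSq_eq_norm_sq (m / _ - _), ← Complex.normSq_eq_norm_sq (m - _),
      Complex.normSq_sub, Complex.normSq_sub, Complex.normSq_div, Complex.normSq_ofReal,
      Complex.normSq_eq_norm_sq m, Complex.normSq_eq_norm_sq (e0 s c), he]
    have e1 : (m / ((‖m‖ ^ 2 : ℝ) : ℂ) * (starRingEnd ℂ) (e0 s c)).re =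
        (m * (starRingEnd ℂ) (e0 s c)).re / ‖m‖ ^ 2 := by
      rw [div_mul_eq_mul_div, Complex.div_ofReal_re]
    rw [e1]
    have hm0 : ‖m‖ ≠ 0 := by intro h0; rw [h0] at hm; simp at hm
    field_simp
    ring

/-- the sigma trick -/
lemma TG_le {X Y : ℂ} {s c E σ : ℝ} (h : s ^ 2 + c ^ 2 = 1) (hσ : 0 ≤ σ) (h1 : σ ≤ E)
    (h2 : ‖mX X Y s c - e0 s c‖ ^ 2 ≤ E + σ * (‖mX X Y s c‖ ^ 2 - 1)) :
    TG Gc X Y s c ≤ E := by
  have h3 := TG_mul (X := X) (Y := Y) h
  set m := mX X Y s c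
  rcases le_or_gt (‖m‖ ^ 2) 1 with h4 | h4
  · rw [max_eq_left h4, mul_one] at h3
    rw [h3]
    have : σ * (‖m‖ ^ 2 - 1) ≤ 0 := mul_nonpos_of_nonneg_of_nonpos hσ (by linarith)
    linarith
  · rw [max_eq_right h4.le] at h3
    have h5 : TG Gc X Y s c * ‖m‖ ^ 2 ≤ E * ‖m‖ ^ 2 := by
      rw [h3]
      have : σ * (‖m‖ ^ 2 - 1) ≤ E * (‖m‖ ^ 2 - 1) :=
        mul_le_mul_of_nonneg_right h1 (by linarith)
      linarith
    exact le_of_mul_le_mul_right h5 (by linarith)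

/-- `‖m - e0‖²` in real coordinates, `q = Y / X` -/
lemma norm_m_sub {X Y : ℂ} {s c : ℝ} (h : s ^ 2 + c ^ 2 = 1) :
    ‖mX X Y s c - e0 s c‖ ^ 2 = 4 * s ^ 2 * ((2 * (X.re - 1) + (Y / X).re) ^ 2
      + (2 * X.im + (Y / X).im) ^ 2) := by
  set q := Y / X with hq
  have e : mX X Y s c - e0 s c = (1 + e0 s c) * (2 * (X - 1) + q) := by
    rw [mX, ← hq]; ring
  have e2 : ‖1 + e0 s c‖ ^ 2 = 4 * s ^ 2 := by
    rw [← Complex.normSq_eq_norm_sq, Complex.normSq_apply, e0]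
    simp [pow_two]
    nlinarith [h, sq_nonneg s, sq_nonneg c]
  rw [e, norm_mul, mul_pow, e2, ← Complex.normSq_eq_norm_sq, Complex.normSq_apply]
  have e3 : (2 * (X - 1) + q).re = 2 * (X.re - 1) + q.re := by simp
  have e4 : (2 * (X - 1) + q).im = 2 * X.im + q.im := by simp
  rw [e3, e4]
  ring

/-- `‖m‖² - 1` in real coordinates -/
lemma norm_m_sq {X Y : ℂ} {s c : ℝ} (h : s ^ 2 + c ^ 2 = 1) :
    ‖mX X Y s c‖ ^ 2 - 1 = 4 * s ^ 2 * ((2 * X.re - 1 + (Y / X).re) ^ 2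
      + (2 * X.im + (Y / X).im) ^ 2) - 4 * s ^ 2 * (2 * X.re - 1 + (Y / X).re)
      + 4 * s * c * (2 * X.im + (Y / X).im) := by
  set q := Y / X with hq
  rw [mX, ← hq, ← Complex.normSq_eq_norm_sq, Complex.normSq_apply, e0]
  simp [pow_two]
  have hc : c * c = 1 - s * s := by nlinarith
  generalize X.re = x at *
  generalize X.im = y at *
  generalize q.re = a at *
  generalize q.im = b at *
  have : c ^ 2 = 1 - s ^ 2 := by nlinarith
  ring_nf
  have h4 : c ^ 4 = (1 - s ^ 2) ^ 2 := by rw [← this]; ring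
  simp only [h4, this]
  ring

end Pool.Agent.Helper71.EK

end

section


set_option autoImplicit false

open Complex MeasureTheory Metric Set
open scoped Real ComplexConjugate

/-!
EK, module E6d: scaling, and the moment bound for all univalent functions and all larger powers.
-/

namespace Pool.Agent.Helper28.EK

open Pool.Agent.Helper39.Area Pool.Agent.Helper52.EK

theorem scale_mem {ρ : ℝ} (h0 : 0 < ρ) {z : ℂ} (hz : z ∈ ball (0:ℂ) ρ⁻¹) :
    (ρ : ℂ) * z ∈ ball (0:ℂ) 1 := by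
  rw [mem_ball_zero_iff] at hz ⊢
  rw [norm_mul, Complex.norm_real, Real.norm_eq_abs, abs_of_pos h0]
  have := mul_lt_mul_of_pos_left hz h0
  rwa [mul_inv_cancel₀ h0.ne'] at this

theorem scale_deriv {β : ℂ → ℂ} (h : DifferentiableOn ℂ β (ball 0 1)) {ρ : ℝ} {z : ℂ}
    (hz : (ρ : ℂ) * z ∈ ball (0:ℂ) 1) :
    HasDerivAt (fun z => (ρ : ℂ) * β (ρ * z)) ((ρ : ℂ) * (deriv β (ρ * z) * ρ)) z := by
  have h1 : HasDerivAt β (deriv β (ρ * z)) (ρ * z) :=
    (h.differentiableAt (isOpen_ball.mem_nhds hz)).hasDerivAt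
  have h2 : HasDerivAt (fun z : ℂ => (ρ : ℂ) * z) (ρ : ℂ) z := by
    simpa using (hasDerivAt_id z).const_mul (ρ : ℂ)
  exact (h1.comp z h2).const_mul (ρ : ℂ)

theorem scale_N {β : ℂ → ℂ} (h : DifferentiableOn ℂ β (ball 0 1)) {ρ : ℝ} {z : ℂ}
    (hz : (ρ : ℂ) * z ∈ ball (0:ℂ) 1) :
    N (fun z => (ρ : ℂ) * β (ρ * z)) z = N β (ρ * z) := by
  unfold N
  rw [(scale_deriv h hz).deriv]
  ring

/-- E6d: scaling -/
theorem scale_ExtR {β : ℂ → ℂ} (h : Ext β) {ρ : ℝ} (h0 : 0 < ρ) (h1 : ρ < 1) :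
    ExtR (fun z => (ρ : ℂ) * β (ρ * z)) ρ⁻¹ := by
  have hρC : (ρ : ℂ) ≠ 0 := by exact_mod_cast h0.ne'
  refine ⟨(one_lt_inv₀ h0).2 h1, ?_, ?_, ?_⟩
  · intro z hz
    exact (scale_deriv h.diff (scale_mem h0 hz)).differentiableAt.differentiableWithinAt
  · intro ζ ω hζ hω hζ0 hω0 heq
    have e : ∀ x : ℂ, x ≠ 0 → x⁻¹ + (ρ : ℂ) * β (ρ * x) = ρ * ((ρ * x)⁻¹ + β (ρ * x)) := by
      intro x hx
      field_simp
    rw [e ζ hζ0, e ω hω0] at heq
    have h3 := mul_left_cancel₀ hρC heq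
    have h4 := h.inj _ _ (scale_mem h0 hζ) (scale_mem h0 hω) (mul_ne_zero hρC hζ0)
      (mul_ne_zero hρC hω0) h3
    exact mul_left_cancel₀ hρC h4
  · intro ζ hζ
    have h3 := scale_N h.diff (scale_mem h0 hζ)
    unfold N at h3
    rw [h3]
    exact h.ne _ (scale_mem h0 hζ)

theorem N_cont {β : ℂ → ℂ} (h : Ext β) {r : ℝ} (h0 : 0 < r) (h1 : r < 1) (p : ℝ) :
    Continuous (fun α : ℝ => ‖N β (r * Complex.exp (α * I))‖ ^ (-p)) := by
  have hmem : ∀ α : ℝ, (r : ℂ) * Complex.exp (α * I) ∈ ball (0:ℂ) 1 := by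
    intro α
    rw [mem_ball_zero_iff, norm_mul, Complex.norm_exp_ofReal_mul_I, mul_one, Complex.norm_real,
      Real.norm_eq_abs, abs_of_pos h0]
    exact h1
  have hN : ContinuousOn (fun z => ‖N β z‖ ^ (-p)) (ball (0:ℂ) 1) := by
    have hd : ContinuousOn (deriv β) (ball (0:ℂ) 1) :=
      ((h.diff.deriv isOpen_ball).continuousOn)
    have h2 : ContinuousOn (fun z => ‖N β z‖) (ball (0:ℂ) 1) := by
      unfold N
      exact (continuousOn_const.sub ((continuousOn_id.pow 2).mul hd)).norm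
    refine h2.rpow_const ?_
    intro z hz
    left
    exact norm_ne_zero_iff.2 (h.ne z hz)
  have h3 : Continuous (fun α : ℝ => (r : ℂ) * Complex.exp (α * I)) := by fun_prop
  exact hN.comp_continuous h3 hmem

theorem moment_Ext {κ : ℝ} (hκ : 1 ≤ κ)
    (hM : ∃ C a₀ : ℝ, a₀ < 1 ∧ ∀ (β : ℂ → ℂ) (R a : ℝ), ExtR β R → a₀ < a → a < 1 →
      (2 * π)⁻¹ * (∫ α in (0:ℝ)..(2 * π), ‖N β (a * Complex.exp (α * I))‖ ^ (-κ)) ≤
        C * (1 - a ^ 2) ^ (-(κ - 1))) :
    ∀ p : ℝ, κ ≤ p → ∃ C : ℝ, ∀ (β : ℂ → ℂ) (r : ℝ), Ext β → 0 < r → r < 1 →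
      (2 * π)⁻¹ * (∫ α in (0:ℝ)..(2 * π), ‖N β (r * Complex.exp (α * I))‖ ^ (-p)) ≤
        C * (1 - r ^ 2) ^ (-(p - 1)) := by
  obtain ⟨C₀, a₀, ha₀, hM⟩ := hM
  intro p hp
  obtain ⟨C₁, hC₁⟩ : ∃ C₁ : ℝ, C₁ = |C₀| * 2 ^ (κ - 1) := ⟨_, rfl⟩
  have hC₁0 : 0 ≤ C₁ := by rw [hC₁]; positivity
  obtain ⟨b, hb⟩ : ∃ b : ℝ, b = max a₀ 0 := ⟨_, rfl⟩
  have hb0 : 0 ≤ b := by rw [hb]; exact le_max_right _ _
  have hb1 : b < 1 := by rw [hb]; exact max_lt ha₀ one_pos
  have hab : a₀ ≤ b := by rw [hb]; exact le_max_left _ _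
  have h1b : 0 < 1 - b ^ 2 := by nlinarith
  obtain ⟨C₂, hC₂⟩ : ∃ C₂ : ℝ, C₂ = (1 - b ^ 2) ^ (-p) := ⟨_, rfl⟩
  have hC₂0 : 0 ≤ C₂ := by rw [hC₂]; positivity
  refine ⟨C₁ + C₂, ?_⟩
  intro β r hβ hr0 hr1
  have hπ : 0 < 2 * π := by positivity
  have h1r : 0 < 1 - r ^ 2 := by nlinarith
  have h1r1 : 1 - r ^ 2 ≤ 1 := by nlinarith
  have hmem : ∀ α : ℝ, ‖(r : ℂ) * Complex.exp (α * I)‖ = r := by
    intro α
    rw [norm_mul, Complex.norm_exp_ofReal_mul_I, mul_one, Complex.norm_real,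
      Real.norm_eq_abs, abs_of_pos hr0]
  have hNge : ∀ α : ℝ, 1 - r ^ 2 ≤ ‖N β (r * Complex.exp (α * I))‖ := by
    intro α
    have := Pool.Agent.Helper39.EK.N_ge hβ (z := (r : ℂ) * Complex.exp (α * I))
      (by rw [hmem]; exact hr1)
    rwa [hmem] at this
  have hcont : ∀ s : ℝ, IntervalIntegrable
      (fun α : ℝ => ‖N β (r * Complex.exp (α * I))‖ ^ (-s)) volume 0 (2 * π) :=
    fun s => (N_cont hβ hr0 hr1 s).intervalIntegrable _ _
  have hpow1 : 1 ≤ (1 - r ^ 2) ^ (-(p - 1)) :=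
    Real.one_le_rpow_of_pos_of_le_one_of_nonpos h1r h1r1 (by linarith)
  rcases le_or_gt r b with hrb | hrb
  · -- small radius
    have hle : ∀ α : ℝ, ‖N β (r * Complex.exp (α * I))‖ ^ (-p) ≤ C₂ := by
      intro α
      rw [hC₂]
      have h2 : 1 - b ^ 2 ≤ 1 - r ^ 2 := by nlinarith
      exact Real.rpow_le_rpow_of_nonpos h1b (h2.trans (hNge α)) (by linarith)
    have hint : (∫ α in (0:ℝ)..(2 * π), ‖N β (r * Complex.exp (α * I))‖ ^ (-p)) ≤
        ∫ _α in (0:ℝ)..(2 * π), C₂ :=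
      intervalIntegral.integral_mono_on hπ.le (hcont p) intervalIntegrable_const
        (fun α _ => hle α)
    rw [intervalIntegral.integral_const, smul_eq_mul, sub_zero] at hint
    have h3 : (2 * π)⁻¹ * (∫ α in (0:ℝ)..(2 * π), ‖N β (r * Complex.exp (α * I))‖ ^ (-p)) ≤
        (2 * π)⁻¹ * (2 * π * C₂) := mul_le_mul_of_nonneg_left hint (by positivity)
    rw [inv_mul_cancel_left₀ hπ.ne'] at h3
    calc _ ≤ C₂ := h3
      _ ≤ C₂ * (1 - r ^ 2) ^ (-(p - 1)) := le_mul_of_one_le_right hC₂0 hpow1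
      _ ≤ (C₁ + C₂) * (1 - r ^ 2) ^ (-(p - 1)) :=
          mul_le_mul_of_nonneg_right (by linarith) (by positivity)
  · -- scaling
    have hex : ∃ ρ : ℝ, r < ρ ∧ ρ < 1 ∧ b < r / ρ ∧ (1 - r ^ 2) / 2 ≤ 1 - (r / ρ) ^ 2 := by
      have hcts : Filter.Tendsto (fun ρ : ℝ => r / ρ) (nhdsWithin 1 (Iio 1)) (nhds r) := by
        have h2 : ContinuousAt (fun ρ : ℝ => r / ρ) 1 :=
          continuousAt_const.div continuousAt_id one_ne_zero
        have h3 := h2.tendsto
        simp only [div_one] at h3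
        exact h3.mono_left nhdsWithin_le_nhds
      have hcts2 : Filter.Tendsto (fun ρ : ℝ => 1 - (r / ρ) ^ 2) (nhdsWithin 1 (Iio 1))
          (nhds (1 - r ^ 2)) := (hcts.pow 2).const_sub 1
      have e1 : ∀ᶠ ρ in nhdsWithin (1:ℝ) (Iio 1), b < r / ρ := hcts.eventually_const_lt hrb
      have e2 : ∀ᶠ ρ in nhdsWithin (1:ℝ) (Iio 1), (1 - r ^ 2) / 2 < 1 - (r / ρ) ^ 2 :=
        hcts2.eventually_const_lt (by linarith)
      have e3 : ∀ᶠ ρ in nhdsWithin (1:ℝ) (Iio 1), r < ρ :=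
        (eventually_gt_nhds hr1).filter_mono nhdsWithin_le_nhds
      have e4 : ∀ᶠ ρ in nhdsWithin (1:ℝ) (Iio 1), ρ < 1 := eventually_mem_nhdsWithin
      obtain ⟨ρ, h4, h5, h6, h7⟩ := (e1.and (e2.and (e3.and e4))).exists
      exact ⟨ρ, h6, h7, h4, h5.le⟩
    obtain ⟨ρ, hrρ, hρ1, hbρ, hhalf⟩ := hex
    have hρ0 : 0 < ρ := hr0.trans hrρ
    have ha1 : r / ρ < 1 := by rw [div_lt_one hρ0]; exact hrρ
    have ha0 : 0 < r / ρ := by positivity
    have h2 := hM _ _ (r / ρ) (scale_ExtR hβ hρ0 hρ1) (lt_of_le_of_lt hab hbρ) ha1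
    have hρC : (ρ : ℂ) ≠ 0 := by exact_mod_cast hρ0.ne'
    have hNeq : ∀ α : ℝ, N (fun z => (ρ : ℂ) * β (ρ * z)) (((r / ρ : ℝ) : ℂ) *
        Complex.exp (α * I)) = N β (r * Complex.exp (α * I)) := by
      intro α
      have e : (ρ : ℂ) * (((r / ρ : ℝ) : ℂ) * Complex.exp (α * I)) = r * Complex.exp (α * I) := by
        push_cast
        field_simp
      rw [scale_N hβ.diff (by
        rw [e, mem_ball_zero_iff, hmem]
        exact hr1), e]
    simp only [hNeq] at h2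
    have hκm1 : 0 ≤ κ - 1 := by linarith
    have h3 : (1 - (r / ρ) ^ 2) ^ (-(κ - 1)) ≤ 2 ^ (κ - 1) * (1 - r ^ 2) ^ (-(κ - 1)) := by
      have h4 : (1 - (r / ρ) ^ 2) ^ (-(κ - 1)) ≤ ((1 - r ^ 2) / 2) ^ (-(κ - 1)) :=
        Real.rpow_le_rpow_of_nonpos (by linarith) hhalf (by linarith)
      refine h4.trans (le_of_eq ?_)
      rw [Real.div_rpow h1r.le (by norm_num), Real.rpow_neg (by norm_num : (0:ℝ) ≤ 2), div_inv_eq_mul,
        mul_comm]
    have h5 : (2 * π)⁻¹ * (∫ α in (0:ℝ)..(2 * π), ‖N β (r * Complex.exp (α * I))‖ ^ (-κ)) ≤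
        C₁ * (1 - r ^ 2) ^ (-(κ - 1)) := by
      have h6 : 0 < 1 - (r / ρ) ^ 2 := by linarith
      calc _ ≤ C₀ * (1 - (r / ρ) ^ 2) ^ (-(κ - 1)) := h2
        _ ≤ |C₀| * (1 - (r / ρ) ^ 2) ^ (-(κ - 1)) :=
            mul_le_mul_of_nonneg_right (le_abs_self _) (by positivity)
        _ ≤ |C₀| * (2 ^ (κ - 1) * (1 - r ^ 2) ^ (-(κ - 1))) :=
            mul_le_mul_of_nonneg_left h3 (abs_nonneg _)
        _ = C₁ * (1 - r ^ 2) ^ (-(κ - 1)) := by rw [hC₁]; ring
    -- larger powers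
    have hpt : ∀ α : ℝ, ‖N β (r * Complex.exp (α * I))‖ ^ (-p) ≤
        (1 - r ^ 2) ^ (-(p - κ)) * ‖N β (r * Complex.exp (α * I))‖ ^ (-κ) := by
      intro α
      have hpos : 0 < ‖N β (r * Complex.exp (α * I))‖ := lt_of_lt_of_le h1r (hNge α)
      have e : (-p) = -(p - κ) + (-κ) := by ring
      rw [e, Real.rpow_add hpos]
      refine mul_le_mul_of_nonneg_right ?_ (by positivity)
      exact Real.rpow_le_rpow_of_nonpos h1r (hNge α) (by linarith)
    have hint : (∫ α in (0:ℝ)..(2 * π), ‖N β (r * Complex.exp (α * I))‖ ^ (-p)) ≤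
        ∫ α in (0:ℝ)..(2 * π), (1 - r ^ 2) ^ (-(p - κ)) *
          ‖N β (r * Complex.exp (α * I))‖ ^ (-κ) :=
      intervalIntegral.integral_mono_on hπ.le (hcont p) ((hcont κ).const_mul _)
        (fun α _ => hpt α)
    rw [intervalIntegral.integral_const_mul] at hint
    have hq0 : (0:ℝ) ≤ (1 - r ^ 2) ^ (-(p - κ)) := by positivity
    calc (2 * π)⁻¹ * (∫ α in (0:ℝ)..(2 * π), ‖N β (r * Complex.exp (α * I))‖ ^ (-p))
        ≤ (2 * π)⁻¹ * ((1 - r ^ 2) ^ (-(p - κ)) *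
          ∫ α in (0:ℝ)..(2 * π), ‖N β (r * Complex.exp (α * I))‖ ^ (-κ)) :=
          mul_le_mul_of_nonneg_left hint (by positivity)
      _ = (1 - r ^ 2) ^ (-(p - κ)) * ((2 * π)⁻¹ *
          ∫ α in (0:ℝ)..(2 * π), ‖N β (r * Complex.exp (α * I))‖ ^ (-κ)) := by ring
      _ ≤ (1 - r ^ 2) ^ (-(p - κ)) * (C₁ * (1 - r ^ 2) ^ (-(κ - 1))) :=
          mul_le_mul_of_nonneg_left h5 hq0
      _ = C₁ * (1 - r ^ 2) ^ (-(p - 1)) := by
          have e : -(p - 1) = -(p - κ) + -(κ - 1) := by ring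
          rw [e, Real.rpow_add h1r]
          ring
      _ ≤ (C₁ + C₂) * (1 - r ^ 2) ^ (-(p - 1)) :=
          mul_le_mul_of_nonneg_right (by linarith) (by positivity)

end Pool.Agent.Helper28.EK

end

section

set_option autoImplicit false
open Complex MeasureTheory Metric Set
open scoped Real ComplexConjugate

/-! Project EK, module E3: continuity of the field `wf G β`. -/

namespace Pool.Agent.Helper70.EK

open Pool.Agent.Helper39.Area Pool.Agent.Helper52.EK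

theorem GLip.nonneg {G : ℂ → ℂ} {L : ℝ} (hG : GLip G L) : 0 ≤ L := by
  have h := hG.lip 1 0
  have h2 : L * ‖(1:ℂ) - 0‖ = L := by simp
  rw [h2] at h
  exact (norm_nonneg _).trans h

theorem GLip.continuous {G : ℂ → ℂ} {L : ℝ} (hG : GLip G L) : Continuous G := by
  have h : LipschitzWith (Real.toNNReal L) G := by
    apply LipschitzWith.of_dist_le_mul
    intro x y
    rw [dist_eq_norm, dist_eq_norm, Real.coe_toNNReal _ (GLip.nonneg hG)]
    exact hG.lip x y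
  exact h.continuous

theorem N_diff {β : ℂ → ℂ} (h : Ext β) : DifferentiableOn ℂ (N β) (ball 0 1) := by
  have h1 : DifferentiableOn ℂ (deriv β) (ball 0 1) := h.diff.deriv isOpen_ball
  unfold N
  fun_prop

theorem mrad_cont {β : ℂ → ℂ} (h : Ext β) :
    ContinuousOn (mrad β) {z | 0 < ‖z‖ ∧ ‖z‖ < 1} := by
  have hs : {z : ℂ | 0 < ‖z‖ ∧ ‖z‖ < 1} ⊆ ball 0 1 := by
    rintro z ⟨_, hz⟩
    rw [mem_ball, dist_zero_right]
    exact hz
  have h1 : ContinuousOn (N β) {z : ℂ | 0 < ‖z‖ ∧ ‖z‖ < 1} := (N_diff h).continuousOn.mono hs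
  have h2 : ContinuousOn (deriv (N β)) {z : ℂ | 0 < ‖z‖ ∧ ‖z‖ < 1} :=
    ((N_diff h).deriv isOpen_ball).continuousOn.mono hs
  have h3 : ∀ z ∈ {z : ℂ | 0 < ‖z‖ ∧ ‖z‖ < 1}, N β z ≠ 0 := fun z hz => h.ne z (hs hz)
  have h4 : ContinuousOn (fun z : ℂ => z / (‖z‖ : ℂ)) {z : ℂ | 0 < ‖z‖ ∧ ‖z‖ < 1} := by
    apply ContinuousOn.div continuousOn_id
    · exact (Complex.continuous_ofReal.comp continuous_norm).continuousOn
    · rintro z ⟨hz, _⟩
      exact Complex.ofReal_ne_zero.mpr hz.ne'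
  have h5 : ContinuousOn (fun z : ℂ => deriv (N β) z / N β z) {z : ℂ | 0 < ‖z‖ ∧ ‖z‖ < 1} :=
    h2.div h1 h3
  have h6 : ContinuousOn (fun z : ℂ => -conj z - (1 - (‖z‖ : ℂ) ^ 2) * (deriv (N β) z / N β z))
      {z : ℂ | 0 < ‖z‖ ∧ ‖z‖ < 1} := by
    apply ContinuousOn.sub
    · exact (Complex.continuous_conj.neg).continuousOn
    · apply ContinuousOn.mul _ h5
      exact (continuous_const.sub
        ((Complex.continuous_ofReal.comp continuous_norm).pow 2)).continuousOn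
  exact h4.mul h6

/-- E3c -/
theorem wf_cont {G : ℂ → ℂ} {L : ℝ} (hG : GLip G L) {β : ℂ → ℂ} (h : Ext β) :
    ContinuousOn (wf G β) {z | 0 < ‖z‖ ∧ ‖z‖ < 1} := by
  have h4 : ContinuousOn (fun z : ℂ => conj (z / (‖z‖ : ℂ))) {z : ℂ | 0 < ‖z‖ ∧ ‖z‖ < 1} := by
    apply Complex.continuous_conj.comp_continuousOn
    apply ContinuousOn.div continuousOn_id
    · exact (Complex.continuous_ofReal.comp continuous_norm).continuousOn
    · rintro z ⟨hz, _⟩
      exact Complex.ofReal_ne_zero.mpr hz.ne'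
  exact h4.mul ((GLip.continuous hG).comp_continuousOn (mrad_cont h))

theorem wf_le_one {G : ℂ → ℂ} {L : ℝ} (hG : GLip G L) (β : ℂ → ℂ) (z : ℂ) :
    ‖wf G β z‖ ≤ 1 := by
  unfold wf
  rw [norm_mul, RCLike.norm_conj, norm_div, Complex.norm_real, norm_norm]
  have h1 : ‖z‖ / ‖z‖ ≤ 1 := div_self_le_one _
  have h2 := hG.le_one (mrad β z)
  have h3 : 0 ≤ ‖z‖ / ‖z‖ := by positivity
  nlinarith [norm_nonneg (G (mrad β z))]

end Pool.Agent.Helper70.EK

end

section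

set_option autoImplicit false
open Complex MeasureTheory Metric Set
open scoped Real ComplexConjugate

/-! Project EK, E2: facts on the Poisson kernel, and E2d (Jensen). -/

namespace Pool.Agent.Helper73.EK

open Pool.Agent.Helper52.EK

theorem norm_cis (α : ℝ) : ‖Complex.exp (α * I)‖ = 1 := Complex.norm_exp_ofReal_mul_I α

theorem ep_eq (t θ : ℝ) : ep t θ = (Real.exp t : ℂ) * Complex.exp (θ * I) := by
  unfold ep
  rw [Complex.exp_add, Complex.ofReal_exp]

theorem norm_ep (t θ : ℝ) : ‖ep t θ‖ = Real.exp t := by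
  rw [ep_eq, norm_mul, norm_cis, mul_one, Complex.norm_real, Real.norm_eq_abs,
    abs_of_pos (Real.exp_pos t)]

theorem norm_ep_lt {t : ℝ} (ht : t < 0) (θ : ℝ) : ‖ep t θ‖ < 1 := by
  rw [norm_ep]
  rw [← Real.exp_zero]
  exact Real.exp_lt_exp.2 ht

theorem Pk_pos {ζ z : ℂ} (hζ : ‖ζ‖ = 1) (hz : ‖z‖ < 1) : 0 < Pk ζ z := by
  unfold Pk
  have h1 : ζ - z ≠ 0 := by
    intro h
    rw [sub_eq_zero] at h
    rw [← h, hζ] at hz
    exact lt_irrefl _ hz
  have h2 : 0 < ‖ζ - z‖ := norm_pos_iff.2 h1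
  have h3 : ‖z‖ ^ 2 < 1 := by
    have := norm_nonneg z
    nlinarith
  exact div_pos (by linarith) (by positivity)

theorem sub_ne_zero_of {ζ z : ℂ} (hζ : ‖ζ‖ = 1) (hz : ‖z‖ < 1) : ζ - z ≠ 0 := by
  intro h
  rw [sub_eq_zero] at h
  rw [← h, hζ] at hz
  exact lt_irrefl _ hz

/-- The mean of the Poisson kernel over the boundary points. -/
theorem integral_Pk {z : ℂ} (hz : ‖z‖ < 1) :
    ∫ α in (0:ℝ)..(2 * π), Pk (Complex.exp (α * I)) z = 2 * π := by
  have hf : DiffContOnCl ℂ (fun _ : ℂ => (1:ℂ)) (ball 0 1) := diffContOnCl_const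
  have h1 := hf.circleAverage_poissonKernel_smul (w := z) (by simpa using hz)
  have h2 : ∀ θ : ℝ, (poissonKernel 0 z • fun _ : ℂ => (1:ℂ)) (circleMap 0 1 θ) =
      ((Pk (Complex.exp (θ * I)) z : ℝ) : ℂ) := by
    intro θ
    have h3 : circleMap 0 1 θ = Complex.exp (θ * I) := by simp [circleMap]
    rw [h3]
    simp only [Pi.smul_apply', poissonKernel, Pk, sub_zero, norm_cis, one_pow]
    simp
  rw [Real.circleAverage_def] at h1
  simp_rw [h2] at h1
  rw [intervalIntegral.integral_ofReal] at h1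
  have h4 : ((2 * π)⁻¹ * ∫ α in (0:ℝ)..(2 * π), Pk (Complex.exp (α * I)) z : ℝ) = 1 := by
    have h5 := congrArg Complex.re h1
    simpa using h5
  have hpi : (0:ℝ) < 2 * π := by positivity
  field_simp at h4
  exact h4

theorem norm_symm (t α θ : ℝ) : ‖Complex.exp (α * I) - ep t θ‖ = ‖Complex.exp (θ * I) - ep t α‖ := by
  have h1 : Complex.exp (α * I) - ep t θ =
      (Complex.exp (α * I) * Complex.exp (θ * I)) * conj (Complex.exp (θ * I) - ep t α) := by
    have e1 : ∀ β : ℝ, conj (Complex.exp (β * I)) = (Complex.exp (β * I))⁻¹ := by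
      intro β
      rw [← Complex.exp_conj, ← Complex.exp_neg]
      congr 1
      simp
    rw [ep_eq, ep_eq, map_sub, map_mul, e1, e1, Complex.conj_ofReal]
    have n1 := Complex.exp_ne_zero (α * I)
    have n2 := Complex.exp_ne_zero (θ * I)
    field_simp
  rw [h1, norm_mul, norm_mul, norm_cis, norm_cis, one_mul, one_mul, Complex.norm_conj]

/-- The symmetry of the Poisson kernel. -/
theorem Pk_symm (t α θ : ℝ) :
    Pk (Complex.exp (α * I)) (ep t θ) = Pk (Complex.exp (θ * I)) (ep t α) := by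
  unfold Pk
  rw [norm_symm, norm_ep, norm_ep]

theorem continuous_ep : Continuous fun p : ℝ × ℝ => ep p.1 p.2 := by
  unfold ep
  fun_prop

/-- The Poisson kernel is continuous. -/
theorem continuous_Pk {t : ℝ} (ht : t < 0) :
    Continuous fun p : ℝ × ℝ => Pk (Complex.exp (p.1 * I)) (ep t p.2) := by
  unfold Pk
  have h1 : Continuous fun p : ℝ × ℝ => ep t p.2 := by
    unfold ep
    fun_prop
  refine Continuous.div (by fun_prop) (by fun_prop) fun p => ?_
  have h2 := sub_ne_zero_of (norm_cis p.1) (norm_ep_lt ht p.2)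
  positivity

theorem Pk_per (ζ : ℂ) (t : ℝ) : Function.Periodic (fun θ : ℝ => Pk ζ (ep t θ)) (2 * π) := by
  intro θ
  have h1 : ep t (θ + 2 * π) = ep t θ := by
    unfold ep
    push_cast
    rw [add_mul, ← add_assoc]
    exact Complex.exp_periodic _
  simp only [h1]

/-- The mean of the Poisson kernel over the circle of radius `e^t`. -/
theorem integral_Pk' {t : ℝ} (ht : t < 0) (α : ℝ) :
    ∫ θ in (-π)..π, Pk (Complex.exp (α * I)) (ep t θ) = 2 * π := by
  have h1 := (Pk_per (Complex.exp (α * I)) t).intervalIntegral_add_eq (-π) 0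
  rw [show -π + 2 * π = π by ring, zero_add] at h1
  rw [h1]
  refine Eq.trans ?_ (integral_Pk (norm_ep_lt ht α))
  exact intervalIntegral.integral_congr fun θ _ => Pk_symm t α θ

end Pool.Agent.Helper73.EK

end

section


/-!
E1b: the energy on the strip (change of variables from the disc).
-/

set_option autoImplicit false

open Complex MeasureTheory Metric Set
open scoped Real ComplexConjugate ENNReal

namespace Pool.Agent.Helper86.EK

open Pool.Agent.Helper39.Area Pool.Agent.Helper52.EK Pool.Agent.Helper39.EK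

theorem det_cmul (c : ℂ) : |(c • (1 : ℂ →L[ℝ] ℂ)).det| = ‖c‖ ^ 2 := by
  have h : (c • (1 : ℂ →L[ℝ] ℂ)).det = ‖c‖ ^ 2 := by
    have h1 : (((c • (1 : ℂ →L[ℝ] ℂ)) : ℂ →L[ℝ] ℂ) : ℂ →ₗ[ℝ] ℂ) =
        ((c • (LinearMap.id : ℂ →ₗ[ℂ] ℂ)).restrictScalars ℝ) := by
      ext
      all_goals simp
    rw [ContinuousLinearMap.det, h1, LinearMap.det_restrictScalars]
    simp [Algebra.norm_complex_eq, Complex.normSq_eq_norm_sq]
  rw [h, abs_of_nonneg (by positivity)]

theorem pt_eq (ξ η : ℝ) : pt ξ η = ⟨ξ, η⟩ := by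
  rw [pt, ← Complex.mk_eq_add_mul_I]

/-- the double integral as an integral over a set of the plane -/
theorem II_eq {F : ℂ → ℝ} {x₁ x₂ : ℝ} (hx : x₁ ≤ x₂) (hF : ContinuousOn F (Rect x₁ x₂)) :
    II x₁ x₂ (fun ξ η => F (pt ξ η)) = ∫ z in Ioo x₁ x₂ ×ℂ Ioo 0 π, F z := by
  have hπ := Real.pi_pos
  have hc : ContinuousOn (fun p : ℝ × ℝ => F (pt p.1 p.2)) (Icc x₁ x₂ ×ˢ Icc 0 π) := by
    apply hF.comp (by unfold pt; fun_prop)
    rintro ⟨ξ, η⟩ ⟨h1, h2⟩
    simp only [pt_eq]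
    exact ⟨h1, h2⟩
  have hi : IntegrableOn (fun p : ℝ × ℝ => F (pt p.1 p.2)) (Ioo x₁ x₂ ×ˢ Ioo 0 π)
      ((volume : Measure ℝ).prod (volume : Measure ℝ)) :=
    (hc.integrableOn_compact (isCompact_Icc.prod isCompact_Icc)).mono_set
      (prod_mono Ioo_subset_Icc_self Ioo_subset_Icc_self)
  rw [II, intervalIntegral.integral_of_le hx, integral_Ioc_eq_integral_Ioo]
  have h1 : ∀ ξ : ℝ, (∫ η in (0:ℝ)..π, F (pt ξ η)) = ∫ η in Ioo 0 π, F (pt ξ η) := fun ξ => by
    rw [intervalIntegral.integral_of_le hπ.le, integral_Ioc_eq_integral_Ioo]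
  simp_rw [h1]
  rw [← setIntegral_prod (fun p : ℝ × ℝ => F (pt p.1 p.2)) hi]
  have h2 := (Complex.volume_preserving_equiv_real_prod.symm _).setIntegral_preimage_emb
    Complex.measurableEquivRealProd.symm.measurableEmbedding F (Ioo x₁ x₂ ×ℂ Ioo 0 π)
  rw [← h2, ← Measure.volume_eq_prod]
  congr 1
  ext p
  rw [pt_eq]
  rfl

section
variable {a x₁ x₂ : ℝ} {ω : ℂ}

theorem norm_exp_lt (h2 : x₂ < 0) (hω : ω ∈ Rect x₁ x₂) : ‖Complex.exp ω‖ < 1 := by
  rw [Complex.norm_exp, Real.exp_lt_one_iff]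
  exact lt_of_le_of_lt hω.1.2 h2

theorem tau_pos (ha : 0 < a) (ha1 : a < 1) : 0 < tau a := by
  unfold tau
  have : 0 < 1 - a := by linarith
  positivity

theorem tau_lt_exp (ha : 0 < a) (ha1 : a < 1) (h1 : Real.log (tau a) < x₁)
    (hω : ω ∈ Rect x₁ x₂) : tau a < ‖Complex.exp ω‖ := by
  rw [Complex.norm_exp, ← Real.log_lt_iff_lt_exp (tau_pos ha ha1)]
  exact lt_of_lt_of_le h1 hω.1.1

theorem exp_im_nonneg (hω : ω ∈ Rect x₁ x₂) : 0 ≤ (Complex.exp ω).im := by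
  rw [Complex.exp_im]
  exact mul_nonneg (Real.exp_pos _).le (Real.sin_nonneg_of_nonneg_of_le_pi hω.2.1 hω.2.2)

theorem exp_ne_I (h2 : x₂ < 0) (hω : ω ∈ Rect x₁ x₂) : I - Complex.exp ω ≠ 0 := by
  intro h
  have h3 := norm_exp_lt h2 hω
  rw [← sub_eq_zero.mp h, norm_I] at h3
  exact lt_irrefl _ h3

theorem exp_ne_neg_I (hω : ω ∈ Rect x₁ x₂) : I + Complex.exp ω ≠ 0 := by
  intro h
  have h3 := exp_im_nonneg hω
  have h4 := congrArg Complex.im h
  simp only [Complex.add_im, Complex.I_im, Complex.zero_im] at h4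
  linarith

theorem zf_ne_zero (h2 : x₂ < 0) (hω : ω ∈ Rect x₁ x₂) : zf ω ≠ 0 :=
  div_ne_zero (exp_ne_I h2 hω) (exp_ne_neg_I hω)

theorem norm_zf_le (hω : ω ∈ Rect x₁ x₂) : ‖zf ω‖ ≤ 1 := by
  have h1 := exp_im_nonneg hω
  rw [zf, norm_div, div_le_one (norm_pos_iff.mpr (exp_ne_neg_I hω))]
  rw [← Real.sqrt_sq (norm_nonneg (I - Complex.exp ω)),
    ← Real.sqrt_sq (norm_nonneg (I + Complex.exp ω))]
  apply Real.sqrt_le_sqrt
  rw [← Complex.normSq_eq_norm_sq, ← Complex.normSq_eq_norm_sq, Complex.normSq_apply,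
    Complex.normSq_apply]
  simp only [Complex.sub_re, Complex.add_re, Complex.sub_im, Complex.add_im, Complex.I_re,
    Complex.I_im]
  nlinarith

theorem norm_zf_lt (h : 0 < (Complex.exp ω).im) : ‖zf ω‖ < 1 := by
  have h0 : I + Complex.exp ω ≠ 0 := by
    intro h3
    have h4 := congrArg Complex.im h3
    simp only [Complex.add_im, Complex.I_im, Complex.zero_im] at h4
    linarith
  rw [zf, norm_div, div_lt_one (norm_pos_iff.mpr h0)]
  rw [← Real.sqrt_sq (norm_nonneg (I - Complex.exp ω)),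
    ← Real.sqrt_sq (norm_nonneg (I + Complex.exp ω))]
  apply Real.sqrt_lt_sqrt (by positivity)
  rw [← Complex.normSq_eq_norm_sq, ← Complex.normSq_eq_norm_sq, Complex.normSq_apply,
    Complex.normSq_apply]
  simp only [Complex.sub_re, Complex.add_re, Complex.sub_im, Complex.add_im, Complex.I_re,
    Complex.I_im]
  nlinarith

theorem sq_add_tau_ne (ha : 0 < a) (ha1 : a < 1) (h1 : Real.log (tau a) < x₁)
    (hω : ω ∈ Rect x₁ x₂) : Complex.exp ω ^ 2 + (tau a : ℂ) ^ 2 ≠ 0 := by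
  intro h
  have h3 := tau_lt_exp ha ha1 h1 hω
  have h4 := tau_pos ha ha1
  have h5 : ‖Complex.exp ω‖ ^ 2 = tau a ^ 2 := by
    rw [← norm_pow, eq_neg_of_add_eq_zero_left h, norm_neg, norm_pow, Complex.norm_real,
      Real.norm_of_nonneg h4.le]
  nlinarith

theorem sq_add_one_ne (h2 : x₂ < 0) (hω : ω ∈ Rect x₁ x₂) : Complex.exp ω ^ 2 + 1 ≠ 0 := by
  intro h
  have h3 := norm_exp_lt h2 hω
  have h5 : ‖Complex.exp ω‖ ^ 2 = 1 := by
    rw [← norm_pow, eq_neg_of_add_eq_zero_left h, norm_neg, norm_one]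
  nlinarith [norm_nonneg (Complex.exp ω)]

theorem zf_ne_a (ha : 0 < a) (ha1 : a < 1) (h1 : Real.log (tau a) < x₁)
    (hω : ω ∈ Rect x₁ x₂) : zf ω ≠ a := by
  intro h
  apply sq_add_tau_ne ha ha1 h1 hω
  have h0 := exp_ne_neg_I hω
  rw [zf, div_eq_iff h0] at h
  have ha2 : (1 + (a:ℂ)) ≠ 0 := by
    have : ((1 + a : ℝ) : ℂ) ≠ 0 := by exact_mod_cast (by positivity)
    simpa using this
  have h3 : Complex.exp ω = I * (tau a : ℂ) := by
    rw [tau]
    push_cast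
    field_simp
    linear_combination -h
  rw [h3, mul_pow, I_sq]
  ring

theorem hasDerivAt_zf (hω : I + Complex.exp ω ≠ 0) : HasDerivAt zf (zd ω) ω := by
  have h1 : HasDerivAt (fun w : ℂ => I - Complex.exp w) (-Complex.exp ω) ω :=
    (Complex.hasDerivAt_exp ω).const_sub I
  have h2 : HasDerivAt (fun w : ℂ => I + Complex.exp w) (Complex.exp ω) ω :=
    (Complex.hasDerivAt_exp ω).const_add I
  have h3 := h1.div h2 hω
  have h4 : zd ω = (-Complex.exp ω * (I + Complex.exp ω) - (I - Complex.exp ω) * Complex.exp ω) /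
      (I + Complex.exp ω) ^ 2 := by
    rw [zd, add_comm (Complex.exp ω) I]
    congr 1
    ring
  rw [h4]
  exact h3

/-- the chain rule identity -/
theorem zd_Dd {β : ℂ → ℂ} (ha : 0 < a) (ha1 : a < 1) (h1 : Real.log (tau a) < x₁)
    (h2 : x₂ < 0) (hω : ω ∈ Rect x₁ x₂) :
    zd ω * Dd β a (zf ω) = 2 * Xf β a ω - 2 * kap a ω := by
  have hX : 2 * Xf β a ω = zd ω * (dphi β (zf ω) / (phi β (zf ω) - phi β (a:ℂ))) := by
    rw [Xf]
    by_cases h : phi β (zf ω) - phi β (a:ℂ) = 0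
    · rw [h]; simp
    · field_simp
  have hk : zd ω * (-(zf ω)⁻¹ + (zf ω - a)⁻¹ - a / (1 - a * zf ω)) = 2 * kap a ω := by
    have e1 := exp_ne_I h2 hω
    have e2 := exp_ne_neg_I hω
    have e3 := sq_add_tau_ne ha ha1 h1 hω
    have e4 := sq_add_one_ne h2 hω
    have e5 : (1 + (a:ℂ)) ≠ 0 := by
      have : ((1 + a : ℝ) : ℂ) ≠ 0 := by exact_mod_cast (by positivity)
      simpa using this
    set E := Complex.exp ω with hE
    have ht : (tau a : ℂ) = (1 - a) / (1 + a) := by rw [tau]; push_cast; ring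
    set t : ℂ := (tau a : ℂ) with htt
    have e6 : E ^ 2 + t ^ 2 = (E - I * t) * (E + I * t) := by
      linear_combination (t ^ 2) * I_sq
    have e7 : E - I * t ≠ 0 := fun h => e3 (by rw [e6, h, zero_mul])
    have e8 : E + I * t ≠ 0 := fun h => e3 (by rw [e6, h, mul_zero])
    have f1 : zf ω - a = (1 + a) * (I * t - E) / (I + E) := by
      rw [zf, ← hE, ht]
      field_simp
      ring
    have f2 : 1 - a * zf ω = (1 + a) * (I * t + E) / (I + E) := by
      rw [zf, ← hE, ht]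
      field_simp
      ring
    have e7' : I * t - E ≠ 0 := fun h => e7 (by linear_combination -h)
    have e8' : I * t + E ≠ 0 := fun h => e8 (by linear_combination h)
    rw [f1, f2, zd, kap, zf, ← hE, e6]
    have e9 : E ^ 2 + 1 = -(I - E) * (I + E) := by linear_combination I_sq
    rw [e9]
    have e10 : E + I = I + E := add_comm _ _
    rw [e10]
    have e11 : (1 + a : ℂ) * t = 1 - a := by rw [ht]; field_simp
    have e12 : (1 + t) ≠ 0 := by
      intro h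
      have : (1 + a : ℂ) * (1 + t) = 2 := by linear_combination e11
      rw [h, mul_zero] at this
      norm_num at this
    have e13 : (a:ℂ) = (1 - t) / (1 + t) := by
      rw [eq_div_iff e12]
      linear_combination e11
    have e14 : (1 + a : ℂ) = 2 / (1 + t) := by
      rw [e13]
      field_simp
      ring
    rw [e14, e13]
    field_simp
    ring_nf
    simp only [I_sq, I_pow_four]
    ring
  rw [Dd, mul_sub, hX, hk]

end

theorem lint_ball {β : ℂ → ℂ} (h : Ext β) {a : ℝ} (ha : 0 < a) (ha1 : a < 1) :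
    ∫⁻ z in ball (0:ℂ) 1, ENNReal.ofReal (‖Dd β a z‖ ^ 2) ≤
      ENNReal.ofReal (2 * π * Real.log (‖N β a‖ / (1 - a ^ 2))) := by
  set r : ℕ → ℝ := fun n => 1 - (1 - a) / (n + 2) with hrdef
  have h1a : 0 < 1 - a := by linarith
  have hr : ∀ n, a < r n ∧ r n < 1 := by
    intro n
    have hn : (0:ℝ) ≤ n := Nat.cast_nonneg n
    constructor
    · have : (1 - a) / ((n:ℝ) + 2) < 1 - a := by
        rw [div_lt_iff₀ (by positivity)]
        nlinarith
      simp only [hrdef]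
      linarith
    · have : 0 < (1 - a) / ((n:ℝ) + 2) := by positivity
      simp only [hrdef]
      linarith
  have hmono : Monotone r := by
    intro m n hmn
    have hmn' : (m:ℝ) ≤ n := by exact_mod_cast hmn
    have hm : (0:ℝ) ≤ m := Nat.cast_nonneg m
    simp only [hrdef]
    have : (1 - a) / ((n:ℝ) + 2) ≤ (1 - a) / ((m:ℝ) + 2) := by gcongr
    linarith
  have hU : ball (0:ℂ) 1 = ⋃ n, ball 0 (r n) := by
    ext z
    rw [mem_iUnion]
    constructor
    · intro hz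
      rw [mem_ball, dist_zero_right] at hz
      obtain ⟨n, hn⟩ := exists_nat_gt ((1 - a) / (1 - ‖z‖))
      have hz1 : 0 < 1 - ‖z‖ := by linarith
      refine ⟨n, ?_⟩
      rw [mem_ball, dist_zero_right]
      rw [div_lt_iff₀ hz1] at hn
      have hn0 : (0:ℝ) ≤ n := Nat.cast_nonneg n
      have : (1 - a) / ((n:ℝ) + 2) < 1 - ‖z‖ := by
        rw [div_lt_iff₀ (by positivity)]
        nlinarith
      simp only [hrdef]
      linarith
    · rintro ⟨n, hn⟩
      exact ball_subset_ball (hr n).2.le hn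
  rw [hU, setLIntegral_iUnion_of_directed _
    (Monotone.directed_le (fun m n hmn => ball_subset_ball (hmono hmn)))]
  refine iSup_le fun n => ?_
  obtain ⟨hi, hle⟩ := E1a h ha (hr n).1 (hr n).2
  rw [← ofReal_integral_eq_lintegral_ofReal hi (Filter.Eventually.of_forall fun _ => by positivity)]
  exact ENNReal.ofReal_le_ofReal hle

/-- continuity of the integrand on the closed rectangle -/
theorem cont_F {β : ℂ → ℂ} {R : ℝ} (h : ExtR β R) {a : ℝ} (ha : 0 < a) (ha1 : a < 1) {x₁ x₂ : ℝ}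
    (h1 : Real.log (tau a) < x₁) (h2 : x₂ < 0) :
    ContinuousOn (fun ω => ‖2 * Xf β a ω - 2 * kap a ω‖ ^ 2) (Rect x₁ x₂) := by
  have hR := h.one_lt
  have hzc : ContinuousOn zf (Rect x₁ x₂) := fun ω hω =>
    (hasDerivAt_zf (exp_ne_neg_I hω)).continuousAt.continuousWithinAt
  have hmaps : MapsTo zf (Rect x₁ x₂) (ball 0 R) := by
    intro ω hω
    rw [mem_ball, dist_zero_right]
    exact lt_of_le_of_lt (norm_zf_le hω) hR
  have hβ : ContinuousOn (fun ω => β (zf ω)) (Rect x₁ x₂) := h.diff.continuousOn.comp hzc hmaps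
  have hdβ : ContinuousOn (fun ω => deriv β (zf ω)) (Rect x₁ x₂) :=
    (h.diff.deriv isOpen_ball).continuousOn.comp hzc hmaps
  have hX : ContinuousOn (Xf β a) (Rect x₁ x₂) := by
    have c1 : ContinuousOn zd (Rect x₁ x₂) := by
      apply ContinuousOn.div (by fun_prop) (by fun_prop)
      intro ω hω
      apply pow_ne_zero
      rw [add_comm]
      exact exp_ne_neg_I hω
    have c2 : ContinuousOn (fun ω => dphi β (zf ω)) (Rect x₁ x₂) := by
      apply ContinuousOn.add _ hdβ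
      apply ContinuousOn.neg
      apply ContinuousOn.inv₀ (hzc.pow 2)
      intro ω hω
      exact pow_ne_zero _ (zf_ne_zero h2 hω)
    have c3 : ContinuousOn (fun ω => phi β (zf ω) - phi β (a:ℂ)) (Rect x₁ x₂) := by
      apply ContinuousOn.sub _ continuousOn_const
      apply ContinuousOn.add _ hβ
      exact hzc.inv₀ (fun ω hω => zf_ne_zero h2 hω)
    apply (c1.mul c2).div (continuousOn_const.mul c3)
    intro ω hω h3
    have h4 : phi β (zf ω) - phi β (a:ℂ) = 0 := by simpa using h3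
    have haR : ((a:ℝ):ℂ) ∈ ball (0:ℂ) R := by
      rw [mem_ball, dist_zero_right, Complex.norm_real, Real.norm_of_nonneg ha.le]
      linarith
    exact zf_ne_a ha ha1 h1 hω (h.inj _ _ (hmaps hω) haR (zf_ne_zero h2 hω)
      (by exact_mod_cast ha.ne') (sub_eq_zero.mp h4))
  have hk : ContinuousOn (kap a) (Rect x₁ x₂) := by
    apply ContinuousOn.div (by fun_prop) (by fun_prop)
    intro ω hω
    exact mul_ne_zero (sq_add_tau_ne ha ha1 h1 hω) (sq_add_one_ne h2 hω)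
  exact (((continuousOn_const.mul hX).sub (continuousOn_const.mul hk)).norm).pow 2

/-- E1b: energy on the strip -/
theorem E1b {β : ℂ → ℂ} {R : ℝ} (h : ExtR β R) {a : ℝ} (ha : 0 < a) (ha1 : a < 1) {x₁ x₂ : ℝ}
    (h1 : Real.log (tau a) < x₁) (h12 : x₁ ≤ x₂) (h2 : x₂ < 0) :
    II x₁ x₂ (fun ξ η => ‖2 * Xf β a (pt ξ η) - 2 * kap a (pt ξ η)‖ ^ 2) ≤
      2 * π * Real.log (‖N β a‖ / (1 - a ^ 2)) := by
  have hF := cont_F h ha ha1 h1 h2
  have hE := h.toExt
  have hB : 0 ≤ 2 * π * Real.log (‖N β a‖ / (1 - a ^ 2)) := by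
    have haa : a < (a + 1) / 2 := by linarith
    have haa1 : (a + 1) / 2 < 1 := by linarith
    exact (integral_nonneg fun z => by positivity).trans (E1a hE ha haa haa1).2
  rw [II_eq h12 hF]
  have hSR : Ioo x₁ x₂ ×ℂ Ioo 0 π ⊆ Rect x₁ x₂ := fun ω hω =>
    ⟨Ioo_subset_Icc_self hω.1, Ioo_subset_Icc_self hω.2⟩
  have hSm : MeasurableSet (Ioo x₁ x₂ ×ℂ Ioo 0 π) :=
    (isOpen_Ioo.reProdIm isOpen_Ioo).measurableSet
  rw [integral_eq_lintegral_of_nonneg_ae (Filter.Eventually.of_forall fun _ => by positivity)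
    ((hF.mono hSR).aestronglyMeasurable hSm)]
  apply ENNReal.toReal_le_of_le_ofReal hB
  have hd : ∀ ω ∈ Ioo x₁ x₂ ×ℂ Ioo 0 π, HasFDerivWithinAt zf (zd ω • (1 : ℂ →L[ℝ] ℂ))
      (Ioo x₁ x₂ ×ℂ Ioo 0 π) ω := fun ω hω =>
    (hasDerivAt_zf (exp_ne_neg_I (hSR hω))).complexToReal_fderiv.hasFDerivWithinAt
  have hinj : InjOn zf (Ioo x₁ x₂ ×ℂ Ioo 0 π) := by
    intro ω hω ω' hω' he
    have e1 := exp_ne_neg_I (hSR hω)
    have e2 := exp_ne_neg_I (hSR hω')
    rw [zf, zf, div_eq_div_iff e1 e2] at he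
    have e3 : Complex.exp ω = Complex.exp ω' := by
      have : 2 * I * (Complex.exp ω - Complex.exp ω') = 0 := by linear_combination -he
      have h4 : (2:ℂ) * I ≠ 0 := by simp
      exact sub_eq_zero.mp ((mul_eq_zero.mp this).resolve_left h4)
    obtain ⟨n, hn⟩ := Complex.exp_eq_exp_iff_exists_int.mp e3
    have h5 := congrArg Complex.im hn
    simp only [Complex.add_im, Complex.mul_im, Complex.intCast_re, Complex.intCast_im,
      Complex.mul_re, Complex.re_ofNat, Complex.im_ofNat, Complex.ofReal_re, Complex.ofReal_im,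
      Complex.I_re, Complex.I_im, mul_zero, mul_one, sub_zero, zero_mul, add_zero] at h5
    have hπ := Real.pi_pos
    have h6 := hω.2
    have h7 := hω'.2
    have h6a : 0 < ω.im := h6.1
    have h6b : ω.im < π := h6.2
    have h7a : 0 < ω'.im := h7.1
    have h7b : ω'.im < π := h7.2
    have h8 : n = 0 := by
      have h9 : (n:ℝ) < 1 := by
        by_contra h10
        push Not at h10
        nlinarith
      have h11 : (-1:ℝ) < n := by
        by_contra h10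
        push Not at h10
        nlinarith
      have h9' : n < 1 := by exact_mod_cast h9
      have h11' : -1 < n := by exact_mod_cast h11
      omega
    rw [hn, h8]
    simp
  have himg : zf '' (Ioo x₁ x₂ ×ℂ Ioo 0 π) ⊆ ball 0 1 := by
    rintro _ ⟨ω, hω, rfl⟩
    rw [mem_ball, dist_zero_right]
    apply norm_zf_lt
    rw [Complex.exp_im]
    exact mul_pos (Real.exp_pos _) (Real.sin_pos_of_pos_of_lt_pi hω.2.1 hω.2.2)
  calc ∫⁻ ω in Ioo x₁ x₂ ×ℂ Ioo 0 π, ENNReal.ofReal (‖2 * Xf β a ω - 2 * kap a ω‖ ^ 2)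
      = ∫⁻ ω in Ioo x₁ x₂ ×ℂ Ioo 0 π, ENNReal.ofReal |(zd ω • (1 : ℂ →L[ℝ] ℂ)).det| *
          ENNReal.ofReal (‖Dd β a (zf ω)‖ ^ 2) := by
        apply setLIntegral_congr_fun hSm
        intro ω hω
        simp only
        rw [det_cmul, ← ENNReal.ofReal_mul (by positivity), ← mul_pow, ← norm_mul,
          zd_Dd ha ha1 h1 h2 (hSR hω)]
    _ = ∫⁻ z in zf '' (Ioo x₁ x₂ ×ℂ Ioo 0 π), ENNReal.ofReal (‖Dd β a z‖ ^ 2) :=
        (lintegral_image_eq_lintegral_abs_det_fderiv_mul volume hSm hd hinj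
          (fun z => ENNReal.ofReal (‖Dd β a z‖ ^ 2))).symm
    _ ≤ ∫⁻ z in ball (0:ℂ) 1, ENNReal.ofReal (‖Dd β a z‖ ^ 2) := lintegral_mono_set himg
    _ ≤ _ := lint_ball hE ha ha1

end Pool.Agent.Helper86.EK

end

section

set_option autoImplicit false
open Complex MeasureTheory Metric Set
open scoped Real ComplexConjugate

/-! Project EK, module E1c: the function `X` is analytic without zeros near a closed rectangle of
the strip `log τ < ξ < 0`. -/

namespace Pool.Agent.Helper67.EK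

open Pool.Agent.Helper39.Area Pool.Agent.Helper52.EK

/-- the point `Z = exp ω`: `Im Z ≥ 0` and `‖Z‖ = exp (re ω)` on the closed strip -/
theorem exp_im_nonneg {ω : ℂ} (h0 : 0 ≤ ω.im) (h1 : ω.im ≤ π) : 0 ≤ (Complex.exp ω).im := by
  rw [Complex.exp_im]
  exact mul_nonneg (Real.exp_pos _).le (Real.sin_nonneg_of_nonneg_of_le_pi h0 h1)

theorem norm_exp_lt_one {ω : ℂ} (h : ω.re < 0) : ‖Complex.exp ω‖ < 1 := by
  rw [Complex.norm_exp]
  exact Real.exp_lt_one_iff.mpr h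

theorem I_add_ne {Z : ℂ} (h : ‖Z‖ < 1) : I + Z ≠ 0 := by
  intro h'
  have h1 : Z = -I := by linear_combination h'
  rw [h1, norm_neg, Complex.norm_I] at h
  exact lt_irrefl _ h

theorem I_sub_ne {Z : ℂ} (h : ‖Z‖ < 1) : I - Z ≠ 0 := by
  intro h'
  have h1 : Z = I := by linear_combination -h'
  rw [h1, Complex.norm_I] at h
  exact lt_irrefl _ h

theorem norm_sub_le_add {Z : ℂ} (h : 0 ≤ Z.im) : ‖I - Z‖ ≤ ‖I + Z‖ := by
  have h1 : ‖I - Z‖ ^ 2 ≤ ‖I + Z‖ ^ 2 := by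
    rw [← Complex.normSq_eq_norm_sq, ← Complex.normSq_eq_norm_sq, Complex.normSq_apply,
      Complex.normSq_apply]
    simp only [Complex.sub_re, Complex.sub_im, Complex.add_re, Complex.add_im, Complex.I_re,
      Complex.I_im]
    nlinarith
  exact (sq_le_sq₀ (norm_nonneg _) (norm_nonneg _)).mp h1

/-- `‖zf ω‖ ≤ 1` on the closed left half strip -/
theorem norm_zf_le {ω : ℂ} (h : ω.re < 0) (h0 : 0 ≤ ω.im) (h1 : ω.im ≤ π) : ‖zf ω‖ ≤ 1 := by
  unfold zf
  rw [norm_div]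
  have h2 := I_add_ne (norm_exp_lt_one h)
  rw [div_le_one (norm_pos_iff.mpr h2)]
  exact norm_sub_le_add (exp_im_nonneg h0 h1)

theorem zf_ne_zero {ω : ℂ} (h : ω.re < 0) : zf ω ≠ 0 := by
  unfold zf
  exact div_ne_zero (I_sub_ne (norm_exp_lt_one h)) (I_add_ne (norm_exp_lt_one h))

/-- `zf ω = a` only at `ω` with real part `log τ` -/
theorem zf_ne_a {ω : ℂ} {a : ℝ} (ha : 0 < a) (ha1 : a < 1) (h : ω.re < 0)
    (h1 : Real.log (tau a) < ω.re) : zf ω ≠ (a : ℂ) := by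
  intro h'
  have h2 := I_add_ne (norm_exp_lt_one h)
  unfold zf at h'
  rw [div_eq_iff h2] at h'
  have h3 : (1 + (a : ℂ)) * Complex.exp ω = (1 - (a : ℂ)) * I := by linear_combination -h'
  have h4 : ‖(1 + (a : ℂ)) * Complex.exp ω‖ = ‖(1 - (a : ℂ)) * I‖ := by rw [h3]
  have h5 : ‖(1 + (a : ℂ))‖ = 1 + a := by
    rw [show (1 + (a : ℂ)) = ((1 + a : ℝ) : ℂ) by push_cast; ring, Complex.norm_real,
      Real.norm_of_nonneg (by linarith)]
  have h6 : ‖(1 - (a : ℂ))‖ = 1 - a := by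
    rw [show (1 - (a : ℂ)) = ((1 - a : ℝ) : ℂ) by push_cast; ring, Complex.norm_real,
      Real.norm_of_nonneg (by linarith)]
  rw [norm_mul, norm_mul, h5, h6, Complex.norm_I, mul_one, Complex.norm_exp] at h4
  have h7 : tau a = Real.exp ω.re := by
    unfold tau
    rw [div_eq_iff (by linarith)]
    linarith
  rw [h7, Real.log_exp] at h1
  exact lt_irrefl _ h1

theorem zd_ne_zero {ω : ℂ} (h : ω.re < 0) : zd ω ≠ 0 := by
  unfold zd
  have h2 := I_add_ne (norm_exp_lt_one h)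
  have h3 : Complex.exp ω + I ≠ 0 := by rw [add_comm]; exact h2
  refine div_ne_zero (mul_ne_zero (mul_ne_zero (by norm_num) I_ne_zero) (Complex.exp_ne_zero _)) ?_
  exact pow_ne_zero 2 h3

theorem dphi_ne_zero {β : ℂ → ℂ} {R : ℝ} (h : ExtR β R) {z : ℂ} (hz : z ∈ ball (0:ℂ) R)
    (h0 : z ≠ 0) : dphi β z ≠ 0 := by
  intro h'
  apply h.ne z hz
  unfold dphi at h'
  have h1 : z ^ 2 ≠ 0 := pow_ne_zero 2 h0
  have h2 : deriv β z = (z ^ 2)⁻¹ := by linear_combination h'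
  rw [h2, mul_inv_cancel₀ h1, sub_self]

theorem phi_sub_ne {β : ℂ → ℂ} {R : ℝ} (h : ExtR β R) {z a : ℂ} (hz : z ∈ ball (0:ℂ) R)
    (ha : a ∈ ball (0:ℂ) R) (h0 : z ≠ 0) (ha0 : a ≠ 0) (hza : z ≠ a) :
    phi β z - phi β a ≠ 0 := by
  intro h'
  exact hza (h.inj z a hz ha h0 ha0 (sub_eq_zero.mp h'))

theorem beta_an {β : ℂ → ℂ} {R : ℝ} (h : ExtR β R) {z : ℂ} (hz : z ∈ ball (0:ℂ) R) :
    AnalyticAt ℂ β z :=
  h.diff.analyticAt (isOpen_ball.mem_nhds hz)

theorem phi_an {β : ℂ → ℂ} {R : ℝ} (h : ExtR β R) {z : ℂ} (hz : z ∈ ball (0:ℂ) R)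
    (h0 : z ≠ 0) : AnalyticAt ℂ (phi β) z :=
  (analyticAt_id.inv h0).add (beta_an h hz)

theorem dphi_an {β : ℂ → ℂ} {R : ℝ} (h : ExtR β R) {z : ℂ} (hz : z ∈ ball (0:ℂ) R)
    (h0 : z ≠ 0) : AnalyticAt ℂ (dphi β) z :=
  (((analyticAt_id.pow 2).inv (pow_ne_zero 2 h0)).neg).add (beta_an h hz).deriv

theorem zf_an {ω : ℂ} (h : ω.re < 0) : AnalyticAt ℂ zf ω := by
  unfold zf
  exact (analyticAt_const.sub analyticAt_cexp).div (analyticAt_const.add analyticAt_cexp)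
    (I_add_ne (norm_exp_lt_one h))

theorem zd_an {ω : ℂ} (h : ω.re < 0) : AnalyticAt ℂ zd ω := by
  unfold zd
  refine ((analyticAt_const.mul analyticAt_cexp)).div
    ((analyticAt_cexp.add analyticAt_const).pow 2) ?_
  have h2 := I_add_ne (norm_exp_lt_one h)
  refine pow_ne_zero 2 ?_
  rw [add_comm]
  exact h2

/-- E1c -/
theorem E1c {β : ℂ → ℂ} {R : ℝ} (h : ExtR β R) {a : ℝ} (ha : 0 < a) (ha1 : a < 1) {x₁ x₂ : ℝ}
    (h1 : Real.log (tau a) < x₁) (h2 : x₂ < 0) : NiceX (Xf β a) x₁ x₂ := by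
  have key : ∀ ω ∈ Rect x₁ x₂, ω.re < 0 ∧ zf ω ∈ ball (0:ℂ) R ∧ zf ω ≠ 0 ∧
      phi β (zf ω) - phi β (a : ℂ) ≠ 0 := by
    intro ω hω
    obtain ⟨⟨hr1, hr2⟩, hi1, hi2⟩ := hω
    have hre : ω.re < 0 := lt_of_le_of_lt hr2 h2
    have hz : zf ω ∈ ball (0:ℂ) R := by
      rw [mem_ball_zero_iff]
      exact lt_of_le_of_lt (norm_zf_le hre hi1 hi2) h.one_lt
    have haR : (a : ℂ) ∈ ball (0:ℂ) R := by
      rw [mem_ball_zero_iff, Complex.norm_real, Real.norm_of_nonneg ha.le]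
      exact ha1.trans h.one_lt
    refine ⟨hre, hz, zf_ne_zero hre, ?_⟩
    exact phi_sub_ne h hz haR (zf_ne_zero hre) (by exact_mod_cast ha.ne')
      (zf_ne_a ha ha1 hre (lt_of_lt_of_le h1 hr1))
  constructor
  · intro ω hω
    obtain ⟨hre, hz, hz0, hne⟩ := key ω hω
    unfold Xf
    have hzf := zf_an hre
    have hd : AnalyticAt ℂ (fun w => dphi β (zf w)) ω := (dphi_an h hz hz0).comp hzf
    have hp : AnalyticAt ℂ (fun w => phi β (zf w)) ω := (phi_an h hz hz0).comp hzf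
    refine ((zd_an hre).mul hd).div (analyticAt_const.mul (hp.sub analyticAt_const)) ?_
    exact mul_ne_zero two_ne_zero hne
  · intro ω hω
    obtain ⟨hre, hz, hz0, hne⟩ := key ω hω
    unfold Xf
    exact div_ne_zero (mul_ne_zero (zd_ne_zero hre) (dphi_ne_zero h hz hz0))
      (mul_ne_zero two_ne_zero hne)

end Pool.Agent.Helper67.EK

end

section

set_option autoImplicit false
open Complex MeasureTheory Metric Set
open scoped Real ComplexConjugate

/-!
# Project EK, module E4a: the null Lagrangian `U` on a rectangle of the strip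

With a cut-off `χ` in the first variable and a weight `a` in the second one, both vanishing to the
second order at the ends of their intervals, `∫∫ χ (a Δu - a'' u) = ∫∫ χ'' a u` for `u = U ∘ X`.
The proof applies the divergence theorem for rectangles to the field
`(a (χ u_ξ - χ' u), χ (a u_η - a' u))`.
-/

namespace Pool.Agent.Helper78.EK

open Pool.Agent.Helper52.EK

/-- the derivative of `p ↦ X (pt p.1 p.2)` at a point where the complex derivative of `X` is `d` -/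
noncomputable def Lc (d : ℂ) : ℝ × ℝ →L[ℝ] ℂ :=
  d • (ofRealCLM.comp (ContinuousLinearMap.fst ℝ ℝ ℝ) +
    I • ofRealCLM.comp (ContinuousLinearMap.snd ℝ ℝ ℝ))

theorem Lc_10 (d : ℂ) : Lc d (1, 0) = d := by simp [Lc]

theorem Lc_01 (d : ℂ) : Lc d (0, 1) = d * I := by simp [Lc]

theorem hasFDerivAt_pt (p : ℝ × ℝ) :
    HasFDerivAt (fun q : ℝ × ℝ => pt q.1 q.2) (Lc 1) p := by
  have h1 : HasFDerivAt (fun q : ℝ × ℝ => (q.1 : ℂ))
      (ofRealCLM.comp (ContinuousLinearMap.fst ℝ ℝ ℝ)) p :=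
    (ofRealCLM.comp (ContinuousLinearMap.fst ℝ ℝ ℝ)).hasFDerivAt
  have h2 : HasFDerivAt (fun q : ℝ × ℝ => (q.2 : ℂ))
      (ofRealCLM.comp (ContinuousLinearMap.snd ℝ ℝ ℝ)) p :=
    (ofRealCLM.comp (ContinuousLinearMap.snd ℝ ℝ ℝ)).hasFDerivAt
  have h3 := h1.add (h2.mul_const I)
  refine h3.congr_fderiv ?_
  ext <;> simp [Lc]

theorem hasFDerivAt_X {X : ℂ → ℂ} {p : ℝ × ℝ} (hX : DifferentiableAt ℂ X (pt p.1 p.2)) :
    HasFDerivAt (fun q : ℝ × ℝ => X (pt q.1 q.2)) (Lc (deriv X (pt p.1 p.2))) p := by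
  have h1 : HasFDerivAt X ((ContinuousLinearMap.toSpanSingleton ℂ
      (deriv X (pt p.1 p.2))).restrictScalars ℝ) (pt p.1 p.2) :=
    (hX.hasDerivAt.hasFDerivAt).restrictScalars ℝ
  have h2 := HasFDerivAt.comp (g := X) p h1 (hasFDerivAt_pt p)
  refine h2.congr_fderiv ?_
  ext <;> simp [Lc, mul_comm]

theorem continuous_pt : Continuous (fun p : ℝ × ℝ => pt p.1 p.2) := by
  unfold pt
  fun_prop

theorem continuousOn_pt {X : ℂ → ℂ} {x₁ x₂ : ℝ} (hX : ContinuousOn X (Rect x₁ x₂)) :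
    ContinuousOn (fun p : ℝ × ℝ => X (pt p.1 p.2)) (Icc x₁ x₂ ×ˢ Icc 0 π) := by
  refine hX.comp continuous_pt.continuousOn ?_
  rintro ⟨x, y⟩ ⟨hx, hy⟩
  simp only [Rect, mem_reProdIm, pt]
  constructor
  · simpa using hx
  · simpa using hy

theorem C1f.cont {W Wx Wy : ℂ → ℝ} (h : C1f W Wx Wy) : Continuous W :=
  continuous_iff_continuousAt.2 fun X => (h.hd X).continuousAt

/-- linearity of the iterated integral on functions continuous on the closed rectangle -/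
theorem II_sub {x₁ x₂ : ℝ} (hx : x₁ ≤ x₂) {F G : ℝ → ℝ → ℝ}
    (hF : ContinuousOn (fun p : ℝ × ℝ => F p.1 p.2) (Icc x₁ x₂ ×ˢ Icc 0 π))
    (hG : ContinuousOn (fun p : ℝ × ℝ => G p.1 p.2) (Icc x₁ x₂ ×ˢ Icc 0 π)) :
    II x₁ x₂ (fun ξ η => F ξ η - G ξ η) = II x₁ x₂ F - II x₁ x₂ G := by
  have key : ∀ {H : ℝ → ℝ → ℝ},
      ContinuousOn (fun p : ℝ × ℝ => H p.1 p.2) (Icc x₁ x₂ ×ˢ Icc 0 π) →
      (∀ x ∈ Icc x₁ x₂, IntervalIntegrable (H x) volume 0 π) ∧
      IntervalIntegrable (fun x => ∫ y in (0:ℝ)..π, H x y) volume x₁ x₂ := by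
    intro H hH
    constructor
    · intro x hx'
      have h1 : ContinuousOn (fun y => H x y) (Icc 0 π) := by
        refine hH.comp (f := fun y : ℝ => (x, y)) (by fun_prop) ?_
        intro y hy
        exact ⟨hx', hy⟩
      exact h1.intervalIntegrable_of_Icc Real.pi_pos.le
    · have h1 : IntegrableOn (fun p : ℝ × ℝ => H p.1 p.2) (Icc x₁ x₂ ×ˢ Icc 0 π) :=
        hH.integrableOn_compact (isCompact_Icc.prod isCompact_Icc)
      have h2 : IntegrableOn (fun p : ℝ × ℝ => H p.1 p.2) (Ioc x₁ x₂ ×ˢ Ioc 0 π) :=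
        h1.mono_set (prod_mono Ioc_subset_Icc_self Ioc_subset_Icc_self)
      rw [IntegrableOn, Measure.volume_eq_prod, ← Measure.prod_restrict] at h2
      have h3 := h2.integral_prod_left
      rw [intervalIntegrable_iff_integrableOn_Ioc_of_le hx, IntegrableOn]
      simpa only [intervalIntegral.integral_of_le Real.pi_pos.le] using h3
  obtain ⟨hF1, hF2⟩ := key hF
  obtain ⟨hG1, hG2⟩ := key hG
  unfold II
  rw [← intervalIntegral.integral_sub hF2 hG2]
  refine intervalIntegral.integral_congr ?_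
  intro x hx'
  rw [uIcc_of_le hx] at hx'
  exact intervalIntegral.integral_sub (hF1 x hx') (hG1 x hx')

/-- the divergence theorem on the rectangle for a field whose normal component vanishes on the
boundary -/
theorem div_zero {x₁ x₂ : ℝ} (hx : x₁ ≤ x₂) {Rp : Set ℂ}
    (hmem : ∀ p ∈ Ioo x₁ x₂ ×ˢ Ioo 0 π, pt p.1 p.2 ∈ Rp) {F G D : ℝ × ℝ → ℝ}
    (cF : ContinuousOn F (Icc x₁ x₂ ×ˢ Icc 0 π)) (cG : ContinuousOn G (Icc x₁ x₂ ×ˢ Icc 0 π))
    (cD : ContinuousOn D (Icc x₁ x₂ ×ˢ Icc 0 π)) {F' G' : ℝ × ℝ → ℝ × ℝ →L[ℝ] ℝ}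
    (dF : ∀ p : ℝ × ℝ, pt p.1 p.2 ∈ Rp → HasFDerivAt F (F' p) p)
    (dG : ∀ p : ℝ × ℝ, pt p.1 p.2 ∈ Rp → HasFDerivAt G (G' p) p)
    (hD : ∀ p : ℝ × ℝ, F' p (1, 0) + G' p (0, 1) = D p)
    (b1 : ∀ x, G (x, π) = 0) (b2 : ∀ x, G (x, 0) = 0) (b3 : ∀ y, F (x₂, y) = 0)
    (b4 : ∀ y, F (x₁, y) = 0) : ∫ x in x₁..x₂, ∫ y in (0:ℝ)..π, D (x, y) = 0 := by
  have hDf : (fun p => F' p (1, 0) + G' p (0, 1)) = D := funext hD
  have main := integral2_divergence_prod_of_hasFDerivAt_off_countable F G F' G' x₁ 0 x₂ π ∅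
    countable_empty
    (by rw [uIcc_of_le hx, uIcc_of_le Real.pi_pos.le]; exact cF)
    (by rw [uIcc_of_le hx, uIcc_of_le Real.pi_pos.le]; exact cG)
    (by
      intro p hp
      rw [sdiff_empty, min_eq_left hx, max_eq_right hx, min_eq_left Real.pi_pos.le,
        max_eq_right Real.pi_pos.le] at hp
      exact dF p (hmem p hp))
    (by
      intro p hp
      rw [sdiff_empty, min_eq_left hx, max_eq_right hx, min_eq_left Real.pi_pos.le,
        max_eq_right Real.pi_pos.le] at hp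
      exact dG p (hmem p hp))
    (by
      rw [hDf, uIcc_of_le hx, uIcc_of_le Real.pi_pos.le]
      exact cD.integrableOn_compact (isCompact_Icc.prod isCompact_Icc))
  simp only [hD, b1, b2, b3, b4, intervalIntegral.integral_zero] at main
  rw [main]
  ring

theorem nullU {U Ux Uy Lap : ℂ → ℝ} (hU : C2f U Ux Uy Lap) {X : ℂ → ℂ} {x₁ x₂ : ℝ}
    (hx : x₁ ≤ x₂) (hX : AnalyticOnNhd ℂ X (Rect x₁ x₂))
    {χ χ₁ χ₂ : ℝ → ℝ} (h1 : ∀ ξ, HasDerivAt χ (χ₁ ξ) ξ) (h2 : ∀ ξ, HasDerivAt χ₁ (χ₂ ξ) ξ)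
    (h2c : Continuous χ₂) (e1 : χ x₁ = 0) (e2 : χ x₂ = 0) (e3 : χ₁ x₁ = 0) (e4 : χ₁ x₂ = 0)
    {a a₁ a₂ : ℝ → ℝ} (g1 : ∀ η, HasDerivAt a (a₁ η) η) (g2 : ∀ η, HasDerivAt a₁ (a₂ η) η)
    (g2c : Continuous a₂) (f1 : a 0 = 0) (f2 : a π = 0) (f3 : a₁ 0 = 0) (f4 : a₁ π = 0) :
    II x₁ x₂ (fun ξ η => χ ξ * (a η * Lap (X (pt ξ η)) * ‖deriv X (pt ξ η)‖ ^ 2
      - a₂ η * U (X (pt ξ η)))) =
    II x₁ x₂ (fun ξ η => χ₂ ξ * (a η * U (X (pt ξ η)))) := by
  obtain ⟨hU1, Uxx, Uxy, Uyy, hUx, hUy, hLap⟩ := hU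
  -- continuity of all pieces
  have cχ : Continuous χ := continuous_iff_continuousAt.2 fun t => (h1 t).continuousAt
  have cχ₁ : Continuous χ₁ := continuous_iff_continuousAt.2 fun t => (h2 t).continuousAt
  have ca : Continuous a := continuous_iff_continuousAt.2 fun t => (g1 t).continuousAt
  have ca₁ : Continuous a₁ := continuous_iff_continuousAt.2 fun t => (g2 t).continuousAt
  have hX1 : AnalyticOnNhd ℂ (deriv X) (Rect x₁ x₂) := hX.deriv
  have cX := continuousOn_pt hX.continuousOn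
  have cX1 := continuousOn_pt hX1.continuousOn
  have cU : ContinuousOn (fun p : ℝ × ℝ => U (X (pt p.1 p.2))) (Icc x₁ x₂ ×ˢ Icc 0 π) :=
    (C1f.cont hU1).comp_continuousOn cX
  have cUx : ContinuousOn (fun p : ℝ × ℝ => Ux (X (pt p.1 p.2))) (Icc x₁ x₂ ×ˢ Icc 0 π) :=
    hU1.cx.comp_continuousOn cX
  have cUy : ContinuousOn (fun p : ℝ × ℝ => Uy (X (pt p.1 p.2))) (Icc x₁ x₂ ×ˢ Icc 0 π) :=
    hU1.cy.comp_continuousOn cX
  have cLap : Continuous Lap := by
    have : Lap = fun X => Uxx X + Uyy X := funext hLap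
    rw [this]
    exact hUx.cx.add hUy.cy
  have cL : ContinuousOn (fun p : ℝ × ℝ => Lap (X (pt p.1 p.2))) (Icc x₁ x₂ ×ˢ Icc 0 π) :=
    cLap.comp_continuousOn cX
  have cre : ContinuousOn (fun p : ℝ × ℝ => (deriv X (pt p.1 p.2)).re) (Icc x₁ x₂ ×ˢ Icc 0 π) :=
    Complex.continuous_re.comp_continuousOn cX1
  have cim : ContinuousOn (fun p : ℝ × ℝ => (deriv X (pt p.1 p.2)).im) (Icc x₁ x₂ ×ˢ Icc 0 π) :=
    Complex.continuous_im.comp_continuousOn cX1
  have cA : ContinuousOn (fun p : ℝ × ℝ => χ p.1 * (a p.2 * Lap (X (pt p.1 p.2)) *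
      ‖deriv X (pt p.1 p.2)‖ ^ 2 - a₂ p.2 * U (X (pt p.1 p.2)))) (Icc x₁ x₂ ×ˢ Icc 0 π) := by
    have i1 : ContinuousOn (fun p : ℝ × ℝ => χ p.1) (Icc x₁ x₂ ×ˢ Icc 0 π) := by fun_prop
    have i2 : ContinuousOn (fun p : ℝ × ℝ => a p.2) (Icc x₁ x₂ ×ˢ Icc 0 π) := by fun_prop
    have i3 : ContinuousOn (fun p : ℝ × ℝ => a₂ p.2) (Icc x₁ x₂ ×ˢ Icc 0 π) := by fun_prop
    exact i1.mul (((i2.mul cL).mul (cX1.norm.pow 2)).sub (i3.mul cU))
  have cB : ContinuousOn (fun p : ℝ × ℝ => χ₂ p.1 * (a p.2 * U (X (pt p.1 p.2))))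
      (Icc x₁ x₂ ×ˢ Icc 0 π) := by
    have i1 : ContinuousOn (fun p : ℝ × ℝ => χ₂ p.1) (Icc x₁ x₂ ×ˢ Icc 0 π) := by fun_prop
    have i2 : ContinuousOn (fun p : ℝ × ℝ => a p.2) (Icc x₁ x₂ ×ˢ Icc 0 π) := by fun_prop
    exact i1.mul (i2.mul cU)
  -- the two components of the field
  have hmem : ∀ p ∈ Ioo x₁ x₂ ×ˢ Ioo 0 π, pt p.1 p.2 ∈ Rect x₁ x₂ := by
    rintro ⟨x, y⟩ ⟨hx', hy'⟩
    simp only [Rect, mem_reProdIm, pt]
    constructor
    · simpa using Ioo_subset_Icc_self hx'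
    · simpa using Ioo_subset_Icc_self hy'
  have dχ : ∀ p : ℝ × ℝ, HasFDerivAt (fun q : ℝ × ℝ => χ q.1)
      (χ₁ p.1 • ContinuousLinearMap.fst ℝ ℝ ℝ) p := fun p =>
    (h1 p.1).comp_hasFDerivAt p hasFDerivAt_fst
  have dχ₁ : ∀ p : ℝ × ℝ, HasFDerivAt (fun q : ℝ × ℝ => χ₁ q.1)
      (χ₂ p.1 • ContinuousLinearMap.fst ℝ ℝ ℝ) p := fun p =>
    (h2 p.1).comp_hasFDerivAt p hasFDerivAt_fst
  have da : ∀ p : ℝ × ℝ, HasFDerivAt (fun q : ℝ × ℝ => a q.2)
      (a₁ p.2 • ContinuousLinearMap.snd ℝ ℝ ℝ) p := fun p =>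
    (g1 p.2).comp_hasFDerivAt p hasFDerivAt_snd
  have da₁ : ∀ p : ℝ × ℝ, HasFDerivAt (fun q : ℝ × ℝ => a₁ q.2)
      (a₂ p.2 • ContinuousLinearMap.snd ℝ ℝ ℝ) p := fun p =>
    (g2 p.2).comp_hasFDerivAt p hasFDerivAt_snd
  have dW : ∀ {W Wx Wy : ℂ → ℝ}, C1f W Wx Wy → ∀ p : ℝ × ℝ, pt p.1 p.2 ∈ Rect x₁ x₂ →
      HasFDerivAt (fun q : ℝ × ℝ => W (X (pt q.1 q.2)))
        ((Wx (X (pt p.1 p.2)) • reCLM + Wy (X (pt p.1 p.2)) • imCLM).comp
          (Lc (deriv X (pt p.1 p.2)))) p := by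
    intro W Wx Wy hW p hp
    exact HasFDerivAt.comp (g := W) p (hW.hd _) (hasFDerivAt_X (hX _ hp).differentiableAt)
  have dre : ∀ p : ℝ × ℝ, pt p.1 p.2 ∈ Rect x₁ x₂ →
      HasFDerivAt (fun q : ℝ × ℝ => (deriv X (pt q.1 q.2)).re)
        (reCLM.comp (Lc (deriv (deriv X) (pt p.1 p.2)))) p := fun p hp =>
    reCLM.hasFDerivAt.comp p (hasFDerivAt_X (hX1 _ hp).differentiableAt)
  have dim : ∀ p : ℝ × ℝ, pt p.1 p.2 ∈ Rect x₁ x₂ →
      HasFDerivAt (fun q : ℝ × ℝ => (deriv X (pt q.1 q.2)).im)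
        (imCLM.comp (Lc (deriv (deriv X) (pt p.1 p.2)))) p := fun p hp =>
    imCLM.hasFDerivAt.comp p (hasFDerivAt_X (hX1 _ hp).differentiableAt)
  -- the components and their derivatives
  have dF := fun (p : ℝ × ℝ) (hp : pt p.1 p.2 ∈ Rect x₁ x₂) =>
    (da p).fun_mul (((dχ p).fun_mul (((dW hUx p hp).fun_mul (dre p hp)).fun_add
      ((dW hUy p hp).fun_mul (dim p hp)))).fun_sub ((dχ₁ p).fun_mul (dW hU1 p hp)))
  have dG := fun (p : ℝ × ℝ) (hp : pt p.1 p.2 ∈ Rect x₁ x₂) =>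
    (dχ p).fun_mul (((da p).fun_mul (((dW hUy p hp).fun_mul (dre p hp)).fun_sub
      ((dW hUx p hp).fun_mul (dim p hp)))).fun_sub ((da₁ p).fun_mul (dW hU1 p hp)))
  have cF : ContinuousOn (fun q : ℝ × ℝ => a q.2 * (χ q.1 *
      (Ux (X (pt q.1 q.2)) * (deriv X (pt q.1 q.2)).re +
        Uy (X (pt q.1 q.2)) * (deriv X (pt q.1 q.2)).im) - χ₁ q.1 * U (X (pt q.1 q.2))))
      (Icc x₁ x₂ ×ˢ Icc 0 π) := by
    have i1 : ContinuousOn (fun p : ℝ × ℝ => χ p.1) (Icc x₁ x₂ ×ˢ Icc 0 π) := by fun_prop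
    have i2 : ContinuousOn (fun p : ℝ × ℝ => a p.2) (Icc x₁ x₂ ×ˢ Icc 0 π) := by fun_prop
    have i3 : ContinuousOn (fun p : ℝ × ℝ => χ₁ p.1) (Icc x₁ x₂ ×ˢ Icc 0 π) := by fun_prop
    exact i2.mul ((i1.mul ((cUx.mul cre).add (cUy.mul cim))).sub (i3.mul cU))
  have cG : ContinuousOn (fun q : ℝ × ℝ => χ q.1 * (a q.2 *
      (Uy (X (pt q.1 q.2)) * (deriv X (pt q.1 q.2)).re -
        Ux (X (pt q.1 q.2)) * (deriv X (pt q.1 q.2)).im) - a₁ q.2 * U (X (pt q.1 q.2))))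
      (Icc x₁ x₂ ×ˢ Icc 0 π) := by
    have i1 : ContinuousOn (fun p : ℝ × ℝ => χ p.1) (Icc x₁ x₂ ×ˢ Icc 0 π) := by fun_prop
    have i2 : ContinuousOn (fun p : ℝ × ℝ => a p.2) (Icc x₁ x₂ ×ˢ Icc 0 π) := by fun_prop
    have i3 : ContinuousOn (fun p : ℝ × ℝ => a₁ p.2) (Icc x₁ x₂ ×ˢ Icc 0 π) := by fun_prop
    exact i1.mul ((i2.mul ((cUy.mul cre).sub (cUx.mul cim))).sub (i3.mul cU))
  have cD := cA.fun_sub cB
  have main := div_zero hx (Rp := Rect x₁ x₂) hmem cF cG cD dF dG (by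
    rintro ⟨x, y⟩
    have hn : ‖deriv X (pt x y)‖ ^ 2 = (deriv X (pt x y)).re ^ 2 + (deriv X (pt x y)).im ^ 2 := by
      rw [← normSq_eq_norm_sq, normSq_apply]
      ring
    simp only [_root_.add_apply, _root_.sub_apply,
      _root_.smul_apply, ContinuousLinearMap.comp_apply, Lc_10, Lc_01,
      ContinuousLinearMap.coe_fst', ContinuousLinearMap.coe_snd', smul_eq_mul, reCLM_apply,
      imCLM_apply, mul_re, mul_im, I_re, I_im, hLap, hn]
    ring)
    (fun x => by simp [f2, f4]) (fun x => by simp [f1, f3]) (fun y => by simp [e2, e4])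
    (fun y => by simp [e1, e3])
  have h3 := II_sub hx (F := fun ξ η => χ ξ * (a η * Lap (X (pt ξ η)) *
      ‖deriv X (pt ξ η)‖ ^ 2 - a₂ η * U (X (pt ξ η))))
    (G := fun ξ η => χ₂ ξ * (a η * U (X (pt ξ η)))) cA cB
  rw [II] at h3
  have h4 : II x₁ x₂ (fun ξ η => χ ξ * (a η * Lap (X (pt ξ η)) * ‖deriv X (pt ξ η)‖ ^ 2
      - a₂ η * U (X (pt ξ η)))) - II x₁ x₂ (fun ξ η => χ₂ ξ * (a η * U (X (pt ξ η)))) = 0 := by
    rw [← h3]
    exact main
  linarith

end Pool.Agent.Helper78.EK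

end

section

set_option autoImplicit false
open Complex MeasureTheory Metric Set
open scoped Real ComplexConjugate

/-! Project EK, E2: exchange of the integrals in the entropy loss, and the integral of
`(t₂ - t) / sinh² t`. -/

namespace Pool.Agent.Helper5.EK

open Pool.Agent.Helper52.EK Pool.Agent.Helper73.EK

/-- exchange of two interval integrals of a continuous function -/
theorem swap2 {F : ℝ → ℝ → ℝ} (hF : Continuous (Function.uncurry F)) (a b c d : ℝ) :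
    ∫ x in a..b, ∫ y in c..d, F x y = ∫ y in c..d, ∫ x in a..b, F x y := by
  refine MeasureTheory.intervalIntegral_intervalIntegral_swap ?_
  have h1 : IntegrableOn (Function.uncurry F) (uIcc a b ×ˢ uIcc c d) :=
    hF.continuousOn.integrableOn_compact (isCompact_uIcc.prod isCompact_uIcc)
  exact h1.mono_set (prod_mono uIoc_subset_uIcc uIoc_subset_uIcc)

/-- exchange of three interval integrals of a continuous function -/
theorem swap3 {F : ℝ → ℝ → ℝ → ℝ}
    (hF : Continuous fun p : ℝ × ℝ × ℝ => F p.1 p.2.1 p.2.2) (a b c d e f : ℝ) :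
    ∫ t in a..b, ∫ θ in c..d, ∫ α in e..f, F t θ α =
      ∫ α in e..f, ∫ t in a..b, ∫ θ in c..d, F t θ α := by
  have h1 : ∀ t : ℝ, ∫ θ in c..d, ∫ α in e..f, F t θ α = ∫ α in e..f, ∫ θ in c..d, F t θ α := by
    intro t
    apply swap2
    exact hF.comp (by fun_prop : Continuous fun q : ℝ × ℝ => (t, q.1, q.2))
  simp_rw [h1]
  apply swap2
  have h2 : Continuous (Function.uncurry fun (q : ℝ × ℝ) (θ : ℝ) => F q.1 θ q.2) :=
    hF.comp (by fun_prop : Continuous fun q : (ℝ × ℝ) × ℝ => (q.1.1, q.2, q.1.2))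
  exact intervalIntegral.continuous_parametric_intervalIntegral_of_continuous' h2 c d

theorem cont_inner {F : ℝ → ℝ → ℝ → ℝ}
    (hF : Continuous fun p : ℝ × ℝ × ℝ => F p.1 p.2.1 p.2.2) (c d e f : ℝ) :
    Continuous fun t : ℝ => ∫ θ in c..d, ∫ α in e..f, F t θ α := by
  have h2 : Continuous (Function.uncurry fun (q : ℝ × ℝ) (α : ℝ) => F q.1 q.2 α) :=
    hF.comp (by fun_prop : Continuous fun q : (ℝ × ℝ) × ℝ => (q.1.1, q.1.2, q.2))
  have h3 := intervalIntegral.continuous_parametric_intervalIntegral_of_continuous' (μ := volume)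
    h2 e f
  have h4 : Continuous (Function.uncurry fun (t : ℝ) (θ : ℝ) => ∫ α in e..f, F t θ α) := h3
  exact intervalIntegral.continuous_parametric_intervalIntegral_of_continuous' h4 c d

/-- the integrand, with the height cut at `t₂` -/
noncomputable def Hc (ρ : ℝ → ℝ) (w : ℂ → ℂ) (t₂ t θ α : ℝ) : ℝ :=
  ρ α * (Pk (Complex.exp (α * I)) (ep (min t t₂) θ) *
    ‖ee (Complex.exp (α * I)) (ep (min t t₂) θ) - w (ep (min t t₂) θ)‖ ^ 2 /
      Real.sinh (min t t₂) ^ 2)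

theorem Hc_cont {ρ : ℝ → ℝ} (hρ : Continuous ρ) {w : ℂ → ℂ}
    (hw : ContinuousOn w {z | 0 < ‖z‖ ∧ ‖z‖ < 1}) {t₂ : ℝ} (h2 : t₂ < 0) :
    Continuous fun p : ℝ × ℝ × ℝ => Hc ρ w t₂ p.1 p.2.1 p.2.2 := by
  have hm : ∀ t : ℝ, min t t₂ < 0 := fun t => lt_of_le_of_lt (min_le_right _ _) h2
  have he : Continuous fun p : ℝ × ℝ × ℝ => ep (min p.1 t₂) p.2.1 := by
    unfold ep
    fun_prop
  have hwc : Continuous fun p : ℝ × ℝ × ℝ => w (ep (min p.1 t₂) p.2.1) := by
    refine hw.comp_continuous he fun p => ⟨?_, norm_ep_lt (hm _) _⟩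
    rw [norm_ep]
    exact Real.exp_pos _
  have hne : ∀ p : ℝ × ℝ × ℝ, Complex.exp (p.2.2 * I) - ep (min p.1 t₂) p.2.1 ≠ 0 := fun p =>
    sub_ne_zero_of (norm_cis _) (norm_ep_lt (hm _) _)
  have hs : ∀ p : ℝ × ℝ × ℝ, Real.sinh (min p.1 t₂) ^ 2 ≠ 0 := fun p =>
    pow_ne_zero _ (Real.sinh_neg_iff.2 (hm _)).ne
  have hp : Continuous fun p : ℝ × ℝ × ℝ => Pk (Complex.exp (p.2.2 * I)) (ep (min p.1 t₂) p.2.1) := by
    unfold Pk
    refine Continuous.div (by fun_prop) (by fun_prop) fun p => ?_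
    have := hne p
    positivity
  have hee : Continuous fun p : ℝ × ℝ × ℝ => ee (Complex.exp (p.2.2 * I)) (ep (min p.1 t₂) p.2.1) := by
    unfold ee
    refine Continuous.div ?_ (by fun_prop) hne
    have h3 : Continuous fun p : ℝ × ℝ × ℝ => conj (ep (min p.1 t₂) p.2.1) :=
      Complex.continuous_conj.comp he
    fun_prop
  unfold Hc
  refine Continuous.mul (by fun_prop) ?_
  refine Continuous.div ?_ (by fun_prop) hs
  exact hp.mul ((hee.sub hwc).norm.pow 2)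

theorem kk_eq {ρ : ℝ → ℝ} {w : ℂ → ℂ} {t₂ t : ℝ} (ht : t ≤ t₂) :
    kk ρ w t = (2 * π)⁻¹ * ((2 * π)⁻¹ * ∫ θ in (-π)..π, ∫ α in (0:ℝ)..(2 * π), Hc ρ w t₂ t θ α) := by
  unfold kk Hc
  rw [min_eq_left ht, intervalIntegral.integral_const_mul]

theorem kk_intervalIntegrable {ρ : ℝ → ℝ} (hρ : Continuous ρ) {w : ℂ → ℂ}
    (hw : ContinuousOn w {z | 0 < ‖z‖ ∧ ‖z‖ < 1}) {t₂ : ℝ} (h2 : t₂ < 0) {t₀ : ℝ} (h0 : t₀ ≤ t₂) :
    IntervalIntegrable (fun t => (t₂ - t) * kk ρ w t) volume t₀ t₂ := by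
  have h1 : ContinuousOn (fun t => (t₂ - t) * kk ρ w t) (uIcc t₀ t₂) := by
    have h3 : Continuous fun t : ℝ => (t₂ - t) * ((2 * π)⁻¹ * ((2 * π)⁻¹ *
        ∫ θ in (-π)..π, ∫ α in (0:ℝ)..(2 * π), Hc ρ w t₂ t θ α)) := by
      have := cont_inner (Hc_cont hρ hw h2) (-π) π 0 (2 * π)
      fun_prop
    refine h3.continuousOn.congr fun t ht => ?_
    rw [uIcc_of_le h0] at ht
    show (t₂ - t) * kk ρ w t = _
    rw [kk_eq ht.2]
  exact h1.intervalIntegrable

theorem fub {ρ : ℝ → ℝ} (hρ : Continuous ρ) {w : ℂ → ℂ}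
    (hw : ContinuousOn w {z | 0 < ‖z‖ ∧ ‖z‖ < 1}) {t₂ : ℝ} (h2 : t₂ < 0) {t₀ : ℝ} (h0 : t₀ ≤ t₂) :
    ∫ t in t₀..t₂, (t₂ - t) * kk ρ w t =
      (2 * π)⁻¹ * ∫ α in (0:ℝ)..(2 * π), ρ α * Kf w (Complex.exp (α * I)) t₀ t₂ := by
  have hH := Hc_cont hρ hw h2
  have e1 : ∫ t in t₀..t₂, (t₂ - t) * kk ρ w t =
      ∫ t in t₀..t₂, (2 * π)⁻¹ * ((2 * π)⁻¹ * ∫ θ in (-π)..π, ∫ α in (0:ℝ)..(2 * π),
        (t₂ - t) * Hc ρ w t₂ t θ α) := by
    refine intervalIntegral.integral_congr fun t ht => ?_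
    rw [uIcc_of_le h0] at ht
    show (t₂ - t) * kk ρ w t = _
    rw [kk_eq ht.2]
    simp_rw [intervalIntegral.integral_const_mul]
    ring
  have e2 : ∀ α : ℝ, ρ α * Kf w (Complex.exp (α * I)) t₀ t₂ =
      (2 * π)⁻¹ * ∫ t in t₀..t₂, ∫ θ in (-π)..π, (t₂ - t) * Hc ρ w t₂ t θ α := by
    intro α
    unfold Kf
    have e3 : ∫ t in t₀..t₂, ∫ θ in (-π)..π, (t₂ - t) * Hc ρ w t₂ t θ α =
        ∫ t in t₀..t₂, ρ α * ∫ θ in (-π)..π, (t₂ - t) * Pk (Complex.exp (α * I)) (ep t θ) *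
          ‖ee (Complex.exp (α * I)) (ep t θ) - w (ep t θ)‖ ^ 2 / Real.sinh t ^ 2 := by
      refine intervalIntegral.integral_congr fun t ht => ?_
      rw [uIcc_of_le h0] at ht
      show ∫ θ in (-π)..π, (t₂ - t) * Hc ρ w t₂ t θ α = _
      rw [← intervalIntegral.integral_const_mul]
      refine intervalIntegral.integral_congr fun θ _ => ?_
      show (t₂ - t) * Hc ρ w t₂ t θ α = _
      unfold Hc
      rw [min_eq_left ht.2]
      ring
    rw [e3, intervalIntegral.integral_const_mul]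
    ring
  rw [e1, intervalIntegral.integral_const_mul, intervalIntegral.integral_const_mul]
  simp_rw [e2]
  rw [intervalIntegral.integral_const_mul]
  rw [swap3 (F := fun t θ α => (t₂ - t) * Hc ρ w t₂ t θ α)]
  fun_prop

/-- the antiderivative -/
theorem int_sinh {t₂ : ℝ} (h1 : -1 ≤ t₂) (h2 : t₂ < 0) :
    ∫ t in (-1)..t₂, (t₂ - t) * (1 / Real.sinh t ^ 2) =
      -Real.log (Real.sinh (-t₂)) - (t₂ + 1) * (Real.cosh 1 / Real.sinh 1) +
        Real.log (Real.sinh 1) := by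
  have hd : ∀ t ∈ uIcc (-1) t₂, HasDerivAt (fun t => -((t₂ - t) * (Real.cosh t / Real.sinh t)) -
      Real.log (Real.sinh t)) ((t₂ - t) * (1 / Real.sinh t ^ 2)) t := by
    intro t ht
    rw [uIcc_of_le h1] at ht
    have hs : Real.sinh t ≠ 0 := (Real.sinh_neg_iff.2 (lt_of_le_of_lt ht.2 h2)).ne
    have d1 : HasDerivAt (fun t => t₂ - t) (-1) t := by
      simpa using (hasDerivAt_id t).const_sub t₂
    have d2 : HasDerivAt (fun t => Real.cosh t / Real.sinh t)
        ((Real.sinh t * Real.sinh t - Real.cosh t * Real.cosh t) / Real.sinh t ^ 2) t :=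
      (Real.hasDerivAt_cosh t).div (Real.hasDerivAt_sinh t) hs
    have d3 : HasDerivAt (fun t => Real.log (Real.sinh t)) (Real.cosh t / Real.sinh t) t :=
      (Real.hasDerivAt_sinh t).log hs
    have d4 := ((d1.mul d2).neg).sub d3
    refine d4.congr_deriv ?_
    have hcs : Real.cosh t ^ 2 = Real.sinh t ^ 2 + 1 := Real.cosh_sq t
    field_simp
    rw [hcs]
    ring
  have hc : IntervalIntegrable (fun t => (t₂ - t) * (1 / Real.sinh t ^ 2)) volume (-1) t₂ := by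
    apply ContinuousOn.intervalIntegrable
    intro t ht
    rw [uIcc_of_le h1] at ht
    have hs : Real.sinh t ≠ 0 := (Real.sinh_neg_iff.2 (lt_of_le_of_lt ht.2 h2)).ne
    have hs2 : Real.sinh t ^ 2 ≠ 0 := pow_ne_zero _ hs
    apply ContinuousAt.continuousWithinAt
    exact (by fun_prop : ContinuousAt (fun t => t₂ - t) t).mul
      (ContinuousAt.div (by fun_prop) (Real.continuous_sinh.continuousAt.pow 2) hs2)
  rw [intervalIntegral.integral_eq_sub_of_hasDerivAt hd hc]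
  rw [Real.sinh_neg, Real.cosh_neg, Real.sinh_neg, Real.log_neg_eq_log, Real.log_neg_eq_log]
  have hs1 : Real.sinh 1 ≠ 0 := (Real.sinh_pos_iff.2 one_pos).ne'
  field_simp
  ring

theorem sinh_neg_log {a : ℝ} (h0 : 0 < a) : Real.sinh (-Real.log a) = (1 - a ^ 2) / (2 * a) := by
  rw [Real.sinh_neg, Real.sinh_eq, Real.exp_neg, Real.exp_log h0]
  field_simp
  ring

theorem int_ge {a : ℝ} (ha : Real.exp (-1) < a) (ha1 : a < 1) :
    -Real.log (1 - a ^ 2) - (1 + Real.cosh 1 / Real.sinh 1 + |Real.log (Real.sinh 1)|) ≤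
      ∫ t in (-1)..(Real.log a), (Real.log a - t) * (1 / Real.sinh t ^ 2) := by
  have h0 : 0 < a := lt_trans (Real.exp_pos _) ha
  have hl1 : -1 < Real.log a := by
    rw [Real.lt_log_iff_exp_lt h0]
    exact ha
  have hl2 : Real.log a < 0 := Real.log_neg h0 ha1
  rw [int_sinh hl1.le hl2, sinh_neg_log h0]
  have h3 : 0 < 1 - a ^ 2 := by nlinarith
  rw [Real.log_div h3.ne' (by positivity), Real.log_mul (by norm_num) h0.ne']
  have h4 : 0 ≤ Real.log 2 := Real.log_nonneg (by norm_num)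
  have h5 : 0 < Real.cosh 1 / Real.sinh 1 :=
    div_pos (Real.cosh_pos 1) (Real.sinh_pos_iff.2 one_pos)
  have h6 : -|Real.log (Real.sinh 1)| ≤ Real.log (Real.sinh 1) := neg_abs_le _
  have h7 : (Real.log a + 1) * (Real.cosh 1 / Real.sinh 1) ≤ 1 * (Real.cosh 1 / Real.sinh 1) :=
    mul_le_mul_of_nonneg_right (by linarith) h5.le
  linarith

end Pool.Agent.Helper5.EK

end

section

set_option autoImplicit false
open Complex MeasureTheory Metric Set Filter Topology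
open scoped Real ENNReal ComplexConjugate NNReal

/-! Identification of the branch; the Goluzin inequality `|log (1 - ζ² β')| ≤ log 1/(1-|ζ|²)`. -/

namespace Pool.Agent.Helper39.Area

theorem eq_zero_of_exp_one {X : Type*} [TopologicalSpace X] {S : Set X} (hS : IsPreconnected S)
    {f : X → ℂ} (hf : ContinuousOn f S) (he : ∀ x ∈ S, Complex.exp (f x) = 1) {x0 : X}
    (hx0 : x0 ∈ S) (h0 : f x0 = 0) : ∀ x ∈ S, f x = 0 := by
  have him : ContinuousOn (fun x => (f x).im) S := Complex.continuous_im.comp_continuousOn hf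
  have hpre := (hS.image _ him).ordConnected
  intro x hx
  obtain ⟨n, hn⟩ := Complex.exp_eq_one_iff.mp (he x hx)
  have him2 : (f x).im = n * (2 * π) := by rw [hn]; simp
  have hn0 : n = 0 := by
    by_contra hne
    -- a value with imaginary part ±π
    have hz : (0:ℝ) ∈ (fun x => (f x).im) '' S := ⟨x0, hx0, by simp [h0]⟩
    have hz2 : (n * (2 * π) : ℝ) ∈ (fun x => (f x).im) '' S := ⟨x, hx, him2⟩
    have key : ∀ t : ℝ, (t = π ∨ t = -π) → t ∉ (fun x => (f x).im) '' S := by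
      rintro t ht ⟨y, hy, hyt⟩
      obtain ⟨m, hm⟩ := Complex.exp_eq_one_iff.mp (he y hy)
      have h1 : (f y).im = m * (2 * π) := by rw [hm]; simp
      simp only at hyt
      rw [hyt] at h1
      have hpi := Real.pi_pos
      rcases ht with rfl | rfl
      · have h2 : (1:ℝ) = m * 2 := by
          have : π * 1 = π * (m * 2) := by linarith
          exact mul_left_cancel₀ hpi.ne' this
        have h3 : (1:ℤ) = m * 2 := by exact_mod_cast h2
        omega
      · have h2 : (-1:ℝ) = m * 2 := by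
          have : π * (-1) = π * (m * 2) := by linarith
          exact mul_left_cancel₀ hpi.ne' this
        have h3 : (-1:ℤ) = m * 2 := by exact_mod_cast h2
        omega
    have hpi := Real.pi_pos
    rcases lt_or_gt_of_ne hne with h | h
    · have h1 : (n:ℝ) ≤ -1 := by exact_mod_cast (Int.le_sub_one_iff.mpr h)
      exact key (-π) (Or.inr rfl) (hpre.out hz2 hz ⟨by nlinarith, by linarith⟩)
    · have h1 : (1:ℝ) ≤ n := by exact_mod_cast h
      exact key π (Or.inl rfl) (hpre.out hz hz2 ⟨by linarith, by nlinarith⟩)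
  rw [hn, hn0]; simp

variable {β : ℂ → ℂ}

theorem dslope_cont (hβ : DifferentiableOn ℂ β (ball 0 1)) :
    ContinuousOn (fun p : ℂ × ℂ => dslope β p.1 p.2) (ball 0 1 ×ˢ ball 0 1) := by
  rintro ⟨a, b⟩ ⟨ha, hb⟩
  simp only at ha hb
  apply ContinuousAt.continuousWithinAt
  have hβa : ContinuousAt β a := (hβ.differentiableAt (isOpen_ball.mem_nhds ha)).continuousAt
  have hβb : ContinuousAt β b := (hβ.differentiableAt (isOpen_ball.mem_nhds hb)).continuousAt
  by_cases hab : a = b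
  · subst hab
    have han : AnalyticAt ℂ β a := hβ.analyticAt (isOpen_ball.mem_nhds ha)
    have hst : HasStrictDerivAt β (deriv β a) a := han.hasStrictDerivAt
    have hdc : ContinuousAt (deriv β) a :=
      ((hβ.deriv isOpen_ball).differentiableAt (isOpen_ball.mem_nhds ha)).continuousAt
    have hdc2 : ContinuousAt (fun p : ℂ × ℂ => deriv β p.1) (a, a) :=
      ContinuousAt.comp (f := Prod.fst) (g := deriv β) (x := ((a, a) : ℂ × ℂ)) hdc continuousAt_fst
    rw [Metric.continuousAt_iff']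
    intro ε hε
    rw [Metric.continuousAt_iff'] at hdc2
    have h1 := (hasStrictDerivAt_iff_hasStrictFDerivAt.mp hst).isLittleO
    have h2 := (Asymptotics.isLittleO_iff.mp h1) (half_pos hε)
    filter_upwards [h2, hdc2 ε hε] with p hp1 hp2
    simp only [dslope_same]
    by_cases hp : p.1 = p.2
    · rw [← hp, dslope_same]
      exact hp2
    · rw [dslope_of_ne _ (Ne.symm hp), slope_def_field, dist_eq_norm]
      have h3 : p.2 - p.1 ≠ 0 := sub_ne_zero.mpr (Ne.symm hp)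
      have h4 : (β p.2 - β p.1) / (p.2 - p.1) - deriv β a =
          (β p.1 - β p.2 - (p.1 - p.2) * deriv β a) / (p.1 - p.2) := by
        have h5 : p.1 - p.2 ≠ 0 := sub_ne_zero.mpr hp
        field_simp
        ring
      rw [h4, norm_div]
      have h5 : 0 < ‖p.1 - p.2‖ := norm_pos_iff.mpr (sub_ne_zero.mpr hp)
      rw [div_lt_iff₀ h5]
      have h6 : ‖β p.1 - β p.2 - (p.1 - p.2) * deriv β a‖ ≤ ε / 2 * ‖p.1 - p.2‖ := by
        simpa [mul_comm] using hp1
      nlinarith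
  · have hne : ∀ᶠ p : ℂ × ℂ in 𝓝 (a, b), p.1 ≠ p.2 := by
      have : IsOpen {p : ℂ × ℂ | p.1 ≠ p.2} := isOpen_ne_fun continuous_fst continuous_snd
      exact this.mem_nhds hab
    have h1 : ContinuousAt (fun p : ℂ × ℂ => (β p.2 - β p.1) / (p.2 - p.1)) (a, b) := by
      have c1 : ContinuousAt (fun p : ℂ × ℂ => β p.1) (a, b) :=
        ContinuousAt.comp (f := Prod.fst) (g := β) (x := ((a, b) : ℂ × ℂ)) hβa continuousAt_fst
      have c2 : ContinuousAt (fun p : ℂ × ℂ => β p.2) (a, b) :=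
        ContinuousAt.comp (f := Prod.snd) (g := β) (x := ((a, b) : ℂ × ℂ)) hβb continuousAt_snd
      exact (c2.sub c1).div (continuousAt_snd.sub continuousAt_fst) (sub_ne_zero.mpr (Ne.symm hab))
    apply h1.congr
    filter_upwards [hne] with p hp
    rw [dslope_of_ne _ (Ne.symm hp), slope_def_field]

theorem goluzin (h : Ext β) {H : ℂ → ℂ} (hH : ContinuousOn H (ball 0 1)) (hH0 : H 0 = 0)
    (hexp : ∀ ζ ∈ ball (0:ℂ) 1, Complex.exp (H ζ) = 1 - ζ ^ 2 * deriv β ζ) {a : ℂ}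
    (ha : a ∈ ball (0:ℂ) 1) : ‖H a‖ ≤ - Real.log (1 - ‖a‖ ^ 2) := by
  set U : Set (ℂ × ℂ) := ball 0 1 ×ˢ ball 0 1 with hU
  have hUo : IsOpen U := isOpen_ball.prod isOpen_ball
  have hUconv : Convex ℝ U := (convex_ball _ _).prod (convex_ball _ _)
  have h00 : ((0:ℂ), (0:ℂ)) ∈ U := ⟨mem_ball_self one_pos, mem_ball_self one_pos⟩
  have hUs : IsSimplyConnected U := by
    have hc : ContractibleSpace U := hUconv.contractibleSpace ⟨_, h00⟩
    show SimplyConnectedSpace U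
    infer_instance
  have hqc : ContinuousOn (fun p : ℂ × ℂ => qq β p.1 p.2) U := by
    unfold qq
    apply ContinuousOn.sub continuousOn_const
    apply ContinuousOn.mul (by fun_prop)
    exact dslope_cont h.diff
  have hq0 : 0 ∉ (fun p : ℂ × ℂ => qq β p.1 p.2) '' U := by
    rintro ⟨p, ⟨hp1, hp2⟩, hp⟩
    exact qq_ne h hp1 hp2 hp
  obtain ⟨Φ, hΦc, hΦ⟩ := Complex.exists_continuousOn_eqOn_exp_comp hUs hUo hqc hq0
  have hΦe : ∀ b ∈ ball (0:ℂ) 1, ∀ ζ ∈ ball (0:ℂ) 1, Complex.exp (Φ (b, ζ)) = qq β b ζ :=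
    fun b hb ζ hζ => hΦ (show (b, ζ) ∈ U from ⟨hb, hζ⟩)
  have h0b : (0:ℂ) ∈ ball (0:ℂ) 1 := mem_ball_self one_pos
  -- the diagonal
  have hTc : ContinuousOn (fun b : ℂ => Φ (b, b) - Φ (b, 0)) (ball 0 1) := by
    apply ContinuousOn.sub
    · exact hΦc.comp (by fun_prop) (fun b hb => ⟨hb, hb⟩)
    · exact hΦc.comp (by fun_prop) (fun b hb => ⟨hb, h0b⟩)
  have hTe : ∀ b ∈ ball (0:ℂ) 1, Complex.exp (Φ (b, b) - Φ (b, 0)) = 1 - b ^ 2 * deriv β b := by
    intro b hb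
    rw [Complex.exp_sub, hΦe b hb b hb, hΦe b hb 0 h0b]
    simp only [qq, mul_zero, zero_mul, sub_zero, div_one, dslope_same]
    ring
  have hTHc : ContinuousOn (fun b : ℂ => (Φ (b, b) - Φ (b, 0)) - H b) (ball 0 1) := hTc.sub hH
  have hTH : ∀ b ∈ ball (0:ℂ) 1, (Φ (b, b) - Φ (b, 0)) - H b = 0 := by
    apply eq_zero_of_exp_one (convex_ball (0:ℂ) 1).isPreconnected hTHc _ h0b
    · simp [hH0]
    · intro b hb
      rw [Complex.exp_sub, hTe b hb, hexp b hb, div_self]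
      exact h.ne b hb
  -- the logarithm for fixed `a`
  have hqd := qq_diff h.diff ha
  have hQd : DifferentiableOn ℂ (fun ζ => deriv (qq β a) ζ / qq β a ζ) (ball 0 1) :=
    (hqd.deriv isOpen_ball).div hqd (fun ζ hζ => qq_ne h ha hζ)
  obtain ⟨F, hF0, hF⟩ := hQd.isExactOn_ball.with_val_at 0 0
  have hFe : ∀ ζ ∈ ball (0:ℂ) 1, Complex.exp (F ζ) = qq β a ζ := by
    -- `exp F / q` has zero derivative
    have hderiv : ∀ ζ ∈ ball (0:ℂ) 1, HasDerivAt (fun ζ => Complex.exp (-F ζ) * qq β a ζ) 0 ζ := by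
      intro ζ hζ
      have h1 := ((hF ζ hζ).neg.cexp).mul ((hqd.differentiableAt (isOpen_ball.mem_nhds hζ)).hasDerivAt)
      have h2 := qq_ne h ha hζ
      have e : (0:ℂ) = Complex.exp (-F ζ) * -(deriv (qq β a) ζ / qq β a ζ) * qq β a ζ +
          Complex.exp (-F ζ) * deriv (qq β a) ζ := by
        field_simp
        ring
      rw [e]
      exact h1
    intro ζ hζ
    have h1 : Complex.exp (-F ζ) * qq β a ζ = Complex.exp (-F 0) * qq β a 0 := by
      apply (convex_ball (0:ℂ) 1).is_const_of_fderivWithin_eq_zero (𝕜 := ℂ)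
        (f := fun ζ => Complex.exp (-F ζ) * qq β a ζ) _ _ hζ h0b
      · intro ω hω
        exact (hderiv ω hω).differentiableAt.differentiableWithinAt
      · intro ω hω
        have h3 := (hderiv ω hω).hasFDerivAt.hasFDerivWithinAt (s := ball (0:ℂ) 1)
        rw [h3.fderivWithin (isOpen_ball.uniqueDiffWithinAt hω)]
        ext
        simp
    rw [hF0, neg_zero, Complex.exp_zero, one_mul] at h1
    have h2 : qq β a 0 = 1 := by simp [qq]
    rw [h2, Complex.exp_neg] at h1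
    have h3 := Complex.exp_ne_zero (F ζ)
    field_simp at h1
    exact h1.symm
  have hFc : ContinuousOn F (ball 0 1) := fun ζ hζ => (hF ζ hζ).continuousAt.continuousWithinAt
  have hFΦ : ∀ ζ ∈ ball (0:ℂ) 1, (Φ (a, ζ) - Φ (a, 0)) - F ζ = 0 := by
    apply eq_zero_of_exp_one (convex_ball (0:ℂ) 1).isPreconnected _ _ h0b
    · simp [hF0]
    · apply ContinuousOn.sub _ hFc
      apply ContinuousOn.sub _ continuousOn_const
      exact hΦc.comp (by fun_prop) (fun ζ hζ => ⟨ha, hζ⟩)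
    · intro ζ hζ
      rw [Complex.exp_sub, Complex.exp_sub, hΦe a ha ζ hζ, hΦe a ha 0 h0b, hFe ζ hζ]
      have h2 : qq β a 0 = 1 := by simp [qq]
      rw [h2, div_one, div_self (qq_ne h ha hζ)]
  have h1 := hTH a ha
  have h2 := hFΦ a ha
  have h3 : H a = F a := by linear_combination h2 - h1
  rw [h3]
  exact log_bound h ha hF hF0 hFe

end Pool.Agent.Helper39.Area

end
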