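import Pool.Agent.Helper96.ESX.B00

set_option autoImplicit false

/-! Copies of landed files, bundled to shorten the build: Helper84.EK.Rect, Helper84.EK.Map, Helper84.EK.E3b, Helper84.EK.E3bMain, Helper84.EK.E3bFinal, Helper70.EK.E3Core, Helper70.EK.E3Int, Helper97.EK.E3a, Helper70.EK.E3Pre, Helper83.EK.KOneOf, Helper83.EK.KOneD, Helper24.Br.Inj, Helper68.EKC.AuxU, Helper68.EKC.EnergyU, Helper68.EKC.E1aU, Helper68.EKC.E1bU, Helper68.EKC.E1dU, Helper6.EK.E2c, Helper5.EK.EntropyH, Helper73.EK.E2d, Helper48.EK.Diff, Helper5.EK.EntropyB, Helper93.EK.E2b, Helper5.EK.Entropy, Helper61.EK.GibbsCore, Helper26.EK.KfCont, Helper61.EK.Gibbs0, Helper61.EK.Gibbs -/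

section


set_option autoImplicit false
open Complex MeasureTheory Metric Set
open scoped Real ComplexConjugate

/-! Project EK: integrals over open rectangles of the complex plane, holomorphic change of
variables. -/

namespace Pool.Agent.Helper84.EK

theorem reProdIm_eq (x₁ x₂ y₁ y₂ : ℝ) : (measurableEquivRealProd.symm ⁻¹'
    (Ioo x₁ x₂ ×ℂ Ioo y₁ y₂) : Set (ℝ × ℝ)) = Ioo x₁ x₂ ×ˢ Ioo y₁ y₂ := by
  ext p
  simp [Complex.mem_reProdIm, Complex.measurableEquivRealProd]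

theorem equiv_apply (p : ℝ × ℝ) :
    measurableEquivRealProd.symm p = (p.1 : ℂ) + (p.2 : ℂ) * I := by
  apply Complex.ext <;> simp [Complex.measurableEquivRealProd]

theorem rect_integrable {x₁ x₂ y₁ y₂ : ℝ} {h : ℂ → ℝ} :
    IntegrableOn (fun p : ℝ × ℝ => h ((p.1 : ℂ) + (p.2 : ℂ) * I)) (Ioo x₁ x₂ ×ˢ Ioo y₁ y₂) ↔
      IntegrableOn h (Ioo x₁ x₂ ×ℂ Ioo y₁ y₂) := by
  have hm := Complex.volume_preserving_equiv_real_prod.symm
  have := hm.integrableOn_comp_preimage (f := h) measurableEquivRealProd.symm.measurableEmbedding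
    (s := Ioo x₁ x₂ ×ℂ Ioo y₁ y₂)
  rw [reProdIm_eq] at this
  rw [← this]
  have e : (h ∘ measurableEquivRealProd.symm) =
      fun p : ℝ × ℝ => h ((p.1 : ℂ) + (p.2 : ℂ) * I) := by
    funext p
    simp only [Function.comp_apply, equiv_apply]
  rw [e]

/-- Integral over an open rectangle as an iterated integral. -/
theorem rect_integral {x₁ x₂ y₁ y₂ : ℝ} (hx : x₁ ≤ x₂) (hy : y₁ ≤ y₂) {h : ℂ → ℝ}
    (hi : IntegrableOn h (Ioo x₁ x₂ ×ℂ Ioo y₁ y₂)) :
    ∫ s in Ioo x₁ x₂ ×ℂ Ioo y₁ y₂, h s =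
      ∫ ξ in x₁..x₂, ∫ η in y₁..y₂, h ((ξ : ℂ) + (η : ℂ) * I) := by
  have hm := Complex.volume_preserving_equiv_real_prod.symm
  have h1 := hm.setIntegral_preimage_emb measurableEquivRealProd.symm.measurableEmbedding h
    (Ioo x₁ x₂ ×ℂ Ioo y₁ y₂)
  rw [reProdIm_eq] at h1
  rw [← h1]
  simp only [equiv_apply]
  have h2 := rect_integrable.2 hi
  rw [Measure.volume_eq_prod] at h2 ⊢
  rw [setIntegral_prod _ h2, intervalIntegral.integral_of_le hx, integral_Ioc_eq_integral_Ioo]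
  refine setIntegral_congr_fun measurableSet_Ioo fun ξ _ => ?_
  simp only
  rw [intervalIntegral.integral_of_le hy, integral_Ioc_eq_integral_Ioo]

theorem det_mul (b : ℂ) : (b • (1 : ℂ →L[ℝ] ℂ)).det = ‖b‖ ^ 2 := by
  have h1 : Algebra.norm ℝ b = Complex.normSq b := by
    rw [Algebra.norm_complex_eq]
    rfl
  rw [← Complex.normSq_eq_norm_sq, ← h1, Algebra.norm_apply]
  rfl

/-- Change of variables for an injective holomorphic map. -/
theorem cov {S : Set ℂ} (hS : MeasurableSet S) {Φ D : ℂ → ℂ} (hd : ∀ s ∈ S, HasDerivAt Φ (D s) s)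
    (hi : InjOn Φ S) (g : ℂ → ℝ) :
    ∫ ω in Φ '' S, g ω = ∫ s in S, ‖D s‖ ^ 2 * g (Φ s) := by
  rw [integral_image_eq_integral_abs_det_fderiv_smul volume hS
    (f' := fun s => D s • (1 : ℂ →L[ℝ] ℂ))
    (fun s hs => ((hd s hs).complexToReal_fderiv).hasFDerivWithinAt) hi]
  refine setIntegral_congr_fun hS fun s _ => ?_
  show |(D s • (1 : ℂ →L[ℝ] ℂ)).det| • g (Φ s) = ‖D s‖ ^ 2 * g (Φ s)
  rw [det_mul, abs_of_nonneg (by positivity), smul_eq_mul]

end Pool.Agent.Helper84.EK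

end

section


set_option autoImplicit false
open Complex MeasureTheory Metric Set
open scoped Real ComplexConjugate

/-! Project EK, E3b: the map from `t + i θ` to the strip coordinate. -/

namespace Pool.Agent.Helper84.EK

open Pool.Agent.Helper52.EK

theorem one_add_ne {z : ℂ} (hz : ‖z‖ < 1) : 1 + z ≠ 0 := by
  intro h
  have h1 : z = -1 := by linear_combination h
  rw [h1] at hz
  simp at hz

theorem one_sub_ne {z : ℂ} (hz : ‖z‖ < 1) : 1 - z ≠ 0 := by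
  intro h
  have h1 : z = 1 := by linear_combination -h
  rw [h1] at hz
  simp at hz

theorem cay_im {z : ℂ} (hz : ‖z‖ < 1) :
    (I * (1 - z) / (1 + z)).im = (1 - ‖z‖ ^ 2) / ‖1 + z‖ ^ 2 := by
  rw [← Complex.normSq_eq_norm_sq, ← Complex.normSq_eq_norm_sq]
  rw [Complex.div_im, Complex.normSq_apply, Complex.normSq_apply]
  have h : (1 + z).re * (1 + z).re + (1 + z).im * (1 + z).im ≠ 0 := by
    rw [← Complex.normSq_apply]
    exact fun h => one_add_ne hz (Complex.normSq_eq_zero.1 h)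
  field_simp
  simp
  ring

theorem cay_im_pos {z : ℂ} (hz : ‖z‖ < 1) : 0 < (I * (1 - z) / (1 + z)).im := by
  rw [cay_im hz]
  have h1 : 0 < ‖1 + z‖ := norm_pos_iff.2 (one_add_ne hz)
  have h2 : 0 < 1 - ‖z‖ ^ 2 := by nlinarith [norm_nonneg z]
  positivity

theorem cay_sub {z : ℂ} (hz : ‖z‖ < 1) :
    ‖I * (1 - z) / (1 + z) - I‖ = 2 * ‖z‖ / ‖1 + z‖ := by
  have h := one_add_ne hz
  have h1 : I * (1 - z) / (1 + z) - I = -(2 * I) * z / (1 + z) := by
    field_simp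
    ring
  rw [h1, norm_div, norm_mul, norm_neg, norm_mul, Complex.norm_I, Complex.norm_ofNat]
  ring

theorem cay_add {z : ℂ} (hz : ‖z‖ < 1) :
    ‖I * (1 - z) / (1 + z) + I‖ = 2 / ‖1 + z‖ := by
  have h := one_add_ne hz
  have h1 : I * (1 - z) / (1 + z) + I = 2 * I / (1 + z) := by
    field_simp
    ring
  rw [h1, norm_div, norm_mul, Complex.norm_I, Complex.norm_ofNat, mul_one]

/-- `Z` as a function of `s = t + i θ`. -/
noncomputable def Zs (s : ℂ) : ℂ := I * (1 - Complex.exp s) / (1 + Complex.exp s)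

/-- `ω` as a function of `s`. -/
noncomputable def Om (s : ℂ) : ℂ := Complex.log (Zs s)

/-- the derivative of `Om` -/
noncomputable def Dm (s : ℂ) : ℂ :=
  -(2 * Complex.exp s) / ((1 + Complex.exp s) * (1 - Complex.exp s))

theorem norm_exp_lt {s : ℂ} (hs : s.re < 0) : ‖Complex.exp s‖ < 1 := by
  rw [Complex.norm_exp]
  exact Real.exp_lt_one_iff.2 hs

theorem Zs_im_pos {s : ℂ} (hs : s.re < 0) : 0 < (Zs s).im := cay_im_pos (norm_exp_lt hs)

theorem Zs_ne {s : ℂ} (hs : s.re < 0) : Zs s ≠ 0 := by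
  intro h
  have := Zs_im_pos hs
  rw [h] at this
  exact lt_irrefl _ this

theorem exp_Om {s : ℂ} (hs : s.re < 0) : Complex.exp (Om s) = Zs s := Complex.exp_log (Zs_ne hs)

theorem zf_Om {s : ℂ} (hs : s.re < 0) : zf (Om s) = Complex.exp s := by
  unfold zf
  rw [exp_Om hs]
  unfold Zs
  have h := one_add_ne (norm_exp_lt hs)
  have hI := Complex.I_ne_zero
  have h1 : I - I * (1 - Complex.exp s) / (1 + Complex.exp s) =
      2 * I * Complex.exp s / (1 + Complex.exp s) := by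
    field_simp
    ring
  have h2 : I + I * (1 - Complex.exp s) / (1 + Complex.exp s) =
      2 * I / (1 + Complex.exp s) := by
    field_simp
    ring
  rw [h1, h2]
  field_simp

theorem Om_im {s : ℂ} (hs : s.re < 0) : 0 < (Om s).im ∧ (Om s).im < π := by
  unfold Om
  rw [Complex.log_im]
  have h := Zs_im_pos hs
  constructor
  · refine lt_of_le_of_ne (Complex.arg_nonneg_iff.2 h.le) fun h0 => ?_
    have := (Complex.arg_eq_zero_iff.1 h0.symm).2
    exact absurd this h.ne'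
  · refine lt_of_le_of_ne (Complex.arg_le_pi _) fun h0 => ?_
    have := (Complex.arg_eq_pi_iff.1 h0).2
    exact absurd this h.ne'

theorem hasDerivAt_Om {s : ℂ} (hs : s.re < 0) : HasDerivAt Om (Dm s) s := by
  have h1 := one_add_ne (norm_exp_lt hs)
  have h2 := one_sub_ne (norm_exp_lt hs)
  have hI := Complex.I_ne_zero
  have hnum : HasDerivAt (fun s => I * (1 - Complex.exp s)) (I * (-Complex.exp s)) s := by
    have := ((Complex.hasDerivAt_exp s).const_sub 1).const_mul I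
    simpa using this
  have hden : HasDerivAt (fun s => 1 + Complex.exp s) (Complex.exp s) s := by
    simpa using (Complex.hasDerivAt_exp s).const_add 1
  have h3 : HasDerivAt Zs ((I * (-Complex.exp s) * (1 + Complex.exp s) -
      I * (1 - Complex.exp s) * Complex.exp s) / (1 + Complex.exp s) ^ 2) s := hnum.div hden h1
  have h4 : Zs s ∈ slitPlane := by
    rw [Complex.mem_slitPlane_iff]
    exact Or.inr (Zs_im_pos hs).ne'
  have h5 := h3.clog h4
  have h6 : (I * (-Complex.exp s) * (1 + Complex.exp s) -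
      I * (1 - Complex.exp s) * Complex.exp s) / (1 + Complex.exp s) ^ 2 / Zs s = Dm s := by
    unfold Zs Dm
    field_simp
    ring
  rw [h6] at h5
  exact h5

theorem Om_inj {t₂ : ℝ} (ht : t₂ ≤ 0) : InjOn Om (Ioo (-1) t₂ ×ℂ Ioo (-π) π) := by
  intro s hs s' hs' h
  rw [Complex.mem_reProdIm] at hs hs'
  have h1 : s.re < 0 := hs.1.2.trans_le ht
  have h2 : s'.re < 0 := hs'.1.2.trans_le ht
  have h3 : Complex.exp s = Complex.exp s' := by
    rw [← zf_Om h1, ← zf_Om h2, h]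
  exact Complex.exp_inj_of_neg_pi_lt_of_le_pi hs.2.1 hs.2.2.le hs'.2.1 hs'.2.2.le h3

end Pool.Agent.Helper84.EK

end

section


set_option autoImplicit false
open Complex MeasureTheory Metric Set
open scoped Real ComplexConjugate

/-! Project EK, E3b: change of variables from the disc to the strip. -/

namespace Pool.Agent.Helper84.EK

open Pool.Agent.Helper52.EK

/-- the loss -/
noncomputable def TT (w : ℂ → ℂ) (z : ℂ) : ℝ := ‖ee 1 z - w z‖ ^ 2

theorem TT_nonneg (w : ℂ → ℂ) (z : ℂ) : 0 ≤ TT w z := sq_nonneg _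

theorem norm_ee {z : ℂ} (hz : ‖z‖ < 1) : ‖ee 1 z‖ = 1 := by
  unfold ee
  rw [norm_div, mul_one]
  have h : ‖1 - conj z‖ = ‖1 - z‖ := by
    rw [← Complex.norm_conj, map_sub, map_one, Complex.conj_conj]
  rw [h, div_self (norm_ne_zero_iff.2 (one_sub_ne hz))]

theorem TT_le {w : ℂ → ℂ} (hw : ∀ z, ‖w z‖ ≤ 1) {z : ℂ} (hz : ‖z‖ < 1) : TT w z ≤ 4 := by
  unfold TT
  have h := norm_sub_le (ee 1 z) (w z)
  rw [norm_ee hz] at h
  have h1 := hw z
  have h2 := norm_nonneg (ee 1 z - w z)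
  nlinarith

theorem ee_cont : ContinuousOn (ee 1) (ball (0:ℂ) 1) := by
  unfold ee
  refine ContinuousOn.div ?_ ?_ fun z hz => one_sub_ne (mem_ball_zero_iff.1 hz)
  · exact (continuous_const.sub (Complex.continuous_conj.mul continuous_const)).continuousOn
  · exact (continuous_const.sub continuous_id).continuousOn

theorem TT_cont {w : ℂ → ℂ} (hw : ContinuousOn w {z | 0 < ‖z‖ ∧ ‖z‖ < 1}) :
    ContinuousOn (TT w) {z | 0 < ‖z‖ ∧ ‖z‖ < 1} := by
  unfold TT
  exact ((ee_cont.mono fun z hz => mem_ball_zero_iff.2 hz.2).sub hw).norm.pow 2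

/-- the integrand in the coordinate `s = t + i θ` -/
noncomputable def hh (w : ℂ → ℂ) (t₂ : ℝ) (s : ℂ) : ℝ :=
  (t₂ - s.re) * Pk 1 (Complex.exp s) * TT w (Complex.exp s) / Real.sinh s.re ^ 2

/-- the integrand in the strip -/
noncomputable def GG (w : ℂ → ℂ) (t₂ : ℝ) (ω : ℂ) : ℝ :=
  (t₂ - Real.log ‖zf ω‖) / (Complex.exp ω).im * TT w (zf ω)

theorem hh_eq (w : ℂ → ℂ) {t₂ : ℝ} {s : ℂ} (hs : s.re < 0) :
    ‖Dm s‖ ^ 2 * GG w t₂ (Om s) = hh w t₂ s := by
  have hz := norm_exp_lt hs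
  have h1 : ‖1 + Complex.exp s‖ ≠ 0 := norm_ne_zero_iff.2 (one_add_ne hz)
  have h2 : ‖1 - Complex.exp s‖ ≠ 0 := norm_ne_zero_iff.2 (one_sub_ne hz)
  have hr : ‖Complex.exp s‖ = Real.exp s.re := Complex.norm_exp s
  have hr0 : 0 < Real.exp s.re := Real.exp_pos _
  have h3 : 1 - Real.exp s.re ^ 2 ≠ 0 := by
    rw [← hr]
    nlinarith [norm_nonneg (Complex.exp s)]
  have hsinh : Real.sinh s.re ^ 2 = (1 - Real.exp s.re ^ 2) ^ 2 / (4 * Real.exp s.re ^ 2) := by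
    rw [Real.sinh_eq, Real.exp_neg]
    field_simp
    ring
  unfold GG hh Pk Dm
  rw [zf_Om hs, exp_Om hs]
  have h4 : (Zs s).im = (1 - ‖Complex.exp s‖ ^ 2) / ‖1 + Complex.exp s‖ ^ 2 := cay_im hz
  rw [h4, hsinh, norm_div, norm_neg, norm_mul, norm_mul, Complex.norm_ofNat, hr, Real.log_exp]
  field_simp
  ring

theorem hh_cont {w : ℂ → ℂ} (hw : ContinuousOn w {z | 0 < ‖z‖ ∧ ‖z‖ < 1}) (t₂ : ℝ) :
    ContinuousOn (hh w t₂) {s | s.re < 0} := by
  have hexp : ContinuousOn Complex.exp {s : ℂ | s.re < 0} := Complex.continuous_exp.continuousOn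
  have hmap : MapsTo Complex.exp {s : ℂ | s.re < 0} {z | 0 < ‖z‖ ∧ ‖z‖ < 1} := fun s hs =>
    ⟨norm_pos_iff.2 (Complex.exp_ne_zero s), norm_exp_lt hs⟩
  have hT : ContinuousOn (fun s => TT w (Complex.exp s)) {s : ℂ | s.re < 0} :=
    (TT_cont hw).comp hexp hmap
  have hP : ContinuousOn (fun s => Pk 1 (Complex.exp s)) {s : ℂ | s.re < 0} := by
    unfold Pk
    refine ContinuousOn.div ?_ ?_ fun s hs => ?_
    · exact (continuous_const.sub (Complex.continuous_exp.norm.pow 2)).continuousOn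
    · exact ((continuous_const.sub Complex.continuous_exp).norm.pow 2).continuousOn
    · exact pow_ne_zero 2 (norm_ne_zero_iff.2 (one_sub_ne (norm_exp_lt hs)))
  unfold hh
  refine ContinuousOn.div ((ContinuousOn.mul ?_ hP).mul hT) ?_ fun s hs => ?_
  · exact (continuous_const.sub Complex.continuous_re).continuousOn
  · exact ((Real.continuous_sinh.comp Complex.continuous_re).pow 2).continuousOn
  · refine pow_ne_zero 2 fun h => ?_
    exact (ne_of_lt hs) (Real.sinh_eq_zero.1 h)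

theorem hh_int {w : ℂ → ℂ} (hw : ContinuousOn w {z | 0 < ‖z‖ ∧ ‖z‖ < 1}) {t₂ : ℝ} (h2 : t₂ < 0) :
    IntegrableOn (hh w t₂) (Ioo (-1) t₂ ×ℂ Ioo (-π) π) := by
  have hc : IsCompact (Icc (-1) t₂ ×ℂ Icc (-π) π : Set ℂ) := isCompact_Icc.reProdIm isCompact_Icc
  have h1 : ContinuousOn (hh w t₂) (Icc (-1) t₂ ×ℂ Icc (-π) π) :=
    (hh_cont hw t₂).mono fun s hs => (Complex.mem_reProdIm.1 hs).1.2.trans_lt h2
  refine (h1.integrableOn_compact hc).mono_set fun s hs => ?_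
  rw [Complex.mem_reProdIm] at hs ⊢
  exact ⟨Ioo_subset_Icc_self hs.1, Ioo_subset_Icc_self hs.2⟩

/-- `Kf` as an integral in the strip. -/
theorem Kf_eq {w : ℂ → ℂ} (hw : ContinuousOn w {z | 0 < ‖z‖ ∧ ‖z‖ < 1}) {t₂ : ℝ}
    (h1 : -1 < t₂) (h2 : t₂ < 0) :
    Kf w 1 (-1) t₂ = (2 * π)⁻¹ * ∫ ω in Om '' (Ioo (-1) t₂ ×ℂ Ioo (-π) π), GG w t₂ ω := by
  have hS : MeasurableSet (Ioo (-1) t₂ ×ℂ Ioo (-π) π : Set ℂ) :=
    (isOpen_Ioo.reProdIm isOpen_Ioo).measurableSet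
  have hneg : ∀ s ∈ (Ioo (-1) t₂ ×ℂ Ioo (-π) π : Set ℂ), s.re < 0 := fun s hs =>
    (Complex.mem_reProdIm.1 hs).1.2.trans h2
  rw [cov hS (fun s hs => hasDerivAt_Om (hneg s hs)) (Om_inj h2.le)]
  rw [setIntegral_congr_fun hS fun s hs => hh_eq w (hneg s hs)]
  rw [rect_integral h1.le (by linarith [Real.pi_pos]) (hh_int hw h2)]
  unfold Kf hh ep TT
  congr 1
  refine intervalIntegral.integral_congr fun t _ => ?_
  refine intervalIntegral.integral_congr fun θ _ => ?_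
  simp

end Pool.Agent.Helper84.EK

end

section


set_option autoImplicit false
open Complex MeasureTheory Metric Set
open scoped Real ComplexConjugate

/-! Project EK, E3b: the bounds in the strip and the conclusion. -/

namespace Pool.Agent.Helper84.EK

open Pool.Agent.Helper52.EK

/-- The weight. -/
theorem GG_le {w : ℂ → ℂ} {t₂ : ℝ} (h2 : t₂ ≤ 0) {s : ℂ} (hs : s.re < 0) :
    (2 * π)⁻¹ * GG w t₂ (Om s) ≤ π⁻¹ * TT w (Complex.exp s) / ‖Zs s - I‖ ^ 2 := by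
  have hz := norm_exp_lt hs
  have h1 : 0 < ‖1 + Complex.exp s‖ := norm_pos_iff.2 (one_add_ne hz)
  have hr : ‖Complex.exp s‖ = Real.exp s.re := Complex.norm_exp s
  have hr0 : 0 < Real.exp s.re := Real.exp_pos _
  have h3 : 0 < 1 - Real.exp s.re ^ 2 := by
    rw [← hr]
    nlinarith [norm_nonneg (Complex.exp s)]
  have h4 : (Zs s).im = (1 - ‖Complex.exp s‖ ^ 2) / ‖1 + Complex.exp s‖ ^ 2 := cay_im hz
  have h5 : ‖Zs s - I‖ = 2 * ‖Complex.exp s‖ / ‖1 + Complex.exp s‖ := cay_sub hz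
  have hlog : Real.exp s.re ^ 2 * (-2 * s.re) ≤ 1 - Real.exp s.re ^ 2 := by
    have h6 := Real.add_one_le_exp (-2 * s.re)
    have h7 : Real.exp s.re ^ 2 * Real.exp (-2 * s.re) = 1 := by
      rw [← Real.exp_nat_mul, ← Real.exp_add]
      simp
    nlinarith [pow_pos hr0 2]
  unfold GG
  rw [zf_Om hs, exp_Om hs, h4, h5, hr, Real.log_exp]
  have hT := TT_nonneg w (Complex.exp s)
  have hpi := Real.pi_pos
  have e1 : (2 * π)⁻¹ * ((t₂ - s.re) / ((1 - Real.exp s.re ^ 2) / ‖1 + Complex.exp s‖ ^ 2) *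
      TT w (Complex.exp s)) = (t₂ - s.re) * (‖1 + Complex.exp s‖ ^ 2 * TT w (Complex.exp s) /
        (2 * π * (1 - Real.exp s.re ^ 2))) := by
    field_simp
  have e2 : π⁻¹ * TT w (Complex.exp s) / (2 * Real.exp s.re / ‖1 + Complex.exp s‖) ^ 2 =
      ((1 - Real.exp s.re ^ 2) / (2 * Real.exp s.re ^ 2)) *
        (‖1 + Complex.exp s‖ ^ 2 * TT w (Complex.exp s) /
        (2 * π * (1 - Real.exp s.re ^ 2))) := by
    field_simp
  rw [e1, e2]
  refine mul_le_mul_of_nonneg_right ?_ (by positivity)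
  rw [le_div_iff₀ (by positivity)]
  nlinarith [pow_pos hr0 2]

theorem GG_nonneg {w : ℂ → ℂ} {t₂ : ℝ} {s : ℂ} (hs : s.re < 0) (h : s.re ≤ t₂) :
    0 ≤ GG w t₂ (Om s) := by
  unfold GG
  rw [zf_Om hs, exp_Om hs, Complex.norm_exp, Real.log_exp]
  exact mul_nonneg (div_nonneg (by linarith) (Zs_im_pos hs).le) (TT_nonneg _ _)

/-- The real part of the image. -/
theorem exp_Om_re {s : ℂ} (hs : s.re < 0) : Real.exp (Om s).re = ‖Zs s‖ := by
  rw [← Complex.norm_exp, exp_Om hs]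

theorem inv_sq_bound {x : ℝ} (h0 : 0 ≤ x) (h : x ≤ 37 / 100) :
    1 / (1 - x) ^ 2 ≤ 1 + 6 * x := by
  rw [div_le_iff₀ (by nlinarith)]
  nlinarith [mul_nonneg h0 h0, mul_nonneg h0 (mul_nonneg h0 h0),
    mul_nonneg h0 (sub_nonneg.2 h)]

theorem exp_neg_one_le : Real.exp (-1) ≤ 37 / 100 := by
  have := Real.exp_neg_one_lt_d9
  linarith

/-- Region `ξ ≤ -1`. -/
theorem bound_small {w : ℂ → ℂ} (hw : ∀ z, ‖w z‖ ≤ 1) {t₂ : ℝ} (h2 : t₂ ≤ 0) {s : ℂ}
    (hs : s.re < 0) (h : (Om s).re ≤ -1) :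
    (2 * π)⁻¹ * GG w t₂ (Om s) ≤ π⁻¹ * TT w (Complex.exp s) + 8 * Real.exp (Om s).re := by
  have h1 := GG_le (w := w) h2 hs
  have hT := TT_nonneg w (Complex.exp s)
  have hT4 := TT_le hw (norm_exp_lt hs)
  set x := Real.exp (Om s).re with hx
  have hx0 : 0 < x := Real.exp_pos _
  have hx1 : x ≤ 37 / 100 := (Real.exp_le_exp.2 h).trans exp_neg_one_le
  have h3 : 1 - x ≤ ‖Zs s - I‖ := by
    have h4 := norm_sub_norm_le I (Zs s)
    rw [Complex.norm_I, ← exp_Om_re hs, norm_sub_rev] at h4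
    exact h4
  have h5 : π⁻¹ * TT w (Complex.exp s) / ‖Zs s - I‖ ^ 2 ≤
      π⁻¹ * TT w (Complex.exp s) * (1 / (1 - x) ^ 2) := by
    rw [div_eq_mul_one_div]
    refine mul_le_mul_of_nonneg_left ?_ (by positivity)
    refine one_div_le_one_div_of_le (by nlinarith) ?_
    exact pow_le_pow_left₀ (by linarith) h3 2
  have h6 := inv_sq_bound hx0.le hx1
  have h7 : π⁻¹ * TT w (Complex.exp s) * (1 / (1 - x) ^ 2) ≤
      π⁻¹ * TT w (Complex.exp s) * (1 + 6 * x) := mul_le_mul_of_nonneg_left h6 (by positivity)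
  have h8 : π⁻¹ ≤ 1 / 3 := by
    rw [← one_div]
    exact one_div_le_one_div_of_le (by norm_num) Real.pi_gt_three.le
  have h9 : π⁻¹ * TT w (Complex.exp s) ≤ 4 / 3 := by
    calc π⁻¹ * TT w (Complex.exp s) ≤ 1 / 3 * 4 :=
          mul_le_mul h8 hT4 hT (by norm_num)
      _ = 4 / 3 := by norm_num
  have h10 : π⁻¹ * TT w (Complex.exp s) * (1 + 6 * x) ≤ π⁻¹ * TT w (Complex.exp s) + 8 * x := by
    nlinarith
  linarith

/-- Lower bound of `ξ`. -/
theorem re_lower {a : ℝ} (h0 : 0 < a) (h1 : a < 1) {s : ℂ} (hs : s.re < 0)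
    (hsa : s.re ≤ Real.log a) (h : (Om s).re ≤ -1) : Real.log (tau a) - 3 ≤ (Om s).re := by
  have hz := norm_exp_lt hs
  have hza : ‖Complex.exp s‖ ≤ a := by
    rw [Complex.norm_exp]
    calc Real.exp s.re ≤ Real.exp (Real.log a) := Real.exp_le_exp.2 hsa
      _ = a := Real.exp_log h0
  set x := Real.exp (Om s).re with hx
  have hx0 : 0 < x := Real.exp_pos _
  have hx1 : x ≤ 37 / 100 := (Real.exp_le_exp.2 h).trans exp_neg_one_le
  have hxZ : x = ‖Zs s‖ := exp_Om_re hs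
  have h3 : 1 - x ≤ ‖Zs s + I‖ := by
    have h4 := norm_sub_norm_le I (-Zs s)
    rw [Complex.norm_I, norm_neg, ← hxZ, sub_neg_eq_add, add_comm] at h4
    exact h4
  have h5 : (Zs s).im = (1 - ‖Complex.exp s‖ ^ 2) / ‖1 + Complex.exp s‖ ^ 2 := cay_im hz
  have h6 : ‖Zs s + I‖ = 2 / ‖1 + Complex.exp s‖ := cay_add hz
  have h7 : 0 < ‖1 + Complex.exp s‖ := norm_pos_iff.2 (one_add_ne hz)
  have h8 : 4 * (Zs s).im = (1 - ‖Complex.exp s‖ ^ 2) * ‖Zs s + I‖ ^ 2 := by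
    rw [h5, h6]
    field_simp
    ring
  have h9 : (Zs s).im ≤ x := by
    rw [hxZ]
    exact (le_abs_self _).trans (Complex.abs_im_le_norm _)
  have h10 : tau a ≤ 1 - a ^ 2 := by
    unfold tau
    rw [div_le_iff₀ (by linarith)]
    nlinarith [mul_pos h0 h0, mul_nonneg (sub_nonneg.2 h1.le) h0.le,
      mul_nonneg (mul_nonneg (sub_nonneg.2 h1.le) h0.le) h0.le]
  have h11 : 0 < tau a := by
    unfold tau
    exact div_pos (by linarith) (by linarith)
  have h12 : 1 - a ^ 2 ≤ 1 - ‖Complex.exp s‖ ^ 2 := by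
    nlinarith [norm_nonneg (Complex.exp s)]
  have h13 : (63 / 100) ^ 2 ≤ ‖Zs s + I‖ ^ 2 := pow_le_pow_left₀ (by norm_num) (by linarith) 2
  have h14 : tau a * (63 / 100) ^ 2 ≤ 4 * x := by
    calc tau a * (63 / 100) ^ 2 ≤ (1 - ‖Complex.exp s‖ ^ 2) * ‖Zs s + I‖ ^ 2 :=
          mul_le_mul (h10.trans h12) h13 (by positivity) (by nlinarith)
      _ = 4 * (Zs s).im := h8.symm
      _ ≤ 4 * x := by linarith
  have h15 : Real.exp (-3) ≤ (37 / 100) ^ 3 := by
    have : Real.exp (-3) = Real.exp (-1) ^ 3 := by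
      rw [← Real.exp_nat_mul]
      norm_num
    rw [this]
    exact pow_le_pow_left₀ (Real.exp_pos _).le exp_neg_one_le 3
  have h16 : Real.exp (Real.log (tau a) - 3) ≤ x := by
    rw [sub_eq_add_neg, Real.exp_add, Real.exp_log h11]
    nlinarith
  exact Real.exp_le_exp.1 h16

/-- Region `-A < ξ`. -/
theorem bound_large {w : ℂ → ℂ} (hw : ∀ z, ‖w z‖ ≤ 1) {t₂ : ℝ} (h2 : t₂ ≤ 0) {s : ℂ}
    (hs : s.re < 0) (h : -1 ≤ s.re) :
    (2 * π)⁻¹ * GG w t₂ (Om s) ≤ 12 / (1 + Real.exp (Om s).re ^ 2) := by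
  have h1 := GG_le (w := w) h2 hs
  have hT := TT_nonneg w (Complex.exp s)
  have hz := norm_exp_lt hs
  have hT4 := TT_le hw hz
  set x := Real.exp (Om s).re with hx
  have hx0 : 0 < x := Real.exp_pos _
  have hxZ : x = ‖Zs s‖ := exp_Om_re hs
  have h6 : ‖Zs s + I‖ = 2 / ‖1 + Complex.exp s‖ := cay_add hz
  have h7 : 0 < ‖1 + Complex.exp s‖ := norm_pos_iff.2 (one_add_ne hz)
  have h5 : ‖Zs s - I‖ = 2 * ‖Complex.exp s‖ / ‖1 + Complex.exp s‖ := cay_sub hz
  have h8 : ‖Zs s - I‖ = ‖Complex.exp s‖ * ‖Zs s + I‖ := by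
    rw [h5, h6]
    ring
  have h9 : 1 + x ^ 2 ≤ ‖Zs s + I‖ ^ 2 := by
    rw [hxZ, ← Complex.normSq_eq_norm_sq, ← Complex.normSq_eq_norm_sq, Complex.normSq_apply,
      Complex.normSq_apply]
    have := Zs_im_pos hs
    simp only [Complex.add_re, Complex.add_im, Complex.I_re, Complex.I_im, add_zero]
    nlinarith
  have h10 : Real.exp (-2) ≤ ‖Complex.exp s‖ ^ 2 := by
    rw [Complex.norm_exp, ← Real.exp_nat_mul]
    refine Real.exp_le_exp.2 ?_
    push_cast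
    linarith
  have h11 : Real.exp (-2) * (1 + x ^ 2) ≤ ‖Zs s - I‖ ^ 2 := by
    rw [h8, mul_pow]
    exact mul_le_mul h10 h9 (by positivity) (by positivity)
  have h12 : Real.exp 2 ≤ 8 := by
    have h13 : Real.exp 2 = Real.exp 1 ^ 2 := by
      rw [← Real.exp_nat_mul]
      norm_num
    have h14 := Real.exp_one_lt_d9
    rw [h13]
    nlinarith [Real.exp_pos 1]
  have h8' : π⁻¹ ≤ 1 / 3 := by
    rw [← one_div]
    exact one_div_le_one_div_of_le (by norm_num) Real.pi_gt_three.le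
  have h9' : π⁻¹ * TT w (Complex.exp s) ≤ 4 / 3 := by
    calc π⁻¹ * TT w (Complex.exp s) ≤ 1 / 3 * 4 :=
          mul_le_mul h8' hT4 hT (by norm_num)
      _ = 4 / 3 := by norm_num
  refine h1.trans ?_
  calc π⁻¹ * TT w (Complex.exp s) / ‖Zs s - I‖ ^ 2
      ≤ π⁻¹ * TT w (Complex.exp s) / (Real.exp (-2) * (1 + x ^ 2)) :=
        div_le_div_of_nonneg_left (by positivity) (by positivity) h11
    _ ≤ 4 / 3 / (Real.exp (-2) * (1 + x ^ 2)) :=
        div_le_div_of_nonneg_right h9' (by positivity)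
    _ = 4 / 3 * Real.exp 2 / (1 + x ^ 2) := by
        rw [Real.exp_neg]
        field_simp
    _ ≤ 12 / (1 + x ^ 2) := by
        refine div_le_div_of_nonneg_right ?_ (by positivity)
        linarith

end Pool.Agent.Helper84.EK

end

section


set_option autoImplicit false
open Complex MeasureTheory Metric Set
open scoped Real ComplexConjugate

/-! Project EK, E3b: conclusion. -/

namespace Pool.Agent.Helper84.EK

open Pool.Agent.Helper52.EK

theorem prod_fun {f g : ℝ → ℝ} (hf : Integrable f) (hg : Integrable g) :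
    Integrable (fun ω : ℂ => f ω.re * g ω.im) ∧
      ∫ ω : ℂ, f ω.re * g ω.im = (∫ x, f x) * ∫ y, g y := by
  have hm := Complex.volume_preserving_equiv_real_prod
  have he : (fun ω : ℂ => f ω.re * g ω.im) =
      (fun p : ℝ × ℝ => f p.1 * g p.2) ∘ measurableEquivRealProd := by
    funext ω
    simp [Complex.measurableEquivRealProd]
  constructor
  · rw [he, hm.integrable_comp_emb measurableEquivRealProd.measurableEmbedding]
    exact hf.mul_prod hg
  · have h1 := hm.integral_comp measurableEquivRealProd.measurableEmbedding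
      (fun p : ℝ × ℝ => f p.1 * g p.2)
    have h2 : ∫ ω : ℂ, f ω.re * g ω.im =
        ∫ ω : ℂ, (fun p : ℝ × ℝ => f p.1 * g p.2) (measurableEquivRealProd ω) := by
      refine integral_congr_ae (Filter.Eventually.of_forall fun ω => ?_)
      simp [Complex.measurableEquivRealProd]
    rw [h2, h1, Measure.volume_eq_prod, integral_prod_mul]

/-- the dominating function -/
noncomputable def bb (K L₁ L₂ ξ : ℝ) : ℝ :=
  K * ((Icc L₁ L₂).indicator (fun _ => (1:ℝ)) ξ + (1 + ξ ^ 2)⁻¹)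

theorem bb_int (K : ℝ) {L₁ L₂ : ℝ} (h : L₁ ≤ L₂) :
    Integrable (bb K L₁ L₂) ∧ ∫ ξ, bb K L₁ L₂ ξ = K * ((L₂ - L₁) + π) := by
  have h1 : Integrable ((Icc L₁ L₂).indicator (fun _ => (1:ℝ))) :=
    (integrable_indicator_iff measurableSet_Icc).2 (integrableOn_const (by simp))
  have h2 : Integrable (fun ξ : ℝ => (1 + ξ ^ 2)⁻¹) := integrable_inv_one_add_sq
  constructor
  · exact (h1.add h2).const_mul K
  · unfold bb
    rw [integral_const_mul, integral_add h1 h2, integral_indicator measurableSet_Icc,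
      integral_univ_inv_one_add_sq]
    simp [h]

theorem zf_mem {ω : ℂ} (h : ω.re < 0) (h0 : 0 < ω.im) (h1 : ω.im < π) :
    I + Complex.exp ω ≠ 0 ∧ 0 < ‖zf ω‖ ∧ ‖zf ω‖ < 1 := by
  have hY : 0 < (Complex.exp ω).im := by
    rw [Complex.exp_im]
    exact mul_pos (Real.exp_pos _) (Real.sin_pos_of_pos_of_lt_pi h0 h1)
  have hne : I + Complex.exp ω ≠ 0 := by
    intro h2
    have := congrArg Complex.im h2
    simp only [Complex.add_im, Complex.I_im, Complex.zero_im] at this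
    linarith
  have hne2 : I - Complex.exp ω ≠ 0 := by
    intro h2
    have h3 : Complex.exp ω = I := by linear_combination -h2
    have h4 := norm_exp_lt h
    rw [h3, Complex.norm_I] at h4
    exact lt_irrefl _ h4
  refine ⟨hne, ?_, ?_⟩
  · unfold zf
    exact norm_pos_iff.2 (div_ne_zero hne2 hne)
  · unfold zf
    rw [norm_div, div_lt_one (norm_pos_iff.2 hne)]
    refine lt_of_pow_lt_pow_left₀ 2 (norm_nonneg _) ?_
    rw [← Complex.normSq_eq_norm_sq, ← Complex.normSq_eq_norm_sq, Complex.normSq_apply,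
      Complex.normSq_apply]
    simp only [Complex.add_re, Complex.add_im, Complex.sub_re, Complex.sub_im, Complex.I_re,
      Complex.I_im]
    nlinarith

theorem TTzf_int {w : ℂ → ℂ} (hw : ContinuousOn w {z | 0 < ‖z‖ ∧ ‖z‖ < 1})
    (hw1 : ∀ z, ‖w z‖ ≤ 1) {x₁ x₂ : ℝ} (h2 : x₂ ≤ 0) :
    IntegrableOn (fun ω => TT w (zf ω)) (Ioo x₁ x₂ ×ℂ Ioo 0 π) := by
  have hS : MeasurableSet (Ioo x₁ x₂ ×ℂ Ioo 0 π : Set ℂ) :=
    (isOpen_Ioo.reProdIm isOpen_Ioo).measurableSet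
  have hmem : ∀ ω ∈ (Ioo x₁ x₂ ×ℂ Ioo 0 π : Set ℂ),
      I + Complex.exp ω ≠ 0 ∧ 0 < ‖zf ω‖ ∧ ‖zf ω‖ < 1 := fun ω hω => by
    rw [Complex.mem_reProdIm] at hω
    exact zf_mem (hω.1.2.trans_le h2) hω.2.1 hω.2.2
  have hzc : ContinuousOn zf (Ioo x₁ x₂ ×ℂ Ioo 0 π : Set ℂ) := by
    unfold zf
    refine ContinuousOn.div ?_ ?_ fun ω hω => (hmem ω hω).1
    · exact (continuous_const.sub Complex.continuous_exp).continuousOn
    · exact (continuous_const.add Complex.continuous_exp).continuousOn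
  have hc : ContinuousOn (fun ω => TT w (zf ω)) (Ioo x₁ x₂ ×ℂ Ioo 0 π : Set ℂ) :=
    (TT_cont hw).comp hzc fun ω hω => (hmem ω hω).2
  have hfin : volume (Ioo x₁ x₂ ×ℂ Ioo 0 π : Set ℂ) ≠ ⊤ := by
    have h3 : (Ioo x₁ x₂ ×ℂ Ioo 0 π : Set ℂ) ⊆ Icc x₁ x₂ ×ℂ Icc 0 π := fun ω hω => by
      rw [Complex.mem_reProdIm] at hω ⊢
      exact ⟨Ioo_subset_Icc_self hω.1, Ioo_subset_Icc_self hω.2⟩
    exact ((measure_mono h3).trans_lt
      (isCompact_Icc.reProdIm isCompact_Icc).measure_lt_top).ne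
  refine IntegrableOn.of_bound (lt_top_iff_ne_top.2 hfin) (hc.aestronglyMeasurable hS) 4 ?_
  refine (ae_restrict_iff' hS).2 (Filter.Eventually.of_forall fun ω hω => ?_)
  rw [Real.norm_eq_abs, abs_of_nonneg (TT_nonneg _ _)]
  exact TT_le hw1 (hmem ω hω).2.2

/-- E3b: change of variables; `w` arbitrary -/
theorem E3b : ∀ A : ℝ, 1 ≤ A → ∃ C : ℝ, ∀ (w : ℂ → ℂ) (a : ℝ),
    ContinuousOn w {z | 0 < ‖z‖ ∧ ‖z‖ < 1} → (∀ z, ‖w z‖ ≤ 1) → Real.exp (-1) < a → a < 1 →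
    Real.log (tau a) + A ≤ -A →
    Kf w 1 (-1) (Real.log a) ≤ π⁻¹ * II (Real.log (tau a) + A) (-A)
      (fun ξ η => ‖ee 1 (zf (pt ξ η)) - w (zf (pt ξ η))‖ ^ 2) + C := by
  intro A hA
  refine ⟨60 * (1 + A ^ 2) * ((A + 3) + π) * π, fun w a hw hw1 ha ha1 hτ => ?_⟩
  have ha0 : 0 < a := (Real.exp_pos _).trans ha
  have ht1 : -1 < Real.log a := by
    rw [← Real.log_exp (-1)]
    exact Real.log_lt_log (Real.exp_pos _) ha
  have ht2 : Real.log a < 0 := Real.log_neg ha0 ha1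
  set K : ℝ := 60 * (1 + A ^ 2) with hK
  have hK60 : 60 ≤ K := by nlinarith
  set x₁ : ℝ := Real.log (tau a) + A with hx1
  set L₁ : ℝ := Real.log (tau a) - 3 with hL1
  have hL : L₁ ≤ x₁ := by rw [hL1, hx1]; linarith
  set Q : Set ℂ := Ioo (-1) (Real.log a) ×ℂ Ioo (-π) π with hQ
  have hQm : MeasurableSet Q := (isOpen_Ioo.reProdIm isOpen_Ioo).measurableSet
  have hneg : ∀ s ∈ Q, s.re < 0 := fun s hs => (Complex.mem_reProdIm.1 hs).1.2.trans ht2
  have hIm : MeasurableSet (Om '' Q) := by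
    refine measurable_image_of_fderivWithin hQm
      (fun s hs => ((hasDerivAt_Om (hneg s hs)).complexToReal_fderiv).hasFDerivWithinAt)
      (Om_inj ht2.le)
  set Mn : Set ℂ := Ioo x₁ (-A) ×ℂ Ioo 0 π with hMn
  have hMm : MeasurableSet Mn := (isOpen_Ioo.reProdIm isOpen_Ioo).measurableSet
  -- the dominating function
  set g : ℂ → ℝ := fun ω => Mn.indicator (fun ω => π⁻¹ * TT w (zf ω)) ω +
    bb K L₁ x₁ ω.re * (Ioo 0 π).indicator (fun _ => (1:ℝ)) ω.im with hg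
  have hT := TTzf_int hw hw1 (x₁ := x₁) (x₂ := -A) (by linarith)
  have hone : Integrable ((Ioo 0 π).indicator (fun _ : ℝ => (1:ℝ))) :=
    (integrable_indicator_iff measurableSet_Ioo).2 (integrableOn_const (by simp))
  have hone2 : ∫ y, (Ioo 0 π).indicator (fun _ : ℝ => (1:ℝ)) y = π := by
    rw [integral_indicator measurableSet_Ioo]
    simp [Real.pi_pos.le]
  have hbb := bb_int K hL
  have hpf := prod_fun hbb.1 hone
  have hg1 : Integrable (Mn.indicator (fun ω => π⁻¹ * TT w (zf ω))) :=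
    (integrable_indicator_iff hMm).2 (hT.const_mul _)
  have hgi : Integrable g := hg1.add hpf.1
  have hgI : ∫ ω, g ω = π⁻¹ * (∫ ω in Mn, TT w (zf ω)) + K * ((A + 3) + π) * π := by
    rw [hg, integral_add hg1 hpf.1, hpf.2, hbb.2, hone2, integral_indicator hMm,
      integral_const_mul]
    have : x₁ - L₁ = A + 3 := by rw [hx1, hL1]; ring
    rw [this]
  have hbn : ∀ ξ, 0 ≤ bb K L₁ x₁ ξ := by
    intro ξ
    unfold bb
    refine mul_nonneg (by linarith) (add_nonneg ?_ (by positivity))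
    exact Set.indicator_nonneg (fun _ _ => zero_le_one) _
  have hg0 : ∀ ω, 0 ≤ g ω := by
    intro ω
    rw [hg]
    refine add_nonneg (Set.indicator_nonneg (fun ω _ => ?_) _) (mul_nonneg (hbn _) ?_)
    · exact mul_nonneg (by positivity) (TT_nonneg _ _)
    · exact Set.indicator_nonneg (fun _ _ => zero_le_one) _
  -- the pointwise bound
  have hpt : ∀ ω ∈ Om '' Q, (2 * π)⁻¹ * GG w (Real.log a) ω ≤ g ω := by
    rintro _ ⟨s, hs, rfl⟩
    have hs0 := hneg s hs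
    have hsQ := Complex.mem_reProdIm.1 hs
    have him := Om_im hs0
    have hind : (Ioo 0 π).indicator (fun _ : ℝ => (1:ℝ)) (Om s).im = 1 :=
      Set.indicator_of_mem (s := Ioo 0 π) (show (Om s).im ∈ Ioo 0 π from him) _
    have hMn0 : 0 ≤ Mn.indicator (fun ω => π⁻¹ * TT w (zf ω)) (Om s) :=
      Set.indicator_nonneg (fun ω _ => mul_nonneg (by positivity) (TT_nonneg _ _)) _
    have hI0 : 0 ≤ (Icc L₁ x₁).indicator (fun _ => (1:ℝ)) (Om s).re :=
      Set.indicator_nonneg (fun _ _ => zero_le_one) _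
    have hgs : g (Om s) = Mn.indicator (fun ω => π⁻¹ * TT w (zf ω)) (Om s) +
        K * ((Icc L₁ x₁).indicator (fun _ => (1:ℝ)) (Om s).re + (1 + (Om s).re ^ 2)⁻¹) := by
      rw [hg]
      simp only [hind, mul_one]
      rfl
    set ξ := (Om s).re with hξ
    have hq : 0 < 1 + ξ ^ 2 := by positivity
    rw [hgs]
    by_cases hc : ξ ≤ -A
    · have h1 : ξ ≤ -1 := by linarith
      have h2 := bound_small hw1 ht2.le hs0 (by rw [← hξ]; exact h1)
      rw [← hξ] at h2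
      have hT4 := TT_le hw1 (norm_exp_lt hs0)
      have h8 : π⁻¹ ≤ 1 / 3 := by
        rw [← one_div]
        exact one_div_le_one_div_of_le (by norm_num) Real.pi_gt_three.le
      have h9 : π⁻¹ * TT w (Complex.exp s) ≤ 4 / 3 := by
        calc π⁻¹ * TT w (Complex.exp s) ≤ 1 / 3 * 4 :=
              mul_le_mul h8 hT4 (TT_nonneg _ _) (by norm_num)
          _ = 4 / 3 := by norm_num
      have h10 : Real.exp ξ ≤ 1 := Real.exp_le_one_iff.2 (by linarith)
      by_cases hc1 : ξ ≤ x₁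
      · have h3 : L₁ ≤ ξ := re_lower ha0 ha1 hs0 hsQ.1.2.le (by rw [← hξ]; exact h1)
        have h4 : (Icc L₁ x₁).indicator (fun _ => (1:ℝ)) ξ = 1 :=
          Set.indicator_of_mem (s := Icc L₁ x₁) (show ξ ∈ Icc L₁ x₁ from ⟨h3, hc1⟩) _
        rw [h4]
        have h5 : 0 ≤ K * (1 + ξ ^ 2)⁻¹ := mul_nonneg (by linarith) (by positivity)
        rw [mul_add, mul_one]
        linarith
      · push Not at hc1
        by_cases hc2 : ξ < -A
        · have h3 : Om s ∈ Mn := by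
            rw [hMn, Complex.mem_reProdIm]
            exact ⟨⟨hc1, hc2⟩, him⟩
          have h4 : Mn.indicator (fun ω => π⁻¹ * TT w (zf ω)) (Om s) =
              π⁻¹ * TT w (Complex.exp s) := by
            rw [Set.indicator_of_mem h3, zf_Om hs0]
          rw [h4]
          have h5 : 8 * Real.exp ξ ≤ K * (1 + ξ ^ 2)⁻¹ := by
            rw [← div_eq_mul_inv, le_div_iff₀ hq]
            have h6 : 1 + ξ ^ 2 ≤ 2 * Real.exp (-ξ) := by
              have := Real.quadratic_le_exp_of_nonneg (x := -ξ) (by linarith)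
              nlinarith
            have h7 : Real.exp ξ * Real.exp (-ξ) = 1 := by
              rw [← Real.exp_add]
              simp
            have h8 := mul_le_mul_of_nonneg_left h6 (Real.exp_pos ξ).le
            have h9 : Real.exp ξ * (2 * Real.exp (-ξ)) = 2 := by linear_combination 2 * h7
            linarith
          have h6 : 0 ≤ K * (Icc L₁ x₁).indicator (fun _ => (1:ℝ)) ξ :=
            mul_nonneg (by linarith) hI0
          rw [mul_add]
          linarith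
        · have h3 : ξ = -A := le_antisymm hc (not_lt.1 hc2)
          have h5 : 60 ≤ K * (1 + ξ ^ 2)⁻¹ := by
            rw [← div_eq_mul_inv, le_div_iff₀ hq, hK, h3]
            exact le_of_eq (by ring)
          have h6 : 0 ≤ K * (Icc L₁ x₁).indicator (fun _ => (1:ℝ)) ξ :=
            mul_nonneg (by linarith) hI0
          rw [mul_add]
          linarith
    · push Not at hc
      have h2 := bound_large hw1 ht2.le hs0 hsQ.1.1.le
      rw [← hξ] at h2
      have h5 : 12 / (1 + Real.exp ξ ^ 2) ≤ K * (1 + ξ ^ 2)⁻¹ := by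
        rw [← div_eq_mul_inv, div_le_div_iff₀ (by positivity) hq]
        by_cases hc3 : 0 ≤ ξ
        · have h6 := Real.add_one_le_exp ξ
          have h7 : 1 + ξ ^ 2 ≤ 1 + Real.exp ξ ^ 2 := by nlinarith
          exact mul_le_mul (by linarith) h7 hq.le (by linarith)
        · push Not at hc3
          have h6 : ξ ^ 2 ≤ A ^ 2 := by nlinarith
          have h7 : 0 ≤ K * Real.exp ξ ^ 2 := mul_nonneg (by linarith) (by positivity)
          rw [mul_add, mul_one]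
          linarith
      have h6 : 0 ≤ K * (Icc L₁ x₁).indicator (fun _ => (1:ℝ)) ξ :=
        mul_nonneg (by linarith) hI0
      rw [mul_add]
      linarith
  rw [Kf_eq hw ht1 ht2, ← integral_const_mul]
  have hstep : ∫ ω in Om '' Q, (2 * π)⁻¹ * GG w (Real.log a) ω ≤ ∫ ω in Om '' Q, g ω := by
    refine integral_mono_of_nonneg ?_ hgi.integrableOn ?_
    · refine (ae_restrict_iff' hIm).2 (Filter.Eventually.of_forall ?_)
      rintro _ ⟨s, hs, rfl⟩
      exact mul_nonneg (by positivity) (GG_nonneg (hneg s hs) (Complex.mem_reProdIm.1 hs).1.2.le)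
    · exact (ae_restrict_iff' hIm).2 (Filter.Eventually.of_forall hpt)
  have hstep2 : ∫ ω in Om '' Q, g ω ≤ ∫ ω, g ω :=
    setIntegral_le_integral hgi (Filter.Eventually.of_forall hg0)
  refine (hstep.trans hstep2).trans ?_
  rw [hgI, hMn, rect_integral hτ Real.pi_pos.le hT]
  exact le_rfl

end Pool.Agent.Helper84.EK

end

section

set_option autoImplicit false
open Complex MeasureTheory Metric Set
open scoped Real ComplexConjugate

/-! Project EK, module E3: from the disc to the strip. The inputs E1c, E3a1, E3a2, E3b are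
hypotheses of the last theorem. -/

namespace Pool.Agent.Helper70.EK

open Pool.Agent.Helper39.Area Pool.Agent.Helper52.EK

/-- unimodular factor between the frames -/
noncomputable def ph (Z : ℂ) : ℂ := ((‖I + Z‖ / ‖I - Z‖ : ℝ) : ℂ) * ((I - Z) / (I - conj Z))

theorem norm_sub_conj (Z : ℂ) : ‖I - conj Z‖ = ‖I + Z‖ := by
  have h : I - conj Z = -(conj (I + Z)) := by
    rw [map_add, Complex.conj_I]; ring
  rw [h, norm_neg, RCLike.norm_conj]

theorem low (Z : ℂ) (hZ : ‖Z‖ ≤ 1 / 2) : 1 / 2 ≤ ‖I + Z‖ ∧ 1 / 2 ≤ ‖I - Z‖ ∧ ‖I + Z‖ ≤ 3 / 2 ∧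
    ‖I - Z‖ ≤ 3 / 2 := by
  have h1 : ‖I‖ = 1 := Complex.norm_I
  have h2 := norm_add_le I Z
  have h3 := norm_sub_le I Z
  have h4 : ‖I‖ ≤ ‖I + Z‖ + ‖Z‖ := by
    have := norm_sub_le (I + Z) Z
    simpa using this
  have h5 : ‖I‖ ≤ ‖I - Z‖ + ‖Z‖ := by
    have := norm_add_le (I - Z) Z
    simpa using this
  refine ⟨?_, ?_, ?_, ?_⟩ <;> linarith

theorem norm_ph {Z : ℂ} (hZ : ‖Z‖ ≤ 1 / 2) : ‖ph Z‖ = 1 := by
  obtain ⟨h1, h2, _, _⟩ := low Z hZ
  unfold ph
  rw [norm_mul, norm_div, norm_sub_conj, Complex.norm_real, norm_div, norm_norm, norm_norm]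
  have h3 : ‖I + Z‖ ≠ 0 := by linarith
  have h4 : ‖I - Z‖ ≠ 0 := by linarith
  field_simp

theorem ph_sub_one {Z : ℂ} (hZ : ‖Z‖ ≤ 1 / 2) : ‖ph Z - 1‖ ≤ 16 * ‖Z‖ := by
  obtain ⟨h1, h2, h3, h4⟩ := low Z hZ
  set r : ℝ := ‖I + Z‖ / ‖I - Z‖ with hr
  set q : ℂ := (I - Z) / (I - conj Z) with hq
  have e1 : ph Z - 1 = (r : ℂ) * (q - 1) + ((r - 1 : ℝ) : ℂ) := by
    have e0' : ph Z = (r : ℂ) * q := rfl
    rw [e0']
    push_cast
    ring
  have e2 : |r| ≤ 3 := by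
    rw [abs_of_nonneg (by positivity), hr, div_le_iff₀ (by linarith)]
    linarith
  have e3 : |r - 1| ≤ 4 * ‖Z‖ := by
    have h5 : r - 1 = (‖I + Z‖ - ‖I - Z‖) / ‖I - Z‖ := by
      rw [hr]
      have : ‖I - Z‖ ≠ 0 := by linarith
      field_simp
    have h6 : |‖I + Z‖ - ‖I - Z‖| ≤ 2 * ‖Z‖ := by
      have h7 := abs_norm_sub_norm_le (I + Z) (I - Z)
      have h8 : I + Z - (I - Z) = 2 * Z := by ring
      rw [h8, norm_mul] at h7
      simpa using h7
    rw [h5, abs_div, abs_of_nonneg (norm_nonneg (I - Z)), div_le_iff₀ (by linarith)]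
    nlinarith [norm_nonneg Z]
  have e4 : ‖q - 1‖ ≤ 4 * ‖Z‖ := by
    have h5 : ‖I - conj Z‖ = ‖I + Z‖ := norm_sub_conj Z
    have h6 : I - conj Z ≠ 0 := by
      intro h
      rw [h, norm_zero] at h5
      linarith
    have h7 : q - 1 = (conj Z - Z) / (I - conj Z) := by
      rw [hq]
      field_simp
      ring
    rw [h7, norm_div, h5, div_le_iff₀ (by linarith)]
    have h8 : ‖conj Z - Z‖ ≤ 2 * ‖Z‖ := by
      have := norm_sub_le (conj Z) Z
      rw [RCLike.norm_conj] at this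
      linarith
    nlinarith [norm_nonneg Z]
  rw [e1]
  have h9 := norm_add_le ((r : ℂ) * (q - 1)) ((r - 1 : ℝ) : ℂ)
  rw [norm_mul, Complex.norm_real, Complex.norm_real, Real.norm_eq_abs, Real.norm_eq_abs] at h9
  have h10 : |r| * ‖q - 1‖ ≤ 3 * (4 * ‖Z‖) :=
    mul_le_mul e2 e4 (norm_nonneg _) (by norm_num)
  linarith

theorem err_le {Z : ℂ} (hZ : ‖Z‖ ≤ 1 / 2) :
    ‖2 * I * Z.im / (Z + I) + 4 * I * Z.im / (Z - I)‖ ≤ 12 * ‖Z‖ := by
  obtain ⟨h1, h2, _, _⟩ := low Z hZ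
  have h3 : ‖(Z.im : ℂ)‖ ≤ ‖Z‖ := by
    rw [Complex.norm_real, Real.norm_eq_abs]
    exact Complex.abs_im_le_norm Z
  have h4 : ‖Z + I‖ = ‖I + Z‖ := by rw [add_comm]
  have h5 : ‖Z - I‖ = ‖I - Z‖ := norm_sub_rev Z I
  have a1 : ‖2 * I * (Z.im : ℂ) / (Z + I)‖ ≤ 4 * ‖Z‖ := by
    rw [norm_div, norm_mul, norm_mul, h4, Complex.norm_I, div_le_iff₀ (by linarith)]
    have : ‖(2:ℂ)‖ = 2 := by simp
    rw [this]
    nlinarith [norm_nonneg Z]
  have a2 : ‖4 * I * (Z.im : ℂ) / (Z - I)‖ ≤ 8 * ‖Z‖ := by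
    rw [norm_div, norm_mul, norm_mul, h5, Complex.norm_I, div_le_iff₀ (by linarith)]
    have : ‖(4:ℂ)‖ = 4 := by simp
    rw [this]
    nlinarith [norm_nonneg Z]
  have h6 := norm_add_le (2 * I * (Z.im : ℂ) / (Z + I)) (4 * I * (Z.im : ℂ) / (Z - I))
  linarith

theorem norm_e0 (η : ℝ) : ‖e0 (Real.sin η) (Real.cos η)‖ = 1 := by
  unfold e0
  rw [norm_neg, norm_pow]
  have h : ‖((Real.cos η : ℝ) : ℂ) - (Real.sin η : ℝ) * I‖ ^ 2 = 1 := by
    rw [← Complex.normSq_eq_norm_sq, Complex.normSq_apply]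
    have h1 : (((Real.cos η : ℝ) : ℂ) - (Real.sin η : ℝ) * I).re = Real.cos η := by
      simp only [Complex.sub_re, Complex.ofReal_re, Complex.mul_re, Complex.I_re, Complex.I_im,
        Complex.ofReal_im]
      ring
    have h2 : (((Real.cos η : ℝ) : ℂ) - (Real.sin η : ℝ) * I).im = -Real.sin η := by
      simp only [Complex.sub_im, Complex.ofReal_re, Complex.mul_im, Complex.I_re, Complex.I_im,
        Complex.ofReal_im]
      ring
    rw [h1, h2]
    nlinarith [Real.sin_sq_add_cos_sq η]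
  exact h

theorem norm_E (ξ η : ℝ) : ‖Complex.exp (pt ξ η)‖ = Real.exp ξ := by
  rw [Complex.norm_exp]
  congr 1
  simp [pt]

theorem im_E (ξ η : ℝ) : (Complex.exp (pt ξ η)).im = Real.exp ξ * Real.sin η := by
  rw [Complex.exp_im]
  simp [pt]

/-- the abstract comparison -/
theorem core {G : ℂ → ℂ} {L : ℝ} (hG : GLip G L) {p e m err : ℂ} {δ : ℝ} (hp : ‖p‖ = 1)
    (he : ‖e‖ = 1) (h1 : ‖p - 1‖ ≤ 16 * δ) (h2 : ‖err‖ ≤ 12 * δ) :
    ‖p * e - G (p * (m + err))‖ ^ 2 ≤ ‖G m - e‖ ^ 2 + 4 * (16 + 28 * L) * δ := by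
  have hL := GLip.nonneg hG
  have a1 : ‖p * e - e‖ ≤ 16 * δ := by
    have : p * e - e = (p - 1) * e := by ring
    rw [this, norm_mul, he, mul_one]
    exact h1
  have a2 : ‖G m - G (m + err)‖ ≤ L * (12 * δ) := by
    have h3 := hG.lip m (m + err)
    have h4 : ‖m - (m + err)‖ = ‖err‖ := by
      have : m - (m + err) = -err := by ring
      rw [this, norm_neg]
    rw [h4] at h3
    exact h3.trans (mul_le_mul_of_nonneg_left h2 hL)
  have a3 : ‖G (p * (m + err)) - G (m + err)‖ ≤ L * (16 * δ) :=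
    (hG.rot p (m + err) hp).trans (mul_le_mul_of_nonneg_left h1 hL)
  have a4 : ‖p * e - G (p * (m + err))‖ ≤ ‖G m - e‖ + (16 + 28 * L) * δ := by
    have e1 : p * e - G (p * (m + err)) = (p * e - e) + (-(G m - e)) + (G m - G (m + err))
        + (-(G (p * (m + err)) - G (m + err))) := by ring
    rw [e1]
    have b1 := norm_add_le ((p * e - e) + (-(G m - e)) + (G m - G (m + err)))
      (-(G (p * (m + err)) - G (m + err)))
    have b2 := norm_add_le ((p * e - e) + (-(G m - e))) (G m - G (m + err))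
    have b3 := norm_add_le (p * e - e) (-(G m - e))
    rw [norm_neg] at b1 b3
    nlinarith
  have a5 : ‖p * e - G (p * (m + err))‖ ≤ 2 := by
    have b1 := norm_sub_le (p * e) (G (p * (m + err)))
    rw [norm_mul, hp, he] at b1
    have b2 := hG.le_one (p * (m + err))
    linarith
  have a6 : ‖G m - e‖ ≤ 2 := by
    have b1 := norm_sub_le (G m) e
    rw [he] at b1
    have b2 := hG.le_one m
    linarith
  have hδ : 0 ≤ (16 + 28 * L) * δ := by
    have : 0 ≤ δ := by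
      have := norm_nonneg (p - 1)
      linarith
    positivity
  have c1 := norm_nonneg (p * e - G (p * (m + err)))
  have c2 := norm_nonneg (G m - e)
  nlinarith [mul_nonneg hδ c1, mul_nonneg hδ c2]

/-! ### points of the strip -/

theorem zf_norm {ξ η : ℝ} (h0 : 0 < η) (h1 : η < π) (hξ : ξ < 0) :
    0 < ‖zf (pt ξ η)‖ ∧ ‖zf (pt ξ η)‖ < 1 := by
  set E := Complex.exp (pt ξ η) with hE
  have h2 : ‖E‖ < 1 := by
    rw [hE, norm_E]
    rw [← Real.exp_zero]
    exact Real.exp_lt_exp.mpr hξ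
  have h3 : 0 < E.im := by
    rw [hE, im_E]
    exact mul_pos (Real.exp_pos _) (Real.sin_pos_of_pos_of_lt_pi h0 h1)
  have h4 : I - E ≠ 0 := by
    intro h
    have : E = I := (sub_eq_zero.mp h).symm
    rw [this, Complex.norm_I] at h2
    exact lt_irrefl _ h2
  have h5 : I + E ≠ 0 := by
    intro h
    have : E = -I := by linear_combination h
    rw [this, norm_neg, Complex.norm_I] at h2
    exact lt_irrefl _ h2
  unfold zf
  rw [← hE, norm_div]
  refine ⟨div_pos (norm_pos_iff.mpr h4) (norm_pos_iff.mpr h5), ?_⟩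
  rw [div_lt_one (norm_pos_iff.mpr h5)]
  have h6 : ‖I - E‖ ^ 2 < ‖I + E‖ ^ 2 := by
    rw [← Complex.normSq_eq_norm_sq, ← Complex.normSq_eq_norm_sq, Complex.normSq_apply,
      Complex.normSq_apply]
    simp only [Complex.sub_re, Complex.I_re, Complex.sub_im, Complex.I_im, Complex.add_re,
      Complex.add_im]
    nlinarith
  exact lt_of_pow_lt_pow_left₀ 2 (norm_nonneg _) h6

theorem wf_term {w g : ℂ} {z : ℂ} (hz : 0 < ‖z‖) :
    ‖w - conj (z / (‖z‖ : ℂ)) * g‖ = ‖(z / (‖z‖ : ℂ)) * w - g‖ := by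
  set u : ℂ := z / (‖z‖ : ℂ) with hu
  have h1 : ‖u‖ = 1 := by
    rw [hu, norm_div, Complex.norm_real, norm_norm]
    exact div_self hz.ne'
  have h2 : u * conj u = 1 := by
    rw [Complex.mul_conj, Complex.normSq_eq_norm_sq, h1]
    simp
  have h3 : u * w - g = u * (w - conj u * g) := by
    linear_combination g * h2
  rw [h3, norm_mul, h1, one_mul]

end Pool.Agent.Helper70.EK

end

section

set_option autoImplicit false
open Complex MeasureTheory Metric Set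
open scoped Real ComplexConjugate

/-! Project EK, module E3: the integrals over the rectangle. -/

namespace Pool.Agent.Helper70.EK

open Pool.Agent.Helper39.Area Pool.Agent.Helper52.EK

theorem integrableOn_strip {F : ℝ × ℝ → ℝ} {x₁ x₂ M : ℝ}
    (hc : ContinuousOn F (Ioc x₁ x₂ ×ˢ Ioo 0 π)) (hb : ∀ p ∈ Ioc x₁ x₂ ×ˢ Ioo 0 π, ‖F p‖ ≤ M) :
    IntegrableOn F (Ioc x₁ x₂ ×ˢ Ioo 0 π) := by
  have hm : MeasurableSet (Ioc x₁ x₂ ×ˢ Ioo 0 π) := measurableSet_Ioc.prod measurableSet_Ioo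
  have hf : volume (Ioc x₁ x₂ ×ˢ Ioo 0 π) ≠ ⊤ := by
    rw [Measure.volume_eq_prod, Measure.prod_prod, Real.volume_Ioc, Real.volume_Ioo]
    exact ENNReal.mul_ne_top ENNReal.ofReal_ne_top ENNReal.ofReal_ne_top
  have : IsFiniteMeasure (volume.restrict (Ioc x₁ x₂ ×ˢ Ioo 0 π)) := by
    refine ⟨?_⟩
    rw [Measure.restrict_apply_univ]
    exact hf.lt_top
  exact Integrable.of_bound (hc.aestronglyMeasurable hm) M
    ((ae_restrict_iff' hm).mpr (Filter.Eventually.of_forall hb))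

theorem II_eq {F : ℝ → ℝ → ℝ} {x₁ x₂ : ℝ} (h : x₁ ≤ x₂)
    (hF : IntegrableOn (fun p : ℝ × ℝ => F p.1 p.2) (Ioc x₁ x₂ ×ˢ Ioo 0 π)) :
    II x₁ x₂ F = ∫ p in Ioc x₁ x₂ ×ˢ Ioo 0 π, F p.1 p.2 := by
  unfold II
  rw [Measure.volume_eq_prod] at hF ⊢
  rw [intervalIntegral.integral_of_le h, setIntegral_prod _ hF]
  apply setIntegral_congr_fun measurableSet_Ioc
  intro ξ _
  change ∫ η in (0:ℝ)..π, F ξ η = _
  rw [intervalIntegral.integral_of_le Real.pi_pos.le, integral_Ioc_eq_integral_Ioo]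

theorem II_exp {K : ℝ} (x₁ x₂ : ℝ) : II x₁ x₂ (fun ξ _ => K * Real.exp ξ) =
    K * π * (Real.exp x₂ - Real.exp x₁) := by
  unfold II
  have h : ∀ ξ : ℝ, ∫ _ in (0:ℝ)..π, K * Real.exp ξ = K * π * Real.exp ξ := by
    intro ξ
    rw [intervalIntegral.integral_const]
    simp only [smul_eq_mul, sub_zero]
    ring
  simp only [h]
  rw [intervalIntegral.integral_const_mul, integral_exp]

theorem II_le {F₁ F₂ : ℝ → ℝ → ℝ} {x₁ x₂ K M : ℝ} (h : x₁ ≤ x₂) (hx : x₂ ≤ 0) (hK : 0 ≤ K)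
    (c₁ : ContinuousOn (fun p : ℝ × ℝ => F₁ p.1 p.2) (Ioc x₁ x₂ ×ˢ Ioo 0 π))
    (c₂ : ContinuousOn (fun p : ℝ × ℝ => F₂ p.1 p.2) (Ioc x₁ x₂ ×ˢ Ioo 0 π))
    (b₁ : ∀ p ∈ Ioc x₁ x₂ ×ˢ Ioo 0 π, ‖F₁ p.1 p.2‖ ≤ M)
    (b₂ : ∀ p ∈ Ioc x₁ x₂ ×ˢ Ioo 0 π, ‖F₂ p.1 p.2‖ ≤ M)
    (hle : ∀ p ∈ Ioc x₁ x₂ ×ˢ Ioo 0 π, F₁ p.1 p.2 ≤ F₂ p.1 p.2 + K * Real.exp p.1) :
    II x₁ x₂ F₁ ≤ II x₁ x₂ F₂ + K * π := by
  have i₁ := integrableOn_strip c₁ b₁
  have i₂ := integrableOn_strip c₂ b₂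
  have c₃ : ContinuousOn (fun p : ℝ × ℝ => K * Real.exp p.1) (Ioc x₁ x₂ ×ˢ Ioo 0 π) := by
    apply Continuous.continuousOn
    exact continuous_const.mul (Real.continuous_exp.comp continuous_fst)
  have b₃ : ∀ p ∈ Ioc x₁ x₂ ×ˢ Ioo 0 π, ‖K * Real.exp p.1‖ ≤ K := by
    rintro ⟨ξ, η⟩ ⟨hξ, _⟩
    have h1 : Real.exp ξ ≤ 1 := by
      rw [← Real.exp_zero]
      exact Real.exp_le_exp.mpr (hξ.2.trans hx)
    have h2 := Real.exp_pos ξ
    change ‖K * Real.exp ξ‖ ≤ K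
    rw [Real.norm_eq_abs, abs_of_nonneg (by positivity)]
    nlinarith
  have i₃ := integrableOn_strip c₃ b₃
  rw [II_eq h i₁, II_eq h i₂]
  have h3 : II x₁ x₂ (fun ξ _ => K * Real.exp ξ) ≤ K * π := by
    rw [II_exp]
    have h1 : Real.exp x₂ ≤ 1 := by
      rw [← Real.exp_zero]
      exact Real.exp_le_exp.mpr hx
    have h2 := Real.exp_pos x₁
    have h4 : 0 ≤ K * π := mul_nonneg hK Real.pi_pos.le
    nlinarith
  rw [II_eq (F := fun ξ _ => K * Real.exp ξ) h i₃] at h3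
  have hm : MeasurableSet (Ioc x₁ x₂ ×ˢ Ioo 0 π) := measurableSet_Ioc.prod measurableSet_Ioo
  have h4 : ∫ p in Ioc x₁ x₂ ×ˢ Ioo 0 π, F₁ p.1 p.2 ≤
      ∫ p in Ioc x₁ x₂ ×ˢ Ioo 0 π, (F₂ p.1 p.2 + K * Real.exp p.1) :=
    setIntegral_mono_on i₁ (i₂.add i₃) hm hle
  rw [integral_add i₂ i₃] at h4
  linarith

/-! ### continuity on the strip -/

theorem continuous_pt : Continuous (fun p : ℝ × ℝ => pt p.1 p.2) := by
  unfold pt
  fun_prop

theorem zf_contOn {x₁ x₂ : ℝ} (hx : x₂ < 0) :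
    ContinuousOn (fun p : ℝ × ℝ => zf (pt p.1 p.2)) (Ioc x₁ x₂ ×ˢ Ioo 0 π) := by
  have h1 : Continuous (fun p : ℝ × ℝ => Complex.exp (pt p.1 p.2)) :=
    Complex.continuous_exp.comp continuous_pt
  unfold zf
  apply ContinuousOn.div
  · exact (continuous_const.sub h1).continuousOn
  · exact (continuous_const.add h1).continuousOn
  · rintro ⟨ξ, η⟩ ⟨hξ, _⟩ h
    have h2 : Complex.exp (pt ξ η) = -I := by linear_combination h
    have h3 := norm_E ξ η
    rw [h2, norm_neg, Complex.norm_I] at h3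
    have h4 : Real.exp ξ < 1 := by
      rw [← Real.exp_zero]
      exact Real.exp_lt_exp.mpr (lt_of_le_of_lt hξ.2 hx)
    linarith

theorem zf_mapsTo {x₁ x₂ : ℝ} (hx : x₂ < 0) :
    MapsTo (fun p : ℝ × ℝ => zf (pt p.1 p.2)) (Ioc x₁ x₂ ×ˢ Ioo 0 π)
      {z | 0 < ‖z‖ ∧ ‖z‖ < 1} := by
  rintro ⟨ξ, η⟩ ⟨hξ, hη⟩
  exact zf_norm hη.1 hη.2 (lt_of_le_of_lt hξ.2 hx)

theorem F1_contOn {w : ℂ → ℂ} (hw : ContinuousOn w {z | 0 < ‖z‖ ∧ ‖z‖ < 1}) {x₁ x₂ : ℝ}
    (hx : x₂ < 0) :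
    ContinuousOn (fun p : ℝ × ℝ => ‖ee 1 (zf (pt p.1 p.2)) - w (zf (pt p.1 p.2))‖ ^ 2)
      (Ioc x₁ x₂ ×ˢ Ioo 0 π) := by
  have h1 := zf_contOn (x₁ := x₁) hx
  have h2 : ContinuousOn (fun p : ℝ × ℝ => w (zf (pt p.1 p.2))) (Ioc x₁ x₂ ×ˢ Ioo 0 π) :=
    hw.comp h1 (zf_mapsTo hx)
  have h3 : ContinuousOn (fun p : ℝ × ℝ => ee 1 (zf (pt p.1 p.2))) (Ioc x₁ x₂ ×ˢ Ioo 0 π) := by
    unfold ee
    apply ContinuousOn.div
    · apply continuousOn_const.sub
      apply ContinuousOn.mul _ continuousOn_const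
      exact Complex.continuous_conj.comp_continuousOn h1
    · exact continuousOn_const.sub h1
    · intro p hp h
      have h4 := (zf_mapsTo hx hp).2
      have h5 : zf (pt p.1 p.2) = 1 := (sub_eq_zero.mp h).symm
      change ‖zf (pt p.1 p.2)‖ < 1 at h4
      rw [h5, norm_one] at h4
      exact lt_irrefl _ h4
  exact (h3.sub h2).norm.pow 2

theorem F2_contOn {G : ℂ → ℂ} {L : ℝ} (hG : GLip G L) {X : ℂ → ℂ} {x₁ x₂ : ℝ}
    (hX : NiceX X x₁ x₂) :
    ContinuousOn (fun p : ℝ × ℝ => TG G (X (pt p.1 p.2)) (deriv X (pt p.1 p.2)) (Real.sin p.2)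
      (Real.cos p.2)) (Ioc x₁ x₂ ×ˢ Ioo 0 π) := by
  have hmap : MapsTo (fun p : ℝ × ℝ => pt p.1 p.2) (Ioc x₁ x₂ ×ˢ Ioo 0 π) (Rect x₁ x₂) := by
    rintro ⟨ξ, η⟩ ⟨hξ, hη⟩
    change pt ξ η ∈ Rect x₁ x₂
    unfold Rect
    rw [Complex.mem_reProdIm]
    have e1 : (pt ξ η).re = ξ := by simp [pt]
    have e2 : (pt ξ η).im = η := by simp [pt]
    rw [e1, e2]
    exact ⟨⟨hξ.1.le, hξ.2⟩, ⟨hη.1.le, hη.2.le⟩⟩
  have h1 : ContinuousOn (fun p : ℝ × ℝ => X (pt p.1 p.2)) (Ioc x₁ x₂ ×ˢ Ioo 0 π) :=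
    hX.an.continuousOn.comp continuous_pt.continuousOn hmap
  have h2 : ContinuousOn (fun p : ℝ × ℝ => deriv X (pt p.1 p.2)) (Ioc x₁ x₂ ×ˢ Ioo 0 π) :=
    hX.an.deriv.continuousOn.comp continuous_pt.continuousOn hmap
  have h3 : ContinuousOn (fun p : ℝ × ℝ => deriv X (pt p.1 p.2) / X (pt p.1 p.2))
      (Ioc x₁ x₂ ×ˢ Ioo 0 π) := h2.div h1 (fun p hp => hX.ne _ (hmap hp))
  have h4 : ContinuousOn (fun p : ℝ × ℝ => e0 (Real.sin p.2) (Real.cos p.2))
      (Ioc x₁ x₂ ×ˢ Ioo 0 π) := by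
    apply Continuous.continuousOn
    unfold e0
    fun_prop
  have h5 : ContinuousOn (fun p : ℝ × ℝ => mX (X (pt p.1 p.2)) (deriv X (pt p.1 p.2))
      (Real.sin p.2) (Real.cos p.2)) (Ioc x₁ x₂ ×ˢ Ioo 0 π) := by
    unfold mX
    exact ((continuousOn_const.add h4).mul
      (((continuousOn_const.mul h1).sub continuousOn_const).add h3)).sub continuousOn_const
  unfold TG
  exact (((GLip.continuous hG).comp_continuousOn h5).sub h4).norm.pow 2

theorem norm_ee {z : ℂ} (hz : ‖z‖ < 1) : ‖ee 1 z‖ = 1 := by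
  unfold ee
  have h1 : (1 : ℂ) - conj z * 1 = conj (1 - z) := by
    rw [map_sub, map_one, mul_one]
  rw [h1, norm_div, RCLike.norm_conj]
  have h2 : (1 : ℂ) - z ≠ 0 := by
    intro h
    have h5 : z = 1 := (sub_eq_zero.mp h).symm
    rw [h5, norm_one] at hz
    exact lt_irrefl _ hz
  exact div_self (norm_ne_zero_iff.mpr h2)

/-- E3 with the inputs E1c, E3a1, E3a2, E3b as hypotheses -/
theorem E3_of
    (E1c : ∀ {β : ℂ → ℂ} {R : ℝ} (_ : ExtR β R) {a : ℝ} (_ : 0 < a) (_ : a < 1) {x₁ x₂ : ℝ}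
      (_ : Real.log (tau a) < x₁) (_ : x₂ < 0), NiceX (Xf β a) x₁ x₂)
    (E3a1 : ∀ {ξ η : ℝ} (_ : 0 < η) (_ : η < π) (_ : ξ < 0),
      (zf (pt ξ η) / ‖zf (pt ξ η)‖) * ee 1 (zf (pt ξ η)) =
        ph (Complex.exp (pt ξ η)) * e0 (Real.sin η) (Real.cos η))
    (E3a2 : ∀ {β : ℂ → ℂ} (_ : Ext β) {a : ℝ} (_ : 0 < a) (_ : a < 1) {ξ η : ℝ} (_ : 0 < η)
      (_ : η < π) (_ : ξ < 0) (_ : Real.log (tau a) < ξ),
      mrad β (zf (pt ξ η)) = ph (Complex.exp (pt ξ η)) *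
        (mX (Xf β a (pt ξ η)) (deriv (Xf β a) (pt ξ η)) (Real.sin η) (Real.cos η) +
          2 * I * (Complex.exp (pt ξ η)).im / (Complex.exp (pt ξ η) + I) +
          4 * I * (Complex.exp (pt ξ η)).im / (Complex.exp (pt ξ η) - I)))
    (E3b : ∀ A : ℝ, 1 ≤ A → ∃ C : ℝ, ∀ (w : ℂ → ℂ) (a : ℝ),
      ContinuousOn w {z | 0 < ‖z‖ ∧ ‖z‖ < 1} → (∀ z, ‖w z‖ ≤ 1) → Real.exp (-1) < a → a < 1 →
      Real.log (tau a) + A ≤ -A →
      Kf w 1 (-1) (Real.log a) ≤ π⁻¹ * II (Real.log (tau a) + A) (-A)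
        (fun ξ η => ‖ee 1 (zf (pt ξ η)) - w (zf (pt ξ η))‖ ^ 2) + C)
    {G : ℂ → ℂ} {L : ℝ} (hG : GLip G L) : ∀ A : ℝ, 1 ≤ A → ∃ C : ℝ,
    ∀ (β : ℂ → ℂ) (R a : ℝ), ExtR β R → Real.exp (-1) < a → a < 1 →
    Real.log (tau a) + A ≤ -A →
    Kf (wf G β) 1 (-1) (Real.log a) ≤ π⁻¹ * II (Real.log (tau a) + A) (-A)
      (fun ξ η => TG G (Xf β a (pt ξ η)) (deriv (Xf β a) (pt ξ η)) (Real.sin η) (Real.cos η))
      + C := by
  intro A hA
  obtain ⟨C, hC⟩ := E3b A hA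
  refine ⟨C + 4 * (16 + 28 * L), ?_⟩
  intro β R a hβ ha ha1 hx
  have ha0 : 0 < a := (Real.exp_pos _).trans ha
  have hw := wf_cont hG hβ.toExt
  have h1 := hC (wf G β) a hw (wf_le_one hG β) ha ha1 hx
  have hL := GLip.nonneg hG
  set x₁ := Real.log (tau a) + A with hx₁
  have hx₂ : -A < 0 := by linarith
  have hxx : Real.log (tau a) < x₁ := by linarith
  have hX : NiceX (Xf β a) x₁ (-A) := E1c hβ ha0 ha1 hxx hx₂
  have h2 : II x₁ (-A) (fun ξ η => ‖ee 1 (zf (pt ξ η)) - wf G β (zf (pt ξ η))‖ ^ 2) ≤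
      II x₁ (-A) (fun ξ η => TG G (Xf β a (pt ξ η)) (deriv (Xf β a) (pt ξ η)) (Real.sin η)
        (Real.cos η)) + (4 * (16 + 28 * L)) * π := by
    apply II_le (M := 4) hx hx₂.le (by positivity) (F1_contOn hw hx₂) (F2_contOn hG hX)
    · intro p hp
      have h3 := (zf_mapsTo hx₂ hp).2
      change ‖zf (pt p.1 p.2)‖ < 1 at h3
      have h4 := norm_sub_le (ee 1 (zf (pt p.1 p.2))) (wf G β (zf (pt p.1 p.2)))
      rw [norm_ee h3] at h4
      have h5 := wf_le_one hG β (zf (pt p.1 p.2))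
      rw [norm_pow, norm_norm]
      have h6 := norm_nonneg (ee 1 (zf (pt p.1 p.2)) - wf G β (zf (pt p.1 p.2)))
      nlinarith
    · intro p hp
      unfold TG
      rw [norm_pow, norm_norm]
      have h4 := norm_sub_le (G (mX (Xf β a (pt p.1 p.2)) (deriv (Xf β a) (pt p.1 p.2))
        (Real.sin p.2) (Real.cos p.2))) (e0 (Real.sin p.2) (Real.cos p.2))
      rw [norm_e0] at h4
      have h5 := hG.le_one (mX (Xf β a (pt p.1 p.2)) (deriv (Xf β a) (pt p.1 p.2))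
        (Real.sin p.2) (Real.cos p.2))
      have h6 := norm_nonneg (G (mX (Xf β a (pt p.1 p.2)) (deriv (Xf β a) (pt p.1 p.2))
        (Real.sin p.2) (Real.cos p.2)) - e0 (Real.sin p.2) (Real.cos p.2))
      nlinarith
    · rintro ⟨ξ, η⟩ ⟨hξ, hη⟩
      have hξ' : x₁ < ξ ∧ ξ ≤ -A := hξ
      have hη' : 0 < η ∧ η < π := hη
      have hξ0 : ξ < 0 := by linarith [hξ'.2]
      have hz := zf_norm hη'.1 hη'.2 hξ0
      change ‖ee 1 (zf (pt ξ η)) - wf G β (zf (pt ξ η))‖ ^ 2 ≤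
        TG G (Xf β a (pt ξ η)) (deriv (Xf β a) (pt ξ η)) (Real.sin η) (Real.cos η) +
          (4 * (16 + 28 * L)) * Real.exp ξ
      have hE : ‖Complex.exp (pt ξ η)‖ ≤ 1 / 2 := by
        rw [norm_E]
        have h7 : ξ ≤ -1 := by linarith [hξ'.2]
        have h8 : Real.exp ξ ≤ Real.exp (-1) := Real.exp_le_exp.mpr h7
        have h9 : Real.exp (-1) < 0.3678794412 := Real.exp_neg_one_lt_d9
        linarith
      have h10 := core hG (m := mX (Xf β a (pt ξ η)) (deriv (Xf β a) (pt ξ η)) (Real.sin η)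
        (Real.cos η)) (norm_ph hE) (norm_e0 η) (ph_sub_one hE) (err_le hE)
      rw [norm_E] at h10
      have h11 : ‖ee 1 (zf (pt ξ η)) - wf G β (zf (pt ξ η))‖ =
          ‖ph (Complex.exp (pt ξ η)) * e0 (Real.sin η) (Real.cos η) -
            G (ph (Complex.exp (pt ξ η)) * (mX (Xf β a (pt ξ η)) (deriv (Xf β a) (pt ξ η))
              (Real.sin η) (Real.cos η) +
              (2 * I * (Complex.exp (pt ξ η)).im / (Complex.exp (pt ξ η) + I) +
              4 * I * (Complex.exp (pt ξ η)).im / (Complex.exp (pt ξ η) - I))))‖ := by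
        unfold wf
        rw [wf_term hz.1, E3a1 hη'.1 hη'.2 hξ0,
          E3a2 hβ.toExt ha0 ha1 hη'.1 hη'.2 hξ0 (lt_trans hxx hξ'.1), add_assoc]
      rw [h11]
      exact h10
  have hπ : 0 < π⁻¹ := inv_pos.mpr Real.pi_pos
  have h3 : π⁻¹ * II x₁ (-A) (fun ξ η => ‖ee 1 (zf (pt ξ η)) - wf G β (zf (pt ξ η))‖ ^ 2) ≤
      π⁻¹ * (II x₁ (-A) (fun ξ η => TG G (Xf β a (pt ξ η)) (deriv (Xf β a) (pt ξ η)) (Real.sin η)
        (Real.cos η)) + (4 * (16 + 28 * L)) * π) := mul_le_mul_of_nonneg_left h2 hπ.le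
  have h4 : π⁻¹ * ((4 * (16 + 28 * L)) * π) = 4 * (16 + 28 * L) := by
    field_simp
  rw [mul_add, h4] at h3
  linarith

end Pool.Agent.Helper70.EK

end

section

set_option autoImplicit false
open Complex MeasureTheory Metric Set
open scoped Real ComplexConjugate

/-! Project EK, modules E3a1 and E3a2: the frames in the strip coordinate. -/

namespace Pool.Agent.Helper97.EK

open Pool.Agent.Helper39.Area Pool.Agent.Helper52.EK

/-- unimodular factor between the frames -/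
noncomputable def ph (Z : ℂ) : ℂ := ((‖I + Z‖ / ‖I - Z‖ : ℝ) : ℂ) * ((I - Z) / (I - conj Z))

section basic

theorem exp_pt (ξ η : ℝ) : Complex.exp (pt ξ η) =
    ((Real.exp ξ : ℝ) : ℂ) * ((Real.cos η : ℂ) + (Real.sin η : ℂ) * I) := by
  unfold pt
  rw [Complex.exp_add, Complex.exp_mul_I, Complex.ofReal_exp, Complex.ofReal_cos,
    Complex.ofReal_sin]

theorem pt_re (ξ η : ℝ) : (pt ξ η).re = ξ := by simp [pt]

theorem pt_im (ξ η : ℝ) : (pt ξ η).im = η := by simp [pt]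

theorem exp_pt_im (ξ η : ℝ) : (Complex.exp (pt ξ η)).im = Real.exp ξ * Real.sin η := by
  rw [Complex.exp_im, pt_re, pt_im]

theorem norm_exp_pt (ξ η : ℝ) : ‖Complex.exp (pt ξ η)‖ = Real.exp ξ := by
  rw [Complex.norm_exp, pt_re]

variable {ξ η : ℝ}

theorem im_pos (h0 : 0 < η) (h1 : η < π) : 0 < (Complex.exp (pt ξ η)).im := by
  rw [exp_pt_im]
  exact mul_pos (Real.exp_pos _) (Real.sin_pos_of_pos_of_lt_pi h0 h1)

theorem norm_lt (hξ : ξ < 0) : ‖Complex.exp (pt ξ η)‖ < 1 := by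
  rw [norm_exp_pt, ← Real.exp_zero]
  exact Real.exp_lt_exp.2 hξ

theorem addI_ne (h0 : 0 < η) (h1 : η < π) : I + Complex.exp (pt ξ η) ≠ 0 := by
  intro h
  have h2 := congrArg Complex.im h
  rw [Complex.add_im, Complex.I_im, Complex.zero_im] at h2
  have := im_pos (ξ := ξ) h0 h1
  linarith

theorem subI_ne (hξ : ξ < 0) : I - Complex.exp (pt ξ η) ≠ 0 := by
  intro h
  have h2 : Complex.exp (pt ξ η) = I := (sub_eq_zero.1 h).symm
  have h3 := norm_lt (η := η) hξ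
  rw [h2, Complex.norm_I] at h3
  exact lt_irrefl _ h3

theorem subconj_ne (h0 : 0 < η) (h1 : η < π) : I - conj (Complex.exp (pt ξ η)) ≠ 0 := by
  intro h
  have h2 := congrArg Complex.im h
  rw [Complex.sub_im, Complex.I_im, Complex.conj_im, Complex.zero_im] at h2
  have := im_pos (ξ := ξ) h0 h1
  linarith

/-- `e₀ = - conj Z / Z` -/
theorem e0_eq (ξ η : ℝ) : e0 (Real.sin η) (Real.cos η) =
    -(conj (Complex.exp (pt ξ η)) / Complex.exp (pt ξ η)) := by
  unfold e0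
  rw [eq_neg_iff_add_eq_zero, neg_add_eq_zero, eq_div_iff (Complex.exp_ne_zero _)]
  rw [exp_pt]
  simp only [map_mul, map_add, Complex.conj_ofReal, Complex.conj_I]
  have h : ((Real.cos η : ℝ) : ℂ) ^ 2 + ((Real.sin η : ℝ) : ℂ) ^ 2 = 1 := by
    rw [add_comm]
    exact_mod_cast Real.sin_sq_add_cos_sq η
  linear_combination (((Real.exp ξ : ℝ) : ℂ) * ((Real.cos η : ℂ) - (Real.sin η : ℂ) * I)) * h -
    (((Real.exp ξ : ℝ) : ℂ) * ((Real.cos η : ℂ) - (Real.sin η : ℂ) * I) *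
      ((Real.sin η : ℝ) : ℂ) ^ 2) * Complex.I_sq

theorem conj_zf (ω : ℂ) : conj (zf ω) =
    (-I - conj (Complex.exp ω)) / (-I + conj (Complex.exp ω)) := by
  unfold zf
  rw [map_div₀, map_sub, map_add, Complex.conj_I]

theorem norm_zf (ω : ℂ) : ‖zf ω‖ = ‖I - Complex.exp ω‖ / ‖I + Complex.exp ω‖ := by
  unfold zf
  rw [norm_div]

theorem frame_alg (Z W r₁ r₂ : ℂ) (hZ : Z ≠ 0) (h1 : I + Z ≠ 0) (h2 : I - Z ≠ 0)
    (h3 : I - W ≠ 0) (hr1 : r₁ ≠ 0) (hr2 : r₂ ≠ 0) :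
    (I - Z) / (I + Z) / (r₁ / r₂) * ((1 - (-I - W) / (-I + W) * 1) / (1 - (I - Z) / (I + Z))) =
      r₂ / r₁ * ((I - Z) / (I - W)) * -(W / Z) := by
  have h3' : -I + W ≠ 0 := by
    intro h
    apply h3
    linear_combination -h
  have e1 : 1 - (-I - W) / (-I + W) * 1 = -(2 * W) / (I - W) := by
    field_simp
    ring
  have e2 : 1 - (I - Z) / (I + Z) = 2 * Z / (I + Z) := by
    field_simp
    ring
  rw [e1, e2]
  field_simp

end basic

/-- E3a -/
theorem E3a1 {ξ η : ℝ} (h0 : 0 < η) (h1 : η < π) (hξ : ξ < 0) :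
    (zf (pt ξ η) / ‖zf (pt ξ η)‖) * ee 1 (zf (pt ξ η)) =
      ph (Complex.exp (pt ξ η)) * e0 (Real.sin η) (Real.cos η) := by
  have a1 := addI_ne (ξ := ξ) h0 h1
  have a2 := subI_ne (η := η) hξ
  have a3 := subconj_ne (ξ := ξ) h0 h1
  rw [e0_eq ξ η, norm_zf]
  unfold ee ph
  rw [conj_zf]
  unfold zf
  rw [Complex.ofReal_div, Complex.ofReal_div]
  exact frame_alg _ _ _ _ (Complex.exp_ne_zero _) a1 a2 a3
    (Complex.ofReal_ne_zero.2 (norm_ne_zero_iff.2 a2))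
    (Complex.ofReal_ne_zero.2 (norm_ne_zero_iff.2 a1))

theorem hasDerivAt_zf {ω : ℂ} (h : I + Complex.exp ω ≠ 0) : HasDerivAt zf (zd ω) ω := by
  have h1 : HasDerivAt (fun ω => (I - Complex.exp ω) / (I + Complex.exp ω))
      ((-Complex.exp ω * (I + Complex.exp ω) - (I - Complex.exp ω) * Complex.exp ω) /
        (I + Complex.exp ω) ^ 2) ω :=
    ((Complex.hasDerivAt_exp ω).const_sub I).div ((Complex.hasDerivAt_exp ω).const_add I) h
  have e : zd ω = (-Complex.exp ω * (I + Complex.exp ω) - (I - Complex.exp ω) * Complex.exp ω) /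
      (I + Complex.exp ω) ^ 2 := by
    unfold zd
    rw [add_comm (Complex.exp ω) I]
    congr 1
    ring
  rw [e]
  exact h1

theorem hasDerivAt_zd {ω : ℂ} (h : I + Complex.exp ω ≠ 0) :
    HasDerivAt zd (zd ω * zf ω) ω := by
  have h0 : Complex.exp ω + I ≠ 0 := by rwa [add_comm]
  have h1 : HasDerivAt (fun ω => -2 * I * Complex.exp ω) (-2 * I * Complex.exp ω) ω :=
    (Complex.hasDerivAt_exp ω).const_mul (-2 * I)
  have h2 : HasDerivAt (fun ω => (Complex.exp ω + I) ^ 2)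
      (((2 : ℕ) : ℂ) * (Complex.exp ω + I) ^ (2 - 1) * Complex.exp ω) ω :=
    ((Complex.hasDerivAt_exp ω).add_const I).pow 2
  have h3 := h1.div h2 (pow_ne_zero 2 h0)
  have e : zd ω * zf ω = (-2 * I * Complex.exp ω * (Complex.exp ω + I) ^ 2 -
      -2 * I * Complex.exp ω * (((2 : ℕ) : ℂ) * (Complex.exp ω + I) ^ (2 - 1) * Complex.exp ω)) /
      ((Complex.exp ω + I) ^ 2) ^ 2 := by
    unfold zd zf
    rw [add_comm I (Complex.exp ω)]
    field_simp
    push_cast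
    ring
  rw [e]
  exact h3

section beta

variable {β : ℂ → ℂ}

theorem dphi_eq {z : ℂ} (hz : z ≠ 0) : dphi β z = - N β z / z ^ 2 := by
  unfold dphi N
  field_simp
  ring

theorem hasDerivAt_deriv (h : Ext β) {z : ℂ} (hz : z ∈ ball (0 : ℂ) 1) :
    HasDerivAt (deriv β) (deriv (deriv β) z) z :=
  ((h.diff.deriv isOpen_ball).differentiableAt (isOpen_ball.mem_nhds hz)).hasDerivAt

theorem hasDerivAt_N (h : Ext β) {z : ℂ} (hz : z ∈ ball (0 : ℂ) 1) :
    HasDerivAt (N β) (-(2 * z * deriv β z + z ^ 2 * deriv (deriv β) z)) z := by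
  have h1 : HasDerivAt (fun z : ℂ => z ^ 2) (((2 : ℕ) : ℂ) * z ^ (2 - 1) * 1) z :=
    (hasDerivAt_id z).pow 2
  have h2 := (h1.mul (hasDerivAt_deriv h hz)).const_sub 1
  have e : -(((2 : ℕ) : ℂ) * z ^ (2 - 1) * 1 * deriv β z + z ^ 2 * deriv (deriv β) z) =
      -(2 * z * deriv β z + z ^ 2 * deriv (deriv β) z) := by
    push_cast
    ring
  rw [← e]
  exact h2

theorem hasDerivAt_dphi (h : Ext β) {z : ℂ} (hz : z ∈ ball (0 : ℂ) 1) (hz0 : z ≠ 0) :
    HasDerivAt (dphi β) (dphi β z * (deriv (N β) z / N β z - 2 / z)) z := by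
  have hN : N β z ≠ 0 := h.ne z hz
  have h1 : HasDerivAt (fun z : ℂ => z ^ 2) (((2 : ℕ) : ℂ) * z ^ (2 - 1) * 1) z :=
    (hasDerivAt_id z).pow 2
  have h2 := (h1.inv (pow_ne_zero 2 hz0)).neg.add (hasDerivAt_deriv h hz)
  have e : dphi β z * (deriv (N β) z / N β z - 2 / z) =
      -(-(((2 : ℕ) : ℂ) * z ^ (2 - 1) * 1) / (z ^ 2) ^ 2) + deriv (deriv β) z := by
    rw [dphi_eq hz0, (hasDerivAt_N h hz).deriv]
    have hN' : N β z = 1 - z ^ 2 * deriv β z := rfl
    field_simp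
    rw [hN']
    push_cast
    ring
  rw [e]
  exact h2

/-- the logarithmic derivative of `X` -/
theorem deriv_Xf (h : Ext β) {a : ℝ} {ω : ℂ} (hω : I + Complex.exp ω ≠ 0)
    (hz : zf ω ∈ ball (0 : ℂ) 1) (hz0 : zf ω ≠ 0)
    (hne : phi β (zf ω) - phi β (a : ℂ) ≠ 0) :
    deriv (Xf β a) ω = Xf β a ω * (zf ω + zd ω * (deriv (N β) (zf ω) / N β (zf ω) - 2 / zf ω)
      - 2 * Xf β a ω) := by
  have h1 := hasDerivAt_zf hω
  have h2 := hasDerivAt_zd hω
  have h3 := (hasDerivAt_dphi h hz hz0).comp ω h1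
  have h4 := (hasDerivAt_phi h.diff hz hz0).comp ω h1
  have h5 := (h2.mul h3).div ((h4.sub_const (phi β (a : ℂ))).const_mul 2)
    (mul_ne_zero two_ne_zero hne)
  have h6 : deriv (Xf β a) ω = _ := h5.deriv
  rw [h6]
  unfold Xf
  simp only [Function.comp_apply, Pi.mul_apply]
  have hd : phi β (zf ω) - phi β (a : ℂ) ≠ 0 := hne
  set Δ := phi β (zf ω) - phi β (a : ℂ) with hΔ
  have h7 : -(zf ω ^ 2)⁻¹ + deriv β (zf ω) = dphi β (zf ω) := rfl
  try rw [h7]
  set D := deriv (N β) (zf ω) / N β (zf ω) - 2 / zf ω with hD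
  field_simp

end beta

theorem frame_alg2 (Z y r₁ r₂ D : ℂ) (hZ : Z ≠ 0) (h1 : I + Z ≠ 0) (h2 : I - Z ≠ 0)
    (h3 : I - (Z - 2 * y * I) ≠ 0) (hr1 : r₁ ≠ 0) (hr2 : r₂ ≠ 0) :
    (I - Z) / (I + Z) / (r₁ / r₂) * (-((-I - (Z - 2 * y * I)) / (-I + (Z - 2 * y * I))) -
      (1 - (I - Z) / (I + Z) * ((-I - (Z - 2 * y * I)) / (-I + (Z - 2 * y * I)))) * D) =
    r₂ / r₁ * ((I - Z) / (I - (Z - 2 * y * I))) *
      (((1 + -((Z - 2 * y * I) / Z)) * ((I - Z) / (I + Z) + -2 * I * Z / (Z + I) ^ 2 *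
        (D - 2 / ((I - Z) / (I + Z))) - 1) - 1) + 2 * I * y / (Z + I) + 4 * I * y / (Z - I)) := by
  obtain ⟨u, rfl⟩ : ∃ u, Z = I * u := ⟨-I * Z, by
    rw [← mul_assoc, mul_neg, Complex.I_mul_I]; ring⟩
  have hI : I ≠ 0 := Complex.I_ne_zero
  have hu : u ≠ 0 := right_ne_zero_of_mul hZ
  have k1 : 1 + u ≠ 0 := by
    intro h
    apply h1
    linear_combination I * h
  have k2 : 1 - u ≠ 0 := by
    intro h
    apply h2
    linear_combination I * h
  have k2' : u - 1 ≠ 0 := by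
    intro h
    apply k2
    linear_combination -h
  have k3 : 1 - (u - 2 * y) ≠ 0 := by
    intro h
    apply h3
    linear_combination I * h
  have e1 : (I - I * u) / (I + I * u) = (1 - u) / (1 + u) := by
    field_simp
  have e2 : (-I - (I * u - 2 * y * I)) / (-I + (I * u - 2 * y * I)) =
      (1 + (u - 2 * y)) / (1 - (u - 2 * y)) := by
    have k4 : -I + (I * u - 2 * y * I) ≠ 0 := by
      intro h
      apply h3
      linear_combination -h
    rw [div_eq_div_iff k4 k3]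
    ring
  have e3 : (I - I * u) / (I - (I * u - 2 * y * I)) = (1 - u) / (1 - (u - 2 * y)) := by
    rw [div_eq_div_iff h3 k3]
    ring
  have e4 : (I * u - 2 * y * I) / (I * u) = (u - 2 * y) / u := by
    field_simp
  have e5 : -2 * I * (I * u) / (I * u + I) ^ 2 = -2 * u / (1 + u) ^ 2 := by
    rw [div_eq_div_iff (pow_ne_zero 2 (by rw [add_comm]; exact h1)) (pow_ne_zero 2 k1)]
    ring
  have e6 : 2 * I * y / (I * u + I) = 2 * y / (1 + u) := by
    rw [div_eq_div_iff (by rw [add_comm]; exact h1) k1]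
    ring
  have e7 : 4 * I * y / (I * u - I) = 4 * y / (u - 1) := by
    have k5 : I * u - I ≠ 0 := by
      intro h
      apply h2
      linear_combination -h
    rw [div_eq_div_iff k5 k2']
    ring
  rw [e1, e2, e3, e4, e5, e6, e7]
  have k6 : (1 - u) / (1 + u) ≠ 0 := div_ne_zero k2 k1
  have e8 : 4 * y / (u - 1) = -(4 * y) / (1 - u) := by
    rw [div_eq_div_iff k2' k2]
    ring
  rw [e8]
  field_simp
  ring

theorem zf_mem {ξ η : ℝ} (h0 : 0 < η) (h1 : η < π) : zf (pt ξ η) ∈ ball (0 : ℂ) 1 := by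
  rw [mem_ball_zero_iff, norm_zf]
  have a1 := addI_ne (ξ := ξ) h0 h1
  rw [div_lt_one (norm_pos_iff.2 a1)]
  have hy := im_pos (ξ := ξ) h0 h1
  set Z := Complex.exp (pt ξ η) with hZ
  have e1 : ‖I - Z‖ ^ 2 = Z.re ^ 2 + (1 - Z.im) ^ 2 := by
    rw [← Complex.normSq_eq_norm_sq, Complex.normSq_apply]
    simp
    ring
  have e2 : ‖I + Z‖ ^ 2 = Z.re ^ 2 + (1 + Z.im) ^ 2 := by
    rw [← Complex.normSq_eq_norm_sq, Complex.normSq_apply]
    simp
    ring
  have e3 : ‖I - Z‖ ^ 2 < ‖I + Z‖ ^ 2 := by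
    rw [e1, e2]
    nlinarith
  exact lt_of_pow_lt_pow_left₀ 2 (norm_nonneg _) e3

theorem zf_ne {ξ η : ℝ} (h0 : 0 < η) (h1 : η < π) (hξ : ξ < 0) : zf (pt ξ η) ≠ 0 :=
  div_ne_zero (subI_ne hξ) (addI_ne h0 h1)

theorem zf_ne_a {ξ η a : ℝ} (ha : 0 < a) (ha1 : a < 1) (h0 : 0 < η) (h1 : η < π)
    (hξ1 : Real.log (tau a) < ξ) : zf (pt ξ η) ≠ (a : ℂ) := by
  intro h
  have a1 := addI_ne (ξ := ξ) h0 h1
  have hτ : 0 < tau a := div_pos (by linarith) (by linarith)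
  unfold zf at h
  rw [div_eq_iff a1] at h
  have ha' : (1 + (a : ℂ)) ≠ 0 := by
    exact_mod_cast (by linarith : (1 + a : ℝ) ≠ 0)
  have h2 : Complex.exp (pt ξ η) = I * ((tau a : ℝ) : ℂ) := by
    unfold tau
    push_cast
    field_simp
    linear_combination -h
  have h3 := norm_exp_pt ξ η
  rw [h2, norm_mul, Complex.norm_I, one_mul, Complex.norm_real, Real.norm_of_nonneg hτ.le] at h3
  have h4 : tau a < Real.exp ξ := (Real.log_lt_iff_lt_exp hτ).1 hξ1
  linarith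

theorem E3a2 {β : ℂ → ℂ} (h : Ext β) {a : ℝ} (ha : 0 < a) (ha1 : a < 1) {ξ η : ℝ} (h0 : 0 < η)
    (h1 : η < π) (hξ : ξ < 0) (hξ1 : Real.log (tau a) < ξ) :
    mrad β (zf (pt ξ η)) = ph (Complex.exp (pt ξ η)) *
      (mX (Xf β a (pt ξ η)) (deriv (Xf β a) (pt ξ η)) (Real.sin η) (Real.cos η) +
        2 * I * (Complex.exp (pt ξ η)).im / (Complex.exp (pt ξ η) + I) +
        4 * I * (Complex.exp (pt ξ η)).im / (Complex.exp (pt ξ η) - I)) := by
  have a1 := addI_ne (ξ := ξ) h0 h1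
  have a2 := subI_ne (η := η) hξ
  have a3 := subconj_ne (ξ := ξ) h0 h1
  have hz := zf_mem (ξ := ξ) h0 h1
  have hz0 := zf_ne h0 h1 hξ
  have hza := zf_ne_a ha ha1 h0 h1 hξ1
  have haB : (a : ℂ) ∈ ball (0 : ℂ) 1 := by
    rw [mem_ball_zero_iff, Complex.norm_real, Real.norm_of_nonneg ha.le]
    exact ha1
  have ha0 : (a : ℂ) ≠ 0 := Complex.ofReal_ne_zero.2 ha.ne'
  have hΔ : phi β (zf (pt ξ η)) - phi β (a : ℂ) ≠ 0 := fun h2 =>
    hza (h.inj _ _ hz haB hz0 ha0 (sub_eq_zero.1 h2))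
  have hN : N β (zf (pt ξ η)) ≠ 0 := h.ne _ hz
  have hdphi : dphi β (zf (pt ξ η)) ≠ 0 := by
    rw [dphi_eq hz0]
    exact div_ne_zero (neg_ne_zero.2 hN) (pow_ne_zero 2 hz0)
  have hzd : zd (pt ξ η) ≠ 0 := by
    unfold zd
    refine div_ne_zero (mul_ne_zero (mul_ne_zero (by norm_num) Complex.I_ne_zero)
      (Complex.exp_ne_zero _)) (pow_ne_zero 2 (by rwa [add_comm]))
  have hX : Xf β a (pt ξ η) ≠ 0 := by
    unfold Xf
    exact div_ne_zero (mul_ne_zero hzd hdphi) (mul_ne_zero two_ne_zero hΔ)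
  have hdX := deriv_Xf h a1 hz hz0 hΔ
  have hq : deriv (Xf β a) (pt ξ η) / Xf β a (pt ξ η) = zf (pt ξ η) + zd (pt ξ η) *
      (deriv (N β) (zf (pt ξ η)) / N β (zf (pt ξ η)) - 2 / zf (pt ξ η)) -
      2 * Xf β a (pt ξ η) := by
    rw [hdX, mul_div_cancel_left₀ _ hX]
  have hconj : conj (Complex.exp (pt ξ η)) = Complex.exp (pt ξ η) -
      2 * ((Complex.exp (pt ξ η)).im : ℂ) * I := by
    have := Complex.sub_conj (Complex.exp (pt ξ η))
    push_cast at this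
    linear_combination -this
  have hnz : (1 : ℂ) - ((‖zf (pt ξ η)‖ : ℝ) : ℂ) ^ 2 =
      1 - zf (pt ξ η) * conj (zf (pt ξ η)) := by
    rw [Complex.mul_conj']
  unfold mrad mX
  rw [hq, e0_eq ξ η, hnz, norm_zf, Complex.ofReal_div]
  have e1 : 2 * Xf β a (pt ξ η) - 1 + (zf (pt ξ η) + zd (pt ξ η) *
      (deriv (N β) (zf (pt ξ η)) / N β (zf (pt ξ η)) - 2 / zf (pt ξ η)) -
      2 * Xf β a (pt ξ η)) = zf (pt ξ η) + zd (pt ξ η) *
      (deriv (N β) (zf (pt ξ η)) / N β (zf (pt ξ η)) - 2 / zf (pt ξ η)) - 1 := by ring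
  rw [e1]
  set D := deriv (N β) (zf (pt ξ η)) / N β (zf (pt ξ η)) with hD
  clear_value D
  rw [conj_zf]
  unfold ph zf zd
  rw [hconj] at a3 ⊢
  rw [Complex.ofReal_div]
  exact frame_alg2 _ _ _ _ D (Complex.exp_ne_zero _) a1 a2 a3
    (Complex.ofReal_ne_zero.2 (norm_ne_zero_iff.2 a2))
    (Complex.ofReal_ne_zero.2 (norm_ne_zero_iff.2 a1))

end Pool.Agent.Helper97.EK

end

section

set_option autoImplicit false
open Complex MeasureTheory Metric Set
open scoped Real ComplexConjugate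

/-! Project EK, module E3: only the change of variables E3b remains a hypothesis. -/

namespace Pool.Agent.Helper70.EK

open Pool.Agent.Helper39.Area Pool.Agent.Helper52.EK

theorem E3_of_b
    (E3b : ∀ A : ℝ, 1 ≤ A → ∃ C : ℝ, ∀ (w : ℂ → ℂ) (a : ℝ),
      ContinuousOn w {z | 0 < ‖z‖ ∧ ‖z‖ < 1} → (∀ z, ‖w z‖ ≤ 1) → Real.exp (-1) < a → a < 1 →
      Real.log (tau a) + A ≤ -A →
      Kf w 1 (-1) (Real.log a) ≤ π⁻¹ * II (Real.log (tau a) + A) (-A)
        (fun ξ η => ‖ee 1 (zf (pt ξ η)) - w (zf (pt ξ η))‖ ^ 2) + C)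
    {G : ℂ → ℂ} {L : ℝ} (hG : GLip G L) : ∀ A : ℝ, 1 ≤ A → ∃ C : ℝ,
    ∀ (β : ℂ → ℂ) (R a : ℝ), ExtR β R → Real.exp (-1) < a → a < 1 →
    Real.log (tau a) + A ≤ -A →
    Kf (wf G β) 1 (-1) (Real.log a) ≤ π⁻¹ * II (Real.log (tau a) + A) (-A)
      (fun ξ η => TG G (Xf β a (pt ξ η)) (deriv (Xf β a) (pt ξ η)) (Real.sin η) (Real.cos η))
      + C := by
  apply E3_of
  · intro β R h a ha ha1 x₁ x₂ h1 h2
    exact Pool.Agent.Helper67.EK.E1c h ha ha1 h1 h2
  · intro ξ η h0 h1 hξ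
    exact Pool.Agent.Helper97.EK.E3a1 h0 h1 hξ
  · intro β h a ha ha1 ξ η h0 h1 hξ hξ1
    exact Pool.Agent.Helper97.EK.E3a2 h ha ha1 h0 h1 hξ hξ1
  · exact E3b
  · exact hG

end Pool.Agent.Helper70.EK

end

section

set_option autoImplicit false
open Complex MeasureTheory Metric Set
open scoped Real ComplexConjugate

/-! Project EK, module E6a: the bound for one target, from E1b, E1d and E3 as hypotheses. -/

namespace Pool.Agent.Helper83.EK

open Pool.Agent.Helper39.Area Pool.Agent.Helper52.EK Pool.Agent.Helper70.EK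

theorem integrableOn_rect {F : ℝ × ℝ → ℝ} {x₁ x₂ : ℝ}
    (hc : ContinuousOn F (Icc x₁ x₂ ×ˢ Icc 0 π)) :
    IntegrableOn F (Ioc x₁ x₂ ×ˢ Ioo 0 π) :=
  (hc.integrableOn_compact (isCompact_Icc.prod isCompact_Icc)).mono_set
    (prod_mono Ioc_subset_Icc_self Ioo_subset_Icc_self)

/-- comparison of the energies: `∬ F₁ ≤ p ∬ F₂ + q ∬ F₃` -/
theorem II_le3 {F₁ F₂ F₃ : ℝ → ℝ → ℝ} {x₁ x₂ p q : ℝ} (h : x₁ ≤ x₂)
    (c₁ : ContinuousOn (fun v : ℝ × ℝ => F₁ v.1 v.2) (Icc x₁ x₂ ×ˢ Icc 0 π))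
    (c₂ : ContinuousOn (fun v : ℝ × ℝ => F₂ v.1 v.2) (Icc x₁ x₂ ×ˢ Icc 0 π))
    (c₃ : ContinuousOn (fun v : ℝ × ℝ => F₃ v.1 v.2) (Icc x₁ x₂ ×ˢ Icc 0 π))
    (hle : ∀ ξ η : ℝ, F₁ ξ η ≤ p * F₂ ξ η + q * F₃ ξ η) :
    II x₁ x₂ F₁ ≤ p * II x₁ x₂ F₂ + q * II x₁ x₂ F₃ := by
  have i₁ := integrableOn_rect c₁
  have i₂ := integrableOn_rect c₂
  have i₃ := integrableOn_rect c₃
  rw [II_eq h i₁, II_eq h i₂, II_eq h i₃, ← integral_const_mul, ← integral_const_mul,
    ← integral_add (i₂.const_mul p) (i₃.const_mul q)]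
  exact setIntegral_mono_on i₁ ((i₂.const_mul p).add (i₃.const_mul q))
    (measurableSet_Ioc.prod measurableSet_Ioo) (fun v _ => hle v.1 v.2)

theorem II_nonneg {F : ℝ → ℝ → ℝ} {x₁ x₂ : ℝ} (h : x₁ ≤ x₂) (hF : ∀ ξ η : ℝ, 0 ≤ F ξ η) :
    0 ≤ II x₁ x₂ F := by
  unfold II
  apply intervalIntegral.integral_nonneg h
  intro ξ _
  exact intervalIntegral.integral_nonneg Real.pi_pos.le (fun η _ => hF ξ η)

theorem pt_mapsTo (x₁ x₂ : ℝ) :
    MapsTo (fun p : ℝ × ℝ => pt p.1 p.2) (Icc x₁ x₂ ×ˢ Icc 0 π) (Rect x₁ x₂) := by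
  rintro ⟨ξ, η⟩ ⟨hξ, hη⟩
  change pt ξ η ∈ Rect x₁ x₂
  unfold Rect
  rw [Complex.mem_reProdIm]
  have e1 : (pt ξ η).re = ξ := by simp [pt]
  have e2 : (pt ξ η).im = η := by simp [pt]
  rw [e1, e2]
  exact ⟨hξ, hη⟩

theorem tau_pos {a : ℝ} (ha : 0 < a) (ha1 : a < 1) : 0 < tau a := by
  unfold tau
  exact div_pos (by linarith) (by linarith)

theorem kap_contOn {a x₁ x₂ : ℝ} (ha : 0 < a) (ha1 : a < 1) (h1 : Real.log (tau a) < x₁)
    (h2 : x₂ < 0) :
    ContinuousOn (fun v : ℝ × ℝ => kap a (pt v.1 v.2)) (Icc x₁ x₂ ×ˢ Icc 0 π) := by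
  have ht := tau_pos ha ha1
  have hE : Continuous (fun v : ℝ × ℝ => Complex.exp (pt v.1 v.2)) :=
    Complex.continuous_exp.comp continuous_pt
  unfold kap
  apply ContinuousOn.div
  · exact ((hE.pow 2).mul continuous_const).continuousOn
  · exact (((hE.pow 2).add continuous_const).mul ((hE.pow 2).add continuous_const)).continuousOn
  · rintro ⟨ξ, η⟩ ⟨hξ, _⟩
    have hξ1 : x₁ ≤ ξ := hξ.1
    have hξ2 : ξ ≤ x₂ := hξ.2
    have hn : ‖Complex.exp (pt ξ η)‖ = Real.exp ξ := by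
      rw [Complex.norm_exp]
      simp [pt]
    have h3 : tau a < Real.exp ξ := by
      rw [← Real.exp_log ht]
      exact Real.exp_lt_exp.mpr (by linarith)
    have h4 : Real.exp ξ < 1 := by
      rw [← Real.exp_zero]
      exact Real.exp_lt_exp.mpr (by linarith)
    have h5 := Real.exp_pos ξ
    apply mul_ne_zero
    · intro h
      have h6 : Complex.exp (pt ξ η) ^ 2 = -((tau a : ℂ) ^ 2) := by linear_combination h
      have h7 : ‖Complex.exp (pt ξ η) ^ 2‖ = tau a ^ 2 := by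
        rw [h6, norm_neg, norm_pow, Complex.norm_real, Real.norm_eq_abs, abs_of_pos ht]
      rw [norm_pow, hn] at h7
      nlinarith
    · intro h
      have h6 : Complex.exp (pt ξ η) ^ 2 = -1 := by linear_combination h
      have h7 : ‖Complex.exp (pt ξ η) ^ 2‖ = 1 := by
        rw [h6, norm_neg, norm_one]
      rw [norm_pow, hn] at h7
      nlinarith

/-- the threshold: the two halves of the strip are far apart for `a` close to one -/
theorem tau_far {a A : ℝ} (ha : 1 - Real.exp (-2 * A) < a) (ha0 : 0 < a) (ha1 : a < 1) :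
    Real.log (tau a) + A ≤ -A := by
  have ht := tau_pos ha0 ha1
  have h1 : tau a ≤ Real.exp (-2 * A) := by
    unfold tau
    rw [div_le_iff₀ (by linarith)]
    have := Real.exp_pos (-2 * A)
    nlinarith
  have h2 : Real.log (tau a) ≤ -2 * A := by
    rw [Real.log_le_iff_le_exp ht]
    exact h1
  linarith

theorem K_one_of
    (E1b : ∀ {β : ℂ → ℂ} {R : ℝ} (_ : ExtR β R) {a : ℝ} (_ : 0 < a) (_ : a < 1) {x₁ x₂ : ℝ}
      (_ : Real.log (tau a) < x₁) (_ : x₁ ≤ x₂) (_ : x₂ < 0),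
      II x₁ x₂ (fun ξ η => ‖2 * Xf β a (pt ξ η) - 2 * kap a (pt ξ η)‖ ^ 2) ≤
        2 * π * Real.log (‖N β a‖ / (1 - a ^ 2)))
    (E1d : ∃ C : ℝ, ∀ a : ℝ, 0 < a → a < 1 → ∀ x₁ x₂ : ℝ, Real.log (tau a) + 1 ≤ x₁ →
      x₁ ≤ x₂ → x₂ ≤ -1 → II x₁ x₂ (fun ξ η => ‖kap a (pt ξ η) - 1‖ ^ 2) ≤ C)
    {κ₂ κ : ℝ} {G : ℂ → ℂ}
    (E3 : ∀ A : ℝ, 1 ≤ A → ∃ C : ℝ,
      ∀ (β : ℂ → ℂ) (R a : ℝ), ExtR β R → Real.exp (-1) < a → a < 1 →
      Real.log (tau a) + A ≤ -A →
      Kf (wf G β) 1 (-1) (Real.log a) ≤ π⁻¹ * II (Real.log (tau a) + A) (-A)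
        (fun ξ η => TG G (Xf β a (pt ξ η)) (deriv (Xf β a) (pt ξ η)) (Real.sin η) (Real.cos η))
        + C)
    (hS : StripIneq κ₂ (TG G)) (h0 : 0 ≤ κ₂)
    (hκ : κ₂ < 2 * κ) : ∃ C a₀ : ℝ, a₀ < 1 ∧ ∀ (β : ℂ → ℂ) (R a : ℝ), ExtR β R → a₀ < a → a < 1 →
      Kf (wf G β) 1 (-1) (Real.log a) ≤ κ * Real.log (‖N β a‖ / (1 - a ^ 2)) + C := by
  obtain ⟨C₁, hC₁⟩ := hS
  obtain ⟨Cd, hCd⟩ := E1d
  -- the parameters `l` and `h`
  set δ : ℝ := 2 * κ - κ₂ with hδ
  have hδ0 : 0 < δ := by linarith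
  set D : ℝ := max C₁ 0 with hD
  have hD0 : 0 ≤ D := le_max_right _ _
  have hDC : C₁ ≤ D := le_max_left _ _
  set l : ℝ := 1 + 2 * D / δ with hl
  have hl1 : 1 ≤ l := by
    have : 0 ≤ 2 * D / δ := by positivity
    linarith
  have hl0 : 0 < l := by linarith
  have hDl : D / l ≤ δ / 2 := by
    rw [div_le_div_iff₀ hl0 two_pos]
    have : D * 2 = δ * (2 * D / δ) := by field_simp
    rw [this]
    apply mul_le_mul_of_nonneg_left _ hδ0.le
    linarith
  set k : ℝ := κ₂ + D / l with hk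
  have hk0 : 0 ≤ k := by
    have : 0 ≤ D / l := by positivity
    linarith
  have hk1 : k ≤ κ₂ + δ / 2 := by linarith
  have hk2 : k < 2 * κ := by linarith
  set g : ℝ := (2 * κ - k) / (k + 1) with hg
  have hg0 : 0 < g := div_pos (by linarith) (by linarith)
  have hkg : k * (1 + g) ≤ 2 * κ := by
    have h1 : g * (k + 1) = 2 * κ - k := by
      rw [hg]
      field_simp
    nlinarith
  set A : ℝ := 1 + l with hA
  have hA1 : 1 ≤ A := by linarith
  obtain ⟨C₃, hC₃⟩ := E3 A hA1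
  refine ⟨C₃ + π⁻¹ * (k * ((1 + 1 / g) * Cd)), max (Real.exp (-1)) (1 - Real.exp (-2 * A)), ?_, ?_⟩
  · apply max_lt
    · rw [← Real.exp_zero]
      exact Real.exp_lt_exp.mpr (by norm_num)
    · linarith [Real.exp_pos (-2 * A)]
  intro β R a hβ ha ha1
  have hae : Real.exp (-1) < a := lt_of_le_of_lt (le_max_left _ _) ha
  have ha0 : 0 < a := (Real.exp_pos _).trans hae
  have hfar := tau_far (A := A) (lt_of_le_of_lt (le_max_right _ _) ha) ha0 ha1
  have hK := hC₃ β R a hβ hae ha1 hfar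
  set x₁ : ℝ := Real.log (tau a) + 1 with hx₁
  have e1 : Real.log (tau a) + A = x₁ + l := by rw [hA, hx₁]; ring
  have e2 : -A = -1 - l := by rw [hA]; ring
  rw [e1, e2] at hK hfar
  have hx12 : x₁ ≤ -1 := by linarith
  have hxt : Real.log (tau a) < x₁ := by linarith
  have hX : NiceX (Xf β a) x₁ (-1) := Pool.Agent.Helper67.EK.E1c hβ ha0 ha1 hxt (by norm_num)
  have hst := hC₁ (Xf β a) x₁ (-1) l hl1 hfar hX
  have hb := E1b hβ ha0 ha1 hxt hx12 (by norm_num)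
  have hd := hCd a ha0 ha1 x₁ (-1) le_rfl hx12 le_rfl
  set Λ : ℝ := Real.log (‖N β a‖ / (1 - a ^ 2)) with hΛ
  -- continuity
  have cX : ContinuousOn (fun v : ℝ × ℝ => Xf β a (pt v.1 v.2)) (Icc x₁ (-1) ×ˢ Icc 0 π) :=
    hX.an.continuousOn.comp continuous_pt.continuousOn (pt_mapsTo _ _)
  have cK : ContinuousOn (fun v : ℝ × ℝ => kap a (pt v.1 v.2)) (Icc x₁ (-1) ×ˢ Icc 0 π) :=
    kap_contOn ha0 ha1 hxt (by norm_num)
  have c1 : ContinuousOn (fun v : ℝ × ℝ => ‖Xf β a (pt v.1 v.2) - 1‖ ^ 2)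
      (Icc x₁ (-1) ×ˢ Icc 0 π) := (cX.sub continuousOn_const).norm.pow 2
  have c2 : ContinuousOn (fun v : ℝ × ℝ => ‖2 * Xf β a (pt v.1 v.2) - 2 * kap a (pt v.1 v.2)‖ ^ 2)
      (Icc x₁ (-1) ×ˢ Icc 0 π) :=
    ((continuousOn_const.mul cX).sub (continuousOn_const.mul cK)).norm.pow 2
  have c3 : ContinuousOn (fun v : ℝ × ℝ => ‖kap a (pt v.1 v.2) - 1‖ ^ 2)
      (Icc x₁ (-1) ×ˢ Icc 0 π) := (cK.sub continuousOn_const).norm.pow 2
  have hE := II_le3 (F₁ := fun ξ η => ‖Xf β a (pt ξ η) - 1‖ ^ 2)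
    (F₂ := fun ξ η => ‖2 * Xf β a (pt ξ η) - 2 * kap a (pt ξ η)‖ ^ 2)
    (F₃ := fun ξ η => ‖kap a (pt ξ η) - 1‖ ^ 2) (p := (1 + g) / 4) (q := 1 + 1 / g)
    hx12 c1 c2 c3 (by
      intro ξ η
      have h1 : Xf β a (pt ξ η) - 1 = (2 * Xf β a (pt ξ η) - 2 * kap a (pt ξ η)) / 2 +
        (kap a (pt ξ η) - 1) := by ring
      have h2 : ‖Xf β a (pt ξ η) - 1‖ ≤ ‖2 * Xf β a (pt ξ η) - 2 * kap a (pt ξ η)‖ / 2 +
          ‖kap a (pt ξ η) - 1‖ := by
        rw [h1]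
        refine (norm_add_le _ _).trans ?_
        rw [norm_div]
        simp
      have h3 := norm_nonneg (Xf β a (pt ξ η) - 1)
      have h4 := norm_nonneg (2 * Xf β a (pt ξ η) - 2 * kap a (pt ξ η))
      have h5 := norm_nonneg (kap a (pt ξ η) - 1)
      generalize ‖Xf β a (pt ξ η) - 1‖ = u at *
      generalize ‖2 * Xf β a (pt ξ η) - 2 * kap a (pt ξ η)‖ = v at *
      generalize ‖kap a (pt ξ η) - 1‖ = w at *
      have h6 : u ^ 2 ≤ (v / 2 + w) ^ 2 := by nlinarith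
      have h7 : (v / 2 + w) ^ 2 ≤ (1 + g) / 4 * v ^ 2 + (1 + 1 / g) * w ^ 2 := by
        have h8 : (1 + g) / 4 * v ^ 2 + (1 + 1 / g) * w ^ 2 - (v / 2 + w) ^ 2 =
            (g * v / 2 - w) ^ 2 / g := by
          field_simp
          ring
        have h9 : 0 ≤ (g * v / 2 - w) ^ 2 / g := by positivity
        linarith
      exact h6.trans h7)
  -- assemble
  have hEn : 0 ≤ II x₁ (-1) (fun ξ η => ‖Xf β a (pt ξ η) - 1‖ ^ 2) :=
    II_nonneg hx12 (fun ξ η => by positivity)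
  set E : ℝ := II x₁ (-1) (fun ξ η => ‖Xf β a (pt ξ η) - 1‖ ^ 2) with hEdef
  have hπ : 0 < π := Real.pi_pos
  have hπi : 0 < π⁻¹ := inv_pos.mpr hπ
  have hE2 : E ≤ (1 + g) / 4 * (2 * π * Λ) + (1 + 1 / g) * Cd := by
    have h1 : 0 < (1 + g) / 4 := by positivity
    have h2 : 0 < 1 + 1 / g := by positivity
    have h3 := mul_le_mul_of_nonneg_left hb h1.le
    have h4 := mul_le_mul_of_nonneg_left hd h2.le
    linarith
  have hT : II (x₁ + l) (-1 - l) (fun ξ η => TG G (Xf β a (pt ξ η)) (deriv (Xf β a) (pt ξ η))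
      (Real.sin η) (Real.cos η)) ≤ k * E := by
    refine hst.trans ?_
    apply mul_le_mul_of_nonneg_right _ hEn
    rw [hk]
    have : C₁ / l ≤ D / l := div_le_div_of_nonneg_right hDC hl0.le
    linarith
  have hΛ0 : 0 ≤ Λ := by
    have h1 : ‖(a : ℂ)‖ < 1 := by
      rw [Complex.norm_real, Real.norm_eq_abs, abs_of_pos ha0]
      exact ha1
    have h2 := Pool.Agent.Helper39.EK.N_ge hβ.toExt h1
    rw [Complex.norm_real, Real.norm_eq_abs, abs_of_pos ha0] at h2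
    have h3 : 0 < 1 - a ^ 2 := by nlinarith
    apply Real.log_nonneg
    rw [le_div_iff₀ h3]
    linarith
  have h1 : k * E ≤ k * ((1 + g) / 4 * (2 * π * Λ) + (1 + 1 / g) * Cd) :=
    mul_le_mul_of_nonneg_left hE2 hk0
  have h2 : π⁻¹ * II (x₁ + l) (-1 - l) (fun ξ η => TG G (Xf β a (pt ξ η))
      (deriv (Xf β a) (pt ξ η)) (Real.sin η) (Real.cos η)) ≤
      π⁻¹ * (k * ((1 + g) / 4 * (2 * π * Λ) + (1 + 1 / g) * Cd)) :=
    mul_le_mul_of_nonneg_left (hT.trans h1) hπi.le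
  have h3 : π⁻¹ * (k * ((1 + g) / 4 * (2 * π * Λ) + (1 + 1 / g) * Cd)) =
      k * (1 + g) / 2 * Λ + π⁻¹ * (k * ((1 + 1 / g) * Cd)) := by
    field_simp
    ring
  have h4 : k * (1 + g) / 2 * Λ ≤ κ * Λ := by
    apply mul_le_mul_of_nonneg_right _ hΛ0
    linarith
  linarith

end Pool.Agent.Helper83.EK

end

section

set_option autoImplicit false
open Complex MeasureTheory Metric Set
open scoped Real ComplexConjugate

/-! Project EK, module E6a: only E1d remains a hypothesis. -/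

namespace Pool.Agent.Helper83.EK

open Pool.Agent.Helper39.Area Pool.Agent.Helper52.EK

theorem K_one_of_d
    (E1d : ∃ C : ℝ, ∀ a : ℝ, 0 < a → a < 1 → ∀ x₁ x₂ : ℝ, Real.log (tau a) + 1 ≤ x₁ →
      x₁ ≤ x₂ → x₂ ≤ -1 → II x₁ x₂ (fun ξ η => ‖kap a (pt ξ η) - 1‖ ^ 2) ≤ C)
    {κ₂ κ L : ℝ} {G : ℂ → ℂ} (hG : GLip G L) (hS : StripIneq κ₂ (TG G)) (h0 : 0 ≤ κ₂)
    (hκ : κ₂ < 2 * κ) : ∃ C a₀ : ℝ, a₀ < 1 ∧ ∀ (β : ℂ → ℂ) (R a : ℝ), ExtR β R → a₀ < a → a < 1 →
      Kf (wf G β) 1 (-1) (Real.log a) ≤ κ * Real.log (‖N β a‖ / (1 - a ^ 2)) + C :=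
  K_one_of (fun h _ ha ha1 _ _ h1 h12 h2 => Pool.Agent.Helper86.EK.E1b h ha ha1 h1 h12 h2) E1d
    (Pool.Agent.Helper70.EK.E3_of_b Pool.Agent.Helper84.EK.E3b hG) hS h0 hκ

end Pool.Agent.Helper83.EK

end

section


/-!
Two classical facts: the derivative of an injective holomorphic function has no zero, and a
holomorphic function without zeros on the disc has a holomorphic logarithm.
-/

set_option autoImplicit false

open Set Metric Filter Topology

namespace Pool.Agent.Helper24.Br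

/-- the derivative of an injective holomorphic function has no zero -/
theorem deriv_ne_of_inj {f : ℂ → ℂ} {U : Set ℂ} (hU : IsOpen U) (hf : DifferentiableOn ℂ f U)
    (hinj : InjOn f U) {z : ℂ} (hz : z ∈ U) : deriv f z ≠ 0 := by
  intro h0
  have hUz : U ∈ 𝓝 z := hU.mem_nhds hz
  have hfa : AnalyticAt ℂ f z := hf.analyticAt hUz
  have hFa : AnalyticAt ℂ (fun w => f w - f z) z := hfa.sub analyticAt_const
  have hnc : ¬ ∀ᶠ w in 𝓝 z, f w - f z = 0 := by
    intro hev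
    have h1 : ∀ᶠ w in 𝓝 z, w = z := by
      filter_upwards [hev, hUz] with w hw hwU
      exact hinj hwU hz (by linear_combination hw)
    have h2 : ∀ᶠ w in 𝓝[≠] z, w = z := h1.filter_mono nhdsWithin_le_nhds
    have h3 : ∀ᶠ w in 𝓝[≠] z, w ≠ z := self_mem_nhdsWithin
    obtain ⟨w, hw1, hw2⟩ := (h2.and h3).exists
    exact hw2 hw1
  obtain ⟨n, g, hg, hgz, hev⟩ := hFa.exists_eventuallyEq_pow_smul_nonzero_iff.mpr hnc
  simp only [smul_eq_mul] at hev
  have hdF : HasDerivAt (fun w => f w - f z) 0 z := by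
    have h := (hfa.differentiableAt.hasDerivAt).sub_const (f z)
    rwa [h0] at h
  have hn : 2 ≤ n := by
    by_contra hlt
    have hcase : n = 0 ∨ n = 1 := by omega
    rcases hcase with h | h
    · subst h
      have := hev.self_of_nhds
      simp only [sub_self, pow_zero, one_mul] at this
      exact hgz this.symm
    · subst h
      have h2 : HasDerivAt (fun w => (w - z) ^ 1 * g w) (g z) z := by
        have h3 := ((hasDerivAt_id z).sub_const z).mul hg.differentiableAt.hasDerivAt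
        simp only [id_eq, one_mul, sub_self, zero_mul, add_zero] at h3
        simp only [pow_one]
        exact h3
      have h4 := h2.congr_of_eventuallyEq hev
      have h5 := h4.unique hdF
      exact hgz h5
  have hn0 : (n : ℂ) ≠ 0 := by
    have : n ≠ 0 := by omega
    exact_mod_cast this
  -- a local root
  obtain ⟨c, hc⟩ : ∃ c : ℂ, c ^ n = g z := by
    have : 0 < n := by omega
    obtain ⟨c, hc⟩ := IsAlgClosed.exists_pow_nat_eq (g z) this
    exact ⟨c, hc⟩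
  have hc0 : c ≠ 0 := by
    intro h
    rw [h, zero_pow (by omega)] at hc
    exact hgz hc.symm
  have hq : AnalyticAt ℂ (fun w => g w / g z) z := hg.div analyticAt_const hgz
  have hq1 : g z / g z = 1 := div_self hgz
  have hlog : AnalyticAt ℂ (fun w => Complex.log (g w / g z)) z := by
    apply AnalyticAt.clog hq
    rw [hq1]
    exact Complex.one_mem_slitPlane
  have hk : AnalyticAt ℂ (fun w => c * Complex.exp (Complex.log (g w / g z) / n)) z :=
    analyticAt_const.mul (hlog.div analyticAt_const hn0).cexp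
  obtain ⟨k, hkd⟩ : ∃ k : ℂ → ℂ, k = fun w => c * Complex.exp (Complex.log (g w / g z) / n) :=
    ⟨_, rfl⟩
  rw [← hkd] at hk
  have hkz : k z = c := by
    rw [hkd]
    simp only [hq1, Complex.log_one, zero_div, Complex.exp_zero, mul_one]
  have hgne : ∀ᶠ w in 𝓝 z, g w ≠ 0 := hg.continuousAt.eventually_ne hgz
  have hkn : ∀ᶠ w in 𝓝 z, k w ^ n = g w := by
    filter_upwards [hgne] with w hw
    rw [hkd]
    simp only
    rw [mul_pow, hc, ← Complex.exp_nat_mul, mul_div_cancel₀ _ hn0,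
      Complex.exp_log (div_ne_zero hw hgz), mul_div_cancel₀ _ hgz]
  obtain ⟨u, hud⟩ : ∃ u : ℂ → ℂ, u = fun w => (w - z) * k w := ⟨_, rfl⟩
  have hua : AnalyticAt ℂ u z := by
    rw [hud]
    exact (analyticAt_id.sub analyticAt_const).mul hk
  have hu' : HasDerivAt u c z := by
    have h3 := ((hasDerivAt_id z).sub_const z).mul hk.differentiableAt.hasDerivAt
    simp only [id_eq, one_mul, sub_self, zero_mul, add_zero] at h3
    rw [hkz] at h3
    rw [hud]
    exact h3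
  have hus : HasStrictDerivAt u c z := by
    have := hua.hasStrictDerivAt
    rwa [hu'.deriv] at this
  have huz : u z = 0 := by rw [hud]; simp
  have hmap := hus.map_nhds_eq hc0
  rw [huz] at hmap
  have hgood : ∀ᶠ w in 𝓝 z, w ∈ U ∧ f w - f z = u w ^ n := by
    filter_upwards [hUz, hev, hkn] with w h1 h2 h3
    refine ⟨h1, ?_⟩
    rw [h2, hud]
    simp only
    rw [mul_pow, h3]
  have himg : u '' {w | w ∈ U ∧ f w - f z = u w ^ n} ∈ 𝓝 (0 : ℂ) := by
    rw [← hmap]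
    exact image_mem_map hgood
  rw [Metric.mem_nhds_iff] at himg
  obtain ⟨ε, hε, hball⟩ := himg
  have hω := Complex.isPrimitiveRoot_exp n (by omega)
  obtain ⟨ω, hωd⟩ : ∃ ω : ℂ, ω = Complex.exp (2 * Real.pi * Complex.I / n) := ⟨_, rfl⟩
  rw [← hωd] at hω
  have hω1 : ω ≠ 1 := hω.ne_one (by omega)
  have hωn : ω ^ n = 1 := hω.pow_eq_one
  have hωnorm : ‖ω‖ = 1 := hω.norm'_eq_one (by omega)
  have he0 : ((ε / 2 : ℝ) : ℂ) ≠ 0 := by
    have : (ε / 2 : ℝ) ≠ 0 := by positivity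
    exact_mod_cast this
  have hen : ‖((ε / 2 : ℝ) : ℂ)‖ < ε := by
    rw [Complex.norm_real, Real.norm_of_nonneg (by positivity)]
    linarith
  obtain ⟨w1, ⟨hw1U, hw1⟩, hw1e⟩ := hball (mem_ball_zero_iff.mpr hen)
  have hen2 : ω * ((ε / 2 : ℝ) : ℂ) ∈ ball (0 : ℂ) ε := by
    rw [mem_ball_zero_iff, norm_mul, hωnorm, one_mul]; exact hen
  obtain ⟨w2, ⟨hw2U, hw2⟩, hw2e⟩ := hball hen2
  rw [hw1e] at hw1
  rw [hw2e, mul_pow, hωn, one_mul] at hw2
  have h12 : w1 = w2 := hinj hw1U hw2U (by linear_combination hw1 - hw2)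
  rw [h12, hw2e] at hw1e
  apply hω1
  have : (ω - 1) * ((ε / 2 : ℝ) : ℂ) = 0 := by linear_combination hw1e
  rcases mul_eq_zero.mp this with h | h
  · linear_combination h
  · exact absurd h he0

/-- the holomorphic logarithm on the disc -/
theorem exists_log_ball {q : ℂ → ℂ} (hq : DifferentiableOn ℂ q (ball 0 1))
    (hq0 : ∀ z ∈ ball (0 : ℂ) 1, q z ≠ 0) (h1 : q 0 = 1) :
    ∃ H : ℂ → ℂ, DifferentiableOn ℂ H (ball 0 1) ∧ H 0 = 0 ∧
      ∀ z ∈ ball (0 : ℂ) 1, Complex.exp (H z) = q z := by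
  have hd : DifferentiableOn ℂ (fun z => deriv q z / q z) (ball 0 1) :=
    (hq.deriv isOpen_ball).div hq hq0
  obtain ⟨H, hH0, hH⟩ := hd.isExactOn_ball.with_val_at 0 0
  refine ⟨H, fun z hz => (hH z hz).differentiableAt.differentiableWithinAt, hH0, ?_⟩
  have hconst : ∀ z ∈ ball (0 : ℂ) 1, HasDerivAt (fun z => q z * Complex.exp (-H z)) 0 z := by
    intro z hz
    have hqz := (hq.differentiableAt (isOpen_ball.mem_nhds hz)).hasDerivAt
    have hne : HasDerivAt (fun z => -H z) (-(deriv q z / q z)) z := (hH z hz).neg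
    have h3 : HasDerivAt (fun z => q z * Complex.exp (-H z))
        (deriv q z * Complex.exp (-H z) + q z * (Complex.exp (-H z) * -(deriv q z / q z))) z :=
      hqz.mul hne.cexp
    have e : deriv q z * Complex.exp (-H z) + q z * (Complex.exp (-H z) * -(deriv q z / q z)) = 0 := by
      have := hq0 z hz
      field_simp
      ring
    rw [e] at h3
    exact h3
  intro z hz
  have h4 : (fun z => q z * Complex.exp (-H z)) z = (fun z => q z * Complex.exp (-H z)) 0 := by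
    apply (convex_ball (0 : ℂ) 1).is_const_of_fderivWithin_eq_zero (𝕜 := ℂ)
      (f := fun z => q z * Complex.exp (-H z)) (fun w hw => (hconst w hw).differentiableAt.differentiableWithinAt)
      ?_ hz (mem_ball_self one_pos)
    intro w hw
    rw [fderivWithin_of_isOpen isOpen_ball hw]
    have := (hconst w hw).hasFDerivAt.fderiv
    rw [this]
    ext
    simp
  simp only [hH0, neg_zero, Complex.exp_zero, mul_one, h1] at h4
  have h5 : Complex.exp (H z) * Complex.exp (-H z) = 1 := by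
    rw [← Complex.exp_add, add_neg_cancel, Complex.exp_zero]
  have h6 := Complex.exp_ne_zero (-H z)
  apply mul_right_cancel₀ h6
  rw [h5, h4]

end Pool.Agent.Helper24.Br

end

section


/-!
The energy of the logarithm of a difference with a unimodular factor `u` (after helper39).
-/

set_option autoImplicit false

open Complex MeasureTheory Metric Set Filter Topology
open scoped Real ENNReal ComplexConjugate NNReal

namespace Pool.Agent.Helper68.EKC

open Pool.Agent.Helper39.Area Pool.Agent.Helper39.EK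

variable {β : ℂ → ℂ}

theorem energy_aux_u (h : Ext β) {u : ℂ} (hu : ‖u‖ = 1) {ρ : ℝ} (hρ : 0 < ρ) (hρ1 : ρ < 1)
    {a : ℂ} (ha : a ∈ ball (0:ℂ) ρ) (ha0 : a ≠ 0) {F : ℂ → ℂ}
    (hF : ∀ ζ ∈ ball (0:ℂ) 1, HasDerivAt F (deriv (qq β a) ζ / qq β a ζ) ζ)
    (hF0 : F 0 = 0) (hexp : ∀ ζ ∈ ball (0:ℂ) 1, Complex.exp (F ζ) = qq β a ζ) :
    ∃ c2 : ℝ, c2 ≤ 2 * (- Real.log (1 - ‖a‖ ^ 2 / ρ ^ 2)) + 2 * (conj u * F a).re ∧
      ∀ N : ℕ, ∑ n ∈ Finset.range N, (n:ℝ) * ρ ^ (2 * n) *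
        ‖iteratedDeriv n (fun ζ => F ζ - u * Lam ρ a ζ) 0 / n.factorial‖ ^ 2 ≤ c2 := by
  have ha1 : a ∈ ball (0:ℂ) 1 := mem_ball_of_sphere hρ1 (ball_subset_closedBall ha)
  have hapos : 0 < ‖a‖ := norm_pos_iff.mpr ha0
  have haρ : ‖a‖ < ρ := by simpa using ha
  set Q : ℂ → ℂ := fun ζ => deriv (qq β a) ζ / qq β a ζ with hQ
  set R : ℝ := min 1 (ρ ^ 2 / ‖a‖) with hR
  have hρR : ρ < R := lt_min hρ1 (rad_lt hρ ha ha0)
  have hR1 : ball (0:ℂ) R ⊆ ball 0 1 := ball_subset_ball (min_le_left _ _)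
  have hR2 : ball (0:ℂ) R ⊆ ball 0 (ρ ^ 2 / ‖a‖) := ball_subset_ball (min_le_right _ _)
  have hsR : sphere (0:ℂ) ρ ⊆ ball 0 R := by
    intro ζ hζ
    rw [mem_ball, dist_zero_right]
    rw [mem_sphere, dist_zero_right] at hζ
    linarith
  have hFd : DifferentiableOn ℂ F (ball 0 R) := fun ζ hζ =>
    (hF ζ (hR1 hζ)).differentiableAt.differentiableWithinAt
  have hQd : DifferentiableOn ℂ Q (ball 0 R) := by
    have h1 : DifferentiableOn ℂ (deriv F) (ball 0 R) := hFd.deriv isOpen_ball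
    apply h1.congr
    intro ζ hζ
    exact (hF ζ (hR1 hζ)).deriv.symm
  have hLd : DifferentiableOn ℂ (Lam ρ a) (ball 0 R) := (lam_diff hρ ha ha0).mono hR2
  have hLpd : DifferentiableOn ℂ (Lamp ρ a) (ball 0 R) := by
    have h1 : DifferentiableOn ℂ (deriv (Lam ρ a)) (ball 0 R) := hLd.deriv isOpen_ball
    apply h1.congr
    intro ζ hζ
    exact (lam_hasDeriv hρ ha ha0 (hR2 hζ)).deriv.symm
  have hFc : ContinuousOn F (sphere 0 ρ) := hFd.continuousOn.mono hsR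
  have hQc : ContinuousOn Q (sphere 0 ρ) := hQd.continuousOn.mono hsR
  have hLc : ContinuousOn (Lam ρ a) (sphere 0 ρ) := hLd.continuousOn.mono hsR
  have hLpc : ContinuousOn (Lamp ρ a) (sphere 0 ρ) := hLpd.continuousOn.mono hsR
  have hgpc : ContinuousOn (gp a) (sphere 0 ρ) := gp_cont ha hρ
  set G : ℂ → ℂ := fun ζ => Complex.log (1 - a / ζ) with hG
  have hGc : ContinuousOn G (sphere 0 ρ) := fun ζ hζ =>
    (g_hasDeriv ha hρ hζ).continuousAt.continuousWithinAt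
  have hcFc : ContinuousOn (fun ζ => conj (F ζ)) (sphere 0 ρ) :=
    Complex.continuous_conj.comp_continuousOn hFc
  have hFs : ∀ ζ ∈ sphere (0:ℂ) ρ, HasDerivAt F (Q ζ) ζ := fun ζ hζ => hF ζ (hR1 (hsR hζ))
  have hLs : ∀ ζ ∈ sphere (0:ℂ) ρ, HasDerivAt (Lam ρ a) (Lamp ρ a ζ) ζ := fun ζ hζ =>
    lam_hasDeriv hρ ha ha0 (hR2 (hsR hζ))
  have hGs : ∀ ζ ∈ sphere (0:ℂ) ρ, HasDerivAt G (gp a ζ) ζ := fun ζ hζ => g_hasDeriv ha hρ hζ
  have hGL : ∀ ζ ∈ sphere (0:ℂ) ρ, conj (Lam ρ a ζ) = G ζ := fun ζ hζ => conj_lam hρ ha ha0 hζ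
  set ℓ : ℝ := - Real.log (1 - ‖a‖ ^ 2 / ρ ^ 2) with hℓ
  have hfrac : 0 < ‖a‖ ^ 2 / ρ ^ 2 := by positivity
  have hfrac1 : ‖a‖ ^ 2 / ρ ^ 2 < 1 := by
    rw [div_lt_one (by positivity)]
    exact pow_lt_pow_left₀ haρ hapos.le two_ne_zero
  have hℓpos : 0 < ℓ := by
    rw [hℓ, neg_pos]
    exact Real.log_neg (by linarith) (by linarith)
  have hLa : Lam ρ a a = -(ℓ:ℂ) := by
    rw [lam_self hρ ha, hℓ]; push_cast; ring
  have hL0 : Lam ρ a 0 = 0 := lam_zero ρ a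
  -- the basic integrals
  have I3 : (∮ ζ in C(0, ρ), G ζ * Q ζ) = -(2 * π * I * F a) := by
    rw [parts hρ hGs hFs hgpc hQc, repro hρ hρR hFd ha, hF0, sub_zero]
  have I4 : (∮ ζ in C(0, ρ), G ζ * gp a ζ) = 0 := by
    have h1 := parts hρ hGs hGs hgpc hgpc
    have h2 : (2:ℂ) * (∮ ζ in C(0, ρ), G ζ * gp a ζ) = 0 := by linear_combination h1
    simpa using h2
  obtain ⟨A, hA0, hA⟩ := dirichlet_nonneg hFd hρ hρR
  have I5 : (∮ ζ in C(0, ρ), conj (F ζ) * Q ζ) = 2 * π * I * A := by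
    rw [← hA]
    apply circleIntegral.integral_congr hρ.le
    intro ζ hζ
    simp only
    rw [(hFs ζ hζ).deriv]
  have I6 : (∮ ζ in C(0, ρ), conj (F ζ) * gp a ζ) = 0 := by
    have h1 := conj_circle hρ (fun ζ => conj (F ζ) * gp a ζ)
    have h2 : (∮ ζ in C(0, ρ), (-((ρ:ℂ) ^ 2 / ζ ^ 2)) * conj (conj (F ζ) * gp a ζ)) =
        ∮ ζ in C(0, ρ), F ζ * Lamp ρ a ζ := by
      apply circleIntegral.integral_congr hρ.le
      intro ζ hζ
      simp only
      rw [map_mul, Complex.conj_conj, ← lamp_eq hρ ha ha0 hζ]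
      ring
    have hz : (∮ ζ in C(0, ρ), F ζ * Lamp ρ a ζ) = 0 := cauchy_zero hρ hρR (hFd.mul hLpd)
    rw [h2, hz] at h1
    simpa using h1
  have I7 : (∮ ζ in C(0, ρ), conj (F ζ) * Lamp ρ a ζ) = -(2 * π * I * conj (F a)) := by
    have h1 := conj_circle hρ (fun ζ => conj (F ζ) * Lamp ρ a ζ)
    have h2 : (∮ ζ in C(0, ρ), (-((ρ:ℂ) ^ 2 / ζ ^ 2)) * conj (conj (F ζ) * Lamp ρ a ζ)) =
        ∮ ζ in C(0, ρ), F ζ * gp a ζ := by
      apply circleIntegral.integral_congr hρ.le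
      intro ζ hζ
      simp only
      rw [map_mul, Complex.conj_conj, ← gp_eq hρ ha ha0 hζ]
      ring
    rw [h2, repro hρ hρR hFd ha, hF0, sub_zero] at h1
    have h3 := congrArg conj h1
    rw [Complex.conj_conj] at h3
    rw [h3]
    simp only [map_mul, Complex.conj_ofReal, Complex.conj_I, map_ofNat]
    ring
  have I8 : (∮ ζ in C(0, ρ), G ζ * Lamp ρ a ζ) = 2 * π * I * ℓ := by
    rw [parts hρ hGs hLs hgpc hLpc, repro hρ hρR hLd ha, hLa, hL0]
    ring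
  -- the area inequality
  obtain ⟨c, hc0, hc⟩ := area_log h hρ hρ1 ha ha0
  set c0 : ℂ := ((-2 * Real.log ‖a‖ : ℝ) : ℂ) with hc0'
  have hW : DifferentiableOn ℂ (fun ζ => c0 + Lam ρ a ζ + F ζ) (ball 0 R) :=
    ((differentiableOn_const c0).add hLd).add hFd
  have hWc : ContinuousOn (fun ζ => c0 + Lam ρ a ζ + F ζ) (sphere 0 ρ) := hW.continuousOn.mono hsR
  have I1 : (∮ ζ in C(0, ρ), (c0 + Lam ρ a ζ + F ζ) * Q ζ) = 0 :=
    cauchy_zero hρ hρR (hW.mul hQd)
  have I2 : (∮ ζ in C(0, ρ), (c0 + Lam ρ a ζ + F ζ) * gp a ζ) = 2 * π * I * (F a - ℓ) := by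
    rw [repro hρ hρR hW ha, hLa, hL0, hF0]
    ring
  have hJ : (∮ ζ in C(0, ρ), ((2 * Real.log ‖phi β ζ - phi β a‖ : ℝ) : ℂ) *
      (dphi β ζ / (phi β ζ - phi β a))) =
      ∮ ζ in C(0, ρ), ((((((c0 + Lam ρ a ζ + F ζ) * Q ζ) + ((c0 + Lam ρ a ζ + F ζ) * gp a ζ)) +
        (G ζ * Q ζ)) + (G ζ * gp a ζ)) + (conj (F ζ) * Q ζ)) + (conj (F ζ) * gp a ζ) := by
    apply circleIntegral.integral_congr hρ.le
    intro ζ hζ
    have hζ1 : ζ ∈ ball (0:ℂ) 1 := hR1 (hsR hζ)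
    have hζ0 : ζ ≠ 0 := sphere_ne' hρ hζ
    have hne : ζ ≠ a := by
      rintro rfl
      simp at hζ
      linarith
    have h1 : ((2 * Real.log ‖phi β ζ - phi β a‖ : ℝ) : ℂ) =
        c0 + Lam ρ a ζ + F ζ + G ζ + conj (F ζ) := by
      have h2 : phi β ζ - phi β a = -a⁻¹ * (1 - a / ζ) * qq β a ζ := by
        rw [phi_sub a ζ ha0 hζ0]
        field_simp
        ring
      have h3 : (1 - a / ζ) ≠ 0 := by
        intro h'
        rw [sub_eq_zero, eq_div_iff hζ0, one_mul] at h'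
        exact hne h'
      have h4 : qq β a ζ ≠ 0 := qq_ne h ha1 hζ1
      have h5 : Real.log ‖phi β ζ - phi β a‖ = - Real.log ‖a‖ + (G ζ).re + (F ζ).re := by
        rw [h2, norm_mul, norm_mul, norm_neg, norm_inv,
          Real.log_mul (mul_ne_zero (inv_ne_zero hapos.ne') (norm_ne_zero_iff.mpr h3))
            (norm_ne_zero_iff.mpr h4),
          Real.log_mul (inv_ne_zero hapos.ne') (norm_ne_zero_iff.mpr h3), Real.log_inv, hG,
          Complex.log_re, ← hexp ζ hζ1, Complex.norm_exp, Real.log_exp]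
      have h6 : Lam ρ a ζ = conj (G ζ) := by rw [← hGL ζ hζ, Complex.conj_conj]
      rw [h5, h6, hc0']
      have h7 := Complex.add_conj (G ζ)
      have h8 := Complex.add_conj (F ζ)
      push_cast at h7 h8 ⊢
      linear_combination -h7 - h8
    simp only
    rw [h1, dphi_div h ha1 hζ1 ha0 hζ0 hne]
    simp only [gp, hQ]
    ring
  have hc1 : CircleIntegrable (fun ζ => (c0 + Lam ρ a ζ + F ζ) * Q ζ) 0 ρ :=
    (hWc.mul hQc).circleIntegrable hρ.le
  have hc2 : CircleIntegrable (fun ζ => (c0 + Lam ρ a ζ + F ζ) * gp a ζ) 0 ρ :=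
    (hWc.mul hgpc).circleIntegrable hρ.le
  have hc3 : CircleIntegrable (fun ζ => G ζ * Q ζ) 0 ρ := (hGc.mul hQc).circleIntegrable hρ.le
  have hc4 : CircleIntegrable (fun ζ => G ζ * gp a ζ) 0 ρ := (hGc.mul hgpc).circleIntegrable hρ.le
  have hc5 : CircleIntegrable (fun ζ => conj (F ζ) * Q ζ) 0 ρ :=
    (hcFc.mul hQc).circleIntegrable hρ.le
  have hc6 : CircleIntegrable (fun ζ => conj (F ζ) * gp a ζ) 0 ρ :=
    (hcFc.mul hgpc).circleIntegrable hρ.le
  have hc12 : CircleIntegrable (fun ζ => ((c0 + Lam ρ a ζ + F ζ) * Q ζ) +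
      ((c0 + Lam ρ a ζ + F ζ) * gp a ζ)) 0 ρ := hc1.add hc2
  have hc13 : CircleIntegrable (fun ζ => (((c0 + Lam ρ a ζ + F ζ) * Q ζ) +
      ((c0 + Lam ρ a ζ + F ζ) * gp a ζ)) + (G ζ * Q ζ)) 0 ρ := hc12.add hc3
  have hc14 : CircleIntegrable (fun ζ => ((((c0 + Lam ρ a ζ + F ζ) * Q ζ) +
      ((c0 + Lam ρ a ζ + F ζ) * gp a ζ)) + (G ζ * Q ζ)) + (G ζ * gp a ζ)) 0 ρ := hc13.add hc4
  have hc15 : CircleIntegrable (fun ζ => (((((c0 + Lam ρ a ζ + F ζ) * Q ζ) +
      ((c0 + Lam ρ a ζ + F ζ) * gp a ζ)) + (G ζ * Q ζ)) + (G ζ * gp a ζ)) +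
      (conj (F ζ) * Q ζ)) 0 ρ := hc14.add hc5
  rw [hJ, circleIntegral.integral_add hc15 hc6, circleIntegral.integral_add hc14 hc5,
    circleIntegral.integral_add hc13 hc4, circleIntegral.integral_add hc12 hc3,
    circleIntegral.integral_add hc1 hc2, I1, I2, I3, I4, I5, I6] at hc
  have hpi : (π:ℂ) ≠ 0 := by exact_mod_cast Real.pi_ne_zero
  have hAc : (A:ℂ) = ℓ - c / π := by
    have hI : (2 * I : ℂ) ≠ 0 := by simp
    have : (2 * I : ℂ) * (π * A) = (2 * I : ℂ) * (π * ℓ - c) := by linear_combination hc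
    have h2 := mul_left_cancel₀ hI this
    field_simp
    linear_combination h2
  have hAr : A = ℓ - c / π := by exact_mod_cast hAc
  have hAle : A ≤ ℓ := by
    rw [hAr]
    have : 0 ≤ c / π := div_nonneg hc0 Real.pi_pos.le
    linarith
  -- the Dirichlet form of the combination
  have hEd : DifferentiableOn ℂ (fun ζ => F ζ - u * Lam ρ a ζ) (ball 0 R) :=
    hFd.sub (hLd.const_mul u)
  obtain ⟨c2, hc20, hc2'⟩ := dirichlet_sum hEd hρ hρR
  have huu : conj u * u = 1 := by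
    rw [Complex.conj_mul', hu]; norm_num
  have hE : (∮ ζ in C(0, ρ), conj (F ζ - u * Lam ρ a ζ) *
      deriv (fun ζ => F ζ - u * Lam ρ a ζ) ζ) =
      ∮ ζ in C(0, ρ), (((conj (F ζ) * Q ζ) - u * (conj (F ζ) * Lamp ρ a ζ)) -
        conj u * (G ζ * Q ζ)) + (G ζ * Lamp ρ a ζ) := by
    apply circleIntegral.integral_congr hρ.le
    intro ζ hζ
    have h1 : deriv (fun ζ => F ζ - u * Lam ρ a ζ) ζ = Q ζ - u * Lamp ρ a ζ :=
      ((hFs ζ hζ).sub ((hLs ζ hζ).const_mul u)).deriv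
    simp only
    rw [h1, map_sub, map_mul, hGL ζ hζ]
    linear_combination (G ζ * Lamp ρ a ζ) * huu
  have hd2 : CircleIntegrable (fun ζ => u * (conj (F ζ) * Lamp ρ a ζ)) 0 ρ :=
    (continuousOn_const.mul (hcFc.mul hLpc)).circleIntegrable hρ.le
  have hd3 : CircleIntegrable (fun ζ => conj u * (G ζ * Q ζ)) 0 ρ :=
    (continuousOn_const.mul (hGc.mul hQc)).circleIntegrable hρ.le
  have hd4 : CircleIntegrable (fun ζ => G ζ * Lamp ρ a ζ) 0 ρ :=
    (hGc.mul hLpc).circleIntegrable hρ.le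
  have hd12 : CircleIntegrable (fun ζ => (conj (F ζ) * Q ζ) -
      u * (conj (F ζ) * Lamp ρ a ζ)) 0 ρ := hc5.sub hd2
  have hd13 : CircleIntegrable (fun ζ => ((conj (F ζ) * Q ζ) -
      u * (conj (F ζ) * Lamp ρ a ζ)) - conj u * (G ζ * Q ζ)) 0 ρ := hd12.sub hd3
  rw [hE, circleIntegral.integral_add hd13 hd4, circleIntegral.integral_sub hd12 hd3,
    circleIntegral.integral_sub hc5 hd2, circleIntegral.integral_const_mul,
    circleIntegral.integral_const_mul, I5, I7, I3, I8] at hc2'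
  have hfin : (A:ℂ) + 2 * ((conj u * F a).re : ℂ) + ℓ = c2 := by
    have h2pi : (2 * π * I : ℂ) ≠ 0 := two_pi_I_ne_zero
    apply mul_left_cancel₀ h2pi
    have h8 := Complex.add_conj (conj u * F a)
    rw [map_mul, Complex.conj_conj] at h8
    push_cast at h8
    rw [← hc2', ← h8]
    ring
  have hfinr : A + 2 * (conj u * F a).re + ℓ = c2 := by exact_mod_cast hfin
  refine ⟨c2, ?_, hc20⟩
  linarith

end Pool.Agent.Helper68.EKC

end

section


/-!
E1: the energy inequality with a unimodular factor `u` (after helper39).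
-/

set_option autoImplicit false

open Complex MeasureTheory Metric Set Filter Topology
open scoped Real ENNReal ComplexConjugate NNReal

namespace Pool.Agent.Helper68.EKC

open Pool.Agent.Helper39.Area Pool.Agent.Helper39.EK

variable {β : ℂ → ℂ}

theorem energy_rho_u (h : Ext β) {u : ℂ} (hu : ‖u‖ = 1) {ρ₀ ρ : ℝ} (hρ₀ : 0 < ρ₀) (hρ : ρ₀ < ρ) (hρ1 : ρ < 1)
    {a : ℂ} (ha : a ∈ ball (0:ℂ) ρ) (ha0 : a ≠ 0) {F : ℂ → ℂ}
    (hF : ∀ ζ ∈ ball (0:ℂ) 1, HasDerivAt F (deriv (qq β a) ζ / qq β a ζ) ζ)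
    (hF0 : F 0 = 0) (hexp : ∀ ζ ∈ ball (0:ℂ) 1, Complex.exp (F ζ) = qq β a ζ) :
    ∫ z in ball (0:ℂ) ρ₀, ‖deriv F z + u * (conj a / ((ρ:ℂ) ^ 2 - conj a * z))‖ ^ 2 ≤
      π * (2 * (- Real.log (1 - ‖a‖ ^ 2 / ρ ^ 2)) + 2 * (conj u * F a).re) := by
  have hρp : 0 < ρ := hρ₀.trans hρ
  obtain ⟨c2, hc2, hsum⟩ := energy_aux_u h hu hρp hρ1 ha ha0 hF hF0 hexp
  set R : ℝ := min 1 (ρ ^ 2 / ‖a‖) with hR
  have hρR : ρ < R := lt_min hρ1 (rad_lt hρp ha ha0)
  have hR1 : ball (0:ℂ) R ⊆ ball 0 1 := ball_subset_ball (min_le_left _ _)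
  have hR2 : ball (0:ℂ) R ⊆ ball 0 (ρ ^ 2 / ‖a‖) := ball_subset_ball (min_le_right _ _)
  have hFd : DifferentiableOn ℂ F (ball 0 R) := fun ζ hζ =>
    (hF ζ (hR1 hζ)).differentiableAt.differentiableWithinAt
  have hLd : DifferentiableOn ℂ (Lam ρ a) (ball 0 R) := (lam_diff hρp ha ha0).mono hR2
  have hEd : DifferentiableOn ℂ (fun ζ => F ζ - u * Lam ρ a ζ) (ball 0 R) := hFd.sub (hLd.const_mul u)
  have h1 := area_le hEd hρp hρR hsum
  have hder : ∀ z ∈ ball (0:ℂ) R, deriv (fun ζ => F ζ - u * Lam ρ a ζ) z =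
      deriv F z + u * (conj a / ((ρ:ℂ) ^ 2 - conj a * z)) := by
    intro z hz
    have h2 : deriv (fun ζ => F ζ - u * Lam ρ a ζ) z = deriv F z - u * Lamp ρ a z :=
      (((hF z (hR1 hz)).differentiableAt.hasDerivAt).sub
        ((lam_hasDeriv hρp ha ha0 (hR2 hz)).const_mul u)).deriv
    rw [h2, Lamp]
    have hρc : (ρ:ℂ) ^ 2 ≠ 0 := pow_ne_zero _ (by exact_mod_cast hρp.ne')
    have h3 : (1 - conj a * z / (ρ:ℂ) ^ 2) = ((ρ:ℂ) ^ 2 - conj a * z) / (ρ:ℂ) ^ 2 := by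
      rw [sub_div, div_self hρc]
    rw [h3, neg_div, mul_neg, sub_neg_eq_add, div_div_div_cancel_right₀ hρc]
  have hcont : ContinuousOn (fun z => ‖deriv F z + u * (conj a / ((ρ:ℂ) ^ 2 - conj a * z))‖ ^ 2)
      (closedBall 0 ρ) := by
    have h4 : ContinuousOn (fun z => ‖deriv (fun ζ => F ζ - u * Lam ρ a ζ) z‖ ^ 2) (closedBall 0 ρ) :=
      (((hEd.deriv isOpen_ball).continuousOn.mono (closedBall_subset_ball hρR)).norm).pow 2
    refine h4.congr fun z hz => ?_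
    simp only
    rw [hder z (closedBall_subset_ball hρR hz)]
  have hint : IntegrableOn (fun z => ‖deriv F z + u * (conj a / ((ρ:ℂ) ^ 2 - conj a * z))‖ ^ 2)
      (ball 0 ρ) :=
    (hcont.integrableOn_compact (isCompact_closedBall _ _)).mono_set ball_subset_closedBall
  calc ∫ z in ball (0:ℂ) ρ₀, ‖deriv F z + u * (conj a / ((ρ:ℂ) ^ 2 - conj a * z))‖ ^ 2
      ≤ ∫ z in ball (0:ℂ) ρ, ‖deriv F z + u * (conj a / ((ρ:ℂ) ^ 2 - conj a * z))‖ ^ 2 :=
        setIntegral_mono_set hint (ae_of_all _ fun _ => by positivity)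
          (ball_subset_ball hρ.le).eventuallyLE
    _ = ∫ z in ball (0:ℂ) ρ, ‖deriv (fun ζ => F ζ - u * Lam ρ a ζ) z‖ ^ 2 := by
        apply setIntegral_congr_fun measurableSet_ball
        intro z hz
        simp only
        rw [hder z (ball_subset_ball hρR.le hz)]
    _ ≤ π * c2 := h1
    _ ≤ _ := mul_le_mul_of_nonneg_left hc2 Real.pi_pos.le

/-- E1: the energy inequality -/
theorem energy_u (h : Ext β) {u : ℂ} (hu : ‖u‖ = 1) {ρ₀ : ℝ} (hρ₀ : 0 < ρ₀) (hρ₀1 : ρ₀ < 1)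
    {a : ℂ} (ha : a ∈ ball (0:ℂ) 1) (ha0 : a ≠ 0) {F : ℂ → ℂ}
    (hF : ∀ ζ ∈ ball (0:ℂ) 1, HasDerivAt F (deriv (qq β a) ζ / qq β a ζ) ζ)
    (hF0 : F 0 = 0) (hexp : ∀ ζ ∈ ball (0:ℂ) 1, Complex.exp (F ζ) = qq β a ζ) :
    ∫ z in ball (0:ℂ) ρ₀, ‖deriv F z + u * (conj a / (1 - conj a * z))‖ ^ 2 ≤
      2 * π * (- Real.log (1 - ‖a‖ ^ 2) + (conj u * F a).re) := by
  have ha1 : ‖a‖ < 1 := by simpa using ha
  have hapos : 0 < ‖a‖ := norm_pos_iff.mpr ha0
  have hFd : DifferentiableOn ℂ F (ball 0 1) := fun ζ hζ =>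
    (hF ζ hζ).differentiableAt.differentiableWithinAt
  have hdc : ContinuousOn (deriv F) (closedBall 0 ρ₀) :=
    (hFd.deriv isOpen_ball).continuousOn.mono (closedBall_subset_ball hρ₀1)
  obtain ⟨M, hM⟩ := (isCompact_closedBall (0:ℂ) ρ₀).exists_bound_of_continuousOn hdc
  have hM0 : 0 ≤ M := (norm_nonneg _).trans (hM 0 (mem_closedBall_self hρ₀.le))
  have haρ : ‖a‖ * ρ₀ < 1 := by nlinarith
  set δ : ℝ := (1 - ‖a‖ * ρ₀) / 2 with hδ
  have hδ0 : 0 < δ := by rw [hδ]; linarith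
  have hlow : ∀ ρ : ℝ, (1 + ‖a‖ * ρ₀) / 2 ≤ ρ ^ 2 → ∀ z ∈ ball (0:ℂ) ρ₀,
      δ ≤ ‖(ρ:ℂ) ^ 2 - conj a * z‖ := by
    intro ρ hρ z hz
    have h1 : ‖(ρ:ℂ) ^ 2‖ = ρ ^ 2 := by
      rw [norm_pow, Complex.norm_real, Real.norm_eq_abs, sq_abs]
    have h2 : ‖conj a * z‖ ≤ ‖a‖ * ρ₀ := by
      rw [norm_mul, RCLike.norm_conj]
      rw [mem_ball, dist_zero_right] at hz
      exact mul_le_mul_of_nonneg_left hz.le (norm_nonneg _)
    have h3 := norm_sub_norm_le ((ρ:ℂ) ^ 2) (conj a * z)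
    rw [h1] at h3
    rw [hδ]
    linarith
  have hev : ∀ᶠ ρ : ℝ in 𝓝[<] 1, ρ₀ < ρ ∧ ‖a‖ < ρ ∧ ρ < 1 ∧ (1 + ‖a‖ * ρ₀) / 2 ≤ ρ ^ 2 := by
    have h1 : ∀ᶠ ρ : ℝ in 𝓝[<] 1, ρ₀ < ρ :=
      (eventually_gt_nhds hρ₀1).filter_mono nhdsWithin_le_nhds
    have h2 : ∀ᶠ ρ : ℝ in 𝓝[<] 1, ‖a‖ < ρ :=
      (eventually_gt_nhds ha1).filter_mono nhdsWithin_le_nhds
    have h3 : ∀ᶠ ρ : ℝ in 𝓝[<] 1, ρ < 1 := eventually_mem_nhdsWithin
    have h4 : ∀ᶠ ρ : ℝ in 𝓝[<] 1, (1 + ‖a‖ * ρ₀) / 2 < ρ ^ 2 := by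
      have h5 : Tendsto (fun ρ : ℝ => ρ ^ 2) (𝓝[<] 1) (𝓝 (1 ^ 2)) :=
        ((continuous_pow 2).tendsto 1).mono_left nhdsWithin_le_nhds
      exact h5.eventually (eventually_gt_nhds (by linarith))
    filter_upwards [h1, h2, h3, h4] with ρ a1 a2 a3 a4
    exact ⟨a1, a2, a3, a4.le⟩
  have hL : Tendsto (fun ρ : ℝ => ∫ z in ball (0:ℂ) ρ₀,
      ‖deriv F z + u * (conj a / ((ρ:ℂ) ^ 2 - conj a * z))‖ ^ 2) (𝓝[<] 1)
      (𝓝 (∫ z in ball (0:ℂ) ρ₀, ‖deriv F z + u * (conj a / (1 - conj a * z))‖ ^ 2)) := by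
    apply tendsto_integral_filter_of_dominated_convergence (fun _ => (M + ‖a‖ / δ) ^ 2)
    · filter_upwards [hev] with ρ hρ
      have hc : ContinuousOn (fun z => ‖deriv F z + u * (conj a / ((ρ:ℂ) ^ 2 - conj a * z))‖ ^ 2)
          (ball 0 ρ₀) := by
        apply ContinuousOn.pow
        apply ContinuousOn.norm
        apply (hdc.mono ball_subset_closedBall).add
        apply continuousOn_const.mul
        apply ContinuousOn.div continuousOn_const (by fun_prop)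
        intro z hz h0
        have := hlow ρ hρ.2.2.2 z hz
        rw [h0, norm_zero] at this
        linarith
      exact hc.aestronglyMeasurable measurableSet_ball
    · filter_upwards [hev] with ρ hρ
      filter_upwards [ae_restrict_mem measurableSet_ball] with z hz
      rw [Real.norm_of_nonneg (by positivity)]
      gcongr
      refine (norm_add_le _ _).trans (add_le_add (hM z (ball_subset_closedBall hz)) ?_)
      rw [norm_mul, hu, one_mul, norm_div, RCLike.norm_conj]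
      exact div_le_div_of_nonneg_left (norm_nonneg _) hδ0 (hlow ρ hρ.2.2.2 z hz)
    · exact integrableOn_const measure_ball_lt_top.ne
    · filter_upwards [ae_restrict_mem measurableSet_ball] with z hz
      have hne : (1:ℂ) - conj a * z ≠ 0 := by
        intro h0
        have := hlow 1 (by linarith) z hz
        rw [Complex.ofReal_one, one_pow, h0, norm_zero] at this
        linarith
      have h1 : Tendsto (fun ρ : ℝ => (ρ:ℂ) ^ 2 - conj a * z) (𝓝[<] 1)
          (𝓝 (((1:ℝ):ℂ) ^ 2 - conj a * z)) := by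
        have hc : Continuous fun ρ : ℝ => (ρ:ℂ) ^ 2 - conj a * z := by fun_prop
        exact (hc.tendsto 1).mono_left nhdsWithin_le_nhds
      rw [Complex.ofReal_one, one_pow] at h1
      exact ((((tendsto_const_nhds (x := conj a)).div h1 hne).const_mul u).const_add
        (deriv F z)).norm.pow 2
  have hRlim : Tendsto (fun ρ : ℝ => π * (2 * (- Real.log (1 - ‖a‖ ^ 2 / ρ ^ 2)) + 2 * (conj u * F a).re))
      (𝓝[<] 1) (𝓝 (π * (2 * (- Real.log (1 - ‖a‖ ^ 2 / 1 ^ 2)) + 2 * (conj u * F a).re))) := by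
    have h1 : ContinuousAt (fun ρ : ℝ => π * (2 * (- Real.log (1 - ‖a‖ ^ 2 / ρ ^ 2)) +
        2 * (conj u * F a).re)) 1 := by
      have h2 : (1:ℝ) - ‖a‖ ^ 2 / 1 ^ 2 ≠ 0 := by
        have : ‖a‖ ^ 2 < 1 := by nlinarith
        rw [one_pow, div_one]
        linarith
      have h3 : ContinuousAt (fun ρ : ℝ => 1 - ‖a‖ ^ 2 / ρ ^ 2) 1 := by
        apply continuousAt_const.sub
        apply continuousAt_const.div (by fun_prop)
        norm_num
      have h4 := h3.log h2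
      exact continuousAt_const.mul ((continuousAt_const.mul h4.neg).add continuousAt_const)
    exact h1.tendsto.mono_left nhdsWithin_le_nhds
  have hfin := le_of_tendsto_of_tendsto hL hRlim (by
    filter_upwards [hev] with ρ hρ
    exact energy_rho_u h hu hρ₀ hρ.1 hρ.2.2.1 (by simpa using hρ.2.1) ha0 hF hF0 hexp)
  rw [one_pow, div_one] at hfin
  linarith

end Pool.Agent.Helper68.EKC

end

section

set_option autoImplicit false
open Complex MeasureTheory Metric Set Filter Topology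
open scoped Real ENNReal ComplexConjugate NNReal

/-! The branch of `log N`, and the energy on the disc with a unimodular factor `u`. -/

namespace Pool.Agent.Helper68.EKC

open Pool.Agent.Helper39.Area Pool.Agent.Helper52.EK Pool.Agent.Helper39.EK

variable {β : ℂ → ℂ}

/-- `L` is the logarithm of `N β = psi'(1/z)` with `L 0 = 0` -/
structure IsLog (β L : ℂ → ℂ) : Prop where
  cont : ContinuousOn L (ball 0 1)
  zero : L 0 = 0
  exp : ∀ z ∈ ball (0:ℂ) 1, Complex.exp (L z) = N β z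

/-- identification of the branch: any logarithm of the divided difference, at the diagonal -/
theorem branch_eq (h : Ext β) {H : ℂ → ℂ} (hH : ContinuousOn H (ball 0 1)) (hH0 : H 0 = 0)
    (hexp : ∀ ζ ∈ ball (0:ℂ) 1, Complex.exp (H ζ) = N β ζ) {a : ℂ}
    (ha : a ∈ ball (0:ℂ) 1) {F : ℂ → ℂ} (hFc : ContinuousOn F (ball 0 1)) (hF0 : F 0 = 0)
    (hFe : ∀ ζ ∈ ball (0:ℂ) 1, Complex.exp (F ζ) = qq β a ζ) : H a = F a := by
  set U : Set (ℂ × ℂ) := ball 0 1 ×ˢ ball 0 1 with hU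
  have hUo : IsOpen U := isOpen_ball.prod isOpen_ball
  have hUconv : Convex ℝ U := (convex_ball _ _).prod (convex_ball _ _)
  have h00 : ((0:ℂ), (0:ℂ)) ∈ U := ⟨mem_ball_self one_pos, mem_ball_self one_pos⟩
  have hUs : IsSimplyConnected U := by
    have hc : ContractibleSpace U := hUconv.contractibleSpace ⟨_, h00⟩
    show SimplyConnectedSpace U
    infer_instance
  have hqc : ContinuousOn (fun p : ℂ × ℂ => qq β p.1 p.2) U := by
    unfold qq
    apply ContinuousOn.sub continuousOn_const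
    apply ContinuousOn.mul (by fun_prop)
    exact dslope_cont h.diff
  have hq0 : 0 ∉ (fun p : ℂ × ℂ => qq β p.1 p.2) '' U := by
    rintro ⟨p, ⟨hp1, hp2⟩, hp⟩
    exact qq_ne h hp1 hp2 hp
  obtain ⟨Φ, hΦc, hΦ⟩ := Complex.exists_continuousOn_eqOn_exp_comp hUs hUo hqc hq0
  have hΦe : ∀ b ∈ ball (0:ℂ) 1, ∀ ζ ∈ ball (0:ℂ) 1, Complex.exp (Φ (b, ζ)) = qq β b ζ :=
    fun b hb ζ hζ => hΦ (show (b, ζ) ∈ U from ⟨hb, hζ⟩)
  have h0b : (0:ℂ) ∈ ball (0:ℂ) 1 := mem_ball_self one_pos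
  -- the diagonal
  have hTc : ContinuousOn (fun b : ℂ => Φ (b, b) - Φ (b, 0)) (ball 0 1) := by
    apply ContinuousOn.sub
    · exact hΦc.comp (by fun_prop) (fun b hb => ⟨hb, hb⟩)
    · exact hΦc.comp (by fun_prop) (fun b hb => ⟨hb, h0b⟩)
  have hTe : ∀ b ∈ ball (0:ℂ) 1, Complex.exp (Φ (b, b) - Φ (b, 0)) = 1 - b ^ 2 * deriv β b := by
    intro b hb
    rw [Complex.exp_sub, hΦe b hb b hb, hΦe b hb 0 h0b]
    simp only [qq, mul_zero, zero_mul, sub_zero, div_one, dslope_same]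
    ring
  have hTHc : ContinuousOn (fun b : ℂ => (Φ (b, b) - Φ (b, 0)) - H b) (ball 0 1) := hTc.sub hH
  have hTH : ∀ b ∈ ball (0:ℂ) 1, (Φ (b, b) - Φ (b, 0)) - H b = 0 := by
    apply eq_zero_of_exp_one (convex_ball (0:ℂ) 1).isPreconnected hTHc _ h0b
    · simp [hH0]
    · intro b hb
      rw [Complex.exp_sub, hTe b hb, hexp b hb, N, div_self]
      exact h.ne b hb
  have hFΦ : ∀ ζ ∈ ball (0:ℂ) 1, (Φ (a, ζ) - Φ (a, 0)) - F ζ = 0 := by
    apply eq_zero_of_exp_one (convex_ball (0:ℂ) 1).isPreconnected _ _ h0b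
    · simp [hF0]
    · apply ContinuousOn.sub _ hFc
      apply ContinuousOn.sub _ continuousOn_const
      exact hΦc.comp (by fun_prop) (fun ζ hζ => ⟨ha, hζ⟩)
    · intro ζ hζ
      rw [Complex.exp_sub, Complex.exp_sub, hΦe a ha ζ hζ, hΦe a ha 0 h0b, hFe ζ hζ]
      have h2 : qq β a 0 = 1 := by simp [qq]
      rw [h2, div_one, div_self (qq_ne h ha hζ)]
  have h1 := hTH a ha
  have h2 := hFΦ a ha
  linear_combination h2 - h1

/-- derivative of `log ((f z - f a) / (1/z - 1/a)) - u log (1 - a z)` -/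
noncomputable def DdU (β : ℂ → ℂ) (u : ℂ) (a : ℝ) (z : ℂ) : ℂ :=
  dphi β z / (phi β z - phi β a) - (-z⁻¹ + (z - a)⁻¹ - u * (a / (1 - a * z)))

theorem E1aU (h : Ext β) {L : ℂ → ℂ} (hL : IsLog β L) {u : ℂ} (hu : ‖u‖ = 1) {a ρ : ℝ}
    (ha : 0 < a) (haρ : a < ρ) (hρ : ρ < 1) :
    IntegrableOn (fun z : ℂ => ‖DdU β u a z‖ ^ 2) (ball 0 ρ) ∧
    ∫ z in ball (0:ℂ) ρ, ‖DdU β u a z‖ ^ 2 ≤
      2 * π * (- Real.log (1 - a ^ 2) + (conj u * L a).re) := by
  have hρ0 : 0 < ρ := ha.trans haρ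
  have ha1 : ((a:ℝ):ℂ) ∈ ball (0:ℂ) 1 := by
    rw [mem_ball, dist_zero_right, Complex.norm_real, Real.norm_of_nonneg ha.le]
    linarith
  have ha0 : ((a:ℝ):ℂ) ≠ 0 := by exact_mod_cast ha.ne'
  obtain ⟨F, hF0, hF, hexp⟩ := exists_log h ha1
  have hFd : DifferentiableOn ℂ F (ball 0 1) := fun ζ hζ =>
    (hF ζ hζ).differentiableAt.differentiableWithinAt
  have hLF : L a = F a := branch_eq h hL.cont hL.zero hL.exp ha1 hFd.continuousOn hF0 hexp
  set g : ℂ → ℝ := fun z => ‖deriv F z + u * (conj (a:ℂ) / (1 - conj (a:ℂ) * z))‖ ^ 2 with hg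
  have hgc : ContinuousOn g (closedBall 0 ρ) := by
    have hdc : ContinuousOn (deriv F) (closedBall 0 ρ) :=
      (hFd.deriv isOpen_ball).continuousOn.mono (closedBall_subset_ball hρ)
    apply ContinuousOn.pow
    apply ContinuousOn.norm
    apply hdc.add
    apply continuousOn_const.mul
    apply ContinuousOn.div continuousOn_const (by fun_prop)
    intro z hz h0
    rw [mem_closedBall, dist_zero_right] at hz
    have h1 : conj (a:ℂ) * z = 1 := (sub_eq_zero.mp h0).symm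
    have h2 : ‖conj (a:ℂ) * z‖ = 1 := by rw [h1, norm_one]
    rw [norm_mul, RCLike.norm_conj, Complex.norm_real, Real.norm_of_nonneg ha.le] at h2
    nlinarith [norm_nonneg z]
  have hgi : IntegrableOn g (ball 0 ρ) :=
    (hgc.integrableOn_compact (isCompact_closedBall _ _)).mono_set ball_subset_closedBall
  have hae : (fun z : ℂ => ‖DdU β u a z‖ ^ 2) =ᵐ[volume.restrict (ball (0:ℂ) ρ)] g := by
    have h1 : ∀ᵐ z : ℂ ∂(volume.restrict (ball (0:ℂ) ρ)), z ∈ ball (0:ℂ) ρ :=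
      ae_restrict_mem measurableSet_ball
    have h2 : ∀ᵐ z : ℂ ∂(volume.restrict (ball (0:ℂ) ρ)), z ≠ 0 := by
      apply ae_restrict_of_ae
      exact measure_eq_zero_iff_ae_notMem.mp (measure_singleton (μ := (volume : Measure ℂ)) 0)
    have h3 : ∀ᵐ z : ℂ ∂(volume.restrict (ball (0:ℂ) ρ)), z ≠ a := by
      apply ae_restrict_of_ae
      exact measure_eq_zero_iff_ae_notMem.mp (measure_singleton (μ := (volume : Measure ℂ)) (a:ℂ))
    filter_upwards [h1, h2, h3] with z hz hz0 hza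
    have hz1 : z ∈ ball (0:ℂ) 1 := ball_subset_ball hρ.le hz
    rw [hg, DdU, dphi_div h ha1 hz1 ha0 hz0 hza]
    simp only
    rw [(hF z hz1).deriv, Complex.conj_ofReal]
    congr 2
    ring
  refine ⟨hgi.congr hae.symm, ?_⟩
  rw [integral_congr_ae hae, hLF]
  have h4 := energy_u h hu hρ0 hρ ha1 ha0 hF hF0 hexp
  refine h4.trans (le_of_eq ?_)
  rw [Complex.norm_real, Real.norm_of_nonneg ha.le]

/-- the real part of the logarithm -/
theorem IsLog.re {L : ℂ → ℂ} (hL : IsLog β L) {z : ℂ} (hz : z ∈ ball (0:ℂ) 1) :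
    (L z).re = Real.log ‖N β z‖ := by
  rw [← hL.exp z hz, Complex.norm_exp, Real.log_exp]

/-- Goluzin's inequality for `L` -/
theorem IsLog.goluzin (h : Ext β) {L : ℂ → ℂ} (hL : IsLog β L) {z : ℂ} (hz : z ∈ ball (0:ℂ) 1) :
    ‖L z‖ ≤ - Real.log (1 - ‖z‖ ^ 2) :=
  Pool.Agent.Helper39.Area.goluzin h hL.cont hL.zero hL.exp hz

end Pool.Agent.Helper68.EKC

end

section


/-!
The energy on the strip with a unimodular factor `u` (after helper86).
-/

set_option autoImplicit false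

open Complex MeasureTheory Metric Set
open scoped Real ComplexConjugate ENNReal

namespace Pool.Agent.Helper68.EKC

open Pool.Agent.Helper39.Area Pool.Agent.Helper52.EK Pool.Agent.Helper39.EK Pool.Agent.Helper86.EK

/-- the comparison function with `u`: `2 kapU` is the derivative of
`log (1/z - 1/a) + u log (1 - a z)` -/
noncomputable def kapU (a : ℝ) (u : ℂ) (ω : ℂ) : ℂ :=
  (Complex.exp ω / (Complex.exp ω - I * (tau a : ℂ)) - Complex.exp ω / (Complex.exp ω - I) +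
    u * (Complex.exp ω / (Complex.exp ω + I * (tau a : ℂ)) -
      Complex.exp ω / (Complex.exp ω + I))) / 2

section
variable {a x₁ x₂ : ℝ} {ω : ℂ}

theorem ne_tau (ha : 0 < a) (ha1 : a < 1) (h1 : Real.log (tau a) < x₁)
    (hω : ω ∈ Rect x₁ x₂) : Complex.exp ω - I * (tau a : ℂ) ≠ 0 ∧
      Complex.exp ω + I * (tau a : ℂ) ≠ 0 := by
  have e3 := sq_add_tau_ne ha ha1 h1 hω
  have e6 : Complex.exp ω ^ 2 + (tau a : ℂ) ^ 2 =
      (Complex.exp ω - I * (tau a : ℂ)) * (Complex.exp ω + I * (tau a : ℂ)) := by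
    linear_combination ((tau a : ℂ) ^ 2) * I_sq
  exact ⟨fun h => e3 (by rw [e6, h, zero_mul]), fun h => e3 (by rw [e6, h, mul_zero])⟩

/-- the chain rule identity -/
theorem zd_DdU {β : ℂ → ℂ} {u : ℂ} (ha : 0 < a) (ha1 : a < 1) (h1 : Real.log (tau a) < x₁)
    (h2 : x₂ < 0) (hω : ω ∈ Rect x₁ x₂) :
    zd ω * DdU β u a (zf ω) = 2 * Xf β a ω - 2 * kapU a u ω := by
  have hX : 2 * Xf β a ω = zd ω * (dphi β (zf ω) / (phi β (zf ω) - phi β (a:ℂ))) := by
    rw [Xf]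
    by_cases h : phi β (zf ω) - phi β (a:ℂ) = 0
    · rw [h]; simp
    · field_simp
  have e1 := exp_ne_I h2 hω
  have e2 := exp_ne_neg_I hω
  have e5 : (1 + (a:ℂ)) ≠ 0 := by
    have : ((1 + a : ℝ) : ℂ) ≠ 0 := by exact_mod_cast (by positivity)
    simpa using this
  obtain ⟨e7, e8⟩ := ne_tau ha ha1 h1 hω
  have ht : (tau a : ℂ) = (1 - a) / (1 + a) := by rw [tau]; push_cast; ring
  have hk : zd ω * (-(zf ω)⁻¹ + (zf ω - a)⁻¹ - u * (a / (1 - a * zf ω))) = 2 * kapU a u ω := by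
    unfold kapU
    set E := Complex.exp ω with hE
    set t : ℂ := (tau a : ℂ) with htt
    have f1 : zf ω - a = (1 + a) * (I * t - E) / (I + E) := by
      rw [zf, ← hE, ht]
      field_simp
      ring
    have f2 : 1 - a * zf ω = (1 + a) * (I * t + E) / (I + E) := by
      rw [zf, ← hE, ht]
      field_simp
      ring
    have e7' : I * t - E ≠ 0 := fun h => e7 (by linear_combination -h)
    have e8' : I * t + E ≠ 0 := fun h => e8 (by linear_combination h)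
    have e10 : E + I = I + E := add_comm _ _
    have e9 : E - I ≠ 0 := fun h => e1 (by linear_combination -h)
    have e9' : E + I ≠ 0 := by rw [e10]; exact e2
    have e11 : (1 + a : ℂ) * t = 1 - a := by rw [ht]; field_simp
    have k1 : zd ω * (-(zf ω)⁻¹ + (zf ω - a)⁻¹) = E / (E - I * t) - E / (E - I) := by
      rw [f1, zd, zf, ← hE, e10]
      have k3 : -2 * I * E / (I + E) ^ 2 * (-((I - E) / (I + E))⁻¹ +
          ((1 + ↑a) * (I * t - E) / (I + E))⁻¹) =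
          -2 * I * E / (I + E) * (-(1 / (I - E)) + 1 / ((1 + ↑a) * (I * t - E))) := by
        field_simp
      have k4 : E / (E - I * t) - E / (E - I) = E * (I * t - I) / ((I * t - E) * (I - E)) := by
        field_simp
        ring
      rw [k3, k4, neg_add_eq_sub, div_sub_div _ _ (mul_ne_zero e5 e7') e1, div_mul_div_comm,
        div_eq_div_iff (mul_ne_zero e2 (mul_ne_zero (mul_ne_zero e5 e7') e1))
          (mul_ne_zero e7' e1)]
      have k5 : 1 * (I - E) - (1 + ↑a) * (I * t - E) * 1 = a * (I + E) := by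
        linear_combination -I * e11
      rw [k5]
      have k6 : I * t * (1 + a) - I * (1 + a) = -2 * I * a := by
        linear_combination I * e11
      linear_combination (-(E * (I + E) * (I * t - E) * (I - E))) * k6
    have k2 : zd ω * (a / (1 - a * zf ω)) = -(E / (E + I * t) - E / (E + I)) := by
      rw [f2, zd, ← hE, e10]
      have k3 : -2 * I * E / (I + E) ^ 2 * (↑a / ((1 + ↑a) * (I * t + E) / (I + E))) =
          -2 * I * E * a / ((I + E) * ((1 + ↑a) * (I * t + E))) := by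
        field_simp
      have k4 : -(E / (E + I * t) - E / (I + E)) = E * (I * t - I) / ((I * t + E) * (I + E)) := by
        have : E + I * t = I * t + E := add_comm _ _
        rw [this]
        field_simp
        ring
      rw [k3, k4, div_eq_div_iff (mul_ne_zero e2 (mul_ne_zero e5 e8')) (mul_ne_zero e8' e2)]
      have k6 : I * t * (1 + a) - I * (1 + a) = -2 * I * a := by
        linear_combination I * e11
      linear_combination (-(E * (I + E) * (I * t + E))) * k6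
    linear_combination k1 - u * k2
  rw [DdU, mul_sub, hX, hk]

end

theorem lint_ball_u {β : ℂ → ℂ} (h : Ext β) {L : ℂ → ℂ} (hL : IsLog β L) {u : ℂ} (hu : ‖u‖ = 1)
    {a : ℝ} (ha : 0 < a) (ha1 : a < 1) :
    ∫⁻ z in ball (0:ℂ) 1, ENNReal.ofReal (‖DdU β u a z‖ ^ 2) ≤
      ENNReal.ofReal (2 * π * (- Real.log (1 - a ^ 2) + (conj u * L a).re)) := by
  set r : ℕ → ℝ := fun n => 1 - (1 - a) / (n + 2) with hrdef
  have h1a : 0 < 1 - a := by linarith
  have hr : ∀ n, a < r n ∧ r n < 1 := by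
    intro n
    have hn : (0:ℝ) ≤ n := Nat.cast_nonneg n
    constructor
    · have : (1 - a) / ((n:ℝ) + 2) < 1 - a := by
        rw [div_lt_iff₀ (by positivity)]
        nlinarith
      simp only [hrdef]
      linarith
    · have : 0 < (1 - a) / ((n:ℝ) + 2) := by positivity
      simp only [hrdef]
      linarith
  have hmono : Monotone r := by
    intro m n hmn
    have hmn' : (m:ℝ) ≤ n := by exact_mod_cast hmn
    have hm : (0:ℝ) ≤ m := Nat.cast_nonneg m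
    simp only [hrdef]
    have : (1 - a) / ((n:ℝ) + 2) ≤ (1 - a) / ((m:ℝ) + 2) := by gcongr
    linarith
  have hU : ball (0:ℂ) 1 = ⋃ n, ball 0 (r n) := by
    ext z
    rw [mem_iUnion]
    constructor
    · intro hz
      rw [mem_ball, dist_zero_right] at hz
      obtain ⟨n, hn⟩ := exists_nat_gt ((1 - a) / (1 - ‖z‖))
      have hz1 : 0 < 1 - ‖z‖ := by linarith
      refine ⟨n, ?_⟩
      rw [mem_ball, dist_zero_right]
      rw [div_lt_iff₀ hz1] at hn
      have hn0 : (0:ℝ) ≤ n := Nat.cast_nonneg n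
      have : (1 - a) / ((n:ℝ) + 2) < 1 - ‖z‖ := by
        rw [div_lt_iff₀ (by positivity)]
        nlinarith
      simp only [hrdef]
      linarith
    · rintro ⟨n, hn⟩
      exact ball_subset_ball (hr n).2.le hn
  rw [hU, setLIntegral_iUnion_of_directed _
    (Monotone.directed_le (fun m n hmn => ball_subset_ball (hmono hmn)))]
  refine iSup_le fun n => ?_
  obtain ⟨hi, hle⟩ := E1aU h hL hu ha (hr n).1 (hr n).2
  rw [← ofReal_integral_eq_lintegral_ofReal hi (Filter.Eventually.of_forall fun _ => by positivity)]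
  exact ENNReal.ofReal_le_ofReal hle

/-- continuity of the integrand on the closed rectangle -/
theorem cont_F_u {β : ℂ → ℂ} {R : ℝ} (h : ExtR β R) (u : ℂ) {a : ℝ} (ha : 0 < a) (ha1 : a < 1) {x₁ x₂ : ℝ}
    (h1 : Real.log (tau a) < x₁) (h2 : x₂ < 0) :
    ContinuousOn (fun ω => ‖2 * Xf β a ω - 2 * kapU a u ω‖ ^ 2) (Rect x₁ x₂) := by
  have hR := h.one_lt
  have hzc : ContinuousOn zf (Rect x₁ x₂) := fun ω hω =>
    (hasDerivAt_zf (exp_ne_neg_I hω)).continuousAt.continuousWithinAt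
  have hmaps : MapsTo zf (Rect x₁ x₂) (ball 0 R) := by
    intro ω hω
    rw [mem_ball, dist_zero_right]
    exact lt_of_le_of_lt (norm_zf_le hω) hR
  have hβ : ContinuousOn (fun ω => β (zf ω)) (Rect x₁ x₂) := h.diff.continuousOn.comp hzc hmaps
  have hdβ : ContinuousOn (fun ω => deriv β (zf ω)) (Rect x₁ x₂) :=
    (h.diff.deriv isOpen_ball).continuousOn.comp hzc hmaps
  have hX : ContinuousOn (Xf β a) (Rect x₁ x₂) := by
    have c1 : ContinuousOn zd (Rect x₁ x₂) := by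
      apply ContinuousOn.div (by fun_prop) (by fun_prop)
      intro ω hω
      apply pow_ne_zero
      rw [add_comm]
      exact exp_ne_neg_I hω
    have c2 : ContinuousOn (fun ω => dphi β (zf ω)) (Rect x₁ x₂) := by
      apply ContinuousOn.add _ hdβ
      apply ContinuousOn.neg
      apply ContinuousOn.inv₀ (hzc.pow 2)
      intro ω hω
      exact pow_ne_zero _ (zf_ne_zero h2 hω)
    have c3 : ContinuousOn (fun ω => phi β (zf ω) - phi β (a:ℂ)) (Rect x₁ x₂) := by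
      apply ContinuousOn.sub _ continuousOn_const
      apply ContinuousOn.add _ hβ
      exact hzc.inv₀ (fun ω hω => zf_ne_zero h2 hω)
    apply (c1.mul c2).div (continuousOn_const.mul c3)
    intro ω hω h3
    have h4 : phi β (zf ω) - phi β (a:ℂ) = 0 := by simpa using h3
    have haR : ((a:ℝ):ℂ) ∈ ball (0:ℂ) R := by
      rw [mem_ball, dist_zero_right, Complex.norm_real, Real.norm_of_nonneg ha.le]
      linarith
    exact zf_ne_a ha ha1 h1 hω (h.inj _ _ (hmaps hω) haR (zf_ne_zero h2 hω)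
      (by exact_mod_cast ha.ne') (sub_eq_zero.mp h4))
  have hk : ContinuousOn (kapU a u) (Rect x₁ x₂) := by
    have d1 : ∀ ω ∈ Rect x₁ x₂, Complex.exp ω - I * (tau a : ℂ) ≠ 0 := fun ω hω =>
      (ne_tau ha ha1 h1 hω).1
    have d2 : ∀ ω ∈ Rect x₁ x₂, Complex.exp ω - I ≠ 0 := fun ω hω h' =>
      exp_ne_I h2 hω (by linear_combination -h')
    have d3 : ∀ ω ∈ Rect x₁ x₂, Complex.exp ω + I * (tau a : ℂ) ≠ 0 := fun ω hω =>
      (ne_tau ha ha1 h1 hω).2
    have d4 : ∀ ω ∈ Rect x₁ x₂, Complex.exp ω + I ≠ 0 := fun ω hω h' =>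
      exp_ne_neg_I hω (by linear_combination h')
    unfold kapU
    apply ContinuousOn.div_const
    apply ContinuousOn.add
    · exact (ContinuousOn.div (by fun_prop) (by fun_prop) d1).sub
        (ContinuousOn.div (by fun_prop) (by fun_prop) d2)
    · apply continuousOn_const.mul
      exact (ContinuousOn.div (by fun_prop) (by fun_prop) d3).sub
        (ContinuousOn.div (by fun_prop) (by fun_prop) d4)
  exact (((continuousOn_const.mul hX).sub (continuousOn_const.mul hk)).norm).pow 2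

/-- E1b: energy on the strip, with `u` -/
theorem E1bU {β : ℂ → ℂ} {R : ℝ} (h : ExtR β R) {L : ℂ → ℂ} (hL : IsLog β L) {u : ℂ}
    (hu : ‖u‖ = 1) {a : ℝ} (ha : 0 < a) (ha1 : a < 1) {x₁ x₂ : ℝ}
    (h1 : Real.log (tau a) < x₁) (h12 : x₁ ≤ x₂) (h2 : x₂ < 0) :
    II x₁ x₂ (fun ξ η => ‖2 * Xf β a (pt ξ η) - 2 * kapU a u (pt ξ η)‖ ^ 2) ≤
      2 * π * (- Real.log (1 - a ^ 2) + (conj u * L a).re) := by
  have hF := cont_F_u h u ha ha1 h1 h2
  have hE := h.toExt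
  have hB : 0 ≤ 2 * π * (- Real.log (1 - a ^ 2) + (conj u * L a).re) := by
    have haa : a < (a + 1) / 2 := by linarith
    have haa1 : (a + 1) / 2 < 1 := by linarith
    exact (integral_nonneg fun z => by positivity).trans (E1aU hE hL hu ha haa haa1).2
  rw [II_eq h12 hF]
  have hSR : Ioo x₁ x₂ ×ℂ Ioo 0 π ⊆ Rect x₁ x₂ := fun ω hω =>
    ⟨Ioo_subset_Icc_self hω.1, Ioo_subset_Icc_self hω.2⟩
  have hSm : MeasurableSet (Ioo x₁ x₂ ×ℂ Ioo 0 π) :=
    (isOpen_Ioo.reProdIm isOpen_Ioo).measurableSet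
  rw [integral_eq_lintegral_of_nonneg_ae (Filter.Eventually.of_forall fun _ => by positivity)
    ((hF.mono hSR).aestronglyMeasurable hSm)]
  apply ENNReal.toReal_le_of_le_ofReal hB
  have hd : ∀ ω ∈ Ioo x₁ x₂ ×ℂ Ioo 0 π, HasFDerivWithinAt zf (zd ω • (1 : ℂ →L[ℝ] ℂ))
      (Ioo x₁ x₂ ×ℂ Ioo 0 π) ω := fun ω hω =>
    (hasDerivAt_zf (exp_ne_neg_I (hSR hω))).complexToReal_fderiv.hasFDerivWithinAt
  have hinj : InjOn zf (Ioo x₁ x₂ ×ℂ Ioo 0 π) := by
    intro ω hω ω' hω' he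
    have e1 := exp_ne_neg_I (hSR hω)
    have e2 := exp_ne_neg_I (hSR hω')
    rw [zf, zf, div_eq_div_iff e1 e2] at he
    have e3 : Complex.exp ω = Complex.exp ω' := by
      have : 2 * I * (Complex.exp ω - Complex.exp ω') = 0 := by linear_combination -he
      have h4 : (2:ℂ) * I ≠ 0 := by simp
      exact sub_eq_zero.mp ((mul_eq_zero.mp this).resolve_left h4)
    obtain ⟨n, hn⟩ := Complex.exp_eq_exp_iff_exists_int.mp e3
    have h5 := congrArg Complex.im hn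
    simp only [Complex.add_im, Complex.mul_im, Complex.intCast_re, Complex.intCast_im,
      Complex.mul_re, Complex.re_ofNat, Complex.im_ofNat, Complex.ofReal_re, Complex.ofReal_im,
      Complex.I_re, Complex.I_im, mul_zero, mul_one, sub_zero, zero_mul, add_zero] at h5
    have hπ := Real.pi_pos
    have h6 := hω.2
    have h7 := hω'.2
    have h6a : 0 < ω.im := h6.1
    have h6b : ω.im < π := h6.2
    have h7a : 0 < ω'.im := h7.1
    have h7b : ω'.im < π := h7.2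
    have h8 : n = 0 := by
      have h9 : (n:ℝ) < 1 := by
        by_contra h10
        push Not at h10
        nlinarith
      have h11 : (-1:ℝ) < n := by
        by_contra h10
        push Not at h10
        nlinarith
      have h9' : n < 1 := by exact_mod_cast h9
      have h11' : -1 < n := by exact_mod_cast h11
      omega
    rw [hn, h8]
    simp
  have himg : zf '' (Ioo x₁ x₂ ×ℂ Ioo 0 π) ⊆ ball 0 1 := by
    rintro _ ⟨ω, hω, rfl⟩
    rw [mem_ball, dist_zero_right]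
    apply norm_zf_lt
    rw [Complex.exp_im]
    exact mul_pos (Real.exp_pos _) (Real.sin_pos_of_pos_of_lt_pi hω.2.1 hω.2.2)
  calc ∫⁻ ω in Ioo x₁ x₂ ×ℂ Ioo 0 π, ENNReal.ofReal (‖2 * Xf β a ω - 2 * kapU a u ω‖ ^ 2)
      = ∫⁻ ω in Ioo x₁ x₂ ×ℂ Ioo 0 π, ENNReal.ofReal |(zd ω • (1 : ℂ →L[ℝ] ℂ)).det| *
          ENNReal.ofReal (‖DdU β u a (zf ω)‖ ^ 2) := by
        apply setLIntegral_congr_fun hSm
        intro ω hω
        simp only
        rw [det_cmul, ← ENNReal.ofReal_mul (by positivity), ← mul_pow, ← norm_mul,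
          zd_DdU ha ha1 h1 h2 (hSR hω)]
    _ = ∫⁻ z in zf '' (Ioo x₁ x₂ ×ℂ Ioo 0 π), ENNReal.ofReal (‖DdU β u a z‖ ^ 2) :=
        (lintegral_image_eq_lintegral_abs_det_fderiv_mul volume hSm hd hinj
          (fun z => ENNReal.ofReal (‖DdU β u a z‖ ^ 2))).symm
    _ ≤ ∫⁻ z in ball (0:ℂ) 1, ENNReal.ofReal (‖DdU β u a z‖ ^ 2) := lintegral_mono_set himg
    _ ≤ _ := lint_ball_u hE hL hu ha ha1

end Pool.Agent.Helper68.EKC

end

section

set_option autoImplicit false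
open Complex MeasureTheory Metric Set
open scoped Real ComplexConjugate

/-! EKC: comparison of `kapU` with `(1 + u) / 2`. -/

namespace Pool.Agent.Helper68.EKC

open Pool.Agent.Helper39.Area Pool.Agent.Helper52.EK Pool.Agent.Helper70.EK

theorem II_le3' {F₁ F₂ F₃ : ℝ → ℝ → ℝ} {x₁ x₂ p q : ℝ} (h : x₁ ≤ x₂)
    (c₁ : ContinuousOn (fun v : ℝ × ℝ => F₁ v.1 v.2) (Icc x₁ x₂ ×ˢ Icc 0 π))
    (c₂ : ContinuousOn (fun v : ℝ × ℝ => F₂ v.1 v.2) (Icc x₁ x₂ ×ˢ Icc 0 π))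
    (c₃ : ContinuousOn (fun v : ℝ × ℝ => F₃ v.1 v.2) (Icc x₁ x₂ ×ˢ Icc 0 π))
    (hle : ∀ ξ ∈ Icc x₁ x₂, ∀ η : ℝ, F₁ ξ η ≤ p * F₂ ξ η + q * F₃ ξ η) :
    II x₁ x₂ F₁ ≤ p * II x₁ x₂ F₂ + q * II x₁ x₂ F₃ := by
  have i₁ := Pool.Agent.Helper83.EK.integrableOn_rect c₁
  have i₂ := Pool.Agent.Helper83.EK.integrableOn_rect c₂
  have i₃ := Pool.Agent.Helper83.EK.integrableOn_rect c₃
  rw [II_eq h i₁, II_eq h i₂, II_eq h i₃, ← integral_const_mul, ← integral_const_mul,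
    ← integral_add (i₂.const_mul p) (i₃.const_mul q)]
  exact setIntegral_mono_on i₁ ((i₂.const_mul p).add (i₃.const_mul q))
    (measurableSet_Ioc.prod measurableSet_Ioo)
    (fun v hv => hle v.1 (Ioc_subset_Icc_self hv.1) v.2)

theorem norm_exp_pt (ξ η : ℝ) : ‖Complex.exp (pt ξ η)‖ = Real.exp ξ := by
  rw [Complex.norm_exp]
  simp [pt]

theorem kapU_contOn {a x₁ x₂ : ℝ} (u : ℂ) (ha : 0 < a) (ha1 : a < 1)
    (h1 : Real.log (tau a) < x₁) (h2 : x₂ < 0) :
    ContinuousOn (fun v : ℝ × ℝ => kapU a u (pt v.1 v.2)) (Icc x₁ x₂ ×ˢ Icc 0 π) := by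
  have hm := Pool.Agent.Helper83.EK.pt_mapsTo x₁ x₂
  have hE : Continuous (fun v : ℝ × ℝ => Complex.exp (pt v.1 v.2)) :=
    Complex.continuous_exp.comp continuous_pt
  have hcE := hE.continuousOn (s := Icc x₁ x₂ ×ˢ Icc 0 π)
  unfold kapU
  apply ContinuousOn.div_const
  apply ContinuousOn.add
  · refine (hcE.div (hcE.sub continuousOn_const) ?_).sub
      (hcE.div (hcE.sub continuousOn_const) ?_)
    · intro v hv
      exact (ne_tau ha ha1 h1 (hm hv)).1
    · intro v hv h'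
      exact Pool.Agent.Helper86.EK.exp_ne_I h2 (hm hv) (by linear_combination -h')
  · apply continuousOn_const.mul
    refine (hcE.div (hcE.add continuousOn_const) ?_).sub
      (hcE.div (hcE.add continuousOn_const) ?_)
    · intro v hv
      exact (ne_tau ha ha1 h1 (hm hv)).2
    · intro v hv h'
      exact Pool.Agent.Helper86.EK.exp_ne_neg_I (hm hv) (by linear_combination h')

theorem exp_neg_one_le : Real.exp (-1) ≤ 1 / 2 := by
  rw [Real.exp_neg, ← one_div]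
  apply one_div_le_one_div_of_le two_pos
  have := Real.add_one_le_exp (1:ℝ)
  linarith

theorem kapU_err {a : ℝ} {u : ℂ} (hu : ‖u‖ = 1) (ha : 0 < a) (ha1 : a < 1) {ξ : ℝ}
    (h1 : Real.log (tau a) + 1 ≤ ξ) (h2 : ξ ≤ -1) (η : ℝ) :
    ‖kapU a u (pt ξ η) - (1 + u) / 2‖ ^ 2 ≤
      8 * (tau a ^ 2 * Real.exp (-(2 * ξ))) + 8 * Real.exp (2 * ξ) := by
  have ht := Pool.Agent.Helper83.EK.tau_pos ha ha1
  set E := Complex.exp (pt ξ η) with hE
  have hn : ‖E‖ = Real.exp ξ := norm_exp_pt ξ η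
  set x := Real.exp ξ with hx
  have hx0 : 0 < x := Real.exp_pos _
  have hx2 : x ≤ 1 / 2 := (Real.exp_le_exp.mpr h2).trans exp_neg_one_le
  have htx : tau a / x ≤ 1 / 2 := by
    have h3 : tau a / x = Real.exp (Real.log (tau a) - ξ) := by
      rw [Real.exp_sub, Real.exp_log ht]
    rw [h3]
    exact (Real.exp_le_exp.mpr (by linarith)).trans exp_neg_one_le
  have htx' : tau a ≤ x / 2 := by
    rw [div_le_iff₀ hx0] at htx
    linarith
  set t := tau a with htdef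
  have hIt : ‖I * (t : ℂ)‖ = t := by
    rw [norm_mul, norm_I, one_mul, Complex.norm_real, Real.norm_of_nonneg ht.le]
  have n1 : x / 2 ≤ ‖E - I * (t:ℂ)‖ := by
    have := norm_sub_norm_le E (I * (t:ℂ))
    rw [hn, hIt] at this
    linarith
  have n2 : x / 2 ≤ ‖E + I * (t:ℂ)‖ := by
    have := norm_sub_norm_le E (-(I * (t:ℂ)))
    rw [hn, norm_neg, hIt, sub_neg_eq_add] at this
    linarith
  have n3 : 1 / 2 ≤ ‖E - I‖ := by
    have := norm_sub_norm_le I E
    rw [hn, norm_I, norm_sub_rev] at this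
    linarith
  have n4 : 1 / 2 ≤ ‖E + I‖ := by
    have := norm_sub_norm_le I (-E)
    rw [norm_neg, hn, norm_I, sub_neg_eq_add, add_comm] at this
    linarith
  have z1 : E - I * (t:ℂ) ≠ 0 := norm_pos_iff.mp (by linarith)
  have z2 : E + I * (t:ℂ) ≠ 0 := norm_pos_iff.mp (by linarith)
  have z3 : E - I ≠ 0 := norm_pos_iff.mp (by linarith)
  have z4 : E + I ≠ 0 := norm_pos_iff.mp (by linarith)
  have key : kapU a u (pt ξ η) - (1 + u) / 2 =
      (I * t / (E - I * t) - E / (E - I) + u * (-(I * t / (E + I * t)) - E / (E + I))) / 2 := by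
    have k1 : E / (E - I * (t:ℂ)) = 1 + I * t / (E - I * t) := by
      field_simp
      ring
    have k2 : E / (E + I * (t:ℂ)) = 1 - I * t / (E + I * t) := by
      field_simp
      ring
    rw [kapU, ← hE, ← htdef, k1, k2]
    ring
  have b1 : ‖I * (t:ℂ) / (E - I * t)‖ ≤ 2 * (t / x) := by
    rw [norm_div, hIt, div_le_iff₀ (by linarith)]
    calc t = 2 * (t / x) * (x / 2) := by field_simp
      _ ≤ _ := mul_le_mul_of_nonneg_left n1 (by positivity)
  have b2 : ‖I * (t:ℂ) / (E + I * t)‖ ≤ 2 * (t / x) := by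
    rw [norm_div, hIt, div_le_iff₀ (by linarith)]
    calc t = 2 * (t / x) * (x / 2) := by field_simp
      _ ≤ _ := mul_le_mul_of_nonneg_left n2 (by positivity)
  have b3 : ‖E / (E - I)‖ ≤ 2 * x := by
    rw [norm_div, hn, div_le_iff₀ (by linarith)]
    nlinarith
  have b4 : ‖E / (E + I)‖ ≤ 2 * x := by
    rw [norm_div, hn, div_le_iff₀ (by linarith)]
    nlinarith
  have hb : ‖kapU a u (pt ξ η) - (1 + u) / 2‖ ≤ 2 * (t / x + x) := by
    rw [key, norm_div]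
    have h3 : ‖(2:ℂ)‖ = 2 := by simp
    rw [h3, div_le_iff₀ two_pos]
    refine (norm_add_le _ _).trans ?_
    rw [norm_mul, hu, one_mul]
    have h4 := norm_sub_le (I * (t:ℂ) / (E - I * t)) (E / (E - I))
    have h5 := norm_sub_le (-(I * (t:ℂ) / (E + I * t))) (E / (E + I))
    rw [norm_neg] at h5
    linarith
  have h6 : ‖kapU a u (pt ξ η) - (1 + u) / 2‖ ^ 2 ≤ (2 * (t / x + x)) ^ 2 :=
    pow_le_pow_left₀ (norm_nonneg _) hb 2
  have h7 : Real.exp (-(2 * ξ)) = 1 / x ^ 2 := by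
    rw [Real.exp_neg, hx, ← Real.exp_nat_mul]
    push_cast
    rw [one_div]
  have h8 : Real.exp (2 * ξ) = x ^ 2 := by
    rw [hx, ← Real.exp_nat_mul]
    push_cast
    rfl
  rw [h7, h8]
  refine h6.trans ?_
  have h9 : t ^ 2 * (1 / x ^ 2) = (t / x) ^ 2 := by ring
  rw [h9]
  nlinarith [sq_nonneg (t / x - x)]

theorem II_xi (f : ℝ → ℝ) (x₁ x₂ : ℝ) :
    II x₁ x₂ (fun ξ _ => f ξ) = π * ∫ ξ in x₁..x₂, f ξ := by
  unfold II
  simp only [intervalIntegral.integral_const, sub_zero, smul_eq_mul]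
  rw [intervalIntegral.integral_const_mul]

/-- E1d with `u` -/
theorem E1dU {u : ℂ} (hu : ‖u‖ = 1) : ∃ C : ℝ, ∀ a : ℝ, 0 < a → a < 1 → ∀ x₁ x₂ : ℝ,
    Real.log (tau a) + 1 ≤ x₁ → x₁ ≤ x₂ → x₂ ≤ -1 →
    II x₁ x₂ (fun ξ η => ‖kapU a u (pt ξ η) - (1 + u) / 2‖ ^ 2) ≤ C := by
  refine ⟨8 * (π * (1 / 2)) + 8 * (π * (1 / 2)), ?_⟩
  intro a ha ha1 x₁ x₂ h1 h12 h2
  have ht := Pool.Agent.Helper83.EK.tau_pos ha ha1
  have hx₁ : Real.log (tau a) < x₁ := by linarith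
  have c1 : ContinuousOn (fun v : ℝ × ℝ => ‖kapU a u (pt v.1 v.2) - (1 + u) / 2‖ ^ 2)
      (Icc x₁ x₂ ×ˢ Icc 0 π) :=
    ((kapU_contOn u ha ha1 hx₁ (by linarith)).sub continuousOn_const).norm.pow 2
  have hle := II_le3' (F₁ := fun ξ η => ‖kapU a u (pt ξ η) - (1 + u) / 2‖ ^ 2)
    (F₂ := fun ξ _ => tau a ^ 2 * Real.exp (-(2 * ξ))) (F₃ := fun ξ _ => Real.exp (2 * ξ))
    (p := 8) (q := 8) h12 c1 (by fun_prop) (by fun_prop)
    (fun ξ hξ η => kapU_err hu ha ha1 (h1.trans hξ.1) (hξ.2.trans h2) η)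
  refine hle.trans ?_
  rw [II_xi (fun ξ => tau a ^ 2 * Real.exp (-(2 * ξ))), II_xi (fun ξ => Real.exp (2 * ξ))]
  have hπ := Real.pi_pos
  have i1 : (∫ ξ in x₁..x₂, tau a ^ 2 * Real.exp (-(2 * ξ))) ≤ 1 / 2 := by
    have hd : ∀ ξ ∈ uIcc x₁ x₂, HasDerivAt (fun ξ => -(tau a ^ 2 * Real.exp (-(2 * ξ))) / 2)
        (tau a ^ 2 * Real.exp (-(2 * ξ))) ξ := by
      intro ξ _
      have h3 : HasDerivAt (fun ξ : ℝ => -(2 * ξ)) (-2) ξ := by
        have h := (hasDerivAt_id ξ).const_mul (2:ℝ)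
        rw [mul_one] at h
        exact h.neg
      have h4 := ((h3.exp.const_mul (tau a ^ 2)).neg).div_const 2
      refine h4.congr_deriv ?_
      ring
    rw [intervalIntegral.integral_eq_sub_of_hasDerivAt hd
      (by apply Continuous.intervalIntegrable; fun_prop)]
    have h5 : tau a ^ 2 * Real.exp (-(2 * x₁)) ≤ 1 := by
      have h6 : tau a ^ 2 * Real.exp (-(2 * x₁)) = Real.exp (2 * (Real.log (tau a) - x₁)) := by
        have h7 : tau a ^ 2 = Real.exp (2 * Real.log (tau a)) := by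
          rw [mul_comm, Real.exp_mul, Real.exp_log ht, Real.rpow_two]
        rw [h7, ← Real.exp_add]
        congr 1
        ring
      rw [h6, Real.exp_le_one_iff]
      linarith
    have h8 : 0 ≤ tau a ^ 2 * Real.exp (-(2 * x₂)) := by positivity
    linarith
  have i2 : (∫ ξ in x₁..x₂, Real.exp (2 * ξ)) ≤ 1 / 2 := by
    have hd : ∀ ξ ∈ uIcc x₁ x₂, HasDerivAt (fun ξ => Real.exp (2 * ξ) / 2)
        (Real.exp (2 * ξ)) ξ := by
      intro ξ _
      have h3 : HasDerivAt (fun ξ : ℝ => 2 * ξ) 2 ξ := by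
        simpa using (hasDerivAt_id ξ).const_mul (2:ℝ)
      have h4 := h3.exp.div_const 2
      refine h4.congr_deriv ?_
      ring
    rw [intervalIntegral.integral_eq_sub_of_hasDerivAt hd
      (by apply Continuous.intervalIntegrable; fun_prop)]
    have h5 : Real.exp (2 * x₂) ≤ 1 := by
      rw [Real.exp_le_one_iff]
      linarith
    have h8 := Real.exp_pos (2 * x₁)
    linarith
  have j1 := mul_le_mul_of_nonneg_left i1 hπ.le
  have j2 := mul_le_mul_of_nonneg_left i2 hπ.le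
  linarith

end Pool.Agent.Helper68.EKC

end

section

set_option autoImplicit false
open Complex MeasureTheory Metric Set
open scoped Real ComplexConjugate

/-! Project EK, E2c: the entropy and its derivative at height `-1`. -/

namespace Pool.Agent.Helper6.EK

open Pool.Agent.Helper52.EK Pool.Agent.Helper73.EK

theorem exp_lt_one' {t : ℝ} (ht : t < 0) : Real.exp t < 1 := by
  rw [← Real.exp_zero]
  exact Real.exp_lt_exp.2 ht

/-- bounds of the Poisson kernel -/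
theorem Pk_bounds {t : ℝ} (ht : t < 0) (α θ : ℝ) :
    (1 - Real.exp t) / (1 + Real.exp t) ≤ Pk (Complex.exp (α * I)) (ep t θ) ∧
      Pk (Complex.exp (α * I)) (ep t θ) ≤ (1 + Real.exp t) / (1 - Real.exp t) := by
  have h0 : 0 < Real.exp t := Real.exp_pos t
  have h1 : Real.exp t < 1 := exp_lt_one' ht
  have h2 : ‖Complex.exp (α * I) - ep t θ‖ ≤ 1 + Real.exp t := by
    have h := norm_sub_le (Complex.exp (α * I)) (ep t θ)
    rwa [norm_cis, norm_ep] at h
  have h3 : 1 - Real.exp t ≤ ‖Complex.exp (α * I) - ep t θ‖ := by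
    have h := norm_sub_norm_le (Complex.exp (α * I)) (ep t θ)
    rwa [norm_cis, norm_ep] at h
  have h4 : 0 < ‖Complex.exp (α * I) - ep t θ‖ := by linarith
  unfold Pk
  rw [norm_ep]
  constructor
  · rw [div_le_div_iff₀ (by linarith) (by positivity)]
    have h5 : ‖Complex.exp (α * I) - ep t θ‖ ^ 2 ≤ (1 + Real.exp t) ^ 2 :=
      pow_le_pow_left₀ h4.le h2 2
    nlinarith
  · rw [div_le_div_iff₀ (by positivity) (by linarith)]
    have h5 : (1 - Real.exp t) ^ 2 ≤ ‖Complex.exp (α * I) - ep t θ‖ ^ 2 :=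
      pow_le_pow_left₀ (by linarith) h3 2
    nlinarith

theorem continuous_F {ρ : ℝ → ℝ} (h : Dens ρ) {t : ℝ} (ht : t < 0) :
    Continuous (Function.uncurry fun θ α : ℝ => Pk (Complex.exp (α * I)) (ep t θ) * ρ α) := by
  rw [Function.uncurry_def]
  refine Continuous.mul ?_ (h.cont.comp continuous_snd)
  exact Continuous.comp (g := fun p : ℝ × ℝ => Pk (Complex.exp (p.1 * I)) (ep t p.2))
    (f := fun p : ℝ × ℝ => (p.2, p.1)) (continuous_Pk ht)
    (continuous_snd.prodMk continuous_fst)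

theorem continuous_uu {ρ : ℝ → ℝ} (h : Dens ρ) {t : ℝ} (ht : t < 0) :
    Continuous (uu ρ t) := by
  have h1 : Continuous fun θ : ℝ => ∫ α in (0:ℝ)..(2 * π),
      Pk (Complex.exp (α * I)) (ep t θ) * ρ α :=
    intervalIntegral.continuous_parametric_intervalIntegral_of_continuous'
      (continuous_F h ht) 0 (2 * π)
  exact continuous_const.mul h1

theorem cont_alpha {ρ : ℝ → ℝ} (h : Dens ρ) {t : ℝ} (ht : t < 0) (θ : ℝ) :
    Continuous fun α : ℝ => Pk (Complex.exp (α * I)) (ep t θ) * ρ α := by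
  have h2 : Continuous fun α : ℝ => ((θ, α) : ℝ × ℝ) := Continuous.prodMk_right θ
  have h3 := (continuous_F h ht).comp h2
  exact h3

theorem uu_bounds {ρ : ℝ → ℝ} (h : Dens ρ) {t : ℝ} (ht : t < 0) (θ : ℝ) :
    (1 - Real.exp t) / (1 + Real.exp t) ≤ uu ρ t θ ∧
      uu ρ t θ ≤ (1 + Real.exp t) / (1 - Real.exp t) := by
  have hpi : (0:ℝ) < 2 * π := by positivity
  have key : ∀ c : ℝ, (2 * π)⁻¹ * ∫ α in (0:ℝ)..(2 * π), c * ρ α = c := by
    intro c
    rw [intervalIntegral.integral_const_mul, h.one]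
    field_simp
  unfold uu
  constructor
  · conv_lhs => rw [← key ((1 - Real.exp t) / (1 + Real.exp t))]
    refine mul_le_mul_of_nonneg_left ?_ (by positivity)
    refine intervalIntegral.integral_mono_on hpi.le
      ((continuous_const.mul h.cont).intervalIntegrable _ _)
      ((cont_alpha h ht θ).intervalIntegrable _ _) fun α _ => ?_
    exact mul_le_mul_of_nonneg_right (Pk_bounds ht α θ).1 (h.pos α).le
  · conv_rhs => rw [← key ((1 + Real.exp t) / (1 - Real.exp t))]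
    refine mul_le_mul_of_nonneg_left ?_ (by positivity)
    refine intervalIntegral.integral_mono_on hpi.le
      ((cont_alpha h ht θ).intervalIntegrable _ _)
      ((continuous_const.mul h.cont).intervalIntegrable _ _) fun α _ => ?_
    exact mul_le_mul_of_nonneg_right (Pk_bounds ht α θ).2 (h.pos α).le

theorem uu_pos' {ρ : ℝ → ℝ} (h : Dens ρ) {t : ℝ} (ht : t < 0) (θ : ℝ) : 0 < uu ρ t θ := by
  refine lt_of_lt_of_le ?_ (uu_bounds h ht θ).1
  have h0 : 0 < Real.exp t := Real.exp_pos t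
  have h1 : Real.exp t < 1 := exp_lt_one' ht
  exact div_pos (by linarith) (by linarith)

/-- the mean of `u` -/
theorem mean_uu {ρ : ℝ → ℝ} (h : Dens ρ) {t : ℝ} (ht : t < 0) :
    ∫ θ in (-π)..π, uu ρ t θ = 2 * π := by
  unfold uu
  rw [intervalIntegral.integral_const_mul]
  have h1 : ∫ θ in (-π)..π, ∫ α in (0:ℝ)..(2 * π), Pk (Complex.exp (α * I)) (ep t θ) * ρ α =
      ∫ α in (0:ℝ)..(2 * π), ∫ θ in (-π)..π, Pk (Complex.exp (α * I)) (ep t θ) * ρ α := by
    refine intervalIntegral_intervalIntegral_swap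
      (F := fun θ α : ℝ => Pk (Complex.exp (α * I)) (ep t θ) * ρ α) ?_
    have h2 : Continuous (Function.uncurry fun θ α : ℝ =>
        Pk (Complex.exp (α * I)) (ep t θ) * ρ α) := continuous_F h ht
    refine (h2.continuousOn.integrableOn_compact
      (isCompact_uIcc.prod isCompact_uIcc) :
        IntegrableOn _ (uIcc (-π) π ×ˢ uIcc 0 (2 * π))).mono_set ?_
    exact prod_mono uIoc_subset_uIcc uIoc_subset_uIcc
  rw [h1]
  have h3 : ∀ α : ℝ, ∫ θ in (-π)..π, Pk (Complex.exp (α * I)) (ep t θ) * ρ α =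
      2 * π * ρ α := by
    intro α
    rw [intervalIntegral.integral_mul_const, integral_Pk' ht α]
  simp_rw [h3]
  rw [intervalIntegral.integral_const_mul, h.one]
  field_simp

/-- the Poisson kernel is Lipschitz in the radius -/
theorem Pk_lip {s t s₁ : ℝ} (hs : s ≤ s₁) (ht : t ≤ s₁) (hs₁ : s₁ < 0) (α θ : ℝ) :
    |Pk (Complex.exp (α * I)) (ep t θ) - Pk (Complex.exp (α * I)) (ep s θ)| ≤
      8 / (1 - Real.exp s₁) ^ 4 * |t - s| := by
  set ζ := Complex.exp (α * I) with hζ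
  set e := Complex.exp (θ * I) with he
  have hζ1 : ζ.re * ζ.re + ζ.im * ζ.im = 1 := by
    have h := norm_cis α
    rw [← hζ] at h
    have h2 : ‖ζ‖ ^ 2 = 1 := by rw [h, one_pow]
    rw [← Complex.normSq_eq_norm_sq, Complex.normSq_apply] at h2
    exact h2
  have he1 : e.re * e.re + e.im * e.im = 1 := by
    have h := norm_cis θ
    rw [← he] at h
    have h2 : ‖e‖ ^ 2 = 1 := by rw [h, one_pow]
    rw [← Complex.normSq_eq_norm_sq, Complex.normSq_apply] at h2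
    exact h2
  set c := ζ.re * e.re + ζ.im * e.im with hc
  have hc1 : |c| ≤ 1 := by
    rw [abs_le]
    constructor <;> nlinarith [sq_nonneg (ζ.re - e.re), sq_nonneg (ζ.im - e.im),
      sq_nonneg (ζ.re + e.re), sq_nonneg (ζ.im + e.im)]
  have hD : ∀ t : ℝ, ‖ζ - ep t θ‖ ^ 2 = 1 - 2 * Real.exp t * c + Real.exp t ^ 2 := by
    intro t
    rw [ep_eq, ← he, ← Complex.normSq_eq_norm_sq, Complex.normSq_apply]
    have h1 : (ζ - (Real.exp t : ℂ) * e).re = ζ.re - Real.exp t * e.re := by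
      rw [Complex.sub_re, Complex.re_ofReal_mul]
    have h2 : (ζ - (Real.exp t : ℂ) * e).im = ζ.im - Real.exp t * e.im := by
      rw [Complex.sub_im, Complex.im_ofReal_mul]
    rw [h1, h2, hc]
    linear_combination hζ1 + Real.exp t ^ 2 * he1
  have hPk : ∀ t : ℝ, Pk ζ (ep t θ) =
      (1 - Real.exp t ^ 2) / (1 - 2 * Real.exp t * c + Real.exp t ^ 2) := by
    intro t
    unfold Pk
    rw [hD, norm_ep]
  set r := Real.exp t with hr
  set q := Real.exp s with hq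
  set δ := 1 - Real.exp s₁ with hδ
  have hE1 : Real.exp s₁ < 1 := exp_lt_one' hs₁
  have hδ0 : 0 < δ := by rw [hδ]; linarith
  have hr0 : 0 < r := Real.exp_pos t
  have hq0 : 0 < q := Real.exp_pos s
  have hr1 : r ≤ Real.exp s₁ := Real.exp_le_exp.2 ht
  have hq1 : q ≤ Real.exp s₁ := Real.exp_le_exp.2 hs
  obtain ⟨hcl, hcu⟩ := abs_le.1 hc1
  have hDr : δ ^ 2 ≤ 1 - 2 * r * c + r ^ 2 := by
    have h1 : (1 - r) ^ 2 ≤ 1 - 2 * r * c + r ^ 2 := by nlinarith
    have h2 : δ ^ 2 ≤ (1 - r) ^ 2 := pow_le_pow_left₀ hδ0.le (by rw [hδ]; linarith) 2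
    linarith
  have hDq : δ ^ 2 ≤ 1 - 2 * q * c + q ^ 2 := by
    have h1 : (1 - q) ^ 2 ≤ 1 - 2 * q * c + q ^ 2 := by nlinarith
    have h2 : δ ^ 2 ≤ (1 - q) ^ 2 := pow_le_pow_left₀ hδ0.le (by rw [hδ]; linarith) 2
    linarith
  have hδ2 : 0 < δ ^ 2 := by positivity
  have hDr0 : 0 < 1 - 2 * r * c + r ^ 2 := lt_of_lt_of_le hδ2 hDr
  have hDq0 : 0 < 1 - 2 * q * c + q ^ 2 := lt_of_lt_of_le hδ2 hDq
  rw [hPk, hPk]
  have hdiff : (1 - r ^ 2) / (1 - 2 * r * c + r ^ 2) - (1 - q ^ 2) / (1 - 2 * q * c + q ^ 2) =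
      (r - q) * (2 * c - 2 * (r + q) + 2 * r * q * c) /
        ((1 - 2 * r * c + r ^ 2) * (1 - 2 * q * c + q ^ 2)) := by
    rw [div_sub_div _ _ hDr0.ne' hDq0.ne']
    congr 1
    ring
  rw [hdiff, abs_div, abs_mul]
  have hden : δ ^ 4 ≤ |(1 - 2 * r * c + r ^ 2) * (1 - 2 * q * c + q ^ 2)| := by
    rw [abs_of_pos (mul_pos hDr0 hDq0)]
    calc δ ^ 4 = δ ^ 2 * δ ^ 2 := by ring
      _ ≤ _ := mul_le_mul hDr hDq hδ2.le hDr0.le
  have hr1' : r < 1 := lt_of_le_of_lt hr1 hE1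
  have hq1' : q < 1 := lt_of_le_of_lt hq1 hE1
  have hnum : |2 * c - 2 * (r + q) + 2 * r * q * c| ≤ 8 := by
    have hrq : 0 ≤ r * q := by positivity
    have hrq1 : r * q ≤ 1 := by nlinarith
    rw [abs_le]
    constructor <;> nlinarith
  have hexp : |r - q| ≤ |t - s| := by
    have h1 : ∀ u v : ℝ, u ≤ v → v ≤ 0 → Real.exp v - Real.exp u ≤ v - u := by
      intro u v huv hv
      have h2 := Real.add_one_le_exp (u - v)
      have h3 : Real.exp u = Real.exp v * Real.exp (u - v) := by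
        rw [← Real.exp_add]
        congr 1
        ring
      have h4 : Real.exp v ≤ 1 := Real.exp_le_one_iff.2 hv
      have h5 := Real.exp_pos v
      rw [h3]
      nlinarith
    rcases le_total s t with hst | hst
    · rw [abs_of_nonneg (sub_nonneg.2 hst), abs_of_nonneg (sub_nonneg.2 (Real.exp_le_exp.2 hst))]
      exact h1 s t hst (by linarith)
    · rw [abs_of_nonpos (sub_nonpos.2 hst), abs_of_nonpos (sub_nonpos.2 (Real.exp_le_exp.2 hst))]
      have := h1 t s hst (by linarith)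
      linarith
  calc |r - q| * |2 * c - 2 * (r + q) + 2 * r * q * c| /
        |(1 - 2 * r * c + r ^ 2) * (1 - 2 * q * c + q ^ 2)|
      ≤ (|t - s| * 8) / δ ^ 4 := by
        refine div_le_div₀ (by positivity) ?_ (by positivity) hden
        exact mul_le_mul hexp hnum (abs_nonneg _) (abs_nonneg _)
    _ = 8 / δ ^ 4 * |t - s| := by ring

/-- the derivative of `u` in `t` at `-1` is bounded -/
theorem ut_bound {ρ : ℝ → ℝ} (h : Dens ρ) (θ : ℝ) :
    |ut ρ (-1) θ| ≤ 8 / (1 - Real.exp (-1 / 2)) ^ 4 := by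
  have hpi : (0:ℝ) < 2 * π := by positivity
  have hE : Real.exp (-1 / 2 : ℝ) < 1 := exp_lt_one' (by norm_num)
  have hpos : 0 < 1 - Real.exp (-1 / 2 : ℝ) := by linarith
  set L := 8 / (1 - Real.exp (-1 / 2 : ℝ)) ^ 4 with hL
  have hL0 : 0 ≤ L := by positivity
  change ‖deriv (fun t' => uu ρ t' θ) (-1)‖ ≤ L
  refine norm_deriv_le_of_lip' hL0 ?_
  filter_upwards [Iio_mem_nhds (show (-1:ℝ) < -1 / 2 by norm_num)] with t ht
  have ht' : t ≤ -1 / 2 := le_of_lt ht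
  have ht0 : t < 0 := by linarith
  rw [Real.norm_eq_abs, Real.norm_eq_abs]
  change |uu ρ t θ - uu ρ (-1) θ| ≤ _
  unfold uu
  rw [← mul_sub, ← intervalIntegral.integral_sub
    ((cont_alpha h ht0 θ).intervalIntegrable _ _)
    ((cont_alpha h (by norm_num : (-1:ℝ) < 0) θ).intervalIntegrable _ _), abs_mul,
    abs_of_pos (inv_pos.2 hpi)]
  have h1 : |∫ α in (0:ℝ)..(2 * π), (Pk (Complex.exp (α * I)) (ep t θ) * ρ α -
      Pk (Complex.exp (α * I)) (ep (-1) θ) * ρ α)| ≤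
      ∫ α in (0:ℝ)..(2 * π), L * |t - -1| * ρ α := by
    rw [← Real.norm_eq_abs]
    refine intervalIntegral.norm_integral_le_of_norm_le hpi.le ?_
      ((continuous_const.mul h.cont).intervalIntegrable _ _)
    refine Filter.Eventually.of_forall fun α _ => ?_
    rw [← sub_mul, norm_mul, Real.norm_eq_abs, Real.norm_eq_abs, abs_of_pos (h.pos α)]
    exact mul_le_mul_of_nonneg_right
      (Pk_lip (s₁ := -1 / 2) (by norm_num) ht' (by norm_num) α θ) (h.pos α).le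
  rw [intervalIntegral.integral_const_mul, h.one] at h1
  calc (2 * π)⁻¹ * |∫ α in (0:ℝ)..(2 * π), (Pk (Complex.exp (α * I)) (ep t θ) * ρ α -
        Pk (Complex.exp (α * I)) (ep (-1) θ) * ρ α)|
      ≤ (2 * π)⁻¹ * (L * |t - -1| * (2 * π)) :=
        mul_le_mul_of_nonneg_left h1 (inv_nonneg.2 hpi.le)
    _ = L * |t - -1| := by field_simp

theorem E2c : ∃ C : ℝ, ∀ ρ : ℝ → ℝ, Dens ρ → 0 ≤ AA ρ (-1) ∧ -C ≤ A1 ρ (-1) := by
  have hpi : (0:ℝ) < 2 * π := by positivity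
  have h10 : (-1:ℝ) < 0 := by norm_num
  have hE0 : 0 < Real.exp (-1 : ℝ) := Real.exp_pos _
  have hE1 : Real.exp (-1 : ℝ) < 1 := exp_lt_one' h10
  have hE : Real.exp (-1 / 2 : ℝ) < 1 := exp_lt_one' (by norm_num)
  have hpos : 0 < 1 - Real.exp (-1 / 2 : ℝ) := by linarith
  set L := 8 / (1 - Real.exp (-1 / 2 : ℝ)) ^ 4 with hL
  have hL0 : 0 ≤ L := by positivity
  set M := Real.log ((1 + Real.exp (-1)) / (1 - Real.exp (-1))) with hM
  have hM0 : 0 ≤ M := by
    apply Real.log_nonneg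
    rw [le_div_iff₀ (by linarith)]
    linarith
  refine ⟨(1 + M) * L, fun ρ h => ⟨?_, ?_⟩⟩
  · have hcont := continuous_uu h h10
    have h1 : 0 ≤ ∫ θ in (-π)..π, (uu ρ (-1) θ * Real.log (uu ρ (-1) θ) - (uu ρ (-1) θ - 1)) := by
      refine intervalIntegral.integral_nonneg (by linarith [Real.pi_pos]) fun θ _ => ?_
      have h2 := uu_pos' h h10 θ
      have h3 := Real.one_sub_inv_le_log_of_pos h2
      have h4 := mul_le_mul_of_nonneg_left h3 h2.le
      rw [mul_sub, mul_inv_cancel₀ h2.ne', mul_one] at h4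
      linarith
    have hclog : Continuous fun θ => uu ρ (-1) θ * Real.log (uu ρ (-1) θ) :=
      hcont.mul (hcont.log fun θ => (uu_pos' h h10 θ).ne')
    have hc1 : Continuous fun θ => uu ρ (-1) θ - 1 := hcont.sub continuous_const
    have hc2 : Continuous fun _ : ℝ => (1:ℝ) := continuous_const
    rw [intervalIntegral.integral_sub (hclog.intervalIntegrable _ _)
      (hc1.intervalIntegrable _ _),
      intervalIntegral.integral_sub (hcont.intervalIntegrable _ _)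
      (hc2.intervalIntegrable _ _), mean_uu h h10] at h1
    have h5 : ∫ _θ in (-π)..π, (1:ℝ) = 2 * π := by
      rw [intervalIntegral.integral_const, smul_eq_mul, mul_one]
      ring
    rw [h5, sub_self, sub_zero] at h1
    unfold AA
    exact mul_nonneg (inv_nonneg.2 hpi.le) h1
  · have hlog : ∀ θ, |1 + Real.log (uu ρ (-1) θ)| ≤ 1 + M := by
      intro θ
      obtain ⟨h1, h2⟩ := uu_bounds h h10 θ
      have h3 := uu_pos' h h10 θ
      have h4 : Real.log (uu ρ (-1) θ) ≤ M := Real.log_le_log h3 h2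
      have h5 : -M ≤ Real.log (uu ρ (-1) θ) := by
        have h6 : -M = Real.log ((1 - Real.exp (-1)) / (1 + Real.exp (-1))) := by
          rw [hM, ← Real.log_inv, inv_div]
        rw [h6]
        exact Real.log_le_log (div_pos (by linarith) (by linarith)) h1
      rw [abs_le]
      constructor <;> linarith
    have h1 : ‖∫ θ in (-π)..π, (1 + Real.log (uu ρ (-1) θ)) * ut ρ (-1) θ‖ ≤
        (1 + M) * L * |π - -π| := by
      refine intervalIntegral.norm_integral_le_of_norm_le_const fun θ _ => ?_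
      rw [norm_mul, Real.norm_eq_abs, Real.norm_eq_abs]
      exact mul_le_mul (hlog θ) (ut_bound h θ) (abs_nonneg _) (by linarith)
    rw [Real.norm_eq_abs, show π - -π = 2 * π by ring, abs_of_pos hpi] at h1
    have h2 := (abs_le.1 h1).1
    unfold A1
    have h3 : (2 * π)⁻¹ * (-((1 + M) * L * (2 * π))) = -((1 + M) * L) := by field_simp
    rw [← h3]
    exact mul_le_mul_of_nonneg_left h2 (inv_nonneg.2 hpi.le)

end Pool.Agent.Helper6.EK

end

section

set_option autoImplicit false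
open Complex MeasureTheory Metric Set
open scoped Real ComplexConjugate

/-! Project EK, E2: the entropy inequality, from the four parts E2a to E2d as hypotheses. -/

namespace Pool.Agent.Helper5.EK

open Pool.Agent.Helper52.EK Pool.Agent.Helper73.EK

/-- Taylor's formula of order two with the integral remainder -/
theorem taylor2 {f f1 f2 : ℝ → ℝ} {t₀ t₂ : ℝ} (h0 : t₀ ≤ t₂) (h2 : t₂ < 0)
    (hf : ∀ t : ℝ, t < 0 → HasDerivAt f (f1 t) t ∧ HasDerivAt f1 (f2 t) t ∧ ContinuousAt f2 t) :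
    ∫ t in t₀..t₂, (t₂ - t) * f2 t = f t₂ - f t₀ - (t₂ - t₀) * f1 t₀ := by
  have hd : ∀ t ∈ uIcc t₀ t₂, HasDerivAt (fun t => f t + (t₂ - t) * f1 t) ((t₂ - t) * f2 t) t := by
    intro t ht
    rw [uIcc_of_le h0] at ht
    obtain ⟨a1, a2, -⟩ := hf t (lt_of_le_of_lt ht.2 h2)
    have d1 : HasDerivAt (fun t => t₂ - t) (-1) t := by
      simpa using (hasDerivAt_id t).const_sub t₂
    refine (a1.add (d1.mul a2)).congr_deriv ?_
    ring
  have hc : IntervalIntegrable (fun t => (t₂ - t) * f2 t) volume t₀ t₂ := by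
    apply ContinuousOn.intervalIntegrable
    intro t ht
    rw [uIcc_of_le h0] at ht
    obtain ⟨-, -, a3⟩ := hf t (lt_of_le_of_lt ht.2 h2)
    exact ((by fun_prop : ContinuousAt (fun t => t₂ - t) t).mul a3).continuousWithinAt
  rw [intervalIntegral.integral_eq_sub_of_hasDerivAt hd hc]
  ring

theorem entropy_of
    (hE2a : ∀ ρ : ℝ → ℝ, Dens ρ → ∀ t : ℝ, t < 0 →
      HasDerivAt (AA ρ) (A1 ρ t) t ∧ HasDerivAt (A1 ρ) (A2 ρ t) t ∧ ContinuousAt (A2 ρ) t)
    (hE2b : ∀ (ρ : ℝ → ℝ) (w : ℂ → ℂ), Dens ρ → ContinuousOn w {z | 0 < ‖z‖ ∧ ‖z‖ < 1} →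
      ∀ t : ℝ, t < 0 → 1 / Real.sinh t ^ 2 - kk ρ w t ≤ A2 ρ t)
    (hE2c : ∃ C : ℝ, ∀ ρ : ℝ → ℝ, Dens ρ → 0 ≤ AA ρ (-1) ∧ -C ≤ A1 ρ (-1))
    (hE2d : ∀ ρ : ℝ → ℝ, Dens ρ → ∀ t : ℝ, t < 0 →
      AA ρ t ≤ (2 * π)⁻¹ * ∫ α in (0:ℝ)..(2 * π), ρ α * Real.log (ρ α)) :
    ∃ C : ℝ, ∀ (ρ : ℝ → ℝ) (w : ℂ → ℂ) (a : ℝ), Dens ρ →
    ContinuousOn w {z | 0 < ‖z‖ ∧ ‖z‖ < 1} → Real.exp (-1) < a → a < 1 →
    -Real.log (1 - a ^ 2) - C ≤ (2 * π)⁻¹ * (∫ α in (0:ℝ)..(2 * π), ρ α * Real.log (ρ α)) +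
      (2 * π)⁻¹ * ∫ α in (0:ℝ)..(2 * π), ρ α * Kf w (Complex.exp (α * I)) (-1) (Real.log a) := by
  obtain ⟨C, hC⟩ := hE2c
  refine ⟨1 + Real.cosh 1 / Real.sinh 1 + |Real.log (Real.sinh 1)| + |C|, ?_⟩
  intro ρ w a h hw ha ha1
  have h0 : 0 < a := lt_trans (Real.exp_pos _) ha
  have hl1 : -1 < Real.log a := by
    rw [Real.lt_log_iff_exp_lt h0]
    exact ha
  have hl2 : Real.log a < 0 := Real.log_neg h0 ha1
  set t₂ : ℝ := Real.log a with ht₂
  obtain ⟨c1, c2⟩ := hC ρ h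
  have hT := taylor2 hl1.le hl2 (fun t ht => hE2a ρ h t ht)
  have hF := fub h.cont hw hl2 hl1.le
  have hK := kk_intervalIntegrable h.cont hw hl2 hl1.le
  have hS : IntervalIntegrable (fun t => (t₂ - t) * (1 / Real.sinh t ^ 2)) volume (-1) t₂ := by
    apply ContinuousOn.intervalIntegrable
    intro t ht
    rw [uIcc_of_le hl1.le] at ht
    have hs : Real.sinh t ≠ 0 := (Real.sinh_neg_iff.2 (lt_of_le_of_lt ht.2 hl2)).ne
    have hs2 : Real.sinh t ^ 2 ≠ 0 := pow_ne_zero _ hs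
    apply ContinuousAt.continuousWithinAt
    exact (by fun_prop : ContinuousAt (fun t => t₂ - t) t).mul
      (ContinuousAt.div (by fun_prop) (Real.continuous_sinh.continuousAt.pow 2) hs2)
  have hA : IntervalIntegrable (fun t => (t₂ - t) * A2 ρ t) volume (-1) t₂ := by
    apply ContinuousOn.intervalIntegrable
    intro t ht
    rw [uIcc_of_le hl1.le] at ht
    obtain ⟨-, -, a3⟩ := hE2a ρ h t (lt_of_le_of_lt ht.2 hl2)
    exact ((by fun_prop : ContinuousAt (fun t => t₂ - t) t).mul a3).continuousWithinAt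
  have hM : ∫ t in (-1)..t₂, ((t₂ - t) * (1 / Real.sinh t ^ 2) - (t₂ - t) * kk ρ w t) ≤
      ∫ t in (-1)..t₂, (t₂ - t) * A2 ρ t := by
    refine intervalIntegral.integral_mono_on hl1.le (hS.sub hK) hA fun t ht => ?_
    have h5 := hE2b ρ w h hw t (lt_of_le_of_lt ht.2 hl2)
    have h6 : 0 ≤ t₂ - t := by linarith [ht.2]
    have h7 := mul_le_mul_of_nonneg_left h5 h6
    linarith [h7, mul_sub (t₂ - t) (1 / Real.sinh t ^ 2) (kk ρ w t)]
  rw [intervalIntegral.integral_sub hS hK, hF, hT] at hM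
  have hI := int_ge ha ha1
  have hD := hE2d ρ h t₂ hl2
  have hC1 : -|C| ≤ (t₂ - -1) * A1 ρ (-1) := by
    have h8 : 0 ≤ t₂ - -1 := by linarith
    have h9 : t₂ - -1 ≤ 1 := by linarith
    have h10 : -|C| ≤ A1 ρ (-1) := le_trans (neg_le_neg (le_abs_self C)) c2
    have h11 := mul_le_mul_of_nonneg_left h10 h8
    have h12 : (t₂ - -1) * |C| ≤ 1 * |C| := mul_le_mul_of_nonneg_right h9 (abs_nonneg C)
    linarith [h11, h12]
  linarith [hM, hI, hD, hC1, c1]

end Pool.Agent.Helper5.EK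

end

section

set_option autoImplicit false
open Complex MeasureTheory Metric Set
open scoped Real ComplexConjugate

/-! Project EK, E2d (Jensen). -/

namespace Pool.Agent.Helper73.EK

open Pool.Agent.Helper52.EK

variable {ρ : ℝ → ℝ}

theorem continuous_Pk_one (z : ℂ) (hz : ‖z‖ < 1) :
    Continuous fun α : ℝ => Pk (Complex.exp (α * I)) z := by
  unfold Pk
  refine Continuous.div (by fun_prop) (by fun_prop) fun α => ?_
  have h2 := sub_ne_zero_of (norm_cis α) hz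
  positivity

theorem two_pi_pos' : (0:ℝ) < 2 * π := by positivity

theorem uu_pos (h : Dens ρ) {t : ℝ} (ht : t < 0) (θ : ℝ) : 0 < uu ρ t θ := by
  unfold uu
  have h1 : 0 < ∫ α in (0:ℝ)..(2 * π), Pk (Complex.exp (α * I)) (ep t θ) * ρ α := by
    refine intervalIntegral.intervalIntegral_pos_of_pos ?_ (fun α => ?_) two_pi_pos'
    · exact ((continuous_Pk_one _ (norm_ep_lt ht θ)).mul h.cont).intervalIntegrable _ _
    · exact mul_pos (Pk_pos (norm_cis α) (norm_ep_lt ht θ)) (h.pos α)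
  exact mul_pos (inv_pos.2 two_pi_pos') h1

theorem continuous_uu (h : Dens ρ) {t : ℝ} (ht : t < 0) : Continuous (uu ρ t) := by
  unfold uu
  refine continuous_const.mul ?_
  refine intervalIntegral.continuous_parametric_intervalIntegral_of_continuous' ?_ _ _
  have h1 : Continuous fun q : ℝ × ℝ => (q.2, q.1) := by fun_prop
  exact ((continuous_Pk ht).comp h1).mul (h.cont.comp continuous_snd)

/-- The tangent line of `x log x`. -/
theorem tangent {u x : ℝ} (hu : 0 < u) (hx : 0 < x) :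
    u * Real.log u + (1 + Real.log u) * (x - u) ≤ x * Real.log x := by
  have h1 : Real.log (u / x) ≤ u / x - 1 := Real.log_le_sub_one_of_pos (div_pos hu hx)
  rw [Real.log_div hu.ne' hx.ne'] at h1
  have h2 : x * (Real.log u - Real.log x) ≤ x * (u / x - 1) :=
    mul_le_mul_of_nonneg_left h1 hx.le
  have h3 : x * (u / x - 1) = u - x := by field_simp
  rw [h3] at h2
  nlinarith

theorem uu_log_le (h : Dens ρ) {t : ℝ} (ht : t < 0) (θ : ℝ) :
    uu ρ t θ * Real.log (uu ρ t θ) ≤ (2 * π)⁻¹ * ∫ α in (0:ℝ)..(2 * π),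
      Pk (Complex.exp (α * I)) (ep t θ) * (ρ α * Real.log (ρ α)) := by
  have hu := uu_pos h ht θ
  have hz := norm_ep_lt ht θ
  have cP := continuous_Pk_one _ hz
  have cR : Continuous fun α => ρ α * Real.log (ρ α) :=
    h.cont.mul (h.cont.log fun α => (h.pos α).ne')
  set u := uu ρ t θ with hudef
  have h1 : ∫ α in (0:ℝ)..(2 * π), Pk (Complex.exp (α * I)) (ep t θ) *
      (u * Real.log u + (1 + Real.log u) * (ρ α - u)) ≤
      ∫ α in (0:ℝ)..(2 * π), Pk (Complex.exp (α * I)) (ep t θ) * (ρ α * Real.log (ρ α)) := by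
    refine intervalIntegral.integral_mono_on two_pi_pos'.le ?_ ?_ fun α _ => ?_
    · refine Continuous.intervalIntegrable ?_ _ _
      exact cP.mul (continuous_const.add (continuous_const.mul (h.cont.sub continuous_const)))
    · exact (cP.mul cR).intervalIntegrable _ _
    · exact mul_le_mul_of_nonneg_left (tangent hu (h.pos α)) (Pk_pos (norm_cis α) hz).le
  have h2 : ∫ α in (0:ℝ)..(2 * π), Pk (Complex.exp (α * I)) (ep t θ) *
      (u * Real.log u + (1 + Real.log u) * (ρ α - u)) = (2 * π) * (u * Real.log u) := by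
    have e1 : ∀ α : ℝ, Pk (Complex.exp (α * I)) (ep t θ) *
        (u * Real.log u + (1 + Real.log u) * (ρ α - u)) =
        (u * Real.log u - (1 + Real.log u) * u) * Pk (Complex.exp (α * I)) (ep t θ) +
          (1 + Real.log u) * (Pk (Complex.exp (α * I)) (ep t θ) * ρ α) := fun α => by ring
    simp_rw [e1]
    rw [intervalIntegral.integral_add, intervalIntegral.integral_const_mul,
      intervalIntegral.integral_const_mul, integral_Pk hz]
    · have e2 : ∫ α in (0:ℝ)..(2 * π), Pk (Complex.exp (α * I)) (ep t θ) * ρ α =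
          2 * π * u := by
        rw [hudef]
        unfold uu
        rw [← mul_assoc, mul_inv_cancel₀ two_pi_pos'.ne', one_mul]
      rw [e2]
      ring
    · exact (continuous_const.mul cP).intervalIntegrable _ _
    · exact (continuous_const.mul (cP.mul h.cont)).intervalIntegrable _ _
  rw [h2] at h1
  have h3 := mul_le_mul_of_nonneg_left h1 (inv_pos.2 two_pi_pos').le
  rwa [← mul_assoc, inv_mul_cancel₀ two_pi_pos'.ne', one_mul] at h3

/-- E2d (Jensen) -/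
theorem E2d (h : Dens ρ) {t : ℝ} (ht : t < 0) :
    AA ρ t ≤ (2 * π)⁻¹ * ∫ α in (0:ℝ)..(2 * π), ρ α * Real.log (ρ α) := by
  have cR : Continuous fun α => ρ α * Real.log (ρ α) :=
    h.cont.mul (h.cont.log fun α => (h.pos α).ne')
  have cu := continuous_uu h ht
  have hpi : -π ≤ π := by linarith [Real.pi_pos]
  have cF : Continuous fun q : ℝ × ℝ =>
      Pk (Complex.exp (q.2 * I)) (ep t q.1) * (ρ q.2 * Real.log (ρ q.2)) := by
    have h1 : Continuous fun q : ℝ × ℝ => (q.2, q.1) := by fun_prop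
    exact ((continuous_Pk ht).comp h1).mul (cR.comp continuous_snd)
  have h1 : ∫ θ in (-π)..π, uu ρ t θ * Real.log (uu ρ t θ) ≤
      ∫ θ in (-π)..π, (2 * π)⁻¹ * ∫ α in (0:ℝ)..(2 * π),
        Pk (Complex.exp (α * I)) (ep t θ) * (ρ α * Real.log (ρ α)) := by
    refine intervalIntegral.integral_mono_on hpi ?_ ?_ fun θ _ => uu_log_le h ht θ
    · exact (cu.mul (cu.log fun θ => (uu_pos h ht θ).ne')).intervalIntegrable _ _
    · refine Continuous.intervalIntegrable ?_ _ _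
      refine continuous_const.mul ?_
      exact intervalIntegral.continuous_parametric_intervalIntegral_of_continuous' cF _ _
  have h2 : ∫ θ in (-π)..π, ∫ α in (0:ℝ)..(2 * π),
        Pk (Complex.exp (α * I)) (ep t θ) * (ρ α * Real.log (ρ α)) =
      ∫ α in (0:ℝ)..(2 * π), ∫ θ in (-π)..π,
        Pk (Complex.exp (α * I)) (ep t θ) * (ρ α * Real.log (ρ α)) := by
    refine intervalIntegral_intervalIntegral_swap ?_
    refine (cF.continuousOn.integrableOn_compact (K := uIcc (-π) π ×ˢ uIcc 0 (2 * π)) ?_).mono_set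
      (prod_mono uIoc_subset_uIcc uIoc_subset_uIcc)
    exact isCompact_uIcc.prod isCompact_uIcc
  have h3 : ∀ α : ℝ, ∫ θ in (-π)..π,
      Pk (Complex.exp (α * I)) (ep t θ) * (ρ α * Real.log (ρ α)) =
      2 * π * (ρ α * Real.log (ρ α)) := by
    intro α
    rw [intervalIntegral.integral_mul_const, integral_Pk' ht]
  unfold AA
  rw [intervalIntegral.integral_const_mul, h2] at h1
  simp_rw [h3] at h1
  rw [intervalIntegral.integral_const_mul, ← mul_assoc, inv_mul_cancel₀ two_pi_pos'.ne',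
    one_mul] at h1
  exact mul_le_mul_of_nonneg_left h1 (inv_pos.2 two_pi_pos').le

end Pool.Agent.Helper73.EK

end

section

set_option autoImplicit false
open Complex MeasureTheory Metric Set
open scoped Real ComplexConjugate

/-! Project EK, E2a: the derivatives of the entropy `AA ρ`.

`uu ρ t θ = Re FF ρ (t + iθ)`, `FF ρ` analytic and `2πi`-periodic on the left half plane. -/

namespace Pool.Agent.Helper48.EK

open Pool.Agent.Helper52.EK

/-! ### parametric integrals -/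

/-- derivative under the integral, continuous case -/
theorem hasDerivAt_param {𝕜 E : Type*} [RCLike 𝕜] [NormedAddCommGroup E] [NormedSpace ℝ E]
    [NormedSpace 𝕜 E] {F F' : 𝕜 → ℝ → E} {U : Set 𝕜} (hU : IsOpen U) {x₀ : 𝕜} (hx : x₀ ∈ U)
    {a b : ℝ} (hF : ContinuousOn (fun p : 𝕜 × ℝ => F p.1 p.2) (U ×ˢ univ))
    (hF' : ContinuousOn (fun p : 𝕜 × ℝ => F' p.1 p.2) (U ×ˢ univ))
    (hd : ∀ x ∈ U, ∀ t, HasDerivAt (fun x => F x t) (F' x t) x) :
    HasDerivAt (fun x => ∫ t in a..b, F x t) (∫ t in a..b, F' x₀ t) x₀ := by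
  obtain ⟨ε, hε, hεU⟩ := Metric.nhds_basis_closedBall.mem_iff.1 (hU.mem_nhds hx)
  have hs : ∀ x ∈ U, Continuous fun t => F x t := fun x hxU =>
    hF.comp_continuous (by fun_prop : Continuous fun t : ℝ => (x, t)) fun t => ⟨hxU, trivial⟩
  have hs' : ∀ x ∈ U, Continuous fun t => F' x t := fun x hxU =>
    hF'.comp_continuous (by fun_prop : Continuous fun t : ℝ => (x, t)) fun t => ⟨hxU, trivial⟩
  have hK : IsCompact (Metric.closedBall x₀ ε ×ˢ Set.uIcc a b) :=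
    (isCompact_closedBall x₀ ε).prod isCompact_uIcc
  obtain ⟨C, hC⟩ := hK.exists_bound_of_continuousOn
    (hF'.mono (Set.prod_mono hεU (Set.subset_univ _)))
  refine (intervalIntegral.hasDerivAt_integral_of_dominated_loc_of_deriv_le
    (F := F) (F' := F') (bound := fun _ => C) (Metric.ball_mem_nhds x₀ hε) ?_ ?_ ?_ ?_ ?_ ?_).2
  · filter_upwards [hU.mem_nhds hx] with x hxU
    exact (hs x hxU).aestronglyMeasurable
  · exact (hs x₀ hx).intervalIntegrable _ _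
  · exact (hs' x₀ hx).aestronglyMeasurable
  · refine Filter.Eventually.of_forall fun t ht x hxb => ?_
    exact hC (x, t) ⟨Metric.ball_subset_closedBall hxb, Set.uIoc_subset_uIcc ht⟩
  · exact intervalIntegrable_const
  · refine Filter.Eventually.of_forall fun t _ x hxb => ?_
    exact hd x (hεU (Metric.ball_subset_closedBall hxb)) t

/-- continuity of a parametric integral, continuous case -/
theorem continuousAt_param {X E : Type*} [TopologicalSpace X] [FirstCountableTopology X]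
    [LocallyCompactSpace X] [NormedAddCommGroup E] [NormedSpace ℝ E]
    {F : X → ℝ → E} {U : Set X} (hU : IsOpen U) {x₀ : X} (hx : x₀ ∈ U)
    {a b : ℝ} (hF : ContinuousOn (fun p : X × ℝ => F p.1 p.2) (U ×ˢ univ)) :
    ContinuousAt (fun x => ∫ t in a..b, F x t) x₀ := by
  obtain ⟨K, hK1, hKU, hK⟩ := LocallyCompactSpace.local_compact_nhds x₀ U (hU.mem_nhds hx)
  have hs : ∀ x ∈ U, Continuous fun t => F x t := fun x hxU =>
    hF.comp_continuous (by fun_prop : Continuous fun t : ℝ => (x, t)) fun t => ⟨hxU, trivial⟩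
  obtain ⟨C, hC⟩ := (hK.prod (isCompact_uIcc (a := a) (b := b))).exists_bound_of_continuousOn
    (hF.mono (Set.prod_mono hKU (Set.subset_univ _)))
  refine intervalIntegral.continuousAt_of_dominated_interval (bound := fun _ => C) ?_ ?_ ?_ ?_
  · filter_upwards [hU.mem_nhds hx] with x hxU
    exact (hs x hxU).aestronglyMeasurable
  · filter_upwards [hK1] with x hxK
    refine Filter.Eventually.of_forall fun t ht => ?_
    exact hC (x, t) ⟨hxK, Set.uIoc_subset_uIcc ht⟩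
  · exact intervalIntegrable_const
  · refine Filter.Eventually.of_forall fun t _ => ?_
    have h1 : ContinuousAt (fun p : X × ℝ => F p.1 p.2) (x₀, t) :=
      hF.continuousAt ((hU.prod isOpen_univ).mem_nhds ⟨hx, trivial⟩)
    exact ContinuousAt.comp (f := fun x : X => (x, t)) h1 (by fun_prop)

/-! ### the analytic function -/

/-- the left half plane -/
def HP : Set ℂ := {w : ℂ | w.re < 0}

theorem isOpen_HP : IsOpen HP := isOpen_lt Complex.continuous_re continuous_const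

noncomputable def KK (w : ℂ) (α : ℝ) : ℂ :=
  (Complex.exp (α * I) + Complex.exp w) / (Complex.exp (α * I) - Complex.exp w)

noncomputable def KK' (w : ℂ) (α : ℝ) : ℂ :=
  2 * Complex.exp (α * I) * Complex.exp w / (Complex.exp (α * I) - Complex.exp w) ^ 2

noncomputable def FF (ρ : ℝ → ℝ) (w : ℂ) : ℂ :=
  ((2 * π)⁻¹ : ℝ) • ∫ α in (0:ℝ)..(2 * π), (ρ α : ℂ) * KK w α

theorem den_ne {w : ℂ} (hw : w ∈ HP) (α : ℝ) :
    Complex.exp (α * I) - Complex.exp w ≠ 0 := by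
  intro h
  rw [sub_eq_zero] at h
  have h1 := congrArg norm h
  rw [Complex.norm_exp_ofReal_mul_I, Complex.norm_exp] at h1
  have h2 : Real.exp w.re < 1 := by
    rw [← Real.exp_zero]
    exact Real.exp_lt_exp.2 hw
  linarith

theorem re_div (ζ z : ℂ) : ((ζ + z) / (ζ - z)).re = (‖ζ‖ ^ 2 - ‖z‖ ^ 2) / ‖ζ - z‖ ^ 2 := by
  rw [Complex.div_re, ← Complex.normSq_eq_norm_sq, ← Complex.normSq_eq_norm_sq,
    ← Complex.normSq_eq_norm_sq, ← add_div]
  congr 1
  simp only [Complex.normSq_apply, Complex.add_re, Complex.add_im, Complex.sub_re, Complex.sub_im]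
  ring

theorem KK_re (w : ℂ) (α : ℝ) :
    (KK w α).re = Pk (Complex.exp (α * I)) (Complex.exp w) := by
  unfold KK Pk
  rw [re_div, Complex.norm_exp_ofReal_mul_I, one_pow]

theorem hasDerivAt_KK {w : ℂ} (hw : w ∈ HP) (α : ℝ) :
    HasDerivAt (fun w => KK w α) (KK' w α) w := by
  unfold KK KK'
  have h1 : HasDerivAt (fun w : ℂ => Complex.exp (α * I) + Complex.exp w) (Complex.exp w) w :=
    (Complex.hasDerivAt_exp w).const_add _
  have h2 : HasDerivAt (fun w : ℂ => Complex.exp (α * I) - Complex.exp w) (-Complex.exp w) w :=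
    (Complex.hasDerivAt_exp w).const_sub _
  refine (h1.fun_div h2 (den_ne hw α)).congr_deriv ?_
  congr 1
  ring

theorem continuousOn_KK : ContinuousOn (fun p : ℂ × ℝ => KK p.1 p.2) (HP ×ˢ univ) := by
  unfold KK
  refine ContinuousOn.div (by fun_prop) (by fun_prop) fun p hp => den_ne hp.1 p.2

theorem continuousOn_KK' : ContinuousOn (fun p : ℂ × ℝ => KK' p.1 p.2) (HP ×ˢ univ) := by
  unfold KK'
  refine ContinuousOn.div (by fun_prop) (by fun_prop) fun p hp => ?_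
  exact pow_ne_zero 2 (den_ne hp.1 p.2)

theorem hasDerivAt_FF {ρ : ℝ → ℝ} (hρ : Continuous ρ) {w : ℂ} (hw : w ∈ HP) :
    HasDerivAt (FF ρ) (((2 * π)⁻¹ : ℝ) • ∫ α in (0:ℝ)..(2 * π), (ρ α : ℂ) * KK' w α) w := by
  have h := hasDerivAt_param (𝕜 := ℂ) (E := ℂ) (F := fun w α => (ρ α : ℂ) * KK w α)
    (F' := fun w α => (ρ α : ℂ) * KK' w α) (a := 0) (b := 2 * π) isOpen_HP hw
    (by
      have h1 : Continuous fun p : ℂ × ℝ => (ρ p.2 : ℂ) := by fun_prop
      exact h1.continuousOn.mul continuousOn_KK)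
    (by
      have h1 : Continuous fun p : ℂ × ℝ => (ρ p.2 : ℂ) := by fun_prop
      exact h1.continuousOn.mul continuousOn_KK')
    (fun x hx t => (hasDerivAt_KK hx t).const_mul _)
  exact h.const_smul ((2 * π)⁻¹ : ℝ)

theorem differentiableOn_FF {ρ : ℝ → ℝ} (hρ : Continuous ρ) : DifferentiableOn ℂ (FF ρ) HP :=
  fun _ hw => (hasDerivAt_FF hρ hw).differentiableAt.differentiableWithinAt

theorem FF_per (ρ : ℝ → ℝ) (w : ℂ) : FF ρ (w + 2 * π * I) = FF ρ w := by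
  unfold FF KK
  simp only [Complex.exp_periodic w]

theorem dFF_per (ρ : ℝ → ℝ) (w : ℂ) : deriv (FF ρ) (w + 2 * π * I) = deriv (FF ρ) w := by
  rw [← deriv_comp_add_const]
  congr 1
  funext z
  exact FF_per ρ z

/-- `t + iθ` -/
theorem pt_mem {t : ℝ} (ht : t < 0) (θ : ℝ) : (t : ℂ) + (θ : ℂ) * I ∈ HP := by
  simpa [HP] using ht

theorem uu_eq {ρ : ℝ → ℝ} (hρ : Continuous ρ) {t : ℝ} (ht : t < 0) (θ : ℝ) :
    uu ρ t θ = (FF ρ ((t : ℂ) + (θ : ℂ) * I)).re := by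
  have hc : Continuous fun α : ℝ => (ρ α : ℂ) * KK ((t : ℂ) + (θ : ℂ) * I) α := by
    refine Continuous.mul (by fun_prop) ?_
    exact continuousOn_KK.comp_continuous
      (by fun_prop : Continuous fun α : ℝ => (((t : ℂ) + (θ : ℂ) * I), α))
      fun α => ⟨pt_mem ht θ, trivial⟩
  have h1 := Complex.reCLM.intervalIntegral_comp_comm (μ := volume)
    (hc.intervalIntegrable 0 (2 * π))
  unfold uu FF
  rw [Complex.smul_re, smul_eq_mul]
  congr 1
  rw [show (∫ α in (0:ℝ)..(2 * π), (ρ α : ℂ) * KK ((t : ℂ) + (θ : ℂ) * I) α).re =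
    Complex.reCLM (∫ α in (0:ℝ)..(2 * π), (ρ α : ℂ) * KK ((t : ℂ) + (θ : ℂ) * I) α) from rfl,
    ← h1]
  refine intervalIntegral.integral_congr fun α _ => ?_
  simp only [Complex.reCLM_apply, Complex.re_ofReal_mul, KK_re]
  unfold ep
  ring

theorem uu_per (ρ : ℝ → ℝ) (t θ : ℝ) : uu ρ t (θ + 2 * π) = uu ρ t θ := by
  have h1 : ep t (θ + 2 * π) = ep t θ := by
    unfold ep
    push_cast
    rw [add_mul, ← add_assoc]
    exact Complex.exp_periodic _
  unfold uu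
  rw [h1]

theorem uu_pos {ρ : ℝ → ℝ} (h : Dens ρ) {t : ℝ} (ht : t < 0) (θ : ℝ) : 0 < uu ρ t θ :=
  Helper73.EK.uu_pos h ht θ

/-! ### the two real derivatives -/

theorem hasDerivAt_re_t {G : ℂ → ℂ} {G' : ℂ} {t θ : ℝ}
    (h : HasDerivAt G G' ((t : ℂ) + (θ : ℂ) * I)) :
    HasDerivAt (fun t' : ℝ => (G ((t' : ℂ) + (θ : ℂ) * I)).re) G'.re t := by
  have h1 : HasDerivAt (fun t' : ℝ => (t' : ℂ) + (θ : ℂ) * I) 1 t :=
    (Complex.ofRealCLM.hasDerivAt.add_const _)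
  have h2 : HasDerivAt (fun t' : ℝ => G ((t' : ℂ) + (θ : ℂ) * I)) (G' * 1) t :=
    HasDerivAt.comp t h h1
  have h3 : HasDerivAt (fun t' : ℝ => (G ((t' : ℂ) + (θ : ℂ) * I)).re) (G' * 1).re t :=
    Complex.reCLM.hasFDerivAt.comp_hasDerivAt t h2
  rwa [mul_one] at h3

theorem hasDerivAt_re_th {G : ℂ → ℂ} {G' : ℂ} {t θ : ℝ}
    (h : HasDerivAt G G' ((t : ℂ) + (θ : ℂ) * I)) :
    HasDerivAt (fun θ' : ℝ => (G ((t : ℂ) + (θ' : ℂ) * I)).re) (-G'.im) θ := by
  have h1 : HasDerivAt (fun θ' : ℝ => (t : ℂ) + (θ' : ℂ) * I) I θ := by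
    have := (Complex.ofRealCLM.hasDerivAt (x := θ)).mul_const I
    simpa using this.const_add (t : ℂ)
  have h2 : HasDerivAt (fun θ' : ℝ => G ((t : ℂ) + (θ' : ℂ) * I)) (G' * I) θ :=
    HasDerivAt.comp θ h h1
  have h3 : HasDerivAt (fun θ' : ℝ => (G ((t : ℂ) + (θ' : ℂ) * I)).re) (G' * I).re θ :=
    Complex.reCLM.hasFDerivAt.comp_hasDerivAt θ h2
  rwa [Complex.mul_I_re] at h3

theorem hasDerivAt_im_th {G : ℂ → ℂ} {G' : ℂ} {t θ : ℝ}
    (h : HasDerivAt G G' ((t : ℂ) + (θ : ℂ) * I)) :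
    HasDerivAt (fun θ' : ℝ => (G ((t : ℂ) + (θ' : ℂ) * I)).im) G'.re θ := by
  have h1 : HasDerivAt (fun θ' : ℝ => (t : ℂ) + (θ' : ℂ) * I) I θ := by
    have := (Complex.ofRealCLM.hasDerivAt (x := θ)).mul_const I
    simpa using this.const_add (t : ℂ)
  have h2 : HasDerivAt (fun θ' : ℝ => G ((t : ℂ) + (θ' : ℂ) * I)) (G' * I) θ :=
    HasDerivAt.comp θ h h1
  have h3 : HasDerivAt (fun θ' : ℝ => (G ((t : ℂ) + (θ' : ℂ) * I)).im) (G' * I).im θ :=
    Complex.imCLM.hasFDerivAt.comp_hasDerivAt θ h2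
  rwa [Complex.mul_I_im] at h3

variable {ρ : ℝ → ℝ}

theorem FF_hasDerivAt (hρ : Continuous ρ) {w : ℂ} (hw : w ∈ HP) :
    HasDerivAt (FF ρ) (deriv (FF ρ) w) w := (hasDerivAt_FF hρ hw).differentiableAt.hasDerivAt

theorem dFF_hasDerivAt (hρ : Continuous ρ) {w : ℂ} (hw : w ∈ HP) :
    HasDerivAt (deriv (FF ρ)) (deriv (deriv (FF ρ)) w) w :=
  (((differentiableOn_FF hρ).deriv isOpen_HP).differentiableAt (isOpen_HP.mem_nhds hw)).hasDerivAt

theorem cont_FF (hρ : Continuous ρ) : ContinuousOn (FF ρ) HP :=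
  (differentiableOn_FF hρ).continuousOn

theorem cont_dFF (hρ : Continuous ρ) : ContinuousOn (deriv (FF ρ)) HP :=
  ((differentiableOn_FF hρ).deriv isOpen_HP).continuousOn

theorem cont_ddFF (hρ : Continuous ρ) : ContinuousOn (deriv (deriv (FF ρ))) HP :=
  (((differentiableOn_FF hρ).deriv isOpen_HP).deriv isOpen_HP).continuousOn

theorem eventually_neg {t : ℝ} (ht : t < 0) : ∀ᶠ t' in nhds t, t' < 0 := eventually_lt_nhds ht

theorem hasDerivAt_uu_t (hρ : Continuous ρ) {t : ℝ} (ht : t < 0) (θ : ℝ) :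
    HasDerivAt (fun t' => uu ρ t' θ) (deriv (FF ρ) ((t : ℂ) + (θ : ℂ) * I)).re t := by
  have h := hasDerivAt_re_t (FF_hasDerivAt hρ (pt_mem ht θ))
  refine h.congr_of_eventuallyEq ?_
  filter_upwards [eventually_neg ht] with t' ht'
  exact uu_eq hρ ht' θ

theorem hasDerivAt_uu_th (hρ : Continuous ρ) {t : ℝ} (ht : t < 0) (θ : ℝ) :
    HasDerivAt (fun θ' => uu ρ t θ') (-(deriv (FF ρ) ((t : ℂ) + (θ : ℂ) * I)).im) θ := by
  have h := hasDerivAt_re_th (FF_hasDerivAt hρ (pt_mem ht θ))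
  refine h.congr_of_eventuallyEq ?_
  filter_upwards with θ'
  exact uu_eq hρ ht θ'

theorem ut_eq (hρ : Continuous ρ) {t : ℝ} (ht : t < 0) (θ : ℝ) :
    ut ρ t θ = (deriv (FF ρ) ((t : ℂ) + (θ : ℂ) * I)).re := (hasDerivAt_uu_t hρ ht θ).deriv

theorem uth_eq (hρ : Continuous ρ) {t : ℝ} (ht : t < 0) (θ : ℝ) :
    uth ρ t θ = -(deriv (FF ρ) ((t : ℂ) + (θ : ℂ) * I)).im := (hasDerivAt_uu_th hρ ht θ).deriv

/-- the closed formula for the derivative of `FF` -/
theorem deriv_FF (hρ : Continuous ρ) {w : ℂ} (hw : w ∈ HP) :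
    deriv (FF ρ) w = ((2 * π)⁻¹ : ℝ) • ∫ α in (0:ℝ)..(2 * π), (ρ α : ℂ) * KK' w α :=
  (hasDerivAt_FF hρ hw).deriv

/-! ### joint continuity -/

theorem contOn_comp {G : ℂ → ℂ} (hG : ContinuousOn G HP) :
    ContinuousOn (fun p : ℝ × ℝ => G ((p.1 : ℂ) + (p.2 : ℂ) * I)) (Iio 0 ×ˢ univ) :=
  hG.comp (by fun_prop) fun p hp => pt_mem hp.1 p.2

theorem cont_uu (hρ : Continuous ρ) :
    ContinuousOn (fun p : ℝ × ℝ => uu ρ p.1 p.2) (Iio 0 ×ˢ univ) := by
  have h := Complex.continuous_re.comp_continuousOn (contOn_comp (cont_FF hρ))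
  refine h.congr fun p hp => ?_
  exact uu_eq hρ hp.1 p.2

theorem cont_ut (hρ : Continuous ρ) :
    ContinuousOn (fun p : ℝ × ℝ => ut ρ p.1 p.2) (Iio 0 ×ˢ univ) := by
  have h := Complex.continuous_re.comp_continuousOn (contOn_comp (cont_dFF hρ))
  refine h.congr fun p hp => ?_
  exact ut_eq hρ hp.1 p.2

theorem cont_uth (hρ : Continuous ρ) :
    ContinuousOn (fun p : ℝ × ℝ => uth ρ p.1 p.2) (Iio 0 ×ˢ univ) := by
  have h := (Complex.continuous_im.comp_continuousOn (contOn_comp (cont_dFF hρ))).neg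
  refine h.congr fun p hp => ?_
  exact uth_eq hρ hp.1 p.2

noncomputable def utt (ρ : ℝ → ℝ) (t θ : ℝ) : ℝ :=
  (deriv (deriv (FF ρ)) ((t : ℂ) + (θ : ℂ) * I)).re

theorem cont_utt (hρ : Continuous ρ) :
    ContinuousOn (fun p : ℝ × ℝ => utt ρ p.1 p.2) (Iio 0 ×ˢ univ) :=
  Complex.continuous_re.comp_continuousOn (contOn_comp (cont_ddFF hρ))

theorem hasDerivAt_ut_t (hρ : Continuous ρ) {t : ℝ} (ht : t < 0) (θ : ℝ) :
    HasDerivAt (fun t' => ut ρ t' θ) (utt ρ t θ) t := by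
  have h := hasDerivAt_re_t (dFF_hasDerivAt hρ (pt_mem ht θ))
  refine h.congr_of_eventuallyEq ?_
  filter_upwards [eventually_neg ht] with t' ht'
  exact ut_eq hρ ht' θ

/-- Laplace's equation: `∂_θ uth = - utt` -/
theorem hasDerivAt_uth_th (hρ : Continuous ρ) {t : ℝ} (ht : t < 0) (θ : ℝ) :
    HasDerivAt (fun θ' => uth ρ t θ') (-utt ρ t θ) θ := by
  have h := (hasDerivAt_im_th (dFF_hasDerivAt hρ (pt_mem ht θ))).fun_neg
  refine h.congr_of_eventuallyEq ?_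
  filter_upwards with θ'
  exact uth_eq hρ ht θ'

theorem hasDerivAt_uu_t' (hρ : Continuous ρ) {t : ℝ} (ht : t < 0) (θ : ℝ) :
    HasDerivAt (fun t' => uu ρ t' θ) (ut ρ t θ) t := by
  rw [ut_eq hρ ht]
  exact hasDerivAt_uu_t hρ ht θ

theorem hasDerivAt_uu_th' (hρ : Continuous ρ) {t : ℝ} (ht : t < 0) (θ : ℝ) :
    HasDerivAt (fun θ' => uu ρ t θ') (uth ρ t θ) θ := by
  rw [uth_eq hρ ht]
  exact hasDerivAt_uu_th hρ ht θ

theorem uth_per (hρ : Continuous ρ) {t : ℝ} (ht : t < 0) (θ : ℝ) :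
    uth ρ t (θ + 2 * π) = uth ρ t θ := by
  rw [uth_eq hρ ht, uth_eq hρ ht]
  have h1 : (t : ℂ) + ((θ + 2 * π : ℝ) : ℂ) * I = ((t : ℂ) + (θ : ℂ) * I) + 2 * π * I := by
    push_cast
    ring
  rw [h1, dFF_per]

theorem slice {G : ℝ → ℝ → ℝ} (hG : ContinuousOn (fun p : ℝ × ℝ => G p.1 p.2) (Iio 0 ×ˢ univ))
    {t : ℝ} (ht : t < 0) : Continuous fun θ => G t θ :=
  hG.comp_continuous (by fun_prop : Continuous fun θ : ℝ => (t, θ)) fun _ => ⟨ht, trivial⟩

/-! ### E2a -/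

theorem logC (h : Dens ρ) :
    ContinuousOn (fun p : ℝ × ℝ => Real.log (uu ρ p.1 p.2)) (Iio 0 ×ˢ univ) :=
  (cont_uu h.cont).log fun p hp => (uu_pos h hp.1 p.2).ne'

theorem cont_i0 (h : Dens ρ) : ContinuousOn
    (fun p : ℝ × ℝ => uu ρ p.1 p.2 * Real.log (uu ρ p.1 p.2)) (Iio 0 ×ˢ univ) :=
  (cont_uu h.cont).mul (logC h)

theorem cont_i1 (h : Dens ρ) : ContinuousOn
    (fun p : ℝ × ℝ => (1 + Real.log (uu ρ p.1 p.2)) * ut ρ p.1 p.2) (Iio 0 ×ˢ univ) :=
  (continuousOn_const.add (logC h)).mul (cont_ut h.cont)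

theorem cont_i2 (h : Dens ρ) : ContinuousOn
    (fun p : ℝ × ℝ => (ut ρ p.1 p.2 ^ 2 + uth ρ p.1 p.2 ^ 2) / uu ρ p.1 p.2) (Iio 0 ×ˢ univ) :=
  (((cont_ut h.cont).pow 2).add ((cont_uth h.cont).pow 2)).div (cont_uu h.cont)
    fun p hp => (uu_pos h hp.1 p.2).ne'

theorem cont_i1' (h : Dens ρ) : ContinuousOn
    (fun p : ℝ × ℝ => ut ρ p.1 p.2 / uu ρ p.1 p.2 * ut ρ p.1 p.2 +
      (1 + Real.log (uu ρ p.1 p.2)) * utt ρ p.1 p.2) (Iio 0 ×ˢ univ) :=
  (((cont_ut h.cont).div (cont_uu h.cont) fun p hp => (uu_pos h hp.1 p.2).ne').mul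
    (cont_ut h.cont)).add ((continuousOn_const.add (logC h)).mul (cont_utt h.cont))

/-- integration by parts in `θ` -/
theorem parts (h : Dens ρ) {t : ℝ} (ht : t < 0) :
    ∫ θ in (-π)..π, (uth ρ t θ / uu ρ t θ * uth ρ t θ +
      (1 + Real.log (uu ρ t θ)) * (-utt ρ t θ)) = 0 := by
  have hd : ∀ θ : ℝ, HasDerivAt (fun θ => (1 + Real.log (uu ρ t θ)) * uth ρ t θ)
      (uth ρ t θ / uu ρ t θ * uth ρ t θ + (1 + Real.log (uu ρ t θ)) * (-utt ρ t θ)) θ := by
    intro θ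
    have h1 := ((hasDerivAt_uu_th' h.cont ht θ).log (uu_pos h ht θ).ne').const_add 1
    exact h1.fun_mul (hasDerivAt_uth_th h.cont ht θ)
  have hc : Continuous fun θ => uth ρ t θ / uu ρ t θ * uth ρ t θ +
      (1 + Real.log (uu ρ t θ)) * (-utt ρ t θ) := by
    have c1 := slice (cont_uth h.cont) ht
    have c2 := slice (cont_uu h.cont) ht
    have c3 := slice (cont_utt h.cont) ht
    have c4 := slice (G := fun t θ => Real.log (uu ρ t θ)) (logC h) ht
    exact ((c1.div c2 fun θ => (uu_pos h ht θ).ne').mul c1).add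
      ((continuous_const.add c4).mul c3.neg)
  rw [intervalIntegral.integral_eq_sub_of_hasDerivAt (fun θ _ => hd θ)
    (hc.intervalIntegrable _ _)]
  have e1 : uu ρ t π = uu ρ t (-π) := by
    rw [← uu_per ρ t (-π)]
    congr 1
    ring
  have e2 : uth ρ t π = uth ρ t (-π) := by
    rw [← uth_per h.cont ht (-π)]
    congr 1
    ring
  rw [e1, e2, sub_self]

theorem E2a {ρ : ℝ → ℝ} (h : Dens ρ) {t : ℝ} (ht : t < 0) :
    HasDerivAt (AA ρ) (A1 ρ t) t ∧ HasDerivAt (A1 ρ) (A2 ρ t) t ∧ ContinuousAt (A2 ρ) t := by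
  refine ⟨?_, ?_, ?_⟩
  · have h1 := hasDerivAt_param (𝕜 := ℝ) (E := ℝ)
      (F := fun t θ => uu ρ t θ * Real.log (uu ρ t θ))
      (F' := fun t θ => (1 + Real.log (uu ρ t θ)) * ut ρ t θ) (a := -π) (b := π)
      isOpen_Iio (x₀ := t) ht (cont_i0 h) (cont_i1 h)
      (fun x hx θ => by
        have d1 := hasDerivAt_uu_t' h.cont hx θ
        have hp := (uu_pos h hx θ).ne'
        refine (d1.fun_mul (d1.log hp)).congr_deriv ?_
        field_simp
        ring)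
    exact h1.const_mul _
  · have h1 := hasDerivAt_param (𝕜 := ℝ) (E := ℝ)
      (F := fun t θ => (1 + Real.log (uu ρ t θ)) * ut ρ t θ)
      (F' := fun t θ => ut ρ t θ / uu ρ t θ * ut ρ t θ +
        (1 + Real.log (uu ρ t θ)) * utt ρ t θ) (a := -π) (b := π)
      isOpen_Iio (x₀ := t) ht (cont_i1 h) (cont_i1' h)
      (fun x hx θ => by
        have d1 := hasDerivAt_uu_t' h.cont hx θ
        have hp := (uu_pos h hx θ).ne'
        exact ((d1.log hp).const_add 1).fun_mul (hasDerivAt_ut_t h.cont hx θ))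
    have h2 : ∫ θ in (-π)..π, (ut ρ t θ / uu ρ t θ * ut ρ t θ +
        (1 + Real.log (uu ρ t θ)) * utt ρ t θ) =
        ∫ θ in (-π)..π, (ut ρ t θ ^ 2 + uth ρ t θ ^ 2) / uu ρ t θ := by
      have h3 := parts h ht
      have i1 : IntervalIntegrable (fun θ => ut ρ t θ / uu ρ t θ * ut ρ t θ +
        (1 + Real.log (uu ρ t θ)) * utt ρ t θ) volume (-π) π :=
        (slice (G := fun t θ => ut ρ t θ / uu ρ t θ * ut ρ t θ +
        (1 + Real.log (uu ρ t θ)) * utt ρ t θ) (cont_i1' h) ht).intervalIntegrable _ _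
      have i2 : IntervalIntegrable (fun θ => uth ρ t θ / uu ρ t θ * uth ρ t θ +
        (1 + Real.log (uu ρ t θ)) * (-utt ρ t θ)) volume (-π) π := by
        have c1 := slice (cont_uth h.cont) ht
        have c2 := slice (cont_uu h.cont) ht
        have c3 := slice (cont_utt h.cont) ht
        have c4 := slice (G := fun t θ => Real.log (uu ρ t θ)) (logC h) ht
        exact (((c1.div c2 fun θ => (uu_pos h ht θ).ne').mul c1).add
          ((continuous_const.add c4).mul c3.neg)).intervalIntegrable _ _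
      have h4 := intervalIntegral.integral_add i1 i2
      rw [h3, add_zero] at h4
      rw [← h4]
      refine intervalIntegral.integral_congr fun θ _ => ?_
      have hp := (uu_pos h ht θ).ne'
      field_simp
      ring
    rw [h2] at h1
    exact h1.const_mul _
  · exact (continuousAt_param (X := ℝ) (E := ℝ)
      (F := fun t θ => (ut ρ t θ ^ 2 + uth ρ t θ ^ 2) / uu ρ t θ) (a := -π) (b := π)
      isOpen_Iio (x₀ := t) ht (cont_i2 h)).const_mul _

end Pool.Agent.Helper48.EK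

end

section

set_option autoImplicit false
open Complex MeasureTheory Metric Set
open scoped Real ComplexConjugate

/-! Project EK, E2: the entropy inequality from the variance inequality E2b. -/

namespace Pool.Agent.Helper5.EK

open Pool.Agent.Helper52.EK

theorem entropy_of_E2b
    (hE2b : ∀ (ρ : ℝ → ℝ) (w : ℂ → ℂ), Dens ρ → ContinuousOn w {z | 0 < ‖z‖ ∧ ‖z‖ < 1} →
      ∀ t : ℝ, t < 0 → 1 / Real.sinh t ^ 2 - kk ρ w t ≤ A2 ρ t) :
    ∃ C : ℝ, ∀ (ρ : ℝ → ℝ) (w : ℂ → ℂ) (a : ℝ), Dens ρ →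
    ContinuousOn w {z | 0 < ‖z‖ ∧ ‖z‖ < 1} → Real.exp (-1) < a → a < 1 →
    -Real.log (1 - a ^ 2) - C ≤ (2 * π)⁻¹ * (∫ α in (0:ℝ)..(2 * π), ρ α * Real.log (ρ α)) +
      (2 * π)⁻¹ * ∫ α in (0:ℝ)..(2 * π), ρ α * Kf w (Complex.exp (α * I)) (-1) (Real.log a) :=
  entropy_of (fun _ h _ ht => Pool.Agent.Helper48.EK.E2a h ht) hE2b
    Pool.Agent.Helper6.EK.E2c (fun _ h _ ht => Pool.Agent.Helper73.EK.E2d h ht)

end Pool.Agent.Helper5.EK

end

section

set_option autoImplicit false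
open Complex MeasureTheory Metric Set
open scoped Real ComplexConjugate

/-! Project EK, E2b: the variance inequality. -/

namespace Pool.Agent.Helper93.EK

open Pool.Agent.Helper52.EK Pool.Agent.Helper73.EK Pool.Agent.Helper48.EK

variable {ρ : ℝ → ℝ}

theorem tp : (0:ℝ) < 2 * π := by positivity

/-- the mean of `uu` over the circle -/
theorem mean_uu (h : Dens ρ) {t : ℝ} (ht : t < 0) :
    ∫ θ in (-π)..π, uu ρ t θ = 2 * π := by
  have cF : Continuous (Function.uncurry fun θ α : ℝ =>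
      Pk (Complex.exp (α * I)) (ep t θ) * ρ α) := by
    have h1 : Continuous fun q : ℝ × ℝ => (q.2, q.1) := by fun_prop
    exact ((continuous_Pk ht).comp h1).mul (h.cont.comp continuous_snd)
  unfold uu
  rw [intervalIntegral.integral_const_mul, Helper5.EK.swap2 cF]
  have h3 : ∀ α : ℝ, ∫ θ in (-π)..π, Pk (Complex.exp (α * I)) (ep t θ) * ρ α =
      2 * π * ρ α := by
    intro α
    rw [intervalIntegral.integral_mul_const, integral_Pk' ht]
  simp_rw [h3]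
  rw [intervalIntegral.integral_const_mul, ← mul_assoc, inv_mul_cancel₀ tp.ne', one_mul, h.one]

theorem conj_mul_self_one {ζ : ℂ} (hζ : ‖ζ‖ = 1) : conj ζ * ζ = 1 := by
  rw [mul_comm, Complex.mul_conj, Complex.normSq_eq_norm_sq, hζ]
  norm_num

theorem one_sub_conj {z ζ : ℂ} (hζ : ‖ζ‖ = 1) : 1 - conj z * ζ = conj (ζ - z) * ζ := by
  rw [map_sub, sub_mul, conj_mul_self_one hζ]

theorem norm_ee {ζ z : ℂ} (hζ : ‖ζ‖ = 1) (hz : ‖z‖ < 1) : ‖ee ζ z‖ = 1 := by
  have h2 : 0 < ‖ζ - z‖ := norm_pos_iff.mpr (sub_ne_zero_of hζ hz)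
  rw [ee, one_sub_conj hζ, norm_div, norm_mul, RCLike.norm_conj, hζ, mul_one, div_self h2.ne']

/-- `Pk ee` is a multiple of `KK'` -/
theorem pk_ee {t : ℝ} (ht : t < 0) (θ α : ℝ) :
    ((Pk (Complex.exp (α * I)) (ep t θ) : ℝ) : ℂ) * ee (Complex.exp (α * I)) (ep t θ) =
      ((1 - ‖ep t θ‖ ^ 2 : ℝ) : ℂ) / (2 * ep t θ) * KK' ((t : ℂ) + (θ : ℂ) * I) α := by
  have hz := norm_ep_lt ht θ
  have hζ := norm_cis α
  have h3 := sub_ne_zero_of hζ hz
  have h5 : conj (Complex.exp (α * I) - ep t θ) ≠ 0 := by rwa [Ne, map_eq_zero]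
  have h4 : ((‖Complex.exp (α * I) - ep t θ‖ ^ 2 : ℝ) : ℂ) =
      (Complex.exp (α * I) - ep t θ) * conj (Complex.exp (α * I) - ep t θ) := by
    rw [Complex.mul_conj, Complex.normSq_eq_norm_sq]
  have h6 : ep t θ ≠ 0 := by
    unfold ep
    exact Complex.exp_ne_zero _
  have h7 : KK' ((t : ℂ) + (θ : ℂ) * I) α =
      2 * Complex.exp (α * I) * ep t θ / (Complex.exp (α * I) - ep t θ) ^ 2 := rfl
  rw [Pk, ee, one_sub_conj hζ, Complex.ofReal_div, h4, h7]
  field_simp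

theorem sinh_ep {t : ℝ} (ht : t < 0) (θ : ℝ) :
    ‖((1 - ‖ep t θ‖ ^ 2 : ℝ) : ℂ) / (2 * ep t θ)‖ = -Real.sinh t := by
  have h1 : 0 < 1 - ‖ep t θ‖ ^ 2 := by
    have := norm_ep_lt ht θ
    nlinarith [norm_nonneg (ep t θ)]
  rw [norm_div, norm_mul, Complex.norm_real, Real.norm_of_nonneg h1.le, norm_ep, Real.sinh_eq,
    Complex.norm_ofNat]
  have h2 := Real.exp_pos t
  have h3 : Real.exp (-t) = (Real.exp t)⁻¹ := Real.exp_neg t
  rw [h3]
  field_simp
  ring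

/-- the mean of `ρ Pk ee` -/
noncomputable def DD (ρ : ℝ → ℝ) (t θ : ℝ) : ℂ :=
  ((1 - ‖ep t θ‖ ^ 2 : ℝ) : ℂ) / (2 * ep t θ) * deriv (FF ρ) ((t : ℂ) + (θ : ℂ) * I)

theorem cont_DD (hρ : Continuous ρ) {t : ℝ} (ht : t < 0) : Continuous fun θ => DD ρ t θ := by
  unfold DD
  have h1 : Continuous fun θ => ep t θ := by
    unfold ep
    fun_prop
  refine Continuous.mul (Continuous.div (by fun_prop) (by fun_prop) fun θ => ?_) ?_
  · have h6 : ep t θ ≠ 0 := by
      unfold ep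
      exact Complex.exp_ne_zero _
    simpa using h6
  · exact (cont_dFF hρ).comp_continuous (by fun_prop) fun θ => pt_mem ht θ

theorem cont_pk {t : ℝ} (ht : t < 0) (θ : ℝ) :
    Continuous fun α : ℝ => Pk (Complex.exp (α * I)) (ep t θ) :=
  continuous_Pk_one _ (norm_ep_lt ht θ)

theorem cont_ee {t : ℝ} (ht : t < 0) (θ : ℝ) :
    Continuous fun α : ℝ => ee (Complex.exp (α * I)) (ep t θ) := by
  unfold ee
  refine Continuous.div (by fun_prop) (by fun_prop) fun α => ?_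
  exact sub_ne_zero_of (norm_cis α) (norm_ep_lt ht θ)

theorem int_DD (hρ : Continuous ρ) {t : ℝ} (ht : t < 0) (θ : ℝ) :
    ∫ α in (0:ℝ)..(2 * π), ((ρ α * Pk (Complex.exp (α * I)) (ep t θ) : ℝ) : ℂ) *
      ee (Complex.exp (α * I)) (ep t θ) = 2 * π * DD ρ t θ := by
  have h1 : ∀ α : ℝ, ((ρ α * Pk (Complex.exp (α * I)) (ep t θ) : ℝ) : ℂ) *
      ee (Complex.exp (α * I)) (ep t θ) = ((1 - ‖ep t θ‖ ^ 2 : ℝ) : ℂ) / (2 * ep t θ) *
        ((ρ α : ℂ) * KK' ((t : ℂ) + (θ : ℂ) * I) α) := by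
    intro α
    rw [Complex.ofReal_mul, mul_assoc, pk_ee ht]
    ring
  simp_rw [h1]
  rw [intervalIntegral.integral_const_mul, DD, deriv_FF hρ (pt_mem ht θ), Complex.real_smul]
  have h2 : ((2 * π : ℝ) : ℂ) ≠ 0 := by exact_mod_cast tp.ne'
  push_cast at h2 ⊢
  field_simp

theorem norm_DD (hρ : Continuous ρ) {t : ℝ} (ht : t < 0) (θ : ℝ) :
    ‖DD ρ t θ‖ ^ 2 = Real.sinh t ^ 2 * (ut ρ t θ ^ 2 + uth ρ t θ ^ 2) := by
  rw [DD, norm_mul, sinh_ep ht, mul_pow, neg_sq, ut_eq hρ ht, uth_eq hρ ht,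
    ← Complex.normSq_eq_norm_sq (deriv (FF ρ) _), Complex.normSq_apply]
  ring

/-- the loss at one point -/
theorem loss_eq (h : Dens ρ) {t : ℝ} (ht : t < 0) (θ : ℝ) (b : ℂ) :
    (2 * π)⁻¹ * ∫ α in (0:ℝ)..(2 * π),
      ρ α * (Pk (Complex.exp (α * I)) (ep t θ) *
        ‖ee (Complex.exp (α * I)) (ep t θ) - b‖ ^ 2 / Real.sinh t ^ 2) =
      (Real.sinh t ^ 2)⁻¹ *
        ((1 + ‖b‖ ^ 2) * uu ρ t θ - 2 * (DD ρ t θ * conj b).re) := by
  have h1 : ∀ α : ℝ, ρ α * (Pk (Complex.exp (α * I)) (ep t θ) *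
        ‖ee (Complex.exp (α * I)) (ep t θ) - b‖ ^ 2 / Real.sinh t ^ 2) =
      (Real.sinh t ^ 2)⁻¹ * ((1 + ‖b‖ ^ 2) * (Pk (Complex.exp (α * I)) (ep t θ) * ρ α) -
        2 * ((((ρ α * Pk (Complex.exp (α * I)) (ep t θ) : ℝ) : ℂ) *
      ee (Complex.exp (α * I)) (ep t θ)) * conj b).re) := by
    intro α
    have h2 : ‖ee (Complex.exp (α * I)) (ep t θ) - b‖ ^ 2 =
        1 + ‖b‖ ^ 2 - 2 * (ee (Complex.exp (α * I)) (ep t θ) * conj b).re := by
      rw [← Complex.normSq_eq_norm_sq, Complex.normSq_sub, Complex.normSq_eq_norm_sq,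
        Complex.normSq_eq_norm_sq, norm_ee (norm_cis α) (norm_ep_lt ht θ), one_pow]
    rw [h2, mul_assoc, Complex.re_ofReal_mul]
    ring
  have c1 : Continuous fun α : ℝ => Pk (Complex.exp (α * I)) (ep t θ) * ρ α :=
    (cont_pk ht θ).mul h.cont
  have c2 : Continuous fun α : ℝ => ((ρ α * Pk (Complex.exp (α * I)) (ep t θ) : ℝ) : ℂ) *
      ee (Complex.exp (α * I)) (ep t θ) :=
    (Complex.continuous_ofReal.comp (h.cont.mul (cont_pk ht θ))).mul (cont_ee ht θ)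
  have c3 : Continuous fun α : ℝ => ((((ρ α * Pk (Complex.exp (α * I)) (ep t θ) : ℝ) : ℂ) *
      ee (Complex.exp (α * I)) (ep t θ)) * conj b).re :=
    Complex.continuous_re.comp (c2.mul continuous_const)
  simp_rw [h1]
  rw [intervalIntegral.integral_const_mul, intervalIntegral.integral_sub
    ((c1.const_mul _).intervalIntegrable _ _) ((c3.const_mul _).intervalIntegrable _ _),
    intervalIntegral.integral_const_mul, intervalIntegral.integral_const_mul]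
  have h4 : ∫ α in (0:ℝ)..(2 * π), ((((ρ α * Pk (Complex.exp (α * I)) (ep t θ) : ℝ) : ℂ) *
      ee (Complex.exp (α * I)) (ep t θ)) * conj b).re = 2 * π * (DD ρ t θ * conj b).re := by
    have h5 := Complex.reCLM.intervalIntegral_comp_comm (μ := volume)
      (f := fun α : ℝ => (((ρ α * Pk (Complex.exp (α * I)) (ep t θ) : ℝ) : ℂ) *
        ee (Complex.exp (α * I)) (ep t θ)) * conj b)
      ((c2.mul (continuous_const (y := conj b))).intervalIntegrable 0 (2 * π))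
    simp only [Complex.reCLM_apply] at h5
    rw [h5, intervalIntegral.integral_mul_const, int_DD h.cont ht, mul_assoc,
      show (2 * (π : ℂ)) = ((2 * π : ℝ) : ℂ) by push_cast; ring, Complex.re_ofReal_mul]
  have h6 : ∫ α in (0:ℝ)..(2 * π), Pk (Complex.exp (α * I)) (ep t θ) * ρ α =
      2 * π * uu ρ t θ := by
    rw [uu, ← mul_assoc, mul_inv_cancel₀ tp.ne', one_mul]
  rw [h4, h6]
  have h7 := tp.ne'
  field_simp

/-- the variance inequality at one point -/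
theorem loss_ge (h : Dens ρ) {t : ℝ} (ht : t < 0) (θ : ℝ) (b : ℂ) :
    (Real.sinh t ^ 2)⁻¹ * uu ρ t θ - (ut ρ t θ ^ 2 + uth ρ t θ ^ 2) / uu ρ t θ ≤
      (Real.sinh t ^ 2)⁻¹ *
        ((1 + ‖b‖ ^ 2) * uu ρ t θ - 2 * (DD ρ t θ * conj b).re) := by
  have hs : Real.sinh t ≠ 0 := by
    have := Real.sinh_neg_iff.2 ht
    exact this.ne
  have hs2 : 0 < Real.sinh t ^ 2 := by positivity
  have hu := Helper73.EK.uu_pos h ht θ
  set u := uu ρ t θ with hu'
  have h1 : ut ρ t θ ^ 2 + uth ρ t θ ^ 2 = (Real.sinh t ^ 2)⁻¹ * ‖DD ρ t θ‖ ^ 2 := by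
    rw [norm_DD h.cont ht, ← mul_assoc, inv_mul_cancel₀ hs2.ne', one_mul]
  set D := DD ρ t θ
  have h6 : (D * conj b).re ≤ ‖D‖ * ‖b‖ := by
    refine (Complex.re_le_norm _).trans ?_
    rw [norm_mul, RCLike.norm_conj]
  have h7 : ‖D‖ ^ 2 / u + ‖b‖ ^ 2 * u - 2 * (‖D‖ * ‖b‖) = (‖D‖ - u * ‖b‖) ^ 2 / u := by
    field_simp
    ring
  have h8 : 0 ≤ (‖D‖ - u * ‖b‖) ^ 2 / u := by positivity
  have h9 : u - ‖D‖ ^ 2 / u ≤ (1 + ‖b‖ ^ 2) * u - 2 * (D * conj b).re := by nlinarith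
  rw [h1, mul_div_assoc, ← mul_sub]
  exact mul_le_mul_of_nonneg_left h9 (inv_pos.2 hs2).le

/-- E2b (variance inequality) -/
theorem E2b {ρ : ℝ → ℝ} (h : Dens ρ) {w : ℂ → ℂ}
    (hw : ContinuousOn w {z | 0 < ‖z‖ ∧ ‖z‖ < 1}) {t : ℝ} (ht : t < 0) :
    1 / Real.sinh t ^ 2 - kk ρ w t ≤ A2 ρ t := by
  have hpi : -π ≤ π := by linarith [Real.pi_pos]
  have cw : Continuous fun θ => w (ep t θ) := by
    refine hw.comp_continuous ?_ fun θ => ⟨?_, norm_ep_lt ht θ⟩
    · unfold ep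
      fun_prop
    · rw [norm_ep]
      exact Real.exp_pos t
  have cu : Continuous fun θ => uu ρ t θ := continuous_uu h ht
  have cD := cont_DD h.cont ht
  have cR : Continuous fun θ => (Real.sinh t ^ 2)⁻¹ *
      ((1 + ‖w (ep t θ)‖ ^ 2) * uu ρ t θ - 2 * (DD ρ t θ * conj (w (ep t θ))).re) := by
    have c1 : Continuous fun θ => conj (w (ep t θ)) := Complex.continuous_conj.comp cw
    have c2 : Continuous fun θ => (DD ρ t θ * conj (w (ep t θ))).re :=
      Complex.continuous_re.comp (cD.mul c1)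
    exact (((continuous_const.add (cw.norm.pow 2)).mul cu).sub (c2.const_mul 2)).const_mul _
  have c3 := slice (G := fun t θ => (ut ρ t θ ^ 2 + uth ρ t θ ^ 2) / uu ρ t θ) (cont_i2 h) ht
  have h1 := intervalIntegral.integral_mono_on (μ := volume) hpi
    (((cu.const_mul ((Real.sinh t ^ 2)⁻¹)).sub c3).intervalIntegrable (-π) π)
    (cR.intervalIntegrable (-π) π) fun θ _ => loss_ge h ht θ (w (ep t θ))
  simp only [Pi.sub_apply] at h1
  rw [intervalIntegral.integral_sub ((cu.const_mul _).intervalIntegrable _ _)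
    (c3.intervalIntegrable _ _), intervalIntegral.integral_const_mul, mean_uu h ht] at h1
  have h2 : kk ρ w t = (2 * π)⁻¹ * ∫ θ in (-π)..π, (Real.sinh t ^ 2)⁻¹ *
      ((1 + ‖w (ep t θ)‖ ^ 2) * uu ρ t θ - 2 * (DD ρ t θ * conj (w (ep t θ))).re) := by
    unfold kk
    congr 1
    exact intervalIntegral.integral_congr fun θ _ => loss_eq h ht θ _
  have h3 := mul_le_mul_of_nonneg_left h1 (inv_pos.2 tp).le
  rw [← h2, mul_sub] at h3
  have h4 : (2 * π)⁻¹ * ((Real.sinh t ^ 2)⁻¹ * (2 * π)) = 1 / Real.sinh t ^ 2 := by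
    have h7 := tp.ne'
    rw [one_div]
    field_simp
  rw [h4] at h3
  have h5 : A2 ρ t = (2 * π)⁻¹ * ∫ θ in (-π)..π, (ut ρ t θ ^ 2 + uth ρ t θ ^ 2) / uu ρ t θ := rfl
  rw [h5]
  linarith

end Pool.Agent.Helper93.EK

end

section

set_option autoImplicit false
open Complex MeasureTheory Metric Set
open scoped Real ComplexConjugate

/-! Project EK, E2: the entropy inequality. -/

namespace Pool.Agent.Helper5.EK

open Pool.Agent.Helper52.EK

/-- E2: the entropy inequality (assembly) -/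
theorem entropy : ∃ C : ℝ, ∀ (ρ : ℝ → ℝ) (w : ℂ → ℂ) (a : ℝ), Dens ρ →
    ContinuousOn w {z | 0 < ‖z‖ ∧ ‖z‖ < 1} → Real.exp (-1) < a → a < 1 →
    -Real.log (1 - a ^ 2) - C ≤ (2 * π)⁻¹ * (∫ α in (0:ℝ)..(2 * π), ρ α * Real.log (ρ α)) +
      (2 * π)⁻¹ * ∫ α in (0:ℝ)..(2 * π), ρ α * Kf w (Complex.exp (α * I)) (-1) (Real.log a) :=
  entropy_of_E2b fun _ _ h hw _ ht => Pool.Agent.Helper93.EK.E2b h hw ht

end Pool.Agent.Helper5.EK

end

section

set_option autoImplicit false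
open Complex MeasureTheory Metric Set
open scoped Real ComplexConjugate

/-! Project EK / EKC: the Gibbs step for a general potential `V` (for the complex exponents). -/

namespace Pool.Agent.Helper61.EK

open Pool.Agent.Helper39.Area Pool.Agent.Helper52.EK Pool.Agent.Helper9.EK

/-- If `Kf w (e^(iα)) ≤ V α + C₂` for all `α`, then the mean of `exp (-V)` is at most
`exp (C₁ + C₂) (1 - a²)`, `C₁` the constant of the entropy inequality. -/
theorem gibbs_core {C₁ : ℝ}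
    (hE : ∀ (ρ : ℝ → ℝ) (w : ℂ → ℂ) (a : ℝ), Dens ρ →
      ContinuousOn w {z | 0 < ‖z‖ ∧ ‖z‖ < 1} → Real.exp (-1) < a → a < 1 →
      -Real.log (1 - a ^ 2) - C₁ ≤ (2 * π)⁻¹ * (∫ α in (0:ℝ)..(2 * π), ρ α * Real.log (ρ α)) +
        (2 * π)⁻¹ * ∫ α in (0:ℝ)..(2 * π), ρ α * Kf w (Complex.exp (α * I)) (-1) (Real.log a))
    (hKc : KfContStmt) {w : ℂ → ℂ} (hw : ContinuousOn w {z | 0 < ‖z‖ ∧ ‖z‖ < 1})
    {a : ℝ} (hae : Real.exp (-1) < a) (ha1 : a < 1)
    {V : ℝ → ℝ} (hVc : Continuous V) (hVp : Function.Periodic V (2 * π)) {C₂ : ℝ}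
    (hK : ∀ α : ℝ, Kf w (Complex.exp (α * I)) (-1) (Real.log a) ≤ V α + C₂) :
    (2 * π)⁻¹ * (∫ α in (0:ℝ)..(2 * π), Real.exp (-V α)) ≤ Real.exp (C₁ + C₂) * (1 - a ^ 2) := by
  have hap : 0 < a := (Real.exp_pos _).trans hae
  have h2π : (0:ℝ) < 2 * π := by positivity
  have hs : 0 < 1 - a ^ 2 := by nlinarith
  set g : ℝ → ℝ := fun α => Real.exp (-V α) with hg
  have hgc : Continuous g := Real.continuous_exp.comp hVc.neg
  have hgp : ∀ α, 0 < g α := fun α => Real.exp_pos _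
  have hI : 0 < ∫ α in (0:ℝ)..(2 * π), g α :=
    intervalIntegral.intervalIntegral_pos_of_pos (hgc.intervalIntegrable _ _) hgp h2π
  set M : ℝ := (2 * π)⁻¹ * (∫ α in (0:ℝ)..(2 * π), g α) with hM
  have hMp : 0 < M := mul_pos (inv_pos.mpr h2π) hI
  set ρ : ℝ → ℝ := fun α => M⁻¹ * g α with hρ
  have hρc : Continuous ρ := continuous_const.mul hgc
  have hρp : ∀ α, 0 < ρ α := fun α => mul_pos (inv_pos.mpr hMp) (hgp α)
  have hone : ∫ α in (0:ℝ)..(2 * π), ρ α = 2 * π := by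
    simp only [hρ]
    rw [intervalIntegral.integral_const_mul]
    rw [hM]
    field_simp
  have hdens : Dens ρ := by
    refine ⟨hρc, hρp, ?_, hone⟩
    intro α
    simp only [hρ, hg]
    rw [hVp α]
  have hlog1 : -1 < Real.log a := (Real.lt_log_iff_exp_lt hap).mpr hae
  have hlog2 : Real.log a < 0 := Real.log_neg hap ha1
  have hmain := hE ρ w a hdens hw hae ha1
  have hlogρ : ∀ α, Real.log (ρ α) = -V α - Real.log M := by
    intro α
    simp only [hρ, hg]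
    rw [Real.log_mul (inv_pos.mpr hMp).ne' (hgp α).ne', Real.log_inv, Real.log_exp]
    ring
  have hi1 : IntervalIntegrable (fun α => ρ α * Real.log (ρ α)) volume 0 (2 * π) :=
    (hρc.mul (hρc.log fun α => (hρp α).ne')).intervalIntegrable _ _
  have hi2 : IntervalIntegrable
      (fun α => ρ α * Kf w (Complex.exp (α * I)) (-1) (Real.log a)) volume 0 (2 * π) :=
    (hρc.mul (hKc hw hlog1 hlog2)).intervalIntegrable _ _
  have hsum : (∫ α in (0:ℝ)..(2 * π), ρ α * Real.log (ρ α)) +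
      (∫ α in (0:ℝ)..(2 * π), ρ α * Kf w (Complex.exp (α * I)) (-1) (Real.log a)) ≤
      (2 * π) * (-Real.log M + C₂) := by
    rw [← intervalIntegral.integral_add hi1 hi2]
    have hle : (∫ α in (0:ℝ)..(2 * π), (ρ α * Real.log (ρ α) +
        ρ α * Kf w (Complex.exp (α * I)) (-1) (Real.log a))) ≤
        ∫ α in (0:ℝ)..(2 * π), ρ α * (-Real.log M + C₂) := by
      apply intervalIntegral.integral_mono_on h2π.le (hi1.add hi2)
        ((hρc.mul continuous_const).intervalIntegrable _ _)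
      intro α _
      have h1 := mul_le_mul_of_nonneg_left (hK α) (hρp α).le
      show ρ α * Real.log (ρ α) + ρ α * Kf w (Complex.exp (α * I)) (-1) (Real.log a) ≤
        ρ α * (-Real.log M + C₂)
      rw [hlogρ α]
      linarith
    rw [intervalIntegral.integral_mul_const, hone] at hle
    exact hle
  have hsum2 := mul_le_mul_of_nonneg_left hsum (inv_pos.mpr h2π).le
  rw [mul_add, ← mul_assoc, inv_mul_cancel₀ h2π.ne', one_mul] at hsum2
  have hlogM : Real.log M ≤ (C₁ + C₂) + Real.log (1 - a ^ 2) := by linarith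
  have h2 : M ≤ Real.exp ((C₁ + C₂) + Real.log (1 - a ^ 2)) :=
    (Real.log_le_iff_le_exp hMp).mp hlogM
  rw [Real.exp_add, Real.exp_log hs] at h2
  exact h2

end Pool.Agent.Helper61.EK

end

section


set_option autoImplicit false

/-!
Project EK (MP_16b0ee_an), E2e: the entropy loss is a continuous function of the target.
-/

open Complex MeasureTheory Metric Set
open scoped Real ComplexConjugate

namespace Pool.Agent.Helper26.EK

open Pool.Agent.Helper52.EK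

theorem norm_ep (t θ : ℝ) : ‖ep t θ‖ = Real.exp t := by
  unfold ep
  rw [Complex.norm_exp]
  simp

theorem continuous_ep {X : Type*} [TopologicalSpace X] {f g : X → ℝ} (hf : Continuous f)
    (hg : Continuous g) : Continuous fun x => ep (f x) (g x) := by
  unfold ep
  fun_prop

/-- E2e -/
theorem Kf_cont {w : ℂ → ℂ} (hw : ContinuousOn w {z | 0 < ‖z‖ ∧ ‖z‖ < 1}) {t₂ : ℝ}
    (h1 : -1 < t₂) (h2 : t₂ < 0) :
    Continuous (fun α : ℝ => Kf w (Complex.exp (α * I)) (-1) t₂) := by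
  set cl : ℝ → ℝ := fun t => max (-1) (min t t₂) with hcl
  have hclc : Continuous cl := by
    rw [hcl]
    fun_prop
  have hcl0 : ∀ t, cl t < 0 := by
    intro t
    rw [hcl]
    exact max_lt (by norm_num) ((min_le_right _ _).trans_lt h2)
  have hcl1 : ∀ t ∈ uIcc (-1) t₂, cl t = t := by
    intro t ht
    rw [uIcc_of_le h1.le] at ht
    rw [hcl]
    simp only
    rw [min_eq_left ht.2, max_eq_right ht.1]
  -- the integrand with `t` replaced by its projection to the interval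
  set F : (ℝ × ℝ) × ℝ → ℝ := fun q => (t₂ - q.1.2) *
      Pk (Complex.exp (q.1.1 * I)) (ep (cl q.1.2) q.2) *
      ‖ee (Complex.exp (q.1.1 * I)) (ep (cl q.1.2) q.2) - w (ep (cl q.1.2) q.2)‖ ^ 2 /
        Real.sinh (cl q.1.2) ^ 2 with hF
  have hz : Continuous fun q : (ℝ × ℝ) × ℝ => ep (cl q.1.2) q.2 :=
    continuous_ep (hclc.comp (continuous_snd.comp continuous_fst)) continuous_snd
  have hnz : ∀ q : (ℝ × ℝ) × ℝ, ‖ep (cl q.1.2) q.2‖ < 1 := by
    intro q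
    rw [norm_ep]
    exact Real.exp_lt_one_iff.mpr (hcl0 _)
  have hnz0 : ∀ q : (ℝ × ℝ) × ℝ, 0 < ‖ep (cl q.1.2) q.2‖ := by
    intro q
    rw [norm_ep]
    exact Real.exp_pos _
  have hζ : Continuous fun q : (ℝ × ℝ) × ℝ => Complex.exp (q.1.1 * I) := by
    fun_prop
  have hnζ : ∀ q : (ℝ × ℝ) × ℝ, ‖Complex.exp (q.1.1 * I)‖ = 1 := fun q =>
    Complex.norm_exp_ofReal_mul_I _
  have hne : ∀ q : (ℝ × ℝ) × ℝ, Complex.exp (q.1.1 * I) - ep (cl q.1.2) q.2 ≠ 0 := by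
    intro q h
    have h3 := congrArg norm (sub_eq_zero.1 h)
    rw [hnζ] at h3
    exact (hnz q).ne h3.symm
  have hFc : Continuous F := by
    rw [hF]
    have hsinh : ∀ q : (ℝ × ℝ) × ℝ, Real.sinh (cl q.1.2) ^ 2 ≠ 0 := by
      intro q
      have := Real.sinh_neg_iff.2 (hcl0 q.1.2)
      exact pow_ne_zero 2 this.ne
    have hP : Continuous fun q : (ℝ × ℝ) × ℝ =>
        Pk (Complex.exp (q.1.1 * I)) (ep (cl q.1.2) q.2) := by
      unfold Pk
      refine Continuous.div ?_ ?_ ?_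
      · exact continuous_const.sub (hz.norm.pow 2)
      · exact (hζ.sub hz).norm.pow 2
      · intro q
        exact pow_ne_zero 2 (norm_ne_zero_iff.2 (hne q))
    have hE : Continuous fun q : (ℝ × ℝ) × ℝ =>
        ee (Complex.exp (q.1.1 * I)) (ep (cl q.1.2) q.2) := by
      unfold ee
      refine Continuous.div ?_ ?_ ?_
      · exact continuous_const.sub ((Complex.continuous_conj.comp hz).mul hζ)
      · exact hζ.sub hz
      · exact hne
    have hW : Continuous fun q : (ℝ × ℝ) × ℝ => w (ep (cl q.1.2) q.2) :=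
      hw.comp_continuous hz fun q => ⟨hnz0 q, hnz q⟩
    refine Continuous.div ?_ ?_ hsinh
    · refine Continuous.mul (Continuous.mul ?_ hP) ?_
      · exact continuous_const.sub (continuous_snd.comp continuous_fst)
      · exact (hE.sub hW).norm.pow 2
    · exact (Real.continuous_sinh.comp (hclc.comp (continuous_snd.comp continuous_fst))).pow 2
  -- the integrals
  have h3 : Continuous fun p : ℝ × ℝ => ∫ θ in (-π)..π, F (p, θ) :=
    intervalIntegral.continuous_parametric_intervalIntegral_of_continuous' (μ := volume)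
      (f := fun p : ℝ × ℝ => fun θ => F (p, θ)) hFc (-π) π
  have h4 : Continuous fun α : ℝ => ∫ t in (-1)..t₂, ∫ θ in (-π)..π, F ((α, t), θ) :=
    intervalIntegral.continuous_parametric_intervalIntegral_of_continuous' (μ := volume)
      (f := fun α : ℝ => fun t => ∫ θ in (-π)..π, F ((α, t), θ)) h3 (-1) t₂
  have h5 : (fun α : ℝ => Kf w (Complex.exp (α * I)) (-1) t₂) =
      fun α : ℝ => (2 * π)⁻¹ * ∫ t in (-1)..t₂, ∫ θ in (-π)..π, F ((α, t), θ) := by
    funext α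
    unfold Kf
    congr 1
    refine intervalIntegral.integral_congr fun t ht => ?_
    refine intervalIntegral.integral_congr fun θ _ => ?_
    have h6 := hcl1 t ht
    change _ = (t₂ - t) * Pk (Complex.exp (α * I)) (ep (cl t) θ) *
      ‖ee (Complex.exp (α * I)) (ep (cl t) θ) - w (ep (cl t) θ)‖ ^ 2 / Real.sinh (cl t) ^ 2
    rw [h6]
  rw [h5]
  exact continuous_const.mul h4

end Pool.Agent.Helper26.EK

end

section

set_option autoImplicit false
open Complex MeasureTheory Metric Set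
open scoped Real ComplexConjugate

/-! Project EK, module E6c: Gibbs, with the entropy inequality as the only hypothesis. -/

namespace Pool.Agent.Helper61.EK

open Pool.Agent.Helper39.Area Pool.Agent.Helper52.EK Pool.Agent.Helper9.EK

theorem gibbs0 (hE : EntropyStmt) {κ L : ℝ} {G : ℂ → ℂ} (hG : GLip G L)
    (hK : ∃ C a₀ : ℝ, a₀ < 1 ∧ ∀ (β : ℂ → ℂ) (R a : ℝ), ExtR β R → a₀ < a → a < 1 →
      Kf (wf G β) 1 (-1) (Real.log a) ≤ κ * Real.log (‖N β a‖ / (1 - a ^ 2)) + C) :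
    ∃ C a₀ : ℝ, a₀ < 1 ∧ ∀ (β : ℂ → ℂ) (R a : ℝ), ExtR β R → a₀ < a → a < 1 →
      (2 * π)⁻¹ * (∫ α in (0:ℝ)..(2 * π), ‖N β (a * Complex.exp (α * I))‖ ^ (-κ)) ≤
        C * (1 - a ^ 2) ^ (-(κ - 1)) :=
  gibbs_of hE (fun hw _ h1 h2 => Pool.Agent.Helper26.EK.Kf_cont hw h1 h2)
    (fun h => Pool.Agent.Helper70.EK.wf_cont hG h) hK

end Pool.Agent.Helper61.EK

end

section

set_option autoImplicit false
open Complex MeasureTheory Metric Set
open scoped Real ComplexConjugate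

/-! Project EK, module E6c: Gibbs. -/

namespace Pool.Agent.Helper61.EK

open Pool.Agent.Helper39.Area Pool.Agent.Helper52.EK Pool.Agent.Helper9.EK

theorem entropyStmt : EntropyStmt := Pool.Agent.Helper5.EK.entropy

theorem kfContStmt : KfContStmt :=
  fun hw _ h1 h2 => Pool.Agent.Helper26.EK.Kf_cont hw h1 h2

theorem gibbs {κ L : ℝ} (hκ : 0 < κ) {G : ℂ → ℂ} (hG : GLip G L)
    (hK : ∃ C a₀ : ℝ, a₀ < 1 ∧ ∀ (β : ℂ → ℂ) (R a : ℝ), ExtR β R → a₀ < a → a < 1 →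
      Kf (wf G β) 1 (-1) (Real.log a) ≤ κ * Real.log (‖N β a‖ / (1 - a ^ 2)) + C) :
    ∃ C a₀ : ℝ, a₀ < 1 ∧ ∀ (β : ℂ → ℂ) (R a : ℝ), ExtR β R → a₀ < a → a < 1 →
      (2 * π)⁻¹ * (∫ α in (0:ℝ)..(2 * π), ‖N β (a * Complex.exp (α * I))‖ ^ (-κ)) ≤
        C * (1 - a ^ 2) ^ (-(κ - 1)) := by
  have _h := hκ
  exact gibbs0 entropyStmt hG hK

end Pool.Agent.Helper61.EK

end
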