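import Pool.Agent.Helper96.ESX.B01

set_option autoImplicit false

/-! Copies of landed files, bundled to shorten the build: Helper69.EK3.Glue, Helper69.EK3.Glue2, Helper97.EKC.Spiral, Helper68.EKC.KOneU, Helper97.EKC.Sharp, Helper39.Area.Exterior, Helper68.EKC.GibbsU -/

section

set_option autoImplicit false
open Complex Metric Set
open scoped Real ComplexConjugate

/-!
# Project EK3: fields `G` given by two pieces, inside and outside the unit circle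
-/

namespace Pool.Agent.Helper69.EK3

open Pool.Agent.Helper52.EK

/-- a point of the unit circle on a segment -/
theorem exists_cross {m m' : ℂ} (h : ‖m‖ ≤ 1) (h' : 1 ≤ ‖m'‖) :
    ∃ p : ℂ, ‖p‖ = 1 ∧ ‖m - p‖ + ‖p - m'‖ = ‖m - m'‖ := by
  have hc : Continuous (fun t : ℝ => ‖m + (t : ℂ) * (m' - m)‖) := by fun_prop
  have h1 : (1:ℝ) ∈ Icc ((fun t : ℝ => ‖m + (t : ℂ) * (m' - m)‖) 0)
      ((fun t : ℝ => ‖m + (t : ℂ) * (m' - m)‖) 1) := by
    simp only [ofReal_zero, zero_mul, add_zero, ofReal_one, one_mul, add_sub_cancel]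
    exact ⟨h, h'⟩
  obtain ⟨t, ht, he⟩ := intermediate_value_Icc (zero_le_one) hc.continuousOn h1
  refine ⟨m + (t : ℂ) * (m' - m), he, ?_⟩
  have e1 : m - (m + (t : ℂ) * (m' - m)) = (t : ℂ) * (m - m') := by ring
  have e2 : m + (t : ℂ) * (m' - m) - m' = ((1 - t : ℝ) : ℂ) * (m - m') := by
    push_cast
    ring
  rw [e1, e2, norm_mul, norm_mul, Complex.norm_real, Complex.norm_real,
    Real.norm_of_nonneg ht.1, Real.norm_of_nonneg (by linarith [ht.2])]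
  ring

/-- gluing of two fields along the unit circle -/
theorem glip_glue {A B : ℂ → ℂ} {L : ℝ} (hL : 0 ≤ L)
    (hA1 : ∀ m : ℂ, ‖m‖ ≤ 1 → ‖A m‖ ≤ 1) (hB1 : ∀ m : ℂ, 1 ≤ ‖m‖ → ‖B m‖ ≤ 1)
    (hA : ∀ m m' : ℂ, ‖m‖ ≤ 1 → ‖m'‖ ≤ 1 → ‖A m - A m'‖ ≤ L * ‖m - m'‖)
    (hB : ∀ m m' : ℂ, 1 ≤ ‖m‖ → 1 ≤ ‖m'‖ → ‖B m - B m'‖ ≤ L * ‖m - m'‖)
    (hAB : ∀ m : ℂ, ‖m‖ = 1 → A m = B m)
    (hr : ∀ u m : ℂ, ‖u‖ = 1 → 1 ≤ ‖m‖ → ‖B (u * m) - B m‖ ≤ L * ‖u - 1‖) :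
    GLip (fun m => if ‖m‖ ≤ 1 then A m else B m) L := by
  have key : ∀ m m' : ℂ, ‖m‖ ≤ 1 → 1 ≤ ‖m'‖ → ‖A m - B m'‖ ≤ L * ‖m - m'‖ := by
    intro m m' h h'
    obtain ⟨p, hp, he⟩ := exists_cross h h'
    have e : A m - B m' = (A m - A p) + (B p - B m') := by rw [hAB p hp]; ring
    rw [e]
    refine (norm_add_le _ _).trans ?_
    have h1 := hA m p h hp.le
    have h2 := hB p m' hp.ge h'
    rw [← he, mul_add]
    linarith
  refine ⟨fun m => ?_, fun m m' => ?_, fun u m hu => ?_⟩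
  · split_ifs with h
    · exact hA1 m h
    · exact hB1 m (le_of_lt (not_le.mp h))
  · split_ifs with h h' h'
    · exact hA m m' h h'
    · exact key m m' h (le_of_lt (not_le.mp h'))
    · rw [norm_sub_rev, norm_sub_rev m]
      exact key m' m h' (le_of_lt (not_le.mp h))
    · exact hB m m' (le_of_lt (not_le.mp h)) (le_of_lt (not_le.mp h'))
  · rw [norm_mul, hu, one_mul]
    split_ifs with h
    · have h1 := hA (u * m) m (by rw [norm_mul, hu, one_mul]; exact h) h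
      refine h1.trans ?_
      have e : u * m - m = (u - 1) * m := by ring
      rw [e, norm_mul]
      have := norm_nonneg (u - 1)
      have h2 : ‖u - 1‖ * ‖m‖ ≤ ‖u - 1‖ * 1 := mul_le_mul_of_nonneg_left h this
      exact mul_le_mul_of_nonneg_left (by linarith) hL
    · exact hr u m hu (le_of_lt (not_le.mp h))

/-- the outside field `2 m / (1 + |m|²)` -/
noncomputable def Bk (m : ℂ) : ℂ := 2 * m / ((1 + ‖m‖ ^ 2 : ℝ) : ℂ)

theorem Bk_eq (m : ℂ) : Bk m = ((2 / (1 + ‖m‖ ^ 2) : ℝ) : ℂ) * m := by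
  unfold Bk
  push_cast
  ring

theorem norm_Bk_le (m : ℂ) : ‖Bk m‖ ≤ 1 := by
  have hp : 0 < 1 + ‖m‖ ^ 2 := by positivity
  rw [Bk_eq, norm_mul, Complex.norm_real, Real.norm_of_nonneg (by positivity),
    div_mul_eq_mul_div, div_le_one hp]
  nlinarith [sq_nonneg (‖m‖ - 1)]

theorem Bk_conj (m : ℂ) : Bk (conj m) = conj (Bk m) := by
  unfold Bk
  rw [norm_conj, map_div₀, map_mul, conj_ofReal, map_ofNat]

theorem Bk_mul {u : ℂ} (hu : ‖u‖ = 1) (m : ℂ) : Bk (u * m) = u * Bk m := by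
  unfold Bk
  rw [norm_mul, hu, one_mul]
  ring

theorem Bk_lip (m m' : ℂ) : ‖Bk m - Bk m'‖ ≤ 2 * ‖m - m'‖ := by
  have hp : 0 < 1 + ‖m‖ ^ 2 := by positivity
  have hp' : 0 < 1 + ‖m'‖ ^ 2 := by positivity
  have e : ‖Bk m - Bk m'‖ ^ 2 * ((1 + ‖m‖ ^ 2) * (1 + ‖m'‖ ^ 2)) ≤ 4 * ‖m - m'‖ ^ 2 := by
    have c1 : ((1 + ‖m‖ ^ 2 : ℝ) : ℂ) ≠ 0 := by exact_mod_cast hp.ne'
    have c2 : ((1 + ‖m'‖ ^ 2 : ℝ) : ℂ) ≠ 0 := by exact_mod_cast hp'.ne'
    have e1 : (Bk m - Bk m') * (((1 + ‖m‖ ^ 2) * (1 + ‖m'‖ ^ 2) : ℝ) : ℂ) =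
        2 * (m * ((1 + ‖m'‖ ^ 2 : ℝ) : ℂ) - m' * ((1 + ‖m‖ ^ 2 : ℝ) : ℂ)) := by
      unfold Bk
      rw [ofReal_mul]
      field_simp
    have e2 := congrArg (fun w : ℂ => ‖w‖ ^ 2) e1
    simp only [norm_mul, mul_pow, Complex.norm_real] at e2
    rw [Real.norm_of_nonneg hp.le, Real.norm_of_nonneg hp'.le] at e2
    have e3 : ‖m * ((1 + ‖m'‖ ^ 2 : ℝ) : ℂ) - m' * ((1 + ‖m‖ ^ 2 : ℝ) : ℂ)‖ ^ 2 ≤
        ‖m - m'‖ ^ 2 * ((1 + ‖m‖ ^ 2) * (1 + ‖m'‖ ^ 2)) := by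
      have n1 : ‖m‖ ^ 2 = m.re ^ 2 + m.im ^ 2 := by
        rw [← Complex.normSq_eq_norm_sq, Complex.normSq_apply]; ring
      have n2 : ‖m'‖ ^ 2 = m'.re ^ 2 + m'.im ^ 2 := by
        rw [← Complex.normSq_eq_norm_sq, Complex.normSq_apply]; ring
      rw [n1, n2, ← Complex.normSq_eq_norm_sq, ← Complex.normSq_eq_norm_sq, Complex.normSq_apply,
        Complex.normSq_apply]
      simp only [sub_re, sub_im, mul_re, mul_im, ofReal_re, ofReal_im]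
      have : 0 ≤ (m.re ^ 2 + m.im ^ 2 - (m'.re ^ 2 + m'.im ^ 2)) ^ 2 := sq_nonneg _
      nlinarith [this]
    have h2 : ‖(2:ℂ)‖ ^ 2 = 4 := by
      simp only [Complex.norm_ofNat]
      norm_num
    rw [h2] at e2
    have hpp : 0 < (1 + ‖m‖ ^ 2) * (1 + ‖m'‖ ^ 2) := by positivity
    have e4 : (‖Bk m - Bk m'‖ ^ 2 * ((1 + ‖m‖ ^ 2) * (1 + ‖m'‖ ^ 2))) *
        ((1 + ‖m‖ ^ 2) * (1 + ‖m'‖ ^ 2)) ≤
        (4 * ‖m - m'‖ ^ 2) * ((1 + ‖m‖ ^ 2) * (1 + ‖m'‖ ^ 2)) := by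
      nlinarith
    exact le_of_mul_le_mul_right e4 hpp
  have h1 : 1 ≤ (1 + ‖m‖ ^ 2) * (1 + ‖m'‖ ^ 2) := by
    nlinarith [sq_nonneg ‖m‖, sq_nonneg ‖m'‖, mul_nonneg (sq_nonneg ‖m‖) (sq_nonneg ‖m'‖)]
  have h2 : ‖Bk m - Bk m'‖ ^ 2 ≤ (2 * ‖m - m'‖) ^ 2 := by
    have := mul_le_mul_of_nonneg_left h1 (sq_nonneg ‖Bk m - Bk m'‖)
    nlinarith
  exact le_of_sq_le_sq h2 (by positivity)

theorem norm_sq_lip {m m' : ℂ} {r : ℝ} (h : ‖m‖ ≤ r) (h' : ‖m'‖ ≤ r) :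
    |‖m‖ ^ 2 - ‖m'‖ ^ 2| ≤ 2 * r * ‖m - m'‖ := by
  have e : ‖m‖ ^ 2 - ‖m'‖ ^ 2 = (‖m‖ + ‖m'‖) * (‖m‖ - ‖m'‖) := by ring
  rw [e, abs_mul, abs_of_nonneg (by positivity)]
  exact mul_le_mul (by linarith) (abs_norm_sub_norm_le m m') (abs_nonneg _)
    (by have := norm_nonneg m; linarith)

/-- the level `(1 - |m|²) / (1 - ρ |m + 1|²)` -/
noncomputable def lv (ρ : ℝ) (m : ℂ) : ℝ := (1 - ‖m‖ ^ 2) / (1 - ρ * ‖m + 1‖ ^ 2)

/-- the inside field `(1 + a l) m + b l` -/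
noncomputable def Ak (a b ρ : ℝ) (m : ℂ) : ℂ :=
  m + ((lv ρ m : ℝ) : ℂ) * ((a : ℂ) * m + (b : ℂ))

theorem lv_den {ρ : ℝ} (h0 : 0 ≤ ρ) (h1 : 8 * ρ ≤ 1) {m : ℂ} (hm : ‖m‖ ≤ 1) :
    1 / 2 ≤ 1 - ρ * ‖m + 1‖ ^ 2 ∧ 1 - ρ * ‖m + 1‖ ^ 2 ≤ 1 := by
  have h2 : ‖m + 1‖ ≤ 2 := by
    have := norm_add_le m 1
    rw [norm_one] at this
    linarith
  have h3 : ‖m + 1‖ ^ 2 ≤ 4 := by nlinarith [norm_nonneg (m + 1)]
  constructor
  · nlinarith [mul_le_mul_of_nonneg_left h3 h0]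
  · nlinarith [mul_nonneg h0 (sq_nonneg ‖m + 1‖)]

theorem lv_bd {ρ : ℝ} (h0 : 0 ≤ ρ) (h1 : 8 * ρ ≤ 1) {m : ℂ} (hm : ‖m‖ ≤ 1) :
    0 ≤ lv ρ m ∧ lv ρ m ≤ 2 * (1 - ‖m‖ ^ 2) := by
  obtain ⟨d1, _⟩ := lv_den h0 h1 hm
  have hn : 0 ≤ 1 - ‖m‖ ^ 2 := by nlinarith [norm_nonneg m]
  unfold lv
  refine ⟨div_nonneg hn (by linarith), ?_⟩
  rw [div_le_iff₀ (by linarith)]
  nlinarith

theorem lv_lip {ρ : ℝ} (h0 : 0 ≤ ρ) (h1 : 8 * ρ ≤ 1) {m m' : ℂ} (hm : ‖m‖ ≤ 1)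
    (hm' : ‖m'‖ ≤ 1) : |lv ρ m - lv ρ m'| ≤ 6 * ‖m - m'‖ := by
  obtain ⟨d1, d1'⟩ := lv_den h0 h1 hm
  obtain ⟨d2, d2'⟩ := lv_den h0 h1 hm'
  have hn : 0 ≤ 1 - ‖m'‖ ^ 2 := by nlinarith [norm_nonneg m']
  have hn1 : 1 - ‖m'‖ ^ 2 ≤ 1 := by nlinarith [sq_nonneg ‖m'‖]
  have p1 : 0 < 1 - ρ * ‖m + 1‖ ^ 2 := by linarith
  have p2 : 0 < 1 - ρ * ‖m' + 1‖ ^ 2 := by linarith
  have s1 := abs_le.1 (norm_sq_lip hm hm')
  have k1 : ‖m + 1‖ ≤ 2 := by
    have := norm_add_le m 1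
    rw [norm_one] at this
    linarith
  have k2 : ‖m' + 1‖ ≤ 2 := by
    have := norm_add_le m' 1
    rw [norm_one] at this
    linarith
  have s2 := abs_le.1 (norm_sq_lip k1 k2)
  rw [add_sub_add_right_eq_sub] at s2
  have e : lv ρ m - lv ρ m' = (‖m'‖ ^ 2 - ‖m‖ ^ 2) / (1 - ρ * ‖m + 1‖ ^ 2) +
      (1 - ‖m'‖ ^ 2) * (ρ * (‖m + 1‖ ^ 2 - ‖m' + 1‖ ^ 2)) /
        ((1 - ρ * ‖m + 1‖ ^ 2) * (1 - ρ * ‖m' + 1‖ ^ 2)) := by
    unfold lv
    field_simp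
    ring
  have hN := norm_nonneg (m - m')
  have b1 : |(‖m'‖ ^ 2 - ‖m‖ ^ 2) / (1 - ρ * ‖m + 1‖ ^ 2)| ≤ 4 * ‖m - m'‖ := by
    rw [abs_div, abs_of_pos p1, div_le_iff₀ p1]
    have : |‖m'‖ ^ 2 - ‖m‖ ^ 2| ≤ 2 * ‖m - m'‖ := abs_le.2 ⟨by linarith [s1.2], by linarith [s1.1]⟩
    nlinarith
  have b2 : |(1 - ‖m'‖ ^ 2) * (ρ * (‖m + 1‖ ^ 2 - ‖m' + 1‖ ^ 2)) /
        ((1 - ρ * ‖m + 1‖ ^ 2) * (1 - ρ * ‖m' + 1‖ ^ 2))| ≤ 2 * ‖m - m'‖ := by
    rw [abs_div, abs_of_pos (mul_pos p1 p2), div_le_iff₀ (mul_pos p1 p2), abs_mul,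
      abs_of_nonneg hn, abs_mul, abs_of_nonneg h0]
    have t1 : |‖m + 1‖ ^ 2 - ‖m' + 1‖ ^ 2| ≤ 4 * ‖m - m'‖ :=
      abs_le.2 ⟨by linarith [s2.1], by linarith [s2.2]⟩
    have t2 : ρ * |‖m + 1‖ ^ 2 - ‖m' + 1‖ ^ 2| ≤ 1 / 8 * (4 * ‖m - m'‖) :=
      mul_le_mul (by linarith) t1 (abs_nonneg _) (by norm_num)
    have t3 : (1 - ‖m'‖ ^ 2) * (ρ * |‖m + 1‖ ^ 2 - ‖m' + 1‖ ^ 2|) ≤
        1 * (1 / 8 * (4 * ‖m - m'‖)) :=
      mul_le_mul hn1 t2 (mul_nonneg h0 (abs_nonneg _)) (by norm_num)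
    have t4 : 1 / 4 ≤ (1 - ρ * ‖m + 1‖ ^ 2) * (1 - ρ * ‖m' + 1‖ ^ 2) := by nlinarith
    nlinarith
  rw [e]
  refine (abs_add_le _ _).trans ?_
  linarith

theorem Ak_lip {a b ρ : ℝ} (h0 : 0 ≤ ρ) (h1 : 8 * ρ ≤ 1) (ha : |a| ≤ 1) (hb : |b| ≤ 1)
    {m m' : ℂ} (hm : ‖m‖ ≤ 1) (hm' : ‖m'‖ ≤ 1) : ‖Ak a b ρ m - Ak a b ρ m'‖ ≤ 15 * ‖m - m'‖ := by
  have e : Ak a b ρ m - Ak a b ρ m' = (m - m') +
      ((lv ρ m - lv ρ m' : ℝ) : ℂ) * ((a : ℂ) * m + (b : ℂ)) +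
        ((lv ρ m' * a : ℝ) : ℂ) * (m - m') := by
    unfold Ak
    push_cast
    ring
  have k1 := lv_lip h0 h1 hm hm'
  obtain ⟨k2, k3⟩ := lv_bd h0 h1 hm'
  have k4 : lv ρ m' ≤ 2 := by nlinarith [sq_nonneg ‖m'‖]
  have k5 : ‖(a : ℂ) * m + (b : ℂ)‖ ≤ 2 := by
    refine (norm_add_le _ _).trans ?_
    rw [norm_mul, Complex.norm_real, Complex.norm_real, Real.norm_eq_abs, Real.norm_eq_abs]
    have := mul_le_mul ha hm (norm_nonneg m) zero_le_one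
    linarith
  have hN := norm_nonneg (m - m')
  rw [e]
  refine (norm_add_le _ _).trans ?_
  have t1 := norm_add_le (m - m') (((lv ρ m - lv ρ m' : ℝ) : ℂ) * ((a : ℂ) * m + (b : ℂ)))
  rw [norm_mul, Complex.norm_real, Real.norm_eq_abs] at t1
  rw [norm_mul, Complex.norm_real, Real.norm_eq_abs, abs_mul, abs_of_nonneg k2]
  have t2 : |lv ρ m - lv ρ m'| * ‖(a : ℂ) * m + (b : ℂ)‖ ≤ (6 * ‖m - m'‖) * 2 :=
    mul_le_mul k1 k5 (norm_nonneg _) (by positivity)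
  have t3 : lv ρ m' * |a| ≤ 2 * 1 := mul_le_mul k4 ha (abs_nonneg a) (by norm_num)
  nlinarith [mul_le_mul_of_nonneg_right t3 hN]

theorem Ak_conj (a b ρ : ℝ) (m : ℂ) : Ak a b ρ (conj m) = conj (Ak a b ρ m) := by
  have h : lv ρ (conj m) = lv ρ m := by
    unfold lv
    have e : conj m + 1 = conj (m + 1) := by simp
    rw [e, norm_conj, norm_conj]
  unfold Ak
  rw [h]
  simp only [map_add, map_mul, conj_ofReal]

theorem Ak_circle {a b ρ : ℝ} {m : ℂ} (hm : ‖m‖ = 1) : Ak a b ρ m = m := by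
  have h : lv ρ m = 0 := by
    unfold lv
    rw [hm]
    simp
  unfold Ak
  rw [h]
  simp

theorem Bk_circle {m : ℂ} (hm : ‖m‖ = 1) : Bk m = m := by
  unfold Bk
  rw [hm]
  norm_num

/-- `|G| ≤ 1` inside, for `|a| + |b| ≤ 1/4` -/
theorem norm_Ak_le {a b ρ : ℝ} (h0 : 0 ≤ ρ) (h1 : 8 * ρ ≤ 1) (hab : |a| + |b| ≤ 1 / 4)
    {m : ℂ} (hm : ‖m‖ ≤ 1) : ‖Ak a b ρ m‖ ≤ 1 := by
  obtain ⟨k2, k3⟩ := lv_bd h0 h1 hm
  have hm0 := norm_nonneg m
  have k5 : ‖(a : ℂ) * m + (b : ℂ)‖ ≤ 1 / 4 := by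
    refine (norm_add_le _ _).trans ?_
    rw [norm_mul, Complex.norm_real, Complex.norm_real, Real.norm_eq_abs, Real.norm_eq_abs]
    have := mul_le_mul_of_nonneg_left hm (abs_nonneg a)
    linarith
  unfold Ak
  refine (norm_add_le _ _).trans ?_
  rw [norm_mul, Complex.norm_real, Real.norm_of_nonneg k2]
  have t : lv ρ m * ‖(a : ℂ) * m + (b : ℂ)‖ ≤ (2 * (1 - ‖m‖ ^ 2)) * (1 / 4) :=
    mul_le_mul k3 k5 (norm_nonneg _) (by nlinarith)
  nlinarith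

/-- **the glued field** -/
noncomputable def Gk (a b ρ : ℝ) (m : ℂ) : ℂ := if ‖m‖ ≤ 1 then Ak a b ρ m else Bk m

theorem Gk_glip {a b ρ : ℝ} (h0 : 0 ≤ ρ) (h1 : 8 * ρ ≤ 1) (hab : |a| + |b| ≤ 1 / 4) :
    GLip (Gk a b ρ) 15 := by
  have ha : |a| ≤ 1 := by linarith [abs_nonneg b]
  have hb : |b| ≤ 1 := by linarith [abs_nonneg a]
  refine glip_glue (by norm_num) (fun m hm => norm_Ak_le h0 h1 hab hm) (fun m _ => norm_Bk_le m)
    (fun m m' hm hm' => Ak_lip h0 h1 ha hb hm hm') (fun m m' _ _ => ?_)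
    (fun m hm => by rw [Ak_circle hm, Bk_circle hm]) (fun u m hu _ => ?_)
  · refine (Bk_lip m m').trans ?_
    have := norm_nonneg (m - m')
    linarith
  · rw [Bk_mul hu]
    have e : u * Bk m - Bk m = (u - 1) * Bk m := by ring
    rw [e, norm_mul]
    have := norm_nonneg (u - 1)
    have h2 := mul_le_mul_of_nonneg_left (norm_Bk_le m) this
    linarith

theorem Gk_conj (a b ρ : ℝ) (m : ℂ) : Gk a b ρ (conj m) = conj (Gk a b ρ m) := by
  unfold Gk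
  rw [norm_conj]
  split_ifs
  · exact Ak_conj a b ρ m
  · exact Bk_conj m

end Pool.Agent.Helper69.EK3

end

section

set_option autoImplicit false
open Complex Metric Set
open scoped Real ComplexConjugate

/-!
# Project EK3: two-sided fields with general coefficients
-/

namespace Pool.Agent.Helper69.EK3

open Pool.Agent.Helper52.EK

/-- `p₀ + p₁ |m+1|² + p₂ |m|²` -/
noncomputable def rF (p0 p1 p2 : ℝ) (m : ℂ) : ℝ := p0 + p1 * ‖m + 1‖ ^ 2 + p2 * ‖m‖ ^ 2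

/-- `m + (1 - |m|²)/ρ (a m + b)` -/
noncomputable def Fq (a b p0 p1 p2 : ℝ) (m : ℂ) : ℂ :=
  m + (((1 - ‖m‖ ^ 2) / rF p0 p1 p2 m : ℝ) : ℂ) * ((a : ℂ) * m + (b : ℂ))

theorem normsq_add_one (m : ℂ) : ‖m + 1‖ ^ 2 = ‖m‖ ^ 2 + 2 * m.re + 1 := by
  rw [← normSq_eq_norm_sq, ← normSq_eq_norm_sq, normSq_apply, normSq_apply]
  simp only [add_re, add_im, one_re, one_im]
  ring

theorem rF_eq (p0 p1 p2 : ℝ) (m : ℂ) :
    rF p0 p1 p2 m = (p0 + p1) + 2 * p1 * m.re + (p1 + p2) * ‖m‖ ^ 2 := by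
  unfold rF
  rw [normsq_add_one]
  ring

theorem re_sq_le (m : ℂ) : m.re ^ 2 ≤ ‖m‖ ^ 2 := by
  rw [← normSq_eq_norm_sq, normSq_apply]
  nlinarith [mul_self_nonneg m.im]

theorem sq_lip (m m' : ℂ) : |‖m‖ ^ 2 - ‖m'‖ ^ 2| ≤ (‖m‖ + ‖m'‖) * ‖m - m'‖ := by
  have e : ‖m‖ ^ 2 - ‖m'‖ ^ 2 = (‖m‖ + ‖m'‖) * (‖m‖ - ‖m'‖) := by ring
  rw [e, abs_mul, abs_of_nonneg (by positivity)]
  exact mul_le_mul_of_nonneg_left (abs_norm_sub_norm_le m m') (by positivity)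

theorem re_lip (m m' : ℂ) : |m.re - m'.re| ≤ ‖m - m'‖ := by
  have := Complex.abs_re_le_norm (m - m')
  rwa [sub_re] at this

theorem rF_lip (p0 p1 p2 : ℝ) (m m' : ℂ) : |rF p0 p1 p2 m - rF p0 p1 p2 m'| ≤
    (|2 * p1| + |p1 + p2|) * ((1 + ‖m‖ + ‖m'‖) * ‖m - m'‖) := by
  have e : rF p0 p1 p2 m - rF p0 p1 p2 m' = 2 * p1 * (m.re - m'.re) +
      (p1 + p2) * (‖m‖ ^ 2 - ‖m'‖ ^ 2) := by
    rw [rF_eq, rF_eq]
    ring
  rw [e]
  refine (abs_add_le _ _).trans ?_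
  rw [abs_mul (2 * p1), abs_mul (p1 + p2)]
  have h1 := re_lip m m'
  have h2 := sq_lip m m'
  have h0 := norm_nonneg (m - m')
  have h3 := norm_nonneg m
  have h4 := norm_nonneg m'
  have h5 : |m.re - m'.re| ≤ (1 + ‖m‖ + ‖m'‖) * ‖m - m'‖ := by nlinarith [mul_nonneg h3 h0, mul_nonneg h4 h0]
  have h6 : |‖m‖ ^ 2 - ‖m'‖ ^ 2| ≤ (1 + ‖m‖ + ‖m'‖) * ‖m - m'‖ := by nlinarith
  have h7 := mul_le_mul_of_nonneg_left h5 (abs_nonneg (2 * p1))
  have h8 := mul_le_mul_of_nonneg_left h6 (abs_nonneg (p1 + p2))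
  linarith

/-- Lipschitz bound with decay for a quotient -/
theorem rat_lip {N N' : ℂ} {r r' x y t CN Cr c B : ℝ} (hc : 0 < c) (hCN : 0 ≤ CN) (hCr : 0 ≤ Cr)
    (hB : 0 ≤ B) (ht : 0 ≤ t) (hy : 0 ≤ y) (hxy : y ≤ x)
    (h1 : ‖N - N'‖ ≤ CN * ((1 + x + y) * t)) (h2 : |r - r'| ≤ Cr * ((1 + x + y) * t))
    (h3 : c * (1 + x ^ 2) ≤ r) (h4 : 0 < r') (h5 : ‖N'‖ ≤ B * r') :
    (1 + x) * ‖N / (r : ℂ) - N' / (r' : ℂ)‖ ≤ 4 * (CN + B * Cr) / c * t := by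
  have hx : 0 ≤ x := hy.trans hxy
  have hr : 0 < r := lt_of_lt_of_le (by positivity) h3
  have hrc : (r : ℂ) ≠ 0 := by exact_mod_cast hr.ne'
  have hrc' : (r' : ℂ) ≠ 0 := by exact_mod_cast h4.ne'
  have e : N / (r : ℂ) - N' / (r' : ℂ) =
      ((N - N') - (N' / (r' : ℂ)) * (((r - r' : ℝ)) : ℂ)) / (r : ℂ) := by
    push_cast
    field_simp
    ring
  have h6 : ‖N' / (r' : ℂ)‖ ≤ B := by
    rw [norm_div, Complex.norm_real, Real.norm_of_nonneg h4.le, div_le_iff₀ h4]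
    exact h5
  have h7 : ‖(N - N') - (N' / (r' : ℂ)) * (((r - r' : ℝ)) : ℂ)‖ ≤
      (CN + B * Cr) * ((1 + x + y) * t) := by
    refine (norm_sub_le _ _).trans ?_
    rw [norm_mul, Complex.norm_real, Real.norm_eq_abs]
    have := mul_le_mul h6 h2 (abs_nonneg _) hB
    nlinarith
  rw [e, norm_div, Complex.norm_real, Real.norm_of_nonneg hr.le]
  have h8 : (1 + x) * ((1 + x + y) * t) ≤ 4 / c * t * r := by
    have h9 : (1 + x) * (1 + x + y) ≤ 4 * (1 + x ^ 2) := by nlinarith [sq_nonneg (x - 1)]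
    have h10 : 4 * (1 + x ^ 2) ≤ 4 / c * r := by
      rw [div_mul_eq_mul_div, le_div_iff₀ hc]
      nlinarith
    have h11 := mul_le_mul_of_nonneg_right (h9.trans h10) ht
    nlinarith
  rw [mul_div_assoc', div_le_iff₀ hr]
  have hC : 0 ≤ CN + B * Cr := by positivity
  calc (1 + x) * ‖(N - N') - (N' / (r' : ℂ)) * (((r - r' : ℝ)) : ℂ)‖ ≤
        (1 + x) * ((CN + B * Cr) * ((1 + x + y) * t)) :=
        mul_le_mul_of_nonneg_left h7 (by linarith)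
    _ = (CN + B * Cr) * ((1 + x) * ((1 + x + y) * t)) := by ring
    _ ≤ (CN + B * Cr) * (4 / c * t * r) := mul_le_mul_of_nonneg_left h8 hC
    _ = 4 * (CN + B * Cr) / c * t * r := by ring

theorem Fq_conj (a b p0 p1 p2 : ℝ) (m : ℂ) :
    Fq a b p0 p1 p2 (conj m) = conj (Fq a b p0 p1 p2 m) := by
  have h : rF p0 p1 p2 (conj m) = rF p0 p1 p2 m := by
    rw [rF_eq, rF_eq, norm_conj, conj_re]
  unfold Fq
  rw [h, norm_conj]
  simp only [map_add, map_mul, conj_ofReal]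

theorem Fq_circle {a b p0 p1 p2 : ℝ} {m : ℂ} (hm : ‖m‖ = 1) : Fq a b p0 p1 p2 m = m := by
  unfold Fq
  rw [hm]
  simp

theorem Fq_div {a b p0 p1 p2 : ℝ} {m : ℂ} (h : rF p0 p1 p2 m ≠ 0) : Fq a b p0 p1 p2 m =
    (m * ((rF p0 p1 p2 m : ℝ) : ℂ) + ((1 - ‖m‖ ^ 2 : ℝ) : ℂ) * ((a : ℂ) * m + (b : ℂ))) /
      ((rF p0 p1 p2 m : ℝ) : ℂ) := by
  have h' : ((rF p0 p1 p2 m : ℝ) : ℂ) ≠ 0 := by exact_mod_cast h
  unfold Fq
  push_cast
  field_simp

theorem normsq_Fq (a b p0 p1 p2 : ℝ) (m : ℂ) : ‖Fq a b p0 p1 p2 m‖ ^ 2 =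
    ‖m‖ ^ 2 + 2 * ((1 - ‖m‖ ^ 2) / rF p0 p1 p2 m) * (a * ‖m‖ ^ 2 + b * m.re) +
      ((1 - ‖m‖ ^ 2) / rF p0 p1 p2 m) ^ 2 * (a ^ 2 * ‖m‖ ^ 2 + 2 * a * b * m.re + b ^ 2) := by
  unfold Fq
  generalize (1 - ‖m‖ ^ 2) / rF p0 p1 p2 m = l
  rw [← normSq_eq_norm_sq, ← normSq_eq_norm_sq, normSq_apply, normSq_apply]
  simp only [add_re, add_im, mul_re, mul_im, ofReal_re, ofReal_im]
  ring

theorem quad_nonneg {A B C n x : ℝ} (hA : 0 ≤ A) (hC : 0 ≤ C) (h : B ^ 2 ≤ 4 * (A * C))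
    (hn : x ^ 2 ≤ n) : 0 ≤ A * n + B * x + C := by
  have h1 : A * x ^ 2 ≤ A * n := mul_le_mul_of_nonneg_left hn hA
  rcases eq_or_lt_of_le hA with h0 | h0
  · rw [← h0] at h h1
    have hB : B = 0 := by nlinarith
    rw [hB, ← h0]
    linarith
  · have h2 : 0 ≤ 4 * A * (A * x ^ 2 + B * x + C) := by
      have e : 4 * A * (A * x ^ 2 + B * x + C) = (2 * A * x + B) ^ 2 + (4 * (A * C) - B ^ 2) := by
        ring
      rw [e]
      nlinarith [sq_nonneg (2 * A * x + B)]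
    have h3 := nonneg_of_mul_nonneg_right h2 (by positivity)
    linarith

/-- conditions on the inside coefficients; `L` is the bound of `l` -/
structure InOk (a b p0 p1 p2 L : ℝ) : Prop where
  pos : 0 < p0 + p1 - |2 * p1|
  pos' : 0 < p0 + p1 - |2 * p1| + (p1 + p2)
  L0 : 0 ≤ L
  nn : 0 ≤ p0 + p1 - L * b ^ 2 - |2 * p1 - 2 * b - 2 * L * a * b|
  nn' : 0 ≤ p0 + p1 - L * b ^ 2 - |2 * p1 - 2 * b - 2 * L * a * b| + (p1 + p2 - 2 * a - L * a ^ 2)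
  lA : 0 ≤ L * (p1 + p2) + 1
  lC : 0 ≤ L * (p0 + p1) - 1
  lB : (L * (2 * p1)) ^ 2 ≤ 4 * ((L * (p1 + p2) + 1) * (L * (p0 + p1) - 1))

/-- conditions on the outside coefficients -/
structure OutOk (a b p0 p1 p2 L : ℝ) : Prop where
  eq : p1 + p2 = a
  pos : 0 < p0 + p1 - |p1|
  pos' : 0 < p1 + p2 - |p1|
  L0 : 0 ≤ L
  nD : b ^ 2 ≤ a ^ 2
  nA : 2 * p1 * (2 * p1 - 2 * b) + |2 * (p0 + p1) * (2 * p1 - b) - 2 * a * b| +
    (p0 + p1) ^ 2 - a ^ 2 ≤ 0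
  nB : 2 * (2 * p1 * (2 * p1 - 2 * b) + b ^ 2 - a ^ 2) +
    |2 * (p0 + p1) * (2 * p1 - b) - 2 * a * b| ≤ 0
  nC : 0 ≤ 2 * (2 * p1 * (2 * p1 - 2 * b)) + |2 * (p0 + p1) * (2 * p1 - b) - 2 * a * b|
  lA : 0 ≤ L * (p1 + p2) - 1
  lC : 0 ≤ L * (p0 + p1) + 1
  lB : (L * (2 * p1)) ^ 2 ≤ 4 * ((L * (p1 + p2) - 1) * (L * (p0 + p1) + 1))

section inside
variable {a b p0 p1 p2 L : ℝ} (h : InOk a b p0 p1 p2 L)
include h

theorem InOk.low : ∃ c : ℝ, 0 < c ∧ ∀ m : ℂ, ‖m‖ ≤ 1 → c * (1 + ‖m‖ ^ 2) ≤ rF p0 p1 p2 m := by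
  have k1 := h.pos
  have k2 := h.pos'
  refine ⟨min (p0 + p1 - |2 * p1|) (p0 + p1 - |2 * p1| + (p1 + p2)) / 2,
    by have := lt_min k1 k2; linarith, fun m hm => ?_⟩
  have hx := (Complex.abs_re_le_norm m).trans hm
  have h0 : 0 ≤ ‖m‖ ^ 2 := sq_nonneg _
  have h1 : ‖m‖ ^ 2 ≤ 1 := by nlinarith [norm_nonneg m]
  have h2 : |2 * p1 * m.re| ≤ |2 * p1| := by
    rw [abs_mul]
    have := mul_le_mul_of_nonneg_left hx (abs_nonneg (2 * p1))
    linarith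
  have h3 := (abs_le.1 h2).1
  have m1 := min_le_left (p0 + p1 - |2 * p1|) (p0 + p1 - |2 * p1| + (p1 + p2))
  have m2 := min_le_right (p0 + p1 - |2 * p1|) (p0 + p1 - |2 * p1| + (p1 + p2))
  have m3 := lt_min k1 k2
  set d := min (p0 + p1 - |2 * p1|) (p0 + p1 - |2 * p1| + (p1 + p2))
  rw [rF_eq]
  have h4 : d ≤ (p0 + p1 - |2 * p1|) + (p1 + p2) * ‖m‖ ^ 2 := by
    nlinarith
  nlinarith

theorem InOk.l_bd {m : ℂ} (hm : ‖m‖ ≤ 1) : 0 < rF p0 p1 p2 m ∧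
    0 ≤ (1 - ‖m‖ ^ 2) / rF p0 p1 p2 m ∧ (1 - ‖m‖ ^ 2) / rF p0 p1 p2 m ≤ L := by
  obtain ⟨c, hc, hl⟩ := h.low
  have h1 : 0 < rF p0 p1 p2 m := lt_of_lt_of_le (by positivity) (hl m hm)
  have h2 : ‖m‖ ^ 2 ≤ 1 := by nlinarith [norm_nonneg m]
  refine ⟨h1, div_nonneg (by linarith) h1.le, ?_⟩
  rw [div_le_iff₀ h1, rF_eq]
  have h3 := quad_nonneg h.lA h.lC h.lB (re_sq_le m)
  linarith

theorem InOk.le_one {m : ℂ} (hm : ‖m‖ ≤ 1) : ‖Fq a b p0 p1 p2 m‖ ≤ 1 := by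
  obtain ⟨h1, h2, h3⟩ := h.l_bd hm
  have e := normsq_Fq a b p0 p1 p2 m
  have hr : (1 - ‖m‖ ^ 2) / rF p0 p1 p2 m * rF p0 p1 p2 m = 1 - ‖m‖ ^ 2 :=
    div_mul_cancel₀ _ h1.ne'
  rw [rF_eq] at hr
  rw [rF_eq] at e h2 h3
  set l := (1 - ‖m‖ ^ 2) / (p0 + p1 + 2 * p1 * m.re + (p1 + p2) * ‖m‖ ^ 2)
  have hx := (Complex.abs_re_le_norm m).trans hm
  have h0 : 0 ≤ ‖m‖ ^ 2 := sq_nonneg _
  have h4 : ‖m‖ ^ 2 ≤ 1 := by nlinarith [norm_nonneg m]
  have hw : 0 ≤ a ^ 2 * ‖m‖ ^ 2 + 2 * a * b * m.re + b ^ 2 := by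
    have := re_sq_le m
    nlinarith [sq_nonneg (a * m.re + b), sq_nonneg a, mul_nonneg (sq_nonneg a) (sub_nonneg.2 this)]
  have h5 : 2 * (a * ‖m‖ ^ 2 + b * m.re) +
      L * (a ^ 2 * ‖m‖ ^ 2 + 2 * a * b * m.re + b ^ 2) ≤
      p0 + p1 + 2 * p1 * m.re + (p1 + p2) * ‖m‖ ^ 2 := by
    have h6 : |(2 * p1 - 2 * b - 2 * L * a * b) * m.re| ≤ |2 * p1 - 2 * b - 2 * L * a * b| := by
      rw [abs_mul]
      have := mul_le_mul_of_nonneg_left hx (abs_nonneg (2 * p1 - 2 * b - 2 * L * a * b))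
      linarith
    have h7 := (abs_le.1 h6).1
    have n1 := h.nn
    have n2 := h.nn'
    nlinarith
  have h8 : l * (a ^ 2 * ‖m‖ ^ 2 + 2 * a * b * m.re + b ^ 2) ≤
      L * (a ^ 2 * ‖m‖ ^ 2 + 2 * a * b * m.re + b ^ 2) := mul_le_mul_of_nonneg_right h3 hw
  have h9 : ‖Fq a b p0 p1 p2 m‖ ^ 2 ≤ 1 := by
    rw [e]
    have h11 : 2 * (a * ‖m‖ ^ 2 + b * m.re) + l * (a ^ 2 * ‖m‖ ^ 2 + 2 * a * b * m.re + b ^ 2) ≤
        p0 + p1 + 2 * p1 * m.re + (p1 + p2) * ‖m‖ ^ 2 := by linarith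
    have h10 := mul_le_mul_of_nonneg_left h11 h2
    nlinarith
  nlinarith [norm_nonneg (Fq a b p0 p1 p2 m)]

theorem InOk.lip : ∃ C : ℝ, 0 ≤ C ∧ ∀ m m' : ℂ, ‖m‖ ≤ 1 → ‖m'‖ ≤ 1 →
    ‖Fq a b p0 p1 p2 m - Fq a b p0 p1 p2 m'‖ ≤ C * ‖m - m'‖ := by
  obtain ⟨c, hc, hl⟩ := h.low
  obtain ⟨R, hR⟩ : ∃ R : ℝ, R = |p0 + p1| + |2 * p1| + |p1 + p2| := ⟨_, rfl⟩
  obtain ⟨Cr, hCr⟩ : ∃ Cr : ℝ, Cr = |2 * p1| + |p1 + p2| := ⟨_, rfl⟩
  have hCr0 : 0 ≤ Cr := by rw [hCr]; positivity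
  have hR0 : 0 ≤ R := by rw [hR]; positivity
  obtain ⟨CN, hCN⟩ : ∃ CN : ℝ, CN = R + Cr + |a| + (|a| + |b|) := ⟨_, rfl⟩
  have hCN0 : 0 ≤ CN := by rw [hCN]; positivity
  have key : ∀ m m' : ℂ, ‖m‖ ≤ 1 → ‖m'‖ ≤ ‖m‖ → ‖Fq a b p0 p1 p2 m - Fq a b p0 p1 p2 m'‖ ≤
      4 * (CN + 1 * Cr) / c * ‖m - m'‖ := by
    intro m m' hm hm2
    have hm' : ‖m'‖ ≤ 1 := hm2.trans hm
    obtain ⟨r1, _, _⟩ := h.l_bd hm
    obtain ⟨r2, _, _⟩ := h.l_bd hm'
    have q1 := rF_lip p0 p1 p2 m m'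
    have hn := norm_nonneg m
    have hn' := norm_nonneg m'
    have hd := norm_nonneg (m - m')
    have hRm : |rF p0 p1 p2 m| ≤ R := by
      rw [rF_eq, hR]
      refine (abs_add_three _ _ _).trans ?_
      have hx := (Complex.abs_re_le_norm m).trans hm
      have h4 : ‖m‖ ^ 2 ≤ 1 := by nlinarith
      rw [abs_mul (2 * p1), abs_mul (p1 + p2), abs_of_nonneg (sq_nonneg ‖m‖)]
      have g1 := mul_le_mul_of_nonneg_left hx (abs_nonneg (2 * p1))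
      have g2 := mul_le_mul_of_nonneg_left h4 (abs_nonneg (p1 + p2))
      linarith
    have hN' : ‖m' * ((rF p0 p1 p2 m' : ℝ) : ℂ) + ((1 - ‖m'‖ ^ 2 : ℝ) : ℂ) *
        ((a : ℂ) * m' + (b : ℂ))‖ ≤ 1 * rF p0 p1 p2 m' := by
      have := h.le_one hm'
      rw [Fq_div r2.ne', norm_div, Complex.norm_real, Real.norm_of_nonneg r2.le,
        div_le_iff₀ r2] at this
      exact this
    have hNN : ‖(m * ((rF p0 p1 p2 m : ℝ) : ℂ) + ((1 - ‖m‖ ^ 2 : ℝ) : ℂ) *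
        ((a : ℂ) * m + (b : ℂ))) - (m' * ((rF p0 p1 p2 m' : ℝ) : ℂ) +
        ((1 - ‖m'‖ ^ 2 : ℝ) : ℂ) * ((a : ℂ) * m' + (b : ℂ)))‖ ≤
        CN * ((1 + ‖m‖ + ‖m'‖) * ‖m - m'‖) := by
      have e : (m * ((rF p0 p1 p2 m : ℝ) : ℂ) + ((1 - ‖m‖ ^ 2 : ℝ) : ℂ) *
        ((a : ℂ) * m + (b : ℂ))) - (m' * ((rF p0 p1 p2 m' : ℝ) : ℂ) +
        ((1 - ‖m'‖ ^ 2 : ℝ) : ℂ) * ((a : ℂ) * m' + (b : ℂ))) =
          ((rF p0 p1 p2 m : ℝ) : ℂ) * (m - m') +
          ((rF p0 p1 p2 m - rF p0 p1 p2 m' : ℝ) : ℂ) * m' +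
          (((1 - ‖m‖ ^ 2) * a : ℝ) : ℂ) * (m - m') -
          ((‖m‖ ^ 2 - ‖m'‖ ^ 2 : ℝ) : ℂ) * ((a : ℂ) * m' + (b : ℂ)) := by
        push_cast
        ring
      rw [e]
      refine (norm_sub_le _ _).trans ?_
      refine (add_le_add_left (norm_add₃_le) _).trans ?_
      rw [norm_mul, norm_mul, norm_mul, norm_mul, Complex.norm_real, Complex.norm_real,
        Complex.norm_real, Complex.norm_real, Real.norm_eq_abs, Real.norm_eq_abs,
        Real.norm_eq_abs, Real.norm_eq_abs]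
      have w1 : ‖(a : ℂ) * m' + (b : ℂ)‖ ≤ |a| + |b| := by
        refine (norm_add_le _ _).trans ?_
        rw [norm_mul, Complex.norm_real, Complex.norm_real, Real.norm_eq_abs, Real.norm_eq_abs]
        have := mul_le_mul_of_nonneg_left hm' (abs_nonneg a)
        linarith
      have w2 : |(1 - ‖m‖ ^ 2) * a| ≤ |a| := by
        rw [abs_mul]
        have h4 : ‖m‖ ^ 2 ≤ 1 := by nlinarith
        have : |1 - ‖m‖ ^ 2| ≤ 1 := abs_le.2 ⟨by linarith, by linarith [sq_nonneg ‖m‖]⟩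
        have := mul_le_mul_of_nonneg_right this (abs_nonneg a)
        linarith
      have w3 := sq_lip m m'
      set T := (1 + ‖m‖ + ‖m'‖) * ‖m - m'‖ with hT
      have t1 : ‖m - m'‖ ≤ T := by rw [hT]; nlinarith [mul_nonneg hn hd, mul_nonneg hn' hd]
      have t2 : (‖m‖ + ‖m'‖) * ‖m - m'‖ ≤ T := by rw [hT]; nlinarith
      have hT0 : 0 ≤ T := hd.trans t1
      have g1 : |rF p0 p1 p2 m| * ‖m - m'‖ ≤ R * T := mul_le_mul hRm t1 hd hR0
      have g2 : |rF p0 p1 p2 m - rF p0 p1 p2 m'| * ‖m'‖ ≤ (Cr * T) * 1 :=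
        mul_le_mul (by rw [hCr]; exact q1) hm' hn' (mul_nonneg hCr0 hT0)
      have g3 : |(1 - ‖m‖ ^ 2) * a| * ‖m - m'‖ ≤ |a| * T := mul_le_mul w2 t1 hd (abs_nonneg a)
      have g4 : |‖m‖ ^ 2 - ‖m'‖ ^ 2| * ‖(a : ℂ) * m' + (b : ℂ)‖ ≤ T * (|a| + |b|) :=
        mul_le_mul (w3.trans t2) w1 (norm_nonneg _) hT0
      rw [hCN]
      nlinarith
    have hq := rat_lip hc hCN0 hCr0 zero_le_one hd hn' hm2 hNN (by rw [hCr]; exact q1) (hl m hm)
      r2 hN'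
    rw [← Fq_div r1.ne', ← Fq_div r2.ne'] at hq
    have hF := norm_nonneg (Fq a b p0 p1 p2 m - Fq a b p0 p1 p2 m')
    nlinarith [mul_nonneg hn hF]
  refine ⟨4 * (CN + 1 * Cr) / c, by positivity, fun m m' hm hm' => ?_⟩
  rcases le_total ‖m'‖ ‖m‖ with h1 | h1
  · exact key m m' hm h1
  · rw [norm_sub_rev, norm_sub_rev m]
    exact key m' m hm' h1

end inside

section outside
variable {a b p0 p1 p2 L : ℝ} (h : OutOk a b p0 p1 p2 L)
include h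

theorem OutOk.low : ∃ c : ℝ, 0 < c ∧ ∀ m : ℂ, c * (1 + ‖m‖ ^ 2) ≤ rF p0 p1 p2 m := by
  have k1 := h.pos
  have k2 := h.pos'
  refine ⟨min (p0 + p1 - |p1|) (p1 + p2 - |p1|), lt_min k1 k2, fun m => ?_⟩
  have hx := Complex.abs_re_le_norm m
  have h0 : 0 ≤ ‖m‖ ^ 2 := sq_nonneg _
  have h1 : |m.re| ≤ (1 + ‖m‖ ^ 2) / 2 := by nlinarith [sq_nonneg (‖m‖ - 1)]
  have h2 : |2 * p1 * m.re| ≤ |p1| * (1 + ‖m‖ ^ 2) := by
    rw [abs_mul, abs_mul, abs_two]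
    have := mul_le_mul_of_nonneg_left h1 (abs_nonneg p1)
    linarith
  have h3 := (abs_le.1 h2).1
  have m1 := min_le_left (p0 + p1 - |p1|) (p1 + p2 - |p1|)
  have m2 := min_le_right (p0 + p1 - |p1|) (p1 + p2 - |p1|)
  rw [rF_eq]
  have m3 := mul_le_mul_of_nonneg_right m2 h0
  linarith

theorem OutOk.l_bd {m : ℂ} (hm : 1 ≤ ‖m‖) : 0 < rF p0 p1 p2 m ∧
    0 ≤ (‖m‖ ^ 2 - 1) / rF p0 p1 p2 m ∧ (‖m‖ ^ 2 - 1) / rF p0 p1 p2 m ≤ L := by
  obtain ⟨c, hc, hl⟩ := h.low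
  have h1 : 0 < rF p0 p1 p2 m := lt_of_lt_of_le (by positivity) (hl m)
  have h2 : 1 ≤ ‖m‖ ^ 2 := by nlinarith
  refine ⟨h1, div_nonneg (by linarith) h1.le, ?_⟩
  rw [div_le_iff₀ h1, rF_eq]
  have h3 := quad_nonneg h.lA h.lC h.lB (re_sq_le m)
  linarith

theorem OutOk.le_one {m : ℂ} (hm : 1 ≤ ‖m‖) : ‖Fq a b p0 p1 p2 m‖ ≤ 1 := by
  obtain ⟨h1, h2, _⟩ := h.l_bd hm
  have e := normsq_Fq a b p0 p1 p2 m
  have e1 : (1 - ‖m‖ ^ 2) / rF p0 p1 p2 m = -((‖m‖ ^ 2 - 1) / rF p0 p1 p2 m) := by ring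
  rw [e1] at e
  have hr : (‖m‖ ^ 2 - 1) / rF p0 p1 p2 m * rF p0 p1 p2 m = ‖m‖ ^ 2 - 1 :=
    div_mul_cancel₀ _ h1.ne'
  set l := (‖m‖ ^ 2 - 1) / rF p0 p1 p2 m with hl
  have h4 : 1 ≤ ‖m‖ ^ 2 := by nlinarith
  set n := ‖m‖ ^ 2 with hn
  set x := m.re with hx
  have hxn : x ^ 2 ≤ n := re_sq_le m
  set s1 := 2 * (p0 + p1) * (2 * p1 - b) - 2 * a * b with hs1
  set s2 := 2 * p1 * (2 * p1 - 2 * b) with hs2
  have nA := h.nA
  have nB := h.nB
  have nC := h.nC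
  have nD := h.nD
  rw [← hs1, ← hs2] at nA nB nC
  have hF : (b ^ 2 - a ^ 2) * n + s2 * x ^ 2 + s1 * x + (p0 + p1) ^ 2 - b ^ 2 ≤ 0 := by
    obtain ⟨y, hy⟩ : ∃ y, y = |x| := ⟨_, rfl⟩
    have hy0 : 0 ≤ y := by rw [hy]; exact abs_nonneg x
    have hy2 : x ^ 2 = y ^ 2 := by rw [hy, sq_abs]
    have hs : s1 * x ≤ |s1| * y := by
      rw [hy, ← abs_mul]
      exact le_abs_self _
    have hs0 := abs_nonneg s1
    rw [hy2] at hxn ⊢
    rcases le_total y 1 with g | g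
    · have g1 : 0 ≤ (1 - y) * (s2 * (1 + y) + |s1|) := by
        refine mul_nonneg (by linarith) ?_
        nlinarith
      have g2 : (b ^ 2 - a ^ 2) * n ≤ (b ^ 2 - a ^ 2) * 1 :=
        mul_le_mul_of_nonpos_left h4 (by linarith)
      nlinarith
    · have g1 : (y - 1) * ((s2 + b ^ 2 - a ^ 2) * (y + 1) + |s1|) ≤ 0 := by
        refine mul_nonpos_of_nonneg_of_nonpos (by linarith) ?_
        nlinarith
      have g2 : (b ^ 2 - a ^ 2) * n ≤ (b ^ 2 - a ^ 2) * y ^ 2 :=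
        mul_le_mul_of_nonpos_left hxn (by linarith)
      nlinarith
  have hrho := rF_eq p0 p1 p2 m
  rw [← hx, ← hn, h.eq] at hrho
  set r := rF p0 p1 p2 m with hrd
  have hG : (r - 2 * (a * n + b * x)) * r + (n - 1) * (a ^ 2 * n + 2 * a * b * x + b ^ 2) ≤ 0 := by
    have : (r - 2 * (a * n + b * x)) * r + (n - 1) * (a ^ 2 * n + 2 * a * b * x + b ^ 2) =
        (b ^ 2 - a ^ 2) * n + s2 * x ^ 2 + s1 * x + (p0 + p1) ^ 2 - b ^ 2 := by
      rw [hrho, hs1, hs2]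
      ring
    rw [this]
    exact hF
  have hG2 : (r - 2 * (a * n + b * x)) + l * (a ^ 2 * n + 2 * a * b * x + b ^ 2) ≤ 0 := by
    have h5 : ((r - 2 * (a * n + b * x)) + l * (a ^ 2 * n + 2 * a * b * x + b ^ 2)) * r ≤ 0 := by
      have : ((r - 2 * (a * n + b * x)) + l * (a ^ 2 * n + 2 * a * b * x + b ^ 2)) * r =
          (r - 2 * (a * n + b * x)) * r + (l * r) * (a ^ 2 * n + 2 * a * b * x + b ^ 2) := by ring
      rw [this, hr]
      exact hG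
    exact nonpos_of_mul_nonpos_left h5 h1
  have h9 : ‖Fq a b p0 p1 p2 m‖ ^ 2 ≤ 1 := by
    rw [e]
    have h10 := mul_nonpos_of_nonneg_of_nonpos h2 hG2
    nlinarith
  nlinarith [norm_nonneg (Fq a b p0 p1 p2 m)]

theorem OutOk.lip : ∃ C : ℝ, 0 ≤ C ∧ ∀ m m' : ℂ, 1 ≤ ‖m'‖ → ‖m'‖ ≤ ‖m‖ →
    (1 + ‖m‖) * ‖Fq a b p0 p1 p2 m - Fq a b p0 p1 p2 m'‖ ≤ C * ‖m - m'‖ := by
  obtain ⟨c, hc, hl⟩ := h.low
  obtain ⟨Cr, hCr⟩ : ∃ Cr : ℝ, Cr = |2 * p1| + |p1 + p2| := ⟨_, rfl⟩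
  have hCr0 : 0 ≤ Cr := by rw [hCr]; positivity
  obtain ⟨CN, hCN⟩ : ∃ CN : ℝ, CN = |p0 + p1 + a| + |2 * p1| + |b| := ⟨_, rfl⟩
  have hCN0 : 0 ≤ CN := by rw [hCN]; positivity
  refine ⟨4 * (CN + 1 * Cr) / c, by positivity, fun m m' hm' hm2 => ?_⟩
  have hm : 1 ≤ ‖m‖ := hm'.trans hm2
  obtain ⟨r1, _, _⟩ := h.l_bd hm
  obtain ⟨r2, _, _⟩ := h.l_bd hm'
  have q1 := rF_lip p0 p1 p2 m m'
  have hn := norm_nonneg m
  have hn' := norm_nonneg m'
  have hd := norm_nonneg (m - m')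
  have hN' : ‖m' * ((rF p0 p1 p2 m' : ℝ) : ℂ) + ((1 - ‖m'‖ ^ 2 : ℝ) : ℂ) *
      ((a : ℂ) * m' + (b : ℂ))‖ ≤ 1 * rF p0 p1 p2 m' := by
    have := h.le_one hm'
    rw [Fq_div r2.ne', norm_div, Complex.norm_real, Real.norm_of_nonneg r2.le,
      div_le_iff₀ r2] at this
    exact this
  have hNN : ‖(m * ((rF p0 p1 p2 m : ℝ) : ℂ) + ((1 - ‖m‖ ^ 2 : ℝ) : ℂ) *
      ((a : ℂ) * m + (b : ℂ))) - (m' * ((rF p0 p1 p2 m' : ℝ) : ℂ) +
      ((1 - ‖m'‖ ^ 2 : ℝ) : ℂ) * ((a : ℂ) * m' + (b : ℂ)))‖ ≤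
      CN * ((1 + ‖m‖ + ‖m'‖) * ‖m - m'‖) := by
    have e : (m * ((rF p0 p1 p2 m : ℝ) : ℂ) + ((1 - ‖m‖ ^ 2 : ℝ) : ℂ) *
      ((a : ℂ) * m + (b : ℂ))) - (m' * ((rF p0 p1 p2 m' : ℝ) : ℂ) +
      ((1 - ‖m'‖ ^ 2 : ℝ) : ℂ) * ((a : ℂ) * m' + (b : ℂ))) =
        ((p0 + p1 + a : ℝ) : ℂ) * (m - m') +
        ((2 * p1 : ℝ) : ℂ) * ((m.re : ℂ) * (m - m') + ((m.re - m'.re : ℝ) : ℂ) * m') -
        ((b * (‖m‖ ^ 2 - ‖m'‖ ^ 2) : ℝ) : ℂ) := by
      rw [rF_eq, rF_eq, h.eq]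
      push_cast
      ring
    rw [e]
    have w2 := sq_lip m m'
    have w3 := re_lip m m'
    have w4 := Complex.abs_re_le_norm m
    set T := (1 + ‖m‖ + ‖m'‖) * ‖m - m'‖ with hT
    have t1 : ‖m - m'‖ ≤ T := by rw [hT]; nlinarith [mul_nonneg hn hd, mul_nonneg hn' hd]
    have t2 : (‖m‖ + ‖m'‖) * ‖m - m'‖ ≤ T := by rw [hT]; nlinarith
    have hT0 : 0 ≤ T := hd.trans t1
    have v1 : ‖(m.re : ℂ) * (m - m') + ((m.re - m'.re : ℝ) : ℂ) * m'‖ ≤ T := by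
      refine (norm_add_le _ _).trans (le_trans ?_ t2)
      rw [norm_mul, norm_mul, Complex.norm_real, Complex.norm_real, Real.norm_eq_abs,
        Real.norm_eq_abs]
      have g1 := mul_le_mul_of_nonneg_right w4 hd
      have g2 := mul_le_mul_of_nonneg_right w3 hn'
      nlinarith
    refine (norm_sub_le _ _).trans ?_
    refine (add_le_add_left (norm_add_le _ _) _).trans ?_
    rw [norm_mul, norm_mul, Complex.norm_real, Complex.norm_real, Complex.norm_real,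
      Real.norm_eq_abs, Real.norm_eq_abs, Real.norm_eq_abs, abs_mul b]
    have g1 := mul_le_mul_of_nonneg_left t1 (abs_nonneg (p0 + p1 + a))
    have g2 := mul_le_mul_of_nonneg_left v1 (abs_nonneg (2 * p1))
    have g3 := mul_le_mul_of_nonneg_left (w2.trans t2) (abs_nonneg b)
    rw [hCN]
    nlinarith
  have hq := rat_lip hc hCN0 hCr0 zero_le_one hd hn' hm2 hNN (by rw [hCr]; exact q1) (hl m)
    r2 hN'
  rw [← Fq_div r1.ne', ← Fq_div r2.ne'] at hq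
  exact hq

end outside

/-- **the two-sided field** -/
noncomputable def Gq (a b p0 p1 p2 a' b' q0 q1 q2 : ℝ) (m : ℂ) : ℂ :=
  if ‖m‖ ≤ 1 then Fq a b p0 p1 p2 m else Fq a' b' q0 q1 q2 m

theorem Gq_glip {a b p0 p1 p2 L a' b' q0 q1 q2 L' : ℝ} (h : InOk a b p0 p1 p2 L)
    (h' : OutOk a' b' q0 q1 q2 L') : ∃ C : ℝ, GLip (Gq a b p0 p1 p2 a' b' q0 q1 q2) C := by
  obtain ⟨C1, hC1, k1⟩ := h.lip
  obtain ⟨C2, hC2, k2⟩ := h'.lip
  refine ⟨max C1 C2, glip_glue (le_max_of_le_left hC1) (fun m hm => h.le_one hm)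
    (fun m hm => h'.le_one hm) (fun m m' hm hm' => ?_) (fun m m' hm hm' => ?_)
    (fun m hm => by rw [Fq_circle hm, Fq_circle hm]) (fun u m hu hm => ?_)⟩
  · exact (k1 m m' hm hm').trans (mul_le_mul_of_nonneg_right (le_max_left _ _) (norm_nonneg _))
  · refine le_trans ?_ (mul_le_mul_of_nonneg_right (le_max_right C1 C2) (norm_nonneg _))
    rcases le_total ‖m'‖ ‖m‖ with h1 | h1
    · have h2 := k2 m m' hm' h1
      have h3 := norm_nonneg (Fq a' b' q0 q1 q2 m - Fq a' b' q0 q1 q2 m')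
      nlinarith [norm_nonneg m]
    · have h2 := k2 m' m hm h1
      rw [norm_sub_rev, norm_sub_rev m]
      have h3 := norm_nonneg (Fq a' b' q0 q1 q2 m' - Fq a' b' q0 q1 q2 m)
      nlinarith [norm_nonneg m']
  · refine le_trans ?_ (mul_le_mul_of_nonneg_right (le_max_right C1 C2) (norm_nonneg _))
    have e0 : ‖u * m‖ = ‖m‖ := by rw [norm_mul, hu, one_mul]
    have h2 := k2 (u * m) m hm (by rw [e0])
    have e : u * m - m = (u - 1) * m := by ring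
    rw [e0, e, norm_mul] at h2
    have h3 := norm_nonneg (Fq a' b' q0 q1 q2 (u * m) - Fq a' b' q0 q1 q2 m)
    have h4 : 0 < 1 + ‖m‖ := by positivity
    have h5 : C2 * (‖u - 1‖ * ‖m‖) ≤ (1 + ‖m‖) * (C2 * ‖u - 1‖) := by
      have := mul_nonneg hC2 (norm_nonneg (u - 1))
      nlinarith
    exact le_of_mul_le_mul_left (h2.trans h5) h4

theorem Gq_conj (a b p0 p1 p2 a' b' q0 q1 q2 : ℝ) (m : ℂ) :
    Gq a b p0 p1 p2 a' b' q0 q1 q2 (conj m) = conj (Gq a b p0 p1 p2 a' b' q0 q1 q2 m) := by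
  unfold Gq
  rw [norm_conj]
  split_ifs
  · exact Fq_conj a b p0 p1 p2 m
  · exact Fq_conj a' b' q0 q1 q2 m

end Pool.Agent.Helper69.EK3

end

section


/-!
MP_16b0ee, project EKC: the logarithmic spiral maps `z (1 - 1/z)^(1+u)`, `|u| = 1`, are univalent
on `|z| > 1`.
-/

set_option autoImplicit false

open Complex MeasureTheory Metric Set
open scoped Real ComplexConjugate

namespace Pool.Agent.Helper97.EKC

section realIneq

theorem mul_cos_le_sin {y : ℝ} (h0 : 0 ≤ y) (h1 : y ≤ π) : y * Real.cos y ≤ Real.sin y := by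
  have hd : ∀ t : ℝ, HasDerivAt (fun t => Real.sin t - t * Real.cos t) (t * Real.sin t) t := by
    intro t
    have h := (Real.hasDerivAt_sin t).sub ((hasDerivAt_id t).mul (Real.hasDerivAt_cos t))
    refine h.congr_deriv ?_
    simp only [id]
    ring
  have hm : MonotoneOn (fun t => Real.sin t - t * Real.cos t) (Icc 0 π) := by
    refine monotoneOn_of_deriv_nonneg (convex_Icc _ _) ?_ ?_ ?_
    · exact fun t _ => (hd t).continuousAt.continuousWithinAt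
    · exact fun t _ => (hd t).differentiableAt.differentiableWithinAt
    · intro t ht
      rw [interior_Icc] at ht
      rw [(hd t).deriv]
      exact mul_nonneg ht.1.le (Real.sin_nonneg_of_nonneg_of_le_pi ht.1.le ht.2.le)
  have h := hm (left_mem_Icc.2 Real.pi_pos.le) ⟨h0, h1⟩ h0
  simp only [Real.sin_zero, zero_mul, sub_zero] at h
  linarith

theorem trigA {x y : ℝ} (_hx : 0 ≤ x) (h0 : 0 ≤ y) (h1 : y ≤ π) :
    y * Real.cos y ≤ y * Real.exp (-x) + x * Real.sin y := by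
  have hs := mul_cos_le_sin h0 h1
  have hs0 := Real.sin_nonneg_of_nonneg_of_le_pi h0 h1
  have hsy := Real.sin_le h0
  have he := Real.exp_pos (-x)
  rcases le_or_gt x 1 with h | h
  · have h2 : 1 - x ≤ Real.exp (-x) := by
      have := Real.add_one_le_exp (-x)
      linarith
    have h3 : y * (1 - x) ≤ y * Real.exp (-x) := mul_le_mul_of_nonneg_left h2 h0
    have h4 : Real.sin y * (1 - x) ≤ y * (1 - x) := mul_le_mul_of_nonneg_right hsy (by linarith)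
    nlinarith
  · have h3 : 0 ≤ y * Real.exp (-x) := mul_nonneg h0 he.le
    nlinarith

theorem trigB {x y : ℝ} (hx : 0 ≤ x) (h0 : 0 ≤ y) :
    x * Real.sin y + y * Real.cos y ≤ y * Real.exp x := by
  have hsy := Real.sin_le h0
  have hc := Real.cos_le_one y
  have h2 : 1 + x ≤ Real.exp x := by
    have := Real.add_one_le_exp x
    linarith
  have h3 : y * (1 + x) ≤ y * Real.exp x := mul_le_mul_of_nonneg_left h2 h0
  have h4 : x * Real.sin y ≤ x * y := mul_le_mul_of_nonneg_left hsy hx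
  have h5 : y * Real.cos y ≤ y * 1 := mul_le_mul_of_nonneg_left hc h0
  nlinarith

/-- `cosh x - cos y` on a circle -/
noncomputable def DD (R θ : ℝ) : ℝ := Real.cosh (R * Real.cos θ) - Real.cos (R * Real.sin θ)

theorem hasDerivAt_DD (R θ : ℝ) : HasDerivAt (DD R)
    (- (R * Real.sin θ) * Real.sinh (R * Real.cos θ) +
      R * Real.cos θ * Real.sin (R * Real.sin θ)) θ := by
  have h1 := ((Real.hasDerivAt_cos θ).const_mul R).cosh
  have h2 := ((Real.hasDerivAt_sin θ).const_mul R).cos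
  refine (h1.sub h2).congr_deriv ?_
  ring

theorem keyA {R θ θ' : ℝ} (hR : 0 ≤ R) (h0 : 0 ≤ θ') (h1 : θ' ≤ θ) (h2 : θ ≤ π / 2)
    (h3 : R * Real.sin θ ≤ π) :
    DD R θ' * Real.exp (-(R * Real.cos θ')) ≤ DD R θ * Real.exp (-(R * Real.cos θ)) := by
  have hpi := Real.pi_pos
  have hd : ∀ t : ℝ, HasDerivAt (fun t => DD R t * Real.exp (-(R * Real.cos t)))
      (Real.exp (-(R * Real.cos t)) * (R * Real.sin t * Real.exp (-(R * Real.cos t)) +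
        R * Real.cos t * Real.sin (R * Real.sin t) -
        R * Real.sin t * Real.cos (R * Real.sin t))) t := by
    intro t
    have e1 := (((Real.hasDerivAt_cos t).const_mul R).neg).exp
    refine ((hasDerivAt_DD R t).mul e1).congr_deriv ?_
    have e2 : Real.sinh (R * Real.cos t) =
        Real.cosh (R * Real.cos t) - Real.exp (-(R * Real.cos t)) := by
      have := Real.cosh_sub_sinh (R * Real.cos t)
      linarith
    rw [e2]
    unfold DD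
    simp only [Pi.neg_apply]
    ring
  have hm : MonotoneOn (fun t => DD R t * Real.exp (-(R * Real.cos t))) (Icc 0 θ) := by
    refine monotoneOn_of_deriv_nonneg (convex_Icc _ _) ?_ ?_ ?_
    · exact fun t _ => (hd t).continuousAt.continuousWithinAt
    · exact fun t _ => (hd t).differentiableAt.differentiableWithinAt
    · intro t ht
      rw [interior_Icc] at ht
      rw [(hd t).deriv]
      refine mul_nonneg (Real.exp_pos _).le ?_
      have hc : 0 ≤ Real.cos t := Real.cos_nonneg_of_neg_pi_div_two_le_of_le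
        (by linarith [ht.1]) (by linarith [ht.2])
      have hs : 0 ≤ Real.sin t := Real.sin_nonneg_of_nonneg_of_le_pi ht.1.le
        (by linarith [ht.2])
      have hss : Real.sin t ≤ Real.sin θ := Real.sin_le_sin_of_le_of_le_pi_div_two
        (by linarith [ht.1]) h2 ht.2.le
      have := trigA (mul_nonneg hR hc) (mul_nonneg hR hs)
        ((mul_le_mul_of_nonneg_left hss hR).trans h3)
      linarith
  exact hm ⟨h0, h1⟩ ⟨h0.trans h1, le_rfl⟩ h1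

theorem keyB {R θ θ' : ℝ} (hR : 0 ≤ R) (h0 : 0 ≤ θ) (h1 : θ ≤ θ') (h2 : θ' ≤ π / 2) :
    DD R θ' * Real.exp (R * Real.cos θ') ≤ DD R θ * Real.exp (R * Real.cos θ) := by
  have hpi := Real.pi_pos
  have hd : ∀ t : ℝ, HasDerivAt (fun t => DD R t * Real.exp (R * Real.cos t))
      (Real.exp (R * Real.cos t) * (R * Real.cos t * Real.sin (R * Real.sin t) +
        R * Real.sin t * Real.cos (R * Real.sin t) - R * Real.sin t * Real.exp (R * Real.cos t)))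
      t := by
    intro t
    have e1 := ((Real.hasDerivAt_cos t).const_mul R).exp
    refine ((hasDerivAt_DD R t).mul e1).congr_deriv ?_
    have e2 : Real.sinh (R * Real.cos t) =
        Real.exp (R * Real.cos t) - Real.cosh (R * Real.cos t) := by
      have := Real.cosh_add_sinh (R * Real.cos t)
      linarith
    rw [e2]
    unfold DD
    ring
  have hm : AntitoneOn (fun t => DD R t * Real.exp (R * Real.cos t)) (Icc 0 (π / 2)) := by
    refine antitoneOn_of_deriv_nonpos (convex_Icc _ _) ?_ ?_ ?_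
    · exact fun t _ => (hd t).continuousAt.continuousWithinAt
    · exact fun t _ => (hd t).differentiableAt.differentiableWithinAt
    · intro t ht
      rw [interior_Icc] at ht
      rw [(hd t).deriv]
      refine mul_nonpos_of_nonneg_of_nonpos (Real.exp_pos _).le ?_
      have hc : 0 ≤ Real.cos t := Real.cos_nonneg_of_neg_pi_div_two_le_of_le
        (by linarith [ht.1]) (by linarith [ht.2])
      have hs : 0 ≤ Real.sin t := Real.sin_nonneg_of_nonneg_of_le_pi ht.1.le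
        (by linarith [ht.2])
      have := trigB (mul_nonneg hR hc) (mul_nonneg hR hs)
      linarith
  exact hm ⟨h0, h1.trans h2⟩ ⟨h0.trans h1, h2⟩ h1

theorem polar (x y : ℝ) : ∃ θ : ℝ, 0 ≤ θ ∧ θ ≤ π / 2 ∧
    √(x ^ 2 + y ^ 2) * Real.cos θ = |x| ∧ √(x ^ 2 + y ^ 2) * Real.sin θ = |y| := by
  obtain ⟨w, hw⟩ : ∃ w : ℂ, w = ⟨|x|, |y|⟩ := ⟨_, rfl⟩
  have hn : ‖w‖ = √(x ^ 2 + y ^ 2) := by
    rw [Complex.norm_def, Complex.normSq_apply, hw]
    congr 1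
    simp only
    rw [abs_mul_abs_self, abs_mul_abs_self]
    ring
  refine ⟨Complex.arg w, ?_, ?_, ?_, ?_⟩
  · rw [Complex.arg_nonneg_iff, hw]
    exact abs_nonneg _
  · refine (Complex.arg_le_pi_div_two_iff).2 (Or.inl ?_)
    rw [hw]
    exact abs_nonneg _
  · rw [← hn, Complex.norm_mul_cos_arg, hw]
  · rw [← hn, Complex.norm_mul_sin_arg, hw]

/-- the main inequality -/
theorem main_ineq {x y x' y' : ℝ} (h : x ^ 2 + y ^ 2 = x' ^ 2 + y' ^ 2) (hy : |y| ≤ π) :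
    Real.cosh x' - Real.cos y' ≤ Real.exp |x + x'| * (Real.cosh x - Real.cos y) := by
  obtain ⟨θ, a0, a1, a2, a3⟩ := polar x y
  obtain ⟨θ', b0, b1, b2, b3⟩ := polar x' y'
  rw [← h] at b2 b3
  obtain ⟨R, hR⟩ : ∃ R : ℝ, R = √(x ^ 2 + y ^ 2) := ⟨_, rfl⟩
  rw [← hR] at a2 a3 b2 b3
  have hR0 : 0 ≤ R := by rw [hR]; exact Real.sqrt_nonneg _
  have hD : Real.cosh x - Real.cos y = DD R θ := by
    unfold DD
    rw [a2, a3, Real.cosh_abs, Real.cos_abs]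
  have hD' : Real.cosh x' - Real.cos y' = DD R θ' := by
    unfold DD
    rw [b2, b3, Real.cosh_abs, Real.cos_abs]
  have hD0 : 0 ≤ DD R θ := by
    rw [← hD]
    linarith [Real.one_le_cosh x, Real.cos_le_one y]
  rw [hD, hD']
  have ht1 : |x'| - |x| ≤ |x + x'| := by
    have := abs_sub_abs_le_abs_sub x' (-x)
    rw [abs_neg] at this
    rw [show x' - -x = x + x' by ring] at this
    exact this
  have ht2 : |x| - |x'| ≤ |x + x'| := by
    have := abs_sub_abs_le_abs_sub x (-x')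
    rw [abs_neg] at this
    rw [show x - -x' = x + x' by ring] at this
    exact this
  rcases le_total θ' θ with hc | hc
  · have hk := keyA hR0 b0 hc a1 (by rw [a3]; exact hy)
    rw [a2, b2] at hk
    have h5 : DD R θ' ≤ DD R θ * Real.exp (|x'| - |x|) := by
      have h6 := mul_le_mul_of_nonneg_right hk (Real.exp_pos |x'|).le
      rw [mul_assoc, mul_assoc, ← Real.exp_add, ← Real.exp_add] at h6
      rw [show -|x'| + |x'| = 0 by ring, Real.exp_zero, mul_one] at h6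
      rw [show |x'| - |x| = -|x| + |x'| by ring]
      exact h6
    calc DD R θ' ≤ DD R θ * Real.exp (|x'| - |x|) := h5
      _ ≤ DD R θ * Real.exp |x + x'| :=
        mul_le_mul_of_nonneg_left (Real.exp_le_exp.2 ht1) hD0
      _ = _ := mul_comm _ _
  · have hk := keyB hR0 a0 hc b1
    rw [a2, b2] at hk
    have h5 : DD R θ' ≤ DD R θ * Real.exp (|x| - |x'|) := by
      have h6 := mul_le_mul_of_nonneg_right hk (Real.exp_pos (-|x'|)).le
      rw [mul_assoc, mul_assoc, ← Real.exp_add, ← Real.exp_add] at h6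
      rw [show |x'| + -|x'| = 0 by ring, Real.exp_zero, mul_one] at h6
      rw [show |x| - |x'| = |x| + -|x'| by ring]
      exact h6
    calc DD R θ' ≤ DD R θ * Real.exp (|x| - |x'|) := h5
      _ ≤ DD R θ * Real.exp |x + x'| :=
        mul_le_mul_of_nonneg_left (Real.exp_le_exp.2 ht2) hD0
      _ = _ := mul_comm _ _

end realIneq

section complexIneq

theorem normSq_exp_sub_one (w : ℂ) :
    ‖Complex.exp w - 1‖ ^ 2 = 2 * Real.exp w.re * (Real.cosh w.re - Real.cos w.im) := by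
  rw [← Complex.normSq_eq_norm_sq, Complex.normSq_apply, Complex.sub_re, Complex.sub_im,
    Complex.exp_re, Complex.exp_im, Complex.one_re, Complex.one_im, Real.cosh_eq]
  have h1 := Real.sin_sq_add_cos_sq w.im
  have h2 : Real.exp w.re * Real.exp (-w.re) = 1 := by
    rw [← Real.exp_add]; simp
  have h3 : Real.exp w.re * Real.exp w.re * (Real.sin w.im ^ 2 + Real.cos w.im ^ 2) =
      Real.exp w.re * Real.exp w.re := by rw [h1, mul_one]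
  linear_combination h3 - h2

/-- no non-trivial solution of the two strict inequalities -/
theorem no_pair {A u : ℂ} (hu : ‖u‖ = 1) (hA : |A.im| ≤ π)
    (h1 : ‖Complex.exp (-A) - 1‖ < ‖Complex.exp (u * A) - 1‖)
    (h2 : ‖Complex.exp A - 1‖ < ‖Complex.exp (-(u * A)) - 1‖) : False := by
  have e1 : ‖Complex.exp (-A) - 1‖ ^ 2 < ‖Complex.exp (u * A) - 1‖ ^ 2 :=
    pow_lt_pow_left₀ h1 (norm_nonneg _) two_ne_zero
  have e2 : ‖Complex.exp A - 1‖ ^ 2 < ‖Complex.exp (-(u * A)) - 1‖ ^ 2 :=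
    pow_lt_pow_left₀ h2 (norm_nonneg _) two_ne_zero
  rw [normSq_exp_sub_one, normSq_exp_sub_one] at e1 e2
  simp only [Complex.neg_re, Complex.neg_im, Real.cosh_neg, Real.cos_neg] at e1 e2
  obtain ⟨x', hx'⟩ : ∃ x' : ℝ, x' = (u * A).re := ⟨_, rfl⟩
  obtain ⟨y', hy'⟩ : ∃ y' : ℝ, y' = (u * A).im := ⟨_, rfl⟩
  rw [← hx', ← hy'] at e1 e2
  have hn : A.re ^ 2 + A.im ^ 2 = x' ^ 2 + y' ^ 2 := by
    have n1 : ‖u * A‖ ^ 2 = ‖A‖ ^ 2 := by rw [norm_mul, hu, one_mul]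
    rw [← Complex.normSq_eq_norm_sq, ← Complex.normSq_eq_norm_sq, Complex.normSq_apply,
      Complex.normSq_apply, ← hx', ← hy'] at n1
    nlinarith
  have hm := main_ineq hn hA
  obtain ⟨D, hD⟩ : ∃ D : ℝ, D = Real.cosh A.re - Real.cos A.im := ⟨_, rfl⟩
  obtain ⟨D', hD'⟩ : ∃ D' : ℝ, D' = Real.cosh x' - Real.cos y' := ⟨_, rfl⟩
  rw [← hD, ← hD'] at e1 e2 hm
  have p1 := Real.exp_pos x'
  have p2 := Real.exp_pos (-x')
  have q1 : Real.exp (-(A.re + x')) * D < D' := by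
    have h5 : Real.exp (-A.re) * D < Real.exp x' * D' := by nlinarith
    have h6 := mul_lt_mul_of_pos_left h5 p2
    rw [← mul_assoc, ← mul_assoc, ← Real.exp_add, ← Real.exp_add] at h6
    rw [show -x' + x' = 0 by ring, Real.exp_zero, one_mul] at h6
    rw [show -(A.re + x') = -x' + -A.re by ring]
    exact h6
  have q2 : Real.exp (A.re + x') * D < D' := by
    have h5 : Real.exp A.re * D < Real.exp (-x') * D' := by nlinarith
    have h6 := mul_lt_mul_of_pos_left h5 p1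
    rw [← mul_assoc, ← mul_assoc, ← Real.exp_add, ← Real.exp_add] at h6
    rw [show x' + -x' = 0 by ring, Real.exp_zero, one_mul] at h6
    rw [show A.re + x' = x' + A.re by ring]
    exact h6
  rcases abs_cases (A.re + x') with h | h
  · rw [h.1] at hm
    linarith
  · rw [h.1] at hm
    linarith

end complexIneq

section maps

variable {u : ℂ}

/-- the spiral map -/
noncomputable def psi (u z : ℂ) : ℂ := z * Complex.exp ((1 + u) * Complex.log (1 - z⁻¹))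

/-- the logarithm of its derivative -/
noncomputable def hh (u z : ℂ) : ℂ :=
  u * Complex.log (1 - z⁻¹) + Complex.log (1 + u * z⁻¹)

theorem re_pos_of {w : ℂ} (hw : ‖w‖ < 1) : 0 < (1 - w).re := by
  have := (Complex.re_le_norm w).trans_lt hw
  rw [Complex.sub_re, Complex.one_re]
  linarith

theorem norm_inv_lt {z : ℂ} (hz : 1 < ‖z‖) : ‖z⁻¹‖ < 1 := by
  rw [norm_inv]
  exact inv_lt_one_of_one_lt₀ hz

theorem re_pos1 {z : ℂ} (hz : 1 < ‖z‖) : 0 < (1 - z⁻¹).re := re_pos_of (norm_inv_lt hz)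

theorem re_pos2 {z : ℂ} (hu : ‖u‖ = 1) (hz : 1 < ‖z‖) : 0 < (1 + u * z⁻¹).re := by
  have h := re_pos_of (w := -(u * z⁻¹)) (by
    rw [norm_neg, norm_mul, hu, one_mul]
    exact norm_inv_lt hz)
  rwa [sub_neg_eq_add] at h

theorem ne_zero_of {z : ℂ} (hz : 1 < ‖z‖) : z ≠ 0 := by
  intro h
  rw [h, norm_zero] at hz
  linarith

theorem psi_injOn (hu : ‖u‖ = 1) : InjOn (psi u) {z : ℂ | 1 < ‖z‖} := by
  intro z₁ h₁ z₂ h₂ he
  have hz1 : 1 < ‖z₁‖ := h₁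
  have hz2 : 1 < ‖z₂‖ := h₂
  obtain ⟨a, ha⟩ : ∃ a : ℂ, a = z₁⁻¹ := ⟨_, rfl⟩
  obtain ⟨b, hb⟩ : ∃ b : ℂ, b = z₂⁻¹ := ⟨_, rfl⟩
  have ha1 : ‖a‖ < 1 := by rw [ha]; exact norm_inv_lt hz1
  have hb1 : ‖b‖ < 1 := by rw [hb]; exact norm_inv_lt hz2
  have ha0 : a ≠ 0 := by rw [ha]; exact inv_ne_zero (ne_zero_of hz1)
  have hb0 : b ≠ 0 := by rw [hb]; exact inv_ne_zero (ne_zero_of hz2)
  unfold psi at he
  rw [← ha, ← hb, show z₁ = a⁻¹ by rw [ha, inv_inv], show z₂ = b⁻¹ by rw [hb, inv_inv]] at he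
  have pa := re_pos_of ha1
  have pb := re_pos_of hb1
  have na : (1 - a) ≠ 0 := by
    intro h
    rw [h, Complex.zero_re] at pa
    exact lt_irrefl _ pa
  have nb : (1 - b) ≠ 0 := by
    intro h
    rw [h, Complex.zero_re] at pb
    exact lt_irrefl _ pb
  obtain ⟨A, hA⟩ : ∃ A : ℂ, A = Complex.log (1 - a) - Complex.log (1 - b) := ⟨_, rfl⟩
  have hAim : |A.im| < π := by
    rw [hA, Complex.sub_im, Complex.log_im, Complex.log_im]
    have t1 := Complex.abs_arg_lt_pi_div_two_iff.2 (Or.inl pa)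
    have t2 := Complex.abs_arg_lt_pi_div_two_iff.2 (Or.inl pb)
    rw [abs_lt] at t1 t2 ⊢
    constructor <;> linarith [t1.1, t1.2, t2.1, t2.2]
  have eA : Complex.exp A * (1 - b) = 1 - a := by
    rw [hA, Complex.exp_sub, Complex.exp_log na, Complex.exp_log nb]
    field_simp
  have eB : Complex.exp ((1 + u) * A) * b = a := by
    have e1 : (1 + u) * A = (1 + u) * Complex.log (1 - a) - (1 + u) * Complex.log (1 - b) := by
      rw [hA]; ring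
    rw [e1, Complex.exp_sub]
    have nE := Complex.exp_ne_zero ((1 + u) * Complex.log (1 - b))
    field_simp at he ⊢
    exact he
  have eu : Complex.exp ((1 + u) * A) = Complex.exp A * Complex.exp (u * A) := by
    rw [← Complex.exp_add]; congr 1; ring
  rw [eu] at eB
  have nA := Complex.exp_ne_zero A
  have nU := Complex.exp_ne_zero (u * A)
  have k1 : Complex.exp (-A) - 1 = (Complex.exp (u * A) - 1) * b := by
    rw [Complex.exp_neg]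
    field_simp
    linear_combination (-1 : ℂ) * eA - eB
  have k2 : Complex.exp A - 1 = (Complex.exp (-(u * A)) - 1) * a := by
    rw [Complex.exp_neg]
    field_simp
    rw [← eB] at eA ⊢
    linear_combination (Complex.exp (u * A)) * eA
  by_cases h0 : Complex.exp (u * A) = 1
  · rw [h0, sub_self, zero_mul, Complex.exp_neg, sub_eq_zero, inv_eq_one] at k1
    have : A = 0 := by
      rw [Complex.exp_eq_one_iff] at k1
      obtain ⟨n, hn⟩ := k1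
      have h4 := congrArg Complex.im hn
      have h5 : A.im = 2 * π * n := by
        rw [h4]
        simp
        ring
      rw [h5] at hAim
      have hn0 : n = 0 := by
        by_contra hne
        have h6 : (1 : ℝ) ≤ |(n : ℝ)| := by
          have := Int.one_le_abs hne
          exact_mod_cast this
        rw [abs_mul, abs_of_pos (by positivity : (0:ℝ) < 2 * π)] at hAim
        nlinarith [Real.pi_pos]
      rw [hn, hn0]
      simp
    rw [this, mul_zero, Complex.exp_zero, one_mul, one_mul] at eB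
    have : z₁⁻¹ = z₂⁻¹ := by rw [← ha, ← hb, eB]
    exact inv_injective this
  · exfalso
    have h0' : Complex.exp (-(u * A)) ≠ 1 := by
      rw [Complex.exp_neg]
      intro h
      exact h0 (inv_eq_one.1 h)
    refine no_pair hu hAim.le ?_ ?_
    · rw [k1, norm_mul]
      exact mul_lt_of_lt_one_right (norm_pos_iff.2 (sub_ne_zero.2 h0)) hb1
    · rw [k2, norm_mul]
      exact mul_lt_of_lt_one_right (norm_pos_iff.2 (sub_ne_zero.2 h0')) ha1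

theorem hasDerivAt_psi {z : ℂ} (hu : ‖u‖ = 1) (hz : 1 < ‖z‖) :
    HasDerivAt (psi u) (Complex.exp (hh u z)) z := by
  have h0 := ne_zero_of hz
  have p1 := re_pos1 hz
  have p2 := re_pos2 (u := u) hu hz
  have n1 : (1 - z⁻¹) ≠ 0 := by
    intro h
    rw [h, Complex.zero_re] at p1
    exact lt_irrefl _ p1
  have n2 : (1 + u * z⁻¹) ≠ 0 := by
    intro h
    rw [h, Complex.zero_re] at p2
    exact lt_irrefl _ p2
  have d1 : HasDerivAt (fun z : ℂ => Complex.log (1 - z⁻¹)) (-(-(z ^ 2)⁻¹) / (1 - z⁻¹)) z :=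
    ((hasDerivAt_inv h0).const_sub 1).clog (Or.inl p1)
  have d2 := (hasDerivAt_id z).mul ((d1.const_mul (1 + u)).cexp)
  refine d2.congr_deriv ?_
  unfold hh
  have e1 : Complex.exp (u * Complex.log (1 - z⁻¹) + Complex.log (1 + u * z⁻¹)) =
      Complex.exp (u * Complex.log (1 - z⁻¹)) * (1 + u * z⁻¹) := by
    rw [Complex.exp_add, Complex.exp_log n2]
  have e2 : Complex.exp ((1 + u) * Complex.log (1 - z⁻¹)) =
      (1 - z⁻¹) * Complex.exp (u * Complex.log (1 - z⁻¹)) := by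
    rw [add_mul, one_mul, Complex.exp_add, Complex.exp_log n1]
  rw [e1, e2]
  simp only [id]
  have n3 : z - 1 ≠ 0 := by
    intro h
    apply n1
    rw [sub_eq_zero.1 h]
    simp
  field_simp
  ring

theorem hasDerivAt_hh {z : ℂ} (hu : ‖u‖ = 1) (hz : 1 < ‖z‖) :
    ∃ d, HasDerivAt (hh u) d z := by
  have h0 := ne_zero_of hz
  have p1 := re_pos1 hz
  have p2 := re_pos2 (u := u) hu hz
  have d1 : HasDerivAt (fun z : ℂ => Complex.log (1 - z⁻¹)) (-(-(z ^ 2)⁻¹) / (1 - z⁻¹)) z :=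
    ((hasDerivAt_inv h0).const_sub 1).clog (Or.inl p1)
  have d2 : HasDerivAt (fun z : ℂ => Complex.log (1 + u * z⁻¹))
      (u * (-(z ^ 2)⁻¹) / (1 + u * z⁻¹)) z :=
    (((hasDerivAt_inv h0).const_mul u).const_add 1).clog (Or.inl p2)
  exact ⟨_, (d1.const_mul u).add d2⟩

end maps

end Pool.Agent.Helper97.EKC

end

section

set_option autoImplicit false
open Complex MeasureTheory Metric Set
open scoped Real ComplexConjugate

/-! EKC: the bound for one target, with a unimodular factor `u` (after helper83). -/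

namespace Pool.Agent.Helper68.EKC

open Pool.Agent.Helper39.Area Pool.Agent.Helper52.EK Pool.Agent.Helper70.EK
open Pool.Agent.Helper83.EK (tau_far II_nonneg pt_mapsTo II_le3)

/-- the integrated certificate around the constant solution `al` -/
def StripA (κ₂ : ℝ) (al : ℂ) (T : ℂ → ℂ → ℝ → ℝ → ℝ) : Prop :=
  ∃ C₁ : ℝ, ∀ (X : ℂ → ℂ) (x₁ x₂ l : ℝ), 1 ≤ l → x₁ + l ≤ x₂ - l → NiceX X x₁ x₂ →
    II (x₁ + l) (x₂ - l) (fun ξ η => T (X (pt ξ η)) (deriv X (pt ξ η)) (Real.sin η) (Real.cos η)) ≤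
      (κ₂ + C₁ / l) * II x₁ x₂ (fun ξ η => ‖X (pt ξ η) - al‖ ^ 2)

/-- rescaling `X = al * Xi` -/
theorem strip_scale {κ : ℝ} {al : ℂ} (hal : al ≠ 0) {T : ℂ → ℂ → ℝ → ℝ → ℝ}
    (h : StripIneq κ (fun X Y s c => T (al * X) (al * Y) s c)) :
    StripA (κ / ‖al‖ ^ 2) al T := by
  obtain ⟨C, hC⟩ := h
  refine ⟨C / ‖al‖ ^ 2, fun X x₁ x₂ l hl hx hX => ?_⟩
  have hn : 0 < ‖al‖ := norm_pos_iff.mpr hal
  set X' : ℂ → ℂ := fun ω => al⁻¹ * X ω with hX'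
  have hN : NiceX X' x₁ x₂ := by
    refine ⟨fun ω hω => analyticAt_const.mul (hX.an ω hω), fun ω hω => ?_⟩
    exact mul_ne_zero (inv_ne_zero hal) (hX.ne ω hω)
  have h1 := hC X' x₁ x₂ l hl hx hN
  have e1 : ∀ ω, al * X' ω = X ω := fun ω => by
    simp only [hX']
    rw [mul_inv_cancel_left₀ hal]
  have e2 : ∀ ω, al * deriv X' ω = deriv X ω := fun ω => by
    simp only [hX']
    rw [deriv_const_mul_field, mul_inv_cancel_left₀ hal]
  have e3 : ∀ ω, ‖X' ω - 1‖ ^ 2 = (‖al‖ ^ 2)⁻¹ * ‖X ω - al‖ ^ 2 := fun ω => by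
    have : X' ω - 1 = al⁻¹ * (X ω - al) := by
      simp only [hX']
      rw [mul_sub, inv_mul_cancel₀ hal]
    rw [this, norm_mul, norm_inv, mul_pow, inv_pow]
  simp only [e1, e2, e3] at h1
  refine h1.trans (le_of_eq ?_)
  have e4 : II x₁ x₂ (fun ξ η => (‖al‖ ^ 2)⁻¹ * ‖X (pt ξ η) - al‖ ^ 2) =
      (‖al‖ ^ 2)⁻¹ * II x₁ x₂ (fun ξ η => ‖X (pt ξ η) - al‖ ^ 2) := by
    unfold II
    simp only [intervalIntegral.integral_const_mul]
  rw [e4]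
  field_simp

theorem K_one_U {κ₂ κ L₀ : ℝ} {G : ℂ → ℂ} (hG : GLip G L₀) {u : ℂ} (hu : ‖u‖ = 1)
    (hS : StripA κ₂ ((1 + u) / 2) (TG G)) (h0 : 0 ≤ κ₂) (hκ : κ₂ < 2 * κ) :
    ∃ C a₀ : ℝ, a₀ < 1 ∧ ∀ (β L : ℂ → ℂ) (R a : ℝ), ExtR β R → IsLog β L → a₀ < a → a < 1 →
      Kf (wf G β) 1 (-1) (Real.log a) ≤
        κ * (- Real.log (1 - a ^ 2) + (conj u * L a).re) + C := by
  have E3 := Pool.Agent.Helper70.EK.E3_of_b Pool.Agent.Helper84.EK.E3b hG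
  obtain ⟨C₁, hC₁⟩ := hS
  obtain ⟨Cd, hCd⟩ := E1dU hu
  -- the parameters `l` and `h`
  set δ : ℝ := 2 * κ - κ₂ with hδ
  have hδ0 : 0 < δ := by linarith
  set D : ℝ := max C₁ 0 with hD
  have hD0 : 0 ≤ D := le_max_right _ _
  have hDC : C₁ ≤ D := le_max_left _ _
  set l : ℝ := 1 + 2 * D / δ with hl
  have hl1 : 1 ≤ l := by
    have : 0 ≤ 2 * D / δ := by positivity
    linarith
  have hl0 : 0 < l := by linarith
  have hDl : D / l ≤ δ / 2 := by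
    rw [div_le_div_iff₀ hl0 two_pos]
    have : D * 2 = δ * (2 * D / δ) := by field_simp
    rw [this]
    apply mul_le_mul_of_nonneg_left _ hδ0.le
    linarith
  set k : ℝ := κ₂ + D / l with hk
  have hk0 : 0 ≤ k := by
    have : 0 ≤ D / l := by positivity
    linarith
  have hk1 : k ≤ κ₂ + δ / 2 := by linarith
  have hk2 : k < 2 * κ := by linarith
  set g : ℝ := (2 * κ - k) / (k + 1) with hg
  have hg0 : 0 < g := div_pos (by linarith) (by linarith)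
  have hkg : k * (1 + g) ≤ 2 * κ := by
    have h1 : g * (k + 1) = 2 * κ - k := by
      rw [hg]
      field_simp
    nlinarith
  set A : ℝ := 1 + l with hA
  have hA1 : 1 ≤ A := by linarith
  obtain ⟨C₃, hC₃⟩ := E3 A hA1
  refine ⟨C₃ + π⁻¹ * (k * ((1 + 1 / g) * Cd)), max (Real.exp (-1)) (1 - Real.exp (-2 * A)), ?_, ?_⟩
  · apply max_lt
    · rw [← Real.exp_zero]
      exact Real.exp_lt_exp.mpr (by norm_num)
    · linarith [Real.exp_pos (-2 * A)]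
  intro β L R a hβ hL ha ha1
  have hae : Real.exp (-1) < a := lt_of_le_of_lt (le_max_left _ _) ha
  have ha0 : 0 < a := (Real.exp_pos _).trans hae
  have hfar := tau_far (A := A) (lt_of_le_of_lt (le_max_right _ _) ha) ha0 ha1
  have hK := hC₃ β R a hβ hae ha1 hfar
  set x₁ : ℝ := Real.log (tau a) + 1 with hx₁
  have e1 : Real.log (tau a) + A = x₁ + l := by rw [hA, hx₁]; ring
  have e2 : -A = -1 - l := by rw [hA]; ring
  rw [e1, e2] at hK hfar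
  have hx12 : x₁ ≤ -1 := by linarith
  have hxt : Real.log (tau a) < x₁ := by linarith
  have hX : NiceX (Xf β a) x₁ (-1) := Pool.Agent.Helper67.EK.E1c hβ ha0 ha1 hxt (by norm_num)
  have hst := hC₁ (Xf β a) x₁ (-1) l hl1 hfar hX
  have hb := E1bU hβ hL hu ha0 ha1 hxt hx12 (by norm_num)
  have hd := hCd a ha0 ha1 x₁ (-1) le_rfl hx12 le_rfl
  set Λ : ℝ := - Real.log (1 - a ^ 2) + (conj u * L a).re with hΛ
  -- continuity
  have cX : ContinuousOn (fun v : ℝ × ℝ => Xf β a (pt v.1 v.2)) (Icc x₁ (-1) ×ˢ Icc 0 π) :=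
    hX.an.continuousOn.comp continuous_pt.continuousOn (pt_mapsTo _ _)
  have cK : ContinuousOn (fun v : ℝ × ℝ => kapU a u (pt v.1 v.2)) (Icc x₁ (-1) ×ˢ Icc 0 π) :=
    kapU_contOn u ha0 ha1 hxt (by norm_num)
  have c1 : ContinuousOn (fun v : ℝ × ℝ => ‖Xf β a (pt v.1 v.2) - (1 + u) / 2‖ ^ 2)
      (Icc x₁ (-1) ×ˢ Icc 0 π) := (cX.sub continuousOn_const).norm.pow 2
  have c2 : ContinuousOn (fun v : ℝ × ℝ => ‖2 * Xf β a (pt v.1 v.2) - 2 * kapU a u (pt v.1 v.2)‖ ^ 2)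
      (Icc x₁ (-1) ×ˢ Icc 0 π) :=
    ((continuousOn_const.mul cX).sub (continuousOn_const.mul cK)).norm.pow 2
  have c3 : ContinuousOn (fun v : ℝ × ℝ => ‖kapU a u (pt v.1 v.2) - (1 + u) / 2‖ ^ 2)
      (Icc x₁ (-1) ×ˢ Icc 0 π) := (cK.sub continuousOn_const).norm.pow 2
  have hE := II_le3 (F₁ := fun ξ η => ‖Xf β a (pt ξ η) - (1 + u) / 2‖ ^ 2)
    (F₂ := fun ξ η => ‖2 * Xf β a (pt ξ η) - 2 * kapU a u (pt ξ η)‖ ^ 2)
    (F₃ := fun ξ η => ‖kapU a u (pt ξ η) - (1 + u) / 2‖ ^ 2) (p := (1 + g) / 4) (q := 1 + 1 / g)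
    hx12 c1 c2 c3 (by
      intro ξ η
      have h1 : Xf β a (pt ξ η) - (1 + u) / 2 = (2 * Xf β a (pt ξ η) - 2 * kapU a u (pt ξ η)) / 2 +
        (kapU a u (pt ξ η) - (1 + u) / 2) := by ring
      have h2 : ‖Xf β a (pt ξ η) - (1 + u) / 2‖ ≤ ‖2 * Xf β a (pt ξ η) - 2 * kapU a u (pt ξ η)‖ / 2 +
          ‖kapU a u (pt ξ η) - (1 + u) / 2‖ := by
        rw [h1]
        refine (norm_add_le _ _).trans ?_
        rw [norm_div]
        simp
      have h3 := norm_nonneg (Xf β a (pt ξ η) - (1 + u) / 2)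
      have h4 := norm_nonneg (2 * Xf β a (pt ξ η) - 2 * kapU a u (pt ξ η))
      have h5 := norm_nonneg (kapU a u (pt ξ η) - (1 + u) / 2)
      generalize ‖Xf β a (pt ξ η) - (1 + u) / 2‖ = u₁ at *
      generalize ‖2 * Xf β a (pt ξ η) - 2 * kapU a u (pt ξ η)‖ = v at *
      generalize ‖kapU a u (pt ξ η) - (1 + u) / 2‖ = w at *
      have h6 : u₁ ^ 2 ≤ (v / 2 + w) ^ 2 := by nlinarith
      have h7 : (v / 2 + w) ^ 2 ≤ (1 + g) / 4 * v ^ 2 + (1 + 1 / g) * w ^ 2 := by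
        have h8 : (1 + g) / 4 * v ^ 2 + (1 + 1 / g) * w ^ 2 - (v / 2 + w) ^ 2 =
            (g * v / 2 - w) ^ 2 / g := by
          field_simp
          ring
        have h9 : 0 ≤ (g * v / 2 - w) ^ 2 / g := by positivity
        linarith
      exact h6.trans h7)
  -- assemble
  have hEn : 0 ≤ II x₁ (-1) (fun ξ η => ‖Xf β a (pt ξ η) - (1 + u) / 2‖ ^ 2) :=
    II_nonneg hx12 (fun ξ η => by positivity)
  set E : ℝ := II x₁ (-1) (fun ξ η => ‖Xf β a (pt ξ η) - (1 + u) / 2‖ ^ 2) with hEdef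
  have hπ : 0 < π := Real.pi_pos
  have hπi : 0 < π⁻¹ := inv_pos.mpr hπ
  have hE2 : E ≤ (1 + g) / 4 * (2 * π * Λ) + (1 + 1 / g) * Cd := by
    have h1 : 0 < (1 + g) / 4 := by positivity
    have h2 : 0 < 1 + 1 / g := by positivity
    have h3 := mul_le_mul_of_nonneg_left hb h1.le
    have h4 := mul_le_mul_of_nonneg_left hd h2.le
    linarith
  have hT : II (x₁ + l) (-1 - l) (fun ξ η => TG G (Xf β a (pt ξ η)) (deriv (Xf β a) (pt ξ η))
      (Real.sin η) (Real.cos η)) ≤ k * E := by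
    refine hst.trans ?_
    apply mul_le_mul_of_nonneg_right _ hEn
    rw [hk]
    have : C₁ / l ≤ D / l := div_le_div_of_nonneg_right hDC hl0.le
    linarith
  have hΛ0 : 0 ≤ Λ := by
    have h1 : ‖(a : ℂ)‖ = a := by
      rw [Complex.norm_real, Real.norm_eq_abs, abs_of_pos ha0]
    have h2 : (a : ℂ) ∈ ball (0:ℂ) 1 := by
      rw [mem_ball_zero_iff, h1]
      exact ha1
    have h3 := hL.goluzin hβ.toExt h2
    rw [h1] at h3
    have h4 : -‖L a‖ ≤ (conj u * L a).re := by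
      have h5 := Complex.abs_re_le_norm (conj u * L a)
      rw [norm_mul, RCLike.norm_conj, hu, one_mul] at h5
      exact (neg_le_neg h5).trans (neg_abs_le _)
    rw [hΛ]
    linarith
  have h1 : k * E ≤ k * ((1 + g) / 4 * (2 * π * Λ) + (1 + 1 / g) * Cd) :=
    mul_le_mul_of_nonneg_left hE2 hk0
  have h2 : π⁻¹ * II (x₁ + l) (-1 - l) (fun ξ η => TG G (Xf β a (pt ξ η))
      (deriv (Xf β a) (pt ξ η)) (Real.sin η) (Real.cos η)) ≤
      π⁻¹ * (k * ((1 + g) / 4 * (2 * π * Λ) + (1 + 1 / g) * Cd)) :=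
    mul_le_mul_of_nonneg_left (hT.trans h1) hπi.le
  have h3 : π⁻¹ * (k * ((1 + g) / 4 * (2 * π * Λ) + (1 + 1 / g) * Cd)) =
      k * (1 + g) / 2 * Λ + π⁻¹ * (k * ((1 + 1 / g) * Cd)) := by
    field_simp
    ring
  have h4 : k * (1 + g) / 2 * Λ ≤ κ * Λ := by
    apply mul_le_mul_of_nonneg_right _ hΛ0
    linarith
  linarith

end Pool.Agent.Helper68.EKC

end

section


/-!
MP_16b0ee, project EKC: the exponent `|t| - 1` is attained for every complex `t = -κ conj u`,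
`u ≠ -1`, `κ > 1`, by the spiral map `z (1 - 1/z)^(1+u)`.
-/

set_option autoImplicit false

open Complex MeasureTheory Metric Set Filter Topology
open scoped Real ComplexConjugate

namespace Pool.Agent.Helper97.EKC

variable {u : ℂ}

theorem psi_diff (hu : ‖u‖ = 1) : DifferentiableOn ℂ (psi u) {z : ℂ | 1 < ‖z‖} :=
  fun _ hz => (hasDerivAt_psi hu hz).differentiableAt.differentiableWithinAt

theorem hh_diff (hu : ‖u‖ = 1) : DifferentiableOn ℂ (hh u) {z : ℂ | 1 < ‖z‖} := by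
  intro z hz
  obtain ⟨d, hd⟩ := hasDerivAt_hh (u := u) hu hz
  exact hd.differentiableAt.differentiableWithinAt

theorem exp_hh (hu : ‖u‖ = 1) {z : ℂ} (hz : 1 < ‖z‖) :
    Complex.exp (hh u z) = deriv (psi u) z := (hasDerivAt_psi hu hz).deriv.symm

theorem psi_tendsto (u : ℂ) :
    Tendsto (fun z => psi u z - z) (Bornology.cobounded ℂ) (𝓝 (-(1 + u))) := by
  have hg : HasDerivAt (fun ζ : ℂ => Complex.exp ((1 + u) * Complex.log (1 - ζ)))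
      (-(1 + u)) 0 := by
    have d1 : HasDerivAt (fun ζ : ℂ => Complex.log (1 - ζ)) (-1 / (1 - 0)) 0 :=
      ((hasDerivAt_id (0:ℂ)).const_sub 1).clog (Or.inl (by simp))
    refine ((d1.const_mul (1 + u)).cexp).congr_deriv ?_
    simp
  have hs := hasDerivAt_iff_tendsto_slope.1 hg
  have ht : Tendsto (fun z : ℂ => z⁻¹) (Bornology.cobounded ℂ) (𝓝[≠] 0) :=
    tendsto_nhdsWithin_iff.2 ⟨tendsto_inv₀_cobounded,
      (Bornology.eventually_ne_cobounded 0).mono fun z hz => inv_ne_zero hz⟩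
  refine (hs.comp ht).congr' ?_
  filter_upwards [Bornology.eventually_ne_cobounded (0 : ℂ)] with z hz
  simp only [Function.comp, slope_def_field, psi, sub_zero, Complex.log_one, mul_zero,
    Complex.exp_zero]
  rw [div_inv_eq_mul]
  ring

theorem hh_tendsto (u : ℂ) : Tendsto (hh u) (Bornology.cobounded ℂ) (𝓝 0) := by
  have hg : ContinuousAt (fun ζ : ℂ => u * Complex.log (1 - ζ) + Complex.log (1 + u * ζ)) 0 := by
    have d1 : ContinuousAt (fun ζ : ℂ => Complex.log (1 - ζ)) 0 :=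
      ContinuousAt.clog (by fun_prop) (Or.inl (by simp))
    have d2 : ContinuousAt (fun ζ : ℂ => Complex.log (1 + u * ζ)) 0 :=
      ContinuousAt.clog (by fun_prop) (Or.inl (by simp))
    exact (continuousAt_const.mul d1).add d2
  have ht : Tendsto (fun z : ℂ => z⁻¹) (Bornology.cobounded ℂ) (𝓝 0) := tendsto_inv₀_cobounded
  have := hg.tendsto.comp ht
  simp only [sub_zero, Complex.log_one, mul_zero, add_zero] at this
  exact this

/-- `log (1 + u ζ)` is bounded in a small sector around the positive axis -/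
theorem log_bound (hu : ‖u‖ = 1) {δ : ℝ} (hδ : 4 * δ = ‖1 + u‖) (hδ0 : 0 < δ)
    {r θ : ℝ} (hr : 0 < r) (hr1 : r < 1) (hθ : 0 ≤ θ) (hθ1 : θ ≤ δ) :
    ‖Complex.log (1 + u * (r * Complex.exp (-(θ * I))))‖ ≤ Real.log 2 - Real.log δ + π := by
  obtain ⟨w, hw⟩ : ∃ w : ℂ, w = 1 + u * (r * Complex.exp (-(θ * I))) := ⟨_, rfl⟩
  have he : ‖Complex.exp (-(θ * I)) - 1‖ ≤ θ := by
    have := Real.norm_exp_I_mul_ofReal_sub_one_le (x := -θ)
    rw [Real.norm_eq_abs, abs_neg, abs_of_nonneg hθ] at this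
    rw [show -((θ : ℂ) * I) = I * ((-θ : ℝ) : ℂ) by push_cast; ring]
    exact this
  have hn : ‖Complex.exp (-(θ * I))‖ = 1 := by
    rw [show -((θ : ℂ) * I) = ((-θ : ℝ) : ℂ) * I by push_cast; ring]
    exact Complex.norm_exp_ofReal_mul_I _
  have h1 : ‖1 + u‖ ≤ 2 * ‖1 + u * r‖ := by
    have a1 : ‖1 + u‖ ≤ ‖1 + u * r‖ + (1 - r) := by
      have : 1 + u = (1 + u * r) + u * ((1 - r : ℝ) : ℂ) := by push_cast; ring
      rw [this]
      refine (norm_add_le _ _).trans ?_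
      rw [norm_mul, hu, one_mul, Complex.norm_real, Real.norm_of_nonneg (by linarith)]
    have a2 : 1 - r ≤ ‖1 + u * r‖ := by
      have := norm_sub_norm_le (1 : ℂ) (-(u * r))
      rw [norm_neg, norm_mul, hu, one_mul, norm_one, Complex.norm_real,
        Real.norm_of_nonneg hr.le, sub_neg_eq_add] at this
      exact this
    linarith
  have h2 : δ ≤ ‖w‖ := by
    have a3 : (1 + u * r) - w = -(u * (r * (Complex.exp (-(θ * I)) - 1))) := by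
      rw [hw]; ring
    have a4 : ‖(1 + u * r) - w‖ ≤ θ := by
      rw [a3, norm_neg, norm_mul, norm_mul, hu, one_mul, Complex.norm_real,
        Real.norm_of_nonneg hr.le]
      calc r * ‖Complex.exp (-(θ * I)) - 1‖ ≤ 1 * θ :=
            mul_le_mul hr1.le he (norm_nonneg _) zero_le_one
        _ = θ := one_mul _
    have a5 := norm_sub_norm_le (1 + u * r) w
    linarith
  have h3 : ‖w‖ ≤ 2 := by
    rw [hw]
    refine (norm_add_le _ _).trans ?_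
    rw [norm_mul, norm_mul, hu, one_mul, hn, mul_one, norm_one, Complex.norm_real,
      Real.norm_of_nonneg hr.le]
    linarith
  have hw0 : 0 < ‖w‖ := lt_of_lt_of_le hδ0 h2
  rw [← hw]
  refine (Complex.norm_le_abs_re_add_abs_im _).trans ?_
  rw [Complex.log_re, Complex.log_im]
  have hl1 : Real.log ‖w‖ ≤ Real.log 2 := Real.log_le_log hw0 h3
  have hl2 : Real.log δ ≤ Real.log ‖w‖ := Real.log_le_log hδ0 h2
  have hδ1 : δ ≤ 1 / 2 := by
    have : ‖1 + u‖ ≤ 2 := by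
      refine (norm_add_le _ _).trans ?_
      rw [hu, norm_one]
      norm_num
    linarith
  have hl3 : Real.log δ ≤ 0 := Real.log_nonpos hδ0.le (by linarith)
  have hl4 : 0 ≤ Real.log 2 := Real.log_nonneg (by norm_num)
  have ha := Complex.abs_arg_le_pi w
  have hb : |Real.log ‖w‖| ≤ Real.log 2 - Real.log δ := by
    rw [abs_le]
    constructor <;> linarith
  linarith

theorem re_formula (hu : ‖u‖ = 1) (κ : ℝ) {z : ℂ} :
    (-(κ : ℂ) * conj u * hh u z).re =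
      -κ * Real.log ‖1 - z⁻¹‖ + -κ * (conj u * Complex.log (1 + u * z⁻¹)).re := by
  have huu : conj u * u = 1 := by
    rw [Complex.conj_mul', hu]
    simp
  have : -(κ : ℂ) * conj u * hh u z = ((-κ : ℝ) : ℂ) * Complex.log (1 - z⁻¹) +
      ((-κ : ℝ) : ℂ) * (conj u * Complex.log (1 + u * z⁻¹)) := by
    unfold hh
    push_cast
    linear_combination (-(κ : ℂ) * Complex.log (1 - z⁻¹)) * huu
  rw [this, Complex.add_re, Complex.re_ofReal_mul, Complex.re_ofReal_mul, Complex.log_re]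

/-- the lower bound for the means -/
theorem mean_lower (hu : ‖u‖ = 1) (hu1 : u ≠ -1) {κ : ℝ} (hκ : 1 < κ) :
    ∃ c : ℝ, 0 < c ∧ ∀ R : ℝ, 1 < R →
      c * (R ^ 2 / (R ^ 2 - 1)) ^ (κ - 1) ≤ (2 * π)⁻¹ * ∫ θ in (0:ℝ)..(2 * π),
        Real.exp (-(κ : ℂ) * conj u * hh u (R * Complex.exp (θ * I))).re := by
  have hpi := Real.pi_gt_three
  have hne : 1 + u ≠ 0 := by
    intro h
    apply hu1
    linear_combination h
  obtain ⟨δ, hδ⟩ : ∃ δ : ℝ, 4 * δ = ‖1 + u‖ := ⟨‖1 + u‖ / 4, by ring⟩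
  have hδ0 : 0 < δ := by
    have := norm_pos_iff.2 hne
    linarith
  have hδ1 : δ ≤ 1 / 2 := by
    have : ‖1 + u‖ ≤ 2 := by
      refine (norm_add_le _ _).trans ?_
      rw [hu, norm_one]
      norm_num
    linarith
  obtain ⟨M, hM⟩ : ∃ M : ℝ, M = Real.log 2 - Real.log δ + π := ⟨_, rfl⟩
  refine ⟨(2 * π)⁻¹ * (δ * (2 ^ (-κ) * Real.exp (-(κ * M)))), by positivity, fun R hR => ?_⟩
  obtain ⟨r, hr⟩ : ∃ r : ℝ, r = R⁻¹ := ⟨_, rfl⟩
  have hR0 : 0 < R := by linarith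
  have hr0 : 0 < r := by rw [hr]; positivity
  have hr1 : r < 1 := by rw [hr]; exact inv_lt_one_of_one_lt₀ hR
  obtain ⟨d, hd⟩ : ∃ d : ℝ, d = 1 - r := ⟨_, rfl⟩
  have hd0 : 0 < d := by linarith
  have hd1 : d < 1 := by linarith
  -- the left side
  have hL : (R ^ 2 / (R ^ 2 - 1)) ^ (κ - 1) ≤ d * d ^ (-κ) := by
    have e1 : R ^ 2 / (R ^ 2 - 1) ≤ d⁻¹ := by
      have h1 : 0 < R ^ 2 - 1 := by nlinarith
      rw [hd, hr, div_le_iff₀ h1]
      have h2 : 0 < R - 1 := by linarith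
      have h3 : (1 - R⁻¹)⁻¹ = R / (R - 1) := by field_simp
      rw [h3, div_mul_eq_mul_div, le_div_iff₀ h2]
      nlinarith
    have e2 : d⁻¹ ^ (κ - 1) = d * d ^ (-κ) := by
      rw [Real.inv_rpow hd0.le, ← Real.rpow_neg hd0.le]
      nth_rw 2 [← Real.rpow_one d]
      rw [← Real.rpow_add hd0]
      congr 1
      ring
    rw [← e2]
    refine Real.rpow_le_rpow ?_ e1 (by linarith)
    have h1 : 0 < R ^ 2 - 1 := by nlinarith
    positivity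
  -- the integrand
  obtain ⟨F, hF⟩ : ∃ F : ℝ → ℝ, F = fun θ : ℝ =>
    Real.exp (-(κ : ℂ) * conj u * hh u (R * Complex.exp (θ * I))).re := ⟨_, rfl⟩
  have hout : ∀ θ : ℝ, 1 < ‖(R : ℂ) * Complex.exp (θ * I)‖ := by
    intro θ
    rw [norm_mul, Complex.norm_exp_ofReal_mul_I, mul_one, Complex.norm_real,
      Real.norm_of_nonneg hR0.le]
    exact hR
  have hc : Continuous F := by
    rw [hF]
    have h1 : Continuous (fun θ : ℝ => hh u (R * Complex.exp (θ * I))) :=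
      (hh_diff hu).continuousOn.comp_continuous (by fun_prop) hout
    exact Real.continuous_exp.comp (Complex.continuous_re.comp (continuous_const.mul h1))
  have hF0 : ∀ θ, 0 ≤ F θ := by
    intro θ
    rw [hF]
    exact (Real.exp_pos _).le
  have hb : δ * d ≤ 2 * π := by nlinarith
  have hb0 : 0 ≤ δ * d := by positivity
  have h1 : ∫ θ in (0:ℝ)..(δ * d), F θ ≤ ∫ θ in (0:ℝ)..(2 * π), F θ :=
    intervalIntegral.integral_mono_interval le_rfl hb0 hb (Filter.Eventually.of_forall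
      (fun θ => hF0 θ)) (hc.intervalIntegrable _ _)
  have h2 : ∫ _θ in (0:ℝ)..(δ * d), ((2 * d) ^ (-κ) * Real.exp (-(κ * M))) ≤
      ∫ θ in (0:ℝ)..(δ * d), F θ := by
    refine intervalIntegral.integral_mono_on hb0 (continuous_const.intervalIntegrable _ _)
      (hc.intervalIntegrable _ _) (fun θ hθ => ?_)
    rw [hF]
    have ei : ((R : ℂ) * Complex.exp (θ * I))⁻¹ = r * Complex.exp (-(θ * I)) := by
      rw [mul_inv, ← Complex.exp_neg, hr]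
      push_cast
      rfl
    have hθ1 : θ ≤ δ := hθ.2.trans (by nlinarith)
    have hθ2 : θ ≤ d := hθ.2.trans (by nlinarith)
    have hlog := log_bound hu hδ hδ0 hr0 hr1 hθ.1 hθ1
    rw [← hM, ← ei] at hlog
    have hre : (conj u * Complex.log (1 + u * ((R : ℂ) * Complex.exp (θ * I))⁻¹)).re ≤ M := by
      refine (Complex.re_le_norm _).trans ?_
      rw [norm_mul, Complex.norm_conj, hu, one_mul]
      exact hlog
    have hnorm : ‖1 - ((R : ℂ) * Complex.exp (θ * I))⁻¹‖ ≤ 2 * d := by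
      rw [ei]
      have e3 : (1 : ℂ) - r * Complex.exp (-(θ * I)) =
          ((1 - r : ℝ) : ℂ) - r * (Complex.exp (-(θ * I)) - 1) := by
        push_cast; ring
      have he : ‖Complex.exp (-(θ * I)) - 1‖ ≤ θ := by
        have := Real.norm_exp_I_mul_ofReal_sub_one_le (x := -θ)
        rw [Real.norm_eq_abs, abs_neg, abs_of_nonneg hθ.1] at this
        rw [show -((θ : ℂ) * I) = I * ((-θ : ℝ) : ℂ) by push_cast; ring]
        exact this
      rw [e3]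
      refine (norm_sub_le _ _).trans ?_
      rw [norm_mul, Complex.norm_real, Complex.norm_real, Real.norm_of_nonneg (by linarith),
        Real.norm_of_nonneg hr0.le]
      have h5 : r * ‖Complex.exp (-(θ * I)) - 1‖ ≤ 1 * θ :=
        mul_le_mul hr1.le he (norm_nonneg _) zero_le_one
      linarith
    have hpos : 0 < ‖1 - ((R : ℂ) * Complex.exp (θ * I))⁻¹‖ := by
      have := re_pos1 (hout θ)
      exact lt_of_lt_of_le this (Complex.re_le_norm _)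
    beta_reduce
    rw [re_formula hu]
    have e5 : (2 * d) ^ (-κ) * Real.exp (-(κ * M)) =
        Real.exp (-κ * Real.log (2 * d) + -κ * M) := by
      rw [Real.rpow_def_of_pos (by positivity), ← Real.exp_add]
      congr 1
      ring
    rw [e5]
    refine Real.exp_le_exp.2 ?_
    have l1 := Real.log_le_log hpos hnorm
    have k1 : -κ * Real.log (2 * d) ≤ -κ * Real.log ‖1 - ((R : ℂ) * Complex.exp (θ * I))⁻¹‖ :=
      mul_le_mul_of_nonpos_left l1 (by linarith)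
    have k2 := mul_le_mul_of_nonpos_left hre (show -κ ≤ 0 by linarith)
    linarith
  rw [intervalIntegral.integral_const, sub_zero, smul_eq_mul, Real.mul_rpow (by norm_num) hd0.le]
    at h2
  have h3 := h2.trans h1
  have h4 := mul_le_mul_of_nonneg_left h3 (show 0 ≤ (2 * π)⁻¹ by positivity)
  rw [hF] at h4
  refine le_trans ?_ h4
  have h6 := mul_le_mul_of_nonneg_left hL
    (show 0 ≤ (2 * π)⁻¹ * (δ * (2 ^ (-κ) * Real.exp (-(κ * M)))) by positivity)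
  refine h6.trans (le_of_eq ?_)
  ring

/-- sharpness for complex exponents -/
theorem sharp_u (hu : ‖u‖ = 1) (hu1 : u ≠ -1) : ∃ ψ h : ℂ → ℂ,
    DifferentiableOn ℂ ψ {z : ℂ | 1 < ‖z‖} ∧ InjOn ψ {z : ℂ | 1 < ‖z‖} ∧
    (∃ b : ℂ, Tendsto (fun z => ψ z - z) (Bornology.cobounded ℂ) (𝓝 b)) ∧
    DifferentiableOn ℂ h {z : ℂ | 1 < ‖z‖} ∧
    (∀ z : ℂ, 1 < ‖z‖ → Complex.exp (h z) = deriv ψ z) ∧
    Tendsto h (Bornology.cobounded ℂ) (𝓝 0) ∧
    ∀ κ : ℝ, 1 < κ → ∃ c : ℝ, 0 < c ∧ ∀ R : ℝ, 1 < R →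
      c * (R ^ 2 / (R ^ 2 - 1)) ^ (κ - 1) ≤ (2 * π)⁻¹ * ∫ θ in (0:ℝ)..(2 * π),
        Real.exp (-(κ : ℂ) * conj u * h (R * Complex.exp (θ * I))).re :=
  ⟨psi u, hh u, psi_diff hu, psi_injOn hu, ⟨_, psi_tendsto u⟩, hh_diff hu,
    fun _ hz => exp_hh hu hz, hh_tendsto u, fun _ hκ => mean_lower hu hu1 hκ⟩

end Pool.Agent.Helper97.EKC

end

section

set_option autoImplicit false
open Complex MeasureTheory Metric Set Filter Topology
open scoped Real ENNReal ComplexConjugate NNReal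

/-! Transfer from the exterior of the disc to the disc. -/

namespace Pool.Agent.Helper39.Area

noncomputable def toDisc (l : ℂ) (f : ℂ → ℂ) (ζ : ℂ) : ℂ := if ζ = 0 then l else f ζ⁻¹

theorem inv_mem {ζ : ℂ} (hζ : ζ ∈ ball (0:ℂ) 1) (h0 : ζ ≠ 0) : 1 < ‖ζ⁻¹‖ := by
  rw [mem_ball, dist_zero_right] at hζ
  rw [norm_inv]
  exact (one_lt_inv₀ (norm_pos_iff.mpr h0)).mpr hζ

theorem isOpen_ext : IsOpen {z : ℂ | 1 < ‖z‖} := isOpen_lt continuous_const continuous_norm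

theorem toDisc_diff {f : ℂ → ℂ} {l : ℂ} (hf : DifferentiableOn ℂ f {z : ℂ | 1 < ‖z‖})
    (hl : Tendsto f (Bornology.cobounded ℂ) (𝓝 l)) :
    DifferentiableOn ℂ (toDisc l f) (ball 0 1) := by
  have hb : ball (0:ℂ) 1 ∈ 𝓝 (0:ℂ) := ball_mem_nhds 0 one_pos
  rw [← differentiableOn_compl_singleton_and_continuousAt_iff hb]
  constructor
  · rintro ζ ⟨hζ, h0⟩
    have h0' : ζ ≠ 0 := h0
    have h1 : DifferentiableAt ℂ (fun ζ : ℂ => f ζ⁻¹) ζ := by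
      have h2 := hf.differentiableAt (isOpen_ext.mem_nhds (inv_mem hζ h0'))
      exact h2.comp ζ (differentiableAt_inv h0')
    have h2 : toDisc l f =ᶠ[𝓝 ζ] fun ζ : ℂ => f ζ⁻¹ := by
      filter_upwards [isOpen_ne.mem_nhds h0'] with ω hω
      simp only [toDisc]
      rw [if_neg hω]
    exact (h1.congr_of_eventuallyEq h2).differentiableWithinAt
  · rw [continuousAt_iff_punctured_nhds]
    have h1 : Tendsto (fun ζ : ℂ => f ζ⁻¹) (𝓝[≠] 0) (𝓝 l) := hl.comp tendsto_inv₀_nhdsNE_zero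
    have h2 : toDisc l f 0 = l := by simp [toDisc]
    rw [h2]
    apply h1.congr'
    filter_upwards [self_mem_nhdsWithin] with ω hω
    have hω' : ω ≠ 0 := hω
    simp only [toDisc]
    rw [if_neg hω']

theorem ext_data {ψ h : ℂ → ℂ} {b : ℂ}
    (hψ : DifferentiableOn ℂ ψ {z : ℂ | 1 < ‖z‖})
    (hinj : InjOn ψ {z : ℂ | 1 < ‖z‖})
    (hb : Tendsto (fun z => ψ z - z) (Bornology.cobounded ℂ) (𝓝 b))
    (hexp : ∀ z : ℂ, 1 < ‖z‖ → Complex.exp (h z) = deriv ψ z) :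
    Ext (toDisc b (fun z => ψ z - z)) ∧ ∀ ζ ∈ ball (0:ℂ) 1,
      Complex.exp (toDisc 0 h ζ) = 1 - ζ ^ 2 * deriv (toDisc b (fun z => ψ z - z)) ζ := by
  set β : ℂ → ℂ := toDisc b (fun z => ψ z - z) with hβ
  have hdiff : DifferentiableOn ℂ β (ball 0 1) := toDisc_diff (hψ.sub differentiableOn_id) hb
  have hβ' : ∀ ζ : ℂ, ζ ≠ 0 → β ζ = ψ ζ⁻¹ - ζ⁻¹ := by
    intro ζ hζ
    simp only [hβ, toDisc]
    rw [if_neg hζ]
  have hE : ∀ ζ ∈ ball (0:ℂ) 1, Complex.exp (toDisc 0 h ζ) = 1 - ζ ^ 2 * deriv β ζ := by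
    intro ζ hζ
    by_cases h0 : ζ = 0
    · subst h0; simp [toDisc]
    · have h1 := inv_mem hζ h0
      have h2 : toDisc 0 h ζ = h ζ⁻¹ := by
        simp only [toDisc]; rw [if_neg h0]
      rw [h2, hexp _ h1]
      have h3 := (hψ.differentiableAt (isOpen_ext.mem_nhds h1)).hasDerivAt
      have h4 : HasDerivAt (fun ζ : ℂ => ψ ζ⁻¹) (deriv ψ ζ⁻¹ * -(ζ ^ 2)⁻¹) ζ :=
        h3.comp ζ (hasDerivAt_inv h0)
      have h5 : HasDerivAt (fun ζ : ℂ => ψ ζ⁻¹ - ζ⁻¹) (deriv ψ ζ⁻¹ * -(ζ ^ 2)⁻¹ - -(ζ ^ 2)⁻¹) ζ :=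
        h4.sub (hasDerivAt_inv h0)
      have h6 : β =ᶠ[𝓝 ζ] fun ζ : ℂ => ψ ζ⁻¹ - ζ⁻¹ := by
        filter_upwards [isOpen_ne.mem_nhds h0] with ω hω
        exact hβ' ω hω
      rw [(h5.congr_of_eventuallyEq h6).deriv]
      field_simp
      ring
  refine ⟨⟨hdiff, ?_, ?_⟩, hE⟩
  · intro ζ ω hζ hω hζ0 hω0 heq
    rw [hβ' ζ hζ0, hβ' ω hω0] at heq
    have h1 : ψ ζ⁻¹ = ψ ω⁻¹ := by linear_combination heq
    exact inv_injective (hinj (inv_mem hζ hζ0) (inv_mem hω hω0) h1)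
  · intro ζ hζ h'
    rw [← hE ζ hζ] at h'
    exact Complex.exp_ne_zero _ h'

/-- Goluzin's inequality, in the coordinate `ζ = 1/z`. -/
theorem goluzin_disc {ψ h : ℂ → ℂ}
    (hψ : DifferentiableOn ℂ ψ {z : ℂ | 1 < ‖z‖})
    (hinj : InjOn ψ {z : ℂ | 1 < ‖z‖})
    (hb : ∃ b : ℂ, Tendsto (fun z => ψ z - z) (Bornology.cobounded ℂ) (𝓝 b))
    (hh : DifferentiableOn ℂ h {z : ℂ | 1 < ‖z‖})
    (hexp : ∀ z : ℂ, 1 < ‖z‖ → Complex.exp (h z) = deriv ψ z)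
    (hh0 : Tendsto h (Bornology.cobounded ℂ) (𝓝 0)) :
    DifferentiableOn ℂ (toDisc 0 h) (ball 0 1) ∧ ∀ ζ ∈ ball (0:ℂ) 1,
      ‖toDisc 0 h ζ‖ ≤ Real.log (1 / (1 - ‖ζ‖ ^ 2)) := by
  obtain ⟨b, hb⟩ := hb
  obtain ⟨h1, h2⟩ := ext_data hψ hinj hb hexp
  have h3 : DifferentiableOn ℂ (toDisc 0 h) (ball 0 1) := toDisc_diff hh hh0
  refine ⟨h3, fun ζ hζ => ?_⟩
  have h4 := goluzin h1 h3.continuousOn (by simp [toDisc]) h2 hζ
  rwa [one_div, Real.log_inv]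

/-- Goluzin's inequality. -/
theorem goluzin_ext {ψ h : ℂ → ℂ}
    (hψ : DifferentiableOn ℂ ψ {z : ℂ | 1 < ‖z‖})
    (hinj : InjOn ψ {z : ℂ | 1 < ‖z‖})
    (hb : ∃ b : ℂ, Tendsto (fun z => ψ z - z) (Bornology.cobounded ℂ) (𝓝 b))
    (hh : DifferentiableOn ℂ h {z : ℂ | 1 < ‖z‖})
    (hexp : ∀ z : ℂ, 1 < ‖z‖ → Complex.exp (h z) = deriv ψ z)
    (hh0 : Tendsto h (Bornology.cobounded ℂ) (𝓝 0)) {z : ℂ} (hz : 1 < ‖z‖) :
    ‖h z‖ ≤ Real.log (‖z‖ ^ 2 / (‖z‖ ^ 2 - 1)) := by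
  have hz0 : z ≠ 0 := by
    rintro rfl
    simp at hz
    linarith
  have hmem : z⁻¹ ∈ ball (0:ℂ) 1 := by
    rw [mem_ball, dist_zero_right, norm_inv]
    exact inv_lt_one_of_one_lt₀ hz
  have h1 := (goluzin_disc hψ hinj hb hh hexp hh0).2 z⁻¹ hmem
  have h2 : toDisc 0 h z⁻¹ = h z := by
    simp only [toDisc]
    rw [if_neg (inv_ne_zero hz0), inv_inv]
  rw [h2] at h1
  have h3 : 1 / (1 - ‖z⁻¹‖ ^ 2) = ‖z‖ ^ 2 / (‖z‖ ^ 2 - 1) := by
    rw [norm_inv]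
    have : ‖z‖ ≠ 0 := norm_ne_zero_iff.mpr hz0
    have h4 : ‖z‖ ^ 2 - 1 ≠ 0 := by nlinarith
    field_simp
  rwa [h3] at h1

/-- the circle integral in both coordinates -/
theorem integral_transfer (h : ℂ → ℂ) (a R : ℝ) (hR : 1 < R) :
    (∫ θ in (0:ℝ)..(2 * π),
        Real.exp (a * ‖h ((R : ℂ) * Complex.exp ((θ : ℂ) * I))‖ ^ 2
          / Real.log (R ^ 2 / (R ^ 2 - 1)))) =
      ∫ θ in (0:ℝ)..(2 * π),
        Real.exp (a * ‖toDisc 0 h (((R⁻¹ : ℝ) : ℂ) * Complex.exp ((θ : ℂ) * I))‖ ^ 2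
          / Real.log (1 / (1 - (R⁻¹) ^ 2))) := by
  have hR0 : R ≠ 0 := by linarith
  have hL : Real.log (R ^ 2 / (R ^ 2 - 1)) = Real.log (1 / (1 - (R⁻¹) ^ 2)) := by
    congr 1
    have h4 : R ^ 2 - 1 ≠ 0 := by nlinarith
    field_simp
  set k : ℝ → ℝ := fun θ => Real.exp (a * ‖toDisc 0 h (((R⁻¹ : ℝ) : ℂ) * Complex.exp ((θ : ℂ) * I))‖ ^ 2
          / Real.log (1 / (1 - (R⁻¹) ^ 2))) with hk
  have h1 : ∀ θ : ℝ, Real.exp (a * ‖h ((R : ℂ) * Complex.exp ((θ : ℂ) * I))‖ ^ 2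
          / Real.log (R ^ 2 / (R ^ 2 - 1))) = k (-θ) := by
    intro θ
    simp only [hk]
    rw [hL]
    have hne : ((R⁻¹ : ℝ) : ℂ) * Complex.exp (((-θ : ℝ) : ℂ) * I) ≠ 0 := by
      apply mul_ne_zero _ (Complex.exp_ne_zero _)
      exact_mod_cast inv_ne_zero hR0
    have h2 : (((R⁻¹ : ℝ) : ℂ) * Complex.exp (((-θ : ℝ) : ℂ) * I))⁻¹ =
        (R : ℂ) * Complex.exp ((θ : ℂ) * I) := by
      rw [mul_inv, ← Complex.exp_neg]
      push_cast
      rw [inv_inv]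
      congr 2
      ring
    simp only [toDisc]
    rw [if_neg hne, h2]
  simp_rw [h1]
  rw [intervalIntegral.integral_comp_neg (fun θ => k θ)]
  have hper : Function.Periodic k (2 * π) := by
    intro θ
    simp only [hk]
    have : Complex.exp (((θ + 2 * π : ℝ) : ℂ) * I) = Complex.exp ((θ : ℂ) * I) := by
      push_cast
      rw [add_mul, Complex.exp_add, Complex.exp_two_pi_mul_I, mul_one]
    rw [this]
  have h2 := hper.intervalIntegral_add_eq (-(2 * π)) 0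
  simp only [neg_add_cancel, zero_add] at h2
  rw [neg_zero]
  exact h2

end Pool.Agent.Helper39.Area

end

section

set_option autoImplicit false
open Complex MeasureTheory Metric Set
open scoped Real ComplexConjugate

/-! EKC: the Gibbs step, the scaling step and the transfer to the class Sigma, for a complex
exponent `t = - κ conj u`. -/

namespace Pool.Agent.Helper68.EKC

open Pool.Agent.Helper39.Area Pool.Agent.Helper52.EK Pool.Agent.Helper9.EK Pool.Agent.Helper61.EK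

theorem IsLog.rot {β L : ℂ → ℂ} (hL : IsLog β L) (α : ℝ) :
    IsLog (rotβ β α) (fun z => L (Complex.exp (α * I) * z)) := by
  refine ⟨?_, ?_, ?_⟩
  · exact hL.cont.comp (by fun_prop) (fun z hz => mem_ball_rot hz)
  · simp only [mul_zero]
    exact hL.zero
  · intro z hz
    rw [rot_N' α]
    exact hL.exp _ (mem_ball_rot hz)

theorem IsLog.scale {β L : ℂ → ℂ} (h : Ext β) (hL : IsLog β L) {ρ : ℝ} (h0 : 0 < ρ)
    (h1 : ρ < 1) : IsLog (fun z => (ρ : ℂ) * β (ρ * z)) (fun z => L (ρ * z)) := by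
  have hm : ∀ z ∈ ball (0:ℂ) 1, (ρ : ℂ) * z ∈ ball (0:ℂ) 1 := by
    intro z hz
    rw [mem_ball_zero_iff] at hz ⊢
    rw [norm_mul, Complex.norm_real, Real.norm_of_nonneg h0.le]
    nlinarith [norm_nonneg z]
  refine ⟨?_, ?_, ?_⟩
  · exact hL.cont.comp (by fun_prop) hm
  · simp only [mul_zero]
    exact hL.zero
  · intro z hz
    rw [Pool.Agent.Helper28.EK.scale_N h.diff (hm z hz)]
    exact hL.exp _ (hm z hz)

theorem circ_mem {a : ℝ} (ha : 0 < a) (ha1 : a < 1) (α : ℝ) :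
    (a * Complex.exp (α * I) : ℂ) ∈ ball (0:ℂ) 1 := by
  rw [mem_ball_zero_iff, norm_mul, Complex.norm_exp_ofReal_mul_I, mul_one, Complex.norm_real,
    Real.norm_eq_abs, abs_of_pos ha]
  exact ha1

theorem L_circ_cont {β L : ℂ → ℂ} (hL : IsLog β L) {a : ℝ} (ha : 0 < a) (ha1 : a < 1) :
    Continuous (fun α : ℝ => L (a * Complex.exp (α * I))) :=
  hL.cont.comp_continuous (by fun_prop) (circ_mem ha ha1)

/-- Gibbs with the complex exponent -/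
theorem gibbs_U {κ : ℝ} {u : ℂ} {G : ℂ → ℂ} (hE : EntropyStmt) (hKc : KfContStmt)
    (hwc : ∀ {β : ℂ → ℂ}, Ext β → ContinuousOn (wf G β) {z | 0 < ‖z‖ ∧ ‖z‖ < 1})
    (hK : ∃ C a₀ : ℝ, a₀ < 1 ∧ ∀ (β L : ℂ → ℂ) (R a : ℝ), ExtR β R → IsLog β L → a₀ < a → a < 1 →
      Kf (wf G β) 1 (-1) (Real.log a) ≤
        κ * (- Real.log (1 - a ^ 2) + (conj u * L a).re) + C) :
    ∃ C a₀ : ℝ, a₀ < 1 ∧ ∀ (β L : ℂ → ℂ) (R a : ℝ), ExtR β R → IsLog β L → a₀ < a → a < 1 →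
      (2 * π)⁻¹ * (∫ α in (0:ℝ)..(2 * π),
        Real.exp (-(κ * (conj u * L (a * Complex.exp (α * I))).re))) ≤
        C * (1 - a ^ 2) ^ (-(κ - 1)) := by
  obtain ⟨C₁, hE⟩ := hE
  obtain ⟨C₂, a₀, ha₀, hK⟩ := hK
  refine ⟨Real.exp (C₁ + C₂), max a₀ (Real.exp (-1)), ?_, ?_⟩
  · apply max_lt ha₀
    rw [Real.exp_lt_one_iff]
    norm_num
  intro β L R a h hL haa ha1
  have ha0 : a₀ < a := (le_max_left _ _).trans_lt haa
  have hae : Real.exp (-1) < a := (le_max_right _ _).trans_lt haa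
  have hap : 0 < a := (Real.exp_pos _).trans hae
  have hs : 0 < 1 - a ^ 2 := by nlinarith
  have hLc := L_circ_cont hL hap ha1
  have hVc : Continuous (fun α : ℝ => κ * (conj u * L (a * Complex.exp (α * I))).re) :=
    continuous_const.mul (Complex.continuous_re.comp (continuous_const.mul hLc))
  have hVp : Function.Periodic (fun α : ℝ => κ * (conj u * L (a * Complex.exp (α * I))).re)
      (2 * π) := by
    intro α
    simp only
    rw [exp_per]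
  have hKf : ∀ α : ℝ, Kf (wf G β) (Complex.exp (α * I)) (-1) (Real.log a) ≤
      κ * (conj u * L (a * Complex.exp (α * I))).re + (C₂ - κ * Real.log (1 - a ^ 2)) := by
    intro α
    rw [rot_Kf' α]
    have h1 := hK (rotβ β α) _ R a (rot_ExtR h α) (hL.rot α) ha0 ha1
    rw [mul_comm (Complex.exp (α * I))] at h1
    linarith
  have h2 := gibbs_core hE hKc (hwc h.toExt) hae ha1 hVc hVp hKf
  refine h2.trans (le_of_eq ?_)
  have e1 : Real.exp (C₁ + (C₂ - κ * Real.log (1 - a ^ 2))) =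
      Real.exp (C₁ + C₂) * Real.exp (-(κ * Real.log (1 - a ^ 2))) := by
    rw [← Real.exp_add]
    congr 1
    ring
  rw [e1, mul_assoc]
  congr 1
  rw [Real.rpow_def_of_pos hs]
  have e2 : (1 - a ^ 2) = Real.exp (Real.log (1 - a ^ 2)) := (Real.exp_log hs).symm
  nth_rewrite 2 [e2]
  rw [← Real.exp_add]
  congr 1
  ring

/-- all radii and all `Ext β`, by scaling -/
theorem moment_U {κ : ℝ} (hκ : 1 ≤ κ) {u : ℂ} (hu : ‖u‖ = 1)
    (hM : ∃ C a₀ : ℝ, a₀ < 1 ∧ ∀ (β L : ℂ → ℂ) (R a : ℝ), ExtR β R → IsLog β L → a₀ < a → a < 1 →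
      (2 * π)⁻¹ * (∫ α in (0:ℝ)..(2 * π),
        Real.exp (-(κ * (conj u * L (a * Complex.exp (α * I))).re))) ≤
        C * (1 - a ^ 2) ^ (-(κ - 1))) :
    ∃ C : ℝ, ∀ (β L : ℂ → ℂ) (r : ℝ), Ext β → IsLog β L → 0 < r → r < 1 →
      (2 * π)⁻¹ * (∫ α in (0:ℝ)..(2 * π),
        Real.exp (-(κ * (conj u * L (r * Complex.exp (α * I))).re))) ≤
        C * (1 - r ^ 2) ^ (-(κ - 1)) := by
  obtain ⟨C₀, a₀, ha₀, hM⟩ := hM
  obtain ⟨C₁, hC₁⟩ : ∃ C₁ : ℝ, C₁ = |C₀| * 2 ^ (κ - 1) := ⟨_, rfl⟩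
  have hC₁0 : 0 ≤ C₁ := by rw [hC₁]; positivity
  obtain ⟨b, hb⟩ : ∃ b : ℝ, b = max a₀ 0 := ⟨_, rfl⟩
  have hb0 : 0 ≤ b := by rw [hb]; exact le_max_right _ _
  have hb1 : b < 1 := by rw [hb]; exact max_lt ha₀ one_pos
  have hab : a₀ ≤ b := by rw [hb]; exact le_max_left _ _
  have h1b : 0 < 1 - b ^ 2 := by nlinarith
  obtain ⟨C₂, hC₂⟩ : ∃ C₂ : ℝ, C₂ = Real.exp (κ * (-Real.log (1 - b ^ 2))) := ⟨_, rfl⟩
  have hC₂0 : 0 ≤ C₂ := by rw [hC₂]; positivity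
  refine ⟨C₁ + C₂, ?_⟩
  intro β L r hβ hL hr0 hr1
  have hπ : 0 < 2 * π := by positivity
  have h1r : 0 < 1 - r ^ 2 := by nlinarith
  have h1r1 : 1 - r ^ 2 ≤ 1 := by nlinarith
  have hpow1 : 1 ≤ (1 - r ^ 2) ^ (-(κ - 1)) :=
    Real.one_le_rpow_of_pos_of_le_one_of_nonpos h1r h1r1 (by linarith)
  rcases le_or_gt r b with hrb | hrb
  · -- small radius
    have hle : ∀ α : ℝ, Real.exp (-(κ * (conj u * L (r * Complex.exp (α * I))).re)) ≤ C₂ := by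
      intro α
      rw [hC₂]
      apply Real.exp_le_exp.mpr
      have h2 := hL.goluzin hβ (circ_mem hr0 hr1 α)
      rw [norm_mul, Complex.norm_exp_ofReal_mul_I, mul_one, Complex.norm_real,
        Real.norm_of_nonneg hr0.le] at h2
      have h3 : Real.log (1 - b ^ 2) ≤ Real.log (1 - r ^ 2) :=
        Real.log_le_log h1b (by nlinarith)
      have h4 : -(conj u * L (r * Complex.exp (α * I))).re ≤
          ‖L (r * Complex.exp (α * I))‖ := by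
        have h5 := Complex.abs_re_le_norm (conj u * L (r * Complex.exp (α * I)))
        rw [norm_mul, RCLike.norm_conj, hu, one_mul] at h5
        exact (neg_le_abs _).trans h5
      have h6 : -(conj u * L (r * Complex.exp (α * I))).re ≤ -Real.log (1 - b ^ 2) := by linarith
      nlinarith
    have hcont : IntervalIntegrable (fun α : ℝ =>
        Real.exp (-(κ * (conj u * L (r * Complex.exp (α * I))).re))) volume 0 (2 * π) := by
      apply Continuous.intervalIntegrable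
      exact Real.continuous_exp.comp (continuous_const.mul
        (Complex.continuous_re.comp (continuous_const.mul (L_circ_cont hL hr0 hr1)))).neg
    have hint : (∫ α in (0:ℝ)..(2 * π),
        Real.exp (-(κ * (conj u * L (r * Complex.exp (α * I))).re))) ≤
        ∫ _α in (0:ℝ)..(2 * π), C₂ :=
      intervalIntegral.integral_mono_on hπ.le hcont intervalIntegrable_const (fun α _ => hle α)
    rw [intervalIntegral.integral_const, smul_eq_mul, sub_zero] at hint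
    have h3 := mul_le_mul_of_nonneg_left hint (inv_pos.mpr hπ).le
    rw [inv_mul_cancel_left₀ hπ.ne'] at h3
    calc _ ≤ C₂ := h3
      _ ≤ C₂ * (1 - r ^ 2) ^ (-(κ - 1)) := le_mul_of_one_le_right hC₂0 hpow1
      _ ≤ (C₁ + C₂) * (1 - r ^ 2) ^ (-(κ - 1)) :=
          mul_le_mul_of_nonneg_right (by linarith) (by positivity)
  · -- scaling
    have hex : ∃ ρ : ℝ, r < ρ ∧ ρ < 1 ∧ b < r / ρ ∧ (1 - r ^ 2) / 2 ≤ 1 - (r / ρ) ^ 2 := by
      have hcts : Filter.Tendsto (fun ρ : ℝ => r / ρ) (nhdsWithin 1 (Iio 1)) (nhds r) := by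
        have h2 : ContinuousAt (fun ρ : ℝ => r / ρ) 1 :=
          continuousAt_const.div continuousAt_id one_ne_zero
        have h3 := h2.tendsto
        simp only [div_one] at h3
        exact h3.mono_left nhdsWithin_le_nhds
      have hcts2 : Filter.Tendsto (fun ρ : ℝ => 1 - (r / ρ) ^ 2) (nhdsWithin 1 (Iio 1))
          (nhds (1 - r ^ 2)) := (hcts.pow 2).const_sub 1
      have e1 : ∀ᶠ ρ in nhdsWithin (1:ℝ) (Iio 1), b < r / ρ := hcts.eventually_const_lt hrb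
      have e2 : ∀ᶠ ρ in nhdsWithin (1:ℝ) (Iio 1), (1 - r ^ 2) / 2 < 1 - (r / ρ) ^ 2 :=
        hcts2.eventually_const_lt (by linarith)
      have e3 : ∀ᶠ ρ in nhdsWithin (1:ℝ) (Iio 1), r < ρ :=
        (eventually_gt_nhds hr1).filter_mono nhdsWithin_le_nhds
      have e4 : ∀ᶠ ρ in nhdsWithin (1:ℝ) (Iio 1), ρ < 1 := eventually_mem_nhdsWithin
      obtain ⟨ρ, h4, h5, h6, h7⟩ := (e1.and (e2.and (e3.and e4))).exists
      exact ⟨ρ, h6, h7, h4, h5.le⟩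
    obtain ⟨ρ, hrρ, hρ1, hbρ, hhalf⟩ := hex
    have hρ0 : 0 < ρ := hr0.trans hrρ
    have ha1 : r / ρ < 1 := by rw [div_lt_one hρ0]; exact hrρ
    have ha0 : 0 < r / ρ := by positivity
    have h2 := hM _ _ _ (r / ρ) (Pool.Agent.Helper28.EK.scale_ExtR hβ hρ0 hρ1)
      (hL.scale hβ hρ0 hρ1) (lt_of_le_of_lt hab hbρ) ha1
    have hLeq : ∀ α : ℝ, (ρ : ℂ) * (((r / ρ : ℝ) : ℂ) * Complex.exp (α * I)) =
        r * Complex.exp (α * I) := by
      intro α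
      have hρC : (ρ : ℂ) ≠ 0 := by exact_mod_cast hρ0.ne'
      push_cast
      field_simp
    simp only [hLeq] at h2
    have hκm1 : 0 ≤ κ - 1 := by linarith
    have h3 : (1 - (r / ρ) ^ 2) ^ (-(κ - 1)) ≤ 2 ^ (κ - 1) * (1 - r ^ 2) ^ (-(κ - 1)) := by
      have h4 : (1 - (r / ρ) ^ 2) ^ (-(κ - 1)) ≤ ((1 - r ^ 2) / 2) ^ (-(κ - 1)) :=
        Real.rpow_le_rpow_of_nonpos (by linarith) hhalf (by linarith)
      refine h4.trans (le_of_eq ?_)
      rw [Real.div_rpow h1r.le (by norm_num), Real.rpow_neg (by norm_num : (0:ℝ) ≤ 2), div_inv_eq_mul,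
        mul_comm]
    have h6 : 0 < 1 - (r / ρ) ^ 2 := by linarith
    calc _ ≤ C₀ * (1 - (r / ρ) ^ 2) ^ (-(κ - 1)) := h2
      _ ≤ |C₀| * (1 - (r / ρ) ^ 2) ^ (-(κ - 1)) :=
          mul_le_mul_of_nonneg_right (le_abs_self _) (by positivity)
      _ ≤ |C₀| * (2 ^ (κ - 1) * (1 - r ^ 2) ^ (-(κ - 1))) :=
          mul_le_mul_of_nonneg_left h3 (abs_nonneg _)
      _ = C₁ * (1 - r ^ 2) ^ (-(κ - 1)) := by rw [hC₁]; ring
      _ ≤ (C₁ + C₂) * (1 - r ^ 2) ^ (-(κ - 1)) :=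
          mul_le_mul_of_nonneg_right (by linarith) (by positivity)

/-- the class Sigma -/
theorem final_U {κ : ℝ} {u : ℂ} (hM : ∃ C : ℝ, ∀ (β L : ℂ → ℂ) (r : ℝ), Ext β → IsLog β L →
      0 < r → r < 1 → (2 * π)⁻¹ * (∫ α in (0:ℝ)..(2 * π),
        Real.exp (-(κ * (conj u * L (r * Complex.exp (α * I))).re))) ≤
        C * (1 - r ^ 2) ^ (-(κ - 1))) :
    ∃ C : ℝ, ∀ ψ h : ℂ → ℂ, DifferentiableOn ℂ ψ {z : ℂ | 1 < ‖z‖} →
      InjOn ψ {z : ℂ | 1 < ‖z‖} →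
      (∃ b : ℂ, Filter.Tendsto (fun z => ψ z - z) (Bornology.cobounded ℂ) (nhds b)) →
      DifferentiableOn ℂ h {z : ℂ | 1 < ‖z‖} →
      (∀ z : ℂ, 1 < ‖z‖ → Complex.exp (h z) = deriv ψ z) →
      Filter.Tendsto h (Bornology.cobounded ℂ) (nhds 0) →
      ∀ R : ℝ, 1 < R →
      (2 * π)⁻¹ * (∫ θ in (0:ℝ)..(2 * π),
        Real.exp (-(κ * (conj u * h (R * Complex.exp (θ * I))).re))) ≤
        C * (R ^ 2 / (R ^ 2 - 1)) ^ (κ - 1) := by
  obtain ⟨C, hC⟩ := hM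
  refine ⟨C, ?_⟩
  rintro ψ h hψ hinj ⟨b, hb⟩ hh hexp hh0 R hR
  have hR0 : 0 < R := by linarith
  obtain ⟨hE, hex⟩ := ext_data hψ hinj hb hexp
  have hr0 : 0 < R⁻¹ := by positivity
  have hr1 : R⁻¹ < 1 := inv_lt_one_of_one_lt₀ hR
  have hLog : IsLog (toDisc b (fun z => ψ z - z)) (toDisc 0 h) :=
    ⟨(toDisc_diff hh hh0).continuousOn, by simp [toDisc], hex⟩
  have hmain := hC _ _ R⁻¹ hE hLog hr0 hr1
  obtain ⟨k, hk⟩ : ∃ k : ℝ → ℝ, k = fun (α : ℝ) =>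
    Real.exp (-(κ * (conj u * toDisc 0 h (((R⁻¹ : ℝ) : ℂ) * Complex.exp (α * I))).re)) :=
    ⟨_, rfl⟩
  have h1 : ∀ θ : ℝ, Real.exp (-(κ * (conj u * h (R * Complex.exp (θ * I))).re)) = k (-θ) := by
    intro θ
    have hne0 : ((R⁻¹ : ℝ) : ℂ) * Complex.exp (((-θ : ℝ) : ℂ) * I) ≠ 0 := by
      apply mul_ne_zero _ (Complex.exp_ne_zero _)
      exact_mod_cast inv_ne_zero hR0.ne'
    have h2 : (((R⁻¹ : ℝ) : ℂ) * Complex.exp (((-θ : ℝ) : ℂ) * I))⁻¹ =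
        (R : ℂ) * Complex.exp ((θ : ℂ) * I) := by
      rw [mul_inv, ← Complex.exp_neg]
      push_cast
      rw [inv_inv]
      congr 2
      ring
    simp only [hk, toDisc]
    rw [if_neg hne0, h2]
  simp_rw [h1]
  rw [intervalIntegral.integral_comp_neg (fun θ => k θ)]
  have hper : Function.Periodic k (2 * π) := by
    intro θ
    simp only [hk]
    rw [exp_per]
  have h2 := hper.intervalIntegral_add_eq (-(2 * π)) 0
  have e1 : -(2 * π) + 2 * π = (0:ℝ) := by ring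
  have e2 : (0:ℝ) + 2 * π = 2 * π := by ring
  rw [e1, e2] at h2
  rw [neg_zero, h2]
  have hRR : 0 < R ^ 2 - 1 := by nlinarith
  have hx : (1 - R⁻¹ ^ 2) ^ (-(κ - 1)) = (R ^ 2 / (R ^ 2 - 1)) ^ (κ - 1) := by
    have h3 : 1 - R⁻¹ ^ 2 = (R ^ 2 / (R ^ 2 - 1))⁻¹ := by
      rw [inv_pow]
      field_simp
    rw [h3, Real.inv_rpow (by positivity), Real.rpow_neg (by positivity), inv_inv]
  rw [hx] at hmain
  rw [hk]
  exact hmain

end Pool.Agent.Helper68.EKC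

end
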