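import Pool.Agent.Helper96.ESX.B00

set_option autoImplicit false

/-! Copies of landed files, bundled to shorten the build: Helper56.EK.Cutoff, Helper71.EK.Kr, Helper71.EK.Dg, Helper71.EK.Bx, Helper71.EK.Tr, Helper71.EKC.Tr2, Helper2.EK.Fns, Helper71.EKC.Rf, Helper71.EKC.Gn, Helper71.EKC.Cd, Helper71.EKC.Cc, Helper71.EKC.Fin, Helper4.EK.NullV, Helper69.EK3.Half, Helper69.EK3.Mir, Helper69.EK3.Null, Helper44.EK.StripAux, Helper44.EK.StripGen, Helper69.EK3.NullA, Helper69.EK3.Strip3, Helper71.EKC.Pw, Helper79.EK.GcLip, Helper68.EKC.Gu, Helper71.EKC.Vx, Helper71.EKC.Vc, Helper71.EK3.Bc -/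

section


/-!
# Project EK, E4c: a cut-off function with two bounded derivatives
-/

set_option autoImplicit false

open Set
open scoped Real

namespace Pool.Agent.Helper56.EK

theorem bounded_of_zero_outside {f : ℝ → ℝ} (hf : Continuous f)
    (h0 : ∀ t, t < 0 → f t = 0) (h1 : ∀ t, 1 < t → f t = 0) : ∃ M : ℝ, ∀ t, |f t| ≤ M := by
  obtain ⟨M, hM⟩ := (isCompact_Icc (a := (0:ℝ)) (b := 1)).exists_bound_of_continuousOn
    hf.continuousOn
  refine ⟨M, fun t => ?_⟩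
  have hM0 : 0 ≤ M := (norm_nonneg _).trans (hM 0 ⟨le_refl _, zero_le_one⟩)
  rcases lt_or_ge t 0 with h | h
  · rw [h0 t h, abs_zero]; exact hM0
  rcases lt_or_ge 1 t with h' | h'
  · rw [h1 t h', abs_zero]; exact hM0
  · have := hM t ⟨h, h'⟩
    rwa [Real.norm_eq_abs] at this

theorem deriv_zero_left {f : ℝ → ℝ} {c : ℝ} (h0 : ∀ t, t < 0 → f t = c) :
    ∀ t, t < 0 → deriv f t = 0 := by
  intro t ht
  have h : f =ᶠ[nhds t] fun _ => c := by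
    filter_upwards [Iio_mem_nhds ht] with s hs using h0 s hs
  rw [h.deriv_eq, deriv_const]

theorem deriv_zero_right {f : ℝ → ℝ} {c : ℝ} (h1 : ∀ t, 1 < t → f t = c) :
    ∀ t, 1 < t → deriv f t = 0 := by
  intro t ht
  have h : f =ᶠ[nhds t] fun _ => c := by
    filter_upwards [Ioi_mem_nhds ht] with s hs using h1 s hs
  rw [h.deriv_eq, deriv_const]

/-- A smooth step with bounded first and second derivative. -/
theorem step : ∃ (f f₁ f₂ : ℝ → ℝ) (M : ℝ), (∀ t, HasDerivAt f (f₁ t) t) ∧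
    (∀ t, HasDerivAt f₁ (f₂ t) t) ∧ Continuous f₂ ∧ (∀ t, 0 ≤ f t ∧ f t ≤ 1) ∧ f 0 = 0 ∧
    f₁ 0 = 0 ∧ (∀ t, 1 ≤ t → f t = 1) ∧ (∀ t, |f₁ t| ≤ M) ∧ (∀ t, |f₂ t| ≤ M) := by
  have hs : ContDiff ℝ 2 Real.smoothTransition := Real.smoothTransition.contDiff
  have hd0 : Differentiable ℝ Real.smoothTransition := hs.differentiable (by norm_num)
  have h1 : ContDiff ℝ 1 (deriv Real.smoothTransition) := by
    have : ContDiff ℝ (1 + 1) Real.smoothTransition := by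
      refine hs.of_le ?_
      norm_num
    exact (contDiff_succ_iff_deriv.1 this).2.2
  have hd1 : Differentiable ℝ (deriv Real.smoothTransition) := h1.differentiable (by norm_num)
  have h2 : Continuous (deriv (deriv Real.smoothTransition)) := h1.continuous_deriv (by norm_num)
  have z0 : ∀ t : ℝ, t < 0 → Real.smoothTransition t = 0 := fun t ht =>
    Real.smoothTransition.zero_of_nonpos ht.le
  have z1 : ∀ t : ℝ, 1 < t → Real.smoothTransition t = 1 := fun t ht =>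
    Real.smoothTransition.one_of_one_le ht.le
  have a0 := deriv_zero_left z0
  have a1 := deriv_zero_right z1
  obtain ⟨M₁, hM₁⟩ := bounded_of_zero_outside h1.continuous a0 a1
  obtain ⟨M₂, hM₂⟩ := bounded_of_zero_outside h2 (deriv_zero_left a0) (deriv_zero_right a1)
  refine ⟨Real.smoothTransition, deriv Real.smoothTransition,
    deriv (deriv Real.smoothTransition), max M₁ M₂, fun t => (hd0 t).hasDerivAt,
    fun t => (hd1 t).hasDerivAt, h2, fun t => ⟨Real.smoothTransition.nonneg t,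
    Real.smoothTransition.le_one t⟩, Real.smoothTransition.zero, ?_,
    fun t ht => Real.smoothTransition.one_of_one_le ht,
    fun t => (hM₁ t).trans (le_max_left _ _), fun t => (hM₂ t).trans (le_max_right _ _)⟩
  have : IsLocalMin Real.smoothTransition 0 := by
    refine Filter.Eventually.of_forall fun t => ?_
    rw [Real.smoothTransition.zero]
    exact Real.smoothTransition.nonneg t
  exact this.deriv_eq_zero

theorem cutoff : ∃ C : ℝ, ∀ x₁ x₂ l : ℝ, 1 ≤ l → x₁ + l ≤ x₂ - l →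
    ∃ χ χ₁ χ₂ : ℝ → ℝ, (∀ ξ, HasDerivAt χ (χ₁ ξ) ξ) ∧ (∀ ξ, HasDerivAt χ₁ (χ₂ ξ) ξ) ∧
      Continuous χ₂ ∧ χ x₁ = 0 ∧ χ x₂ = 0 ∧ χ₁ x₁ = 0 ∧ χ₁ x₂ = 0 ∧
      (∀ ξ, 0 ≤ χ ξ ∧ χ ξ ≤ 1) ∧ (∀ ξ ∈ Icc (x₁ + l) (x₂ - l), χ ξ = 1) ∧
      (∀ ξ, |χ₁ ξ| ≤ C / l) ∧ (∀ ξ, |χ₂ ξ| ≤ C / l) := by
  obtain ⟨f, f₁, f₂, M, hf, hf₁, hc, h01, h0, h10, h1, b1, b2⟩ := step
  have hM0 : 0 ≤ M := (abs_nonneg _).trans (b1 0)
  refine ⟨2 * M + 2 * M ^ 2 + 2 * M, fun x₁ x₂ l hl hx => ?_⟩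
  have hl0 : 0 < l := lt_of_lt_of_le one_pos hl
  have hu : ∀ ξ : ℝ, HasDerivAt (fun ξ : ℝ => (ξ - x₁) / l) (1 / l) ξ := fun ξ =>
    ((hasDerivAt_id ξ).sub_const x₁).div_const l
  have hv : ∀ ξ : ℝ, HasDerivAt (fun ξ : ℝ => (x₂ - ξ) / l) (-1 / l) ξ := fun ξ =>
    ((hasDerivAt_id ξ).const_sub x₂).div_const l
  have hu0 : ∀ ξ : ℝ, HasDerivAt (fun ξ : ℝ => f ((ξ - x₁) / l)) (f₁ ((ξ - x₁) / l) * (1 / l)) ξ :=
    fun ξ => (hf _).comp ξ (hu ξ)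
  have hv0 : ∀ ξ : ℝ, HasDerivAt (fun ξ : ℝ => f ((x₂ - ξ) / l)) (f₁ ((x₂ - ξ) / l) * (-1 / l)) ξ :=
    fun ξ => (hf _).comp ξ (hv ξ)
  have hu1 : ∀ ξ : ℝ, HasDerivAt (fun ξ : ℝ => f₁ ((ξ - x₁) / l)) (f₂ ((ξ - x₁) / l) * (1 / l)) ξ :=
    fun ξ => (hf₁ _).comp ξ (hu ξ)
  have hv1 : ∀ ξ : ℝ, HasDerivAt (fun ξ : ℝ => f₁ ((x₂ - ξ) / l)) (f₂ ((x₂ - ξ) / l) * (-1 / l)) ξ :=
    fun ξ => (hf₁ _).comp ξ (hv ξ)
  have e1 : (x₁ - x₁) / l = 0 := by simp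
  have e2 : (x₂ - x₂) / l = 0 := by simp
  have habs : ∀ t, |f t| ≤ 1 := fun t => abs_le.2 ⟨by linarith [(h01 t).1], (h01 t).2⟩
  have hinv : 1 / l ≤ 1 := by rw [div_le_one hl0]; exact hl
  have hinv0 : 0 ≤ 1 / l := by positivity
  refine ⟨fun ξ => f ((ξ - x₁) / l) * f ((x₂ - ξ) / l),
    fun ξ => f₁ ((ξ - x₁) / l) * (1 / l) * f ((x₂ - ξ) / l)
      + f ((ξ - x₁) / l) * (f₁ ((x₂ - ξ) / l) * (-1 / l)),
    fun ξ => (f₂ ((ξ - x₁) / l) * (1 / l) * (1 / l) * f ((x₂ - ξ) / l)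
      + f₁ ((ξ - x₁) / l) * (1 / l) * (f₁ ((x₂ - ξ) / l) * (-1 / l)))
      + (f₁ ((ξ - x₁) / l) * (1 / l) * (f₁ ((x₂ - ξ) / l) * (-1 / l))
      + f ((ξ - x₁) / l) * (f₂ ((x₂ - ξ) / l) * (-1 / l) * (-1 / l))),
    fun ξ => (hu0 ξ).mul (hv0 ξ),
    fun ξ => (((hu1 ξ).mul_const _).mul (hv0 ξ)).add ((hu0 ξ).mul ((hv1 ξ).mul_const _)),
    ?_, ?_, ?_, ?_, ?_, ?_, ?_, ?_, ?_⟩
  · have hcf : Continuous f := continuous_iff_continuousAt.2 fun t => (hf t).continuousAt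
    have hcf1 : Continuous f₁ := continuous_iff_continuousAt.2 fun t => (hf₁ t).continuousAt
    have cu : Continuous fun ξ : ℝ => (ξ - x₁) / l := by fun_prop
    have cv : Continuous fun ξ : ℝ => (x₂ - ξ) / l := by fun_prop
    have k1 := hcf.comp cu
    have k2 := hcf.comp cv
    have k3 := hcf1.comp cu
    have k4 := hcf1.comp cv
    have k5 := hc.comp cu
    have k6 := hc.comp cv
    simp only [Function.comp_def] at k1 k2 k3 k4 k5 k6
    fun_prop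
  · simp [h0]
  · simp [h0]
  · simp [h0, h10]
  · simp [h0, h10]
  · intro ξ
    have a := h01 ((ξ - x₁) / l)
    have b := h01 ((x₂ - ξ) / l)
    exact ⟨mul_nonneg a.1 b.1, mul_le_one₀ a.2 b.1 b.2⟩
  · intro ξ hξ
    have a : f ((ξ - x₁) / l) = 1 := h1 _ (by rw [le_div_iff₀ hl0]; linarith [hξ.1])
    have b : f ((x₂ - ξ) / l) = 1 := h1 _ (by rw [le_div_iff₀ hl0]; linarith [hξ.2])
    show f ((ξ - x₁) / l) * f ((x₂ - ξ) / l) = 1
    rw [a, b, one_mul]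
  · intro ξ
    have t1 : |f₁ ((ξ - x₁) / l) * (1 / l) * f ((x₂ - ξ) / l)| ≤ M * (1 / l) * 1 := by
      rw [abs_mul, abs_mul, abs_of_nonneg hinv0]
      exact mul_le_mul (mul_le_mul_of_nonneg_right (b1 _) hinv0) (habs _) (abs_nonneg _)
        (mul_nonneg hM0 hinv0)
    have t2 : |f ((ξ - x₁) / l) * (f₁ ((x₂ - ξ) / l) * (-1 / l))| ≤ 1 * (M * (1 / l)) := by
      rw [abs_mul, abs_mul, neg_div, abs_neg, abs_of_nonneg hinv0]
      exact mul_le_mul (habs _) (mul_le_mul_of_nonneg_right (b1 _) hinv0)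
        (mul_nonneg (abs_nonneg _) hinv0) zero_le_one
    refine (abs_add_le _ _).trans ((add_le_add t1 t2).trans ?_)
    rw [show (2 * M + 2 * M ^ 2 + 2 * M) / l = (2 * M + 2 * M ^ 2 + 2 * M) * (1 / l) by ring]
    nlinarith [mul_nonneg hM0 hinv0, mul_nonneg (sq_nonneg M) hinv0]
  · intro ξ
    have hii : 1 / l * (1 / l) ≤ 1 / l := by nlinarith
    have t1 : |f₂ ((ξ - x₁) / l) * (1 / l) * (1 / l) * f ((x₂ - ξ) / l)| ≤ M * (1 / l) := by
      rw [abs_mul, abs_mul, abs_mul, abs_of_nonneg hinv0, mul_assoc (|f₂ _|)]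
      calc |f₂ ((ξ - x₁) / l)| * (1 / l * (1 / l)) * |f ((x₂ - ξ) / l)|
          ≤ (M * (1 / l)) * 1 := mul_le_mul (mul_le_mul (b2 _) hii (by positivity) hM0)
            (habs _) (abs_nonneg _) (mul_nonneg hM0 hinv0)
        _ = M * (1 / l) := mul_one _
    have t2 : |f₁ ((ξ - x₁) / l) * (1 / l) * (f₁ ((x₂ - ξ) / l) * (-1 / l))| ≤ M ^ 2 * (1 / l) := by
      rw [abs_mul, abs_mul, abs_mul, neg_div, abs_neg, abs_of_nonneg hinv0]
      calc |f₁ ((ξ - x₁) / l)| * (1 / l) * (|f₁ ((x₂ - ξ) / l)| * (1 / l))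
          = (|f₁ ((ξ - x₁) / l)| * |f₁ ((x₂ - ξ) / l)|) * (1 / l * (1 / l)) := by ring
        _ ≤ (M * M) * (1 / l) := mul_le_mul (mul_le_mul (b1 _) (b1 _) (abs_nonneg _) hM0) hii
            (by positivity) (mul_nonneg hM0 hM0)
        _ = M ^ 2 * (1 / l) := by ring
    have t3 : |f ((ξ - x₁) / l) * (f₂ ((x₂ - ξ) / l) * (-1 / l) * (-1 / l))| ≤ M * (1 / l) := by
      rw [abs_mul, abs_mul, abs_mul, neg_div, abs_neg, abs_of_nonneg hinv0,
        mul_assoc (|f₂ _|)]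
      calc |f ((ξ - x₁) / l)| * (|f₂ ((x₂ - ξ) / l)| * (1 / l * (1 / l)))
          ≤ 1 * (M * (1 / l)) := mul_le_mul (habs _) (mul_le_mul (b2 _) hii (by positivity) hM0)
            (by positivity) zero_le_one
        _ = M * (1 / l) := one_mul _
    refine (abs_add_le _ _).trans ((add_le_add ((abs_add_le _ _).trans (add_le_add t1 t2))
      ((abs_add_le _ _).trans (add_le_add t2 t3))).trans ?_)
    rw [show (2 * M + 2 * M ^ 2 + 2 * M) / l = (2 * M + 2 * M ^ 2 + 2 * M) * (1 / l) by ring]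
    nlinarith [mul_nonneg hM0 hinv0, mul_nonneg (sq_nonneg M) hinv0]

end Pool.Agent.Helper56.EK

end

section


/-!
Nonnegativity of a bivariate integer polynomial on a box, by Kronecker substitution:
the homogenised polynomial in the two barycentric coordinates is evaluated at one pair of
large integers, and the digits of the value are its coefficients.
-/

namespace Pool.EK71

/-- `(sum of a_j B^j C^(len-1-j), C^len)` -/
def hrow (B C : ℤ) : List ℤ → ℤ × ℤ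
  | [] => (0, 1)
  | a :: l => match hrow B C l with
    | (v, w) => (Int.add (Int.mul a w) (Int.mul B v), Int.mul C w)

/-- `sum of p_ij A^i B^j C^(N-i-j)` for a triangular array -/
def hpol (A B C : ℤ) : List (List ℤ) → ℤ
  | [] => 0
  | r :: P => Int.add (hrow B C r).1 (Int.mul A (hpol A B C P))

/-- the same sums of absolute values -/
def nrow (B C : ℕ) : List ℤ → ℕ × ℕ
  | [] => (0, 1)
  | a :: l => match nrow B C l with
    | (v, w) => (a.natAbs * w + B * v, C * w)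

def npol (A B C : ℕ) : List (List ℤ) → ℕ
  | [] => 0
  | r :: P => (nrow B C r).1 + A * npol A B C P

/-- the same sums over the reals -/
noncomputable def rrow (B C : ℝ) : List ℤ → ℝ × ℝ
  | [] => (0, 1)
  | a :: l => ((a : ℝ) * (rrow B C l).2 + B * (rrow B C l).1, C * (rrow B C l).2)

noncomputable def rpol (A B C : ℝ) : List (List ℤ) → ℝ
  | [] => 0
  | r :: P => (rrow B C r).1 + A * rpol A B C P

/-- row `i` of `P` has length `n - i` -/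
def shp : ℕ → List (List ℤ) → Bool
  | 0, [] => true
  | 0, _ :: _ => false
  | _ + 1, [] => true
  | n + 1, r :: P => Nat.beq r.length (n + 1) && shp n P

/-- the lowest `n` digits of `T` in base `W` are `< H` -/
def dig (W H : ℕ) : ℕ → ℕ → Bool
  | 0, _ => true
  | n + 1, T => Nat.ble (Nat.succ (T % W)) H && dig W H n (T / W)

/-- evaluation of `P` at `(x, y)` -/
noncomputable def ev1 (y : ℝ) : List ℤ → ℝ
  | [] => 0
  | a :: l => (a : ℝ) + y * ev1 y l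

noncomputable def ev2 (x y : ℝ) : List (List ℤ) → ℝ
  | [] => 0
  | r :: P => ev1 y r + x * ev2 x y P

/-- `v` and `φ` are the values of one form of bidegree `(N, M)` with integer coefficients -/
def Rp (Z W : ℤ) (T0 T1 V0 V1 : ℝ) (N M c : ℕ) (v : ℤ) (φ : ℝ) : Prop :=
  ∃ L : List (ℤ × ℕ × ℕ), (∀ t ∈ L, t.2.1 ≤ N ∧ t.2.2 ≤ M) ∧
    (L.map (fun t => t.1.natAbs)).sum ≤ c ∧
    v = (L.map (fun t => t.1 * Z ^ t.2.1 * W ^ t.2.2)).sum ∧
    φ = (L.map (fun t => (t.1 : ℝ) * (T1 ^ t.2.1 * T0 ^ (N - t.2.1)) *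
      (V1 ^ t.2.2 * V0 ^ (M - t.2.2)))).sum

section Rp
variable {Z W : ℤ} {T0 T1 V0 V1 : ℝ}

lemma Rp.zero (N M : ℕ) : Rp Z W T0 T1 V0 V1 N M 0 0 0 :=
  ⟨[], by simp, by simp, by simp, by simp⟩

lemma Rp.const (a : ℤ) : Rp Z W T0 T1 V0 V1 0 0 a.natAbs a a :=
  ⟨[(a, 0, 0)], by simp, by simp, by simp, by simp⟩

lemma Rp.mono {N M c c' : ℕ} {v : ℤ} {φ : ℝ} (h : Rp Z W T0 T1 V0 V1 N M c v φ) (hc : c ≤ c') :
    Rp Z W T0 T1 V0 V1 N M c' v φ := by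
  obtain ⟨L, h1, h2, h3, h4⟩ := h
  exact ⟨L, h1, h2.trans hc, h3, h4⟩

lemma Rp.add {N M c c' : ℕ} {v v' : ℤ} {φ φ' : ℝ} (h : Rp Z W T0 T1 V0 V1 N M c v φ)
    (h' : Rp Z W T0 T1 V0 V1 N M c' v' φ') :
    Rp Z W T0 T1 V0 V1 N M (c + c') (v + v') (φ + φ') := by
  obtain ⟨L, h1, h2, h3, h4⟩ := h
  obtain ⟨L', h1', h2', h3', h4'⟩ := h'
  refine ⟨L ++ L', ?_, ?_, ?_, ?_⟩
  · intro t ht
    rcases List.mem_append.1 ht with h | h
    · exact h1 t h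
    · exact h1' t h
  · rw [List.map_append, List.sum_append]; omega
  · rw [List.map_append, List.sum_append, h3, h3']
  · rw [List.map_append, List.sum_append, h4, h4']

lemma Rp.smul {N M c : ℕ} {v : ℤ} {φ : ℝ} (a : ℤ) (h : Rp Z W T0 T1 V0 V1 N M c v φ) :
    Rp Z W T0 T1 V0 V1 N M (a.natAbs * c) (a * v) (a * φ) := by
  obtain ⟨L, h1, h2, h3, h4⟩ := h
  refine ⟨L.map (fun t => (a * t.1, t.2)), ?_, ?_, ?_, ?_⟩
  · intro t ht
    obtain ⟨s, hs, rfl⟩ := List.mem_map.1 ht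
    exact h1 s hs
  · rw [List.map_map]
    have : (L.map ((fun t : ℤ × ℕ × ℕ => t.1.natAbs) ∘ fun t => (a * t.1, t.2))).sum
        = a.natAbs * (L.map (fun t => t.1.natAbs)).sum := by
      rw [← List.sum_map_mul_left]
      congr 1
      refine List.map_congr_left (fun t _ => ?_)
      simp [Int.natAbs_mul]
    rw [this]; exact Nat.mul_le_mul_left _ h2
  · rw [List.map_map, h3, ← List.sum_map_mul_left]
    congr 1
    refine List.map_congr_left (fun t _ => ?_)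
    simp only [Function.comp]; ring
  · rw [List.map_map, h4, ← List.sum_map_mul_left]
    congr 1
    refine List.map_congr_left (fun t _ => ?_)
    simp only [Function.comp]; push_cast; ring

/-- multiplication by `T0` -/
lemma Rp.t0 {N M c : ℕ} {v : ℤ} {φ : ℝ} (h : Rp Z W T0 T1 V0 V1 N M c v φ) :
    Rp Z W T0 T1 V0 V1 (N + 1) M c v (T0 * φ) := by
  obtain ⟨L, h1, h2, h3, h4⟩ := h
  refine ⟨L, fun t ht => ⟨(h1 t ht).1.trans (Nat.le_succ _), (h1 t ht).2⟩, h2, h3, ?_⟩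
  rw [h4, ← List.sum_map_mul_left]
  congr 1
  refine List.map_congr_left (fun t ht => ?_)
  have e : N + 1 - t.2.1 = (N - t.2.1) + 1 := by have := (h1 t ht).1; omega
  rw [e, pow_succ]; ring

/-- multiplication by `T1` -/
lemma Rp.t1 {N M c : ℕ} {v : ℤ} {φ : ℝ} (h : Rp Z W T0 T1 V0 V1 N M c v φ) :
    Rp Z W T0 T1 V0 V1 (N + 1) M c (Z * v) (T1 * φ) := by
  obtain ⟨L, h1, h2, h3, h4⟩ := h
  refine ⟨L.map (fun t => (t.1, t.2.1 + 1, t.2.2)), ?_, ?_, ?_, ?_⟩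
  · intro t ht
    obtain ⟨s, hs, rfl⟩ := List.mem_map.1 ht
    exact ⟨Nat.succ_le_succ (h1 s hs).1, (h1 s hs).2⟩
  · rw [List.map_map]; exact h2
  · rw [List.map_map, h3, ← List.sum_map_mul_left]
    congr 1
    refine List.map_congr_left (fun t _ => ?_)
    simp only [Function.comp]; ring
  · rw [List.map_map, h4, ← List.sum_map_mul_left]
    congr 1
    refine List.map_congr_left (fun t ht => ?_)
    have e : N + 1 - (t.2.1 + 1) = N - t.2.1 := by omega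
    simp only [Function.comp, e]; ring

/-- multiplication by `V0` -/
lemma Rp.v0 {N M c : ℕ} {v : ℤ} {φ : ℝ} (h : Rp Z W T0 T1 V0 V1 N M c v φ) :
    Rp Z W T0 T1 V0 V1 N (M + 1) c v (V0 * φ) := by
  obtain ⟨L, h1, h2, h3, h4⟩ := h
  refine ⟨L, fun t ht => ⟨(h1 t ht).1, (h1 t ht).2.trans (Nat.le_succ _)⟩, h2, h3, ?_⟩
  rw [h4, ← List.sum_map_mul_left]
  congr 1
  refine List.map_congr_left (fun t ht => ?_)
  have e : M + 1 - t.2.2 = (M - t.2.2) + 1 := by have := (h1 t ht).2; omega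
  rw [e, pow_succ]; ring

/-- multiplication by `V1` -/
lemma Rp.v1 {N M c : ℕ} {v : ℤ} {φ : ℝ} (h : Rp Z W T0 T1 V0 V1 N M c v φ) :
    Rp Z W T0 T1 V0 V1 N (M + 1) c (W * v) (V1 * φ) := by
  obtain ⟨L, h1, h2, h3, h4⟩ := h
  refine ⟨L.map (fun t => (t.1, t.2.1, t.2.2 + 1)), ?_, ?_, ?_, ?_⟩
  · intro t ht
    obtain ⟨s, hs, rfl⟩ := List.mem_map.1 ht
    exact ⟨(h1 s hs).1, Nat.succ_le_succ (h1 s hs).2⟩
  · rw [List.map_map]; exact h2
  · rw [List.map_map, h3, ← List.sum_map_mul_left]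
    congr 1
    refine List.map_congr_left (fun t _ => ?_)
    simp only [Function.comp]; ring
  · rw [List.map_map, h4, ← List.sum_map_mul_left]
    congr 1
    refine List.map_congr_left (fun t ht => ?_)
    have e : M + 1 - (t.2.2 + 1) = M - t.2.2 := by omega
    simp only [Function.comp, e]; ring

/-- multiplication by `a T0 + b T1` -/
lemma Rp.tl {N M c : ℕ} {v : ℤ} {φ : ℝ} (a b : ℤ) (h : Rp Z W T0 T1 V0 V1 N M c v φ) :
    Rp Z W T0 T1 V0 V1 (N + 1) M ((a.natAbs + b.natAbs) * c) ((a + b * Z) * v)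
      ((a * T0 + b * T1) * φ) := by
  have h1 := (h.t0).smul a
  have h2 := (h.t1).smul b
  have h3 := h1.add h2
  have e1 : a.natAbs * c + b.natAbs * c = (a.natAbs + b.natAbs) * c := by ring
  have e2 : a * v + b * (Z * v) = (a + b * Z) * v := by ring
  have e3 : (a : ℝ) * (T0 * φ) + (b : ℝ) * (T1 * φ) = (a * T0 + b * T1) * φ := by ring
  rw [e1, e2, e3] at h3
  exact h3

/-- multiplication by `a V0 + b V1` -/
lemma Rp.vl {N M c : ℕ} {v : ℤ} {φ : ℝ} (a b : ℤ) (h : Rp Z W T0 T1 V0 V1 N M c v φ) :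
    Rp Z W T0 T1 V0 V1 N (M + 1) ((a.natAbs + b.natAbs) * c) ((a + b * W) * v)
      ((a * V0 + b * V1) * φ) := by
  have h1 := (h.v0).smul a
  have h2 := (h.v1).smul b
  have h3 := h1.add h2
  have e1 : a.natAbs * c + b.natAbs * c = (a.natAbs + b.natAbs) * c := by ring
  have e2 : a * v + b * (W * v) = (a + b * W) * v := by ring
  have e3 : (a : ℝ) * (V0 * φ) + (b : ℝ) * (V1 * φ) = (a * V0 + b * V1) * φ := by ring
  rw [e1, e2, e3] at h3
  exact h3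

/-- a bilinear form by which one may multiply -/
def Mk (Z W : ℤ) (T0 T1 V0 V1 : ℝ) (cB : ℕ) (B : ℤ) (Bφ : ℝ) : Prop :=
  ∀ N M c v φ, Rp Z W T0 T1 V0 V1 N M c v φ →
    Rp Z W T0 T1 V0 V1 (N + 1) (M + 1) (cB * c) (B * v) (Bφ * φ)

lemma Mk.of (a b c d : ℤ) : Mk Z W T0 T1 V0 V1 ((a.natAbs + b.natAbs) * (c.natAbs + d.natAbs))
    ((a + b * Z) * (c + d * W)) ((a * T0 + b * T1) * (c * V0 + d * V1)) := by
  intro N M k v φ h
  have h1 := (h.vl c d).tl a b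
  rw [← mul_assoc, ← mul_assoc, ← mul_assoc] at h1
  exact h1

lemma row_rp {cB cC : ℕ} {B C : ℤ} {Bφ Cφ : ℝ} (hB : Mk Z W T0 T1 V0 V1 cB B Bφ)
    (hC : Mk Z W T0 T1 V0 V1 cC C Cφ) (l : List ℤ) :
    Rp Z W T0 T1 V0 V1 l.length l.length (nrow cB cC l).2 (hrow B C l).2 (rrow Bφ Cφ l).2 ∧
    (∀ n, l.length = n + 1 →
      Rp Z W T0 T1 V0 V1 n n (nrow cB cC l).1 (hrow B C l).1 (rrow Bφ Cφ l).1) := by
  induction l with
  | nil =>
    refine ⟨?_, ?_⟩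
    · simpa [nrow, hrow, rrow] using (Rp.const (Z := Z) (W := W) (T0 := T0) (T1 := T1)
        (V0 := V0) (V1 := V1) 1)
    · intro n hn; simp at hn
  | cons a l ih =>
    obtain ⟨ih1, ih2⟩ := ih
    refine ⟨?_, ?_⟩
    · exact hC _ _ _ _ _ ih1
    · intro n hn
      have hn' : l.length = n := by simpa using hn
      have h1 := ih1.smul a
      rw [hn'] at h1
      rcases Nat.eq_zero_or_pos n with h0 | hpos
      · subst h0
        obtain rfl : l = [] := List.length_eq_zero_iff.1 hn'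
        have := h1.add (Rp.zero (Z := Z) (W := W) (T0 := T0) (T1 := T1)
          (V0 := V0) (V1 := V1) 0 0)
        simpa [nrow, hrow, rrow] using this
      · obtain ⟨m, rfl⟩ : ∃ m, n = m + 1 := ⟨n - 1, by omega⟩
        have h2 := hB _ _ _ _ _ (ih2 m hn')
        exact h1.add h2

lemma pol_rp {cA cB cC : ℕ} {A B C : ℤ} {Aφ Bφ Cφ : ℝ} (hA : Mk Z W T0 T1 V0 V1 cA A Aφ)
    (hB : Mk Z W T0 T1 V0 V1 cB B Bφ) (hC : Mk Z W T0 T1 V0 V1 cC C Cφ)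
    (P : List (List ℤ)) (N : ℕ) (hs : shp (N + 1) P = true) :
    Rp Z W T0 T1 V0 V1 N N (npol cA cB cC P) (hpol A B C P) (rpol Aφ Bφ Cφ P) := by
  induction P generalizing N with
  | nil => exact Rp.zero N N
  | cons r P ih =>
    simp only [shp, Bool.and_eq_true] at hs
    have hr : r.length = N + 1 := Nat.eq_of_beq_eq_true hs.1
    have h1 := (row_rp hB hC r).2 N hr
    rcases Nat.eq_zero_or_pos N with h0 | hpos
    · subst h0
      have hP : P = [] := by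
        cases P with
        | nil => rfl
        | cons a b => have := hs.2; simp [shp] at this
      subst hP
      have := h1.add (Rp.zero (Z := Z) (W := W) (T0 := T0) (T1 := T1)
          (V0 := V0) (V1 := V1) 0 0)
      simpa [npol, hpol, rpol] using this
    · obtain ⟨m, rfl⟩ : ∃ m, N = m + 1 := ⟨N - 1, by omega⟩
      have h2 := hA _ _ _ _ _ (ih m hs.2)
      exact h1.add h2

end Rp

end Pool.EK71

end

section


/-!
Digits of a Kronecker value with small coefficients, and the box test.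
-/

namespace Pool.EK71

open Finset

/-- coefficient at `(k, l)` of a list of terms -/
def qq (L : List (ℤ × ℕ × ℕ)) (k l : ℕ) : ℤ :=
  (L.map (fun t => if k = t.2.1 then (if l = t.2.2 then t.1 else 0) else 0)).sum

lemma qq_cons (t : ℤ × ℕ × ℕ) (L : List (ℤ × ℕ × ℕ)) (k l : ℕ) :
    qq (t :: L) k l = (if k = t.2.1 then (if l = t.2.2 then t.1 else 0) else 0) + qq L k l := by
  simp [qq]

lemma qq_abs (L : List (ℤ × ℕ × ℕ)) (k l : ℕ) :
    |qq L k l| ≤ ((L.map (fun t => t.1.natAbs)).sum : ℕ) := by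
  induction L with
  | nil => simp [qq]
  | cons t L ih =>
    rw [qq_cons, List.map_cons, List.sum_cons]
    push_cast
    refine (abs_add_le _ _).trans (add_le_add ?_ (by push_cast at ih; exact ih))
    split_ifs <;> simp

lemma grp {R : Type*} [CommRing R] (N M : ℕ) (L : List (ℤ × ℕ × ℕ))
    (h : ∀ t ∈ L, t.2.1 ≤ N ∧ t.2.2 ≤ M) (F : ℕ → ℕ → R) :
    (L.map (fun t => (t.1 : R) * F t.2.1 t.2.2)).sum =
      ∑ k ∈ range (N + 1), ∑ l ∈ range (M + 1), (qq L k l : R) * F k l := by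
  induction L with
  | nil => simp [qq]
  | cons t L ih =>
    have ht := h t (by simp)
    rw [List.map_cons, List.sum_cons, ih (fun s hs => h s (by simp [hs]))]
    have e : ∀ k l, (qq (t :: L) k l : R) * F k l =
        (if k = t.2.1 then (if l = t.2.2 then (t.1 : R) * F k l else 0) else 0)
          + (qq L k l : R) * F k l := by
      intro k l
      rw [qq_cons]; split_ifs <;> push_cast <;> ring
    simp_rw [e, Finset.sum_add_distrib]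
    congr 1
    rw [Finset.sum_eq_single t.2.1]
    · rw [Finset.sum_eq_single t.2.2]
      · simp
      · intro l _ hl; simp [hl]
      · intro hl; exact absurd (Finset.mem_range.2 (by omega)) hl
    · intro k _ hk; simp [hk]
    · intro hk; exact absurd (Finset.mem_range.2 (by omega)) hk

lemma dig_row (W H : ℕ) (hW : W = 2 * H) (a b : ℕ) (q : ℕ → ℤ) (hq : ∀ l, |q l| < H)
    (R : ℤ) (T : ℕ) (hT : (T : ℤ) = ∑ l ∈ range a, q l * (W : ℤ) ^ l + (W : ℤ) ^ a * R)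
    (h : dig W H (a + b) T = true) :
    (∀ l < a, 0 ≤ q l) ∧ ∃ T' : ℕ, (T' : ℤ) = R ∧ dig W H b T' = true := by
  induction a generalizing q R T with
  | zero =>
    refine ⟨fun l hl => absurd hl (Nat.not_lt_zero _), T, by simpa using hT, by simpa using h⟩
  | succ a ih =>
    have e : a + 1 + b = (a + b) + 1 := by omega
    rw [e, dig, Bool.and_eq_true] at h
    have h1 : T % W < H := Nat.lt_of_succ_le (Nat.le_of_ble_eq_true h.1)
    set S : ℤ := ∑ l ∈ range a, q (l + 1) * (W : ℤ) ^ l + (W : ℤ) ^ a * R with hS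
    have hTS : (T : ℤ) = q 0 + W * S := by
      rw [hT, Finset.sum_range_succ', hS, mul_add, Finset.mul_sum]
      have : ∀ l ∈ range a, q (l + 1) * (W : ℤ) ^ (l + 1) = W * (q (l + 1) * (W : ℤ) ^ l) := by
        intro l _; ring
      rw [Finset.sum_congr rfl this]; ring
    have hdm : (T : ℤ) = (T % W : ℕ) + W * (T / W : ℕ) := by
      exact_mod_cast (Nat.mod_add_div T W).symm
    have hq0 := abs_lt.1 (hq 0)
    have hHpos : 0 < H := by omega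
    have hWz : (W : ℤ) = 2 * H := by rw [hW]; push_cast; ring
    have hm0 : (0 : ℤ) ≤ (T % W : ℕ) := Int.natCast_nonneg _
    have hm1 : ((T % W : ℕ) : ℤ) < H := by exact_mod_cast h1
    have hdiff : (W : ℤ) * (((T / W : ℕ) : ℤ) - S) = q 0 - (T % W : ℕ) := by
      have := hTS.symm.trans hdm
      linear_combination -this
    have hz : ((T / W : ℕ) : ℤ) - S = 0 := by
      by_contra hne
      have hge : (1 : ℤ) ≤ |((T / W : ℕ) : ℤ) - S| := Int.one_le_abs hne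
      have habs : |(W : ℤ) * (((T / W : ℕ) : ℤ) - S)| < W := by
        rw [hdiff, abs_lt]; constructor <;> linarith [hq0.1, hq0.2]
      rw [abs_mul, abs_of_nonneg (by omega : (0 : ℤ) ≤ W)] at habs
      have : (W : ℤ) * 1 ≤ W * |((T / W : ℕ) : ℤ) - S| :=
        mul_le_mul_of_nonneg_left hge (by omega)
      linarith
    have hq00 : 0 ≤ q 0 := by
      rw [hz, mul_zero] at hdiff; linarith
    obtain ⟨i1, i2⟩ := ih (fun l => q (l + 1)) (fun l => hq (l + 1)) R (T / W)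
      (by rw [← hS]; linarith) h.2
    refine ⟨fun l hl => ?_, i2⟩
    cases l with
    | zero => exact hq00
    | succ l => exact i1 l (by omega)

lemma dig_all (W H : ℕ) (hW : W = 2 * H) (M n : ℕ) (q : ℕ → ℕ → ℤ)
    (hq : ∀ k l, |q k l| < H) (T : ℕ)
    (hT : (T : ℤ) = ∑ k ∈ range n, (∑ l ∈ range M, q k l * (W : ℤ) ^ l) * ((W : ℤ) ^ M) ^ k)
    (h : dig W H (n * M) T = true) : ∀ k < n, ∀ l < M, 0 ≤ q k l := by
  induction n generalizing q T with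
  | zero => intro k hk; exact absurd hk (Nat.not_lt_zero _)
  | succ n ih =>
    have e : (n + 1) * M = M + n * M := by ring
    rw [e] at h
    obtain ⟨h1, T', hT', h2⟩ := dig_row W H hW M (n * M) (q 0) (hq 0)
      (∑ k ∈ range n, (∑ l ∈ range M, q (k + 1) l * (W : ℤ) ^ l) * ((W : ℤ) ^ M) ^ k) T
      (by
        rw [hT, Finset.sum_range_succ', Finset.mul_sum, add_comm]
        congr 1
        · simp
        · refine Finset.sum_congr rfl (fun k _ => ?_)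
          rw [pow_succ]; ring) h
    have h3 := ih (fun k l => q (k + 1) l) (fun k l => hq (k + 1) l) T' hT' h2
    intro k hk l hl
    cases k with
    | zero => exact h1 l hl
    | succ k => exact h3 k (by omega) l hl

/-- the number test -/
def tst (N W H : ℕ) : ℤ → Bool
  | Int.ofNat v => dig W H ((N + 1) * (N + 1)) v
  | Int.negSucc _ => false

lemma tst_sound {N W H c : ℕ} (hW : W = 2 * H) (hc : c < H) {T0 T1 V0 V1 : ℝ}
    (hT0 : 0 ≤ T0) (hT1 : 0 ≤ T1) (hV0 : 0 ≤ V0) (hV1 : 0 ≤ V1) {v : ℤ} {φ : ℝ}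
    (h : Rp ((W : ℤ) ^ (N + 1)) W T0 T1 V0 V1 N N c v φ) (ht : tst N W H v = true) :
    0 ≤ φ := by
  obtain ⟨L, h1, h2, h3, h4⟩ := h
  cases v with
  | negSucc v => simp [tst] at ht
  | ofNat v =>
    simp only [tst] at ht
    have hpos := dig_all W H hW (N + 1) (N + 1) (qq L)
      (fun k l => lt_of_le_of_lt (qq_abs L k l) (by exact_mod_cast lt_of_le_of_lt h2 hc)) v
      (by
        have h3' : ((v : ℕ) : ℤ) = (L.map (fun t : ℤ × ℕ × ℕ =>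
            t.1 * ((W : ℤ) ^ (N + 1)) ^ t.2.1 * (W : ℤ) ^ t.2.2)).sum := h3
        rw [h3']
        have := grp (R := ℤ) N N L h1 (fun k l => ((W : ℤ) ^ (N + 1)) ^ k * (W : ℤ) ^ l)
        simp only [Int.cast_id] at this
        rw [show (fun t : ℤ × ℕ × ℕ => t.1 * ((W : ℤ) ^ (N + 1)) ^ t.2.1 * (W : ℤ) ^ t.2.2) =
          fun t : ℤ × ℕ × ℕ => t.1 * (((W : ℤ) ^ (N + 1)) ^ t.2.1 * (W : ℤ) ^ t.2.2) from by
            funext t; ring, this]
        refine Finset.sum_congr rfl (fun k _ => ?_)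
        rw [Finset.sum_mul]
        refine Finset.sum_congr rfl (fun l _ => ?_)
        ring) ht
    have h5 := grp (R := ℝ) N N L h1
      (fun k l => (T1 ^ k * T0 ^ (N - k)) * (V1 ^ l * V0 ^ (N - l)))
    rw [h4, show (fun t : ℤ × ℕ × ℕ => (t.1 : ℝ) * (T1 ^ t.2.1 * T0 ^ (N - t.2.1)) *
      (V1 ^ t.2.2 * V0 ^ (N - t.2.2))) = fun t : ℤ × ℕ × ℕ => (t.1 : ℝ) *
      ((T1 ^ t.2.1 * T0 ^ (N - t.2.1)) * (V1 ^ t.2.2 * V0 ^ (N - t.2.2))) from by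
        funext t; ring, h5]
    refine Finset.sum_nonneg (fun k hk => Finset.sum_nonneg (fun l hl => ?_))
    have hkl := hpos k (Finset.mem_range.1 hk) l (Finset.mem_range.1 hl)
    have : (0 : ℝ) ≤ (qq L k l : ℝ) := by exact_mod_cast hkl
    positivity

lemma rrow_ev (y C : ℝ) (l : List ℤ) :
    (rrow (C * y) C l).2 = C ^ l.length ∧ C * (rrow (C * y) C l).1 = C ^ l.length * ev1 y l := by
  induction l with
  | nil => simp [rrow, ev1]
  | cons a l ih =>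
    obtain ⟨i1, i2⟩ := ih
    simp only [rrow, ev1, List.length_cons, i1]
    refine ⟨by ring, ?_⟩
    linear_combination C * y * i2

lemma rpol_ev (x y C : ℝ) (P : List (List ℤ)) (N : ℕ) (hs : shp (N + 1) P = true) :
    C * rpol (C * x) (C * y) C P = C ^ (N + 1) * ev2 x y P := by
  induction P generalizing N with
  | nil => simp [rpol, ev2]
  | cons r P ih =>
    simp only [shp, Bool.and_eq_true] at hs
    have hr : r.length = N + 1 := Nat.eq_of_beq_eq_true hs.1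
    have h1 := (rrow_ev y C r).2
    rw [hr] at h1
    rcases Nat.eq_zero_or_pos N with h0 | hpos
    · subst h0
      have hP : P = [] := by
        cases P with
        | nil => rfl
        | cons a b => have := hs.2; simp [shp] at this
      subst hP
      simp only [rpol, ev2]
      linear_combination h1
    · obtain ⟨m, rfl⟩ : ∃ m, N = m + 1 := ⟨N - 1, by omega⟩
      have h2 := ih m hs.2
      simp only [rpol, ev2]
      linear_combination h1 + C * x * h2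

end Pool.EK71

end

section


/-!
The box test for a 2x2 form (and one more polynomial), and trees of boxes.
-/

namespace Pool.EK71

lemma box_pos {N W H : ℕ} (hW : W = 2 * H) {P : List (List ℤ)} (hs : shp (N + 1) P = true)
    {T0 T1 V0 V1 : ℝ} (hT0 : 0 ≤ T0) (hT1 : 0 ≤ T1) (hV0 : 0 ≤ V0) (hV1 : 0 ≤ V1)
    {cA cB cC : ℕ} {A B C : ℤ} {x y Cφ : ℝ} (hCpos : 0 < Cφ)
    (hA : Mk ((W : ℤ) ^ (N + 1)) W T0 T1 V0 V1 cA A (Cφ * x))
    (hB : Mk ((W : ℤ) ^ (N + 1)) W T0 T1 V0 V1 cB B (Cφ * y))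
    (hC : Mk ((W : ℤ) ^ (N + 1)) W T0 T1 V0 V1 cC C Cφ)
    (hc : npol cA cB cC P < H) (ht : tst N W H (hpol A B C P) = true) : 0 ≤ ev2 x y P := by
  have h1 := tst_sound hW hc hT0 hT1 hV0 hV1 (pol_rp hA hB hC P N hs) ht
  have h2 := rpol_ev x y Cφ P N hs
  have h3 : 0 ≤ Cφ ^ (N + 1) * ev2 x y P := by
    rw [← h2]; exact mul_nonneg hCpos.le h1
  exact nonneg_of_mul_nonneg_right h3 (by positivity)

lemma box_pos2 {N W H : ℕ} (hW : W = 2 * H) {P Q : List (List ℤ)} (hs : shp (N + 1) P = true)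
    (hs' : shp (N + 1) Q = true) (i j : ℤ)
    {T0 T1 V0 V1 : ℝ} (hT0 : 0 ≤ T0) (hT1 : 0 ≤ T1) (hV0 : 0 ≤ V0) (hV1 : 0 ≤ V1)
    {cA cB cC : ℕ} {A B C : ℤ} {x y Cφ : ℝ} (hCpos : 0 < Cφ)
    (hA : Mk ((W : ℤ) ^ (N + 1)) W T0 T1 V0 V1 cA A (Cφ * x))
    (hB : Mk ((W : ℤ) ^ (N + 1)) W T0 T1 V0 V1 cB B (Cφ * y))
    (hC : Mk ((W : ℤ) ^ (N + 1)) W T0 T1 V0 V1 cC C Cφ)
    (hc : i.natAbs * npol cA cB cC P + j.natAbs * npol cA cB cC Q < H)
    (ht : tst N W H (i * hpol A B C P + j * hpol A B C Q) = true) :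
    0 ≤ i * ev2 x y P + j * ev2 x y Q := by
  have h1 := tst_sound hW hc hT0 hT1 hV0 hV1
    (((pol_rp hA hB hC P N hs).smul i).add ((pol_rp hA hB hC Q N hs').smul j)) ht
  have h2 := rpol_ev x y Cφ P N hs
  have h2' := rpol_ev x y Cφ Q N hs'
  have h3 : 0 ≤ Cφ ^ (N + 1) * (i * ev2 x y P + j * ev2 x y Q) := by
    have : Cφ ^ (N + 1) * (i * ev2 x y P + j * ev2 x y Q) =
        Cφ * (i * rpol (Cφ * x) (Cφ * y) Cφ P + j * rpol (Cφ * x) (Cφ * y) Cφ Q) := by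
      linear_combination -(i : ℝ) * h2 - (j : ℝ) * h2'
    rw [this]; exact mul_nonneg hCpos.le h1
  exact nonneg_of_mul_nonneg_right h3 (by positivity)

/-- data of one condition -/
structure Dat where
  N : ℕ
  P11 : List (List ℤ)
  P12 : List (List ℤ)
  P22 : List (List ℤ)
  N' : ℕ
  Q : List (List ℤ)
  H : ℕ

def Dat.shape (D : Dat) : Bool :=
  shp (D.N + 1) D.P11 && shp (D.N + 1) D.P12 && shp (D.N + 1) D.P22 && shp (D.N' + 1) D.Q

/-- what is proved at a point -/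
def Good (D : Dat) (x y : ℝ) : Prop :=
  0 ≤ ev2 x y D.P11 ∧ 0 ≤ ev2 x y D.P22 ∧ (ev2 x y D.P12) ^ 2 ≤ ev2 x y D.P11 * ev2 x y D.P22 ∧
    0 ≤ ev2 x y D.Q

/-- two bilinear products, `kind` selects the three forms -/
def frm (kind : ℕ) (X1 X0 Y1 Y0 : ℤ) : ℤ × ℤ × ℤ :=
  match kind with
  | 0 => (Int.mul X1 Y0, Int.mul X0 Y1, Int.mul X0 Y0)
  | 1 => (Int.mul X1 Y0, Int.mul X1 Y1, Int.mul X0 Y0)
  | 2 => (Int.mul X1 Y1, Int.mul X1 Y0, Int.mul X0 Y0)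
  | _ => (Int.mul (Int.neg X1) Y0, Int.mul X1 Y1, Int.mul X0 Y0)

def nfrm (kind : ℕ) (X1 X0 Y1 Y0 : ℕ) : ℕ × ℕ × ℕ :=
  match kind with
  | 0 => (X1 * Y0, X0 * Y1, X0 * Y0)
  | 1 => (X1 * Y0, X1 * Y1, X0 * Y0)
  | 2 => (X1 * Y1, X1 * Y0, X0 * Y0)
  | _ => (X1 * Y0, X1 * Y1, X0 * Y0)

/-- the test of the four combinations, given the three numbers -/
def four (N W H : ℕ) (l : ℤ) (v11 v12 v22 : ℤ) : Bool :=
  tst N W H (Int.add (Int.mul 16 v11) (Int.mul l v12)) &&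
  tst N W H (Int.add (Int.mul 16 v11) (Int.mul (Int.neg l) v12)) &&
  tst N W H (Int.add (Int.mul l v22) (Int.mul 16 v12)) &&
  tst N W H (Int.add (Int.mul l v22) (Int.mul (-16) v12))

/-- the norm test -/
def nfour (H l c11 c12 c22 : ℕ) : Bool :=
  Nat.blt (16 * c11 + l * c12) H && Nat.blt (l * c22 + 16 * c12) H

/-- test of a box: `x`-part `(a,b,e,g)`, `y`-part `(c,d,e')` -/
def bx (D : Dat) (kind : ℕ) (l : ℕ) (a b e g c d e' : ℤ) : Bool :=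
  let W := 2 * D.H
  let w : ℤ := Int.ofNat W
  let z : ℤ := Int.ofNat (W ^ (D.N + 1))
  let z' : ℤ := Int.ofNat (W ^ (D.N' + 1))
  let Y1 := Int.add c (Int.mul d w)
  let Y0 := Int.add e' (Int.mul e' w)
  let F := frm kind (Int.add a (Int.mul b z)) (Int.add e (Int.mul g z)) Y1 Y0
  let F' := frm kind (Int.add a (Int.mul b z')) (Int.add e (Int.mul g z')) Y1 Y0
  let n := nfrm kind (a.natAbs + b.natAbs) (e.natAbs + g.natAbs) (c.natAbs + d.natAbs)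
    (e'.natAbs + e'.natAbs)
  Nat.blt 0 l &&
  four D.N W D.H (Int.ofNat l) (hpol F.1 F.2.1 F.2.2 D.P11) (hpol F.1 F.2.1 F.2.2 D.P12)
    (hpol F.1 F.2.1 F.2.2 D.P22) &&
  nfour D.H l (npol n.1 n.2.1 n.2.2 D.P11) (npol n.1 n.2.1 n.2.2 D.P12)
    (npol n.1 n.2.1 n.2.2 D.P22) &&
  tst D.N' W D.H (hpol F'.1 F'.2.1 F'.2.2 D.Q) &&
  Nat.blt (npol n.1 n.2.1 n.2.2 D.Q) D.H

lemma good_of {u v w l : ℝ} (hl : 0 < l) (h1 : 0 ≤ 16 * u + l * v) (h2 : 0 ≤ 16 * u + -l * v)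
    (h3 : 0 ≤ l * w + 16 * v) (h4 : 0 ≤ l * w + -16 * v) :
    0 ≤ u ∧ 0 ≤ w ∧ v ^ 2 ≤ u * w := by
  have hu : 0 ≤ u := by linarith
  have hw : 0 ≤ w := by
    have : 0 ≤ l * w := by linarith
    exact nonneg_of_mul_nonneg_right this hl
  refine ⟨hu, hw, ?_⟩
  have a1 : l * |v| ≤ 16 * u := by
    rcases abs_cases v with ⟨h, _⟩ | ⟨h, _⟩ <;> rw [h] <;> linarith
  have a2 : 16 * |v| ≤ l * w := by
    rcases abs_cases v with ⟨h, _⟩ | ⟨h, _⟩ <;> rw [h] <;> linarith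
  have a3 : (l * |v|) * (16 * |v|) ≤ (16 * u) * (l * w) :=
    mul_le_mul a1 a2 (by positivity) (by positivity)
  have a4 : |v| * |v| = v ^ 2 := by rw [← sq, sq_abs]
  have : (16 * l) * v ^ 2 ≤ (16 * l) * (u * w) := by
    calc (16 * l) * v ^ 2 = (l * |v|) * (16 * |v|) := by rw [← a4]; ring
      _ ≤ _ := a3
      _ = _ := by ring
  exact le_of_mul_le_mul_left this (by positivity)

/-- abstract soundness: the three forms represent `Cφ x`, `Cφ y`, `Cφ` -/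
lemma bx_sound {D : Dat} (hs : D.shape = true) {kind l : ℕ} {a b e g c d e' : ℤ}
    (hb : bx D kind l a b e g c d e' = true) {T0 T1 V0 V1 : ℝ} (hT0 : 0 ≤ T0) (hT1 : 0 ≤ T1)
    (hV0 : 0 ≤ V0) (hV1 : 0 ≤ V1) {x y Cφ : ℝ} (hCpos : 0 < Cφ)
    (hF : ∀ Z W : ℤ,
      Mk Z W T0 T1 V0 V1 (nfrm kind (a.natAbs + b.natAbs) (e.natAbs + g.natAbs)
        (c.natAbs + d.natAbs) (e'.natAbs + e'.natAbs)).1
        (frm kind (a + b * Z) (e + g * Z) (c + d * W) (e' + e' * W)).1 (Cφ * x) ∧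
      Mk Z W T0 T1 V0 V1 (nfrm kind (a.natAbs + b.natAbs) (e.natAbs + g.natAbs)
        (c.natAbs + d.natAbs) (e'.natAbs + e'.natAbs)).2.1
        (frm kind (a + b * Z) (e + g * Z) (c + d * W) (e' + e' * W)).2.1 (Cφ * y) ∧
      Mk Z W T0 T1 V0 V1 (nfrm kind (a.natAbs + b.natAbs) (e.natAbs + g.natAbs)
        (c.natAbs + d.natAbs) (e'.natAbs + e'.natAbs)).2.2
        (frm kind (a + b * Z) (e + g * Z) (c + d * W) (e' + e' * W)).2.2 Cφ) :
    Good D x y := by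
  simp only [bx, Bool.and_eq_true] at hb
  obtain ⟨⟨⟨⟨hl, h4⟩, hn⟩, hq⟩, hqn⟩ := hb
  simp only [four, Bool.and_eq_true] at h4
  obtain ⟨⟨⟨t1, t2⟩, t3⟩, t4⟩ := h4
  simp only [nfour, Bool.and_eq_true] at hn
  obtain ⟨n1, n2⟩ := hn
  have n1 := Eq.mp Nat.blt_eq n1
  have n2 := Eq.mp Nat.blt_eq n2
  have hl := Eq.mp Nat.blt_eq hl
  have hqn := Eq.mp Nat.blt_eq hqn
  simp only [Dat.shape, Bool.and_eq_true] at hs
  obtain ⟨⟨⟨s11, s12⟩, s22⟩, sQ⟩ := hs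
  have hW : 2 * D.H = 2 * D.H := rfl
  have cW : (Int.ofNat (2 * D.H) : ℤ) = ((2 * D.H : ℕ) : ℤ) := rfl
  have cZ : (Int.ofNat ((2 * D.H) ^ (D.N + 1)) : ℤ) = ((2 * D.H : ℕ) : ℤ) ^ (D.N + 1) := by
    show (((2 * D.H) ^ (D.N + 1) : ℕ) : ℤ) = _
    push_cast; ring
  have cZ' : (Int.ofNat ((2 * D.H) ^ (D.N' + 1)) : ℤ) = ((2 * D.H : ℕ) : ℤ) ^ (D.N' + 1) := by
    show (((2 * D.H) ^ (D.N' + 1) : ℕ) : ℤ) = _
    push_cast; ring
  obtain ⟨fA, fB, fC⟩ := hF (((2 * D.H : ℕ) : ℤ) ^ (D.N + 1)) ((2 * D.H : ℕ) : ℤ)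
  obtain ⟨gA, gB, gC⟩ := hF (((2 * D.H : ℕ) : ℤ) ^ (D.N' + 1)) ((2 * D.H : ℕ) : ℤ)
  rw [cW, cZ] at t1 t2 t3 t4
  rw [cW, cZ'] at hq
  have r1 := box_pos2 hW s11 s12 16 (l : ℤ) hT0 hT1 hV0 hV1 hCpos fA fB fC
    (by simpa using n1) t1
  have r2 := box_pos2 hW s11 s12 16 (-(l : ℤ)) hT0 hT1 hV0 hV1 hCpos fA fB fC
    (by simpa using n1) t2
  have r3 := box_pos2 hW s22 s12 (l : ℤ) 16 hT0 hT1 hV0 hV1 hCpos fA fB fC
    (by simpa using n2) t3
  have r4 := box_pos2 hW s22 s12 (l : ℤ) (-16) hT0 hT1 hV0 hV1 hCpos fA fB fC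
    (by simpa using n2) t4
  have r5 := box_pos hW sQ hT0 hT1 hV0 hV1 hCpos gA gB gC hqn hq
  have hl' : (0 : ℝ) < (l : ℝ) := by exact_mod_cast hl
  push_cast at r1 r2 r3 r4
  obtain ⟨g1, g2, g3⟩ := good_of hl' r1 r2 r3 r4
  exact ⟨g1, g2, g3, r5⟩

end Pool.EK71

end

section


/-!
Trees of boxes and the cover of the half plane `y ≥ 0`.
-/

namespace Pool.EK71

/-- `Mk` for the four kinds of forms -/
lemma mk_frm {Z W : ℤ} {T0 T1 V0 V1 : ℝ} (a b e g c d e' : ℤ) {X1 X0 Y1 Y0 : ℝ}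
    (hX1 : X1 = a * T0 + b * T1) (hX0 : X0 = e * T0 + g * T1) (hY1 : Y1 = c * V0 + d * V1)
    (hY0 : Y0 = e' * V0 + e' * V1) :
    Mk Z W T0 T1 V0 V1 ((a.natAbs + b.natAbs) * (e'.natAbs + e'.natAbs))
      (Int.mul (a + b * Z) (e' + e' * W)) (X1 * Y0) ∧
    Mk Z W T0 T1 V0 V1 ((e.natAbs + g.natAbs) * (c.natAbs + d.natAbs))
      (Int.mul (e + g * Z) (c + d * W)) (X0 * Y1) ∧
    Mk Z W T0 T1 V0 V1 ((e.natAbs + g.natAbs) * (e'.natAbs + e'.natAbs))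
      (Int.mul (e + g * Z) (e' + e' * W)) (X0 * Y0) ∧
    Mk Z W T0 T1 V0 V1 ((a.natAbs + b.natAbs) * (c.natAbs + d.natAbs))
      (Int.mul (a + b * Z) (c + d * W)) (X1 * Y1) ∧
    Mk Z W T0 T1 V0 V1 ((a.natAbs + b.natAbs) * (e'.natAbs + e'.natAbs))
      (Int.mul (Int.neg (a + b * Z)) (e' + e' * W)) (-X1 * Y0) := by
  subst hX1 hX0 hY1 hY0
  refine ⟨Mk.of a b e' e', Mk.of e g c d, Mk.of e g e' e', Mk.of a b c d, ?_⟩
  have h := Mk.of (Z := Z) (W := W) (T0 := T0) (T1 := T1) (V0 := V0) (V1 := V1) (-a) (-b) e' e'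
  rw [Int.natAbs_neg, Int.natAbs_neg] at h
  have e1 : ((-a) + (-b) * Z) * (e' + e' * W) = Int.mul (Int.neg (a + b * Z)) (e' + e' * W) := by
    show _ = (-(a + b * Z)) * (e' + e' * W)
    ring
  have e2 : (((-a : ℤ) : ℝ) * T0 + ((-b : ℤ) : ℝ) * T1) * ((e' : ℝ) * V0 + e' * V1) =
      -(a * T0 + b * T1) * (e' * V0 + e' * V1) := by push_cast; ring
  rw [e1, e2] at h
  exact h

/-- kind 0: a bounded rectangle `[a/e, b/e] x [c/e, d/e]` -/
lemma good0 {D : Dat} (hs : D.shape = true) {l : ℕ} {a b c d e : ℤ} (he : 0 < e) (hab : a < b)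
    (hcd : c < d) (hb : bx D 0 l a b e e c d e = true) {x y : ℝ} (h1 : (a : ℝ) ≤ e * x)
    (h2 : e * x ≤ (b : ℝ)) (h3 : (c : ℝ) ≤ e * y) (h4 : e * y ≤ (d : ℝ)) : Good D x y := by
  have he' : (0 : ℝ) < e := by exact_mod_cast he
  have hab' : (0 : ℝ) < b - a := by have : (a : ℝ) < b := by exact_mod_cast hab
                                    linarith
  have hcd' : (0 : ℝ) < d - c := by have : (c : ℝ) < d := by exact_mod_cast hcd
                                    linarith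
  refine bx_sound hs hb (T0 := b - e * x) (T1 := e * x - a) (V0 := d - e * y) (V1 := e * y - c)
    (by linarith) (by linarith) (by linarith) (by linarith)
    (Cφ := (e * (b - a)) * (e * (d - c))) (by positivity) (fun Z W => ?_)
  obtain ⟨p1, p2, p3, _, _⟩ := mk_frm (Z := Z) (W := W) (T0 := b - e * x) (T1 := e * x - a)
    (V0 := d - e * y) (V1 := e * y - c) a b e e c d e (X1 := (b - a) * (e * x))
    (X0 := e * (b - a)) (Y1 := (d - c) * (e * y)) (Y0 := e * (d - c)) (by ring) (by ring)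
    (by ring) (by ring)
  refine ⟨?_, ?_, ?_⟩
  · rw [show (e * (b - a)) * (e * (d - c)) * x = ((b - a) * (e * x)) * (e * (d - c) : ℝ) by ring]
    exact p1
  · rw [show (e * (b - a)) * (e * (d - c)) * y = (e * (b - a)) * ((d - c) * (e * y) : ℝ) by ring]
    exact p2
  · exact p3

/-- kind 1: `x ≥ 1`, `c x ≤ y ≤ d x`, `d - c = 1` -/
lemma good1 {D : Dat} (hs : D.shape = true) {l : ℕ} {c d : ℤ} (hcd : d = c + 1)
    (hb : bx D 1 l 1 1 1 0 c d 1 = true) {x y : ℝ} (h1 : 1 ≤ x)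
    (h3 : (c : ℝ) * x ≤ y) (h4 : y ≤ (d : ℝ) * x) : Good D x y := by
  have hd : (d : ℝ) = c + 1 := by exact_mod_cast hcd
  refine bx_sound hs hb (T0 := 1) (T1 := x - 1) (V0 := d * x - y) (V1 := y - c * x)
    (by linarith) (by linarith) (by linarith) (by linarith)
    (Cφ := x) (by linarith) (fun Z W => ?_)
  obtain ⟨p1, _, p3, p4, _⟩ := mk_frm (Z := Z) (W := W) (T0 := 1) (T1 := x - 1)
    (V0 := d * x - y) (V1 := y - c * x) 1 1 1 0 c d 1 (X1 := x)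
    (X0 := 1) (Y1 := y) (Y0 := x) (by push_cast; ring) (by push_cast; ring)
    (by rw [hd]; ring) (by rw [hd]; push_cast; ring)
  refine ⟨p1, p4, ?_⟩
  rw [show (1 : ℝ) * x = x from one_mul x] at p3
  exact p3

/-- kind 2: `y ≥ 1`, `c y ≤ x ≤ d y`, `d - c = 1` -/
lemma good2 {D : Dat} (hs : D.shape = true) {l : ℕ} {c d : ℤ} (hcd : d = c + 1)
    (hb : bx D 2 l 1 1 1 0 c d 1 = true) {x y : ℝ} (h1 : 1 ≤ y)
    (h3 : (c : ℝ) * y ≤ x) (h4 : x ≤ (d : ℝ) * y) : Good D x y := by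
  have hd : (d : ℝ) = c + 1 := by exact_mod_cast hcd
  refine bx_sound hs hb (T0 := 1) (T1 := y - 1) (V0 := d * y - x) (V1 := x - c * y)
    (by linarith) (by linarith) (by linarith) (by linarith)
    (Cφ := y) (by linarith) (fun Z W => ?_)
  obtain ⟨p1, _, p3, p4, _⟩ := mk_frm (Z := Z) (W := W) (T0 := 1) (T1 := y - 1)
    (V0 := d * y - x) (V1 := x - c * y) 1 1 1 0 c d 1 (X1 := y)
    (X0 := 1) (Y1 := x) (Y0 := y) (by push_cast; ring) (by push_cast; ring)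
    (by rw [hd]; ring) (by rw [hd]; push_cast; ring)
  refine ⟨p4, p1, ?_⟩
  rw [show (1 : ℝ) * y = y from one_mul y] at p3
  exact p3

/-- kind 3: `x ≤ -1`, `0 ≤ y ≤ -x` -/
lemma good3 {D : Dat} (hs : D.shape = true) {l : ℕ}
    (hb : bx D 3 l 1 1 1 0 0 1 1 = true) {x y : ℝ} (h1 : x ≤ -1)
    (h3 : 0 ≤ y) (h4 : y ≤ -x) : Good D x y := by
  refine bx_sound hs hb (T0 := 1) (T1 := -x - 1) (V0 := -x - y) (V1 := y)
    (by linarith) (by linarith) (by linarith) (by linarith)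
    (Cφ := -x) (by linarith) (fun Z W => ?_)
  obtain ⟨_, _, p3, p4, p5⟩ := mk_frm (Z := Z) (W := W) (T0 := 1) (T1 := -x - 1)
    (V0 := -x - y) (V1 := y) 1 1 1 0 0 1 1 (X1 := -x)
    (X0 := 1) (Y1 := y) (Y0 := -x) (by push_cast; ring) (by push_cast; ring)
    (by push_cast; ring) (by push_cast; ring)
  refine ⟨?_, p4, ?_⟩
  · rw [show -x * x = -(-x) * (-x) by ring]
    exact p5
  · rw [show (1 : ℝ) * -x = -x from one_mul (-x)] at p3
    exact p3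

/-- trees of boxes; a leaf carries `16 λ` -/
inductive Tree where
  | leaf (l : ℕ) : Tree
  | sx (m : ℤ) (t u : Tree) : Tree
  | sy (m : ℤ) (t u : Tree) : Tree

def ilt (a b : ℤ) : Bool := decide (a < b)

def chk (D : Dat) (e : ℤ) : Tree → ℤ → ℤ → ℤ → ℤ → Bool
  | .leaf l, a, b, c, d => ilt a b && (ilt c d && bx D 0 l a b e e c d e)
  | .sx m t u, a, b, c, d => chk D e t a m c d && chk D e u m b c d
  | .sy m t u, a, b, c, d => chk D e t a b c m && chk D e u a b m d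

lemma chk_sound {D : Dat} (hs : D.shape = true) {e : ℤ} (he : 0 < e) (t : Tree) (a b c d : ℤ)
    (h : chk D e t a b c d = true) {x y : ℝ} (h1 : (a : ℝ) ≤ e * x)
    (h2 : e * x ≤ (b : ℝ)) (h3 : (c : ℝ) ≤ e * y) (h4 : e * y ≤ (d : ℝ)) : Good D x y := by
  induction t generalizing a b c d with
  | leaf l =>
    simp only [chk, Bool.and_eq_true, ilt, decide_eq_true_eq] at h
    exact good0 hs he h.1 h.2.1 h.2.2 h1 h2 h3 h4
  | sx m t u iht ihu =>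
    simp only [chk, Bool.and_eq_true] at h
    rcases le_total (e * x) (m : ℝ) with h5 | h5
    · exact iht a m c d h.1 h1 h5 h3 h4
    · exact ihu m b c d h.2 h5 h2 h3 h4
  | sy m t u iht ihu =>
    simp only [chk, Bool.and_eq_true] at h
    rcases le_total (e * y) (m : ℝ) with h5 | h5
    · exact iht a b c m h.1 h1 h2 h3 h5
    · exact ihu a b m d h.2 h1 h2 h5 h4

/-- the cover of the half plane -/
lemma cover {D : Dat} (hs : D.shape = true) (t : Tree) (l1 l2 l2' l3 : ℕ)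
    (h0 : chk D 32 t (-32) 32 0 32 = true)
    (h1 : bx D 1 l1 1 1 1 0 0 1 1 = true)
    (h2 : bx D 2 l2 1 1 1 0 (-1) 0 1 = true)
    (h2' : bx D 2 l2' 1 1 1 0 0 1 1 = true)
    (h3 : bx D 3 l3 1 1 1 0 0 1 1 = true) (x y : ℝ) (hy : 0 ≤ y) : Good D x y := by
  rcases le_total y 1 with hy1 | hy1
  · rcases le_total x 1 with hx1 | hx1
    · rcases le_total (-1) x with hx2 | hx2
      · exact chk_sound hs (by norm_num) t _ _ _ _ h0 (by push_cast; linarith)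
          (by push_cast; linarith) (by push_cast; linarith) (by push_cast; linarith)
      · exact good3 hs h3 hx2 hy (by linarith)
    · exact good1 hs (by norm_num) h1 hx1 (by push_cast; linarith) (by push_cast; linarith)
  · rcases le_total x y with hxy | hxy
    · rcases le_total (-y) x with hxy' | hxy'
      · rcases le_total 0 x with hx0 | hx0
        · exact good2 hs (by norm_num) h2' hy1 (by push_cast; linarith) (by push_cast; linarith)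
        · exact good2 hs (by norm_num) h2 hy1 (by push_cast; linarith) (by push_cast; linarith)
      · exact good3 hs h3 (by linarith) hy (by linarith)
    · exact good1 hs (by norm_num) h1 (by linarith) (by push_cast; linarith)
        (by push_cast; linarith)

end Pool.EK71

end

section


/-!
Trees of boxes for the whole plane: kind 0 is a rectangle in `(x, y)`, kinds 1 to 4 are
rectangles in `(τ, v)` with `x = 1/τ, y = v/τ` and its images.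
-/

namespace Pool.EK71

def frm2 (kind : ℕ) (X1 X0 Y1 Y0 : ℤ) : ℤ × ℤ × ℤ :=
  match kind with
  | 0 => (Int.mul X1 Y0, Int.mul X0 Y1, Int.mul X0 Y0)
  | 1 => (Int.mul X0 Y0, Int.mul X0 Y1, Int.mul X1 Y0)
  | 2 => (Int.mul X0 Y1, Int.mul X0 Y0, Int.mul X1 Y0)
  | 3 => (Int.mul (Int.neg X0) Y0, Int.mul X0 Y1, Int.mul X1 Y0)
  | _ => (Int.mul X0 Y1, Int.mul (Int.neg X0) Y0, Int.mul X1 Y0)

def nfrm2 (kind : ℕ) (X1 X0 Y1 Y0 : ℕ) : ℕ × ℕ × ℕ :=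
  match kind with
  | 0 => (X1 * Y0, X0 * Y1, X0 * Y0)
  | 1 => (X0 * Y0, X0 * Y1, X1 * Y0)
  | 2 => (X0 * Y1, X0 * Y0, X1 * Y0)
  | 3 => (X0 * Y0, X0 * Y1, X1 * Y0)
  | _ => (X0 * Y1, X0 * Y0, X1 * Y0)

/-- test of the box `[a/e, b/e] × [c/e, d/e]` -/
def bx2 (D : Dat) (kind : ℕ) (e : ℤ) (l : ℕ) (a b c d : ℤ) : Bool :=
  let W := 2 * D.H
  let w : ℤ := Int.ofNat W
  let z : ℤ := Int.ofNat (W ^ (D.N + 1))
  let z' : ℤ := Int.ofNat (W ^ (D.N' + 1))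
  let Y1 := Int.add c (Int.mul d w)
  let Y0 := Int.add e (Int.mul e w)
  let F := frm2 kind (Int.add a (Int.mul b z)) (Int.add e (Int.mul e z)) Y1 Y0
  let F' := frm2 kind (Int.add a (Int.mul b z')) (Int.add e (Int.mul e z')) Y1 Y0
  let n := nfrm2 kind (a.natAbs + b.natAbs) (e.natAbs + e.natAbs) (c.natAbs + d.natAbs)
    (e.natAbs + e.natAbs)
  Nat.blt 0 l &&
  four D.N W D.H (Int.ofNat l) (hpol F.1 F.2.1 F.2.2 D.P11) (hpol F.1 F.2.1 F.2.2 D.P12)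
    (hpol F.1 F.2.1 F.2.2 D.P22) &&
  nfour D.H l (npol n.1 n.2.1 n.2.2 D.P11) (npol n.1 n.2.1 n.2.2 D.P12)
    (npol n.1 n.2.1 n.2.2 D.P22) &&
  tst D.N' W D.H (hpol F'.1 F'.2.1 F'.2.2 D.Q) &&
  Nat.blt (npol n.1 n.2.1 n.2.2 D.Q) D.H

/-- abstract soundness -/
lemma bx2_sound {D : Dat} (hs : D.shape = true) {kind l : ℕ} {e a b c d : ℤ}
    (hb : bx2 D kind e l a b c d = true) {T0 T1 V0 V1 : ℝ} (hT0 : 0 ≤ T0) (hT1 : 0 ≤ T1)
    (hV0 : 0 ≤ V0) (hV1 : 0 ≤ V1) {x y Cφ : ℝ} (hCpos : 0 < Cφ)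
    (hF : ∀ Z W : ℤ,
      Mk Z W T0 T1 V0 V1 (nfrm2 kind (a.natAbs + b.natAbs) (e.natAbs + e.natAbs)
        (c.natAbs + d.natAbs) (e.natAbs + e.natAbs)).1
        (frm2 kind (a + b * Z) (e + e * Z) (c + d * W) (e + e * W)).1 (Cφ * x) ∧
      Mk Z W T0 T1 V0 V1 (nfrm2 kind (a.natAbs + b.natAbs) (e.natAbs + e.natAbs)
        (c.natAbs + d.natAbs) (e.natAbs + e.natAbs)).2.1
        (frm2 kind (a + b * Z) (e + e * Z) (c + d * W) (e + e * W)).2.1 (Cφ * y) ∧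
      Mk Z W T0 T1 V0 V1 (nfrm2 kind (a.natAbs + b.natAbs) (e.natAbs + e.natAbs)
        (c.natAbs + d.natAbs) (e.natAbs + e.natAbs)).2.2
        (frm2 kind (a + b * Z) (e + e * Z) (c + d * W) (e + e * W)).2.2 Cφ) :
    Good D x y := by
  simp only [bx2, Bool.and_eq_true] at hb
  obtain ⟨⟨⟨⟨hl, h4⟩, hn⟩, hq⟩, hqn⟩ := hb
  simp only [four, Bool.and_eq_true] at h4
  obtain ⟨⟨⟨t1, t2⟩, t3⟩, t4⟩ := h4
  simp only [nfour, Bool.and_eq_true] at hn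
  obtain ⟨n1, n2⟩ := hn
  have n1 := Eq.mp Nat.blt_eq n1
  have n2 := Eq.mp Nat.blt_eq n2
  have hl := Eq.mp Nat.blt_eq hl
  have hqn := Eq.mp Nat.blt_eq hqn
  simp only [Dat.shape, Bool.and_eq_true] at hs
  obtain ⟨⟨⟨s11, s12⟩, s22⟩, sQ⟩ := hs
  have hW : 2 * D.H = 2 * D.H := rfl
  have cW : (Int.ofNat (2 * D.H) : ℤ) = ((2 * D.H : ℕ) : ℤ) := rfl
  have cZ : (Int.ofNat ((2 * D.H) ^ (D.N + 1)) : ℤ) = ((2 * D.H : ℕ) : ℤ) ^ (D.N + 1) := by
    show (((2 * D.H) ^ (D.N + 1) : ℕ) : ℤ) = _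
    push_cast; ring
  have cZ' : (Int.ofNat ((2 * D.H) ^ (D.N' + 1)) : ℤ) = ((2 * D.H : ℕ) : ℤ) ^ (D.N' + 1) := by
    show (((2 * D.H) ^ (D.N' + 1) : ℕ) : ℤ) = _
    push_cast; ring
  obtain ⟨fA, fB, fC⟩ := hF (((2 * D.H : ℕ) : ℤ) ^ (D.N + 1)) ((2 * D.H : ℕ) : ℤ)
  obtain ⟨gA, gB, gC⟩ := hF (((2 * D.H : ℕ) : ℤ) ^ (D.N' + 1)) ((2 * D.H : ℕ) : ℤ)
  rw [cW, cZ] at t1 t2 t3 t4
  rw [cW, cZ'] at hq
  have r1 := box_pos2 hW s11 s12 16 (l : ℤ) hT0 hT1 hV0 hV1 hCpos fA fB fC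
    (by simpa using n1) t1
  have r2 := box_pos2 hW s11 s12 16 (-(l : ℤ)) hT0 hT1 hV0 hV1 hCpos fA fB fC
    (by simpa using n1) t2
  have r3 := box_pos2 hW s22 s12 (l : ℤ) 16 hT0 hT1 hV0 hV1 hCpos fA fB fC
    (by simpa using n2) t3
  have r4 := box_pos2 hW s22 s12 (l : ℤ) (-16) hT0 hT1 hV0 hV1 hCpos fA fB fC
    (by simpa using n2) t4
  have r5 := box_pos hW sQ hT0 hT1 hV0 hV1 hCpos gA gB gC hqn hq
  have hl' : (0 : ℝ) < (l : ℝ) := by exact_mod_cast hl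
  push_cast at r1 r2 r3 r4
  obtain ⟨g1, g2, g3⟩ := good_of hl' r1 r2 r3 r4
  exact ⟨g1, g2, g3, r5⟩

/-- the point of kind `kind` with parameters `(p, v)` -/
def At (kind : ℕ) (p v x y : ℝ) : Prop :=
  match kind with
  | 0 => x = p ∧ y = v
  | 1 => 0 < p ∧ p * x = 1 ∧ p * y = v
  | 2 => 0 < p ∧ p * x = v ∧ p * y = 1
  | 3 => 0 < p ∧ p * x = -1 ∧ p * y = v
  | _ => 0 < p ∧ p * x = v ∧ p * y = -1

lemma good_box {D : Dat} (hs : D.shape = true) {kind l : ℕ} {a b c d e : ℤ} (he : 0 < e)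
    (hab : a < b) (hcd : c < d) (hb : bx2 D kind e l a b c d = true) {p v x y : ℝ}
    (hA : At kind p v x y) (h1 : (a : ℝ) ≤ e * p)
    (h2 : e * p ≤ (b : ℝ)) (h3 : (c : ℝ) ≤ e * v) (h4 : e * v ≤ (d : ℝ)) : Good D x y := by
  have he' : (0 : ℝ) < e := by exact_mod_cast he
  have hab' : (0 : ℝ) < b - a := by have : (a : ℝ) < b := by exact_mod_cast hab
                                    linarith
  have hcd' : (0 : ℝ) < d - c := by have : (c : ℝ) < d := by exact_mod_cast hcd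
                                    linarith
  have key : ∀ Z W : ℤ,
    Mk Z W (b - e * p) (e * p - a) (d - e * v) (e * v - c)
      ((a.natAbs + b.natAbs) * (e.natAbs + e.natAbs))
      (Int.mul (a + b * Z) (e + e * W)) (((b - a) * (e * p)) * (e * (d - c))) ∧
    Mk Z W (b - e * p) (e * p - a) (d - e * v) (e * v - c)
      ((e.natAbs + e.natAbs) * (c.natAbs + d.natAbs))
      (Int.mul (e + e * Z) (c + d * W)) ((e * (b - a)) * ((d - c) * (e * v))) ∧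
    Mk Z W (b - e * p) (e * p - a) (d - e * v) (e * v - c)
      ((e.natAbs + e.natAbs) * (e.natAbs + e.natAbs))
      (Int.mul (e + e * Z) (e + e * W)) ((e * (b - a)) * (e * (d - c))) ∧
    Mk Z W (b - e * p) (e * p - a) (d - e * v) (e * v - c)
      ((e.natAbs + e.natAbs) * (e.natAbs + e.natAbs))
      (Int.mul (Int.neg (e + e * Z)) (e + e * W)) (-((e * (b - a)) * (e * (d - c)))) := by
    intro Z W
    obtain ⟨p1, p2, p3, _, _⟩ := mk_frm (Z := Z) (W := W) (T0 := b - e * p) (T1 := e * p - a)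
      (V0 := d - e * v) (V1 := e * v - c) a b e e c d e (X1 := (b - a) * (e * p))
      (X0 := e * (b - a)) (Y1 := (d - c) * (e * v)) (Y0 := e * (d - c)) (by ring) (by ring)
      (by ring) (by ring)
    obtain ⟨_, _, _, _, p5⟩ := mk_frm (Z := Z) (W := W) (T0 := b - e * p) (T1 := e * p - a)
      (V0 := d - e * v) (V1 := e * v - c) e e e e c d e (X1 := e * (b - a))
      (X0 := e * (b - a)) (Y1 := (d - c) * (e * v)) (Y0 := e * (d - c)) (by ring) (by ring)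
      (by ring) (by ring)
    refine ⟨p1, p2, p3, ?_⟩
    rw [show -((e * (b - a)) * (e * (d - c)) : ℝ) = -(e * (b - a)) * (e * (d - c)) by ring]
    exact p5
  match kind, hA, hb with
  | 0, hA, hb =>
    obtain ⟨rfl, rfl⟩ := hA
    refine bx2_sound hs hb (T0 := b - e * x) (T1 := e * x - a) (V0 := d - e * y)
      (V1 := e * y - c) (by linarith) (by linarith) (by linarith) (by linarith)
      (Cφ := (e * (b - a)) * (e * (d - c))) (by positivity) (fun Z W => ?_)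
    obtain ⟨p1, p2, p3, _⟩ := key Z W
    refine ⟨?_, ?_, p3⟩
    · rw [show (e * (b - a)) * (e * (d - c)) * x = ((b - a) * (e * x)) * (e * (d - c) : ℝ)
        by ring]
      exact p1
    · rw [show (e * (b - a)) * (e * (d - c)) * y = (e * (b - a)) * ((d - c) * (e * y) : ℝ)
        by ring]
      exact p2
  | 1, hA, hb =>
    obtain ⟨hp, e1, e2⟩ := hA
    refine bx2_sound hs hb (T0 := b - e * p) (T1 := e * p - a) (V0 := d - e * v)
      (V1 := e * v - c) (by linarith) (by linarith) (by linarith) (by linarith)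
      (Cφ := ((b - a) * (e * p)) * (e * (d - c))) (by positivity) (fun Z W => ?_)
    obtain ⟨p1, p2, p3, _⟩ := key Z W
    refine ⟨?_, ?_, p1⟩
    · rw [show ((b - a) * (e * p)) * (e * (d - c)) * x = (e * (b - a)) * (e * (d - c) : ℝ)
        by linear_combination (e * (b - a)) * (e * (d - c)) * e1]
      exact p3
    · rw [show ((b - a) * (e * p)) * (e * (d - c)) * y = (e * (b - a)) * ((d - c) * (e * v) : ℝ)
        by linear_combination (e * (b - a)) * (e * (d - c)) * e2]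
      exact p2
  | 2, hA, hb =>
    obtain ⟨hp, e1, e2⟩ := hA
    refine bx2_sound hs hb (T0 := b - e * p) (T1 := e * p - a) (V0 := d - e * v)
      (V1 := e * v - c) (by linarith) (by linarith) (by linarith) (by linarith)
      (Cφ := ((b - a) * (e * p)) * (e * (d - c))) (by positivity) (fun Z W => ?_)
    obtain ⟨p1, p2, p3, _⟩ := key Z W
    refine ⟨?_, ?_, p1⟩
    · rw [show ((b - a) * (e * p)) * (e * (d - c)) * x = (e * (b - a)) * ((d - c) * (e * v) : ℝ)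
        by linear_combination (e * (b - a)) * (e * (d - c)) * e1]
      exact p2
    · rw [show ((b - a) * (e * p)) * (e * (d - c)) * y = (e * (b - a)) * (e * (d - c) : ℝ)
        by linear_combination (e * (b - a)) * (e * (d - c)) * e2]
      exact p3
  | 3, hA, hb =>
    obtain ⟨hp, e1, e2⟩ := hA
    refine bx2_sound hs hb (T0 := b - e * p) (T1 := e * p - a) (V0 := d - e * v)
      (V1 := e * v - c) (by linarith) (by linarith) (by linarith) (by linarith)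
      (Cφ := ((b - a) * (e * p)) * (e * (d - c))) (by positivity) (fun Z W => ?_)
    obtain ⟨p1, p2, _, p4⟩ := key Z W
    refine ⟨?_, ?_, p1⟩
    · rw [show ((b - a) * (e * p)) * (e * (d - c)) * x = -((e * (b - a)) * (e * (d - c)) : ℝ)
        by linear_combination (e * (b - a)) * (e * (d - c)) * e1]
      exact p4
    · rw [show ((b - a) * (e * p)) * (e * (d - c)) * y = (e * (b - a)) * ((d - c) * (e * v) : ℝ)
        by linear_combination (e * (b - a)) * (e * (d - c)) * e2]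
      exact p2
  | (n + 4), hA, hb =>
    obtain ⟨hp, e1, e2⟩ := hA
    refine bx2_sound hs hb (T0 := b - e * p) (T1 := e * p - a) (V0 := d - e * v)
      (V1 := e * v - c) (by linarith) (by linarith) (by linarith) (by linarith)
      (Cφ := ((b - a) * (e * p)) * (e * (d - c))) (by positivity) (fun Z W => ?_)
    obtain ⟨p1, p2, _, p4⟩ := key Z W
    refine ⟨?_, ?_, p1⟩
    · rw [show ((b - a) * (e * p)) * (e * (d - c)) * x = (e * (b - a)) * ((d - c) * (e * v) : ℝ)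
        by linear_combination (e * (b - a)) * (e * (d - c)) * e1]
      exact p2
    · rw [show ((b - a) * (e * p)) * (e * (d - c)) * y = -((e * (b - a)) * (e * (d - c)) : ℝ)
        by linear_combination (e * (b - a)) * (e * (d - c)) * e2]
      exact p4

def chk2 (D : Dat) (kind : ℕ) (e : ℤ) : Tree → ℤ → ℤ → ℤ → ℤ → Bool
  | .leaf l, a, b, c, d => ilt a b && (ilt c d && bx2 D kind e l a b c d)
  | .sx m t u, a, b, c, d => chk2 D kind e t a m c d && chk2 D kind e u m b c d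
  | .sy m t u, a, b, c, d => chk2 D kind e t a b c m && chk2 D kind e u a b m d

lemma chk2_sound {D : Dat} (hs : D.shape = true) {kind : ℕ} {e : ℤ} (he : 0 < e) (t : Tree)
    (a b c d : ℤ) (h : chk2 D kind e t a b c d = true) {p v x y : ℝ} (hA : At kind p v x y)
    (h1 : (a : ℝ) ≤ e * p) (h2 : e * p ≤ (b : ℝ)) (h3 : (c : ℝ) ≤ e * v)
    (h4 : e * v ≤ (d : ℝ)) : Good D x y := by
  induction t generalizing a b c d with
  | leaf l =>
    simp only [chk2, Bool.and_eq_true, ilt, decide_eq_true_eq] at h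
    exact good_box hs he h.1 h.2.1 h.2.2 hA h1 h2 h3 h4
  | sx m t u iht ihu =>
    simp only [chk2, Bool.and_eq_true] at h
    rcases le_total (e * p) (m : ℝ) with h5 | h5
    · exact iht a m c d h.1 h1 h5 h3 h4
    · exact ihu m b c d h.2 h5 h2 h3 h4
  | sy m t u iht ihu =>
    simp only [chk2, Bool.and_eq_true] at h
    rcases le_total (e * v) (m : ℝ) with h5 | h5
    · exact iht a b c m h.1 h1 h2 h3 h5
    · exact ihu a b m d h.2 h1 h2 h5 h4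

/-- the cover of the plane -/
lemma cover2 {D : Dat} (hs : D.shape = true) (e : ℤ) (he : 0 < e) (t0 t1 t2 t3 t4 : Tree)
    (h0 : chk2 D 0 e t0 (-e) e (-e) e = true)
    (h1 : chk2 D 1 e t1 0 e (-e) e = true)
    (h2 : chk2 D 2 e t2 0 e (-e) e = true)
    (h3 : chk2 D 3 e t3 0 e (-e) e = true)
    (h4 : chk2 D 4 e t4 0 e (-e) e = true) (x y : ℝ) : Good D x y := by
  have he' : (0 : ℝ) < e := by exact_mod_cast he
  have fin : ∀ (kind : ℕ) (t : Tree), chk2 D kind e t 0 e (-e) e = true → ∀ w : ℝ, 1 ≤ w →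
      ∀ v : ℝ, |v| ≤ w → At kind (1 / w) (v / w) x y → Good D x y := by
    intro kind t ht w hw v hv hA
    have hw0 : 0 < w := by linarith
    obtain ⟨hv1, hv2⟩ := abs_le.1 hv
    have b1 : 0 ≤ 1 / w := by positivity
    have b2 : 1 / w ≤ 1 := by rw [div_le_one hw0]; exact hw
    have b3 : -1 ≤ v / w := by rw [le_div_iff₀ hw0]; linarith
    have b4 : v / w ≤ 1 := by rw [div_le_one hw0]; exact hv2
    refine chk2_sound hs he t _ _ _ _ ht hA ?_ ?_ ?_ ?_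
    · push_cast; positivity
    · nlinarith
    · push_cast; nlinarith
    · nlinarith
  rcases le_total |x| |y| with hxy | hxy
  · rcases le_total |y| 1 with hy | hy
    · obtain ⟨y1, y2⟩ := abs_le.1 hy
      obtain ⟨x1, x2⟩ := abs_le.1 (hxy.trans hy)
      exact chk2_sound hs he t0 _ _ _ _ h0 (p := x) (v := y) ⟨rfl, rfl⟩
        (by push_cast; nlinarith) (by nlinarith) (by push_cast; nlinarith) (by nlinarith)
    · rcases abs_cases y with ⟨hy', _⟩ | ⟨hy', _⟩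
      · rw [hy'] at hy hxy
        refine fin 2 t2 h2 y hy x hxy ⟨by positivity, ?_, ?_⟩
        · ring
        · field_simp
      · rw [hy'] at hy hxy
        have hy0 : y ≠ 0 := by intro h0; rw [h0] at hy; norm_num at hy
        refine fin 4 t4 h4 (-y) hy x hxy ⟨by positivity, ?_, ?_⟩
        · ring
        · field_simp
  · rcases le_total |x| 1 with hx | hx
    · obtain ⟨x1, x2⟩ := abs_le.1 hx
      obtain ⟨y1, y2⟩ := abs_le.1 (hxy.trans hx)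
      exact chk2_sound hs he t0 _ _ _ _ h0 (p := x) (v := y) ⟨rfl, rfl⟩
        (by push_cast; nlinarith) (by nlinarith) (by push_cast; nlinarith) (by nlinarith)
    · rcases abs_cases x with ⟨hx', _⟩ | ⟨hx', _⟩
      · rw [hx'] at hx hxy
        refine fin 1 t1 h1 x hx y hxy ⟨by positivity, ?_, ?_⟩
        · field_simp
        · ring
      · rw [hx'] at hx hxy
        have hx0 : x ≠ 0 := by intro h0; rw [h0] at hx; norm_num at hx
        refine fin 3 t3 h3 (-x) hx y hxy ⟨by positivity, ?_, ?_⟩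
        · field_simp
        · ring

end Pool.EK71

end

section

set_option autoImplicit false
open Complex
open scoped ComplexConjugate

/-! Project EK, E5: the potentials `U, V, V2, W, W2` of the certificate, with their derivatives
and bounds.  All are `|X-1|^2 * N/D^2`, `D = 1 + 5 |X|^2`, `N` a polynomial in `x = Re X`,
`y = Im X`.  Everything is written with two real variables `x y`. -/

namespace Pool.Agent.Helper2.EK

open Pool.Agent.Helper52.EK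

/-! ### calculus of `C1f` -/

theorem c1_congr {W Wx Wy W' Wx' Wy' : ℂ → ℝ} (h : C1f W Wx Wy) (e : ∀ X, W' X = W X)
    (ex : ∀ X, Wx' X = Wx X) (ey : ∀ X, Wy' X = Wy X) : C1f W' Wx' Wy' := by
  obtain rfl : W' = W := funext e
  obtain rfl : Wx' = Wx := funext ex
  obtain rfl : Wy' = Wy := funext ey
  exact h

theorem c1_const (c : ℝ) : C1f (fun _ => c) (fun _ => 0) (fun _ => 0) := by
  refine ⟨fun X => ?_, continuous_const, continuous_const⟩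
  simpa using hasFDerivAt_const c X

theorem c1_re : C1f (fun X => X.re) (fun _ => 1) (fun _ => 0) := by
  refine ⟨fun X => ?_, continuous_const, continuous_const⟩
  have h : HasFDerivAt (fun X : ℂ => X.re) reCLM X := reCLM.hasFDerivAt
  refine h.congr_fderiv ?_
  ext1 v
  simp

theorem c1_im : C1f (fun X => X.im) (fun _ => 0) (fun _ => 1) := by
  refine ⟨fun X => ?_, continuous_const, continuous_const⟩
  have h : HasFDerivAt (fun X : ℂ => X.im) imCLM X := imCLM.hasFDerivAt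
  refine h.congr_fderiv ?_
  ext1 v
  simp

theorem C1f_cont {W Wx Wy : ℂ → ℝ} (h : C1f W Wx Wy) : Continuous W :=
  continuous_iff_continuousAt.2 fun X => (h.hd X).continuousAt

theorem c1_add {A Ax Ay B Bx By : ℂ → ℝ} (hA : C1f A Ax Ay) (hB : C1f B Bx By) :
    C1f (fun X => A X + B X) (fun X => Ax X + Bx X) (fun X => Ay X + By X) := by
  refine ⟨fun X => ?_, hA.cx.add hB.cx, hA.cy.add hB.cy⟩
  refine ((hA.hd X).add (hB.hd X)).congr_fderiv ?_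
  ext1 v
  simp
  ring

theorem c1_sub {A Ax Ay B Bx By : ℂ → ℝ} (hA : C1f A Ax Ay) (hB : C1f B Bx By) :
    C1f (fun X => A X - B X) (fun X => Ax X - Bx X) (fun X => Ay X - By X) := by
  refine ⟨fun X => ?_, hA.cx.sub hB.cx, hA.cy.sub hB.cy⟩
  refine ((hA.hd X).sub (hB.hd X)).congr_fderiv ?_
  ext1 v
  simp
  ring

theorem c1_mul {A Ax Ay B Bx By : ℂ → ℝ} (hA : C1f A Ax Ay) (hB : C1f B Bx By) :
    C1f (fun X => A X * B X) (fun X => Ax X * B X + A X * Bx X)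
      (fun X => Ay X * B X + A X * By X) := by
  refine ⟨fun X => ?_, (hA.cx.mul (C1f_cont hB)).add ((C1f_cont hA).mul hB.cx),
    (hA.cy.mul (C1f_cont hB)).add ((C1f_cont hA).mul hB.cy)⟩
  refine ((hA.hd X).mul (hB.hd X)).congr_fderiv ?_
  ext1 v
  simp
  ring

theorem c1_inv {B Bx By : ℂ → ℝ} (hB : C1f B Bx By) (h0 : ∀ X, B X ≠ 0) :
    C1f (fun X => (B X)⁻¹) (fun X => -Bx X / B X ^ 2) (fun X => -By X / B X ^ 2) := by
  refine ⟨fun X => ?_, hB.cx.neg.div₀ ((C1f_cont hB).pow 2) fun X => pow_ne_zero 2 (h0 X),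
    hB.cy.neg.div₀ ((C1f_cont hB).pow 2) fun X => pow_ne_zero 2 (h0 X)⟩
  refine ((hasDerivAt_inv (h0 X)).comp_hasFDerivAt X (hB.hd X)).congr_fderiv ?_
  ext1 v
  simp
  ring

/-! ### the potentials, in two real variables -/

/-- `1 + 5 |X|^2` -/
noncomputable def Dp (x y : ℝ) : ℝ := 1 + 5 * (x ^ 2 + y ^ 2)
/-- `|X - 1|^2` -/
noncomputable def Fp (x y : ℝ) : ℝ := (x - 1) ^ 2 + y ^ 2

theorem Dp_ge (x y : ℝ) : 1 ≤ Dp x y := by unfold Dp; nlinarith [sq_nonneg x, sq_nonneg y]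
theorem Dp_pos (x y : ℝ) : 0 < Dp x y := zero_lt_one.trans_le (Dp_ge x y)

/-- `f2 N / D^2` and its partial derivatives, for `N` with derivatives `Nx, Ny` -/
noncomputable def gW (N x y : ℝ) : ℝ := Fp x y * N / Dp x y ^ 2
noncomputable def gWx (N Nx x y : ℝ) : ℝ :=
  ((2 * (x - 1) * N + Fp x y * Nx) * Dp x y - 20 * x * (Fp x y * N)) / Dp x y ^ 3
noncomputable def gWy (N Ny x y : ℝ) : ℝ :=
  ((2 * y * N + Fp x y * Ny) * Dp x y - 20 * y * (Fp x y * N)) / Dp x y ^ 3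

noncomputable def NU (x y : ℝ) : ℝ :=
  27 / 5 * Dp x y ^ 2 - 13 / 2 * x * Dp x y - 6 / 5 - 7 * x ^ 2
noncomputable def NUx (x y : ℝ) : ℝ :=
  108 * x * Dp x y - 13 / 2 * Dp x y - 65 * x ^ 2 - 14 * x
noncomputable def NUy (x y : ℝ) : ℝ := 108 * y * Dp x y - 65 * x * y
noncomputable def NV (_x y : ℝ) : ℝ := -14 * y
noncomputable def NV2 (x y : ℝ) : ℝ :=
  7 / 5 * Dp x y ^ 2 + 7 / 2 * Dp x y - 10 * x * Dp x y - 3 + 7 * x - 22 * x ^ 2
noncomputable def NV2x (x y : ℝ) : ℝ :=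
  28 * x * Dp x y + 35 * x - 10 * Dp x y - 100 * x ^ 2 + 7 - 44 * x
noncomputable def NV2y (x y : ℝ) : ℝ := 28 * y * Dp x y + 35 * y - 100 * x * y
noncomputable def NW (x y : ℝ) : ℝ := 8 * Dp x y + 20 * x * Dp x y + 61 * x ^ 2
noncomputable def NWx (x y : ℝ) : ℝ := 80 * x + 20 * Dp x y + 200 * x ^ 2 + 122 * x
noncomputable def NWy (x y : ℝ) : ℝ := 80 * y + 200 * x * y
noncomputable def NW2 (x y : ℝ) : ℝ := -7 * y * Dp x y
noncomputable def NW2x (x y : ℝ) : ℝ := -70 * x * y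
noncomputable def NW2y (x y : ℝ) : ℝ := -7 * Dp x y - 70 * y ^ 2

/-- `h = f2 NU`, its first derivatives and its Laplacian -/
noncomputable def hh (x y : ℝ) : ℝ := Fp x y * NU x y
noncomputable def hx (x y : ℝ) : ℝ := 2 * (x - 1) * NU x y + Fp x y * NUx x y
noncomputable def hy (x y : ℝ) : ℝ := 2 * y * NU x y + Fp x y * NUy x y
noncomputable def NUxx (x y : ℝ) : ℝ :=
  108 * Dp x y + 1080 * x ^ 2 - 65 * x - 130 * x - 14
noncomputable def NUxy (x y : ℝ) : ℝ := 1080 * x * y - 65 * y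
noncomputable def NUyy (x y : ℝ) : ℝ := 108 * Dp x y + 1080 * y ^ 2 - 65 * x
noncomputable def hLap (x y : ℝ) : ℝ :=
  4 * NU x y + 4 * ((x - 1) * NUx x y + y * NUy x y) + Fp x y * (NUxx x y + NUyy x y)
noncomputable def N4 (x y : ℝ) : ℝ :=
  Dp x y ^ 2 * hLap x y - 40 * Dp x y * (x * hx x y + y * hy x y)
    + hh x y * (600 * (x ^ 2 + y ^ 2) - 40 * Dp x y)

/-! ### the functions of `X` -/

noncomputable def U (X : ℂ) : ℝ := gW (NU X.re X.im) X.re X.im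
noncomputable def Ux (X : ℂ) : ℝ := gWx (NU X.re X.im) (NUx X.re X.im) X.re X.im
noncomputable def Uy (X : ℂ) : ℝ := gWy (NU X.re X.im) (NUy X.re X.im) X.re X.im
noncomputable def LapU (X : ℂ) : ℝ := N4 X.re X.im / Dp X.re X.im ^ 4
noncomputable def V (X : ℂ) : ℝ := gW (NV X.re X.im) X.re X.im
noncomputable def Vx (X : ℂ) : ℝ := gWx (NV X.re X.im) 0 X.re X.im
noncomputable def Vy (X : ℂ) : ℝ := gWy (NV X.re X.im) (-14) X.re X.im
noncomputable def V2 (X : ℂ) : ℝ := gW (NV2 X.re X.im) X.re X.im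
noncomputable def V2x (X : ℂ) : ℝ := gWx (NV2 X.re X.im) (NV2x X.re X.im) X.re X.im
noncomputable def V2y (X : ℂ) : ℝ := gWy (NV2 X.re X.im) (NV2y X.re X.im) X.re X.im
noncomputable def W (X : ℂ) : ℝ := gW (NW X.re X.im) X.re X.im
noncomputable def Wx (X : ℂ) : ℝ := gWx (NW X.re X.im) (NWx X.re X.im) X.re X.im
noncomputable def Wy (X : ℂ) : ℝ := gWy (NW X.re X.im) (NWy X.re X.im) X.re X.im
noncomputable def W2 (X : ℂ) : ℝ := gW (NW2 X.re X.im) X.re X.im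
noncomputable def W2x (X : ℂ) : ℝ := gWx (NW2 X.re X.im) (NW2x X.re X.im) X.re X.im
noncomputable def W2y (X : ℂ) : ℝ := gWy (NW2 X.re X.im) (NW2y X.re X.im) X.re X.im

theorem Fp_eq (X : ℂ) : Fp X.re X.im = ‖X - 1‖ ^ 2 := by
  rw [← Complex.normSq_eq_norm_sq, Complex.normSq_apply]
  simp [Fp]
  ring

/-! ### `C1f` -/

theorem c1_D : C1f (fun X => Dp X.re X.im) (fun X => 10 * X.re) (fun X => 10 * X.im) := by
  refine c1_congr (c1_add (c1_const 1) (c1_mul (c1_const 5)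
    (c1_add (c1_mul c1_re c1_re) (c1_mul c1_im c1_im)))) ?_ ?_ ?_ <;> intro X <;>
    (try simp only [Dp]) <;> ring

theorem c1_F : C1f (fun X => Fp X.re X.im) (fun X => 2 * (X.re - 1)) (fun X => 2 * X.im) := by
  refine c1_congr (c1_add (c1_mul (c1_sub c1_re (c1_const 1)) (c1_sub c1_re (c1_const 1)))
    (c1_mul c1_im c1_im)) ?_ ?_ ?_ <;> intro X <;> (try simp only [Fp]) <;> ring

theorem c1_NU : C1f (fun X => NU X.re X.im) (fun X => NUx X.re X.im) (fun X => NUy X.re X.im) := by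
  refine c1_congr (c1_sub (c1_sub (c1_sub (c1_mul (c1_const (27 / 5)) (c1_mul c1_D c1_D))
    (c1_mul (c1_const (13 / 2)) (c1_mul c1_re c1_D))) (c1_const (6 / 5)))
    (c1_mul (c1_const 7) (c1_mul c1_re c1_re))) ?_ ?_ ?_ <;> intro X <;>
    simp only [NU, NUx, NUy] <;> ring

theorem c1_NUx : C1f (fun X => NUx X.re X.im) (fun X => NUxx X.re X.im)
    (fun X => NUxy X.re X.im) := by
  refine c1_congr (c1_sub (c1_sub (c1_sub (c1_mul (c1_const 108) (c1_mul c1_re c1_D))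
    (c1_mul (c1_const (13 / 2)) c1_D)) (c1_mul (c1_const 65) (c1_mul c1_re c1_re)))
    (c1_mul (c1_const 14) c1_re)) ?_ ?_ ?_ <;> intro X <;>
    simp only [NUx, NUxx, NUxy] <;> ring

theorem c1_NUy : C1f (fun X => NUy X.re X.im) (fun X => NUxy X.re X.im)
    (fun X => NUyy X.re X.im) := by
  refine c1_congr (c1_sub (c1_mul (c1_const 108) (c1_mul c1_im c1_D))
    (c1_mul (c1_const 65) (c1_mul c1_re c1_im))) ?_ ?_ ?_ <;> intro X <;>
    simp only [NUy, NUxy, NUyy] <;> ring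

theorem c1_NV : C1f (fun X => NV X.re X.im) (fun _ => 0) (fun _ => -14) := by
  refine c1_congr (c1_mul (c1_const (-14)) c1_im) ?_ ?_ ?_ <;> intro X <;>
    (try simp only [NV]) <;> ring

theorem c1_NV2 : C1f (fun X => NV2 X.re X.im) (fun X => NV2x X.re X.im)
    (fun X => NV2y X.re X.im) := by
  refine c1_congr (c1_sub (c1_add (c1_sub (c1_sub (c1_add
    (c1_mul (c1_const (7 / 5)) (c1_mul c1_D c1_D)) (c1_mul (c1_const (7 / 2)) c1_D))
    (c1_mul (c1_const 10) (c1_mul c1_re c1_D))) (c1_const 3)) (c1_mul (c1_const 7) c1_re))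
    (c1_mul (c1_const 22) (c1_mul c1_re c1_re))) ?_ ?_ ?_ <;> intro X <;>
    simp only [NV2, NV2x, NV2y] <;> ring

theorem c1_NW : C1f (fun X => NW X.re X.im) (fun X => NWx X.re X.im)
    (fun X => NWy X.re X.im) := by
  refine c1_congr (c1_add (c1_add (c1_mul (c1_const 8) c1_D)
    (c1_mul (c1_const 20) (c1_mul c1_re c1_D))) (c1_mul (c1_const 61) (c1_mul c1_re c1_re)))
    ?_ ?_ ?_ <;> intro X <;> simp only [NW, NWx, NWy] <;> ring

theorem c1_NW2 : C1f (fun X => NW2 X.re X.im) (fun X => NW2x X.re X.im)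
    (fun X => NW2y X.re X.im) := by
  refine c1_congr (c1_mul (c1_const (-7)) (c1_mul c1_im c1_D)) ?_ ?_ ?_ <;> intro X <;>
    simp only [NW2, NW2x, NW2y] <;> ring

/-- `A / D^k` -/
theorem c1_divD {A Ax Ay : ℂ → ℝ} (hA : C1f A Ax Ay) (k : ℕ) :
    C1f (fun X => A X / Dp X.re X.im ^ k)
      (fun X => (Ax X * Dp X.re X.im - 10 * k * X.re * A X) / Dp X.re X.im ^ (k + 1))
      (fun X => (Ay X * Dp X.re X.im - 10 * k * X.im * A X) / Dp X.re X.im ^ (k + 1)) := by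
  induction k with
  | zero =>
    refine c1_congr hA ?_ ?_ ?_ <;> intro X
    · simp
    · have := (Dp_pos X.re X.im).ne'
      field_simp
      simp
    · have := (Dp_pos X.re X.im).ne'
      field_simp
      simp
  | succ k ih =>
    refine c1_congr (c1_mul ih (c1_inv c1_D fun X => (Dp_pos X.re X.im).ne')) ?_ ?_ ?_ <;>
      intro X <;> have := (Dp_pos X.re X.im).ne' <;> push_cast <;> field_simp <;> ring

theorem c1_gW {N Nx Ny : ℂ → ℝ} (hN : C1f N Nx Ny) :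
    C1f (fun X => gW (N X) X.re X.im) (fun X => gWx (N X) (Nx X) X.re X.im)
      (fun X => gWy (N X) (Ny X) X.re X.im) := by
  refine c1_congr (c1_divD (c1_mul c1_F hN) 2) ?_ ?_ ?_ <;> intro X <;>
    simp only [gW, gWx, gWy] <;> norm_num <;> ring

theorem c1_V : C1f V Vx Vy := c1_gW c1_NV
theorem c1_V2 : C1f V2 V2x V2y := c1_gW c1_NV2
theorem c1_W : C1f W Wx Wy := c1_gW c1_NW
theorem c1_W2 : C1f W2 W2x W2y := c1_gW c1_NW2
theorem c1_U : C1f U Ux Uy := c1_gW c1_NU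

theorem c1_hh : C1f (fun X => hh X.re X.im) (fun X => hx X.re X.im) (fun X => hy X.re X.im) := by
  refine c1_congr (c1_mul c1_F c1_NU) ?_ ?_ ?_ <;> intro X <;> simp only [hh, hx, hy]

noncomputable def hxx (x y : ℝ) : ℝ :=
  2 * NU x y + 4 * (x - 1) * NUx x y + Fp x y * NUxx x y
noncomputable def hxy (x y : ℝ) : ℝ :=
  2 * (x - 1) * NUy x y + 2 * y * NUx x y + Fp x y * NUxy x y
noncomputable def hyy (x y : ℝ) : ℝ := 2 * NU x y + 4 * y * NUy x y + Fp x y * NUyy x y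

theorem c1_hx : C1f (fun X => hx X.re X.im) (fun X => hxx X.re X.im)
    (fun X => hxy X.re X.im) := by
  refine c1_congr (c1_add (c1_mul (c1_mul (c1_const 2) (c1_sub c1_re (c1_const 1))) c1_NU)
    (c1_mul c1_F c1_NUx)) ?_ ?_ ?_ <;> intro X <;> simp only [hx, hxx, hxy] <;> ring

theorem c1_hy : C1f (fun X => hy X.re X.im) (fun X => hxy X.re X.im)
    (fun X => hyy X.re X.im) := by
  refine c1_congr (c1_add (c1_mul (c1_mul (c1_const 2) c1_im) c1_NU)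
    (c1_mul c1_F c1_NUy)) ?_ ?_ ?_ <;> intro X <;> simp only [hy, hxy, hyy] <;> ring

theorem c2_U : C2f U Ux Uy LapU := by
  refine ⟨c1_U, ?_⟩
  have a : C1f Ux (fun X => ((hxx X.re X.im * Dp X.re X.im + hx X.re X.im * (10 * X.re)
      - 20 * hh X.re X.im - 20 * X.re * hx X.re X.im) * Dp X.re X.im
      - 30 * X.re * (hx X.re X.im * Dp X.re X.im - 20 * X.re * hh X.re X.im))
        / Dp X.re X.im ^ 4)
      (fun X => ((hxy X.re X.im * Dp X.re X.im + hx X.re X.im * (10 * X.im)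
      - 20 * X.re * hy X.re X.im) * Dp X.re X.im
      - 30 * X.im * (hx X.re X.im * Dp X.re X.im - 20 * X.re * hh X.re X.im))
        / Dp X.re X.im ^ 4) := by
    refine c1_congr (c1_divD (c1_sub (c1_mul c1_hx c1_D)
      (c1_mul (c1_const 20) (c1_mul c1_re c1_hh))) 3) ?_ ?_ ?_ <;> intro X <;>
      simp only [Ux, gWx, hx, hh] <;> norm_num <;> ring
  have b : C1f Uy (fun X => ((hxy X.re X.im * Dp X.re X.im + hy X.re X.im * (10 * X.re)
      - 20 * X.im * hx X.re X.im) * Dp X.re X.im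
      - 30 * X.re * (hy X.re X.im * Dp X.re X.im - 20 * X.im * hh X.re X.im))
        / Dp X.re X.im ^ 4)
      (fun X => ((hyy X.re X.im * Dp X.re X.im + hy X.re X.im * (10 * X.im)
      - 20 * hh X.re X.im - 20 * X.im * hy X.re X.im) * Dp X.re X.im
      - 30 * X.im * (hy X.re X.im * Dp X.re X.im - 20 * X.im * hh X.re X.im))
        / Dp X.re X.im ^ 4) := by
    refine c1_congr (c1_divD (c1_sub (c1_mul c1_hy c1_D)
      (c1_mul (c1_const 20) (c1_mul c1_im c1_hh))) 3) ?_ ?_ ?_ <;> intro X <;>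
      simp only [Uy, gWy, hy, hh] <;> norm_num <;> ring
  refine ⟨_, _, _, a, c1_congr b (fun _ => rfl) (fun X => ?_) (fun _ => rfl), fun X => ?_⟩
  · congr 1
    ring
  · simp only [LapU, N4, hLap, hxx, hyy, hx, hy, hh]
    have := (Dp_pos X.re X.im).ne'
    rw [← add_div]
    congr 1
    ring

/-! ### bounds -/

theorem gW_le {N C x y : ℝ} (h : |N| ≤ C * Dp x y ^ 2) : |gW N x y| ≤ C * Fp x y := by
  have hD := Dp_pos x y
  have hF : 0 ≤ Fp x y := by unfold Fp; positivity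
  unfold gW
  rw [abs_div, abs_mul, abs_of_nonneg hF, abs_of_pos (pow_pos hD 2), div_le_iff₀ (pow_pos hD 2)]
  nlinarith [mul_le_mul_of_nonneg_left h hF]

theorem abs_x_le (x y : ℝ) : |x| ≤ Dp x y / 4 := by
  have : |x| ^ 2 = x ^ 2 := sq_abs x
  unfold Dp
  nlinarith [sq_nonneg (|x| - 1 / 2), sq_nonneg y, abs_nonneg x]

theorem abs_y_le (x y : ℝ) : |y| ≤ Dp x y / 4 := by
  have : |y| ^ 2 = y ^ 2 := sq_abs y
  unfold Dp
  nlinarith [sq_nonneg (|y| - 1 / 2), sq_nonneg x, abs_nonneg y]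

theorem sq_x_le (x y : ℝ) : x ^ 2 ≤ Dp x y / 5 := by
  unfold Dp
  nlinarith [sq_nonneg y]

theorem NU_le (x y : ℝ) : |NU x y| ≤ 30 * Dp x y ^ 2 := by
  have h1 := Dp_ge x y
  have h2 := abs_le.1 (abs_x_le x y)
  have h3 := sq_x_le x y
  have h4 : |x * Dp x y| ≤ Dp x y ^ 2 / 4 := by
    rw [abs_mul, abs_of_pos (Dp_pos x y)]
    nlinarith [abs_x_le x y, Dp_pos x y]
  have h5 := abs_le.1 h4
  unfold NU
  rw [abs_le]
  constructor <;> nlinarith [sq_nonneg x, sq_nonneg (Dp x y - 1)]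

theorem NW_le (x y : ℝ) : |NW x y| ≤ 30 * Dp x y ^ 2 := by
  have h1 := Dp_ge x y
  have h2 := abs_le.1 (abs_x_le x y)
  have h3 := sq_x_le x y
  have h4 : |x * Dp x y| ≤ Dp x y ^ 2 / 4 := by
    rw [abs_mul, abs_of_pos (Dp_pos x y)]
    nlinarith [abs_x_le x y, Dp_pos x y]
  have h5 := abs_le.1 h4
  unfold NW
  rw [abs_le]
  constructor <;> nlinarith [sq_nonneg x, sq_nonneg (Dp x y - 1)]

theorem NW2_le (x y : ℝ) : |NW2 x y| ≤ 30 * Dp x y ^ 2 := by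
  have h1 := Dp_ge x y
  have h4 : |y * Dp x y| ≤ Dp x y ^ 2 / 4 := by
    rw [abs_mul, abs_of_pos (Dp_pos x y)]
    nlinarith [abs_y_le x y, Dp_pos x y]
  have h5 := abs_le.1 h4
  unfold NW2
  rw [abs_le]
  constructor <;> nlinarith [sq_nonneg (Dp x y - 1)]

theorem U_le (X : ℂ) : |U X| ≤ 30 * ‖X - 1‖ ^ 2 := by
  rw [← Fp_eq]; exact gW_le (NU_le _ _)
theorem W_le (X : ℂ) : |W X| ≤ 30 * ‖X - 1‖ ^ 2 := by
  rw [← Fp_eq]; exact gW_le (NW_le _ _)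
theorem W2_le (X : ℂ) : |W2 X| ≤ 30 * ‖X - 1‖ ^ 2 := by
  rw [← Fp_eq]; exact gW_le (NW2_le _ _)

/-! ### the gradient in complex form -/

/-- `n(N) = N D + (1/2) f ((N_x - i N_y) D - 20 N (x - i y))`, `f = X - 1` -/
noncomputable def nn (N Nx Ny x y : ℝ) : ℂ :=
  (N * Dp x y : ℝ) + 1 / 2 * ((x : ℂ) + y * I - 1) *
    (((Nx : ℂ) - Ny * I) * (Dp x y : ℝ) - 20 * N * ((x : ℂ) - y * I))

theorem grad_eq (N Nx Ny x y : ℝ) :
    ((gWx N Nx x y : ℝ) : ℂ) - (gWy N Ny x y : ℝ) * I =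
      2 * ((x : ℂ) - y * I - 1) * nn N Nx Ny x y / (Dp x y : ℝ) ^ 3 := by
  have hD : ((Dp x y : ℝ) : ℂ) ≠ 0 := by exact_mod_cast (Dp_pos x y).ne'
  have hI : I ^ 2 = -1 := I_sq
  unfold gWx gWy nn
  push_cast
  rw [eq_div_iff (pow_ne_zero 3 hD)]
  have e1 : ∀ A B : ℂ, (A / (Dp x y : ℂ) ^ 3 - B / (Dp x y : ℂ) ^ 3 * I) * (Dp x y : ℂ) ^ 3 =
      A - B * I := by
    intro A B
    field_simp
  rw [e1]
  have e2 : ((Fp x y : ℝ) : ℂ) = ((x : ℂ) - 1) ^ 2 + (y : ℂ) ^ 2 := by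
    unfold Fp
    push_cast
    ring
  rw [e2]
  linear_combination (-20 * (x : ℂ) * N * y ^ 2 + 20 * N * y ^ 3 * I + y ^ 2 * Nx * (Dp x y : ℂ)
    - y ^ 2 * (Dp x y : ℂ) * Ny * I) * hI

end Pool.Agent.Helper2.EK

end

section


/-!
Arithmetic of bivariate integer polynomials given as lists of lists.
-/

namespace Pool.EK71

/-- bivariate polynomials: row `i` is the coefficient of `x^i`, a polynomial in `y` -/
abbrev BP := List (List ℤ)

def ad1 : List ℤ → List ℤ → List ℤ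
  | [], q => q
  | a :: p, [] => a :: p
  | a :: p, b :: q => Int.add a b :: ad1 p q

def ad2 : BP → BP → BP
  | [], Q => Q
  | r :: P, [] => r :: P
  | r :: P, s :: Q => ad1 r s :: ad2 P Q

def sm1 (c : ℤ) : List ℤ → List ℤ
  | [] => []
  | a :: p => Int.mul c a :: sm1 c p

def sm2 (c : ℤ) : BP → BP
  | [] => []
  | r :: P => sm1 c r :: sm2 c P

def mu1 : List ℤ → List ℤ → List ℤ
  | [], _ => []
  | a :: p, q => ad1 (sm1 a q) (0 :: mu1 p q)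

/-- product of a polynomial in `y` and a bivariate one -/
def mr (r : List ℤ) : BP → BP
  | [] => []
  | s :: Q => mu1 r s :: mr r Q

def mu2 : BP → BP → BP
  | [], _ => []
  | r :: P, Q => ad2 (mr r Q) ([] :: mu2 P Q)

/-- `d/dy` of a polynomial in `y`, first argument: index -/
def dy1 : ℕ → List ℤ → List ℤ
  | _, [] => []
  | n, a :: p => Int.mul (Int.ofNat n) a :: dy1 (n + 1) p

def dyr : List ℤ → List ℤ
  | [] => []
  | _ :: p => dy1 1 p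

def dY : BP → BP
  | [] => []
  | r :: P => dyr r :: dY P

def dx1 : ℕ → BP → BP
  | _, [] => []
  | n, r :: P => sm1 (Int.ofNat n) r :: dx1 (n + 1) P

def dX : BP → BP
  | [] => []
  | _ :: P => dx1 1 P

lemma ev1_ad (y : ℝ) (p q : List ℤ) : ev1 y (ad1 p q) = ev1 y p + ev1 y q := by
  induction p generalizing q with
  | nil => simp [ad1, ev1]
  | cons a p ih =>
    cases q with
    | nil => simp [ad1, ev1]
    | cons b q =>
      simp only [ad1, ev1, ih]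
      have : ((Int.add a b : ℤ) : ℝ) = a + b := by
        show (((a + b : ℤ)) : ℝ) = _
        push_cast; ring
      rw [this]; ring

lemma ev2_ad (x y : ℝ) (P Q : BP) : ev2 x y (ad2 P Q) = ev2 x y P + ev2 x y Q := by
  induction P generalizing Q with
  | nil => simp [ad2, ev2]
  | cons a p ih =>
    cases Q with
    | nil => simp [ad2, ev2]
    | cons b q => simp only [ad2, ev2, ih, ev1_ad]; ring

lemma imul_cast (a b : ℤ) : ((Int.mul a b : ℤ) : ℝ) = a * b := by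
  show (((a * b : ℤ)) : ℝ) = _
  push_cast; ring

lemma ev1_sm (y : ℝ) (c : ℤ) (p : List ℤ) : ev1 y (sm1 c p) = c * ev1 y p := by
  induction p with
  | nil => simp [sm1, ev1]
  | cons a p ih => simp only [sm1, ev1, ih, imul_cast]; ring

lemma ev2_sm (x y : ℝ) (c : ℤ) (P : BP) : ev2 x y (sm2 c P) = c * ev2 x y P := by
  induction P with
  | nil => simp [sm2, ev2]
  | cons a p ih => simp only [sm2, ev2, ih, ev1_sm]; ring

lemma ev1_mu (y : ℝ) (p q : List ℤ) : ev1 y (mu1 p q) = ev1 y p * ev1 y q := by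
  induction p with
  | nil => simp [mu1, ev1]
  | cons a p ih => simp only [mu1, ev1_ad, ev1_sm, ev1, ih, Int.cast_zero]; ring

lemma ev2_mr (x y : ℝ) (r : List ℤ) (Q : BP) : ev2 x y (mr r Q) = ev1 y r * ev2 x y Q := by
  induction Q with
  | nil => simp [mr, ev2]
  | cons a p ih => simp only [mr, ev2, ih, ev1_mu]; ring

lemma ev2_mu (x y : ℝ) (P Q : BP) : ev2 x y (mu2 P Q) = ev2 x y P * ev2 x y Q := by
  induction P with
  | nil => simp [mu2, ev2]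
  | cons a p ih => simp only [mu2, ev2_ad, ev2_mr, ev2, ih, ev1]; ring

/-! derivatives -/

lemma dy1_ev (n : ℕ) (y : ℝ) (p : List ℤ) :
    ev1 y (dy1 (n + 1) p) = (n + 1) * ev1 y p + y * ev1 y (dyr p) := by
  induction p generalizing n with
  | nil => simp [dy1, dyr, ev1]
  | cons a p ih =>
    have h1 := ih (n + 1)
    have h0 := ih 0
    simp only [dy1, dyr, ev1, imul_cast] at h1 h0 ⊢
    rw [h1, show dy1 1 p = dy1 (0 + 1) p from rfl, h0]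
    push_cast
    have : ((Int.ofNat (n + 1) : ℤ) : ℝ) = n + 1 := by
      show (((n + 1 : ℕ) : ℤ) : ℝ) = _
      push_cast; ring
    rw [this]; ring

lemma dyr_ev (y : ℝ) (a : ℤ) (p : List ℤ) :
    ev1 y (dyr (a :: p)) = ev1 y p + y * ev1 y (dyr p) := by
  have := dy1_ev 0 y p
  simp only [dyr] at this ⊢
  rw [show dy1 1 p = dy1 (0 + 1) p from rfl, this]; push_cast; ring

lemma dx1_ev (n : ℕ) (x y : ℝ) (P : BP) :
    ev2 x y (dx1 (n + 1) P) = (n + 1) * ev2 x y P + x * ev2 x y (dX P) := by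
  induction P generalizing n with
  | nil => simp [dx1, dX, ev2]
  | cons a p ih =>
    have h1 := ih (n + 1)
    have h0 := ih 0
    simp only [dx1, dX, ev2, ev1_sm] at h1 h0 ⊢
    rw [h1, show dx1 1 p = dx1 (0 + 1) p from rfl, h0]
    push_cast
    have : ((Int.ofNat (n + 1) : ℤ) : ℝ) = n + 1 := by
      show (((n + 1 : ℕ) : ℤ) : ℝ) = _
      push_cast; ring
    rw [this]; ring

lemma dX_ev (x y : ℝ) (r : List ℤ) (P : BP) :
    ev2 x y (dX (r :: P)) = ev2 x y P + x * ev2 x y (dX P) := by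
  have := dx1_ev 0 x y P
  simp only [dX] at this ⊢
  rw [show dx1 1 P = dx1 (0 + 1) P from rfl, this]; push_cast; ring

open Pool.Agent.Helper52.EK Pool.Agent.Helper2.EK in
lemma c1_ev1 (p : List ℤ) : C1f (fun X : ℂ => ev1 X.im p) (fun _ => 0)
    (fun X => ev1 X.im (dyr p)) := by
  induction p with
  | nil =>
    refine c1_congr (c1_const 0) (fun X => ?_) (fun X => ?_) (fun X => ?_)
    · simp [ev1]
    · rfl
    · simp [dyr, ev1]
  | cons a p ih =>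
    refine c1_congr (c1_add (c1_const (a : ℝ)) (c1_mul c1_im ih)) (fun X => ?_) (fun X => ?_)
      (fun X => ?_)
    · simp only [ev1]
    · ring
    · rw [dyr_ev]; ring

open Pool.Agent.Helper52.EK Pool.Agent.Helper2.EK in
lemma c1_ev2 (P : BP) : C1f (fun X : ℂ => ev2 X.re X.im P) (fun X => ev2 X.re X.im (dX P))
    (fun X => ev2 X.re X.im (dY P)) := by
  induction P with
  | nil =>
    refine c1_congr (c1_const 0) (fun X => ?_) (fun X => ?_) (fun X => ?_)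
    · simp [ev2]
    · simp [dX, ev2]
    · simp [dY, ev2]
  | cons r P ih =>
    refine c1_congr (c1_add (c1_ev1 r) (c1_mul c1_re ih)) (fun X => ?_) (fun X => ?_)
      (fun X => ?_)
    · simp only [ev2]
    · rw [dX_ev]; ring
    · simp only [dY, ev2]; ring

/-! triangular shape -/

def padRow : ℕ → List ℤ → List ℤ
  | 0, _ => []
  | n + 1, [] => 0 :: padRow n []
  | n + 1, a :: l => a :: padRow n l

def isz : List ℤ → Bool
  | [] => true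
  | a :: l => (match a with
    | Int.ofNat n => Nat.beq n 0
    | Int.negSucc _ => false) && isz l

def fitsRow : ℕ → List ℤ → Bool
  | 0, l => isz l
  | _ + 1, [] => true
  | n + 1, _ :: l => fitsRow n l

def toTri : ℕ → BP → BP
  | 0, _ => []
  | _ + 1, [] => []
  | n + 1, r :: P => padRow (n + 1) r :: toTri n P

def isz2 : BP → Bool
  | [] => true
  | r :: P => isz r && isz2 P

def fits : ℕ → BP → Bool
  | 0, P => isz2 P
  | _ + 1, [] => true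
  | n + 1, r :: P => fitsRow (n + 1) r && fits n P

lemma isz_ev (y : ℝ) (l : List ℤ) (h : isz l = true) : ev1 y l = 0 := by
  induction l with
  | nil => rfl
  | cons a l ih =>
    simp only [isz, Bool.and_eq_true] at h
    have ha : a = 0 := by
      cases a with
      | ofNat n =>
        have : n = 0 := Nat.eq_of_beq_eq_true h.1
        rw [this]; rfl
      | negSucc n => simp at h
    simp [ev1, ih h.2, ha]

lemma isz2_ev (x y : ℝ) (P : BP) (h : isz2 P = true) : ev2 x y P = 0 := by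
  induction P with
  | nil => rfl
  | cons r P ih =>
    simp only [isz2, Bool.and_eq_true] at h
    simp [ev2, ih h.2, isz_ev y r h.1]

lemma padRow_len (n : ℕ) (l : List ℤ) : (padRow n l).length = n := by
  induction n generalizing l with
  | zero => rfl
  | succ n ih => cases l <;> simp [padRow, ih]

lemma padRow_nil (y : ℝ) (n : ℕ) : ev1 y (padRow n []) = 0 := by
  induction n with
  | zero => rfl
  | succ n ih => simp [padRow, ev1, ih]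

lemma padRow_ev (y : ℝ) (n : ℕ) (l : List ℤ) (h : fitsRow n l = true) :
    ev1 y (padRow n l) = ev1 y l := by
  induction n generalizing l with
  | zero => simp only [fitsRow] at h; rw [isz_ev y l h]; rfl
  | succ n ih =>
    cases l with
    | nil => rw [padRow_nil]; rfl
    | cons a l => simp only [fitsRow] at h; simp only [padRow, ev1, ih l h]

lemma toTri_shp (n : ℕ) (P : BP) : shp n (toTri n P) = true := by
  induction n generalizing P with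
  | zero => rfl
  | succ n ih =>
    cases P with
    | nil => rfl
    | cons r P =>
      simp only [toTri, shp, Bool.and_eq_true]
      refine ⟨?_, ih P⟩
      rw [padRow_len]
      exact Nat.beq_refl _

lemma toTri_ev (x y : ℝ) (n : ℕ) (P : BP) (h : fits n P = true) :
    ev2 x y (toTri n P) = ev2 x y P := by
  induction n generalizing P with
  | zero => simp only [fits] at h; rw [isz2_ev x y P h]; rfl
  | succ n ih =>
    cases P with
    | nil => rfl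
    | cons r P =>
      simp only [fits, Bool.and_eq_true] at h
      simp only [toTri, ev2, padRow_ev y _ r h.1, ih P h.2]

end Pool.EK71

end

section


/-!
Certificate algebra for a general direction: abstract form with real parameters at one point.
`al1 + i al2` is `(1+u)/2`, `|u| = 1`.
-/

set_option autoImplicit false

namespace Pool.Agent.Helper71.EKC

open Pool.Agent.Helper71.EK

/-- values at one point -/
structure Pt where
  x : ℝ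
  y : ℝ
  D : ℝ
  E : ℝ
  kb : ℝ
  k2 : ℝ
  n4 : ℝ
  nu : ℝ
  nv : ℝ
  nvx : ℝ
  nvy : ℝ
  nz : ℝ
  nzx : ℝ
  nzy : ℝ
  nw : ℝ
  nwx : ℝ
  nwy : ℝ
  nt : ℝ
  ntx : ℝ
  nty : ℝ
  sg : ℝ

namespace Pt

variable (P : Pt)

noncomputable def ff : ℝ := (P.x - 1) ^ 2 + P.y ^ 2

noncomputable def nr (N Nx Ny : ℝ) : ℝ :=
  N * P.D + 1 / 2 * ((P.x - 1) * (Nx * P.D - P.kb * N * P.x) - P.y * (P.kb * N * P.y - Ny * P.D))

noncomputable def ni (N Nx Ny : ℝ) : ℝ :=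
  1 / 2 * ((P.x - 1) * (P.kb * N * P.y - Ny * P.D) + P.y * (Nx * P.D - P.kb * N * P.x))

noncomputable def a1 : ℝ := P.nr P.nw P.nwx P.nwy - P.ni P.nv P.nvx P.nvy
noncomputable def a2 : ℝ := P.ni P.nw P.nwx P.nwy + P.nr P.nv P.nvx P.nvy
noncomputable def b1 : ℝ := P.nr P.nt P.ntx P.nty - P.ni P.nz P.nzx P.nzy
noncomputable def b2 : ℝ := P.ni P.nt P.ntx P.nty + P.nr P.nz P.nzx P.nzy

noncomputable def Na : ℝ := P.k2 * P.E - P.sg + 2 * (P.nu - P.nz)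
noncomputable def Ng : ℝ := P.k2 * P.E - P.sg - 2 * (P.nu - P.nz)
noncomputable def Nb : ℝ := P.nv

noncomputable def m11 : ℝ := P.n4 * P.Na - (P.a1 ^ 2 + P.a2 ^ 2)
noncomputable def m12 : ℝ := P.n4 * P.Nb - 2 * (P.a1 * P.b1 + P.a2 * P.b2)
noncomputable def m22 : ℝ := P.n4 * P.Ng - 4 * (P.b1 ^ 2 + P.b2 ^ 2)

noncomputable def N2 : ℝ :=
  (P.x ^ 2 + P.y ^ 2) * P.n4 - 4 * (P.D ^ 2 * P.E) + 4 * P.sg * P.ff * P.D ^ 2

variable (al1 al2 : ℝ)

noncomputable def Na2 : ℝ := P.k2 * P.E + 2 * (P.nu - P.nz) - 16 * al1 * P.E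
  + 4 * P.sg * (4 * al1 * P.ff + 2 * (al1 * (P.x - 1) + al2 * P.y))
noncomputable def Ng2 : ℝ := P.k2 * P.E - 2 * (P.nu - P.nz)
noncomputable def Nb2 : ℝ := P.nv + 4 * P.sg * (al1 * P.y - al2 * (P.x - 1))
/-- `conj u * (X - 1)` -/
noncomputable def c1 : ℝ := (2 * al1 - 1) * (P.x - 1) + 2 * al2 * P.y
noncomputable def c2 : ℝ := (2 * al1 - 1) * P.y - 2 * al2 * (P.x - 1)
noncomputable def A21 : ℝ := 2 * (P.x * P.a1 - P.y * P.a2)
  + P.sg * P.D * (16 * al1 * P.ff + 4 * P.c1 al1 al2) - 16 * al1 * (P.D * P.E)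
noncomputable def A22 : ℝ := 2 * (P.x * P.a2 + P.y * P.a1)
  + P.sg * P.D * (-16 * al2 * P.ff + 4 * P.c2 al1 al2) + 16 * al2 * (P.D * P.E)
noncomputable def B21 : ℝ := 2 * (P.x * P.b1 - P.y * P.b2) + 2 * (P.sg * P.D * P.c2 al1 al2)
noncomputable def B22 : ℝ := 2 * (P.x * P.b2 + P.y * P.b1) - 2 * (P.sg * P.D * P.c1 al1 al2)

noncomputable def M11 : ℝ :=
  4 * P.N2 * P.Na2 al1 al2 - (P.A21 al1 al2 ^ 2 + P.A22 al1 al2 ^ 2)
noncomputable def M12 : ℝ := 4 * P.N2 * P.Nb2 al1 al2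
  - 2 * (P.A21 al1 al2 * P.B21 al1 al2 + P.A22 al1 al2 * P.B22 al1 al2)
noncomputable def M22 : ℝ :=
  4 * P.N2 * P.Ng2 - 4 * (P.B21 al1 al2 ^ 2 + P.B22 al1 al2 ^ 2)

/-- potential and its partial derivatives -/
noncomputable def g (N : ℝ) : ℝ := P.ff * N / P.E
noncomputable def gx (N Nx : ℝ) : ℝ :=
  ((2 * (P.x - 1) * N + P.ff * Nx) * P.D - P.kb * P.x * (P.ff * N)) / (P.E * P.D)
noncomputable def gy (N Ny : ℝ) : ℝ :=
  ((2 * P.y * N + P.ff * Ny) * P.D - P.kb * P.y * (P.ff * N)) / (P.E * P.D)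

/-- the right side of the certificate -/
noncomputable def EE (y1 y2 s c : ℝ) : ℝ :=
  P.k2 * P.ff
    + (s ^ 2 * (P.n4 / (P.E * P.D ^ 2)) * (y1 ^ 2 + y2 ^ 2)
      - 2 * (c ^ 2 - s ^ 2) * P.g P.nu)
    + (s ^ 2 * (P.gx P.nw P.nwx * y1 + P.gy P.nw P.nwy * y2)
      + 2 * s * c * (P.gx P.nt P.ntx * y1 + P.gy P.nt P.nty * y2))
    + (s ^ 2 * (-P.gx P.nv P.nvx * y2 + P.gy P.nv P.nvy * y1)
      + 2 * s * c * P.g P.nv)
    + (2 * s * c * (-P.gx P.nz P.nzx * y2 + P.gy P.nz P.nzy * y1)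
      + 2 * (c ^ 2 - s ^ 2) * P.g P.nz)

end Pt

/-- completing the square in `u = (u1, u2)` -/
lemma square' {D E N h g1 g2 f1 f2 : ℝ} (hD : 0 < D) (hE : 0 < E) (hN : 0 < N)
    (hg : g1 ^ 2 + g2 ^ 2 ≤ N * h) (u1 u2 : ℝ) :
    0 ≤ N / (E * D ^ 2) * (u1 ^ 2 + u2 ^ 2)
      + 2 / (E * D) * ((f1 * g1 + f2 * g2) * u1 - (f1 * g2 - f2 * g1) * u2)
      + (f1 ^ 2 + f2 ^ 2) * h / E := by
  have key : E * D ^ 2 * N * (N / (E * D ^ 2) * (u1 ^ 2 + u2 ^ 2)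
      + 2 / (E * D) * ((f1 * g1 + f2 * g2) * u1 - (f1 * g2 - f2 * g1) * u2)
      + (f1 ^ 2 + f2 ^ 2) * h / E) =
      (N * u1 + D * (f1 * g1 + f2 * g2)) ^ 2 + (N * u2 - D * (f1 * g2 - f2 * g1)) ^ 2
      + D ^ 2 * (f1 ^ 2 + f2 ^ 2) * (N * h - (g1 ^ 2 + g2 ^ 2)) := by
    field_simp
    ring
  have hpos : 0 < E * D ^ 2 * N := by positivity
  refine nonneg_of_mul_nonneg_right ?_ hpos
  rw [key]
  have : 0 ≤ N * h - (g1 ^ 2 + g2 ^ 2) := by linarith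
  positivity

/-- first condition: `E ≥ σ` -/
lemma cond1g (P : Pt) (hD : 0 < P.D) (hE : 0 < P.E) (hN : 0 < P.n4) (h11 : 0 ≤ P.m11)
    (h22 : 0 ≤ P.m22) (h12 : P.m12 ^ 2 ≤ P.m11 * P.m22) {s c : ℝ} (h : s ^ 2 + c ^ 2 = 1)
    (y1 y2 : ℝ) : P.ff * P.sg / P.E ≤ P.EE y1 y2 s c := by
  have hq := form2 h11 h22 h12 s c
  have hsq := square' (h := P.Na * s ^ 2 + 2 * P.Nb * (s * c) + P.Ng * c ^ 2)
    (g1 := s * P.a1 + 2 * c * P.b1) (g2 := s * P.a2 + 2 * c * P.b2)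
    (f1 := P.x - 1) (f2 := P.y) hD hE hN
    (by unfold Pt.m11 Pt.m12 Pt.m22 at hq; linarith) (s * y1) (s * y2)
  have e : P.EE y1 y2 s c - P.ff * P.sg / P.E =
      P.n4 / (P.E * P.D ^ 2) * ((s * y1) ^ 2 + (s * y2) ^ 2)
      + 2 / (P.E * P.D) * (((P.x - 1) * (s * P.a1 + 2 * c * P.b1)
        + P.y * (s * P.a2 + 2 * c * P.b2)) * (s * y1)
        - ((P.x - 1) * (s * P.a2 + 2 * c * P.b2) - P.y * (s * P.a1 + 2 * c * P.b1)) * (s * y2))
      + ((P.x - 1) ^ 2 + P.y ^ 2) * (P.Na * s ^ 2 + 2 * P.Nb * (s * c) + P.Ng * c ^ 2) / P.E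
      + P.ff * (P.k2 * P.E - P.sg) * (1 - s ^ 2 - c ^ 2) / P.E := by
    unfold Pt.EE Pt.g Pt.gx Pt.gy Pt.a1 Pt.a2 Pt.b1 Pt.b2 Pt.nr Pt.ni Pt.Na Pt.Nb Pt.Ng Pt.ff
    have hD' := hD.ne'
    have hE' := hE.ne'
    field_simp
    ring
  have : (1 - s ^ 2 - c ^ 2 : ℝ) = 0 := by linarith
  rw [this, mul_zero, zero_div, add_zero] at e
  linarith

/-- `|v|²`, with `|α|²` replaced by `al1` -/
noncomputable def vv (P : Pt) (al1 al2 q1 q2 : ℝ) : ℝ :=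
  4 * al1 * P.ff + 4 * ((al1 * (P.x - 1) - al2 * P.y) * q1
    + (al1 * P.y + al2 * (P.x - 1)) * q2) + (q1 ^ 2 + q2 ^ 2)
noncomputable def v1 (P : Pt) (al1 al2 q1 q2 : ℝ) : ℝ :=
  2 * (al1 * (P.x - 1) + al2 * P.y) + (2 * al1 - 1) * q1 + 2 * al2 * q2
noncomputable def v2 (P : Pt) (al1 al2 q1 q2 : ℝ) : ℝ :=
  2 * (al1 * P.y - al2 * (P.x - 1)) + (2 * al1 - 1) * q2 - 2 * al2 * q1

/-- the second condition, a function of `α` -/
noncomputable def FF (P : Pt) (al1 al2 q1 q2 s c : ℝ) : ℝ :=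
  P.EE (P.x * q1 - P.y * q2) (P.x * q2 + P.y * q1) s c
    + P.ff * P.sg / P.E * (4 * s ^ 2 * (vv P al1 al2 q1 q2 + v1 P al1 al2 q1 q2)
      + 4 * s * c * v2 P al1 al2 q1 q2)
    - 4 * s ^ 2 * vv P al1 al2 q1 q2

lemma FF_affine (P : Pt) {l1 l2 l3 : ℝ} (hl : l1 + l2 + l3 = 1)
    (p1 r1 p2 r2 p3 r3 q1 q2 s c : ℝ) :
    FF P (l1 * p1 + l2 * p2 + l3 * p3) (l1 * r1 + l2 * r2 + l3 * r3) q1 q2 s c =
      l1 * FF P p1 r1 q1 q2 s c + l2 * FF P p2 r2 q1 q2 s c + l3 * FF P p3 r3 q1 q2 s c := by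
  have e : l3 = 1 - l1 - l2 := by linarith
  subst e
  unfold FF vv v1 v2
  ring

lemma cond2g (P : Pt) (hD : 0 < P.D) (hE : 0 < P.E) (hN : 0 < P.N2) (al1 al2 : ℝ)
    (h11 : 0 ≤ P.M11 al1 al2) (h22 : 0 ≤ P.M22 al1 al2)
    (h12 : P.M12 al1 al2 ^ 2 ≤ P.M11 al1 al2 * P.M22 al1 al2) {s c : ℝ}
    (h : s ^ 2 + c ^ 2 = 1) (q1 q2 : ℝ) : 0 ≤ FF P al1 al2 q1 q2 s c := by
  have hq := form2 h11 h22 h12 s c
  have hsq := square' (h := P.Na2 al1 al2 * s ^ 2 + 2 * P.Nb2 al1 al2 * (s * c) + P.Ng2 * c ^ 2)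
    (g1 := s * P.A21 al1 al2 / 2 + c * P.B21 al1 al2)
    (g2 := s * P.A22 al1 al2 / 2 + c * P.B22 al1 al2)
    (f1 := P.x - 1) (f2 := P.y) hD hE hN
    (by unfold Pt.M11 Pt.M12 Pt.M22 at hq; linarith) (s * q1) (s * q2)
  have e : FF P al1 al2 q1 q2 s c =
      P.N2 / (P.E * P.D ^ 2) * ((s * q1) ^ 2 + (s * q2) ^ 2)
      + 2 / (P.E * P.D) * (((P.x - 1) * (s * P.A21 al1 al2 / 2 + c * P.B21 al1 al2)
        + P.y * (s * P.A22 al1 al2 / 2 + c * P.B22 al1 al2)) * (s * q1)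
        - ((P.x - 1) * (s * P.A22 al1 al2 / 2 + c * P.B22 al1 al2)
          - P.y * (s * P.A21 al1 al2 / 2 + c * P.B21 al1 al2)) * (s * q2))
      + ((P.x - 1) ^ 2 + P.y ^ 2) * (P.Na2 al1 al2 * s ^ 2 + 2 * P.Nb2 al1 al2 * (s * c)
        + P.Ng2 * c ^ 2) / P.E
      + P.ff * P.k2 * (1 - s ^ 2 - c ^ 2) := by
    unfold FF vv v1 v2 Pt.EE Pt.g Pt.gx Pt.gy Pt.A21 Pt.A22 Pt.B21 Pt.B22 Pt.c1 Pt.c2 Pt.a1
      Pt.a2 Pt.b1 Pt.b2 Pt.nr Pt.ni Pt.Na2 Pt.Nb2 Pt.Ng2 Pt.N2 Pt.ff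
    have hD' := hD.ne'
    have hE' := hE.ne'
    field_simp
    ring
  have : (1 - s ^ 2 - c ^ 2 : ℝ) = 0 := by linarith
  rw [this, mul_zero, add_zero] at e
  linarith

end Pool.Agent.Helper71.EKC

end

section


/-!
Certificates given by integer lists: the potentials, their derivatives and bounds, and the
polynomials of the two conditions.
-/

set_option autoImplicit false

open Complex

namespace Pool.Agent.Helper71.EKC

open Pool.EK71 Pool.Agent.Helper52.EK Pool.Agent.Helper2.EK Pool.Agent.Helper71.EK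

/-- certificate data; all potentials are `|X-1|² N/(K D^k)`, `D = 1 + a|X|²`; `k2 = kk/K` -/
structure CD where
  a : ℕ
  k : ℕ
  K : ℕ
  kk : ℤ
  U : BP
  V : BP
  Z : BP
  W : BP
  T : BP
  S : BP

/-! ### basic lists -/

def xL : BP := [[], [1]]
def yL : BP := [[0, 1]]
def fL : BP := [[-1], [1]]
def r2L : BP := [[0, 0, 1], [], [1]]
def f2L : BP := [[1, 0, 1], [-2], [1]]
def cL (n : ℤ) : BP := [[n]]
def DL (a : ℕ) : BP := [[1, 0, Int.ofNat a], [], [Int.ofNat a]]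
def sb2 (P Q : BP) : BP := ad2 P (sm2 (-1) Q)
def pw2 (P : BP) : ℕ → BP
  | 0 => [[1]]
  | n + 1 => mu2 P (pw2 P n)

section ev
variable (x y : ℝ)
lemma e_x : ev2 x y xL = x := by simp [ev2, ev1, xL]
lemma e_y : ev2 x y yL = y := by simp [ev2, ev1, yL]
lemma e_f : ev2 x y fL = x - 1 := by simp [ev2, ev1, fL]; ring
lemma e_r2 : ev2 x y r2L = x ^ 2 + y ^ 2 := by simp [ev2, ev1, r2L]; ring
lemma e_f2 : ev2 x y f2L = (x - 1) ^ 2 + y ^ 2 := by simp [ev2, ev1, f2L]; ring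
lemma e_c (n : ℤ) : ev2 x y (cL n) = n := by simp [ev2, ev1, cL]
lemma e_D (a : ℕ) : ev2 x y (DL a) = 1 + a * (x ^ 2 + y ^ 2) := by
  simp [ev2, ev1, DL]; ring
lemma e_sb (P Q : BP) : ev2 x y (sb2 P Q) = ev2 x y P - ev2 x y Q := by
  rw [sb2, ev2_ad, ev2_sm]; push_cast; ring
lemma e_pw (P : BP) (n : ℕ) : ev2 x y (pw2 P n) = ev2 x y P ^ n := by
  induction n with
  | zero => simp [pw2, ev2, ev1]
  | succ n ih => rw [pw2, ev2_mu, ih]; ring
end ev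

/-! ### rules for the formal derivatives -/

lemma c1_unique {A Ax Ay Bx By : ℂ → ℝ} (h : C1f A Ax Ay) (h' : C1f A Bx By) (X : ℂ) :
    Ax X = Bx X ∧ Ay X = By X := by
  have e := (h.hd X).unique (h'.hd X)
  have e1 := DFunLike.congr_fun e 1
  have e2 := DFunLike.congr_fun e I
  simp at e1 e2
  exact ⟨e1, e2⟩

lemma d_mu (x y : ℝ) (P Q : BP) :
    ev2 x y (dX (mu2 P Q)) = ev2 x y (dX P) * ev2 x y Q + ev2 x y P * ev2 x y (dX Q) ∧
    ev2 x y (dY (mu2 P Q)) = ev2 x y (dY P) * ev2 x y Q + ev2 x y P * ev2 x y (dY Q) := by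
  have h := c1_unique (c1_congr (c1_mul (c1_ev2 P) (c1_ev2 Q))
    (W' := fun X => ev2 X.re X.im (mu2 P Q)) (fun X => by rw [ev2_mu]) (fun _ => rfl)
    (fun _ => rfl)) (c1_ev2 (mu2 P Q)) ⟨x, y⟩
  exact ⟨h.1.symm, h.2.symm⟩

lemma d_sb (x y : ℝ) (P Q : BP) :
    ev2 x y (dX (sb2 P Q)) = ev2 x y (dX P) - ev2 x y (dX Q) ∧
    ev2 x y (dY (sb2 P Q)) = ev2 x y (dY P) - ev2 x y (dY Q) := by
  have h := c1_unique (c1_congr (c1_sub (c1_ev2 P) (c1_ev2 Q))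
    (W' := fun X => ev2 X.re X.im (sb2 P Q)) (fun X => by rw [e_sb]) (fun _ => rfl)
    (fun _ => rfl)) (c1_ev2 (sb2 P Q)) ⟨x, y⟩
  exact ⟨h.1.symm, h.2.symm⟩

lemma d_sm (x y : ℝ) (c : ℤ) (P : BP) :
    ev2 x y (dX (sm2 c P)) = c * ev2 x y (dX P) ∧
    ev2 x y (dY (sm2 c P)) = c * ev2 x y (dY P) := by
  have h := c1_unique (c1_congr (c1_mul (c1_const (c : ℝ)) (c1_ev2 P))
    (W' := fun X => ev2 X.re X.im (sm2 c P)) (fun X => by rw [ev2_sm])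
    (Wx' := fun X => c * ev2 X.re X.im (dX P)) (Wy' := fun X => c * ev2 X.re X.im (dY P))
    (fun _ => by ring) (fun _ => by ring)) (c1_ev2 (sm2 c P)) ⟨x, y⟩
  exact ⟨h.1.symm, h.2.symm⟩

lemma dy1_sm (c : ℤ) (n : ℕ) (p : List ℤ) : dy1 n (sm1 c p) = sm1 c (dy1 n p) := by
  induction p generalizing n with
  | nil => rfl
  | cons a p ih =>
    simp only [sm1, dy1, ih]
    congr 1
    show (Int.ofNat n) * (c * a) = c * ((Int.ofNat n) * a)
    ring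

lemma dyr_sm (c : ℤ) (p : List ℤ) : dyr (sm1 c p) = sm1 c (dyr p) := by
  cases p with
  | nil => rfl
  | cons a p => simp only [sm1, dyr, dy1_sm]

lemma dY_dx1 (n : ℕ) (P : BP) : dY (dx1 n P) = dx1 n (dY P) := by
  induction P generalizing n with
  | nil => rfl
  | cons r P ih => simp only [dx1, dY, dyr_sm, ih]

lemma dY_dX (P : BP) : dY (dX P) = dX (dY P) := by
  cases P with
  | nil => rfl
  | cons r P => simp only [dX, dY, dY_dx1]

/-! ### calculus with `D = 1 + a r²` -/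

noncomputable def Da (a : ℕ) (x y : ℝ) : ℝ := 1 + a * (x ^ 2 + y ^ 2)

lemma Da_pos (a : ℕ) (x y : ℝ) : 0 < Da a x y := by unfold Da; positivity

theorem c1_Da (a : ℕ) : C1f (fun X => Da a X.re X.im) (fun X => 2 * a * X.re)
    (fun X => 2 * a * X.im) := by
  refine c1_congr (c1_ev2 (DL a)) (fun X => ?_) (fun X => ?_) (fun X => ?_)
  · rw [e_D, Da]
  · simp [DL, dX, dx1, sm1, ev2, ev1]; ring
  · simp [DL, dY, dyr, dy1, ev2, ev1]; ring

/-- `A / D^k` -/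
theorem c1_divA (a : ℕ) {A Ax Ay : ℂ → ℝ} (hA : C1f A Ax Ay) (k : ℕ) :
    C1f (fun X => A X / Da a X.re X.im ^ k)
      (fun X => (Ax X * Da a X.re X.im - 2 * k * a * X.re * A X)
        / (Da a X.re X.im ^ k * Da a X.re X.im))
      (fun X => (Ay X * Da a X.re X.im - 2 * k * a * X.im * A X)
        / (Da a X.re X.im ^ k * Da a X.re X.im)) := by
  induction k with
  | zero =>
    refine c1_congr hA ?_ ?_ ?_ <;> intro X
    · simp
    · have := (Da_pos a X.re X.im).ne'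
      field_simp
      simp
    · have := (Da_pos a X.re X.im).ne'
      field_simp
      simp
  | succ k ih =>
    refine c1_congr (c1_mul ih (c1_inv (c1_Da a) fun X => (Da_pos a X.re X.im).ne')) ?_ ?_ ?_ <;>
      intro X <;> have := (Da_pos a X.re X.im).ne' <;> push_cast <;> field_simp <;> ring

namespace CD

variable (C : CD)

/-- `2 k a` -/
def kb : ℤ := Int.mul 2 (Int.mul (Int.ofNat C.k) (Int.ofNat C.a))

/-- numerators of the derivatives of `P / D^j` -/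
def qx (j : ℕ) (P : BP) : BP :=
  sb2 (mu2 (DL C.a) (dX P)) (sm2 (Int.mul 2 (Int.mul (Int.ofNat j) (Int.ofNat C.a))) (mu2 xL P))
def qy (j : ℕ) (P : BP) : BP :=
  sb2 (mu2 (DL C.a) (dY P)) (sm2 (Int.mul 2 (Int.mul (Int.ofNat j) (Int.ofNat C.a))) (mu2 yL P))

def hL : BP := mu2 f2L C.U
def N4L : BP := ad2 (C.qx (C.k + 1) (C.qx C.k C.hL)) (C.qy (C.k + 1) (C.qy C.k C.hL))

noncomputable def DD (x y : ℝ) : ℝ := Da C.a x y

lemma e_qx (j : ℕ) (P : BP) (x y : ℝ) : ev2 x y (C.qx j P) =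
    ev2 x y (dX P) * Da C.a x y - 2 * j * C.a * x * ev2 x y P := by
  rw [qx, e_sb, ev2_mu, ev2_sm, ev2_mu, e_D, e_x, imul_cast, imul_cast, Da]
  have h1 : ((Int.ofNat j : ℤ) : ℝ) = j := by simp
  have h2 : ((Int.ofNat C.a : ℤ) : ℝ) = C.a := by simp
  rw [h1, h2]; push_cast; ring

lemma e_qy (j : ℕ) (P : BP) (x y : ℝ) : ev2 x y (C.qy j P) =
    ev2 x y (dY P) * Da C.a x y - 2 * j * C.a * y * ev2 x y P := by
  rw [qy, e_sb, ev2_mu, ev2_sm, ev2_mu, e_D, e_y, imul_cast, imul_cast, Da]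
  have h1 : ((Int.ofNat j : ℤ) : ℝ) = j := by simp
  have h2 : ((Int.ofNat C.a : ℤ) : ℝ) = C.a := by simp
  rw [h1, h2]; push_cast; ring

theorem c1_q (j : ℕ) (P : BP) :
    C1f (fun X : ℂ => ev2 X.re X.im P / C.K / Da C.a X.re X.im ^ j)
      (fun X => ev2 X.re X.im (C.qx j P) / C.K / Da C.a X.re X.im ^ (j + 1))
      (fun X => ev2 X.re X.im (C.qy j P) / C.K / Da C.a X.re X.im ^ (j + 1)) := by
  have h1 : C1f (fun X : ℂ => ev2 X.re X.im P / C.K) (fun X => ev2 X.re X.im (dX P) / C.K)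
      (fun X => ev2 X.re X.im (dY P) / C.K) := by
    refine c1_congr (c1_mul (c1_const ((C.K : ℝ)⁻¹)) (c1_ev2 P)) ?_ ?_ ?_ <;> intro X <;>
      simp [div_eq_mul_inv] <;> ring
  refine c1_congr (c1_divA C.a h1 j) (fun X => rfl) (fun X => ?_) (fun X => ?_)
  · rw [e_qx, pow_succ]; ring
  · rw [e_qy, pow_succ]; ring

/-! ### the potentials -/

noncomputable def fU (X : ℂ) : ℝ := ev2 X.re X.im C.hL / C.K / Da C.a X.re X.im ^ C.k
noncomputable def fUx (X : ℂ) : ℝ :=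
  ev2 X.re X.im (C.qx C.k C.hL) / C.K / Da C.a X.re X.im ^ (C.k + 1)
noncomputable def fUy (X : ℂ) : ℝ :=
  ev2 X.re X.im (C.qy C.k C.hL) / C.K / Da C.a X.re X.im ^ (C.k + 1)
noncomputable def fLap (X : ℂ) : ℝ :=
  ev2 X.re X.im C.N4L / C.K / Da C.a X.re X.im ^ (C.k + 2)

lemma e_dD (x y : ℝ) : ev2 x y (dX (DL C.a)) = 2 * C.a * x ∧ ev2 x y (dY (DL C.a)) = 2 * C.a * y := by
  constructor
  · simp [DL, dX, dx1, sm1, ev2, ev1]; ring
  · simp [DL, dY, dyr, dy1, ev2, ev1]; ring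

lemma e_dxy (x y : ℝ) : ev2 x y (dX xL) = 1 ∧ ev2 x y (dY xL) = 0 ∧ ev2 x y (dX yL) = 0 ∧
    ev2 x y (dY yL) = 1 := by
  refine ⟨?_, ?_, ?_, ?_⟩ <;> simp [xL, yL, dX, dY, dx1, dyr, dy1, sm1, ev2, ev1]

lemma q_comm (i j : ℕ) (P : BP) (x y : ℝ) :
    ev2 x y (C.qy j (C.qx i P)) - ev2 x y (C.qx j (C.qy i P)) =
      (2 * i * C.a - 2 * j * C.a + 2 * C.a)
        * (y * ev2 x y (dX P) - x * ev2 x y (dY P)) * Da C.a x y := by
  rw [e_qy, e_qx C i P, e_qx C j (C.qy i P), e_qy C i P]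
  have h1 : ev2 x y (dY (C.qx i P)) = (2 * C.a * y) * ev2 x y (dX P)
      + Da C.a x y * ev2 x y (dX (dY P)) - 2 * i * C.a * x * ev2 x y (dY P) := by
    rw [qx, (d_sb x y _ _).2, (d_mu x y _ _).2, (d_sm x y _ _).2, (d_mu x y _ _).2, (C.e_dD x y).2,
      (e_dxy x y).2.1, e_D, e_x, dY_dX, Da, imul_cast, imul_cast]
    have h1 : ((Int.ofNat i : ℤ) : ℝ) = i := by simp
    have h2 : ((Int.ofNat C.a : ℤ) : ℝ) = C.a := by simp
    rw [h1, h2]; push_cast; ring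
  have h2 : ev2 x y (dX (C.qy i P)) = (2 * C.a * x) * ev2 x y (dY P)
      + Da C.a x y * ev2 x y (dX (dY P)) - 2 * i * C.a * y * ev2 x y (dX P) := by
    rw [qy, (d_sb x y _ _).1, (d_mu x y _ _).1, (d_sm x y _ _).1, (d_mu x y _ _).1, (C.e_dD x y).1,
      (e_dxy x y).2.2.1, e_D, e_y, Da, imul_cast, imul_cast]
    have h1 : ((Int.ofNat i : ℤ) : ℝ) = i := by simp
    have h2 : ((Int.ofNat C.a : ℤ) : ℝ) = C.a := by simp
    rw [h1, h2]; push_cast; ring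
  rw [h1, h2]
  ring

theorem c2_U : C2f C.fU C.fUx C.fUy C.fLap := by
  refine ⟨C.c1_q C.k C.hL, _, _, _, C.c1_q (C.k + 1) (C.qx C.k C.hL),
    c1_congr (C.c1_q (C.k + 1) (C.qy C.k C.hL)) (fun _ => rfl)
      (W' := C.fUy) (Wx' := fun X => ev2 X.re X.im (C.qy (C.k + 1) (C.qx C.k C.hL)) / C.K
        / Da C.a X.re X.im ^ (C.k + 1 + 1)) (fun X => ?_) (fun _ => rfl), fun X => ?_⟩
  · show ev2 X.re X.im (C.qy (C.k + 1) (C.qx C.k C.hL)) / C.K / Da C.a X.re X.im ^ (C.k + 1 + 1) =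
      ev2 X.re X.im (C.qx (C.k + 1) (C.qy C.k C.hL)) / C.K / Da C.a X.re X.im ^ (C.k + 1 + 1)
    have h := C.q_comm C.k (C.k + 1) C.hL X.re X.im
    have h0 : (2 * (C.k : ℝ) * C.a - 2 * ((C.k + 1 : ℕ) : ℝ) * C.a + 2 * C.a) = 0 := by
      push_cast; ring
    rw [h0, zero_mul, zero_mul] at h
    rw [sub_eq_zero.1 h]
  · rw [fLap, N4L, ev2_ad]; ring

/-- values at a point -/
noncomputable def pt (x y : ℝ) : Pt where
  x := x
  y := y
  D := Da C.a x y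
  E := Da C.a x y ^ C.k
  kb := 2 * C.k * C.a
  k2 := C.kk / C.K
  n4 := ev2 x y C.N4L / C.K
  nu := ev2 x y C.U / C.K
  nv := ev2 x y C.V / C.K
  nvx := ev2 x y (dX C.V) / C.K
  nvy := ev2 x y (dY C.V) / C.K
  nz := ev2 x y C.Z / C.K
  nzx := ev2 x y (dX C.Z) / C.K
  nzy := ev2 x y (dY C.Z) / C.K
  nw := ev2 x y C.W / C.K
  nwx := ev2 x y (dX C.W) / C.K
  nwy := ev2 x y (dY C.W) / C.K
  nt := ev2 x y C.T / C.K
  ntx := ev2 x y (dX C.T) / C.K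
  nty := ev2 x y (dY C.T) / C.K
  sg := ev2 x y C.S / C.K

end CD

end Pool.Agent.Helper71.EKC

end

section


/-!
The polynomials of the two conditions as lists, and their values.
-/

set_option autoImplicit false

open Complex

namespace Pool.Agent.Helper71.EKC

open Pool.EK71 Pool.Agent.Helper52.EK Pool.Agent.Helper2.EK Pool.Agent.Helper71.EK

namespace CD

variable (C : CD)

def DDL : BP := DL C.a
def tX (N : BP) : BP := sb2 (mu2 (dX N) C.DDL) (sm2 C.kb (mu2 xL N))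
def tY (N : BP) : BP := sb2 (sm2 C.kb (mu2 yL N)) (mu2 (dY N) C.DDL)
def nrL (N : BP) : BP :=
  ad2 (sm2 2 (mu2 N C.DDL)) (sb2 (mu2 fL (C.tX N)) (mu2 yL (C.tY N)))
def niL (N : BP) : BP := ad2 (mu2 fL (C.tY N)) (mu2 yL (C.tX N))
def a1L : BP := sb2 (C.nrL C.W) (C.niL C.V)
def a2L : BP := ad2 (C.niL C.W) (C.nrL C.V)
def b1L : BP := sb2 (C.nrL C.T) (C.niL C.Z)
def b2L : BP := ad2 (C.niL C.T) (C.nrL C.Z)
def EL : BP := pw2 C.DDL C.k
def UZ : BP := sb2 C.U C.Z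
def NaL : BP := ad2 (sb2 (sm2 C.kk C.EL) C.S) (sm2 2 C.UZ)
def NgL : BP := sb2 (sb2 (sm2 C.kk C.EL) C.S) (sm2 2 C.UZ)
def m11L : BP := sb2 (sm2 4 (mu2 C.N4L C.NaL)) (ad2 (mu2 C.a1L C.a1L) (mu2 C.a2L C.a2L))
def m12L : BP := sb2 (sm2 4 (mu2 C.N4L C.V)) (sm2 2 (ad2 (mu2 C.a1L C.b1L) (mu2 C.a2L C.b2L)))
def m22L : BP := sb2 (sm2 4 (mu2 C.N4L C.NgL)) (sm2 4 (ad2 (mu2 C.b1L C.b1L) (mu2 C.b2L C.b2L)))
def q1L : BP := sb2 C.N4L (cL 1)

def KZ : ℤ := Int.ofNat C.K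
def DEL : BP := mu2 C.DDL C.EL
def SDL : BP := mu2 C.S C.DDL
def N2L : BP :=
  ad2 (sb2 (mu2 r2L C.N4L) (sm2 (Int.mul 4 C.KZ) (mu2 C.DDL C.DEL)))
    (sm2 4 (mu2 f2L (mu2 C.SDL C.DDL)))
def q2L : BP := sb2 C.N2L (cL 1)

section vert
variable (p r L : ℤ)
def Na2L : BP :=
  ad2 (ad2 (sm2 (Int.mul L C.kk) C.EL) (sm2 (Int.mul 2 L) C.UZ))
    (sb2 (sm2 4 (mu2 C.S (ad2 (sm2 (Int.mul 4 p) f2L) (sm2 2 (ad2 (sm2 p fL) (sm2 r yL))))))
      (sm2 (Int.mul 16 (Int.mul p C.KZ)) C.EL))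
def Ng2L : BP := sb2 (sm2 (Int.mul L C.kk) C.EL) (sm2 (Int.mul 2 L) C.UZ)
def Nb2L : BP := ad2 (sm2 L C.V) (sm2 4 (mu2 C.S (sb2 (sm2 p yL) (sm2 r fL))))
def c1L : BP := ad2 (sm2 (Int.sub (Int.mul 2 p) L) fL) (sm2 (Int.mul 2 r) yL)
def c2L : BP := sb2 (sm2 (Int.sub (Int.mul 2 p) L) yL) (sm2 (Int.mul 2 r) fL)
def A21L : BP :=
  ad2 (sm2 L (sb2 (mu2 xL C.a1L) (mu2 yL C.a2L)))
    (sb2 (mu2 C.SDL (ad2 (sm2 (Int.mul 16 p) f2L) (sm2 4 (c1L p r L))))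
      (sm2 (Int.mul 16 (Int.mul p C.KZ)) C.DEL))
def A22L : BP :=
  ad2 (sm2 L (ad2 (mu2 xL C.a2L) (mu2 yL C.a1L)))
    (ad2 (mu2 C.SDL (sb2 (sm2 4 (c2L p r L)) (sm2 (Int.mul 16 r) f2L)))
      (sm2 (Int.mul 16 (Int.mul r C.KZ)) C.DEL))
def B21L : BP := ad2 (sm2 L (sb2 (mu2 xL C.b1L) (mu2 yL C.b2L))) (sm2 2 (mu2 C.SDL (c2L p r L)))
def B22L : BP := sb2 (sm2 L (ad2 (mu2 xL C.b2L) (mu2 yL C.b1L))) (sm2 2 (mu2 C.SDL (c1L p r L)))
def M11L : BP :=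
  sb2 (sm2 (Int.mul 4 L) (mu2 C.N2L (C.Na2L p r L)))
    (ad2 (mu2 (C.A21L p r L) (C.A21L p r L)) (mu2 (C.A22L p r L) (C.A22L p r L)))
def M12L : BP :=
  sb2 (sm2 (Int.mul 4 L) (mu2 C.N2L (C.Nb2L p r L)))
    (sm2 2 (ad2 (mu2 (C.A21L p r L) (C.B21L p r L)) (mu2 (C.A22L p r L) (C.B22L p r L))))
def M22L : BP :=
  sb2 (sm2 (Int.mul 4 L) (mu2 C.N2L (C.Ng2L L)))
    (sm2 4 (ad2 (mu2 (C.B21L p r L) (C.B21L p r L)) (mu2 (C.B22L p r L) (C.B22L p r L))))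
end vert

/-! ### values -/

section val
variable (x y : ℝ)

lemma v_D : ev2 x y C.DDL = (C.pt x y).D := by rw [DDL, e_D]; rfl
lemma v_E : ev2 x y C.EL = (C.pt x y).E := by rw [EL, e_pw, v_D]; rfl
lemma v_kb : (C.kb : ℝ) = (C.pt x y).kb := by
  rw [kb, imul_cast, imul_cast]
  have h1 : ((Int.ofNat C.k : ℤ) : ℝ) = C.k := by simp
  have h2 : ((Int.ofNat C.a : ℤ) : ℝ) = C.a := by simp
  rw [h1, h2]
  show _ = 2 * (C.k : ℝ) * C.a
  push_cast; ring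

lemma v_tX (N : BP) : ev2 x y (C.tX N) =
    ev2 x y (dX N) * (C.pt x y).D - (C.pt x y).kb * ev2 x y N * x := by
  rw [tX, e_sb, ev2_mu, ev2_sm, ev2_mu, e_x, v_D, C.v_kb x y]; ring
lemma v_tY (N : BP) : ev2 x y (C.tY N) =
    (C.pt x y).kb * ev2 x y N * y - ev2 x y (dY N) * (C.pt x y).D := by
  rw [tY, e_sb, ev2_mu, ev2_sm, ev2_mu, e_y, v_D, C.v_kb x y]; ring

variable {C} (hK : 0 < C.K)
include hK

lemma v_nr (N : BP) : ev2 x y (C.nrL N) = 2 * C.K *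
    (C.pt x y).nr (ev2 x y N / C.K) (ev2 x y (dX N) / C.K) (ev2 x y (dY N) / C.K) := by
  have hK' : (C.K : ℝ) ≠ 0 := by exact_mod_cast hK.ne'
  have hx : (C.pt x y).x = x := rfl
  have hy : (C.pt x y).y = y := rfl
  rw [nrL, ev2_ad, ev2_sm, ev2_mu, e_sb, ev2_mu, ev2_mu, e_f, e_y, v_tX, v_tY, v_D, Pt.nr, hx, hy]
  field_simp
  push_cast
  ring

lemma v_ni (N : BP) : ev2 x y (C.niL N) = 2 * C.K *
    (C.pt x y).ni (ev2 x y N / C.K) (ev2 x y (dX N) / C.K) (ev2 x y (dY N) / C.K) := by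
  have hK' : (C.K : ℝ) ≠ 0 := by exact_mod_cast hK.ne'
  have hx : (C.pt x y).x = x := rfl
  have hy : (C.pt x y).y = y := rfl
  rw [niL, ev2_ad, ev2_mu, ev2_mu, e_f, e_y, v_tX, v_tY, Pt.ni, hx, hy]
  field_simp

lemma v_a1 : ev2 x y C.a1L = 2 * C.K * (C.pt x y).a1 := by
  rw [a1L, e_sb, v_nr x y hK, v_ni x y hK, Pt.a1]
  show _ = 2 * (C.K : ℝ) * ((C.pt x y).nr (ev2 x y C.W / C.K) (ev2 x y (dX C.W) / C.K)
    (ev2 x y (dY C.W) / C.K) - (C.pt x y).ni (ev2 x y C.V / C.K) (ev2 x y (dX C.V) / C.K)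
    (ev2 x y (dY C.V) / C.K))
  ring
lemma v_a2 : ev2 x y C.a2L = 2 * C.K * (C.pt x y).a2 := by
  rw [a2L, ev2_ad, v_nr x y hK, v_ni x y hK, Pt.a2]
  show _ = 2 * (C.K : ℝ) * ((C.pt x y).ni (ev2 x y C.W / C.K) (ev2 x y (dX C.W) / C.K)
    (ev2 x y (dY C.W) / C.K) + (C.pt x y).nr (ev2 x y C.V / C.K) (ev2 x y (dX C.V) / C.K)
    (ev2 x y (dY C.V) / C.K))
  ring
lemma v_b1 : ev2 x y C.b1L = 2 * C.K * (C.pt x y).b1 := by
  rw [b1L, e_sb, v_nr x y hK, v_ni x y hK, Pt.b1]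
  show _ = 2 * (C.K : ℝ) * ((C.pt x y).nr (ev2 x y C.T / C.K) (ev2 x y (dX C.T) / C.K)
    (ev2 x y (dY C.T) / C.K) - (C.pt x y).ni (ev2 x y C.Z / C.K) (ev2 x y (dX C.Z) / C.K)
    (ev2 x y (dY C.Z) / C.K))
  ring
lemma v_b2 : ev2 x y C.b2L = 2 * C.K * (C.pt x y).b2 := by
  rw [b2L, ev2_ad, v_nr x y hK, v_ni x y hK, Pt.b2]
  show _ = 2 * (C.K : ℝ) * ((C.pt x y).ni (ev2 x y C.T / C.K) (ev2 x y (dX C.T) / C.K)
    (ev2 x y (dY C.T) / C.K) + (C.pt x y).nr (ev2 x y C.Z / C.K) (ev2 x y (dX C.Z) / C.K)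
    (ev2 x y (dY C.Z) / C.K))
  ring

lemma v_n4 : ev2 x y C.N4L = C.K * (C.pt x y).n4 := by
  have hK' : (C.K : ℝ) ≠ 0 := by exact_mod_cast hK.ne'
  show _ = (C.K : ℝ) * (ev2 x y C.N4L / C.K); field_simp
lemma v_V : ev2 x y C.V = C.K * (C.pt x y).nv := by
  have hK' : (C.K : ℝ) ≠ 0 := by exact_mod_cast hK.ne'
  show _ = (C.K : ℝ) * (ev2 x y C.V / C.K); field_simp
lemma v_S : ev2 x y C.S = C.K * (C.pt x y).sg := by
  have hK' : (C.K : ℝ) ≠ 0 := by exact_mod_cast hK.ne'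
  show _ = (C.K : ℝ) * (ev2 x y C.S / C.K); field_simp
lemma v_UZ : ev2 x y C.UZ = C.K * ((C.pt x y).nu - (C.pt x y).nz) := by
  have hK' : (C.K : ℝ) ≠ 0 := by exact_mod_cast hK.ne'
  rw [UZ, e_sb]
  show _ = (C.K : ℝ) * (ev2 x y C.U / C.K - ev2 x y C.Z / C.K); field_simp
lemma v_kk : (C.kk : ℝ) = C.K * (C.pt x y).k2 := by
  have hK' : (C.K : ℝ) ≠ 0 := by exact_mod_cast hK.ne'
  show _ = (C.K : ℝ) * ((C.kk : ℝ) / C.K); field_simp

lemma v_Na : ev2 x y C.NaL = C.K * (C.pt x y).Na := by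
  rw [NaL, ev2_ad, e_sb, ev2_sm, ev2_sm, v_E, v_S x y hK, v_UZ x y hK, v_kk x y hK, Pt.Na]
  push_cast; ring
lemma v_Ng : ev2 x y C.NgL = C.K * (C.pt x y).Ng := by
  rw [NgL, e_sb, e_sb, ev2_sm, ev2_sm, v_E, v_S x y hK, v_UZ x y hK, v_kk x y hK, Pt.Ng]
  push_cast; ring
lemma v_m11 : ev2 x y C.m11L = 4 * C.K ^ 2 * (C.pt x y).m11 := by
  rw [m11L, e_sb, ev2_sm, ev2_mu, ev2_ad, ev2_mu, ev2_mu, v_n4 x y hK, v_Na x y hK,
    v_a1 x y hK, v_a2 x y hK, Pt.m11]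
  push_cast; ring
lemma v_m12 : ev2 x y C.m12L = 4 * C.K ^ 2 * (C.pt x y).m12 := by
  rw [m12L, e_sb, ev2_sm, ev2_mu, ev2_sm, ev2_ad, ev2_mu, ev2_mu, v_n4 x y hK, v_V x y hK,
    v_a1 x y hK, v_a2 x y hK, v_b1 x y hK, v_b2 x y hK, Pt.m12, Pt.Nb]
  push_cast; ring
lemma v_m22 : ev2 x y C.m22L = 4 * C.K ^ 2 * (C.pt x y).m22 := by
  rw [m22L, e_sb, ev2_sm, ev2_mu, ev2_sm, ev2_ad, ev2_mu, ev2_mu, v_n4 x y hK, v_Ng x y hK,
    v_b1 x y hK, v_b2 x y hK, Pt.m22]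
  push_cast; ring

lemma v_DE : ev2 x y C.DEL = (C.pt x y).D * (C.pt x y).E := by rw [DEL, ev2_mu, v_D, v_E]
lemma v_SD : ev2 x y C.SDL = C.K * (C.pt x y).sg * (C.pt x y).D := by
  rw [SDL, ev2_mu, v_D, v_S x y hK]
lemma v_KZ : (C.KZ : ℝ) = C.K := by rw [KZ]; simp
lemma v_N2 : ev2 x y C.N2L = C.K * (C.pt x y).N2 := by
  rw [N2L, ev2_ad, e_sb, ev2_mu, ev2_sm, ev2_mu, ev2_sm, ev2_mu, ev2_mu, e_r2, e_f2,
    v_n4 x y hK, v_D, v_DE x y hK, v_SD x y hK, imul_cast, v_KZ hK, Pt.N2, Pt.ff]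
  show _ = (C.K : ℝ) * ((x ^ 2 + y ^ 2) * (C.pt x y).n4 - 4 * ((C.pt x y).D ^ 2 * (C.pt x y).E)
    + 4 * (C.pt x y).sg * ((x - 1) ^ 2 + y ^ 2) * (C.pt x y).D ^ 2)
  push_cast; ring

variable {p r L : ℤ} (hL : 0 < L)
include hL

lemma v_Na2 : ev2 x y (C.Na2L p r L) = C.K * L * (C.pt x y).Na2 (p / L) (r / L) := by
  have hL' : (L : ℝ) ≠ 0 := by exact_mod_cast hL.ne'
  rw [Na2L, ev2_ad, ev2_ad, e_sb, ev2_sm, ev2_sm, ev2_sm, ev2_mu, ev2_ad, ev2_sm, ev2_sm, ev2_ad,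
    ev2_sm, ev2_sm, ev2_sm, e_f2, e_f, e_y, v_E, v_S x y hK, v_UZ x y hK, imul_cast, imul_cast,
    imul_cast, imul_cast, imul_cast, v_kk x y hK, v_KZ hK, Pt.Na2, Pt.ff]
  show _ = (C.K : ℝ) * L * ((C.pt x y).k2 * (C.pt x y).E + 2 * ((C.pt x y).nu - (C.pt x y).nz)
    - 16 * (p / L) * (C.pt x y).E + 4 * (C.pt x y).sg * (4 * (p / L) * ((x - 1) ^ 2 + y ^ 2)
    + 2 * ((p / L) * (x - 1) + (r / L) * y)))
  field_simp
  push_cast; ring
lemma v_Ng2 : ev2 x y (C.Ng2L L) = C.K * L * (C.pt x y).Ng2 := by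
  rw [Ng2L, e_sb, ev2_sm, ev2_sm, v_E, v_UZ x y hK, imul_cast, imul_cast, v_kk x y hK, Pt.Ng2]
  push_cast; ring
lemma v_Nb2 : ev2 x y (C.Nb2L p r L) = C.K * L * (C.pt x y).Nb2 (p / L) (r / L) := by
  have hL' : (L : ℝ) ≠ 0 := by exact_mod_cast hL.ne'
  rw [Nb2L, ev2_ad, ev2_sm, ev2_sm, ev2_mu, e_sb, ev2_sm, ev2_sm, e_f, e_y, v_S x y hK,
    v_V x y hK, Pt.Nb2]
  show _ = (C.K : ℝ) * L * ((C.pt x y).nv + 4 * (C.pt x y).sg * ((p / L) * y - (r / L) * (x - 1)))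
  field_simp
  push_cast; ring
omit hK in
lemma v_c1 : ev2 x y (c1L p r L) = L * (C.pt x y).c1 (p / L) (r / L) := by
  have hL' : (L : ℝ) ≠ 0 := by exact_mod_cast hL.ne'
  have h1 : ((Int.sub (Int.mul 2 p) L : ℤ) : ℝ) = 2 * p - L := by
    show (((2 * p - L : ℤ)) : ℝ) = _
    push_cast; ring
  rw [c1L, ev2_ad, ev2_sm, ev2_sm, e_f, e_y, h1, imul_cast, Pt.c1]
  show _ = (L : ℝ) * ((2 * (p / L) - 1) * (x - 1) + 2 * (r / L) * y)
  field_simp
  push_cast; ring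
omit hK in
lemma v_c2 : ev2 x y (c2L p r L) = L * (C.pt x y).c2 (p / L) (r / L) := by
  have hL' : (L : ℝ) ≠ 0 := by exact_mod_cast hL.ne'
  have h1 : ((Int.sub (Int.mul 2 p) L : ℤ) : ℝ) = 2 * p - L := by
    show (((2 * p - L : ℤ)) : ℝ) = _
    push_cast; ring
  rw [c2L, e_sb, ev2_sm, ev2_sm, e_f, e_y, h1, imul_cast, Pt.c2]
  show _ = (L : ℝ) * ((2 * (p / L) - 1) * y - 2 * (r / L) * (x - 1))
  field_simp
  push_cast; ring
lemma v_A21 : ev2 x y (C.A21L p r L) = C.K * L * (C.pt x y).A21 (p / L) (r / L) := by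
  have hL' : (L : ℝ) ≠ 0 := by exact_mod_cast hL.ne'
  rw [A21L, ev2_ad, ev2_sm, e_sb, ev2_mu, ev2_mu, e_sb, ev2_mu, ev2_ad, ev2_sm, ev2_sm, ev2_sm,
    e_x, e_y, e_f2, v_a1 x y hK, v_a2 x y hK, v_SD x y hK, v_DE x y hK, v_c1 (C := C) x y hL,
    imul_cast, imul_cast, imul_cast, v_KZ hK, Pt.A21, Pt.ff]
  show _ = (C.K : ℝ) * L * (2 * (x * (C.pt x y).a1 - y * (C.pt x y).a2)
    + (C.pt x y).sg * (C.pt x y).D * (16 * (p / L) * ((x - 1) ^ 2 + y ^ 2)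
    + 4 * (C.pt x y).c1 (p / L) (r / L)) - 16 * (p / L) * ((C.pt x y).D * (C.pt x y).E))
  field_simp
  push_cast; ring
lemma v_A22 : ev2 x y (C.A22L p r L) = C.K * L * (C.pt x y).A22 (p / L) (r / L) := by
  have hL' : (L : ℝ) ≠ 0 := by exact_mod_cast hL.ne'
  rw [A22L, ev2_ad, ev2_sm, ev2_ad, ev2_mu, ev2_mu, ev2_ad, ev2_mu, e_sb, ev2_sm, ev2_sm, ev2_sm,
    e_x, e_y, e_f2, v_a1 x y hK, v_a2 x y hK, v_SD x y hK, v_DE x y hK, v_c2 (C := C) x y hL,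
    imul_cast, imul_cast, imul_cast, v_KZ hK, Pt.A22, Pt.ff]
  show _ = (C.K : ℝ) * L * (2 * (x * (C.pt x y).a2 + y * (C.pt x y).a1)
    + (C.pt x y).sg * (C.pt x y).D * (-16 * (r / L) * ((x - 1) ^ 2 + y ^ 2)
    + 4 * (C.pt x y).c2 (p / L) (r / L)) + 16 * (r / L) * ((C.pt x y).D * (C.pt x y).E))
  field_simp
  push_cast; ring
lemma v_B21 : ev2 x y (C.B21L p r L) = C.K * L * (C.pt x y).B21 (p / L) (r / L) := by
  rw [B21L, ev2_ad, ev2_sm, e_sb, ev2_mu, ev2_mu, ev2_sm, ev2_mu,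
    e_x, e_y, v_b1 x y hK, v_b2 x y hK, v_SD x y hK, v_c2 (C := C) x y hL, Pt.B21]
  show _ = (C.K : ℝ) * L * (2 * (x * (C.pt x y).b1 - y * (C.pt x y).b2)
    + 2 * ((C.pt x y).sg * (C.pt x y).D * (C.pt x y).c2 (p / L) (r / L)))
  push_cast; ring
lemma v_B22 : ev2 x y (C.B22L p r L) = C.K * L * (C.pt x y).B22 (p / L) (r / L) := by
  rw [B22L, e_sb, ev2_sm, ev2_ad, ev2_mu, ev2_mu, ev2_sm, ev2_mu,
    e_x, e_y, v_b1 x y hK, v_b2 x y hK, v_SD x y hK, v_c1 (C := C) x y hL, Pt.B22]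
  show _ = (C.K : ℝ) * L * (2 * (x * (C.pt x y).b2 + y * (C.pt x y).b1)
    - 2 * ((C.pt x y).sg * (C.pt x y).D * (C.pt x y).c1 (p / L) (r / L)))
  push_cast; ring
lemma v_M11 : ev2 x y (C.M11L p r L) =
    (C.K * L) ^ 2 * (C.pt x y).M11 (p / L) (r / L) := by
  rw [M11L, e_sb, ev2_sm, ev2_mu, ev2_ad, ev2_mu, ev2_mu, v_N2 x y hK, v_Na2 x y hK hL,
    v_A21 x y hK hL, v_A22 x y hK hL, imul_cast, Pt.M11]
  push_cast; ring
lemma v_M12 : ev2 x y (C.M12L p r L) =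
    (C.K * L) ^ 2 * (C.pt x y).M12 (p / L) (r / L) := by
  rw [M12L, e_sb, ev2_sm, ev2_mu, ev2_sm, ev2_ad, ev2_mu, ev2_mu, v_N2 x y hK, v_Nb2 x y hK hL,
    v_A21 x y hK hL, v_A22 x y hK hL, v_B21 x y hK hL, v_B22 x y hK hL, imul_cast, Pt.M12]
  push_cast; ring
lemma v_M22 : ev2 x y (C.M22L p r L) =
    (C.K * L) ^ 2 * (C.pt x y).M22 (p / L) (r / L) := by
  rw [M22L, e_sb, ev2_sm, ev2_mu, ev2_sm, ev2_ad, ev2_mu, ev2_mu, v_N2 x y hK, v_Ng2 x y hK hL,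
    v_B21 x y hK hL, v_B22 x y hK hL, imul_cast, Pt.M22]
  push_cast; ring

end val

end CD

end Pool.Agent.Helper71.EKC

end

section


/-!
From the kernel checks of one certificate to the pointwise inequality.
-/

set_option autoImplicit false

open Complex

namespace Pool.EK71

def eqI : ℤ → ℤ → Bool
  | Int.ofNat a, Int.ofNat b => Nat.beq a b
  | Int.negSucc a, Int.negSucc b => Nat.beq a b
  | _, _ => false

lemma eqI_sound {a b : ℤ} (h : eqI a b = true) : a = b := by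
  match a, b, h with
  | Int.ofNat a, Int.ofNat b, h => exact congrArg Int.ofNat (Nat.eq_of_beq_eq_true h)
  | Int.negSucc a, Int.negSucc b, h => exact congrArg Int.negSucc (Nat.eq_of_beq_eq_true h)
  | Int.ofNat a, Int.negSucc b, h => exact absurd h (by simp [eqI])
  | Int.negSucc a, Int.ofNat b, h => exact absurd h (by simp [eqI])

def eq1 : List ℤ → List ℤ → Bool
  | [], [] => true
  | a :: p, b :: q => eqI a b && eq1 p q
  | _, _ => false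

lemma eq1_sound {p q : List ℤ} (h : eq1 p q = true) : p = q := by
  induction p generalizing q with
  | nil => cases q with
    | nil => rfl
    | cons b q => simp [eq1] at h
  | cons a p ih => cases q with
    | nil => simp [eq1] at h
    | cons b q =>
      simp only [eq1, Bool.and_eq_true] at h
      rw [eqI_sound h.1, ih h.2]

def eq2 : BP → BP → Bool
  | [], [] => true
  | a :: p, b :: q => eq1 a b && eq2 p q
  | _, _ => false

lemma eq2_sound {p q : BP} (h : eq2 p q = true) : p = q := by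
  induction p generalizing q with
  | nil => cases q with
    | nil => rfl
    | cons b q => simp [eq2] at h
  | cons a p ih => cases q with
    | nil => simp [eq2] at h
    | cons b q =>
      simp only [eq2, Bool.and_eq_true] at h
      rw [eq1_sound h.1, ih h.2]

/-- the literal list `lit` is the triangular form of `P` -/
def rp (N : ℕ) (P lit : BP) : Bool := fits (N + 1) P && eq2 (toTri (N + 1) P) lit

lemma rp_sound {N : ℕ} {P lit : BP} (h : rp N P lit = true) (x y : ℝ) :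
    ev2 x y lit = ev2 x y P := by
  simp only [rp, Bool.and_eq_true] at h
  rw [← eq2_sound h.2, toTri_ev x y (N + 1) P h.1]

/-- five trees with common denominator -/
structure Cov where
  e : ℤ
  t0 : Tree
  t1 : Tree
  t2 : Tree
  t3 : Tree
  t4 : Tree

def Cov.ok (T : Cov) (D : Dat) : Bool :=
  D.shape && ilt 0 T.e &&
  chk2 D 0 T.e T.t0 (Int.neg T.e) T.e (Int.neg T.e) T.e &&
  chk2 D 1 T.e T.t1 0 T.e (Int.neg T.e) T.e &&
  chk2 D 2 T.e T.t2 0 T.e (Int.neg T.e) T.e &&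
  chk2 D 3 T.e T.t3 0 T.e (Int.neg T.e) T.e &&
  chk2 D 4 T.e T.t4 0 T.e (Int.neg T.e) T.e

lemma Cov.sound {T : Cov} {D : Dat} (h : T.ok D = true) (x y : ℝ) : Good D x y := by
  simp only [Cov.ok, Bool.and_eq_true, ilt, decide_eq_true_eq] at h
  obtain ⟨⟨⟨⟨⟨⟨h0, h1⟩, h2⟩, h3⟩, h4⟩, h5⟩, h6⟩ := h
  exact cover2 h0 T.e h1 T.t0 T.t1 T.t2 T.t3 T.t4 h2 h3 h4 h5 h6 x y

/-- sum of absolute values of the coefficients -/
def nm1 : List ℤ → ℕ
  | [] => 0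
  | a :: p => a.natAbs + nm1 p
def nm2 : BP → ℕ
  | [] => 0
  | r :: P => nm1 r + nm2 P

lemma nm1_le {y M : ℝ} (hM : 1 ≤ M) (hy : |y| ≤ M) (n : ℕ) (l : List ℤ)
    (h : fitsRow (n + 1) l = true) : |ev1 y l| ≤ nm1 l * M ^ n := by
  have hM0 : 0 ≤ M := by linarith
  induction n generalizing l with
  | zero =>
    cases l with
    | nil => simp [ev1, nm1]
    | cons a l =>
      simp only [fitsRow] at h
      rw [ev1, isz_ev y l h, nm1]
      simp only [mul_zero, add_zero, pow_zero, mul_one]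
      push_cast
      have : (0 : ℝ) ≤ (nm1 l : ℝ) := by positivity
      have h2 : |(a : ℝ)| = ((a.natAbs : ℕ) : ℝ) := by
        rw [← Int.cast_abs, Int.abs_eq_natAbs]; simp
      rw [h2]; push_cast; linarith
  | succ n ih =>
    cases l with
    | nil => simp [ev1, nm1]
    | cons a l =>
      simp only [fitsRow] at h
      have h1 := ih l h
      rw [ev1, nm1]
      have h2 : |(a : ℝ)| = ((a.natAbs : ℕ) : ℝ) := by
        rw [← Int.cast_abs, Int.abs_eq_natAbs]; simp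
      calc |(a : ℝ) + y * ev1 y l| ≤ |(a : ℝ)| + |y * ev1 y l| := abs_add_le _ _
        _ = ((a.natAbs : ℕ) : ℝ) + |y| * |ev1 y l| := by rw [h2, abs_mul]
        _ ≤ ((a.natAbs : ℕ) : ℝ) * M ^ (n + 1) + M * (nm1 l * M ^ n) := by
          have e1 : (1 : ℝ) ≤ M ^ (n + 1) := one_le_pow₀ hM
          have e2 : (0 : ℝ) ≤ ((a.natAbs : ℕ) : ℝ) := by positivity
          exact add_le_add (by nlinarith) (mul_le_mul hy h1 (abs_nonneg _) hM0)
        _ = _ := by push_cast; ring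

lemma nm2_le {x y M : ℝ} (hM : 1 ≤ M) (hx : |x| ≤ M) (hy : |y| ≤ M) (n : ℕ) (P : BP)
    (h : fits (n + 1) P = true) : |ev2 x y P| ≤ nm2 P * M ^ n := by
  have hM0 : 0 ≤ M := by linarith
  induction n generalizing P with
  | zero =>
    cases P with
    | nil => simp [ev2, nm2]
    | cons r P =>
      simp only [fits, Bool.and_eq_true] at h
      have h1 := nm1_le hM hy 0 r h.1
      rw [ev2, isz2_ev x y P h.2, nm2]
      simp only [mul_zero, add_zero, pow_zero, mul_one] at h1 ⊢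
      push_cast
      have : (0 : ℝ) ≤ (nm2 P : ℝ) := by positivity
      linarith
  | succ n ih =>
    cases P with
    | nil => simp [ev2, nm2]
    | cons r P =>
      simp only [fits, Bool.and_eq_true] at h
      have h1 := nm1_le hM hy (n + 1) r h.1
      have h2 := ih P h.2
      rw [ev2, nm2]
      calc |ev1 y r + x * ev2 x y P| ≤ |ev1 y r| + |x * ev2 x y P| := abs_add_le _ _
        _ = |ev1 y r| + |x| * |ev2 x y P| := by rw [abs_mul]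
        _ ≤ nm1 r * M ^ (n + 1) + M * (nm2 P * M ^ n) :=
          add_le_add h1 (mul_le_mul hx h2 (abs_nonneg _) hM0)
        _ = _ := by push_cast; ring

end Pool.EK71

namespace Pool.Agent.Helper71.EKC

open Pool.EK71 Pool.Agent.Helper52.EK Pool.Agent.Helper2.EK Pool.Agent.Helper71.EK

/-- `F N X = |X-1|² N/(K D^k)` as a function of `X` -/
noncomputable def pot (C : CD) (N : BP) (X : ℂ) : ℝ :=
  (C.pt X.re X.im).g (ev2 X.re X.im N / C.K)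
noncomputable def potx (C : CD) (N : BP) (X : ℂ) : ℝ :=
  (C.pt X.re X.im).gx (ev2 X.re X.im N / C.K) (ev2 X.re X.im (dX N) / C.K)
noncomputable def poty (C : CD) (N : BP) (X : ℂ) : ℝ :=
  (C.pt X.re X.im).gy (ev2 X.re X.im N / C.K) (ev2 X.re X.im (dY N) / C.K)

theorem c1_pot (C : CD) (N : BP) : C1f (pot C N) (potx C N) (poty C N) := by
  have h1 : C1f (fun X : ℂ => ev2 X.re X.im N / C.K) (fun X => ev2 X.re X.im (dX N) / C.K)
      (fun X => ev2 X.re X.im (dY N) / C.K) := by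
    refine c1_congr (c1_mul (c1_const ((C.K : ℝ)⁻¹)) (c1_ev2 N)) ?_ ?_ ?_ <;> intro X <;>
      simp [div_eq_mul_inv] <;> ring
  refine c1_congr (c1_divA C.a (c1_mul c1_F h1) C.k) (fun X => ?_) (fun X => ?_) (fun X => ?_)
  · rfl
  · show ((2 * (X.re - 1) * (ev2 X.re X.im N / C.K) + Fp X.re X.im * (ev2 X.re X.im (dX N) / C.K))
      * Da C.a X.re X.im - (2 * C.k * C.a) * X.re * (Fp X.re X.im * (ev2 X.re X.im N / C.K)))
      / (Da C.a X.re X.im ^ C.k * Da C.a X.re X.im) = _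
    congr 1
  · show ((2 * X.im * (ev2 X.re X.im N / C.K) + Fp X.re X.im * (ev2 X.re X.im (dY N) / C.K))
      * Da C.a X.re X.im - (2 * C.k * C.a) * X.im * (Fp X.re X.im * (ev2 X.re X.im N / C.K)))
      / (Da C.a X.re X.im ^ C.k * Da C.a X.re X.im) = _
    congr 1

lemma fU_eq (C : CD) (X : ℂ) : C.fU X = pot C C.U X := by
  unfold CD.fU pot Pt.g Pt.ff CD.hL
  rw [ev2_mu, e_f2]
  show _ = ((X.re - 1) ^ 2 + X.im ^ 2) * (ev2 X.re X.im C.U / C.K) / Da C.a X.re X.im ^ C.k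
  ring

theorem pot_le (C : CD) (ha : 1 ≤ C.a) {N : BP} (h : fits (2 * C.k + 1) N = true) (X : ℂ) :
    |pot C N X| ≤ (nm2 N : ℝ) * ‖X - 1‖ ^ 2 := by
  set D := Da C.a X.re X.im with hD
  have ha' : (1 : ℝ) ≤ C.a := by exact_mod_cast ha
  have hDr : 1 + (X.re ^ 2 + X.im ^ 2) ≤ D := by
    rw [hD, Da]; nlinarith [sq_nonneg X.re, sq_nonneg X.im]
  have hD1 : 1 ≤ D := by nlinarith [sq_nonneg X.re, sq_nonneg X.im]
  have hM : 1 ≤ Real.sqrt D := by rw [Real.one_le_sqrt]; exact hD1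
  have hx : |X.re| ≤ Real.sqrt D := by
    rw [← Real.sqrt_sq_eq_abs]
    exact Real.sqrt_le_sqrt (by nlinarith [sq_nonneg X.im])
  have hy : |X.im| ≤ Real.sqrt D := by
    rw [← Real.sqrt_sq_eq_abs]
    exact Real.sqrt_le_sqrt (by nlinarith [sq_nonneg X.re])
  have h1 := nm2_le hM hx hy (2 * C.k) N h
  rw [pow_mul, Real.sq_sqrt (by linarith)] at h1
  have hF : 0 ≤ Fp X.re X.im := by unfold Fp; positivity
  rw [← Fp_eq]
  show |Fp X.re X.im * (ev2 X.re X.im N / C.K) / D ^ C.k| ≤ _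
  have hDk : 0 < D ^ C.k := by positivity
  rw [abs_div, abs_mul, abs_of_nonneg hF, abs_of_pos hDk, div_le_iff₀ hDk, abs_div]
  have hK : |ev2 X.re X.im N| / |(C.K : ℝ)| ≤ |ev2 X.re X.im N| := by
    rcases Nat.eq_zero_or_pos C.K with h0 | h0
    · rw [h0]; simp
    · have : (1 : ℝ) ≤ |(C.K : ℝ)| := by
        rw [Nat.abs_cast]; exact_mod_cast h0
      exact div_le_self (abs_nonneg _) this
  calc Fp X.re X.im * (|ev2 X.re X.im N| / |(C.K : ℝ)|)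
      ≤ Fp X.re X.im * (nm2 N * D ^ C.k) := mul_le_mul_of_nonneg_left (hK.trans h1) hF
    _ = _ := by ring

end Pool.Agent.Helper71.EKC

end

section

set_option autoImplicit false
open Complex MeasureTheory Metric Set
open scoped Real ComplexConjugate

/-! Project EK, module E4b: the null Lagrangians `b' V + b V_eta` and `W_xi` on a rectangle of
the strip, with a cut-off in the first variable. -/

namespace Pool.Agent.Helper4.EK

open Pool.Agent.Helper52.EK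

lemma pt_mem_Rect {x₁ x₂ ξ η : ℝ} (h1 : ξ ∈ Icc x₁ x₂) (h2 : η ∈ Icc 0 π) :
    pt ξ η ∈ Rect x₁ x₂ := by
  constructor
  · simpa [pt] using h1
  · simpa [pt] using h2

lemma continuous_pt2 : Continuous (fun p : ℝ × ℝ => pt p.1 p.2) := by
  unfold pt
  fun_prop

lemma hasDerivAt_pt_xi (ξ η : ℝ) : HasDerivAt (fun t : ℝ => pt t η) 1 ξ := by
  have := (Complex.ofRealCLM.hasDerivAt (x := ξ)).add_const ((η : ℂ) * I)
  simpa [pt] using this

lemma hasDerivAt_pt_eta (ξ η : ℝ) : HasDerivAt (fun t : ℝ => pt ξ t) I η := by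
  have := ((Complex.ofRealCLM.hasDerivAt (x := η)).mul_const I).const_add (ξ : ℂ)
  simpa [pt] using this

lemma C1f.continuous {W Wx Wy : ℂ → ℝ} (hW : C1f W Wx Wy) : Continuous W :=
  continuous_iff_continuousAt.2 fun X => (hW.hd X).continuousAt

/-- chain rule in the second variable -/
lemma hasDerivAt_comp_eta {V Vx Vy : ℂ → ℝ} (hV : C1f V Vx Vy) {X : ℂ → ℂ} {ξ η : ℝ}
    (hX : DifferentiableAt ℂ X (pt ξ η)) :
    HasDerivAt (fun t => V (X (pt ξ t)))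
      (-Vx (X (pt ξ η)) * (deriv X (pt ξ η)).im + Vy (X (pt ξ η)) * (deriv X (pt ξ η)).re) η := by
  have h1 : HasDerivAt (fun t : ℝ => X (pt ξ t)) (deriv X (pt ξ η) * I) η :=
    hX.hasDerivAt.comp η (hasDerivAt_pt_eta ξ η)
  have h2 := (hV.hd (X (pt ξ η))).comp_hasDerivAt η h1
  refine h2.congr_deriv ?_
  simp

/-- chain rule in the first variable -/
lemma hasDerivAt_comp_xi {W Wx Wy : ℂ → ℝ} (hW : C1f W Wx Wy) {X : ℂ → ℂ} {ξ η : ℝ}
    (hX : DifferentiableAt ℂ X (pt ξ η)) :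
    HasDerivAt (fun t => W (X (pt t η)))
      (Wx (X (pt ξ η)) * (deriv X (pt ξ η)).re + Wy (X (pt ξ η)) * (deriv X (pt ξ η)).im) ξ := by
  have h1 : HasDerivAt (fun t : ℝ => X (pt t η)) (deriv X (pt ξ η) * 1) ξ :=
    hX.hasDerivAt.comp ξ (hasDerivAt_pt_xi ξ η)
  have h2 := (hW.hd (X (pt ξ η))).comp_hasDerivAt ξ h1
  refine h2.congr_deriv ?_
  simp

lemma continuousOn_Xpt {X : ℂ → ℂ} {x₁ x₂ : ℝ} (hX : AnalyticOnNhd ℂ X (Rect x₁ x₂)) :
    ContinuousOn (fun p : ℝ × ℝ => X (pt p.1 p.2)) (Icc x₁ x₂ ×ˢ Icc 0 π) :=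
  hX.continuousOn.comp continuous_pt2.continuousOn fun p hp => pt_mem_Rect hp.1 hp.2

lemma continuousOn_dXpt {X : ℂ → ℂ} {x₁ x₂ : ℝ} (hX : AnalyticOnNhd ℂ X (Rect x₁ x₂)) :
    ContinuousOn (fun p : ℝ × ℝ => deriv X (pt p.1 p.2)) (Icc x₁ x₂ ×ˢ Icc 0 π) :=
  hX.deriv.continuousOn.comp continuous_pt2.continuousOn fun p hp => pt_mem_Rect hp.1 hp.2

lemma swap_of_continuousOn {F : ℝ → ℝ → ℝ} {x₁ x₂ y₁ y₂ : ℝ} (hx : x₁ ≤ x₂) (hy : y₁ ≤ y₂)
    (hF : ContinuousOn (fun p : ℝ × ℝ => F p.1 p.2) (Icc x₁ x₂ ×ˢ Icc y₁ y₂)) :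
    ∫ ξ in x₁..x₂, ∫ η in y₁..y₂, F ξ η = ∫ η in y₁..y₂, ∫ ξ in x₁..x₂, F ξ η := by
  apply intervalIntegral_intervalIntegral_swap
  have h1 : IntegrableOn (fun p : ℝ × ℝ => F p.1 p.2) (Icc x₁ x₂ ×ˢ Icc y₁ y₂) :=
    hF.integrableOn_compact (isCompact_Icc.prod isCompact_Icc)
  rw [uIoc_of_le hx, uIoc_of_le hy]
  exact h1.mono_set (prod_mono Ioc_subset_Icc_self Ioc_subset_Icc_self)

/-- E4b, first half -/
theorem nullV {V Vx Vy : ℂ → ℝ} (hV : C1f V Vx Vy) {X : ℂ → ℂ} {x₁ x₂ : ℝ}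
    (hx : x₁ ≤ x₂) (hX : AnalyticOnNhd ℂ X (Rect x₁ x₂))
    {χ : ℝ → ℝ} (hχ : Continuous χ) {b b₁ : ℝ → ℝ} (g1 : ∀ η, HasDerivAt b (b₁ η) η)
    (g1c : Continuous b₁) (f1 : b 0 = 0) (f2 : b π = 0) :
    II x₁ x₂ (fun ξ η => χ ξ * (b η * (-Vx (X (pt ξ η)) * (deriv X (pt ξ η)).im
      + Vy (X (pt ξ η)) * (deriv X (pt ξ η)).re) + b₁ η * V (X (pt ξ η)))) = 0 := by
  have _ := hχ
  unfold II
  rw [intervalIntegral.integral_congr (g := fun _ => (0:ℝ))]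
  · simp
  intro ξ hξ
  rw [uIcc_of_le hx] at hξ
  simp only [intervalIntegral.integral_const_mul]
  have hpi : (0:ℝ) ≤ π := Real.pi_pos.le
  have cX : ContinuousOn (fun η : ℝ => X (pt ξ η)) (uIcc 0 π) := by
    have := continuousOn_Xpt hX
    refine this.comp (f := fun η : ℝ => (ξ, η)) (by fun_prop) ?_
    intro η hη
    rw [uIcc_of_le hpi] at hη
    exact ⟨hξ, hη⟩
  have cY : ContinuousOn (fun η : ℝ => deriv X (pt ξ η)) (uIcc 0 π) := by
    have := continuousOn_dXpt hX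
    refine this.comp (f := fun η : ℝ => (ξ, η)) (by fun_prop) ?_
    intro η hη
    rw [uIcc_of_le hpi] at hη
    exact ⟨hξ, hη⟩
  have bc : Continuous b := continuous_iff_continuousAt.2 fun η => (g1 η).continuousAt
  have key : ∫ η in (0:ℝ)..π, (b η * (-Vx (X (pt ξ η)) * (deriv X (pt ξ η)).im
      + Vy (X (pt ξ η)) * (deriv X (pt ξ η)).re) + b₁ η * V (X (pt ξ η))) =
      b π * V (X (pt ξ π)) - b 0 * V (X (pt ξ 0)) := by
    refine intervalIntegral.integral_eq_sub_of_hasDerivAt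
      (f := fun η => b η * V (X (pt ξ η))) ?_ ?_
    · intro η hη
      rw [uIcc_of_le hpi] at hη
      have hd := hasDerivAt_comp_eta hV ((hX _ (pt_mem_Rect hξ hη)).differentiableAt)
      exact ((g1 η).mul hd).congr_deriv (by ring)
    · apply ContinuousOn.intervalIntegrable
      have c1 : ContinuousOn (fun η : ℝ => Vx (X (pt ξ η))) (uIcc 0 π) :=
        hV.cx.comp_continuousOn cX
      have c2 : ContinuousOn (fun η : ℝ => Vy (X (pt ξ η))) (uIcc 0 π) :=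
        hV.cy.comp_continuousOn cX
      have c3 : ContinuousOn (fun η : ℝ => V (X (pt ξ η))) (uIcc 0 π) :=
        (C1f.continuous hV).comp_continuousOn cX
      have c4 : ContinuousOn (fun η : ℝ => (deriv X (pt ξ η)).re) (uIcc 0 π) :=
        Complex.continuous_re.comp_continuousOn cY
      have c5 : ContinuousOn (fun η : ℝ => (deriv X (pt ξ η)).im) (uIcc 0 π) :=
        Complex.continuous_im.comp_continuousOn cY
      exact (bc.continuousOn.mul ((c1.neg.mul c5).add (c2.mul c4))).add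
        (g1c.continuousOn.mul c3)
  rw [key, f1, f2]
  simp

/-- E4b, second half -/
theorem nullW {W Wx Wy : ℂ → ℝ} (hW : C1f W Wx Wy) {X : ℂ → ℂ} {x₁ x₂ : ℝ}
    (hx : x₁ ≤ x₂) (hX : AnalyticOnNhd ℂ X (Rect x₁ x₂))
    {χ χ₁ : ℝ → ℝ} (h1 : ∀ ξ, HasDerivAt χ (χ₁ ξ) ξ) (h1c : Continuous χ₁)
    (e1 : χ x₁ = 0) (e2 : χ x₂ = 0) {b : ℝ → ℝ} (hb : Continuous b) :
    II x₁ x₂ (fun ξ η => χ ξ * (b η * (Wx (X (pt ξ η)) * (deriv X (pt ξ η)).re
      + Wy (X (pt ξ η)) * (deriv X (pt ξ η)).im))) =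
    - II x₁ x₂ (fun ξ η => χ₁ ξ * (b η * W (X (pt ξ η)))) := by
  have hpi : (0:ℝ) ≤ π := Real.pi_pos.le
  have χc : Continuous χ := continuous_iff_continuousAt.2 fun ξ => (h1 ξ).continuousAt
  have cX := continuousOn_Xpt hX
  have cY := continuousOn_dXpt hX
  have c1 : ContinuousOn (fun p : ℝ × ℝ => Wx (X (pt p.1 p.2))) (Icc x₁ x₂ ×ˢ Icc 0 π) :=
    hW.cx.comp_continuousOn cX
  have c2 : ContinuousOn (fun p : ℝ × ℝ => Wy (X (pt p.1 p.2))) (Icc x₁ x₂ ×ˢ Icc 0 π) :=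
    hW.cy.comp_continuousOn cX
  have c3 : ContinuousOn (fun p : ℝ × ℝ => W (X (pt p.1 p.2))) (Icc x₁ x₂ ×ˢ Icc 0 π) :=
    (C1f.continuous hW).comp_continuousOn cX
  have c4 : ContinuousOn (fun p : ℝ × ℝ => (deriv X (pt p.1 p.2)).re)
      (Icc x₁ x₂ ×ˢ Icc 0 π) := Complex.continuous_re.comp_continuousOn cY
  have c5 : ContinuousOn (fun p : ℝ × ℝ => (deriv X (pt p.1 p.2)).im)
      (Icc x₁ x₂ ×ˢ Icc 0 π) := Complex.continuous_im.comp_continuousOn cY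
  have bc : ContinuousOn (fun p : ℝ × ℝ => b p.2) (Icc x₁ x₂ ×ˢ Icc 0 π) :=
    (hb.comp continuous_snd).continuousOn
  have cc : ContinuousOn (fun p : ℝ × ℝ => χ p.1) (Icc x₁ x₂ ×ˢ Icc 0 π) :=
    (χc.comp continuous_fst).continuousOn
  have cc1 : ContinuousOn (fun p : ℝ × ℝ => χ₁ p.1) (Icc x₁ x₂ ×ˢ Icc 0 π) :=
    (h1c.comp continuous_fst).continuousOn
  have C1 : ContinuousOn (fun p : ℝ × ℝ => χ p.1 * (b p.2 * (Wx (X (pt p.1 p.2)) *
      (deriv X (pt p.1 p.2)).re + Wy (X (pt p.1 p.2)) * (deriv X (pt p.1 p.2)).im)))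
      (Icc x₁ x₂ ×ˢ Icc 0 π) := cc.mul (bc.mul ((c1.mul c4).add (c2.mul c5)))
  have C2 : ContinuousOn (fun p : ℝ × ℝ => χ₁ p.1 * (b p.2 * W (X (pt p.1 p.2))))
      (Icc x₁ x₂ ×ˢ Icc 0 π) := cc1.mul (bc.mul c3)
  have S1 := swap_of_continuousOn (F := fun ξ η => χ ξ * (b η * (Wx (X (pt ξ η)) *
      (deriv X (pt ξ η)).re + Wy (X (pt ξ η)) * (deriv X (pt ξ η)).im))) hx hpi C1
  have S2 := swap_of_continuousOn (F := fun ξ η => χ₁ ξ * (b η * W (X (pt ξ η)))) hx hpi C2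
  unfold II
  rw [S1, S2, ← intervalIntegral.integral_neg]
  apply intervalIntegral.integral_congr
  intro η hη
  rw [uIcc_of_le hpi] at hη
  have hsub : MapsTo (fun ξ : ℝ => (ξ, η)) (uIcc x₁ x₂) (Icc x₁ x₂ ×ˢ Icc 0 π) := by
    intro ξ hξ
    rw [uIcc_of_le hx] at hξ
    exact ⟨hξ, hη⟩
  have D1 : ContinuousOn (fun ξ : ℝ => χ ξ * (b η * (Wx (X (pt ξ η)) *
      (deriv X (pt ξ η)).re + Wy (X (pt ξ η)) * (deriv X (pt ξ η)).im))) (uIcc x₁ x₂) :=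
    C1.comp (f := fun ξ : ℝ => (ξ, η)) (by fun_prop) hsub
  have D2 : ContinuousOn (fun ξ : ℝ => χ₁ ξ * (b η * W (X (pt ξ η)))) (uIcc x₁ x₂) :=
    C2.comp (f := fun ξ : ℝ => (ξ, η)) (by fun_prop) hsub
  have key : ∫ ξ in x₁..x₂, (χ₁ ξ * (b η * W (X (pt ξ η))) + χ ξ * (b η * (Wx (X (pt ξ η)) *
      (deriv X (pt ξ η)).re + Wy (X (pt ξ η)) * (deriv X (pt ξ η)).im))) =
      χ x₂ * (b η * W (X (pt x₂ η))) - χ x₁ * (b η * W (X (pt x₁ η))) := by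
    refine intervalIntegral.integral_eq_sub_of_hasDerivAt
      (f := fun ξ => χ ξ * (b η * W (X (pt ξ η)))) ?_ (D2.add D1).intervalIntegrable
    intro ξ hξ
    rw [uIcc_of_le hx] at hξ
    have hd := hasDerivAt_comp_xi hW ((hX _ (pt_mem_Rect hξ hη)).differentiableAt)
    exact ((h1 ξ).mul (hd.const_mul (b η)))
  rw [intervalIntegral.integral_add D2.intervalIntegrable D1.intervalIntegrable, e1, e2] at key
  simp only [zero_mul, sub_zero] at key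
  linarith

end Pool.Agent.Helper4.EK

end

section

set_option autoImplicit false
open Complex MeasureTheory Metric Set
open scoped Real ComplexConjugate

/-!
# Project EK3, module (c): null Lagrangians on a part `0 ≤ η ≤ h` of the strip

With a cut-off `χ` in the first variable vanishing to the second order at the ends, and weights in
the second variable vanishing at `η = 0` only, the null Lagrangians of module E4 leave boundary
terms on the line `η = h`.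
-/

namespace Pool.Agent.Helper69.EK3

open Pool.Agent.Helper52.EK Pool.Agent.Helper78.EK Pool.Agent.Helper4.EK

/-- the closed rectangle `x₁ ≤ ξ ≤ x₂`, `0 ≤ η ≤ h` -/
def RectH (x₁ x₂ h : ℝ) : Set ℂ := Icc x₁ x₂ ×ℂ Icc 0 h

/-- double integral over the rectangle `x₁ ≤ ξ ≤ x₂`, `0 ≤ η ≤ h` -/
noncomputable def IH (x₁ x₂ h : ℝ) (F : ℝ → ℝ → ℝ) : ℝ := ∫ ξ in x₁..x₂, ∫ η in (0:ℝ)..h, F ξ η

/-- the derivative of `U ∘ X` in the direction of `η` -/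
noncomputable def dEta (Ux Uy : ℂ → ℝ) (X Y : ℂ) : ℝ := -Ux X * Y.im + Uy X * Y.re

theorem pt_mem_RectH {x₁ x₂ h ξ η : ℝ} (h1 : ξ ∈ Icc x₁ x₂) (h2 : η ∈ Icc 0 h) :
    pt ξ η ∈ RectH x₁ x₂ h := by
  constructor
  · simpa [pt] using h1
  · simpa [pt] using h2

theorem contH {X : ℂ → ℂ} {x₁ x₂ h : ℝ} (hX : ContinuousOn X (RectH x₁ x₂ h)) :
    ContinuousOn (fun p : ℝ × ℝ => X (pt p.1 p.2)) (Icc x₁ x₂ ×ˢ Icc 0 h) :=
  hX.comp Pool.Agent.Helper78.EK.continuous_pt.continuousOn fun _ hp => pt_mem_RectH hp.1 hp.2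

/-- linearity of the iterated integral on functions continuous on the closed rectangle -/
theorem IH_sub {x₁ x₂ h : ℝ} (hx : x₁ ≤ x₂) (hh : 0 ≤ h) {F G : ℝ → ℝ → ℝ}
    (hF : ContinuousOn (fun p : ℝ × ℝ => F p.1 p.2) (Icc x₁ x₂ ×ˢ Icc 0 h))
    (hG : ContinuousOn (fun p : ℝ × ℝ => G p.1 p.2) (Icc x₁ x₂ ×ˢ Icc 0 h)) :
    IH x₁ x₂ h (fun ξ η => F ξ η - G ξ η) = IH x₁ x₂ h F - IH x₁ x₂ h G := by
  have key : ∀ {H : ℝ → ℝ → ℝ},
      ContinuousOn (fun p : ℝ × ℝ => H p.1 p.2) (Icc x₁ x₂ ×ˢ Icc 0 h) →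
      (∀ x ∈ Icc x₁ x₂, IntervalIntegrable (H x) volume 0 h) ∧
      IntervalIntegrable (fun x => ∫ y in (0:ℝ)..h, H x y) volume x₁ x₂ := by
    intro H hH
    constructor
    · intro x hx'
      have h1 : ContinuousOn (fun y => H x y) (Icc 0 h) := by
        refine hH.comp (f := fun y : ℝ => (x, y)) (by fun_prop) ?_
        intro y hy
        exact ⟨hx', hy⟩
      exact h1.intervalIntegrable_of_Icc hh
    · have h1 : IntegrableOn (fun p : ℝ × ℝ => H p.1 p.2) (Icc x₁ x₂ ×ˢ Icc 0 h) :=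
        hH.integrableOn_compact (isCompact_Icc.prod isCompact_Icc)
      have h2 : IntegrableOn (fun p : ℝ × ℝ => H p.1 p.2) (Ioc x₁ x₂ ×ˢ Ioc 0 h) :=
        h1.mono_set (prod_mono Ioc_subset_Icc_self Ioc_subset_Icc_self)
      rw [IntegrableOn, Measure.volume_eq_prod, ← Measure.prod_restrict] at h2
      have h3 := h2.integral_prod_left
      rw [intervalIntegrable_iff_integrableOn_Ioc_of_le hx, IntegrableOn]
      simpa only [intervalIntegral.integral_of_le hh] using h3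
  obtain ⟨hF1, hF2⟩ := key hF
  obtain ⟨hG1, hG2⟩ := key hG
  unfold IH
  rw [← intervalIntegral.integral_sub hF2 hG2]
  refine intervalIntegral.integral_congr ?_
  intro x hx'
  rw [uIcc_of_le hx] at hx'
  exact intervalIntegral.integral_sub (hF1 x hx') (hG1 x hx')

/-- the divergence theorem on the rectangle for a field whose normal component vanishes on three
sides -/
theorem div_top {x₁ x₂ h : ℝ} (hx : x₁ ≤ x₂) (hh : 0 ≤ h) {Rp : Set ℂ}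
    (hmem : ∀ p ∈ Ioo x₁ x₂ ×ˢ Ioo 0 h, pt p.1 p.2 ∈ Rp) {F G D : ℝ × ℝ → ℝ}
    (cF : ContinuousOn F (Icc x₁ x₂ ×ˢ Icc 0 h)) (cG : ContinuousOn G (Icc x₁ x₂ ×ˢ Icc 0 h))
    (cD : ContinuousOn D (Icc x₁ x₂ ×ˢ Icc 0 h)) {F' G' : ℝ × ℝ → ℝ × ℝ →L[ℝ] ℝ}
    (dF : ∀ p : ℝ × ℝ, pt p.1 p.2 ∈ Rp → HasFDerivAt F (F' p) p)
    (dG : ∀ p : ℝ × ℝ, pt p.1 p.2 ∈ Rp → HasFDerivAt G (G' p) p)
    (hD : ∀ p : ℝ × ℝ, F' p (1, 0) + G' p (0, 1) = D p)
    (b2 : ∀ x, G (x, 0) = 0) (b3 : ∀ y, F (x₂, y) = 0)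
    (b4 : ∀ y, F (x₁, y) = 0) :
    ∫ x in x₁..x₂, ∫ y in (0:ℝ)..h, D (x, y) = ∫ x in x₁..x₂, G (x, h) := by
  have hDf : (fun p => F' p (1, 0) + G' p (0, 1)) = D := funext hD
  have main := integral2_divergence_prod_of_hasFDerivAt_off_countable F G F' G' x₁ 0 x₂ h ∅
    countable_empty
    (by rw [uIcc_of_le hx, uIcc_of_le hh]; exact cF)
    (by rw [uIcc_of_le hx, uIcc_of_le hh]; exact cG)
    (by
      intro p hp
      rw [sdiff_empty, min_eq_left hx, max_eq_right hx, min_eq_left hh,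
        max_eq_right hh] at hp
      exact dF p (hmem p hp))
    (by
      intro p hp
      rw [sdiff_empty, min_eq_left hx, max_eq_right hx, min_eq_left hh,
        max_eq_right hh] at hp
      exact dG p (hmem p hp))
    (by
      rw [hDf, uIcc_of_le hx, uIcc_of_le hh]
      exact cD.integrableOn_compact (isCompact_Icc.prod isCompact_Icc))
  simp only [hD, b2, b3, b4, intervalIntegral.integral_zero] at main
  rw [main]
  ring

/-- the null Lagrangian `U` with the boundary term on the line `η = h` -/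
theorem nullU_H {U Ux Uy Lap : ℂ → ℝ} (hU : C2f U Ux Uy Lap) {X : ℂ → ℂ} {x₁ x₂ h : ℝ}
    (hx : x₁ ≤ x₂) (hh : 0 ≤ h) (hX : AnalyticOnNhd ℂ X (RectH x₁ x₂ h))
    {χ χ₁ χ₂ : ℝ → ℝ} (h1 : ∀ ξ, HasDerivAt χ (χ₁ ξ) ξ) (h2 : ∀ ξ, HasDerivAt χ₁ (χ₂ ξ) ξ)
    (h2c : Continuous χ₂) (e1 : χ x₁ = 0) (e2 : χ x₂ = 0) (e3 : χ₁ x₁ = 0) (e4 : χ₁ x₂ = 0)
    {a a₁ a₂ : ℝ → ℝ} (g1 : ∀ η, HasDerivAt a (a₁ η) η) (g2 : ∀ η, HasDerivAt a₁ (a₂ η) η)
    (g2c : Continuous a₂) (f1 : a 0 = 0) (f3 : a₁ 0 = 0) :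
    IH x₁ x₂ h (fun ξ η => χ ξ * (a η * Lap (X (pt ξ η)) * ‖deriv X (pt ξ η)‖ ^ 2
      - a₂ η * U (X (pt ξ η)))) =
    IH x₁ x₂ h (fun ξ η => χ₂ ξ * (a η * U (X (pt ξ η)))) +
      ∫ ξ in x₁..x₂, χ ξ * (a h * dEta Ux Uy (X (pt ξ h)) (deriv X (pt ξ h)) -
        a₁ h * U (X (pt ξ h))) := by
  obtain ⟨hU1, Uxx, Uxy, Uyy, hUx, hUy, hLap⟩ := hU
  have cχ : Continuous χ := continuous_iff_continuousAt.2 fun t => (h1 t).continuousAt
  have cχ₁ : Continuous χ₁ := continuous_iff_continuousAt.2 fun t => (h2 t).continuousAt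
  have ca : Continuous a := continuous_iff_continuousAt.2 fun t => (g1 t).continuousAt
  have ca₁ : Continuous a₁ := continuous_iff_continuousAt.2 fun t => (g2 t).continuousAt
  have hX1 : AnalyticOnNhd ℂ (deriv X) (RectH x₁ x₂ h) := hX.deriv
  have cX := contH hX.continuousOn
  have cX1 := contH hX1.continuousOn
  have cU : ContinuousOn (fun p : ℝ × ℝ => U (X (pt p.1 p.2))) (Icc x₁ x₂ ×ˢ Icc 0 h) :=
    (C1f.cont hU1).comp_continuousOn cX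
  have cUx : ContinuousOn (fun p : ℝ × ℝ => Ux (X (pt p.1 p.2))) (Icc x₁ x₂ ×ˢ Icc 0 h) :=
    hU1.cx.comp_continuousOn cX
  have cUy : ContinuousOn (fun p : ℝ × ℝ => Uy (X (pt p.1 p.2))) (Icc x₁ x₂ ×ˢ Icc 0 h) :=
    hU1.cy.comp_continuousOn cX
  have cLap : Continuous Lap := by
    have : Lap = fun X => Uxx X + Uyy X := funext hLap
    rw [this]
    exact hUx.cx.add hUy.cy
  have cL : ContinuousOn (fun p : ℝ × ℝ => Lap (X (pt p.1 p.2))) (Icc x₁ x₂ ×ˢ Icc 0 h) :=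
    cLap.comp_continuousOn cX
  have cre : ContinuousOn (fun p : ℝ × ℝ => (deriv X (pt p.1 p.2)).re) (Icc x₁ x₂ ×ˢ Icc 0 h) :=
    Complex.continuous_re.comp_continuousOn cX1
  have cim : ContinuousOn (fun p : ℝ × ℝ => (deriv X (pt p.1 p.2)).im) (Icc x₁ x₂ ×ˢ Icc 0 h) :=
    Complex.continuous_im.comp_continuousOn cX1
  have cA : ContinuousOn (fun p : ℝ × ℝ => χ p.1 * (a p.2 * Lap (X (pt p.1 p.2)) *
      ‖deriv X (pt p.1 p.2)‖ ^ 2 - a₂ p.2 * U (X (pt p.1 p.2)))) (Icc x₁ x₂ ×ˢ Icc 0 h) := by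
    have i1 : ContinuousOn (fun p : ℝ × ℝ => χ p.1) (Icc x₁ x₂ ×ˢ Icc 0 h) := by fun_prop
    have i2 : ContinuousOn (fun p : ℝ × ℝ => a p.2) (Icc x₁ x₂ ×ˢ Icc 0 h) := by fun_prop
    have i3 : ContinuousOn (fun p : ℝ × ℝ => a₂ p.2) (Icc x₁ x₂ ×ˢ Icc 0 h) := by fun_prop
    exact i1.mul (((i2.mul cL).mul (cX1.norm.pow 2)).sub (i3.mul cU))
  have cB : ContinuousOn (fun p : ℝ × ℝ => χ₂ p.1 * (a p.2 * U (X (pt p.1 p.2))))
      (Icc x₁ x₂ ×ˢ Icc 0 h) := by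
    have i1 : ContinuousOn (fun p : ℝ × ℝ => χ₂ p.1) (Icc x₁ x₂ ×ˢ Icc 0 h) := by fun_prop
    have i2 : ContinuousOn (fun p : ℝ × ℝ => a p.2) (Icc x₁ x₂ ×ˢ Icc 0 h) := by fun_prop
    exact i1.mul (i2.mul cU)
  have hmem : ∀ p ∈ Ioo x₁ x₂ ×ˢ Ioo 0 h, pt p.1 p.2 ∈ RectH x₁ x₂ h := by
    rintro ⟨x, y⟩ ⟨hx', hy'⟩
    exact pt_mem_RectH (Ioo_subset_Icc_self hx') (Ioo_subset_Icc_self hy')
  have dχ : ∀ p : ℝ × ℝ, HasFDerivAt (fun q : ℝ × ℝ => χ q.1)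
      (χ₁ p.1 • ContinuousLinearMap.fst ℝ ℝ ℝ) p := fun p =>
    (h1 p.1).comp_hasFDerivAt p hasFDerivAt_fst
  have dχ₁ : ∀ p : ℝ × ℝ, HasFDerivAt (fun q : ℝ × ℝ => χ₁ q.1)
      (χ₂ p.1 • ContinuousLinearMap.fst ℝ ℝ ℝ) p := fun p =>
    (h2 p.1).comp_hasFDerivAt p hasFDerivAt_fst
  have da : ∀ p : ℝ × ℝ, HasFDerivAt (fun q : ℝ × ℝ => a q.2)
      (a₁ p.2 • ContinuousLinearMap.snd ℝ ℝ ℝ) p := fun p =>
    (g1 p.2).comp_hasFDerivAt p hasFDerivAt_snd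
  have da₁ : ∀ p : ℝ × ℝ, HasFDerivAt (fun q : ℝ × ℝ => a₁ q.2)
      (a₂ p.2 • ContinuousLinearMap.snd ℝ ℝ ℝ) p := fun p =>
    (g2 p.2).comp_hasFDerivAt p hasFDerivAt_snd
  have dW : ∀ {W Wx Wy : ℂ → ℝ}, C1f W Wx Wy → ∀ p : ℝ × ℝ, pt p.1 p.2 ∈ RectH x₁ x₂ h →
      HasFDerivAt (fun q : ℝ × ℝ => W (X (pt q.1 q.2)))
        ((Wx (X (pt p.1 p.2)) • reCLM + Wy (X (pt p.1 p.2)) • imCLM).comp
          (Lc (deriv X (pt p.1 p.2)))) p := by
    intro W Wx Wy hW p hp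
    exact HasFDerivAt.comp (g := W) p (hW.hd _) (hasFDerivAt_X (hX _ hp).differentiableAt)
  have dre : ∀ p : ℝ × ℝ, pt p.1 p.2 ∈ RectH x₁ x₂ h →
      HasFDerivAt (fun q : ℝ × ℝ => (deriv X (pt q.1 q.2)).re)
        (reCLM.comp (Lc (deriv (deriv X) (pt p.1 p.2)))) p := fun p hp =>
    reCLM.hasFDerivAt.comp p (hasFDerivAt_X (hX1 _ hp).differentiableAt)
  have dim : ∀ p : ℝ × ℝ, pt p.1 p.2 ∈ RectH x₁ x₂ h →
      HasFDerivAt (fun q : ℝ × ℝ => (deriv X (pt q.1 q.2)).im)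
        (imCLM.comp (Lc (deriv (deriv X) (pt p.1 p.2)))) p := fun p hp =>
    imCLM.hasFDerivAt.comp p (hasFDerivAt_X (hX1 _ hp).differentiableAt)
  have dF := fun (p : ℝ × ℝ) (hp : pt p.1 p.2 ∈ RectH x₁ x₂ h) =>
    (da p).fun_mul (((dχ p).fun_mul (((dW hUx p hp).fun_mul (dre p hp)).fun_add
      ((dW hUy p hp).fun_mul (dim p hp)))).fun_sub ((dχ₁ p).fun_mul (dW hU1 p hp)))
  have dG := fun (p : ℝ × ℝ) (hp : pt p.1 p.2 ∈ RectH x₁ x₂ h) =>
    (dχ p).fun_mul (((da p).fun_mul (((dW hUy p hp).fun_mul (dre p hp)).fun_sub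
      ((dW hUx p hp).fun_mul (dim p hp)))).fun_sub ((da₁ p).fun_mul (dW hU1 p hp)))
  have cF : ContinuousOn (fun q : ℝ × ℝ => a q.2 * (χ q.1 *
      (Ux (X (pt q.1 q.2)) * (deriv X (pt q.1 q.2)).re +
        Uy (X (pt q.1 q.2)) * (deriv X (pt q.1 q.2)).im) - χ₁ q.1 * U (X (pt q.1 q.2))))
      (Icc x₁ x₂ ×ˢ Icc 0 h) := by
    have i1 : ContinuousOn (fun p : ℝ × ℝ => χ p.1) (Icc x₁ x₂ ×ˢ Icc 0 h) := by fun_prop
    have i2 : ContinuousOn (fun p : ℝ × ℝ => a p.2) (Icc x₁ x₂ ×ˢ Icc 0 h) := by fun_prop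
    have i3 : ContinuousOn (fun p : ℝ × ℝ => χ₁ p.1) (Icc x₁ x₂ ×ˢ Icc 0 h) := by fun_prop
    exact i2.mul ((i1.mul ((cUx.mul cre).add (cUy.mul cim))).sub (i3.mul cU))
  have cG : ContinuousOn (fun q : ℝ × ℝ => χ q.1 * (a q.2 *
      (Uy (X (pt q.1 q.2)) * (deriv X (pt q.1 q.2)).re -
        Ux (X (pt q.1 q.2)) * (deriv X (pt q.1 q.2)).im) - a₁ q.2 * U (X (pt q.1 q.2))))
      (Icc x₁ x₂ ×ˢ Icc 0 h) := by
    have i1 : ContinuousOn (fun p : ℝ × ℝ => χ p.1) (Icc x₁ x₂ ×ˢ Icc 0 h) := by fun_prop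
    have i2 : ContinuousOn (fun p : ℝ × ℝ => a p.2) (Icc x₁ x₂ ×ˢ Icc 0 h) := by fun_prop
    have i3 : ContinuousOn (fun p : ℝ × ℝ => a₁ p.2) (Icc x₁ x₂ ×ˢ Icc 0 h) := by fun_prop
    exact i1.mul ((i2.mul ((cUy.mul cre).sub (cUx.mul cim))).sub (i3.mul cU))
  have cD := cA.fun_sub cB
  have main := div_top hx hh (Rp := RectH x₁ x₂ h) hmem cF cG cD dF dG (by
    rintro ⟨x, y⟩
    have hn : ‖deriv X (pt x y)‖ ^ 2 = (deriv X (pt x y)).re ^ 2 + (deriv X (pt x y)).im ^ 2 := by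
      rw [← normSq_eq_norm_sq, normSq_apply]
      ring
    simp only [_root_.add_apply, _root_.sub_apply,
      _root_.smul_apply, ContinuousLinearMap.comp_apply, Lc_10, Lc_01,
      ContinuousLinearMap.coe_fst', ContinuousLinearMap.coe_snd', smul_eq_mul, reCLM_apply,
      imCLM_apply, mul_re, mul_im, I_re, I_im, hLap, hn]
    ring)
    (fun x => by simp [f1, f3]) (fun y => by simp [e2, e4])
    (fun y => by simp [e1, e3])
  have h3 := IH_sub hx hh (F := fun ξ η => χ ξ * (a η * Lap (X (pt ξ η)) *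
      ‖deriv X (pt ξ η)‖ ^ 2 - a₂ η * U (X (pt ξ η))))
    (G := fun ξ η => χ₂ ξ * (a η * U (X (pt ξ η)))) cA cB
  rw [IH] at h3
  have h4 : IH x₁ x₂ h (fun ξ η => χ ξ * (a η * Lap (X (pt ξ η)) * ‖deriv X (pt ξ η)‖ ^ 2
      - a₂ η * U (X (pt ξ η)))) - IH x₁ x₂ h (fun ξ η => χ₂ ξ * (a η * U (X (pt ξ η)))) =
      ∫ ξ in x₁..x₂, χ ξ * (a h * dEta Ux Uy (X (pt ξ h)) (deriv X (pt ξ h)) -
        a₁ h * U (X (pt ξ h))) := by
    rw [← h3]
    refine main.trans ?_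
    refine intervalIntegral.integral_congr fun ξ _ => ?_
    simp only [dEta]
    ring
  linarith

/-- the null Lagrangian `V` with the boundary term on the line `η = h` -/
theorem nullV_H {V Vx Vy : ℂ → ℝ} (hV : C1f V Vx Vy) {X : ℂ → ℂ} {x₁ x₂ h : ℝ}
    (hx : x₁ ≤ x₂) (hh : 0 ≤ h) (hX : AnalyticOnNhd ℂ X (RectH x₁ x₂ h))
    (χ : ℝ → ℝ) {b b₁ : ℝ → ℝ} (g1 : ∀ η, HasDerivAt b (b₁ η) η)
    (g1c : Continuous b₁) (f1 : b 0 = 0) :
    IH x₁ x₂ h (fun ξ η => χ ξ * (b η * dEta Vx Vy (X (pt ξ η)) (deriv X (pt ξ η))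
      + b₁ η * V (X (pt ξ η)))) = ∫ ξ in x₁..x₂, χ ξ * (b h * V (X (pt ξ h))) := by
  unfold IH
  refine intervalIntegral.integral_congr ?_
  intro ξ hξ
  rw [uIcc_of_le hx] at hξ
  simp only [intervalIntegral.integral_const_mul]
  have hc : ContinuousOn (fun η : ℝ => pt ξ η) (uIcc 0 h) := by
    unfold pt
    fun_prop
  have hm : MapsTo (fun η : ℝ => pt ξ η) (uIcc 0 h) (RectH x₁ x₂ h) := by
    intro η hη
    rw [uIcc_of_le hh] at hη
    exact pt_mem_RectH hξ hη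
  have cX : ContinuousOn (fun η : ℝ => X (pt ξ η)) (uIcc 0 h) := hX.continuousOn.comp hc hm
  have cY : ContinuousOn (fun η : ℝ => deriv X (pt ξ η)) (uIcc 0 h) :=
    hX.deriv.continuousOn.comp hc hm
  have bc : Continuous b := continuous_iff_continuousAt.2 fun η => (g1 η).continuousAt
  have key : ∫ η in (0:ℝ)..h, (b η * dEta Vx Vy (X (pt ξ η)) (deriv X (pt ξ η))
      + b₁ η * V (X (pt ξ η))) = b h * V (X (pt ξ h)) - b 0 * V (X (pt ξ 0)) := by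
    refine intervalIntegral.integral_eq_sub_of_hasDerivAt
      (f := fun η => b η * V (X (pt ξ η))) ?_ ?_
    · intro η hη
      have hd := hasDerivAt_comp_eta hV ((hX _ (hm hη)).differentiableAt)
      exact ((g1 η).mul hd).congr_deriv (by simp only [dEta]; ring)
    · apply ContinuousOn.intervalIntegrable
      have c1 : ContinuousOn (fun η : ℝ => Vx (X (pt ξ η))) (uIcc 0 h) :=
        hV.cx.comp_continuousOn cX
      have c2 : ContinuousOn (fun η : ℝ => Vy (X (pt ξ η))) (uIcc 0 h) :=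
        hV.cy.comp_continuousOn cX
      have c3 : ContinuousOn (fun η : ℝ => V (X (pt ξ η))) (uIcc 0 h) :=
        (Pool.Agent.Helper4.EK.C1f.continuous hV).comp_continuousOn cX
      have c4 : ContinuousOn (fun η : ℝ => (deriv X (pt ξ η)).re) (uIcc 0 h) :=
        Complex.continuous_re.comp_continuousOn cY
      have c5 : ContinuousOn (fun η : ℝ => (deriv X (pt ξ η)).im) (uIcc 0 h) :=
        Complex.continuous_im.comp_continuousOn cY
      exact (bc.continuousOn.mul ((c1.neg.mul c5).add (c2.mul c4))).add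
        (g1c.continuousOn.mul c3)
  rw [key, f1]
  simp

/-- the null Lagrangian `W`: no term on the line `η = h` -/
theorem nullW_H {W Wx Wy : ℂ → ℝ} (hW : C1f W Wx Wy) {X : ℂ → ℂ} {x₁ x₂ h : ℝ}
    (hx : x₁ ≤ x₂) (hh : 0 ≤ h) (hX : AnalyticOnNhd ℂ X (RectH x₁ x₂ h))
    {χ χ₁ : ℝ → ℝ} (h1 : ∀ ξ, HasDerivAt χ (χ₁ ξ) ξ) (h1c : Continuous χ₁)
    (e1 : χ x₁ = 0) (e2 : χ x₂ = 0) {b : ℝ → ℝ} (hb : Continuous b) :
    IH x₁ x₂ h (fun ξ η => χ ξ * (b η * (Wx (X (pt ξ η)) * (deriv X (pt ξ η)).re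
      + Wy (X (pt ξ η)) * (deriv X (pt ξ η)).im))) =
    - IH x₁ x₂ h (fun ξ η => χ₁ ξ * (b η * W (X (pt ξ η)))) := by
  have χc : Continuous χ := continuous_iff_continuousAt.2 fun ξ => (h1 ξ).continuousAt
  have cX := contH hX.continuousOn
  have cY := contH hX.deriv.continuousOn
  have c1 : ContinuousOn (fun p : ℝ × ℝ => Wx (X (pt p.1 p.2))) (Icc x₁ x₂ ×ˢ Icc 0 h) :=
    hW.cx.comp_continuousOn cX
  have c2 : ContinuousOn (fun p : ℝ × ℝ => Wy (X (pt p.1 p.2))) (Icc x₁ x₂ ×ˢ Icc 0 h) :=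
    hW.cy.comp_continuousOn cX
  have c3 : ContinuousOn (fun p : ℝ × ℝ => W (X (pt p.1 p.2))) (Icc x₁ x₂ ×ˢ Icc 0 h) :=
    (Pool.Agent.Helper4.EK.C1f.continuous hW).comp_continuousOn cX
  have c4 : ContinuousOn (fun p : ℝ × ℝ => (deriv X (pt p.1 p.2)).re)
      (Icc x₁ x₂ ×ˢ Icc 0 h) := Complex.continuous_re.comp_continuousOn cY
  have c5 : ContinuousOn (fun p : ℝ × ℝ => (deriv X (pt p.1 p.2)).im)
      (Icc x₁ x₂ ×ˢ Icc 0 h) := Complex.continuous_im.comp_continuousOn cY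
  have bc : ContinuousOn (fun p : ℝ × ℝ => b p.2) (Icc x₁ x₂ ×ˢ Icc 0 h) :=
    (hb.comp continuous_snd).continuousOn
  have cc : ContinuousOn (fun p : ℝ × ℝ => χ p.1) (Icc x₁ x₂ ×ˢ Icc 0 h) :=
    (χc.comp continuous_fst).continuousOn
  have cc1 : ContinuousOn (fun p : ℝ × ℝ => χ₁ p.1) (Icc x₁ x₂ ×ˢ Icc 0 h) :=
    (h1c.comp continuous_fst).continuousOn
  have C1 : ContinuousOn (fun p : ℝ × ℝ => χ p.1 * (b p.2 * (Wx (X (pt p.1 p.2)) *
      (deriv X (pt p.1 p.2)).re + Wy (X (pt p.1 p.2)) * (deriv X (pt p.1 p.2)).im)))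
      (Icc x₁ x₂ ×ˢ Icc 0 h) := cc.mul (bc.mul ((c1.mul c4).add (c2.mul c5)))
  have C2 : ContinuousOn (fun p : ℝ × ℝ => χ₁ p.1 * (b p.2 * W (X (pt p.1 p.2))))
      (Icc x₁ x₂ ×ˢ Icc 0 h) := cc1.mul (bc.mul c3)
  have S1 := swap_of_continuousOn (F := fun ξ η => χ ξ * (b η * (Wx (X (pt ξ η)) *
      (deriv X (pt ξ η)).re + Wy (X (pt ξ η)) * (deriv X (pt ξ η)).im))) hx hh C1
  have S2 := swap_of_continuousOn (F := fun ξ η => χ₁ ξ * (b η * W (X (pt ξ η)))) hx hh C2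
  unfold IH
  rw [S1, S2, ← intervalIntegral.integral_neg]
  apply intervalIntegral.integral_congr
  intro η hη
  rw [uIcc_of_le hh] at hη
  have hsub : MapsTo (fun ξ : ℝ => (ξ, η)) (uIcc x₁ x₂) (Icc x₁ x₂ ×ˢ Icc 0 h) := by
    intro ξ hξ
    rw [uIcc_of_le hx] at hξ
    exact ⟨hξ, hη⟩
  have D1 : ContinuousOn (fun ξ : ℝ => χ ξ * (b η * (Wx (X (pt ξ η)) *
      (deriv X (pt ξ η)).re + Wy (X (pt ξ η)) * (deriv X (pt ξ η)).im))) (uIcc x₁ x₂) :=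
    C1.comp (f := fun ξ : ℝ => (ξ, η)) (by fun_prop) hsub
  have D2 : ContinuousOn (fun ξ : ℝ => χ₁ ξ * (b η * W (X (pt ξ η)))) (uIcc x₁ x₂) :=
    C2.comp (f := fun ξ : ℝ => (ξ, η)) (by fun_prop) hsub
  have key : ∫ ξ in x₁..x₂, (χ₁ ξ * (b η * W (X (pt ξ η))) + χ ξ * (b η * (Wx (X (pt ξ η)) *
      (deriv X (pt ξ η)).re + Wy (X (pt ξ η)) * (deriv X (pt ξ η)).im))) =
      χ x₂ * (b η * W (X (pt x₂ η))) - χ x₁ * (b η * W (X (pt x₁ η))) := by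
    refine intervalIntegral.integral_eq_sub_of_hasDerivAt
      (f := fun ξ => χ ξ * (b η * W (X (pt ξ η)))) ?_ (D2.add D1).intervalIntegrable
    intro ξ hξ
    rw [uIcc_of_le hx] at hξ
    have hd := hasDerivAt_comp_xi hW ((hX _ (pt_mem_RectH hξ hη)).differentiableAt)
    exact ((h1 ξ).mul (hd.const_mul (b η)))
  rw [intervalIntegral.integral_add D2.intervalIntegrable D1.intervalIntegrable, e1, e2] at key
  simp only [zero_mul, sub_zero] at key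
  linarith

/-- integration by parts along a line `η = h` -/
theorem nullW_line {W Wx Wy : ℂ → ℝ} (hW : C1f W Wx Wy) {X : ℂ → ℂ} {x₁ x₂ h : ℝ}
    (hx : x₁ ≤ x₂) (hX : ∀ ξ ∈ Icc x₁ x₂, AnalyticAt ℂ X (pt ξ h))
    {χ χ₁ : ℝ → ℝ} (h1 : ∀ ξ, HasDerivAt χ (χ₁ ξ) ξ) (h1c : Continuous χ₁)
    (e1 : χ x₁ = 0) (e2 : χ x₂ = 0) :
    ∫ ξ in x₁..x₂, χ ξ * (Wx (X (pt ξ h)) * (deriv X (pt ξ h)).re
      + Wy (X (pt ξ h)) * (deriv X (pt ξ h)).im) =
    - ∫ ξ in x₁..x₂, χ₁ ξ * W (X (pt ξ h)) := by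
  have χc : Continuous χ := continuous_iff_continuousAt.2 fun ξ => (h1 ξ).continuousAt
  have hp : Continuous (fun ξ : ℝ => pt ξ h) := by
    unfold pt
    fun_prop
  have cX : ContinuousOn (fun ξ : ℝ => X (pt ξ h)) (uIcc x₁ x₂) := by
    intro ξ hξ
    rw [uIcc_of_le hx] at hξ
    exact (ContinuousAt.comp (f := fun ξ : ℝ => pt ξ h) (hX ξ hξ).continuousAt
      hp.continuousAt).continuousWithinAt
  have cY : ContinuousOn (fun ξ : ℝ => deriv X (pt ξ h)) (uIcc x₁ x₂) := by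
    intro ξ hξ
    rw [uIcc_of_le hx] at hξ
    exact (ContinuousAt.comp (f := fun ξ : ℝ => pt ξ h) (hX ξ hξ).deriv.continuousAt
      hp.continuousAt).continuousWithinAt
  have D1 : ContinuousOn (fun ξ : ℝ => χ ξ * (Wx (X (pt ξ h)) * (deriv X (pt ξ h)).re
      + Wy (X (pt ξ h)) * (deriv X (pt ξ h)).im)) (uIcc x₁ x₂) :=
    χc.continuousOn.mul (((hW.cx.comp_continuousOn cX).mul
      (Complex.continuous_re.comp_continuousOn cY)).add ((hW.cy.comp_continuousOn cX).mul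
      (Complex.continuous_im.comp_continuousOn cY)))
  have D2 : ContinuousOn (fun ξ : ℝ => χ₁ ξ * W (X (pt ξ h))) (uIcc x₁ x₂) :=
    h1c.continuousOn.mul ((Pool.Agent.Helper4.EK.C1f.continuous hW).comp_continuousOn cX)
  have key : ∫ ξ in x₁..x₂, (χ₁ ξ * W (X (pt ξ h)) + χ ξ * (Wx (X (pt ξ h)) *
      (deriv X (pt ξ h)).re + Wy (X (pt ξ h)) * (deriv X (pt ξ h)).im)) =
      χ x₂ * W (X (pt x₂ h)) - χ x₁ * W (X (pt x₁ h)) := by
    refine intervalIntegral.integral_eq_sub_of_hasDerivAt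
      (f := fun ξ => χ ξ * W (X (pt ξ h))) ?_ (D2.add D1).intervalIntegrable
    intro ξ hξ
    rw [uIcc_of_le hx] at hξ
    have hd := hasDerivAt_comp_xi hW ((hX ξ hξ).differentiableAt)
    exact (h1 ξ).mul hd
  rw [intervalIntegral.integral_add D2.intervalIntegrable D1.intervalIntegrable, e1, e2] at key
  simp only [zero_mul, sub_zero] at key
  linarith

end Pool.Agent.Helper69.EK3

end

section

set_option autoImplicit false
open Complex MeasureTheory Metric Set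
open scoped Real ComplexConjugate

/-!
# Project EK3: integrals over a part of the strip, the mirror image, cut-off functions
-/

namespace Pool.Agent.Helper69.EK3

open Pool.Agent.Helper52.EK

/-- continuity on the closed rectangle `x₁ ≤ ξ ≤ x₂`, `0 ≤ η ≤ h` -/
def CH (x₁ x₂ h : ℝ) (F : ℝ → ℝ → ℝ) : Prop :=
  ContinuousOn (fun p : ℝ × ℝ => F p.1 p.2) (Icc x₁ x₂ ×ˢ Icc 0 h)

theorem CH.add {x₁ x₂ h : ℝ} {F G : ℝ → ℝ → ℝ} (hF : CH x₁ x₂ h F) (hG : CH x₁ x₂ h G) :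
    CH x₁ x₂ h (fun ξ η => F ξ η + G ξ η) := ContinuousOn.add hF hG

theorem CH.sub {x₁ x₂ h : ℝ} {F G : ℝ → ℝ → ℝ} (hF : CH x₁ x₂ h F) (hG : CH x₁ x₂ h G) :
    CH x₁ x₂ h (fun ξ η => F ξ η - G ξ η) := ContinuousOn.sub hF hG

theorem CH.mul {x₁ x₂ h : ℝ} {F G : ℝ → ℝ → ℝ} (hF : CH x₁ x₂ h F) (hG : CH x₁ x₂ h G) :
    CH x₁ x₂ h (fun ξ η => F ξ η * G ξ η) := ContinuousOn.mul hF hG

theorem CH.neg {x₁ x₂ h : ℝ} {F : ℝ → ℝ → ℝ} (hF : CH x₁ x₂ h F) :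
    CH x₁ x₂ h (fun ξ η => - F ξ η) := ContinuousOn.neg hF

theorem CH_const {x₁ x₂ h : ℝ} (c : ℝ) : CH x₁ x₂ h (fun _ _ => c) := continuousOn_const

theorem CH_xi {x₁ x₂ h : ℝ} {f : ℝ → ℝ} (hf : Continuous f) : CH x₁ x₂ h (fun ξ _ => f ξ) :=
  (hf.comp continuous_fst).continuousOn

theorem CH_eta {x₁ x₂ h : ℝ} {f : ℝ → ℝ} (hf : Continuous f) : CH x₁ x₂ h (fun _ η => f η) :=
  (hf.comp continuous_snd).continuousOn

theorem CH_sum {ι : Type} (s : Finset ι) {x₁ x₂ h : ℝ} {F : ι → ℝ → ℝ → ℝ}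
    (hF : ∀ i ∈ s, CH x₁ x₂ h (F i)) : CH x₁ x₂ h (fun ξ η => ∑ i ∈ s, F i ξ η) :=
  continuousOn_finsetSum s hF

theorem CH_comp {x₁ x₂ h : ℝ} {X : ℂ → ℂ} (hX : ContinuousOn X (RectH x₁ x₂ h)) {W : ℂ → ℝ}
    (hW : Continuous W) : CH x₁ x₂ h (fun ξ η => W (X (pt ξ η))) :=
  hW.comp_continuousOn (contH hX)

theorem CH.integrableOn {x₁ x₂ h : ℝ} {F : ℝ → ℝ → ℝ} (hF : CH x₁ x₂ h F) :
    IntegrableOn (fun p : ℝ × ℝ => F p.1 p.2) (Icc x₁ x₂ ×ˢ Icc 0 h) :=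
  ContinuousOn.integrableOn_compact (isCompact_Icc.prod isCompact_Icc) hF

theorem IH_eq {x₁ x₂ h : ℝ} (hx : x₁ ≤ x₂) (hh : 0 ≤ h) {F : ℝ → ℝ → ℝ} (hF : CH x₁ x₂ h F) :
    IH x₁ x₂ h F = ∫ p in Icc x₁ x₂ ×ˢ Icc 0 h, F p.1 p.2 := by
  have h1 : ∫ p in Icc x₁ x₂ ×ˢ Icc 0 h, F p.1 p.2 =
      ∫ ξ in Icc x₁ x₂, ∫ η in Icc (0:ℝ) h, F ξ η := by
    have h2 := hF.integrableOn
    rw [Measure.volume_eq_prod] at h2 ⊢
    exact setIntegral_prod _ h2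
  rw [h1]
  unfold IH
  rw [intervalIntegral.integral_of_le hx, ← integral_Icc_eq_integral_Ioc]
  refine setIntegral_congr_fun measurableSet_Icc fun ξ _ => ?_
  rw [intervalIntegral.integral_of_le hh, ← integral_Icc_eq_integral_Ioc]

theorem IH_add {x₁ x₂ h : ℝ} (hx : x₁ ≤ x₂) (hh : 0 ≤ h) {F G : ℝ → ℝ → ℝ}
    (hF : CH x₁ x₂ h F) (hG : CH x₁ x₂ h G) :
    IH x₁ x₂ h (fun ξ η => F ξ η + G ξ η) = IH x₁ x₂ h F + IH x₁ x₂ h G := by
  rw [IH_eq hx hh (hF.add hG), IH_eq hx hh hF, IH_eq hx hh hG]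
  exact integral_add hF.integrableOn hG.integrableOn

theorem IH_sum {ι : Type} (s : Finset ι) {x₁ x₂ h : ℝ} (hx : x₁ ≤ x₂) (hh : 0 ≤ h)
    {F : ι → ℝ → ℝ → ℝ} (hF : ∀ i ∈ s, CH x₁ x₂ h (F i)) :
    IH x₁ x₂ h (fun ξ η => ∑ i ∈ s, F i ξ η) = ∑ i ∈ s, IH x₁ x₂ h (F i) := by
  rw [IH_eq hx hh (CH_sum s hF)]
  rw [integral_finsetSum s fun i hi => (hF i hi).integrableOn]
  exact Finset.sum_congr rfl fun i hi => (IH_eq hx hh (hF i hi)).symm

theorem IH_const_mul {x₁ x₂ h : ℝ} (c : ℝ) (F : ℝ → ℝ → ℝ) :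
    IH x₁ x₂ h (fun ξ η => c * F ξ η) = c * IH x₁ x₂ h F := by
  unfold IH
  simp only [intervalIntegral.integral_const_mul]

theorem IH_mono {x₁ x₂ h : ℝ} (hx : x₁ ≤ x₂) (hh : 0 ≤ h) {F G : ℝ → ℝ → ℝ}
    (hF : CH x₁ x₂ h F) (hG : CH x₁ x₂ h G)
    (hle : ∀ ξ ∈ Icc x₁ x₂, ∀ η ∈ Icc (0:ℝ) h, F ξ η ≤ G ξ η) :
    IH x₁ x₂ h F ≤ IH x₁ x₂ h G := by
  rw [IH_eq hx hh hF, IH_eq hx hh hG]
  exact setIntegral_mono_on hF.integrableOn hG.integrableOn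
    (measurableSet_Icc.prod measurableSet_Icc) fun p hp => hle p.1 hp.1 p.2 hp.2

theorem IH_xi {x₁ x₂ h : ℝ} (f : ℝ → ℝ) :
    IH x₁ x₂ h (fun ξ _ => f ξ) = h * ∫ ξ in x₁..x₂, f ξ := by
  unfold IH
  simp only [intervalIntegral.integral_const, sub_zero, smul_eq_mul,
    intervalIntegral.integral_const_mul]

/-- the error terms: `|F| ≤ |f| A (1 + N)` with `|f| ≤ k`, `∫|f| ≤ B` -/
theorem IH_err {x₁ x₂ h : ℝ} (hx : x₁ ≤ x₂) (hh : 0 ≤ h) {F N : ℝ → ℝ → ℝ} {f : ℝ → ℝ}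
    {k A B : ℝ} (hA : 0 ≤ A) (hf : Continuous f) (hF : CH x₁ x₂ h F) (hN : CH x₁ x₂ h N)
    (hN0 : ∀ ξ ∈ Icc x₁ x₂, ∀ η ∈ Icc (0:ℝ) h, 0 ≤ N ξ η)
    (hk : ∀ ξ, |f ξ| ≤ k) (hB : ∫ ξ in x₁..x₂, |f ξ| ≤ B)
    (hle : ∀ ξ ∈ Icc x₁ x₂, ∀ η ∈ Icc (0:ℝ) h, |F ξ η| ≤ |f ξ| * (A * (1 + N ξ η))) :
    |IH x₁ x₂ h F| ≤ A * (h * B + k * IH x₁ x₂ h N) := by
  have cf : CH x₁ x₂ h (fun ξ _ => |f ξ|) := CH_xi hf.abs
  have cG : CH x₁ x₂ h (fun ξ η => A * (|f ξ| + k * N ξ η)) :=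
    (CH_const A).mul (cf.add ((CH_const k).mul hN))
  have eG : IH x₁ x₂ h (fun ξ η => A * (|f ξ| + k * N ξ η)) =
      A * (h * (∫ ξ in x₁..x₂, |f ξ|) + k * IH x₁ x₂ h N) := by
    rw [IH_const_mul, IH_add hx hh cf ((CH_const k).mul hN), IH_const_mul, IH_xi]
  have hb : A * (h * (∫ ξ in x₁..x₂, |f ξ|) + k * IH x₁ x₂ h N) ≤
      A * (h * B + k * IH x₁ x₂ h N) := by
    refine mul_le_mul_of_nonneg_left ?_ hA
    have := mul_le_mul_of_nonneg_left hB hh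
    linarith
  have hpt : ∀ ξ ∈ Icc x₁ x₂, ∀ η ∈ Icc (0:ℝ) h, |F ξ η| ≤ A * (|f ξ| + k * N ξ η) := by
    intro ξ hξ η hη
    refine (hle ξ hξ η hη).trans ?_
    have h1 := mul_le_mul_of_nonneg_right (hk ξ) (hN0 ξ hξ η hη)
    have h2 := mul_le_mul_of_nonneg_left h1 hA
    nlinarith
  rw [abs_le]
  constructor
  · have h1 := IH_mono hx hh (cG.neg) hF fun ξ hξ η hη => (abs_le.1 (hpt ξ hξ η hη)).1
    have h2 : IH x₁ x₂ h (fun ξ η => - (A * (|f ξ| + k * N ξ η))) =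
        - IH x₁ x₂ h (fun ξ η => A * (|f ξ| + k * N ξ η)) := by
      have := IH_const_mul (x₁ := x₁) (x₂ := x₂) (h := h) (-1)
        (fun ξ η => A * (|f ξ| + k * N ξ η))
      simpa using this
    rw [h2, eG] at h1
    linarith
  · have h1 := IH_mono hx hh hF cG fun ξ hξ η hη => (abs_le.1 (hpt ξ hξ η hη)).2
    rw [eG] at h1
    linarith

/-! ### the mirror image -/

/-- the mirror image of a function on the strip -/
noncomputable def mir (X : ℂ → ℂ) (ω : ℂ) : ℂ := conj (X (conj ω + π * I))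

theorem conj_pt (ξ η : ℝ) : conj (pt ξ η) + π * I = pt ξ (π - η) := by
  simp only [pt, map_add, map_mul, conj_ofReal, conj_I, ofReal_sub]
  ring

theorem mir_pt (X : ℂ → ℂ) (ξ η : ℝ) : mir X (pt ξ η) = conj (X (pt ξ (π - η))) := by
  rw [mir, conj_pt]

theorem mir_hasDerivAt {X : ℂ → ℂ} {ω d : ℂ} (hX : HasDerivAt X d (conj ω + π * I)) :
    HasDerivAt (mir X) (conj d) ω := by
  have h1 : HasDerivAt (fun z : ℂ => X (z + π * I)) d (conj ω) := hX.comp_add_const _ _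
  have h2 := h1.conj_conj
  rw [starRingEnd_self_apply] at h2
  exact h2

theorem mir_deriv_pt {X : ℂ → ℂ} {ξ η : ℝ} (hX : DifferentiableAt ℂ X (pt ξ (π - η))) :
    deriv (mir X) (pt ξ η) = conj (deriv X (pt ξ (π - η))) := by
  have h1 : HasDerivAt X (deriv X (pt ξ (π - η))) (conj (pt ξ η) + π * I) := by
    rw [conj_pt]
    exact hX.hasDerivAt
  exact (mir_hasDerivAt h1).deriv

theorem mir_an {X : ℂ → ℂ} {ω : ℂ} (hX : AnalyticAt ℂ X (conj ω + π * I)) :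
    AnalyticAt ℂ (mir X) ω := by
  rw [Complex.analyticAt_iff_eventually_differentiableAt] at hX ⊢
  have hc : Filter.Tendsto (fun z : ℂ => conj z + π * I) (nhds ω) (nhds (conj ω + π * I)) :=
    (Complex.continuous_conj.add continuous_const).continuousAt
  filter_upwards [hc.eventually hX] with z hz
  exact (mir_hasDerivAt hz.hasDerivAt).differentiableAt

theorem mir_mem {x₁ x₂ : ℝ} {ω : ℂ} (hω : ω ∈ RectH x₁ x₂ (π / 2)) :
    conj ω + π * I ∈ Rect x₁ x₂ := by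
  obtain ⟨h1, h2⟩ := hω
  simp only [mem_preimage, mem_Icc] at h1 h2
  have := Real.pi_pos
  constructor
  · simp only [mem_preimage, mem_Icc, add_re, conj_re, mul_re, ofReal_re, I_re, mul_zero,
      ofReal_im, I_im, mul_one, sub_self, add_zero]
    exact h1
  · simp only [mem_preimage, mem_Icc, add_im, conj_im, mul_im, ofReal_re, I_im, mul_one,
      ofReal_im, I_re, mul_zero, add_zero]
    constructor <;> linarith [h2.1, h2.2]

theorem rectH_sub {x₁ x₂ : ℝ} : RectH x₁ x₂ (π / 2) ⊆ Rect x₁ x₂ := by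
  rintro ω ⟨h1, h2⟩
  refine ⟨h1, ?_⟩
  simp only [mem_preimage, mem_Icc] at h2 ⊢
  have := Real.pi_pos
  constructor <;> linarith [h2.1, h2.2]

theorem mir_an_H {X : ℂ → ℂ} {x₁ x₂ : ℝ} (hX : AnalyticOnNhd ℂ X (Rect x₁ x₂)) :
    AnalyticOnNhd ℂ (mir X) (RectH x₁ x₂ (π / 2)) := fun _ hω => mir_an (hX _ (mir_mem hω))

/-- the integral over the strip is the sum over the two halves -/
theorem II_split {x₁ x₂ : ℝ} (hx : x₁ ≤ x₂) {F : ℝ → ℝ → ℝ} (hF : CH x₁ x₂ π F) :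
    II x₁ x₂ F = IH x₁ x₂ (π / 2) F + IH x₁ x₂ (π / 2) (fun ξ η => F ξ (π - η)) := by
  have hpi := Real.pi_pos
  have c1 : CH x₁ x₂ (π / 2) F :=
    ContinuousOn.mono hF (prod_mono subset_rfl (Icc_subset_Icc le_rfl (by linarith)))
  have c2 : CH x₁ x₂ (π / 2) (fun ξ η => F ξ (π - η)) := by
    refine ContinuousOn.comp (g := fun p : ℝ × ℝ => F p.1 p.2)
      (f := fun p : ℝ × ℝ => (p.1, π - p.2)) hF (by fun_prop) ?_
    rintro ⟨x, y⟩ ⟨h1, h2⟩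
    refine ⟨h1, ?_⟩
    simp only [mem_Icc] at h2 ⊢
    constructor <;> linarith [h2.1, h2.2]
  have hs : ∀ ξ ∈ Icc x₁ x₂, ∫ η in (0:ℝ)..π, F ξ η =
      (∫ η in (0:ℝ)..(π / 2), F ξ η) + ∫ η in (0:ℝ)..(π / 2), F ξ (π - η) := by
    intro ξ hξ
    have cc : ContinuousOn (fun η => F ξ η) (Icc 0 π) := by
      refine ContinuousOn.comp (g := fun p : ℝ × ℝ => F p.1 p.2)
        (f := fun y : ℝ => (ξ, y)) hF (by fun_prop) ?_
      intro y hy
      exact ⟨hξ, hy⟩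
    have i1 : IntervalIntegrable (fun η => F ξ η) volume 0 (π / 2) :=
      (cc.mono (Icc_subset_Icc le_rfl (by linarith))).intervalIntegrable_of_Icc (by linarith)
    have i2 : IntervalIntegrable (fun η => F ξ η) volume (π / 2) π :=
      (cc.mono (Icc_subset_Icc (by linarith) le_rfl)).intervalIntegrable_of_Icc (by linarith)
    rw [← intervalIntegral.integral_add_adjacent_intervals i1 i2]
    congr 1
    have := intervalIntegral.integral_comp_sub_left (a := 0) (b := π / 2) (fun η => F ξ η) π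
    rw [this]
    congr 1 <;> ring
  have key : ∀ {H : ℝ → ℝ → ℝ}, CH x₁ x₂ (π / 2) H →
      IntervalIntegrable (fun x => ∫ y in (0:ℝ)..(π / 2), H x y) volume x₁ x₂ := by
    intro H hH
    have h2 : IntegrableOn (fun p : ℝ × ℝ => H p.1 p.2) (Ioc x₁ x₂ ×ˢ Ioc 0 (π / 2)) :=
      hH.integrableOn.mono_set (prod_mono Ioc_subset_Icc_self Ioc_subset_Icc_self)
    rw [IntegrableOn, Measure.volume_eq_prod, ← Measure.prod_restrict] at h2
    have h3 := h2.integral_prod_left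
    rw [intervalIntegrable_iff_integrableOn_Ioc_of_le hx, IntegrableOn]
    simpa only [intervalIntegral.integral_of_le (by linarith : (0:ℝ) ≤ π / 2)] using h3
  unfold II IH
  rw [← intervalIntegral.integral_add (key c1) (key c2)]
  refine intervalIntegral.integral_congr fun ξ hξ => ?_
  rw [uIcc_of_le hx] at hξ
  exact hs ξ hξ

/-! ### cut-off functions -/

/-- a cut-off function is locally constant in the middle, so the integral of its derivatives is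
bounded -/
theorem cut_int {x₁ x₂ l k : ℝ} (hl : 0 < l) (hx : x₁ + l ≤ x₂ - l) {f : ℝ → ℝ}
    (hf : Continuous f) (h0 : ∀ ξ ∈ Ioo (x₁ + l) (x₂ - l), f ξ = 0)
    (hk : ∀ ξ, |f ξ| ≤ k / l) : ∫ ξ in x₁..x₂, |f ξ| ≤ 2 * k := by
  have ii : ∀ a b : ℝ, IntervalIntegrable (fun ξ => |f ξ|) volume a b := fun a b =>
    hf.abs.intervalIntegrable _ _
  rw [← intervalIntegral.integral_add_adjacent_intervals (ii x₁ (x₁ + l)) (ii (x₁ + l) x₂),
    ← intervalIntegral.integral_add_adjacent_intervals (ii (x₁ + l) (x₂ - l)) (ii (x₂ - l) x₂)]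
  have hm : ∫ ξ in (x₁ + l)..(x₂ - l), |f ξ| = 0 := by
    rw [intervalIntegral.integral_of_le hx, integral_Ioc_eq_integral_Ioo]
    rw [setIntegral_congr_fun (g := fun _ => (0:ℝ)) measurableSet_Ioo]
    · simp
    · intro ξ hξ
      simp [h0 ξ hξ]
  have hbd : ∀ a b : ℝ, a ≤ b → ∫ ξ in a..b, |f ξ| ≤ (b - a) * (k / l) := by
    intro a b hab
    have := intervalIntegral.integral_mono_on hab (ii a b)
      (intervalIntegrable_const (c := k / l)) fun ξ _ => hk ξ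
    rwa [intervalIntegral.integral_const, smul_eq_mul] at this
  have b1 := hbd x₁ (x₁ + l) (by linarith)
  have b2 := hbd (x₂ - l) x₂ (by linarith)
  have e1 : (x₁ + l - x₁) * (k / l) = k := by
    rw [add_sub_cancel_left]
    exact mul_div_cancel₀ k hl.ne'
  have e2 : (x₂ - (x₂ - l)) * (k / l) = k := by
    rw [sub_sub_cancel]
    exact mul_div_cancel₀ k hl.ne'
  rw [e1] at b1
  rw [e2] at b2
  rw [hm]
  linarith

/-- the derivatives of a cut-off function vanish in the middle -/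
theorem cut_zero {y₁ y₂ : ℝ} {χ χ₁ χ₂ : ℝ → ℝ} (d1 : ∀ ξ, HasDerivAt χ (χ₁ ξ) ξ)
    (d2 : ∀ ξ, HasDerivAt χ₁ (χ₂ ξ) ξ) (h1 : ∀ ξ ∈ Icc y₁ y₂, χ ξ = 1) :
    (∀ ξ ∈ Ioo y₁ y₂, χ₁ ξ = 0) ∧ ∀ ξ ∈ Ioo y₁ y₂, χ₂ ξ = 0 := by
  have hz : ∀ ξ ∈ Ioo y₁ y₂, χ₁ ξ = 0 := by
    intro ξ hξ
    have he : χ =ᶠ[nhds ξ] fun _ => (1:ℝ) := by
      filter_upwards [Ioo_mem_nhds hξ.1 hξ.2] with t ht
      exact h1 t (Ioo_subset_Icc_self ht)
    have := (hasDerivAt_const ξ (1:ℝ)).congr_of_eventuallyEq he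
    exact (d1 ξ).unique this
  refine ⟨hz, fun ξ hξ => ?_⟩
  have he : χ₁ =ᶠ[nhds ξ] fun _ => (0:ℝ) := by
    filter_upwards [Ioo_mem_nhds hξ.1 hξ.2] with t ht
    exact hz t ht
  have := (hasDerivAt_const ξ (0:ℝ)).congr_of_eventuallyEq he
  exact (d2 ξ).unique this

/-! ### functions of class C¹ are Lipschitz on discs -/

theorem C1f_lip {W Wx Wy : ℂ → ℝ} (hW : C1f W Wx Wy) (r : ℝ) :
    ∃ M : ℝ, 0 ≤ M ∧ ∀ X ∈ closedBall (0:ℂ) r, ∀ X' ∈ closedBall (0:ℂ) r,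
      |W X - W X'| ≤ M * ‖X - X'‖ := by
  have hc : ContinuousOn (fun X : ℂ => |Wx X| + |Wy X|) (closedBall 0 r) :=
    (hW.cx.abs.add hW.cy.abs).continuousOn
  obtain ⟨M, hM⟩ := (isCompact_closedBall (0:ℂ) r).bddAbove_image hc
  refine ⟨max M 0, le_max_right _ _, fun X hX X' hX' => ?_⟩
  have hb : ∀ Z ∈ closedBall (0:ℂ) r, ‖(Wx Z • reCLM + Wy Z • imCLM : ℂ →L[ℝ] ℝ)‖ ≤ max M 0 := by
    intro Z hZ
    have h1 : |Wx Z| + |Wy Z| ≤ M := hM (mem_image_of_mem _ hZ)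
    refine (ContinuousLinearMap.opNorm_le_bound _ (by positivity) fun v => ?_).trans
      (h1.trans (le_max_left _ _))
    simp only [_root_.add_apply, _root_.smul_apply, reCLM_apply,
      imCLM_apply, smul_eq_mul, Real.norm_eq_abs]
    have h2 := abs_re_le_norm v
    have h3 := abs_im_le_norm v
    calc |Wx Z * v.re + Wy Z * v.im| ≤ |Wx Z * v.re| + |Wy Z * v.im| := abs_add_le _ _
      _ = |Wx Z| * |v.re| + |Wy Z| * |v.im| := by rw [abs_mul, abs_mul]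
      _ ≤ |Wx Z| * ‖v‖ + |Wy Z| * ‖v‖ := by gcongr
      _ = (|Wx Z| + |Wy Z|) * ‖v‖ := by ring
  have := (convex_closedBall (0:ℂ) r).norm_image_sub_le_of_norm_hasFDerivWithin_le
    (f := W) (f' := fun Z => (Wx Z • reCLM + Wy Z • imCLM : ℂ →L[ℝ] ℝ))
    (fun Z _ => (hW.hd Z).hasFDerivWithinAt) hb hX' hX
  simpa [Real.norm_eq_abs] using this

end Pool.Agent.Helper69.EK3

end

section

set_option autoImplicit false
open Complex MeasureTheory Metric Set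
open scoped Real ComplexConjugate

/-!
# Project EK3: null Lagrangians of the half strip as an abstract notion
-/

namespace Pool.Agent.Helper69.EK3

open Pool.Agent.Helper52.EK

/-- a cut-off function of the first variable with its derivatives -/
structure Cut (k l x₁ x₂ : ℝ) (χ χ₁ χ₂ : ℝ → ℝ) : Prop where
  d1 : ∀ ξ, HasDerivAt χ (χ₁ ξ) ξ
  d2 : ∀ ξ, HasDerivAt χ₁ (χ₂ ξ) ξ
  c2 : Continuous χ₂
  e1 : χ x₁ = 0
  e2 : χ x₂ = 0
  e3 : χ₁ x₁ = 0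
  e4 : χ₁ x₂ = 0
  b01 : ∀ ξ, 0 ≤ χ ξ ∧ χ ξ ≤ 1
  mid : ∀ ξ ∈ Icc (x₁ + l) (x₂ - l), χ ξ = 1
  k1 : ∀ ξ, |χ₁ ξ| ≤ k / l
  k2 : ∀ ξ, |χ₂ ξ| ≤ k / l
  i1 : ∫ ξ in x₁..x₂, |χ₁ ξ| ≤ 2 * k
  i2 : ∫ ξ in x₁..x₂, |χ₂ ξ| ≤ 2 * k

theorem Cut.cont {k l x₁ x₂ : ℝ} {χ χ₁ χ₂ : ℝ → ℝ} (h : Cut k l x₁ x₂ χ χ₁ χ₂) :
    Continuous χ := continuous_iff_continuousAt.2 fun ξ => (h.d1 ξ).continuousAt

theorem Cut.cont1 {k l x₁ x₂ : ℝ} {χ χ₁ χ₂ : ℝ → ℝ} (h : Cut k l x₁ x₂ χ χ₁ χ₂) :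
    Continuous χ₁ := continuous_iff_continuousAt.2 fun ξ => (h.d2 ξ).continuousAt

theorem exists_cut : ∃ k : ℝ, 0 ≤ k ∧ ∀ x₁ x₂ l : ℝ, 1 ≤ l → x₁ + l ≤ x₂ - l →
    ∃ χ χ₁ χ₂ : ℝ → ℝ, Cut k l x₁ x₂ χ χ₁ χ₂ := by
  obtain ⟨k, hk⟩ := Pool.Agent.Helper56.EK.cutoff
  have hk0 : 0 ≤ k := by
    obtain ⟨χ, χ₁, χ₂, -, -, -, -, -, -, -, -, -, h, -⟩ := hk 0 2 1 le_rfl (by norm_num)
    have := (abs_nonneg _).trans (h 0)
    simpa using this
  refine ⟨k, hk0, fun x₁ x₂ l hl hx => ?_⟩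
  obtain ⟨χ, χ₁, χ₂, d1, d2, c2, e1, e2, e3, e4, b01, b1, k1, k2⟩ := hk x₁ x₂ l hl hx
  have hz := cut_zero d1 d2 b1
  have c1 : Continuous χ₁ := continuous_iff_continuousAt.2 fun ξ => (d2 ξ).continuousAt
  exact ⟨χ, χ₁, χ₂, ⟨d1, d2, c2, e1, e2, e3, e4, b01, b1, k1, k2,
    cut_int (by linarith) hx c1 hz.1 k1, cut_int (by linarith) hx c2 hz.2 k2⟩⟩

/-- the energy on the half strip -/
noncomputable def En (X : ℂ → ℂ) (x₁ x₂ : ℝ) : ℝ :=
  IH x₁ x₂ (π / 2) (fun ξ η => ‖X (pt ξ η) - 1‖ ^ 2)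

/-- `X` is analytic without zeros near the half strip -/
structure NiceH (X : ℂ → ℂ) (x₁ x₂ : ℝ) : Prop where
  an : AnalyticOnNhd ℂ X (RectH x₁ x₂ (π / 2))
  ne : ∀ ω ∈ RectH x₁ x₂ (π / 2), X ω ≠ 0

theorem NiceX.half {X : ℂ → ℂ} {x₁ x₂ : ℝ} (h : NiceX X x₁ x₂) : NiceH X x₁ x₂ :=
  ⟨fun ω hω => h.an ω (rectH_sub hω), fun ω hω => h.ne ω (rectH_sub hω)⟩

theorem NiceX.mir {X : ℂ → ℂ} {x₁ x₂ : ℝ} (h : NiceX X x₁ x₂) : NiceH (mir X) x₁ x₂ :=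
  ⟨mir_an_H h.an, fun ω hω h0 => h.ne _ (mir_mem hω) (by
    unfold EK3.mir at h0
    exact (map_eq_zero _).1 h0)⟩

/-- `N` is a null Lagrangian of the half strip with the centre line term `K`, for the functions
`X` with the property `P X x₁ x₂`. -/
structure IsNull (P : (ℂ → ℂ) → ℝ → ℝ → Prop) (N : ℂ → ℂ → ℝ → ℝ) (K : ℂ → ℂ → ℝ) : Prop where
  cN : ContinuousOn (fun p : ℂ × ℂ × ℝ => N p.1 p.2.1 p.2.2) {p | p.1 ≠ 0}
  cK : ContinuousOn (fun p : ℂ × ℂ => K p.1 p.2) {p | p.1 ≠ 0}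
  le : ∀ k : ℝ, 0 ≤ k → ∃ C : ℝ, ∀ (X : ℂ → ℂ) (x₁ x₂ l : ℝ) (χ χ₁ χ₂ : ℝ → ℝ), 1 ≤ l →
    x₁ + l ≤ x₂ - l → Cut k l x₁ x₂ χ χ₁ χ₂ → NiceH X x₁ x₂ → P X x₁ x₂ →
    |IH x₁ x₂ (π / 2) (fun ξ η => χ ξ * N (X (pt ξ η)) (deriv X (pt ξ η)) η) -
      ∫ ξ in x₁..x₂, χ ξ * K (X (pt ξ (π / 2))) (deriv X (pt ξ (π / 2)))| ≤
      C * (1 + En X x₁ x₂ / l)

theorem En_nonneg {X : ℂ → ℂ} {x₁ x₂ : ℝ} (hx : x₁ ≤ x₂) : 0 ≤ En X x₁ x₂ := by
  unfold En IH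
  refine intervalIntegral.integral_nonneg hx fun ξ _ => ?_
  exact intervalIntegral.integral_nonneg (by positivity) fun η _ => sq_nonneg _

theorem CH_N {N : ℂ → ℂ → ℝ → ℝ}
    (cN : ContinuousOn (fun p : ℂ × ℂ × ℝ => N p.1 p.2.1 p.2.2) {p | p.1 ≠ 0})
    {X : ℂ → ℂ} {x₁ x₂ : ℝ} (h : NiceH X x₁ x₂) :
    CH x₁ x₂ (π / 2) (fun ξ η => N (X (pt ξ η)) (deriv X (pt ξ η)) η) := by
  have c1 := contH h.an.continuousOn
  have c2 := contH h.an.deriv.continuousOn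
  have c3 : ContinuousOn (fun p : ℝ × ℝ => p.2) (Icc x₁ x₂ ×ˢ Icc 0 (π / 2)) :=
    continuous_snd.continuousOn
  exact cN.comp (c1.prodMk (c2.prodMk c3)) fun p hp => h.ne _ (pt_mem_RectH hp.1 hp.2)

theorem cent_mem {x₁ x₂ ξ : ℝ} (hξ : ξ ∈ Icc x₁ x₂) : pt ξ (π / 2) ∈ RectH x₁ x₂ (π / 2) :=
  pt_mem_RectH hξ ⟨by positivity, le_rfl⟩

theorem contC {X : ℂ → ℂ} {x₁ x₂ : ℝ} (hX : ContinuousOn X (RectH x₁ x₂ (π / 2))) :
    ContinuousOn (fun ξ : ℝ => X (pt ξ (π / 2))) (Icc x₁ x₂) :=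
  hX.comp (by unfold pt; fun_prop) fun _ hξ => cent_mem hξ

theorem CC_K {K : ℂ → ℂ → ℝ} (cK : ContinuousOn (fun p : ℂ × ℂ => K p.1 p.2) {p | p.1 ≠ 0})
    {X : ℂ → ℂ} {x₁ x₂ : ℝ} (h : NiceH X x₁ x₂) :
    ContinuousOn (fun ξ => K (X (pt ξ (π / 2))) (deriv X (pt ξ (π / 2)))) (Icc x₁ x₂) :=
  cK.comp ((contC h.an.continuousOn).prodMk (contC h.an.deriv.continuousOn))
    fun _ hξ => h.ne _ (cent_mem hξ)

variable {P : (ℂ → ℂ) → ℝ → ℝ → Prop}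

theorem IsNull.add {N N' : ℂ → ℂ → ℝ → ℝ} {K K' : ℂ → ℂ → ℝ} (h : IsNull P N K)
    (h' : IsNull P N' K') :
    IsNull P (fun X Y η => N X Y η + N' X Y η) (fun X Y => K X Y + K' X Y) := by
  refine ⟨h.cN.add h'.cN, h.cK.add h'.cK, fun k hk => ?_⟩
  obtain ⟨C, hC⟩ := h.le k hk
  obtain ⟨C', hC'⟩ := h'.le k hk
  refine ⟨C + C', fun X x₁ x₂ l χ χ₁ χ₂ hl hx hc hX hP => ?_⟩
  have h1 := hC X x₁ x₂ l χ χ₁ χ₂ hl hx hc hX hP
  have h2 := hC' X x₁ x₂ l χ χ₁ χ₂ hl hx hc hX hP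
  have hx12 : x₁ ≤ x₂ := by linarith
  have a1 : CH x₁ x₂ (π / 2) (fun ξ η => χ ξ * N (X (pt ξ η)) (deriv X (pt ξ η)) η) :=
    (CH_xi hc.cont).mul (CH_N h.cN hX)
  have a2 : CH x₁ x₂ (π / 2) (fun ξ η => χ ξ * N' (X (pt ξ η)) (deriv X (pt ξ η)) η) :=
    (CH_xi hc.cont).mul (CH_N h'.cN hX)
  have s1 : IH x₁ x₂ (π / 2) (fun ξ η => χ ξ * (N (X (pt ξ η)) (deriv X (pt ξ η)) η +
      N' (X (pt ξ η)) (deriv X (pt ξ η)) η)) =
      IH x₁ x₂ (π / 2) (fun ξ η => χ ξ * N (X (pt ξ η)) (deriv X (pt ξ η)) η) +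
      IH x₁ x₂ (π / 2) (fun ξ η => χ ξ * N' (X (pt ξ η)) (deriv X (pt ξ η)) η) := by
    rw [← IH_add hx12 (by positivity) a1 a2]
    simp only [mul_add]
  have i1 : IntervalIntegrable (fun ξ => χ ξ * K (X (pt ξ (π / 2))) (deriv X (pt ξ (π / 2))))
      volume x₁ x₂ :=
    (hc.cont.continuousOn.mul (CC_K h.cK hX)).intervalIntegrable_of_Icc hx12
  have i2 : IntervalIntegrable (fun ξ => χ ξ * K' (X (pt ξ (π / 2))) (deriv X (pt ξ (π / 2))))
      volume x₁ x₂ :=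
    (hc.cont.continuousOn.mul (CC_K h'.cK hX)).intervalIntegrable_of_Icc hx12
  have s2 := intervalIntegral.integral_add i1 i2
  have s3 : ∫ ξ in x₁..x₂, χ ξ * (K (X (pt ξ (π / 2))) (deriv X (pt ξ (π / 2))) +
      K' (X (pt ξ (π / 2))) (deriv X (pt ξ (π / 2)))) =
      (∫ ξ in x₁..x₂, χ ξ * K (X (pt ξ (π / 2))) (deriv X (pt ξ (π / 2)))) +
      ∫ ξ in x₁..x₂, χ ξ * K' (X (pt ξ (π / 2))) (deriv X (pt ξ (π / 2))) := by
    rw [← s2]
    simp only [mul_add]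
  rw [s1, s3]
  rw [abs_le] at h1 h2 ⊢
  constructor <;> linarith [h1.1, h1.2, h2.1, h2.2, add_mul C C' (1 + En X x₁ x₂ / l)]

theorem IsNull.const_mul {N : ℂ → ℂ → ℝ → ℝ} {K : ℂ → ℂ → ℝ} (h : IsNull P N K) (c : ℝ) :
    IsNull P (fun X Y η => c * N X Y η) (fun X Y => c * K X Y) := by
  refine ⟨continuousOn_const.mul h.cN, continuousOn_const.mul h.cK, fun k hk => ?_⟩
  obtain ⟨C, hC⟩ := h.le k hk
  refine ⟨|c| * C, fun X x₁ x₂ l χ χ₁ χ₂ hl hx hc hX hP => ?_⟩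
  have h1 := hC X x₁ x₂ l χ χ₁ χ₂ hl hx hc hX hP
  have s1 : IH x₁ x₂ (π / 2) (fun ξ η => χ ξ * (c * N (X (pt ξ η)) (deriv X (pt ξ η)) η)) =
      c * IH x₁ x₂ (π / 2) (fun ξ η => χ ξ * N (X (pt ξ η)) (deriv X (pt ξ η)) η) := by
    rw [← IH_const_mul]
    simp only [mul_left_comm c]
  have s2 : ∫ ξ in x₁..x₂, χ ξ * (c * K (X (pt ξ (π / 2))) (deriv X (pt ξ (π / 2)))) =
      c * ∫ ξ in x₁..x₂, χ ξ * K (X (pt ξ (π / 2))) (deriv X (pt ξ (π / 2))) := by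
    rw [← intervalIntegral.integral_const_mul]
    simp only [mul_left_comm c]
  rw [s1, s2, ← mul_sub, abs_mul, mul_assoc]
  exact mul_le_mul_of_nonneg_left h1 (abs_nonneg c)

theorem IsNull.zero : IsNull P (fun _ _ _ => 0) (fun _ _ => 0) := by
  refine ⟨continuousOn_const, continuousOn_const, fun k _ => ⟨0, ?_⟩⟩
  intro X x₁ x₂ l χ χ₁ χ₂ hl hx hc hX hP
  simp [IH]

theorem IsNull.sum {ι : Type} (s : Finset ι) {N : ι → ℂ → ℂ → ℝ → ℝ} {K : ι → ℂ → ℂ → ℝ}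
    (h : ∀ i ∈ s, IsNull P (N i) (K i)) :
    IsNull P (fun X Y η => ∑ i ∈ s, N i X Y η) (fun X Y => ∑ i ∈ s, K i X Y) := by
  classical
  induction s using Finset.induction_on with
  | empty => simpa using IsNull.zero (P := P)
  | insert i s hi ih =>
    have h1 := (h i (Finset.mem_insert_self i s)).add
      (ih fun j hj => h j (Finset.mem_insert_of_mem hj))
    simpa only [Finset.sum_insert hi] using h1

theorem IsNull.congr {N N' : ℂ → ℂ → ℝ → ℝ} {K K' : ℂ → ℂ → ℝ} (h : IsNull P N K)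
    (hN : ∀ X Y η, N X Y η = N' X Y η) (hK : ∀ X Y, K X Y = K' X Y) : IsNull P N' K' := by
  have e1 : N = N' := by
    funext X Y η
    exact hN X Y η
  have e2 : K = K' := by
    funext X Y
    exact hK X Y
  rw [← e1, ← e2]
  exact h

/-- the null Lagrangian of a function `U` of class C² -/
theorem isNull_U {U Ux Uy Lap : ℂ → ℝ} (hU : C2f U Ux Uy Lap) {a a₁ a₂ : ℝ → ℝ}
    (g1 : ∀ η, HasDerivAt a (a₁ η) η) (g2 : ∀ η, HasDerivAt a₁ (a₂ η) η)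
    (g2c : Continuous a₂) (f1 : a 0 = 0) (f3 : a₁ 0 = 0) {C : ℝ}
    (bU : ∀ X, |U X| ≤ C * (1 + ‖X - 1‖ ^ 2)) :
    IsNull P (fun X Y η => a η * Lap X * ‖Y‖ ^ 2 - a₂ η * U X)
      (fun X Y => a (π / 2) * dEta Ux Uy X Y - a₁ (π / 2) * U X) := by
  have ca : Continuous a := continuous_iff_continuousAt.2 fun t => (g1 t).continuousAt
  have cU : Continuous U := Pool.Agent.Helper4.EK.C1f.continuous hU.h1
  have cL : Continuous Lap := by
    obtain ⟨Uxx, Uxy, Uyy, hUx, hUy, hLap⟩ := hU.h2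
    have : Lap = fun X => Uxx X + Uyy X := funext hLap
    rw [this]
    exact hUx.cx.add hUy.cy
  have cx := hU.h1.cx
  have cy := hU.h1.cy
  refine ⟨?_, ?_, fun k hk => ?_⟩
  · refine Continuous.continuousOn ?_
    fun_prop
  · refine Continuous.continuousOn ?_
    unfold dEta
    fun_prop
  · obtain ⟨M, hM⟩ := (isCompact_Icc (a := (0:ℝ)) (b := π / 2)).bddAbove_image ca.abs.continuousOn
    have hM' : ∀ η ∈ Icc (0:ℝ) (π / 2), |a η| ≤ M := fun η hη => hM (mem_image_of_mem _ hη)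
    have hM0 : 0 ≤ M := (abs_nonneg _).trans (hM' 0 ⟨le_rfl, by positivity⟩)
    have hC0 : 0 ≤ C := by
      have := (abs_nonneg _).trans (bU 1)
      simpa using this
    refine ⟨M * C * (π / 2 * (2 * k) + k), fun X x₁ x₂ l χ χ₁ χ₂ hl hx hc hX _ => ?_⟩
    have hx12 : x₁ ≤ x₂ := by linarith
    have hpi : (0:ℝ) ≤ π / 2 := by positivity
    have h1 := nullU_H hU hx12 hpi hX.an hc.d1 hc.d2 hc.c2 hc.e1 hc.e2 hc.e3 hc.e4 g1 g2 g2c
      f1 f3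
    rw [h1, add_sub_cancel_right]
    have n1 : CH x₁ x₂ (π / 2) (fun ξ η => ‖X (pt ξ η) - 1‖ ^ 2) :=
      CH_comp hX.an.continuousOn (W := fun X => ‖X - 1‖ ^ 2) (by fun_prop)
    have h2 := IH_err hx12 hpi (F := fun ξ η => χ₂ ξ * (a η * U (X (pt ξ η))))
      (N := fun ξ η => ‖X (pt ξ η) - 1‖ ^ 2) (A := M * C) (mul_nonneg hM0 hC0) hc.c2
      ((CH_xi hc.c2).mul ((CH_eta ca).mul (CH_comp hX.an.continuousOn cU))) n1
      (fun _ _ _ _ => sq_nonneg _) hc.k2 hc.i2 (by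
        intro ξ _ η hη
        rw [abs_mul, abs_mul]
        refine mul_le_mul_of_nonneg_left ?_ (abs_nonneg _)
        rw [mul_assoc]
        exact mul_le_mul (hM' η hη) (bU _) (abs_nonneg _) hM0)
    refine h2.trans ?_
    have hE := En_nonneg (X := X) hx12
    have e : k / l * IH x₁ x₂ (π / 2) (fun ξ η => ‖X (pt ξ η) - 1‖ ^ 2) =
        k * (En X x₁ x₂ / l) := by
      unfold En
      ring
    rw [e, mul_assoc (M * C)]
    refine mul_le_mul_of_nonneg_left ?_ (mul_nonneg hM0 hC0)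
    have hE' : 0 ≤ En X x₁ x₂ / l := div_nonneg hE (by linarith)
    nlinarith [mul_nonneg (mul_nonneg hpi (mul_nonneg zero_le_two hk)) hE']

/-- the null Lagrangian of a function `V`, in the direction of `η` -/
theorem isNull_V {V Vx Vy : ℂ → ℝ} (hV : C1f V Vx Vy) {b b₁ : ℝ → ℝ}
    (g1 : ∀ η, HasDerivAt b (b₁ η) η) (g1c : Continuous b₁) (f1 : b 0 = 0) :
    IsNull P (fun X Y η => b η * dEta Vx Vy X Y + b₁ η * V X) (fun X _ => b (π / 2) * V X) := by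
  have cb : Continuous b := continuous_iff_continuousAt.2 fun t => (g1 t).continuousAt
  have cV : Continuous V := Pool.Agent.Helper4.EK.C1f.continuous hV
  have cx := hV.cx
  have cy := hV.cy
  refine ⟨?_, ?_, fun k hk => ⟨0, ?_⟩⟩
  · refine Continuous.continuousOn ?_
    unfold dEta
    fun_prop
  · refine Continuous.continuousOn ?_
    fun_prop
  · intro X x₁ x₂ l χ χ₁ χ₂ hl hx hc hX _
    have h1 := nullV_H hV (by linarith : x₁ ≤ x₂) (by positivity : (0:ℝ) ≤ π / 2) hX.an χ g1 g1c f1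
    rw [h1]
    simp

/-- the null Lagrangian of a function `W`, in the direction of `ξ` -/
theorem isNull_W {W Wx Wy : ℂ → ℝ} (hW : C1f W Wx Wy) {b : ℝ → ℝ} (hb : Continuous b) {C : ℝ}
    (bW : ∀ X, |W X| ≤ C * (1 + ‖X - 1‖ ^ 2)) :
    IsNull P (fun X Y η => b η * (Wx X * Y.re + Wy X * Y.im)) (fun _ _ => 0) := by
  have cW : Continuous W := Pool.Agent.Helper4.EK.C1f.continuous hW
  have cx := hW.cx
  have cy := hW.cy
  refine ⟨?_, continuousOn_const, fun k hk => ?_⟩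
  · refine Continuous.continuousOn ?_
    fun_prop
  · obtain ⟨M, hM⟩ := (isCompact_Icc (a := (0:ℝ)) (b := π / 2)).bddAbove_image hb.abs.continuousOn
    have hM' : ∀ η ∈ Icc (0:ℝ) (π / 2), |b η| ≤ M := fun η hη => hM (mem_image_of_mem _ hη)
    have hM0 : 0 ≤ M := (abs_nonneg _).trans (hM' 0 ⟨le_rfl, by positivity⟩)
    have hC0 : 0 ≤ C := by
      have := (abs_nonneg _).trans (bW 1)
      simpa using this
    refine ⟨M * C * (π / 2 * (2 * k) + k), fun X x₁ x₂ l χ χ₁ χ₂ hl hx hc hX _ => ?_⟩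
    have hx12 : x₁ ≤ x₂ := by linarith
    have hpi : (0:ℝ) ≤ π / 2 := by positivity
    have h1 := nullW_H hW hx12 hpi hX.an hc.d1 hc.cont1 hc.e1 hc.e2 hb
    rw [h1]
    simp only [mul_zero, intervalIntegral.integral_zero, sub_zero, abs_neg]
    have n1 : CH x₁ x₂ (π / 2) (fun ξ η => ‖X (pt ξ η) - 1‖ ^ 2) :=
      CH_comp hX.an.continuousOn (W := fun X => ‖X - 1‖ ^ 2) (by fun_prop)
    have h2 := IH_err hx12 hpi (F := fun ξ η => χ₁ ξ * (b η * W (X (pt ξ η))))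
      (N := fun ξ η => ‖X (pt ξ η) - 1‖ ^ 2) (A := M * C) (mul_nonneg hM0 hC0) hc.cont1
      ((CH_xi hc.cont1).mul ((CH_eta hb).mul (CH_comp hX.an.continuousOn cW))) n1
      (fun _ _ _ _ => sq_nonneg _) hc.k1 hc.i1 (by
        intro ξ _ η hη
        rw [abs_mul, abs_mul]
        refine mul_le_mul_of_nonneg_left ?_ (abs_nonneg _)
        rw [mul_assoc]
        exact mul_le_mul (hM' η hη) (bW _) (abs_nonneg _) hM0)
    refine h2.trans ?_
    have hE := En_nonneg (X := X) hx12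
    have e : k / l * IH x₁ x₂ (π / 2) (fun ξ η => ‖X (pt ξ η) - 1‖ ^ 2) =
        k * (En X x₁ x₂ / l) := by
      unfold En
      ring
    rw [e, mul_assoc (M * C)]
    refine mul_le_mul_of_nonneg_left ?_ (mul_nonneg hM0 hC0)
    have hE' : 0 ≤ En X x₁ x₂ / l := div_nonneg hE (by linarith)
    nlinarith [mul_nonneg (mul_nonneg hpi (mul_nonneg zero_le_two hk)) hE']

end Pool.Agent.Helper69.EK3

end

section


/-!
# Project EK, E4d: from the pointwise inequality to the integrated one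

The theorem `strip_aux` has the null Lagrangian identities and the cut-off function as hypotheses.
-/

set_option autoImplicit false

open Complex MeasureTheory Metric Set
open scoped Real ComplexConjugate

namespace Pool.Agent.Helper44.EK

open Pool.Agent.Helper52.EK

/-! ### Double integrals of continuous functions over a rectangle -/

/-- The closed rectangle in the plane. -/
def RR (x₁ x₂ : ℝ) : Set (ℝ × ℝ) := Icc x₁ x₂ ×ˢ Icc 0 π

/-- Continuity on the closed rectangle. -/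
def CO (x₁ x₂ : ℝ) (F : ℝ → ℝ → ℝ) : Prop :=
  ContinuousOn (fun p : ℝ × ℝ => F p.1 p.2) (RR x₁ x₂)

theorem isCompact_RR (x₁ x₂ : ℝ) : IsCompact (RR x₁ x₂) := isCompact_Icc.prod isCompact_Icc

theorem measurableSet_RR (x₁ x₂ : ℝ) : MeasurableSet (RR x₁ x₂) :=
  measurableSet_Icc.prod measurableSet_Icc

theorem CO.integrableOn {x₁ x₂ : ℝ} {F : ℝ → ℝ → ℝ} (h : CO x₁ x₂ F) :
    IntegrableOn (fun p : ℝ × ℝ => F p.1 p.2) (RR x₁ x₂) :=
  ContinuousOn.integrableOn_compact (isCompact_RR x₁ x₂) h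

theorem II_eq {x₁ x₂ : ℝ} (hx : x₁ ≤ x₂) {F : ℝ → ℝ → ℝ} (hF : CO x₁ x₂ F) :
    II x₁ x₂ F = ∫ p in RR x₁ x₂, F p.1 p.2 := by
  have h1 : ∫ p in RR x₁ x₂, F p.1 p.2 = ∫ ξ in Icc x₁ x₂, ∫ η in Icc (0:ℝ) π, F ξ η := by
    have h2 := hF.integrableOn
    rw [Measure.volume_eq_prod] at h2 ⊢
    exact setIntegral_prod _ h2
  rw [h1]
  unfold II
  rw [intervalIntegral.integral_of_le hx, ← integral_Icc_eq_integral_Ioc]
  refine setIntegral_congr_fun measurableSet_Icc fun ξ _ => ?_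
  rw [intervalIntegral.integral_of_le Real.pi_pos.le, ← integral_Icc_eq_integral_Ioc]

theorem CO.add {x₁ x₂ : ℝ} {F G : ℝ → ℝ → ℝ} (hF : CO x₁ x₂ F) (hG : CO x₁ x₂ G) :
    CO x₁ x₂ (fun ξ η => F ξ η + G ξ η) := ContinuousOn.add hF hG

theorem CO.sub {x₁ x₂ : ℝ} {F G : ℝ → ℝ → ℝ} (hF : CO x₁ x₂ F) (hG : CO x₁ x₂ G) :
    CO x₁ x₂ (fun ξ η => F ξ η - G ξ η) := ContinuousOn.sub hF hG

theorem CO.mul {x₁ x₂ : ℝ} {F G : ℝ → ℝ → ℝ} (hF : CO x₁ x₂ F) (hG : CO x₁ x₂ G) :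
    CO x₁ x₂ (fun ξ η => F ξ η * G ξ η) := ContinuousOn.mul hF hG

theorem CO.neg {x₁ x₂ : ℝ} {F : ℝ → ℝ → ℝ} (hF : CO x₁ x₂ F) :
    CO x₁ x₂ (fun ξ η => - F ξ η) := ContinuousOn.neg hF

theorem CO.mono {x₁ x₂ y₁ y₂ : ℝ} {F : ℝ → ℝ → ℝ} (hF : CO x₁ x₂ F) (h1 : x₁ ≤ y₁)
    (h2 : y₂ ≤ x₂) : CO y₁ y₂ F :=
  ContinuousOn.mono hF (prod_mono (Icc_subset_Icc h1 h2) subset_rfl)

theorem CO_const {x₁ x₂ : ℝ} (c : ℝ) : CO x₁ x₂ (fun _ _ => c) := continuousOn_const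

theorem CO_xi {x₁ x₂ : ℝ} {f : ℝ → ℝ} (hf : Continuous f) : CO x₁ x₂ (fun ξ _ => f ξ) :=
  (hf.comp continuous_fst).continuousOn

theorem CO_eta {x₁ x₂ : ℝ} {f : ℝ → ℝ} (hf : Continuous f) : CO x₁ x₂ (fun _ η => f η) :=
  (hf.comp continuous_snd).continuousOn

theorem II_add {x₁ x₂ : ℝ} (hx : x₁ ≤ x₂) {F G : ℝ → ℝ → ℝ} (hF : CO x₁ x₂ F)
    (hG : CO x₁ x₂ G) : II x₁ x₂ (fun ξ η => F ξ η + G ξ η) = II x₁ x₂ F + II x₁ x₂ G := by
  rw [II_eq hx (hF.add hG), II_eq hx hF, II_eq hx hG]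
  exact integral_add hF.integrableOn hG.integrableOn

theorem II_const_mul {x₁ x₂ : ℝ} (c : ℝ) (F : ℝ → ℝ → ℝ) :
    II x₁ x₂ (fun ξ η => c * F ξ η) = c * II x₁ x₂ F := by
  unfold II
  simp only [intervalIntegral.integral_const_mul]

theorem II_mono {x₁ x₂ : ℝ} (hx : x₁ ≤ x₂) {F G : ℝ → ℝ → ℝ} (hF : CO x₁ x₂ F)
    (hG : CO x₁ x₂ G) (h : ∀ ξ ∈ Icc x₁ x₂, ∀ η ∈ Icc (0:ℝ) π, F ξ η ≤ G ξ η) :
    II x₁ x₂ F ≤ II x₁ x₂ G := by
  rw [II_eq hx hF, II_eq hx hG]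
  exact setIntegral_mono_on hF.integrableOn hG.integrableOn (measurableSet_RR _ _)
    fun p hp => h p.1 hp.1 p.2 hp.2

theorem II_sub_le {x₁ x₂ y₁ y₂ : ℝ} (h1 : x₁ ≤ y₁) (h12 : y₁ ≤ y₂) (h2 : y₂ ≤ x₂)
    {F G : ℝ → ℝ → ℝ} (hF : CO x₁ x₂ F) (hG : CO y₁ y₂ G)
    (h0 : ∀ ξ ∈ Icc x₁ x₂, ∀ η ∈ Icc (0:ℝ) π, 0 ≤ F ξ η)
    (h : ∀ ξ ∈ Icc y₁ y₂, ∀ η ∈ Icc (0:ℝ) π, G ξ η ≤ F ξ η) :
    II y₁ y₂ G ≤ II x₁ x₂ F := by
  refine (II_mono h12 hG (hF.mono h1 h2) h).trans ?_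
  rw [II_eq h12 (hF.mono h1 h2), II_eq (h1.trans (h12.trans h2)) hF]
  refine setIntegral_mono_set hF.integrableOn ?_ ?_
  · exact (ae_restrict_iff' (measurableSet_RR _ _)).2
      (Filter.Eventually.of_forall fun p hp => h0 p.1 hp.1 p.2 hp.2)
  · exact (prod_mono (Icc_subset_Icc h1 h2) subset_rfl).eventuallyLE

/-! ### Continuity of the functions of the certificate -/

theorem C1f.continuous {W Wx Wy : ℂ → ℝ} (h : C1f W Wx Wy) : Continuous W := by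
  rw [continuous_iff_continuousAt]
  exact fun X => (h.hd X).continuousAt

theorem pt_mem {x₁ x₂ : ℝ} {p : ℝ × ℝ} (hp : p ∈ RR x₁ x₂) : pt p.1 p.2 ∈ Rect x₁ x₂ := by
  rw [Rect, mem_reProdIm]
  simp only [pt, add_re, ofReal_re, mul_re, I_re, mul_zero, ofReal_im, I_im, mul_one, sub_self,
    add_zero, add_im, mul_im, zero_add]
  exact hp

theorem continuous_pt : Continuous (fun p : ℝ × ℝ => pt p.1 p.2) := by
  unfold pt
  fun_prop

theorem comp_pt {x₁ x₂ : ℝ} {X : ℂ → ℂ} (hX : ContinuousOn X (Rect x₁ x₂)) :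
    ContinuousOn (fun p : ℝ × ℝ => X (pt p.1 p.2)) (RR x₁ x₂) :=
  hX.comp continuous_pt.continuousOn fun _ hp => pt_mem hp

theorem CO_comp {x₁ x₂ : ℝ} {X : ℂ → ℂ} (hX : ContinuousOn X (Rect x₁ x₂)) {W : ℂ → ℝ}
    (hW : Continuous W) : CO x₁ x₂ (fun ξ η => W (X (pt ξ η))) :=
  hW.comp_continuousOn (comp_pt hX)

theorem GLip.continuous {G : ℂ → ℂ} {L : ℝ} (hG : GLip G L) : Continuous G := by
  have h : LipschitzWith L.toNNReal G := by
    refine LipschitzWith.of_dist_le_mul fun m m' => ?_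
    rw [dist_eq_norm, dist_eq_norm]
    refine (hG.lip m m').trans ?_
    exact mul_le_mul_of_nonneg_right (Real.le_coe_toNNReal L) (norm_nonneg _)
  exact h.continuous

theorem CO_TG {x₁ x₂ : ℝ} {X : ℂ → ℂ} (hX : NiceX X x₁ x₂) {G : ℂ → ℂ} (hG : Continuous G) :
    CO x₁ x₂ (fun ξ η => TG G (X (pt ξ η)) (deriv X (pt ξ η)) (Real.sin η) (Real.cos η)) := by
  have c1 := comp_pt hX.an.continuousOn
  have c2 := comp_pt (X := deriv X) hX.an.deriv.continuousOn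
  have c3 : ContinuousOn (fun p : ℝ × ℝ => e0 (Real.sin p.2) (Real.cos p.2)) (RR x₁ x₂) := by
    unfold e0
    fun_prop
  have c4 : ContinuousOn (fun p : ℝ × ℝ => mX (X (pt p.1 p.2)) (deriv X (pt p.1 p.2))
      (Real.sin p.2) (Real.cos p.2)) (RR x₁ x₂) := by
    unfold mX
    refine ((continuousOn_const.add c3).mul ?_).sub continuousOn_const
    refine (((continuousOn_const.mul c1).sub continuousOn_const)).add (c2.div c1 ?_)
    exact fun p hp => hX.ne _ (pt_mem hp)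
  unfold CO TG
  exact ((hG.comp_continuousOn c4).sub c3).norm.pow 2

/-! ### The hypotheses -/

/-- The null Lagrangian of a C² function. -/
def NullU : Prop := ∀ {U Ux Uy Lap : ℂ → ℝ} (_ : C2f U Ux Uy Lap) {X : ℂ → ℂ} {x₁ x₂ : ℝ}
    (_ : x₁ ≤ x₂) (_ : AnalyticOnNhd ℂ X (Rect x₁ x₂))
    {χ χ₁ χ₂ : ℝ → ℝ} (_ : ∀ ξ, HasDerivAt χ (χ₁ ξ) ξ) (_ : ∀ ξ, HasDerivAt χ₁ (χ₂ ξ) ξ)
    (_ : Continuous χ₂) (_ : χ x₁ = 0) (_ : χ x₂ = 0) (_ : χ₁ x₁ = 0) (_ : χ₁ x₂ = 0)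
    {a a₁ a₂ : ℝ → ℝ} (_ : ∀ η, HasDerivAt a (a₁ η) η) (_ : ∀ η, HasDerivAt a₁ (a₂ η) η)
    (_ : Continuous a₂) (_ : a 0 = 0) (_ : a π = 0) (_ : a₁ 0 = 0) (_ : a₁ π = 0),
    II x₁ x₂ (fun ξ η => χ ξ * (a η * Lap (X (pt ξ η)) * ‖deriv X (pt ξ η)‖ ^ 2
      - a₂ η * U (X (pt ξ η)))) =
    II x₁ x₂ (fun ξ η => χ₂ ξ * (a η * U (X (pt ξ η))))

/-- The null Lagrangian in the direction of `η`. -/
def NullV : Prop := ∀ {V Vx Vy : ℂ → ℝ} (_ : C1f V Vx Vy) {X : ℂ → ℂ} {x₁ x₂ : ℝ}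
    (_ : x₁ ≤ x₂) (_ : AnalyticOnNhd ℂ X (Rect x₁ x₂))
    {χ : ℝ → ℝ} (_ : Continuous χ) {b b₁ : ℝ → ℝ} (_ : ∀ η, HasDerivAt b (b₁ η) η)
    (_ : Continuous b₁) (_ : b 0 = 0) (_ : b π = 0),
    II x₁ x₂ (fun ξ η => χ ξ * (b η * (-Vx (X (pt ξ η)) * (deriv X (pt ξ η)).im
      + Vy (X (pt ξ η)) * (deriv X (pt ξ η)).re) + b₁ η * V (X (pt ξ η)))) = 0

/-- The null Lagrangian in the direction of `ξ`. -/
def NullW : Prop := ∀ {W Wx Wy : ℂ → ℝ} (_ : C1f W Wx Wy) {X : ℂ → ℂ} {x₁ x₂ : ℝ}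
    (_ : x₁ ≤ x₂) (_ : AnalyticOnNhd ℂ X (Rect x₁ x₂))
    {χ χ₁ : ℝ → ℝ} (_ : ∀ ξ, HasDerivAt χ (χ₁ ξ) ξ) (_ : Continuous χ₁)
    (_ : χ x₁ = 0) (_ : χ x₂ = 0) {b : ℝ → ℝ} (_ : Continuous b),
    II x₁ x₂ (fun ξ η => χ ξ * (b η * (Wx (X (pt ξ η)) * (deriv X (pt ξ η)).re
      + Wy (X (pt ξ η)) * (deriv X (pt ξ η)).im))) =
    - II x₁ x₂ (fun ξ η => χ₁ ξ * (b η * W (X (pt ξ η))))

/-- The cut-off functions. -/
def CutOff : Prop := ∃ C : ℝ, ∀ x₁ x₂ l : ℝ, 1 ≤ l → x₁ + l ≤ x₂ - l →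
    ∃ χ χ₁ χ₂ : ℝ → ℝ, (∀ ξ, HasDerivAt χ (χ₁ ξ) ξ) ∧ (∀ ξ, HasDerivAt χ₁ (χ₂ ξ) ξ) ∧
      Continuous χ₂ ∧ χ x₁ = 0 ∧ χ x₂ = 0 ∧ χ₁ x₁ = 0 ∧ χ₁ x₂ = 0 ∧
      (∀ ξ, 0 ≤ χ ξ ∧ χ ξ ≤ 1) ∧ (∀ ξ ∈ Icc (x₁ + l) (x₂ - l), χ ξ = 1) ∧
      (∀ ξ, |χ₁ ξ| ≤ C / l) ∧ (∀ ξ, |χ₂ ξ| ≤ C / l)

theorem hd_sq (η : ℝ) : HasDerivAt (fun t => Real.sin t ^ 2) (2 * Real.sin η * Real.cos η) η := by
  have := (Real.hasDerivAt_sin η).pow 2
  exact this.congr_deriv (by simp)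

theorem hd_sc (η : ℝ) : HasDerivAt (fun t => 2 * Real.sin t * Real.cos t)
    (2 * (Real.cos η ^ 2 - Real.sin η ^ 2)) η := by
  have := ((Real.hasDerivAt_sin η).const_mul 2).mul (Real.hasDerivAt_cos η)
  exact this.congr_deriv (by ring)

/-- The bound of an error term. -/
theorem err_le {x₁ x₂ : ℝ} (hx : x₁ ≤ x₂) {F N : ℝ → ℝ → ℝ} {c : ℝ} (hF : CO x₁ x₂ F)
    (hN : CO x₁ x₂ N) (h : ∀ ξ η, |F ξ η| ≤ c * N ξ η) :
    II x₁ x₂ F ≤ c * II x₁ x₂ N ∧ - II x₁ x₂ F ≤ c * II x₁ x₂ N := by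
  have hc : CO x₁ x₂ (fun ξ η => c * N ξ η) := (CO_const c).mul hN
  refine ⟨?_, ?_⟩
  · rw [← II_const_mul]
    exact II_mono hx hF hc fun ξ _ η _ => (abs_le.1 (h ξ η)).2
  · rw [← II_const_mul, ← neg_one_mul, ← II_const_mul]
    refine II_mono hx ((CO_const (-1)).mul hF) hc fun ξ _ η _ => ?_
    have := (abs_le.1 (h ξ η)).1
    linarith

theorem strip_aux (nU : NullU) (nV : NullV) (nW : NullW) (cut : CutOff)
    {κ₂ : ℝ} (hκ : 0 ≤ κ₂) {G : ℂ → ℂ} {L : ℝ} (hG : GLip G L)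
    {U Ux Uy Lap V Vx Vy V2 V2x V2y W Wx Wy W2 W2x W2y : ℂ → ℝ}
    (hU : C2f U Ux Uy Lap) (hV : C1f V Vx Vy) (hV2 : C1f V2 V2x V2y) (hW : C1f W Wx Wy)
    (hW2 : C1f W2 W2x W2y)
    {C : ℝ} (bU : ∀ X, |U X| ≤ C * ‖X - 1‖ ^ 2) (bW : ∀ X, |W X| ≤ C * ‖X - 1‖ ^ 2)
    (bW2 : ∀ X, |W2 X| ≤ C * ‖X - 1‖ ^ 2)
    (hp : ∀ X Y : ℂ, X ≠ 0 → ∀ s c : ℝ, s ^ 2 + c ^ 2 = 1 →
      TG G X Y s c ≤ κ₂ * ‖X - 1‖ ^ 2 + (s ^ 2 * Lap X * ‖Y‖ ^ 2 - 2 * (c ^ 2 - s ^ 2) * U X)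
        + (s ^ 2 * (Wx X * Y.re + Wy X * Y.im) + 2 * s * c * (W2x X * Y.re + W2y X * Y.im))
        + (s ^ 2 * (-Vx X * Y.im + Vy X * Y.re) + 2 * s * c * V X)
        + (2 * s * c * (-V2x X * Y.im + V2y X * Y.re) + 2 * (c ^ 2 - s ^ 2) * V2 X)) :
    StripIneq κ₂ (TG G) := by
  obtain ⟨C', hcut⟩ := cut
  refine ⟨3 * (C' * C), fun X x₁ x₂ l hl hx hX => ?_⟩
  obtain ⟨χ, χ₁, χ₂, d1, d2, c2, e1, e2, e3, e4, b01, b1, k1, k2⟩ := hcut x₁ x₂ l hl hx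
  have hx12 : x₁ ≤ x₂ := by linarith
  have hl0 : 0 < l := by linarith
  have hχ : Continuous χ := continuous_iff_continuousAt.2 fun ξ => (d1 ξ).continuousAt
  have hχ₁ : Continuous χ₁ := continuous_iff_continuousAt.2 fun ξ => (d2 ξ).continuousAt
  have hCC : 0 ≤ C' / l := (abs_nonneg _).trans (k1 0)
  -- continuity
  have cX := hX.an.continuousOn
  have cY : ContinuousOn (deriv X) (Rect x₁ x₂) := hX.an.deriv.continuousOn
  have yre : CO x₁ x₂ (fun ξ η => (deriv X (pt ξ η)).re) := CO_comp cY continuous_re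
  have yim : CO x₁ x₂ (fun ξ η => (deriv X (pt ξ η)).im) := CO_comp cY continuous_im
  have yn : CO x₁ x₂ (fun ξ η => ‖deriv X (pt ξ η)‖ ^ 2) := CO_comp cY (continuous_norm.pow 2)
  have n1 : CO x₁ x₂ (fun ξ η => ‖X (pt ξ η) - 1‖ ^ 2) :=
    CO_comp cX ((continuous_id.sub continuous_const).norm.pow 2)
  have xχ : CO x₁ x₂ (fun ξ _ => χ ξ) := CO_xi hχ
  have xχ₁ : CO x₁ x₂ (fun ξ _ => χ₁ ξ) := CO_xi hχ₁
  have xχ₂ : CO x₁ x₂ (fun ξ _ => χ₂ ξ) := CO_xi c2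
  have s2 : CO x₁ x₂ (fun _ η => Real.sin η ^ 2) := CO_eta (by fun_prop)
  have sc : CO x₁ x₂ (fun _ η => 2 * Real.sin η * Real.cos η) := CO_eta (by fun_prop)
  have cc : CO x₁ x₂ (fun _ η => 2 * (Real.cos η ^ 2 - Real.sin η ^ 2)) :=
    CO_eta (by fun_prop)
  have hLap : Continuous Lap := by
    obtain ⟨Uxx, Uxy, Uyy, g1, g2, g3⟩ := hU.h2
    have : Lap = fun X => Uxx X + Uyy X := funext g3
    rw [this]
    exact g1.cx.add g2.cy
  have oU := CO_comp cX (C1f.continuous hU.h1)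
  have oL := CO_comp cX hLap
  have oV := CO_comp cX (C1f.continuous hV)
  have oVx := CO_comp cX hV.cx
  have oVy := CO_comp cX hV.cy
  have oV2 := CO_comp cX (C1f.continuous hV2)
  have oV2x := CO_comp cX hV2.cx
  have oV2y := CO_comp cX hV2.cy
  have oW := CO_comp cX (C1f.continuous hW)
  have oWx := CO_comp cX hW.cx
  have oWy := CO_comp cX hW.cy
  have oW2 := CO_comp cX (C1f.continuous hW2)
  have oW2x := CO_comp cX hW2.cx
  have oW2y := CO_comp cX hW2.cy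
  have oT := CO_TG hX (GLip.continuous hG)
  -- the parts
  obtain ⟨F0, hF0⟩ : ∃ F : ℝ → ℝ → ℝ, F = fun ξ η => χ ξ * (κ₂ * ‖X (pt ξ η) - 1‖ ^ 2) :=
    ⟨_, rfl⟩
  obtain ⟨F1, hF1⟩ : ∃ F : ℝ → ℝ → ℝ, F = fun ξ η => χ ξ * (Real.sin η ^ 2 *
      Lap (X (pt ξ η)) * ‖deriv X (pt ξ η)‖ ^ 2 -
        2 * (Real.cos η ^ 2 - Real.sin η ^ 2) * U (X (pt ξ η))) := ⟨_, rfl⟩
  obtain ⟨F2, hF2⟩ : ∃ F : ℝ → ℝ → ℝ, F = fun ξ η => χ ξ * (Real.sin η ^ 2 *
      (Wx (X (pt ξ η)) * (deriv X (pt ξ η)).re + Wy (X (pt ξ η)) * (deriv X (pt ξ η)).im)) :=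
    ⟨_, rfl⟩
  obtain ⟨F3, hF3⟩ : ∃ F : ℝ → ℝ → ℝ, F = fun ξ η => χ ξ * (2 * Real.sin η * Real.cos η *
      (W2x (X (pt ξ η)) * (deriv X (pt ξ η)).re + W2y (X (pt ξ η)) * (deriv X (pt ξ η)).im)) :=
    ⟨_, rfl⟩
  obtain ⟨F4, hF4⟩ : ∃ F : ℝ → ℝ → ℝ, F = fun ξ η => χ ξ * (Real.sin η ^ 2 *
      (-Vx (X (pt ξ η)) * (deriv X (pt ξ η)).im + Vy (X (pt ξ η)) * (deriv X (pt ξ η)).re) +
        2 * Real.sin η * Real.cos η * V (X (pt ξ η))) := ⟨_, rfl⟩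
  obtain ⟨F5, hF5⟩ : ∃ F : ℝ → ℝ → ℝ, F = fun ξ η => χ ξ * (2 * Real.sin η * Real.cos η *
      (-V2x (X (pt ξ η)) * (deriv X (pt ξ η)).im + V2y (X (pt ξ η)) * (deriv X (pt ξ η)).re) +
        2 * (Real.cos η ^ 2 - Real.sin η ^ 2) * V2 (X (pt ξ η))) := ⟨_, rfl⟩
  have k0 : CO x₁ x₂ F0 := by
    rw [hF0]; exact xχ.mul ((CO_const κ₂).mul n1)
  have k1' : CO x₁ x₂ F1 := by
    rw [hF1]; exact xχ.mul (((s2.mul oL).mul yn).sub (cc.mul oU))
  have k2' : CO x₁ x₂ F2 := by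
    rw [hF2]; exact xχ.mul (s2.mul ((oWx.mul yre).add (oWy.mul yim)))
  have k3 : CO x₁ x₂ F3 := by
    rw [hF3]; exact xχ.mul (sc.mul ((oW2x.mul yre).add (oW2y.mul yim)))
  have k4 : CO x₁ x₂ F4 := by
    rw [hF4]; exact xχ.mul ((s2.mul ((oVx.neg.mul yim).add (oVy.mul yre))).add (sc.mul oV))
  have k5 : CO x₁ x₂ F5 := by
    rw [hF5]; exact xχ.mul ((sc.mul ((oV2x.neg.mul yim).add (oV2y.mul yre))).add (cc.mul oV2))
  -- the identities
  have i1 : II x₁ x₂ F1 = II x₁ x₂ (fun ξ η => χ₂ ξ * (Real.sin η ^ 2 * U (X (pt ξ η)))) := by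
    rw [hF1]
    exact nU hU hx12 hX.an d1 d2 c2 e1 e2 e3 e4 hd_sq hd_sc (by fun_prop) (by simp) (by simp)
      (by simp) (by simp)
  have i2 : II x₁ x₂ F2 = - II x₁ x₂ (fun ξ η => χ₁ ξ * (Real.sin η ^ 2 * W (X (pt ξ η)))) := by
    rw [hF2]
    exact nW hW hx12 hX.an d1 hχ₁ e1 e2 (by fun_prop)
  have i3 : II x₁ x₂ F3 =
      - II x₁ x₂ (fun ξ η => χ₁ ξ * (2 * Real.sin η * Real.cos η * W2 (X (pt ξ η)))) := by
    rw [hF3]
    exact nW hW2 hx12 hX.an d1 hχ₁ e1 e2 (by fun_prop)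
  have i4 : II x₁ x₂ F4 = 0 := by
    rw [hF4]
    exact nV hV hx12 hX.an hχ hd_sq (by fun_prop) (by simp) (by simp)
  have i5 : II x₁ x₂ F5 = 0 := by
    rw [hF5]
    exact nV hV2 hx12 hX.an hχ hd_sc (by fun_prop) (by simp) (by simp)
  -- the error terms
  have sin1 : ∀ η, |Real.sin η ^ 2| ≤ 1 := fun η => by
    rw [abs_of_nonneg (sq_nonneg _)]
    nlinarith [Real.sin_sq_add_cos_sq η, sq_nonneg (Real.cos η)]
  have sin2 : ∀ η, |2 * Real.sin η * Real.cos η| ≤ 1 := fun η => by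
    rw [abs_le]
    constructor
    · nlinarith [Real.sin_sq_add_cos_sq η, sq_nonneg (Real.sin η + Real.cos η)]
    · nlinarith [Real.sin_sq_add_cos_sq η, sq_nonneg (Real.sin η - Real.cos η)]
  have bd : ∀ {f g : ℝ} {u n : ℝ}, |f| ≤ C' / l → |g| ≤ 1 → |u| ≤ C * n →
      |f * (g * u)| ≤ C' / l * C * n := by
    intro f g u n h1 h2 h3
    rw [abs_mul, abs_mul, mul_assoc (C' / l)]
    refine mul_le_mul h1 ?_ (mul_nonneg (abs_nonneg _) (abs_nonneg _)) hCC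
    calc |g| * |u| ≤ 1 * |u| := mul_le_mul_of_nonneg_right h2 (abs_nonneg _)
      _ = |u| := one_mul _
      _ ≤ C * n := h3
  have r1 := (err_le hx12 (F := fun ξ η => χ₂ ξ * (Real.sin η ^ 2 * U (X (pt ξ η))))
    (xχ₂.mul (s2.mul oU)) n1 fun ξ η => bd (k2 ξ) (sin1 η) (bU _)).1
  have r2 := (err_le hx12 (F := fun ξ η => χ₁ ξ * (Real.sin η ^ 2 * W (X (pt ξ η))))
    (xχ₁.mul (s2.mul oW)) n1 fun ξ η => bd (k1 ξ) (sin1 η) (bW _)).2
  have r3 := (err_le hx12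
    (F := fun ξ η => χ₁ ξ * (2 * Real.sin η * Real.cos η * W2 (X (pt ξ η))))
    (xχ₁.mul (sc.mul oW2)) n1 fun ξ η => bd (k1 ξ) (sin2 η) (bW2 _)).2
  have r0 : II x₁ x₂ F0 ≤ κ₂ * II x₁ x₂ (fun ξ η => ‖X (pt ξ η) - 1‖ ^ 2) := by
    rw [← II_const_mul]
    refine II_mono hx12 k0 ((CO_const κ₂).mul n1) fun ξ _ η _ => ?_
    rw [hF0]
    have h1 : 0 ≤ κ₂ * ‖X (pt ξ η) - 1‖ ^ 2 := mul_nonneg hκ (sq_nonneg _)
    have h2 := (b01 ξ).2
    simp only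
    nlinarith
  -- the sum
  have hsum : II x₁ x₂ (fun ξ η => F0 ξ η + F1 ξ η + F2 ξ η + F3 ξ η + F4 ξ η + F5 ξ η) =
      II x₁ x₂ F0 + II x₁ x₂ F1 + II x₁ x₂ F2 + II x₁ x₂ F3 + II x₁ x₂ F4 + II x₁ x₂ F5 := by
    rw [II_add hx12 (((((k0.add k1').add k2').add k3)).add k4) k5,
      II_add hx12 ((((k0.add k1').add k2').add k3)) k4,
      II_add hx12 ((k0.add k1').add k2') k3, II_add hx12 (k0.add k1') k2', II_add hx12 k0 k1']
  have hS : CO x₁ x₂ (fun ξ η => F0 ξ η + F1 ξ η + F2 ξ η + F3 ξ η + F4 ξ η + F5 ξ η) :=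
    ((((k0.add k1').add k2').add k3).add k4).add k5
  have hle : ∀ ξ ∈ Icc x₁ x₂, ∀ η ∈ Icc (0:ℝ) π,
      χ ξ * TG G (X (pt ξ η)) (deriv X (pt ξ η)) (Real.sin η) (Real.cos η) ≤
        F0 ξ η + F1 ξ η + F2 ξ η + F3 ξ η + F4 ξ η + F5 ξ η := by
    intro ξ hξ η hη
    have hne : X (pt ξ η) ≠ 0 := hX.ne _ (pt_mem (p := (ξ, η)) ⟨hξ, hη⟩)
    have h1 := hp (X (pt ξ η)) (deriv X (pt ξ η)) hne (Real.sin η) (Real.cos η)
      (Real.sin_sq_add_cos_sq η)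
    have h2 := mul_le_mul_of_nonneg_left h1 (b01 ξ).1
    refine h2.trans (le_of_eq ?_)
    rw [hF0, hF1, hF2, hF3, hF4, hF5]
    ring
  have hmain : II (x₁ + l) (x₂ - l) (fun ξ η =>
      TG G (X (pt ξ η)) (deriv X (pt ξ η)) (Real.sin η) (Real.cos η)) ≤
      II x₁ x₂ (fun ξ η => χ ξ *
        TG G (X (pt ξ η)) (deriv X (pt ξ η)) (Real.sin η) (Real.cos η)) := by
    refine II_sub_le (by linarith) hx (by linarith) (xχ.mul oT)
      (oT.mono (by linarith) (by linarith)) (fun ξ _ η _ => ?_) fun ξ hξ η _ => ?_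
    · exact mul_nonneg (b01 ξ).1 (sq_nonneg _)
    · rw [b1 ξ hξ, one_mul]
  have hmid := II_mono hx12 (xχ.mul oT) hS hle
  rw [hsum, i1, i2, i3, i4, i5] at hmid
  refine (hmain.trans hmid).trans ?_
  have e : (κ₂ + 3 * (C' * C) / l) * II x₁ x₂ (fun ξ η => ‖X (pt ξ η) - 1‖ ^ 2) =
      κ₂ * II x₁ x₂ (fun ξ η => ‖X (pt ξ η) - 1‖ ^ 2) +
        3 * (C' / l * C * II x₁ x₂ (fun ξ η => ‖X (pt ξ η) - 1‖ ^ 2)) := by
    ring
  rw [e]
  linarith

end Pool.Agent.Helper44.EK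

end

section


/-!
# Project EK / EKC, E4d for a general functional: from the pointwise inequality to the integral
-/

set_option autoImplicit false

open Complex MeasureTheory Metric Set
open scoped Real ComplexConjugate

namespace Pool.Agent.Helper44.EK

open Pool.Agent.Helper52.EK

theorem CO_T {x₁ x₂ : ℝ} {X : ℂ → ℂ} (hX : NiceX X x₁ x₂) {T : ℂ → ℂ → ℝ → ℝ → ℝ}
    (hTc : ContinuousOn (fun p : ℂ × ℂ × ℝ × ℝ => T p.1 p.2.1 p.2.2.1 p.2.2.2) {p | p.1 ≠ 0}) :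
    CO x₁ x₂ (fun ξ η => T (X (pt ξ η)) (deriv X (pt ξ η)) (Real.sin η) (Real.cos η)) := by
  have c1 := comp_pt hX.an.continuousOn
  have c2 := comp_pt (X := deriv X) hX.an.deriv.continuousOn
  have c3 : ContinuousOn (fun p : ℝ × ℝ => Real.sin p.2) (RR x₁ x₂) :=
    (Real.continuous_sin.comp continuous_snd).continuousOn
  have c4 : ContinuousOn (fun p : ℝ × ℝ => Real.cos p.2) (RR x₁ x₂) :=
    (Real.continuous_cos.comp continuous_snd).continuousOn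
  exact hTc.comp (c1.prodMk (c2.prodMk (c3.prodMk c4))) fun p hp => hX.ne _ (pt_mem hp)

/-- E4d for a general functional `T`. -/
theorem strip_gen {κ₂ : ℝ} (hκ : 0 ≤ κ₂) {T : ℂ → ℂ → ℝ → ℝ → ℝ}
    (hT0 : ∀ (X Y : ℂ) (s c : ℝ), 0 ≤ T X Y s c)
    (hTc : ContinuousOn (fun p : ℂ × ℂ × ℝ × ℝ => T p.1 p.2.1 p.2.2.1 p.2.2.2) {p | p.1 ≠ 0})
    {U Ux Uy Lap V Vx Vy V2 V2x V2y W Wx Wy W2 W2x W2y : ℂ → ℝ}
    (hU : C2f U Ux Uy Lap) (hV : C1f V Vx Vy) (hV2 : C1f V2 V2x V2y) (hW : C1f W Wx Wy)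
    (hW2 : C1f W2 W2x W2y)
    {C : ℝ} (bU : ∀ X, |U X| ≤ C * ‖X - 1‖ ^ 2) (bW : ∀ X, |W X| ≤ C * ‖X - 1‖ ^ 2)
    (bW2 : ∀ X, |W2 X| ≤ C * ‖X - 1‖ ^ 2)
    (hp : ∀ X Y : ℂ, X ≠ 0 → ∀ s c : ℝ, s ^ 2 + c ^ 2 = 1 →
      T X Y s c ≤ κ₂ * ‖X - 1‖ ^ 2 + (s ^ 2 * Lap X * ‖Y‖ ^ 2 - 2 * (c ^ 2 - s ^ 2) * U X)
        + (s ^ 2 * (Wx X * Y.re + Wy X * Y.im) + 2 * s * c * (W2x X * Y.re + W2y X * Y.im))
        + (s ^ 2 * (-Vx X * Y.im + Vy X * Y.re) + 2 * s * c * V X)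
        + (2 * s * c * (-V2x X * Y.im + V2y X * Y.re) + 2 * (c ^ 2 - s ^ 2) * V2 X)) :
    StripIneq κ₂ T := by
  obtain ⟨C', hcut⟩ := Pool.Agent.Helper56.EK.cutoff
  refine ⟨3 * (C' * C), fun X x₁ x₂ l hl hx hX => ?_⟩
  obtain ⟨χ, χ₁, χ₂, d1, d2, c2, e1, e2, e3, e4, b01, b1, k1, k2⟩ := hcut x₁ x₂ l hl hx
  have hx12 : x₁ ≤ x₂ := by linarith
  have hl0 : 0 < l := by linarith
  have hχ : Continuous χ := continuous_iff_continuousAt.2 fun ξ => (d1 ξ).continuousAt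
  have hχ₁ : Continuous χ₁ := continuous_iff_continuousAt.2 fun ξ => (d2 ξ).continuousAt
  have hCC : 0 ≤ C' / l := (abs_nonneg _).trans (k1 0)
  -- continuity
  have cX := hX.an.continuousOn
  have cY : ContinuousOn (deriv X) (Rect x₁ x₂) := hX.an.deriv.continuousOn
  have yre : CO x₁ x₂ (fun ξ η => (deriv X (pt ξ η)).re) := CO_comp cY continuous_re
  have yim : CO x₁ x₂ (fun ξ η => (deriv X (pt ξ η)).im) := CO_comp cY continuous_im
  have yn : CO x₁ x₂ (fun ξ η => ‖deriv X (pt ξ η)‖ ^ 2) := CO_comp cY (continuous_norm.pow 2)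
  have n1 : CO x₁ x₂ (fun ξ η => ‖X (pt ξ η) - 1‖ ^ 2) :=
    CO_comp cX ((continuous_id.sub continuous_const).norm.pow 2)
  have xχ : CO x₁ x₂ (fun ξ _ => χ ξ) := CO_xi hχ
  have xχ₁ : CO x₁ x₂ (fun ξ _ => χ₁ ξ) := CO_xi hχ₁
  have xχ₂ : CO x₁ x₂ (fun ξ _ => χ₂ ξ) := CO_xi c2
  have s2 : CO x₁ x₂ (fun _ η => Real.sin η ^ 2) := CO_eta (by fun_prop)
  have sc : CO x₁ x₂ (fun _ η => 2 * Real.sin η * Real.cos η) := CO_eta (by fun_prop)
  have cc : CO x₁ x₂ (fun _ η => 2 * (Real.cos η ^ 2 - Real.sin η ^ 2)) :=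
    CO_eta (by fun_prop)
  have hLap : Continuous Lap := by
    obtain ⟨Uxx, Uxy, Uyy, g1, g2, g3⟩ := hU.h2
    have : Lap = fun X => Uxx X + Uyy X := funext g3
    rw [this]
    exact g1.cx.add g2.cy
  have oU := CO_comp cX (C1f.continuous hU.h1)
  have oL := CO_comp cX hLap
  have oV := CO_comp cX (C1f.continuous hV)
  have oVx := CO_comp cX hV.cx
  have oVy := CO_comp cX hV.cy
  have oV2 := CO_comp cX (C1f.continuous hV2)
  have oV2x := CO_comp cX hV2.cx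
  have oV2y := CO_comp cX hV2.cy
  have oW := CO_comp cX (C1f.continuous hW)
  have oWx := CO_comp cX hW.cx
  have oWy := CO_comp cX hW.cy
  have oW2 := CO_comp cX (C1f.continuous hW2)
  have oW2x := CO_comp cX hW2.cx
  have oW2y := CO_comp cX hW2.cy
  have oT := CO_T hX hTc
  -- the parts
  obtain ⟨F0, hF0⟩ : ∃ F : ℝ → ℝ → ℝ, F = fun ξ η => χ ξ * (κ₂ * ‖X (pt ξ η) - 1‖ ^ 2) :=
    ⟨_, rfl⟩
  obtain ⟨F1, hF1⟩ : ∃ F : ℝ → ℝ → ℝ, F = fun ξ η => χ ξ * (Real.sin η ^ 2 *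
      Lap (X (pt ξ η)) * ‖deriv X (pt ξ η)‖ ^ 2 -
        2 * (Real.cos η ^ 2 - Real.sin η ^ 2) * U (X (pt ξ η))) := ⟨_, rfl⟩
  obtain ⟨F2, hF2⟩ : ∃ F : ℝ → ℝ → ℝ, F = fun ξ η => χ ξ * (Real.sin η ^ 2 *
      (Wx (X (pt ξ η)) * (deriv X (pt ξ η)).re + Wy (X (pt ξ η)) * (deriv X (pt ξ η)).im)) :=
    ⟨_, rfl⟩
  obtain ⟨F3, hF3⟩ : ∃ F : ℝ → ℝ → ℝ, F = fun ξ η => χ ξ * (2 * Real.sin η * Real.cos η *
      (W2x (X (pt ξ η)) * (deriv X (pt ξ η)).re + W2y (X (pt ξ η)) * (deriv X (pt ξ η)).im)) :=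
    ⟨_, rfl⟩
  obtain ⟨F4, hF4⟩ : ∃ F : ℝ → ℝ → ℝ, F = fun ξ η => χ ξ * (Real.sin η ^ 2 *
      (-Vx (X (pt ξ η)) * (deriv X (pt ξ η)).im + Vy (X (pt ξ η)) * (deriv X (pt ξ η)).re) +
        2 * Real.sin η * Real.cos η * V (X (pt ξ η))) := ⟨_, rfl⟩
  obtain ⟨F5, hF5⟩ : ∃ F : ℝ → ℝ → ℝ, F = fun ξ η => χ ξ * (2 * Real.sin η * Real.cos η *
      (-V2x (X (pt ξ η)) * (deriv X (pt ξ η)).im + V2y (X (pt ξ η)) * (deriv X (pt ξ η)).re) +
        2 * (Real.cos η ^ 2 - Real.sin η ^ 2) * V2 (X (pt ξ η))) := ⟨_, rfl⟩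
  have k0 : CO x₁ x₂ F0 := by
    rw [hF0]; exact xχ.mul ((CO_const κ₂).mul n1)
  have k1' : CO x₁ x₂ F1 := by
    rw [hF1]; exact xχ.mul (((s2.mul oL).mul yn).sub (cc.mul oU))
  have k2' : CO x₁ x₂ F2 := by
    rw [hF2]; exact xχ.mul (s2.mul ((oWx.mul yre).add (oWy.mul yim)))
  have k3 : CO x₁ x₂ F3 := by
    rw [hF3]; exact xχ.mul (sc.mul ((oW2x.mul yre).add (oW2y.mul yim)))
  have k4 : CO x₁ x₂ F4 := by
    rw [hF4]; exact xχ.mul ((s2.mul ((oVx.neg.mul yim).add (oVy.mul yre))).add (sc.mul oV))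
  have k5 : CO x₁ x₂ F5 := by
    rw [hF5]; exact xχ.mul ((sc.mul ((oV2x.neg.mul yim).add (oV2y.mul yre))).add (cc.mul oV2))
  -- the identities
  have i1 : II x₁ x₂ F1 = II x₁ x₂ (fun ξ η => χ₂ ξ * (Real.sin η ^ 2 * U (X (pt ξ η)))) := by
    rw [hF1]
    exact Pool.Agent.Helper78.EK.nullU hU hx12 hX.an d1 d2 c2 e1 e2 e3 e4 hd_sq hd_sc (by fun_prop) (by simp) (by simp)
      (by simp) (by simp)
  have i2 : II x₁ x₂ F2 = - II x₁ x₂ (fun ξ η => χ₁ ξ * (Real.sin η ^ 2 * W (X (pt ξ η)))) := by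
    rw [hF2]
    exact Pool.Agent.Helper4.EK.nullW hW hx12 hX.an d1 hχ₁ e1 e2 (by fun_prop)
  have i3 : II x₁ x₂ F3 =
      - II x₁ x₂ (fun ξ η => χ₁ ξ * (2 * Real.sin η * Real.cos η * W2 (X (pt ξ η)))) := by
    rw [hF3]
    exact Pool.Agent.Helper4.EK.nullW hW2 hx12 hX.an d1 hχ₁ e1 e2 (by fun_prop)
  have i4 : II x₁ x₂ F4 = 0 := by
    rw [hF4]
    exact Pool.Agent.Helper4.EK.nullV hV hx12 hX.an hχ hd_sq (by fun_prop) (by simp) (by simp)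
  have i5 : II x₁ x₂ F5 = 0 := by
    rw [hF5]
    exact Pool.Agent.Helper4.EK.nullV hV2 hx12 hX.an hχ hd_sc (by fun_prop) (by simp) (by simp)
  -- the error terms
  have sin1 : ∀ η, |Real.sin η ^ 2| ≤ 1 := fun η => by
    rw [abs_of_nonneg (sq_nonneg _)]
    nlinarith [Real.sin_sq_add_cos_sq η, sq_nonneg (Real.cos η)]
  have sin2 : ∀ η, |2 * Real.sin η * Real.cos η| ≤ 1 := fun η => by
    rw [abs_le]
    constructor
    · nlinarith [Real.sin_sq_add_cos_sq η, sq_nonneg (Real.sin η + Real.cos η)]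
    · nlinarith [Real.sin_sq_add_cos_sq η, sq_nonneg (Real.sin η - Real.cos η)]
  have bd : ∀ {f g : ℝ} {u n : ℝ}, |f| ≤ C' / l → |g| ≤ 1 → |u| ≤ C * n →
      |f * (g * u)| ≤ C' / l * C * n := by
    intro f g u n h1 h2 h3
    rw [abs_mul, abs_mul, mul_assoc (C' / l)]
    refine mul_le_mul h1 ?_ (mul_nonneg (abs_nonneg _) (abs_nonneg _)) hCC
    calc |g| * |u| ≤ 1 * |u| := mul_le_mul_of_nonneg_right h2 (abs_nonneg _)
      _ = |u| := one_mul _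
      _ ≤ C * n := h3
  have r1 := (err_le hx12 (F := fun ξ η => χ₂ ξ * (Real.sin η ^ 2 * U (X (pt ξ η))))
    (xχ₂.mul (s2.mul oU)) n1 fun ξ η => bd (k2 ξ) (sin1 η) (bU _)).1
  have r2 := (err_le hx12 (F := fun ξ η => χ₁ ξ * (Real.sin η ^ 2 * W (X (pt ξ η))))
    (xχ₁.mul (s2.mul oW)) n1 fun ξ η => bd (k1 ξ) (sin1 η) (bW _)).2
  have r3 := (err_le hx12
    (F := fun ξ η => χ₁ ξ * (2 * Real.sin η * Real.cos η * W2 (X (pt ξ η))))
    (xχ₁.mul (sc.mul oW2)) n1 fun ξ η => bd (k1 ξ) (sin2 η) (bW2 _)).2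
  have r0 : II x₁ x₂ F0 ≤ κ₂ * II x₁ x₂ (fun ξ η => ‖X (pt ξ η) - 1‖ ^ 2) := by
    rw [← II_const_mul]
    refine II_mono hx12 k0 ((CO_const κ₂).mul n1) fun ξ _ η _ => ?_
    rw [hF0]
    have h1 : 0 ≤ κ₂ * ‖X (pt ξ η) - 1‖ ^ 2 := mul_nonneg hκ (sq_nonneg _)
    have h2 := (b01 ξ).2
    simp only
    nlinarith
  -- the sum
  have hsum : II x₁ x₂ (fun ξ η => F0 ξ η + F1 ξ η + F2 ξ η + F3 ξ η + F4 ξ η + F5 ξ η) =
      II x₁ x₂ F0 + II x₁ x₂ F1 + II x₁ x₂ F2 + II x₁ x₂ F3 + II x₁ x₂ F4 + II x₁ x₂ F5 := by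
    rw [II_add hx12 (((((k0.add k1').add k2').add k3)).add k4) k5,
      II_add hx12 ((((k0.add k1').add k2').add k3)) k4,
      II_add hx12 ((k0.add k1').add k2') k3, II_add hx12 (k0.add k1') k2', II_add hx12 k0 k1']
  have hS : CO x₁ x₂ (fun ξ η => F0 ξ η + F1 ξ η + F2 ξ η + F3 ξ η + F4 ξ η + F5 ξ η) :=
    ((((k0.add k1').add k2').add k3).add k4).add k5
  have hle : ∀ ξ ∈ Icc x₁ x₂, ∀ η ∈ Icc (0:ℝ) π,
      χ ξ * T (X (pt ξ η)) (deriv X (pt ξ η)) (Real.sin η) (Real.cos η) ≤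
        F0 ξ η + F1 ξ η + F2 ξ η + F3 ξ η + F4 ξ η + F5 ξ η := by
    intro ξ hξ η hη
    have hne : X (pt ξ η) ≠ 0 := hX.ne _ (pt_mem (p := (ξ, η)) ⟨hξ, hη⟩)
    have h1 := hp (X (pt ξ η)) (deriv X (pt ξ η)) hne (Real.sin η) (Real.cos η)
      (Real.sin_sq_add_cos_sq η)
    have h2 := mul_le_mul_of_nonneg_left h1 (b01 ξ).1
    refine h2.trans (le_of_eq ?_)
    rw [hF0, hF1, hF2, hF3, hF4, hF5]
    ring
  have hmain : II (x₁ + l) (x₂ - l) (fun ξ η =>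
      T (X (pt ξ η)) (deriv X (pt ξ η)) (Real.sin η) (Real.cos η)) ≤
      II x₁ x₂ (fun ξ η => χ ξ *
        T (X (pt ξ η)) (deriv X (pt ξ η)) (Real.sin η) (Real.cos η)) := by
    refine II_sub_le (by linarith) hx (by linarith) (xχ.mul oT)
      (oT.mono (by linarith) (by linarith)) (fun ξ _ η _ => ?_) fun ξ hξ η _ => ?_
    · exact mul_nonneg (b01 ξ).1 (hT0 _ _ _ _)
    · rw [b1 ξ hξ, one_mul]
  have hmid := II_mono hx12 (xχ.mul oT) hS hle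
  rw [hsum, i1, i2, i3, i4, i5] at hmid
  refine (hmain.trans hmid).trans ?_
  have e : (κ₂ + 3 * (C' * C) / l) * II x₁ x₂ (fun ξ η => ‖X (pt ξ η) - 1‖ ^ 2) =
      κ₂ * II x₁ x₂ (fun ξ η => ‖X (pt ξ η) - 1‖ ^ 2) +
        3 * (C' / l * C * II x₁ x₂ (fun ξ η => ‖X (pt ξ η) - 1‖ ^ 2)) := by
    ring
  rw [e]
  linarith

end Pool.Agent.Helper44.EK

end

section

set_option autoImplicit false
open Complex MeasureTheory Metric Set
open scoped Real ComplexConjugate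

/-!
# Project EK3: null Lagrangians of first order (fields linear in `X'`)

The field `A = a(η) H(X) X'`, `w = Re A`, `v = -Im A`, has `w_ξ + v_η` without second derivatives.
-/

namespace Pool.Agent.Helper69.EK3

open Pool.Agent.Helper52.EK Pool.Agent.Helper78.EK

variable {P : (ℂ → ℂ) → ℝ → ℝ → Prop}

/-- a complex function of class C¹ (in the real sense) outside `0`, with its partial
derivatives -/
structure C1c (H Hx Hy : ℂ → ℂ) : Prop where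
  hd : ∀ X : ℂ, X ≠ 0 → HasFDerivAt H (reCLM.smulRight (Hx X) + imCLM.smulRight (Hy X)) X
  cx : ContinuousOn Hx {X | X ≠ 0}
  cy : ContinuousOn Hy {X | X ≠ 0}

theorem C1c.cont {H Hx Hy : ℂ → ℂ} (h : C1c H Hx Hy) : ContinuousOn H {X | X ≠ 0} :=
  fun X hX => (h.hd X hX).continuousAt.continuousWithinAt

/-- the integrand of the field `a(η) H(X) X'` -/
noncomputable def NA (a a₁ : ℝ → ℝ) (H Hx Hy : ℂ → ℂ) (X Y : ℂ) (η : ℝ) : ℝ :=
  a η * ((Hx X + I * Hy X).re * ‖Y‖ ^ 2) - a₁ η * (H X * Y).im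

theorem nullA_H {H Hx Hy : ℂ → ℂ} (hH : C1c H Hx Hy) {X : ℂ → ℂ} {x₁ x₂ h : ℝ}
    (hx : x₁ ≤ x₂) (hh : 0 ≤ h) (hX : AnalyticOnNhd ℂ X (RectH x₁ x₂ h))
    (hne : ∀ ω ∈ RectH x₁ x₂ h, X ω ≠ 0)
    {χ χ₁ : ℝ → ℝ} (h1 : ∀ ξ, HasDerivAt χ (χ₁ ξ) ξ) (h1c : Continuous χ₁)
    (e1 : χ x₁ = 0) (e2 : χ x₂ = 0)
    {a a₁ : ℝ → ℝ} (g1 : ∀ η, HasDerivAt a (a₁ η) η) (g1c : Continuous a₁) (f1 : a 0 = 0) :
    IH x₁ x₂ h (fun ξ η => χ ξ * NA a a₁ H Hx Hy (X (pt ξ η)) (deriv X (pt ξ η)) η) =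
    (∫ ξ in x₁..x₂, χ ξ * (- (a h * (H (X (pt ξ h)) * deriv X (pt ξ h)).im))) -
      IH x₁ x₂ h (fun ξ η => χ₁ ξ * (a η * (H (X (pt ξ η)) * deriv X (pt ξ η)).re)) := by
  have cχ : Continuous χ := continuous_iff_continuousAt.2 fun t => (h1 t).continuousAt
  have ca : Continuous a := continuous_iff_continuousAt.2 fun t => (g1 t).continuousAt
  have hX1 : AnalyticOnNhd ℂ (deriv X) (RectH x₁ x₂ h) := hX.deriv
  have cX := contH hX.continuousOn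
  have cX1 := contH hX1.continuousOn
  have mX : MapsTo (fun p : ℝ × ℝ => X (pt p.1 p.2)) (Icc x₁ x₂ ×ˢ Icc 0 h) {X | X ≠ 0} :=
    fun p hp => hne _ (pt_mem_RectH hp.1 hp.2)
  have cH : ContinuousOn (fun p : ℝ × ℝ => H (X (pt p.1 p.2))) (Icc x₁ x₂ ×ˢ Icc 0 h) :=
    hH.cont.comp cX mX
  have cHx : ContinuousOn (fun p : ℝ × ℝ => Hx (X (pt p.1 p.2))) (Icc x₁ x₂ ×ˢ Icc 0 h) :=
    hH.cx.comp cX mX
  have cHy : ContinuousOn (fun p : ℝ × ℝ => Hy (X (pt p.1 p.2))) (Icc x₁ x₂ ×ˢ Icc 0 h) :=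
    hH.cy.comp cX mX
  have i1 : ContinuousOn (fun p : ℝ × ℝ => χ p.1) (Icc x₁ x₂ ×ˢ Icc 0 h) := by fun_prop
  have i1' : ContinuousOn (fun p : ℝ × ℝ => χ₁ p.1) (Icc x₁ x₂ ×ˢ Icc 0 h) := by fun_prop
  have i2 : ContinuousOn (fun p : ℝ × ℝ => a p.2) (Icc x₁ x₂ ×ˢ Icc 0 h) := by fun_prop
  have i3 : ContinuousOn (fun p : ℝ × ℝ => a₁ p.2) (Icc x₁ x₂ ×ˢ Icc 0 h) := by fun_prop
  have cHY : ContinuousOn (fun p : ℝ × ℝ => H (X (pt p.1 p.2)) * deriv X (pt p.1 p.2))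
      (Icc x₁ x₂ ×ˢ Icc 0 h) := cH.mul cX1
  have cre : ContinuousOn (fun p : ℝ × ℝ => (H (X (pt p.1 p.2)) * deriv X (pt p.1 p.2)).re)
      (Icc x₁ x₂ ×ˢ Icc 0 h) := Complex.continuous_re.comp_continuousOn cHY
  have cim : ContinuousOn (fun p : ℝ × ℝ => (H (X (pt p.1 p.2)) * deriv X (pt p.1 p.2)).im)
      (Icc x₁ x₂ ×ˢ Icc 0 h) := Complex.continuous_im.comp_continuousOn cHY
  have cA : ContinuousOn (fun p : ℝ × ℝ => χ p.1 *
      NA a a₁ H Hx Hy (X (pt p.1 p.2)) (deriv X (pt p.1 p.2)) p.2) (Icc x₁ x₂ ×ˢ Icc 0 h) := by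
    unfold NA
    exact i1.mul ((i2.mul ((Complex.continuous_re.comp_continuousOn
      (cHx.add (continuousOn_const.mul cHy))).mul (cX1.norm.pow 2))).sub (i3.mul cim))
  have cB : ContinuousOn (fun p : ℝ × ℝ => χ₁ p.1 * (a p.2 *
      (H (X (pt p.1 p.2)) * deriv X (pt p.1 p.2)).re)) (Icc x₁ x₂ ×ˢ Icc 0 h) :=
    i1'.mul (i2.mul cre)
  have hmem : ∀ p ∈ Ioo x₁ x₂ ×ˢ Ioo 0 h, pt p.1 p.2 ∈ RectH x₁ x₂ h := by
    rintro ⟨x, y⟩ ⟨hx', hy'⟩
    exact pt_mem_RectH (Ioo_subset_Icc_self hx') (Ioo_subset_Icc_self hy')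
  have dχ : ∀ p : ℝ × ℝ, HasFDerivAt (fun q : ℝ × ℝ => χ q.1)
      (χ₁ p.1 • ContinuousLinearMap.fst ℝ ℝ ℝ) p := fun p =>
    (h1 p.1).comp_hasFDerivAt p hasFDerivAt_fst
  have da : ∀ p : ℝ × ℝ, HasFDerivAt (fun q : ℝ × ℝ => a q.2)
      (a₁ p.2 • ContinuousLinearMap.snd ℝ ℝ ℝ) p := fun p =>
    (g1 p.2).comp_hasFDerivAt p hasFDerivAt_snd
  have dH : ∀ p : ℝ × ℝ, pt p.1 p.2 ∈ RectH x₁ x₂ h →
      HasFDerivAt (fun q : ℝ × ℝ => H (X (pt q.1 q.2)))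
        ((reCLM.smulRight (Hx (X (pt p.1 p.2))) + imCLM.smulRight (Hy (X (pt p.1 p.2)))).comp
          (Lc (deriv X (pt p.1 p.2)))) p := by
    intro p hp
    exact HasFDerivAt.comp (g := H) p (hH.hd _ (hne _ hp))
      (hasFDerivAt_X (hX _ hp).differentiableAt)
  have dY : ∀ p : ℝ × ℝ, pt p.1 p.2 ∈ RectH x₁ x₂ h →
      HasFDerivAt (fun q : ℝ × ℝ => deriv X (pt q.1 q.2))
        (Lc (deriv (deriv X) (pt p.1 p.2))) p := fun p hp =>
    hasFDerivAt_X (hX1 _ hp).differentiableAt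
  have dF := fun (p : ℝ × ℝ) (hp : pt p.1 p.2 ∈ RectH x₁ x₂ h) =>
    (dχ p).fun_mul ((da p).fun_mul (reCLM.hasFDerivAt.comp p ((dH p hp).fun_mul (dY p hp))))
  have dG := fun (p : ℝ × ℝ) (hp : pt p.1 p.2 ∈ RectH x₁ x₂ h) =>
    (dχ p).fun_mul ((da p).fun_mul (imCLM.hasFDerivAt.comp p ((dH p hp).fun_mul (dY p hp)))).fun_neg
  have cF : ContinuousOn (fun q : ℝ × ℝ => χ q.1 * (a q.2 *
      reCLM (H (X (pt q.1 q.2)) * deriv X (pt q.1 q.2)))) (Icc x₁ x₂ ×ˢ Icc 0 h) :=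
    i1.mul (i2.mul cre)
  have cG : ContinuousOn (fun q : ℝ × ℝ => χ q.1 * -(a q.2 *
      imCLM (H (X (pt q.1 q.2)) * deriv X (pt q.1 q.2)))) (Icc x₁ x₂ ×ˢ Icc 0 h) :=
    i1.mul (i2.mul cim).neg
  have cD := cA.fun_add cB
  have main := div_top hx hh (Rp := RectH x₁ x₂ h) hmem cF cG cD dF dG (by
    rintro ⟨x, y⟩
    have hn : ‖deriv X (pt x y)‖ ^ 2 = (deriv X (pt x y)).re ^ 2 + (deriv X (pt x y)).im ^ 2 := by
      rw [← normSq_eq_norm_sq, normSq_apply]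
      ring
    simp only [NA, _root_.add_apply, _root_.neg_apply,
      _root_.smul_apply, ContinuousLinearMap.comp_apply, Lc_10, Lc_01,
      ContinuousLinearMap.coe_fst', ContinuousLinearMap.coe_snd', smul_eq_mul, reCLM_apply,
      imCLM_apply, mul_re, mul_im, I_re, I_im, hn, add_re, add_im,
      ContinuousLinearMap.smulRight_apply, real_smul, ofReal_re, ofReal_im, Function.comp]
    ring)
    (fun x => by simp [f1]) (fun y => by simp [e2])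
    (fun y => by simp [e1])
  have h3 := IH_add hx hh (F := fun ξ η => χ ξ *
      NA a a₁ H Hx Hy (X (pt ξ η)) (deriv X (pt ξ η)) η)
    (G := fun ξ η => χ₁ ξ * (a η * (H (X (pt ξ η)) * deriv X (pt ξ η)).re)) cA cB
  have h4 : IH x₁ x₂ h (fun ξ η => χ ξ * NA a a₁ H Hx Hy (X (pt ξ η)) (deriv X (pt ξ η)) η +
      χ₁ ξ * (a η * (H (X (pt ξ η)) * deriv X (pt ξ η)).re)) =
      ∫ ξ in x₁..x₂, χ ξ * (- (a h * (H (X (pt ξ h)) * deriv X (pt ξ h)).im)) := by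
    refine Eq.trans ?_ (main.trans ?_)
    · rfl
    · rfl
  rw [h3] at h4
  linarith

/-- the null Lagrangian of the field `a(η) H(X) X'` -/
theorem isNull_A {H Hx Hy : ℂ → ℂ} (hH : C1c H Hx Hy) {a a₁ : ℝ → ℝ}
    (g1 : ∀ η, HasDerivAt a (a₁ η) η) (g1c : Continuous a₁) (f1 : a 0 = 0) {C : ℝ} (hC : 0 ≤ C)
    (hb : ∀ (X : ℂ → ℂ) (x₁ x₂ : ℝ), x₁ ≤ x₂ → NiceH X x₁ x₂ → P X x₁ x₂ →
      ∀ ξ ∈ Icc x₁ x₂, ∀ η ∈ Icc (0:ℝ) (π / 2),
        |a η * (H (X (pt ξ η)) * deriv X (pt ξ η)).re| ≤ C * (1 + ‖X (pt ξ η) - 1‖ ^ 2)) :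
    IsNull P (fun X Y η => NA a a₁ H Hx Hy X Y η)
      (fun X Y => - (a (π / 2) * (H X * Y).im)) := by
  have ca : Continuous a := continuous_iff_continuousAt.2 fun t => (g1 t).continuousAt
  have j1 : ContinuousOn (fun p : ℂ × ℂ × ℝ => H p.1) {p | p.1 ≠ 0} :=
    hH.cont.comp continuous_fst.continuousOn fun p hp => hp
  have j2 : ContinuousOn (fun p : ℂ × ℂ × ℝ => Hx p.1) {p | p.1 ≠ 0} :=
    hH.cx.comp continuous_fst.continuousOn fun p hp => hp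
  have j3 : ContinuousOn (fun p : ℂ × ℂ × ℝ => Hy p.1) {p | p.1 ≠ 0} :=
    hH.cy.comp continuous_fst.continuousOn fun p hp => hp
  have j4 : ContinuousOn (fun p : ℂ × ℂ => H p.1) {p | p.1 ≠ 0} :=
    hH.cont.comp continuous_fst.continuousOn fun p hp => hp
  refine ⟨?_, ?_, fun k hk => ?_⟩
  · have e1 : ContinuousOn (fun p : ℂ × ℂ × ℝ => a p.2.2) {p | p.1 ≠ 0} := by fun_prop
    have e2 : ContinuousOn (fun p : ℂ × ℂ × ℝ => a₁ p.2.2) {p | p.1 ≠ 0} := by fun_prop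
    have e3 : ContinuousOn (fun p : ℂ × ℂ × ℝ => p.2.1) {p | p.1 ≠ 0} := by fun_prop
    unfold NA
    exact (e1.mul ((Complex.continuous_re.comp_continuousOn
      (j2.add (continuousOn_const.mul j3))).mul (e3.norm.pow 2))).sub
      (e2.mul (Complex.continuous_im.comp_continuousOn (j1.mul e3)))
  · have e3 : ContinuousOn (fun p : ℂ × ℂ => p.2) {p | p.1 ≠ 0} := by fun_prop
    exact (continuousOn_const.mul (Complex.continuous_im.comp_continuousOn (j4.mul e3))).neg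
  · refine ⟨C * (π / 2 * (2 * k) + k), fun X x₁ x₂ l χ χ₁ χ₂ hl hx hc hX hP => ?_⟩
    have hx12 : x₁ ≤ x₂ := by linarith
    have hpi : (0:ℝ) ≤ π / 2 := by positivity
    have h1 := nullA_H hH hx12 hpi hX.an hX.ne hc.d1 hc.cont1 hc.e1 hc.e2 g1 g1c f1
    have h1' := h1
    rw [h1']
    have n1 : CH x₁ x₂ (π / 2) (fun ξ η => ‖X (pt ξ η) - 1‖ ^ 2) :=
      CH_comp hX.an.continuousOn (W := fun X => ‖X - 1‖ ^ 2) (by fun_prop)
    have cX := contH hX.an.continuousOn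
    have cX1 := contH hX.an.deriv.continuousOn
    have cH : ContinuousOn (fun p : ℝ × ℝ => H (X (pt p.1 p.2))) (Icc x₁ x₂ ×ˢ Icc 0 (π / 2)) :=
      hH.cont.comp cX fun p hp => hX.ne _ (pt_mem_RectH hp.1 hp.2)
    have cF : CH x₁ x₂ (π / 2) (fun ξ η => χ₁ ξ *
        (a η * (H (X (pt ξ η)) * deriv X (pt ξ η)).re)) :=
      (CH_xi hc.cont1).mul ((CH_eta ca).mul
        (Complex.continuous_re.comp_continuousOn (cH.mul cX1)))
    have h2 := IH_err hx12 hpi (N := fun ξ η => ‖X (pt ξ η) - 1‖ ^ 2) (A := C) hC hc.cont1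
      cF n1 (fun _ _ _ _ => sq_nonneg _) hc.k1 hc.i1 (by
        intro ξ hξ η hη
        rw [abs_mul]
        exact mul_le_mul_of_nonneg_left (hb X x₁ x₂ hx12 hX hP ξ hξ η hη) (abs_nonneg _))
    have h3 : ∀ A B : ℝ, A - B - A = -B := fun A B => by ring
    rw [h3, abs_neg]
    refine h2.trans ?_
    have hE := En_nonneg (X := X) hx12
    have e : k / l * IH x₁ x₂ (π / 2) (fun ξ η => ‖X (pt ξ η) - 1‖ ^ 2) =
        k * (En X x₁ x₂ / l) := by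
      unfold En
      ring
    rw [e, mul_assoc C]
    refine mul_le_mul_of_nonneg_left ?_ hC
    have hE' : 0 ≤ En X x₁ x₂ / l := div_nonneg hE (by linarith)
    nlinarith [mul_nonneg (mul_nonneg hpi (mul_nonneg zero_le_two hk)) hE']

/-- division by `X` -/
theorem C1c.div {F Fx Fy : ℂ → ℂ} (h : C1c F Fx Fy) :
    C1c (fun X => F X / X) (fun X => Fx X / X - F X / X ^ 2)
      (fun X => Fy X / X - I * F X / X ^ 2) := by
  have c0 : ContinuousOn (fun X : ℂ => X) {X : ℂ | X ≠ 0} := continuousOn_id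
  refine ⟨fun X hX => ?_, ?_, ?_⟩
  · have h1 := h.hd X hX
    have h2 : HasFDerivAt (fun X : ℂ => X⁻¹)
        ((ContinuousLinearMap.toSpanSingleton ℂ (-(X ^ 2)⁻¹)).restrictScalars ℝ) X :=
      ((hasDerivAt_inv hX).hasFDerivAt).restrictScalars ℝ
    have h3 := h1.fun_mul h2
    have e : (fun X : ℂ => F X / X) = fun X => F X * X⁻¹ := by
      funext Z
      rw [div_eq_mul_inv]
    rw [e]
    refine h3.congr_fderiv ?_
    ext v
    simp
    field_simp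
    linear_combination (F X) * (re_add_im v)
  · exact (h.cx.div c0 fun X hX => hX).sub (h.cont.div (c0.pow 2) fun X hX => pow_ne_zero 2 hX)
  · exact (h.cy.div c0 fun X hX => hX).sub
      ((continuousOn_const.mul h.cont).div (c0.pow 2) fun X hX => pow_ne_zero 2 hX)

/-- the integrand of the field `a(η) F(X) q`, `q = X'/X` -/
noncomputable def NQ (a a₁ : ℝ → ℝ) (F Fx Fy : ℂ → ℂ) (X Y : ℂ) (η : ℝ) : ℝ :=
  a η * (((Fx X + I * Fy X) * conj X).re * ‖Y / X‖ ^ 2) - a₁ η * (F X * (Y / X)).im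

theorem NA_eq_NQ {a a₁ : ℝ → ℝ} {F Fx Fy : ℂ → ℂ} {X : ℂ} (hX : X ≠ 0) (Y : ℂ) (η : ℝ) :
    NA a a₁ (fun X => F X / X) (fun X => Fx X / X - F X / X ^ 2)
      (fun X => Fy X / X - I * F X / X ^ 2) X Y η = NQ a a₁ F Fx Fy X Y η := by
  unfold NA NQ
  have h1 : Fx X / X - F X / X ^ 2 + I * (Fy X / X - I * F X / X ^ 2) = (Fx X + I * Fy X) / X := by
    have : I * (I * F X / X ^ 2) = - (F X / X ^ 2) := by
      rw [← mul_div_assoc, ← mul_assoc, I_mul_I]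
      ring
    rw [mul_sub, this]
    ring
  have h2 : ((Fx X + I * Fy X) / X).re * ‖Y‖ ^ 2 =
      ((Fx X + I * Fy X) * conj X).re * ‖Y / X‖ ^ 2 := by
    have hn : ‖X‖ ^ 2 ≠ 0 := pow_ne_zero 2 (norm_ne_zero_iff.2 hX)
    have h3 : (Fx X + I * Fy X) / X = ((‖X‖ ^ 2)⁻¹ : ℝ) * ((Fx X + I * Fy X) * conj X) := by
      rw [div_eq_mul_inv, Complex.inv_def, normSq_eq_norm_sq]
      push_cast
      ring
    rw [h3, re_ofReal_mul, norm_div, div_pow]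
    field_simp
  have h4 : F X / X * Y = F X * (Y / X) := by ring
  rw [h1, h2, h4]

/-- the null Lagrangian of the field `a(η) F(X) q` -/
theorem isNull_Q {F Fx Fy : ℂ → ℂ} (hF : C1c F Fx Fy) {a a₁ : ℝ → ℝ}
    (g1 : ∀ η, HasDerivAt a (a₁ η) η) (g1c : Continuous a₁) (f1 : a 0 = 0) {C C₀ : ℝ}
    (hC : 0 ≤ C) (hC₀ : 0 ≤ C₀)
    (bF : ∀ X : ℂ, ‖F X‖ ≤ C * (1 + ‖X - 1‖ ^ 2))
    (hq : ∀ (X : ℂ → ℂ) (x₁ x₂ : ℝ), x₁ ≤ x₂ → NiceH X x₁ x₂ → P X x₁ x₂ →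
      ∀ ξ ∈ Icc x₁ x₂, ∀ η ∈ Icc (0:ℝ) (π / 2),
        Real.sin η * ‖deriv X (pt ξ η) / X (pt ξ η)‖ ≤ C₀) :
    IsNull P (fun X Y η => NQ a a₁ F Fx Fy X Y η)
      (fun X Y => - (a (π / 2) * (F X * (Y / X)).im)) := by
  -- `|a η| ≤ M sin η`
  obtain ⟨M, hM0, hM⟩ : ∃ M : ℝ, 0 ≤ M ∧ ∀ η ∈ Icc (0:ℝ) (π / 2), |a η| ≤ M * Real.sin η := by
    obtain ⟨M, hM⟩ := (isCompact_Icc (a := (0:ℝ)) (b := π / 2)).bddAbove_image
      g1c.abs.continuousOn
    have hM' : ∀ η ∈ Icc (0:ℝ) (π / 2), |a₁ η| ≤ M := fun η hη => hM (mem_image_of_mem _ hη)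
    have hM0 : 0 ≤ M := (abs_nonneg _).trans (hM' 0 ⟨le_rfl, by positivity⟩)
    refine ⟨M * (π / 2), by positivity, fun η hη => ?_⟩
    have h1 : ‖a η - a 0‖ ≤ M * (η - 0) := by
      refine norm_image_sub_le_of_norm_deriv_le_segment' (f' := a₁) (fun t _ =>
        (g1 t).hasDerivWithinAt) (fun t ht => ?_) η ⟨hη.1, le_rfl⟩
      exact hM' t ⟨ht.1, ht.2.le.trans hη.2⟩
    rw [f1, sub_zero, sub_zero, Real.norm_eq_abs] at h1
    have h2 : 2 / π * η ≤ Real.sin η := Real.mul_le_sin hη.1 hη.2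
    have h3 : η ≤ π / 2 * Real.sin η := by
      have := mul_le_mul_of_nonneg_left h2 (by positivity : (0:ℝ) ≤ π / 2)
      have e : π / 2 * (2 / π * η) = η := by
        field_simp
      rwa [e] at this
    have h4 := mul_le_mul_of_nonneg_left h3 hM0
    linarith
  have h := isNull_A (P := P) hF.div g1 g1c f1 (C := M * (C * C₀))
    (mul_nonneg hM0 (mul_nonneg hC hC₀)) (by
    intro X x₁ x₂ hx hX hP ξ hξ η hη
    have h1 := hq X x₁ x₂ hx hX hP ξ hξ η hη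
    have hs : 0 ≤ Real.sin η := Real.sin_nonneg_of_nonneg_of_le_pi hη.1
      (hη.2.trans (by linarith [Real.pi_pos]))
    obtain ⟨Z, hZ⟩ : ∃ Z, Z = X (pt ξ η) := ⟨_, rfl⟩
    obtain ⟨Y, hY⟩ : ∃ Y, Y = deriv X (pt ξ η) := ⟨_, rfl⟩
    rw [← hZ, ← hY] at h1 ⊢
    have e : F Z / Z * Y = F Z * (Y / Z) := by ring
    rw [e, abs_mul]
    have h2 : |(F Z * (Y / Z)).re| ≤ ‖F Z‖ * ‖Y / Z‖ := by
      rw [← norm_mul]
      exact abs_re_le_norm _
    calc |a η| * |(F Z * (Y / Z)).re| ≤ (M * Real.sin η) * (‖F Z‖ * ‖Y / Z‖) :=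
          mul_le_mul (hM η hη) h2 (abs_nonneg _) (mul_nonneg hM0 hs)
      _ = M * (‖F Z‖ * (Real.sin η * ‖Y / Z‖)) := by ring
      _ ≤ M * ((C * (1 + ‖Z - 1‖ ^ 2)) * C₀) := by
          refine mul_le_mul_of_nonneg_left ?_ hM0
          exact mul_le_mul (bF Z) h1 (mul_nonneg hs (norm_nonneg _))
            (mul_nonneg hC (by positivity))
      _ = M * (C * C₀) * (1 + ‖Z - 1‖ ^ 2) := by ring)
  refine ⟨?_, ?_, fun k hk => ?_⟩
  · refine h.cN.congr fun p hp => ?_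
    exact (NA_eq_NQ hp _ _).symm
  · refine h.cK.congr fun p _ => ?_
    simp only [div_mul_eq_mul_div, mul_div_assoc]
  · obtain ⟨B, hB⟩ := h.le k hk
    refine ⟨B, fun X x₁ x₂ l χ χ₁ χ₂ hl hx hc hX hP => ?_⟩
    have h1 := hB X x₁ x₂ l χ χ₁ χ₂ hl hx hc hX hP
    have e1 : IH x₁ x₂ (π / 2) (fun ξ η => χ ξ * NQ a a₁ F Fx Fy (X (pt ξ η))
        (deriv X (pt ξ η)) η) =
        IH x₁ x₂ (π / 2) (fun ξ η => χ ξ * NA a a₁ (fun X => F X / X)
          (fun X => Fx X / X - F X / X ^ 2) (fun X => Fy X / X - I * F X / X ^ 2)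
          (X (pt ξ η)) (deriv X (pt ξ η)) η) := by
      unfold IH
      refine intervalIntegral.integral_congr fun ξ hξ => ?_
      rw [uIcc_of_le (by linarith)] at hξ
      refine intervalIntegral.integral_congr fun η hη => ?_
      rw [uIcc_of_le (by positivity)] at hη
      have hne := hX.ne _ (pt_mem_RectH hξ hη)
      beta_reduce
      rw [NA_eq_NQ hne]
    rw [e1]
    have e2 : ∀ X Y : ℂ, F X * (Y / X) = F X / X * Y := fun X Y => by ring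
    simp only [e2]
    exact h1

end Pool.Agent.Helper69.EK3

end

section

set_option autoImplicit false
open Complex MeasureTheory Metric Set
open scoped Real ComplexConjugate

/-!
# Project EK3: from the pointwise certificate on the half strip to the integrated inequality
-/

namespace Pool.Agent.Helper69.EK3

open Pool.Agent.Helper52.EK

variable {P : (ℂ → ℂ) → ℝ → ℝ → Prop}

/-- the harmonic function `1 - Re X` -/
theorem harm : C2f (fun X : ℂ => 1 - X.re) (fun _ => -1) (fun _ => 0) (fun _ => 0) := by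
  have h0 : ∀ c : ℝ, C1f (fun _ : ℂ => c) (fun _ => 0) (fun _ => 0) := fun c =>
    ⟨fun X => by
      have h := hasFDerivAt_const (𝕜 := ℝ) c X
      refine h.congr_fderiv ?_
      ext v
      simp, continuous_const, continuous_const⟩
  refine ⟨⟨fun X => ?_, continuous_const, continuous_const⟩, fun _ => 0, fun _ => 0, fun _ => 0,
    h0 _, h0 _, fun X => by simp⟩
  have h : HasFDerivAt (fun X : ℂ => 1 - reCLM X) (-reCLM) X :=
    (reCLM.hasFDerivAt (x := X)).const_sub 1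
  refine h.congr_fderiv ?_
  ext v
  simp

theorem harm_bd (X : ℂ) : |1 - X.re| ≤ 1 * (1 + ‖X - 1‖ ^ 2) := by
  have h1 : |1 - X.re| ≤ ‖X - 1‖ := by
    have := abs_re_le_norm (X - 1)
    rw [sub_re, one_re] at this
    rwa [abs_sub_comm]
  nlinarith [sq_nonneg (‖X - 1‖ - 1), norm_nonneg (X - 1)]

/-- the linear null Lagrangian: the mean over the half strip against the centre line -/
theorem isNull_lin : IsNull P (fun X _ _ => 1 - X.re)
    (fun X Y => π / 2 * (1 - X.re) - π ^ 2 / 8 * Y.im) := by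
  have h := isNull_U (P := P) harm (a := fun η => η ^ 2 / 2) (a₁ := fun η => η) (a₂ := fun _ => 1)
    (fun η => by
      have := (hasDerivAt_pow 2 η).div_const 2
      exact this.congr_deriv (by simp))
    (fun η => hasDerivAt_id η) continuous_const (by simp) rfl harm_bd
  refine (h.const_mul (-1)).congr (fun X Y η => by simp) fun X Y => ?_
  simp only [dEta]
  ring

/-- values on a line of the mirror image -/
theorem mir_cent (X : ℂ → ℂ) (ξ : ℝ) : mir X (pt ξ (π / 2)) = conj (X (pt ξ (π / 2))) := by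
  rw [mir_pt]
  congr 3
  ring

theorem mir_deriv_cent {X : ℂ → ℂ} {ξ : ℝ} (hX : DifferentiableAt ℂ X (pt ξ (π / 2))) :
    deriv (mir X) (pt ξ (π / 2)) = conj (deriv X (pt ξ (π / 2))) := by
  have e : π - π / 2 = π / 2 := by ring
  have h := mir_deriv_pt (X := X) (ξ := ξ) (η := π / 2) (by rw [e]; exact hX)
  rw [h, e]

theorem Rect_eq_RectH (x₁ x₂ : ℝ) : Rect x₁ x₂ = RectH x₁ x₂ π := rfl

theorem CH_X {X : ℂ → ℂ} {x₁ x₂ : ℝ} (hX : NiceX X x₁ x₂) {W : ℂ → ℝ} (hW : Continuous W) :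
    CH x₁ x₂ π (fun ξ η => W (X (pt ξ η))) := CH_comp (h := π) hX.an.continuousOn hW

/-- the two halves of the energy -/
theorem En_add {X : ℂ → ℂ} {x₁ x₂ : ℝ} (hx : x₁ ≤ x₂) (hX : NiceX X x₁ x₂) :
    En X x₁ x₂ + En (mir X) x₁ x₂ = II x₁ x₂ (fun ξ η => ‖X (pt ξ η) - 1‖ ^ 2) := by
  rw [II_split hx (CH_X hX (W := fun Z => ‖Z - 1‖ ^ 2) (by fun_prop))]
  unfold En
  congr 1
  have : ∀ ξ η : ℝ, ‖mir X (pt ξ η) - 1‖ ^ 2 = ‖X (pt ξ (π - η)) - 1‖ ^ 2 := by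
    intro ξ η
    rw [mir_pt]
    have : conj (X (pt ξ (π - η))) - 1 = conj (X (pt ξ (π - η)) - 1) := by simp
    rw [this, norm_conj]
  simp only [this]

/-- a null Lagrangian applied to both halves -/
theorem both {N : ℂ → ℂ → ℝ → ℝ} {K : ℂ → ℂ → ℝ} (h : IsNull P N K) {k : ℝ} (hk : 0 ≤ k) :
    ∃ C : ℝ, ∀ (X : ℂ → ℂ) (x₁ x₂ l : ℝ) (χ χ₁ χ₂ : ℝ → ℝ), 1 ≤ l → x₁ + l ≤ x₂ - l →
      Cut k l x₁ x₂ χ χ₁ χ₂ → NiceX X x₁ x₂ → P X x₁ x₂ → P (mir X) x₁ x₂ →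
      |IH x₁ x₂ (π / 2) (fun ξ η => χ ξ * N (X (pt ξ η)) (deriv X (pt ξ η)) η) +
        IH x₁ x₂ (π / 2) (fun ξ η => χ ξ * N (mir X (pt ξ η)) (deriv (mir X) (pt ξ η)) η) -
        ∫ ξ in x₁..x₂, χ ξ * (K (X (pt ξ (π / 2))) (deriv X (pt ξ (π / 2))) +
          K (conj (X (pt ξ (π / 2)))) (conj (deriv X (pt ξ (π / 2)))))| ≤
      C * (1 + II x₁ x₂ (fun ξ η => ‖X (pt ξ η) - 1‖ ^ 2) / l) := by
  obtain ⟨C, hC⟩ := h.le k hk
  refine ⟨2 * |C|, fun X x₁ x₂ l χ χ₁ χ₂ hl hx hc hX hP hP' => ?_⟩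
  have hx12 : x₁ ≤ x₂ := by linarith
  have h1 := hC X x₁ x₂ l χ χ₁ χ₂ hl hx hc (NiceX.half hX) hP
  have h2 := hC (mir X) x₁ x₂ l χ χ₁ χ₂ hl hx hc (NiceX.mir hX) hP'
  have e2 : ∫ ξ in x₁..x₂, χ ξ * K (mir X (pt ξ (π / 2))) (deriv (mir X) (pt ξ (π / 2))) =
      ∫ ξ in x₁..x₂, χ ξ * K (conj (X (pt ξ (π / 2)))) (conj (deriv X (pt ξ (π / 2)))) := by
    refine intervalIntegral.integral_congr fun ξ hξ => ?_
    rw [uIcc_of_le hx12] at hξ
    have hd : DifferentiableAt ℂ X (pt ξ (π / 2)) := ((NiceX.half hX).an _ (cent_mem hξ)).differentiableAt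
    rw [mir_cent, mir_deriv_cent hd]
  have i1 : IntervalIntegrable (fun ξ => χ ξ * K (X (pt ξ (π / 2))) (deriv X (pt ξ (π / 2))))
      volume x₁ x₂ :=
    (hc.cont.continuousOn.mul (CC_K h.cK (NiceX.half hX))).intervalIntegrable_of_Icc hx12
  have i2 : IntervalIntegrable (fun ξ => χ ξ * K (conj (X (pt ξ (π / 2))))
      (conj (deriv X (pt ξ (π / 2))))) volume x₁ x₂ := by
    have i3 : IntervalIntegrable (fun ξ => χ ξ * K (mir X (pt ξ (π / 2)))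
        (deriv (mir X) (pt ξ (π / 2)))) volume x₁ x₂ :=
      (hc.cont.continuousOn.mul (CC_K h.cK (NiceX.mir hX))).intervalIntegrable_of_Icc hx12
    refine i3.congr fun ξ hξ => ?_
    rw [uIoc_of_le hx12] at hξ
    have hd : DifferentiableAt ℂ X (pt ξ (π / 2)) :=
      ((NiceX.half hX).an _ (cent_mem (Ioc_subset_Icc_self hξ))).differentiableAt
    rw [mir_cent, mir_deriv_cent hd]
  have s3 : ∫ ξ in x₁..x₂, χ ξ * (K (X (pt ξ (π / 2))) (deriv X (pt ξ (π / 2))) +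
      K (conj (X (pt ξ (π / 2)))) (conj (deriv X (pt ξ (π / 2))))) =
      (∫ ξ in x₁..x₂, χ ξ * K (X (pt ξ (π / 2))) (deriv X (pt ξ (π / 2)))) +
      ∫ ξ in x₁..x₂, χ ξ * K (conj (X (pt ξ (π / 2)))) (conj (deriv X (pt ξ (π / 2)))) := by
    rw [← intervalIntegral.integral_add i1 i2]
    simp only [mul_add]
  rw [e2] at h2
  rw [s3, ← En_add hx12 hX]
  have p1 := En_nonneg (X := X) hx12
  have p2 := En_nonneg (X := mir X) hx12
  have hl0 : 0 < l := by linarith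
  have q1 : 0 ≤ En X x₁ x₂ / l := div_nonneg p1 hl0.le
  have q2 : 0 ≤ En (mir X) x₁ x₂ / l := div_nonneg p2 hl0.le
  have r1 : C * (1 + En X x₁ x₂ / l) ≤ |C| * (1 + En X x₁ x₂ / l) :=
    mul_le_mul_of_nonneg_right (le_abs_self C) (by linarith)
  have r2 : C * (1 + En (mir X) x₁ x₂ / l) ≤ |C| * (1 + En (mir X) x₁ x₂ / l) :=
    mul_le_mul_of_nonneg_right (le_abs_self C) (by linarith)
  have r3 : |C| * (1 + En X x₁ x₂ / l) + |C| * (1 + En (mir X) x₁ x₂ / l) ≤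
      2 * |C| * (1 + (En X x₁ x₂ + En (mir X) x₁ x₂) / l) := by
    rw [add_div]
    nlinarith [mul_nonneg (abs_nonneg C) q1, mul_nonneg (abs_nonneg C) q2]
  rw [abs_le] at h1 h2 ⊢
  constructor <;> linarith [h1.1, h1.2, h2.1, h2.2]

/-- The assembly. The pointwise inequality may have an integrable error `ε ξ`. -/
theorem strip3_core {k₂ lam D : ℝ} (hlam : 0 ≤ lam) (hk₂ : lam ≤ k₂)
    {T : ℂ → ℂ → ℝ → ℝ → ℝ} (hT0 : ∀ (X Y : ℂ) (s c : ℝ), 0 ≤ T X Y s c)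
    (hTc : ContinuousOn (fun p : ℂ × ℂ × ℝ × ℝ => T p.1 p.2.1 p.2.2.1 p.2.2.2) {p | p.1 ≠ 0})
    (hTm : ∀ (X Y : ℂ) (s c : ℝ), T (conj X) (conj Y) s c = T X Y s (-c))
    {N : ℂ → ℂ → ℝ → ℝ} {K : ℂ → ℂ → ℝ} (hN : IsNull P N K)
    (hp : ∀ (X : ℂ → ℂ) (x₁ x₂ : ℝ), x₁ ≤ x₂ → NiceH X x₁ x₂ → P X x₁ x₂ →
      ∃ ε : ℝ → ℝ, Continuous ε ∧ (∀ ξ, 0 ≤ ε ξ) ∧ ∫ ξ in x₁..x₂, ε ξ ≤ D ∧
        ∀ ξ ∈ Icc x₁ x₂, ∀ η ∈ Icc (0:ℝ) (π / 2),
          T (X (pt ξ η)) (deriv X (pt ξ η)) (Real.sin η) (Real.cos η) ≤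
            k₂ * (1 - (X (pt ξ η)).re) + lam * (‖X (pt ξ η)‖ ^ 2 - (X (pt ξ η)).re) +
              N (X (pt ξ η)) (deriv X (pt ξ η)) η + ε ξ) :
    ∃ k C : ℝ, 0 ≤ k ∧ ∀ (X : ℂ → ℂ) (x₁ x₂ l : ℝ), 1 ≤ l → x₁ + l ≤ x₂ - l → NiceX X x₁ x₂ →
      P X x₁ x₂ → P (mir X) x₁ x₂ → ∃ χ χ₁ χ₂ : ℝ → ℝ, Cut k l x₁ x₂ χ χ₁ χ₂ ∧
      II (x₁ + l) (x₂ - l)
        (fun ξ η => T (X (pt ξ η)) (deriv X (pt ξ η)) (Real.sin η) (Real.cos η)) ≤
      lam * II x₁ x₂ (fun ξ η => ‖X (pt ξ η) - 1‖ ^ 2) +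
        (k₂ - lam) * (π * ∫ ξ in x₁..x₂, χ ξ * (1 - (X (pt ξ (π / 2))).re)) +
        (∫ ξ in x₁..x₂, χ ξ * (K (X (pt ξ (π / 2))) (deriv X (pt ξ (π / 2))) +
          K (conj (X (pt ξ (π / 2)))) (conj (deriv X (pt ξ (π / 2)))))) +
        C * (1 + II x₁ x₂ (fun ξ η => ‖X (pt ξ η) - 1‖ ^ 2) / l) := by
  obtain ⟨k, hk, hcut⟩ := exists_cut
  obtain ⟨C₁, hC₁⟩ := both hN hk
  obtain ⟨C₂, hC₂⟩ := both (isNull_lin (P := P)) hk
  refine ⟨k, |C₁| + (k₂ - lam) * |C₂| + π * |D|, hk, fun X x₁ x₂ l hl hx hX hP hP' => ?_⟩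
  obtain ⟨χ, χ₁, χ₂, hc⟩ := hcut x₁ x₂ l hl hx
  refine ⟨χ, χ₁, χ₂, hc, ?_⟩
  have hx12 : x₁ ≤ x₂ := by linarith
  have hl0 : 0 < l := by linarith
  have hpi : (0:ℝ) ≤ π / 2 := by positivity
  have b1 := hC₁ X x₁ x₂ l χ χ₁ χ₂ hl hx hc hX hP hP'
  have b2 := hC₂ X x₁ x₂ l χ χ₁ χ₂ hl hx hc hX hP hP'
  obtain ⟨E, hE⟩ : ∃ E, E = II x₁ x₂ (fun ξ η => ‖X (pt ξ η) - 1‖ ^ 2) := ⟨_, rfl⟩
  rw [← hE] at b1 b2 ⊢
  have hE0 : 0 ≤ E := by
    rw [hE, ← En_add hx12 hX]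
    exact add_nonneg (En_nonneg hx12) (En_nonneg hx12)
  -- one half
  have half : ∀ Z : ℂ → ℂ, NiceH Z x₁ x₂ → P Z x₁ x₂ →
      IH x₁ x₂ (π / 2) (fun ξ η => χ ξ *
        T (Z (pt ξ η)) (deriv Z (pt ξ η)) (Real.sin η) (Real.cos η)) ≤
      (k₂ - lam) * IH x₁ x₂ (π / 2) (fun ξ η => χ ξ * (1 - (Z (pt ξ η)).re)) +
        lam * En Z x₁ x₂ +
        IH x₁ x₂ (π / 2) (fun ξ η => χ ξ * N (Z (pt ξ η)) (deriv Z (pt ξ η)) η) +
        π / 2 * |D| := by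
    intro Z hZ hPZ
    obtain ⟨ε, cε, ε0, εD, hε⟩ := hp Z x₁ x₂ hx12 hZ hPZ
    have cT : CH x₁ x₂ (π / 2) (fun ξ η =>
        T (Z (pt ξ η)) (deriv Z (pt ξ η)) (Real.sin η) (Real.cos η)) := by
      have c1 := contH hZ.an.continuousOn
      have c2 := contH hZ.an.deriv.continuousOn
      have c3 : ContinuousOn (fun p : ℝ × ℝ => Real.sin p.2) (Icc x₁ x₂ ×ˢ Icc 0 (π / 2)) :=
        (Real.continuous_sin.comp continuous_snd).continuousOn
      have c4 : ContinuousOn (fun p : ℝ × ℝ => Real.cos p.2) (Icc x₁ x₂ ×ˢ Icc 0 (π / 2)) :=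
        (Real.continuous_cos.comp continuous_snd).continuousOn
      exact hTc.comp (c1.prodMk (c2.prodMk (c3.prodMk c4)))
        fun p hp' => hZ.ne _ (pt_mem_RectH hp'.1 hp'.2)
    have f1 : CH x₁ x₂ (π / 2) (fun ξ η => (k₂ - lam) * (χ ξ * (1 - (Z (pt ξ η)).re))) :=
      (CH_const _).mul ((CH_xi hc.cont).mul
        (CH_comp hZ.an.continuousOn (W := fun X => 1 - X.re) (by fun_prop)))
    have f2 : CH x₁ x₂ (π / 2) (fun ξ η => lam * ‖Z (pt ξ η) - 1‖ ^ 2) :=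
      (CH_const _).mul (CH_comp hZ.an.continuousOn (W := fun X => ‖X - 1‖ ^ 2) (by fun_prop))
    have f3 : CH x₁ x₂ (π / 2) (fun ξ η => χ ξ * N (Z (pt ξ η)) (deriv Z (pt ξ η)) η) :=
      (CH_xi hc.cont).mul (CH_N hN.cN hZ)
    have f4 : CH x₁ x₂ (π / 2) (fun ξ _ => ε ξ) := CH_xi cε
    have m := IH_mono hx12 hpi ((CH_xi hc.cont).mul cT) (((f1.add f2).add f3).add f4) (by
      intro ξ hξ η hη
      have h1 := hε ξ hξ η hη
      have h2 := mul_le_mul_of_nonneg_left h1 (hc.b01 ξ).1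
      refine h2.trans ?_
      obtain ⟨Q, hQ⟩ : ∃ Q, Q = Z (pt ξ η) := ⟨_, rfl⟩
      have hn : ‖Q - 1‖ ^ 2 = ‖Q‖ ^ 2 - 2 * Q.re + 1 := by
        rw [← normSq_eq_norm_sq, ← normSq_eq_norm_sq, normSq_apply, normSq_apply, sub_re, sub_im,
          one_re, one_im]
        ring
      have h3 : χ ξ * ε ξ ≤ ε ξ := mul_le_of_le_one_left (ε0 ξ) (hc.b01 ξ).2
      have h4 : χ ξ * (lam * ‖Q - 1‖ ^ 2) ≤ lam * ‖Q - 1‖ ^ 2 :=
        mul_le_of_le_one_left (mul_nonneg hlam (sq_nonneg _)) (hc.b01 ξ).2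
      have h5 : χ ξ * (k₂ * (1 - Q.re) + lam * (‖Q‖ ^ 2 - Q.re) +
          N Q (deriv Z (pt ξ η)) η + ε ξ) =
          (k₂ - lam) * (χ ξ * (1 - Q.re)) + χ ξ * (lam * ‖Q - 1‖ ^ 2) +
            χ ξ * N Q (deriv Z (pt ξ η)) η + χ ξ * ε ξ := by
        rw [hn]
        ring
      rw [← hQ, h5]
      linarith)
    rw [IH_add hx12 hpi ((f1.add f2).add f3) f4, IH_add hx12 hpi (f1.add f2) f3,
      IH_add hx12 hpi f1 f2, IH_const_mul, IH_const_mul, IH_xi] at m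
    have hD : π / 2 * ∫ ξ in x₁..x₂, ε ξ ≤ π / 2 * |D| :=
      mul_le_mul_of_nonneg_left (εD.trans (le_abs_self D)) hpi
    refine m.trans ?_
    unfold En
    linarith
  have t1 := half X (NiceX.half hX) hP
  have t2 := half (mir X) (NiceX.mir hX) hP'
  -- the whole strip
  have cTπ : CH x₁ x₂ π (fun ξ η =>
      T (X (pt ξ η)) (deriv X (pt ξ η)) (Real.sin η) (Real.cos η)) := by
    have c1 := contH (h := π) hX.an.continuousOn
    have c2 := contH (h := π) hX.an.deriv.continuousOn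
    have c3 : ContinuousOn (fun p : ℝ × ℝ => Real.sin p.2) (Icc x₁ x₂ ×ˢ Icc 0 π) :=
      (Real.continuous_sin.comp continuous_snd).continuousOn
    have c4 : ContinuousOn (fun p : ℝ × ℝ => Real.cos p.2) (Icc x₁ x₂ ×ˢ Icc 0 π) :=
      (Real.continuous_cos.comp continuous_snd).continuousOn
    exact hTc.comp (c1.prodMk (c2.prodMk (c3.prodMk c4)))
      fun p hp' => hX.ne _ (pt_mem_RectH (h := π) hp'.1 hp'.2)
  have cχT : CH x₁ x₂ π (fun ξ η => χ ξ *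
      T (X (pt ξ η)) (deriv X (pt ξ η)) (Real.sin η) (Real.cos η)) := (CH_xi hc.cont).mul cTπ
  have whole : II (x₁ + l) (x₂ - l)
      (fun ξ η => T (X (pt ξ η)) (deriv X (pt ξ η)) (Real.sin η) (Real.cos η)) ≤
      II x₁ x₂ (fun ξ η => χ ξ *
        T (X (pt ξ η)) (deriv X (pt ξ η)) (Real.sin η) (Real.cos η)) := by
    have hin : CH (x₁ + l) (x₂ - l) π (fun ξ η =>
        T (X (pt ξ η)) (deriv X (pt ξ η)) (Real.sin η) (Real.cos η)) :=
      ContinuousOn.mono cTπ (prod_mono (Icc_subset_Icc (by linarith) (by linarith)) subset_rfl)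
    have hin2 : CH (x₁ + l) (x₂ - l) π (fun ξ η => χ ξ *
        T (X (pt ξ η)) (deriv X (pt ξ η)) (Real.sin η) (Real.cos η)) :=
      ContinuousOn.mono cχT (prod_mono (Icc_subset_Icc (by linarith) (by linarith)) subset_rfl)
    have e1 : ∀ (y₁ y₂ : ℝ) (F : ℝ → ℝ → ℝ), II y₁ y₂ F = IH y₁ y₂ π F := fun _ _ _ => rfl
    rw [e1, e1]
    refine (IH_mono hx Real.pi_pos.le hin hin2 fun ξ hξ η _ => ?_).trans ?_
    · rw [hc.mid ξ hξ, one_mul]
    · rw [IH_eq hx Real.pi_pos.le hin2, IH_eq hx12 Real.pi_pos.le cχT]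
      refine setIntegral_mono_set cχT.integrableOn ?_ ?_
      · exact (ae_restrict_iff' (measurableSet_Icc.prod measurableSet_Icc)).2
          (Filter.Eventually.of_forall fun p _ => mul_nonneg (hc.b01 _).1 (hT0 _ _ _ _))
      · exact (prod_mono (Icc_subset_Icc (by linarith) (by linarith)) subset_rfl).eventuallyLE
  have split := II_split hx12 cχT
  have e3 : IH x₁ x₂ (π / 2) (fun ξ η => χ ξ * T (X (pt ξ (π - η)))
      (deriv X (pt ξ (π - η))) (Real.sin (π - η)) (Real.cos (π - η))) =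
      IH x₁ x₂ (π / 2) (fun ξ η => χ ξ *
        T (mir X (pt ξ η)) (deriv (mir X) (pt ξ η)) (Real.sin η) (Real.cos η)) := by
    unfold IH
    refine intervalIntegral.integral_congr fun ξ hξ => ?_
    rw [uIcc_of_le hx12] at hξ
    refine intervalIntegral.integral_congr fun η hη => ?_
    rw [uIcc_of_le hpi] at hη
    have hm : pt ξ (π - η) ∈ Rect x₁ x₂ := by
      have := mir_mem (pt_mem_RectH hξ hη)
      rwa [conj_pt] at this
    have hd : DifferentiableAt ℂ X (pt ξ (π - η)) := (hX.an _ hm).differentiableAt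
    simp only
    rw [mir_pt, mir_deriv_pt hd, hTm, Real.sin_pi_sub, Real.cos_pi_sub]
  rw [e3] at split
  rw [split] at whole
  -- the linear part
  obtain ⟨A, hA⟩ : ∃ A, A = IH x₁ x₂ (π / 2) (fun ξ η => χ ξ * (1 - (X (pt ξ η)).re)) := ⟨_, rfl⟩
  obtain ⟨A', hA'⟩ : ∃ A', A' = IH x₁ x₂ (π / 2)
      (fun ξ η => χ ξ * (1 - (mir X (pt ξ η)).re)) := ⟨_, rfl⟩
  obtain ⟨S, hS⟩ : ∃ S, S = ∫ ξ in x₁..x₂, χ ξ * (1 - (X (pt ξ (π / 2))).re) := ⟨_, rfl⟩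
  have e4 : ∫ ξ in x₁..x₂, χ ξ *
      ((π / 2 * (1 - (X (pt ξ (π / 2))).re) - π ^ 2 / 8 * (deriv X (pt ξ (π / 2))).im) +
      (π / 2 * (1 - (conj (X (pt ξ (π / 2)))).re) -
        π ^ 2 / 8 * (conj (deriv X (pt ξ (π / 2)))).im)) = π * S := by
    rw [hS, ← intervalIntegral.integral_const_mul]
    refine intervalIntegral.integral_congr fun ξ _ => ?_
    simp only [conj_re, conj_im]
    ring
  rw [e4, ← hA, ← hA'] at b2
  rw [← hS]
  have hEl : 0 ≤ 1 + E / l := by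
    have := div_nonneg hE0 hl0.le
    linarith
  have r1 : C₁ * (1 + E / l) ≤ |C₁| * (1 + E / l) :=
    mul_le_mul_of_nonneg_right (le_abs_self C₁) hEl
  have r2 : C₂ * (1 + E / l) ≤ |C₂| * (1 + E / l) :=
    mul_le_mul_of_nonneg_right (le_abs_self C₂) hEl
  have r3 : π * |D| ≤ π * |D| * (1 + E / l) := by
    have := div_nonneg hE0 hl0.le
    nlinarith [mul_nonneg Real.pi_pos.le (abs_nonneg D)]
  have hEE := En_add hx12 hX
  rw [← hE] at hEE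
  rw [← hA] at t1
  rw [← hA'] at t2
  have b1' := (abs_le.1 b1).2
  have b2' := (abs_le.1 b2).2
  have b3 : (k₂ - lam) * (A + A') ≤ (k₂ - lam) * (π * S + |C₂| * (1 + E / l)) :=
    mul_le_mul_of_nonneg_left (by linarith) (by linarith)
  have b4 : lam * (En X x₁ x₂ + En (mir X) x₁ x₂) = lam * E := by rw [hEE]
  have b5 : (|C₁| + (k₂ - lam) * |C₂| + π * |D|) * (1 + E / l) =
      |C₁| * (1 + E / l) + (k₂ - lam) * (|C₂| * (1 + E / l)) + π * |D| * (1 + E / l) := by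
    ring
  have b6 : lam * En X x₁ x₂ + lam * En (mir X) x₁ x₂ = lam * E := by rw [← mul_add, hEE]
  have b7 : (k₂ - lam) * A + (k₂ - lam) * A' = (k₂ - lam) * (A + A') := by ring
  have b8 : (k₂ - lam) * (π * S + |C₂| * (1 + E / l)) =
      (k₂ - lam) * (π * S) + (k₂ - lam) * (|C₂| * (1 + E / l)) := by ring
  rw [b8] at b3
  rw [b5]
  linarith [whole, t1, t2, b1', b3, b6, b7, r1, r3]

end Pool.Agent.Helper69.EK3

end

section


/-!
The pointwise inequality for a direction `α = (1+u)/2`, `|u| = 1`.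
-/

set_option autoImplicit false

open Complex
open scoped ComplexConjugate

namespace Pool.Agent.Helper71.EKC

open Pool.EK71 Pool.Agent.Helper52.EK Pool.Agent.Helper2.EK Pool.Agent.Helper71.EK

lemma Gc_mul (m : ℂ) {s c : ℝ} (h : s ^ 2 + c ^ 2 = 1) :
    ‖Gc m - e0 s c‖ ^ 2 * max 1 (‖m‖ ^ 2) = ‖m - e0 s c‖ ^ 2 := by
  have he := e0_norm h
  rcases le_or_gt (‖m‖ ^ 2) 1 with h1 | h1
  · rw [Gc, max_eq_left h1]; simp
  · have hm : 0 < ‖m‖ ^ 2 := by linarith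
    rw [Gc, max_eq_right h1.le]
    show ‖m / ((‖m‖ ^ 2 : ℝ) : ℂ) - e0 s c‖ ^ 2 * ‖m‖ ^ 2 = ‖m - e0 s c‖ ^ 2
    rw [← Complex.normSq_eq_norm_sq (m / _ - _), ← Complex.normSq_eq_norm_sq (m - _),
      Complex.normSq_sub, Complex.normSq_sub, Complex.normSq_div, Complex.normSq_ofReal,
      Complex.normSq_eq_norm_sq m, Complex.normSq_eq_norm_sq (e0 s c), he]
    have e1 : (m / ((‖m‖ ^ 2 : ℝ) : ℂ) * (starRingEnd ℂ) (e0 s c)).re =
        (m * (starRingEnd ℂ) (e0 s c)).re / ‖m‖ ^ 2 := by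
      rw [div_mul_eq_mul_div, Complex.div_ofReal_re]
    rw [e1]
    have hm0 : ‖m‖ ≠ 0 := by intro h0; rw [h0] at hm; simp at hm
    field_simp
    ring

lemma Gc_le (m : ℂ) {s c E σ : ℝ} (h : s ^ 2 + c ^ 2 = 1) (hσ : 0 ≤ σ) (h1 : σ ≤ E)
    (h2 : ‖m - e0 s c‖ ^ 2 ≤ E + σ * (‖m‖ ^ 2 - 1)) : ‖Gc m - e0 s c‖ ^ 2 ≤ E := by
  have h3 := Gc_mul m h
  rcases le_or_gt (‖m‖ ^ 2) 1 with h4 | h4
  · rw [max_eq_left h4, mul_one] at h3
    rw [h3]
    have : σ * (‖m‖ ^ 2 - 1) ≤ 0 := mul_nonpos_of_nonneg_of_nonpos hσ (by linarith)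
    linarith
  · rw [max_eq_right h4.le] at h3
    have h5 : ‖Gc m - e0 s c‖ ^ 2 * ‖m‖ ^ 2 ≤ E * ‖m‖ ^ 2 := by
      rw [h3]
      have : σ * (‖m‖ ^ 2 - 1) ≤ E * (‖m‖ ^ 2 - 1) :=
        mul_le_mul_of_nonneg_right h1 (by linarith)
      linarith
    exact le_of_mul_le_mul_right h5 (by linarith)

/-- `m` in the direction `α`, in the variable `X = αΞ` (`X` here is `Ξ`) -/
noncomputable def mal (α X Y : ℂ) (s c : ℝ) : ℂ :=
  (1 + e0 s c) * (1 + (2 * conj α * (X - 1) + (2 * conj α - 1) * (Y / X))) - 1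

/-- the functional in the direction `α` -/
noncomputable def Tal (α X Y : ℂ) (s c : ℝ) : ℝ := ‖Gc (mal α X Y s c) - e0 s c‖ ^ 2

lemma mal_sub (α X Y : ℂ) {s c : ℝ} (h : s ^ 2 + c ^ 2 = 1) :
    ‖mal α X Y s c - e0 s c‖ ^ 2 =
      4 * s ^ 2 * ‖2 * conj α * (X - 1) + (2 * conj α - 1) * (Y / X)‖ ^ 2 := by
  have e : mal α X Y s c - e0 s c =
      (1 + e0 s c) * (2 * conj α * (X - 1) + (2 * conj α - 1) * (Y / X)) := by
    rw [mal]; ring
  have e2 : ‖1 + e0 s c‖ ^ 2 = 4 * s ^ 2 := by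
    rw [← Complex.normSq_eq_norm_sq, Complex.normSq_apply, e0]
    simp [pow_two]
    nlinarith [h, sq_nonneg s, sq_nonneg c]
  rw [e, norm_mul, mul_pow, e2]

lemma m_sq (v : ℂ) {s c : ℝ} (h : s ^ 2 + c ^ 2 = 1) :
    ‖(1 + e0 s c) * (1 + v) - 1‖ ^ 2 - 1 =
      4 * s ^ 2 * (‖v‖ ^ 2 + v.re) + 4 * s * c * v.im := by
  rw [← Complex.normSq_eq_norm_sq, ← Complex.normSq_eq_norm_sq, Complex.normSq_apply,
    Complex.normSq_apply, e0]
  simp [pow_two]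
  generalize v.re = a
  generalize v.im = b
  have : c ^ 2 = 1 - s ^ 2 := by nlinarith
  have h4 : c ^ 4 = (1 - s ^ 2) ^ 2 := by rw [← this]; ring
  ring_nf
  simp only [h4, this]
  ring

/-- the right side of the certificate -/
noncomputable def RHS (C : CD) (X Y : ℂ) (s c : ℝ) : ℝ :=
  (C.kk / C.K : ℝ) * ‖X - 1‖ ^ 2
    + (s ^ 2 * C.fLap X * ‖Y‖ ^ 2 - 2 * (c ^ 2 - s ^ 2) * C.fU X)
    + (s ^ 2 * (potx C C.W X * Y.re + poty C C.W X * Y.im)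
      + 2 * s * c * (potx C C.T X * Y.re + poty C C.T X * Y.im))
    + (s ^ 2 * (-potx C C.V X * Y.im + poty C C.V X * Y.re) + 2 * s * c * pot C C.V X)
    + (2 * s * c * (-potx C C.Z X * Y.im + poty C C.Z X * Y.re)
      + 2 * (c ^ 2 - s ^ 2) * pot C C.Z X)

lemma RHS_eq (C : CD) (X Y : ℂ) (s c : ℝ) :
    RHS C X Y s c = (C.pt X.re X.im).EE Y.re Y.im s c := by
  have hY : ‖Y‖ ^ 2 = Y.re ^ 2 + Y.im ^ 2 := by
    rw [← Complex.normSq_eq_norm_sq, Complex.normSq_apply]; ring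
  have hL : C.fLap X = (C.pt X.re X.im).n4 / ((C.pt X.re X.im).E * (C.pt X.re X.im).D ^ 2) := by
    show _ = ev2 X.re X.im C.N4L / C.K / (Da C.a X.re X.im ^ C.k * Da C.a X.re X.im ^ 2)
    rw [CD.fLap, pow_add]
  rw [RHS, hY, hL, fU_eq, ← Fp_eq]
  rfl

/-- the checks of condition 1 -/
def ok1 (C : CD) (D : Dat) (T : Cov) : Bool :=
  rp D.N C.m11L D.P11 && rp D.N C.m12L D.P12 && rp D.N C.m22L D.P22 && rp D.N' C.q1L D.Q && T.ok D

/-- the checks of condition 2 at the vertex `(p/L, r/L)` -/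
def ok2 (C : CD) (p r L : ℤ) (D : Dat) (T : Cov) : Bool :=
  rp D.N (C.M11L p r L) D.P11 && rp D.N (C.M12L p r L) D.P12 && rp D.N (C.M22L p r L) D.P22 &&
    rp D.N' C.q2L D.Q && T.ok D

/-- nonnegativity of `S` -/
def okS (C : CD) (D : Dat) (T : Cov) : Bool := rp D.N C.S D.P11 && T.ok D

lemma pos_1 {C : CD} (hK : 0 < C.K) {D : Dat} {T : Cov} (h : ok1 C D T = true) (x y : ℝ) :
    0 < (C.pt x y).n4 ∧ 0 ≤ (C.pt x y).m11 ∧ 0 ≤ (C.pt x y).m22 ∧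
      (C.pt x y).m12 ^ 2 ≤ (C.pt x y).m11 * (C.pt x y).m22 := by
  simp only [ok1, Bool.and_eq_true] at h
  obtain ⟨⟨⟨⟨h1, h2⟩, h3⟩, h4⟩, h5⟩ := h
  obtain ⟨g1, g2, g3, g4⟩ := Cov.sound h5 x y
  rw [rp_sound h1, CD.v_m11 x y hK] at g1 g3
  rw [rp_sound h3, CD.v_m22 x y hK] at g2 g3
  rw [rp_sound h2, CD.v_m12 x y hK] at g3
  rw [rp_sound h4, CD.q1L, e_sb, CD.v_n4 x y hK, e_c] at g4
  have hK' : (0 : ℝ) < C.K := by exact_mod_cast hK
  have hK2 : (0 : ℝ) < 4 * C.K ^ 2 := by positivity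
  refine ⟨?_, ?_, ?_, ?_⟩
  · have : 0 < (C.K : ℝ) * (C.pt x y).n4 := by push_cast at g4; linarith
    exact pos_of_mul_pos_right this hK'.le
  · exact nonneg_of_mul_nonneg_right g1 hK2
  · exact nonneg_of_mul_nonneg_right g2 hK2
  · have e1 : (4 * (C.K : ℝ) ^ 2 * (C.pt x y).m12) ^ 2 =
        (4 * C.K ^ 2) ^ 2 * (C.pt x y).m12 ^ 2 := by ring
    have e2 : 4 * (C.K : ℝ) ^ 2 * (C.pt x y).m11 * (4 * C.K ^ 2 * (C.pt x y).m22) =
        (4 * C.K ^ 2) ^ 2 * ((C.pt x y).m11 * (C.pt x y).m22) := by ring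
    rw [e1, e2] at g3
    exact le_of_mul_le_mul_left g3 (by positivity)

lemma pos_2 {C : CD} (hK : 0 < C.K) {p r L : ℤ} (hL : 0 < L) {D : Dat} {T : Cov}
    (h : ok2 C p r L D T = true) (x y : ℝ) :
    0 < (C.pt x y).N2 ∧ 0 ≤ (C.pt x y).M11 (p / L) (r / L) ∧
      0 ≤ (C.pt x y).M22 (p / L) (r / L) ∧
      (C.pt x y).M12 (p / L) (r / L) ^ 2 ≤
        (C.pt x y).M11 (p / L) (r / L) * (C.pt x y).M22 (p / L) (r / L) := by
  simp only [ok2, Bool.and_eq_true] at h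
  obtain ⟨⟨⟨⟨h1, h2⟩, h3⟩, h4⟩, h5⟩ := h
  obtain ⟨g1, g2, g3, g4⟩ := Cov.sound h5 x y
  rw [rp_sound h1, CD.v_M11 x y hK hL] at g1 g3
  rw [rp_sound h3, CD.v_M22 x y hK hL] at g2 g3
  rw [rp_sound h2, CD.v_M12 x y hK hL] at g3
  rw [rp_sound h4, CD.q2L, e_sb, CD.v_N2 x y hK, e_c] at g4
  have hK' : (0 : ℝ) < C.K := by exact_mod_cast hK
  have hL' : (0 : ℝ) < L := by exact_mod_cast hL
  have hK2 : (0 : ℝ) < (C.K * L) ^ 2 := by positivity
  refine ⟨?_, ?_, ?_, ?_⟩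
  · have : 0 < (C.K : ℝ) * (C.pt x y).N2 := by push_cast at g4; linarith
    exact pos_of_mul_pos_right this hK'.le
  · exact nonneg_of_mul_nonneg_right g1 hK2
  · exact nonneg_of_mul_nonneg_right g2 hK2
  · set a := (C.pt x y).M11 (p / L) (r / L)
    set b := (C.pt x y).M12 (p / L) (r / L)
    set d := (C.pt x y).M22 (p / L) (r / L)
    have e1 : (((C.K : ℝ) * L) ^ 2 * b) ^ 2 = ((C.K * L) ^ 2) ^ 2 * b ^ 2 := by ring
    have e2 : ((C.K : ℝ) * L) ^ 2 * a * ((C.K * L) ^ 2 * d) =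
        ((C.K * L) ^ 2) ^ 2 * (a * d) := by ring
    rw [e1, e2] at g3
    exact le_of_mul_le_mul_left g3 (by positivity)

/-- everything about one certificate that the kernel checks -/
structure OK (C : CD) where
  p : Fin 3 → ℤ
  r : Fin 3 → ℤ
  L : ℤ
  D1 : Dat
  C1 : Cov
  DS : Dat
  CS : Cov
  D2 : Fin 3 → Dat
  C2 : Fin 3 → Cov
  hK : Nat.blt 0 C.K = true
  ha : Nat.blt 0 C.a = true
  hL : ilt 0 L = true
  fU : fits (2 * C.k + 1) C.U = true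
  fW : fits (2 * C.k + 1) C.W = true
  fT : fits (2 * C.k + 1) C.T = true
  o1 : ok1 C D1 C1 = true
  oS : okS C DS CS = true
  o2 : ∀ i, ok2 C (p i) (r i) L (D2 i) (C2 i) = true

/-- `α` lies in the triangle of the certificate -/
def OK.In {C : CD} (O : OK C) (α : ℂ) : Prop :=
  ∃ l1 l2 l3 : ℝ, 0 ≤ l1 ∧ 0 ≤ l2 ∧ 0 ≤ l3 ∧ l1 + l2 + l3 = 1 ∧
    α.re = l1 * (O.p 0 / O.L) + l2 * (O.p 1 / O.L) + l3 * (O.p 2 / O.L) ∧
    α.im = l1 * (O.r 0 / O.L) + l2 * (O.r 1 / O.L) + l3 * (O.r 2 / O.L)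

theorem OK.main {C : CD} (O : OK C) {α : ℂ} (hα : O.In α) (hc : ‖2 * α - 1‖ = 1)
    {X : ℂ} (hX : X ≠ 0) (Y : ℂ) {s c : ℝ} (h : s ^ 2 + c ^ 2 = 1) :
    Tal α X Y s c ≤ RHS C X Y s c := by
  have hK : 0 < C.K := by have := O.hK; rwa [Nat.blt_eq] at this
  have hL : 0 < O.L := by have := O.hL; simpa [ilt] using this
  obtain ⟨p1, p2, p3, p4⟩ := pos_1 hK O.o1 X.re X.im
  have hS : 0 ≤ (C.pt X.re X.im).sg := by
    have h1 := O.oS
    simp only [okS, Bool.and_eq_true] at h1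
    obtain ⟨g1, _⟩ := Cov.sound h1.2 X.re X.im
    rw [rp_sound h1.1, CD.v_S X.re X.im hK] at g1
    exact nonneg_of_mul_nonneg_right g1 (by exact_mod_cast hK)
  set P := C.pt X.re X.im with hP
  have hD : 0 < P.D := Da_pos C.a X.re X.im
  have hE : 0 < P.E := pow_pos (Da_pos C.a X.re X.im) _
  have hff : 0 ≤ P.ff := by unfold Pt.ff; positivity
  have hσ : 0 ≤ P.ff * P.sg / P.E := by positivity
  rw [RHS_eq, ← hP]
  refine Gc_le _ h hσ (cond1g P hD hE p1 p2 p3 p4 h Y.re Y.im) ?_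
  rw [mal_sub α X Y h]
  set q := Y / X with hq
  set v := 2 * conj α * (X - 1) + (2 * conj α - 1) * q with hv
  have hm : ‖mal α X Y s c‖ ^ 2 - 1 = 4 * s ^ 2 * (‖v‖ ^ 2 + v.re) + 4 * s * c * v.im := by
    rw [mal, ← hq, ← hv, m_sq v h]
  rw [hm]
  -- the affine function
  have hF : 0 ≤ FF P α.re α.im q.re q.im s c := by
    obtain ⟨l1, l2, l3, i1, i2, i3, i4, i5, i6⟩ := hα
    rw [i5, i6, FF_affine P i4]
    have hv : ∀ i, 0 ≤ FF P (O.p i / O.L) (O.r i / O.L) q.re q.im s c := by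
      intro i
      obtain ⟨r1, r2, r3, r4⟩ := pos_2 hK hL (O.o2 i) X.re X.im
      exact cond2g P hD hE r1 _ _ r2 r3 r4 h q.re q.im
    have := hv 0
    have := hv 1
    have := hv 2
    positivity
  have hcirc : α.re ^ 2 + α.im ^ 2 = α.re := by
    have h1 : ‖2 * α - 1‖ ^ 2 = 1 := by rw [hc]; norm_num
    rw [← Complex.normSq_eq_norm_sq, Complex.normSq_apply] at h1
    simp at h1
    nlinarith
  have e1 : v.re = v1 P α.re α.im q.re q.im := by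
    rw [hv, v1]
    simp
    show _ = 2 * (α.re * (X.re - 1) + α.im * X.im) + (2 * α.re - 1) * q.re + 2 * α.im * q.im
    ring
  have e2 : v.im = v2 P α.re α.im q.re q.im := by
    rw [hv, v2]
    simp
    show _ = 2 * (α.re * X.im - α.im * (X.re - 1)) + (2 * α.re - 1) * q.im - 2 * α.im * q.re
    ring
  have e3 : ‖v‖ ^ 2 = vv P α.re α.im q.re q.im := by
    have : ‖v‖ ^ 2 = v1 P α.re α.im q.re q.im ^ 2 + v2 P α.re α.im q.re q.im ^ 2 := by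
      rw [← Complex.normSq_eq_norm_sq, Complex.normSq_apply, e1, e2]; ring
    rw [this, v1, v2, vv]
    show (2 * (α.re * (X.re - 1) + α.im * X.im) + (2 * α.re - 1) * q.re + 2 * α.im * q.im) ^ 2
      + (2 * (α.re * X.im - α.im * (X.re - 1)) + (2 * α.re - 1) * q.im - 2 * α.im * q.re) ^ 2 =
      4 * α.re * ((X.re - 1) ^ 2 + X.im ^ 2) + 4 * ((α.re * (X.re - 1) - α.im * X.im) * q.re
        + (α.re * X.im + α.im * (X.re - 1)) * q.im) + (q.re ^ 2 + q.im ^ 2)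
    linear_combination (4 * ((X.re - 1) ^ 2 + X.im ^ 2)
      + 8 * ((X.re - 1) * q.re + X.im * q.im) + 4 * (q.re ^ 2 + q.im ^ 2)) * hcirc
  have eY : Y = X * q := by rw [hq]; field_simp
  have e4 : X.re * q.re - X.im * q.im = Y.re := by rw [eY, Complex.mul_re]
  have e5 : X.re * q.im + X.im * q.re = Y.im := by rw [eY, Complex.mul_im]
  rw [e3, e1, e2]
  have hF' : FF P α.re α.im q.re q.im s c = P.EE Y.re Y.im s c
      + P.ff * P.sg / P.E * (4 * s ^ 2 * (vv P α.re α.im q.re q.im + v1 P α.re α.im q.re q.im)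
        + 4 * s * c * v2 P α.re α.im q.re q.im)
      - 4 * s ^ 2 * vv P α.re α.im q.re q.im := by
    rw [FF, ← e4, ← e5]
    rfl
  rw [hF'] at hF
  linarith

end Pool.Agent.Helper71.EKC

end

section

set_option autoImplicit false
open Complex MeasureTheory Metric Set
open scoped Real ComplexConjugate

/-! Project EK: the field function `Gc` is admissible. -/

namespace Pool.Agent.Helper79.EK

open Pool.Agent.Helper52.EK

theorem norm_Gc (m : ℂ) : ‖Gc m‖ = ‖m‖ / max 1 (‖m‖ ^ 2) := by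
  have h : (0:ℝ) < max 1 (‖m‖ ^ 2) := lt_of_lt_of_le one_pos (le_max_left _ _)
  unfold Gc
  rw [norm_div, Complex.norm_real, Real.norm_of_nonneg h.le]

theorem norm_Gc_le (m : ℂ) : ‖Gc m‖ ≤ 1 := by
  have h : (0:ℝ) < max 1 (‖m‖ ^ 2) := lt_of_lt_of_le one_pos (le_max_left _ _)
  rw [norm_Gc, div_le_one h]
  rcases le_total ‖m‖ 1 with h1 | h1
  · exact h1.trans (le_max_left _ _)
  · exact le_trans (by nlinarith) (le_max_right _ _)

theorem sq_norm_sub_div (m m' : ℂ) {p q : ℝ} (hp : 0 < p) (hq : 0 < q) :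
    ‖m / (p : ℂ) - m' / (q : ℂ)‖ ^ 2 =
      ‖m‖ ^ 2 / p ^ 2 + ‖m'‖ ^ 2 / q ^ 2 - 2 * (m.re * m'.re + m.im * m'.im) / (p * q) := by
  rw [Complex.sq_norm, Complex.sq_norm, Complex.sq_norm, normSq_apply, normSq_apply, normSq_apply]
  simp only [sub_re, sub_im, div_ofReal_re, div_ofReal_im]
  field_simp
  ring

theorem Gc_sub_le (m m' : ℂ) : ‖Gc m - Gc m'‖ ≤ ‖m - m'‖ := by
  have hp : (0:ℝ) < max 1 (‖m‖ ^ 2) := lt_of_lt_of_le one_pos (le_max_left _ _)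
  have hq : (0:ℝ) < max 1 (‖m'‖ ^ 2) := lt_of_lt_of_le one_pos (le_max_left _ _)
  have h1 := sq_norm_sub_div m m' hp hq
  have h2 := sq_norm_sub_div m m' (p := 1) (q := 1) one_pos one_pos
  simp only [ofReal_one, div_one, one_pow, mul_one] at h2
  refine le_of_sq_le_sq ?_ (norm_nonneg _)
  unfold Gc
  rw [h1, h2]
  have hA : 0 ≤ ‖m‖ ^ 2 := sq_nonneg _
  have hB : 0 ≤ ‖m'‖ ^ 2 := sq_nonneg _
  have hR : 0 ≤ ‖m‖ ^ 2 + ‖m'‖ ^ 2 - 2 * (m.re * m'.re + m.im * m'.im) := by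
    rw [← h2]
    exact sq_nonneg _
  generalize ‖m‖ ^ 2 = A at *
  generalize ‖m'‖ ^ 2 = B at *
  generalize m.re * m'.re + m.im * m'.im = R at *
  rcases le_total A 1 with a1 | a1 <;> rcases le_total B 1 with b1 | b1
  · rw [max_eq_left a1, max_eq_left b1]
    simp
  · rw [max_eq_left a1, max_eq_right b1]
    have hB0 : 0 < B := by linarith
    have h3 : A / 1 ^ 2 + B / B ^ 2 - 2 * R / (1 * B) = A + (1 - 2 * R) / B := by
      field_simp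
      ring
    rw [h3]
    have h4 : (1 - 2 * R) / B ≤ B - 2 * R := by
      rw [div_le_iff₀ hB0]
      nlinarith
    linarith
  · rw [max_eq_right a1, max_eq_left b1]
    have hA0 : 0 < A := by linarith
    have h3 : A / A ^ 2 + B / 1 ^ 2 - 2 * R / (A * 1) = B + (1 - 2 * R) / A := by
      field_simp
      ring
    rw [h3]
    have h4 : (1 - 2 * R) / A ≤ A - 2 * R := by
      rw [div_le_iff₀ hA0]
      nlinarith
    linarith
  · rw [max_eq_right a1, max_eq_right b1]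
    have hA0 : 0 < A := by linarith
    have hB0 : 0 < B := by linarith
    have h3 : A / A ^ 2 + B / B ^ 2 - 2 * R / (A * B) = (A + B - 2 * R) / (A * B) := by
      field_simp
      ring
    rw [h3]
    refine div_le_self hR ?_
    nlinarith

theorem Gc_lip : GLip Gc 1 where
  le_one := norm_Gc_le
  lip := fun m m' => by rw [one_mul]; exact Gc_sub_le m m'
  rot := fun u m hu => by
    have h : Gc (u * m) - Gc m = (u - 1) * Gc m := by
      unfold Gc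
      rw [norm_mul, hu, one_mul]
      ring
    rw [h, norm_mul, one_mul]
    exact mul_le_of_le_one_right (norm_nonneg _) (norm_Gc_le m)

end Pool.Agent.Helper79.EK

end

section

set_option autoImplicit false
open Complex MeasureTheory Metric Set
open scoped Real ComplexConjugate

/-! EKC: the field function for the direction `u`. -/

namespace Pool.Agent.Helper68.EKC

open Pool.Agent.Helper52.EK Pool.Agent.Helper79.EK

/-- the field function for the direction `u` -/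
noncomputable def Gu (u m : ℂ) : ℂ := Gc (conj u * (m + 1) - 1)

theorem Gc_far {p q : ℂ} (hp : 1 ≤ ‖p‖) (hq : 1 ≤ ‖q‖) :
    ‖Gc p - Gc q‖ ≤ ‖p - q‖ / (‖p‖ * ‖q‖) := by
  have hp0 : 0 < ‖p‖ := by linarith
  have hq0 : 0 < ‖q‖ := by linarith
  have hp2 : (0:ℝ) < ‖p‖ ^ 2 := by positivity
  have hq2 : (0:ℝ) < ‖q‖ ^ 2 := by positivity
  have h1 := sq_norm_sub_div p q hp2 hq2
  have h2 := sq_norm_sub_div p q (p := 1) (q := 1) one_pos one_pos
  simp only [ofReal_one, div_one, one_pow, mul_one] at h2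
  have hG : Gc p - Gc q = p / ((‖p‖ ^ 2 : ℝ) : ℂ) - q / ((‖q‖ ^ 2 : ℝ) : ℂ) := by
    unfold Gc
    rw [max_eq_right (by nlinarith), max_eq_right (by nlinarith)]
  refine le_of_sq_le_sq ?_ (by positivity)
  rw [hG, h1, div_pow, h2]
  apply le_of_eq
  field_simp
  ring

theorem Gu_lip {u : ℂ} (hu : ‖u‖ = 1) : GLip (Gu u) 4 where
  le_one := fun m => norm_Gc_le _
  lip := fun m m' => by
    refine (Gc_sub_le _ _).trans ?_
    have e : conj u * (m + 1) - 1 - (conj u * (m' + 1) - 1) = conj u * (m - m') := by ring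
    rw [e, norm_mul, RCLike.norm_conj, hu, one_mul]
    have := norm_nonneg (m - m')
    linarith
  rot := fun v m hv => by
    set p : ℂ := conj u * (v * m + 1) - 1 with hp
    set q : ℂ := conj u * (m + 1) - 1 with hq
    have hpq : ‖p - q‖ = ‖m‖ * ‖v - 1‖ := by
      have e : p - q = conj u * (m * (v - 1)) := by rw [hp, hq]; ring
      rw [e, norm_mul, RCLike.norm_conj, hu, one_mul, norm_mul]
    have hv0 := norm_nonneg (v - 1)
    have hm0 := norm_nonneg m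
    show ‖Gc p - Gc q‖ ≤ 4 * ‖v - 1‖
    rcases le_or_gt ‖m‖ 4 with hm | hm
    · refine (Gc_sub_le _ _).trans ?_
      rw [hpq]
      exact mul_le_mul_of_nonneg_right hm hv0
    · have hlow : ∀ w : ℂ, ‖w‖ = ‖m‖ → ‖m‖ / 2 ≤ ‖conj u * (w + 1) - 1‖ := by
        intro w hw
        have h1 : ‖conj u * w‖ = ‖m‖ := by rw [norm_mul, RCLike.norm_conj, hu, one_mul, hw]
        have h2 : ‖(1 : ℂ) - conj u‖ ≤ 2 := by
          refine (norm_sub_le _ _).trans ?_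
          rw [norm_one, RCLike.norm_conj, hu]
          norm_num
        have h3 : conj u * (w + 1) - 1 = conj u * w - (1 - conj u) := by ring
        have h4 := norm_sub_norm_le (conj u * w) (1 - conj u)
        rw [h3]
        linarith
      have hp1 : ‖m‖ / 2 ≤ ‖p‖ := hlow (v * m) (by rw [norm_mul, hv, one_mul])
      have hq1 : ‖m‖ / 2 ≤ ‖q‖ := hlow m rfl
      refine (Gc_far (by linarith) (by linarith)).trans ?_
      rw [hpq, div_le_iff₀ (by nlinarith)]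
      have h5 : ‖m‖ / 2 * (‖m‖ / 2) ≤ ‖p‖ * ‖q‖ :=
        mul_le_mul hp1 hq1 (by linarith) (by linarith)
      have h6 : ‖m‖ ≤ 4 * (‖p‖ * ‖q‖) := by nlinarith
      calc ‖m‖ * ‖v - 1‖ ≤ (4 * (‖p‖ * ‖q‖)) * ‖v - 1‖ := mul_le_mul_of_nonneg_right h6 hv0
        _ = 4 * ‖v - 1‖ * (‖p‖ * ‖q‖) := by ring

end Pool.Agent.Helper68.EKC

end

section


/-!
Certificates at the vertices of a polygon: the potentials and `κ₂` are affine functions of the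
direction `α = (1+u)/2`, the weight `σ` is fixed.
-/

set_option autoImplicit false

open Complex
open scoped ComplexConjugate

namespace Pool.Agent.Helper71.EKC

open Pool.EK71 Pool.Agent.Helper52.EK Pool.Agent.Helper2.EK Pool.Agent.Helper71.EK
open Pool.Agent.Helper68.EKC (Gu Gu_lip)

/-- the potentials of a certificate -/
structure Fns where
  k2 : ℝ
  U : ℂ → ℝ
  Ux : ℂ → ℝ
  Uy : ℂ → ℝ
  L : ℂ → ℝ
  V : ℂ → ℝ
  Vx : ℂ → ℝ
  Vy : ℂ → ℝ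
  Z : ℂ → ℝ
  Zx : ℂ → ℝ
  Zy : ℂ → ℝ
  W : ℂ → ℝ
  Wx : ℂ → ℝ
  Wy : ℂ → ℝ
  T : ℂ → ℝ
  Tx : ℂ → ℝ
  Ty : ℂ → ℝ

structure Fns.Good (F : Fns) : Prop where
  hU : C2f F.U F.Ux F.Uy F.L
  hV : C1f F.V F.Vx F.Vy
  hZ : C1f F.Z F.Zx F.Zy
  hW : C1f F.W F.Wx F.Wy
  hT : C1f F.T F.Tx F.Ty
  bd : ∃ C : ℝ, ∀ X, |F.U X| ≤ C * ‖X - 1‖ ^ 2 ∧ |F.W X| ≤ C * ‖X - 1‖ ^ 2 ∧
    |F.T X| ≤ C * ‖X - 1‖ ^ 2

/-- the right side of the certificate -/
noncomputable def Fns.R (F : Fns) (X Y : ℂ) (s c : ℝ) : ℝ :=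
  F.k2 * ‖X - 1‖ ^ 2 + (s ^ 2 * F.L X * ‖Y‖ ^ 2 - 2 * (c ^ 2 - s ^ 2) * F.U X)
    + (s ^ 2 * (F.Wx X * Y.re + F.Wy X * Y.im) + 2 * s * c * (F.Tx X * Y.re + F.Ty X * Y.im))
    + (s ^ 2 * (-F.Vx X * Y.im + F.Vy X * Y.re) + 2 * s * c * F.V X)
    + (2 * s * c * (-F.Zx X * Y.im + F.Zy X * Y.re) + 2 * (c ^ 2 - s ^ 2) * F.Z X)

/-- `|v|²`, with `|α|²` replaced by `Re α` -/
noncomputable def wv (a b : ℝ) (X q : ℂ) : ℝ :=
  4 * a * ((X.re - 1) ^ 2 + X.im ^ 2) + 4 * ((a * (X.re - 1) - b * X.im) * q.re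
    + (a * X.im + b * (X.re - 1)) * q.im) + (q.re ^ 2 + q.im ^ 2)
noncomputable def w1 (a b : ℝ) (X q : ℂ) : ℝ :=
  2 * (a * (X.re - 1) + b * X.im) + (2 * a - 1) * q.re + 2 * b * q.im
noncomputable def w2 (a b : ℝ) (X q : ℂ) : ℝ :=
  2 * (a * X.im - b * (X.re - 1)) + (2 * a - 1) * q.im - 2 * b * q.re

noncomputable def QQ (σ a b : ℝ) (X q : ℂ) (s c : ℝ) : ℝ :=
  σ * (4 * s ^ 2 * (wv a b X q + w1 a b X q) + 4 * s * c * w2 a b X q) - 4 * s ^ 2 * wv a b X q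

/-- a certificate at the vertex `a + b i` with the weight `σ` -/
structure Vert (σ : ℂ → ℝ) (a b : ℝ) (F : Fns) : Prop where
  good : F.Good
  nn : ∀ X, 0 ≤ σ X
  c1 : ∀ (X Y : ℂ) (s c : ℝ), s ^ 2 + c ^ 2 = 1 → σ X ≤ F.R X Y s c
  c2 : ∀ (X q : ℂ) (s c : ℝ), s ^ 2 + c ^ 2 = 1 →
    0 ≤ F.R X (X * q) s c + QQ (σ X) a b X q s c

theorem Vert.le {σ : ℂ → ℝ} {α : ℂ} {F : Fns} (h : Vert σ α.re α.im F) (hc : ‖2 * α - 1‖ = 1)
    {X : ℂ} (hX : X ≠ 0) (Y : ℂ) {s c : ℝ} (hs : s ^ 2 + c ^ 2 = 1) :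
    Tal α X Y s c ≤ F.R X Y s c := by
  refine Gc_le _ hs (h.nn X) (h.c1 X Y s c hs) ?_
  rw [mal_sub α X Y hs]
  obtain ⟨q, hq⟩ : ∃ q : ℂ, q = Y / X := ⟨_, rfl⟩
  obtain ⟨v, hv⟩ : ∃ v : ℂ, v = 2 * conj α * (X - 1) + (2 * conj α - 1) * q := ⟨_, rfl⟩
  have hm : ‖mal α X Y s c‖ ^ 2 - 1 = 4 * s ^ 2 * (‖v‖ ^ 2 + v.re) + 4 * s * c * v.im := by
    rw [mal, ← hq, ← hv, m_sq v hs]
  rw [hm, ← hq, ← hv]
  have hcirc : α.re ^ 2 + α.im ^ 2 = α.re := by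
    have h1 : ‖2 * α - 1‖ ^ 2 = 1 := by rw [hc]; norm_num
    rw [← Complex.normSq_eq_norm_sq, Complex.normSq_apply] at h1
    simp at h1
    nlinarith
  have e1 : v.re = w1 α.re α.im X q := by
    rw [hv, w1]
    simp
    ring
  have e2 : v.im = w2 α.re α.im X q := by
    rw [hv, w2]
    simp
    ring
  have e3 : ‖v‖ ^ 2 = wv α.re α.im X q := by
    have : ‖v‖ ^ 2 = w1 α.re α.im X q ^ 2 + w2 α.re α.im X q ^ 2 := by
      rw [← Complex.normSq_eq_norm_sq, Complex.normSq_apply, e1, e2]; ring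
    rw [this, w1, w2, wv]
    linear_combination (4 * ((X.re - 1) ^ 2 + X.im ^ 2)
      + 8 * ((X.re - 1) * q.re + X.im * q.im) + 4 * (q.re ^ 2 + q.im ^ 2)) * hcirc
  have eY : Y = X * q := by rw [hq]; field_simp
  have h2 := h.c2 X q s c hs
  rw [← eY, QQ] at h2
  rw [e3, e1, e2]
  linarith

/-! ### sums and multiples -/

lemma c1_comb {A Ax Ay B Bx By : ℂ → ℝ} (hA : C1f A Ax Ay) (hB : C1f B Bx By) (l m : ℝ) :
    C1f (fun X => l * A X + m * B X) (fun X => l * Ax X + m * Bx X)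
      (fun X => l * Ay X + m * By X) := by
  refine c1_congr (c1_add (c1_mul (c1_const l) hA) (c1_mul (c1_const m) hB)) ?_ ?_ ?_ <;>
    intro X <;> ring

lemma c2_comb {A Ax Ay LA B Bx By LB : ℂ → ℝ} (hA : C2f A Ax Ay LA) (hB : C2f B Bx By LB)
    (l m : ℝ) : C2f (fun X => l * A X + m * B X) (fun X => l * Ax X + m * Bx X)
      (fun X => l * Ay X + m * By X) (fun X => l * LA X + m * LB X) := by
  obtain ⟨h1, a1, a2, a3, a4, a5, a6⟩ := hA
  obtain ⟨g1, b1, b2, b3, b4, b5, b6⟩ := hB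
  refine ⟨c1_comb h1 g1 l m, _, _, _, c1_comb a4 b4 l m, c1_comb a5 b5 l m, fun X => ?_⟩
  rw [a6, b6]; ring

/-- linear combination of potentials -/
noncomputable def Fns.comb (F G : Fns) (l m : ℝ) : Fns where
  k2 := l * F.k2 + m * G.k2
  U := fun X => l * F.U X + m * G.U X
  Ux := fun X => l * F.Ux X + m * G.Ux X
  Uy := fun X => l * F.Uy X + m * G.Uy X
  L := fun X => l * F.L X + m * G.L X
  V := fun X => l * F.V X + m * G.V X
  Vx := fun X => l * F.Vx X + m * G.Vx X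
  Vy := fun X => l * F.Vy X + m * G.Vy X
  Z := fun X => l * F.Z X + m * G.Z X
  Zx := fun X => l * F.Zx X + m * G.Zx X
  Zy := fun X => l * F.Zy X + m * G.Zy X
  W := fun X => l * F.W X + m * G.W X
  Wx := fun X => l * F.Wx X + m * G.Wx X
  Wy := fun X => l * F.Wy X + m * G.Wy X
  T := fun X => l * F.T X + m * G.T X
  Tx := fun X => l * F.Tx X + m * G.Tx X
  Ty := fun X => l * F.Ty X + m * G.Ty X

lemma Fns.R_comb (F G : Fns) (l m : ℝ) (X Y : ℂ) (s c : ℝ) :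
    (F.comb G l m).R X Y s c = l * F.R X Y s c + m * G.R X Y s c := by
  unfold Fns.R Fns.comb
  ring

lemma bd_comb {a b C D n l m : ℝ} (hl : 0 ≤ l) (hm : 0 ≤ m) (ha : |a| ≤ C * n)
    (hb : |b| ≤ D * n) : |l * a + m * b| ≤ (l * C + m * D) * n := by
  calc |l * a + m * b| ≤ |l * a| + |m * b| := abs_add_le _ _
    _ = l * |a| + m * |b| := by rw [abs_mul, abs_mul, abs_of_nonneg hl, abs_of_nonneg hm]
    _ ≤ l * (C * n) + m * (D * n) :=
      add_le_add (mul_le_mul_of_nonneg_left ha hl) (mul_le_mul_of_nonneg_left hb hm)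
    _ = _ := by ring

lemma Fns.Good.comb {F G : Fns} (hF : F.Good) (hG : G.Good) {l m : ℝ} (hl : 0 ≤ l)
    (hm : 0 ≤ m) : (F.comb G l m).Good := by
  refine ⟨c2_comb hF.hU hG.hU l m, c1_comb hF.hV hG.hV l m, c1_comb hF.hZ hG.hZ l m,
    c1_comb hF.hW hG.hW l m, c1_comb hF.hT hG.hT l m, ?_⟩
  obtain ⟨C, hC⟩ := hF.bd
  obtain ⟨D, hD⟩ := hG.bd
  refine ⟨l * C + m * D, fun X => ⟨?_, ?_, ?_⟩⟩
  · exact bd_comb hl hm (hC X).1 (hD X).1
  · exact bd_comb hl hm (hC X).2.1 (hD X).2.1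
  · exact bd_comb hl hm (hC X).2.2 (hD X).2.2

lemma QQ_comb (σ a b a' b' : ℝ) (X q : ℂ) (s c : ℝ) {l m : ℝ} (hlm : l + m = 1) :
    QQ σ (l * a + m * a') (l * b + m * b') X q s c =
      l * QQ σ a b X q s c + m * QQ σ a' b' X q s c := by
  have e : m = 1 - l := by linarith
  subst e
  unfold QQ wv w1 w2
  ring

theorem Vert.comb {σ : ℂ → ℝ} {a b a' b' : ℝ} {F G : Fns} (hF : Vert σ a b F)
    (hG : Vert σ a' b' G) {l m : ℝ} (hl : 0 ≤ l) (hm : 0 ≤ m) (hlm : l + m = 1) :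
    Vert σ (l * a + m * a') (l * b + m * b') (F.comb G l m) := by
  refine ⟨hF.good.comb hG.good hl hm, hF.nn, fun X Y s c h => ?_, fun X q s c h => ?_⟩
  · rw [Fns.R_comb]
    have h1 := mul_le_mul_of_nonneg_left (hF.c1 X Y s c h) hl
    have h2 := mul_le_mul_of_nonneg_left (hG.c1 X Y s c h) hm
    have e : σ X = l * σ X + m * σ X := by rw [← add_mul, hlm, one_mul]
    linarith
  · rw [Fns.R_comb, QQ_comb _ _ _ _ _ _ _ _ _ hlm]
    have h1 := mul_nonneg hl (hF.c2 X q s c h)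
    have h2 := mul_nonneg hm (hG.c2 X q s c h)
    linarith

/-! ### reflection -/

lemma c1_conj {A Ax Ay : ℂ → ℝ} (hA : C1f A Ax Ay) :
    C1f (fun X => A (conj X)) (fun X => Ax (conj X)) (fun X => -Ay (conj X)) := by
  refine ⟨fun X => ?_, hA.cx.comp continuous_conj, (hA.cy.comp continuous_conj).neg⟩
  have h1 := hA.hd (conj X)
  have h2 : HasFDerivAt (fun X : ℂ => conj X) (Complex.conjCLE : ℂ →L[ℝ] ℂ) X :=
    Complex.conjCLE.hasFDerivAt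
  have h3 := h1.comp X h2
  refine h3.congr_fderiv ?_
  ext z
  simp

lemma c2_conj {A Ax Ay LA : ℂ → ℝ} (hA : C2f A Ax Ay LA) :
    C2f (fun X => A (conj X)) (fun X => Ax (conj X)) (fun X => -Ay (conj X))
      (fun X => LA (conj X)) := by
  obtain ⟨h1, Axx, Axy, Ayy, h2, h3, h4⟩ := hA
  refine ⟨c1_conj h1, fun X => Axx (conj X), fun X => -Axy (conj X), fun X => Ayy (conj X),
    c1_conj h2, ?_, fun X => h4 _⟩
  refine c1_congr (c1_mul (c1_const (-1)) (c1_conj h3)) ?_ ?_ ?_ <;> intro X <;> ring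

/-- reflection of the potentials -/
noncomputable def Fns.refl (F : Fns) : Fns where
  k2 := F.k2
  U := fun X => F.U (conj X)
  Ux := fun X => F.Ux (conj X)
  Uy := fun X => -F.Uy (conj X)
  L := fun X => F.L (conj X)
  V := fun X => -F.V (conj X)
  Vx := fun X => -F.Vx (conj X)
  Vy := fun X => F.Vy (conj X)
  Z := fun X => F.Z (conj X)
  Zx := fun X => F.Zx (conj X)
  Zy := fun X => -F.Zy (conj X)
  W := fun X => F.W (conj X)
  Wx := fun X => F.Wx (conj X)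
  Wy := fun X => -F.Wy (conj X)
  T := fun X => -F.T (conj X)
  Tx := fun X => -F.Tx (conj X)
  Ty := fun X => F.Ty (conj X)

lemma norm_conj_sub (X : ℂ) : ‖conj X - 1‖ = ‖X - 1‖ := by
  have : conj X - 1 = conj (X - 1) := by simp
  rw [this, RCLike.norm_conj]

lemma Fns.R_refl (F : Fns) (X Y : ℂ) (s c : ℝ) :
    F.refl.R X Y s c = F.R (conj X) (conj Y) (-s) c := by
  unfold Fns.R Fns.refl
  rw [norm_conj_sub, RCLike.norm_conj]
  simp only [Complex.conj_re, Complex.conj_im]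
  ring

lemma Fns.Good.refl {F : Fns} (hF : F.Good) : F.refl.Good := by
  refine ⟨c2_conj hF.hU, ?_, c1_conj hF.hZ, c1_conj hF.hW, ?_, ?_⟩
  · refine c1_congr (c1_mul (c1_const (-1)) (c1_conj hF.hV)) ?_ ?_ ?_ <;> intro X
    · show -F.V (conj X) = _; ring
    · show -F.Vx (conj X) = _; ring
    · show F.Vy (conj X) = _; ring
  · refine c1_congr (c1_mul (c1_const (-1)) (c1_conj hF.hT)) ?_ ?_ ?_ <;> intro X
    · show -F.T (conj X) = _; ring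
    · show -F.Tx (conj X) = _; ring
    · show F.Ty (conj X) = _; ring
  · obtain ⟨C, hC⟩ := hF.bd
    refine ⟨C, fun X => ?_⟩
    have := hC (conj X)
    rw [norm_conj_sub] at this
    refine ⟨this.1, this.2.1, ?_⟩
    show |-F.T (conj X)| ≤ _
    rw [abs_neg]
    exact this.2.2

lemma QQ_refl (σ a b : ℝ) (X q : ℂ) (s c : ℝ) :
    QQ σ a (-b) X q s c = QQ σ a b (conj X) (conj q) (-s) c := by
  unfold QQ wv w1 w2
  simp only [Complex.conj_re, Complex.conj_im]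
  ring

theorem Vert.refl {σ : ℂ → ℝ} (hσ : ∀ X, σ (conj X) = σ X) {a b : ℝ} {F : Fns}
    (hF : Vert σ a b F) : Vert σ a (-b) F.refl := by
  refine ⟨hF.good.refl, hF.nn, fun X Y s c h => ?_, fun X q s c h => ?_⟩
  · rw [Fns.R_refl, ← hσ]
    exact hF.c1 _ _ _ _ (by rw [neg_sq]; exact h)
  · rw [Fns.R_refl, QQ_refl, ← hσ, map_mul]
    exact hF.c2 _ _ _ _ (by rw [neg_sq]; exact h)

/-! ### the convex set of directions and constants -/

/-- there is a certificate for `(a, b, k)` -/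
def VS (σ : ℂ → ℝ) (a b k : ℝ) : Prop := ∃ F : Fns, F.k2 = k ∧ Vert σ a b F

theorem VS.mono {σ : ℂ → ℝ} {a b k k' : ℝ} (h : VS σ a b k) (hk : k ≤ k') : VS σ a b k' := by
  obtain ⟨F, rfl, hF⟩ := h
  refine ⟨{F with k2 := k'}, rfl, ?_⟩
  have hR : ∀ (X Y : ℂ) (s c : ℝ), F.R X Y s c ≤ ({F with k2 := k'} : Fns).R X Y s c := by
    intro X Y s c
    unfold Fns.R
    have : F.k2 * ‖X - 1‖ ^ 2 ≤ k' * ‖X - 1‖ ^ 2 := mul_le_mul_of_nonneg_right hk (sq_nonneg _)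
    simp only
    linarith
  exact ⟨⟨hF.good.hU, hF.good.hV, hF.good.hZ, hF.good.hW, hF.good.hT, hF.good.bd⟩, hF.nn,
    fun X Y s c h => (hF.c1 X Y s c h).trans (hR _ _ _ _),
    fun X q s c h => (hF.c2 X q s c h).trans (add_le_add (hR _ _ _ _) le_rfl)⟩

theorem VS.refl {σ : ℂ → ℝ} (hσ : ∀ X, σ (conj X) = σ X) {a b k : ℝ} (h : VS σ a b k) :
    VS σ a (-b) k := by
  obtain ⟨F, h1, h2⟩ := h
  exact ⟨F.refl, h1, h2.refl hσ⟩

theorem VS.comb {σ : ℂ → ℝ} {a b k a' b' k' : ℝ} (h : VS σ a b k) (h' : VS σ a' b' k')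
    {l m : ℝ} (hl : 0 ≤ l) (hm : 0 ≤ m) (hlm : l + m = 1) :
    VS σ (l * a + m * a') (l * b + m * b') (l * k + m * k') := by
  obtain ⟨F, rfl, hF⟩ := h
  obtain ⟨G, rfl, hG⟩ := h'
  exact ⟨_, rfl, hF.comb hG hl hm hlm⟩

theorem VS.tri {σ : ℂ → ℝ} {a₁ b₁ k₁ a₂ b₂ k₂ a₃ b₃ k₃ : ℝ} (h₁ : VS σ a₁ b₁ k₁)
    (h₂ : VS σ a₂ b₂ k₂) (h₃ : VS σ a₃ b₃ k₃) {l₁ l₂ l₃ : ℝ} (p₁ : 0 ≤ l₁) (p₂ : 0 ≤ l₂)
    (p₃ : 0 ≤ l₃) (hs : l₁ + l₂ + l₃ = 1) :
    VS σ (l₁ * a₁ + l₂ * a₂ + l₃ * a₃) (l₁ * b₁ + l₂ * b₂ + l₃ * b₃)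
      (l₁ * k₁ + l₂ * k₂ + l₃ * k₃) := by
  rcases eq_or_lt_of_le (add_nonneg p₁ p₂) with h | h
  · have e1 : l₁ = 0 := by linarith
    have e2 : l₂ = 0 := by linarith
    have e3 : l₃ = 1 := by linarith
    rw [e1, e2, e3]
    simpa using h₃
  · have h4 := h₁.comb h₂ (l := l₁ / (l₁ + l₂)) (m := l₂ / (l₁ + l₂)) (by positivity)
      (by positivity) (by field_simp)
    have h5 := h4.comb h₃ h.le p₃ hs
    have e : ∀ x y z : ℝ, (l₁ + l₂) * (l₁ / (l₁ + l₂) * x + l₂ / (l₁ + l₂) * y) + l₃ * z =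
        l₁ * x + l₂ * y + l₃ * z := by
      intro x y z
      field_simp
    rw [e, e, e] at h5
    exact h5

/-! ### the strip inequality -/

theorem Tal_eq {u : ℂ} (hu : ‖u‖ = 1) (h1 : 1 + u ≠ 0) (X Y : ℂ) (s c : ℝ) :
    TG (Gu u) ((1 + u) / 2 * X) ((1 + u) / 2 * Y) s c = Tal ((1 + u) / 2) X Y s c := by
  have hal : (1 + u) / 2 ≠ 0 := div_ne_zero h1 two_ne_zero
  have hcu : conj u * u = 1 := by
    rw [mul_comm, Complex.mul_conj, Complex.normSq_eq_norm_sq, hu]; simp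
  have e1 : (1 + u) / 2 * Y / ((1 + u) / 2 * X) = Y / X := mul_div_mul_left _ _ hal
  have e2 : conj u * (mX ((1 + u) / 2 * X) ((1 + u) / 2 * Y) s c + 1) - 1 =
      mal ((1 + u) / 2) X Y s c := by
    rw [mX, mal, e1]
    simp only [map_div₀, map_add, map_one, Complex.conj_ofNat]
    linear_combination ((1 + e0 s c) * X) * hcu
  rw [TG, Tal, Gu, e2]

theorem cont_T {u : ℂ} (hu : ‖u‖ = 1) (h1 : 1 + u ≠ 0) :
    ContinuousOn (fun p : ℂ × ℂ × ℝ × ℝ => TG (Gu u) ((1 + u) / 2 * p.1) ((1 + u) / 2 * p.2.1)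
      p.2.2.1 p.2.2.2) {p | p.1 ≠ 0} := by
  have hal : (1 + u) / 2 ≠ 0 := div_ne_zero h1 two_ne_zero
  have hG : Continuous (Gu u) := Pool.Agent.Helper44.EK.GLip.continuous (Gu_lip hu)
  have c0 : ContinuousOn (fun p : ℂ × ℂ × ℝ × ℝ => (1 + u) / 2 * p.1) {p | p.1 ≠ 0} := by
    fun_prop
  have c1 : ContinuousOn (fun p : ℂ × ℂ × ℝ × ℝ => (1 + u) / 2 * p.2.1) {p | p.1 ≠ 0} := by
    fun_prop
  have c2 : ContinuousOn (fun p : ℂ × ℂ × ℝ × ℝ => e0 p.2.2.1 p.2.2.2) {p | p.1 ≠ 0} := by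
    unfold e0; fun_prop
  have c3 : ContinuousOn (fun p : ℂ × ℂ × ℝ × ℝ =>
      mX ((1 + u) / 2 * p.1) ((1 + u) / 2 * p.2.1) p.2.2.1 p.2.2.2) {p | p.1 ≠ 0} := by
    unfold mX
    refine ((continuousOn_const.add c2).mul ?_).sub continuousOn_const
    refine (((continuousOn_const.mul c0).sub continuousOn_const)).add (c1.div c0 ?_)
    intro p hp
    exact mul_ne_zero hal hp
  exact ((hG.comp_continuousOn c3).sub c2).norm.pow 2

/-- from a certificate to helper68's strip inequality -/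
theorem VS.strip {σ : ℂ → ℝ} {u : ℂ} (hu : ‖u‖ = 1) (h1 : 1 + u ≠ 0) {k : ℝ} (hk : 0 ≤ k)
    (h : VS σ ((1 + u) / 2).re ((1 + u) / 2).im k) :
    StripIneq k (fun X Y s c => TG (Gu u) ((1 + u) / 2 * X) ((1 + u) / 2 * Y) s c) := by
  obtain ⟨F, rfl, hF⟩ := h
  obtain ⟨C, hC⟩ := hF.good.bd
  refine Pool.Agent.Helper44.EK.strip_gen hk (fun X Y s c => sq_nonneg _) (cont_T hu h1)
    hF.good.hU hF.good.hV hF.good.hZ hF.good.hW hF.good.hT (fun X => (hC X).1)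
    (fun X => (hC X).2.1) (fun X => (hC X).2.2) ?_
  intro X Y hX s c hs
  show TG (Gu u) ((1 + u) / 2 * X) ((1 + u) / 2 * Y) s c ≤ _
  rw [Tal_eq hu h1]
  have hc : ‖2 * ((1 + u) / 2) - 1‖ = 1 := by
    have : 2 * ((1 + u) / 2) - 1 = u := by ring
    rw [this, hu]
  exact hF.le hc hX Y hs

end Pool.Agent.Helper71.EKC

end

section


/-!
From the kernel checks of a certificate to the convex set of directions.
-/

set_option autoImplicit false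

open Complex

namespace Pool.Agent.Helper71.EKC

open Pool.EK71 Pool.Agent.Helper52.EK Pool.Agent.Helper2.EK Pool.Agent.Helper71.EK

/-- the weight `σ = |X-1|² S/(K D^k)` -/
noncomputable def sgf (a k K : ℕ) (S : BP) (X : ℂ) : ℝ :=
  ((X.re - 1) ^ 2 + X.im ^ 2) * (ev2 X.re X.im S / K) / Da a X.re X.im ^ k

/-- the potentials of the data -/
noncomputable def CD.fns (C : CD) : Fns where
  k2 := C.kk / C.K
  U := C.fU
  Ux := C.fUx
  Uy := C.fUy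
  L := C.fLap
  V := pot C C.V
  Vx := potx C C.V
  Vy := poty C C.V
  Z := pot C C.Z
  Zx := potx C C.Z
  Zy := poty C C.Z
  W := pot C C.W
  Wx := potx C C.W
  Wy := poty C C.W
  T := pot C C.T
  Tx := potx C C.T
  Ty := poty C C.T

lemma CD.fns_R (C : CD) (X Y : ℂ) (s c : ℝ) : C.fns.R X Y s c = RHS C X Y s c := rfl

/-- the same data with another constant -/
def CD.wk (C : CD) (n : ℤ) : CD := ⟨C.a, C.k, C.K, n, C.U, C.V, C.Z, C.W, C.T, C.S⟩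

def okF (C : CD) : Bool :=
  Nat.blt 0 C.K && Nat.blt 0 C.a && fits (2 * C.k + 1) C.U && fits (2 * C.k + 1) C.W &&
    fits (2 * C.k + 1) C.T

lemma good_of {C : CD} (h : okF C = true) : C.fns.Good := by
  simp only [okF, Bool.and_eq_true, Nat.blt_eq] at h
  obtain ⟨⟨⟨⟨hK, ha⟩, f1⟩, f2⟩, f3⟩ := h
  refine ⟨C.c2_U, c1_pot C C.V, c1_pot C C.Z, c1_pot C C.W, c1_pot C C.T,
    (nm2 C.U : ℝ) + nm2 C.W + nm2 C.T, fun X => ?_⟩
  have h1 := pot_le C ha f1 X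
  have h2 := pot_le C ha f2 X
  have h3 := pot_le C ha f3 X
  have hn := sq_nonneg ‖X - 1‖
  have n1 : (0 : ℝ) ≤ (nm2 C.U : ℝ) * ‖X - 1‖ ^ 2 := by positivity
  have n2 : (0 : ℝ) ≤ (nm2 C.W : ℝ) * ‖X - 1‖ ^ 2 := by positivity
  have n3 : (0 : ℝ) ≤ (nm2 C.T : ℝ) * ‖X - 1‖ ^ 2 := by positivity
  have e : ((nm2 C.U : ℝ) + nm2 C.W + nm2 C.T) * ‖X - 1‖ ^ 2 =
    nm2 C.U * ‖X - 1‖ ^ 2 + nm2 C.W * ‖X - 1‖ ^ 2 + nm2 C.T * ‖X - 1‖ ^ 2 := by ring
  rw [e]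
  refine ⟨?_, ?_, ?_⟩
  · show |C.fU X| ≤ _
    rw [fU_eq]; linarith
  · show |pot C C.W X| ≤ _
    linarith
  · show |pot C C.T X| ≤ _
    linarith

lemma nn_of {C : CD} (hF : okF C = true) {D : Dat} {T : Cov} (h : okS C D T = true) (X : ℂ) :
    0 ≤ sgf C.a C.k C.K C.S X := by
  simp only [okF, Bool.and_eq_true, Nat.blt_eq] at hF
  obtain ⟨⟨⟨⟨hK, ha⟩, f1⟩, f2⟩, f3⟩ := hF
  have hS : 0 ≤ (C.pt X.re X.im).sg := by
    simp only [okS, Bool.and_eq_true] at h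
    obtain ⟨g1, _⟩ := Cov.sound h.2 X.re X.im
    rw [rp_sound h.1, CD.v_S X.re X.im hK] at g1
    exact nonneg_of_mul_nonneg_right g1 (by exact_mod_cast hK)
  have hE : 0 < Da C.a X.re X.im ^ C.k := pow_pos (Da_pos C.a X.re X.im) _
  have hS' : 0 ≤ ev2 X.re X.im C.S / C.K := hS
  unfold sgf
  positivity

lemma v1_of {C : CD} (hF : okF C = true) {D : Dat} {T : Cov} (h : ok1 C D T = true)
    (X Y : ℂ) (s c : ℝ) (hs : s ^ 2 + c ^ 2 = 1) :
    sgf C.a C.k C.K C.S X ≤ C.fns.R X Y s c := by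
  simp only [okF, Bool.and_eq_true, Nat.blt_eq] at hF
  obtain ⟨⟨⟨⟨hK, ha⟩, f1⟩, f2⟩, f3⟩ := hF
  obtain ⟨p1, p2, p3, p4⟩ := pos_1 hK h X.re X.im
  rw [CD.fns_R, RHS_eq]
  exact cond1g (C.pt X.re X.im) (Da_pos C.a X.re X.im) (pow_pos (Da_pos C.a X.re X.im) _)
    p1 p2 p3 p4 hs Y.re Y.im

lemma v2_of {C : CD} (hF : okF C = true) {p r L : ℤ} (hL : ilt 0 L = true) {D : Dat} {T : Cov}
    (h : ok2 C p r L D T = true) (X q : ℂ) (s c : ℝ) (hs : s ^ 2 + c ^ 2 = 1) :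
    0 ≤ C.fns.R X (X * q) s c + QQ (sgf C.a C.k C.K C.S X) (p / L) (r / L) X q s c := by
  simp only [okF, Bool.and_eq_true, Nat.blt_eq] at hF
  obtain ⟨⟨⟨⟨hK, ha⟩, f1⟩, f2⟩, f3⟩ := hF
  have hL' : 0 < L := by simpa [ilt] using hL
  obtain ⟨r1, r2, r3, r4⟩ := pos_2 hK hL' h X.re X.im
  have h2 := cond2g (C.pt X.re X.im) (Da_pos C.a X.re X.im)
    (pow_pos (Da_pos C.a X.re X.im) _) r1 _ _ r2 r3 r4 hs q.re q.im
  rw [CD.fns_R, RHS_eq, Complex.mul_re, Complex.mul_im]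
  unfold FF at h2
  have e : (C.pt X.re X.im).EE (X.re * q.re - X.im * q.im) (X.re * q.im + X.im * q.re) s c
      + QQ (sgf C.a C.k C.K C.S X) (p / L) (r / L) X q s c =
      (C.pt X.re X.im).EE (X.re * q.re - X.im * q.im) (X.re * q.im + X.im * q.re) s c
      + ((C.pt X.re X.im).ff * (C.pt X.re X.im).sg / (C.pt X.re X.im).E
        * (4 * s ^ 2 * (vv (C.pt X.re X.im) (p / L) (r / L) q.re q.im
          + v1 (C.pt X.re X.im) (p / L) (r / L) q.re q.im)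
        + 4 * s * c * v2 (C.pt X.re X.im) (p / L) (r / L) q.re q.im)
      - 4 * s ^ 2 * vv (C.pt X.re X.im) (p / L) (r / L) q.re q.im) := by
    congr 1
  rw [e, ← add_sub_assoc]
  exact h2

theorem vs_of {C : CD} {n p r L : ℤ} {D1 DS D2 : Dat} {C1 CS C2 : Cov} (hn : C.kk ≤ n)
    (hF : okF C = true) (h1 : ok1 C D1 C1 = true) (hS : okS C DS CS = true)
    (hL : ilt 0 L = true) (h2 : ok2 (C.wk n) p r L D2 C2 = true) :
    VS (sgf C.a C.k C.K C.S) (p / L) (r / L) (n / C.K) := by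
  refine ⟨(C.wk n).fns, rfl, ?_⟩
  have hF' : okF (C.wk n) = true := hF
  refine ⟨good_of hF', nn_of hF hS, fun X Y s c hs => ?_, fun X q s c hs => ?_⟩
  · refine (v1_of hF h1 X Y s c hs).trans ?_
    have hk : (C.kk : ℝ) / C.K ≤ n / C.K :=
      div_le_div_of_nonneg_right (by exact_mod_cast hn) (by positivity)
    have h3 : (C.kk : ℝ) / C.K * ‖X - 1‖ ^ 2 ≤ n / C.K * ‖X - 1‖ ^ 2 :=
      mul_le_mul_of_nonneg_right hk (sq_nonneg _)
    have e : (C.wk n).fns.R X Y s c = C.fns.R X Y s c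
        - (C.kk : ℝ) / C.K * ‖X - 1‖ ^ 2 + (n : ℝ) / C.K * ‖X - 1‖ ^ 2 := by
      have e1 : C.fns.R X Y s c = (C.kk : ℝ) / C.K * ‖X - 1‖ ^ 2
          + (C.fns.R X Y s c - (C.kk : ℝ) / C.K * ‖X - 1‖ ^ 2) := by ring
      have e2 : (C.wk n).fns.R X Y s c = (n : ℝ) / C.K * ‖X - 1‖ ^ 2
          + (C.fns.R X Y s c - (C.kk : ℝ) / C.K * ‖X - 1‖ ^ 2) := by
        unfold Fns.R
        show (n : ℝ) / C.K * ‖X - 1‖ ^ 2 + (s ^ 2 * C.fns.L X * ‖Y‖ ^ 2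
            - 2 * (c ^ 2 - s ^ 2) * C.fns.U X)
          + (s ^ 2 * (C.fns.Wx X * Y.re + C.fns.Wy X * Y.im)
            + 2 * s * c * (C.fns.Tx X * Y.re + C.fns.Ty X * Y.im))
          + (s ^ 2 * (-C.fns.Vx X * Y.im + C.fns.Vy X * Y.re) + 2 * s * c * C.fns.V X)
          + (2 * s * c * (-C.fns.Zx X * Y.im + C.fns.Zy X * Y.re)
            + 2 * (c ^ 2 - s ^ 2) * C.fns.Z X) = _
        show _ = (n : ℝ) / C.K * ‖X - 1‖ ^ 2 + ((C.kk : ℝ) / C.K * ‖X - 1‖ ^ 2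
          + (s ^ 2 * C.fns.L X * ‖Y‖ ^ 2 - 2 * (c ^ 2 - s ^ 2) * C.fns.U X)
          + (s ^ 2 * (C.fns.Wx X * Y.re + C.fns.Wy X * Y.im)
            + 2 * s * c * (C.fns.Tx X * Y.re + C.fns.Ty X * Y.im))
          + (s ^ 2 * (-C.fns.Vx X * Y.im + C.fns.Vy X * Y.re) + 2 * s * c * C.fns.V X)
          + (2 * s * c * (-C.fns.Zx X * Y.im + C.fns.Zy X * Y.re)
            + 2 * (c ^ 2 - s ^ 2) * C.fns.Z X) - (C.kk : ℝ) / C.K * ‖X - 1‖ ^ 2)
        ring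
      rw [e2]; ring
    linarith
  · exact v2_of hF' hL h2 X q s c hs

end Pool.Agent.Helper71.EKC

end

section


/-!
The box test for a copositive 2x2 form (and one more polynomial), and trees of boxes:
cones at the origin and at infinity.
-/

set_option autoImplicit false

namespace Pool.EK71

/-- what is proved at a point -/
def Cop (D : Dat) (x y : ℝ) : Prop :=
  (∀ s c : ℝ, 0 ≤ s → 0 ≤ c →
    0 ≤ ev2 x y D.P11 * s ^ 2 + 2 * ev2 x y D.P12 * (s * c) + ev2 x y D.P22 * c ^ 2) ∧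
  0 ≤ ev2 x y D.Q

/-- the tests of the form, given the three numbers -/
def ctst (N W H : ℕ) (l : ℕ) (v11 v12 v22 : ℤ) : Bool :=
  tst N W H v11 && tst N W H v22 &&
  (match l with
   | 0 => tst N W H v12
   | m + 1 => tst N W H (Int.add (Int.mul 16 v11) (Int.mul (Int.ofNat (m + 1)) v12)) &&
      tst N W H (Int.add (Int.mul (Int.ofNat (m + 1)) v22) (Int.mul 16 v12)))

/-- the norm test -/
def nctst (H l c11 c12 c22 : ℕ) : Bool :=
  Nat.blt (16 * c11 + (l + 1) * c12) H && Nat.blt ((l + 1) * c22 + 16 * c12) H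

def frm3 (kind : ℕ) (X1 X0 Y1 Y0 : ℤ) : ℤ × ℤ × ℤ :=
  match kind with
  | 0 => (Int.mul X1 Y0, Int.mul X0 Y1, Int.mul X0 Y0)
  | 1 => (Int.mul X1 Y0, Int.mul X1 Y1, Int.mul X0 Y0)
  | 2 => (Int.mul X1 Y1, Int.mul X1 Y0, Int.mul X0 Y0)
  | 3 => (Int.mul (Int.neg X1) Y0, Int.mul X1 Y1, Int.mul X0 Y0)
  | _ => (Int.mul X1 Y1, Int.mul (Int.neg X1) Y0, Int.mul X0 Y0)

def nfrm3 (kind : ℕ) (X1 X0 Y1 Y0 : ℕ) : ℕ × ℕ × ℕ :=
  match kind with
  | 0 => (X1 * Y0, X0 * Y1, X0 * Y0)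
  | 1 => (X1 * Y0, X1 * Y1, X0 * Y0)
  | 2 => (X1 * Y1, X1 * Y0, X0 * Y0)
  | 3 => (X1 * Y0, X1 * Y1, X0 * Y0)
  | _ => (X1 * Y1, X1 * Y0, X0 * Y0)

/-- test of a box: `x`-part `(a,b,e,g)`, `y`-part `(c,d,e')` -/
def bx3 (D : Dat) (kind : ℕ) (l : ℕ) (a b e g c d e' : ℤ) : Bool :=
  let W := 2 * D.H
  let w : ℤ := Int.ofNat W
  let z : ℤ := Int.ofNat (W ^ (D.N + 1))
  let z' : ℤ := Int.ofNat (W ^ (D.N' + 1))
  let Y1 := Int.add c (Int.mul d w)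
  let Y0 := Int.add e' (Int.mul e' w)
  let F := frm3 kind (Int.add a (Int.mul b z)) (Int.add e (Int.mul g z)) Y1 Y0
  let F' := frm3 kind (Int.add a (Int.mul b z')) (Int.add e (Int.mul g z')) Y1 Y0
  let n := nfrm3 kind (a.natAbs + b.natAbs) (e.natAbs + g.natAbs) (c.natAbs + d.natAbs)
    (e'.natAbs + e'.natAbs)
  ctst D.N W D.H l (hpol F.1 F.2.1 F.2.2 D.P11) (hpol F.1 F.2.1 F.2.2 D.P12)
    (hpol F.1 F.2.1 F.2.2 D.P22) &&
  nctst D.H l (npol n.1 n.2.1 n.2.2 D.P11) (npol n.1 n.2.1 n.2.2 D.P12)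
    (npol n.1 n.2.1 n.2.2 D.P22) &&
  tst D.N' W D.H (hpol F'.1 F'.2.1 F'.2.2 D.Q) &&
  Nat.blt (npol n.1 n.2.1 n.2.2 D.Q) D.H

lemma cop_of {u v w l : ℝ} (hl : 0 < l) (hu : 0 ≤ u) (hw : 0 ≤ w) (h1 : 0 ≤ 16 * u + l * v)
    (h3 : 0 ≤ l * w + 16 * v) {s c : ℝ} (hs : 0 ≤ s) (hc : 0 ≤ c) :
    0 ≤ u * s ^ 2 + 2 * v * (s * c) + w * c ^ 2 := by
  rcases le_total 0 v with hv | hv
  · positivity
  · have a1 : l * (-v) ≤ 16 * u := by linarith
    have a2 : 16 * (-v) ≤ l * w := by linarith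
    have key : (16 * l) * (u * s ^ 2 + 2 * v * (s * c) + w * c ^ 2) =
        l * s ^ 2 * (16 * u - l * (-v)) + 16 * c ^ 2 * (l * w - 16 * (-v))
        + (-v) * (l * s - 16 * c) ^ 2 := by ring
    have : 0 ≤ (16 * l) * (u * s ^ 2 + 2 * v * (s * c) + w * c ^ 2) := by
      rw [key]
      have b1 : 0 ≤ 16 * u - l * (-v) := by linarith
      have b2 : 0 ≤ l * w - 16 * (-v) := by linarith
      have b3 : 0 ≤ -v := by linarith
      positivity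
    exact nonneg_of_mul_nonneg_right this (by positivity)

/-- abstract soundness: the three forms represent `Cφ x`, `Cφ y`, `Cφ` -/
lemma bx3_sound {D : Dat} (hs : D.shape = true) {kind l : ℕ} {a b e g c d e' : ℤ}
    (hb : bx3 D kind l a b e g c d e' = true) {T0 T1 V0 V1 : ℝ} (hT0 : 0 ≤ T0) (hT1 : 0 ≤ T1)
    (hV0 : 0 ≤ V0) (hV1 : 0 ≤ V1) {x y Cφ : ℝ} (hCpos : 0 < Cφ)
    (hF : ∀ Z W : ℤ,
      Mk Z W T0 T1 V0 V1 (nfrm3 kind (a.natAbs + b.natAbs) (e.natAbs + g.natAbs)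
        (c.natAbs + d.natAbs) (e'.natAbs + e'.natAbs)).1
        (frm3 kind (a + b * Z) (e + g * Z) (c + d * W) (e' + e' * W)).1 (Cφ * x) ∧
      Mk Z W T0 T1 V0 V1 (nfrm3 kind (a.natAbs + b.natAbs) (e.natAbs + g.natAbs)
        (c.natAbs + d.natAbs) (e'.natAbs + e'.natAbs)).2.1
        (frm3 kind (a + b * Z) (e + g * Z) (c + d * W) (e' + e' * W)).2.1 (Cφ * y) ∧
      Mk Z W T0 T1 V0 V1 (nfrm3 kind (a.natAbs + b.natAbs) (e.natAbs + g.natAbs)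
        (c.natAbs + d.natAbs) (e'.natAbs + e'.natAbs)).2.2
        (frm3 kind (a + b * Z) (e + g * Z) (c + d * W) (e' + e' * W)).2.2 Cφ) :
    Cop D x y := by
  simp only [bx3, Bool.and_eq_true] at hb
  obtain ⟨⟨⟨h4, hn⟩, hq⟩, hqn⟩ := hb
  simp only [ctst, Bool.and_eq_true] at h4
  obtain ⟨⟨t11, t22⟩, t3⟩ := h4
  simp only [nctst, Bool.and_eq_true] at hn
  obtain ⟨n1, n2⟩ := hn
  have n1 := Eq.mp Nat.blt_eq n1
  have n2 := Eq.mp Nat.blt_eq n2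
  have hqn := Eq.mp Nat.blt_eq hqn
  simp only [Dat.shape, Bool.and_eq_true] at hs
  obtain ⟨⟨⟨s11, s12⟩, s22⟩, sQ⟩ := hs
  have hW : 2 * D.H = 2 * D.H := rfl
  have cW : (Int.ofNat (2 * D.H) : ℤ) = ((2 * D.H : ℕ) : ℤ) := rfl
  have cZ : (Int.ofNat ((2 * D.H) ^ (D.N + 1)) : ℤ) = ((2 * D.H : ℕ) : ℤ) ^ (D.N + 1) := by
    show (((2 * D.H) ^ (D.N + 1) : ℕ) : ℤ) = _
    push_cast; ring
  have cZ' : (Int.ofNat ((2 * D.H) ^ (D.N' + 1)) : ℤ) = ((2 * D.H : ℕ) : ℤ) ^ (D.N' + 1) := by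
    show (((2 * D.H) ^ (D.N' + 1) : ℕ) : ℤ) = _
    push_cast; ring
  obtain ⟨fA, fB, fC⟩ := hF (((2 * D.H : ℕ) : ℤ) ^ (D.N + 1)) ((2 * D.H : ℕ) : ℤ)
  obtain ⟨gA, gB, gC⟩ := hF (((2 * D.H : ℕ) : ℤ) ^ (D.N' + 1)) ((2 * D.H : ℕ) : ℤ)
  rw [cW, cZ] at t11 t22 t3
  rw [cW, cZ'] at hq
  set nA := (nfrm3 kind (a.natAbs + b.natAbs) (e.natAbs + g.natAbs) (c.natAbs + d.natAbs)
    (e'.natAbs + e'.natAbs)).1
  set nB := (nfrm3 kind (a.natAbs + b.natAbs) (e.natAbs + g.natAbs) (c.natAbs + d.natAbs)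
    (e'.natAbs + e'.natAbs)).2.1
  set nC := (nfrm3 kind (a.natAbs + b.natAbs) (e.natAbs + g.natAbs) (c.natAbs + d.natAbs)
    (e'.natAbs + e'.natAbs)).2.2
  have m11 : npol nA nB nC D.P11 < D.H := by
    have h1 : npol nA nB nC D.P11 ≤ 16 * npol nA nB nC D.P11 + (l + 1) * npol nA nB nC D.P12 := by
      nlinarith [Nat.zero_le ((l + 1) * npol nA nB nC D.P12)]
    omega
  have m12 : npol nA nB nC D.P12 < D.H := by
    have h1 : npol nA nB nC D.P12 ≤ (l + 1) * npol nA nB nC D.P22 + 16 * npol nA nB nC D.P12 := by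
      nlinarith [Nat.zero_le ((l + 1) * npol nA nB nC D.P22)]
    omega
  have m22 : npol nA nB nC D.P22 < D.H := by
    have h1 : npol nA nB nC D.P22 ≤ (l + 1) * npol nA nB nC D.P22 + 16 * npol nA nB nC D.P12 := by
      nlinarith [Nat.zero_le (l * npol nA nB nC D.P22)]
    omega
  have r11 := box_pos hW s11 hT0 hT1 hV0 hV1 hCpos fA fB fC m11 t11
  have r22 := box_pos hW s22 hT0 hT1 hV0 hV1 hCpos fA fB fC m22 t22
  have r5 := box_pos hW sQ hT0 hT1 hV0 hV1 hCpos gA gB gC hqn hq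
  refine ⟨?_, r5⟩
  intro s c hs0 hc0
  rcases Nat.eq_zero_or_pos l with hl0 | hlpos
  · subst hl0
    have r12 := box_pos hW s12 hT0 hT1 hV0 hV1 hCpos fA fB fC m12 t3
    positivity
  · obtain ⟨m, rfl⟩ : ∃ m, l = m + 1 := ⟨l - 1, by omega⟩
    simp only [Bool.and_eq_true] at t3
    obtain ⟨t1, t2⟩ := t3
    have k1 : 16 * npol nA nB nC D.P11 + (m + 1) * npol nA nB nC D.P12 < D.H := by
      nlinarith [Nat.zero_le (npol nA nB nC D.P12)]
    have k2 : (m + 1) * npol nA nB nC D.P22 + 16 * npol nA nB nC D.P12 < D.H := by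
      nlinarith [Nat.zero_le (npol nA nB nC D.P22)]
    have ea : (((m + 1 : ℕ) : ℤ)).natAbs = m + 1 := Int.natAbs_natCast _
    have r1 := box_pos2 hW s11 s12 16 ((m + 1 : ℕ) : ℤ) hT0 hT1 hV0 hV1 hCpos fA fB fC
      (by rw [ea]; exact k1) t1
    have r3 := box_pos2 hW s22 s12 ((m + 1 : ℕ) : ℤ) 16 hT0 hT1 hV0 hV1 hCpos fA fB fC
      (by rw [ea]; exact k2) t2
    have hl' : (0 : ℝ) < ((m + 1 : ℕ) : ℝ) := by positivity
    push_cast at r1 r3 hl'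
    exact cop_of hl' r11 r22 r1 r3 hs0 hc0

/-- relation between the point and the values of the forms -/
def Rel (kind : ℕ) (X1 X0 Y1 Y0 x y : ℝ) : Prop :=
  match kind with
  | 0 => X0 * x = X1 ∧ Y0 * y = Y1
  | 1 => X0 * x = X1 ∧ X0 * Y0 * y = X1 * Y1
  | 2 => X0 * Y0 * x = X1 * Y1 ∧ X0 * y = X1
  | 3 => X0 * x = -X1 ∧ X0 * Y0 * y = X1 * Y1
  | _ => X0 * Y0 * x = X1 * Y1 ∧ X0 * y = -X1

lemma cop_box {D : Dat} (hs : D.shape = true) {kind l : ℕ} {a b e g c d e' : ℤ}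
    (hb : bx3 D kind l a b e g c d e' = true) {T0 T1 V0 V1 : ℝ} (hT0 : 0 ≤ T0) (hT1 : 0 ≤ T1)
    (hV0 : 0 ≤ V0) (hV1 : 0 ≤ V1) {x y X1 X0 Y1 Y0 : ℝ}
    (hX1 : X1 = a * T0 + b * T1) (hX0 : X0 = e * T0 + g * T1) (hY1 : Y1 = c * V0 + d * V1)
    (hY0 : Y0 = e' * V0 + e' * V1) (pX : 0 < X0) (pY : 0 < Y0)
    (hR : Rel kind X1 X0 Y1 Y0 x y) : Cop D x y := by
  refine bx3_sound hs hb hT0 hT1 hV0 hV1 (Cφ := X0 * Y0) (by positivity) (fun Z W => ?_)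
  obtain ⟨p1, p2, p3, p4, p5⟩ := mk_frm (Z := Z) (W := W) (T0 := T0) (T1 := T1)
    (V0 := V0) (V1 := V1) a b e g c d e' hX1 hX0 hY1 hY0
  match kind, hR with
  | 0, hR =>
    obtain ⟨e1, e2⟩ := hR
    refine ⟨?_, ?_, p3⟩
    · rw [show X0 * Y0 * x = X1 * Y0 by linear_combination Y0 * e1]; exact p1
    · rw [show X0 * Y0 * y = X0 * Y1 by linear_combination X0 * e2]; exact p2
  | 1, hR =>
    obtain ⟨e1, e2⟩ := hR
    refine ⟨?_, ?_, p3⟩
    · rw [show X0 * Y0 * x = X1 * Y0 by linear_combination Y0 * e1]; exact p1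
    · rw [e2]; exact p4
  | 2, hR =>
    obtain ⟨e1, e2⟩ := hR
    refine ⟨?_, ?_, p3⟩
    · rw [e1]; exact p4
    · rw [show X0 * Y0 * y = X1 * Y0 by linear_combination Y0 * e2]; exact p1
  | 3, hR =>
    obtain ⟨e1, e2⟩ := hR
    refine ⟨?_, ?_, p3⟩
    · rw [show X0 * Y0 * x = -X1 * Y0 by linear_combination Y0 * e1]; exact p5
    · rw [e2]; exact p4
  | (n + 4), hR =>
    obtain ⟨e1, e2⟩ := hR
    refine ⟨?_, ?_, p3⟩
    · rw [e1]; exact p4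
    · rw [show X0 * Y0 * y = -X1 * Y0 by linear_combination Y0 * e2]; exact p5

/-! ### inner and outer boxes -/

/-- the point of kind `kind` with parameters `(p, v)`; `o`: `p` is replaced by `1/p` -/
def At3 (o : Bool) (kind : ℕ) (p v x y : ℝ) : Prop :=
  match o with
  | false => Rel kind p 1 v 1 x y
  | true => 0 < p ∧ Rel kind 1 p v 1 x y

lemma Rel.scale {kind : ℕ} {X1 X0 Y1 Y0 x y l m : ℝ} (h : Rel kind X1 X0 Y1 Y0 x y) :
    Rel kind (l * X1) (l * X0) (m * Y1) (m * Y0) x y := by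
  match kind, h with
  | 0, h => exact ⟨by linear_combination l * h.1, by linear_combination m * h.2⟩
  | 1, h => exact ⟨by linear_combination l * h.1, by linear_combination l * m * h.2⟩
  | 2, h => exact ⟨by linear_combination l * m * h.1, by linear_combination l * h.2⟩
  | 3, h => exact ⟨by linear_combination l * h.1, by linear_combination l * m * h.2⟩
  | (n + 4), h => exact ⟨by linear_combination l * m * h.1, by linear_combination l * h.2⟩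

def bxo (D : Dat) (o : Bool) (kind : ℕ) (e : ℤ) (l : ℕ) (a b c d : ℤ) : Bool :=
  match o with
  | false => bx3 D kind l a b e e c d e
  | true => bx3 D kind l e e a b c d e

lemma cop_at {D : Dat} (hs : D.shape = true) {o : Bool} {kind l : ℕ} {a b c d e : ℤ}
    (he : 0 < e) (hab : a < b) (hcd : c < d) (hb : bxo D o kind e l a b c d = true)
    {p v x y : ℝ} (hA : At3 o kind p v x y) (h1 : (a : ℝ) ≤ e * p)
    (h2 : e * p ≤ (b : ℝ)) (h3 : (c : ℝ) ≤ e * v) (h4 : e * v ≤ (d : ℝ)) : Cop D x y := by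
  have he' : (0 : ℝ) < e := by exact_mod_cast he
  have hab' : (0 : ℝ) < b - a := by have : (a : ℝ) < b := by exact_mod_cast hab
                                    linarith
  have hcd' : (0 : ℝ) < d - c := by have : (c : ℝ) < d := by exact_mod_cast hcd
                                    linarith
  match o, hA, hb with
  | false, hA, hb =>
    refine cop_box hs hb (T0 := b - e * p) (T1 := e * p - a) (V0 := d - e * v)
      (V1 := e * v - c) (by linarith) (by linarith) (by linarith) (by linarith)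
      (X1 := (b - a) * e * p) (X0 := (b - a) * e * 1) (Y1 := (d - c) * e * v)
      (Y0 := (d - c) * e * 1) (by ring) (by ring) (by ring) (by ring) (by positivity)
      (by positivity) hA.scale
  | true, hA, hb =>
    obtain ⟨hp, hA⟩ := hA
    refine cop_box hs hb (T0 := b - e * p) (T1 := e * p - a) (V0 := d - e * v)
      (V1 := e * v - c) (by linarith) (by linarith) (by linarith) (by linarith)
      (X1 := (b - a) * e * 1) (X0 := (b - a) * e * p) (Y1 := (d - c) * e * v)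
      (Y0 := (d - c) * e * 1) (by ring) (by ring) (by ring) (by ring) (by positivity)
      (by positivity) hA.scale

def chk3 (D : Dat) (o : Bool) (kind : ℕ) (e : ℤ) : Tree → ℤ → ℤ → ℤ → ℤ → Bool
  | .leaf l, a, b, c, d => ilt a b && (ilt c d && bxo D o kind e l a b c d)
  | .sx m t u, a, b, c, d => chk3 D o kind e t a m c d && chk3 D o kind e u m b c d
  | .sy m t u, a, b, c, d => chk3 D o kind e t a b c m && chk3 D o kind e u a b m d

lemma chk3_sound {D : Dat} (hs : D.shape = true) {o : Bool} {kind : ℕ} {e : ℤ} (he : 0 < e)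
    (t : Tree) (a b c d : ℤ) (h : chk3 D o kind e t a b c d = true) {p v x y : ℝ}
    (hA : At3 o kind p v x y)
    (h1 : (a : ℝ) ≤ e * p) (h2 : e * p ≤ (b : ℝ)) (h3 : (c : ℝ) ≤ e * v)
    (h4 : e * v ≤ (d : ℝ)) : Cop D x y := by
  induction t generalizing a b c d with
  | leaf l =>
    simp only [chk3, Bool.and_eq_true, ilt, decide_eq_true_eq] at h
    exact cop_at hs he h.1 h.2.1 h.2.2 hA h1 h2 h3 h4
  | sx m t u iht ihu =>
    simp only [chk3, Bool.and_eq_true] at h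
    rcases le_total (e * p) (m : ℝ) with h5 | h5
    · exact iht a m c d h.1 h1 h5 h3 h4
    · exact ihu m b c d h.2 h5 h2 h3 h4
  | sy m t u iht ihu =>
    simp only [chk3, Bool.and_eq_true] at h
    rcases le_total (e * v) (m : ℝ) with h5 | h5
    · exact iht a b c m h.1 h1 h2 h3 h5
    · exact ihu a b m d h.2 h1 h2 h5 h4

/-- trees with a common denominator: four cones at the origin, four at infinity -/
structure Cov3 where
  e : ℤ
  i1 : Tree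
  i2 : Tree
  i3 : Tree
  i4 : Tree
  o1 : Tree
  o2 : Tree
  o3 : Tree
  o4 : Tree

def Cov3.ok (T : Cov3) (D : Dat) : Bool :=
  D.shape && ilt 0 T.e &&
  chk3 D false 1 T.e T.i1 0 T.e (Int.neg T.e) T.e &&
  chk3 D false 2 T.e T.i2 0 T.e (Int.neg T.e) T.e &&
  chk3 D false 3 T.e T.i3 0 T.e (Int.neg T.e) T.e &&
  chk3 D false 4 T.e T.i4 0 T.e (Int.neg T.e) T.e &&
  chk3 D true 1 T.e T.o1 0 T.e (Int.neg T.e) T.e &&
  chk3 D true 2 T.e T.o2 0 T.e (Int.neg T.e) T.e &&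
  chk3 D true 3 T.e T.o3 0 T.e (Int.neg T.e) T.e &&
  chk3 D true 4 T.e T.o4 0 T.e (Int.neg T.e) T.e

/-- a cone `|v| ≤ w`, `w ≥ 0` is covered by an inner and an outer tree -/
lemma cone3 {D : Dat} (hs : D.shape = true) {kind : ℕ} {e : ℤ} (he : 0 < e) (t u : Tree)
    (ht : chk3 D false kind e t 0 e (Int.neg e) e = true)
    (hu : chk3 D true kind e u 0 e (Int.neg e) e = true) {w v x y : ℝ} (hw : 0 ≤ w)
    (hv : |v| ≤ w) (hi : ∀ r : ℝ, v = w * r → Rel kind w 1 r 1 x y) : Cop D x y := by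
  have he' : (0 : ℝ) < e := by exact_mod_cast he
  have hne : ((Int.neg e : ℤ) : ℝ) = -e := by
    show (((-e : ℤ)) : ℝ) = _
    push_cast; ring
  obtain ⟨r, hr, hr1⟩ : ∃ r : ℝ, v = w * r ∧ |r| ≤ 1 := by
    rcases eq_or_lt_of_le hw with h0 | h0
    · refine ⟨0, ?_, by simp⟩
      rw [← h0] at hv
      have := abs_nonneg v
      have h2 : |v| = 0 := le_antisymm hv this
      rw [abs_eq_zero] at h2
      rw [h2]; ring
    · refine ⟨v / w, by field_simp, ?_⟩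
      rw [abs_div, abs_of_pos h0, div_le_one h0]
      exact hv
  obtain ⟨r1, r2⟩ := abs_le.1 hr1
  have h3 : (((Int.neg e : ℤ)) : ℝ) ≤ e * r := by rw [hne]; nlinarith
  have h4 : e * r ≤ (e : ℝ) := by nlinarith
  rcases le_total w 1 with h1 | h1
  · refine chk3_sound hs he t _ _ _ _ ht (p := w) (v := r) (hi r hr) ?_ ?_ h3 h4
    · push_cast; positivity
    · nlinarith
  · have h0 : 0 < w := by linarith
    have hR := (hi r hr).scale (l := 1 / w) (m := 1)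
    have e1 : 1 / w * w = 1 := by field_simp
    rw [e1, mul_one, one_mul, mul_one] at hR
    have hb : 1 / w ≤ 1 := by rw [div_le_one h0]; exact h1
    refine chk3_sound hs he u _ _ _ _ hu (p := 1 / w) (v := r) ⟨by positivity, hR⟩ ?_ ?_ h3 h4
    · push_cast; positivity
    · nlinarith

lemma Cov3.sound {T : Cov3} {D : Dat} (h : T.ok D = true) (x y : ℝ) : Cop D x y := by
  simp only [Cov3.ok, Bool.and_eq_true] at h
  obtain ⟨⟨⟨⟨⟨⟨⟨⟨⟨hs, he⟩, i1⟩, i2⟩, i3⟩, i4⟩, o1⟩, o2⟩, o3⟩, o4⟩ := h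
  simp only [ilt, decide_eq_true_eq] at he
  rcases le_total |x| |y| with hxy | hxy
  · rcases abs_cases y with ⟨hy, hy0⟩ | ⟨hy, hy0⟩
    · rw [hy] at hxy
      refine cone3 hs he T.i2 T.o2 i2 o2 (w := y) (v := x) hy0 hxy (fun r hr => ⟨?_, ?_⟩)
      · rw [hr]; ring
      · ring
    · rw [hy] at hxy
      refine cone3 hs he T.i4 T.o4 i4 o4 (w := -y) (v := x) (by linarith) hxy
        (fun r hr => ⟨?_, ?_⟩)
      · rw [hr]; ring
      · ring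
  · rcases abs_cases x with ⟨hx, hx0⟩ | ⟨hx, hx0⟩
    · rw [hx] at hxy
      refine cone3 hs he T.i1 T.o1 i1 o1 (w := x) (v := y) hx0 hxy (fun r hr => ⟨?_, ?_⟩)
      · ring
      · rw [hr]; ring
    · rw [hx] at hxy
      refine cone3 hs he T.i3 T.o3 i3 o3 (w := -x) (v := y) (by linarith) hxy
        (fun r hr => ⟨?_, ?_⟩)
      · ring
      · rw [hr]; ring

/-- the rectangle `[a/e, b/e] × [c/e, d/e]` -/
lemma rect3 {D : Dat} (hs : D.shape = true) {e : ℤ} (he : 0 < e) (t : Tree) (a b c d : ℤ)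
    (h : chk3 D false 0 e t a b c d = true) {x y : ℝ} (h1 : (a : ℝ) ≤ e * x)
    (h2 : e * x ≤ (b : ℝ)) (h3 : (c : ℝ) ≤ e * y) (h4 : e * y ≤ (d : ℝ)) : Cop D x y :=
  chk3_sound hs he t a b c d h (p := x) (v := y) ⟨by ring, by ring⟩ h1 h2 h3 h4

end Pool.EK71

end
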