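import Pool.Agent.Helper96.ESX.B01
import Pool.Agent.Helper96.ESX.B03

set_option autoImplicit false

/-! Copies of landed files, bundled to shorten the build: Helper71.Sos.Rep, Helper71.Sos.Ex, Helper22.Marshall.Coeff, Helper22.Marshall.CoeffMul, Helper22.Marshall.ClassIneq, Helper22.Marshall.DoubleSeries, Helper22.Marshall.LogPhi, Helper22.Half.Binom, Helper22.Half.Faber, Helper22.Half.Norms, Helper22.Half.MeanA, Helper22.Half.GrowthA, Helper22.Half.PfDef, Helper22.Half.CloseA, Helper24.Br.Defs, Helper39.MH.Defs, Helper39.MH.SqrtArea, Helper84.EK.Koebe, Helper84.EK.Centre, Helper69.EK3.Univ, Helper69.EK3.Bieb, Helper69.EK3.Line, Helper16.EK.Kap, Helper69.EK3.KOne3, Helper46.EK.E1d, Helper79.EK3.Bloch, Helper79.EK3.Phi, Helper71.Sos.Blk, Helper69.EK3.Ang, Helper79.EK3.Lin, Helper69.EK3.Plug -/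

section


/-!
Polynomials in seven variables `l, S, C, P, R, u, v`, homogeneous for the weight
`S, C : 1`, `P, R : 2`, represented by their value at one point with large integer
coordinates (Kronecker substitution).
-/

set_option autoImplicit false

namespace Pool.Sos71

/-- exponents of a monomial -/
structure Mon where
  a : ℕ
  b : ℕ
  c : ℕ
  d : ℕ
  e : ℕ
  f : ℕ
  g : ℕ

/-- a point -/
structure Pnt where
  a : ℝ
  b : ℝ
  c : ℝ
  d : ℝ
  e : ℝ
  f : ℝ
  g : ℝ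

def Mon.add (m n : Mon) : Mon :=
  ⟨m.a + n.a, m.b + n.b, m.c + n.c, m.d + n.d, m.e + n.e, m.f + n.f, m.g + n.g⟩

noncomputable def Mon.val (x : Pnt) (m : Mon) : ℝ :=
  x.a ^ m.a * x.b ^ m.b * x.c ^ m.c * x.d ^ m.d * x.e ^ m.e * x.f ^ m.f * x.g ^ m.g

lemma Mon.val_add (x : Pnt) (m n : Mon) : (m.add n).val x = m.val x * n.val x := by
  simp only [Mon.val, Mon.add, pow_add]; ring

/-- bounds of the exponents, and the weight -/
structure Bd where
  a : ℕ
  b : ℕ
  d : ℕ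
  e : ℕ
  f : ℕ
  g : ℕ
  w : ℕ

def Mon.In (m : Mon) (B : Bd) : Prop :=
  m.a ≤ B.a ∧ m.b ≤ B.b ∧ m.d ≤ B.d ∧ m.e ≤ B.e ∧ m.f ≤ B.f ∧ m.g ≤ B.g ∧
    m.b + m.c + 2 * m.d + 2 * m.e = B.w

def Bd.add (B D : Bd) : Bd :=
  ⟨B.a + D.a, B.b + D.b, B.d + D.d, B.e + D.e, B.f + D.f, B.g + D.g, B.w + D.w⟩

/-- `B` is contained in `D` -/
def Bd.le (B D : Bd) : Prop :=
  B.a ≤ D.a ∧ B.b ≤ D.b ∧ B.d ≤ D.d ∧ B.e ≤ D.e ∧ B.f ≤ D.f ∧ B.g ≤ D.g ∧ B.w = D.w

def Bd.leb (B D : Bd) : Bool :=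
  Nat.ble B.a D.a && Nat.ble B.b D.b && Nat.ble B.d D.d && Nat.ble B.e D.e &&
    Nat.ble B.f D.f && Nat.ble B.g D.g && Nat.beq B.w D.w

lemma Bd.leb_sound {B D : Bd} (h : B.leb D = true) : B.le D := by
  simp only [Bd.leb, Bool.and_eq_true, Nat.ble_eq] at h
  obtain ⟨⟨⟨⟨⟨⟨h1, h2⟩, h3⟩, h4⟩, h5⟩, h6⟩, h7⟩ := h
  exact ⟨h1, h2, h3, h4, h5, h6, Nat.eq_of_beq_eq_true h7⟩

lemma Mon.In.add {m n : Mon} {B D : Bd} (h : m.In B) (h' : n.In D) : (m.add n).In (B.add D) := by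
  obtain ⟨h1, h2, h3, h4, h5, h6, h7⟩ := h
  obtain ⟨g1, g2, g3, g4, g5, g6, g7⟩ := h'
  refine ⟨Nat.add_le_add h1 g1, Nat.add_le_add h2 g2, Nat.add_le_add h3 g3,
    Nat.add_le_add h4 g4, Nat.add_le_add h5 g5, Nat.add_le_add h6 g6, ?_⟩
  simp only [Mon.add, Bd.add]; omega

lemma Mon.In.le {m : Mon} {B D : Bd} (h : m.In B) (h' : B.le D) : m.In D := by
  obtain ⟨h1, h2, h3, h4, h5, h6, h7⟩ := h
  obtain ⟨g1, g2, g3, g4, g5, g6, g7⟩ := h'
  exact ⟨h1.trans g1, h2.trans g2, h3.trans g3, h4.trans g4, h5.trans g5, h6.trans g6,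
    h7.trans g7⟩

/-- the radices: `code = f + rg g + ra a + rb b + rd d + re e` -/
structure Rad where
  rg : ℕ
  ra : ℕ
  rb : ℕ
  rd : ℕ
  re : ℕ

def Mon.code (r : Rad) (m : Mon) : ℕ :=
  m.f + r.rg * m.g + r.ra * m.a + r.rb * m.b + r.rd * m.d + r.re * m.e

lemma Mon.code_add (r : Rad) (m n : Mon) : (m.add n).code r = m.code r + n.code r := by
  simp only [Mon.code, Mon.add]; ring

/-- the radices are large enough for the box `B` -/
def Rad.ok (r : Rad) (B : Bd) : Prop :=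
  B.f < r.rg ∧ B.f + r.rg * B.g < r.ra ∧ B.f + r.rg * B.g + r.ra * B.a < r.rb ∧
    B.f + r.rg * B.g + r.ra * B.a + r.rb * B.b < r.rd ∧
    B.f + r.rg * B.g + r.ra * B.a + r.rb * B.b + r.rd * B.d < r.re

def Rad.okb (r : Rad) (B : Bd) : Bool :=
  Nat.blt B.f r.rg && Nat.blt (B.f + r.rg * B.g) r.ra &&
    Nat.blt (B.f + r.rg * B.g + r.ra * B.a) r.rb &&
    Nat.blt (B.f + r.rg * B.g + r.ra * B.a + r.rb * B.b) r.rd &&
    Nat.blt (B.f + r.rg * B.g + r.ra * B.a + r.rb * B.b + r.rd * B.d) r.re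

lemma Rad.okb_sound {r : Rad} {B : Bd} (h : r.okb B = true) : r.ok B := by
  simp only [Rad.okb, Bool.and_eq_true, Nat.blt_eq] at h
  obtain ⟨⟨⟨⟨h1, h2⟩, h3⟩, h4⟩, h5⟩ := h
  exact ⟨h1, h2, h3, h4, h5⟩

/-- uniqueness of the leading digit -/
lemma dig_unique {r x y n m : ℕ} (hx : x < r) (hy : y < r) (h : x + r * n = y + r * m) :
    n = m ∧ x = y := by
  have h1 : (x + r * n) / r = (y + r * m) / r := by rw [h]
  have hr : 0 < r := by omega
  rw [Nat.add_mul_div_left _ _ hr, Nat.add_mul_div_left _ _ hr, Nat.div_eq_of_lt hx,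
    Nat.div_eq_of_lt hy] at h1
  have h2 : n = m := by omega
  subst h2
  exact ⟨rfl, by omega⟩

lemma code_inj {r : Rad} {B : Bd} (hr : r.ok B) {m n : Mon} (hm : m.In B) (hn : n.In B)
    (h : m.code r = n.code r) : m = n := by
  obtain ⟨r1, r2, r3, r4, r5⟩ := hr
  obtain ⟨a1, a2, a3, a4, a5, a6, a7⟩ := hm
  obtain ⟨b1, b2, b3, b4, b5, b6, b7⟩ := hn
  simp only [Mon.code] at h
  have g1 : r.rg * m.g ≤ r.rg * B.g := Nat.mul_le_mul_left _ a6
  have g2 : r.rg * n.g ≤ r.rg * B.g := Nat.mul_le_mul_left _ b6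
  have g3 : r.ra * m.a ≤ r.ra * B.a := Nat.mul_le_mul_left _ a1
  have g4 : r.ra * n.a ≤ r.ra * B.a := Nat.mul_le_mul_left _ b1
  have g5 : r.rb * m.b ≤ r.rb * B.b := Nat.mul_le_mul_left _ a2
  have g6 : r.rb * n.b ≤ r.rb * B.b := Nat.mul_le_mul_left _ b2
  have g7 : r.rd * m.d ≤ r.rd * B.d := Nat.mul_le_mul_left _ a3
  have g8 : r.rd * n.d ≤ r.rd * B.d := Nat.mul_le_mul_left _ b3
  obtain ⟨e5, h5⟩ := dig_unique (r := r.re) (by omega) (by omega) h
  obtain ⟨e4, h4⟩ := dig_unique (r := r.rd) (by omega) (by omega) h5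
  obtain ⟨e3, h3⟩ := dig_unique (r := r.rb) (by omega) (by omega) h4
  obtain ⟨e2, h2⟩ := dig_unique (r := r.ra) (by omega) (by omega) h3
  obtain ⟨e1, h1⟩ := dig_unique (r := r.rg) (by omega) (by omega) h2
  have e6 : m.c = n.c := by omega
  cases m; cases n
  simp_all

/-! ### lists of terms -/

abbrev Pol := List (ℤ × Mon)

def Pol.ev (w : ℤ) (r : Rad) (P : Pol) : ℤ := (P.map fun t => t.1 * w ^ t.2.code r).sum
noncomputable def Pol.re (x : Pnt) (P : Pol) : ℝ := (P.map fun t => (t.1 : ℝ) * t.2.val x).sum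
def Pol.nm (P : Pol) : ℕ := (P.map fun t => t.1.natAbs).sum

def Pol.mul (P Q : Pol) : Pol := P.flatMap fun t => Q.map fun s => (t.1 * s.1, t.2.add s.2)

lemma sum_smul {R α : Type*} [CommSemiring R] (c : R) (f g : α → R) (Q : List α)
    (h : ∀ s, f s = c * g s) : (Q.map f).sum = c * (Q.map g).sum := by
  induction Q with
  | nil => simp
  | cons s Q ih => rw [List.map_cons, List.sum_cons, List.map_cons, List.sum_cons, ih, h]; ring

lemma Pol.ev_mul (w : ℤ) (r : Rad) (P Q : Pol) :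
    (P.mul Q).ev w r = P.ev w r * Q.ev w r := by
  unfold Pol.ev Pol.mul
  induction P with
  | nil => simp
  | cons t P ih =>
    rw [List.flatMap_cons, List.map_append, List.sum_append, ih, List.map_cons, List.sum_cons,
      add_mul, List.map_map]
    congr 1
    refine sum_smul _ _ _ _ (fun s => ?_)
    simp only [Function.comp, Mon.code_add, pow_add]; ring

lemma Pol.re_mul (x : Pnt) (P Q : Pol) : (P.mul Q).re x = P.re x * Q.re x := by
  unfold Pol.re Pol.mul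
  induction P with
  | nil => simp
  | cons t P ih =>
    rw [List.flatMap_cons, List.map_append, List.sum_append, ih, List.map_cons, List.sum_cons,
      add_mul, List.map_map]
    congr 1
    refine sum_smul _ _ _ _ (fun s => ?_)
    simp only [Function.comp, Mon.val_add]; push_cast; ring

lemma Pol.nm_mul (P Q : Pol) : (P.mul Q).nm = P.nm * Q.nm := by
  unfold Pol.nm Pol.mul
  induction P with
  | nil => simp
  | cons t P ih =>
    rw [List.flatMap_cons, List.map_append, List.sum_append, ih, List.map_cons, List.sum_cons,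
      add_mul, List.map_map]
    congr 1
    refine sum_smul _ _ _ _ (fun s => ?_)
    simp only [Function.comp, Int.natAbs_mul]

/-- `v` and `φ` are the values of one polynomial in the box `N` with norm at most `c` -/
def Rep (w : ℤ) (r : Rad) (x : Pnt) (N : Bd) (c : ℕ) (v : ℤ) (φ : ℝ) : Prop :=
  ∃ P : Pol, (∀ t ∈ P, t.2.In N) ∧ P.nm ≤ c ∧ P.ev w r = v ∧ P.re x = φ

section Rep
variable {w : ℤ} {r : Rad} {x : Pnt}

lemma Rep.zero (N : Bd) (c : ℕ) : Rep w r x N c 0 0 :=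
  ⟨[], by simp, by simp [Pol.nm], by simp [Pol.ev], by simp [Pol.re]⟩

lemma Rep.mon (z : ℤ) {m : Mon} {N : Bd} (h : m.In N) :
    Rep w r x N z.natAbs (z * w ^ m.code r) (z * m.val x) :=
  ⟨[(z, m)], by simpa using h, by simp [Pol.nm], by simp [Pol.ev], by simp [Pol.re]⟩

lemma Rep.add {N : Bd} {c c' : ℕ} {v v' : ℤ} {φ φ' : ℝ} (h : Rep w r x N c v φ)
    (h' : Rep w r x N c' v' φ') : Rep w r x N (c + c') (v + v') (φ + φ') := by
  obtain ⟨P, h1, h2, rfl, rfl⟩ := h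
  obtain ⟨Q, g1, g2, rfl, rfl⟩ := h'
  refine ⟨P ++ Q, ?_, ?_, ?_, ?_⟩
  · intro t ht
    rcases List.mem_append.1 ht with h | h
    · exact h1 t h
    · exact g1 t h
  · unfold Pol.nm at *
    rw [List.map_append, List.sum_append]; exact Nat.add_le_add h2 g2
  · unfold Pol.ev; rw [List.map_append, List.sum_append]
  · unfold Pol.re; rw [List.map_append, List.sum_append]

lemma Rep.mul {N N' : Bd} {c c' : ℕ} {v v' : ℤ} {φ φ' : ℝ} (h : Rep w r x N c v φ)
    (h' : Rep w r x N' c' v' φ') : Rep w r x (N.add N') (c * c') (v * v') (φ * φ') := by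
  obtain ⟨P, h1, h2, rfl, rfl⟩ := h
  obtain ⟨Q, g1, g2, rfl, rfl⟩ := h'
  refine ⟨P.mul Q, ?_, ?_, Pol.ev_mul _ _ _ _, Pol.re_mul _ _ _⟩
  · intro t ht
    obtain ⟨s, hs, ht⟩ := List.mem_flatMap.1 ht
    obtain ⟨q, hq, rfl⟩ := List.mem_map.1 ht
    exact (h1 s hs).add (g1 q hq)
  · rw [Pol.nm_mul]; exact Nat.mul_le_mul h2 g2

lemma Rep.smul {N : Bd} {c : ℕ} {v : ℤ} {φ : ℝ} (z : ℤ) (h : Rep w r x N c v φ) :
    Rep w r x N (z.natAbs * c) (z * v) (z * φ) := by
  obtain ⟨P, h1, h2, rfl, rfl⟩ := h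
  refine ⟨P.map fun t => (z * t.1, t.2), ?_, ?_, ?_, ?_⟩
  · intro t ht
    obtain ⟨s, hs, rfl⟩ := List.mem_map.1 ht
    exact h1 s hs
  · unfold Pol.nm at *
    rw [List.map_map]
    have : (P.map ((fun t : ℤ × Mon => t.1.natAbs) ∘ fun t => (z * t.1, t.2))).sum
        = z.natAbs * (P.map (fun t => t.1.natAbs)).sum := by
      rw [← List.sum_map_mul_left]
      congr 1
      refine List.map_congr_left (fun t _ => ?_)
      simp [Int.natAbs_mul]
    rw [this]; exact Nat.mul_le_mul_left _ h2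
  · unfold Pol.ev
    rw [List.map_map, ← List.sum_map_mul_left]
    congr 1
    refine List.map_congr_left (fun t _ => ?_)
    simp only [Function.comp]; ring
  · unfold Pol.re
    rw [List.map_map, ← List.sum_map_mul_left]
    congr 1
    refine List.map_congr_left (fun t _ => ?_)
    simp only [Function.comp]; push_cast; ring

lemma Rep.mono {N : Bd} {c c' : ℕ} {v : ℤ} {φ : ℝ} (h : Rep w r x N c v φ) (hc : c ≤ c') :
    Rep w r x N c' v φ := by
  obtain ⟨P, h1, h2, h3, h4⟩ := h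
  exact ⟨P, h1, h2.trans hc, h3, h4⟩

lemma Rep.le {N N' : Bd} {c : ℕ} {v : ℤ} {φ : ℝ} (h : Rep w r x N c v φ) (hN : N.le N') :
    Rep w r x N' c v φ := by
  obtain ⟨P, h1, h2, h3, h4⟩ := h
  exact ⟨P, fun t ht => (h1 t ht).le hN, h2, h3, h4⟩

end Rep

/-! ### the value determines the polynomial -/

open Polynomial in
/-- a polynomial with small coefficients which vanishes at `w` is zero -/
lemma poly_zero {w : ℕ} (P : ℤ[X]) (h : ∀ k, (P.coeff k).natAbs < w) (h0 : P.eval (w : ℤ) = 0) :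
    P = 0 := by
  by_contra hP
  obtain ⟨Q, hQ, hdvd⟩ : ∃ Q : ℤ[X], P = X ^ P.natTrailingDegree * Q ∧ Q.coeff 0 ≠ 0 := by
    have h1 : X ^ P.natTrailingDegree ∣ P := by
      rw [X_pow_dvd_iff]
      intro d hd
      exact coeff_eq_zero_of_lt_natTrailingDegree hd
    obtain ⟨Q, hQ⟩ := h1
    refine ⟨Q, hQ, ?_⟩
    have h2 : P.coeff P.natTrailingDegree ≠ 0 := by
      rw [← trailingCoeff]
      exact trailingCoeff_nonzero_iff_nonzero.2 hP
    intro h3
    apply h2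
    have h4 : P.coeff P.natTrailingDegree = Q.coeff 0 := by
      have e := congrArg (fun R : ℤ[X] => R.coeff P.natTrailingDegree) hQ
      have := coeff_X_pow_mul Q P.natTrailingDegree 0
      rw [zero_add] at this
      exact e.trans this
    rw [h4, h3]
  have hw : (0 : ℤ) < w := by
    have := h 0
    omega
  have h5 : Q.eval (w : ℤ) = 0 := by
    rw [hQ, eval_mul, eval_pow, eval_X] at h0
    rcases mul_eq_zero.1 h0 with h6 | h6
    · exact absurd h6 (pow_ne_zero _ hw.ne')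
    · exact h6
  have h6 : (w : ℤ) ∣ Q.coeff 0 := by
    have h7 : (X - C (w : ℤ)) ∣ Q := dvd_iff_isRoot.2 h5
    obtain ⟨S, hS⟩ := h7
    refine ⟨-S.coeff 0, ?_⟩
    rw [hS, coeff_zero_eq_eval_zero, eval_mul, coeff_zero_eq_eval_zero]
    simp
  have h8 : P.coeff P.natTrailingDegree = Q.coeff 0 := by
    have e := congrArg (fun R : ℤ[X] => R.coeff P.natTrailingDegree) hQ
    have := coeff_X_pow_mul Q P.natTrailingDegree 0
    rw [zero_add] at this
    exact e.trans this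
  have h9 := h P.natTrailingDegree
  rw [h8] at h9
  have h10 := Int.natAbs_dvd_natAbs.2 h6
  rw [Int.natAbs_natCast] at h10
  have h11 : (Q.coeff 0).natAbs = 0 := Nat.eq_zero_of_dvd_of_lt h10 h9
  exact hdvd (Int.natAbs_eq_zero.1 h11)

open Polynomial in
/-- the univariate polynomial of a list of terms -/
noncomputable def uni (r : Rad) (P : Pol) : ℤ[X] := (P.map fun t => C t.1 * X ^ t.2.code r).sum

open Polynomial in
lemma uni_coeff (r : Rad) (P : Pol) (k : ℕ) : ((uni r P).coeff k).natAbs ≤ P.nm := by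
  unfold uni Pol.nm
  induction P with
  | nil => simp
  | cons t P ih =>
    rw [List.map_cons, List.sum_cons, coeff_add, List.map_cons, List.sum_cons]
    refine (Int.natAbs_add_le _ _).trans (Nat.add_le_add ?_ ih)
    rw [coeff_C_mul, coeff_X_pow]
    split_ifs <;> simp

open Polynomial in
lemma uni_eval (r : Rad) (P : Pol) (w : ℤ) : (uni r P).eval w = P.ev w r := by
  unfold uni Pol.ev
  induction P with
  | nil => simp
  | cons t P ih =>
    rw [List.map_cons, List.sum_cons, eval_add, ih, List.map_cons, List.sum_cons]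
    simp

open Polynomial in
/-- a linear functional of the coefficients -/
lemma uni_sum (r : Rad) (P : Pol) (F : ℕ → ℝ) :
    (P.map fun t => (t.1 : ℝ) * F (t.2.code r)).sum =
      (uni r P).sum (fun k a => (a : ℝ) * F k) := by
  unfold uni
  induction P with
  | nil => simp
  | cons t P ih =>
    rw [List.map_cons, List.sum_cons, ih, List.map_cons, List.sum_cons]
    rw [sum_add_index]
    · congr 1
      rw [C_mul_X_pow_eq_monomial, sum_monomial_index _ _ (by simp)]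
    · intro i; simp
    · intro i a b; push_cast; ring

/-- the value determines the polynomial -/
theorem Rep.eq_zero {w : ℕ} {r : Rad} {x : Pnt} {N : Bd} {c : ℕ} {φ : ℝ}
    (hr : r.ok N) (h : Rep (w : ℤ) r x N c 0 φ) (hc : c < w) : φ = 0 := by
  classical
  obtain ⟨P, h1, h2, h3, rfl⟩ := h
  have h4 : uni r P = 0 := by
    apply poly_zero (w := w)
    · intro k
      exact lt_of_le_of_lt ((uni_coeff r P k).trans h2) hc
    · rw [uni_eval]; exact h3
  set F : ℕ → ℝ := fun k => if h : ∃ m : Mon, m.In N ∧ m.code r = k then h.choose.val x else 0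
    with hF
  have h5 : ∀ t ∈ P, t.2.val x = F (t.2.code r) := by
    intro t ht
    have h6 : ∃ m : Mon, m.In N ∧ m.code r = t.2.code r := ⟨t.2, h1 t ht, rfl⟩
    have h7 := h6.choose_spec
    rw [hF]
    simp only
    rw [dif_pos h6, code_inj hr h7.1 (h1 t ht) h7.2]
  have h8 : P.re x = (P.map fun t => (t.1 : ℝ) * F (t.2.code r)).sum := by
    unfold Pol.re
    congr 1
    refine List.map_congr_left (fun t ht => ?_)
    rw [h5 t ht]
  rw [h8, uni_sum, h4, Polynomial.sum_zero_index]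

end Pool.Sos71

end

section


/-!
Expressions for polynomials in `l, S, C, P, R, u, v` (variables `va 0, ..., va 6`).
`bp P` is the polynomial in `(u, v)` given by a list of rows.
-/

set_option autoImplicit false

namespace Pool.Sos71

inductive Ex where
  | lit (z : ℤ) : Ex
  | va (i : ℕ) : Ex
  | add (p q : Ex) : Ex
  | mul (p q : Ex) : Ex
  | sc (z : ℤ) (p : Ex) : Ex
  | pow (p : Ex) (n : ℕ) : Ex
  | bp (P : List (List ℤ)) : Ex

/-- values of the variables `S, l, P, R, v, u` at the integer point (`C = 1`) -/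
structure IPt where
  a : ℤ
  b : ℤ
  d : ℤ
  e : ℤ
  f : ℤ
  g : ℤ

def ipow (z : ℤ) : ℕ → ℤ
  | 0 => 1
  | n + 1 => Int.mul z (ipow z n)

lemma ipow_eq (z : ℤ) (n : ℕ) : ipow z n = z ^ n := by
  induction n with
  | zero => rw [pow_zero]; rfl
  | succ n ih => rw [ipow, ih, pow_succ]; exact mul_comm _ _

def npow (z : ℕ) : ℕ → ℕ
  | 0 => 1
  | n + 1 => Nat.mul z (npow z n)

lemma npow_eq (z : ℕ) (n : ℕ) : npow z n = z ^ n := by
  induction n with
  | zero => rw [pow_zero]; rfl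
  | succ n ih => rw [npow, ih, pow_succ]; exact mul_comm _ _

def iev1 (y : ℤ) : List ℤ → ℤ
  | [] => 0
  | a :: l => Int.add a (Int.mul y (iev1 y l))

def iev2 (x y : ℤ) : List (List ℤ) → ℤ
  | [] => 0
  | r :: P => Int.add (iev1 y r) (Int.mul x (iev2 x y P))

def nm1 : List ℤ → ℕ
  | [] => 0
  | a :: l => Nat.add a.natAbs (nm1 l)

def nm2 : List (List ℤ) → ℕ
  | [] => 0
  | r :: P => Nat.add (nm1 r) (nm2 P)

/-- degree of a list of coefficients -/
def dg1 : List ℤ → ℕ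
  | [] => 0
  | _ :: l => match l with
    | [] => 0
    | _ :: _ => Nat.succ (dg1 l)

def dgy : List (List ℤ) → ℕ
  | [] => 0
  | r :: P => Nat.max (dg1 r) (dgy P)

def dgx : List (List ℤ) → ℕ
  | [] => 0
  | _ :: P => match P with
    | [] => 0
    | _ :: _ => Nat.succ (dgx P)

/-- evaluation at the integer point -/
def Ex.ev (X : IPt) : Ex → ℤ
  | lit z => z
  | va i => match i with
    | 0 => X.a
    | 1 => X.b
    | 2 => 1
    | 3 => X.d
    | 4 => X.e
    | 5 => X.f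
    | _ => X.g
  | add p q => Int.add (p.ev X) (q.ev X)
  | mul p q => Int.mul (p.ev X) (q.ev X)
  | sc z p => Int.mul z (p.ev X)
  | pow p n => ipow (p.ev X) n
  | bp P => iev2 X.f X.g P

/-- real value -/
noncomputable def Ex.re (x : Pnt) : Ex → ℝ
  | lit z => z
  | va i => match i with
    | 0 => x.a
    | 1 => x.b
    | 2 => x.c
    | 3 => x.d
    | 4 => x.e
    | 5 => x.f
    | _ => x.g
  | add p q => p.re x + q.re x
  | mul p q => p.re x * q.re x
  | sc z p => z * p.re x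
  | pow p n => p.re x ^ n
  | bp P => Pool.EK71.ev2 x.f x.g P

/-- norm bound -/
def Ex.nm : Ex → ℕ
  | lit z => z.natAbs
  | va _ => 1
  | add p q => Nat.add p.nm q.nm
  | mul p q => Nat.mul p.nm q.nm
  | sc z p => Nat.mul z.natAbs p.nm
  | pow p n => npow p.nm n
  | bp P => nm2 P

def Bd.max (B D : Bd) : Bd :=
  ⟨Nat.max B.a D.a, Nat.max B.b D.b, Nat.max B.d D.d, Nat.max B.e D.e, Nat.max B.f D.f,
    Nat.max B.g D.g, B.w⟩

def Bd.smul (n : ℕ) (B : Bd) : Bd :=
  ⟨n * B.a, n * B.b, n * B.d, n * B.e, n * B.f, n * B.g, n * B.w⟩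

/-- box of the exponents -/
def Ex.bd : Ex → Bd
  | lit _ => ⟨0, 0, 0, 0, 0, 0, 0⟩
  | va i => match i with
    | 0 => ⟨1, 0, 0, 0, 0, 0, 0⟩
    | 1 => ⟨0, 1, 0, 0, 0, 0, 1⟩
    | 2 => ⟨0, 0, 0, 0, 0, 0, 1⟩
    | 3 => ⟨0, 0, 1, 0, 0, 0, 2⟩
    | 4 => ⟨0, 0, 0, 1, 0, 0, 2⟩
    | 5 => ⟨0, 0, 0, 0, 1, 0, 0⟩
    | _ => ⟨0, 0, 0, 0, 0, 1, 0⟩
  | add p q => p.bd.max q.bd
  | mul p q => p.bd.add q.bd
  | sc _ p => p.bd
  | pow p n => p.bd.smul n
  | bp P => ⟨0, 0, 0, 0, dgx P, dgy P, 0⟩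

/-- homogeneity -/
def Ex.ok : Ex → Bool
  | lit _ => true
  | va _ => true
  | add p q => p.ok && q.ok && Nat.beq p.bd.w q.bd.w
  | mul p q => p.ok && q.ok
  | sc _ p => p.ok
  | pow p _ => p.ok
  | bp _ => true

/-- the integer point of the radices `r` and the base `w` -/
def Rad.pt (r : Rad) (w : ℤ) : IPt := ⟨w ^ r.ra, w ^ r.rb, w ^ r.rd, w ^ r.re, w, w ^ r.rg⟩

lemma Bd.le_max_left (B D : Bd) : B.le (B.max D) :=
  ⟨Nat.le_max_left _ _, Nat.le_max_left _ _, Nat.le_max_left _ _, Nat.le_max_left _ _,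
    Nat.le_max_left _ _, Nat.le_max_left _ _, rfl⟩

lemma Bd.le_max_right (B D : Bd) (h : B.w = D.w) : D.le (B.max D) :=
  ⟨Nat.le_max_right _ _, Nat.le_max_right _ _, Nat.le_max_right _ _, Nat.le_max_right _ _,
    Nat.le_max_right _ _, Nat.le_max_right _ _, h.symm⟩

lemma Rep.of_mon {w : ℤ} {r : Rad} {x : Pnt} {m : Mon} {N : Bd} (h : m.In N) {v : ℤ} {φ : ℝ}
    (hv : v = w ^ m.code r) (hφ : φ = m.val x) : Rep w r x N 1 v φ := by
  have := Rep.mon (w := w) (r := r) (x := x) 1 h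
  rw [hv, hφ]
  simpa using this

lemma Rep.b1 {w : ℤ} {r : Rad} {x : Pnt} (l : List ℤ) :
    Rep w r x ⟨0, 0, 0, 0, 0, dg1 l, 0⟩ (nm1 l) (iev1 (w ^ r.rg) l) (Pool.EK71.ev1 x.g l) := by
  induction l with
  | nil => exact Rep.zero _ _
  | cons a l ih =>
    have h0 : (⟨0, 0, 0, 0, 0, 0, 0⟩ : Mon).In ⟨0, 0, 0, 0, 0, dg1 (a :: l), 0⟩ := by
      simp [Mon.In]
    have h1 := Rep.mon (w := w) (r := r) (x := x) a h0
    simp only [Mon.code, Mon.val, mul_zero, add_zero, pow_zero, mul_one] at h1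
    cases l with
    | nil =>
      have h2 := h1.add (Rep.zero (w := w) (r := r) (x := x) ⟨0, 0, 0, 0, 0, dg1 [a], 0⟩ 0)
      have e1 : iev1 (w ^ r.rg) [a] = a + 0 := by simp [iev1]
      have e2 : Pool.EK71.ev1 x.g [a] = a + 0 := by simp [Pool.EK71.ev1]
      rw [e1, e2]
      exact h2
    | cons b l =>
      have h2 := Rep.of_mon (w := w) (r := r) (x := x) (m := ⟨0, 0, 0, 0, 0, 0, 1⟩)
        (N := ⟨0, 0, 0, 0, 0, 1, 0⟩) (by simp [Mon.In]) (v := w ^ r.rg) (φ := x.g)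
        (by simp [Mon.code]) (by simp [Mon.val])
      have h3 := h1.add ((h2.mul ih).le (N' := ⟨0, 0, 0, 0, 0, dg1 (a :: b :: l), 0⟩) (by
        refine ⟨by simp [Bd.add], by simp [Bd.add], by simp [Bd.add], by simp [Bd.add],
          by simp [Bd.add], ?_, by simp [Bd.add]⟩
        show 1 + dg1 (b :: l) ≤ Nat.succ (dg1 (b :: l))
        omega))
      rw [one_mul] at h3
      exact h3

lemma Rep.b2 {w : ℤ} {r : Rad} {x : Pnt} (P : List (List ℤ)) :
    Rep w r x ⟨0, 0, 0, 0, dgx P, dgy P, 0⟩ (nm2 P) (iev2 w (w ^ r.rg) P)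
      (Pool.EK71.ev2 x.f x.g P) := by
  induction P with
  | nil => exact Rep.zero _ _
  | cons a l ih =>
    have h1 := (Rep.b1 (w := w) (r := r) (x := x) a).le
      (N' := ⟨0, 0, 0, 0, dgx (a :: l), dgy (a :: l), 0⟩)
      ⟨le_rfl, le_rfl, le_rfl, le_rfl, Nat.zero_le _, Nat.le_max_left _ _, rfl⟩
    cases l with
    | nil =>
      have h2 := h1.add (Rep.zero (w := w) (r := r) (x := x) ⟨0, 0, 0, 0, dgx [a], dgy [a], 0⟩ 0)
      have e1 : iev2 w (w ^ r.rg) [a] = iev1 (w ^ r.rg) a + 0 := by simp [iev2]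
      have e2 : Pool.EK71.ev2 x.f x.g [a] = Pool.EK71.ev1 x.g a + 0 := by simp [Pool.EK71.ev2]
      rw [e1, e2]
      exact h2
    | cons b l =>
      have h2 := Rep.of_mon (w := w) (r := r) (x := x) (m := ⟨0, 0, 0, 0, 0, 1, 0⟩)
        (N := ⟨0, 0, 0, 0, 1, 0, 0⟩) (by simp [Mon.In]) (v := w) (φ := x.f)
        (by simp [Mon.code]) (by simp [Mon.val])
      have h3 := h1.add ((h2.mul ih).le
        (N' := ⟨0, 0, 0, 0, dgx (a :: b :: l), dgy (a :: b :: l), 0⟩) (by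
        refine ⟨by simp [Bd.add], by simp [Bd.add], by simp [Bd.add], by simp [Bd.add],
          ?_, ?_, by simp [Bd.add]⟩
        · show 1 + dgx (b :: l) ≤ Nat.succ (dgx (b :: l))
          omega
        · show 0 + dgy (b :: l) ≤ Nat.max (dg1 a) (dgy (b :: l))
          rw [Nat.zero_add]
          exact Nat.le_max_right _ _))
      rw [one_mul] at h3
      exact h3

lemma Ex.rep {w : ℤ} {r : Rad} {x : Pnt} (e : Ex) (h : e.ok = true) :
    Rep w r x e.bd e.nm (e.ev (r.pt w)) (e.re x) := by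
  induction e with
  | lit z =>
    have h1 : (⟨0, 0, 0, 0, 0, 0, 0⟩ : Mon).In ⟨0, 0, 0, 0, 0, 0, 0⟩ := by simp [Mon.In]
    have := Rep.mon (w := w) (r := r) (x := x) z h1
    simpa [Mon.code, Mon.val, Ex.ev, Ex.re, Ex.nm, Ex.bd] using this
  | va i =>
    match i with
    | 0 => exact Rep.of_mon (m := ⟨1, 0, 0, 0, 0, 0, 0⟩) (by simp [Mon.In, Ex.bd])
            (by simp [Ex.ev, Rad.pt, Mon.code]) (by simp [Ex.re, Mon.val])
    | 1 => exact Rep.of_mon (m := ⟨0, 1, 0, 0, 0, 0, 0⟩) (by simp [Mon.In, Ex.bd])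
            (by simp [Ex.ev, Rad.pt, Mon.code]) (by simp [Ex.re, Mon.val])
    | 2 => exact Rep.of_mon (m := ⟨0, 0, 1, 0, 0, 0, 0⟩) (by simp [Mon.In, Ex.bd])
            (by simp [Ex.ev, Mon.code]) (by simp [Ex.re, Mon.val])
    | 3 => exact Rep.of_mon (m := ⟨0, 0, 0, 1, 0, 0, 0⟩) (by simp [Mon.In, Ex.bd])
            (by simp [Ex.ev, Rad.pt, Mon.code]) (by simp [Ex.re, Mon.val])
    | 4 => exact Rep.of_mon (m := ⟨0, 0, 0, 0, 1, 0, 0⟩) (by simp [Mon.In, Ex.bd])
            (by simp [Ex.ev, Rad.pt, Mon.code]) (by simp [Ex.re, Mon.val])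
    | 5 => exact Rep.of_mon (m := ⟨0, 0, 0, 0, 0, 1, 0⟩) (by simp [Mon.In, Ex.bd])
            (by simp [Ex.ev, Rad.pt, Mon.code]) (by simp [Ex.re, Mon.val])
    | (k + 6) =>
      exact Rep.of_mon (m := ⟨0, 0, 0, 0, 0, 0, 1⟩) (by simp [Mon.In, Ex.bd])
        (by simp [Ex.ev, Rad.pt, Mon.code]) (by simp [Ex.re, Mon.val])
  | add p q ihp ihq =>
    simp only [Ex.ok, Bool.and_eq_true] at h
    obtain ⟨⟨h1, h2⟩, h3⟩ := h
    have h3 := Nat.eq_of_beq_eq_true h3
    exact ((ihp h1).le (Bd.le_max_left _ _)).add ((ihq h2).le (Bd.le_max_right _ _ h3))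
  | mul p q ihp ihq =>
    simp only [Ex.ok, Bool.and_eq_true] at h
    exact (ihp h.1).mul (ihq h.2)
  | sc z p ih =>
    simp only [Ex.ok] at h
    exact (ih h).smul z
  | pow p n ih =>
    simp only [Ex.ok] at h
    have ih := ih h
    show Rep w r x (p.bd.smul n) (npow p.nm n) (ipow (p.ev (r.pt w)) n) (p.re x ^ n)
    induction n with
    | zero =>
      have h1 : (⟨0, 0, 0, 0, 0, 0, 0⟩ : Mon).In (p.bd.smul 0) := by simp [Mon.In, Bd.smul]
      have := Rep.of_mon (w := w) (r := r) (x := x) h1 (v := 1) (φ := 1) (by simp [Mon.code])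
        (by simp [Mon.val])
      simpa [npow, ipow] using this
    | succ n ihn =>
      have h2 := ih.mul ihn
      have e1 : p.bd.add (p.bd.smul n) = p.bd.smul (n + 1) := by
        simp only [Bd.add, Bd.smul]
        congr 1 <;> ring
      rw [e1] at h2
      rw [pow_succ, mul_comm (p.re x ^ n)]
      exact h2
  | bp P => exact Rep.b2 P

end Pool.Sos71

end

section


/-!
Taylor coefficients of holomorphic functions on the unit disc, and Parseval's identity.
-/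

set_option autoImplicit false

open MeasureTheory Set Metric Filter Topology
open scoped ENNReal NNReal Real Nat

namespace Pool.Agent.Helper22.Marshall

/-- Taylor coefficient at zero. -/
noncomputable def coeff (f : ℂ → ℂ) (n : ℕ) : ℂ := (n ! : ℂ)⁻¹ * iteratedDeriv n f 0

theorem coeff_zero (f : ℂ → ℂ) : coeff f 0 = f 0 := by simp [coeff]

theorem coeff_one (f : ℂ → ℂ) : coeff f 1 = deriv f 0 := by simp [coeff]

theorem hasSum_coeff {f : ℂ → ℂ} (hf : DifferentiableOn ℂ f (ball 0 1)) {z : ℂ}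
    (hz : ‖z‖ < 1) : HasSum (fun n => coeff f n * z ^ n) (f z) := by
  have h := Complex.hasSum_taylorSeries_on_ball (c := 0) (r := 1) (z := z) hf (by simpa using hz)
  have : (fun n => coeff f n * z ^ n)
      = fun n : ℕ => (n ! : ℂ)⁻¹ • (z - 0) ^ n • iteratedDeriv n f 0 := by
    funext n
    simp only [coeff, smul_eq_mul, sub_zero]
    ring
  rw [this]
  exact h

theorem coeff_deriv (f : ℂ → ℂ) (n : ℕ) :
    coeff (deriv f) n = ((n : ℂ) + 1) * coeff f (n + 1) := by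
  simp only [coeff, Nat.factorial_succ, Nat.cast_mul, Nat.cast_succ]
  rw [iteratedDeriv_succ']
  have h1 : ((n : ℂ) + 1) ≠ 0 := Nat.cast_add_one_ne_zero n
  have h2 : ((n ! : ℕ) : ℂ) ≠ 0 := Nat.cast_ne_zero.mpr (Nat.factorial_ne_zero n)
  field_simp

theorem differentiableOn_deriv {f : ℂ → ℂ} (hf : DifferentiableOn ℂ f (ball 0 1)) :
    DifferentiableOn ℂ (deriv f) (ball 0 1) := hf.deriv isOpen_ball

theorem hasSum_coeff_deriv {f : ℂ → ℂ} (hf : DifferentiableOn ℂ f (ball 0 1)) {z : ℂ}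
    (hz : ‖z‖ < 1) : HasSum (fun n : ℕ => (n : ℂ) * coeff f n * z ^ n) (z * deriv f z) := by
  have h := (hasSum_coeff (differentiableOn_deriv hf) hz).mul_left z
  have h2 : HasSum (fun n : ℕ => ((n + 1 : ℕ) : ℂ) * coeff f (n + 1) * z ^ (n + 1))
      (z * deriv f z) := by
    have : (fun n : ℕ => ((n + 1 : ℕ) : ℂ) * coeff f (n + 1) * z ^ (n + 1))
        = fun n => z * (coeff (deriv f) n * z ^ n) := by
      funext n
      rw [coeff_deriv]
      push_cast
      ring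
    rw [this]
    exact h
  rw [← hasSum_nat_add_iff' 1]
  simpa using h2

theorem parseval_comb {f : ℂ → ℂ} (hf : DifferentiableOn ℂ f (ball 0 1)) (α β : ℂ) {r : ℝ}
    (hr : 0 ≤ r) (hr1 : r < 1) :
    HasSum (fun n : ℕ => ‖(α * n + β) * coeff f n‖ ^ 2 * r ^ (2 * n))
      ((1 / (2 * π)) * ∫ θ in (-π)..π,
        ‖α * (((r : ℂ) * Complex.exp ((θ : ℂ) * Complex.I)) *
          deriv f ((r : ℂ) * Complex.exp ((θ : ℂ) * Complex.I)))
          + β * f ((r : ℂ) * Complex.exp ((θ : ℂ) * Complex.I))‖ ^ 2) := by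
  have hsum : ∀ z : ℂ, ‖z‖ < 1 → HasSum (fun n : ℕ => (α * n + β) * coeff f n * z ^ n)
      (α * (z * deriv f z) + β * f z) := by
    intro z hz
    have h1 := (hasSum_coeff_deriv hf hz).mul_left α
    have h2 := (hasSum_coeff hf hz).mul_left β
    have h3 := h1.add h2
    have : (fun n : ℕ => (α * n + β) * coeff f n * z ^ n)
        = fun n : ℕ => α * ((n : ℂ) * coeff f n * z ^ n) + β * (coeff f n * z ^ n) := by
      funext n
      ring
    rw [this]
    exact h3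
  have hnorm : ∀ θ : ℝ, ‖(r : ℂ) * Complex.exp ((θ : ℂ) * Complex.I)‖ = r := by
    intro θ
    rw [norm_mul, Complex.norm_exp_ofReal_mul_I, mul_one, Complex.norm_real,
      Real.norm_of_nonneg hr]
  apply parseval_aux (fun n : ℕ => (α * n + β) * coeff f n) r hr
  · have h := (hsum (r : ℂ) (by rw [Complex.norm_real, Real.norm_of_nonneg hr]; exact hr1)).summable
    have h2 := h.norm
    have : (fun n : ℕ => ‖(α * n + β) * coeff f n‖ * r ^ n)
        = fun n : ℕ => ‖(α * n + β) * coeff f n * (r : ℂ) ^ n‖ := by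
      funext n
      rw [norm_mul _ ((r : ℂ) ^ n), norm_pow, Complex.norm_real, Real.norm_of_nonneg hr]
    rw [this]
    exact h2
  · intro θ
    exact hsum _ (by rw [hnorm]; exact hr1)

end Pool.Agent.Helper22.Marshall

end

section


/-!
Taylor coefficients of products, and Cauchy's formula on circles.
-/

set_option autoImplicit false

open MeasureTheory Set Metric Filter Topology
open scoped ENNReal NNReal Real Nat

namespace Pool.Agent.Helper22.Marshall

theorem coeff_mul {f g : ℂ → ℂ} (hf : AnalyticAt ℂ f 0) (hg : AnalyticAt ℂ g 0) (n : ℕ) :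
    coeff (fun z => f z * g z) n = ∑ i ∈ Finset.range (n + 1), coeff f i * coeff g (n - i) := by
  unfold coeff
  have h := iteratedDeriv_mul (n := n) (x := (0 : ℂ)) hf.contDiffAt hg.contDiffAt
  have e : (fun z => f z * g z) = f * g := rfl
  rw [e, h, Finset.mul_sum]
  apply Finset.sum_congr rfl
  intro i hi
  rw [Finset.mem_range] at hi
  have h2 : (n.choose i : ℂ) * ((i ! : ℕ) : ℂ) * (((n - i)! : ℕ) : ℂ) = ((n ! : ℕ) : ℂ) := by
    exact_mod_cast Nat.choose_mul_factorial_mul_factorial (by omega : i ≤ n)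
  have h3 : ((n ! : ℕ) : ℂ) ≠ 0 := Nat.cast_ne_zero.mpr (Nat.factorial_ne_zero n)
  have h4 : ((i ! : ℕ) : ℂ) ≠ 0 := Nat.cast_ne_zero.mpr (Nat.factorial_ne_zero i)
  have h5 : (((n - i)! : ℕ) : ℂ) ≠ 0 := Nat.cast_ne_zero.mpr (Nat.factorial_ne_zero _)
  rw [← h2]
  have h6 : (n.choose i : ℂ) ≠ 0 := by
    intro h
    rw [h, zero_mul, zero_mul] at h2
    exact h3 h2.symm
  field_simp

theorem coeff_congr {f g : ℂ → ℂ} (h : f =ᶠ[𝓝 0] g) (n : ℕ) : coeff f n = coeff g n := by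
  unfold coeff
  rw [h.iteratedDeriv_eq]

theorem coeff_const_mul (c : ℂ) (f : ℂ → ℂ) (n : ℕ) :
    coeff (fun z => c * f z) n = c * coeff f n := by
  unfold coeff
  rw [iteratedDeriv_const_mul_field]
  ring

/-- uniqueness of Taylor coefficients -/
theorem coeff_eq_of_hasSum {f : ℂ → ℂ} {a : ℕ → ℂ} {r : ℝ} (hr : 0 < r)
    (h : ∀ z : ℂ, ‖z‖ < r → HasSum (fun n => a n * z ^ n) (f z)) (n : ℕ) : coeff f n = a n := by
  have hp : HasFPowerSeriesAt f (FormalMultilinearSeries.ofScalars ℂ a) 0 := by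
    rw [hasFPowerSeriesAt_iff]
    filter_upwards [ball_mem_nhds (0 : ℂ) hr] with z hz
    rw [mem_ball_zero_iff] at hz
    have e : (fun n => z ^ n • (FormalMultilinearSeries.ofScalars ℂ a).coeff n)
        = fun n => a n * z ^ n := by
      funext n
      rw [FormalMultilinearSeries.coeff_ofScalars, smul_eq_mul, mul_comm]
    rw [e, zero_add]
    exact h z hz
  have han : AnalyticAt ℂ f 0 := hp.analyticAt
  have h2 := han.hasFPowerSeriesAt
  have h3 := hp.eq_formalMultilinearSeries h2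
  have h4 := congrArg (fun p : FormalMultilinearSeries ℂ ℂ ℂ => p.coeff n) h3
  simp only [FormalMultilinearSeries.coeff_ofScalars] at h4
  rw [h4]
  unfold coeff
  rw [div_eq_inv_mul]

end Pool.Agent.Helper22.Marshall

end

section


/-!
The area inequality for polynomials in terms of Taylor coefficients.
-/

set_option autoImplicit false

open MeasureTheory Set Metric Filter Topology
open scoped ENNReal NNReal Real Nat ComplexConjugate

namespace Pool.Agent.Helper22.Marshall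

open Pool.Agent.Helper39.Area (Ext phi dphi area_ineq hasDerivAt_phi)

/-- the (generalised) area inequality with constant `k`, in the coordinate `ζ = 1/z` -/
def GLe (β : ℂ → ℂ) (k : ℝ) : Prop :=
  ∀ (i : ℕ) (P : Polynomial ℂ) (v : ℕ → ℂ), P.natDegree ≤ i →
    (∀ ζ : ℂ, ζ ≠ 0 → ‖ζ‖ < 1 → HasSum (fun m => v m * ζ ^ m) (ζ ^ i * P.eval (phi β ζ))) →
    ∀ M : ℕ, ∑ m ∈ Finset.range M, ((m - i : ℕ) : ℝ) * ‖v m‖ ^ 2
      ≤ k ^ 2 * ∑ m ∈ Finset.range i, ((i - m : ℕ) : ℝ) * ‖v m‖ ^ 2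

/-- power series with given values on the punctured disc -/
theorem exists_g {v : ℕ → ℂ} {f : ℂ → ℂ}
    (h : ∀ ζ : ℂ, ζ ≠ 0 → ‖ζ‖ < 1 → HasSum (fun m => v m * ζ ^ m) (f ζ)) :
    ∃ g : ℂ → ℂ, DifferentiableOn ℂ g (ball 0 1) ∧ (∀ m, coeff g m = v m) ∧
      ∀ ζ : ℂ, ζ ≠ 0 → ‖ζ‖ < 1 → g ζ = f ζ := by
  have hs : ∀ ζ : ℂ, ‖ζ‖ < 1 → Summable (fun m => v m * ζ ^ m) := by
    intro ζ hζ
    by_cases h0 : ζ = 0
    · subst h0
      apply summable_of_ne_finset_zero (s := {0})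
      intro m hm
      rw [Finset.mem_singleton] at hm
      rw [zero_pow hm, mul_zero]
    · exact (h ζ h0 hζ).summable
  refine ⟨fun ζ => ∑' m, v m * ζ ^ m, ?_, ?_, ?_⟩
  · intro w hw
    rw [mem_ball_zero_iff] at hw
    obtain ⟨r, hr1, hr2⟩ := exists_between hw
    have hr : 0 < r := (norm_nonneg w).trans_lt hr1
    have hsum : Summable fun m => ‖v m‖ * r ^ m := by
      have := (hs (r : ℂ) (by rw [Complex.norm_real, Real.norm_of_nonneg hr.le]; exact hr2)).norm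
      simpa [norm_mul, norm_pow, Complex.norm_real, abs_of_pos hr] using this
    have hd := Complex.differentiableOn_tsum_of_summable_norm (F := fun m z => v m * z ^ m) hsum
      (U := ball (0 : ℂ) r) (fun l => by fun_prop) isOpen_ball
      (fun l z hz => by
        rw [mem_ball_zero_iff] at hz
        rw [norm_mul, norm_pow]
        gcongr)
    exact (hd.differentiableAt (isOpen_ball.mem_nhds (mem_ball_zero_iff.mpr hr1))).differentiableWithinAt
  · intro m
    exact coeff_eq_of_hasSum one_pos (fun z hz => (hs z hz).hasSum) m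
  · intro ζ h0 hζ
    exact (h ζ h0 hζ).tsum_eq

theorem real_part_id (g q : ℂ) : (conj g * q).re = (‖g + q‖ ^ 2 - ‖g - q‖ ^ 2) / 4 := by
  rw [← Complex.normSq_eq_norm_sq, ← Complex.normSq_eq_norm_sq]
  simp only [Complex.normSq_apply, Complex.mul_re, Complex.conj_re, Complex.conj_im,
    Complex.add_re, Complex.add_im, Complex.sub_re, Complex.sub_im]
  ring

/-- Parseval for `conj g (ζ g' - i g)` -/
theorem parseval_J {g : ℂ → ℂ} (hg : DifferentiableOn ℂ g (ball 0 1)) (i : ℕ) {r : ℝ}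
    (hr : 0 ≤ r) (hr1 : r < 1) :
    HasSum (fun n : ℕ => ((n : ℝ) - i) * ‖coeff g n‖ ^ 2 * r ^ (2 * n))
      ((1 / (2 * π)) * ∫ θ in (-π)..π,
        (conj (g ((r : ℂ) * Complex.exp ((θ : ℂ) * Complex.I))) *
          (((r : ℂ) * Complex.exp ((θ : ℂ) * Complex.I)) *
            deriv g ((r : ℂ) * Complex.exp ((θ : ℂ) * Complex.I))
            - i * g ((r : ℂ) * Complex.exp ((θ : ℂ) * Complex.I)))).re) := by
  have h1 := parseval_comb hg 1 (1 - i) hr hr1
  have h2 := parseval_comb hg (-1) (1 + i) hr hr1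
  have h3 := (h1.sub h2).mul_left (1 / 4)
  have e1 : (fun n : ℕ => 1 / 4 * (‖(1 * (n : ℂ) + (1 - i)) * coeff g n‖ ^ 2 * r ^ (2 * n)
      - ‖((-1) * (n : ℂ) + (1 + i)) * coeff g n‖ ^ 2 * r ^ (2 * n)))
      = fun n : ℕ => ((n : ℝ) - i) * ‖coeff g n‖ ^ 2 * r ^ (2 * n) := by
    funext n
    have e3 : (1 * (n : ℂ) + (1 - i)) = (((n : ℝ) + (1 - i) : ℝ) : ℂ) := by push_cast; ring
    have e4 : ((-1) * (n : ℂ) + (1 + i)) = (((-1) * (n : ℝ) + (1 + i) : ℝ) : ℂ) := by push_cast; ring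
    rw [e3, e4, norm_mul, norm_mul, Complex.norm_real, Complex.norm_real, mul_pow, mul_pow,
      Real.norm_eq_abs, Real.norm_eq_abs, sq_abs, sq_abs]
    ring
  have hc : ∀ α β : ℂ, Continuous (fun θ : ℝ => ‖α * (((r : ℂ) * Complex.exp ((θ : ℂ) * Complex.I)) *
          deriv g ((r : ℂ) * Complex.exp ((θ : ℂ) * Complex.I)))
          + β * g ((r : ℂ) * Complex.exp ((θ : ℂ) * Complex.I))‖ ^ 2) := by
    intro α β
    have hcirc : Continuous (fun θ : ℝ => (r : ℂ) * Complex.exp ((θ : ℂ) * Complex.I)) := by fun_prop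
    have hmem : ∀ θ : ℝ, (r : ℂ) * Complex.exp ((θ : ℂ) * Complex.I) ∈ ball (0 : ℂ) 1 := by
      intro θ
      rw [mem_ball_zero_iff, norm_mul, Complex.norm_exp_ofReal_mul_I, mul_one, Complex.norm_real,
        Real.norm_of_nonneg hr]
      exact hr1
    have c1 : Continuous (fun θ : ℝ => g ((r : ℂ) * Complex.exp ((θ : ℂ) * Complex.I))) :=
      hg.continuousOn.comp_continuous hcirc hmem
    have c2 : Continuous (fun θ : ℝ => deriv g ((r : ℂ) * Complex.exp ((θ : ℂ) * Complex.I))) :=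
      (hg.deriv isOpen_ball).continuousOn.comp_continuous hcirc hmem
    exact ((continuous_const.mul (hcirc.mul c2)).add (continuous_const.mul c1)).norm.pow 2
  have e2 : 1 / 4 * (1 / (2 * π) * (∫ θ in (-π)..π,
        ‖1 * (((r : ℂ) * Complex.exp ((θ : ℂ) * Complex.I)) *
          deriv g ((r : ℂ) * Complex.exp ((θ : ℂ) * Complex.I)))
          + (1 - i) * g ((r : ℂ) * Complex.exp ((θ : ℂ) * Complex.I))‖ ^ 2)
      - 1 / (2 * π) * ∫ θ in (-π)..π,
        ‖(-1) * (((r : ℂ) * Complex.exp ((θ : ℂ) * Complex.I)) *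
          deriv g ((r : ℂ) * Complex.exp ((θ : ℂ) * Complex.I)))
          + (1 + i) * g ((r : ℂ) * Complex.exp ((θ : ℂ) * Complex.I))‖ ^ 2)
      = (1 / (2 * π)) * ∫ θ in (-π)..π,
        (conj (g ((r : ℂ) * Complex.exp ((θ : ℂ) * Complex.I))) *
          (((r : ℂ) * Complex.exp ((θ : ℂ) * Complex.I)) *
            deriv g ((r : ℂ) * Complex.exp ((θ : ℂ) * Complex.I))
            - i * g ((r : ℂ) * Complex.exp ((θ : ℂ) * Complex.I)))).re := by
    rw [← mul_sub, ← intervalIntegral.integral_sub ((hc 1 (1 - i)).intervalIntegrable _ _)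
      ((hc (-1) (1 + i)).intervalIntegrable _ _), mul_left_comm,
      ← intervalIntegral.integral_const_mul]
    congr 2
    funext θ
    rw [real_part_id]
    generalize g ((r : ℂ) * Complex.exp ((θ : ℂ) * Complex.I)) = G
    generalize ((r : ℂ) * Complex.exp ((θ : ℂ) * Complex.I)) *
          deriv g ((r : ℂ) * Complex.exp ((θ : ℂ) * Complex.I)) = Q
    have e5 : 1 * Q + (1 - (i : ℂ)) * G = G + (Q - i * G) := by ring
    have e6 : (-1) * Q + (1 + (i : ℂ)) * G = G - (Q - i * G) := by ring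
    rw [e5, e6]
    ring
  rw [e1, e2] at h3
  exact h3


/-- the area inequality holds with constant one -/
theorem gLe_one {β : ℂ → ℂ} (h : Ext β) : GLe β 1 := by
  intro i P v hP hv M
  obtain ⟨g, hg, hgv, hgf⟩ := exists_g hv
  -- the inequality for each radius
  have key : ∀ r : ℝ, 0 < r → r < 1 → ∑' n : ℕ, ((n : ℝ) - i) * ‖v n‖ ^ 2 * r ^ (2 * n) ≤ 0 ∧
      Summable (fun n : ℕ => ((n : ℝ) - i) * ‖v n‖ ^ 2 * r ^ (2 * n)) := by
    intro r hr hr1
    have h1 := parseval_J hg i hr.le hr1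
    simp_rw [hgv] at h1
    refine ⟨?_, h1.summable⟩
    rw [h1.tsum_eq]
    obtain ⟨c, hc, hc2⟩ := area_ineq h hr hr1 P
    have h2 : (∮ ζ in C(0, r), conj (P.eval (phi β ζ)) *
        ((Polynomial.derivative P).eval (phi β ζ) * dphi β ζ))
        = (Complex.I * ((r : ℂ) ^ (2 * i))⁻¹) * ∫ θ in (0:ℝ)..(2 * π),
          (conj (g ((r : ℂ) * Complex.exp ((θ : ℂ) * Complex.I))) *
          (((r : ℂ) * Complex.exp ((θ : ℂ) * Complex.I)) *
            deriv g ((r : ℂ) * Complex.exp ((θ : ℂ) * Complex.I))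
            - i * g ((r : ℂ) * Complex.exp ((θ : ℂ) * Complex.I)))) := by
      rw [circleIntegral, ← intervalIntegral.integral_const_mul]
      congr 1
      funext θ
      have e0 : circleMap 0 r θ = (r : ℂ) * Complex.exp ((θ : ℂ) * Complex.I) := by
        rw [circleMap, zero_add]
      rw [deriv_circleMap, e0]
      set ζ : ℂ := (r : ℂ) * Complex.exp ((θ : ℂ) * Complex.I) with hζ
      have hζn : ‖ζ‖ = r := by
        rw [hζ, norm_mul, Complex.norm_exp_ofReal_mul_I, mul_one, Complex.norm_real,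
          Real.norm_of_nonneg hr.le]
      have hζ0 : ζ ≠ 0 := by
        rw [← norm_pos_iff, hζn]; exact hr
      have hζb : ζ ∈ ball (0 : ℂ) 1 := by rw [mem_ball_zero_iff, hζn]; exact hr1
      have hgd : HasDerivAt g (deriv g ζ) ζ :=
        (hg.differentiableAt (isOpen_ball.mem_nhds hζb)).hasDerivAt
      have hPd : HasDerivAt (fun ζ => ζ ^ i * P.eval (phi β ζ))
          (i * ζ ^ (i - 1) * P.eval (phi β ζ) + ζ ^ i * ((Polynomial.derivative P).eval (phi β ζ)
            * dphi β ζ)) ζ := by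
        have d1 := hasDerivAt_pow i ζ
        have d2 := (Polynomial.hasDerivAt P (phi β ζ)).comp ζ (hasDerivAt_phi h.diff hζb hζ0)
        exact d1.mul d2
      have hgP : g =ᶠ[𝓝 ζ] fun ζ => ζ ^ i * P.eval (phi β ζ) := by
        have hmem : ball (0 : ℂ) 1 \ {0} ∈ 𝓝 ζ := by
          apply IsOpen.mem_nhds (isOpen_ball.sdiff isClosed_singleton)
          exact ⟨hζb, hζ0⟩
        filter_upwards [hmem] with w hw
        exact hgf w hw.2 (mem_ball_zero_iff.mp hw.1)
      have e1 : deriv g ζ = i * ζ ^ (i - 1) * P.eval (phi β ζ)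
          + ζ ^ i * ((Polynomial.derivative P).eval (phi β ζ) * dphi β ζ) := by
        rw [hgP.deriv_eq, hPd.deriv]
      have e2 : g ζ = ζ ^ i * P.eval (phi β ζ) := hgf ζ hζ0 (by rw [hζn]; exact hr1)
      have e3 : ζ * deriv g ζ - i * g ζ
          = ζ ^ i * (ζ * ((Polynomial.derivative P).eval (phi β ζ) * dphi β ζ)) := by
        rw [e1, e2]
        cases i with
        | zero => simp
        | succ i =>
          simp only [Nat.add_sub_cancel]
          ring
      rw [e3, e2]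
      have e4 : conj ζ * ζ = (r : ℂ) ^ 2 := by
        rw [← hζn, Complex.conj_mul']
      have e5 : conj (ζ ^ i) * ζ ^ i = (r : ℂ) ^ (2 * i) := by
        rw [map_pow, ← mul_pow, e4, ← pow_mul]
      have hr0 : (r : ℂ) ^ (2 * i) ≠ 0 := pow_ne_zero _ (by exact_mod_cast hr.ne')
      rw [map_mul, smul_eq_mul]
      calc ζ * Complex.I * (conj (Polynomial.eval (phi β ζ) P) *
          (Polynomial.eval (phi β ζ) (Polynomial.derivative P) * dphi β ζ))
          = (Complex.I * ((r : ℂ) ^ (2 * i))⁻¹) * ((r : ℂ) ^ (2 * i) *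
            (conj (Polynomial.eval (phi β ζ) P) *
            (ζ * (Polynomial.eval (phi β ζ) (Polynomial.derivative P) * dphi β ζ)))) := by
            field_simp
        _ = _ := by rw [← e5]; ring
    rw [h2] at hc2
    have hr0 : (r : ℂ) ^ (2 * i) ≠ 0 := pow_ne_zero _ (by exact_mod_cast hr.ne')
    have h3 : (∫ θ in (0:ℝ)..(2 * π),
          (conj (g ((r : ℂ) * Complex.exp ((θ : ℂ) * Complex.I))) *
          (((r : ℂ) * Complex.exp ((θ : ℂ) * Complex.I)) *
            deriv g ((r : ℂ) * Complex.exp ((θ : ℂ) * Complex.I))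
            - i * g ((r : ℂ) * Complex.exp ((θ : ℂ) * Complex.I))))) = ((-2 * c * r ^ (2 * i) : ℝ) : ℂ) := by
      have h4 : Complex.I * ((r : ℂ) ^ (2 * i))⁻¹ ≠ 0 := mul_ne_zero Complex.I_ne_zero (inv_ne_zero hr0)
      apply mul_left_cancel₀ h4
      rw [hc2]
      push_cast
      field_simp
    -- shift of the interval
    set Fn : ℝ → ℂ := fun θ => (conj (g ((r : ℂ) * Complex.exp ((θ : ℂ) * Complex.I))) *
          (((r : ℂ) * Complex.exp ((θ : ℂ) * Complex.I)) *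
            deriv g ((r : ℂ) * Complex.exp ((θ : ℂ) * Complex.I))
            - i * g ((r : ℂ) * Complex.exp ((θ : ℂ) * Complex.I)))) with hFn
    have hper : Function.Periodic Fn (2 * π) := by
      intro θ
      have e : Complex.exp (((θ + 2 * π : ℝ) : ℂ) * Complex.I) = Complex.exp ((θ : ℂ) * Complex.I) := by
        push_cast
        rw [add_mul, Complex.exp_add, Complex.exp_two_pi_mul_I, mul_one]
      simp only [hFn, e]
    have h5 := hper.intervalIntegral_add_eq (-π) 0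
    rw [show -π + 2 * π = π by ring, zero_add] at h5
    have hFc : Continuous Fn := by
      have hcirc : Continuous (fun θ : ℝ => (r : ℂ) * Complex.exp ((θ : ℂ) * Complex.I)) := by fun_prop
      have hmem : ∀ θ : ℝ, (r : ℂ) * Complex.exp ((θ : ℂ) * Complex.I) ∈ ball (0 : ℂ) 1 := by
        intro θ
        rw [mem_ball_zero_iff, norm_mul, Complex.norm_exp_ofReal_mul_I, mul_one, Complex.norm_real,
          Real.norm_of_nonneg hr.le]
        exact hr1
      have c1 : Continuous (fun θ : ℝ => g ((r : ℂ) * Complex.exp ((θ : ℂ) * Complex.I))) :=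
        hg.continuousOn.comp_continuous hcirc hmem
      have c2 : Continuous (fun θ : ℝ => deriv g ((r : ℂ) * Complex.exp ((θ : ℂ) * Complex.I))) :=
        (hg.deriv isOpen_ball).continuousOn.comp_continuous hcirc hmem
      exact (Complex.continuous_conj.comp c1).mul ((hcirc.mul c2).sub (continuous_const.mul c1))
    have h6 : ∫ θ in (-π)..π, (Fn θ).re = (∫ θ in (-π)..π, Fn θ).re := by
      have := Complex.reCLM.intervalIntegral_comp_comm (hFc.intervalIntegrable (μ := volume) (-π) π)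
      exact this
    rw [h6, h5, h3, Complex.ofReal_re]
    have hpi := Real.pi_pos
    have : 0 ≤ r ^ (2 * i) := by positivity
    have h7 : 0 ≤ 1 / (2 * π) * (2 * c * r ^ (2 * i)) := by positivity
    linarith
  -- partial sums
  have key2 : ∀ r : ℝ, 0 < r → r < 1 → (∑ m ∈ Finset.range M, ((m - i : ℕ) : ℝ) * ‖v m‖ ^ 2 * r ^ (2 * m))
      ≤ ∑ m ∈ Finset.range i, ((i - m : ℕ) : ℝ) * ‖v m‖ ^ 2 := by
    intro r hr hr1
    obtain ⟨h1, h2⟩ := key r hr hr1
    have h3 : (∑ n ∈ Finset.range i, ((n : ℝ) - i) * ‖v n‖ ^ 2 * r ^ (2 * n))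
        + ∑' n : ℕ, (((n + i : ℕ) : ℝ) - i) * ‖v (n + i)‖ ^ 2 * r ^ (2 * (n + i)) ≤ 0 := by
      rw [h2.sum_add_tsum_nat_add i]
      exact h1
    have h4 : (∑ m ∈ Finset.range M, ((m - i : ℕ) : ℝ) * ‖v m‖ ^ 2 * r ^ (2 * m))
        ≤ ∑ m ∈ Finset.range (i + M), ((m - i : ℕ) : ℝ) * ‖v m‖ ^ 2 * r ^ (2 * m) := by
      apply Finset.sum_le_sum_of_subset_of_nonneg
      · intro m hm
        rw [Finset.mem_range] at hm ⊢
        omega
      · intro m _ _
        positivity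
    have h5 : ∑ m ∈ Finset.range (i + M), ((m - i : ℕ) : ℝ) * ‖v m‖ ^ 2 * r ^ (2 * m)
        = ∑ m ∈ Finset.range M, (((m + i : ℕ) : ℝ) - i) * ‖v (m + i)‖ ^ 2 * r ^ (2 * (m + i)) := by
      rw [Finset.sum_range_add]
      have : ∑ x ∈ Finset.range i, ((x - i : ℕ) : ℝ) * ‖v x‖ ^ 2 * r ^ (2 * x) = 0 := by
        apply Finset.sum_eq_zero
        intro x hx
        rw [Finset.mem_range] at hx
        have : x - i = 0 := by omega
        rw [this]
        simp
      rw [this, zero_add]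
      apply Finset.sum_congr rfl
      intro x _
      have e : i + x - i = x := by omega
      rw [e, add_comm i x]
      push_cast
      ring
    have h6 : ∑ m ∈ Finset.range M, (((m + i : ℕ) : ℝ) - i) * ‖v (m + i)‖ ^ 2 * r ^ (2 * (m + i))
        ≤ ∑' n : ℕ, (((n + i : ℕ) : ℝ) - i) * ‖v (n + i)‖ ^ 2 * r ^ (2 * (n + i)) := by
      apply Summable.sum_le_tsum
      · intro n _
        push_cast
        have : (n : ℝ) + i - i = n := by ring
        rw [this]
        positivity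
      · exact (summable_nat_add_iff i).mpr h2
    have h7 : ∑ m ∈ Finset.range i, ((i - m : ℕ) : ℝ) * ‖v m‖ ^ 2 * r ^ (2 * m)
        ≤ ∑ m ∈ Finset.range i, ((i - m : ℕ) : ℝ) * ‖v m‖ ^ 2 := by
      apply Finset.sum_le_sum
      intro m _
      have : r ^ (2 * m) ≤ 1 := pow_le_one₀ hr.le hr1.le
      have h0 : 0 ≤ ((i - m : ℕ) : ℝ) * ‖v m‖ ^ 2 := by positivity
      nlinarith
    have h8 : ∑ m ∈ Finset.range i, ((i - m : ℕ) : ℝ) * ‖v m‖ ^ 2 * r ^ (2 * m)
        = - ∑ n ∈ Finset.range i, ((n : ℝ) - i) * ‖v n‖ ^ 2 * r ^ (2 * n) := by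
      rw [← Finset.sum_neg_distrib]
      apply Finset.sum_congr rfl
      intro m hm
      rw [Finset.mem_range] at hm
      rw [Nat.cast_sub hm.le]
      ring
    linarith
  rw [one_pow, one_mul]
  -- limit r → 1
  have hcont : Continuous (fun r : ℝ => ∑ m ∈ Finset.range M, ((m - i : ℕ) : ℝ) * ‖v m‖ ^ 2 * r ^ (2 * m)) := by
    fun_prop
  have hlim : Tendsto (fun r : ℝ => ∑ m ∈ Finset.range M, ((m - i : ℕ) : ℝ) * ‖v m‖ ^ 2 * r ^ (2 * m))
      (𝓝[<] 1) (𝓝 (∑ m ∈ Finset.range M, ((m - i : ℕ) : ℝ) * ‖v m‖ ^ 2 * 1 ^ (2 * m))) :=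
    (hcont.tendsto 1).mono_left nhdsWithin_le_nhds
  simp only [one_pow, mul_one] at hlim
  apply le_of_tendsto hlim
  have hmem : Ioo (0 : ℝ) 1 ∈ 𝓝[<] (1 : ℝ) := Ioo_mem_nhdsLT one_pos
  filter_upwards [hmem] with r hr
  exact key2 r hr.1 hr.2

end Pool.Agent.Helper22.Marshall

end

section


/-!
Taylor coefficients of separately holomorphic functions on the bidisc.
-/

set_option autoImplicit false

open MeasureTheory Set Metric Filter Topology
open scoped ENNReal NNReal Real Nat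

namespace Pool.Agent.Helper22.Marshall

theorem hasSum_integral_bound {g : ℕ → ℝ → ℂ} (hg : ∀ n, Continuous (g n)) {B : ℕ → ℝ}
    (hB : Summable B) (hgB : ∀ n α, ‖g n α‖ ≤ B n) {G : ℝ → ℂ}
    (hG : ∀ α, HasSum (fun n => g n α) (G α)) :
    HasSum (fun n => ∫ α in (-π)..π, g n α) (∫ α in (-π)..π, G α) := by
  have hpi : (-π : ℝ) ≤ π := by linarith [Real.pi_pos]
  simp_rw [intervalIntegral.integral_of_le hpi]
  have h2 := hasSum_integral_of_summable_integral_norm (μ := volume.restrict (Ioc (-π) π))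
    (F := g) (fun n => (hg n).integrableOn_Ioc) ?_
  · have h3 : (fun α => ∑' n, g n α) = G := by
      funext α
      exact (hG α).tsum_eq
    rw [h3] at h2
    exact h2
  · apply (hB.mul_left (2 * π)).of_nonneg_of_le
    · intro n
      exact integral_nonneg fun α => norm_nonneg _
    · intro n
      calc ∫ α in Ioc (-π) π, ‖g n α‖ ≤ ∫ α in Ioc (-π) π, B n := by
            apply integral_mono
            · exact ((hg n).norm).integrableOn_Ioc
            · exact integrable_const _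
            · intro α; exact hgB n α
        _ = 2 * π * B n := by
            rw [setIntegral_const, smul_eq_mul, Real.volume_real_Ioc_of_le hpi]
            ring

/-- the point `r e^{iα}` -/
noncomputable def pt (r α : ℝ) : ℂ := (r : ℂ) * Complex.exp ((α : ℂ) * Complex.I)

theorem norm_pt {r : ℝ} (hr : 0 ≤ r) (α : ℝ) : ‖pt r α‖ = r := by
  unfold pt
  rw [norm_mul, Complex.norm_exp_ofReal_mul_I, mul_one, Complex.norm_real, Real.norm_of_nonneg hr]

theorem continuous_pt (r : ℝ) : Continuous (pt r) := by unfold pt; fun_prop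

theorem pt_mem {r : ℝ} (hr : 0 ≤ r) (hr1 : r < 1) (α : ℝ) : pt r α ∈ ball (0 : ℂ) 1 := by
  rw [mem_ball_zero_iff, norm_pt hr]; exact hr1

theorem circle_coeff {f : ℂ → ℂ} (hf : DifferentiableOn ℂ f (ball 0 1)) {r : ℝ} (hr : 0 ≤ r)
    (hr1 : r < 1) (k : ℕ) :
    ∫ α in (-π)..π, f (pt r α) * Complex.exp (-(k : ℂ) * α * Complex.I)
      = 2 * π * (coeff f k * (r : ℂ) ^ k) := by
  have hs : Summable fun n => ‖coeff f n * (r : ℂ) ^ n‖ :=
    (hasSum_coeff hf (z := (r : ℂ)) (by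
      rw [Complex.norm_real, Real.norm_of_nonneg hr]; exact hr1)).summable.norm
  have h1 := hasSum_integral_bound
    (g := fun n α => coeff f n * pt r α ^ n * Complex.exp (-(k : ℂ) * α * Complex.I))
    (fun n => by
      have := continuous_pt r
      fun_prop)
    hs (G := fun α => f (pt r α) * Complex.exp (-(k : ℂ) * α * Complex.I))
    (fun n α => by
      have e : -(k : ℂ) * α * Complex.I = ((-(k : ℝ) * α : ℝ) : ℂ) * Complex.I := by push_cast; ring
      rw [norm_mul, e, Complex.norm_exp_ofReal_mul_I, mul_one, norm_mul, norm_pow, norm_pt hr,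
        norm_mul, norm_pow, Complex.norm_real, Real.norm_of_nonneg hr])
    (fun α => by
      have := hasSum_coeff hf (z := pt r α) (by rw [norm_pt hr]; exact hr1)
      exact this.mul_right _)
  have h2 : ∀ n : ℕ, ∫ α in (-π)..π, coeff f n * pt r α ^ n * Complex.exp (-(k : ℂ) * α * Complex.I)
      = if n = k then 2 * π * (coeff f k * (r : ℂ) ^ k) else 0 := by
    intro n
    have e : ∀ α : ℝ, coeff f n * pt r α ^ n * Complex.exp (-(k : ℂ) * α * Complex.I)
        = (coeff f n * (r : ℂ) ^ n) * Complex.exp (((n : ℤ) - (k : ℤ) : ℤ) * (α : ℂ) * Complex.I) := by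
      intro α
      unfold pt
      have e2 : Complex.exp ((n : ℂ) * ((α : ℂ) * Complex.I))
          * Complex.exp (-(k : ℂ) * α * Complex.I)
          = Complex.exp (((n : ℤ) - (k : ℤ) : ℤ) * (α : ℂ) * Complex.I) := by
        rw [← Complex.exp_add]
        congr 1
        push_cast
        ring
      rw [mul_pow, ← Complex.exp_nat_mul, ← e2]
      ring
    simp_rw [e]
    rw [intervalIntegral.integral_const_mul]
    split_ifs with h
    · subst h
      simp
      ring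
    · rw [integral_exp_int _ (by omega), mul_zero]
  simp_rw [h2] at h1
  have h3 := h1.unique (hasSum_ite_eq k _)
  exact h3

/-- the data of a separately holomorphic continuous function -/
structure SepHol (U : ℂ → ℂ → ℂ) : Prop where
  cont : ContinuousOn (fun p : ℂ × ℂ => U p.1 p.2) (ball 0 1 ×ˢ ball 0 1)
  left : ∀ w ∈ ball (0 : ℂ) 1, DifferentiableOn ℂ (fun z => U z w) (ball 0 1)
  right : ∀ z ∈ ball (0 : ℂ) 1, DifferentiableOn ℂ (fun w => U z w) (ball 0 1)

theorem SepHol.swap {U : ℂ → ℂ → ℂ} (h : SepHol U) : SepHol (fun z w => U w z) where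
  cont := by
    have := h.cont.comp (f := fun p : ℂ × ℂ => (p.2, p.1)) (s := ball 0 1 ×ˢ ball 0 1)
      (by fun_prop) (fun p hp => ⟨hp.2, hp.1⟩)
    exact this
  left := h.right
  right := h.left

theorem SepHol.bound {U : ℂ → ℂ → ℂ} (h : SepHol U) {r : ℝ} (hr1 : r < 1) :
    ∃ M : ℝ, 0 ≤ M ∧ ∀ z w : ℂ, ‖z‖ ≤ r → ‖w‖ ≤ r → ‖U z w‖ ≤ M := by
  have hc : IsCompact (closedBall (0 : ℂ) r ×ˢ closedBall (0 : ℂ) r) :=
    (isCompact_closedBall _ _).prod (isCompact_closedBall _ _)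
  obtain ⟨M, hM⟩ := hc.exists_bound_of_continuousOn (h.cont.mono (by
    apply Set.prod_mono <;> exact closedBall_subset_ball hr1))
  refine ⟨max M 0, le_max_right _ _, fun z w hz hw => ?_⟩
  exact (hM (z, w) ⟨mem_closedBall_zero_iff.mpr hz, mem_closedBall_zero_iff.mpr hw⟩).trans
    (le_max_left _ _)

theorem coeff_bound {f : ℂ → ℂ} (hf : DifferentiableOn ℂ f (ball 0 1)) {r M : ℝ} (hr : 0 < r)
    (hr1 : r < 1) (hM : ∀ z, ‖z‖ ≤ r → ‖f z‖ ≤ M) (n : ℕ) : ‖coeff f n‖ * r ^ n ≤ M := by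
  have h1 : ‖∫ α in (-π)..π, f (pt r α) * Complex.exp (-(n : ℂ) * α * Complex.I)‖
      ≤ M * |π - (-π)| := by
    apply intervalIntegral.norm_integral_le_of_norm_le_const
    intro α _
    have e : -(n : ℂ) * α * Complex.I = ((-(n : ℝ) * α : ℝ) : ℂ) * Complex.I := by push_cast; ring
    rw [norm_mul, e, Complex.norm_exp_ofReal_mul_I, mul_one]
    exact hM _ (norm_pt hr.le α).le
  rw [circle_coeff hf hr.le hr1, norm_mul (2 * π : ℂ), norm_mul (coeff f n), norm_pow,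
    Complex.norm_real, Real.norm_of_nonneg hr.le] at h1
  have hpi := Real.pi_pos
  have h2 : |π - (-π)| = 2 * π := by rw [abs_of_pos (by linarith)]; ring
  have h3 : ‖(2 * π : ℂ)‖ = 2 * π := by
    rw [norm_mul, Complex.norm_real, Real.norm_of_nonneg hpi.le]; simp
  rw [h2, h3] at h1
  have h4 : 2 * π * (‖coeff f n‖ * r ^ n) ≤ 2 * π * M := by linarith
  exact le_of_mul_le_mul_left h4 (by positivity)

/-- for fixed `k`, the coefficient functions are given by a power series -/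
theorem SepHol.param {U : ℂ → ℂ → ℂ} (h : SepHol U) {r : ℝ} (hr : 0 < r) (hr1 : r < 1) (k : ℕ)
    {w : ℂ} (hw : ‖w‖ < r) :
    HasSum (fun l : ℕ => (∫ α in (-π)..π, coeff (U (pt r α)) l
        * Complex.exp (-(k : ℂ) * α * Complex.I)) * w ^ l)
      (2 * π * (coeff (fun z => U z w) k * (r : ℂ) ^ k)) := by
  have hw1 : w ∈ ball (0 : ℂ) 1 := mem_ball_zero_iff.mpr (hw.trans hr1)
  rw [← circle_coeff (h.left w hw1) hr.le hr1 k]
  obtain ⟨M, hM0, hM⟩ := h.bound hr1
  have hcb : ∀ (l : ℕ) (α : ℝ), ‖coeff (U (pt r α)) l‖ * r ^ l ≤ M := fun l α =>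
    coeff_bound (h.right _ (pt_mem hr.le hr1 α)) hr hr1
      (fun z hz => hM _ _ (norm_pt hr.le α).le hz) l
  have hcont : ∀ l : ℕ, Continuous (fun α : ℝ => coeff (U (pt r α)) l) := by
    intro l
    have h1 : ∀ α : ℝ, coeff (U (pt r α)) l = (2 * π * (r : ℂ) ^ l)⁻¹ *
        ∫ β in (-π)..π, U (pt r α) (pt r β) * Complex.exp (-(l : ℂ) * β * Complex.I) := by
      intro α
      rw [circle_coeff (h.right _ (pt_mem hr.le hr1 α)) hr.le hr1]
      have h3 : (r : ℂ) ≠ 0 := by exact_mod_cast hr.ne'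
      have h4 : (π : ℂ) ≠ 0 := by exact_mod_cast Real.pi_pos.ne'
      field_simp
    have h5 : (fun α : ℝ => coeff (U (pt r α)) l) = fun α => (2 * π * (r : ℂ) ^ l)⁻¹ *
        ∫ β in (-π)..π, U (pt r α) (pt r β) * Complex.exp (-(l : ℂ) * β * Complex.I) := by
      funext α; exact h1 α
    rw [h5]
    apply Continuous.mul continuous_const
    apply intervalIntegral.continuous_parametric_intervalIntegral_of_continuous'
    apply Continuous.mul
    · have := h.cont.comp_continuous (f := fun p : ℝ × ℝ => (pt r p.1, pt r p.2))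
        (by
          have := continuous_pt r
          fun_prop)
        (fun p => ⟨pt_mem hr.le hr1 _, pt_mem hr.le hr1 _⟩)
      exact this
    · fun_prop
  have hr' : ‖w‖ / r < 1 := (div_lt_one hr).mpr hw
  have h3 := hasSum_integral_bound
    (g := fun l α => coeff (U (pt r α)) l * Complex.exp (-(k : ℂ) * α * Complex.I) * w ^ l)
    (B := fun l => M * (‖w‖ / r) ^ l)
    (G := fun α => U (pt r α) w * Complex.exp (-(k : ℂ) * α * Complex.I))
    (fun l => by
      have := hcont l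
      fun_prop)
    ((summable_geometric_of_lt_one (by positivity) hr').mul_left M)
    (fun l α => by
      have e : -(k : ℂ) * α * Complex.I = ((-(k : ℝ) * α : ℝ) : ℂ) * Complex.I := by push_cast; ring
      rw [norm_mul, norm_mul, e, Complex.norm_exp_ofReal_mul_I, mul_one, norm_pow]
      have h6 := hcb l α
      have h7 : ‖coeff (U (pt r α)) l‖ ≤ M / r ^ l := by
        rw [le_div_iff₀ (by positivity)]; exact h6
      calc ‖coeff (U (pt r α)) l‖ * ‖w‖ ^ l ≤ M / r ^ l * ‖w‖ ^ l := by gcongr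
        _ = M * (‖w‖ / r) ^ l := by rw [div_pow]; ring)
    (fun α => by
      have := hasSum_coeff (h.right _ (pt_mem hr.le hr1 α)) (z := w) (by
        exact hw.trans hr1)
      have h8 := this.mul_right (Complex.exp (-(k : ℂ) * α * Complex.I))
      have e : (fun l => coeff (U (pt r α)) l * Complex.exp (-(k : ℂ) * α * Complex.I) * w ^ l)
          = fun l => coeff (fun w => U (pt r α) w) l * w ^ l
            * Complex.exp (-(k : ℂ) * α * Complex.I) := by
        funext l; ring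
      rw [e]
      exact h8)
  have e : (fun l : ℕ => (∫ α in (-π)..π, coeff (U (pt r α)) l
        * Complex.exp (-(k : ℂ) * α * Complex.I)) * w ^ l)
      = fun l : ℕ => ∫ α in (-π)..π, coeff (U (pt r α)) l
        * Complex.exp (-(k : ℂ) * α * Complex.I) * w ^ l := by
    funext l
    rw [intervalIntegral.integral_mul_const]
  rw [e]
  exact h3

theorem SepHol.coeff_diff {U : ℂ → ℂ → ℂ} (h : SepHol U) (k : ℕ) :
    DifferentiableOn ℂ (fun w => coeff (fun z => U z w) k) (ball 0 1) := by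
  intro w hw
  rw [mem_ball_zero_iff] at hw
  obtain ⟨r, hr1, hr2⟩ := exists_between hw
  have hr : 0 < r := (norm_nonneg w).trans_lt hr1
  have hr0 : (r : ℂ) ≠ 0 := by exact_mod_cast hr.ne'
  have hpi : (π : ℂ) ≠ 0 := by exact_mod_cast Real.pi_pos.ne'
  have hne : (2 * π * (r : ℂ) ^ k : ℂ) ≠ 0 :=
    mul_ne_zero (mul_ne_zero two_ne_zero hpi) (pow_ne_zero _ hr0)
  obtain ⟨a, ha⟩ : ∃ a : ℕ → ℂ, ∀ z : ℂ, ‖z‖ < r →
      HasSum (fun l => a l * z ^ l) (coeff (fun z' => U z' z) k) := by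
    refine ⟨fun l => (2 * π * (r : ℂ) ^ k)⁻¹ * ∫ α in (-π)..π, coeff (U (pt r α)) l
        * Complex.exp (-(k : ℂ) * α * Complex.I), fun z hz => ?_⟩
    have h1 := (h.param hr hr2 k hz).mul_left (2 * π * (r : ℂ) ^ k)⁻¹
    have e : (2 * π * (r : ℂ) ^ k)⁻¹ * (2 * π * (coeff (fun z' => U z' z) k * (r : ℂ) ^ k))
        = coeff (fun z' => U z' z) k := by
      field_simp
    rw [e] at h1
    have e2 : (fun l => (2 * π * (r : ℂ) ^ k)⁻¹ * (∫ α in (-π)..π, coeff (U (pt r α)) l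
        * Complex.exp (-(k : ℂ) * α * Complex.I)) * z ^ l)
        = fun l => (2 * π * (r : ℂ) ^ k)⁻¹ * ((∫ α in (-π)..π, coeff (U (pt r α)) l
        * Complex.exp (-(k : ℂ) * α * Complex.I)) * z ^ l) := by
      funext l; ring
    rw [e2]
    exact h1
  obtain ⟨r', hr1', hr2'⟩ := exists_between hr1
  have hr'0 : 0 < r' := (norm_nonneg w).trans_lt hr1'
  have hsum : Summable fun l => ‖a l‖ * r' ^ l := by
    have := (ha (r' : ℂ) (by rw [Complex.norm_real, Real.norm_of_nonneg hr'0.le]; exact hr2')).summable.norm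
    simpa [norm_mul, norm_pow, Complex.norm_real, abs_of_pos hr'0] using this
  have hd := Complex.differentiableOn_tsum_of_summable_norm (F := fun l z => a l * z ^ l) hsum
    (U := ball (0 : ℂ) r') (fun l => by fun_prop) isOpen_ball
    (fun l z hz => by
      rw [mem_ball_zero_iff] at hz
      rw [norm_mul, norm_pow]
      gcongr)
  have hww : w ∈ ball (0 : ℂ) r' := mem_ball_zero_iff.mpr hr1'
  have h2 := hd.differentiableAt (isOpen_ball.mem_nhds hww)
  apply DifferentiableAt.differentiableWithinAt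
  apply h2.congr_of_eventuallyEq
  filter_upwards [isOpen_ball.mem_nhds hww] with z hz
  rw [mem_ball_zero_iff] at hz
  exact (ha z (hz.trans hr2')).tsum_eq.symm

/-- the order of extracting coefficients does not matter -/
theorem SepHol.coeff_comm {U : ℂ → ℂ → ℂ} (h : SepHol U) (k l : ℕ) :
    coeff (fun w => coeff (fun z => U z w) k) l = coeff (fun z => coeff (fun w => U z w) l) k := by
  have hr0 : ((1 / 2 : ℝ) : ℂ) ≠ 0 := by norm_num
  have hpi : (π : ℂ) ≠ 0 := by exact_mod_cast Real.pi_pos.ne'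
  have hne : (2 * π * ((1 / 2 : ℝ) : ℂ) ^ k : ℂ) ≠ 0 :=
    mul_ne_zero (mul_ne_zero two_ne_zero hpi) (pow_ne_zero _ hr0)
  have h1 := coeff_eq_of_hasSum (f := fun w => 2 * π * (coeff (fun z => U z w) k * ((1 / 2 : ℝ) : ℂ) ^ k))
    (r := 1 / 2) (by norm_num) (fun w hw => h.param (r := 1 / 2) (by norm_num) (by norm_num) k hw) l
  have e1 : coeff (fun w => 2 * π * (coeff (fun z => U z w) k * ((1 / 2 : ℝ) : ℂ) ^ k)) l
      = (2 * π * ((1 / 2 : ℝ) : ℂ) ^ k) * coeff (fun w => coeff (fun z => U z w) k) l := by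
    rw [← coeff_const_mul]
    congr 1
    funext w
    ring
  rw [e1] at h1
  have h2 := circle_coeff (f := fun z => coeff (fun w => U z w) l) (h.swap.coeff_diff l)
    (r := 1 / 2) (by norm_num) (by norm_num) k
  rw [h2] at h1
  have : (2 * π * ((1 / 2 : ℝ) : ℂ) ^ k) * coeff (fun w => coeff (fun z => U z w) k) l
      = (2 * π * ((1 / 2 : ℝ) : ℂ) ^ k) * coeff (fun z => coeff (fun w => U z w) l) k := by
    rw [h1]; ring
  exact mul_left_cancel₀ hne this

/-- double Taylor coefficients -/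
noncomputable def dcoeff (U : ℂ → ℂ → ℂ) (k l : ℕ) : ℂ :=
  coeff (fun z => coeff (fun w => U z w) l) k

theorem SepHol.dcoeff_bound {U : ℂ → ℂ → ℂ} (h : SepHol U) {r : ℝ} (hr : 0 < r) (hr1 : r < 1) :
    ∃ M : ℝ, 0 ≤ M ∧ ∀ k l : ℕ, ‖dcoeff U k l‖ * r ^ k * r ^ l ≤ M := by
  obtain ⟨M, hM0, hM⟩ := h.bound hr1
  refine ⟨M, hM0, fun k l => ?_⟩
  have h1 : ∀ z, ‖z‖ ≤ r → ‖coeff (fun w => U z w) l‖ ≤ M / r ^ l := by
    intro z hz
    rw [le_div_iff₀ (by positivity)]
    exact coeff_bound (h.right z (mem_ball_zero_iff.mpr (hz.trans_lt hr1))) hr hr1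
      (fun w hw => hM z w hz hw) l
  have h2 := coeff_bound (f := fun z => coeff (fun w => U z w) l) (h.swap.coeff_diff l) hr hr1 h1 k
  rw [le_div_iff₀ (by positivity)] at h2
  exact h2

theorem SepHol.hasSum_left {U : ℂ → ℂ → ℂ} (h : SepHol U) {z : ℂ} (hz : ‖z‖ < 1) (l : ℕ) :
    HasSum (fun k => dcoeff U k l * z ^ k) (coeff (fun w => U z w) l) :=
  hasSum_coeff (f := fun z => coeff (fun w => U z w) l) (h.swap.coeff_diff l) hz

/-- the diagonal -/
theorem SepHol.hasSum_diag {U : ℂ → ℂ → ℂ} (h : SepHol U) (m : ℕ) :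
    coeff (fun z => U z z) m = ∑ k ∈ Finset.range (m + 1), dcoeff U k (m - k) := by
  apply coeff_eq_of_hasSum (r := 1 / 4) (by norm_num)
    (a := fun m => ∑ k ∈ Finset.range (m + 1), dcoeff U k (m - k))
  intro z hz
  obtain ⟨M, hM0, hM⟩ := h.dcoeff_bound (r := 1 / 2) (by norm_num) (by norm_num)
  have hz1 : ‖z‖ < 1 := by linarith
  have hb : ∀ k l : ℕ, ‖dcoeff U k l * z ^ k * z ^ l‖ ≤ M * ((2 * ‖z‖) ^ k * (2 * ‖z‖) ^ l) := by
    intro k l
    rw [norm_mul, norm_mul, norm_pow, norm_pow]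
    have h1 := hM k l
    have h2 : ‖dcoeff U k l‖ ≤ M * (2 ^ k * 2 ^ l) := by
      have e : ‖dcoeff U k l‖ = (‖dcoeff U k l‖ * (1 / 2) ^ k * (1 / 2) ^ l) * (2 ^ k * 2 ^ l) := by
        rw [one_div, inv_pow, inv_pow]
        field_simp
      rw [e]
      exact mul_le_mul_of_nonneg_right h1 (by positivity)
    calc ‖dcoeff U k l‖ * ‖z‖ ^ k * ‖z‖ ^ l ≤ M * (2 ^ k * 2 ^ l) * ‖z‖ ^ k * ‖z‖ ^ l := by gcongr
      _ = M * ((2 * ‖z‖) ^ k * (2 * ‖z‖) ^ l) := by rw [mul_pow, mul_pow]; ring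
  have hg : Summable fun k : ℕ => (2 * ‖z‖) ^ k :=
    summable_geometric_of_lt_one (by positivity) (by linarith)
  have hs : Summable fun p : ℕ × ℕ => dcoeff U p.1 p.2 * z ^ p.1 * z ^ p.2 := by
    apply Summable.of_norm_bounded ((hg.mul_of_nonneg hg (fun _ => by positivity)
      (fun _ => by positivity)).mul_left M)
    intro p
    exact hb p.1 p.2
  have h1 : HasSum (fun p : ℕ × ℕ => dcoeff U p.1 p.2 * z ^ p.1 * z ^ p.2) (U z z) := by
    have h2 := hs.hasSum
    have h3 : ∑' p : ℕ × ℕ, dcoeff U p.1 p.2 * z ^ p.1 * z ^ p.2 = U z z := by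
      have e0 : ∑' p : ℕ × ℕ, dcoeff U p.1 p.2 * z ^ p.1 * z ^ p.2
          = ∑' p : ℕ × ℕ, dcoeff U p.2 p.1 * z ^ p.2 * z ^ p.1 :=
        ((Equiv.prodComm ℕ ℕ).tsum_eq
          (fun p : ℕ × ℕ => dcoeff U p.1 p.2 * z ^ p.1 * z ^ p.2)).symm
      have hs' : Summable fun p : ℕ × ℕ => dcoeff U p.2 p.1 * z ^ p.2 * z ^ p.1 :=
        (Equiv.prodComm ℕ ℕ).summable_iff.mpr hs
      rw [e0, Summable.tsum_prod hs']
      have h4 : ∀ l : ℕ, ∑' k : ℕ, dcoeff U k l * z ^ k * z ^ l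
          = coeff (fun w => U z w) l * z ^ l := by
        intro l
        rw [tsum_mul_right, (h.hasSum_left hz1 l).tsum_eq]
      simp_rw [h4]
      exact (hasSum_coeff (h.right z (mem_ball_zero_iff.mpr hz1)) hz1).tsum_eq
    rw [h3] at h2
    exact h2
  have h5 := hs.norm
  have h6 := (Finset.HasAntidiagonal.sigmaAntidiagonalEquivProd (A := ℕ)).hasSum_iff.mpr h1
  have h7 := h6.sigma (g := fun m => (∑ k ∈ Finset.range (m + 1), dcoeff U k (m - k)) * z ^ m) (by
    intro m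
    have h8 := hasSum_fintype (fun c : {x : ℕ × ℕ // x ∈ Finset.HasAntidiagonal.antidiagonal m} =>
      dcoeff U (c : ℕ × ℕ).1 (c : ℕ × ℕ).2 * z ^ (c : ℕ × ℕ).1 * z ^ (c : ℕ × ℕ).2)
    have h9 : ∑ c : {x : ℕ × ℕ // x ∈ Finset.HasAntidiagonal.antidiagonal m}, dcoeff U (c : ℕ × ℕ).1 (c : ℕ × ℕ).2
        * z ^ (c : ℕ × ℕ).1 * z ^ (c : ℕ × ℕ).2
        = (∑ k ∈ Finset.range (m + 1), dcoeff U k (m - k)) * z ^ m := by
      rw [Finset.sum_coe_sort (Finset.HasAntidiagonal.antidiagonal m)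
        (fun c : ℕ × ℕ => dcoeff U c.1 c.2 * z ^ c.1 * z ^ c.2)]
      rw [Finset.Nat.sum_antidiagonal_eq_sum_range_succ
        (fun k l => dcoeff U k l * z ^ k * z ^ l), Finset.sum_mul]
      apply Finset.sum_congr rfl
      intro k hk
      rw [Finset.mem_range] at hk
      rw [mul_assoc, ← pow_add]
      congr 2
      omega
    rw [h9] at h8
    exact h8)
  exact h7

end Pool.Agent.Helper22.Marshall

end

section


/-!
The logarithm of the two point function `(φ ζ - φ ω)/(ζ⁻¹ - ω⁻¹)`.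
-/

set_option autoImplicit false

open MeasureTheory Set Metric Filter Topology
open scoped ENNReal NNReal Real Nat

namespace Pool.Agent.Helper22.Marshall

open Pool.Agent.Helper39.Area (Ext phi dphi qq_ne qq_diff dslope_cont eq_zero_of_exp_one)

theorem differentiableOn_of_exp {f : ℂ → ℂ} {s : Set ℂ} (hs : IsOpen s) (hf : ContinuousOn f s)
    (he : DifferentiableOn ℂ (fun z => Complex.exp (f z)) s) : DifferentiableOn ℂ f s := by
  intro z hz
  apply DifferentiableAt.differentiableWithinAt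
  have hfz : ContinuousAt f z := hf.continuousAt (hs.mem_nhds hz)
  have hez : DifferentiableAt ℂ (fun z => Complex.exp (f z)) z := he.differentiableAt (hs.mem_nhds hz)
  have h1 : DifferentiableAt ℂ (fun w => f z + Complex.log (Complex.exp (f w) * Complex.exp (-f z))) z := by
    apply DifferentiableAt.const_add
    apply DifferentiableAt.clog
    · exact hez.mul_const _
    · rw [← Complex.exp_add, add_neg_cancel, Complex.exp_zero]
      exact Complex.one_mem_slitPlane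
  apply h1.congr_of_eventuallyEq
  have h2 : ∀ᶠ w in 𝓝 z, ‖f w - f z‖ < 1 := by
    have h3 : ContinuousAt (fun w => ‖f w - f z‖) z := (hfz.sub continuousAt_const).norm
    have h4 : ‖f z - f z‖ < 1 := by simp
    exact h3.eventually_lt continuousAt_const h4
  filter_upwards [h2] with w hw
  rw [← Complex.exp_add, Complex.log_exp]
  · ring
  · have h5 := Complex.abs_im_le_norm (f w - f z)
    have h6 := (abs_lt.mp (h5.trans_lt hw)).1
    have hpi := Real.pi_gt_three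
    rw [← sub_eq_add_neg]
    linarith
  · have h5 := Complex.abs_im_le_norm (f w - f z)
    have h6 := (abs_lt.mp (h5.trans_lt hw)).2
    have hpi := Real.pi_gt_three
    rw [← sub_eq_add_neg]
    linarith

theorem qq_symm (β : ℂ → ℂ) (a b : ℂ) :
    Pool.Agent.Helper39.Area.qq β a b = Pool.Agent.Helper39.Area.qq β b a := by
  unfold Pool.Agent.Helper39.Area.qq
  by_cases h : a = b
  · subst h; rfl
  · have e : dslope β a b = dslope β b a := by
      rw [dslope_of_ne _ (Ne.symm h), dslope_of_ne _ h, slope_comm]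
    rw [e]; ring

/-- the data of the logarithm of the two point function -/
structure LogPhi (β H : ℂ → ℂ) (Φ : ℂ → ℂ → ℂ) : Prop where
  sep : SepHol Φ
  exp_eq : ∀ a ∈ ball (0 : ℂ) 1, ∀ b ∈ ball (0 : ℂ) 1,
    Complex.exp (Φ a b) = Pool.Agent.Helper39.Area.qq β a b
  zero_right : ∀ a ∈ ball (0 : ℂ) 1, Φ a 0 = 0
  symm : ∀ a ∈ ball (0 : ℂ) 1, ∀ b ∈ ball (0 : ℂ) 1, Φ a b = Φ b a
  diag : ∀ a ∈ ball (0 : ℂ) 1, Φ a a = H a

theorem exists_logPhi {β : ℂ → ℂ} (h : Ext β) {H : ℂ → ℂ} (hH : ContinuousOn H (ball 0 1))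
    (hH0 : H 0 = 0)
    (hexp : ∀ ζ ∈ ball (0 : ℂ) 1, Complex.exp (H ζ) = 1 - ζ ^ 2 * deriv β ζ) :
    ∃ Φ : ℂ → ℂ → ℂ, LogPhi β H Φ := by
  set U : Set (ℂ × ℂ) := ball 0 1 ×ˢ ball 0 1 with hU
  have hUo : IsOpen U := isOpen_ball.prod isOpen_ball
  have hUconv : Convex ℝ U := (convex_ball _ _).prod (convex_ball _ _)
  have h00 : ((0:ℂ), (0:ℂ)) ∈ U := ⟨mem_ball_self one_pos, mem_ball_self one_pos⟩
  have h0b : (0:ℂ) ∈ ball (0:ℂ) 1 := mem_ball_self one_pos
  have hUs : IsSimplyConnected U := by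
    have hc : ContractibleSpace U := hUconv.contractibleSpace ⟨_, h00⟩
    show SimplyConnectedSpace U
    infer_instance
  have hqc : ContinuousOn (fun p : ℂ × ℂ => Pool.Agent.Helper39.Area.qq β p.1 p.2) U := by
    unfold Pool.Agent.Helper39.Area.qq
    apply ContinuousOn.sub continuousOn_const
    apply ContinuousOn.mul (by fun_prop)
    exact dslope_cont h.diff
  have hq0 : 0 ∉ (fun p : ℂ × ℂ => Pool.Agent.Helper39.Area.qq β p.1 p.2) '' U := by
    rintro ⟨p, ⟨hp1, hp2⟩, hp⟩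
    exact qq_ne h hp1 hp2 hp
  obtain ⟨Φ, hΦc, hΦ⟩ := Complex.exists_continuousOn_eqOn_exp_comp hUs hUo hqc hq0
  have hΦe : ∀ b ∈ ball (0:ℂ) 1, ∀ ζ ∈ ball (0:ℂ) 1,
      Complex.exp (Φ (b, ζ)) = Pool.Agent.Helper39.Area.qq β b ζ :=
    fun b hb ζ hζ => hΦ (show (b, ζ) ∈ U from ⟨hb, hζ⟩)
  have hq00 : ∀ a : ℂ, Pool.Agent.Helper39.Area.qq β a 0 = 1 := by
    intro a; simp [Pool.Agent.Helper39.Area.qq]
  have hΨe : ∀ a ∈ ball (0:ℂ) 1, ∀ b ∈ ball (0:ℂ) 1,
      Complex.exp (Φ (a, b) - Φ (0, 0)) = Pool.Agent.Helper39.Area.qq β a b := by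
    intro a ha b hb
    rw [Complex.exp_sub, hΦe a ha b hb, hΦe 0 h0b 0 h0b, hq00, div_one]
  have hΨc : ContinuousOn (fun p : ℂ × ℂ => Φ (p.1, p.2) - Φ (0, 0)) U := by
    have : ContinuousOn (fun p : ℂ × ℂ => Φ (p.1, p.2)) U := hΦc
    exact this.sub continuousOn_const
  have hright : ∀ a ∈ ball (0:ℂ) 1,
      DifferentiableOn ℂ (fun b => Φ (a, b) - Φ (0, 0)) (ball 0 1) := by
    intro a ha
    apply differentiableOn_of_exp isOpen_ball
    · exact hΨc.comp (f := fun b => (a, b)) (by fun_prop) (fun b hb => ⟨ha, hb⟩)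
    · apply (qq_diff h.diff ha).congr
      intro b hb
      exact hΨe a ha b hb
  have hleft : ∀ b ∈ ball (0:ℂ) 1,
      DifferentiableOn ℂ (fun a => Φ (a, b) - Φ (0, 0)) (ball 0 1) := by
    intro b hb
    apply differentiableOn_of_exp isOpen_ball
    · exact hΨc.comp (f := fun a => (a, b)) (by fun_prop) (fun a ha => ⟨ha, hb⟩)
    · apply (qq_diff h.diff hb).congr
      intro a ha
      rw [hΨe a ha b hb, qq_symm]
  refine ⟨fun a b => Φ (a, b) - Φ (0, 0), ⟨hΨc, hleft, hright⟩, hΨe, ?_, ?_, ?_⟩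
  · apply eq_zero_of_exp_one (convex_ball (0:ℂ) 1).isPreconnected _ _ h0b (by simp)
    · exact hΨc.comp (f := fun a => (a, 0)) (by fun_prop) (fun a ha => ⟨ha, h0b⟩)
    · intro a ha
      rw [hΨe a ha 0 h0b, hq00]
  · have h1 : ∀ p ∈ U, (Φ (p.1, p.2) - Φ (0, 0)) - (Φ (p.2, p.1) - Φ (0, 0)) = 0 := by
      apply eq_zero_of_exp_one hUconv.isPreconnected _ _ h00 (by simp)
      · apply hΨc.sub
        exact hΨc.comp (f := fun p : ℂ × ℂ => (p.2, p.1)) (by fun_prop) (fun p hp => ⟨hp.2, hp.1⟩)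
      · rintro ⟨a, b⟩ ⟨ha, hb⟩
        simp only at ha hb ⊢
        rw [Complex.exp_sub, hΨe a ha b hb, hΨe b hb a ha, qq_symm β a b, div_self]
        exact qq_ne h hb ha
    intro a ha b hb
    have := h1 (a, b) ⟨ha, hb⟩
    simp only at this
    exact sub_eq_zero.mp this
  · have h1 : ∀ a ∈ ball (0:ℂ) 1, (Φ (a, a) - Φ (0, 0)) - H a = 0 := by
      apply eq_zero_of_exp_one (convex_ball (0:ℂ) 1).isPreconnected _ _ h0b (by simp [hH0])
      · apply ContinuousOn.sub _ hH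
        exact hΨc.comp (f := fun a => (a, a)) (by fun_prop) (fun a ha => ⟨ha, ha⟩)
      · intro a ha
        rw [Complex.exp_sub, hΨe a ha a ha, hexp a ha]
        have e : Pool.Agent.Helper39.Area.qq β a a = 1 - a ^ 2 * deriv β a := by
          unfold Pool.Agent.Helper39.Area.qq
          rw [dslope_same]; ring
        rw [e, div_self (h.ne a ha)]
    intro a ha
    exact sub_eq_zero.mp (h1 a ha)

end Pool.Agent.Helper22.Marshall

end

section


/-!
Coefficients of `(1 - x)^{-z}` and algebraic identities for palindromic sequences.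
-/

set_option autoImplicit false

namespace Pool.Agent.Helper22.Half

section generic
variable {𝕜 : Type*} [Field 𝕜] [CharZero 𝕜]

/-- coefficients of `(1-x)^{-z}` -/
def pq (z : 𝕜) : ℕ → 𝕜
  | 0 => 1
  | n + 1 => pq z n * ((z + n) / (n + 1))

omit [CharZero 𝕜] in
theorem pq_zero (z : 𝕜) : pq z 0 = 1 := rfl

omit [CharZero 𝕜] in
theorem pq_succ (z : 𝕜) (n : ℕ) : pq z (n + 1) = pq z n * ((z + n) / (n + 1)) := rfl

theorem pq_succ' (z : 𝕜) (n : ℕ) : ((n : 𝕜) + 1) * pq z (n + 1) = pq z n * (z + n) := by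
  rw [pq_succ]
  have : (n : 𝕜) + 1 ≠ 0 := Nat.cast_add_one_ne_zero n
  field_simp

theorem pq_shift (z : 𝕜) (n : ℕ) : ((n : 𝕜) + 1) * pq z (n + 1) = z * pq (z + 1) n := by
  induction n with
  | zero => simp [pq]
  | succ n ih =>
    rw [pq_succ', pq_succ (z + 1) n]
    have h : (n : 𝕜) + 1 ≠ 0 := Nat.cast_add_one_ne_zero n
    have e : z * (pq (z + 1) n * ((z + 1 + n) / (n + 1)))
        = (z * pq (z + 1) n) * ((z + 1 + n) / (n + 1)) := by ring
    rw [e, ← ih]
    push_cast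
    field_simp
    ring

theorem pq_add_one (z : 𝕜) (n : ℕ) : z * pq (z + 1) n = pq z n * (z + n) := by
  rw [← pq_shift, pq_succ']

theorem pq_one (n : ℕ) : pq (1 : 𝕜) n = 1 := by
  induction n with
  | zero => rfl
  | succ n ih =>
    rw [pq_succ, ih]
    have h : (n : 𝕜) + 1 ≠ 0 := Nat.cast_add_one_ne_zero n
    rw [add_comm (1 : 𝕜), div_self h, one_mul]

theorem pq_two (n : ℕ) : pq (2 : 𝕜) n = n + 1 := by
  have h := pq_add_one (1 : 𝕜) n
  rw [pq_one, one_mul, one_mul, one_add_one_eq_two] at h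
  rw [h]; ring

/-- Vandermonde's identity -/
theorem vander (z w : 𝕜) (M : ℕ) :
    ∑ k ∈ Finset.range (M + 1), pq z k * pq w (M - k) = pq (z + w) M := by
  induction M with
  | zero => simp [pq]
  | succ M ih =>
    have h1 : ∑ k ∈ Finset.range (M + 2), (k : 𝕜) * (pq z k * pq w (M + 1 - k))
        = ∑ k ∈ Finset.range (M + 1), (z + k) * (pq z k * pq w (M - k)) := by
      rw [Finset.sum_range_succ']
      simp only [Nat.cast_zero, zero_mul, add_zero]
      apply Finset.sum_congr rfl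
      intro k _
      have e : M + 1 - (k + 1) = M - k := by omega
      rw [e]
      have := pq_succ' z k
      push_cast
      linear_combination (pq w (M - k)) * this
    have h2 : ∑ k ∈ Finset.range (M + 2), ((M + 1 - k : ℕ) : 𝕜) * (pq z k * pq w (M + 1 - k))
        = ∑ k ∈ Finset.range (M + 1), (w + (M - k : ℕ)) * (pq z k * pq w (M - k)) := by
      rw [Finset.sum_range_succ]
      simp only [Nat.sub_self, Nat.cast_zero, zero_mul, add_zero]
      apply Finset.sum_congr rfl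
      intro k hk
      rw [Finset.mem_range] at hk
      have e : M + 1 - k = (M - k) + 1 := by omega
      rw [e]
      have := pq_succ' w (M - k)
      push_cast at this ⊢
      linear_combination (pq z k) * this
    have h3 : ((M : 𝕜) + 1) * ∑ k ∈ Finset.range (M + 2), pq z k * pq w (M + 1 - k)
        = (z + w + M) * ∑ k ∈ Finset.range (M + 1), pq z k * pq w (M - k) := by
      have e1 : ((M : 𝕜) + 1) * ∑ k ∈ Finset.range (M + 2), pq z k * pq w (M + 1 - k)
          = ∑ k ∈ Finset.range (M + 2), (k : 𝕜) * (pq z k * pq w (M + 1 - k))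
            + ∑ k ∈ Finset.range (M + 2), ((M + 1 - k : ℕ) : 𝕜) * (pq z k * pq w (M + 1 - k)) := by
        rw [← Finset.sum_add_distrib, Finset.mul_sum]
        apply Finset.sum_congr rfl
        intro k hk
        rw [Finset.mem_range] at hk
        rw [Nat.cast_sub (by omega)]
        push_cast
        ring
      rw [e1, h1, h2, ← Finset.sum_add_distrib, Finset.mul_sum]
      apply Finset.sum_congr rfl
      intro k hk
      rw [Finset.mem_range] at hk
      rw [Nat.cast_sub (by omega)]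
      ring
    rw [ih] at h3
    have h4 := pq_succ' (z + w) M
    have h5 : ((M : 𝕜) + 1) ≠ 0 := Nat.cast_add_one_ne_zero M
    apply mul_left_cancel₀ h5
    rw [h3, h4]
    ring

end generic

/-- the coefficients `A_{M,k}` of the partial fraction expansion -/
noncomputable def Ac (s : ℂ) (M k : ℕ) : ℂ :=
  ((M - k : ℕ) : ℂ) * pq (1 + s) (M - k) * pq (-s) k

theorem conv_one (s : ℂ) (M : ℕ) :
    ∑ k ∈ Finset.range (M + 1), pq (1 + s) (M - k) * pq (-s) k = 1 := by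
  have h := vander (-s) (1 + s) M
  have e : -s + (1 + s) = 1 := by ring
  rw [e, pq_one] at h
  refine Eq.trans ?_ h
  apply Finset.sum_congr rfl
  intro k _
  ring

theorem conv_moment (s : ℂ) (M : ℕ) :
    ∑ k ∈ Finset.range M, Ac s M k = (1 + s) * M := by
  cases M with
  | zero => simp
  | succ M =>
    have h := vander (-s) (2 + s) M
    have e : -s + (2 + s) = 2 := by ring
    rw [e, pq_two] at h
    push_cast
    rw [← h, Finset.mul_sum]
    apply Finset.sum_congr rfl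
    intro k hk
    rw [Finset.mem_range] at hk
    unfold Ac
    have e2 : M + 1 - k = (M - k) + 1 := by omega
    rw [e2]
    have h2 := pq_shift (1 + s) (M - k)
    have e3 : (1 + s + 1 : ℂ) = 2 + s := by ring
    rw [e3] at h2
    push_cast
    linear_combination (pq (-s) k) * h2

theorem Ac_succ (s : ℂ) {M k : ℕ} (hk : k < M) :
    Ac s (M + 1) k * ((M - k : ℕ) : ℂ) = Ac s M k * (((M - k : ℕ) : ℂ) + (1 + s)) := by
  unfold Ac
  have e : M + 1 - k = (M - k) + 1 := by omega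
  rw [e]
  have h := pq_succ' (1 + s) (M - k)
  push_cast
  linear_combination (pq (-s) k * ((M - k : ℕ) : ℂ)) * h

/-- partial fraction expansion of a quotient of coefficients -/
theorem partial_frac (s : ℂ) (p : ℕ) (hs : ∀ k : ℕ, ((p + k : ℕ) : ℂ) - s ≠ 0) (M : ℕ) :
    pq (-s) p = pq (-s) (p + M) * (1 + ∑ k ∈ Finset.range M, Ac s M k / (((p + k : ℕ) : ℂ) - s)) := by
  induction M with
  | zero => simp
  | succ M ih =>
    have hne := hs M
    have hpM : pq (-s) (p + M) * (((p + M : ℕ) : ℂ) - s)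
        = pq (-s) (p + M + 1) * (((p + M : ℕ) : ℂ) + 1) := by
      have := pq_succ' (-s) (p + M)
      linear_combination -this
    have h1 : pq (-s) (p + M) = pq (-s) (p + (M + 1)) * ((((p + M : ℕ) : ℂ) + 1)
        / (((p + M : ℕ) : ℂ) - s)) := by
      rw [← add_assoc, mul_div_assoc', eq_div_iff hne, hpM]
    rw [ih, h1, mul_assoc]
    congr 1
    -- the coefficient identity
    have h2 : ∀ k ∈ Finset.range M, Ac s M k / (((p + k : ℕ) : ℂ) - s)
        * ((((p + M : ℕ) : ℂ) + 1) / (((p + M : ℕ) : ℂ) - s))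
        = Ac s (M + 1) k / (((p + k : ℕ) : ℂ) - s)
          - (1 + s) * (pq (1 + s) (M - k) * pq (-s) k) / (((p + M : ℕ) : ℂ) - s) := by
      intro k hk
      rw [Finset.mem_range] at hk
      have hk1 := hs k
      have hMk : ((M - k : ℕ) : ℂ) ≠ 0 := by
        have : M - k ≠ 0 := by omega
        exact_mod_cast this
      have e1 : Ac s (M + 1) k = Ac s M k * (((M - k : ℕ) : ℂ) + (1 + s)) / ((M - k : ℕ) : ℂ) := by
        rw [eq_div_iff hMk, Ac_succ s hk]
      have e2 : pq (1 + s) (M - k) * pq (-s) k = Ac s M k / ((M - k : ℕ) : ℂ) := by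
        rw [eq_div_iff hMk]
        unfold Ac; ring
      rw [e1, e2]
      have e3 : ((p + M : ℕ) : ℂ) = ((p + k : ℕ) : ℂ) + ((M - k : ℕ) : ℂ) := by
        rw [← Nat.cast_add]; congr 1; omega
      rw [e3] at hne ⊢
      field_simp
      ring
    rw [mul_add, mul_one, mul_comm _ (∑ k ∈ Finset.range M, _), Finset.sum_mul,
      Finset.sum_congr rfl h2, Finset.sum_sub_distrib, Finset.sum_range_succ (fun k => Ac s (M + 1) k / _)]
    have h3 : ∑ k ∈ Finset.range M, (1 + s) * (pq (1 + s) (M - k) * pq (-s) k)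
        / (((p + M : ℕ) : ℂ) - s) = (1 + s) * (1 - pq (-s) M) / (((p + M : ℕ) : ℂ) - s) := by
      rw [← Finset.sum_div, ← Finset.mul_sum]
      have h4 := conv_one s M
      rw [Finset.sum_range_succ, Nat.sub_self, pq_zero, one_mul] at h4
      have h4' : ∑ k ∈ Finset.range M, pq (1 + s) (M - k) * pq (-s) k = 1 - pq (-s) M := by
        linear_combination h4
      rw [h4']
    rw [h3]
    have h5 : Ac s (M + 1) M = (1 + s) * pq (-s) M := by
      unfold Ac
      have : M + 1 - M = 1 := by omega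
      rw [this]
      simp [pq]
    rw [h5]
    field_simp
    ring

theorem sum_tri (f : ℕ → ℕ → ℂ) (m : ℕ) :
    ∑ l ∈ Finset.range (m + 1), ∑ k ∈ Finset.range (m - l), f l (l + k)
      = ∑ i ∈ Finset.range m, ∑ l ∈ Finset.range (i + 1), f l i := by
  rw [Finset.sum_sigma', Finset.sum_sigma']
  apply Finset.sum_bij' (i := fun (x : (_ : ℕ) × ℕ) _ => (⟨x.1 + x.2, x.1⟩ : (_ : ℕ) × ℕ))
    (j := fun (x : (_ : ℕ) × ℕ) _ => (⟨x.2, x.1 - x.2⟩ : (_ : ℕ) × ℕ))
  · rintro ⟨l, k⟩ h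
    simp only [Finset.mem_sigma, Finset.mem_range] at h ⊢
    omega
  · rintro ⟨i, l⟩ h
    simp only [Finset.mem_sigma, Finset.mem_range] at h ⊢
    omega
  · rintro ⟨l, k⟩ h
    simp only [Finset.mem_sigma, Finset.mem_range] at h ⊢
    simp
  · rintro ⟨i, l⟩ h
    simp only [Finset.mem_sigma, Finset.mem_range] at h ⊢
    have : l + (i - l) = i := by omega
    simp [this]
  · rintro ⟨l, k⟩ h
    simp

/-- the sequence `V_i = ∑_{l ≤ min(i,m)} c_{i-l} d_l` -/
noncomputable def Vd (s : ℂ) (d : ℕ → ℂ) (m i : ℕ) : ℂ :=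
  ∑ l ∈ Finset.range (min i m + 1), pq (-s) (i - l) * d l

theorem g_formula (s : ℂ) (d : ℕ → ℂ) (m : ℕ) (hd : ∀ l ≤ m, d l = d (m - l)) :
    (1 + s) * (m * ∑ l ∈ Finset.range (m + 1), d l) / 2
      = ∑ i ∈ Finset.range m, ((m - i : ℕ) : ℂ) * pq (1 + s) (m - i) * Vd s d m i := by
  have h1 : ∑ l ∈ Finset.range (m + 1), ((m - l : ℕ) : ℂ) * d l
      = m * (∑ l ∈ Finset.range (m + 1), d l) / 2 := by
    have h2 : ∑ l ∈ Finset.range (m + 1), ((m - l : ℕ) : ℂ) * d l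
        = ∑ l ∈ Finset.range (m + 1), (l : ℂ) * d l := by
      rw [← Finset.sum_range_reflect]
      apply Finset.sum_congr rfl
      intro l hl
      rw [Finset.mem_range] at hl
      have e1 : m + 1 - 1 - l = m - l := by omega
      have e2 : m - (m - l) = l := by omega
      rw [e1, e2, ← hd l (by omega)]
    have h3 : ∑ l ∈ Finset.range (m + 1), ((m - l : ℕ) : ℂ) * d l
        + ∑ l ∈ Finset.range (m + 1), (l : ℂ) * d l = m * ∑ l ∈ Finset.range (m + 1), d l := by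
      rw [← Finset.sum_add_distrib, Finset.mul_sum]
      apply Finset.sum_congr rfl
      intro l hl
      rw [Finset.mem_range] at hl
      rw [Nat.cast_sub (by omega)]
      ring
    rw [← h2] at h3
    linear_combination h3 / 2
  have h4 : (1 + s) * (m * ∑ l ∈ Finset.range (m + 1), d l) / 2
      = ∑ l ∈ Finset.range (m + 1), ∑ k ∈ Finset.range (m - l), Ac s (m - l) k * d l := by
    rw [mul_div_assoc, ← h1, Finset.mul_sum]
    apply Finset.sum_congr rfl
    intro l _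
    rw [← Finset.sum_mul, conv_moment]
    ring
  rw [h4]
  have h5 := sum_tri (fun l i => ((m - i : ℕ) : ℂ) * pq (1 + s) (m - i) * pq (-s) (i - l) * d l) m
  have h6 : ∑ l ∈ Finset.range (m + 1), ∑ k ∈ Finset.range (m - l), Ac s (m - l) k * d l
      = ∑ l ∈ Finset.range (m + 1), ∑ k ∈ Finset.range (m - l),
        ((m - (l + k) : ℕ) : ℂ) * pq (1 + s) (m - (l + k)) * pq (-s) (l + k - l) * d l := by
    apply Finset.sum_congr rfl
    intro l _
    apply Finset.sum_congr rfl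
    intro k _
    unfold Ac
    have e1 : m - l - k = m - (l + k) := by omega
    have e2 : l + k - l = k := by omega
    rw [e1, e2]
  rw [h6, h5]
  apply Finset.sum_congr rfl
  intro i hi
  rw [Finset.mem_range] at hi
  unfold Vd
  have e : min i m = i := by omega
  rw [e, Finset.mul_sum]
  apply Finset.sum_congr rfl
  intro l _
  ring

/-- the values beyond the palindrome in terms of those before -/
theorem V_formula (s : ℂ) (d : ℕ → ℂ) (m j : ℕ) (hm : 1 ≤ m) (h1s : 1 + s ≠ 0)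
    (hd : ∀ l ≤ m, d l = d (m - l)) (hs : ∀ k : ℕ, ((j + k : ℕ) : ℂ) - s ≠ 0) :
    Vd s d m (m + j) = pq (-s) (m + j) * ∑ i ∈ Finset.range m,
      ((m - i : ℕ) : ℂ) * pq (1 + s) (m - i) * Vd s d m i
        * (2 / (m * (1 + s)) + 1 / (((j + i : ℕ) : ℂ) - s)) := by
  have hm0 : (m : ℂ) ≠ 0 := by
    have : m ≠ 0 := by omega
    exact_mod_cast this
  -- reflect
  have h1 : Vd s d m (m + j) = ∑ l ∈ Finset.range (m + 1), pq (-s) (j + l) * d l := by
    unfold Vd
    have e : min (m + j) m = m := by omega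
    rw [e, ← Finset.sum_range_reflect]
    apply Finset.sum_congr rfl
    intro l hl
    rw [Finset.mem_range] at hl
    have e1 : m + 1 - 1 - l = m - l := by omega
    have e2 : m + j - (m - l) = j + l := by omega
    rw [e1, e2, ← hd l (by omega)]
  have h2 : ∀ l ∈ Finset.range (m + 1), pq (-s) (j + l) * d l = pq (-s) (m + j) * (d l
      + ∑ k ∈ Finset.range (m - l), Ac s (m - l) k * d l / (((j + (l + k) : ℕ) : ℂ) - s)) := by
    intro l hl
    rw [Finset.mem_range] at hl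
    have h3 := partial_frac s (j + l) (fun k => by
      have := hs (l + k)
      rwa [← add_assoc] at this) (m - l)
    have e1 : j + l + (m - l) = m + j := by omega
    rw [e1] at h3
    rw [h3, mul_assoc]
    congr 1
    rw [add_mul, one_mul, Finset.sum_mul]
    congr 1
    apply Finset.sum_congr rfl
    intro k _
    rw [add_assoc]
    ring
  rw [h1, Finset.sum_congr rfl h2, ← Finset.mul_sum, Finset.sum_add_distrib]
  congr 1
  have h5 := sum_tri (fun l i => ((m - i : ℕ) : ℂ) * pq (1 + s) (m - i) * pq (-s) (i - l) * d l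
    / (((j + i : ℕ) : ℂ) - s)) m
  have h6 : ∑ l ∈ Finset.range (m + 1), ∑ k ∈ Finset.range (m - l), Ac s (m - l) k * d l
        / (((j + (l + k) : ℕ) : ℂ) - s)
      = ∑ l ∈ Finset.range (m + 1), ∑ k ∈ Finset.range (m - l),
        ((m - (l + k) : ℕ) : ℂ) * pq (1 + s) (m - (l + k)) * pq (-s) (l + k - l) * d l
          / (((j + (l + k) : ℕ) : ℂ) - s) := by
    apply Finset.sum_congr rfl
    intro l _
    apply Finset.sum_congr rfl
    intro k _
    unfold Ac
    have e1 : m - l - k = m - (l + k) := by omega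
    have e2 : l + k - l = k := by omega
    rw [e1, e2]
  rw [h6, h5]
  have h7 := g_formula s d m hd
  have h8 : ∑ l ∈ Finset.range (m + 1), d l = (2 / (m * (1 + s))) *
      ∑ i ∈ Finset.range m, ((m - i : ℕ) : ℂ) * pq (1 + s) (m - i) * Vd s d m i := by
    rw [← h7]
    field_simp
  rw [h8, Finset.mul_sum, ← Finset.sum_add_distrib]
  apply Finset.sum_congr rfl
  intro i hi
  rw [Finset.mem_range] at hi
  have h9 : ∑ l ∈ Finset.range (i + 1), ((m - i : ℕ) : ℂ) * pq (1 + s) (m - i) * pq (-s) (i - l)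
      * d l / (((j + i : ℕ) : ℂ) - s)
      = ((m - i : ℕ) : ℂ) * pq (1 + s) (m - i) * Vd s d m i / (((j + i : ℕ) : ℂ) - s) := by
    unfold Vd
    have e : min i m = i := by omega
    rw [e, Finset.mul_sum, Finset.sum_div]
    apply Finset.sum_congr rfl
    intro l _
    ring
  rw [h9]
  ring

end Pool.Agent.Helper22.Half

end

section


/-!
The Faber type polynomials: coefficients of `ω^i` in `(ω(φ(ω) - φ(ζ)))^{s}`.
-/

set_option autoImplicit false

open MeasureTheory Set Metric Filter Topology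
open scoped ENNReal NNReal Real Nat

namespace Pool.Agent.Helper22.Half

open Pool.Agent.Helper39.Area (Ext phi dphi qq_ne qq_diff phi_sub)
open Pool.Agent.Helper22.Marshall (coeff coeff_mul coeff_const_mul coeff_deriv coeff_zero coeff_congr
  coeff_eq_of_hasSum hasSum_coeff LogPhi)

/-- abstract Taylor recursion: `D T' = -θ D' T` with `D = 1 + ω (β - φ)` -/
theorem coeff_rec {D T : ℂ → ℂ} (hD : AnalyticAt ℂ D 0) (hT : AnalyticAt ℂ T 0) {θ : ℂ}
    (hD0 : D 0 = 1) (h : ∀ᶠ w in 𝓝 (0 : ℂ), D w * deriv T w = -θ * (deriv D w * T w)) (n : ℕ) :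
    ((n : ℂ) + 1) * coeff T (n + 1)
      = -∑ i ∈ Finset.range (n + 1), (θ * ((i : ℂ) + 1) + ((n - i : ℕ) : ℂ)) * coeff D (i + 1)
          * coeff T (n - i) := by
  have h1 := coeff_congr h n
  rw [coeff_mul hD hT.deriv, coeff_const_mul, coeff_mul hD.deriv hT] at h1
  simp_rw [coeff_deriv] at h1
  rw [Finset.sum_range_succ'] at h1
  simp only [coeff_zero, hD0, one_mul, Nat.sub_zero] at h1
  -- the shifted sum
  have h2 : ∑ k ∈ Finset.range n, coeff D (k + 1) * (((n - (k + 1) : ℕ) : ℂ) + 1)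
      * coeff T (n - (k + 1) + 1)
      = ∑ i ∈ Finset.range (n + 1), ((n - i : ℕ) : ℂ) * coeff D (i + 1) * coeff T (n - i) := by
    rw [Finset.sum_range_succ]
    simp only [Nat.sub_self, Nat.cast_zero, zero_mul, add_zero]
    apply Finset.sum_congr rfl
    intro k hk
    rw [Finset.mem_range] at hk
    have e : n - (k + 1) + 1 = n - k := by omega
    rw [e]
    have e2 : ((n - (k + 1) : ℕ) : ℂ) + 1 = ((n - k : ℕ) : ℂ) := by
      rw [← e]; push_cast; ring
    rw [e2]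
    ring
  have h3 : ∑ k ∈ Finset.range n, coeff D (k + 1) * ((((n - (k + 1) : ℕ) : ℂ) + 1)
      * coeff T (n - (k + 1) + 1))
      = ∑ i ∈ Finset.range (n + 1), ((n - i : ℕ) : ℂ) * coeff D (i + 1) * coeff T (n - i) := by
    rw [← h2]
    apply Finset.sum_congr rfl
    intro k _
    ring
  rw [h3] at h1
  have h4 : ∑ i ∈ Finset.range (n + 1), (θ * ((i : ℂ) + 1) + ((n - i : ℕ) : ℂ)) * coeff D (i + 1)
          * coeff T (n - i)
      = θ * ∑ i ∈ Finset.range (n + 1), ((i : ℂ) + 1) * coeff D (i + 1) * coeff T (n - i)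
        + ∑ i ∈ Finset.range (n + 1), ((n - i : ℕ) : ℂ) * coeff D (i + 1) * coeff T (n - i) := by
    rw [Finset.mul_sum, ← Finset.sum_add_distrib]
    apply Finset.sum_congr rfl
    intro i _
    ring
  rw [h4]
  linear_combination h1

/-- polynomials with prescribed recursion -/
theorem exists_poly (θ : ℂ) (bc : ℕ → ℂ) (n : ℕ) : ∃ P : ℕ → Polynomial ℂ,
    (∀ k ≤ n, (P k).natDegree ≤ k) ∧ P 0 = 1 ∧ ∀ k < n, Polynomial.C ((k : ℂ) + 1) * P (k + 1)
      = -∑ i ∈ Finset.range (k + 1), Polynomial.C (θ * ((i : ℂ) + 1) + ((k - i : ℕ) : ℂ))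
        * (Polynomial.C (bc i) - if i = 0 then Polynomial.X else 0) * P (k - i) := by
  induction n with
  | zero =>
    refine ⟨fun _ => 1, fun k hk => by simp, rfl, fun k hk => by omega⟩
  | succ n ih =>
    obtain ⟨P, hP1, hP0, hP2⟩ := ih
    obtain ⟨Q, hQ⟩ : ∃ Q : Polynomial ℂ, Q = Polynomial.C (((n : ℂ) + 1)⁻¹) * (-∑ i ∈ Finset.range (n + 1), Polynomial.C (θ * ((i : ℂ) + 1) + ((n - i : ℕ) : ℂ))
        * (Polynomial.C (bc i) - if i = 0 then Polynomial.X else 0) * P (n - i)) := ⟨_, rfl⟩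
    have hQd : Q.natDegree ≤ n + 1 := by
      rw [hQ]
      refine (Polynomial.natDegree_C_mul_le _ _).trans ?_
      rw [Polynomial.natDegree_neg]
      apply Polynomial.natDegree_sum_le_of_forall_le
      intro i hi
      rw [Finset.mem_range] at hi
      rw [mul_assoc]
      refine (Polynomial.natDegree_C_mul_le _ _).trans ?_
      refine Polynomial.natDegree_mul_le.trans ?_
      have h1 := hP1 (n - i) (by omega)
      have h2 : (Polynomial.C (bc i) - if i = 0 then Polynomial.X else 0 : Polynomial ℂ).natDegree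
          ≤ i + 1 := by
        refine (Polynomial.natDegree_sub_le _ _).trans ?_
        rw [Polynomial.natDegree_C]
        split_ifs
        · simp
        · simp
      omega
    refine ⟨fun k => if k = n + 1 then Q else P k, ?_, ?_, ?_⟩
    · intro k hk
      by_cases h : k = n + 1
      · simp only [h, if_true]; exact hQd
      · simp only [h, if_false]; exact hP1 k (by omega)
    · simp only [Nat.zero_ne_add_one, if_false]; exact hP0
    · intro k hk
      have e : ∀ i, (if k - i = n + 1 then Q else P (k - i)) = P (k - i) := by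
        intro i
        rw [if_neg (by omega)]
      simp only [e]
      by_cases h : k = n
      · subst h
        simp only [if_true]
        rw [hQ, ← mul_assoc, ← Polynomial.C_mul]
        have : ((k : ℂ) + 1) * ((k : ℂ) + 1)⁻¹ = 1 := mul_inv_cancel₀ (Nat.cast_add_one_ne_zero k)
        rw [this, Polynomial.C_1, one_mul]
      · rw [if_neg (by omega)]
        exact hP2 k (by omega)

theorem coeff_D {g : ℂ → ℂ} (hg : DifferentiableOn ℂ g (ball 0 1)) (n : ℕ) :
    coeff (fun w => 1 + w * g w) (n + 1) = coeff g n := by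
  have h := coeff_eq_of_hasSum (f := fun w => 1 + w * g w) (r := 1) one_pos
    (a := fun n => if n = 0 then 1 else coeff g (n - 1)) (fun z hz => by
      have h1 := (hasSum_coeff hg hz).mul_left z
      rw [← hasSum_nat_add_iff' 1]
      simp only [Finset.range_one, Finset.sum_singleton, if_true, pow_zero, mul_one,
        Nat.add_eq_zero_iff, one_ne_zero, and_false, if_false, Nat.add_sub_cancel, add_sub_cancel_left]
      have e : (fun n => coeff g n * z ^ (n + 1)) = fun n => z * (coeff g n * z ^ n) := by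
        funext n; ring
      rw [e]
      exact h1) (n + 1)
  rw [h]
  simp

theorem choose_eq_pq (α : ℂ) (n : ℕ) : Ring.choose (α + n - 1) n = pq α n := by
  rw [← Ring.multichoose_eq]
  have h : ∀ n : ℕ, (n.factorial : ℂ) * Ring.multichoose α n = (n.factorial : ℂ) * pq α n := by
    intro n
    have e := Ring.factorial_nsmul_multichoose_eq_ascPochhammer α n
    rw [nsmul_eq_mul] at e
    rw [e, Polynomial.ascPochhammer_smeval_eq_eval]
    induction n with
    | zero => simp [pq]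
    | succ n ih =>
      have e2 := Ring.factorial_nsmul_multichoose_eq_ascPochhammer α n
      rw [nsmul_eq_mul] at e2
      have ih' := ih e2
      rw [ascPochhammer_succ_eval, ih']
      have h3 := pq_succ' α n
      rw [Nat.factorial_succ]
      push_cast
      linear_combination (-(n.factorial : ℂ)) * h3
  have hne : (n.factorial : ℂ) ≠ 0 := Nat.cast_ne_zero.mpr (Nat.factorial_ne_zero n)
  exact mul_left_cancel₀ hne (h n)

theorem hasSum_pq (α : ℂ) {x : ℂ} (hx : ‖x‖ < 1) :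
    HasSum (fun n : ℕ => pq α n * x ^ n) (1 / (1 - x) ^ α) := by
  have h := (Complex.one_div_one_sub_cpow_hasFPowerSeriesOnBall_zero α).hasSum
    (y := x) (by
      rw [Metric.mem_eball, edist_zero_right]
      rw [← ofReal_norm]
      exact ENNReal.ofReal_lt_one.mpr hx)
  rw [zero_add] at h
  have e : (fun n : ℕ => pq α n * x ^ n) = fun n => ((FormalMultilinearSeries.ofScalars ℂ
      fun n ↦ Ring.choose (α + n - 1) n) n) fun _ => x := by
    funext n
    rw [FormalMultilinearSeries.ofScalars_apply_eq, choose_eq_pq]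
    simp
  rw [e]
  exact h

theorem coeff_power (s : ℂ) {ζ : ℂ} (h0 : ζ ≠ 0) (n : ℕ) :
    coeff (fun w => Complex.exp (s * Complex.log (1 - w / ζ))) n = pq (-s) n * (ζ⁻¹) ^ n := by
  apply coeff_eq_of_hasSum (r := ‖ζ‖) (norm_pos_iff.mpr h0)
  intro z hz
  have hx : ‖z / ζ‖ < 1 := by
    rw [norm_div, div_lt_one (norm_pos_iff.mpr h0)]; exact hz
  have h1 := hasSum_pq (-s) hx
  have hne : 1 - z / ζ ≠ 0 := by
    intro h
    rw [sub_eq_zero] at h
    rw [← h] at hx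
    simp at hx
  have e : (1 / (1 - z / ζ) ^ (-s)) = Complex.exp (s * Complex.log (1 - z / ζ)) := by
    rw [Complex.cpow_def_of_ne_zero hne, one_div, ← Complex.exp_neg]
    congr 1; ring
  rw [e] at h1
  have e2 : (fun n => pq (-s) n * ζ⁻¹ ^ n * z ^ n) = fun n => pq (-s) n * (z / ζ) ^ n := by
    funext n
    rw [div_eq_mul_inv, mul_pow]
    ring
  rw [e2]
  exact h1

theorem one_sub_slit {ζ w : ℂ} (h0 : ζ ≠ 0) (hw : ‖w‖ < ‖ζ‖) : 1 - w / ζ ∈ Complex.slitPlane := by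
  have hx : ‖w / ζ‖ < 1 := by
    rw [norm_div, div_lt_one (norm_pos_iff.mpr h0)]; exact hw
  left
  have := (abs_le.mp (Complex.abs_re_le_norm (w / ζ))).2
  rw [Complex.sub_re, Complex.one_re]
  linarith

section
variable {β H : ℂ → ℂ} {Φ : ℂ → ℂ → ℂ}

/-- the function `T` -/
noncomputable def TF (Φ : ℂ → ℂ → ℂ) (s ζ w : ℂ) : ℂ :=
  Complex.exp (s * (Complex.log (1 - w / ζ) + Φ ζ w))

theorem TF_diff (hΦ : LogPhi β H Φ) {ζ : ℂ} (hζ : ζ ∈ ball (0 : ℂ) 1) (h0 : ζ ≠ 0) :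
    ∀ w : ℂ, ‖w‖ < ‖ζ‖ → DifferentiableAt ℂ (fun w => Complex.log (1 - w / ζ) + Φ ζ w) w := by
  intro w hw
  rw [mem_ball_zero_iff] at hζ
  apply DifferentiableAt.add
  · apply DifferentiableAt.clog
    · fun_prop
    · exact one_sub_slit h0 hw
  · exact (hΦ.sep.right ζ (mem_ball_zero_iff.mpr hζ)).differentiableAt
      (isOpen_ball.mem_nhds (mem_ball_zero_iff.mpr (hw.trans hζ)))

theorem D_eq (hΦ : LogPhi β H Φ) {ζ : ℂ} (hζ : ζ ∈ ball (0 : ℂ) 1) (h0 : ζ ≠ 0) {w : ℂ}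
    (hw : ‖w‖ < ‖ζ‖) :
    Complex.exp (Complex.log (1 - w / ζ) + Φ ζ w) = 1 + w * (β w - phi β ζ) := by
  have hz1 := hζ
  rw [mem_ball_zero_iff] at hz1
  have hne : 1 - w / ζ ≠ 0 := Complex.slitPlane_ne_zero (one_sub_slit h0 hw)
  rw [Complex.exp_add, Complex.exp_log hne, hΦ.exp_eq ζ hζ w (mem_ball_zero_iff.mpr (hw.trans hz1))]
  by_cases hw0 : w = 0
  · subst hw0
    simp [Pool.Agent.Helper39.Area.qq]
  · have h1 := phi_sub (β := β) ζ w h0 hw0
    have h2 : phi β w = w⁻¹ + β w := rfl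
    have h3 : (1 - w / ζ) * Pool.Agent.Helper39.Area.qq β ζ w
        = w * ((w⁻¹ - ζ⁻¹) * Pool.Agent.Helper39.Area.qq β ζ w) := by
      field_simp
    rw [h3, ← h1, h2]
    field_simp
    ring

theorem TF_ode (hΦ : LogPhi β H Φ) (s : ℂ) {ζ : ℂ} (hζ : ζ ∈ ball (0 : ℂ) 1) (h0 : ζ ≠ 0) :
    ∀ᶠ w in 𝓝 (0 : ℂ), (1 + w * (β w - phi β ζ)) * deriv (TF Φ s ζ) w
      = -(-s) * (deriv (fun w => 1 + w * (β w - phi β ζ)) w * TF Φ s ζ w) := by
  have hpos : 0 < ‖ζ‖ := norm_pos_iff.mpr h0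
  filter_upwards [ball_mem_nhds (0 : ℂ) hpos] with w hw
  rw [mem_ball_zero_iff] at hw
  have h1 := (TF_diff hΦ hζ h0 w hw).hasDerivAt
  have h2 := h1.cexp
  have h3 := (h1.const_mul s).cexp
  have e3 : deriv (TF Φ s ζ) w = TF Φ s ζ w * (s *
      deriv (fun w => Complex.log (1 - w / ζ) + Φ ζ w) w) := by
    have : TF Φ s ζ = fun w => Complex.exp (s * (Complex.log (1 - w / ζ) + Φ ζ w)) := rfl
    rw [this]
    exact h3.deriv
  have e2 : deriv (fun w => 1 + w * (β w - phi β ζ)) w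
      = (1 + w * (β w - phi β ζ)) * deriv (fun w => Complex.log (1 - w / ζ) + Φ ζ w) w := by
    have h4 : (fun w => 1 + w * (β w - phi β ζ)) =ᶠ[𝓝 w]
        fun w => Complex.exp (Complex.log (1 - w / ζ) + Φ ζ w) := by
      have : ball (0 : ℂ) ‖ζ‖ ∈ 𝓝 w := isOpen_ball.mem_nhds (mem_ball_zero_iff.mpr hw)
      filter_upwards [this] with v hv
      rw [mem_ball_zero_iff] at hv
      exact (D_eq hΦ hζ h0 hv).symm
    rw [h4.deriv_eq, h2.deriv, D_eq hΦ hζ h0 hw]
  rw [e3, e2]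
  ring

theorem TF_analytic (hΦ : LogPhi β H Φ) (s : ℂ) {ζ : ℂ} (hζ : ζ ∈ ball (0 : ℂ) 1) (h0 : ζ ≠ 0) :
    AnalyticAt ℂ (TF Φ s ζ) 0 := by
  have hpos : 0 < ‖ζ‖ := norm_pos_iff.mpr h0
  have hd : DifferentiableOn ℂ (TF Φ s ζ) (ball 0 ‖ζ‖) := by
    intro w hw
    rw [mem_ball_zero_iff] at hw
    exact ((TF_diff hΦ hζ h0 w hw).const_mul s).cexp.differentiableWithinAt
  exact hd.analyticAt (ball_mem_nhds (0 : ℂ) hpos)

/-- the Faber type polynomials -/
theorem faber_T (h : Ext β) (hΦ : LogPhi β H Φ) (s : ℂ) (n : ℕ) :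
    ∃ P : ℕ → Polynomial ℂ, (∀ k ≤ n, (P k).natDegree ≤ k) ∧
      ∀ ζ ∈ ball (0 : ℂ) 1, ζ ≠ 0 → ∀ k ≤ n, coeff (TF Φ s ζ) k = (P k).eval (phi β ζ) := by
  obtain ⟨P, hP1, hP0, hP2⟩ := exists_poly (-s) (coeff β) n
  refine ⟨P, hP1, fun ζ hζ h0 => ?_⟩
  have hrec := coeff_rec (D := fun w => 1 + w * (β w - phi β ζ)) (T := TF Φ s ζ) (θ := -s)
    (by
      have : DifferentiableOn ℂ (fun w => 1 + w * (β w - phi β ζ)) (ball 0 1) := by
        have := h.diff
        fun_prop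
      exact this.analyticAt (ball_mem_nhds _ one_pos))
    (TF_analytic hΦ s hζ h0) (by simp) (TF_ode hΦ s hζ h0)
  intro k
  induction k using Nat.strong_induction_on with
  | _ k ih =>
    intro hk
    cases k with
    | zero =>
      rw [coeff_zero, hP0]
      simp [TF, hΦ.zero_right ζ hζ]
    | succ k =>
      have h1 := hrec k
      have h2 := congrArg (Polynomial.eval (phi β ζ)) (hP2 k (by omega))
      rw [Polynomial.eval_mul, Polynomial.eval_C, Polynomial.eval_neg,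
        Polynomial.eval_finsetSum] at h2
      have hne : ((k : ℂ) + 1) ≠ 0 := Nat.cast_add_one_ne_zero k
      apply mul_left_cancel₀ hne
      rw [h1, h2]
      congr 1
      apply Finset.sum_congr rfl
      intro i hi
      rw [Finset.mem_range] at hi
      rw [Polynomial.eval_mul, Polynomial.eval_mul, Polynomial.eval_C, ih (k - i) (by omega) (by omega)]
      have e : coeff (fun w => 1 + w * (β w - phi β ζ)) (i + 1)
          = Polynomial.eval (phi β ζ) (Polynomial.C (coeff β i) - if i = 0 then Polynomial.X else 0) := by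
        rw [coeff_D (g := fun w => β w - phi β ζ) (by
          have := h.diff
          fun_prop)]
        have e2 : coeff (fun w => β w - phi β ζ) i = coeff β i - if i = 0 then phi β ζ else 0 := by
          cases i with
          | zero => simp [coeff_zero]
          | succ i =>
            simp only [Nat.add_eq_zero_iff, one_ne_zero, and_false, if_false, sub_zero]
            unfold coeff
            congr 1
            rw [iteratedDeriv_succ', iteratedDeriv_succ']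
            congr 1
            funext w
            simp
        rw [e2]
        rw [Polynomial.eval_sub, Polynomial.eval_C]
        split_ifs <;> simp
      rw [e]

/-- the Faber type polynomials for the symmetric kernel -/
theorem faber_E (h : Ext β) (hΦ : LogPhi β H Φ) (s : ℂ) (n : ℕ) :
    ∃ P : Polynomial ℂ, P.natDegree ≤ n ∧ ∀ ζ ∈ ball (0 : ℂ) 1, ζ ≠ 0 →
      ζ ^ n * P.eval (phi β ζ) = ∑ l ∈ Finset.range (n + 1), pq (-s) (n - l) *
        (coeff (fun w => Complex.exp (s * Φ ζ w)) l * ζ ^ l) := by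
  obtain ⟨P, hP1, hP2⟩ := faber_T h hΦ s n
  refine ⟨P n, hP1 n le_rfl, ?_⟩
  intro ζ hζ h0
  have hpos : 0 < ‖ζ‖ := norm_pos_iff.mpr h0
  have hFd : DifferentiableOn ℂ (fun w => Complex.exp (s * Φ ζ w)) (ball 0 1) :=
    ((hΦ.sep.right ζ hζ).const_mul _).cexp
  have hS : AnalyticAt ℂ (fun w => Complex.exp (s * Complex.log (1 - w / ζ))) 0 := by
    have hd : DifferentiableOn ℂ (fun w => Complex.exp (s * Complex.log (1 - w / ζ)))
        (ball 0 ‖ζ‖) := by
      intro w hw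
      rw [mem_ball_zero_iff] at hw
      apply DifferentiableAt.differentiableWithinAt
      apply DifferentiableAt.cexp
      apply DifferentiableAt.const_mul
      apply DifferentiableAt.clog
      · fun_prop
      · exact one_sub_slit h0 hw
    exact hd.analyticAt (ball_mem_nhds (0 : ℂ) hpos)
  have h2 := coeff_mul hS (hFd.analyticAt (ball_mem_nhds _ one_pos)) n
  have h3 : coeff (TF Φ s ζ) n
      = coeff (fun z => Complex.exp (s * Complex.log (1 - z / ζ)) * Complex.exp (s * Φ ζ z)) n := by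
    congr 1
    funext z
    unfold TF
    rw [mul_add, Complex.exp_add]
  rw [h2] at h3
  rw [← hP2 ζ hζ h0 n le_rfl, h3, Finset.mul_sum, ← Finset.sum_range_reflect]
  apply Finset.sum_congr rfl
  intro l hl
  rw [Finset.mem_range] at hl
  have e1 : n + 1 - 1 - l = n - l := by omega
  have e2 : n - (n - l) = l := by omega
  rw [e1, e2, coeff_power s h0]
  have e3 : ζ ^ n = ζ ^ (n - l) * ζ ^ l := by rw [← pow_add]; congr 1; omega
  rw [e3, inv_pow]
  have : ζ ^ (n - l) ≠ 0 := pow_ne_zero _ h0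
  field_simp

end

end Pool.Agent.Helper22.Half

end

section


/-!
Bounds for the coefficients of `(1-x)^{-1-s}` and `(1-x)^s`.
-/

set_option autoImplicit false

namespace Pool.Agent.Helper22.Half

theorem pq_pos {z : ℝ} (hz : 0 < z) (n : ℕ) : 0 < pq z n := by
  induction n with
  | zero => simp [pq]
  | succ n ih => rw [pq_succ]; positivity

theorem pq_mono_z {z w : ℝ} (hz : 0 < z) (hzw : z ≤ w) (n : ℕ) : pq z n ≤ pq w n := by
  induction n with
  | zero => simp [pq]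
  | succ n ih =>
    rw [pq_succ, pq_succ]
    have := pq_pos hz n
    have := pq_pos (hz.trans_le hzw) n
    gcongr

theorem pq_mono_n {z : ℝ} (hz : 1 ≤ z) {a b : ℕ} (hab : a ≤ b) : pq z a ≤ pq z b := by
  induction b, hab using Nat.le_induction with
  | base => exact le_rfl
  | succ n _ ih =>
    refine ih.trans ?_
    rw [pq_succ]
    have h1 := pq_pos (by linarith : 0 < z) n
    have h2 : 1 ≤ (z + n) / (n + 1) := by
      rw [one_le_div (by positivity)]; linarith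
    nlinarith

theorem normSq_one_add (s : ℂ) (n : ℕ) :
    ‖1 + s + n‖ ^ 2 = ((n : ℝ) + 1) ^ 2 + 2 * s.re * (n + 1) + ‖s‖ ^ 2 := by
  rw [← Complex.normSq_eq_norm_sq, ← Complex.normSq_eq_norm_sq, Complex.normSq_apply,
    Complex.normSq_apply]
  simp only [Complex.add_re, Complex.one_re, Complex.natCast_re, Complex.add_im, Complex.one_im,
    Complex.natCast_im]
  ring

theorem normSq_nat_sub (s : ℂ) (n : ℕ) :
    ‖(n : ℂ) - s‖ ^ 2 = (n : ℝ) ^ 2 - 2 * s.re * n + ‖s‖ ^ 2 := by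
  rw [← Complex.normSq_eq_norm_sq, ← Complex.normSq_eq_norm_sq, Complex.normSq_apply,
    Complex.normSq_apply]
  simp only [Complex.sub_re, Complex.natCast_re, Complex.sub_im, Complex.natCast_im]
  ring

/-- the products `∏_{k=2}^{n+1} (1 + ρ / (k (k + 2r)))` -/
noncomputable def kap (r ρ : ℝ) : ℕ → ℝ
  | 0 => 1
  | n + 1 => kap r ρ n * (1 + ρ / (((n : ℝ) + 2) * (n + 2 + 2 * r)))

theorem kap_zero (r ρ : ℝ) : kap r ρ 0 = 1 := rfl

theorem kap_succ (r ρ : ℝ) (n : ℕ) :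
    kap r ρ (n + 1) = kap r ρ n * (1 + ρ / (((n : ℝ) + 2) * (n + 2 + 2 * r))) := rfl

theorem kap_ge_one {r ρ : ℝ} (hr : -1 < r) (hρ : 0 ≤ ρ) (n : ℕ) : 1 ≤ kap r ρ n := by
  induction n with
  | zero => exact le_rfl
  | succ n ih =>
    rw [kap_succ]
    have h1 : 0 ≤ ρ / (((n : ℝ) + 2) * (n + 2 + 2 * r)) := by
      apply div_nonneg hρ
      have : (0 : ℝ) ≤ n := Nat.cast_nonneg n
      apply mul_nonneg <;> linarith
    nlinarith

theorem kap_mono {r ρ : ℝ} (hr : -1 < r) (hρ : 0 ≤ ρ) {a b : ℕ} (hab : a ≤ b) :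
    kap r ρ a ≤ kap r ρ b := by
  induction b, hab using Nat.le_induction with
  | base => exact le_rfl
  | succ n _ ih =>
    refine ih.trans ?_
    rw [kap_succ]
    have h0 := kap_ge_one hr hρ n
    have h1 : 0 ≤ ρ / (((n : ℝ) + 2) * (n + 2 + 2 * r)) := by
      apply div_nonneg hρ
      have : (0 : ℝ) ≤ n := Nat.cast_nonneg n
      apply mul_nonneg <;> linarith
    nlinarith

theorem norm_Q (s : ℂ) (hr : -1 < s.re) (n : ℕ) :
    ((n : ℝ) + 1) * ‖pq (1 + s) (n + 1)‖ ^ 2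
      = ‖1 + s‖ ^ 2 * kap s.re (‖s‖ ^ 2) n * pq (2 + 2 * s.re) n := by
  induction n with
  | zero => simp [pq, kap]
  | succ n ih =>
    have h1 : ‖pq (1 + s) (n + 1 + 1)‖ ^ 2 = ‖pq (1 + s) (n + 1)‖ ^ 2
        * ((((n : ℝ) + 2) ^ 2 + 2 * s.re * (n + 2) + ‖s‖ ^ 2) / ((n : ℝ) + 2) ^ 2) := by
      rw [pq_succ, norm_mul, norm_div, mul_pow, div_pow, normSq_one_add]
      have e : ‖((n + 1 : ℕ) : ℂ) + 1‖ = (n : ℝ) + 2 := by
        have : ((n + 1 : ℕ) : ℂ) + 1 = (((n : ℝ) + 2 : ℝ) : ℂ) := by push_cast; ring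
        rw [this, Complex.norm_real, Real.norm_of_nonneg (by positivity)]
      rw [e]
      push_cast
      ring
    have h2 : (0 : ℝ) < (n : ℝ) + 2 + 2 * s.re := by
      have : (0 : ℝ) ≤ n := Nat.cast_nonneg n
      linarith
    rw [h1, kap_succ, pq_succ (2 + 2 * s.re)]
    push_cast
    have e2 : ((n : ℝ) + 1 + 1) * (‖pq (1 + s) (n + 1)‖ ^ 2
        * ((((n : ℝ) + 2) ^ 2 + 2 * s.re * (n + 2) + ‖s‖ ^ 2) / ((n : ℝ) + 2) ^ 2))
        = (((n : ℝ) + 1) * ‖pq (1 + s) (n + 1)‖ ^ 2)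
        * ((((n : ℝ) + 2) ^ 2 + 2 * s.re * (n + 2) + ‖s‖ ^ 2) / (((n : ℝ) + 2) * (n + 1))) := by
      field_simp
      ring
    rw [e2, ih]
    field_simp
    ring

theorem norm_c (s : ℂ) (hr : s.re < 1) (n : ℕ) :
    ((n : ℝ) + 2) ^ 2 * ‖pq (-s) (n + 2)‖ ^ 2 * (1 - 2 * s.re)
      = ‖s‖ ^ 2 * ((1 - 2 * s.re) + ‖s‖ ^ 2) * kap (-s.re) (‖s‖ ^ 2) n
        * pq (1 - 2 * s.re) (n + 1) := by
  induction n with
  | zero =>
    have h1 : ‖pq (-s) (0 + 2)‖ ^ 2 = ‖s‖ ^ 2 * ((1 - 2 * s.re) + ‖s‖ ^ 2) / 4 := by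
      have e : pq (-s) (0 + 2) = -s * ((((1 : ℕ) : ℂ) - s) / 2) := by
        rw [zero_add, pq_succ, pq_succ, pq_zero]
        push_cast
        ring
      rw [e, norm_mul, norm_div, mul_pow, div_pow, normSq_nat_sub, norm_neg, Complex.norm_two]
      push_cast
      ring
    rw [h1, zero_add, pq_succ, pq_zero, kap_zero]
    push_cast
    ring
  | succ n ih =>
    have h1 : ‖pq (-s) (n + 1 + 2)‖ ^ 2 = ‖pq (-s) (n + 2)‖ ^ 2
        * ((((n : ℝ) + 2) ^ 2 - 2 * s.re * (n + 2) + ‖s‖ ^ 2) / ((n : ℝ) + 3) ^ 2) := by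
      have e0 : n + 1 + 2 = (n + 2) + 1 := by ring
      rw [e0, pq_succ, norm_mul, norm_div, mul_pow, div_pow]
      have e1 : -s + ((n + 2 : ℕ) : ℂ) = ((n + 2 : ℕ) : ℂ) - s := by ring
      rw [e1, normSq_nat_sub]
      have e : ‖((n + 2 : ℕ) : ℂ) + 1‖ = (n : ℝ) + 3 := by
        have : ((n + 2 : ℕ) : ℂ) + 1 = (((n : ℝ) + 3 : ℝ) : ℂ) := by push_cast; ring
        rw [this, Complex.norm_real, Real.norm_of_nonneg (by positivity)]
      rw [e]
      push_cast
      ring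
    have h2 : (n : ℝ) + 2 - 2 * s.re ≠ 0 := by
      have : (0 : ℝ) ≤ n := Nat.cast_nonneg n
      apply ne_of_gt
      linarith
    have h3 : (n : ℝ) + 2 + 2 * (-s.re) = (n : ℝ) + 2 - 2 * s.re := by ring
    have h4 : 1 - 2 * s.re + ((n + 1 : ℕ) : ℝ) = (n : ℝ) + 2 - 2 * s.re := by push_cast; ring
    have h5 : ((n + 1 : ℕ) : ℝ) + 1 = (n : ℝ) + 2 := by push_cast; ring
    rw [h1, kap_succ, pq_succ (1 - 2 * s.re) (n + 1), h3, h4, h5]
    push_cast
    have e2 : ((n : ℝ) + 1 + 2) ^ 2 * (‖pq (-s) (n + 2)‖ ^ 2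
        * ((((n : ℝ) + 2) ^ 2 - 2 * s.re * (n + 2) + ‖s‖ ^ 2) / ((n : ℝ) + 3) ^ 2)) * (1 - 2 * s.re)
        = (((n : ℝ) + 2) ^ 2 * ‖pq (-s) (n + 2)‖ ^ 2 * (1 - 2 * s.re))
          * ((((n : ℝ) + 2) ^ 2 - 2 * s.re * (n + 2) + ‖s‖ ^ 2) / ((n : ℝ) + 2) ^ 2) := by
      field_simp
      ring
    rw [e2, ih]
    have h6 : 1 - 2 * s.re = ((n : ℝ) + 2 - 2 * s.re) - (n + 1) := by ring
    have h7 : ((n : ℝ) + 2) ^ 2 - 2 * s.re * (n + 2) = ((n : ℝ) + 2) * ((n : ℝ) + 2 - 2 * s.re) := by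
      ring
    rw [h7]
    generalize pq (1 - 2 * s.re) (n + 1) = P
    generalize (1 - 2 * s.re + ‖s‖ ^ 2) = T
    generalize (n : ℝ) + 2 - 2 * s.re = u at h2
    field_simp

/-- the constant `B` -/
noncomputable def Bc (r ρ : ℝ) : ℝ :=
  (1 + ρ / (2 * (2 + 2 * r))) * (1 + ρ / (2 * (2 - 2 * r))) * Real.exp (5 * ρ / 6)

theorem kap_step {r ρ : ℝ} (hr : 4 * r ^ 2 ≤ 1) (hρ : 0 ≤ ρ) {k : ℝ} (hk : 2 ≤ k) :
    (1 + ρ / (k * (k + 2 * r))) * (1 + ρ / (k * (k + 2 * (-r))))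
      ≤ Real.exp (ρ * (1 / (k - 1) - 1 / (k + 1))) := by
  have hr1 : -1 ≤ 2 * r ∧ 2 * r ≤ 1 := by
    constructor <;> nlinarith
  have p1 : 0 < k + 2 * r := by linarith
  have p2 : 0 < k + 2 * (-r) := by linarith
  have h1 := Real.add_one_le_exp (ρ / (k * (k + 2 * r)))
  have h2 := Real.add_one_le_exp (ρ / (k * (k + 2 * (-r))))
  have h3 : ρ / (k * (k + 2 * r)) + ρ / (k * (k + 2 * (-r))) ≤ ρ * (1 / (k - 1) - 1 / (k + 1)) := by
    have e1 : ρ / (k * (k + 2 * r)) + ρ / (k * (k + 2 * (-r)))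
        = ρ * (2 / ((k + 2 * r) * (k + 2 * (-r)))) := by
      have : k ≠ 0 := by linarith
      have e0 : k + 2 * (-r) = k - 2 * r := by ring
      rw [e0] at p2 ⊢
      have e9 : k - 2 * r ≠ 0 := p2.ne'
      have e8 : k + 2 * r ≠ 0 := p1.ne'
      field_simp
      ring
    have e2 : 1 / (k - 1) - 1 / (k + 1) = 2 / ((k - 1) * (k + 1)) := by
      have q1 : k - 1 ≠ 0 := by linarith
      have q2 : k + 1 ≠ 0 := by linarith
      field_simp
      ring
    rw [e1, e2]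
    apply mul_le_mul_of_nonneg_left _ hρ
    apply div_le_div_of_nonneg_left (by norm_num)
    · have : 0 < k - 1 := by linarith
      positivity
    · nlinarith
  calc (1 + ρ / (k * (k + 2 * r))) * (1 + ρ / (k * (k + 2 * (-r))))
      ≤ Real.exp (ρ / (k * (k + 2 * r))) * Real.exp (ρ / (k * (k + 2 * (-r)))) := by
        apply mul_le_mul
        · linarith
        · linarith
        · have : 0 ≤ ρ / (k * (k + 2 * (-r))) := by positivity
          linarith
        · exact (Real.exp_pos _).le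
    _ = Real.exp (ρ / (k * (k + 2 * r)) + ρ / (k * (k + 2 * (-r)))) := (Real.exp_add _ _).symm
    _ ≤ _ := Real.exp_le_exp.mpr h3

theorem kap_prod {r ρ : ℝ} (hr : 4 * r ^ 2 ≤ 1) (hρ : 0 ≤ ρ) (n : ℕ) :
    kap r ρ (n + 1) * kap (-r) ρ (n + 1)
      ≤ (1 + ρ / (2 * (2 + 2 * r))) * (1 + ρ / (2 * (2 - 2 * r)))
        * Real.exp (ρ * (5 / 6 - 1 / ((n : ℝ) + 2) - 1 / ((n : ℝ) + 3))) := by
  induction n with
  | zero =>
    rw [kap_succ, kap_succ, kap_zero, kap_zero]
    have e : (5 / 6 - 1 / (((0 : ℕ) : ℝ) + 2) - 1 / (((0 : ℕ) : ℝ) + 3)) = 0 := by norm_num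
    rw [e, mul_zero, Real.exp_zero]
    push_cast
    apply le_of_eq
    ring_nf
  | succ n ih =>
    rw [kap_succ r ρ (n + 1), kap_succ (-r) ρ (n + 1)]
    have h1 := kap_step hr hρ (k := (n : ℝ) + 3) (by
      have : (0 : ℝ) ≤ n := Nat.cast_nonneg n
      linarith)
    have hr1 : -1 ≤ 2 * r ∧ 2 * r ≤ 1 := by
      constructor <;> nlinarith
    have g1 := kap_ge_one (by linarith : -1 < r) hρ (n + 1)
    have g2 := kap_ge_one (by linarith : -1 < -r) hρ (n + 1)
    push_cast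
    have e3 : (n : ℝ) + 1 + 2 = n + 3 := by ring
    have e4 : (n : ℝ) + 1 + 3 = n + 4 := by ring
    rw [e3, e4]
    have f0 : 0 ≤ (1 + ρ / (((n : ℝ) + 3) * (n + 3 + 2 * r)))
        * (1 + ρ / (((n : ℝ) + 3) * (n + 3 + 2 * (-r)))) := by
      have a1 : 0 ≤ (n : ℝ) + 3 + 2 * r := by
        have : (0 : ℝ) ≤ n := Nat.cast_nonneg n
        linarith
      have a2 : 0 ≤ (n : ℝ) + 3 + 2 * (-r) := by
        have : (0 : ℝ) ≤ n := Nat.cast_nonneg n
        linarith
      positivity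
    calc kap r ρ (n + 1) * (1 + ρ / (((n : ℝ) + 3) * (n + 3 + 2 * r)))
          * (kap (-r) ρ (n + 1) * (1 + ρ / (((n : ℝ) + 3) * (n + 3 + 2 * (-r)))))
        = (kap r ρ (n + 1) * kap (-r) ρ (n + 1)) * ((1 + ρ / (((n : ℝ) + 3) * (n + 3 + 2 * r)))
          * (1 + ρ / (((n : ℝ) + 3) * (n + 3 + 2 * (-r))))) := by ring
      _ ≤ ((1 + ρ / (2 * (2 + 2 * r))) * (1 + ρ / (2 * (2 - 2 * r)))
        * Real.exp (ρ * (5 / 6 - 1 / ((n : ℝ) + 2) - 1 / ((n : ℝ) + 3))))
          * Real.exp (ρ * (1 / ((n : ℝ) + 3 - 1) - 1 / ((n : ℝ) + 3 + 1))) := by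
          apply mul_le_mul ih h1 f0
          have b1 : 0 ≤ 2 + 2 * r := by linarith
          have b2 : 0 ≤ 2 - 2 * r := by linarith
          positivity
      _ = _ := by
          rw [mul_assoc, ← Real.exp_add]
          congr 2
          have q : (n : ℝ) + 3 - 1 = n + 2 := by ring
          have q' : (n : ℝ) + 3 + 1 = n + 4 := by ring
          rw [q, q']
          ring

theorem kap_prod' {r ρ : ℝ} (hr : 4 * r ^ 2 ≤ 1) (hρ : 0 ≤ ρ) (a b : ℕ) :
    kap r ρ a * kap (-r) ρ b ≤ Bc r ρ := by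
  have hr1 : -1 ≤ 2 * r ∧ 2 * r ≤ 1 := by
    constructor <;> nlinarith
  have m1 := kap_mono (by linarith : -1 < r) hρ (a := a) (b := a + b + 1) (by omega)
  have m2 := kap_mono (by linarith : -1 < -r) hρ (a := b) (b := a + b + 1) (by omega)
  have g2 := kap_ge_one (by linarith : -1 < -r) hρ b
  have g1 := kap_ge_one (by linarith : -1 < r) hρ (a + b + 1)
  have h := kap_prod hr hρ (a + b)
  calc kap r ρ a * kap (-r) ρ b ≤ kap r ρ (a + b + 1) * kap (-r) ρ (a + b + 1) := by gcongr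
    _ ≤ _ := h
    _ ≤ Bc r ρ := by
      unfold Bc
      have b1 : 0 ≤ 2 + 2 * r := by linarith
      have b2 : 0 ≤ 2 - 2 * r := by linarith
      apply mul_le_mul_of_nonneg_left _ (by positivity)
      apply Real.exp_le_exp.mpr
      have h1 : 0 ≤ 1 / (((a + b : ℕ) : ℝ) + 2) := by positivity
      have h2 : 0 ≤ 1 / (((a + b : ℕ) : ℝ) + 3) := by positivity
      nlinarith

/-- the combined bound -/
theorem QC_bound (s : ℂ) (hs : ‖s‖ < 1 / 2) (i k : ℕ) :
    (((i : ℝ) + 1) * ‖pq (1 + s) (i + 1)‖ ^ 2) * (((k : ℝ) + 2) ^ 2 * ‖pq (-s) (k + 2)‖ ^ 2)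
        * (1 - 2 * s.re)
      ≤ ‖s‖ ^ 2 * ‖1 + s‖ ^ 2 * ((1 - 2 * s.re) + ‖s‖ ^ 2) * Bc s.re (‖s‖ ^ 2)
        * pq (2 + 2 * s.re) i * pq (1 - 2 * s.re) (k + 1) := by
  have hre := Complex.abs_re_le_norm s
  have hre2 := abs_le.mp (hre.trans hs.le)
  have hr4 : 4 * s.re ^ 2 ≤ 1 := by nlinarith [hre2.1, hre2.2]
  have hc : 0 < 1 - 2 * s.re := by
    have := (abs_lt.mp (hre.trans_lt hs)).2
    linarith
  rw [norm_Q s (by linarith), mul_assoc (_ * _) (_ * _) (1 - 2 * s.re), norm_c s (by linarith)]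
  have h := kap_prod' hr4 (sq_nonneg ‖s‖) i k
  have p1 := pq_pos (by linarith : 0 < 2 + 2 * s.re) i
  have p2 := pq_pos hc (k + 1)
  calc ‖1 + s‖ ^ 2 * kap s.re (‖s‖ ^ 2) i * pq (2 + 2 * s.re) i *
      (‖s‖ ^ 2 * (1 - 2 * s.re + ‖s‖ ^ 2) * kap (-s.re) (‖s‖ ^ 2) k * pq (1 - 2 * s.re) (k + 1))
      = (‖s‖ ^ 2 * ‖1 + s‖ ^ 2 * ((1 - 2 * s.re) + ‖s‖ ^ 2) * pq (2 + 2 * s.re) i
        * pq (1 - 2 * s.re) (k + 1)) * (kap s.re (‖s‖ ^ 2) i * kap (-s.re) (‖s‖ ^ 2) k) := by ring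
    _ ≤ (‖s‖ ^ 2 * ‖1 + s‖ ^ 2 * ((1 - 2 * s.re) + ‖s‖ ^ 2) * pq (2 + 2 * s.re) i
        * pq (1 - 2 * s.re) (k + 1)) * Bc s.re (‖s‖ ^ 2) := by
        apply mul_le_mul_of_nonneg_left h
        positivity
    _ = _ := by ring

end Pool.Agent.Helper22.Half

end

section


/-!
Bounds for the numbers `pq`.
-/

set_option autoImplicit false

open MeasureTheory Set Metric Filter Topology
open scoped ENNReal NNReal Real Nat ComplexConjugate

namespace Pool.Agent.Helper22.Half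

theorem pq_cast (b : ℝ) (n : ℕ) : pq (b : ℂ) n = ((pq b n : ℝ) : ℂ) := by
  induction n with
  | zero => simp [pq]
  | succ n ih =>
    rw [pq_succ, pq_succ, ih]
    push_cast
    ring

theorem pq_nonneg {b : ℝ} (hb : 0 ≤ b) (n : ℕ) : 0 ≤ pq b n := by
  induction n with
  | zero => simp [pq]
  | succ n ih => rw [pq_succ]; positivity

theorem hasSum_pq_real (b : ℝ) {x : ℝ} (hx0 : 0 ≤ x) (hx : x < 1) :
    HasSum (fun n : ℕ => pq b n * x ^ n) ((1 - x) ^ (-b)) := by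
  have h := hasSum_pq (b : ℂ) (x := (x : ℂ)) (by
    rw [Complex.norm_real, Real.norm_of_nonneg hx0]; exact hx)
  have e : (1 / (1 - (x : ℂ)) ^ (b : ℂ)) = (((1 - x) ^ (-b) : ℝ) : ℂ) := by
    rw [Real.rpow_neg (by linarith), one_div]
    push_cast
    rw [Complex.ofReal_cpow (by linarith)]
    push_cast
    rfl
  rw [e] at h
  have e2 : (fun n : ℕ => pq (b : ℂ) n * (x : ℂ) ^ n)
      = fun n : ℕ => ((pq b n * x ^ n : ℝ) : ℂ) := by
    funext n; rw [pq_cast]; push_cast; rfl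
  rw [e2] at h
  exact Complex.hasSum_ofReal.mp h

theorem pow_mul_pq_le {b : ℝ} (hb : 0 ≤ b) {x : ℝ} (hx0 : 0 ≤ x) (hx : x < 1) (m : ℕ) :
    x ^ m * pq (b + 1) m ≤ (1 - x) ^ (-b) := by
  have h := hasSum_pq_real b hx0 hx
  have h2 : ∑ i ∈ Finset.range (m + 1), pq b i * x ^ i ≤ (1 - x) ^ (-b) := by
    apply sum_le_hasSum _ _ h
    intro i _
    exact mul_nonneg (pq_nonneg hb i) (pow_nonneg hx0 i)
  refine le_trans ?_ h2
  have h3 := vander b 1 m
  simp only [pq_one, mul_one] at h3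
  rw [← h3, Finset.mul_sum]
  apply Finset.sum_le_sum
  intro i hi
  rw [Finset.mem_range] at hi
  rw [mul_comm]
  apply mul_le_mul_of_nonneg_left _ (pq_nonneg hb i)
  exact pow_le_pow_of_le_one hx0 hx.le (by omega)

end Pool.Agent.Helper22.Half

end

section


/-!
Expansion of the exponential of the kernel and the area inequality.
-/

set_option autoImplicit false

open MeasureTheory Set Metric Filter Topology
open scoped ENNReal NNReal Real Nat ComplexConjugate

namespace Pool.Agent.Helper22.Half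

open Pool.Agent.Helper39.Area (Ext phi)
open Pool.Agent.Helper22.Marshall (coeff SepHol LogPhi dcoeff GLe coeff_congr)

theorem hasSum_shift {a : ℕ → ℂ} {z s : ℂ} (h : HasSum (fun k => a k * z ^ k) s) (l : ℕ) :
    HasSum (fun m => if l ≤ m then a (m - l) * z ^ m else 0) (s * z ^ l) := by
  rw [← hasSum_nat_add_iff' l]
  have e1 : ∑ i ∈ Finset.range l, (if l ≤ i then a (i - l) * z ^ i else 0) = 0 := by
    apply Finset.sum_eq_zero
    intro i hi
    rw [Finset.mem_range] at hi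
    rw [if_neg (by omega)]
  have e2 : (fun n => if l ≤ n + l then a (n + l - l) * z ^ (n + l) else 0)
      = fun n => (a n * z ^ n) * z ^ l := by
    funext n
    rw [if_pos (by omega), Nat.add_sub_cancel, pow_add]
    ring
  rw [e1, e2, sub_zero]
  exact h.mul_right _

/-- the `m`-th antidiagonal -/
noncomputable def diagc (F : ℂ → ℂ → ℂ) (m l : ℕ) : ℂ := dcoeff F (m - l) l

theorem hasSum_Vd {F : ℂ → ℂ → ℂ} (hF : SepHol F) (s : ℂ) (n : ℕ) {ζ : ℂ} (hζ : ‖ζ‖ < 1) :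
    HasSum (fun m => Vd s (diagc F m) m n * ζ ^ m)
      (∑ l ∈ Finset.range (n + 1), pq (-s) (n - l) * (coeff (F ζ) l * ζ ^ l)) := by
  have h1 : ∀ l ∈ Finset.range (n + 1), HasSum (fun m => pq (-s) (n - l) *
      (if l ≤ m then dcoeff F (m - l) l * ζ ^ m else 0))
      (pq (-s) (n - l) * (coeff (F ζ) l * ζ ^ l)) := by
    intro l _
    apply HasSum.mul_left
    exact hasSum_shift (a := fun k => dcoeff F k l) (hF.hasSum_left hζ l) l
  have h2 := hasSum_sum h1
  have e : (fun m => ∑ l ∈ Finset.range (n + 1), pq (-s) (n - l) *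
      (if l ≤ m then dcoeff F (m - l) l * ζ ^ m else 0))
      = fun m => Vd s (diagc F m) m n * ζ ^ m := by
    funext m
    unfold Vd diagc
    rw [Finset.sum_mul]
    symm
    have hsub : Finset.range (min n m + 1) ⊆ Finset.range (n + 1) := by
      intro l hl
      rw [Finset.mem_range] at hl ⊢
      omega
    rw [← Finset.sum_subset hsub]
    · apply Finset.sum_congr rfl
      intro l hl
      rw [Finset.mem_range] at hl
      rw [if_pos (by omega)]
      ring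
    · intro l hl hl2
      rw [Finset.mem_range] at hl hl2
      rw [if_neg (by omega), mul_zero]
  rw [e] at h2
  exact h2

theorem dcoeff_symm {U : ℂ → ℂ → ℂ} (h : SepHol U)
    (hs : ∀ a ∈ ball (0 : ℂ) 1, ∀ b ∈ ball (0 : ℂ) 1, U a b = U b a) (k l : ℕ) :
    dcoeff U k l = dcoeff U l k := by
  unfold dcoeff
  rw [← h.coeff_comm k l]
  apply coeff_congr
  filter_upwards [ball_mem_nhds (0 : ℂ) one_pos] with w hw
  apply coeff_congr
  filter_upwards [ball_mem_nhds (0 : ℂ) one_pos] with z hz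
  exact hs z hz w hw

section
variable {β H : ℂ → ℂ} {Φ : ℂ → ℂ → ℂ}

/-- the symmetric kernel -/
noncomputable def EE (Φ : ℂ → ℂ → ℂ) (s ζ w : ℂ) : ℂ := Complex.exp (s * Φ ζ w)

theorem EE_sep (hΦ : LogPhi β H Φ) (s : ℂ) : SepHol (EE Φ s) where
  cont := by
    have := hΦ.sep.cont
    exact (continuousOn_const.mul this).cexp
  left := fun w hw => ((hΦ.sep.left w hw).const_mul s).cexp
  right := fun z hz => ((hΦ.sep.right z hz).const_mul s).cexp

theorem EE_symm (hΦ : LogPhi β H Φ) (s : ℂ) (m : ℕ) :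
    ∀ l ≤ m, diagc (EE Φ s) m l = diagc (EE Φ s) m (m - l) := by
  intro l hl
  unfold diagc
  rw [dcoeff_symm (EE_sep hΦ s) (fun a ha b hb => by unfold EE; rw [hΦ.symm a ha b hb])]
  congr 1
  omega

theorem EE_zero (hΦ : LogPhi β H Φ) (s : ℂ) : diagc (EE Φ s) 0 0 = 1 := by
  unfold diagc dcoeff EE
  rw [Pool.Agent.Helper22.Marshall.coeff_zero, Pool.Agent.Helper22.Marshall.coeff_zero,
    hΦ.zero_right 0 (mem_ball_self one_pos), mul_zero, Complex.exp_zero]

theorem EE_diag (hΦ : LogPhi β H Φ) (s : ℂ) (m : ℕ) :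
    ∑ l ∈ Finset.range (m + 1), diagc (EE Φ s) m l = coeff (fun z => Complex.exp (s * H z)) m := by
  have h1 := (EE_sep hΦ s).hasSum_diag m
  have h2 : coeff (fun z => EE Φ s z z) m = coeff (fun z => Complex.exp (s * H z)) m := by
    apply coeff_congr
    filter_upwards [ball_mem_nhds (0 : ℂ) one_pos] with z hz
    unfold EE
    rw [hΦ.diag z hz]
  rw [← h2, h1, ← Finset.sum_range_reflect]
  apply Finset.sum_congr rfl
  intro l hl
  rw [Finset.mem_range] at hl
  unfold diagc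
  have e1 : m + 1 - 1 - l = m - l := by omega
  have e2 : m - (m - l) = l := by omega
  rw [e1, e2]

/-- the area inequality for each Faber type polynomial -/
theorem area_V {k : ℝ} (hk : GLe β k) (hE : Ext β) (hΦ : LogPhi β H Φ) (s : ℂ) (i M : ℕ) :
    ∑ m ∈ Finset.range M, ((m - i : ℕ) : ℝ) * ‖Vd s (diagc (EE Φ s) m) m i‖ ^ 2
      ≤ k ^ 2 * ∑ m ∈ Finset.range i, ((i - m : ℕ) : ℝ) * ‖Vd s (diagc (EE Φ s) m) m i‖ ^ 2 := by
  obtain ⟨P, hP1, hP2⟩ := faber_E hE hΦ s i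
  exact hk i P (fun m => Vd s (diagc (EE Φ s) m) m i) hP1 (fun ζ hζ0 hζ1 => by
    rw [hP2 ζ (mem_ball_zero_iff.mpr hζ1) hζ0]
    exact hasSum_Vd (EE_sep hΦ s) s i hζ1) M

end

end Pool.Agent.Helper22.Half

end

section


/-!
The lower half form.
-/

set_option autoImplicit false

namespace Pool.Agent.Helper22.Half

/-- the lower half form -/
noncomputable def Pf (s : ℂ) (b : ℝ) (d : ℕ → ℂ) (m : ℕ) : ℝ :=
  ∑ i ∈ Finset.range m, ((m - i : ℕ) : ℝ) * (pq (b + 1 - 2 * s.re) i)⁻¹ * ‖Vd s d m i‖ ^ 2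

theorem Pf_nonneg {s : ℂ} {b : ℝ} (hσ : 0 < b + 1 - 2 * s.re) (d : ℕ → ℂ) (m : ℕ) :
    0 ≤ Pf s b d m := by
  apply Finset.sum_nonneg
  intro i _
  have := pq_pos hσ i
  positivity

end Pool.Agent.Helper22.Half

end

section


/-!
Finite double sums.
-/

set_option autoImplicit false

namespace Pool.Agent.Helper22.Half

/-- interchange of the finite sums -/
theorem double_fin {S : ℕ → ℕ → ℝ} {lam : ℕ → ℝ} {κ : ℝ}
    (hlam : ∀ i, 0 ≤ lam i)
    (h : ∀ i M : ℕ, ∑ m ∈ Finset.range M, ((m - i : ℕ) : ℝ) * S m i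
      ≤ κ * ∑ m ∈ Finset.range i, ((i - m : ℕ) : ℝ) * S m i) (I : ℕ) :
    ∑ m ∈ Finset.range I, ∑ i ∈ Finset.range I, ((m - i : ℕ) : ℝ) * lam i * S m i
      ≤ κ * ∑ m ∈ Finset.range I, ∑ i ∈ Finset.range I, ((i - m : ℕ) : ℝ) * lam i * S m i := by
  rw [Finset.sum_comm, Finset.sum_comm (f := fun m i => ((i - m : ℕ) : ℝ) * lam i * S m i),
    Finset.mul_sum]
  apply Finset.sum_le_sum
  intro i hi
  rw [Finset.mem_range] at hi
  have h1 := mul_le_mul_of_nonneg_left (h i I) (hlam i)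
  have e1 : ∑ m ∈ Finset.range I, ((m - i : ℕ) : ℝ) * lam i * S m i
      = lam i * ∑ m ∈ Finset.range I, ((m - i : ℕ) : ℝ) * S m i := by
    rw [Finset.mul_sum]
    apply Finset.sum_congr rfl
    intro m _; ring
  have e2 : ∑ m ∈ Finset.range I, ((i - m : ℕ) : ℝ) * lam i * S m i
      = lam i * ∑ m ∈ Finset.range i, ((i - m : ℕ) : ℝ) * S m i := by
    have hsub : Finset.range i ⊆ Finset.range I := by
      intro m hm
      rw [Finset.mem_range] at hm ⊢
      omega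
    rw [← Finset.sum_subset hsub, Finset.mul_sum]
    · apply Finset.sum_congr rfl
      intro m _; ring
    · intro m _ hm
      rw [Finset.mem_range, not_lt] at hm
      have : i - m = 0 := by omega
      rw [this]; simp
  rw [e1, e2]
  calc lam i * ∑ m ∈ Finset.range I, ((m - i : ℕ) : ℝ) * S m i
      ≤ lam i * (κ * ∑ m ∈ Finset.range i, ((i - m : ℕ) : ℝ) * S m i) := h1
    _ = _ := by ring

/-- the upper part written with an explicit index -/
theorem upper_eq (a : ℕ → ℝ) (m I : ℕ) :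
    ∑ i ∈ Finset.range I, ((i - m : ℕ) : ℝ) * a i
      = ∑ j ∈ Finset.range (I - (m + 1)), ((j : ℝ) + 1) * a (m + 1 + j) := by
  rcases le_or_gt I (m + 1) with h | h
  · have e : I - (m + 1) = 0 := by omega
    rw [e, Finset.sum_range_zero]
    apply Finset.sum_eq_zero
    intro i hi
    rw [Finset.mem_range] at hi
    have : i - m = 0 := by omega
    rw [this]; simp
  · obtain ⟨J, rfl⟩ : ∃ J, I = m + 1 + J := ⟨I - (m + 1), by omega⟩
    have e : m + 1 + J - (m + 1) = J := by omega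
    rw [e, Finset.sum_range_add]
    have h0 : ∑ i ∈ Finset.range (m + 1), ((i - m : ℕ) : ℝ) * a i = 0 := by
      apply Finset.sum_eq_zero
      intro i hi
      rw [Finset.mem_range] at hi
      have : i - m = 0 := by omega
      rw [this]; simp
    rw [h0, zero_add]
    apply Finset.sum_congr rfl
    intro j _
    have : m + 1 + j - m = j + 1 := by omega
    rw [this]
    push_cast
    ring

theorem lower_eq {s : ℂ} {b : ℝ} (d : ℕ → ℂ) {m I : ℕ} (hm : m < I) :
    ∑ i ∈ Finset.range I, ((m - i : ℕ) : ℝ) * (pq (b + 1 - 2 * s.re) i)⁻¹ * ‖Vd s d m i‖ ^ 2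
      = Pf s b d m := by
  unfold Pf
  have hsub : Finset.range m ⊆ Finset.range I := by
    intro i hi
    rw [Finset.mem_range] at hi ⊢
    omega
  rw [← Finset.sum_subset hsub]
  intro i _ hi
  rw [Finset.mem_range, not_lt] at hi
  have : m - i = 0 := by omega
  rw [this]; simp

end Pool.Agent.Helper22.Half

end

section


/-!
MP_16b0ee, project BR (the mean of the power -2 of the derivative): common definitions.
-/

set_option autoImplicit false

open MeasureTheory Set Metric Filter Topology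

namespace Pool.Agent.Helper24.Br

open Pool.Agent.Helper22.Half

/-- the constant `b (b + 1) / 2 * int_0^1 x (1 - x) / (x ^ (b + 3) + (1 - x) ^ (b + 3)) dx` -/
noncomputable def Th (b : ℝ) : ℝ :=
  b * (b + 1) / 2 * ∫ x in (0:ℝ)..1, x * (1 - x) / (x ^ (b + 3) + (1 - x) ^ (b + 3))

/-- the bound of the upper form of the antidiagonal `d` of order `m` -/
noncomputable def Um (b : ℝ) (d : ℕ → ℂ) (m : ℕ) : ℝ :=
  (m + 1) * (m + b + 2) / (b * (b + 1)) * (pq (b + 3) m)⁻¹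
    * ‖∑ l ∈ Finset.range (m + 1), d l‖ ^ 2

/-- the midpoints, in the reversed order -/
noncomputable def tt (m i : ℕ) : ℝ := (2 * ((m - i : ℕ) : ℝ) - 1) / (2 * m)

end Pool.Agent.Helper24.Br

end

section


/-!
MP_16b0ee, project MH (moment hierarchy for the mean of the power -2 of the derivative):
common definitions. Everything lives in the unit disc (coordinate `1/z`): `H = log psi'(1/z)`,
`G = exp (-H)`.
-/

set_option autoImplicit false

open MeasureTheory Set Metric Filter Topology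
open scoped Real ComplexConjugate

namespace Pool.Agent.Helper39.MH

open Pool.Agent.Helper22.Half
open Pool.Agent.Helper22.Marshall (coeff SepHol LogPhi dcoeff GLe)
open Pool.Agent.Helper39.Area (Ext phi)

/-- the Euler operator -/
noncomputable def th (F : ℂ → ℂ) (z : ℂ) : ℂ := z * deriv F z

/-- the jets: `th g0 = 3 g1 - g0^2`, `th gn = (n+3) g(n+1) + sum_(i+j=n, i,j>=1) gi gj` -/
noncomputable def gg (H : ℂ → ℂ) : ℕ → (ℂ → ℂ)
  | 0 => fun z => -(th H z) / 2
  | 1 => fun z => (th (gg H 0) z + (gg H 0 z) ^ 2) / 3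
  | (n + 2) => fun z =>
      (th (gg H (n + 1)) z - ∑ i : Fin n, gg H (i.1 + 1) z * gg H (n - i.1) z) / ((n : ℂ) + 4)
termination_by n => n
decreasing_by all_goals omega

/-- the weight of a monomial (a list of indices) -/
def wt (A : List ℕ) : ℕ := (A.map (fun n => n + 1)).sum

/-- the value of a monomial -/
noncomputable def ev (c : ℕ → ℂ) (A : List ℕ) : ℂ := (A.map c).prod

/-- the formal derivative of the variable `n` -/
noncomputable def dval (c : ℕ → ℂ) (n : ℕ) : ℂ :=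
  if n = 0 then 3 * c 1 - c 0 ^ 2
  else ((n : ℂ) + 3) * c (n + 1) + ∑ i ∈ Finset.range (n - 1), c (i + 1) * c (n - 1 - i)

/-- the formal derivative of a monomial -/
noncomputable def Dv (c : ℕ → ℂ) : List ℕ → ℂ
  | [] => 0
  | a :: A => dval c a * ev c A + c a * Dv c A

/-- the formal weighted derivative: `th (G * A) = G * DG A` -/
noncomputable def DG (c : ℕ → ℂ) (A : List ℕ) : ℂ := 2 * c 0 * ev c A + Dv c A

/-- the scaled jets -/
noncomputable def cc (H : ℂ → ℂ) (z : ℂ) (n : ℕ) : ℂ :=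
  (((1 - ‖z‖ ^ 2) ^ (n + 1) : ℝ) : ℂ) * gg H n z

/-- weighted area integral with the density `|G|^2 (1-|z|^2)^(b-1)` -/
noncomputable def LG (H : ℂ → ℂ) (b : ℝ) (f : ℂ → ℝ) : ℝ :=
  (1 / π) * ∫ z in ball (0 : ℂ) 1, (1 - ‖z‖ ^ 2) ^ (b - 1) * ‖Complex.exp (-H z)‖ ^ 2 * f z

/-- the relation polynomial of the pair `(A, B)` -/
noncomputable def relv (b : ℝ) (c : ℕ → ℂ) (A B : List ℕ) : ℝ :=
  (DG c A * conj (ev c B)).re - (b + wt A + wt B) * (ev c A * conj (ev c B)).re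

/-- the value of a polynomial in the variables and their conjugates -/
noncomputable def evv (c : ℕ → ℂ) (v : List (ℝ × List ℕ × List ℕ)) : ℂ :=
  (v.map (fun x => (x.1 : ℂ) * (ev c x.2.1 * conj (ev c x.2.2)))).sum

/-- the pointwise constraint (area theorem of the square root transform) -/
noncomputable def ell (c : ℕ → ℂ) : ℝ :=
  1 - ‖(1 + c 0) / 2‖ ^ 2 - 3 * ‖c 1 / 2 - (1 + c 0) ^ 2 / 8‖ ^ 2
    - 5 * ‖(c 1 - c 2) / 2 + (1 + c 0) * c 1 / 4 - (1 + c 0) ^ 3 / 16‖ ^ 2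

/-- test data for the lower forms; the variable is `y = 1 - x` -/
structure Test where
  /-- even parts -/
  E : Fin 3 → ℝ → ℝ
  /-- coefficients of the odd parts -/
  α : Fin 3 → ℝ
  /-- coefficients of the odd parts -/
  β : Fin 3 → ℝ
  /-- the quotients by `y` -/
  ν : Fin 3 → ℝ → ℝ
  cont : ∀ r, ContinuousOn (ν r) (Icc 0 1)
  even : ∀ r, ∀ y ∈ Icc (0:ℝ) 1, E r (1 - y) = E r y
  eq : ∀ r, ∀ y ∈ Icc (0:ℝ) 1, E r y + α r * (1 / 2 - y) + β r * (1 / 2 - y) ^ 3 = y * ν r y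

/-- the pairing matrix -/
noncomputable def Test.P (T : Test) (r : Fin 3) : Fin 3 → ℝ :=
  ![(∫ y in (0:ℝ)..1, T.E r y) / 2 + T.α r / 8 + T.β r / 64, -(T.α r) / 2, -(T.β r) / 4]

/-- the quadratic form in the variables `G, K2/m^2, K4/m^4` -/
noncomputable def Test.Qv (T : Test) (b : ℝ) (r s : Fin 3) : ℝ :=
  T.P r s + T.P s r - ∫ y in (0:ℝ)..1, T.ν r y * T.ν s y * y * (1 - y) ^ (b + 2)

/-- change of variables from `G, (G g1)/m^2, (G g3)/m^4` to `G, K2/m^2, K4/m^4` -/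
noncomputable def Mt : Fin 3 → Fin 3 → ℝ := ![![1, 0, 0], ![-(1 / 4), 2, 0], ![5 / 16, -3, 24]]

/-- the quadratic form in the variables `G, (G g1)/m^2, (G g3)/m^4` -/
noncomputable def Qam (Q : Fin 3 → Fin 3 → ℝ) (r s : Fin 3) : ℝ :=
  ∑ i, ∑ j, Mt i r * Q i j * Mt j s

/-- the monomials `1, c1, c3` -/
def am : Fin 3 → List ℕ := ![[], [1], [3]]

/-- the area form in the scaled variables: the coefficients are divided by the Pochhammer symbol
`b (b+1) ... (b+w-1)` of the total weight `w` -/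
noncomputable def qf (Q : Fin 3 → Fin 3 → ℝ) (b : ℝ) (c : ℕ → ℂ) : ℝ :=
  b * (b + 1) * ∑ r, ∑ s, Qam Q r s
    / ((Nat.factorial (wt (am r) + wt (am s)) : ℝ) * pq b (wt (am r) + wt (am s)))
    * (ev c (am r) * conj (ev c (am s))).re

/-- the class of data: a dilated map of the class -/
structure Data (ρ : ℝ) (β H : ℂ → ℂ) (Φ : ℂ → ℂ → ℂ) : Prop where
  one_lt : 1 < ρ
  ext : Ext β
  logPhi : LogPhi β H Φ
  diff : DifferentiableOn ℂ H (ball 0 ρ)
  bloch : ∀ z ∈ ball (0 : ℂ) 1, (1 - ‖z‖ ^ 2) * ‖deriv H z‖ ≤ 28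
  exp_eq : ∀ z ∈ ball (0 : ℂ) 1, Complex.exp (H z) = 1 - z ^ 2 * deriv β z

end Pool.Agent.Helper39.MH

end

section


/-!
MP_16b0ee, project MH, module MH-10: the area theorem for the square root transform of a univalent
function on the unit disc, in terms of the first coefficients.
-/

set_option autoImplicit false

open MeasureTheory Set Metric Filter Topology
open scoped Real ComplexConjugate

namespace Pool.Agent.Helper39.MH

open Pool.Agent.Helper22.Marshall (coeff SepHol LogPhi dcoeff GLe)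
open Pool.Agent.Helper39.Area (Ext phi)

/-- the square of a point of the disc is in the disc -/
private theorem sq_mem {u : ℂ} (hu : u ∈ ball (0 : ℂ) 1) : u ^ 2 ∈ ball (0 : ℂ) 1 := by
  rw [mem_ball_zero_iff] at hu ⊢
  rw [norm_pow]
  nlinarith [norm_nonneg u]

/-- the data of the square root transform -/
private theorem sqrt_data {F : ℂ → ℂ} (hF : DifferentiableOn ℂ F (ball 0 1))
    (hinj : InjOn F (ball 0 1)) (hF0 : F 0 = 0) (hF1 : deriv F 0 = 1) :
    ∃ (g k : ℂ → ℂ), DifferentiableOn ℂ g (ball 0 1) ∧ DifferentiableOn ℂ k (ball 0 1) ∧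
      (∀ s, F s = s * g s) ∧ g 0 = 1 ∧ k 0 = 1 ∧ (∀ s ∈ ball (0 : ℂ) 1, k s * k s * g s = 1) ∧
      (∀ s ∈ ball (0 : ℂ) 1, k s ≠ 0) := by
  have h0b : (0:ℂ) ∈ ball (0:ℂ) 1 := mem_ball_self one_pos
  have hb0 : ball (0:ℂ) 1 ∈ 𝓝 (0:ℂ) := ball_mem_nhds 0 one_pos
  set g : ℂ → ℂ := dslope F 0 with hg
  have hgd : DifferentiableOn ℂ g (ball 0 1) := (Complex.differentiableOn_dslope hb0).mpr hF
  have hg0 : g 0 = 1 := by rw [hg, dslope_same, hF1]
  have hgf : ∀ s : ℂ, F s = s * g s := by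
    intro s
    by_cases h : s = 0
    · subst h; simp [hF0]
    · rw [hg, dslope_of_ne _ h, slope_def_field, hF0]
      field_simp
      ring
  have hgne : ∀ s ∈ ball (0:ℂ) 1, g s ≠ 0 := by
    intro s hs h
    by_cases h0 : s = 0
    · subst h0; rw [hg0] at h; exact one_ne_zero h
    · apply h0
      apply hinj hs h0b
      rw [hgf s, h, mul_zero, hF0]
  obtain ⟨L, hL, hL0, hLe⟩ := Pool.Agent.Helper24.Br.exists_log_ball hgd hgne hg0
  refine ⟨g, fun s => Complex.exp (-(L s) / 2), hgd, ?_, hgf, hg0, ?_, ?_, ?_⟩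
  · exact ((hL.neg).div_const 2).cexp
  · simp only [hL0, neg_zero, zero_div, Complex.exp_zero]
  · intro s hs
    rw [← hLe s hs, ← Complex.exp_add, ← Complex.exp_add]
    have : -L s / 2 + -L s / 2 + L s = 0 := by ring
    rw [this, Complex.exp_zero]
  · intro s _
    exact Complex.exp_ne_zero _

/-- the square root transform is in the class -/
private theorem sqrt_ext {F g k : ℂ → ℂ} (hF : DifferentiableOn ℂ F (ball 0 1))
    (hinj : InjOn F (ball 0 1)) (hk : DifferentiableOn ℂ k (ball 0 1))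
    (hgf : ∀ s, F s = s * g s) (hk0 : k 0 = 1)
    (hkg : ∀ s ∈ ball (0 : ℂ) 1, k s * k s * g s = 1) (hkne : ∀ s ∈ ball (0 : ℂ) 1, k s ≠ 0) :
    ∃ β : ℂ → ℂ, Ext β ∧ ∀ u ∈ ball (0 : ℂ) 1, u ≠ 0 → phi β u = k (u ^ 2) / u := by
  have h0b : (0:ℂ) ∈ ball (0:ℂ) 1 := mem_ball_self one_pos
  have hb0 : ball (0:ℂ) 1 ∈ 𝓝 (0:ℂ) := ball_mem_nhds 0 one_pos
  set k1 : ℂ → ℂ := dslope k 0 with hk1
  have hk1d : DifferentiableOn ℂ k1 (ball 0 1) := (Complex.differentiableOn_dslope hb0).mpr hk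
  have hk1e : ∀ s : ℂ, s ≠ 0 → k1 s = (k s - 1) / s := by
    intro s hs
    rw [hk1, dslope_of_ne _ hs, slope_def_field, hk0, sub_zero]
  set β : ℂ → ℂ := fun u => u * k1 (u ^ 2) with hβ
  have hsq : MapsTo (fun u : ℂ => u ^ 2) (ball (0:ℂ) 1) (ball (0:ℂ) 1) := fun u hu => sq_mem hu
  have hβd : DifferentiableOn ℂ β (ball 0 1) := by
    have h1 : DifferentiableOn ℂ (fun u : ℂ => k1 (u ^ 2)) (ball 0 1) :=
      hk1d.comp (by fun_prop) hsq
    exact differentiableOn_id.mul h1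
  have hphi : ∀ u : ℂ, u ≠ 0 → u⁻¹ + β u = k (u ^ 2) / u := by
    intro u hu
    have h2 : u ^ 2 ≠ 0 := pow_ne_zero _ hu
    simp only [hβ]
    rw [hk1e _ h2]
    field_simp
    ring
  -- the relation with F
  have hrel : ∀ u ∈ ball (0:ℂ) 1, u ≠ 0 → (u⁻¹ + β u) ^ 2 * F (u ^ 2) = 1 := by
    intro u hu h0
    rw [hphi u h0, hgf]
    have h3 := hkg _ (sq_mem hu)
    have : (k (u ^ 2) / u) ^ 2 * (u ^ 2 * g (u ^ 2)) = k (u ^ 2) * k (u ^ 2) * g (u ^ 2) := by
      field_simp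
    rw [this, h3]
  have hinj2 : ∀ u w : ℂ, u ∈ ball (0:ℂ) 1 → w ∈ ball (0:ℂ) 1 → u ≠ 0 → w ≠ 0 →
      u⁻¹ + β u = w⁻¹ + β w → u = w := by
    intro u w hu hw hu0 hw0 h
    have h1 := hrel u hu hu0
    have h2 := hrel w hw hw0
    rw [h] at h1
    have hne : (w⁻¹ + β w) ^ 2 ≠ 0 := by
      intro h3
      rw [h3, zero_mul] at h2
      exact zero_ne_one h2
    have h3 : F (u ^ 2) = F (w ^ 2) := mul_left_cancel₀ hne (h1.trans h2.symm)
    have h4 : u ^ 2 = w ^ 2 := hinj (sq_mem hu) (sq_mem hw) h3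
    rw [hphi u hu0, hphi w hw0, h4] at h
    have h5 := hkne _ (sq_mem hw)
    rw [div_eq_div_iff hu0 hw0] at h
    exact (mul_left_cancel₀ h5 h).symm
  refine ⟨β, ⟨hβd, hinj2, ?_⟩, fun u _ h0 => hphi u h0⟩
  intro u hu
  by_cases h0 : u = 0
  · subst h0; simp
  · intro hcon
    have hub : ball (0:ℂ) 1 ∈ 𝓝 u := isOpen_ball.mem_nhds hu
    have h1 : HasDerivAt (fun u : ℂ => u⁻¹ + β u) (-(u ^ 2)⁻¹ + deriv β u) u :=
      (hasDerivAt_inv h0).add ((hβd.differentiableAt hub).hasDerivAt)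
    have hz : -(u ^ 2)⁻¹ + deriv β u = 0 := by
      have h2 : u ^ 2 ≠ 0 := pow_ne_zero _ h0
      have h3 : deriv β u = 1 / u ^ 2 := by
        rw [eq_div_iff h2]
        linear_combination -hcon
      rw [h3]
      field_simp
      ring
    rw [hz] at h1
    have h2 : HasDerivAt (fun u : ℂ => F (u ^ 2)) (deriv F (u ^ 2) * (2 * u)) u := by
      have h3 : HasDerivAt F (deriv F (u ^ 2)) (u ^ 2) :=
        (hF.differentiableAt (isOpen_ball.mem_nhds (sq_mem hu))).hasDerivAt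
      have h4 : HasDerivAt (fun u : ℂ => u ^ 2) (2 * u) u := by
        simpa using hasDerivAt_pow 2 u
      exact h3.comp u h4
    have h3 := (h1.pow 2).mul h2
    have h4 : (fun u : ℂ => (u⁻¹ + β u) ^ 2 * F (u ^ 2)) =ᶠ[𝓝 u] fun _ => (1 : ℂ) := by
      filter_upwards [hub, isOpen_ne.mem_nhds h0] with w hw hw0
      exact hrel w hw hw0
    have h5 := (h3.congr_of_eventuallyEq h4.symm).unique (hasDerivAt_const u (1 : ℂ))
    have h6 : (u⁻¹ + β u) ^ 2 ≠ 0 := by
      intro h7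
      have h8 := hrel u hu h0
      rw [h7, zero_mul] at h8
      exact zero_ne_one h8
    have h7 : (u⁻¹ + β u) ^ 2 * (deriv F (u ^ 2) * (2 * u)) = 0 := by
      simpa using h5
    have h8 := Pool.Agent.Helper24.Br.deriv_ne_of_inj isOpen_ball hF hinj (sq_mem hu)
    rcases mul_eq_zero.mp h7 with h9 | h9
    · exact h6 h9
    · rcases mul_eq_zero.mp h9 with h10 | h10
      · exact h8 h10
      · exact h0 (by simpa using h10)

theorem sqrt_area {F : ℂ → ℂ} (hF : DifferentiableOn ℂ F (ball 0 1)) (hinj : InjOn F (ball 0 1))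
    (hF0 : F 0 = 0) (hF1 : deriv F 0 = 1) {a2 a3 a4 : ℂ} (h2 : coeff F 2 = a2)
    (h3 : coeff F 3 = a3) (h4 : coeff F 4 = a4) {B0 B1 B2 : ℂ} (hB0 : B0 = -a2)
    (hB1 : B1 = a2 ^ 2 - a3) (hB2 : B2 = -a4 + 2 * a2 * a3 - a2 ^ 3) :
    ‖B0 / 2‖ ^ 2 + 3 * ‖B1 / 2 - B0 ^ 2 / 8‖ ^ 2
      + 5 * ‖B2 / 2 - B0 * B1 / 4 + B0 ^ 3 / 16‖ ^ 2 ≤ 1 := by
  obtain ⟨g, k, hg, hk, hgf, hg0, hk0, hkg, hkne⟩ := sqrt_data hF hinj hF0 hF1
  obtain ⟨β, hE, hphi⟩ := sqrt_ext hF hinj hk hgf hk0 hkg hkne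
  have hb0 : ball (0:ℂ) 1 ∈ 𝓝 (0:ℂ) := ball_mem_nhds 0 one_pos
  have hga : AnalyticAt ℂ g 0 := hg.analyticAt hb0
  have hka : AnalyticAt ℂ k 0 := hk.analyticAt hb0
  -- the coefficients of g
  have hcg : ∀ n, coeff F (n + 1) = coeff g n := by
    intro n
    have e : F = fun z => z * g z := funext hgf
    have ha : AnalyticAt ℂ (fun z : ℂ => z) 0 := analyticAt_id
    rw [e, Pool.Agent.Helper22.Marshall.coeff_mul ha hga, Finset.sum_eq_single 1]
    · have : coeff (fun z : ℂ => z) 1 = 1 := by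
        rw [Pool.Agent.Helper22.Marshall.coeff_one]
        simp
      rw [this, one_mul]
      rfl
    · intro i _ hi
      have : coeff (fun z : ℂ => z) i = 0 := by
        rcases Nat.eq_zero_or_pos i with h | h
        · subst h
          rw [Pool.Agent.Helper22.Marshall.coeff_zero]
        · have h1 : coeff (fun z : ℂ => z) i = (if i = 1 then 1 else 0 : ℂ) := by
            apply Pool.Agent.Helper22.Marshall.coeff_eq_of_hasSum
              (a := fun i => if i = 1 then 1 else 0) one_pos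
            intro z _
            have h2 : HasSum (fun n : ℕ => (if n = 1 then 1 else 0 : ℂ) * z ^ n)
                ((if 1 = 1 then 1 else 0 : ℂ) * z ^ 1) := by
              apply hasSum_single
              intro b hb
              rw [if_neg hb, zero_mul]
            simpa using h2
          rw [h1, if_neg hi]
      rw [this, zero_mul]
    · intro h
      exact absurd (Finset.mem_range.mpr (by omega)) h
  have g0 : coeff g 0 = 1 := by rw [Pool.Agent.Helper22.Marshall.coeff_zero, hg0]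
  have g1 : coeff g 1 = a2 := by rw [← hcg, h2]
  have g2 : coeff g 2 = a3 := by rw [← hcg, h3]
  have g3 : coeff g 3 = a4 := by rw [← hcg, h4]
  have k0 : coeff k 0 = 1 := by rw [Pool.Agent.Helper22.Marshall.coeff_zero, hk0]
  -- the coefficients of the product
  have hprod : (fun z => k z * k z * g z) =ᶠ[𝓝 0] fun _ => (1 : ℂ) := by
    filter_upwards [hb0] with z hz
    exact hkg z hz
  have hone : ∀ n, 0 < n → coeff (fun _ : ℂ => (1 : ℂ)) n = 0 := by
    intro n hn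
    have h1 : coeff (fun _ : ℂ => (1 : ℂ)) n = (if n = 0 then 1 else 0 : ℂ) := by
      apply Pool.Agent.Helper22.Marshall.coeff_eq_of_hasSum
        (a := fun i => if i = 0 then 1 else 0) one_pos
      intro z _
      have h2 : HasSum (fun n : ℕ => (if n = 0 then 1 else 0 : ℂ) * z ^ n)
          ((if 0 = 0 then 1 else 0 : ℂ) * z ^ 0) := by
        apply hasSum_single
        intro b hb
        rw [if_neg hb, zero_mul]
      simpa using h2
    rw [h1, if_neg (by omega)]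
  have hkk : ∀ n, coeff (fun z => k z * k z) n
      = ∑ i ∈ Finset.range (n + 1), coeff k i * coeff k (n - i) :=
    fun n => Pool.Agent.Helper22.Marshall.coeff_mul hka hka n
  have hpr : ∀ n, 0 < n → ∑ i ∈ Finset.range (n + 1), coeff (fun z => k z * k z) i
      * coeff g (n - i) = 0 := by
    intro n hn
    have hka2 : AnalyticAt ℂ (fun z => k z * k z) 0 := hka.mul hka
    rw [← Pool.Agent.Helper22.Marshall.coeff_mul hka2 hga n,
      Pool.Agent.Helper22.Marshall.coeff_congr hprod, hone n hn]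
  have q0 : coeff (fun z => k z * k z) 0 = 1 := by
    rw [hkk]; simp [k0]
  have q1 : coeff (fun z => k z * k z) 1 = 2 * coeff k 1 := by
    rw [hkk]; simp [Finset.sum_range_succ, k0]; ring
  have q2 : coeff (fun z => k z * k z) 2 = 2 * coeff k 2 + coeff k 1 ^ 2 := by
    rw [hkk]; simp [Finset.sum_range_succ, k0]; ring
  have q3 : coeff (fun z => k z * k z) 3 = 2 * coeff k 3 + 2 * coeff k 1 * coeff k 2 := by
    rw [hkk]; simp [Finset.sum_range_succ, k0]; ring
  have r1 := hpr 1 (by norm_num)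
  have r2 := hpr 2 (by norm_num)
  have r3 := hpr 3 (by norm_num)
  simp only [Finset.sum_range_succ, Finset.sum_range_zero, zero_add, Nat.sub_zero, Nat.sub_self,
    show (2 - 1 : ℕ) = 1 from rfl, show (3 - 1 : ℕ) = 2 from rfl,
    q0, q1, q2, q3, g0, g1, g2, g3] at r1 r2 r3
  have c1 : coeff k 1 = B0 / 2 := by
    rw [hB0]; linear_combination r1 / 2
  have c2 : coeff k 2 = B1 / 2 - B0 ^ 2 / 8 := by
    rw [hB1, hB0]
    have c1' : coeff k 1 = -a2 / 2 := by rw [c1, hB0]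
    rw [c1'] at r2
    linear_combination r2 / 2
  have c3 : coeff k 3 = B2 / 2 - B0 * B1 / 4 + B0 ^ 3 / 16 := by
    rw [hB2, hB1, hB0]
    have c1' : coeff k 1 = -a2 / 2 := by rw [c1, hB0]
    have c2' : coeff k 2 = (a2 ^ 2 - a3) / 2 - a2 ^ 2 / 8 := by rw [c2, hB1, hB0]; ring
    rw [c1', c2'] at r3
    linear_combination r3 / 2
  -- the area inequality
  have hv : ∀ ζ : ℂ, ζ ≠ 0 → ‖ζ‖ < 1 →
      HasSum (fun m => (if Even m then coeff k (m / 2) else 0) * ζ ^ m)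
        (ζ ^ 1 * (Polynomial.X : Polynomial ℂ).eval (phi β ζ)) := by
    intro ζ h0 hζ
    have hζb : ζ ∈ ball (0:ℂ) 1 := mem_ball_zero_iff.mpr hζ
    have e1 : ζ ^ 1 * (Polynomial.X : Polynomial ℂ).eval (phi β ζ) = k (ζ ^ 2) := by
      rw [Polynomial.eval_X, hphi ζ hζb h0]
      field_simp
    rw [e1]
    have h5 := Pool.Agent.Helper22.Marshall.hasSum_coeff hk
      (z := ζ ^ 2) (by simpa using sq_mem hζb)
    have hi : Function.Injective (fun j : ℕ => 2 * j) := by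
      intro a b hab
      have : 2 * a = 2 * b := hab
      omega
    rw [← hi.hasSum_iff]
    · refine h5.congr_fun ?_
      intro j
      simp only [Function.comp]
      rw [if_pos (even_two_mul j), Nat.mul_div_cancel_left _ two_pos, pow_mul]
    · intro m hm
      rw [if_neg, zero_mul]
      intro hev
      apply hm
      obtain ⟨r, hr⟩ := hev
      exact ⟨r, by simp only; omega⟩
  have hA := Pool.Agent.Helper22.Marshall.gLe_one hE 1 Polynomial.X _
    (by rw [Polynomial.natDegree_X]) hv 7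
  simp only [Finset.sum_range_succ, Finset.sum_range_zero, zero_add] at hA
  have e0 : (Even 0) := ⟨0, rfl⟩
  have e2 : (Even 2) := ⟨1, rfl⟩
  have e4 : (Even 4) := ⟨2, rfl⟩
  have e6 : (Even 6) := ⟨3, rfl⟩
  have o1 : ¬ (Even 1) := by decide
  have o3 : ¬ (Even 3) := by decide
  have o5 : ¬ (Even 5) := by decide
  simp only [if_pos e0, if_pos e2, if_pos e4, if_pos e6, if_neg o1, if_neg o3, if_neg o5] at hA
  norm_num at hA
  rw [k0, c1, c2, c3] at hA
  simpa using hA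

end Pool.Agent.Helper39.MH

end

section

set_option autoImplicit false
open Complex Metric Set Filter Topology

/-! The one quarter theorem of Koebe for functions without zeros. -/

namespace Pool.Agent.Helper84.EK

open Pool.Agent.Helper22.Marshall (coeff coeff_zero coeff_one coeff_mul coeff_congr)

/-- the second coefficient of a univalent function is at most 2 -/
theorem second_le_two {f : ℂ → ℂ} (hf : DifferentiableOn ℂ f (ball 0 1))
    (hinj : InjOn f (ball 0 1)) (h0 : f 0 = 0) (h1 : deriv f 0 = 1) : ‖coeff f 2‖ ≤ 2 := by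
  have h := Pool.Agent.Helper39.MH.sqrt_area hf hinj h0 h1 (a2 := coeff f 2) (a3 := coeff f 3)
    (a4 := coeff f 4) rfl rfl rfl (B0 := -coeff f 2) (B1 := coeff f 2 ^ 2 - coeff f 3)
    (B2 := -coeff f 4 + 2 * coeff f 2 * coeff f 3 - coeff f 2 ^ 3) rfl rfl rfl
  have h2 : ‖-coeff f 2 / 2‖ ^ 2 ≤ 1 := by
    refine le_trans ?_ h
    rw [add_assoc]
    exact le_add_of_nonneg_right (by positivity)
  rw [norm_div, norm_neg] at h2
  have h3 : ‖(2:ℂ)‖ = 2 := by simp
  rw [h3] at h2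
  have h4 := norm_nonneg (coeff f 2)
  nlinarith

/-- **Koebe**: `‖g' 0‖ ≤ 4 ‖g 0‖` for `g` univalent without zeros in the unit disc -/
theorem koebe {g : ℂ → ℂ} (hg : DifferentiableOn ℂ g (ball 0 1)) (hinj : InjOn g (ball 0 1))
    (hne : ∀ z ∈ ball (0:ℂ) 1, g z ≠ 0) : ‖deriv g 0‖ ≤ 4 * ‖g 0‖ := by
  have h0b : (0:ℂ) ∈ ball (0:ℂ) 1 := mem_ball_self one_pos
  have hb0 : ball (0:ℂ) 1 ∈ 𝓝 (0:ℂ) := ball_mem_nhds 0 one_pos
  have hd : deriv g 0 ≠ 0 := Pool.Agent.Helper24.Br.deriv_ne_of_inj isOpen_ball hg hinj h0b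
  have hg0 : g 0 ≠ 0 := hne 0 h0b
  have hgd : HasDerivAt g (deriv g 0) 0 := (hg.differentiableAt hb0).hasDerivAt
  set d := deriv g 0 with hdd
  set c := g 0 with hc
  set f : ℂ → ℂ := fun z => (g z - c) / d with hf
  set f2 : ℂ → ℂ := fun z => c / d * (1 - c / g z) with hf2
  set k : ℂ → ℂ := fun z => g z / c with hk
  have hfd : DifferentiableOn ℂ f (ball 0 1) := (hg.sub_const c).div_const d
  have hf2d : DifferentiableOn ℂ f2 (ball 0 1) := by
    apply DifferentiableOn.const_mul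
    apply DifferentiableOn.const_sub
    exact (differentiableOn_const c).div hg hne
  have hkd : DifferentiableOn ℂ k (ball 0 1) := hg.div_const c
  have hfi : InjOn f (ball 0 1) := by
    intro z hz w hw h
    apply hinj hz hw
    simp only [hf] at h
    rw [div_left_inj' hd] at h
    linear_combination h
  have hf2i : InjOn f2 (ball 0 1) := by
    intro z hz w hw h
    apply hinj hz hw
    simp only [hf2] at h
    have h1 := mul_left_cancel₀ (div_ne_zero hg0 hd) h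
    have h2 : c / g z = c / g w := by linear_combination -h1
    rw [div_eq_div_iff (hne z hz) (hne w hw)] at h2
    exact (mul_left_cancel₀ hg0 h2).symm
  have hf0 : f 0 = 0 := by simp [hf, hc]
  have hf20 : f2 0 = 0 := by
    simp only [hf2]
    rw [← hc, div_self hg0, sub_self, mul_zero]
  have hf1 : deriv f 0 = 1 := by
    have h1 : HasDerivAt f (d / d) 0 := (hgd.sub_const c).div_const d
    rw [h1.deriv, div_self hd]
  have hf21 : deriv f2 0 = 1 := by
    have h1 : HasDerivAt f2 (c / d * -((0 * g 0 - c * d) / g 0 ^ 2)) 0 :=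
      (((hasDerivAt_const (0:ℂ) c).div hgd hg0).const_sub 1).const_mul (c / d)
    rw [h1.deriv, ← hc]
    field_simp
    ring
  have e1 := second_le_two hfd hfi hf0 hf1
  have e2 := second_le_two hf2d hf2i hf20 hf21
  have hprod : f =ᶠ[𝓝 0] fun z => f2 z * k z := by
    filter_upwards [hb0] with z hz
    have h1 := hne z hz
    simp only [hf, hf2, hk]
    field_simp
  have e3 : coeff f 2 = coeff f2 2 + d / c := by
    rw [coeff_congr hprod, coeff_mul (hf2d.analyticAt hb0) (hkd.analyticAt hb0)]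
    simp only [Finset.sum_range_succ, Finset.sum_range_zero, zero_add, Nat.sub_zero, Nat.sub_self,
      show (2 - 1 : ℕ) = 1 from rfl]
    have k0 : coeff k 0 = 1 := by
      rw [coeff_zero]
      simp only [hk]
      exact div_self hg0
    have k1 : coeff k 1 = d / c := by
      rw [coeff_one]
      exact (hgd.div_const c).deriv
    rw [k0, k1, coeff_zero, hf20, coeff_one, hf21]
    ring
  have e4 : ‖d / c‖ ≤ 4 := by
    have h1 : d / c = coeff f 2 - coeff f2 2 := by rw [e3]; ring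
    rw [h1]
    exact (norm_sub_le _ _).trans (by linarith)
  rw [norm_div, div_le_iff₀ (norm_pos_iff.mpr hg0)] at e4
  exact e4

/-- Koebe in a disc of radius `r` -/
theorem koebe_r {g : ℂ → ℂ} {r : ℝ} (hr : 0 < r) (hg : DifferentiableOn ℂ g (ball 0 r))
    (hinj : InjOn g (ball 0 r)) (hne : ∀ z ∈ ball (0:ℂ) r, g z ≠ 0) :
    ‖deriv g 0‖ * r ≤ 4 * ‖g 0‖ := by
  have hm : MapsTo (fun z : ℂ => (r : ℂ) * z) (ball 0 1) (ball 0 r) := by
    intro z hz
    rw [mem_ball_zero_iff] at hz ⊢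
    rw [norm_mul, Complex.norm_real, Real.norm_of_nonneg hr.le]
    nlinarith
  have hr0 : (r : ℂ) ≠ 0 := by exact_mod_cast hr.ne'
  have h1 := koebe (g := fun z => g ((r : ℂ) * z)) (hg.comp (by fun_prop) hm)
    (by
      intro z hz w hw h
      exact mul_left_cancel₀ hr0 (hinj (hm hz) (hm hw) h))
    (fun z hz => hne _ (hm hz))
  have h0r : (0:ℂ) ∈ ball (0:ℂ) r := mem_ball_self hr
  have h2 : HasDerivAt g (deriv g 0) ((r:ℂ) * 0) := by
    rw [mul_zero]
    exact (hg.differentiableAt (isOpen_ball.mem_nhds h0r)).hasDerivAt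
  have h3 : HasDerivAt (fun z : ℂ => (r : ℂ) * z) (r : ℂ) 0 := by
    simpa using (hasDerivAt_id (0:ℂ)).const_mul (r : ℂ)
  have h4 : deriv (fun z => g ((r : ℂ) * z)) 0 = deriv g 0 * r := (h2.comp (0:ℂ) h3).deriv
  rw [h4, norm_mul, Complex.norm_real, Real.norm_of_nonneg hr.le] at h1
  simpa using h1

end Pool.Agent.Helper84.EK

end

section

set_option autoImplicit false
open Complex Metric Set Filter Topology
open scoped Real

/-! Project EK3, module (b): the bound of Koebe on the centre line of the strip. -/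

namespace Pool.Agent.Helper84.EK

open Pool.Agent.Helper39.Area Pool.Agent.Helper52.EK

/-- Koebe at the point `z₀` of the segment `(0, a)` -/
theorem koebe_at {β : ℂ → ℂ} (h : Ext β) {a z₀ r : ℝ} (ha1 : a < 1) (hz₀ : 0 < z₀)
    (hza : z₀ < a) (hr : 0 < r) (hr1 : r ≤ z₀) (hr2 : r * (1 - a * z₀) ≤ a - z₀) :
    ‖dphi β z₀‖ * (1 - z₀ ^ 2) * r ≤ 4 * ‖phi β z₀ - phi β a‖ := by
  have ha : 0 < a := hz₀.trans hza
  have hz1 : z₀ < 1 := hza.trans ha1
  have haz : 0 < 1 - a * z₀ := by nlinarith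
  set M : ℂ → ℂ := fun u => (u + z₀) / (1 + z₀ * u) with hM
  have hden : ∀ u ∈ ball (0:ℂ) r, (1 + (z₀ : ℂ) * u) ≠ 0 := by
    intro u hu h0
    rw [mem_ball_zero_iff] at hu
    have h1 : (z₀ : ℂ) * u = -1 := by linear_combination h0
    have h2 : z₀ * ‖u‖ = 1 := by
      have := congrArg (fun w : ℂ => ‖w‖) h1
      simpa [Complex.norm_real, abs_of_pos hz₀] using this
    nlinarith [norm_nonneg u]
  have hMb : ∀ u ∈ ball (0:ℂ) r, M u ∈ ball (0:ℂ) 1 := by
    intro u hu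
    have h1 := hden u hu
    rw [mem_ball_zero_iff] at hu ⊢
    simp only [hM]
    rw [norm_div, div_lt_one (norm_pos_iff.mpr h1)]
    have h2 : ‖u + z₀‖ ^ 2 < ‖1 + (z₀ : ℂ) * u‖ ^ 2 := by
      have h3 : ‖u‖ ^ 2 = u.re ^ 2 + u.im ^ 2 := by
        rw [← Complex.normSq_eq_norm_sq, Complex.normSq_apply]
        ring
      have h4 : ‖u‖ ^ 2 < 1 := by nlinarith [norm_nonneg u]
      rw [← Complex.normSq_eq_norm_sq, ← Complex.normSq_eq_norm_sq, Complex.normSq_apply,
        Complex.normSq_apply]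
      simp only [Complex.add_re, Complex.add_im, Complex.ofReal_re, Complex.ofReal_im,
        Complex.one_re, Complex.one_im, Complex.mul_re, Complex.mul_im, add_zero, zero_add,
        zero_mul, sub_zero]
      have h5 : 0 < (1 - (u.re ^ 2 + u.im ^ 2)) * (1 - z₀ ^ 2) := by
        apply mul_pos
        · rw [← h3]; linarith
        · nlinarith
      nlinarith
    exact lt_of_pow_lt_pow_left₀ 2 (norm_nonneg _) h2
  have hM0 : ∀ u ∈ ball (0:ℂ) r, M u ≠ 0 := by
    intro u hu h0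
    have h1 := hden u hu
    simp only [hM] at h0
    rw [div_eq_zero_iff] at h0
    rcases h0 with h0 | h0
    · have h2 : u = -(z₀ : ℂ) := by linear_combination h0
      rw [mem_ball_zero_iff, h2, norm_neg, Complex.norm_real, Real.norm_of_nonneg hz₀.le] at hu
      linarith
    · exact h1 h0
  have hMa : ∀ u ∈ ball (0:ℂ) r, M u ≠ a := by
    intro u hu h0
    have h1 := hden u hu
    simp only [hM] at h0
    rw [div_eq_iff h1] at h0
    have h2 : u * ((1 - a * z₀ : ℝ) : ℂ) = ((a - z₀ : ℝ) : ℂ) := by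
      push_cast
      linear_combination h0
    have h3 := congrArg (fun w : ℂ => ‖w‖) h2
    simp only [norm_mul, Complex.norm_real] at h3
    rw [Real.norm_of_nonneg haz.le, Real.norm_of_nonneg (by linarith)] at h3
    rw [mem_ball_zero_iff] at hu
    nlinarith
  have hMi : ∀ u ∈ ball (0:ℂ) r, ∀ v ∈ ball (0:ℂ) r, M u = M v → u = v := by
    intro u hu v hv h0
    simp only [hM] at h0
    rw [div_eq_div_iff (hden u hu) (hden v hv)] at h0
    have h1 : (u - v) * ((1 - z₀ ^ 2 : ℝ) : ℂ) = 0 := by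
      push_cast
      linear_combination h0
    have h2 : ((1 - z₀ ^ 2 : ℝ) : ℂ) ≠ 0 := by
      have : (1 - z₀ ^ 2 : ℝ) ≠ 0 := by nlinarith
      exact_mod_cast this
    exact sub_eq_zero.mp ((mul_eq_zero.mp h1).resolve_right h2)
  have hMd : ∀ u ∈ ball (0:ℂ) r, DifferentiableAt ℂ M u := by
    intro u hu
    exact DifferentiableAt.div (by fun_prop) (by fun_prop) (hden u hu)
  have haB : (a : ℂ) ∈ ball (0:ℂ) 1 := by
    rw [mem_ball_zero_iff, Complex.norm_real, Real.norm_of_nonneg ha.le]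
    exact ha1
  have ha0 : (a : ℂ) ≠ 0 := by exact_mod_cast ha.ne'
  have hphi : ∀ z ∈ ball (0:ℂ) 1, z ≠ 0 → HasDerivAt (phi β) (dphi β z) z :=
    fun z hz h0 => hasDerivAt_phi h.diff hz h0
  have h0r : (0:ℂ) ∈ ball (0:ℂ) r := mem_ball_self hr
  have hk := koebe_r (g := fun u => phi β (M u) - phi β a) hr
    (by
      intro u hu
      have h1 := (hphi (M u) (hMb u hu) (hM0 u hu)).differentiableAt
      exact ((h1.comp u (hMd u hu)).sub_const _).differentiableWithinAt)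
    (by
      intro u hu v hv huv
      have h1 : phi β (M u) = phi β (M v) := by
        have h2 : phi β (M u) - phi β a = phi β (M v) - phi β a := huv
        linear_combination h2
      exact hMi u hu v hv (h.inj _ _ (hMb u hu) (hMb v hv) (hM0 u hu) (hM0 v hv) h1))
    (by
      intro u hu h1
      exact hMa u hu (h.inj _ _ (hMb u hu) haB (hM0 u hu) ha0 (sub_eq_zero.mp h1)))
  have hM00 : M 0 = z₀ := by simp [hM]
  have hMd0 : HasDerivAt M ((1 - z₀ ^ 2 : ℝ) : ℂ) 0 := by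
    have h1 : HasDerivAt (fun u : ℂ => u + (z₀ : ℂ)) 1 0 := (hasDerivAt_id _).add_const _
    have h2 : HasDerivAt (fun u : ℂ => 1 + (z₀ : ℂ) * u) (z₀ : ℂ) 0 := by
      simpa using ((hasDerivAt_id (0:ℂ)).const_mul (z₀ : ℂ)).const_add 1
    have h3 := h1.div h2 (hden 0 h0r)
    have e : ((1 - z₀ ^ 2 : ℝ) : ℂ) = (1 * (1 + (z₀ : ℂ) * 0) - (0 + (z₀ : ℂ)) * z₀) /
        (1 + (z₀ : ℂ) * 0) ^ 2 := by
      push_cast
      ring
    rw [e]
    exact h3
  have hz₀B : (z₀ : ℂ) ∈ ball (0:ℂ) 1 := by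
    rw [mem_ball_zero_iff, Complex.norm_real, Real.norm_of_nonneg hz₀.le]
    exact hz1
  have hz₀0 : (z₀ : ℂ) ≠ 0 := by exact_mod_cast hz₀.ne'
  have hG : HasDerivAt (fun u => phi β (M u) - phi β a) (dphi β z₀ * ((1 - z₀ ^ 2 : ℝ) : ℂ)) 0 := by
    have h1 : HasDerivAt (phi β) (dphi β z₀) (M 0) := by
      rw [hM00]
      exact hphi _ hz₀B hz₀0
    exact (h1.comp (0:ℂ) hMd0).sub_const _
  rw [hG.deriv, norm_mul, Complex.norm_real, Real.norm_of_nonneg (by nlinarith)] at hk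
  simpa [hM00] using hk

theorem exp_pt_half (ξ : ℝ) : Complex.exp (pt ξ (π / 2)) = (Real.exp ξ : ℂ) * I := by
  have h1 : pt ξ (π / 2) = (ξ : ℂ) + (π : ℂ) / 2 * I := by
    unfold pt
    push_cast
    ring
  rw [h1, Complex.exp_add, ← Complex.ofReal_exp]
  congr 1
  rw [show (π : ℂ) / 2 * I = ((π / 2 : ℝ) : ℂ) * I by push_cast; ring, Complex.exp_mul_I,
    ← Complex.ofReal_cos, ← Complex.ofReal_sin, Real.cos_pi_div_two, Real.sin_pi_div_two]
  simp

/-- **the bound of Koebe on the centre line** -/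
theorem centre {β : ℂ → ℂ} (h : Ext β) {a : ℝ} (ha : 0 < a) (ha1 : a < 1) {ξ : ℝ}
    (h1 : Real.log (tau a) < ξ) (h2 : ξ < 0) :
    ‖Xf β a (pt ξ (π / 2))‖ ≤ max ((1 + Real.exp ξ) / (1 - Real.exp ξ))
      ((Real.exp ξ + tau a) / (Real.exp ξ - tau a)) := by
  have hτ : 0 < tau a := by
    unfold tau
    have : 0 < 1 - a := by linarith
    positivity
  have hy0 : 0 < Real.exp ξ := Real.exp_pos ξ
  have hy1 : Real.exp ξ < 1 := by
    rw [← Real.exp_zero]
    exact Real.exp_lt_exp.mpr h2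
  have hyτ : tau a < Real.exp ξ := (Real.log_lt_iff_lt_exp hτ).mp h1
  set y := Real.exp ξ with hy
  set t := tau a with ht
  have hat : a = (1 - t) / (1 + t) := by
    rw [ht]
    unfold tau
    field_simp
    ring
  set z₀ : ℝ := (1 - y) / (1 + y) with hz₀
  have hzpos : 0 < z₀ := div_pos (by linarith) (by linarith)
  have hza : z₀ < a := by
    rw [hat, hz₀, div_lt_div_iff₀ (by linarith) (by linarith)]
    nlinarith
  set m := max ((1 + y) / (1 - y)) ((y + t) / (y - t)) with hm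
  have hm1 : (1 + y) / (1 - y) ≤ m := le_max_left _ _
  have hm2 : (y + t) / (y - t) ≤ m := le_max_right _ _
  have hmpos : 0 < m := lt_of_lt_of_le (div_pos (by linarith) (by linarith)) hm1
  have hr : 0 < m⁻¹ := inv_pos.mpr hmpos
  have hr1 : m⁻¹ ≤ z₀ := by
    rw [inv_le_comm₀ hmpos hzpos, hz₀, inv_div]
    exact hm1
  have hr2 : m⁻¹ * (1 - a * z₀) ≤ a - z₀ := by
    have e1 : 1 - a * z₀ = 2 * (y + t) / ((1 + t) * (1 + y)) := by
      rw [hat, hz₀]
      field_simp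
      ring
    have e2 : a - z₀ = 2 * (y - t) / ((1 + t) * (1 + y)) := by
      rw [hat, hz₀]
      field_simp
      ring
    rw [e1, e2, inv_mul_le_iff₀ hmpos, ← mul_div_assoc]
    apply div_le_div_of_nonneg_right _ (by positivity)
    rw [div_le_iff₀ (by linarith)] at hm2
    linarith
  have hk := koebe_at h ha1 hzpos hza hr hr1 hr2
  have haB : (a : ℂ) ∈ ball (0:ℂ) 1 := by
    rw [mem_ball_zero_iff, Complex.norm_real, Real.norm_of_nonneg ha.le]
    exact ha1
  have hzB : (z₀ : ℂ) ∈ ball (0:ℂ) 1 := by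
    rw [mem_ball_zero_iff, Complex.norm_real, Real.norm_of_nonneg hzpos.le]
    exact hza.trans ha1
  have hne : phi β (z₀ : ℂ) - phi β (a : ℂ) ≠ 0 := by
    intro h0
    have h3 := h.inj _ _ hzB haB (by exact_mod_cast hzpos.ne') (by exact_mod_cast ha.ne')
      (sub_eq_zero.mp h0)
    have h4 : z₀ = a := by exact_mod_cast h3
    linarith
  have hE := exp_pt_half ξ
  rw [← hy] at hE
  have hy1' : (1 + (y : ℂ)) ≠ 0 := by
    have : (1 + y : ℝ) ≠ 0 := by positivity
    exact_mod_cast this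
  have hzf : zf (pt ξ (π / 2)) = (z₀ : ℂ) := by
    unfold zf
    rw [hE, hz₀]
    push_cast
    have h3 : I + (y : ℂ) * I = (1 + y) * I := by ring
    rw [h3, div_eq_div_iff (mul_ne_zero hy1' I_ne_zero) hy1']
    ring
  have hzd : zd (pt ξ (π / 2)) = ((-(1 - z₀ ^ 2) / 2 : ℝ) : ℂ) := by
    unfold zd
    rw [hE, hz₀]
    push_cast
    have h3 : ((y : ℂ) * I + I) ^ 2 = -((1 + y) ^ 2) := by
      linear_combination ((y : ℂ) + 1) ^ 2 * I_sq
    rw [h3]
    field_simp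
    ring_nf
    simp only [I_sq]
    ring
  unfold Xf
  rw [hzf, hzd, norm_div, norm_mul, norm_mul, Complex.norm_real]
  have h5 : ‖(-(1 - z₀ ^ 2) / 2 : ℝ)‖ = (1 - z₀ ^ 2) / 2 := by
    rw [Real.norm_eq_abs, abs_of_nonpos (by nlinarith [hza.trans ha1])]
    ring
  have h6 : ‖(2:ℂ)‖ = 2 := by simp
  rw [h5, h6, div_le_iff₀ (by positivity)]
  rw [← div_eq_mul_inv, div_le_iff₀ hmpos] at hk
  nlinarith

/-- the same bound with an exponentially small error -/
theorem centre_err {β : ℂ → ℂ} (h : Ext β) {a : ℝ} (ha : 0 < a) (ha1 : a < 1) {ξ : ℝ}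
    (h1 : Real.log (tau a) + 1 ≤ ξ) (h2 : ξ ≤ -1) :
    ‖Xf β a (pt ξ (π / 2))‖ ≤ 1 + 4 * Real.exp ξ + 4 * Real.exp (Real.log (tau a) - ξ) := by
  have hτ : 0 < tau a := by
    unfold tau
    have : 0 < 1 - a := by linarith
    positivity
  have hhalf : Real.exp (-1) ≤ 1 / 2 := by
    have h9 : Real.exp (-1) < 0.3678794412 := Real.exp_neg_one_lt_d9
    linarith
  have key : ∀ q : ℝ, 0 < q → q ≤ 1 / 2 → (1 + q) / (1 - q) ≤ 1 + 4 * q := by
    intro q hq hq2
    rw [div_le_iff₀ (by linarith)]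
    nlinarith
  have hy : Real.exp ξ ≤ 1 / 2 := (Real.exp_le_exp.mpr h2).trans hhalf
  have hq : Real.exp (Real.log (tau a) - ξ) ≤ 1 / 2 :=
    (Real.exp_le_exp.mpr (by linarith)).trans hhalf
  have hy0 := Real.exp_pos ξ
  have hq0 := Real.exp_pos (Real.log (tau a) - ξ)
  have hτe : tau a = Real.exp ξ * Real.exp (Real.log (tau a) - ξ) := by
    rw [← Real.exp_add, add_sub_cancel, Real.exp_log hτ]
  refine (centre h ha ha1 (by linarith) (by linarith)).trans (max_le ?_ ?_)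
  · have := key _ hy0 hy
    linarith
  · have h3 := key _ hq0 hq
    have h4 : (Real.exp ξ + tau a) / (Real.exp ξ - tau a) =
        (1 + Real.exp (Real.log (tau a) - ξ)) / (1 - Real.exp (Real.log (tau a) - ξ)) := by
      rw [div_eq_div_iff]
      · linear_combination 2 * hτe
      · have h5 : tau a < Real.exp ξ := (Real.log_lt_iff_lt_exp hτ).mp (by linarith)
        linarith
      · linarith
    rw [h4]
    linarith

end Pool.Agent.Helper84.EK

end

section

set_option autoImplicit false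
open Complex Metric Set Filter Topology

/-! Project EK3: the inequalities of Koebe and Bieberbach for univalent functions without zeros,
in terms of the logarithmic derivative. -/

namespace Pool.Agent.Helper69.EK3

open Pool.Agent.Helper22.Marshall (coeff coeff_one coeff_deriv)
open Pool.Agent.Helper84.EK (second_le_two koebe_r)

/-- Bieberbach, without normalisation -/
theorem bieb_one {h : ℂ → ℂ} (hd : DifferentiableOn ℂ h (ball 0 1)) (hi : InjOn h (ball 0 1)) :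
    ‖deriv (deriv h) 0‖ ≤ 4 * ‖deriv h 0‖ := by
  have h0b : (0:ℂ) ∈ ball (0:ℂ) 1 := mem_ball_self one_pos
  have hne : deriv h 0 ≠ 0 := Pool.Agent.Helper24.Br.deriv_ne_of_inj isOpen_ball hd hi h0b
  set d := deriv h 0 with hdd
  have hf : deriv (fun z => (h z - h 0) / d) = fun z => deriv h z / d := by
    funext z
    rw [deriv_div_const, deriv_sub_const]
  have e := second_le_two (f := fun z => (h z - h 0) / d) ((hd.sub_const _).div_const _)
    (by
      intro z hz w hw hzw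
      apply hi hz hw
      have h1 : (h z - h 0) / d = (h w - h 0) / d := hzw
      rw [div_left_inj' hne] at h1
      linear_combination h1) (by simp) (by
        rw [hf]
        exact div_self hne)
  have e2 := coeff_deriv (fun z => (h z - h 0) / d) 1
  rw [coeff_one, hf, deriv_div_const] at e2
  have e3 : deriv (deriv h) 0 = 2 * coeff (fun z => (h z - h 0) / d) 2 * d := by
    rw [div_eq_iff hne] at e2
    rw [e2]
    norm_num
  rw [e3, norm_mul, norm_mul]
  have e4 : ‖(2:ℂ)‖ = 2 := by simp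
  rw [e4]
  have := norm_nonneg d
  nlinarith

/-- Bieberbach in a disc of radius `r` -/
theorem bieb_r {g : ℂ → ℂ} {r : ℝ} (hr : 0 < r) (hg : DifferentiableOn ℂ g (ball 0 r))
    (hinj : InjOn g (ball 0 r)) : ‖deriv (deriv g) 0‖ * r ≤ 4 * ‖deriv g 0‖ := by
  have hm : MapsTo (fun z : ℂ => (r : ℂ) * z) (ball 0 1) (ball 0 r) := by
    intro z hz
    rw [mem_ball_zero_iff] at hz ⊢
    rw [norm_mul, Complex.norm_real, Real.norm_of_nonneg hr.le]
    nlinarith
  have hr0 : (r : ℂ) ≠ 0 := by exact_mod_cast hr.ne'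
  have h1 := bieb_one (h := fun z => g ((r : ℂ) * z)) (hg.comp (by fun_prop) hm)
    (by
      intro z hz w hw h
      exact mul_left_cancel₀ hr0 (hinj (hm hz) (hm hw) h))
  have e1 : deriv (fun z => g ((r : ℂ) * z)) = fun z => (r : ℂ) * deriv g ((r : ℂ) * z) := by
    funext z
    rw [deriv_comp_mul_left, smul_eq_mul]
  have e2 : deriv (deriv (fun z => g ((r : ℂ) * z))) 0 = (r : ℂ) ^ 2 * deriv (deriv g) 0 := by
    rw [e1, deriv_const_mul_field, deriv_comp_mul_left, smul_eq_mul, mul_zero]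
    ring
  rw [e2, e1] at h1
  simp only [mul_zero, norm_mul, norm_pow, Complex.norm_real, Real.norm_of_nonneg hr.le] at h1
  have h2 : r * (‖deriv (deriv g) 0‖ * r) ≤ r * (4 * ‖deriv g 0‖) := by nlinarith
  exact le_of_mul_le_mul_left h2 hr

/-- one half of the statement below -/
theorem univ_half {G B : ℂ → ℂ} {b : ℂ} {r : ℝ} (hr : 0 < r) (hi : InjOn G (ball 0 r))
    (hne : ∀ z ∈ ball (0:ℂ) r, G z ≠ 0) (hG : ∀ z ∈ ball (0:ℂ) r, HasDerivAt G (G z * B z) z)
    (hB : HasDerivAt B b 0) : ‖B 0‖ * r ≤ 4 ∧ ‖b + B 0 ^ 2‖ * r ≤ 4 * ‖B 0‖ := by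
  have h0 : (0:ℂ) ∈ ball (0:ℂ) r := mem_ball_self hr
  have hb : ball (0:ℂ) r ∈ 𝓝 (0:ℂ) := ball_mem_nhds 0 hr
  have hd : DifferentiableOn ℂ G (ball 0 r) := fun z hz =>
    (hG z hz).differentiableAt.differentiableWithinAt
  have hG0 := hne 0 h0
  have hp : 0 < ‖G 0‖ := norm_pos_iff.mpr hG0
  have e1 := koebe_r hr hd hi hne
  have e2 := bieb_r hr hd hi
  have e3 : deriv G =ᶠ[𝓝 0] fun z => G z * B z := by
    filter_upwards [hb] with z hz
    exact (hG z hz).deriv
  have e4 : deriv (deriv G) 0 = G 0 * (b + B 0 ^ 2) := by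
    have e5 : HasDerivAt (fun z => G z * B z) (G 0 * B 0 * B 0 + G 0 * b) 0 := (hG 0 h0).mul hB
    rw [e3.deriv_eq, e5.deriv]
    ring
  rw [(hG 0 h0).deriv, norm_mul] at e1
  rw [e4, (hG 0 h0).deriv, norm_mul, norm_mul] at e2
  constructor
  · have : ‖G 0‖ * (‖B 0‖ * r) ≤ ‖G 0‖ * 4 := by nlinarith
    exact le_of_mul_le_mul_left this hp
  · have : ‖G 0‖ * (‖b + B 0 ^ 2‖ * r) ≤ ‖G 0‖ * (4 * ‖B 0‖) := by nlinarith
    exact le_of_mul_le_mul_left this hp

/-- Koebe and Bieberbach for a univalent function `G` without zeros and for `1 / G`; `B` is the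
logarithmic derivative of `G` -/
theorem univ_log {G B : ℂ → ℂ} {b : ℂ} {r : ℝ} (hr : 0 < r) (hi : InjOn G (ball 0 r))
    (hne : ∀ z ∈ ball (0:ℂ) r, G z ≠ 0) (hG : ∀ z ∈ ball (0:ℂ) r, HasDerivAt G (G z * B z) z)
    (hB : HasDerivAt B b 0) :
    ‖B 0‖ * r ≤ 4 ∧ ‖b + B 0 ^ 2‖ * r ≤ 4 * ‖B 0‖ ∧ ‖b - B 0 ^ 2‖ * r ≤ 4 * ‖B 0‖ := by
  obtain ⟨h1, h2⟩ := univ_half hr hi hne hG hB
  refine ⟨h1, h2, ?_⟩
  obtain ⟨_, h3⟩ := univ_half (G := fun z => (G z)⁻¹) (B := fun z => -B z) (b := -b) hr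
    (fun z hz w hw h => hi hz hw (inv_injective h)) (fun z hz => inv_ne_zero (hne z hz))
    (fun z hz => by
      have e := (hG z hz).inv (hne z hz)
      have e1 : (G z)⁻¹ * -B z = -(G z * B z) / G z ^ 2 := by
        have := hne z hz
        field_simp
      rw [e1]
      exact e) hB.neg
  have e2 : -b + (-B 0) ^ 2 = -(b - B 0 ^ 2) := by ring
  rw [e2, norm_neg, norm_neg] at h3
  exact h3

end Pool.Agent.Helper69.EK3

end

section

set_option autoImplicit false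
open Complex Metric Set Filter Topology
open scoped Real ComplexConjugate

/-! Project EK3: the inequalities of Koebe and Bieberbach at all points of the strip. -/

namespace Pool.Agent.Helper69.EK3

open Pool.Agent.Helper39.Area Pool.Agent.Helper52.EK Pool.Agent.Helper67.EK

/-- `exp (-2 i η)` -/
noncomputable def kq (η : ℝ) : ℂ := -e0 (Real.sin η) (Real.cos η)

/-- the chart of the strip around the point `ξ + i η` -/
noncomputable def oo (ξ η : ℝ) (u : ℂ) : ℂ :=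
  pt ξ η + (Complex.log (1 - kq η * u) - Complex.log (1 - u))

/-- its derivative -/
noncomputable def od (η : ℝ) (u : ℂ) : ℂ := -kq η / (1 - kq η * u) + 1 / (1 - u)

theorem kq_eq (η : ℝ) : kq η = ((Real.cos η : ℂ) - (Real.sin η : ℂ) * I) ^ 2 := by
  simp only [kq, e0, neg_neg]

theorem exp_pt (ξ η : ℝ) : Complex.exp (pt ξ η) =
    (Real.exp ξ : ℂ) * ((Real.cos η : ℂ) + (Real.sin η : ℂ) * I) := by
  rw [pt, Complex.exp_add, Complex.exp_mul_I, ofReal_exp, ofReal_cos, ofReal_sin]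

theorem exp_pt_re (ξ η : ℝ) : (Complex.exp (pt ξ η)).re = Real.exp ξ * Real.cos η := by
  rw [Complex.exp_re]
  simp [pt]

theorem exp_pt_im (ξ η : ℝ) : (Complex.exp (pt ξ η)).im = Real.exp ξ * Real.sin η := by
  rw [Complex.exp_im]
  simp [pt]

theorem norm_kq (η : ℝ) : ‖kq η‖ = 1 := by
  rw [kq_eq, norm_pow]
  have h : ‖(Real.cos η : ℂ) - (Real.sin η : ℂ) * I‖ = 1 := by
    have e : (Real.cos η : ℂ) - (Real.sin η : ℂ) * I = Complex.exp (((-η : ℝ) : ℂ) * I) := by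
      rw [Complex.exp_mul_I, ← ofReal_cos, ← ofReal_sin, Real.cos_neg, Real.sin_neg]
      push_cast
      ring
    rw [e, Complex.norm_exp_ofReal_mul_I]
  rw [h, one_pow]

theorem kq_ne_one {η : ℝ} (h0 : 0 < η) (h1 : η < π) : kq η ≠ 1 := by
  have hs := Real.sin_pos_of_pos_of_lt_pi h0 h1
  intro h
  rw [kq_eq] at h
  have h2 := congrArg Complex.re h
  simp only [pow_two, mul_re, sub_re, sub_im, ofReal_re, ofReal_im, mul_im, I_re, I_im, one_re] at h2
  nlinarith [Real.sin_sq_add_cos_sq η]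

theorem one_sub_kq_ne {η : ℝ} {u : ℂ} (hu : ‖u‖ < 1) : 1 - kq η * u ≠ 0 := by
  intro h
  have h1 : kq η * u = 1 := by linear_combination -h
  have h2 := congrArg (fun w : ℂ => ‖w‖) h1
  simp only [norm_mul, norm_kq, one_mul, norm_one] at h2
  linarith

theorem one_sub_ne' {u : ℂ} (hu : ‖u‖ < 1) : 1 - u ≠ 0 := by
  intro h
  have h1 : u = 1 := by linear_combination -h
  rw [h1, norm_one] at hu
  linarith

theorem re_pos_of {u : ℂ} (hu : ‖u‖ < 1) : 0 < (1 - u).re := by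
  have h := Complex.re_le_norm u
  rw [sub_re, one_re]
  linarith

theorem oo_hasDerivAt (ξ η : ℝ) {u : ℂ} (hu : ‖u‖ < 1) : HasDerivAt (oo ξ η) (od η u) u := by
  have hk : ‖kq η * u‖ < 1 := by rw [norm_mul, norm_kq, one_mul]; exact hu
  have h1 : HasDerivAt (fun u : ℂ => 1 - kq η * u) (-kq η) u := by
    simpa using ((hasDerivAt_id u).const_mul (kq η)).const_sub 1
  have h2 : HasDerivAt (fun u : ℂ => 1 - u) (-1) u := by
    simpa using (hasDerivAt_id u).const_sub 1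
  have h3 := h1.clog (Or.inl (re_pos_of hk))
  have h4 := h2.clog (Or.inl (re_pos_of hu))
  have h5 := (h3.sub h4).const_add (pt ξ η)
  have e : od η u = -kq η / (1 - kq η * u) - -1 / (1 - u) := by
    unfold od
    ring
  rw [e]
  exact h5

theorem oo_zero (ξ η : ℝ) : oo ξ η 0 = pt ξ η := by simp [oo]

theorem oo_exp (ξ η : ℝ) {u : ℂ} (hu : ‖u‖ < 1) :
    Complex.exp (oo ξ η u) * (1 - u) = Complex.exp (pt ξ η) * (1 - kq η * u) := by
  unfold oo
  rw [Complex.exp_add, Complex.exp_sub, Complex.exp_log (one_sub_kq_ne hu),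
    Complex.exp_log (one_sub_ne' hu)]
  have := one_sub_ne' hu
  field_simp

theorem od_zero (η : ℝ) : od η 0 = 1 - kq η := by
  simp [od]
  ring

theorem od_hasDerivAt (η : ℝ) : HasDerivAt (od η) (1 - kq η ^ 2) 0 := by
  have h1 : HasDerivAt (fun u : ℂ => 1 - kq η * u) (-kq η) 0 := by
    simpa using ((hasDerivAt_id (0:ℂ)).const_mul (kq η)).const_sub 1
  have h2 : HasDerivAt (fun u : ℂ => 1 - u) (-1) 0 := by
    simpa using (hasDerivAt_id (0:ℂ)).const_sub 1
  have h3 := ((hasDerivAt_const (0:ℂ) (-kq η)).div h1 (by simp)).add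
    ((hasDerivAt_const (0:ℂ) (1:ℂ)).div h2 (by simp))
  have e : 1 - kq η ^ 2 = (0 * (1 - kq η * 0) - -kq η * -kq η) / (1 - kq η * 0) ^ 2 +
      (0 * (1 - 0) - 1 * -1) / (1 - 0) ^ 2 := by
    simp
    ring
  rw [e]
  exact h3

/-- `conj Z = kq Z` for `Z = exp (pt ξ η)` -/
theorem conj_exp_pt (ξ η : ℝ) :
    conj (Complex.exp (pt ξ η)) = kq η * Complex.exp (pt ξ η) := by
  have h1 : ((Real.cos η : ℂ) - (Real.sin η : ℂ) * I) * ((Real.cos η : ℂ) + (Real.sin η : ℂ) * I)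
      = 1 := by
    have h2 : (Real.cos η : ℂ) ^ 2 + (Real.sin η : ℂ) ^ 2 = 1 := by
      exact_mod_cast Real.cos_sq_add_sin_sq η
    linear_combination h2 - (Real.sin η : ℂ) ^ 2 * I_sq
  rw [exp_pt, kq_eq, map_mul, map_add, map_mul, conj_ofReal, conj_ofReal, conj_ofReal, conj_I]
  linear_combination -(Real.exp ξ : ℂ) * ((Real.cos η : ℂ) - (Real.sin η : ℂ) * I) * h1

/-- the image of the disc is the half plane -/
theorem oo_im {ξ η : ℝ} (h0 : 0 < η) (h1 : η < π) {u : ℂ} (hu : ‖u‖ < 1) :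
    0 < (Complex.exp (oo ξ η u)).im := by
  have hs := Real.sin_pos_of_pos_of_lt_pi h0 h1
  set W := Complex.exp (oo ξ η u) with hW
  set Z := Complex.exp (pt ξ η) with hZ
  have hE : W * (1 - u) = Z - conj Z * u := by
    rw [hW, hZ, oo_exp ξ η hu, conj_exp_pt]
    ring
  have hZi : Z.im = Real.exp ξ * Real.sin η := by rw [hZ, exp_pt_im]
  have hZp : 0 < Z.im := by
    rw [hZi]
    exact mul_pos (Real.exp_pos ξ) hs
  have hn : 0 < ‖1 - u‖ ^ 2 := by
    have := norm_pos_iff.mpr (one_sub_ne' hu)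
    positivity
  have hu2 : ‖u‖ ^ 2 < 1 := by nlinarith [norm_nonneg u]
  have e1 : W.im * ‖1 - u‖ ^ 2 = Z.im * (1 - ‖u‖ ^ 2) := by
    have e2 := congrArg (fun w : ℂ => (w * conj (1 - u)).im) hE
    rw [← Complex.normSq_eq_norm_sq, ← Complex.normSq_eq_norm_sq, Complex.normSq_apply,
      Complex.normSq_apply]
    simp only [mul_im, mul_re, sub_re, sub_im, conj_re, conj_im, one_re, one_im, map_sub,
      map_one] at e2 ⊢
    linear_combination e2
  by_contra hc
  push Not at hc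
  nlinarith [mul_pos hZp (sub_pos.mpr hu2), mul_nonneg (neg_nonneg.mpr hc) hn.le]

theorem I_add_exp_ne {ω : ℂ} (h : 0 < (Complex.exp ω).im) : I + Complex.exp ω ≠ 0 := by
  intro h0
  have h1 := congrArg Complex.im h0
  simp only [add_im, I_im, zero_im] at h1
  linarith

theorem zf_mem_of {ω : ℂ} (h : 0 < (Complex.exp ω).im) : zf ω ∈ ball (0:ℂ) 1 := by
  rw [mem_ball_zero_iff, zf, norm_div, div_lt_one (norm_pos_iff.mpr (I_add_exp_ne h))]
  have h2 : ‖I - Complex.exp ω‖ ^ 2 < ‖I + Complex.exp ω‖ ^ 2 := by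
    rw [← Complex.normSq_eq_norm_sq, ← Complex.normSq_eq_norm_sq, Complex.normSq_apply,
      Complex.normSq_apply]
    simp only [add_re, add_im, sub_re, sub_im, I_re, I_im]
    nlinarith
  exact lt_of_pow_lt_pow_left₀ 2 (norm_nonneg _) h2

/-- the distance estimate -/
theorem oo_ne {ξ η σ r : ℝ} (h0 : 0 < η) (h1 : η < π) (hσ : 0 < σ)
    (hr : 0 ≤ r) (hr1 : r * (Real.exp ξ + σ) ≤ |Real.exp ξ - σ|) {u : ℂ} (hu : ‖u‖ < r)
    (hu1 : ‖u‖ < 1) : Complex.exp (oo ξ η u) ≠ (σ : ℂ) * I := by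
  have hs := Real.sin_pos_of_pos_of_lt_pi h0 h1
  have hy := Real.exp_pos ξ
  intro hc
  have hE := oo_exp ξ η hu1
  rw [hc] at hE
  set Z := Complex.exp (pt ξ η) with hZ
  have hE2 : (conj Z - (σ : ℂ) * I) * u = Z - (σ : ℂ) * I := by
    rw [hZ, conj_exp_pt, ← hZ]
    linear_combination hE
  have hZr : Z.re = Real.exp ξ * Real.cos η := by rw [hZ, exp_pt_re]
  have hZi : Z.im = Real.exp ξ * Real.sin η := by rw [hZ, exp_pt_im]
  have e1 := congrArg (fun w : ℂ => ‖w‖ ^ 2) hE2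
  simp only [norm_mul, mul_pow] at e1
  rw [← Complex.normSq_eq_norm_sq, ← Complex.normSq_eq_norm_sq (Z - _), Complex.normSq_apply,
    Complex.normSq_apply] at e1
  simp only [mul_im, mul_re, sub_re, sub_im, conj_re, conj_im, I_re, I_im, ofReal_re,
    ofReal_im] at e1
  rw [hZr, hZi] at e1
  set y := Real.exp ξ with hyd
  set s := Real.sin η with hsd
  set c := Real.cos η with hcd
  have hsc : s ^ 2 + c ^ 2 = 1 := Real.sin_sq_add_cos_sq η
  have hs1 : s ≤ 1 := Real.sin_le_one η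
  have e2 : (y ^ 2 + σ ^ 2 + 2 * y * σ * s) * ‖u‖ ^ 2 = y ^ 2 + σ ^ 2 - 2 * y * σ * s := by
    linear_combination e1 + (-(‖u‖ ^ 2) * y ^ 2 + y ^ 2) * hsc
  have e3 : r ^ 2 * (y + σ) ^ 2 ≤ (y - σ) ^ 2 := by
    have := mul_nonneg hr (by linarith : 0 ≤ y + σ)
    have h3 : (r * (y + σ)) ^ 2 ≤ |y - σ| ^ 2 := pow_le_pow_left₀ this hr1 2
    rw [sq_abs] at h3
    nlinarith
  have e4 : ‖u‖ ^ 2 < r ^ 2 := pow_lt_pow_left₀ hu (norm_nonneg u) (by norm_num)
  have hyσ : 0 < y * σ := mul_pos hy hσ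
  have e5 : 0 < y ^ 2 + σ ^ 2 + 2 * y * σ * s := by positivity
  have e6 : (y ^ 2 + σ ^ 2 - 2 * y * σ * s) * (y + σ) ^ 2 -
      (y - σ) ^ 2 * (y ^ 2 + σ ^ 2 + 2 * y * σ * s) =
      4 * (y * σ) * (y ^ 2 + σ ^ 2) * (1 - s) := by ring
  have e7 : 0 ≤ 4 * (y * σ) * (y ^ 2 + σ ^ 2) * (1 - s) := by
    have : 0 ≤ 1 - s := by linarith
    positivity
  have e8 : 0 < (y + σ) ^ 2 := by positivity
  have e9 : ‖u‖ ^ 2 * (y + σ) ^ 2 * (y ^ 2 + σ ^ 2 + 2 * y * σ * s) <
      r ^ 2 * (y + σ) ^ 2 * (y ^ 2 + σ ^ 2 + 2 * y * σ * s) := by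
    apply mul_lt_mul_of_pos_right _ e5
    exact mul_lt_mul_of_pos_right e4 e8
  have e10 : r ^ 2 * (y + σ) ^ 2 * (y ^ 2 + σ ^ 2 + 2 * y * σ * s) ≤
      (y - σ) ^ 2 * (y ^ 2 + σ ^ 2 + 2 * y * σ * s) := mul_le_mul_of_nonneg_right e3 e5.le
  have e11 : ‖u‖ ^ 2 * (y + σ) ^ 2 * (y ^ 2 + σ ^ 2 + 2 * y * σ * s) =
      (y ^ 2 + σ ^ 2 - 2 * y * σ * s) * (y + σ) ^ 2 := by
    linear_combination (y + σ) ^ 2 * e2
  linarith

/-- **Koebe and Bieberbach at all points of the strip** -/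
theorem bieb_strip {β : ℂ → ℂ} {R : ℝ} (h : ExtR β R) {a : ℝ} (ha : 0 < a) (ha1 : a < 1)
    {ξ η : ℝ} (h1 : Real.log (tau a) < ξ) (h2 : ξ < 0) (h3 : 0 < η) (h4 : η < π) {r : ℝ}
    (hr : 0 < r) (hr1 : r * (1 + Real.exp ξ) ≤ 1 - Real.exp ξ)
    (hr2 : r * (Real.exp ξ + tau a) ≤ Real.exp ξ - tau a) {X Y : ℂ}
    (hX : X = Xf β a (pt ξ η)) (hY : Y = deriv (Xf β a) (pt ξ η)) :
    Real.sin η * ‖X‖ * r ≤ 1 ∧
    ‖(1 + e0 (Real.sin η) (Real.cos η)) * (2 * X - 1 + Y / X) + 2‖ * r ≤ 4 ∧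
    ‖(1 + e0 (Real.sin η) (Real.cos η)) * (-2 * X - 1 + Y / X) + 2‖ * r ≤ 4 := by
  have hτ : 0 < tau a := by
    unfold tau
    have : 0 < 1 - a := by linarith
    positivity
  have hs := Real.sin_pos_of_pos_of_lt_pi h3 h4
  have hy := Real.exp_pos ξ
  have hyτ : tau a < Real.exp ξ := (Real.log_lt_iff_lt_exp hτ).mp h1
  have hy1 : Real.exp ξ < 1 := by
    rw [← Real.exp_zero]
    exact Real.exp_lt_exp.mpr h2
  have hrlt : r < 1 := by
    by_contra hc
    push Not at hc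
    nlinarith
  have hat : a = (1 - tau a) / (1 + tau a) := by
    unfold tau
    field_simp
    ring
  have haB : (a : ℂ) ∈ ball (0:ℂ) 1 := by
    rw [mem_ball_zero_iff, Complex.norm_real, Real.norm_of_nonneg ha.le]
    exact ha1
  have ha0 : (a : ℂ) ≠ 0 := by exact_mod_cast ha.ne'
  have hlt : ∀ u ∈ ball (0:ℂ) r, ‖u‖ < 1 := by
    intro u hu
    rw [mem_ball_zero_iff] at hu
    linarith
  have him : ∀ u ∈ ball (0:ℂ) r, 0 < (Complex.exp (oo ξ η u)).im := fun u hu =>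
    oo_im h3 h4 (hlt u hu)
  have hmem : ∀ u ∈ ball (0:ℂ) r, zf (oo ξ η u) ∈ ball (0:ℂ) 1 := fun u hu =>
    zf_mem_of (him u hu)
  have hne0 : ∀ u ∈ ball (0:ℂ) r, zf (oo ξ η u) ≠ 0 := by
    intro u hu h0
    have hu' := hu
    rw [mem_ball_zero_iff] at hu'
    rw [zf, div_eq_zero_iff] at h0
    rcases h0 with h0 | h0
    · refine oo_ne (ξ := ξ) (σ := 1) h3 h4 one_pos hr.le ?_ hu' (hlt u hu) ?_
      · rw [abs_of_neg (by linarith)]
        linarith
      · rw [ofReal_one, one_mul]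
        linear_combination -h0
    · exact I_add_exp_ne (him u hu) h0
  have hnea : ∀ u ∈ ball (0:ℂ) r, zf (oo ξ η u) ≠ a := by
    intro u hu h0
    have hu' := hu
    rw [mem_ball_zero_iff] at hu'
    rw [zf, div_eq_iff (I_add_exp_ne (him u hu))] at h0
    refine oo_ne (ξ := ξ) (σ := tau a) h3 h4 hτ hr.le ?_ hu' (hlt u hu) ?_
    · rw [abs_of_pos (by linarith)]
      linarith
    · have e1 : (1 + (a : ℂ)) * Complex.exp (oo ξ η u) = (1 - a) * I := by
        linear_combination -h0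
      have e2 : (1 + (a : ℂ)) ≠ 0 := by
        have : (1 + a : ℝ) ≠ 0 := by positivity
        exact_mod_cast this
      have e3 : ((tau a : ℝ) : ℂ) = (1 - a) / (1 + a) := by
        unfold tau
        push_cast
        rfl
      rw [e3, div_mul_eq_mul_div, eq_div_iff e2]
      linear_combination e1
  set G : ℂ → ℂ := fun u => phi β (zf (oo ξ η u)) - phi β a with hG
  set B : ℂ → ℂ := fun u => 2 * Xf β a (oo ξ η u) * od η u with hB
  have hGne : ∀ u ∈ ball (0:ℂ) r, G u ≠ 0 := by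
    intro u hu h0
    exact hnea u hu (h.toExt.inj _ _ (hmem u hu) haB (hne0 u hu) ha0 (sub_eq_zero.mp h0))
  have hGi : InjOn G (ball 0 r) := by
    intro u hu v hv huv
    have e1 : phi β (zf (oo ξ η u)) = phi β (zf (oo ξ η v)) := by
      have : phi β (zf (oo ξ η u)) - phi β a = phi β (zf (oo ξ η v)) - phi β a := huv
      linear_combination this
    have e2 := h.toExt.inj _ _ (hmem u hu) (hmem v hv) (hne0 u hu) (hne0 v hv) e1
    have e3 : Complex.exp (oo ξ η u) = Complex.exp (oo ξ η v) := by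
      unfold zf at e2
      rw [div_eq_div_iff (I_add_exp_ne (him u hu)) (I_add_exp_ne (him v hv))] at e2
      have e4 : (Complex.exp (oo ξ η u) - Complex.exp (oo ξ η v)) * (2 * I) = 0 := by
        linear_combination -e2
      rcases mul_eq_zero.mp e4 with e4 | e4
      · linear_combination e4
      · exact absurd e4 (by simp)
    have u1 := oo_exp ξ η (hlt u hu)
    have v1 := oo_exp ξ η (hlt v hv)
    rw [e3] at u1
    have e5 : Complex.exp (pt ξ η) * ((kq η - 1) * (u - v)) = 0 := by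
      linear_combination (1 - v) * u1 - (1 - u) * v1
    rcases mul_eq_zero.mp e5 with e6 | e6
    · exact absurd e6 (Complex.exp_ne_zero _)
    · rcases mul_eq_zero.mp e6 with e7 | e7
      · exact absurd (by linear_combination e7) (kq_ne_one h3 h4)
      · linear_combination e7
  have hGd : ∀ u ∈ ball (0:ℂ) r, HasDerivAt G (G u * B u) u := by
    intro u hu
    have d1 := oo_hasDerivAt ξ η (hlt u hu)
    have d2 := (Pool.Agent.Helper97.EK.hasDerivAt_zf (I_add_exp_ne (him u hu))).comp u d1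
    have d3 := (hasDerivAt_phi h.toExt.diff (hmem u hu) (hne0 u hu)).comp u d2
    have d4 := d3.sub_const (phi β a)
    have e : G u * B u = dphi β (zf (oo ξ η u)) * (zd (oo ξ η u) * od η u) := by
      have := hGne u hu
      simp only [hG] at this
      simp only [hG, hB]
      unfold Xf
      field_simp
    rw [e]
    exact d4
  obtain ⟨x₁, hx₁, hx₁'⟩ := exists_between h1
  obtain ⟨x₂, hx₂, hx₂'⟩ := exists_between h2
  have hN := E1c h ha ha1 hx₁ hx₂'
  have hω0 : pt ξ η ∈ Rect x₁ x₂ := by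
    unfold Rect
    rw [Complex.mem_reProdIm]
    have e1 : (pt ξ η).re = ξ := by simp [pt]
    have e2 : (pt ξ η).im = η := by simp [pt]
    rw [e1, e2]
    exact ⟨⟨hx₁'.le, hx₂.le⟩, ⟨h3.le, h4.le⟩⟩
  have hXa : AnalyticAt ℂ (Xf β a) (pt ξ η) := hN.an _ hω0
  have hX0 : X ≠ 0 := by rw [hX]; exact hN.ne _ hω0
  have hz1 : ‖(0:ℂ)‖ < 1 := by simp
  have hBd : HasDerivAt B (2 * (Y * od η 0) * od η 0 + 2 * X * (1 - kq η ^ 2)) 0 := by
    have d1 := oo_hasDerivAt ξ η hz1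
    have d2 : HasDerivAt (Xf β a) Y (oo ξ η 0) := by
      rw [oo_zero, hY]
      exact hXa.differentiableAt.hasDerivAt
    have d3 := ((d2.comp (0:ℂ) d1).const_mul 2).mul (od_hasDerivAt η)
    have e : 2 * (Y * od η 0) * od η 0 + 2 * X * (1 - kq η ^ 2) =
        2 * (Y * od η 0) * od η 0 + 2 * (Xf β a ∘ oo ξ η) 0 * (1 - kq η ^ 2) := by
      rw [Function.comp_apply, oo_zero, hX]
    rw [e]
    exact d3
  obtain ⟨k1, k2, k3⟩ := univ_log hr hGi hGne hGd hBd
  have hB0 : B 0 = 2 * X * (1 - kq η) := by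
    simp only [hB]
    rw [oo_zero, od_zero, hX]
  have hkn : ‖1 - kq η‖ = 2 * Real.sin η := by
    have e1 : 1 - kq η = (2 * Real.sin η : ℝ) * ((Real.sin η : ℂ) + (Real.cos η : ℂ) * I) := by
      rw [kq_eq]
      push_cast
      have h5 : Complex.cos η ^ 2 + Complex.sin η ^ 2 = 1 := Complex.cos_sq_add_sin_sq _
      linear_combination -h5 - Complex.sin η ^ 2 * I_sq
    have e2 : ‖(Real.sin η : ℂ) + (Real.cos η : ℂ) * I‖ = 1 := by
      have e3 : ‖(Real.sin η : ℂ) + (Real.cos η : ℂ) * I‖ ^ 2 = 1 := by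
        rw [← Complex.normSq_eq_norm_sq, Complex.normSq_apply]
        simp only [add_re, add_im, mul_re, mul_im, ofReal_re, ofReal_im, I_re, I_im, mul_zero,
          mul_one, sub_zero, add_zero, zero_add]
        nlinarith [Real.sin_sq_add_cos_sq η]
      have e4 := norm_nonneg ((Real.sin η : ℂ) + (Real.cos η : ℂ) * I)
      nlinarith
    rw [e1, norm_mul, e2, mul_one, Complex.norm_real, Real.norm_of_nonneg (by positivity)]
  have hke : 1 + e0 (Real.sin η) (Real.cos η) = 1 - kq η := by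
    unfold kq
    ring
  have hXn : 0 < ‖X‖ := norm_pos_iff.mpr hX0
  have hBn : ‖B 0‖ = 4 * (Real.sin η * ‖X‖) := by
    rw [hB0, norm_mul, norm_mul, hkn]
    have : ‖(2:ℂ)‖ = 2 := by simp
    rw [this]
    ring
  have hBp : 0 < ‖B 0‖ := by
    rw [hBn]
    positivity
  refine ⟨?_, ?_, ?_⟩
  · rw [hBn] at k1
    nlinarith
  · have e : 2 * (Y * od η 0) * od η 0 + 2 * X * (1 - kq η ^ 2) + B 0 ^ 2 =
        B 0 * ((1 - kq η) * (2 * X - 1 + Y / X) + 2) := by
      rw [hB0, od_zero]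
      field_simp
      ring
    rw [e, norm_mul] at k2
    rw [hke]
    have : ‖B 0‖ * (‖(1 - kq η) * (2 * X - 1 + Y / X) + 2‖ * r) ≤ ‖B 0‖ * 4 := by nlinarith
    exact le_of_mul_le_mul_left this hBp
  · have e : 2 * (Y * od η 0) * od η 0 + 2 * X * (1 - kq η ^ 2) - B 0 ^ 2 =
        B 0 * ((1 - kq η) * (-2 * X - 1 + Y / X) + 2) := by
      rw [hB0, od_zero]
      field_simp
      ring
    rw [e, norm_mul] at k3
    rw [hke]
    have : ‖B 0‖ * (‖(1 - kq η) * (-2 * X - 1 + Y / X) + 2‖ * r) ≤ ‖B 0‖ * 4 := by nlinarith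
    exact le_of_mul_le_mul_left this hBp

end Pool.Agent.Helper69.EK3

end

section

set_option autoImplicit false
open Complex MeasureTheory Metric Set
open scoped Real ComplexConjugate

/-!
# Project EK3: the centre line with the Koebe bound `|X| ≤ 1 + δ`
-/

namespace Pool.Agent.Helper69.EK3

open Pool.Agent.Helper52.EK

variable {P : (ℂ → ℂ) → ℝ → ℝ → Prop}

/-- removing the cut-off function from the linear term of the centre line -/
theorem line_lin {k l x₁ x₂ : ℝ} {χ χ₁ χ₂ : ℝ → ℝ} (hc : Cut k l x₁ x₂ χ χ₁ χ₂) (hx : x₁ ≤ x₂)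
    {X : ℂ → ℂ} (hX : NiceH X x₁ x₂) {δ : ℝ → ℝ} (cδ : Continuous δ)
    (δ0 : ∀ ξ ∈ Icc x₁ x₂, 0 ≤ δ ξ)
    (hδ : ∀ ξ ∈ Icc x₁ x₂, (X (pt ξ (π / 2))).re ≤ 1 + δ ξ) :
    ∫ ξ in x₁..x₂, χ ξ * (1 - (X (pt ξ (π / 2))).re) ≤
      (∫ ξ in x₁..x₂, (1 - (X (pt ξ (π / 2))).re)) + ∫ ξ in x₁..x₂, δ ξ := by
  have cX := contC hX.an.continuousOn
  have c1 : ContinuousOn (fun ξ => 1 - (X (pt ξ (π / 2))).re) (Icc x₁ x₂) :=
    continuousOn_const.sub (Complex.continuous_re.comp_continuousOn cX)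
  have i1 : IntervalIntegrable (fun ξ => 1 - (X (pt ξ (π / 2))).re) volume x₁ x₂ :=
    c1.intervalIntegrable_of_Icc hx
  have i2 : IntervalIntegrable (fun ξ => χ ξ * (1 - (X (pt ξ (π / 2))).re)) volume x₁ x₂ :=
    (hc.cont.continuousOn.mul c1).intervalIntegrable_of_Icc hx
  have i3 : IntervalIntegrable δ volume x₁ x₂ := cδ.intervalIntegrable _ _
  rw [← intervalIntegral.integral_add i1 i3]
  refine intervalIntegral.integral_mono_on hx i2 (i1.add i3) fun ξ hξ => ?_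
  have h1 := hδ ξ hξ
  have h2 := hc.b01 ξ
  have h3 := δ0 ξ hξ
  nlinarith

/-- the centre line terms of the null Lagrangians -/
theorem line_K {K : ℂ → ℂ → ℝ} {Ec W Wx Wy : ℂ → ℝ} (hW : C1f W Wx Wy)
    (cE : Continuous Ec)
    (hK : ∀ X Y : ℂ, X ≠ 0 → K X Y + K (conj X) (conj Y) =
      - Ec X + (Wx X * Y.re + Wy X * Y.im))
    (hE0 : ∀ X : ℂ, ‖X‖ ≤ 1 → 0 ≤ Ec X) {r M : ℝ} (hr : 1 ≤ r) (hM : 0 ≤ M)
    (hL : ∀ X ∈ closedBall (0:ℂ) r, ∀ X' ∈ closedBall (0:ℂ) r, |Ec X - Ec X'| ≤ M * ‖X - X'‖)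
    {k : ℝ} (hk : 0 ≤ k) :
    ∃ C : ℝ, ∀ (l x₁ x₂ : ℝ) (χ χ₁ χ₂ : ℝ → ℝ) (X : ℂ → ℂ) (δ : ℝ → ℝ),
      Cut k l x₁ x₂ χ χ₁ χ₂ → x₁ ≤ x₂ → NiceH X x₁ x₂ → Continuous δ →
      (∀ ξ ∈ Icc x₁ x₂, 0 ≤ δ ξ) → (∀ ξ ∈ Icc x₁ x₂, 1 + δ ξ ≤ r) →
      (∀ ξ ∈ Icc x₁ x₂, ‖X (pt ξ (π / 2))‖ ≤ 1 + δ ξ) →
      ∫ ξ in x₁..x₂, χ ξ * (K (X (pt ξ (π / 2))) (deriv X (pt ξ (π / 2))) +
          K (conj (X (pt ξ (π / 2)))) (conj (deriv X (pt ξ (π / 2))))) ≤
        C + M * ∫ ξ in x₁..x₂, δ ξ := by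
  have cW : Continuous W := Pool.Agent.Helper4.EK.C1f.continuous hW
  obtain ⟨B, hB⟩ := (isCompact_closedBall (0:ℂ) r).bddAbove_image cW.abs.continuousOn
  have hB' : ∀ Z ∈ closedBall (0:ℂ) r, |W Z| ≤ B := fun Z hZ => hB (mem_image_of_mem _ hZ)
  have hB0 : 0 ≤ B := (abs_nonneg _).trans (hB' 0 (by simp; linarith))
  refine ⟨B * (2 * k), fun l x₁ x₂ χ χ₁ χ₂ X δ hc hx hX cδ δ0 δr hδ => ?_⟩
  have cX := contC hX.an.continuousOn
  have cY := contC hX.an.deriv.continuousOn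
  have i1 : IntervalIntegrable (fun ξ => - (χ ξ * Ec (X (pt ξ (π / 2))))) volume x₁ x₂ :=
    ((hc.cont.continuousOn.mul (cE.comp_continuousOn cX)).neg).intervalIntegrable_of_Icc hx
  have i2 : IntervalIntegrable (fun ξ => χ ξ * (Wx (X (pt ξ (π / 2))) *
      (deriv X (pt ξ (π / 2))).re + Wy (X (pt ξ (π / 2))) * (deriv X (pt ξ (π / 2))).im))
      volume x₁ x₂ :=
    (hc.cont.continuousOn.mul (((hW.cx.comp_continuousOn cX).mul
      (Complex.continuous_re.comp_continuousOn cY)).add ((hW.cy.comp_continuousOn cX).mul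
      (Complex.continuous_im.comp_continuousOn cY)))).intervalIntegrable_of_Icc hx
  have e1 : ∫ ξ in x₁..x₂, χ ξ * (K (X (pt ξ (π / 2))) (deriv X (pt ξ (π / 2))) +
      K (conj (X (pt ξ (π / 2)))) (conj (deriv X (pt ξ (π / 2))))) =
      (∫ ξ in x₁..x₂, - (χ ξ * Ec (X (pt ξ (π / 2))))) +
      ∫ ξ in x₁..x₂, χ ξ * (Wx (X (pt ξ (π / 2))) *
        (deriv X (pt ξ (π / 2))).re + Wy (X (pt ξ (π / 2))) * (deriv X (pt ξ (π / 2))).im) := by
    rw [← intervalIntegral.integral_add i1 i2]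
    refine intervalIntegral.integral_congr fun ξ hξ => ?_
    rw [uIcc_of_le hx] at hξ
    have := hK (X (pt ξ (π / 2))) (deriv X (pt ξ (π / 2))) (hX.ne _ (cent_mem hξ))
    rw [this]
    ring
  rw [e1, nullW_line hW hx (fun ξ hξ => hX.an _ (cent_mem hξ)) hc.d1 hc.cont1 hc.e1 hc.e2]
  have b1 : ∫ ξ in x₁..x₂, - (χ ξ * Ec (X (pt ξ (π / 2)))) ≤ M * ∫ ξ in x₁..x₂, δ ξ := by
    rw [← intervalIntegral.integral_const_mul]
    refine intervalIntegral.integral_mono_on hx i1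
      ((continuous_const.mul cδ).intervalIntegrable _ _) fun ξ hξ => ?_
    obtain ⟨Z, hZ⟩ : ∃ Z, Z = X (pt ξ (π / 2)) := ⟨_, rfl⟩
    have hn := hδ ξ hξ
    rw [← hZ] at hn ⊢
    have hd := δ0 ξ hξ
    have h01 := hc.b01 ξ
    have key : - Ec Z ≤ M * δ ξ := by
      by_cases h1 : ‖Z‖ ≤ 1
      · have := hE0 Z h1
        have := mul_nonneg hM hd
        linarith
      · have h1' : 1 < ‖Z‖ := not_le.1 h1
        have hZ0 : ‖Z‖ ≠ 0 := by linarith
        have hZr : Z ∈ closedBall (0:ℂ) r := by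
          rw [mem_closedBall_zero_iff]
          exact hn.trans (δr ξ hξ)
        have hn1 : ‖((‖Z‖⁻¹ : ℝ) : ℂ) * Z‖ = 1 := by
          rw [norm_mul, norm_real, Real.norm_eq_abs, abs_of_nonneg (inv_nonneg.2 (norm_nonneg _)),
            inv_mul_cancel₀ hZ0]
        have hb : ((‖Z‖⁻¹ : ℝ) : ℂ) * Z ∈ closedBall (0:ℂ) r := by
          rw [mem_closedBall_zero_iff, hn1]
          exact hr
        have h2 := hL _ hb _ hZr
        have h3 := hE0 _ hn1.le
        have h4 : ‖((‖Z‖⁻¹ : ℝ) : ℂ) * Z - Z‖ = ‖Z‖ - 1 := by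
          have : ((‖Z‖⁻¹ : ℝ) : ℂ) * Z - Z = ((‖Z‖⁻¹ - 1 : ℝ) : ℂ) * Z := by
            push_cast
            ring
          rw [this, norm_mul, norm_real, Real.norm_eq_abs, abs_of_nonpos, neg_sub, sub_mul,
            one_mul, inv_mul_cancel₀ hZ0]
          have := inv_le_one_of_one_le₀ h1'.le
          linarith
        rw [h4] at h2
        have h5 := (abs_le.1 h2).2
        have h6 : M * (‖Z‖ - 1) ≤ M * δ ξ := mul_le_mul_of_nonneg_left (by linarith) hM
        linarith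
    have := mul_nonneg hM hd
    nlinarith
  have b2 : - ∫ ξ in x₁..x₂, χ₁ ξ * W (X (pt ξ (π / 2))) ≤ B * (2 * k) := by
    have h1 : ‖∫ ξ in x₁..x₂, χ₁ ξ * W (X (pt ξ (π / 2)))‖ ≤ ∫ ξ in x₁..x₂, B * |χ₁ ξ| := by
      refine (intervalIntegral.norm_integral_le_integral_norm hx).trans ?_
      refine intervalIntegral.integral_mono_on hx ?_
        ((continuous_const.mul hc.cont1.abs).intervalIntegrable _ _) fun ξ hξ => ?_
      · exact ((hc.cont1.continuousOn.mul (cW.comp_continuousOn cX)).norm).intervalIntegrable_of_Icc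
          hx
      · rw [Real.norm_eq_abs, abs_mul, mul_comm]
        refine mul_le_mul_of_nonneg_right (hB' _ ?_) (abs_nonneg _)
        rw [mem_closedBall_zero_iff]
        exact (hδ ξ hξ).trans (δr ξ hξ)
    rw [intervalIntegral.integral_const_mul] at h1
    have h2 := mul_le_mul_of_nonneg_left hc.i1 hB0
    rw [Real.norm_eq_abs] at h1
    have h3 := neg_abs_le (∫ ξ in x₁..x₂, χ₁ ξ * W (X (pt ξ (π / 2))))
    linarith
  linarith

/-- the integrated inequality, with the Koebe bound on the centre line only -/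
theorem strip3_b {k₂ lam D : ℝ} (hlam : 0 ≤ lam) (hk₂ : lam ≤ k₂)
    {T : ℂ → ℂ → ℝ → ℝ → ℝ} (hT0 : ∀ (X Y : ℂ) (s c : ℝ), 0 ≤ T X Y s c)
    (hTc : ContinuousOn (fun p : ℂ × ℂ × ℝ × ℝ => T p.1 p.2.1 p.2.2.1 p.2.2.2) {p | p.1 ≠ 0})
    (hTm : ∀ (X Y : ℂ) (s c : ℝ), T (conj X) (conj Y) s c = T X Y s (-c))
    {N : ℂ → ℂ → ℝ → ℝ} {K : ℂ → ℂ → ℝ} (hN : IsNull P N K)
    (hp : ∀ (X : ℂ → ℂ) (x₁ x₂ : ℝ), x₁ ≤ x₂ → NiceH X x₁ x₂ → P X x₁ x₂ →
      ∃ ε : ℝ → ℝ, Continuous ε ∧ (∀ ξ, 0 ≤ ε ξ) ∧ ∫ ξ in x₁..x₂, ε ξ ≤ D ∧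
        ∀ ξ ∈ Icc x₁ x₂, ∀ η ∈ Icc (0:ℝ) (π / 2),
          T (X (pt ξ η)) (deriv X (pt ξ η)) (Real.sin η) (Real.cos η) ≤
            k₂ * (1 - (X (pt ξ η)).re) + lam * (‖X (pt ξ η)‖ ^ 2 - (X (pt ξ η)).re) +
              N (X (pt ξ η)) (deriv X (pt ξ η)) η + ε ξ)
    {Ec Ex Ey W Wx Wy : ℂ → ℝ} (hW : C1f W Wx Wy) (hE : C1f Ec Ex Ey)
    (hK : ∀ X Y : ℂ, X ≠ 0 → K X Y + K (conj X) (conj Y) =
      - Ec X + (Wx X * Y.re + Wy X * Y.im))
    (hE0 : ∀ X : ℂ, ‖X‖ ≤ 1 → 0 ≤ Ec X) {r D' : ℝ} (hr : 1 ≤ r) :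
    ∃ C : ℝ, ∀ (X : ℂ → ℂ) (δ : ℝ → ℝ) (x₁ x₂ l : ℝ), 1 ≤ l → x₁ + l ≤ x₂ - l →
      NiceX X x₁ x₂ → P X x₁ x₂ → P (mir X) x₁ x₂ → Continuous δ →
      (∀ ξ ∈ Icc x₁ x₂, 0 ≤ δ ξ) → (∀ ξ ∈ Icc x₁ x₂, 1 + δ ξ ≤ r) →
      (∀ ξ ∈ Icc x₁ x₂, ‖X (pt ξ (π / 2))‖ ≤ 1 + δ ξ) → ∫ ξ in x₁..x₂, δ ξ ≤ D' →
      II (x₁ + l) (x₂ - l)
        (fun ξ η => T (X (pt ξ η)) (deriv X (pt ξ η)) (Real.sin η) (Real.cos η)) ≤
      lam * II x₁ x₂ (fun ξ η => ‖X (pt ξ η) - 1‖ ^ 2) +
        (k₂ - lam) * (π * ∫ ξ in x₁..x₂, (1 - (X (pt ξ (π / 2))).re)) +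
        C * (1 + II x₁ x₂ (fun ξ η => ‖X (pt ξ η) - 1‖ ^ 2) / l) := by
  obtain ⟨k, C, hk, hC⟩ := strip3_core hlam hk₂ hT0 hTc hTm hN hp
  obtain ⟨M, hM, hL⟩ := C1f_lip hE r
  obtain ⟨C', hC'⟩ := line_K hW (Pool.Agent.Helper4.EK.C1f.continuous hE) hK hE0 hr hM hL hk
  refine ⟨|C| + |C'| + M * |D'| + (k₂ - lam) * (π * |D'|), ?_⟩
  intro X δ x₁ x₂ l hl hx hX hP hP' cδ δ0 δr hδ hD'
  obtain ⟨χ, χ₁, χ₂, hc, hmain⟩ := hC X x₁ x₂ l hl hx hX hP hP'
  have hx12 : x₁ ≤ x₂ := by linarith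
  have h1 := hC' l x₁ x₂ χ χ₁ χ₂ X δ hc hx12 (NiceX.half hX) cδ δ0 δr hδ
  have h2 := line_lin hc hx12 (NiceX.half hX) cδ δ0 fun ξ hξ =>
    (re_le_norm _).trans (hδ ξ hξ)
  have hE0' : 0 ≤ II x₁ x₂ (fun ξ η => ‖X (pt ξ η) - 1‖ ^ 2) := by
    rw [← En_add hx12 hX]
    exact add_nonneg (En_nonneg hx12) (En_nonneg hx12)
  obtain ⟨F, hF⟩ : ∃ F, F = II x₁ x₂ (fun ξ η => ‖X (pt ξ η) - 1‖ ^ 2) / l := ⟨_, rfl⟩
  have hF0 : 0 ≤ F := by
    rw [hF]
    exact div_nonneg hE0' (by linarith)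
  rw [← hF] at hmain ⊢
  have hd : ∫ ξ in x₁..x₂, δ ξ ≤ |D'| := hD'.trans (le_abs_self _)
  have a1 : M * ∫ ξ in x₁..x₂, δ ξ ≤ M * |D'| := mul_le_mul_of_nonneg_left hd hM
  have a2 : C ≤ |C| := le_abs_self C
  have a3 : C' ≤ |C'| := le_abs_self C'
  have hkl : 0 ≤ k₂ - lam := by linarith
  have a4 : (k₂ - lam) * (π * ∫ ξ in x₁..x₂, χ ξ * (1 - (X (pt ξ (π / 2))).re)) ≤
      (k₂ - lam) * (π * ((∫ ξ in x₁..x₂, (1 - (X (pt ξ (π / 2))).re)) + |D'|)) := by
    refine mul_le_mul_of_nonneg_left (mul_le_mul_of_nonneg_left ?_ Real.pi_pos.le) hkl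
    linarith
  have a5 : (k₂ - lam) * (π * ((∫ ξ in x₁..x₂, (1 - (X (pt ξ (π / 2))).re)) + |D'|)) =
      (k₂ - lam) * (π * ∫ ξ in x₁..x₂, (1 - (X (pt ξ (π / 2))).re)) +
        (k₂ - lam) * (π * |D'|) := by ring
  have a6 : C * (1 + F) ≤ |C| * (1 + F) := mul_le_mul_of_nonneg_right a2 (by linarith)
  have n1 : 0 ≤ |C'| * F := mul_nonneg (abs_nonneg _) hF0
  have n2 : 0 ≤ M * |D'| * F := mul_nonneg (mul_nonneg hM (abs_nonneg _)) hF0
  have n3 : 0 ≤ (k₂ - lam) * (π * |D'|) * F :=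
    mul_nonneg (mul_nonneg hkl (mul_nonneg Real.pi_pos.le (abs_nonneg _))) hF0
  have a7 : (|C| + |C'| + M * |D'| + (k₂ - lam) * (π * |D'|)) * (1 + F) =
      |C| * (1 + F) + |C'| + M * |D'| + (k₂ - lam) * (π * |D'|) +
        |C'| * F + M * |D'| * F + (k₂ - lam) * (π * |D'|) * F := by ring
  rw [a7]
  linarith

end Pool.Agent.Helper69.EK3

end

section

set_option autoImplicit false
open Complex MeasureTheory Metric Set
open scoped Real ComplexConjugate

/-! Project EK, module E1d: the comparison function `kap a` is square integrably close to 1. -/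

namespace Pool.Agent.Helper16.EK

open Pool.Agent.Helper39.Area Pool.Agent.Helper52.EK

theorem tau_pos {a : ℝ} (h0 : 0 < a) (h1 : a < 1) : 0 < tau a := by
  unfold tau
  exact div_pos (by linarith) (by linarith)

theorem norm_kap_sub_one {a ξ η : ℝ} (h0 : 0 < a) (h1 : a < 1) (h2 : Real.log (tau a) + 1 ≤ ξ)
    (h3 : ξ ≤ -1) :
    ‖kap a (pt ξ η) - 1‖ ^ 2 ≤
      8 * (Real.exp (4 * ξ) + 9 * (tau a ^ 4 * Real.exp (-(4 * ξ)))) := by
  have ht : 0 < tau a := tau_pos h0 h1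
  set t : ℝ := tau a with htd
  set r : ℝ := Real.exp ξ with hr
  have hr0 : 0 < r := Real.exp_pos _
  have he : (2 : ℝ) ≤ Real.exp 1 := by
    have := Real.add_one_le_exp (1 : ℝ)
    linarith
  have htr : 2 * t ≤ r := by
    have h4 : Real.exp (Real.log t + 1) ≤ Real.exp ξ := Real.exp_le_exp.2 h2
    rw [Real.exp_add, Real.exp_log ht] at h4
    nlinarith
  have hr1 : 2 * r ≤ 1 := by
    have h4 : Real.exp ξ * Real.exp 1 ≤ 1 := by
      rw [← Real.exp_add]
      calc Real.exp (ξ + 1) ≤ Real.exp 0 := Real.exp_le_exp.2 (by linarith)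
        _ = 1 := Real.exp_zero
    nlinarith
  set Z : ℂ := Complex.exp (pt ξ η) with hZ
  have hZn : ‖Z‖ = r := by
    rw [hZ, Complex.norm_exp]
    simp [pt, hr]
  have hZ2 : ‖Z ^ 2‖ = r ^ 2 := by rw [norm_pow, hZn]
  have htn : ‖((t : ℂ)) ^ 2‖ = t ^ 2 := by
    rw [norm_pow, Complex.norm_real, Real.norm_eq_abs, sq_abs]
  have hA : 3 / 4 * r ^ 2 ≤ ‖Z ^ 2 + (t : ℂ) ^ 2‖ := by
    have h5 : ‖Z ^ 2‖ - ‖(t : ℂ) ^ 2‖ ≤ ‖Z ^ 2 + (t : ℂ) ^ 2‖ := by
      have := norm_sub_norm_le (Z ^ 2) (-((t : ℂ) ^ 2))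
      rwa [norm_neg, sub_neg_eq_add] at this
    rw [hZ2, htn] at h5
    nlinarith
  have hB : 3 / 4 ≤ ‖Z ^ 2 + 1‖ := by
    have h5 : ‖(1 : ℂ)‖ - ‖Z ^ 2‖ ≤ ‖Z ^ 2 + 1‖ := by
      have := norm_sub_norm_le (1 : ℂ) (-(Z ^ 2))
      rw [norm_neg, sub_neg_eq_add, add_comm] at this
      exact this
    rw [hZ2, norm_one] at h5
    nlinarith
  have hA0 : Z ^ 2 + (t : ℂ) ^ 2 ≠ 0 := by
    intro h
    rw [h, norm_zero] at hA
    nlinarith
  have hB0 : Z ^ 2 + 1 ≠ 0 := by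
    intro h
    rw [h, norm_zero] at hB
    linarith
  have hk : kap a (pt ξ η) - 1 =
      -(Z ^ 4 + 2 * (t : ℂ) ^ 2 * Z ^ 2 + (t : ℂ) ^ 2) /
        ((Z ^ 2 + (t : ℂ) ^ 2) * (Z ^ 2 + 1)) := by
    unfold kap
    rw [← hZ, ← htd]
    field_simp
    ring
  have hnum : ‖-(Z ^ 4 + 2 * (t : ℂ) ^ 2 * Z ^ 2 + (t : ℂ) ^ 2)‖ ≤
      r ^ 4 + 2 * t ^ 2 * r ^ 2 + t ^ 2 := by
    rw [norm_neg]
    calc ‖Z ^ 4 + 2 * (t : ℂ) ^ 2 * Z ^ 2 + (t : ℂ) ^ 2‖
        ≤ ‖Z ^ 4‖ + ‖2 * (t : ℂ) ^ 2 * Z ^ 2‖ + ‖(t : ℂ) ^ 2‖ := norm_add₃_le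
      _ = r ^ 4 + 2 * t ^ 2 * r ^ 2 + t ^ 2 := by
          rw [norm_mul, norm_mul, htn, hZ2, norm_pow, hZn]
          simp
  have hden : 9 / 16 * r ^ 2 ≤ ‖(Z ^ 2 + (t : ℂ) ^ 2) * (Z ^ 2 + 1)‖ := by
    rw [norm_mul]
    nlinarith [mul_le_mul hA hB (by norm_num) (norm_nonneg (Z ^ 2 + (t : ℂ) ^ 2))]
  have hq : ‖kap a (pt ξ η) - 1‖ ≤ 2 * (r ^ 2 + 3 * (t ^ 2 / r ^ 2)) := by
    rw [hk, norm_div]
    have hr2 : 0 < r ^ 2 := by positivity
    have hden0 : 0 < ‖(Z ^ 2 + (t : ℂ) ^ 2) * (Z ^ 2 + 1)‖ := by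
      refine lt_of_lt_of_le ?_ hden
      positivity
    rw [div_le_iff₀ hden0]
    have h6 : 2 * (r ^ 2 + 3 * (t ^ 2 / r ^ 2)) * (9 / 16 * r ^ 2) ≤
        2 * (r ^ 2 + 3 * (t ^ 2 / r ^ 2)) * ‖(Z ^ 2 + (t : ℂ) ^ 2) * (Z ^ 2 + 1)‖ :=
      mul_le_mul_of_nonneg_left hden (by positivity)
    have h7 : 2 * (r ^ 2 + 3 * (t ^ 2 / r ^ 2)) * (9 / 16 * r ^ 2) =
        9 / 8 * (r ^ 4 + 3 * t ^ 2) := by
      field_simp
      ring
    have h8 : r ^ 4 + 2 * t ^ 2 * r ^ 2 + t ^ 2 ≤ 9 / 8 * (r ^ 4 + 3 * t ^ 2) := by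
      have : t ^ 2 * r ^ 2 ≤ t ^ 2 * 1 := by
        apply mul_le_mul_of_nonneg_left _ (sq_nonneg t)
        nlinarith
      nlinarith [sq_nonneg (r ^ 2), sq_nonneg t]
    linarith
  have hE1 : Real.exp (4 * ξ) = r ^ 4 := by
    rw [hr, ← Real.exp_nat_mul]
    norm_num
  have hE2 : Real.exp (-(4 * ξ)) = (r ^ 4)⁻¹ := by
    rw [Real.exp_neg, hE1]
  rw [hE1, hE2]
  calc ‖kap a (pt ξ η) - 1‖ ^ 2 ≤ (2 * (r ^ 2 + 3 * (t ^ 2 / r ^ 2))) ^ 2 :=
        pow_le_pow_left₀ (norm_nonneg _) hq 2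
    _ ≤ 8 * (r ^ 4 + 9 * (t ^ 4 * (r ^ 4)⁻¹)) := by
        have h9 : t ^ 4 * (r ^ 4)⁻¹ = (t ^ 2 / r ^ 2) ^ 2 := by
          field_simp
        rw [h9]
        nlinarith [sq_nonneg (r ^ 2 - 3 * (t ^ 2 / r ^ 2))]

/-- E1d: the comparison function -/
theorem E1d : ∃ C : ℝ, ∀ a : ℝ, 0 < a → a < 1 → ∀ x₁ x₂ : ℝ, Real.log (tau a) + 1 ≤ x₁ →
    x₁ ≤ x₂ → x₂ ≤ -1 → II x₁ x₂ (fun ξ η => ‖kap a (pt ξ η) - 1‖ ^ 2) ≤ C := by
  refine ⟨π * (8 * (1 / 4 + 9 * (1 / 4))), fun a h0 h1 x₁ x₂ h2 h12 h3 => ?_⟩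
  have ht : 0 < tau a := tau_pos h0 h1
  set t : ℝ := tau a with htd
  have hin : ∀ ξ ∈ Ioc x₁ x₂, (∫ η in (0:ℝ)..π, ‖kap a (pt ξ η) - 1‖ ^ 2) ≤
      π * (8 * (Real.exp (4 * ξ) + 9 * (t ^ 4 * Real.exp (-(4 * ξ))))) := by
    intro ξ hξ
    rw [intervalIntegral.integral_of_le Real.pi_pos.le]
    have h4 : (∫ η in Ioc 0 π, ‖kap a (pt ξ η) - 1‖ ^ 2) ≤
        ∫ η in Ioc 0 π, (8 * (Real.exp (4 * ξ) + 9 * (t ^ 4 * Real.exp (-(4 * ξ))))) := by
      refine integral_mono_of_nonneg (Filter.Eventually.of_forall fun η => ?_) ?_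
        (Filter.Eventually.of_forall fun η => ?_)
      · exact sq_nonneg _
      · exact integrable_const _
      · exact norm_kap_sub_one h0 h1 (h2.trans hξ.1.le) (hξ.2.trans h3)
    refine h4.trans (le_of_eq ?_)
    rw [setIntegral_const]
    simp [Real.pi_pos.le]
  have hII : II x₁ x₂ (fun ξ η => ‖kap a (pt ξ η) - 1‖ ^ 2) ≤
      ∫ ξ in x₁..x₂, π * (8 * (Real.exp (4 * ξ) + 9 * (t ^ 4 * Real.exp (-(4 * ξ))))) := by
    unfold II
    rw [intervalIntegral.integral_of_le h12, intervalIntegral.integral_of_le h12]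
    refine integral_mono_of_nonneg (Filter.Eventually.of_forall fun ξ => ?_) ?_ ?_
    · exact intervalIntegral.integral_nonneg Real.pi_pos.le fun η _ => sq_nonneg _
    · have hc : Continuous fun ξ : ℝ =>
          π * (8 * (Real.exp (4 * ξ) + 9 * (t ^ 4 * Real.exp (-(4 * ξ))))) := by
        fun_prop
      exact (hc.integrableOn_Icc (a := x₁) (b := x₂)).mono_set Ioc_subset_Icc_self
    · exact (ae_restrict_iff' measurableSet_Ioc).2 (Filter.Eventually.of_forall hin)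
  refine hII.trans ?_
  have hd : ∀ ξ : ℝ, HasDerivAt (fun ξ : ℝ => π * (8 * (Real.exp (4 * ξ) / 4 -
      9 * (t ^ 4 * (Real.exp (-(4 * ξ)) / 4)))))
      (π * (8 * (Real.exp (4 * ξ) + 9 * (t ^ 4 * Real.exp (-(4 * ξ)))))) ξ := by
    intro ξ
    have h5 : HasDerivAt (fun ξ : ℝ => Real.exp (4 * ξ)) (Real.exp (4 * ξ) * 4) ξ := by
      simpa using ((hasDerivAt_id ξ).const_mul 4).exp
    have h6 : HasDerivAt (fun ξ : ℝ => Real.exp (-(4 * ξ))) (Real.exp (-(4 * ξ)) * (-4)) ξ := by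
      simpa using (((hasDerivAt_id ξ).const_mul 4).neg).exp
    have h7 := (((h5.div_const 4).sub (((h6.div_const 4).const_mul (t ^ 4)).const_mul
      9)).const_mul 8).const_mul π
    refine h7.congr_deriv ?_
    ring
  rw [intervalIntegral.integral_eq_sub_of_hasDerivAt (fun ξ _ => hd ξ)]
  · have e1 : Real.exp (4 * x₂) ≤ 1 := by
      rw [← Real.exp_zero]
      exact Real.exp_le_exp.2 (by linarith)
    have e2 : t ^ 4 * Real.exp (-(4 * x₁)) ≤ 1 := by
      have h8 : t ^ 4 = Real.exp (4 * Real.log t) := by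
        rw [mul_comm, Real.exp_mul, Real.exp_log ht]
        norm_cast
      rw [h8, ← Real.exp_add, ← Real.exp_zero]
      exact Real.exp_le_exp.2 (by linarith)
    have e3 : 0 < Real.exp (4 * x₁) := Real.exp_pos _
    have e4 : 0 < t ^ 4 * Real.exp (-(4 * x₂)) := by positivity
    have hpi := Real.pi_pos
    have key : 8 * (Real.exp (4 * x₂) / 4 - 9 * (t ^ 4 * (Real.exp (-(4 * x₂)) / 4))) -
        8 * (Real.exp (4 * x₁) / 4 - 9 * (t ^ 4 * (Real.exp (-(4 * x₁)) / 4))) ≤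
        8 * (1 / 4 + 9 * (1 / 4)) := by
      have e5 : t ^ 4 * (Real.exp (-(4 * x₂)) / 4) = t ^ 4 * Real.exp (-(4 * x₂)) / 4 := by ring
      have e6 : t ^ 4 * (Real.exp (-(4 * x₁)) / 4) = t ^ 4 * Real.exp (-(4 * x₁)) / 4 := by ring
      rw [e5, e6]
      linarith
    calc _ = π * (8 * (Real.exp (4 * x₂) / 4 - 9 * (t ^ 4 * (Real.exp (-(4 * x₂)) / 4))) -
        8 * (Real.exp (4 * x₁) / 4 - 9 * (t ^ 4 * (Real.exp (-(4 * x₁)) / 4)))) := by ring
      _ ≤ _ := mul_le_mul_of_nonneg_left key hpi.le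
  · have hc : Continuous fun ξ : ℝ =>
        π * (8 * (Real.exp (4 * ξ) + 9 * (t ^ 4 * Real.exp (-(4 * ξ))))) := by
      fun_prop
    exact hc.intervalIntegrable _ _

end Pool.Agent.Helper16.EK

end

section

set_option autoImplicit false
open Complex MeasureTheory Metric Set
open scoped Real ComplexConjugate

/-!
# Project EK3: the bound for one target
-/

namespace Pool.Agent.Helper69.EK3

open Pool.Agent.Helper39.Area Pool.Agent.Helper52.EK

/-- the integrated inequality with a linear term on the centre line -/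
def StripIneq3 (lam k₂ : ℝ) (T : ℂ → ℂ → ℝ → ℝ → ℝ) (adm : (ℂ → ℂ) → ℝ → ℝ → Prop) : Prop :=
  ∃ C : ℝ, ∀ (X : ℂ → ℂ) (x₁ x₂ l : ℝ), 1 ≤ l → x₁ + l ≤ x₂ - l → NiceX X x₁ x₂ → adm X x₁ x₂ →
    II (x₁ + l) (x₂ - l)
      (fun ξ η => T (X (pt ξ η)) (deriv X (pt ξ η)) (Real.sin η) (Real.cos η)) ≤
    lam * II x₁ x₂ (fun ξ η => ‖X (pt ξ η) - 1‖ ^ 2) +
      (k₂ - lam) * (π * ∫ ξ in x₁..x₂, (1 - (X (pt ξ (π / 2))).re)) +
      C * (1 + II x₁ x₂ (fun ξ η => ‖X (pt ξ η) - 1‖ ^ 2) / l)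

/-- the bound for one target -/
theorem K_one3 {lam k₂ κ L : ℝ} {G : ℂ → ℂ} (hG : GLip G L) {adm : (ℂ → ℂ) → ℝ → ℝ → Prop}
    (hadm : ∀ (β : ℂ → ℂ) (R a : ℝ), ExtR β R → 0 < a → a < 1 → Real.log (tau a) + 1 ≤ -1 →
      adm (Xf β a) (Real.log (tau a) + 1) (-1))
    (line : ∀ δ : ℝ, 0 < δ → ∃ C : ℝ, ∀ (β : ℂ → ℂ) (R a : ℝ), ExtR β R → 0 < a → a < 1 →
      ∀ x₁ x₂ : ℝ, Real.log (tau a) + 1 ≤ x₁ → x₁ ≤ x₂ → x₂ ≤ -1 →
      2 * ∫ ξ in x₁..x₂, (1 - (Xf β a (pt ξ (π / 2))).re) ≤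
        (1 + δ) * Real.log (‖N β a‖ / (1 - a ^ 2)) + C)
    (hS : StripIneq3 lam k₂ (TG G) adm) (h0 : 0 ≤ lam) (h1 : lam ≤ k₂)
    (hκ : k₂ < 2 * κ) : ∃ C a₀ : ℝ, a₀ < 1 ∧ ∀ (β : ℂ → ℂ) (R a : ℝ), ExtR β R → a₀ < a → a < 1 →
      Kf (wf G β) 1 (-1) (Real.log a) ≤ κ * Real.log (‖N β a‖ / (1 - a ^ 2)) + C := by
  obtain ⟨C₁, hC₁⟩ := hS
  obtain ⟨Cd, hCd⟩ := Pool.Agent.Helper16.EK.E1d
  obtain ⟨d, hd⟩ : ∃ d, d = 2 * κ - k₂ := ⟨_, rfl⟩
  have hd0 : 0 < d := by rw [hd]; linarith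
  obtain ⟨D, hD⟩ : ∃ D, D = max C₁ 0 := ⟨_, rfl⟩
  have hD0 : 0 ≤ D := by rw [hD]; exact le_max_right _ _
  have hDC : C₁ ≤ D := by rw [hD]; exact le_max_left _ _
  obtain ⟨l, hl⟩ : ∃ l, l = 1 + 4 * D / d := ⟨_, rfl⟩
  have hl1 : 1 ≤ l := by
    have : 0 ≤ 4 * D / d := by positivity
    linarith
  have hl0 : 0 < l := by linarith
  have hDl : D / l ≤ d / 4 := by
    rw [div_le_div_iff₀ hl0 (by norm_num)]
    have : D * 4 = d * (4 * D / d) := by field_simp
    rw [this]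
    apply mul_le_mul_of_nonneg_left _ hd0.le
    linarith
  have hDl0 : 0 ≤ D / l := by positivity
  obtain ⟨k, hk⟩ : ∃ k, k = lam + D / l := ⟨_, rfl⟩
  have hk0 : 0 ≤ k := by rw [hk]; linarith
  obtain ⟨g, hg⟩ : ∃ g, g = d / (4 * (k + 1)) := ⟨_, rfl⟩
  have hg0 : 0 < g := by rw [hg]; positivity
  have hkg : k * g ≤ d / 4 := by
    have h2 : 4 * (g * (k + 1)) = d := by
      rw [hg]
      field_simp
    nlinarith
  obtain ⟨e, he⟩ : ∃ e, e = d / (4 * (k₂ - lam + 1)) := ⟨_, rfl⟩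
  have hkl : 0 < k₂ - lam + 1 := by linarith
  have he0 : 0 < e := by rw [he]; positivity
  have hke : (k₂ - lam) * e ≤ d / 4 := by
    have h2 : 4 * (e * (k₂ - lam + 1)) = d := by
      rw [he]
      field_simp
    nlinarith
  obtain ⟨Cs, hCs⟩ := line e he0
  obtain ⟨A, hA⟩ : ∃ A, A = 1 + l := ⟨_, rfl⟩
  have hA1 : 1 ≤ A := by linarith
  obtain ⟨C₃, hC₃⟩ := Pool.Agent.Helper70.EK.E3_of_b Pool.Agent.Helper84.EK.E3b hG A hA1
  refine ⟨C₃ + π⁻¹ * (k * ((1 + 1 / g) * Cd)) + (k₂ - lam) * (Cs / 2) + π⁻¹ * D,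
    max (Real.exp (-1)) (1 - Real.exp (-2 * A)), ?_, ?_⟩
  · apply max_lt
    · rw [← Real.exp_zero]
      exact Real.exp_lt_exp.mpr (by norm_num)
    · linarith [Real.exp_pos (-2 * A)]
  intro β R a hβ ha ha1
  have hae : Real.exp (-1) < a := lt_of_le_of_lt (le_max_left _ _) ha
  have ha0 : 0 < a := (Real.exp_pos _).trans hae
  have hfar := Pool.Agent.Helper83.EK.tau_far (A := A) (lt_of_le_of_lt (le_max_right _ _) ha) ha0
    ha1
  have hK := hC₃ β R a hβ hae ha1 hfar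
  obtain ⟨x₁, hx₁⟩ : ∃ x₁, x₁ = Real.log (tau a) + 1 := ⟨_, rfl⟩
  have e1 : Real.log (tau a) + A = x₁ + l := by rw [hA, hx₁]; ring
  have e2 : -A = -1 - l := by rw [hA]; ring
  rw [e1, e2] at hK hfar
  have hx12 : x₁ ≤ -1 := by linarith
  have hxt : Real.log (tau a) < x₁ := by linarith
  have hX : NiceX (Xf β a) x₁ (-1) := Pool.Agent.Helper67.EK.E1c hβ ha0 ha1 hxt (by norm_num)
  have hst := hC₁ (Xf β a) x₁ (-1) l hl1 hfar hX (by
    rw [hx₁]
    exact hadm β R a hβ ha0 ha1 (by rw [← hx₁]; exact hx12))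
  have hb := Pool.Agent.Helper86.EK.E1b hβ ha0 ha1 hxt hx12 (by norm_num)
  have hdd := hCd a ha0 ha1 x₁ (-1) hx₁.ge hx12 le_rfl
  have hs := hCs β R a hβ ha0 ha1 x₁ (-1) hx₁.ge hx12 le_rfl
  obtain ⟨Λ, hΛ⟩ : ∃ Λ, Λ = Real.log (‖N β a‖ / (1 - a ^ 2)) := ⟨_, rfl⟩
  rw [← hΛ] at hb hs ⊢
  -- continuity
  have cX : ContinuousOn (fun v : ℝ × ℝ => Xf β a (pt v.1 v.2)) (Icc x₁ (-1) ×ˢ Icc 0 π) :=
    hX.an.continuousOn.comp Pool.Agent.Helper70.EK.continuous_pt.continuousOn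
      (Pool.Agent.Helper83.EK.pt_mapsTo _ _)
  have cK : ContinuousOn (fun v : ℝ × ℝ => kap a (pt v.1 v.2)) (Icc x₁ (-1) ×ˢ Icc 0 π) :=
    Pool.Agent.Helper83.EK.kap_contOn ha0 ha1 hxt (by norm_num)
  have c1 : ContinuousOn (fun v : ℝ × ℝ => ‖Xf β a (pt v.1 v.2) - 1‖ ^ 2)
      (Icc x₁ (-1) ×ˢ Icc 0 π) := (cX.sub continuousOn_const).norm.pow 2
  have c2 : ContinuousOn (fun v : ℝ × ℝ => ‖2 * Xf β a (pt v.1 v.2) - 2 * kap a (pt v.1 v.2)‖ ^ 2)
      (Icc x₁ (-1) ×ˢ Icc 0 π) :=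
    ((continuousOn_const.mul cX).sub (continuousOn_const.mul cK)).norm.pow 2
  have c3 : ContinuousOn (fun v : ℝ × ℝ => ‖kap a (pt v.1 v.2) - 1‖ ^ 2)
      (Icc x₁ (-1) ×ˢ Icc 0 π) := (cK.sub continuousOn_const).norm.pow 2
  have hE := Pool.Agent.Helper83.EK.II_le3 (F₁ := fun ξ η => ‖Xf β a (pt ξ η) - 1‖ ^ 2)
    (F₂ := fun ξ η => ‖2 * Xf β a (pt ξ η) - 2 * kap a (pt ξ η)‖ ^ 2)
    (F₃ := fun ξ η => ‖kap a (pt ξ η) - 1‖ ^ 2) (p := (1 + g) / 4) (q := 1 + 1 / g)
    hx12 c1 c2 c3 (by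
      intro ξ η
      have h1 : Xf β a (pt ξ η) - 1 = (2 * Xf β a (pt ξ η) - 2 * kap a (pt ξ η)) / 2 +
        (kap a (pt ξ η) - 1) := by ring
      have h2 : ‖Xf β a (pt ξ η) - 1‖ ≤ ‖2 * Xf β a (pt ξ η) - 2 * kap a (pt ξ η)‖ / 2 +
          ‖kap a (pt ξ η) - 1‖ := by
        rw [h1]
        refine (norm_add_le _ _).trans ?_
        rw [norm_div]
        simp
      have h3 := norm_nonneg (Xf β a (pt ξ η) - 1)
      have h4 := norm_nonneg (2 * Xf β a (pt ξ η) - 2 * kap a (pt ξ η))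
      have h5 := norm_nonneg (kap a (pt ξ η) - 1)
      generalize ‖Xf β a (pt ξ η) - 1‖ = u at *
      generalize ‖2 * Xf β a (pt ξ η) - 2 * kap a (pt ξ η)‖ = v at *
      generalize ‖kap a (pt ξ η) - 1‖ = w at *
      have h6 : u ^ 2 ≤ (v / 2 + w) ^ 2 := by nlinarith
      have h7 : (v / 2 + w) ^ 2 ≤ (1 + g) / 4 * v ^ 2 + (1 + 1 / g) * w ^ 2 := by
        have h8 : (1 + g) / 4 * v ^ 2 + (1 + 1 / g) * w ^ 2 - (v / 2 + w) ^ 2 =
            (g * v / 2 - w) ^ 2 / g := by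
          field_simp
          ring
        have h9 : 0 ≤ (g * v / 2 - w) ^ 2 / g := by positivity
        linarith
      exact h6.trans h7)
  -- assemble
  have hEn : 0 ≤ II x₁ (-1) (fun ξ η => ‖Xf β a (pt ξ η) - 1‖ ^ 2) :=
    Pool.Agent.Helper83.EK.II_nonneg hx12 (fun ξ η => by positivity)
  obtain ⟨E, hEdef⟩ : ∃ E, E = II x₁ (-1) (fun ξ η => ‖Xf β a (pt ξ η) - 1‖ ^ 2) := ⟨_, rfl⟩
  rw [← hEdef] at hE hEn hst
  obtain ⟨S, hSdef⟩ : ∃ S, S = ∫ ξ in x₁..(-1), (1 - (Xf β a (pt ξ (π / 2))).re) := ⟨_, rfl⟩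
  rw [← hSdef] at hst hs
  have hπ : 0 < π := Real.pi_pos
  have hπi : 0 < π⁻¹ := inv_pos.mpr hπ
  have hE2 : E ≤ (1 + g) / 4 * (2 * π * Λ) + (1 + 1 / g) * Cd := by
    have h1 : 0 < (1 + g) / 4 := by positivity
    have h2 : 0 < 1 + 1 / g := by positivity
    have h3 := mul_le_mul_of_nonneg_left hb h1.le
    have h4 := mul_le_mul_of_nonneg_left hdd h2.le
    linarith
  have hΛ0 : 0 ≤ Λ := by
    have h1 : 0 ≤ II x₁ (-1) (fun ξ η => ‖2 * Xf β a (pt ξ η) - 2 * kap a (pt ξ η)‖ ^ 2) :=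
      Pool.Agent.Helper83.EK.II_nonneg hx12 (fun ξ η => by positivity)
    have h2 : 0 ≤ 2 * π * Λ := h1.trans hb
    exact nonneg_of_mul_nonneg_right h2 (by positivity)
  have hEl : 0 ≤ E / l := div_nonneg hEn hl0.le
  have hT : II (x₁ + l) (-1 - l) (fun ξ η => TG G (Xf β a (pt ξ η)) (deriv (Xf β a) (pt ξ η))
      (Real.sin η) (Real.cos η)) ≤ k * E + (k₂ - lam) * (π * S) + D := by
    refine hst.trans ?_
    have h2 : C₁ * (1 + E / l) ≤ D * (1 + E / l) :=
      mul_le_mul_of_nonneg_right hDC (by linarith)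
    have h3 : D * (1 + E / l) = D + D / l * E := by ring
    rw [hk, add_mul]
    linarith
  have h2 : k * E ≤ k * ((1 + g) / 4 * (2 * π * Λ) + (1 + 1 / g) * Cd) :=
    mul_le_mul_of_nonneg_left hE2 hk0
  have h3 : (k₂ - lam) * (π * S) ≤ (k₂ - lam) * (π * (((1 + e) * Λ + Cs) / 2)) := by
    refine mul_le_mul_of_nonneg_left (mul_le_mul_of_nonneg_left ?_ hπ.le) (by linarith)
    linarith
  have h4 : π⁻¹ * II (x₁ + l) (-1 - l) (fun ξ η => TG G (Xf β a (pt ξ η))
      (deriv (Xf β a) (pt ξ η)) (Real.sin η) (Real.cos η)) ≤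
      π⁻¹ * (k * ((1 + g) / 4 * (2 * π * Λ) + (1 + 1 / g) * Cd) +
        (k₂ - lam) * (π * (((1 + e) * Λ + Cs) / 2)) + D) :=
    mul_le_mul_of_nonneg_left (by linarith) hπi.le
  have h5 : π⁻¹ * (k * ((1 + g) / 4 * (2 * π * Λ) + (1 + 1 / g) * Cd) +
        (k₂ - lam) * (π * (((1 + e) * Λ + Cs) / 2)) + D) =
      (k * (1 + g) + (k₂ - lam) * (1 + e)) / 2 * Λ + π⁻¹ * (k * ((1 + 1 / g) * Cd)) +
        (k₂ - lam) * (Cs / 2) + π⁻¹ * D := by
    field_simp
    ring
  have h6 : (k * (1 + g) + (k₂ - lam) * (1 + e)) / 2 * Λ ≤ κ * Λ := by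
    apply mul_le_mul_of_nonneg_right _ hΛ0
    have : k ≤ lam + d / 4 := by rw [hk]; linarith
    rw [hd] at this hkg hke hd0
    linarith
  linarith

end Pool.Agent.Helper69.EK3

end

section


/-!
E1d: the comparison function `kap` is close to `1` in the mean square.
-/

set_option autoImplicit false

open Complex MeasureTheory Metric Set
open scoped Real ComplexConjugate

namespace Pool.Agent.Helper46.EK

open Pool.Agent.Helper52.EK

lemma tau_pos {a : ℝ} (h0 : 0 < a) (h1 : a < 1) : 0 < tau a := by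
  unfold tau
  exact div_pos (by linarith) (by linarith)

lemma norm_exp_pt (ξ η : ℝ) : ‖Complex.exp (pt ξ η)‖ = Real.exp ξ := by
  rw [Complex.norm_exp]
  simp [pt]

lemma kap_sub_one {τ : ℂ} {Z : ℂ} (h1 : Z ^ 2 + τ ^ 2 ≠ 0) (h2 : Z ^ 2 + 1 ≠ 0) :
    Z ^ 2 * (1 - τ ^ 2) / ((Z ^ 2 + τ ^ 2) * (Z ^ 2 + 1)) - 1 =
      -((Z ^ 2) ^ 2 + 2 * τ ^ 2 * Z ^ 2 + τ ^ 2) / ((Z ^ 2 + τ ^ 2) * (Z ^ 2 + 1)) := by
  field_simp
  ring

lemma exp_neg_two_lt : Real.exp (-2) < 1 / 4 := by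
  have h1 : (2.7182818283 : ℝ) < Real.exp 1 := Real.exp_one_gt_d9
  have h2 : Real.exp 2 = Real.exp 1 * Real.exp 1 := by rw [← Real.exp_add]; norm_num
  have h3 : (4 : ℝ) < Real.exp 2 := by rw [h2]; nlinarith
  rw [Real.exp_neg, one_div]
  exact inv_strictAnti₀ (by norm_num) h3

lemma kap_bound {a : ℝ} (h0 : 0 < a) (h1 : a < 1) {ξ η : ℝ} (hx : Real.log (tau a) + 1 ≤ ξ)
    (hx2 : ξ ≤ -1) :
    ‖kap a (pt ξ η) - 1‖ ^ 2 ≤ 144 * Real.exp ξ + 16 * (tau a * Real.exp (-ξ)) := by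
  have hτ : 0 < tau a := tau_pos h0 h1
  set τ : ℝ := tau a with hτdef
  set Z : ℂ := Complex.exp (pt ξ η) with hZ
  set r : ℝ := Real.exp ξ with hr
  have hnZ : ‖Z‖ = r := norm_exp_pt ξ η
  have hr0 : 0 < r := Real.exp_pos _
  have he2 := exp_neg_two_lt
  -- `4 τ² ≤ r²`, `4 r² ≤ 1`
  have hτr : τ ^ 2 ≤ r ^ 2 / 4 := by
    have h2 : τ * Real.exp 1 ≤ r := by
      have : Real.exp (Real.log τ + 1) ≤ Real.exp ξ := Real.exp_le_exp.2 hx
      rwa [Real.exp_add, Real.exp_log hτ] at this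
    have h3 : (2.7182818283 : ℝ) < Real.exp 1 := Real.exp_one_gt_d9
    have h4 : τ * 2 ≤ r := le_trans (by nlinarith) h2
    nlinarith
  have hr2 : r ^ 2 ≤ 1 / 4 := by
    have h2 : r ^ 2 = Real.exp (2 * ξ) := by
      rw [hr, ← Real.exp_nat_mul]; norm_num
    have h3 : Real.exp (2 * ξ) ≤ Real.exp (-2) := Real.exp_le_exp.2 (by linarith)
    linarith
  have hr1 : r ≤ 1 / 2 := by nlinarith
  have hτr1 : τ ≤ r / 2 := by
    have : τ ^ 2 ≤ (r / 2) ^ 2 := by nlinarith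
    exact (sq_le_sq₀ hτ.le (by positivity)).1 this
  have hA : r ^ 2 * (3 / 4) ≤ ‖Z ^ 2 + (τ : ℂ) ^ 2‖ := by
    have h2 : ‖Z ^ 2‖ - ‖(τ : ℂ) ^ 2‖ ≤ ‖Z ^ 2 + (τ : ℂ) ^ 2‖ := by
      have := norm_sub_norm_le (Z ^ 2) (-(τ : ℂ) ^ 2)
      rw [norm_neg, sub_neg_eq_add] at this
      exact this
    rw [norm_pow, norm_pow, hnZ, Complex.norm_real, Real.norm_eq_abs, sq_abs] at h2
    nlinarith
  have hB : (3 / 4 : ℝ) ≤ ‖Z ^ 2 + 1‖ := by
    have h2 : ‖(1 : ℂ)‖ - ‖Z ^ 2‖ ≤ ‖Z ^ 2 + 1‖ := by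
      have := norm_sub_norm_le (1 : ℂ) (-(Z ^ 2))
      rw [norm_neg, sub_neg_eq_add, add_comm (1 : ℂ)] at this
      exact this
    rw [norm_one, norm_pow, hnZ] at h2
    linarith
  have hA0 : Z ^ 2 + (τ : ℂ) ^ 2 ≠ 0 := by
    intro h
    rw [h, norm_zero] at hA
    nlinarith
  have hB0 : Z ^ 2 + 1 ≠ 0 := by
    intro h
    rw [h, norm_zero] at hB
    linarith
  have hk : kap a (pt ξ η) - 1 =
      -((Z ^ 2) ^ 2 + 2 * (τ : ℂ) ^ 2 * Z ^ 2 + (τ : ℂ) ^ 2) /
        ((Z ^ 2 + (τ : ℂ) ^ 2) * (Z ^ 2 + 1)) := by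
    rw [← kap_sub_one hA0 hB0]
    rfl
  have hnum : ‖-((Z ^ 2) ^ 2 + 2 * (τ : ℂ) ^ 2 * Z ^ 2 + (τ : ℂ) ^ 2)‖ ≤
      r ^ 4 + 2 * τ ^ 2 * r ^ 2 + τ ^ 2 := by
    rw [norm_neg]
    refine (norm_add_le _ _).trans ?_
    refine add_le_add ((norm_add_le _ _).trans (add_le_add ?_ ?_)) ?_
    · rw [norm_pow, norm_pow, hnZ]; exact le_of_eq (by ring)
    · rw [norm_mul, norm_mul, norm_pow, norm_pow, hnZ, Complex.norm_real, Real.norm_eq_abs, sq_abs]
      simp
    · rw [norm_pow, Complex.norm_real, Real.norm_eq_abs, sq_abs]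
  have hden : r ^ 2 * (9 / 16) ≤ ‖(Z ^ 2 + (τ : ℂ) ^ 2) * (Z ^ 2 + 1)‖ := by
    rw [norm_mul]
    calc r ^ 2 * (9 / 16) = (r ^ 2 * (3 / 4)) * (3 / 4) := by ring
      _ ≤ _ := mul_le_mul hA hB (by norm_num) (norm_nonneg _)
  have hden0 : 0 < r ^ 2 * (9 / 16) := by positivity
  have hmain : ‖kap a (pt ξ η) - 1‖ ≤ 2 * (r ^ 2 + 2 * τ ^ 2 + τ ^ 2 / r ^ 2) := by
    rw [hk, norm_div]
    calc _ ≤ (r ^ 4 + 2 * τ ^ 2 * r ^ 2 + τ ^ 2) / (r ^ 2 * (9 / 16)) :=
          div_le_div₀ (by positivity) hnum hden0 hden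
      _ = 16 / 9 * (r ^ 2 + 2 * τ ^ 2 + τ ^ 2 / r ^ 2) := by field_simp
      _ ≤ _ := by
          have : 0 ≤ r ^ 2 + 2 * τ ^ 2 + τ ^ 2 / r ^ 2 := by positivity
          nlinarith
  -- crude form
  have hq : τ ^ 2 / r ^ 2 = (τ / r) ^ 2 := by rw [div_pow]
  have hq0 : 0 < τ / r := div_pos hτ hr0
  have hq1 : τ / r ≤ 1 / 2 := by
    rw [div_le_iff₀ hr0]; linarith
  have h3 : ‖kap a (pt ξ η) - 1‖ ≤ 3 * r ^ 2 + 2 * (τ / r) ^ 2 := by
    refine hmain.trans ?_
    rw [hq]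
    nlinarith
  have h4 : ‖kap a (pt ξ η) - 1‖ ^ 2 ≤ (3 * r ^ 2 + 2 * (τ / r) ^ 2) ^ 2 :=
    pow_le_pow_left₀ (norm_nonneg _) h3 2
  have h5 : (3 * r ^ 2 + 2 * (τ / r) ^ 2) ^ 2 ≤ 144 * r + 16 * (τ / r) := by
    have h6 : 3 * r ^ 2 + 2 * (τ / r) ^ 2 ≤ 3 * r + 2 * (τ / r) := by nlinarith
    have h7 : 3 * r + 2 * (τ / r) ≤ 3 := by linarith
    have h8 : 0 ≤ 3 * r ^ 2 + 2 * (τ / r) ^ 2 := by positivity
    nlinarith
  have h9 : τ / r = τ * Real.exp (-ξ) := by
    rw [Real.exp_neg, hr]; rfl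
  rw [← h9]
  exact h4.trans h5

/-- E1d -/
theorem E1d : ∃ C : ℝ, ∀ a : ℝ, 0 < a → a < 1 → ∀ x₁ x₂ : ℝ, Real.log (tau a) + 1 ≤ x₁ →
    x₁ ≤ x₂ → x₂ ≤ -1 → II x₁ x₂ (fun ξ η => ‖kap a (pt ξ η) - 1‖ ^ 2) ≤ C := by
  refine ⟨160 * π, fun a h0 h1 x₁ x₂ hx1 h12 hx2 => ?_⟩
  have hτ : 0 < tau a := tau_pos h0 h1
  set τ : ℝ := tau a with hτdef
  have hin : ∀ ξ ∈ Ioc x₁ x₂, ‖∫ η in (0:ℝ)..π, ‖kap a (pt ξ η) - 1‖ ^ 2‖ ≤
      (144 * Real.exp ξ + 16 * (τ * Real.exp (-ξ))) * π := by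
    intro ξ hξ
    have hb : ∀ η ∈ Set.uIoc (0:ℝ) π, ‖(‖kap a (pt ξ η) - 1‖ ^ 2 : ℝ)‖ ≤
        144 * Real.exp ξ + 16 * (τ * Real.exp (-ξ)) := by
      intro η _
      rw [Real.norm_of_nonneg (by positivity)]
      exact kap_bound h0 h1 (hx1.trans hξ.1.le) (hξ.2.trans hx2)
    have := intervalIntegral.norm_integral_le_of_norm_le_const hb
    rwa [sub_zero, abs_of_pos Real.pi_pos] at this
  have hint : IntervalIntegrable
      (fun ξ => (144 * Real.exp ξ + 16 * (τ * Real.exp (-ξ))) * π) volume x₁ x₂ := by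
    apply Continuous.intervalIntegrable
    fun_prop
  have h2 := intervalIntegral.norm_integral_le_of_norm_le h12
    (Filter.Eventually.of_forall fun ξ hξ => hin ξ hξ) hint
  have h3 : II x₁ x₂ (fun ξ η => ‖kap a (pt ξ η) - 1‖ ^ 2) ≤
      ∫ ξ in x₁..x₂, (144 * Real.exp ξ + 16 * (τ * Real.exp (-ξ))) * π :=
    (le_abs_self _).trans h2
  refine h3.trans ?_
  have h4 : ∫ ξ in x₁..x₂, (144 * Real.exp ξ + 16 * (τ * Real.exp (-ξ))) * π =
      ((144 * Real.exp x₂ - 16 * (τ * Real.exp (-x₂))) * π) -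
      ((144 * Real.exp x₁ - 16 * (τ * Real.exp (-x₁))) * π) := by
    apply intervalIntegral.integral_eq_sub_of_hasDerivAt (f := fun ξ =>
      (144 * Real.exp ξ - 16 * (τ * Real.exp (-ξ))) * π)
    · intro ξ _
      have e1 : HasDerivAt (fun ξ : ℝ => Real.exp ξ) (Real.exp ξ) ξ := Real.hasDerivAt_exp ξ
      have e2 : HasDerivAt (fun ξ : ℝ => Real.exp (-ξ)) (Real.exp (-ξ) * (-1)) ξ :=
        (hasDerivAt_neg ξ).exp
      have e3 := ((e1.const_mul 144).sub ((e2.const_mul τ).const_mul 16)).mul_const π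
      exact e3.congr_deriv (by ring)
    · exact hint
  rw [h4]
  have h5 : Real.exp x₂ ≤ 1 := Real.exp_le_one_iff.2 (by linarith)
  have h6 : τ * Real.exp (-x₁) ≤ 1 := by
    have : Real.exp (-x₁) ≤ Real.exp (-(Real.log τ)) := Real.exp_le_exp.2 (by linarith)
    rw [Real.exp_neg (Real.log τ), Real.exp_log hτ] at this
    calc τ * Real.exp (-x₁) ≤ τ * τ⁻¹ := mul_le_mul_of_nonneg_left this hτ.le
      _ = 1 := mul_inv_cancel₀ hτ.ne'
  have h7 : 0 < Real.exp x₁ := Real.exp_pos _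
  have h8 : 0 < τ * Real.exp (-x₂) := mul_pos hτ (Real.exp_pos _)
  have hπ := Real.pi_pos
  nlinarith

end Pool.Agent.Helper46.EK

end

section


/-!
EK3 (a), part 1: the Bloch bound from the energy, and the function `log ((f - f a)/..)` in the strip.
-/

set_option autoImplicit false

open Complex MeasureTheory Metric Set Filter Topology
open scoped Real ENNReal ComplexConjugate NNReal

namespace Pool.Agent.Helper79.EK3

open Pool.Agent.Helper39.Area Pool.Agent.Helper39.EK Pool.Agent.Helper52.EK Pool.Agent.Helper86.EK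

/-- polar coordinates for a continuous function on a disc around the origin -/
theorem polar_ball {f : ℂ → ℝ} {R ρ : ℝ} (hρR : ρ < R) (hfc : ContinuousOn f (ball 0 R)) :
    ∫ z in ball (0:ℂ) ρ, f z =
      ∫ s in Ioo 0 ρ, ∫ θ in Ioo (-π) π, s * f ((s:ℂ) * Complex.exp (θ * I)) := by
  rw [← integral_indicator measurableSet_ball, ← Complex.integral_comp_polarCoord_symm]
  have h2 : ∫ p in polarCoord.target, p.1 • (ball (0:ℂ) ρ).indicator f
      (Complex.polarCoord.symm p) = ∫ p in Ioo 0 ρ ×ˢ Ioo (-π) π,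
        p.1 * f ((p.1:ℂ) * Complex.exp (p.2 * I)) := by
    have h3 : ∀ p ∈ polarCoord.target, p.1 • (ball (0:ℂ) ρ).indicator f
        (Complex.polarCoord.symm p) = (Ioo 0 ρ ×ˢ Ioo (-π) π).indicator
          (fun p => p.1 * f ((p.1:ℂ) * Complex.exp (p.2 * I))) p := by
      rintro ⟨r, θ⟩ ⟨hr, hθ⟩
      simp only [mem_Ioi] at hr hθ
      have h4 : Complex.polarCoord.symm (r, θ) = (r:ℂ) * Complex.exp (θ * I) := by
        rw [Complex.polarCoord_symm_apply, Complex.exp_mul_I, Complex.ofReal_cos,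
          Complex.ofReal_sin]
      have h5 : ‖Complex.polarCoord.symm (r, θ)‖ = r := by
        rw [h4, norm_mul, Complex.norm_exp_ofReal_mul_I, mul_one, Complex.norm_real,
          Real.norm_of_nonneg hr.le]
      by_cases hrρ : r < ρ
      · rw [indicator_of_mem (by rw [mem_ball, dist_zero_right, h5]; exact hrρ),
          indicator_of_mem (show (r, θ) ∈ Ioo 0 ρ ×ˢ Ioo (-π) π from ⟨⟨hr, hrρ⟩, hθ⟩), h4,
          smul_eq_mul]
      · rw [indicator_of_notMem (by rw [mem_ball, dist_zero_right, h5]; exact hrρ),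
          indicator_of_notMem (fun h : (r, θ) ∈ Ioo 0 ρ ×ˢ Ioo (-π) π => hrρ h.1.2), smul_zero]
    rw [setIntegral_congr_fun polarCoord.open_target.measurableSet h3,
      setIntegral_indicator (measurableSet_Ioo.prod measurableSet_Ioo)]
    congr 2
    apply inter_eq_right.2
    rintro ⟨r, θ⟩ ⟨hr, hθ⟩
    exact ⟨hr.1, hθ⟩
  rw [h2, Measure.volume_eq_prod, setIntegral_prod]
  have h6 : ContinuousOn (fun p : ℝ × ℝ => p.1 * f ((p.1:ℂ) * Complex.exp (p.2 * I)))
      (Icc 0 ρ ×ˢ Icc (-π) π) := by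
    apply continuous_fst.continuousOn.mul
    apply hfc.comp (by fun_prop)
    rintro ⟨r, θ⟩ ⟨hr, hθ⟩
    simp only [mem_ball, dist_zero_right, norm_mul, Complex.norm_exp_ofReal_mul_I, mul_one,
      Complex.norm_real]
    rw [Real.norm_of_nonneg hr.1]
    exact hr.2.trans_lt hρR
  have h7 := h6.integrableOn_compact (μ := (volume : Measure (ℝ × ℝ)))
    (isCompact_Icc.prod isCompact_Icc)
  rw [Measure.volume_eq_prod] at h7
  exact h7.mono_set (prod_mono Ioo_subset_Icc_self Ioo_subset_Icc_self)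

/-- area mean value inequality at the origin -/
theorem mean_zero {E : ℂ → ℂ} {R r : ℝ} (hE : DifferentiableOn ℂ E (ball 0 R)) (hr : 0 < r)
    (hrR : r < R) : π * r ^ 2 * ‖deriv E 0‖ ^ 2 ≤ ∫ z in ball (0:ℂ) r, ‖deriv E z‖ ^ 2 := by
  have hd : DifferentiableOn ℂ (deriv E) (ball 0 R) := hE.deriv isOpen_ball
  have hfc : ContinuousOn (fun z => ‖deriv E z‖ ^ 2) (ball 0 R) := (hd.continuousOn.norm).pow 2
  have hπ := Real.pi_pos
  rw [polar_ball hrR hfc]
  have h1 : ∀ s ∈ Ioo 0 r, 2 * π * s * ‖deriv E 0‖ ^ 2 ≤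
      ∫ θ in Ioo (-π) π, s * ‖deriv E ((s:ℂ) * Complex.exp (θ * I))‖ ^ 2 := by
    intro s hs
    have h2 := parseval_deriv hE hs.1.le (hs.2.trans hrR)
    have h3 : ‖deriv E 0‖ ^ 2 ≤ (1 / (2 * π)) * ∫ θ in (-π)..π,
        ‖deriv E ((s:ℂ) * Complex.exp (θ * I))‖ ^ 2 := by
      have h4 := h2.summable.sum_le_tsum (Finset.range 1) (fun n _ => by
        have := hs.1
        positivity)
      rw [h2.tsum_eq, Finset.sum_range_one] at h4
      have h5 : ‖((0:ℕ):ℂ) + 1‖ = 1 := by simp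
      simpa using h4
    have h6 : (∫ θ in Ioo (-π) π, s * ‖deriv E ((s:ℂ) * Complex.exp (θ * I))‖ ^ 2) =
        s * ∫ θ in (-π)..π, ‖deriv E ((s:ℂ) * Complex.exp (θ * I))‖ ^ 2 := by
      rw [integral_const_mul, intervalIntegral.integral_of_le (by linarith),
        integral_Ioc_eq_integral_Ioo]
    rw [h6]
    have h7 : (∫ θ in (-π)..π, ‖deriv E ((s:ℂ) * Complex.exp (θ * I))‖ ^ 2) =
        2 * π * ((1 / (2 * π)) * ∫ θ in (-π)..π,
        ‖deriv E ((s:ℂ) * Complex.exp (θ * I))‖ ^ 2) := by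
      rw [← mul_assoc, mul_one_div_cancel (by positivity), one_mul]
    rw [h7]
    have h8 : 0 ≤ s * (2 * π) := by have := hs.1; positivity
    nlinarith [mul_le_mul_of_nonneg_left h3 h8]
  have h9 : ∫ s in Ioo 0 r, 2 * π * s * ‖deriv E 0‖ ^ 2 = π * r ^ 2 * ‖deriv E 0‖ ^ 2 := by
    rw [← integral_Ioc_eq_integral_Ioo, ← intervalIntegral.integral_of_le hr.le,
      intervalIntegral.integral_mul_const, intervalIntegral.integral_const_mul, integral_id]
    ring
  rw [← h9]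
  apply setIntegral_mono_on _ _ measurableSet_Ioo h1
  · exact (by fun_prop : Continuous fun s : ℝ => 2 * π * s * ‖deriv E 0‖ ^ 2).continuousOn.integrableOn_compact isCompact_Icc |>.mono_set Ioo_subset_Icc_self
  · have hc2 : ContinuousOn (fun p : ℝ × ℝ => p.1 * ‖deriv E ((p.1:ℂ) * Complex.exp (p.2 * I))‖ ^ 2)
        (Icc 0 r ×ˢ Icc (-π) π) := by
      apply continuous_fst.continuousOn.mul
      apply hfc.comp (by fun_prop)
      rintro ⟨s, θ⟩ ⟨hs, hθ⟩
      simp only [mem_ball, dist_zero_right, norm_mul, Complex.norm_exp_ofReal_mul_I, mul_one,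
        Complex.norm_real]
      rw [Real.norm_of_nonneg hs.1]
      exact hs.2.trans_lt hrR
    have h7 := hc2.integrableOn_compact (μ := (volume : Measure (ℝ × ℝ)))
      (isCompact_Icc.prod isCompact_Icc)
    have h10 : IntegrableOn (fun p : ℝ × ℝ => p.1 * ‖deriv E ((p.1:ℂ) * Complex.exp (p.2 * I))‖ ^ 2)
        (Ioo 0 r ×ˢ Ioo (-π) π) ((volume : Measure ℝ).prod volume) := by
      rw [Measure.volume_eq_prod] at h7
      exact h7.mono_set (prod_mono Ioo_subset_Icc_self Ioo_subset_Icc_self)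
    rw [IntegrableOn, ← Measure.prod_restrict] at h10
    exact h10.integral_prod_left

/-- Bloch bound: the derivative of a function of finite energy -/
theorem bloch {E : ℂ → ℂ} {J : ℝ} (hE : DifferentiableOn ℂ E (ball 0 1))
    (hJ : ∀ ρ : ℝ, 0 < ρ → ρ < 1 → ∫ z in ball (0:ℂ) ρ, ‖deriv E z‖ ^ 2 ≤ 2 * π * J)
    {z : ℂ} (hz : ‖z‖ < 1) : ‖deriv E z‖ * (1 - ‖z‖) ≤ Real.sqrt (2 * J) := by
  have hd : DifferentiableOn ℂ (deriv E) (ball 0 1) := hE.deriv isOpen_ball
  have hπ := Real.pi_pos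
  have key : ∀ r : ℝ, 0 < r → r < 1 - ‖z‖ → r ^ 2 * ‖deriv E z‖ ^ 2 ≤ 2 * J := by
    intro r hr hr1
    set E₁ : ℂ → ℂ := fun w => E (z + w) with hE₁
    have hsub : ∀ w ∈ ball (0:ℂ) (1 - ‖z‖), z + w ∈ ball (0:ℂ) 1 := by
      intro w hw
      rw [mem_ball, dist_zero_right] at hw ⊢
      have := norm_add_le z w
      linarith
    have hd1 : ∀ w ∈ ball (0:ℂ) (1 - ‖z‖), HasDerivAt E₁ (deriv E (z + w)) w := by
      intro w hw
      have h1 := (hE.differentiableAt (isOpen_ball.mem_nhds (hsub w hw))).hasDerivAt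
      have h2 : HasDerivAt (fun w : ℂ => z + w) 1 w := (hasDerivAt_id w).const_add z
      have h3 := HasDerivAt.comp w h1 h2
      rw [mul_one] at h3
      exact h3
    have hE1 : DifferentiableOn ℂ E₁ (ball 0 (1 - ‖z‖)) := fun w hw =>
      (hd1 w hw).differentiableAt.differentiableWithinAt
    have h3 := mean_zero hE1 hr hr1
    have h0 : (0:ℂ) ∈ ball (0:ℂ) (1 - ‖z‖) := mem_ball_self (by linarith)
    rw [(hd1 0 h0).deriv, add_zero] at h3
    have h4 : ∫ w in ball (0:ℂ) r, ‖deriv E₁ w‖ ^ 2 = ∫ w in ball (0:ℂ) r, ‖deriv E (z + w)‖ ^ 2 := by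
      apply setIntegral_congr_fun measurableSet_ball
      intro w hw
      simp only
      rw [(hd1 w (ball_subset_ball hr1.le hw)).deriv]
    have h5 : ∫ w in ball (0:ℂ) r, ‖deriv E (z + w)‖ ^ 2 = ∫ w in ball z r, ‖deriv E w‖ ^ 2 := by
      rw [← integral_indicator measurableSet_ball, ← integral_indicator measurableSet_ball,
        ← integral_add_left_eq_self (μ := (volume : Measure ℂ))
          ((ball z r).indicator fun w => ‖deriv E w‖ ^ 2) z]
      congr 1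
      funext w
      by_cases hw : w ∈ ball (0:ℂ) r
      · rw [indicator_of_mem hw, indicator_of_mem]
        rw [mem_ball, dist_eq_norm, add_sub_cancel_left]
        rwa [mem_ball, dist_zero_right] at hw
      · rw [indicator_of_notMem hw, indicator_of_notMem]
        rw [mem_ball, dist_eq_norm, add_sub_cancel_left]
        rwa [mem_ball, dist_zero_right] at hw
    have hρ : ‖z‖ + r < 1 := by linarith
    have hρ0 : 0 < ‖z‖ + r := by have := norm_nonneg z; linarith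
    have h6 : ∫ w in ball z r, ‖deriv E w‖ ^ 2 ≤ ∫ w in ball (0:ℂ) (‖z‖ + r), ‖deriv E w‖ ^ 2 := by
      apply setIntegral_mono_set
      · have hc : ContinuousOn (fun w => ‖deriv E w‖ ^ 2) (closedBall 0 (‖z‖ + r)) :=
          (hd.continuousOn.norm.pow 2).mono (closedBall_subset_ball hρ)
        exact (hc.integrableOn_compact (isCompact_closedBall _ _)).mono_set ball_subset_closedBall
      · exact Eventually.of_forall fun w => by positivity
      · apply LE.le.eventuallyLE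
        intro w hw
        rw [mem_ball, dist_zero_right]
        rw [mem_ball, dist_eq_norm] at hw
        have := norm_add_le z (w - z)
        rw [add_sub_cancel] at this
        linarith
    have h7 := hJ _ hρ0 hρ
    rw [h4, h5] at h3
    have h8 : π * (r ^ 2 * ‖deriv E z‖ ^ 2) ≤ π * (2 * J) := by nlinarith
    exact le_of_mul_le_mul_left h8 hπ
  have hlim : (1 - ‖z‖) ^ 2 * ‖deriv E z‖ ^ 2 ≤ 2 * J := by
    have h1 : Tendsto (fun r : ℝ => r ^ 2 * ‖deriv E z‖ ^ 2) (𝓝[<] (1 - ‖z‖))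
        (𝓝 ((1 - ‖z‖) ^ 2 * ‖deriv E z‖ ^ 2)) := by
      have : Continuous fun r : ℝ => r ^ 2 * ‖deriv E z‖ ^ 2 := by fun_prop
      exact (this.tendsto _).mono_left nhdsWithin_le_nhds
    apply le_of_tendsto h1
    have h2 : Ioo 0 (1 - ‖z‖) ∈ 𝓝[<] (1 - ‖z‖) := Ioo_mem_nhdsLT (by linarith)
    filter_upwards [h2] with r hr
    exact key r hr.1 hr.2
  apply Real.le_sqrt_of_sq_le
  nlinarith

end Pool.Agent.Helper79.EK3

end

section


/-!
EK3 (a), part 2: the function `Φ = log ((f - f a)/((1/z - 1/a)(1 - a z)))` in the strip: values at the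
two ends of the centre line and the size of its derivative.
-/

set_option autoImplicit false

open Complex MeasureTheory Metric Set Filter Topology
open scoped Real ENNReal ComplexConjugate NNReal

namespace Pool.Agent.Helper79.EK3

open Pool.Agent.Helper39.Area Pool.Agent.Helper39.EK Pool.Agent.Helper52.EK Pool.Agent.Helper86.EK

/-- the right side of the energy inequality, divided by `2 π` -/
noncomputable def JJ (β : ℂ → ℂ) (a : ℝ) : ℝ := Real.log (‖N β a‖ / (1 - a ^ 2))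

theorem JJ_nonneg {β : ℂ → ℂ} (h : Ext β) {a : ℝ} (ha : 0 < a) (ha1 : a < 1) : 0 ≤ JJ β a := by
  have h1 : (0:ℝ) < 1 - a ^ 2 := by nlinarith
  apply Real.log_nonneg
  rw [le_div_iff₀ h1, one_mul]
  have h2 := N_ge h (z := (a:ℂ)) (by rw [Complex.norm_real, Real.norm_of_nonneg ha.le]; exact ha1)
  rwa [Complex.norm_real, Real.norm_of_nonneg ha.le] at h2

theorem exp_im_pos {ω : ℂ} (h0 : 0 < ω.im) (h1 : ω.im < π) : 0 < (Complex.exp ω).im := by
  rw [Complex.exp_im]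
  exact mul_pos (Real.exp_pos _) (Real.sin_pos_of_pos_of_lt_pi h0 h1)

theorem exp_ne_neg_I' {ω : ℂ} (h0 : 0 < ω.im) (h1 : ω.im < π) : I + Complex.exp ω ≠ 0 := by
  intro h
  have h3 := exp_im_pos h0 h1
  have h4 := congrArg Complex.im h
  simp only [Complex.add_im, Complex.I_im, Complex.zero_im] at h4
  linarith

/-- hyperbolic metrics: `|zd| = (1 - |z|²) / (2 sin η)` -/
theorem norm_zd {ω : ℂ} (h0 : 0 < ω.im) (h1 : ω.im < π) :
    ‖zd ω‖ * (2 * Real.sin ω.im) = 1 - ‖zf ω‖ ^ 2 := by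
  have hne := exp_ne_neg_I' h0 h1
  have hn : 0 < ‖I + Complex.exp ω‖ := norm_pos_iff.mpr hne
  have hZ : ‖Complex.exp ω‖ = Real.exp ω.re := Complex.norm_exp ω
  have h2 : ‖zd ω‖ = 2 * Real.exp ω.re / ‖I + Complex.exp ω‖ ^ 2 := by
    rw [zd, norm_div, norm_pow, norm_mul, norm_mul, hZ, add_comm (Complex.exp ω) I]
    simp
  have h3 : ‖I + Complex.exp ω‖ ^ 2 - ‖I - Complex.exp ω‖ ^ 2 = 4 * (Complex.exp ω).im := by
    rw [← Complex.normSq_eq_norm_sq, ← Complex.normSq_eq_norm_sq, Complex.normSq_apply,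
      Complex.normSq_apply]
    simp only [Complex.sub_re, Complex.add_re, Complex.sub_im, Complex.add_im, Complex.I_re,
      Complex.I_im]
    ring
  rw [h2, zf, norm_div, div_pow]
  rw [Complex.exp_im] at h3
  have h4 : (1:ℝ) - ‖I - Complex.exp ω‖ ^ 2 / ‖I + Complex.exp ω‖ ^ 2 =
      (‖I + Complex.exp ω‖ ^ 2 - ‖I - Complex.exp ω‖ ^ 2) / ‖I + Complex.exp ω‖ ^ 2 := by
    field_simp
  rw [h4, h3]
  ring

theorem exists_Phi {β : ℂ → ℂ} (h : Ext β) {a : ℝ} (ha : 0 < a) (ha1 : a < 1) :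
    ∃ Φ Φ' : ℂ → ℂ, (∀ ω : ℂ, 0 < ω.im → ω.im < π → HasDerivAt Φ (Φ' ω) ω) ∧
      (∀ ω : ℂ, 0 < ω.im → ω.im < π → ‖Φ' ω‖ * Real.sin ω.im ≤ Real.sqrt (2 * JJ β a)) ∧
      (∀ ω : ℂ, 0 < ω.im → ω.im < π → Real.log (tau a) < ω.re → ω.re < 0 →
        Φ' ω = 2 * Xf β a ω - 2 * kap a ω) ∧
      (Φ (pt (Real.log (tau a)) (π / 2))).re = JJ β a ∧ Φ (pt 0 (π / 2)) = 0 := by
  have haC : ((a:ℝ):ℂ) ∈ ball (0:ℂ) 1 := by
    rw [mem_ball, dist_zero_right, Complex.norm_real, Real.norm_of_nonneg ha.le]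
    exact ha1
  have ha0 : ((a:ℝ):ℂ) ≠ 0 := by exact_mod_cast ha.ne'
  obtain ⟨F, hF0, hF, hexp⟩ := exists_log h haC
  have hre : ∀ z ∈ ball (0:ℂ) 1, 0 < (1 - (a:ℂ) * z).re := by
    intro z hz
    rw [mem_ball, dist_zero_right] at hz
    have h1 : ((a:ℂ) * z).re ≤ ‖(a:ℂ) * z‖ := Complex.re_le_norm _
    rw [norm_mul, Complex.norm_real, Real.norm_of_nonneg ha.le] at h1
    rw [Complex.sub_re, Complex.one_re]
    nlinarith [norm_nonneg z]
  have hsl : ∀ z ∈ ball (0:ℂ) 1, (1 - (a:ℂ) * z) ∈ slitPlane := fun z hz => Or.inl (hre z hz)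
  set D : ℂ → ℂ := fun z => F z - Complex.log (1 - (a:ℂ) * z) with hD
  set D' : ℂ → ℂ := fun z => deriv F z + (a:ℂ) / (1 - (a:ℂ) * z) with hD'
  have hder : ∀ z ∈ ball (0:ℂ) 1, HasDerivAt D (D' z) z := by
    intro z hz
    have h1 : HasDerivAt (fun z : ℂ => 1 - (a:ℂ) * z) (-(a:ℂ)) z := by
      have := ((hasDerivAt_id z).const_mul (a:ℂ)).const_sub 1
      simpa using this
    have h2 := h1.clog (hsl z hz)
    have h3 := (hF z hz).sub h2
    have h4 : D' z = deriv (qq β a) z / qq β a z - -(a:ℂ) / (1 - (a:ℂ) * z) := by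
      simp only [hD']
      rw [(hF z hz).deriv]
      ring
    rw [h4]
    exact h3
  have hDd : DifferentiableOn ℂ D (ball 0 1) := fun z hz =>
    (hder z hz).differentiableAt.differentiableWithinAt
  have hJ : - Real.log (1 - ‖((a:ℝ):ℂ)‖ ^ 2) + (F a).re = JJ β a := by
    have h5 : ‖N β (a:ℂ)‖ = Real.exp (F a).re := by
      rw [← qq_self, ← hexp _ haC, Complex.norm_exp]
    have h6 : (0:ℝ) < 1 - a ^ 2 := by nlinarith
    rw [JJ, h5, Real.log_div (Real.exp_pos _).ne' h6.ne', Real.log_exp, Complex.norm_real,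
      Real.norm_of_nonneg ha.le]
    ring
  have hen : ∀ ρ : ℝ, 0 < ρ → ρ < 1 → ∫ z in ball (0:ℂ) ρ, ‖deriv D z‖ ^ 2 ≤ 2 * π * JJ β a := by
    intro ρ h0 h1
    have h2 := energy h h0 h1 haC ha0 hF hF0 hexp
    rw [hJ] at h2
    refine le_trans (le_of_eq ?_) h2
    apply setIntegral_congr_fun measurableSet_ball
    intro z hz
    simp only
    rw [(hder z (ball_subset_ball h1.le hz)).deriv, hD', Complex.conj_ofReal]
  have hz1 : ∀ ω : ℂ, 0 < ω.im → ω.im < π → zf ω ∈ ball (0:ℂ) 1 := by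
    intro ω h0 h1
    rw [mem_ball, dist_zero_right]
    exact norm_zf_lt (exp_im_pos h0 h1)
  refine ⟨fun ω => D (zf ω), fun ω => D' (zf ω) * zd ω, ?_, ?_, ?_, ?_, ?_⟩
  · intro ω h0 h1
    exact (hder _ (hz1 ω h0 h1)).comp ω (hasDerivAt_zf (exp_ne_neg_I' h0 h1))
  · intro ω h0 h1
    have h2 := hz1 ω h0 h1
    have h3 : ‖zf ω‖ < 1 := by simpa using h2
    have h4 := bloch hDd hen h3
    rw [(hder _ h2).deriv] at h4
    have h5 := norm_zd h0 h1
    have hs : 0 < Real.sin ω.im := Real.sin_pos_of_pos_of_lt_pi h0 h1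
    simp only
    rw [norm_mul]
    have h6 : ‖zd ω‖ * Real.sin ω.im = (1 - ‖zf ω‖) * (1 + ‖zf ω‖) / 2 := by
      linear_combination (1 / 2) * h5
    calc ‖D' (zf ω)‖ * ‖zd ω‖ * Real.sin ω.im = ‖D' (zf ω)‖ * (‖zd ω‖ * Real.sin ω.im) := by ring
      _ = (‖D' (zf ω)‖ * (1 - ‖zf ω‖)) * ((1 + ‖zf ω‖) / 2) := by rw [h6]; ring
      _ ≤ (‖D' (zf ω)‖ * (1 - ‖zf ω‖)) * 1 := by
          apply mul_le_mul_of_nonneg_left (by linarith)
          exact mul_nonneg (norm_nonneg _) (by linarith)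
      _ ≤ _ := by rw [mul_one]; exact h4
  · intro ω h0 h1 h2 h3
    have hR : ω ∈ Rect ω.re ω.re := ⟨⟨le_refl _, le_refl _⟩, ⟨h0.le, h1.le⟩⟩
    have hzb := hz1 ω h0 h1
    have hz0 : zf ω ≠ 0 := zf_ne_zero h3 hR
    have hza : zf ω ≠ a := zf_ne_a ha ha1 h2 hR
    rw [← zd_Dd ha ha1 h2 h3 hR, Dd, dphi_div h haC hzb ha0 hz0 hza, hD']
    simp only
    rw [(hF _ hzb).deriv]
    ring
  · have h1 : zf (pt (Real.log (tau a)) (π / 2)) = a := by
      have h2 : Complex.exp (pt (Real.log (tau a)) (π / 2)) = (tau a : ℂ) * I := by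
        rw [pt, Complex.exp_add, ← Complex.ofReal_exp, Real.exp_log (tau_pos ha ha1)]
        congr 1
        push_cast
        exact Complex.exp_pi_div_two_mul_I
      rw [zf, h2, tau]
      have h3 : (1 + (a:ℂ)) ≠ 0 := by
        have : ((1 + a : ℝ) : ℂ) ≠ 0 := by exact_mod_cast (by positivity)
        simpa using this
      have h4 : (I:ℂ) ≠ 0 := I_ne_zero
      push_cast
      have h5 : I + (1 - (a:ℂ)) / (1 + a) * I = 2 / (1 + a) * I := by field_simp; ring
      have h6 : I - (1 - (a:ℂ)) / (1 + a) * I = 2 * a / (1 + a) * I := by field_simp; ring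
      rw [h5, h6]
      field_simp
    simp only [h1]
    rw [← hJ, hD]
    simp only
    have h7 : (1 - (a:ℂ) * a) = ((1 - a ^ 2 : ℝ) : ℂ) := by push_cast; ring
    rw [h7, ← Complex.ofReal_log (by nlinarith), Complex.sub_re, Complex.ofReal_re,
      Complex.norm_real, Real.norm_of_nonneg ha.le]
    ring
  · have h1 : zf (pt 0 (π / 2)) = 0 := by
      have h2 : Complex.exp (pt 0 (π / 2)) = I := by
        rw [pt]
        push_cast
        rw [zero_add]
        exact Complex.exp_pi_div_two_mul_I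
      rw [zf, h2, sub_self, zero_div]
    simp only [h1]
    rw [hD]
    simp [hF0]

end Pool.Agent.Helper79.EK3

end

section


/-!
Weighted sums of squares with packed integer coefficients, and the check of the identity.
-/

set_option autoImplicit false

namespace Pool.Sos71

/-- a factor `c m1 + d m2`, or `c m1 - d m2` if `s`; `b1`, `b2` are the shifts of `m1`, `m2` -/
structure Fac where
  c : ℕ
  m1 : Mon
  b1 : ℕ
  s : Bool
  d : ℕ
  m2 : Mon
  b2 : ℕ

/-- multiplication by the value of the factor -/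
def Fac.ap (f : Fac) (x : ℕ) : ℕ := match f.s with
  | false => Nat.add (Nat.shiftLeft (Nat.mul f.c x) f.b1) (Nat.shiftLeft (Nat.mul f.d x) f.b2)
  | true => Nat.sub (Nat.shiftLeft (Nat.mul f.c x) f.b1) (Nat.shiftLeft (Nat.mul f.d x) f.b2)

def Fac.V (f : Fac) : ℕ := f.ap 1

noncomputable def Fac.re (f : Fac) (x : Pnt) : ℝ := match f.s with
  | false => f.c * f.m1.val x + f.d * f.m2.val x
  | true => f.c * f.m1.val x - f.d * f.m2.val x

lemma Fac.ap_eq (f : Fac) (x : ℕ) : f.ap x = x * f.V := by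
  unfold Fac.V Fac.ap
  cases f.s
  · show (f.c * x) <<< f.b1 + (f.d * x) <<< f.b2 = x * ((f.c * 1) <<< f.b1 + (f.d * 1) <<< f.b2)
    simp only [Nat.shiftLeft_eq]; ring
  · show (f.c * x) <<< f.b1 - (f.d * x) <<< f.b2 = x * ((f.c * 1) <<< f.b1 - (f.d * 1) <<< f.b2)
    simp only [Nat.shiftLeft_eq]
    rw [Nat.mul_sub]
    congr 1 <;> ring

/-- an element of the basis: the monomial `m` times the factor `f`; `a` is the shift of `m`;
`e` marks the end of a group of elements with the same factor -/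
structure Itm where
  m : Mon
  a : ℕ
  f : Fac
  e : Bool

/-- multiplication by the value of the element -/
def Itm.ap (i : Itm) (x : ℕ) : ℕ := i.f.ap (Nat.shiftLeft x i.a)

def Itm.v (i : Itm) : ℕ := i.ap 1

noncomputable def Itm.re (i : Itm) (x : Pnt) : ℝ := i.m.val x * i.f.re x

lemma Itm.v_eq (i : Itm) : i.v = 2 ^ i.a * i.f.V := by
  unfold Itm.v Itm.ap
  rw [Fac.ap_eq]
  show 1 <<< i.a * _ = _
  rw [Nat.shiftLeft_eq, one_mul]

lemma Itm.ap_eq (i : Itm) (x : ℕ) : i.ap x = x * i.v := by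
  rw [Itm.v_eq]
  unfold Itm.ap
  rw [Fac.ap_eq]
  show x <<< i.a * _ = _
  rw [Nat.shiftLeft_eq]; ring

/-- `sum of d_j z_j`, `d_j` the digits of `p` in base `B` -/
def lin (B : ℕ) : List Itm → ℕ → ℕ → ℕ
  | [], _, acc => acc
  | i :: it, p, acc => match i.e with
    | false => lin B it (Nat.div p B) (Nat.add acc (Nat.shiftLeft (Nat.mod p B) i.a))
    | true => Nat.add (i.f.ap (Nat.add acc (Nat.shiftLeft (Nat.mod p B) i.a)))
        (lin B it (Nat.div p B) 0)

/-- the value of the factor of the current group -/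
def eb : List Itm → ℕ
  | [] => 1
  | i :: it => match i.e with
    | false => eb it
    | true => i.f.V

/-- `(A - T)²` -/
def sqd (A T : ℕ) : ℕ := Nat.mul (Nat.add (Nat.sub A T) (Nat.sub T A)) (Nat.add (Nat.sub A T) (Nat.sub T A))

/-- sum of the squares; `tot` is the sum of the elements -/
def sqs (B off : ℕ) : List Itm → List ℕ → ℕ → ℕ
  | [], _, _ => 0
  | i :: it, Ls, tot => match Ls with
    | [] => 0
    | L :: Ls' => Nat.add (sqd (lin B (i :: it) L 0) (Nat.mul off tot))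
        (sqs B off it Ls' (Nat.sub tot i.v))

/-- positive part of the mixed terms -/
def eps (B : ℕ) : List Itm → List ℕ → ℕ
  | [], _ => 0
  | i :: it, Es => match Es with
    | [] => 0
    | E :: Es' => Nat.add (i.ap (lin B (i :: it) E 0)) (eps B it Es')

/-- negative part of the mixed terms -/
def ens (off : ℕ) : List Itm → List ℕ → ℕ → ℕ
  | [], _, _ => 0
  | i :: it, Es, tot => match Es with
    | [] => 0
    | _ :: Es' => Nat.add (i.ap (Nat.mul off tot)) (ens off it Es' (Nat.sub tot i.v))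

def tot : List Itm → ℕ
  | [] => 0
  | i :: it => Nat.add i.v (tot it)

/-- sum of the squares of the basis elements -/
def z2 : List Itm → ℕ
  | [] => 0
  | i :: it => Nat.add (Nat.mul i.v i.v) (z2 it)

/-- `d * z2 it`, nothing is computed for `d = 0` -/
def dz2 (d : ℕ) (it : List Itm) : ℕ := match d with
  | 0 => 0
  | n + 1 => Nat.mul (Nat.succ n) (z2 it)

lemma dz2_eq (d : ℕ) (it : List Itm) : dz2 d it = d * z2 it := by
  cases d with
  | zero => rw [Nat.zero_mul]; rfl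
  | succ n => rfl

/-! ### real values -/

/-- `sum of (d_j - off) z_j(x)` -/
noncomputable def rl (B off : ℕ) (x : Pnt) : List Itm → ℕ → ℝ
  | [], _ => 0
  | i :: it, p => (((p % B : ℕ) : ℝ) - off) * i.re x + rl B off x it (p / B)

noncomputable def rsq (B off : ℕ) (x : Pnt) : List Itm → List ℕ → ℝ
  | [], _ => 0
  | i :: it, Ls => match Ls with
    | [] => 0
    | L :: Ls' => rl B off x (i :: it) L ^ 2 + rsq B off x it Ls'

noncomputable def rex (B off : ℕ) (x : Pnt) : List Itm → List ℕ → ℝ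
  | [], _ => 0
  | i :: it, Es => match Es with
    | [] => 0
    | E :: Es' => rl B off x (i :: it) E * i.re x + rex B off x it Es'

noncomputable def rz2 (x : Pnt) : List Itm → ℝ
  | [] => 0
  | i :: it => i.re x ^ 2 + rz2 x it

noncomputable def rab (x : Pnt) : List Itm → ℝ
  | [] => 0
  | i :: it => |i.re x| + rab x it

lemma rsq_nonneg (B off : ℕ) (x : Pnt) (it : List Itm) (Ls : List ℕ) : 0 ≤ rsq B off x it Ls := by
  induction it generalizing Ls with
  | nil => exact le_rfl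
  | cons i it ih =>
    cases Ls with
    | nil => exact le_rfl
    | cons L Ls => exact add_nonneg (sq_nonneg _) (ih Ls)

lemma rz2_nonneg (x : Pnt) (it : List Itm) : 0 ≤ rz2 x it := by
  induction it with
  | nil => exact le_rfl
  | cons i it ih => exact add_nonneg (sq_nonneg _) ih

lemma rab_nonneg (x : Pnt) (it : List Itm) : 0 ≤ rab x it := by
  induction it with
  | nil => exact le_rfl
  | cons i it ih => exact add_nonneg (abs_nonneg _) ih

lemma dig_le {B off : ℕ} (hB : B = 2 * off) (h0 : 0 < off) (p : ℕ) :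
    |((p % B : ℕ) : ℝ) - off| ≤ off := by
  have h1 : p % B < B := Nat.mod_lt _ (by omega)
  have h2 : ((p % B : ℕ) : ℝ) ≤ 2 * off := by
    have : p % B ≤ 2 * off := by omega
    exact_mod_cast this
  have h3 : (0 : ℝ) ≤ ((p % B : ℕ) : ℝ) := Nat.cast_nonneg _
  rw [abs_le]
  constructor <;> linarith

lemma rl_abs {B off : ℕ} (hB : B = 2 * off) (h0 : 0 < off) (x : Pnt) (it : List Itm) (p : ℕ) :
    |rl B off x it p| ≤ off * rab x it := by
  induction it generalizing p with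
  | nil => simp [rl, rab]
  | cons i it ih =>
    have h1 := dig_le hB h0 p
    calc |rl B off x (i :: it) p| ≤ |(((p % B : ℕ) : ℝ) - off) * i.re x|
          + |rl B off x it (p / B)| := abs_add_le _ _
      _ ≤ off * |i.re x| + off * rab x it := by
        refine add_le_add ?_ (ih _)
        rw [abs_mul]
        exact mul_le_mul_of_nonneg_right h1 (abs_nonneg _)
      _ = _ := by rw [rab]; ring

/-- `|z_0| (|z_0| + sum) ≤ ...` -/
lemma rab_le (x : Pnt) (it : List Itm) (t : ℝ) :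
    2 * (|t| * rab x it) ≤ it.length * t ^ 2 + rz2 x it := by
  induction it with
  | nil => simp [rab, rz2]
  | cons i it ih =>
    have h1 : 2 * (|t| * |i.re x|) ≤ t ^ 2 + i.re x ^ 2 := by
      have := sq_nonneg (|t| - |i.re x|)
      nlinarith [sq_abs t, sq_abs (i.re x)]
    rw [rab, rz2, List.length_cons]
    push_cast
    nlinarith

lemma rex_abs {B off : ℕ} (hB : B = 2 * off) (h0 : 0 < off) (x : Pnt) (it : List Itm)
    (Es : List ℕ) : 2 * |rex B off x it Es| ≤ (it.length + 1) * off * rz2 x it := by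
  induction it generalizing Es with
  | nil => simp [rex, rz2]
  | cons i it ih =>
    have hz := rz2_nonneg x it
    have hoff : (0 : ℝ) ≤ off := Nat.cast_nonneg _
    cases Es with
    | nil =>
      rw [rex]
      simp only [abs_zero, mul_zero]
      have := rz2_nonneg x (i :: it)
      positivity
    | cons E Es =>
      have h1 := rl_abs hB h0 x (i :: it) E
      have h2 := ih Es
      have h3 := rab_le x it (i.re x)
      have h4 : |rl B off x (i :: it) E * i.re x| ≤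
          off * (|i.re x| + rab x it) * |i.re x| := by
        rw [abs_mul]
        exact mul_le_mul_of_nonneg_right h1 (abs_nonneg _)
      have h5 : |rex B off x (i :: it) (E :: Es)| ≤
          off * (|i.re x| + rab x it) * |i.re x| + |rex B off x it Es| :=
        (abs_add_le _ _).trans (add_le_add h4 le_rfl)
      have h6 : |i.re x| * |i.re x| = i.re x ^ 2 := by rw [← sq, sq_abs]
      have h7 : 2 * (off * (|i.re x| + rab x it) * |i.re x|) ≤
          off * (2 * i.re x ^ 2 + (it.length * i.re x ^ 2 + rz2 x it)) := by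
        have : 2 * (off * (|i.re x| + rab x it) * |i.re x|) =
            off * (2 * (|i.re x| * |i.re x|) + 2 * (|i.re x| * rab x it)) := by ring
        rw [this, h6]
        exact mul_le_mul_of_nonneg_left (by linarith) hoff
      rw [List.length_cons, rz2]
      push_cast
      have h8 : 0 ≤ (off : ℝ) * rz2 x it := by positivity
      nlinarith

/-! ### representation -/

section rep
variable {k : ℕ} {r : Rad} {N : Bd} {nf : ℕ}

/-- the shifts are right, the monomials are in the box, the norm is at most `nf` -/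
def Itm.Ok (k : ℕ) (r : Rad) (N : Bd) (nf : ℕ) (i : Itm) : Prop :=
  (i.m.add i.f.m1).In N ∧ (i.m.add i.f.m2).In N ∧ i.a = k * i.m.code r ∧
    i.f.b1 = k * i.f.m1.code r ∧ i.f.b2 = k * i.f.m2.code r ∧ i.f.c + i.f.d ≤ nf ∧
    (i.f.s = true → i.f.d <<< i.f.b2 ≤ i.f.c <<< i.f.b1)

def Gd (k : ℕ) (r : Rad) (N : Bd) (nf : ℕ) : List Itm → Prop
  | [] => True
  | i :: it => i.Ok k r N nf ∧ i.f.V = eb (i :: it) ∧ Gd k r N nf it

/-- `sum of d_j z_j` without accumulator -/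
def sd (B : ℕ) : List Itm → ℕ → ℕ
  | [], _ => 0
  | i :: it, p => p % B * i.v + sd B it (p / B)

lemma lin_eq {B : ℕ} (it : List Itm) (h : Gd k r N nf it) (p acc : ℕ) :
    lin B it p acc = acc * eb it + sd B it p := by
  induction it generalizing p acc with
  | nil => simp [lin, eb, sd]
  | cons i it ih =>
    obtain ⟨_, h3, h4⟩ := h
    rw [lin, sd, Itm.v_eq, h3]
    rw [eb] at h3 ⊢
    rcases ho : i.e with _ | _
    · simp only [ho] at h3 ⊢
      rw [ih h4]
      show (acc + (p % B) <<< i.a) * eb it + sd B it (p / B) = _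
      rw [Nat.shiftLeft_eq]; ring
    · simp only [ho] at h3 ⊢
      rw [ih h4, Fac.ap_eq]
      show (acc + (p % B) <<< i.a) * i.f.V + (0 * eb it + sd B it (p / B)) = _
      rw [Nat.shiftLeft_eq]; ring

lemma two_pow_code (m : Mon) : ((2 ^ k : ℕ) : ℤ) ^ m.code r = ((2 ^ (k * m.code r) : ℕ) : ℤ) := by
  push_cast; rw [pow_mul]

lemma rep_item {i : Itm} (h : i.Ok k r N nf) {x : Pnt} :
    Rep ((2 ^ k : ℕ) : ℤ) r x N nf (i.v : ℤ) (i.re x) := by
  obtain ⟨h1, h2, h3, h4, h5, h6, h7⟩ := h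
  have r1 := Rep.mon (w := ((2 ^ k : ℕ) : ℤ)) (r := r) (x := x) (i.f.c : ℤ) h1
  rw [two_pow_code, Mon.code_add, Mon.val_add] at r1
  unfold Itm.re Fac.re
  rw [Itm.v_eq]
  unfold Fac.V Fac.ap
  rcases hs : i.f.s with _ | _
  · have r2 := Rep.mon (w := ((2 ^ k : ℕ) : ℤ)) (r := r) (x := x) (i.f.d : ℤ) h2
    rw [two_pow_code, Mon.code_add, Mon.val_add] at r2
    have r3 := (r1.add r2).mono (c' := nf) (by simpa using h6)
    have e1 : (i.f.c : ℤ) * ((2 ^ (k * (i.m.code r + i.f.m1.code r)) : ℕ) : ℤ)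
        + (i.f.d : ℤ) * ((2 ^ (k * (i.m.code r + i.f.m2.code r)) : ℕ) : ℤ) =
        ((2 ^ i.a * (Nat.add (Nat.shiftLeft (Nat.mul i.f.c 1) i.f.b1)
          (Nat.shiftLeft (Nat.mul i.f.d 1) i.f.b2)) : ℕ) : ℤ) := by
      show _ = ((2 ^ i.a * ((i.f.c * 1) <<< i.f.b1 + (i.f.d * 1) <<< i.f.b2) : ℕ) : ℤ)
      rw [Nat.shiftLeft_eq, Nat.shiftLeft_eq, h3, h4, h5, Nat.mul_add k, Nat.mul_add k, pow_add,
        pow_add]
      push_cast; ring
    rw [e1] at r3
    have e2 : ((i.f.c : ℤ) : ℝ) * (i.m.val x * i.f.m1.val x)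
        + ((i.f.d : ℤ) : ℝ) * (i.m.val x * i.f.m2.val x) =
        i.m.val x * (i.f.c * i.f.m1.val x + i.f.d * i.f.m2.val x) := by
      push_cast; ring
    rw [e2] at r3
    exact r3
  · have r2 := Rep.mon (w := ((2 ^ k : ℕ) : ℤ)) (r := r) (x := x) (-(i.f.d : ℤ)) h2
    rw [two_pow_code, Mon.code_add, Mon.val_add] at r2
    have r3 := (r1.add r2).mono (c' := nf) (by simpa using h6)
    have h8 := h7 hs
    have e1 : (i.f.c : ℤ) * ((2 ^ (k * (i.m.code r + i.f.m1.code r)) : ℕ) : ℤ)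
        + -(i.f.d : ℤ) * ((2 ^ (k * (i.m.code r + i.f.m2.code r)) : ℕ) : ℤ) =
        ((2 ^ i.a * (Nat.sub (Nat.shiftLeft (Nat.mul i.f.c 1) i.f.b1)
          (Nat.shiftLeft (Nat.mul i.f.d 1) i.f.b2)) : ℕ) : ℤ) := by
      show _ = ((2 ^ i.a * ((i.f.c * 1) <<< i.f.b1 - (i.f.d * 1) <<< i.f.b2) : ℕ) : ℤ)
      rw [Nat.cast_mul, Nat.cast_sub (by rw [mul_one, mul_one]; exact h8)]
      rw [Nat.shiftLeft_eq, Nat.shiftLeft_eq, h3, h4, h5, Nat.mul_add k, Nat.mul_add k, pow_add,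
        pow_add]
      push_cast; ring
    rw [e1] at r3
    have e2 : ((i.f.c : ℤ) : ℝ) * (i.m.val x * i.f.m1.val x)
        + ((-(i.f.d : ℤ) : ℤ) : ℝ) * (i.m.val x * i.f.m2.val x) =
        i.m.val x * (i.f.c * i.f.m1.val x - i.f.d * i.f.m2.val x) := by
      push_cast; ring
    rw [e2] at r3
    exact r3

lemma rep_lin {B off : ℕ} (hB : B = 2 * off) (h0 : 0 < off) {x : Pnt} (it : List Itm)
    (h : Gd k r N nf it) (p : ℕ) :
    Rep ((2 ^ k : ℕ) : ℤ) r x N (it.length * (off * nf)) ((sd B it p : ℤ) - off * (tot it : ℤ))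
      (rl B off x it p) := by
  induction it generalizing p with
  | nil =>
    have := Rep.zero (w := ((2 ^ k : ℕ) : ℤ)) (r := r) (x := x) N 0
    simpa [sd, tot, rl] using this
  | cons i it ih =>
    have h1 := rep_item h.1 (x := x)
    have h2 := (h1.smul (((p % B : ℕ) : ℤ) - off)).add (ih h.2.2 (p / B))
    have h3 : (((p % B : ℕ) : ℤ) - off).natAbs ≤ off := by
      have : p % B < B := Nat.mod_lt _ (by omega)
      omega
    have e1 : (((p % B : ℕ) : ℤ) - off) * (i.v : ℤ)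
        + ((sd B it (p / B) : ℤ) - off * (tot it : ℤ)) =
        ((sd B (i :: it) p : ℕ) : ℤ) - off * ((tot (i :: it) : ℕ) : ℤ) := by
      have e2 : tot (i :: it) = i.v + tot it := rfl
      rw [sd, e2]
      generalize p % B = d
      push_cast; ring
    have e3 : (((((p % B : ℕ) : ℤ) - off : ℤ)) : ℝ) * i.re x + rl B off x it (p / B) =
        rl B off x (i :: it) p := by
      rw [rl]
      generalize p % B = d
      push_cast; ring
    rw [e1, e3] at h2
    refine h2.mono ?_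
    rw [List.length_cons]
    nlinarith [Nat.mul_le_mul_right nf h3]

lemma sqd_eq (A T : ℕ) : ((sqd A T : ℕ) : ℤ) = ((A : ℤ) - T) * ((A : ℤ) - T) := by
  have : sqd A T = (A - T + (T - A)) * (A - T + (T - A)) := rfl
  rw [this]
  rcases le_total A T with h | h
  · rw [Nat.sub_eq_zero_of_le h]
    push_cast [Nat.cast_sub h]; ring
  · rw [Nat.sub_eq_zero_of_le h]
    push_cast [Nat.cast_sub h]; ring

lemma tot_sub (i : Itm) (it : List Itm) : Nat.sub (tot (i :: it)) i.v = tot it := by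
  show (i.v + tot it) - i.v = _
  omega

lemma rep_sqs {B off : ℕ} (hB : B = 2 * off) (h0 : 0 < off) {x : Pnt} (it : List Itm)
    (h : Gd k r N nf it) (Ls : List ℕ) {n : ℕ} (hn : it.length ≤ n) :
    Rep ((2 ^ k : ℕ) : ℤ) r x (N.add N) (Ls.length * ((n * (off * nf)) * (n * (off * nf))))
      ((sqs B off it Ls (tot it) : ℕ) : ℤ) (rsq B off x it Ls) := by
  induction it generalizing Ls with
  | nil => exact (Rep.zero _ _)
  | cons i it ih =>
    cases Ls with
    | nil => exact (Rep.zero _ _)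
    | cons L Ls =>
      have h1 := rep_lin hB h0 (x := x) (i :: it) h L
      have h2 := (h1.mono (Nat.mul_le_mul_right (off * nf) hn))
      have h3 := (h2.mul h2).add (ih h.2.2 Ls ((Nat.le_succ _).trans hn))
      have e1 : ((sqs B off (i :: it) (L :: Ls) (tot (i :: it)) : ℕ) : ℤ) =
          ((sd B (i :: it) L : ℤ) - off * (tot (i :: it) : ℤ))
            * ((sd B (i :: it) L : ℤ) - off * (tot (i :: it) : ℤ))
          + ((sqs B off it Ls (tot it) : ℕ) : ℤ) := by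
        rw [sqs, tot_sub, lin_eq (i :: it) h, zero_mul, zero_add]
        show ((sqd (sd B (i :: it) L) (off * tot (i :: it)) + sqs B off it Ls (tot it) : ℕ) : ℤ) = _
        push_cast
        rw [sqd_eq]
        push_cast; ring
      have e2 : rl B off x (i :: it) L * rl B off x (i :: it) L + rsq B off x it Ls =
          rsq B off x (i :: it) (L :: Ls) := by
        rw [rsq]; ring
      rw [← e1, e2] at h3
      refine h3.mono (le_of_eq ?_)
      rw [List.length_cons]; ring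

lemma rep_ex {B off : ℕ} (hB : B = 2 * off) (h0 : 0 < off) {x : Pnt} (it : List Itm)
    (h : Gd k r N nf it) (Es : List ℕ) {n : ℕ} (hn : it.length ≤ n) :
    Rep ((2 ^ k : ℕ) : ℤ) r x (N.add N) (Es.length * ((n * (off * nf)) * nf))
      (((eps B it Es : ℕ) : ℤ) - ((ens off it Es (tot it) : ℕ) : ℤ)) (rex B off x it Es) := by
  induction it generalizing Es with
  | nil => exact (Rep.zero _ _)
  | cons i it ih =>
    cases Es with
    | nil => exact (Rep.zero _ _)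
    | cons E Es =>
      have h1 := rep_lin hB h0 (x := x) (i :: it) h E
      have h2 := (h1.mono (Nat.mul_le_mul_right (off * nf) hn))
      have h3 := (h2.mul (rep_item h.1 (x := x))).add (ih h.2.2 Es ((Nat.le_succ _).trans hn))
      have e1 : ((eps B (i :: it) (E :: Es) : ℕ) : ℤ)
            - ((ens off (i :: it) (E :: Es) (tot (i :: it)) : ℕ) : ℤ) =
          ((sd B (i :: it) E : ℤ) - off * (tot (i :: it) : ℤ)) * (i.v : ℤ)
          + (((eps B it Es : ℕ) : ℤ) - ((ens off it Es (tot it) : ℕ) : ℤ)) := by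
        rw [eps, ens, tot_sub, lin_eq (i :: it) h, zero_mul, zero_add, Itm.ap_eq, Itm.ap_eq]
        show ((sd B (i :: it) E * i.v + eps B it Es : ℕ) : ℤ)
          - (((off * tot (i :: it)) * i.v + ens off it Es (tot it) : ℕ) : ℤ) = _
        push_cast; ring
      have e2 : rl B off x (i :: it) E * i.re x + rex B off x it Es =
          rex B off x (i :: it) (E :: Es) := rfl
      rw [← e1, e2] at h3
      refine h3.mono (le_of_eq ?_)
      rw [List.length_cons]; ring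

lemma rep_z2 {x : Pnt} (it : List Itm) (h : Gd k r N nf it) :
    Rep ((2 ^ k : ℕ) : ℤ) r x (N.add N) (it.length * (nf * nf)) ((z2 it : ℕ) : ℤ)
      (rz2 x it) := by
  induction it with
  | nil => exact (Rep.zero _ _)
  | cons i it ih =>
    have h1 := rep_item h.1 (x := x)
    have h2 := (h1.mul h1).add (ih h.2.2)
    have e1 : ((z2 (i :: it) : ℕ) : ℤ) = (i.v : ℤ) * (i.v : ℤ) + ((z2 it : ℕ) : ℤ) := by
      rw [z2]
      show ((i.v * i.v + z2 it : ℕ) : ℤ) = _
      push_cast; ring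
    have e2 : i.re x * i.re x + rz2 x it = rz2 x (i :: it) := by rw [rz2]; ring
    rw [← e1, e2] at h2
    refine h2.mono (le_of_eq ?_)
    rw [List.length_cons]; ring

end rep

/-! ### blocks -/

structure Blk where
  mult : Ex
  N : Bd
  nf : ℕ
  its : List Itm
  B : ℕ
  off : ℕ
  L : List ℕ
  BE : ℕ
  offE : ℕ
  E : List ℕ
  dl : ℕ

def Mon.inb (m : Mon) (B : Bd) : Bool :=
  Nat.ble m.a B.a && Nat.ble m.b B.b && Nat.ble m.d B.d && Nat.ble m.e B.e &&
    Nat.ble m.f B.f && Nat.ble m.g B.g && Nat.beq (m.b + m.c + 2 * m.d + 2 * m.e) B.w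

lemma Mon.inb_sound {m : Mon} {B : Bd} (h : m.inb B = true) : m.In B := by
  simp only [Mon.inb, Bool.and_eq_true, Nat.ble_eq] at h
  obtain ⟨⟨⟨⟨⟨⟨h1, h2⟩, h3⟩, h4⟩, h5⟩, h6⟩, h7⟩ := h
  exact ⟨h1, h2, h3, h4, h5, h6, Nat.eq_of_beq_eq_true h7⟩

def eqF (f g : Fac) : Bool :=
  Nat.beq f.c g.c && Nat.beq f.b1 g.b1 && Nat.beq f.d g.d && Nat.beq f.b2 g.b2 &&
    (match f.s, g.s with
      | false, false => true
      | true, true => true
      | _, _ => false)

lemma eqF_sound {f g : Fac} (h : eqF f g = true) : f.V = g.V := by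
  simp only [eqF, Bool.and_eq_true] at h
  obtain ⟨⟨⟨⟨h1, h2⟩, h3⟩, h4⟩, h5⟩ := h
  have h1 := Nat.eq_of_beq_eq_true h1
  have h2 := Nat.eq_of_beq_eq_true h2
  have h3 := Nat.eq_of_beq_eq_true h3
  have h4 := Nat.eq_of_beq_eq_true h4
  have h6 : f.s = g.s := by
    revert h5
    cases f.s <;> cases g.s <;> simp
  unfold Fac.V Fac.ap
  rw [h1, h2, h3, h4, h6]

/-- the next element has the same factor -/
def nxt (i : Itm) : List Itm → Bool
  | [] => false
  | j :: _ => eqF i.f j.f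

def Itm.okb (k : ℕ) (r : Rad) (N : Bd) (nf : ℕ) (i : Itm) : Bool :=
  (i.m.add i.f.m1).inb N && (i.m.add i.f.m2).inb N && Nat.beq i.a (k * i.m.code r) &&
    Nat.beq i.f.b1 (k * i.f.m1.code r) && Nat.beq i.f.b2 (k * i.f.m2.code r) &&
    Nat.ble (i.f.c + i.f.d) nf &&
    (match i.f.s with
      | false => true
      | true => Nat.ble (Nat.shiftLeft i.f.d i.f.b2) (Nat.shiftLeft i.f.c i.f.b1))

lemma Itm.okb_sound {k : ℕ} {r : Rad} {N : Bd} {nf : ℕ} {i : Itm} (h : i.okb k r N nf = true) :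
    i.Ok k r N nf := by
  simp only [Itm.okb, Bool.and_eq_true] at h
  obtain ⟨⟨⟨⟨⟨⟨h1, h2⟩, h3⟩, h4⟩, h5⟩, h6⟩, h7⟩ := h
  refine ⟨Mon.inb_sound h1, Mon.inb_sound h2, Nat.eq_of_beq_eq_true h3,
    Nat.eq_of_beq_eq_true h4, Nat.eq_of_beq_eq_true h5, Nat.le_of_ble_eq_true h6, ?_⟩
  intro hs
  rw [hs] at h7
  exact Nat.le_of_ble_eq_true h7

def gdb (k : ℕ) (r : Rad) (N : Bd) (nf : ℕ) : List Itm → Bool
  | [] => true
  | i :: it => i.okb k r N nf && (i.e || nxt i it) && gdb k r N nf it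

lemma gdb_sound {k : ℕ} {r : Rad} {N : Bd} {nf : ℕ} {it : List Itm}
    (h : gdb k r N nf it = true) : Gd k r N nf it := by
  induction it with
  | nil => trivial
  | cons i it ih =>
    simp only [gdb, Bool.and_eq_true, Bool.or_eq_true] at h
    obtain ⟨⟨h1, h2⟩, h3⟩ := h
    have h4 := ih h3
    refine ⟨Itm.okb_sound h1, ?_, h4⟩
    rw [eb]
    rcases he : i.e with _ | _
    · rw [he] at h2
      cases it with
      | nil => simp [nxt] at h2
      | cons j it =>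
        have h5 : eqF i.f j.f = true := by simpa [nxt] using h2
        show i.f.V = eb (j :: it)
        rw [eqF_sound h5]
        exact h4.2.1
    · rfl

def len (l : List Itm) : ℕ := match l with
  | [] => 0
  | _ :: it => Nat.succ (len it)

lemma len_eq (l : List Itm) : len l = l.length := by
  induction l with
  | nil => rfl
  | cons i it ih => rw [len, ih]; rfl

def lenN (l : List ℕ) : ℕ := match l with
  | [] => 0
  | _ :: it => Nat.succ (lenN it)

lemma lenN_eq (l : List ℕ) : lenN l = l.length := by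
  induction l with
  | nil => rfl
  | cons i it ih => rw [lenN, ih]; rfl

def emp (l : List ℕ) : Bool := match l with
  | [] => true
  | _ :: _ => false

def Blk.ok (b : Blk) (k : ℕ) (r : Rad) : Bool :=
  gdb k r b.N b.nf b.its && b.mult.ok && Nat.beq b.B (2 * b.off) && Nat.blt 0 b.off &&
    Nat.beq b.BE (2 * b.offE) && Nat.blt 0 b.offE &&
    (emp b.E || Nat.ble ((len b.its + 1) * b.offE) (2 * b.dl))

/-- positive and negative part of the value of the form -/
def Blk.vp (b : Blk) : ℕ :=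
  Nat.add (sqs b.B b.off b.its b.L (tot b.its))
    (Nat.add (dz2 b.dl b.its) (eps b.BE b.its b.E))

def Blk.vn (b : Blk) : ℕ := ens b.offE b.its b.E (tot b.its)

def Blk.nmq (b : Blk) : ℕ :=
  lenN b.L * ((len b.its * (b.off * b.nf)) * (len b.its * (b.off * b.nf)))
    + b.dl * (len b.its * (b.nf * b.nf)) + lenN b.E * ((len b.its * (b.offE * b.nf)) * b.nf)

noncomputable def Blk.q (b : Blk) (x : Pnt) : ℝ :=
  rsq b.B b.off x b.its b.L + b.dl * rz2 x b.its + rex b.BE b.offE x b.its b.E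

lemma Blk.q_nonneg {b : Blk} {k : ℕ} {r : Rad} (h : b.ok k r = true) (x : Pnt) : 0 ≤ b.q x := by
  simp only [Blk.ok, Bool.and_eq_true, Bool.or_eq_true, Nat.blt_eq, Nat.ble_eq] at h
  obtain ⟨⟨⟨⟨⟨⟨_, _⟩, _⟩, _⟩, h5⟩, h6⟩, h7⟩ := h
  have h5 := Nat.eq_of_beq_eq_true h5
  have a1 := rsq_nonneg b.B b.off x b.its b.L
  have a2 := rz2_nonneg x b.its
  have a3 : (0 : ℝ) ≤ b.dl := Nat.cast_nonneg _
  rcases h7 with h7 | h7
  · have hE : b.E = [] := by
      cases hE : b.E with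
      | nil => rfl
      | cons a l => rw [hE] at h7; simp [emp] at h7
    have : rex b.BE b.offE x b.its b.E = 0 := by
      rw [hE]
      cases b.its <;> rfl
    rw [Blk.q, this]
    positivity
  · have a4 := rex_abs h5 h6 x b.its b.E
    have a5 : (((len b.its + 1) * b.offE : ℕ) : ℝ) ≤ ((2 * b.dl : ℕ) : ℝ) := by
      exact_mod_cast h7
    rw [len_eq] at a5
    push_cast at a5
    have a6 := neg_abs_le (rex b.BE b.offE x b.its b.E)
    have a7 : ((b.its.length : ℝ) + 1) * b.offE * rz2 x b.its ≤ 2 * b.dl * rz2 x b.its :=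
      mul_le_mul_of_nonneg_right a5 a2
    rw [Blk.q]
    nlinarith

lemma Blk.rep {b : Blk} {k : ℕ} {r : Rad} (h : b.ok k r = true) (x : Pnt) :
    Rep ((2 ^ k : ℕ) : ℤ) r x (b.N.add b.N) b.nmq ((b.vp : ℤ) - (b.vn : ℤ)) (b.q x) := by
  simp only [Blk.ok, Bool.and_eq_true, Nat.blt_eq] at h
  obtain ⟨⟨⟨⟨⟨⟨h1, _⟩, h3⟩, h4⟩, h5⟩, h6⟩, _⟩ := h
  have h3 := Nat.eq_of_beq_eq_true h3
  have h5 := Nat.eq_of_beq_eq_true h5
  have hg := gdb_sound h1
  have r1 := rep_sqs h3 h4 (x := x) b.its hg b.L (n := b.its.length) le_rfl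
  have r2 := rep_ex h5 h6 (x := x) b.its hg b.E (n := b.its.length) le_rfl
  have r3 := (rep_z2 (x := x) b.its hg).smul (b.dl : ℤ)
  have r4 := (r1.add r3).add r2
  have e1 : ((sqs b.B b.off b.its b.L (tot b.its) : ℕ) : ℤ) + (b.dl : ℤ) * ((z2 b.its : ℕ) : ℤ)
      + (((eps b.BE b.its b.E : ℕ) : ℤ) - ((ens b.offE b.its b.E (tot b.its) : ℕ) : ℤ)) =
      (b.vp : ℤ) - (b.vn : ℤ) := by
    have e2 : b.vp = sqs b.B b.off b.its b.L (tot b.its)
      + (dz2 b.dl b.its + eps b.BE b.its b.E) := rfl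
    rw [e2, Blk.vn, dz2_eq]; push_cast; ring
  have e3 : rsq b.B b.off x b.its b.L + ((b.dl : ℤ) : ℝ) * rz2 x b.its
      + rex b.BE b.offE x b.its b.E = b.q x := by
    rw [Blk.q]; push_cast; ring
  rw [e1, e3] at r4
  refine r4.mono (le_of_eq ?_)
  rw [Blk.nmq, len_eq, lenN_eq, lenN_eq]
  simp

/-! ### certificates -/

structure Cert where
  k : ℕ
  r : Rad
  N : Bd
  s : ℕ
  target : Ex
  blocks : List Blk

/-- the integer point -/
def ipt (k : ℕ) (r : Rad) : IPt :=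
  ⟨Int.ofNat (Nat.pow 2 (Nat.mul k r.ra)), Int.ofNat (Nat.pow 2 (Nat.mul k r.rb)),
    Int.ofNat (Nat.pow 2 (Nat.mul k r.rd)), Int.ofNat (Nat.pow 2 (Nat.mul k r.re)),
    Int.ofNat (Nat.pow 2 k), Int.ofNat (Nat.pow 2 (Nat.mul k r.rg))⟩

lemma ipt_eq (k : ℕ) (r : Rad) : ipt k r = r.pt ((2 ^ k : ℕ) : ℤ) := by
  have h : ∀ n : ℕ, Int.ofNat (Nat.pow 2 (Nat.mul k n)) = ((2 ^ k : ℕ) : ℤ) ^ n := by
    intro n
    show (((2 ^ (k * n) : ℕ)) : ℤ) = _
    push_cast; rw [pow_mul]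
  have h1 : Int.ofNat (Nat.pow 2 k) = ((2 ^ k : ℕ) : ℤ) := rfl
  rw [ipt, Rad.pt, h, h, h, h, h, h1]

/-- sum of the values of the blocks -/
def bsum (X : IPt) : List Blk → ℤ
  | [] => 0
  | b :: bs => Int.add (Int.mul (b.mult.ev X) (Int.sub (Int.ofNat b.vp) (Int.ofNat b.vn)))
      (bsum X bs)

def bnm : List Blk → ℕ
  | [] => 0
  | b :: bs => Nat.add (Nat.mul b.mult.nm b.nmq) (bnm bs)

def bok (k : ℕ) (r : Rad) (N : Bd) : List Blk → Bool
  | [] => true
  | b :: bs => b.ok k r && (b.mult.bd.add (b.N.add b.N)).leb N && bok k r N bs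

noncomputable def brs (x : Pnt) : List Blk → ℝ
  | [] => 0
  | b :: bs => b.mult.re x * b.q x + brs x bs

/-- a test of equality of integers -/
def eqi : ℤ → ℤ → Bool
  | Int.ofNat a, Int.ofNat b => Nat.beq a b
  | Int.negSucc a, Int.negSucc b => Nat.beq a b
  | _, _ => false

lemma eqi_sound {a b : ℤ} (h : eqi a b = true) : a = b := by
  match a, b, h with
  | Int.ofNat a, Int.ofNat b, h => exact congrArg Int.ofNat (Nat.eq_of_beq_eq_true h)
  | Int.negSucc a, Int.negSucc b, h => exact congrArg Int.negSucc (Nat.eq_of_beq_eq_true h)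
  | Int.ofNat a, Int.negSucc b, h => exact absurd h (by simp [eqi])
  | Int.negSucc a, Int.ofNat b, h => exact absurd h (by simp [eqi])

def Cert.check (c : Cert) : Bool :=
  c.r.okb c.N && c.target.ok && c.target.bd.leb c.N && Nat.blt 0 c.s && bok c.k c.r c.N c.blocks &&
    Nat.blt (Nat.add (Nat.mul c.s c.target.nm) (bnm c.blocks)) (Nat.pow 2 c.k) &&
    eqi (Int.mul (Int.ofNat c.s) (c.target.ev (ipt c.k c.r))) (bsum (ipt c.k c.r) c.blocks)

lemma bsum_rep {k : ℕ} {r : Rad} {N : Bd} (bs : List Blk) (h : bok k r N bs = true) (x : Pnt) :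
    Rep ((2 ^ k : ℕ) : ℤ) r x N (bnm bs) (bsum (ipt k r) bs) (brs x bs) := by
  induction bs with
  | nil => exact Rep.zero _ _
  | cons b bs ih =>
    simp only [bok, Bool.and_eq_true] at h
    obtain ⟨⟨h1, h2⟩, h3⟩ := h
    have hm : b.mult.ok = true := by
      simp only [Blk.ok, Bool.and_eq_true] at h1
      exact h1.1.1.1.1.1.2
    have r1 := Ex.rep (w := ((2 ^ k : ℕ) : ℤ)) (r := r) (x := x) b.mult hm
    have r2 := ((r1.mul (Blk.rep h1 x)).le (Bd.leb_sound h2)).add (ih h3)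
    rw [← ipt_eq] at r2
    exact r2

theorem Cert.sound {c : Cert} (h : c.check = true) (x : Pnt) :
    (c.s : ℝ) * c.target.re x = brs x c.blocks := by
  simp only [Cert.check, Bool.and_eq_true, Nat.blt_eq] at h
  obtain ⟨⟨⟨⟨⟨⟨h1, h2⟩, h3⟩, h4⟩, h5⟩, h6⟩, h7⟩ := h
  have r1 := (Ex.rep (w := ((2 ^ c.k : ℕ) : ℤ)) (r := c.r) (x := x) c.target h2).le
    (Bd.leb_sound h3)
  have r2 := (bsum_rep c.blocks h5 x).smul (-1)
  have r3 := (r1.smul (c.s : ℤ)).add r2
  have e7 := eqi_sound h7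
  have e8 : (c.s : ℤ) * c.target.ev (c.r.pt ((2 ^ c.k : ℕ) : ℤ))
      + -1 * bsum (ipt c.k c.r) c.blocks = 0 := by
    rw [← ipt_eq]
    have : (c.s : ℤ) * c.target.ev (ipt c.k c.r) = bsum (ipt c.k c.r) c.blocks := e7
    rw [this]; ring
  rw [e8] at r3
  have r4 := r3.eq_zero (Rad.okb_sound h1) (by
    have h6' : c.s * c.target.nm + bnm c.blocks < 2 ^ c.k := h6
    simpa using h6')
  push_cast at r4
  linarith

theorem sos_pos {c : Cert} (h : c.check = true) (x : Pnt)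
    (hm : ∀ b ∈ c.blocks, 0 ≤ b.mult.re x) : 0 ≤ c.target.re x := by
  have h1 := Cert.sound h x
  have h2 : 0 ≤ brs x c.blocks := by
    have h5 : bok c.k c.r c.N c.blocks = true := by
      simp only [Cert.check, Bool.and_eq_true] at h
      exact h.1.1.2
    revert h5 hm
    induction c.blocks with
    | nil => intro _ _; exact le_rfl
    | cons b bs ih =>
      intro hm h5
      simp only [bok, Bool.and_eq_true] at h5
      exact add_nonneg (mul_nonneg (hm b (by simp)) (Blk.q_nonneg h5.1.1 x))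
        (ih (fun b' hb => hm b' (by simp [hb])) h5.2)
  have h3 : (0 : ℝ) < c.s := by
    simp only [Cert.check, Bool.and_eq_true, Nat.blt_eq] at h
    exact_mod_cast h.1.1.1.2
  rw [← h1] at h2
  exact nonneg_of_mul_nonneg_right h2 h3

end Pool.Sos71

end

section

set_option autoImplicit false
open Complex MeasureTheory Metric Set
open scoped Real ComplexConjugate

/-!
# Project EK3: angular polynomials in `S = sin (η/2)`, `C = cos (η/2)`
-/

namespace Pool.Agent.Helper69.EK3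

open Pool.Sos71

/-- a list of `(c, i, j)`: the polynomial `∑ c S^i C^j` -/
abbrev AP := List (ℤ × ℕ × ℕ)

noncomputable def aev (S C : ℝ) : AP → ℝ
  | [] => 0
  | (c, i, j) :: g => (c : ℝ) * (S ^ i * C ^ j) + aev S C g

/-- the value at the angle `η` -/
noncomputable def af (g : AP) (η : ℝ) : ℝ := aev (Real.sin (η / 2)) (Real.cos (η / 2)) g

/-- twice the derivative -/
def ader : AP → AP
  | [] => []
  | (c, i, j) :: g =>
    (match i with
      | 0 => []
      | i' + 1 => [(Int.mul c (Int.ofNat (i' + 1)), i', j + 1)]) ++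
    (match j with
      | 0 => []
      | j' + 1 => [(Int.mul (-c) (Int.ofNat (j' + 1)), i + 1, j')]) ++ ader g

/-- multiplication by `S^a C^b` -/
def ash (a b : ℕ) : AP → AP
  | [] => []
  | (c, i, j) :: g => (c, i + a, j + b) :: ash a b g

/-- `(s² g)' / s`, `s = 2 S C` -/
def adas : AP → AP
  | [] => []
  | (c, i, j) :: g => (Int.mul c (Int.ofNat (i + 2)), i, j + 2) ::
      (Int.mul (-c) (Int.ofNat (j + 2)), i + 2, j) :: adas g

/-- the sum of the coefficients -/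
def asum : AP → ℤ
  | [] => 0
  | (c, _, _) :: g => Int.add c (asum g)

/-- homogeneous of weight `w` -/
def ahom (w : ℕ) : AP → Bool
  | [] => true
  | (_, i, j) :: g => Nat.beq (i + j) w && ahom w g

theorem nbeq {a b : ℕ} (h : a = b) : Nat.beq a b = true := by
  subst h
  induction a with
  | zero => rfl
  | succ n ih => exact ih

theorem aev_append (S C : ℝ) (g h : AP) : aev S C (g ++ h) = aev S C g + aev S C h := by
  induction g with
  | nil => simp [aev]
  | cons t g ih =>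
    obtain ⟨c, i, j⟩ := t
    simp only [List.cons_append, aev, ih]
    ring

theorem aev_ash (S C : ℝ) (a b : ℕ) (g : AP) : aev S C (ash a b g) = S ^ a * C ^ b * aev S C g := by
  induction g with
  | nil => simp [aev, ash]
  | cons t g ih =>
    obtain ⟨c, i, j⟩ := t
    simp only [aev, ash, ih]
    ring

theorem imul_cast' (a b : ℤ) : ((Int.mul a b : ℤ) : ℝ) = a * b := by
  show (((a * b : ℤ)) : ℝ) = _
  push_cast
  ring

theorem iadd_cast' (a b : ℤ) : ((Int.add a b : ℤ) : ℝ) = a + b := by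
  show (((a + b : ℤ)) : ℝ) = _
  push_cast
  ring

theorem ofNat_cast' (a : ℕ) : ((Int.ofNat a : ℤ) : ℝ) = a := by simp

theorem hasDerivAt_mon (i j : ℕ) (η : ℝ) :
    HasDerivAt (fun η : ℝ => Real.sin (η / 2) ^ i * Real.cos (η / 2) ^ j)
      ((i * Real.sin (η / 2) ^ (i - 1) * Real.cos (η / 2) ^ (j + 1) -
        j * Real.sin (η / 2) ^ (i + 1) * Real.cos (η / 2) ^ (j - 1)) / 2) η := by
  have h0 : HasDerivAt (fun η : ℝ => η / 2) (1 / 2) η := (hasDerivAt_id η).div_const 2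
  have h1 := (h0.sin).pow i
  have h2 := (h0.cos).pow j
  refine (h1.mul h2).congr_deriv ?_
  simp only [Pi.pow_apply]
  rw [pow_succ, pow_succ]
  ring

theorem af_hasDerivAt (g : AP) (η : ℝ) : HasDerivAt (af g) (af (ader g) η / 2) η := by
  induction g with
  | nil =>
    have : af [] = fun _ => (0:ℝ) := by
      funext η
      simp [af, aev]
    rw [this]
    have e : af (ader []) η / 2 = 0 := by simp [ader, af, aev]
    rw [e]
    exact hasDerivAt_const _ _
  | cons t g ih =>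
    obtain ⟨c, i, j⟩ := t
    have h1 := ((hasDerivAt_mon i j η).const_mul (c : ℝ)).add ih
    refine h1.congr_deriv ?_
    cases i with
    | zero =>
      cases j with
      | zero => simp [ader, af]
      | succ j =>
        simp only [ader, af, List.nil_append, List.cons_append, aev, imul_cast', ofNat_cast']
        push_cast
        ring
    | succ i =>
      cases j with
      | zero =>
        simp only [ader, af, List.append_nil, List.cons_append, aev, imul_cast',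
          ofNat_cast', List.nil_append]
        push_cast
        ring
      | succ j =>
        simp only [ader, af, List.cons_append, aev, imul_cast', ofNat_cast', List.nil_append]
        push_cast
        ring

theorem af_cont (g : AP) : Continuous (af g) :=
  continuous_iff_continuousAt.2 fun η => (af_hasDerivAt g η).continuousAt

theorem aev_adas (S C : ℝ) (g : AP) :
    2 * aev S C (ader (ash 2 2 g)) = 2 * S * C * aev S C (adas g) := by
  induction g with
  | nil => simp [ader, ash, adas, aev]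
  | cons t g ih =>
    obtain ⟨c, i, j⟩ := t
    simp only [ash, ader, adas, List.cons_append, List.nil_append, aev, imul_cast', ofNat_cast']
    rw [mul_add, mul_add, ih]
    push_cast
    simp only [Nat.succ_eq_add_one]
    ring

theorem aev_sum (S : ℝ) (w : ℕ) (g : AP) (h : ahom w g = true) :
    aev S S g = asum g * S ^ w := by
  induction g with
  | nil => simp [aev, asum]
  | cons t g ih =>
    obtain ⟨c, i, j⟩ := t
    simp only [ahom, Bool.and_eq_true] at h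
    have h1 : i + j = w := Nat.eq_of_beq_eq_true h.1
    simp only [aev, asum, ih h.2, iadd_cast']
    rw [← pow_add, h1]
    ring

/-- the value at the centre line -/
theorem af_half {w : ℕ} {g : AP} (h : ahom w g = true) :
    af g (π / 2) = asum g * (Real.sqrt 2 / 2) ^ w := by
  unfold af
  have e : π / 2 / 2 = π / 4 := by ring
  rw [e, Real.sin_pi_div_four, Real.cos_pi_div_four]
  exact aev_sum _ w g h

theorem af_half_even {w : ℕ} {g : AP} (h : ahom (2 * w) g = true) :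
    af g (π / 2) = asum g / 2 ^ w := by
  rw [af_half h, pow_mul]
  have e : (Real.sqrt 2 / 2) ^ 2 = 1 / 2 := by
    rw [div_pow, Real.sq_sqrt (by norm_num)]
    norm_num
  rw [e, one_div, inv_pow]
  rfl

theorem af_half_zero {w : ℕ} {g : AP} (h : ahom w g = true) (h0 : asum g = 0) :
    af g (π / 2) = 0 := by
  rw [af_half h, h0]
  simp

theorem ahom_append (w : ℕ) (g h : AP) : ahom w (g ++ h) = (ahom w g && ahom w h) := by
  induction g with
  | nil => simp [ahom]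
  | cons t g ih =>
    obtain ⟨c, i, j⟩ := t
    simp only [List.cons_append, ahom, ih, Bool.and_assoc]

theorem ahom_ash {w : ℕ} (a b : ℕ) {g : AP} (h : ahom w g = true) :
    ahom (w + a + b) (ash a b g) = true := by
  induction g with
  | nil => rfl
  | cons t g ih =>
    obtain ⟨c, i, j⟩ := t
    simp only [ahom, Bool.and_eq_true] at h
    have h1 : i + j = w := Nat.eq_of_beq_eq_true h.1
    simp only [ash, ahom, Bool.and_eq_true, ih h.2, and_true]
    exact nbeq (by omega)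

theorem ahom_ader {w : ℕ} {g : AP} (h : ahom w g = true) : ahom w (ader g) = true := by
  induction g with
  | nil => rfl
  | cons t g ih =>
    obtain ⟨c, i, j⟩ := t
    simp only [ahom, Bool.and_eq_true] at h
    have h1 : i + j = w := Nat.eq_of_beq_eq_true h.1
    have h2 := ih h.2
    cases i with
    | zero =>
      cases j with
      | zero => simpa only [ader, List.nil_append] using h2
      | succ j =>
        simp only [ader, List.nil_append, List.cons_append, ahom, Bool.and_eq_true, h2, and_true]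
        exact nbeq (by omega)
    | succ i =>
      cases j with
      | zero =>
        simp only [ader, List.append_nil, List.cons_append, List.nil_append, ahom,
          Bool.and_eq_true, h2, and_true]
        exact nbeq (by omega)
      | succ j =>
        simp only [ader, List.cons_append, List.nil_append, ahom, Bool.and_eq_true, h2, and_true]
        exact ⟨nbeq (by omega), nbeq (by omega)⟩

/-! ### expressions -/

/-- monomial `c S^i C^j` -/
def moE (c : ℤ) (i j : ℕ) : Ex :=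
  Ex.sc c (Ex.mul (Ex.pow (Ex.va 1) i) (Ex.pow (Ex.va 2) j))

def apE : AP → Ex
  | [] => Ex.lit 0
  | [(c, i, j)] => moE c i j
  | (c, i, j) :: t :: g => Ex.add (moE c i j) (apE (t :: g))

theorem moE_re (x : Pnt) (c : ℤ) (i j : ℕ) : (moE c i j).re x = c * (x.b ^ i * x.c ^ j) := rfl

theorem apE_re (x : Pnt) (g : AP) : (apE g).re x = aev x.b x.c g := by
  induction g with
  | nil => simp [apE, aev, Ex.re]
  | cons t g ih =>
    obtain ⟨c, i, j⟩ := t
    cases g with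
    | nil =>
      simp only [apE, aev, moE_re]
      ring
    | cons t' g =>
      have : (apE ((c, i, j) :: t' :: g)).re x = (moE c i j).re x + (apE (t' :: g)).re x := rfl
      rw [this, ih, moE_re]
      rfl

end Pool.Agent.Helper69.EK3

end

section


/-!
EK3 (a), part 3: the linear input on the centre line,
`2 ∫ (1 - Re X) dξ ≤ (1 + δ) log (‖N a‖ / (1 - a²)) + C`.
-/

set_option autoImplicit false

open Complex MeasureTheory Metric Set Filter Topology
open scoped Real ENNReal ComplexConjugate NNReal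

namespace Pool.Agent.Helper79.EK3

open Pool.Agent.Helper39.Area Pool.Agent.Helper39.EK Pool.Agent.Helper52.EK Pool.Agent.Helper86.EK

theorem pt_re (ξ η : ℝ) : (pt ξ η).re = ξ := by simp [pt]

theorem pt_im (ξ η : ℝ) : (pt ξ η).im = η := by simp [pt]

theorem hasDerivAt_pt (ξ η : ℝ) : HasDerivAt (fun t : ℝ => pt t η) 1 ξ := by
  have h : HasDerivAt (fun t : ℝ => (t:ℂ) + (η:ℂ) * I) 1 ξ :=
    (Complex.ofRealCLM.hasDerivAt (x := ξ)).add_const _
  exact h

/-- `Φ` moves slowly along the centre line -/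
theorem horiz {Φ Φ' : ℂ → ℂ} {B : ℝ} (h1 : ∀ ω : ℂ, 0 < ω.im → ω.im < π → HasDerivAt Φ (Φ' ω) ω)
    (h2 : ∀ ω : ℂ, 0 < ω.im → ω.im < π → ‖Φ' ω‖ * Real.sin ω.im ≤ B) (x y : ℝ) :
    ‖Φ (pt y (π / 2)) - Φ (pt x (π / 2))‖ ≤ B * |y - x| := by
  have hπ := Real.pi_pos
  have hd : ∀ t ∈ (univ : Set ℝ), HasDerivWithinAt (fun t : ℝ => Φ (pt t (π / 2)))
      (Φ' (pt t (π / 2))) univ t := by
    intro t _
    have h3 := h1 (pt t (π / 2)) (by rw [pt_im]; linarith) (by rw [pt_im]; linarith)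
    have h4 := h3.comp_of_eq t (hasDerivAt_pt t (π / 2)) rfl
    rw [mul_one] at h4
    exact h4.hasDerivWithinAt
  have hb : ∀ t ∈ (univ : Set ℝ), ‖Φ' (pt t (π / 2))‖ ≤ B := by
    intro t _
    have h3 := h2 (pt t (π / 2)) (by rw [pt_im]; linarith) (by rw [pt_im]; linarith)
    rwa [pt_im, Real.sin_pi_div_two, mul_one] at h3
  have := convex_univ.norm_image_sub_le_of_norm_hasDerivWithin_le hd hb (mem_univ x) (mem_univ y)
  rwa [Real.norm_eq_abs] at this

theorem kap_re {a : ℝ} (h0 : 0 < a) (h1 : a < 1) {ξ η : ℝ} (hx : Real.log (tau a) + 1 ≤ ξ)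
    (hx2 : ξ ≤ -1) :
    1 - (kap a (pt ξ η)).re ≤ 12 * Real.exp (ξ / 2) + 4 * Real.exp ((Real.log (tau a) - ξ) / 2) := by
  have h3 := Pool.Agent.Helper46.EK.kap_bound h0 h1 (η := η) hx hx2
  have hτ := tau_pos h0 h1
  have h4 : 1 - (kap a (pt ξ η)).re ≤ ‖kap a (pt ξ η) - 1‖ := by
    have := Complex.abs_re_le_norm (kap a (pt ξ η) - 1)
    rw [Complex.sub_re, Complex.one_re] at this
    have h5 := neg_abs_le ((kap a (pt ξ η)).re - 1)
    linarith
  refine h4.trans ?_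
  apply le_of_sq_le_sq _ (by positivity)
  have e1 : Real.exp (ξ / 2) ^ 2 = Real.exp ξ := by
    rw [← Real.exp_nat_mul]; congr 1; push_cast; ring
  have e2 : Real.exp ((Real.log (tau a) - ξ) / 2) ^ 2 = tau a * Real.exp (-ξ) := by
    rw [← Real.exp_nat_mul]
    have : ((2:ℕ):ℝ) * ((Real.log (tau a) - ξ) / 2) = Real.log (tau a) + -ξ := by push_cast; ring
    rw [this, Real.exp_add, Real.exp_log hτ]
  have p1 := Real.exp_pos (ξ / 2)
  have p2 := Real.exp_pos ((Real.log (tau a) - ξ) / 2)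
  nlinarith [mul_pos p1 p2]

theorem int_exp_half {x₁ x₂ L : ℝ} (h1 : L + 1 ≤ x₁) (h12 : x₁ ≤ x₂) (h2 : x₂ ≤ -1) :
    ∫ ξ in x₁..x₂, (12 * Real.exp (ξ / 2) + 4 * Real.exp ((L - ξ) / 2)) ≤ 32 := by
  have hd : ∀ ξ ∈ uIcc x₁ x₂, HasDerivAt (fun ξ : ℝ => 24 * Real.exp (ξ / 2) -
      8 * Real.exp ((L - ξ) / 2)) (12 * Real.exp (ξ / 2) + 4 * Real.exp ((L - ξ) / 2)) ξ := by
    intro ξ _
    have a1 : HasDerivAt (fun ξ : ℝ => ξ / 2) (1 / 2) ξ := (hasDerivAt_id ξ).div_const 2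
    have a2 : HasDerivAt (fun ξ : ℝ => (L - ξ) / 2) (-1 / 2) ξ :=
      ((hasDerivAt_id ξ).const_sub L).div_const 2
    have a3 := (a1.exp.const_mul 24).sub (a2.exp.const_mul 8)
    have a4 : 12 * Real.exp (ξ / 2) + 4 * Real.exp ((L - ξ) / 2) =
        24 * (Real.exp (ξ / 2) * (1 / 2)) - 8 * (Real.exp ((L - ξ) / 2) * (-1 / 2)) := by ring
    rw [a4]
    exact a3
  rw [intervalIntegral.integral_eq_sub_of_hasDerivAt hd
    ((by fun_prop : Continuous fun ξ : ℝ => 12 * Real.exp (ξ / 2) +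
      4 * Real.exp ((L - ξ) / 2)).intervalIntegrable _ _)]
  have b1 : Real.exp (x₂ / 2) ≤ 1 := Real.exp_le_one_iff.mpr (by linarith)
  have b2 : Real.exp ((L - x₁) / 2) ≤ 1 := Real.exp_le_one_iff.mpr (by linarith)
  have b3 := Real.exp_pos (x₁ / 2)
  have b4 := Real.exp_pos ((L - x₂) / 2)
  linarith

/-- the linear input on the centre line, with the distances to the ends -/
theorem centre_aux {β : ℂ → ℂ} {R : ℝ} (h : ExtR β R) {a : ℝ} (ha : 0 < a) (ha1 : a < 1)
    {x₁ x₂ : ℝ} (h1 : Real.log (tau a) + 1 ≤ x₁) (h12 : x₁ ≤ x₂) (h2 : x₂ ≤ -1) :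
    2 * ∫ ξ in x₁..x₂, (1 - (Xf β a (pt ξ (π / 2))).re) ≤
      JJ β a + 64 + Real.sqrt (2 * JJ β a) * ((x₁ - Real.log (tau a)) - x₂) := by
  have hπ := Real.pi_pos
  obtain ⟨Φ, Φ', hd, hb, hX, hJ, hO⟩ := exists_Phi h.toExt ha ha1
  have hN := Pool.Agent.Helper67.EK.E1c h ha ha1 (x₁ := x₁) (x₂ := x₂) (by linarith) (by linarith)
  have hmem : ∀ ξ ∈ Icc x₁ x₂, pt ξ (π / 2) ∈ Rect x₁ x₂ := by
    intro ξ hξ
    refine ⟨?_, ?_⟩
    · simp only [mem_preimage, pt_re]; exact hξ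
    · simp only [mem_preimage, pt_im, mem_Icc]; constructor <;> linarith
  have hptc : Continuous fun ξ : ℝ => pt ξ (π / 2) := by unfold pt; fun_prop
  have hXc : ContinuousOn (fun ξ : ℝ => Xf β a (pt ξ (π / 2))) (Icc x₁ x₂) :=
    hN.an.continuousOn.comp hptc.continuousOn hmem
  have hkc : ContinuousOn (fun ξ : ℝ => kap a (pt ξ (π / 2))) (Icc x₁ x₂) := by
    have hk : ContinuousOn (kap a) (Rect x₁ x₂) := by
      apply ContinuousOn.div (by fun_prop) (by fun_prop)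
      intro ω hω
      exact mul_ne_zero (sq_add_tau_ne ha ha1 (by linarith) hω) (sq_add_one_ne (by linarith) hω)
    exact hk.comp hptc.continuousOn hmem
  have hXi : IntervalIntegrable (fun ξ : ℝ => (Xf β a (pt ξ (π / 2))).re) volume x₁ x₂ := by
    apply ContinuousOn.intervalIntegrable
    rw [uIcc_of_le h12]
    exact Complex.continuous_re.comp_continuousOn hXc
  have hki : IntervalIntegrable (fun ξ : ℝ => (kap a (pt ξ (π / 2))).re) volume x₁ x₂ := by
    apply ContinuousOn.intervalIntegrable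
    rw [uIcc_of_le h12]
    exact Complex.continuous_re.comp_continuousOn hkc
  -- fundamental theorem of calculus for `Re Φ`
  have hft : ∫ ξ in x₁..x₂, (2 * (Xf β a (pt ξ (π / 2))).re - 2 * (kap a (pt ξ (π / 2))).re) =
      (Φ (pt x₂ (π / 2))).re - (Φ (pt x₁ (π / 2))).re := by
    apply intervalIntegral.integral_eq_sub_of_hasDerivAt (f := fun ξ => (Φ (pt ξ (π / 2))).re)
    · intro ξ hξ
      rw [uIcc_of_le h12] at hξ
      have i1 : 0 < (pt ξ (π / 2)).im := by rw [pt_im]; linarith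
      have i2 : (pt ξ (π / 2)).im < π := by rw [pt_im]; linarith
      have h3 := (hd _ i1 i2).comp_of_eq ξ (hasDerivAt_pt ξ (π / 2)) rfl
      rw [mul_one, hX _ i1 i2 (by rw [pt_re]; linarith [hξ.1]) (by rw [pt_re]; linarith [hξ.2])] at h3
      have h4 := (Complex.reCLM.hasFDerivAt.comp_hasDerivAt ξ h3)
      have h5 : Complex.reCLM (2 * Xf β a (pt ξ (π / 2)) - 2 * kap a (pt ξ (π / 2))) =
          2 * (Xf β a (pt ξ (π / 2))).re - 2 * (kap a (pt ξ (π / 2))).re := by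
        simp
      rw [h5] at h4
      exact h4
    · exact (hXi.const_mul 2).sub (hki.const_mul 2)
  have hB0 : 0 ≤ Real.sqrt (2 * JJ β a) := Real.sqrt_nonneg _
  -- the two ends
  have hend2 : -(Real.sqrt (2 * JJ β a) * -x₂) ≤ (Φ (pt x₂ (π / 2))).re := by
    have h3 := horiz hd hb 0 x₂
    rw [hO, sub_zero, sub_zero, abs_of_nonpos (by linarith)] at h3
    have h4 := Complex.abs_re_le_norm (Φ (pt x₂ (π / 2)))
    have h5 := neg_abs_le (Φ (pt x₂ (π / 2))).re
    linarith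
  have hend1 : (Φ (pt x₁ (π / 2))).re ≤ JJ β a + Real.sqrt (2 * JJ β a) * (x₁ - Real.log (tau a)) := by
    have h3 := horiz hd hb (Real.log (tau a)) x₁
    rw [abs_of_nonneg (by linarith)] at h3
    have h4 := Complex.re_le_norm (Φ (pt x₁ (π / 2)) - Φ (pt (Real.log (tau a)) (π / 2)))
    rw [Complex.sub_re, hJ] at h4
    linarith
  have hkap : 2 * ∫ ξ in x₁..x₂, (1 - (kap a (pt ξ (π / 2))).re) ≤ 64 := by
    have h3 : ∫ ξ in x₁..x₂, (1 - (kap a (pt ξ (π / 2))).re) ≤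
        ∫ ξ in x₁..x₂, (12 * Real.exp (ξ / 2) + 4 * Real.exp ((Real.log (tau a) - ξ) / 2)) := by
      apply intervalIntegral.integral_mono_on h12
      · exact (intervalIntegrable_const).sub hki
      · exact (by fun_prop : Continuous fun ξ : ℝ => 12 * Real.exp (ξ / 2) +
          4 * Real.exp ((Real.log (tau a) - ξ) / 2)).intervalIntegrable _ _
      · intro ξ hξ
        exact kap_re ha ha1 (h1.trans hξ.1) (hξ.2.trans h2)
    have h4 := int_exp_half h1 h12 h2
    linarith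
  have hsplit : 2 * ∫ ξ in x₁..x₂, (1 - (Xf β a (pt ξ (π / 2))).re) =
      2 * (∫ ξ in x₁..x₂, (1 - (kap a (pt ξ (π / 2))).re)) -
        ∫ ξ in x₁..x₂, (2 * (Xf β a (pt ξ (π / 2))).re - 2 * (kap a (pt ξ (π / 2))).re) := by
    rw [← intervalIntegral.integral_const_mul, ← intervalIntegral.integral_const_mul,
      ← intervalIntegral.integral_sub ((intervalIntegrable_const.sub hki).const_mul 2)
        ((hXi.const_mul 2).sub (hki.const_mul 2))]
    congr 1
    funext ξ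
    ring
  rw [hsplit, hft]
  nlinarith

/-- EK3 (a): the linear input on the centre line -/
theorem centre_line {δ : ℝ} (hδ : 0 < δ) : ∃ C : ℝ, ∀ (β : ℂ → ℂ) (R a : ℝ), ExtR β R → 0 < a →
    a < 1 → ∀ x₁ x₂ : ℝ, Real.log (tau a) + 1 ≤ x₁ → x₁ ≤ x₂ → x₂ ≤ -1 →
    2 * ∫ ξ in x₁..x₂, (1 - (Xf β a (pt ξ (π / 2))).re) ≤
      (1 + δ) * Real.log (‖N β a‖ / (1 - a ^ 2)) + C := by
  refine ⟨96 + 2 / δ, fun β R a h ha ha1 x₁ x₂ h1 h12 h2 => ?_⟩
  have hπ := Real.pi_pos
  set L := Real.log (tau a) with hL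
  have h3 := centre_aux h ha ha1 (x₁ := L + 1) (x₂ := -1) (le_refl _) (by linarith) (le_refl _)
  have hJ := JJ_nonneg h.toExt ha ha1
  have h4 : Real.sqrt (2 * JJ β a) * ((L + 1 - L) - -1) ≤ δ * JJ β a + 2 / δ := by
    set B := Real.sqrt (2 * JJ β a) with hB
    have hB2 : B ^ 2 = 2 * JJ β a := Real.sq_sqrt (by linarith)
    have h7 : 0 ≤ (δ * B - 2) ^ 2 / (2 * δ) := by positivity
    have h8 : (δ * B - 2) ^ 2 / (2 * δ) = δ / 2 * B ^ 2 + 2 / δ - B * 2 := by
      field_simp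
      ring
    rw [h8, hB2] at h7
    linarith
  -- the rest of the centre line, by Koebe
  have hN := Pool.Agent.Helper67.EK.E1c h ha ha1 (x₁ := L + 1) (x₂ := -1) (by linarith)
    (by linarith)
  have hptc : Continuous fun ξ : ℝ => pt ξ (π / 2) := by unfold pt; fun_prop
  have hfc : ContinuousOn (fun ξ : ℝ => 1 - (Xf β a (pt ξ (π / 2))).re) (Icc (L + 1) (-1)) := by
    apply continuousOn_const.sub
    apply Complex.continuous_re.comp_continuousOn
    apply hN.an.continuousOn.comp hptc.continuousOn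
    intro ξ hξ
    refine ⟨?_, ?_⟩
    · simp only [mem_preimage, pt_re]; exact hξ
    · simp only [mem_preimage, pt_im, mem_Icc]; constructor <;> linarith
  have hii : ∀ u v : ℝ, L + 1 ≤ u → u ≤ v → v ≤ -1 →
      IntervalIntegrable (fun ξ : ℝ => 1 - (Xf β a (pt ξ (π / 2))).re) volume u v := by
    intro u v hu huv hv
    apply ContinuousOn.intervalIntegrable
    rw [uIcc_of_le huv]
    exact hfc.mono (Icc_subset_Icc hu hv)
  have hpos : ∀ u v : ℝ, L + 1 ≤ u → u ≤ v → v ≤ -1 →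
      -8 ≤ ∫ ξ in u..v, (1 - (Xf β a (pt ξ (π / 2))).re) := by
    intro u v hu huv hv
    have g1 : ∫ ξ in u..v, (-(4 * Real.exp ξ + 4 * Real.exp (L - ξ))) ≤
        ∫ ξ in u..v, (1 - (Xf β a (pt ξ (π / 2))).re) := by
      apply intervalIntegral.integral_mono_on huv
      · exact (by fun_prop : Continuous fun ξ : ℝ =>
          -(4 * Real.exp ξ + 4 * Real.exp (L - ξ))).intervalIntegrable _ _
      · exact hii u v hu huv hv
      · intro ξ hξ
        have g2 := Pool.Agent.Helper84.EK.centre_err h.toExt ha ha1 (ξ := ξ) (hu.trans hξ.1)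
          (hξ.2.trans hv)
        have g3 := Complex.re_le_norm (Xf β a (pt ξ (π / 2)))
        rw [← hL] at g2
        linarith
    have g4 : ∫ ξ in u..v, (-(4 * Real.exp ξ + 4 * Real.exp (L - ξ))) =
        (-(4 * Real.exp v) + 4 * Real.exp (L - v)) - (-(4 * Real.exp u) + 4 * Real.exp (L - u)) := by
      apply intervalIntegral.integral_eq_sub_of_hasDerivAt
        (f := fun ξ : ℝ => -(4 * Real.exp ξ) + 4 * Real.exp (L - ξ))
      · intro ξ _
        have a1 := ((Real.hasDerivAt_exp ξ).const_mul 4).neg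
        have a2 : HasDerivAt (fun ξ : ℝ => L - ξ) (-1) ξ := (hasDerivAt_id ξ).const_sub L
        have a3 := a1.add (a2.exp.const_mul 4)
        have a4 : -(4 * Real.exp ξ + 4 * Real.exp (L - ξ)) =
            -(4 * Real.exp ξ) + 4 * (Real.exp (L - ξ) * -1) := by ring
        rw [a4]
        exact a3
      · exact (by fun_prop : Continuous fun ξ : ℝ =>
          -(4 * Real.exp ξ + 4 * Real.exp (L - ξ))).intervalIntegrable _ _
    have b1 : Real.exp v ≤ 1 := Real.exp_le_one_iff.mpr (by linarith)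
    have b2 : Real.exp (L - u) ≤ 1 := Real.exp_le_one_iff.mpr (by linarith)
    have b3 := Real.exp_pos u
    have b4 := Real.exp_pos (L - v)
    rw [g4] at g1
    linarith
  have hs1 := intervalIntegral.integral_add_adjacent_intervals
    (hii (L + 1) x₁ (le_refl _) h1 (h12.trans h2)) (hii x₁ x₂ h1 h12 h2)
  have hs2 := intervalIntegral.integral_add_adjacent_intervals
    (hii (L + 1) x₂ (le_refl _) (h1.trans h12) h2) (hii x₂ (-1) (h1.trans h12) h2 (le_refl _))
  have p1 := hpos (L + 1) x₁ (le_refl _) h1 (h12.trans h2)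
  have p2 := hpos x₂ (-1) (h1.trans h12) h2 (le_refl _)
  have h11 : (1 + δ) * Real.log (‖N β a‖ / (1 - a ^ 2)) = JJ β a + δ * JJ β a := by
    rw [JJ]; ring
  rw [h11]
  linarith

end Pool.Agent.Helper79.EK3

end

section

set_option autoImplicit false
open Complex MeasureTheory Metric Set
open scoped Real ComplexConjugate

/-!
# Project EK3: the bound for one target from a certificate with the Koebe bound on the centre line
-/

namespace Pool.Agent.Helper69.EK3

open Pool.Agent.Helper39.Area Pool.Agent.Helper52.EK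

/-- admissible functions: both halves in the class `P`, Koebe bound on the centre line -/
def AdmB (P : (ℂ → ℂ) → ℝ → ℝ → Prop) (X : ℂ → ℂ) (x₁ x₂ : ℝ) : Prop :=
  P X x₁ x₂ ∧ P (mir X) x₁ x₂ ∧ ∃ δ : ℝ → ℝ, Continuous δ ∧ (∀ ξ ∈ Icc x₁ x₂, 0 ≤ δ ξ) ∧
    (∀ ξ ∈ Icc x₁ x₂, 1 + δ ξ ≤ 9) ∧ (∀ ξ ∈ Icc x₁ x₂, ‖X (pt ξ (π / 2))‖ ≤ 1 + δ ξ) ∧
    ∫ ξ in x₁..x₂, δ ξ ≤ 8

theorem exp_int (a b : ℝ) : ∫ ξ in a..b, Real.exp ξ = Real.exp b - Real.exp a :=
  integral_exp

/-- the functions `Xf` satisfy the Koebe bound -/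
theorem admB_Xf {P : (ℂ → ℂ) → ℝ → ℝ → Prop}
    (hP : ∀ (β : ℂ → ℂ) (R a : ℝ), ExtR β R → 0 < a → a < 1 → Real.log (tau a) + 1 ≤ -1 →
      P (Xf β a) (Real.log (tau a) + 1) (-1) ∧ P (mir (Xf β a)) (Real.log (tau a) + 1) (-1))
    (β : ℂ → ℂ) (R a : ℝ) (h : ExtR β R) (ha : 0 < a) (ha1 : a < 1)
    (hx : Real.log (tau a) + 1 ≤ -1) : AdmB P (Xf β a) (Real.log (tau a) + 1) (-1) := by
  obtain ⟨p1, p2⟩ := hP β R a h ha ha1 hx
  refine ⟨p1, p2, fun ξ => 4 * Real.exp ξ + 4 * Real.exp (Real.log (tau a) - ξ), by fun_prop,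
    fun ξ _ => by positivity, fun ξ hξ => ?_, fun ξ hξ => ?_, ?_⟩
  · have h1 : Real.exp ξ ≤ 1 := Real.exp_le_one_iff.2 (by linarith [hξ.2])
    have h2 : Real.exp (Real.log (tau a) - ξ) ≤ 1 := Real.exp_le_one_iff.2 (by linarith [hξ.1])
    linarith
  · have := Pool.Agent.Helper84.EK.centre_err h.toExt ha ha1 hξ.1 hξ.2
    linarith
  · have i1 : IntervalIntegrable (fun ξ : ℝ => 4 * Real.exp ξ) volume
        (Real.log (tau a) + 1) (-1) :=
      (by fun_prop : Continuous fun ξ : ℝ => 4 * Real.exp ξ).intervalIntegrable _ _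
    have i2 : IntervalIntegrable (fun ξ : ℝ => 4 * Real.exp (Real.log (tau a) - ξ)) volume
        (Real.log (tau a) + 1) (-1) :=
      (by fun_prop : Continuous fun ξ : ℝ => 4 * Real.exp (Real.log (tau a) - ξ)).intervalIntegrable
        _ _
    rw [intervalIntegral.integral_add i1 i2, intervalIntegral.integral_const_mul,
      intervalIntegral.integral_const_mul,
      intervalIntegral.integral_comp_sub_left (fun u => Real.exp u) (Real.log (tau a)),
      exp_int, exp_int]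
    have e1 : Real.exp (-1) ≤ 1 := Real.exp_le_one_iff.2 (by norm_num)
    have e2 := Real.exp_pos (Real.log (tau a) + 1)
    have e3 : Real.exp (Real.log (tau a) - (Real.log (tau a) + 1)) ≤ 1 :=
      Real.exp_le_one_iff.2 (by linarith)
    have e4 := Real.exp_pos (Real.log (tau a) - -1)
    linarith

theorem e0_neg (s c : ℝ) : e0 s (-c) = conj (e0 s c) := by
  unfold e0
  simp only [map_neg, map_pow, map_sub, map_mul, conj_ofReal, conj_I, ofReal_neg]
  ring

theorem mX_conj (X Y : ℂ) (s c : ℝ) : mX (conj X) (conj Y) s c = conj (mX X Y s (-c)) := by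
  unfold mX
  rw [e0_neg]
  simp only [map_sub, map_mul, map_add, map_div₀, map_one, map_ofNat, Complex.conj_conj]

theorem TG_mirror {G : ℂ → ℂ} (hGc : ∀ m, G (conj m) = conj (G m)) (X Y : ℂ) (s c : ℝ) :
    TG G (conj X) (conj Y) s c = TG G X Y s (-c) := by
  unfold TG
  rw [mX_conj, hGc, e0_neg]
  have h : conj (G (mX X Y s (-c))) - e0 s c = conj (G (mX X Y s (-c)) - conj (e0 s c)) := by
    rw [map_sub, Complex.conj_conj]
  rw [h, norm_conj]

theorem TG_cont {G : ℂ → ℂ} (hG : Continuous G) :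
    ContinuousOn (fun p : ℂ × ℂ × ℝ × ℝ => TG G p.1 p.2.1 p.2.2.1 p.2.2.2) {p | p.1 ≠ 0} := by
  have c0 : ContinuousOn (fun p : ℂ × ℂ × ℝ × ℝ => e0 p.2.2.1 p.2.2.2) {p | p.1 ≠ 0} := by
    unfold e0
    fun_prop
  have c1 : ContinuousOn (fun p : ℂ × ℂ × ℝ × ℝ => p.1) {p | p.1 ≠ 0} := by fun_prop
  have c2 : ContinuousOn (fun p : ℂ × ℂ × ℝ × ℝ => p.2.1) {p | p.1 ≠ 0} := by fun_prop
  have c4 : ContinuousOn (fun p : ℂ × ℂ × ℝ × ℝ => mX p.1 p.2.1 p.2.2.1 p.2.2.2)
      {p | p.1 ≠ 0} := by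
    unfold mX
    refine ((continuousOn_const.add c0).mul ?_).sub continuousOn_const
    exact ((continuousOn_const.mul c1).sub continuousOn_const).add (c2.div c1 fun p hp => hp)
  unfold TG
  exact ((hG.comp_continuousOn c4).sub c0).norm.pow 2

/-- the bound for one target from a certificate -/
theorem K_one3_b {P : (ℂ → ℂ) → ℝ → ℝ → Prop}
    (hP : ∀ (β : ℂ → ℂ) (R a : ℝ), ExtR β R → 0 < a → a < 1 → Real.log (tau a) + 1 ≤ -1 →
      P (Xf β a) (Real.log (tau a) + 1) (-1) ∧ P (mir (Xf β a)) (Real.log (tau a) + 1) (-1))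
    {k₂ lam D κ L : ℝ} (hlam : 0 ≤ lam) (hk₂ : lam ≤ k₂) (hκ : k₂ < 2 * κ)
    {G : ℂ → ℂ} (hG : GLip G L) (hGc : ∀ m, G (conj m) = conj (G m))
    {Nl : ℂ → ℂ → ℝ → ℝ} {Kl : ℂ → ℂ → ℝ} (hN : IsNull P Nl Kl)
    (hp : ∀ (X : ℂ → ℂ) (x₁ x₂ : ℝ), x₁ ≤ x₂ → NiceH X x₁ x₂ → P X x₁ x₂ →
      ∃ ε : ℝ → ℝ, Continuous ε ∧ (∀ ξ, 0 ≤ ε ξ) ∧ ∫ ξ in x₁..x₂, ε ξ ≤ D ∧
        ∀ ξ ∈ Icc x₁ x₂, ∀ η ∈ Icc (0:ℝ) (π / 2),
          TG G (X (pt ξ η)) (deriv X (pt ξ η)) (Real.sin η) (Real.cos η) ≤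
            k₂ * (1 - (X (pt ξ η)).re) + lam * (‖X (pt ξ η)‖ ^ 2 - (X (pt ξ η)).re) +
              Nl (X (pt ξ η)) (deriv X (pt ξ η)) η + ε ξ)
    {Ec Ex Ey W Wx Wy : ℂ → ℝ} (hW : C1f W Wx Wy) (hE : C1f Ec Ex Ey)
    (hK : ∀ X Y : ℂ, X ≠ 0 → Kl X Y + Kl (conj X) (conj Y) =
      - Ec X + (Wx X * Y.re + Wy X * Y.im))
    (hE0 : ∀ X : ℂ, ‖X‖ ≤ 1 → 0 ≤ Ec X) :
    ∃ C a₀ : ℝ, a₀ < 1 ∧ ∀ (β : ℂ → ℂ) (R a : ℝ), ExtR β R → a₀ < a → a < 1 →
      Kf (wf G β) 1 (-1) (Real.log a) ≤ κ * Real.log (‖N β a‖ / (1 - a ^ 2)) + C := by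
  have hGcont : Continuous G := Pool.Agent.Helper44.EK.GLip.continuous hG
  refine K_one3 (lam := lam) (k₂ := k₂) hG (adm := AdmB P) (admB_Xf hP)
    (fun δ hδ => Pool.Agent.Helper79.EK3.centre_line hδ) ?_ hlam hk₂ hκ
  obtain ⟨C, hC⟩ := strip3_b (T := TG G) hlam hk₂ (fun _ _ _ _ => sq_nonneg _) (TG_cont hGcont)
    (TG_mirror hGc) hN hp hW hE hK hE0 (r := 9) (D' := 8) (by norm_num)
  refine ⟨C, fun X x₁ x₂ l hl hx hX hA => ?_⟩
  obtain ⟨p1, p2, δ, cδ, δ0, δ9, hδ, hI⟩ := hA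
  exact hC X δ x₁ x₂ l hl hx hX p1 p2 cδ δ0 δ9 hδ hI

end Pool.Agent.Helper69.EK3

end
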