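import Pool.Agent.Helper96.ESX.B02
import Pool.Agent.Helper96.ESX.B04

set_option autoImplicit false

/-! Copies of landed files, bundled to shorten the build: Helper71.EK3.Gq, Helper71.EK3.Cq, Helper69.EK3.NullP, Helper69.EK3.XF, Helper69.EK3.Disc, Helper69.EK3.Fam, Helper69.EK3.Tgt, Helper69.EK3.Dat, Helper69.EK3.Cen, Helper69.EK3.Asm, Helper32.EK.Final, Helper69.EK3.Fin, Helper69.EK3.Fin2, Helper69.EK5.XG, Helper69.EK5.Fam, Helper69.EK5.Tgt, Helper69.EK5.Dat, Helper69.EK5.Cen, Helper69.EK5.Asm, Helper69.EK6.Fam, Helper69.EK6.Tgt, Helper69.EK6.Dat, Helper69.EK5.Fin, Helper69.EK6.Cen, Helper69.EK6.Asm, Helper69.EK6.Fin, Helper71.Sos.W1, Helper71.Sos.Bdd, Helper71.Sos.Side -/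

section


/-!
Algebra of one condition of the certificate at a point: completing the square in `q`.
Coordinates `f = X - 1 = (f1, f2)`.
-/

set_option autoImplicit false

namespace Pool.Agent.Helper71.EK3

/-- values at one point: `D = 1 + a|X|²`, `E = D^k`, `lam`, `dd`, the numerators of the
Laplacian of `U`, of `U, V, Z, W, T` and of their gradients -/
structure Pq where
  f1 : ℝ
  f2 : ℝ
  D : ℝ
  E : ℝ
  lam : ℝ
  dd : ℝ
  n4 : ℝ
  hu : ℝ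
  hv : ℝ
  hvx : ℝ
  hvy : ℝ
  hz : ℝ
  hzx : ℝ
  hzy : ℝ
  hwx : ℝ
  hwy : ℝ
  htx : ℝ
  hty : ℝ

namespace Pq

variable (P : Pq)

noncomputable def x : ℝ := 1 + P.f1
noncomputable def F : ℝ := P.f1 ^ 2 + P.f2 ^ 2

noncomputable def A1 : ℝ := P.hwx + P.hvy
noncomputable def A2 : ℝ := P.hwy - P.hvx
noncomputable def B1 : ℝ := P.htx + P.hzy
noncomputable def B2 : ℝ := P.hty - P.hzx

/-- the common part of the constant terms -/
noncomputable def C0 : ℝ := (P.lam * P.F + P.dd * (P.f1 ^ 2 - P.f2 ^ 2)) * P.E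

variable (r nu mu : ℝ)

noncomputable def N : ℝ := (P.x ^ 2 + P.f2 ^ 2) * P.n4 + 4 * ((r - mu * P.E) * P.D ^ 2)
noncomputable def a1 : ℝ := P.x * P.A1 + P.f2 * P.A2
  + P.D * (4 * r * (4 * P.f1 + 1) - 16 * mu * P.E * P.f1)
noncomputable def a2 : ℝ := P.x * P.A2 - P.f2 * P.A1
  + P.D * (16 * r * P.f2 - 16 * mu * P.E * P.f2)
noncomputable def b1 : ℝ := 2 * (P.x * P.B1 + P.f2 * P.B2)
noncomputable def b2 : ℝ := 2 * (P.x * P.B2 - P.f2 * P.B1) + 4 * r * P.D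
noncomputable def Ca : ℝ := P.C0 + nu + 2 * (P.hu - P.hz) + r * (16 * P.F + 8 * P.f1)
  - 16 * mu * P.F * P.E
noncomputable def Cg : ℝ := P.C0 + nu - 2 * (P.hu - P.hz)
noncomputable def Cb : ℝ := P.hv + 4 * r * P.f2

noncomputable def p11 : ℝ := 4 * P.N r mu * P.Ca r nu mu - (P.a1 r mu ^ 2 + P.a2 r mu ^ 2)
noncomputable def p12 : ℝ := 4 * P.N r mu * P.Cb r
  - (P.a1 r mu * P.b1 + P.a2 r mu * P.b2 r)
noncomputable def p22 : ℝ := 4 * P.N r mu * P.Cg nu - (P.b1 ^ 2 + P.b2 r ^ 2)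

/-- the right side of the certificate -/
noncomputable def EE (y1 y2 s c : ℝ) : ℝ :=
  P.lam * P.F + P.dd * (P.f1 ^ 2 - P.f2 ^ 2)
    + (s ^ 2 * (P.n4 / (P.E * P.D ^ 2)) * (y1 ^ 2 + y2 ^ 2)
      - 2 * (c ^ 2 - s ^ 2) * (P.hu / P.E))
    + (s ^ 2 * (P.hwx / (P.E * P.D) * y1 + P.hwy / (P.E * P.D) * y2)
      + 2 * s * c * (P.htx / (P.E * P.D) * y1 + P.hty / (P.E * P.D) * y2))
    + (s ^ 2 * (-(P.hvx / (P.E * P.D)) * y2 + P.hvy / (P.E * P.D) * y1)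
      + 2 * s * c * (P.hv / P.E))
    + (2 * s * c * (-(P.hzx / (P.E * P.D)) * y2 + P.hzy / (P.E * P.D) * y1)
      + 2 * (c ^ 2 - s ^ 2) * (P.hz / P.E))

/-- `|v|²`, `v = 2f + q` -/
noncomputable def vv (q1 q2 : ℝ) : ℝ := (2 * P.f1 + q1) ^ 2 + (2 * P.f2 + q2) ^ 2
/-- `M = 4 s² |v|²` -/
noncomputable def MM (q1 q2 s : ℝ) : ℝ := 4 * s ^ 2 * P.vv q1 q2
/-- `δ = 4 s² (|v|² + Re v) + 4 s c Im v` -/
noncomputable def dl (q1 q2 s c : ℝ) : ℝ :=
  4 * s ^ 2 * (P.vv q1 q2 + (2 * P.f1 + q1)) + 4 * s * c * (2 * P.f2 + q2)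

lemma cond (hD : 0 < P.D) (hE : 0 < P.E) (hN : 0 < P.N r mu)
    (hq : ∀ s c : ℝ, 0 ≤ s → 0 ≤ c →
      0 ≤ P.p11 r nu mu * s ^ 2 + 2 * P.p12 r mu * (s * c) + P.p22 r nu mu * c ^ 2)
    {s c : ℝ} (hs : 0 ≤ s) (hc : 0 ≤ c) (h : s ^ 2 + c ^ 2 = 1) (q1 q2 : ℝ) :
    0 ≤ P.EE (P.x * q1 - P.f2 * q2) (P.x * q2 + P.f2 * q1) s c
      + r / P.E * P.dl q1 q2 s c - mu * P.MM q1 q2 s + nu / P.E := by
  have h0 := hq s c hs hc
  have key : 4 * P.N r mu * (P.E * P.D ^ 2) *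
      (P.EE (P.x * q1 - P.f2 * q2) (P.x * q2 + P.f2 * q1) s c
      + r / P.E * P.dl q1 q2 s c - mu * P.MM q1 q2 s + nu / P.E) =
      (2 * P.N r mu * (s * q1) + P.D * (s * P.a1 r mu + c * P.b1)) ^ 2
      + (2 * P.N r mu * (s * q2) + P.D * (s * P.a2 r mu + c * P.b2 r)) ^ 2
      + P.D ^ 2 * (P.p11 r nu mu * s ^ 2 + 2 * P.p12 r mu * (s * c) + P.p22 r nu mu * c ^ 2)
      + 4 * P.N r mu * P.D ^ 2 * (P.C0 + nu) * (1 - s ^ 2 - c ^ 2) := by
    have e1 : (P.E * P.D ^ 2) *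
        (P.EE (P.x * q1 - P.f2 * q2) (P.x * q2 + P.f2 * q1) s c
        + r / P.E * P.dl q1 q2 s c - mu * P.MM q1 q2 s + nu / P.E) =
        P.N r mu * ((s * q1) ^ 2 + (s * q2) ^ 2)
        + P.D * ((s * q1) * (s * P.a1 r mu + c * P.b1) + (s * q2) * (s * P.a2 r mu + c * P.b2 r))
        + P.D ^ 2 * (P.Ca r nu mu * s ^ 2 + 2 * P.Cb r * (s * c) + P.Cg nu * c ^ 2)
        + P.D ^ 2 * (P.C0 + nu) * (1 - s ^ 2 - c ^ 2) := by
      unfold EE MM dl vv N a1 a2 b1 b2 Ca Cb Cg A1 A2 B1 B2 C0 F x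
      have hD' := hD.ne'
      have hE' := hE.ne'
      field_simp
      ring
    unfold p11 p12 p22
    linear_combination 4 * P.N r mu * e1
  have hc0 : (1 - s ^ 2 - c ^ 2 : ℝ) = 0 := by linarith
  rw [hc0, mul_zero, add_zero] at key
  have hpos : 0 < 4 * P.N r mu * (P.E * P.D ^ 2) := by positivity
  refine nonneg_of_mul_nonneg_right ?_ hpos
  rw [key]
  positivity

end Pq

/-- the inside and the outside of the field `G(m) = g(|m|²) m`, `g = 2/(1+n)` for `n ≥ 1`,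
`g = (3-n)/2` for `n ≤ 1` -/
noncomputable def gg (n : ℝ) : ℝ := if n ≤ 1 then (3 - n) / 2 else 2 / (1 + n)

/-- outside: `T = g M - (1-g)(g n - 1)` -/
lemma out_le {n M E k σ : ℝ} (hn : 1 ≤ n) (h0 : σ ≤ E)
    (h1 : M + k ^ 2 - (2 * k - k ^ 2 + σ) / 2 * (n - 1) ≤ E) :
    2 / (1 + n) * M - (1 - 2 / (1 + n)) * (2 / (1 + n) * n - 1) ≤ E := by
  have hn' : 0 < 1 + n := by linarith
  -- weights g = 2/(1+n) on h1 and 1-g on h0
  have key : (1 + n) ^ 2 * (E - (2 / (1 + n) * M - (1 - 2 / (1 + n)) * (2 / (1 + n) * n - 1))) =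
      (1 + n) * (2 * (E - (M + k ^ 2 - (2 * k - k ^ 2 + σ) / 2 * (n - 1))) + (n - 1) * (E - σ))
      + ((1 - k) * (n - 1) - 2 * k) ^ 2 := by
    field_simp
    ring
  have hp : 0 < (1 + n) ^ 2 := by positivity
  have : 0 ≤ (1 + n) ^ 2 *
      (E - (2 / (1 + n) * M - (1 - 2 / (1 + n)) * (2 / (1 + n) * n - 1))) := by
    rw [key]
    have a1 : 0 ≤ E - (M + k ^ 2 - (2 * k - k ^ 2 + σ) / 2 * (n - 1)) := by linarith
    have a2 : 0 ≤ E - σ := by linarith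
    have a3 : 0 ≤ n - 1 := by linarith
    positivity
  have := nonneg_of_mul_nonneg_right this hp
  linarith

/-- inside -/
lemma in_le {n M E k σ c2 ρ2 : ℝ} (hn0 : 0 ≤ n) (hn : n ≤ 1)
    (h1 : M + k ^ 2 - (2 * k - k ^ 2 + σ) / 2 * (n - 1) ≤ E)
    (h2 : 3 / 2 * M - c2 - ρ2 * (n - 1) ≤ E)
    (hA : 0 ≤ (σ - 3 * k ^ 2) / 2 - c2)
    (hB : 0 ≤ (σ - 3 * k ^ 2) / 2 - c2 + (ρ2 - (2 * k - k ^ 2 + σ) / 2)) :
    (3 - n) / 2 * M - (1 - (3 - n) / 2) * ((3 - n) / 2 * n - 1) ≤ E := by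
  obtain ⟨e, rfl⟩ : ∃ e, n = 1 - e := ⟨1 - n, by ring⟩
  have he0 : 0 ≤ e := by linarith
  have he1 : e ≤ 1 := by linarith
  have key : E - ((3 - (1 - e)) / 2 * M
      - (1 - (3 - (1 - e)) / 2) * ((3 - (1 - e)) / 2 * (1 - e) - 1)) =
      (1 - e) * (E - (M + k ^ 2 - (2 * k - k ^ 2 + σ) / 2 * ((1 - e) - 1)))
      + e * (E - (3 / 2 * M - c2 - ρ2 * ((1 - e) - 1)))
      + (k + e / 2) ^ 2 + e ^ 3 / 4
      + e * ((1 - e) * ((σ - 3 * k ^ 2) / 2 - c2)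
        + e * ((σ - 3 * k ^ 2) / 2 - c2 + (ρ2 - (2 * k - k ^ 2 + σ) / 2))) := by
    ring
  have a1 : 0 ≤ E - (M + k ^ 2 - (2 * k - k ^ 2 + σ) / 2 * ((1 - e) - 1)) := by linarith
  have a2 : 0 ≤ E - (3 / 2 * M - c2 - ρ2 * ((1 - e) - 1)) := by linarith
  have a3 : 0 ≤ 1 - e := by linarith
  have : 0 ≤ E - ((3 - (1 - e)) / 2 * M
      - (1 - (3 - (1 - e)) / 2) * ((3 - (1 - e)) / 2 * (1 - e) - 1)) := by
    rw [key]; positivity
  linarith

end Pool.Agent.Helper71.EK3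

end

section


/-!
Certificates given by integer lists, centred at `X = 1`: the potentials, their derivatives,
and the polynomials of one condition.
-/

set_option autoImplicit false

open Complex

namespace Pool.Agent.Helper71.EK3

open Pool.EK71 Pool.Agent.Helper52.EK Pool.Agent.Helper2.EK Pool.Agent.Helper71.EK
open Pool.Agent.Helper71.EKC (Da Da_pos c1_Da c1_divA c1_unique d_mu d_sb d_sm dY_dX sb2 pw2 e_sb
  e_pw cL e_c)

/-- certificate data; the potentials are `|X-1|² N/(K D^k)`, `D = 1 + a|X|²`, where `N` is a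
polynomial in `(Re X - 1, Im X)` -/
structure C3 where
  a : ℕ
  k : ℕ
  K : ℕ
  lam : ℤ
  dd : ℤ
  U : BP
  V : BP
  Z : BP
  W : BP
  T : BP

/-! ### basic lists, variables `(f1, f2) = (Re X - 1, Im X)` -/

def xL : BP := [[1], [1]]
def uL : BP := [[], [1]]
def yL : BP := [[0, 1]]
def r2L : BP := [[1, 0, 1], [2], [1]]
def FL : BP := [[0, 0, 1], [], [1]]
def G2L : BP := [[0, 0, -1], [], [1]]
def DL (a : ℕ) : BP := [[Int.add 1 (Int.ofNat a), 0, Int.ofNat a], [Int.mul 2 (Int.ofNat a)],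
  [Int.ofNat a]]

section ev
variable (u y : ℝ)
lemma e_x : ev2 u y xL = 1 + u := by simp [ev2, ev1, xL]
lemma e_u : ev2 u y uL = u := by simp [ev2, ev1, uL]
lemma e_y : ev2 u y yL = y := by simp [ev2, ev1, yL]
lemma e_r2 : ev2 u y r2L = (1 + u) ^ 2 + y ^ 2 := by simp [ev2, ev1, r2L]; ring
lemma e_F : ev2 u y FL = u ^ 2 + y ^ 2 := by simp [ev2, ev1, FL]; ring
lemma e_G2 : ev2 u y G2L = u ^ 2 - y ^ 2 := by simp [ev2, ev1, G2L]; ring
lemma iadd_cast (a b : ℤ) : ((Int.add a b : ℤ) : ℝ) = a + b := by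
  show (((a + b : ℤ)) : ℝ) = _
  push_cast; ring
lemma ofNat_cast (a : ℕ) : ((Int.ofNat a : ℤ) : ℝ) = a := by simp
lemma e_D (a : ℕ) : ev2 u y (DL a) = Da a (1 + u) y := by
  simp only [ev2, ev1, DL, iadd_cast, imul_cast, ofNat_cast, Da]
  push_cast; ring
end ev

/-! ### formal derivatives, shifted -/

lemma c1_sh (P : BP) : C1f (fun X : ℂ => ev2 (X.re - 1) X.im P)
    (fun X => ev2 (X.re - 1) X.im (dX P)) (fun X => ev2 (X.re - 1) X.im (dY P)) := by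
  induction P with
  | nil =>
    refine c1_congr (c1_const 0) (fun X => ?_) (fun X => ?_) (fun X => ?_)
    · simp [ev2]
    · simp [dX, ev2]
    · simp [dY, ev2]
  | cons r P ih =>
    refine c1_congr (c1_add (c1_ev1 r) (c1_mul (c1_sub c1_re (c1_const 1)) ih)) (fun X => ?_)
      (fun X => ?_) (fun X => ?_)
    · simp only [ev2]
    · rw [dX_ev]; ring
    · simp only [dY, ev2]; ring

namespace C3

variable (C : C3)

/-- numerators of the derivatives of `P / D^j` -/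
def qx (j : ℕ) (P : BP) : BP :=
  sb2 (mu2 (DL C.a) (dX P)) (sm2 (Int.mul 2 (Int.mul (Int.ofNat j) (Int.ofNat C.a))) (mu2 xL P))
def qy (j : ℕ) (P : BP) : BP :=
  sb2 (mu2 (DL C.a) (dY P)) (sm2 (Int.mul 2 (Int.mul (Int.ofNat j) (Int.ofNat C.a))) (mu2 yL P))

def hL (N : BP) : BP := mu2 FL N
def gxL (N : BP) : BP := C.qx C.k (hL N)
def gyL (N : BP) : BP := C.qy C.k (hL N)
def n4L : BP := ad2 (C.qx (C.k + 1) (C.gxL C.U)) (C.qy (C.k + 1) (C.gyL C.U))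

lemma e_qx (j : ℕ) (P : BP) (u y : ℝ) : ev2 u y (C.qx j P) =
    ev2 u y (dX P) * Da C.a (1 + u) y - 2 * j * C.a * (1 + u) * ev2 u y P := by
  rw [qx, e_sb, ev2_mu, ev2_sm, ev2_mu, e_D, e_x, imul_cast, imul_cast, ofNat_cast, ofNat_cast]
  push_cast; ring

lemma e_qy (j : ℕ) (P : BP) (u y : ℝ) : ev2 u y (C.qy j P) =
    ev2 u y (dY P) * Da C.a (1 + u) y - 2 * j * C.a * y * ev2 u y P := by
  rw [qy, e_sb, ev2_mu, ev2_sm, ev2_mu, e_D, e_y, imul_cast, imul_cast, ofNat_cast, ofNat_cast]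
  push_cast; ring

theorem c1_q (j : ℕ) (P : BP) :
    C1f (fun X : ℂ => ev2 (X.re - 1) X.im P / C.K / Da C.a X.re X.im ^ j)
      (fun X => ev2 (X.re - 1) X.im (C.qx j P) / C.K / Da C.a X.re X.im ^ (j + 1))
      (fun X => ev2 (X.re - 1) X.im (C.qy j P) / C.K / Da C.a X.re X.im ^ (j + 1)) := by
  have h1 : C1f (fun X : ℂ => ev2 (X.re - 1) X.im P / C.K)
      (fun X => ev2 (X.re - 1) X.im (dX P) / C.K)
      (fun X => ev2 (X.re - 1) X.im (dY P) / C.K) := by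
    refine c1_congr (c1_mul (c1_const ((C.K : ℝ)⁻¹)) (c1_sh P)) ?_ ?_ ?_ <;> intro X <;>
      simp [div_eq_mul_inv] <;> ring
  have ex : ∀ X : ℂ, 1 + (X.re - 1) = X.re := fun X => by ring
  refine c1_congr (c1_divA C.a h1 j) (fun X => rfl) (fun X => ?_) (fun X => ?_)
  · rw [e_qx, ex, pow_succ]; ring
  · rw [e_qy, ex, pow_succ]; ring

/-! ### the potentials -/

noncomputable def pot (N : BP) (X : ℂ) : ℝ :=
  ev2 (X.re - 1) X.im (hL N) / C.K / Da C.a X.re X.im ^ C.k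
noncomputable def potx (N : BP) (X : ℂ) : ℝ :=
  ev2 (X.re - 1) X.im (C.gxL N) / C.K / Da C.a X.re X.im ^ (C.k + 1)
noncomputable def poty (N : BP) (X : ℂ) : ℝ :=
  ev2 (X.re - 1) X.im (C.gyL N) / C.K / Da C.a X.re X.im ^ (C.k + 1)
noncomputable def lap (X : ℂ) : ℝ :=
  ev2 (X.re - 1) X.im C.n4L / C.K / Da C.a X.re X.im ^ (C.k + 2)

theorem c1_pot (N : BP) : C1f (C.pot N) (C.potx N) (C.poty N) := C.c1_q C.k (hL N)

lemma e_dD (u y : ℝ) : ev2 u y (dX (DL C.a)) = 2 * C.a * (1 + u) ∧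
    ev2 u y (dY (DL C.a)) = 2 * C.a * y := by
  constructor
  · simp only [DL, dX, dx1, sm1, ev2, ev1, imul_cast, ofNat_cast]
    push_cast; ring
  · simp only [DL, dY, dyr, dy1, ev2, ev1, imul_cast, ofNat_cast]
    push_cast; ring

lemma e_dxy (u y : ℝ) : ev2 u y (dX xL) = 1 ∧ ev2 u y (dY xL) = 0 ∧ ev2 u y (dX yL) = 0 ∧
    ev2 u y (dY yL) = 1 := by
  refine ⟨?_, ?_, ?_, ?_⟩ <;> simp [xL, yL, dX, dY, dx1, dyr, dy1, sm1, ev2, ev1]

lemma q_comm (i j : ℕ) (P : BP) (u y : ℝ) :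
    ev2 u y (C.qy j (C.qx i P)) - ev2 u y (C.qx j (C.qy i P)) =
      (2 * i * C.a - 2 * j * C.a + 2 * C.a)
        * (y * ev2 u y (dX P) - (1 + u) * ev2 u y (dY P)) * Da C.a (1 + u) y := by
  rw [e_qy, e_qx C i P, e_qx C j (C.qy i P), e_qy C i P]
  have h1 : ev2 u y (dY (C.qx i P)) = (2 * C.a * y) * ev2 u y (dX P)
      + Da C.a (1 + u) y * ev2 u y (dX (dY P)) - 2 * i * C.a * (1 + u) * ev2 u y (dY P) := by
    rw [qx, (d_sb u y _ _).2, (d_mu u y _ _).2, (d_sm u y _ _).2, (d_mu u y _ _).2, (C.e_dD u y).2,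
      (e_dxy u y).2.1, e_D, e_x, dY_dX, imul_cast, imul_cast, ofNat_cast, ofNat_cast]
    push_cast; ring
  have h2 : ev2 u y (dX (C.qy i P)) = (2 * C.a * (1 + u)) * ev2 u y (dY P)
      + Da C.a (1 + u) y * ev2 u y (dX (dY P)) - 2 * i * C.a * y * ev2 u y (dX P) := by
    rw [qy, (d_sb u y _ _).1, (d_mu u y _ _).1, (d_sm u y _ _).1, (d_mu u y _ _).1, (C.e_dD u y).1,
      (e_dxy u y).2.2.1, e_D, e_y, imul_cast, imul_cast, ofNat_cast, ofNat_cast]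
    push_cast; ring
  rw [h1, h2]
  ring

theorem c2_U : C2f (C.pot C.U) (C.potx C.U) (C.poty C.U) C.lap := by
  refine ⟨C.c1_q C.k (hL C.U), _, _, _, C.c1_q (C.k + 1) (C.gxL C.U),
    c1_congr (C.c1_q (C.k + 1) (C.gyL C.U)) (fun _ => rfl)
      (W' := C.poty C.U) (Wx' := fun X => ev2 (X.re - 1) X.im (C.qy (C.k + 1) (C.gxL C.U)) / C.K
        / Da C.a X.re X.im ^ (C.k + 1 + 1)) (fun X => ?_) (fun _ => rfl), fun X => ?_⟩
  · show ev2 (X.re - 1) X.im (C.qy (C.k + 1) (C.gxL C.U)) / C.K / Da C.a X.re X.im ^ (C.k + 1 + 1)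
      = ev2 (X.re - 1) X.im (C.qx (C.k + 1) (C.gyL C.U)) / C.K / Da C.a X.re X.im ^ (C.k + 1 + 1)
    have h := C.q_comm C.k (C.k + 1) (hL C.U) (X.re - 1) X.im
    have h0 : (2 * (C.k : ℝ) * C.a - 2 * ((C.k + 1 : ℕ) : ℝ) * C.a + 2 * C.a) = 0 := by
      push_cast; ring
    rw [h0, zero_mul, zero_mul] at h
    rw [gxL, gyL, sub_eq_zero.1 h]
  · rw [lap, n4L, ev2_ad]; ring

/-- values at a point -/
noncomputable def pt (u y : ℝ) : Pq where
  f1 := u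
  f2 := y
  D := Da C.a (1 + u) y
  E := Da C.a (1 + u) y ^ C.k
  lam := C.lam / C.K
  dd := C.dd / C.K
  n4 := ev2 u y C.n4L / C.K
  hu := ev2 u y (hL C.U) / C.K
  hv := ev2 u y (hL C.V) / C.K
  hvx := ev2 u y (C.gxL C.V) / C.K
  hvy := ev2 u y (C.gyL C.V) / C.K
  hz := ev2 u y (hL C.Z) / C.K
  hzx := ev2 u y (C.gxL C.Z) / C.K
  hzy := ev2 u y (C.gyL C.Z) / C.K
  hwx := ev2 u y (C.gxL C.W) / C.K
  hwy := ev2 u y (C.gyL C.W) / C.K
  htx := ev2 u y (C.gxL C.T) / C.K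
  hty := ev2 u y (C.gyL C.T) / C.K

/-! ### the polynomials of one condition; `μ = m/2` -/

def D1 : BP := DL C.a
def EL : BP := pw2 (DL C.a) C.k
def KZ : ℤ := Int.ofNat C.K
def A1L : BP := ad2 (C.gxL C.W) (C.gyL C.V)
def A2L : BP := sb2 (C.gyL C.W) (C.gxL C.V)
def B1L : BP := ad2 (C.gxL C.T) (C.gyL C.Z)
def B2L : BP := sb2 (C.gyL C.T) (C.gxL C.Z)
def C0L : BP := mu2 (ad2 (sm2 C.lam FL) (sm2 C.dd G2L)) C.EL
def UZL : BP := sb2 (hL C.U) (hL C.Z)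
/-- `m K E` -/
def mE (m : ℤ) : BP := sm2 (Int.mul m C.KZ) C.EL

section cnd
variable (m : ℤ) (R Nu : BP)
def NL : BP :=
  ad2 (mu2 r2L C.n4L)
    (sm2 2 (mu2 (mu2 C.D1 C.D1) (sb2 (sm2 2 R) (C.mE m))))
def a1L : BP :=
  ad2 (ad2 (mu2 xL C.A1L) (mu2 yL C.A2L))
    (sm2 4 (mu2 C.D1 (ad2 R (mu2 uL (sb2 (sm2 4 R) (sm2 2 (C.mE m)))))))
def a2L : BP :=
  ad2 (sb2 (mu2 xL C.A2L) (mu2 yL C.A1L))
    (sm2 4 (mu2 C.D1 (mu2 yL (sb2 (sm2 4 R) (sm2 2 (C.mE m))))))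
def b1L : BP := sm2 2 (ad2 (mu2 xL C.B1L) (mu2 yL C.B2L))
def b2L : BP := ad2 (sm2 2 (sb2 (mu2 xL C.B2L) (mu2 yL C.B1L))) (sm2 4 (mu2 R C.D1))
def CaL : BP :=
  ad2 (ad2 C.C0L (ad2 Nu (sm2 2 C.UZL)))
    (sm2 8 (sb2 (mu2 R (ad2 (sm2 2 FL) uL)) (mu2 FL (C.mE m))))
def CgL : BP := sb2 (ad2 C.C0L Nu) (sm2 2 C.UZL)
def CbL : BP := ad2 (hL C.V) (sm2 4 (mu2 R yL))
def p11L : BP :=
  sb2 (sm2 4 (mu2 (C.NL m R) (C.CaL m R Nu)))
    (ad2 (mu2 (C.a1L m R) (C.a1L m R)) (mu2 (C.a2L m R) (C.a2L m R)))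
def p12L : BP :=
  sb2 (sm2 4 (mu2 (C.NL m R) (C.CbL R)))
    (ad2 (mu2 (C.a1L m R) C.b1L) (mu2 (C.a2L m R) (C.b2L R)))
def p22L : BP :=
  sb2 (sm2 4 (mu2 (C.NL m R) (C.CgL Nu)))
    (ad2 (mu2 C.b1L C.b1L) (mu2 (C.b2L R) (C.b2L R)))
def qL : BP := sb2 (C.NL m R) (cL 1)
end cnd

/-! ### values -/

section val
variable (u y : ℝ)

lemma v_D1 : ev2 u y C.D1 = (C.pt u y).D := by rw [D1, e_D]; rfl
lemma v_E : ev2 u y C.EL = (C.pt u y).E := by rw [EL, e_pw, e_D]; rfl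

variable {C} (hK : 0 < C.K)
include hK

lemma v_n4 : ev2 u y C.n4L = C.K * (C.pt u y).n4 := by
  have hK' : (C.K : ℝ) ≠ 0 := by exact_mod_cast hK.ne'
  show _ = (C.K : ℝ) * (ev2 u y C.n4L / C.K); field_simp
lemma v_A1 : ev2 u y C.A1L = C.K * (C.pt u y).A1 := by
  have hK' : (C.K : ℝ) ≠ 0 := by exact_mod_cast hK.ne'
  rw [A1L, ev2_ad]
  show _ = (C.K : ℝ) * (ev2 u y (C.gxL C.W) / C.K + ev2 u y (C.gyL C.V) / C.K); field_simp
lemma v_A2 : ev2 u y C.A2L = C.K * (C.pt u y).A2 := by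
  have hK' : (C.K : ℝ) ≠ 0 := by exact_mod_cast hK.ne'
  rw [A2L, e_sb]
  show _ = (C.K : ℝ) * (ev2 u y (C.gyL C.W) / C.K - ev2 u y (C.gxL C.V) / C.K); field_simp
lemma v_B1 : ev2 u y C.B1L = C.K * (C.pt u y).B1 := by
  have hK' : (C.K : ℝ) ≠ 0 := by exact_mod_cast hK.ne'
  rw [B1L, ev2_ad]
  show _ = (C.K : ℝ) * (ev2 u y (C.gxL C.T) / C.K + ev2 u y (C.gyL C.Z) / C.K); field_simp
lemma v_B2 : ev2 u y C.B2L = C.K * (C.pt u y).B2 := by
  have hK' : (C.K : ℝ) ≠ 0 := by exact_mod_cast hK.ne'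
  rw [B2L, e_sb]
  show _ = (C.K : ℝ) * (ev2 u y (C.gyL C.T) / C.K - ev2 u y (C.gxL C.Z) / C.K); field_simp
lemma v_UZ : ev2 u y C.UZL = C.K * ((C.pt u y).hu - (C.pt u y).hz) := by
  have hK' : (C.K : ℝ) ≠ 0 := by exact_mod_cast hK.ne'
  rw [UZL, e_sb]
  show _ = (C.K : ℝ) * (ev2 u y (hL C.U) / C.K - ev2 u y (hL C.Z) / C.K); field_simp
lemma v_V : ev2 u y (hL C.V) = C.K * (C.pt u y).hv := by
  have hK' : (C.K : ℝ) ≠ 0 := by exact_mod_cast hK.ne'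
  show _ = (C.K : ℝ) * (ev2 u y (hL C.V) / C.K); field_simp
lemma v_C0 : ev2 u y C.C0L = C.K * (C.pt u y).C0 := by
  have hK' : (C.K : ℝ) ≠ 0 := by exact_mod_cast hK.ne'
  rw [C0L, ev2_mu, ev2_ad, ev2_sm, ev2_sm, e_F, e_G2, v_E]
  show _ = (C.K : ℝ) * ((C.lam / C.K * (u ^ 2 + y ^ 2) + C.dd / C.K * (u ^ 2 - y ^ 2))
    * (C.pt u y).E)
  field_simp
lemma v_mE (m : ℤ) : ev2 u y (C.mE m) = C.K * (m * (C.pt u y).E) := by
  rw [mE, ev2_sm, v_E, imul_cast, KZ, ofNat_cast]; ring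

variable (m : ℤ) (R Nu : BP) {r nu : ℝ} (hr : ev2 u y R = C.K * r) (hnu : ev2 u y Nu = C.K * nu)
include hr

lemma v_N : ev2 u y (C.NL m R) = C.K * (C.pt u y).N r (m / 2) := by
  rw [NL, ev2_ad, ev2_mu, ev2_sm, ev2_mu, ev2_mu, e_sb, ev2_sm, e_r2, v_n4 u y hK, v_D1,
    v_mE u y hK, hr, Pq.N, Pq.x]
  show _ = (C.K : ℝ) * (((1 + u) ^ 2 + y ^ 2) * (C.pt u y).n4
    + 4 * ((r - m / 2 * (C.pt u y).E) * (C.pt u y).D ^ 2))
  push_cast; ring
lemma v_a1 : ev2 u y (C.a1L m R) = C.K * (C.pt u y).a1 r (m / 2) := by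
  rw [a1L, ev2_ad, ev2_ad, ev2_mu, ev2_mu, ev2_sm, ev2_mu, ev2_ad, ev2_mu, e_sb, ev2_sm, ev2_sm,
    e_x, e_y, e_u, v_A1 u y hK, v_A2 u y hK, v_D1, v_mE u y hK, hr, Pq.a1, Pq.x]
  show _ = (C.K : ℝ) * ((1 + u) * (C.pt u y).A1 + y * (C.pt u y).A2
    + (C.pt u y).D * (4 * r * (4 * u + 1) - 16 * (m / 2) * (C.pt u y).E * u))
  push_cast; ring
lemma v_a2 : ev2 u y (C.a2L m R) = C.K * (C.pt u y).a2 r (m / 2) := by
  rw [a2L, ev2_ad, e_sb, ev2_mu, ev2_mu, ev2_sm, ev2_mu, ev2_mu, e_sb, ev2_sm, ev2_sm,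
    e_x, e_y, v_A1 u y hK, v_A2 u y hK, v_D1, v_mE u y hK, hr, Pq.a2, Pq.x]
  show _ = (C.K : ℝ) * ((1 + u) * (C.pt u y).A2 - y * (C.pt u y).A1
    + (C.pt u y).D * (16 * r * y - 16 * (m / 2) * (C.pt u y).E * y))
  push_cast; ring
omit hr in
lemma v_b1 : ev2 u y C.b1L = C.K * (C.pt u y).b1 := by
  rw [b1L, ev2_sm, ev2_ad, ev2_mu, ev2_mu, e_x, e_y, v_B1 u y hK, v_B2 u y hK, Pq.b1, Pq.x]
  show _ = (C.K : ℝ) * (2 * ((1 + u) * (C.pt u y).B1 + y * (C.pt u y).B2))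
  push_cast; ring
lemma v_b2 : ev2 u y (C.b2L R) = C.K * (C.pt u y).b2 r := by
  rw [b2L, ev2_ad, ev2_sm, e_sb, ev2_mu, ev2_mu, ev2_sm, ev2_mu, e_x, e_y, v_B1 u y hK,
    v_B2 u y hK, v_D1, hr, Pq.b2, Pq.x]
  show _ = (C.K : ℝ) * (2 * ((1 + u) * (C.pt u y).B2 - y * (C.pt u y).B1)
    + 4 * r * (C.pt u y).D)
  push_cast; ring
lemma v_Cb : ev2 u y (C.CbL R) = C.K * (C.pt u y).Cb r := by
  rw [CbL, ev2_ad, ev2_sm, ev2_mu, e_y, v_V u y hK, hr, Pq.Cb]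
  show _ = (C.K : ℝ) * ((C.pt u y).hv + 4 * r * y)
  push_cast; ring
include hnu
lemma v_Ca : ev2 u y (C.CaL m R Nu) = C.K * (C.pt u y).Ca r nu (m / 2) := by
  rw [CaL, ev2_ad, ev2_ad, ev2_ad, ev2_sm, ev2_sm, e_sb, ev2_mu, ev2_mu, ev2_ad, ev2_sm, e_F,
    e_u, v_C0 u y hK, v_UZ u y hK, v_mE u y hK, hr, hnu, Pq.Ca, Pq.F]
  show _ = (C.K : ℝ) * ((C.pt u y).C0 + nu + 2 * ((C.pt u y).hu - (C.pt u y).hz)
    + r * (16 * (u ^ 2 + y ^ 2) + 8 * u) - 16 * (m / 2) * (u ^ 2 + y ^ 2) * (C.pt u y).E)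
  push_cast; ring
omit hr in
lemma v_Cg : ev2 u y (C.CgL Nu) = C.K * (C.pt u y).Cg nu := by
  rw [CgL, e_sb, ev2_ad, ev2_sm, v_C0 u y hK, v_UZ u y hK, hnu, Pq.Cg]
  push_cast; ring
lemma v_p11 : ev2 u y (C.p11L m R Nu) = C.K ^ 2 * (C.pt u y).p11 r nu (m / 2) := by
  rw [p11L, e_sb, ev2_sm, ev2_mu, ev2_ad, ev2_mu, ev2_mu, v_N u y hK m R hr,
    v_Ca u y hK m R Nu hr hnu, v_a1 u y hK m R hr, v_a2 u y hK m R hr, Pq.p11]
  push_cast; ring
omit hnu in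
lemma v_p12 : ev2 u y (C.p12L m R) = C.K ^ 2 * (C.pt u y).p12 r (m / 2) := by
  rw [p12L, e_sb, ev2_sm, ev2_mu, ev2_ad, ev2_mu, ev2_mu, v_N u y hK m R hr,
    v_Cb u y hK R hr, v_a1 u y hK m R hr, v_a2 u y hK m R hr, v_b1 u y hK, v_b2 u y hK R hr,
    Pq.p12]
  push_cast; ring
lemma v_p22 : ev2 u y (C.p22L m R Nu) = C.K ^ 2 * (C.pt u y).p22 r nu (m / 2) := by
  rw [p22L, e_sb, ev2_sm, ev2_mu, ev2_ad, ev2_mu, ev2_mu, v_N u y hK m R hr,
    v_Cg u y hK Nu hnu, v_b1 u y hK, v_b2 u y hK R hr, Pq.p22]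
  push_cast; ring
end val

end C3

end Pool.Agent.Helper71.EK3

end

section

set_option autoImplicit false
open Complex MeasureTheory Metric Set
open scoped Real ComplexConjugate

/-!
# Project EK3: null Lagrangians of first order (fields `a(η) F(X) q ^ j`, `q = X'/X`)

The field `A = a(η) F(X) g`, `g` analytic, `w = Re A`, `v = -Im A`, has `w_ξ + v_η` without the
derivative of `g`.
-/

namespace Pool.Agent.Helper69.EK3

open Pool.Agent.Helper52.EK Pool.Agent.Helper78.EK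

variable {P : (ℂ → ℂ) → ℝ → ℝ → Prop}

/-- the integrand of the field `a(η) F(X) g` -/
noncomputable def NG (a a₁ : ℝ → ℝ) (F Fx Fy : ℂ → ℂ) (X Y g : ℂ) (η : ℝ) : ℝ :=
  a η * ((Fx X + I * Fy X) * (g * conj Y)).re - a₁ η * (F X * g).im

theorem nullG_H {H Hx Hy : ℂ → ℂ} (hH : C1c H Hx Hy) {X g : ℂ → ℂ} {x₁ x₂ h : ℝ}
    (hx : x₁ ≤ x₂) (hh : 0 ≤ h) (hX : AnalyticOnNhd ℂ X (RectH x₁ x₂ h))
    (hne : ∀ ω ∈ RectH x₁ x₂ h, X ω ≠ 0) (hg : AnalyticOnNhd ℂ g (RectH x₁ x₂ h))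
    {χ χ₁ : ℝ → ℝ} (h1 : ∀ ξ, HasDerivAt χ (χ₁ ξ) ξ) (h1c : Continuous χ₁)
    (e1 : χ x₁ = 0) (e2 : χ x₂ = 0)
    {a a₁ : ℝ → ℝ} (g1 : ∀ η, HasDerivAt a (a₁ η) η) (g1c : Continuous a₁) (f1 : a 0 = 0) :
    IH x₁ x₂ h (fun ξ η => χ ξ * NG a a₁ H Hx Hy (X (pt ξ η)) (deriv X (pt ξ η)) (g (pt ξ η)) η) =
    (∫ ξ in x₁..x₂, χ ξ * (- (a h * (H (X (pt ξ h)) * g (pt ξ h)).im))) -
      IH x₁ x₂ h (fun ξ η => χ₁ ξ * (a η * (H (X (pt ξ η)) * g (pt ξ η)).re)) := by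
  have cχ : Continuous χ := continuous_iff_continuousAt.2 fun t => (h1 t).continuousAt
  have ca : Continuous a := continuous_iff_continuousAt.2 fun t => (g1 t).continuousAt
  have hX1 : AnalyticOnNhd ℂ (deriv X) (RectH x₁ x₂ h) := hX.deriv
  have cX := contH hX.continuousOn
  have cX1 := contH hX1.continuousOn
  have cg := contH hg.continuousOn
  have mX : MapsTo (fun p : ℝ × ℝ => X (pt p.1 p.2)) (Icc x₁ x₂ ×ˢ Icc 0 h) {X | X ≠ 0} :=
    fun p hp => hne _ (pt_mem_RectH hp.1 hp.2)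
  have cH : ContinuousOn (fun p : ℝ × ℝ => H (X (pt p.1 p.2))) (Icc x₁ x₂ ×ˢ Icc 0 h) :=
    hH.cont.comp cX mX
  have cHx : ContinuousOn (fun p : ℝ × ℝ => Hx (X (pt p.1 p.2))) (Icc x₁ x₂ ×ˢ Icc 0 h) :=
    hH.cx.comp cX mX
  have cHy : ContinuousOn (fun p : ℝ × ℝ => Hy (X (pt p.1 p.2))) (Icc x₁ x₂ ×ˢ Icc 0 h) :=
    hH.cy.comp cX mX
  have i1 : ContinuousOn (fun p : ℝ × ℝ => χ p.1) (Icc x₁ x₂ ×ˢ Icc 0 h) := by fun_prop
  have i1' : ContinuousOn (fun p : ℝ × ℝ => χ₁ p.1) (Icc x₁ x₂ ×ˢ Icc 0 h) := by fun_prop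
  have i2 : ContinuousOn (fun p : ℝ × ℝ => a p.2) (Icc x₁ x₂ ×ˢ Icc 0 h) := by fun_prop
  have i3 : ContinuousOn (fun p : ℝ × ℝ => a₁ p.2) (Icc x₁ x₂ ×ˢ Icc 0 h) := by fun_prop
  have cHY : ContinuousOn (fun p : ℝ × ℝ => H (X (pt p.1 p.2)) * g (pt p.1 p.2))
      (Icc x₁ x₂ ×ˢ Icc 0 h) := cH.mul cg
  have cre : ContinuousOn (fun p : ℝ × ℝ => (H (X (pt p.1 p.2)) * g (pt p.1 p.2)).re)
      (Icc x₁ x₂ ×ˢ Icc 0 h) := Complex.continuous_re.comp_continuousOn cHY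
  have cim : ContinuousOn (fun p : ℝ × ℝ => (H (X (pt p.1 p.2)) * g (pt p.1 p.2)).im)
      (Icc x₁ x₂ ×ˢ Icc 0 h) := Complex.continuous_im.comp_continuousOn cHY
  have ccY : ContinuousOn (fun p : ℝ × ℝ => conj (deriv X (pt p.1 p.2)))
      (Icc x₁ x₂ ×ˢ Icc 0 h) := Complex.continuous_conj.comp_continuousOn cX1
  have cA : ContinuousOn (fun p : ℝ × ℝ => χ p.1 *
      NG a a₁ H Hx Hy (X (pt p.1 p.2)) (deriv X (pt p.1 p.2)) (g (pt p.1 p.2)) p.2)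
      (Icc x₁ x₂ ×ˢ Icc 0 h) := by
    unfold NG
    exact i1.mul ((i2.mul (Complex.continuous_re.comp_continuousOn
      ((cHx.add (continuousOn_const.mul cHy)).mul (cg.mul ccY)))).sub (i3.mul cim))
  have cB : ContinuousOn (fun p : ℝ × ℝ => χ₁ p.1 * (a p.2 *
      (H (X (pt p.1 p.2)) * g (pt p.1 p.2)).re)) (Icc x₁ x₂ ×ˢ Icc 0 h) :=
    i1'.mul (i2.mul cre)
  have hmem : ∀ p ∈ Ioo x₁ x₂ ×ˢ Ioo 0 h, pt p.1 p.2 ∈ RectH x₁ x₂ h := by
    rintro ⟨x, y⟩ ⟨hx', hy'⟩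
    exact pt_mem_RectH (Ioo_subset_Icc_self hx') (Ioo_subset_Icc_self hy')
  have dχ : ∀ p : ℝ × ℝ, HasFDerivAt (fun q : ℝ × ℝ => χ q.1)
      (χ₁ p.1 • ContinuousLinearMap.fst ℝ ℝ ℝ) p := fun p =>
    (h1 p.1).comp_hasFDerivAt p hasFDerivAt_fst
  have da : ∀ p : ℝ × ℝ, HasFDerivAt (fun q : ℝ × ℝ => a q.2)
      (a₁ p.2 • ContinuousLinearMap.snd ℝ ℝ ℝ) p := fun p =>
    (g1 p.2).comp_hasFDerivAt p hasFDerivAt_snd
  have dH : ∀ p : ℝ × ℝ, pt p.1 p.2 ∈ RectH x₁ x₂ h →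
      HasFDerivAt (fun q : ℝ × ℝ => H (X (pt q.1 q.2)))
        ((reCLM.smulRight (Hx (X (pt p.1 p.2))) + imCLM.smulRight (Hy (X (pt p.1 p.2)))).comp
          (Lc (deriv X (pt p.1 p.2)))) p := by
    intro p hp
    exact HasFDerivAt.comp (g := H) p (hH.hd _ (hne _ hp))
      (hasFDerivAt_X (hX _ hp).differentiableAt)
  have dg : ∀ p : ℝ × ℝ, pt p.1 p.2 ∈ RectH x₁ x₂ h →
      HasFDerivAt (fun q : ℝ × ℝ => g (pt q.1 q.2)) (Lc (deriv g (pt p.1 p.2))) p := fun p hp =>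
    hasFDerivAt_X (hg _ hp).differentiableAt
  have dF := fun (p : ℝ × ℝ) (hp : pt p.1 p.2 ∈ RectH x₁ x₂ h) =>
    (dχ p).fun_mul ((da p).fun_mul (reCLM.hasFDerivAt.comp p ((dH p hp).fun_mul (dg p hp))))
  have dG := fun (p : ℝ × ℝ) (hp : pt p.1 p.2 ∈ RectH x₁ x₂ h) =>
    (dχ p).fun_mul ((da p).fun_mul (imCLM.hasFDerivAt.comp p ((dH p hp).fun_mul (dg p hp)))).fun_neg
  have cF : ContinuousOn (fun q : ℝ × ℝ => χ q.1 * (a q.2 *
      reCLM (H (X (pt q.1 q.2)) * g (pt q.1 q.2)))) (Icc x₁ x₂ ×ˢ Icc 0 h) :=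
    i1.mul (i2.mul cre)
  have cG : ContinuousOn (fun q : ℝ × ℝ => χ q.1 * -(a q.2 *
      imCLM (H (X (pt q.1 q.2)) * g (pt q.1 q.2)))) (Icc x₁ x₂ ×ˢ Icc 0 h) :=
    i1.mul (i2.mul cim).neg
  have cD := cA.fun_add cB
  have main := div_top hx hh (Rp := RectH x₁ x₂ h) hmem cF cG cD dF dG (by
    rintro ⟨x, y⟩
    simp only [NG, _root_.add_apply, _root_.neg_apply,
      _root_.smul_apply, ContinuousLinearMap.comp_apply, Lc_10, Lc_01,
      ContinuousLinearMap.coe_fst', ContinuousLinearMap.coe_snd', smul_eq_mul, reCLM_apply,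
      imCLM_apply, mul_re, mul_im, I_re, I_im, add_re, add_im, conj_re, conj_im,
      ContinuousLinearMap.smulRight_apply, real_smul, ofReal_re, ofReal_im, Function.comp]
    ring)
    (fun x => by simp [f1]) (fun y => by simp [e2])
    (fun y => by simp [e1])
  have h3 := IH_add hx hh (F := fun ξ η => χ ξ *
      NG a a₁ H Hx Hy (X (pt ξ η)) (deriv X (pt ξ η)) (g (pt ξ η)) η)
    (G := fun ξ η => χ₁ ξ * (a η * (H (X (pt ξ η)) * g (pt ξ η)).re)) cA cB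
  have h4 : IH x₁ x₂ h (fun ξ η => χ ξ *
      NG a a₁ H Hx Hy (X (pt ξ η)) (deriv X (pt ξ η)) (g (pt ξ η)) η +
      χ₁ ξ * (a η * (H (X (pt ξ η)) * g (pt ξ η)).re)) =
      ∫ ξ in x₁..x₂, χ ξ * (- (a h * (H (X (pt ξ h)) * g (pt ξ h)).im)) := by
    refine Eq.trans ?_ (main.trans ?_)
    · rfl
    · rfl
  rw [h3] at h4
  linarith

/-- the null Lagrangian of the field `a(η) F(X) (X'/X) ^ j` -/
theorem isNull_P {H Hx Hy : ℂ → ℂ} (hH : C1c H Hx Hy) (j : ℕ) {a a₁ : ℝ → ℝ}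
    (g1 : ∀ η, HasDerivAt a (a₁ η) η) (g1c : Continuous a₁) (f1 : a 0 = 0) {C C₀ M : ℝ}
    (hC : 0 ≤ C) (hC₀ : 0 ≤ C₀) (hM : 0 ≤ M)
    (ha : ∀ η ∈ Icc (0:ℝ) (π / 2), |a η| ≤ M * Real.sin η ^ j)
    (bF : ∀ X : ℂ, ‖H X‖ ≤ C * (1 + ‖X - 1‖ ^ 2))
    (hq : ∀ (X : ℂ → ℂ) (x₁ x₂ : ℝ), x₁ ≤ x₂ → NiceH X x₁ x₂ → P X x₁ x₂ →
      ∀ ξ ∈ Icc x₁ x₂, ∀ η ∈ Icc (0:ℝ) (π / 2),
        Real.sin η * ‖deriv X (pt ξ η) / X (pt ξ η)‖ ≤ C₀) :
    IsNull P (fun X Y η => NG a a₁ H Hx Hy X Y ((Y / X) ^ j) η)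
      (fun X Y => - (a (π / 2) * (H X * (Y / X) ^ j).im)) := by
  have ca : Continuous a := continuous_iff_continuousAt.2 fun t => (g1 t).continuousAt
  have j1 : ContinuousOn (fun p : ℂ × ℂ × ℝ => H p.1) {p | p.1 ≠ 0} :=
    hH.cont.comp continuous_fst.continuousOn fun p hp => hp
  have j2 : ContinuousOn (fun p : ℂ × ℂ × ℝ => Hx p.1) {p | p.1 ≠ 0} :=
    hH.cx.comp continuous_fst.continuousOn fun p hp => hp
  have j3 : ContinuousOn (fun p : ℂ × ℂ × ℝ => Hy p.1) {p | p.1 ≠ 0} :=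
    hH.cy.comp continuous_fst.continuousOn fun p hp => hp
  have j4 : ContinuousOn (fun p : ℂ × ℂ => H p.1) {p | p.1 ≠ 0} :=
    hH.cont.comp continuous_fst.continuousOn fun p hp => hp
  refine ⟨?_, ?_, fun k hk => ?_⟩
  · have e1 : ContinuousOn (fun p : ℂ × ℂ × ℝ => a p.2.2) {p | p.1 ≠ 0} := by fun_prop
    have e2 : ContinuousOn (fun p : ℂ × ℂ × ℝ => a₁ p.2.2) {p | p.1 ≠ 0} := by fun_prop
    have e0 : ContinuousOn (fun p : ℂ × ℂ × ℝ => p.1) {p | p.1 ≠ 0} := by fun_prop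
    have e3 : ContinuousOn (fun p : ℂ × ℂ × ℝ => p.2.1) {p | p.1 ≠ 0} := by fun_prop
    have e4 : ContinuousOn (fun p : ℂ × ℂ × ℝ => (p.2.1 / p.1) ^ j) {p | p.1 ≠ 0} :=
      (e3.div e0 fun p hp => hp).pow j
    have e5 : ContinuousOn (fun p : ℂ × ℂ × ℝ => conj p.2.1) {p | p.1 ≠ 0} :=
      Complex.continuous_conj.comp_continuousOn e3
    unfold NG
    exact (e1.mul (Complex.continuous_re.comp_continuousOn
      ((j2.add (continuousOn_const.mul j3)).mul (e4.mul e5)))).sub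
      (e2.mul (Complex.continuous_im.comp_continuousOn (j1.mul e4)))
  · have e0 : ContinuousOn (fun p : ℂ × ℂ => p.1) {p | p.1 ≠ 0} := by fun_prop
    have e3 : ContinuousOn (fun p : ℂ × ℂ => p.2) {p | p.1 ≠ 0} := by fun_prop
    have e4 : ContinuousOn (fun p : ℂ × ℂ => (p.2 / p.1) ^ j) {p | p.1 ≠ 0} :=
      (e3.div e0 fun p hp => hp).pow j
    exact (continuousOn_const.mul (Complex.continuous_im.comp_continuousOn (j4.mul e4))).neg
  · refine ⟨M * (C * C₀ ^ j) * (π / 2 * (2 * k) + k), fun X x₁ x₂ l χ χ₁ χ₂ hl hx hc hX hP => ?_⟩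
    have hx12 : x₁ ≤ x₂ := by linarith
    have hpi : (0:ℝ) ≤ π / 2 := by positivity
    have hg : AnalyticOnNhd ℂ (fun ω => (deriv X ω / X ω) ^ j) (RectH x₁ x₂ (π / 2)) :=
      fun ω hω => ((hX.an.deriv ω hω).div (hX.an ω hω) (hX.ne ω hω)).pow j
    have h1 := nullG_H hH hx12 hpi hX.an hX.ne hg hc.d1 hc.cont1 hc.e1 hc.e2 g1 g1c f1
    rw [h1]
    have n1 : CH x₁ x₂ (π / 2) (fun ξ η => ‖X (pt ξ η) - 1‖ ^ 2) :=
      CH_comp hX.an.continuousOn (W := fun X => ‖X - 1‖ ^ 2) (by fun_prop)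
    have cX := contH hX.an.continuousOn
    have cg := contH hg.continuousOn
    have cH : ContinuousOn (fun p : ℝ × ℝ => H (X (pt p.1 p.2))) (Icc x₁ x₂ ×ˢ Icc 0 (π / 2)) :=
      hH.cont.comp cX fun p hp => hX.ne _ (pt_mem_RectH hp.1 hp.2)
    have cF : CH x₁ x₂ (π / 2) (fun ξ η => χ₁ ξ *
        (a η * (H (X (pt ξ η)) * (deriv X (pt ξ η) / X (pt ξ η)) ^ j).re)) :=
      (CH_xi hc.cont1).mul ((CH_eta ca).mul
        (Complex.continuous_re.comp_continuousOn (cH.mul cg)))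
    have hA : 0 ≤ M * (C * C₀ ^ j) := by positivity
    have h2 := IH_err hx12 hpi (N := fun ξ η => ‖X (pt ξ η) - 1‖ ^ 2) (A := M * (C * C₀ ^ j)) hA
      hc.cont1 cF n1 (fun _ _ _ _ => sq_nonneg _) hc.k1 hc.i1 (by
        intro ξ hξ η hη
        rw [abs_mul]
        refine mul_le_mul_of_nonneg_left ?_ (abs_nonneg _)
        have hq1 := hq X x₁ x₂ hx12 hX hP ξ hξ η hη
        have hs : 0 ≤ Real.sin η := Real.sin_nonneg_of_nonneg_of_le_pi hη.1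
          (hη.2.trans (by linarith [Real.pi_pos]))
        obtain ⟨Z, hZ⟩ : ∃ Z, Z = X (pt ξ η) := ⟨_, rfl⟩
        obtain ⟨Y, hY⟩ : ∃ Y, Y = deriv X (pt ξ η) := ⟨_, rfl⟩
        rw [← hZ, ← hY] at hq1 ⊢
        rw [abs_mul]
        have h2 : |(H Z * (Y / Z) ^ j).re| ≤ ‖H Z‖ * ‖Y / Z‖ ^ j := by
          rw [← norm_pow, ← norm_mul]
          exact abs_re_le_norm _
        have h3 : (Real.sin η * ‖Y / Z‖) ^ j ≤ C₀ ^ j :=
          pow_le_pow_left₀ (mul_nonneg hs (norm_nonneg _)) hq1 j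
        calc |a η| * |(H Z * (Y / Z) ^ j).re| ≤ (M * Real.sin η ^ j) * (‖H Z‖ * ‖Y / Z‖ ^ j) :=
              mul_le_mul (ha η hη) h2 (abs_nonneg _) (mul_nonneg hM (pow_nonneg hs j))
          _ = M * (‖H Z‖ * (Real.sin η * ‖Y / Z‖) ^ j) := by rw [mul_pow]; ring
          _ ≤ M * ((C * (1 + ‖Z - 1‖ ^ 2)) * C₀ ^ j) := by
              refine mul_le_mul_of_nonneg_left ?_ hM
              exact mul_le_mul (bF Z) h3 (pow_nonneg (mul_nonneg hs (norm_nonneg _)) j)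
                (mul_nonneg hC (by positivity))
          _ = M * (C * C₀ ^ j) * (1 + ‖Z - 1‖ ^ 2) := by ring)
    have h3 : ∀ A B : ℝ, A - B - A = -B := fun A B => by ring
    rw [h3, abs_neg]
    refine h2.trans ?_
    have hE := En_nonneg (X := X) hx12
    have e : k / l * IH x₁ x₂ (π / 2) (fun ξ η => ‖X (pt ξ η) - 1‖ ^ 2) =
        k * (En X x₁ x₂ / l) := by
      unfold En
      ring
    rw [e, mul_assoc (M * (C * C₀ ^ j))]
    refine mul_le_mul_of_nonneg_left ?_ hA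
    have hE' : 0 ≤ En X x₁ x₂ / l := div_nonneg hE (by linarith)
    nlinarith [mul_nonneg (mul_nonneg hpi (mul_nonneg zero_le_two hk)) hE']

end Pool.Agent.Helper69.EK3

end

section

set_option autoImplicit false
open Complex MeasureTheory Metric Set
open scoped Real ComplexConjugate

/-!
# Project EK3: rational functions `P(X) / D ^ j`, `D = 1 + a |X|²`, given by integer lists
-/

namespace Pool.Agent.Helper69.EK3

open Pool.EK71 Pool.Agent.Helper52.EK Pool.Agent.Helper2.EK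
open Pool.Agent.Helper71.EK3 Pool.Agent.Helper71.EKC

/-- base record -/
def cb (a : ℕ) : C3 := ⟨a, 0, 1, 0, 0, [], [], [], [], []⟩

/-- numerators of the derivatives of `P / D ^ j` -/
def qX (a j : ℕ) (P : BP) : BP := (cb a).qx j P
def qY (a j : ℕ) (P : BP) : BP := (cb a).qy j P

/-- `P / D ^ j` at `X`; the variables of `P` are `Re X - 1` and `Im X` -/
noncomputable def Rr (a j : ℕ) (P : BP) (X : ℂ) : ℝ :=
  ev2 (X.re - 1) X.im P / Da a X.re X.im ^ j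

theorem qX_ev (a j : ℕ) (P : BP) (u y : ℝ) : ev2 u y (qX a j P) =
    ev2 u y (dX P) * Da a (1 + u) y - 2 * j * a * (1 + u) * ev2 u y P := (cb a).e_qx j P u y

theorem qY_ev (a j : ℕ) (P : BP) (u y : ℝ) : ev2 u y (qY a j P) =
    ev2 u y (dY P) * Da a (1 + u) y - 2 * j * a * y * ev2 u y P := (cb a).e_qy j P u y

theorem c1_Rr (a j : ℕ) (P : BP) :
    C1f (Rr a j P) (Rr a (j + 1) (qX a j P)) (Rr a (j + 1) (qY a j P)) := by
  have h := (cb a).c1_q j P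
  refine c1_congr h (fun X => ?_) (fun X => ?_) (fun X => ?_) <;>
    simp [Rr, qX, qY, cb]

/-- numerator of the Laplacian of `P / D ^ j` over `D ^ (j + 2)` -/
def qL (a j : ℕ) (P : BP) : BP := ad2 (qX a (j + 1) (qX a j P)) (qY a (j + 1) (qY a j P))

theorem q_comm' (a j : ℕ) (P : BP) (u y : ℝ) :
    ev2 u y (qY a (j + 1) (qX a j P)) = ev2 u y (qX a (j + 1) (qY a j P)) := by
  have h := (cb a).q_comm j (j + 1) P u y
  have h0 : (2 * (j : ℝ) * ((cb a).a : ℝ) - 2 * ((j + 1 : ℕ) : ℝ) * ((cb a).a : ℝ) +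
      2 * ((cb a).a : ℝ)) = 0 := by
    push_cast; ring
  rw [h0, zero_mul, zero_mul] at h
  exact sub_eq_zero.1 h

theorem c2_Rr (a j : ℕ) (P : BP) :
    C2f (Rr a j P) (Rr a (j + 1) (qX a j P)) (Rr a (j + 1) (qY a j P))
      (Rr a (j + 2) (qL a j P)) := by
  refine ⟨c1_Rr a j P, _, _, _, c1_Rr a (j + 1) (qX a j P),
    c1_congr (c1_Rr a (j + 1) (qY a j P)) (fun _ => rfl)
      (W' := Rr a (j + 1) (qY a j P))
      (Wx' := Rr a (j + 1 + 1) (qY a (j + 1) (qX a j P))) (fun X => ?_) (fun _ => rfl),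
      fun X => ?_⟩
  · unfold Rr
    rw [q_comm']
  · unfold Rr
    rw [qL, ev2_ad]
    ring

/-! ### growth -/

/-- total degree at most `d` -/
def dle : ℕ → BP → Bool
  | _, [] => true
  | 0, r :: P => decide (r.length ≤ 1) && (P.all fun r => decide (r.length = 0))
  | d + 1, r :: P => decide (r.length ≤ d + 2) && dle d P

/-- sums of the absolute values of the coefficients -/
noncomputable def nr1 : List ℤ → ℝ
  | [] => 0
  | c :: r => |(c : ℝ)| + nr1 r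

noncomputable def nr2 : BP → ℝ
  | [] => 0
  | r :: P => nr1 r + nr2 P

theorem nr1_nonneg (r : List ℤ) : 0 ≤ nr1 r := by
  induction r with
  | nil => simp [nr1]
  | cons c r ih =>
    simp only [nr1]
    positivity

theorem nr2_nonneg (P : BP) : 0 ≤ nr2 P := by
  induction P with
  | nil => simp [nr2]
  | cons r P ih =>
    simp only [nr2]
    exact add_nonneg (nr1_nonneg r) ih

theorem ev1_le {T y : ℝ} (hT : 1 ≤ T) (hy : |y| ≤ T) (d : ℕ) (r : List ℤ) (h : r.length ≤ d + 1) :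
    |ev1 y r| ≤ nr1 r * T ^ d := by
  induction r generalizing d with
  | nil => simp [ev1, nr1]
  | cons c r ih =>
    simp only [ev1, nr1]
    have hT0 : 0 ≤ T := by linarith
    have hTd : 1 ≤ T ^ d := one_le_pow₀ hT
    have h1 := abs_add_le (c : ℝ) (y * ev1 y r)
    rw [abs_mul] at h1
    have h2 : |y| * |ev1 y r| ≤ nr1 r * T ^ d := by
      cases r with
      | nil => simp [ev1, nr1]
      | cons c' r' =>
        cases d with
        | zero => simp at h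
        | succ d =>
          have h3 := ih d (by simp only [List.length_cons] at h ⊢; omega)
          calc |y| * |ev1 y (c' :: r')| ≤ T * (nr1 (c' :: r') * T ^ d) :=
                mul_le_mul hy h3 (abs_nonneg _) hT0
            _ = _ := by rw [pow_succ]; ring
    have h4 : |(c : ℝ)| ≤ |(c : ℝ)| * T ^ d := le_mul_of_one_le_right (abs_nonneg _) hTd
    have e : (|(c : ℝ)| + nr1 r) * T ^ d = |(c : ℝ)| * T ^ d + nr1 r * T ^ d := by ring
    rw [e]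
    linarith

theorem ev2_zero (x y : ℝ) (P : BP) (h : (P.all fun r => decide (r.length = 0)) = true) :
    ev2 x y P = 0 := by
  induction P with
  | nil => simp [ev2]
  | cons r P ih =>
    simp only [List.all_cons, Bool.and_eq_true, decide_eq_true_eq] at h
    have hr : r = [] := List.length_eq_zero_iff.1 h.1
    simp only [ev2, hr, ev1, ih h.2]
    ring

theorem ev2_le' {T x y : ℝ} (hT : 1 ≤ T) (hx : |x| ≤ T) (hy : |y| ≤ T) (d : ℕ) (P : BP)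
    (h : dle d P = true) : |ev2 x y P| ≤ nr2 P * T ^ d := by
  have hT0 : 0 ≤ T := by linarith
  induction P generalizing d with
  | nil => simp [ev2, nr2]
  | cons r P ih =>
    cases d with
    | zero =>
      simp only [dle, Bool.and_eq_true, decide_eq_true_eq] at h
      have h1 := ev1_le hT hy 0 r (by omega)
      have h2 := ev2_zero x y P h.2
      simp only [ev2, h2, mul_zero, add_zero, nr2]
      refine h1.trans ?_
      have h3 : 0 ≤ nr2 P := nr2_nonneg P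
      simp only [pow_zero, mul_one]
      linarith
    | succ d =>
      simp only [dle, Bool.and_eq_true, decide_eq_true_eq] at h
      have h1 := ev1_le hT hy (d + 1) r (by omega)
      have h2 := ih d h.2
      have h3 := abs_add_le (ev1 y r) (x * ev2 x y P)
      rw [abs_mul] at h3
      have h4 : |x| * |ev2 x y P| ≤ T * (nr2 P * T ^ d) := mul_le_mul hx h2 (abs_nonneg _) hT0
      simp only [ev2, nr2]
      refine h3.trans ?_
      have e : (nr1 r + nr2 P) * T ^ (d + 1) = nr1 r * T ^ (d + 1) + T * (nr2 P * T ^ d) := by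
        rw [pow_succ]
        ring
      rw [e]
      linarith

theorem Da_ge {a : ℕ} (ha : 1 ≤ a) (X : ℂ) : 1 + ‖X - 1‖ ^ 2 ≤ 3 * Da a X.re X.im := by
  have ha' : (1:ℝ) ≤ a := by exact_mod_cast ha
  have e : ‖X - 1‖ ^ 2 = (X.re - 1) ^ 2 + X.im ^ 2 := by
    rw [← normSq_eq_norm_sq, normSq_apply]
    simp
    ring
  rw [e]
  unfold Da
  nlinarith [sq_nonneg (X.re + 1), sq_nonneg X.re, sq_nonneg X.im,
    mul_nonneg (sub_nonneg.mpr ha') (add_nonneg (sq_nonneg X.re) (sq_nonneg X.im))]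

theorem Rr_le {a : ℕ} (ha : 1 ≤ a) (j : ℕ) (P : BP) (h : dle (2 * j + 2) P = true) :
    ∃ C : ℝ, 0 ≤ C ∧ ∀ X : ℂ, |Rr a j P X| ≤ C * (1 + ‖X - 1‖ ^ 2) := by
  refine ⟨nr2 P * 3 ^ j, mul_nonneg (nr2_nonneg P) (by positivity), fun X => ?_⟩
  have e : ‖X - 1‖ ^ 2 = (X.re - 1) ^ 2 + X.im ^ 2 := by
    rw [← normSq_eq_norm_sq, normSq_apply]
    simp
    ring
  obtain ⟨T, hT⟩ : ∃ T, T = Real.sqrt (1 + ‖X - 1‖ ^ 2) := ⟨_, rfl⟩
  have hT2 : T ^ 2 = 1 + ‖X - 1‖ ^ 2 := by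
    rw [hT]
    exact Real.sq_sqrt (by positivity)
  have hT0 : 0 ≤ T := by rw [hT]; exact Real.sqrt_nonneg _
  have hT1 : 1 ≤ T := by
    have : (1:ℝ) ^ 2 ≤ T ^ 2 := by rw [hT2]; nlinarith [sq_nonneg ‖X - 1‖]
    exact le_of_sq_le_sq this hT0
  have hx : |X.re - 1| ≤ T := by
    refine le_of_sq_le_sq ?_ hT0
    rw [sq_abs, hT2, e]
    nlinarith [sq_nonneg X.im]
  have hy : |X.im| ≤ T := by
    refine le_of_sq_le_sq ?_ hT0
    rw [sq_abs, hT2, e]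
    nlinarith [sq_nonneg (X.re - 1)]
  have h1 := ev2_le' hT1 hx hy _ P h
  have hD := Da_ge ha X
  have hDp := Da_pos a X.re X.im
  unfold Rr
  rw [abs_div, abs_of_pos (pow_pos hDp j), div_le_iff₀ (pow_pos hDp j)]
  refine h1.trans ?_
  have e2 : T ^ (2 * j + 2) = (1 + ‖X - 1‖ ^ 2) ^ j * (1 + ‖X - 1‖ ^ 2) := by
    rw [pow_add, pow_mul, hT2]
  rw [e2]
  have h3 : (1 + ‖X - 1‖ ^ 2) ^ j ≤ (3 * Da a X.re X.im) ^ j :=
    pow_le_pow_left₀ (by positivity) hD j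
  rw [mul_pow] at h3
  have h4 : (1 + ‖X - 1‖ ^ 2) ^ j * (1 + ‖X - 1‖ ^ 2) ≤
      (3 ^ j * Da a X.re X.im ^ j) * (1 + ‖X - 1‖ ^ 2) :=
    mul_le_mul_of_nonneg_right h3 (by positivity)
  calc nr2 P * ((1 + ‖X - 1‖ ^ 2) ^ j * (1 + ‖X - 1‖ ^ 2)) ≤
        nr2 P * ((3 ^ j * Da a X.re X.im ^ j) * (1 + ‖X - 1‖ ^ 2)) :=
        mul_le_mul_of_nonneg_left h4 (nr2_nonneg P)
    _ = _ := by ring

/-! ### complex versions -/

theorem C1c_real {W Wx Wy : ℂ → ℝ} (h : C1f W Wx Wy) :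
    C1c (fun X => (W X : ℂ)) (fun X => (Wx X : ℂ)) (fun X => (Wy X : ℂ)) := by
  refine ⟨fun X _ => ?_, ?_, ?_⟩
  · have h1 := ofRealCLM.hasFDerivAt.comp X (h.hd X)
    refine h1.congr_fderiv ?_
    ext v
    simp
    ring
  · exact (Complex.continuous_ofReal.comp h.cx).continuousOn
  · exact (Complex.continuous_ofReal.comp h.cy).continuousOn

theorem C1c_I {W Wx Wy : ℂ → ℝ} (h : C1f W Wx Wy) :
    C1c (fun X => I * (W X : ℂ)) (fun X => I * (Wx X : ℂ)) (fun X => I * (Wy X : ℂ)) := by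
  have h0 := C1c_real h
  refine ⟨fun X hX => ?_, ?_, ?_⟩
  · have h1 := (h0.hd X hX).const_mul I
    refine h1.congr_fderiv ?_
    ext v
    simp
    ring
  · exact continuousOn_const.mul h0.cx
  · exact continuousOn_const.mul h0.cy

theorem C1c_holo {F F' : ℂ → ℂ} (h : ∀ X, HasDerivAt F (F' X) X) (hc : Continuous F') :
    C1c F F' (fun X => I * F' X) := by
  refine ⟨fun X _ => ?_, hc.continuousOn, (continuous_const.mul hc).continuousOn⟩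
  have h1 : HasFDerivAt F ((ContinuousLinearMap.toSpanSingleton ℂ (F' X)).restrictScalars ℝ) X :=
    ((h X).hasFDerivAt).restrictScalars ℝ
  refine h1.congr_fderiv ?_
  ext v
  simp
  linear_combination -(F' X) * (re_add_im v)

end Pool.Agent.Helper69.EK3

end

section

set_option autoImplicit false
open Complex MeasureTheory Metric Set
open scoped Real ComplexConjugate

/-!
# Project EK3: the class of functions `X` with the bounds of Koebe and Bieberbach in the strip,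
and the theorem for one target from a certificate with multipliers
-/

namespace Pool.Agent.Helper69.EK3

open Pool.Agent.Helper39.Area Pool.Agent.Helper52.EK

/-- the expression `(1+e₀)(σ 2X - 1 + X'/X) + 2`, `σ = ±1` -/
noncomputable def dA (σ : ℝ) (X Y : ℂ) (s c : ℝ) : ℂ :=
  (1 + e0 s c) * ((σ : ℂ) * (2 * X) - 1 + Y / X) + 2

/-- the bounds of Koebe and Bieberbach with an integrable error -/
def DiscP (X : ℂ → ℂ) (x₁ x₂ : ℝ) : Prop :=
  ∃ δ : ℝ → ℝ, Continuous δ ∧ (∀ ξ, 0 ≤ δ ξ) ∧ (∀ ξ ∈ Icc x₁ x₂, δ ξ ≤ 8) ∧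
    (∫ ξ in x₁..x₂, δ ξ ≤ 8) ∧ ∀ ξ ∈ Icc x₁ x₂, ∀ η ∈ Icc (0:ℝ) (π / 2),
      Real.sin η * ‖X (pt ξ η)‖ ≤ 1 + δ ξ ∧
      ‖dA 1 (X (pt ξ η)) (deriv X (pt ξ η)) (Real.sin η) (Real.cos η)‖ ≤ 4 * (1 + δ ξ) ∧
      ‖dA (-1) (X (pt ξ η)) (deriv X (pt ξ η)) (Real.sin η) (Real.cos η)‖ ≤ 4 * (1 + δ ξ)

theorem norm_one_add_e0 {η : ℝ} (hs : 0 ≤ Real.sin η) :
    ‖1 + e0 (Real.sin η) (Real.cos η)‖ = 2 * Real.sin η := by
  have e1 : 1 + e0 (Real.sin η) (Real.cos η) =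
      (2 * Real.sin η : ℝ) * ((Real.sin η : ℂ) + (Real.cos η : ℂ) * I) := by
    unfold e0
    push_cast
    have h5 : Complex.cos η ^ 2 + Complex.sin η ^ 2 = 1 := Complex.cos_sq_add_sin_sq _
    linear_combination -h5 - Complex.sin η ^ 2 * I_sq
  have e2 : ‖(Real.sin η : ℂ) + (Real.cos η : ℂ) * I‖ = 1 := by
    have e3 : ‖(Real.sin η : ℂ) + (Real.cos η : ℂ) * I‖ ^ 2 = 1 := by
      rw [← Complex.normSq_eq_norm_sq, Complex.normSq_apply]
      simp only [add_re, add_im, mul_re, mul_im, ofReal_re, ofReal_im, I_re, I_im, mul_zero,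
        mul_one, sub_zero, add_zero, zero_add]
      nlinarith [Real.sin_sq_add_cos_sq η]
    have e4 := norm_nonneg ((Real.sin η : ℂ) + (Real.cos η : ℂ) * I)
    nlinarith
  rw [e1, norm_mul, e2, mul_one, Complex.norm_real, Real.norm_of_nonneg (by positivity)]

/-- the bound of `q = X'/X` in the class -/
theorem sin_q_le {X Y : ℂ} {η d : ℝ} (hs : 0 ≤ Real.sin η) (hd : d ≤ 8)
    (h1 : Real.sin η * ‖X‖ ≤ 1 + d)
    (h2 : ‖dA 1 X Y (Real.sin η) (Real.cos η)‖ ≤ 4 * (1 + d)) :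
    Real.sin η * ‖Y / X‖ ≤ 38 := by
  have hn := norm_one_add_e0 hs
  have hs1 : Real.sin η ≤ 1 := Real.sin_le_one η
  set E := 1 + e0 (Real.sin η) (Real.cos η) with hE
  have e : E * (Y / X) = dA 1 X Y (Real.sin η) (Real.cos η) - 2 - E * (2 * X) + E := by
    unfold dA
    rw [← hE]
    push_cast
    ring
  have h3 : ‖E * (Y / X)‖ ≤ 4 * (1 + d) + 2 + 2 * Real.sin η * (2 * ‖X‖) + 2 * Real.sin η := by
    rw [e]
    have a1 := norm_add_le (dA 1 X Y (Real.sin η) (Real.cos η) - 2 - E * (2 * X)) E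
    have a2 := norm_sub_le (dA 1 X Y (Real.sin η) (Real.cos η) - 2) (E * (2 * X))
    have a3 := norm_sub_le (dA 1 X Y (Real.sin η) (Real.cos η)) 2
    have a4 : ‖(2:ℂ)‖ = 2 := by simp
    rw [norm_mul E, norm_mul (2:ℂ), a4, hn] at a2
    rw [a4] at a3
    rw [hn] at a1
    linarith
  rw [norm_mul, hn] at h3
  nlinarith

theorem DiscP.q_le (X : ℂ → ℂ) (x₁ x₂ : ℝ) (_hx : x₁ ≤ x₂) (_hX : NiceH X x₁ x₂)
    (h : DiscP X x₁ x₂) : ∀ ξ ∈ Icc x₁ x₂, ∀ η ∈ Icc (0:ℝ) (π / 2),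
      Real.sin η * ‖deriv X (pt ξ η) / X (pt ξ η)‖ ≤ 38 := by
  obtain ⟨δ, _, _, h3, _, h5⟩ := h
  intro ξ hξ η hη
  have hs : 0 ≤ Real.sin η := Real.sin_nonneg_of_nonneg_of_le_pi hη.1
    (hη.2.trans (by linarith [Real.pi_pos]))
  obtain ⟨k1, k2, _⟩ := h5 ξ hξ η hη
  exact sin_q_le hs (h3 ξ hξ) k1 k2

theorem DiscP.X_le (X : ℂ → ℂ) (x₁ x₂ : ℝ) (_hx : x₁ ≤ x₂) (_hX : NiceH X x₁ x₂)
    (h : DiscP X x₁ x₂) : ∀ ξ ∈ Icc x₁ x₂, ∀ η ∈ Icc (0:ℝ) (π / 2),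
      Real.sin η * ‖X (pt ξ η)‖ ≤ 9 := by
  obtain ⟨δ, _, _, h3, _, h5⟩ := h
  intro ξ hξ η hη
  obtain ⟨k1, _, _⟩ := h5 ξ hξ η hη
  linarith [h3 ξ hξ]

/-- the bounds for `Xf`, on the whole strip -/
theorem disc_Xf {β : ℂ → ℂ} {R a : ℝ} (h : ExtR β R) (ha : 0 < a) (ha1 : a < 1) {ξ η : ℝ}
    (h1 : Real.log (tau a) + 1 ≤ ξ) (h2 : ξ ≤ -1) (h3 : 0 ≤ η) (h4 : η ≤ π) :
    Real.sin η * ‖Xf β a (pt ξ η)‖ ≤
      1 + (4 * Real.exp ξ + 4 * Real.exp (Real.log (tau a) - ξ)) ∧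
    ‖dA 1 (Xf β a (pt ξ η)) (deriv (Xf β a) (pt ξ η)) (Real.sin η) (Real.cos η)‖ ≤
      4 * (1 + (4 * Real.exp ξ + 4 * Real.exp (Real.log (tau a) - ξ))) ∧
    ‖dA (-1) (Xf β a (pt ξ η)) (deriv (Xf β a) (pt ξ η)) (Real.sin η) (Real.cos η)‖ ≤
      4 * (1 + (4 * Real.exp ξ + 4 * Real.exp (Real.log (tau a) - ξ))) := by
  have hy0 := Real.exp_pos ξ
  have hq0 := Real.exp_pos (Real.log (tau a) - ξ)
  rcases eq_or_lt_of_le h3 with h5 | h5
  · subst h5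
    have e : dA 1 (Xf β a (pt ξ 0)) (deriv (Xf β a) (pt ξ 0)) (Real.sin 0) (Real.cos 0) = 2 := by
      simp [dA, e0]
    have e' : dA (-1) (Xf β a (pt ξ 0)) (deriv (Xf β a) (pt ξ 0)) (Real.sin 0) (Real.cos 0) =
        2 := by
      simp [dA, e0]
    have e4 : ‖(2:ℂ)‖ = 2 := by simp
    rw [e, e', e4, Real.sin_zero, zero_mul]
    refine ⟨by linarith, by linarith, by linarith⟩
  rcases eq_or_lt_of_le h4 with h6 | h6
  · subst h6
    have e : dA 1 (Xf β a (pt ξ π)) (deriv (Xf β a) (pt ξ π)) (Real.sin π) (Real.cos π) = 2 := by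
      simp [dA, e0]
    have e' : dA (-1) (Xf β a (pt ξ π)) (deriv (Xf β a) (pt ξ π)) (Real.sin π) (Real.cos π) =
        2 := by
      simp [dA, e0]
    have e4 : ‖(2:ℂ)‖ = 2 := by simp
    rw [e, e', e4, Real.sin_pi, zero_mul]
    refine ⟨by linarith, by linarith, by linarith⟩
  have hτ : 0 < tau a := by
    unfold tau
    have : 0 < 1 - a := by linarith
    positivity
  have hhalf : Real.exp (-1) ≤ 1 / 2 := by
    have h9 : Real.exp (-1) < 0.3678794412 := Real.exp_neg_one_lt_d9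
    linarith
  have hy : Real.exp ξ ≤ 1 / 2 := (Real.exp_le_exp.mpr h2).trans hhalf
  have hq : Real.exp (Real.log (tau a) - ξ) ≤ 1 / 2 :=
    (Real.exp_le_exp.mpr (by linarith)).trans hhalf
  have hτe : tau a = Real.exp ξ * Real.exp (Real.log (tau a) - ξ) := by
    rw [← Real.exp_add, add_sub_cancel, Real.exp_log hτ]
  obtain ⟨δ, hδ⟩ : ∃ δ, δ = 4 * Real.exp ξ + 4 * Real.exp (Real.log (tau a) - ξ) := ⟨_, rfl⟩
  have hδ0 : 0 < δ := by rw [hδ]; positivity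
  have hr : 0 < (1 + δ)⁻¹ := by positivity
  have hk := bieb_strip h ha ha1 (ξ := ξ) (η := η) (by linarith) (by linarith) h5 h6 hr
    (by
      rw [inv_mul_le_iff₀ (by linarith), hδ]
      nlinarith)
    (by
      rw [inv_mul_le_iff₀ (by linarith)]
      have e1 : Real.exp ξ + tau a = Real.exp ξ * (1 + Real.exp (Real.log (tau a) - ξ)) := by
        nth_rewrite 1 [hτe]
        ring
      have e2 : Real.exp ξ - tau a = Real.exp ξ * (1 - Real.exp (Real.log (tau a) - ξ)) := by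
        nth_rewrite 1 [hτe]
        ring
      rw [e1, e2]
      have e3 : 1 + Real.exp (Real.log (tau a) - ξ) ≤
          (1 + δ) * (1 - Real.exp (Real.log (tau a) - ξ)) := by
        rw [hδ]
        nlinarith
      calc Real.exp ξ * (1 + Real.exp (Real.log (tau a) - ξ)) ≤
            Real.exp ξ * ((1 + δ) * (1 - Real.exp (Real.log (tau a) - ξ))) :=
            mul_le_mul_of_nonneg_left e3 hy0.le
        _ = (1 + δ) * (Real.exp ξ * (1 - Real.exp (Real.log (tau a) - ξ))) := by ring)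
    rfl rfl
  obtain ⟨k1, k2, k3⟩ := hk
  rw [← hδ]
  have hp : 0 < 1 + δ := by linarith
  refine ⟨?_, ?_, ?_⟩
  · rwa [← div_eq_mul_inv, div_le_iff₀ hp, one_mul] at k1
  · rw [← div_eq_mul_inv, div_le_iff₀ hp] at k2
    have e : dA 1 (Xf β a (pt ξ η)) (deriv (Xf β a) (pt ξ η)) (Real.sin η) (Real.cos η) =
        (1 + e0 (Real.sin η) (Real.cos η)) * (2 * Xf β a (pt ξ η) - 1 +
          deriv (Xf β a) (pt ξ η) / Xf β a (pt ξ η)) + 2 := by
      unfold dA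
      push_cast
      ring
    rw [e]
    exact k2
  · rw [← div_eq_mul_inv, div_le_iff₀ hp] at k3
    have e : dA (-1) (Xf β a (pt ξ η)) (deriv (Xf β a) (pt ξ η)) (Real.sin η) (Real.cos η) =
        (1 + e0 (Real.sin η) (Real.cos η)) * (-2 * Xf β a (pt ξ η) - 1 +
          deriv (Xf β a) (pt ξ η) / Xf β a (pt ξ η)) + 2 := by
      unfold dA
      push_cast
      ring
    rw [e]
    exact k3

theorem dA_mir (σ : ℝ) (X Y : ℂ) (s c : ℝ) :
    dA σ (conj X) (conj Y) s c = conj (dA σ X Y s (-c)) := by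
  unfold dA
  rw [e0_neg]
  simp only [map_add, map_sub, map_mul, map_div₀, map_one, map_ofNat, Complex.conj_conj,
    conj_ofReal]

/-- `Xf` and its mirror image are in the class -/
theorem discP_Xf (β : ℂ → ℂ) (R a : ℝ) (h : ExtR β R) (ha : 0 < a) (ha1 : a < 1)
    (_hx : Real.log (tau a) + 1 ≤ -1) : DiscP (Xf β a) (Real.log (tau a) + 1) (-1) ∧
      DiscP (mir (Xf β a)) (Real.log (tau a) + 1) (-1) := by
  have hc : Continuous (fun ξ : ℝ => 4 * Real.exp ξ + 4 * Real.exp (Real.log (tau a) - ξ)) := by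
    fun_prop
  have h0 : ∀ ξ : ℝ, 0 ≤ 4 * Real.exp ξ + 4 * Real.exp (Real.log (tau a) - ξ) := fun ξ => by
    positivity
  have h8 : ∀ ξ ∈ Icc (Real.log (tau a) + 1) (-1),
      4 * Real.exp ξ + 4 * Real.exp (Real.log (tau a) - ξ) ≤ 8 := by
    intro ξ hξ
    have h1 : Real.exp ξ ≤ 1 := Real.exp_le_one_iff.2 (by linarith [hξ.2])
    have h2 : Real.exp (Real.log (tau a) - ξ) ≤ 1 := Real.exp_le_one_iff.2 (by linarith [hξ.1])
    linarith
  have hI : ∫ ξ in (Real.log (tau a) + 1)..(-1),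
      (4 * Real.exp ξ + 4 * Real.exp (Real.log (tau a) - ξ)) ≤ 8 := by
    have i1 : IntervalIntegrable (fun ξ : ℝ => 4 * Real.exp ξ) volume
        (Real.log (tau a) + 1) (-1) :=
      (by fun_prop : Continuous fun ξ : ℝ => 4 * Real.exp ξ).intervalIntegrable _ _
    have i2 : IntervalIntegrable (fun ξ : ℝ => 4 * Real.exp (Real.log (tau a) - ξ)) volume
        (Real.log (tau a) + 1) (-1) :=
      (by fun_prop : Continuous fun ξ : ℝ => 4 * Real.exp (Real.log (tau a) - ξ)).intervalIntegrable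
        _ _
    rw [intervalIntegral.integral_add i1 i2, intervalIntegral.integral_const_mul,
      intervalIntegral.integral_const_mul,
      intervalIntegral.integral_comp_sub_left (fun u => Real.exp u) (Real.log (tau a)),
      exp_int, exp_int]
    have e1 : Real.exp (-1) ≤ 1 := Real.exp_le_one_iff.2 (by norm_num)
    have e2 := Real.exp_pos (Real.log (tau a) + 1)
    have e3 : Real.exp (Real.log (tau a) - (Real.log (tau a) + 1)) ≤ 1 :=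
      Real.exp_le_one_iff.2 (by linarith)
    have e4 := Real.exp_pos (Real.log (tau a) - -1)
    linarith
  have hpi := Real.pi_pos
  refine ⟨⟨_, hc, h0, h8, hI, fun ξ hξ η hη => ?_⟩, ⟨_, hc, h0, h8, hI, fun ξ hξ η hη => ?_⟩⟩
  · exact disc_Xf h ha ha1 hξ.1 hξ.2 hη.1 (by linarith [hη.2])
  · have hN : NiceX (Xf β a) (Real.log (tau a) + 1) (-1) :=
      Pool.Agent.Helper67.EK.E1c h ha ha1 (by linarith) (by norm_num)
    have hd : DifferentiableAt ℂ (Xf β a) (pt ξ (π - η)) := by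
      refine (hN.an _ ?_).differentiableAt
      rw [← conj_pt]
      exact mir_mem (pt_mem_RectH hξ hη)
    have hk := disc_Xf h ha ha1 hξ.1 hξ.2 (η := π - η) (by linarith [hη.2]) (by linarith [hη.1])
    rw [mir_pt, mir_deriv_pt hd, dA_mir, dA_mir, norm_conj, norm_conj, norm_conj]
    rw [Real.sin_pi_sub, Real.cos_pi_sub] at hk
    exact hk

/-- **the bound for one target from a certificate with multipliers for the bounds of Koebe and
Bieberbach** -/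
theorem K_one3_d {k₂ lam κ L M : ℝ} (hM : 0 ≤ M) (hlam : 0 ≤ lam) (hk₂ : lam ≤ k₂)
    (hκ : k₂ < 2 * κ) {G : ℂ → ℂ} (hG : GLip G L) (hGc : ∀ m, G (conj m) = conj (G m))
    {Nl : ℂ → ℂ → ℝ → ℝ} {Kl : ℂ → ℂ → ℝ} (hN : IsNull DiscP Nl Kl)
    (hp : ∀ X Y : ℂ, X ≠ 0 → ∀ η ∈ Icc (0:ℝ) (π / 2), ∃ l₀ l₁ l₂ : ℝ,
      0 ≤ l₀ ∧ l₀ ≤ M ∧ 0 ≤ l₁ ∧ l₁ ≤ M ∧ 0 ≤ l₂ ∧ l₂ ≤ M ∧
      TG G X Y (Real.sin η) (Real.cos η) + l₀ * (1 - (Real.sin η * ‖X‖) ^ 2) +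
        l₁ * (16 - ‖dA 1 X Y (Real.sin η) (Real.cos η)‖ ^ 2) +
        l₂ * (16 - ‖dA (-1) X Y (Real.sin η) (Real.cos η)‖ ^ 2) ≤
      k₂ * (1 - X.re) + lam * (‖X‖ ^ 2 - X.re) + Nl X Y η)
    {Ec Ex Ey W Wx Wy : ℂ → ℝ} (hW : C1f W Wx Wy) (hE : C1f Ec Ex Ey)
    (hK : ∀ X Y : ℂ, X ≠ 0 → Kl X Y + Kl (conj X) (conj Y) =
      - Ec X + (Wx X * Y.re + Wy X * Y.im))
    (hE0 : ∀ X : ℂ, ‖X‖ ≤ 1 → 0 ≤ Ec X) :
    ∃ C a₀ : ℝ, a₀ < 1 ∧ ∀ (β : ℂ → ℂ) (R a : ℝ), ExtR β R → a₀ < a → a < 1 →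
      Kf (wf G β) 1 (-1) (Real.log a) ≤ κ * Real.log (‖N β a‖ / (1 - a ^ 2)) + C := by
  refine K_one3_b (P := DiscP) discP_Xf hlam hk₂ hκ hG hGc hN (D := 330 * M * 8) ?_ hW hE hK hE0
  intro X x₁ x₂ hx hX hP
  obtain ⟨δ, h1, h2, h3, h4, h5⟩ := hP
  refine ⟨fun ξ => 330 * M * δ ξ, by fun_prop, fun ξ => by have := h2 ξ; positivity, ?_, ?_⟩
  · rw [intervalIntegral.integral_const_mul]
    exact mul_le_mul_of_nonneg_left h4 (by positivity)
  · intro ξ hξ η hη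
    have hne := hX.ne _ (pt_mem_RectH hξ hη)
    have hs : 0 ≤ Real.sin η := Real.sin_nonneg_of_nonneg_of_le_pi hη.1
      (hη.2.trans (by linarith [Real.pi_pos]))
    obtain ⟨l₀, l₁, l₂, a1, a2, b1, b2, c1, c2, hl⟩ := hp _ (deriv X (pt ξ η)) hne η hη
    obtain ⟨k1, k2, k3⟩ := h5 ξ hξ η hη
    have hd0 := h2 ξ
    have hd8 := h3 ξ hξ
    set d := δ ξ with hd
    have s1 : (Real.sin η * ‖X (pt ξ η)‖) ^ 2 ≤ 1 + 10 * d := by
      have := pow_le_pow_left₀ (mul_nonneg hs (norm_nonneg _)) k1 2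
      nlinarith
    have s2 : ‖dA 1 (X (pt ξ η)) (deriv X (pt ξ η)) (Real.sin η) (Real.cos η)‖ ^ 2 ≤
        16 + 160 * d := by
      have := pow_le_pow_left₀ (norm_nonneg _) k2 2
      nlinarith
    have s3 : ‖dA (-1) (X (pt ξ η)) (deriv X (pt ξ η)) (Real.sin η) (Real.cos η)‖ ^ 2 ≤
        16 + 160 * d := by
      have := pow_le_pow_left₀ (norm_nonneg _) k3 2
      nlinarith
    have m1 : l₀ * ((Real.sin η * ‖X (pt ξ η)‖) ^ 2 - 1) ≤ M * (10 * d) :=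
      (mul_le_mul_of_nonneg_left (by linarith : _ ≤ 10 * d) a1).trans
        (mul_le_mul_of_nonneg_right a2 (by positivity))
    have m2 : l₁ * (‖dA 1 (X (pt ξ η)) (deriv X (pt ξ η)) (Real.sin η) (Real.cos η)‖ ^ 2 - 16) ≤
        M * (160 * d) :=
      (mul_le_mul_of_nonneg_left (by linarith : _ ≤ 160 * d) b1).trans
        (mul_le_mul_of_nonneg_right b2 (by positivity))
    have m3 : l₂ * (‖dA (-1) (X (pt ξ η)) (deriv X (pt ξ η)) (Real.sin η) (Real.cos η)‖ ^ 2 - 16) ≤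
        M * (160 * d) :=
      (mul_le_mul_of_nonneg_left (by linarith : _ ≤ 160 * d) c1).trans
        (mul_le_mul_of_nonneg_right c2 (by positivity))
    linarith

end Pool.Agent.Helper69.EK3

end

section

set_option autoImplicit false
open Complex MeasureTheory Metric Set
open scoped Real ComplexConjugate

/-!
# Project EK3: the families of null Lagrangians of a certificate
-/

namespace Pool.Agent.Helper69.EK3

open Pool.EK71 Pool.Agent.Helper52.EK Pool.Agent.Helper2.EK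
open Pool.Agent.Helper71.EK3 Pool.Agent.Helper71.EKC

variable {P : (ℂ → ℂ) → ℝ → ℝ → Prop}

/-! ### sums over lists -/

theorem IsNull.list {ι : Type} (L : List ι) {N : ι → ℂ → ℂ → ℝ → ℝ} {K : ι → ℂ → ℂ → ℝ}
    (h : ∀ t ∈ L, IsNull P (N t) (K t)) :
    IsNull P (fun X Y η => (L.map fun t => N t X Y η).sum)
      (fun X Y => (L.map fun t => K t X Y).sum) := by
  induction L with
  | nil => simpa using IsNull.zero (P := P)
  | cons t L ih =>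
    have h1 := (h t (List.mem_cons_self)).add (ih fun s hs => h s (List.mem_cons_of_mem _ hs))
    simpa only [List.map_cons, List.sum_cons] using h1

/-! ### angular facts -/

theorem af_ash22 (g : AP) (η : ℝ) : 4 * af (ash 2 2 g) η = Real.sin η ^ 2 * af g η := by
  unfold af
  rw [aev_ash]
  have e : Real.sin η = 2 * Real.sin (η / 2) * Real.cos (η / 2) := by
    rw [← Real.sin_two_mul]
    congr 1
    ring
  rw [e]
  ring

theorem af_ash11 (g : AP) (η : ℝ) : 2 * af (ash 1 1 g) η = Real.sin η * af g η := by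
  unfold af
  rw [aev_ash]
  have e : Real.sin η = 2 * Real.sin (η / 2) * Real.cos (η / 2) := by
    rw [← Real.sin_two_mul]
    congr 1
    ring
  rw [e]
  ring

theorem af_adas (g : AP) (η : ℝ) :
    2 * af (ader (ash 2 2 g)) η = Real.sin η * af (adas g) η := by
  unfold af
  have e : Real.sin η = 2 * Real.sin (η / 2) * Real.cos (η / 2) := by
    rw [← Real.sin_two_mul]
    congr 1
    ring
  rw [e, aev_adas]

theorem hd22 (g : AP) (η : ℝ) : HasDerivAt (fun η => 4 * af (ash 2 2 g) η)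
    (2 * af (ader (ash 2 2 g)) η) η := by
  refine ((af_hasDerivAt (ash 2 2 g) η).const_mul 4).congr_deriv ?_
  ring

theorem hd22' (g : AP) (η : ℝ) : HasDerivAt (fun η => 2 * af (ader (ash 2 2 g)) η)
    (af (ader (ader (ash 2 2 g))) η) η := by
  refine ((af_hasDerivAt (ader (ash 2 2 g)) η).const_mul 2).congr_deriv ?_
  ring

theorem hd11 (g : AP) (η : ℝ) : HasDerivAt (fun η => 2 * af (ash 1 1 g) η)
    (af (ader (ash 1 1 g)) η) η := by
  refine ((af_hasDerivAt (ash 1 1 g) η).const_mul 2).congr_deriv ?_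
  ring

/-! ### the families -/

noncomputable def NU (a j : ℕ) (t : AP × BP) (X Y : ℂ) (η : ℝ) : ℝ :=
  4 * af (ash 2 2 t.1) η * Rr a (j + 2) (qL a j t.2) X * ‖Y‖ ^ 2 -
    af (ader (ader (ash 2 2 t.1))) η * Rr a j t.2 X

noncomputable def KU (a j : ℕ) (t : AP × BP) (X Y : ℂ) : ℝ :=
  4 * af (ash 2 2 t.1) (π / 2) * dEta (Rr a (j + 1) (qX a j t.2)) (Rr a (j + 1) (qY a j t.2)) X Y -
    2 * af (ader (ash 2 2 t.1)) (π / 2) * Rr a j t.2 X

theorem isNull_NU {a j : ℕ} (ha : 1 ≤ a) (t : AP × BP) (h : dle (2 * j + 2) t.2 = true) :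
    IsNull P (NU a j t) (KU a j t) := by
  obtain ⟨C, _, hC⟩ := Rr_le ha j t.2 h
  exact isNull_U (c2_Rr a j t.2) (hd22 t.1) (hd22' t.1) (af_cont _)
    (by rw [af_ash22]; simp) (by rw [af_adas]; simp) hC

noncomputable def NVX (a j : ℕ) (t : AP × BP) (X Y : ℂ) (η : ℝ) : ℝ :=
  2 * af (ash 1 1 t.1) η * (Rr a (j + 1) (qX a j t.2) X * Y.re +
    Rr a (j + 1) (qY a j t.2) X * Y.im)

theorem isNull_NVX {a j : ℕ} (ha : 1 ≤ a) (t : AP × BP) (h : dle (2 * j + 2) t.2 = true) :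
    IsNull P (NVX a j t) (fun _ _ => 0) := by
  obtain ⟨C, _, hC⟩ := Rr_le ha j t.2 h
  exact isNull_W (c1_Rr a j t.2) (continuous_const.mul (af_cont _)) hC

noncomputable def NVE (a j : ℕ) (t : AP × BP) (X Y : ℂ) (η : ℝ) : ℝ :=
  2 * af (ash 1 1 t.1) η * dEta (Rr a (j + 1) (qX a j t.2)) (Rr a (j + 1) (qY a j t.2)) X Y +
    af (ader (ash 1 1 t.1)) η * Rr a j t.2 X

noncomputable def KVE (a j : ℕ) (t : AP × BP) (X _Y : ℂ) : ℝ :=
  2 * af (ash 1 1 t.1) (π / 2) * Rr a j t.2 X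

theorem isNull_NVE {a j : ℕ} (t : AP × BP) : IsNull P (NVE a j t) (KVE a j t) :=
  isNull_V (c1_Rr a j t.2) (hd11 t.1) (af_cont _) (by rw [af_ash11]; simp)

noncomputable def NF0 (a j : ℕ) (t : AP × BP) (X Y : ℂ) (η : ℝ) : ℝ :=
  NG (fun η => 4 * af (ash 2 2 t.1) η) (fun η => 2 * af (ader (ash 2 2 t.1)) η)
    (fun X => (Rr a j t.2 X : ℂ)) (fun X => (Rr a (j + 1) (qX a j t.2) X : ℂ))
    (fun X => (Rr a (j + 1) (qY a j t.2) X : ℂ)) X Y ((Y / X) ^ 1) η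

noncomputable def KF0 (a j : ℕ) (t : AP × BP) (X Y : ℂ) : ℝ :=
  - (4 * af (ash 2 2 t.1) (π / 2) * ((Rr a j t.2 X : ℂ) * (Y / X) ^ 1).im)

noncomputable def NF1 (a j : ℕ) (t : AP × BP) (X Y : ℂ) (η : ℝ) : ℝ :=
  NG (fun η => 4 * af (ash 2 2 t.1) η) (fun η => 2 * af (ader (ash 2 2 t.1)) η)
    (fun X => I * (Rr a j t.2 X : ℂ)) (fun X => I * (Rr a (j + 1) (qX a j t.2) X : ℂ))
    (fun X => I * (Rr a (j + 1) (qY a j t.2) X : ℂ)) X Y ((Y / X) ^ 1) η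

noncomputable def KF1 (a j : ℕ) (t : AP × BP) (X Y : ℂ) : ℝ :=
  - (4 * af (ash 2 2 t.1) (π / 2) * (I * (Rr a j t.2 X : ℂ) * (Y / X) ^ 1).im)

theorem af_bdd (g : AP) : ∃ M : ℝ, 0 ≤ M ∧ ∀ η ∈ Icc (0:ℝ) (π / 2), |af g η| ≤ M := by
  obtain ⟨M, hM⟩ := (isCompact_Icc (a := (0:ℝ)) (b := π / 2)).bddAbove_image
    (af_cont g).abs.continuousOn
  have hM' : ∀ η ∈ Icc (0:ℝ) (π / 2), |af g η| ≤ M := fun η hη => hM (mem_image_of_mem _ hη)
  exact ⟨M, (abs_nonneg _).trans (hM' 0 ⟨le_rfl, by positivity⟩), hM'⟩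

theorem af22_bdd (g : AP) : ∃ M : ℝ, 0 ≤ M ∧ ∀ η ∈ Icc (0:ℝ) (π / 2),
    |4 * af (ash 2 2 g) η| ≤ M * Real.sin η ^ 1 := by
  obtain ⟨M, hM0, hM⟩ := af_bdd g
  refine ⟨M, hM0, fun η hη => ?_⟩
  have hs : 0 ≤ Real.sin η := Real.sin_nonneg_of_nonneg_of_le_pi hη.1
    (hη.2.trans (by linarith [Real.pi_pos]))
  have hs1 : Real.sin η ≤ 1 := Real.sin_le_one η
  rw [af_ash22, abs_mul, abs_of_nonneg (sq_nonneg _), pow_one]
  have h1 := hM η hη
  have h2 : Real.sin η ^ 2 ≤ Real.sin η := by nlinarith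
  calc Real.sin η ^ 2 * |af g η| ≤ Real.sin η * M :=
        mul_le_mul h2 h1 (abs_nonneg _) hs
    _ = M * Real.sin η := by ring

theorem isNull_NF0 {a j : ℕ} (ha : 1 ≤ a) (t : AP × BP) (h : dle (2 * j + 2) t.2 = true) :
    IsNull DiscP (NF0 a j t) (KF0 a j t) := by
  obtain ⟨C, hC0, hC⟩ := Rr_le ha j t.2 h
  obtain ⟨M, hM0, hM⟩ := af22_bdd t.1
  exact isNull_P (C₀ := 38) (C1c_real (c1_Rr a j t.2)) 1 (hd22 t.1)
    (continuous_const.mul (af_cont _)) (by rw [af_ash22]; simp) hC0 (by norm_num) hM0 hM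
    (fun X => by rw [Complex.norm_real]; exact hC X) DiscP.q_le

theorem isNull_NF1 {a j : ℕ} (ha : 1 ≤ a) (t : AP × BP) (h : dle (2 * j + 2) t.2 = true) :
    IsNull DiscP (NF1 a j t) (KF1 a j t) := by
  obtain ⟨C, hC0, hC⟩ := Rr_le ha j t.2 h
  obtain ⟨M, hM0, hM⟩ := af22_bdd t.1
  exact isNull_P (C₀ := 38) (C1c_I (c1_Rr a j t.2)) 1 (hd22 t.1)
    (continuous_const.mul (af_cont _)) (by rw [af_ash22]; simp) hC0 (by norm_num) hM0 hM
    (fun X => by rw [norm_mul, norm_I, one_mul, Complex.norm_real]; exact hC X) DiscP.q_le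

/-! holomorphic fields -/

/-- primitive of `s² g` -/
noncomputable def apr (g : AP) (η : ℝ) : ℝ := ∫ t in (0:ℝ)..η, 4 * af (ash 2 2 g) t

theorem apr_hasDerivAt (g : AP) (η : ℝ) : HasDerivAt (apr g) (4 * af (ash 2 2 g) η) η := by
  have hc : Continuous (fun t => 4 * af (ash 2 2 g) t) := continuous_const.mul (af_cont _)
  exact intervalIntegral.integral_hasDerivAt_right (hc.intervalIntegrable _ _)
    hc.stronglyMeasurable.stronglyMeasurableAtFilter hc.continuousAt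

theorem apr_bdd (g : AP) : ∃ M : ℝ, 0 ≤ M ∧ ∀ η ∈ Icc (0:ℝ) (π / 2),
    |apr g η| ≤ M * Real.sin η ^ 2 := by
  obtain ⟨M, hM0, hM⟩ := af_bdd g
  refine ⟨M * (π / 2), by positivity, fun η hη => ?_⟩
  have hs : 0 ≤ Real.sin η := Real.sin_nonneg_of_nonneg_of_le_pi hη.1
    (hη.2.trans (by linarith [Real.pi_pos]))
  have h1 : ∀ t ∈ Set.uIoc 0 η, ‖4 * af (ash 2 2 g) t‖ ≤ M * Real.sin η ^ 2 := by
    intro t ht
    rw [uIoc_of_le hη.1] at ht
    have hts : 0 ≤ Real.sin t := Real.sin_nonneg_of_nonneg_of_le_pi ht.1.le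
      (by linarith [ht.2, hη.2, Real.pi_pos])
    have hle : Real.sin t ≤ Real.sin η :=
      Real.sin_le_sin_of_le_of_le_pi_div_two (by linarith [ht.1, Real.pi_pos]) hη.2 ht.2
    rw [af_ash22, Real.norm_eq_abs, abs_mul, abs_of_nonneg (sq_nonneg _)]
    have h2 := hM t ⟨ht.1.le, ht.2.trans hη.2⟩
    have h3 : Real.sin t ^ 2 ≤ Real.sin η ^ 2 := pow_le_pow_left₀ hts hle 2
    calc Real.sin t ^ 2 * |af g t| ≤ Real.sin η ^ 2 * M :=
          mul_le_mul h3 h2 (abs_nonneg _) (sq_nonneg _)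
      _ = M * Real.sin η ^ 2 := by ring
  have h2 := intervalIntegral.norm_integral_le_of_norm_le_const h1
  rw [Real.norm_eq_abs, sub_zero, abs_of_nonneg hη.1] at h2
  unfold apr
  refine h2.trans ?_
  have h3 : M * Real.sin η ^ 2 * η ≤ M * Real.sin η ^ 2 * (π / 2) :=
    mul_le_mul_of_nonneg_left hη.2 (by positivity)
  linarith

noncomputable def NH (t : AP × ℕ) (X Y : ℂ) (η : ℝ) : ℝ :=
  NG (apr t.1) (fun η => 4 * af (ash 2 2 t.1) η) (fun X => (X - 1) ^ t.2)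
    (fun X => (t.2 : ℂ) * (X - 1) ^ (t.2 - 1)) (fun X => I * ((t.2 : ℂ) * (X - 1) ^ (t.2 - 1)))
    X Y ((Y / X) ^ 2) η

noncomputable def KH (t : AP × ℕ) (X Y : ℂ) : ℝ :=
  - (apr t.1 (π / 2) * ((X - 1) ^ t.2 * (Y / X) ^ 2).im)

theorem C1c_pow (m : ℕ) : C1c (fun X => (X - 1) ^ m) (fun X => (m : ℂ) * (X - 1) ^ (m - 1))
    (fun X => I * ((m : ℂ) * (X - 1) ^ (m - 1))) := by
  refine C1c_holo (fun X => ?_) (by fun_prop)
  have h1 : HasDerivAt (fun X : ℂ => X - 1) 1 X := (hasDerivAt_id X).sub_const 1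
  exact (h1.fun_pow m).congr_deriv (by ring)

theorem norm_pow_le (m : ℕ) (hm : m ≤ 2) (X : ℂ) : ‖(X - 1) ^ m‖ ≤ 1 * (1 + ‖X - 1‖ ^ 2) := by
  rw [norm_pow, one_mul]
  have h := norm_nonneg (X - 1)
  interval_cases m
  · rw [pow_zero]
    nlinarith
  · rw [pow_one]
    nlinarith
  · linarith

theorem isNull_NH (t : AP × ℕ) (h : t.2 ≤ 2) : IsNull DiscP (NH t) (KH t) := by
  obtain ⟨M, hM0, hM⟩ := apr_bdd t.1
  exact isNull_P (C₀ := 38) (C1c_pow t.2) 2 (apr_hasDerivAt t.1)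
    (continuous_const.mul (af_cont _)) (by simp [apr]) zero_le_one (by norm_num) hM0 hM
    (norm_pow_le t.2 h) DiscP.q_le

/-- the null Lagrangian `β(η) Re (X-1)^m` -/
theorem isNull_har {β : ℝ → ℝ} (hβ : Continuous β) (m : ℕ) (hm : m ≤ 2) :
    IsNull DiscP (fun X _ η => β η * ((X - 1) ^ m).re)
      (fun X _ => (∫ t in (0:ℝ)..(π / 2), β t) * ((X - 1) ^ m).re) := by
  have hd : ∀ η : ℝ, HasDerivAt (fun η => -∫ t in (0:ℝ)..η, β t) (-β η) η := fun η =>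
    (intervalIntegral.integral_hasDerivAt_right (hβ.intervalIntegrable _ _)
      hβ.stronglyMeasurable.stronglyMeasurableAtFilter hβ.continuousAt).neg
  have hF : C1c (fun X => I * (X - 1) ^ m) (fun X => I * ((m : ℂ) * (X - 1) ^ (m - 1)))
      (fun X => I * (I * ((m : ℂ) * (X - 1) ^ (m - 1)))) := by
    refine C1c_holo (fun X => ?_) (by fun_prop)
    have h1 : HasDerivAt (fun X : ℂ => X - 1) 1 X := (hasDerivAt_id X).sub_const 1
    have h2 : HasDerivAt (fun X : ℂ => (X - 1) ^ m) ((m : ℂ) * (X - 1) ^ (m - 1)) X :=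
      (h1.fun_pow m).congr_deriv (by ring)
    exact h2.const_mul I
  have hc : Continuous (fun η => -∫ t in (0:ℝ)..η, β t) :=
    continuous_iff_continuousAt.2 fun η => (hd η).continuousAt
  obtain ⟨M, hM⟩ := (isCompact_Icc (a := (0:ℝ)) (b := π / 2)).bddAbove_image hc.abs.continuousOn
  have hM' : ∀ η ∈ Icc (0:ℝ) (π / 2), |-∫ t in (0:ℝ)..η, β t| ≤ M :=
    fun η hη => hM (mem_image_of_mem _ hη)
  have hM0 : 0 ≤ M := (abs_nonneg _).trans (hM' 0 ⟨le_rfl, by positivity⟩)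
  have h := isNull_P (P := DiscP) (C₀ := 38) hF 0 hd hβ.neg (by simp) zero_le_one (by norm_num)
    hM0 (fun η hη => by rw [pow_zero, mul_one]; exact hM' η hη)
    (fun X => by rw [norm_mul, norm_I, one_mul]; exact norm_pow_le m hm X) DiscP.q_le
  refine h.congr (fun X Y η => ?_) (fun X Y => ?_)
  · unfold NG
    have e : I * ((m : ℂ) * (X - 1) ^ (m - 1)) + I * (I * (I * ((m : ℂ) * (X - 1) ^ (m - 1)))) =
        0 := by
      linear_combination (I * (m : ℂ) * (X - 1) ^ (m - 1)) * I_sq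
    rw [e]
    simp
  · simp

end Pool.Agent.Helper69.EK3

end

section

set_option autoImplicit false
open Complex MeasureTheory Metric Set
open scoped Real ComplexConjugate

/-!
# Project EK3: the families as expressions in `l, S, C, P, R, u, v`
-/

namespace Pool.Agent.Helper69.EK3

open Pool.Sos71
open Pool.EK71 Pool.Agent.Helper52.EK Pool.Agent.Helper2.EK
open Pool.Agent.Helper71.EK3 (DL xL yL r2L FL G2L e_D e_x e_y e_r2 e_F e_G2)
open Pool.Agent.Helper71.EKC (Da Da_pos pw2 e_pw sb2 e_sb)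

/-- the point of the variables -/
noncomputable def px (l η : ℝ) (X Y : ℂ) : Pnt :=
  ⟨l, Real.sin (η / 2), Real.cos (η / 2), Real.sin η * (Y / X).re, Real.sin η * (Y / X).im,
    X.re - 1, X.im⟩

def ePR : Ex := Ex.add (Ex.pow (Ex.va 3) 2) (Ex.pow (Ex.va 4) 2)

def Dn (a n : ℕ) : BP := pw2 (DL a) n

theorem Dn_ev (a n : ℕ) (X : ℂ) : ev2 (X.re - 1) X.im (Dn a n) = Da a X.re X.im ^ n := by
  rw [Dn, e_pw, e_D]
  congr 2
  ring

/-- `s q` in real and imaginary parts of `Y` -/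
theorem sY_re {X Y : ℂ} (hX : X ≠ 0) (s : ℝ) :
    s * Y.re = (s * (Y / X).re) * X.re - (s * (Y / X).im) * X.im := by
  have e : Y = (Y / X) * X := (div_mul_cancel₀ Y hX).symm
  have h := congrArg Complex.re e
  rw [mul_re] at h
  rw [h]
  ring

theorem sY_im {X Y : ℂ} (hX : X ≠ 0) (s : ℝ) :
    s * Y.im = (s * (Y / X).re) * X.im + (s * (Y / X).im) * X.re := by
  have e : Y = (Y / X) * X := (div_mul_cancel₀ Y hX).symm
  have h := congrArg Complex.im e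
  rw [mul_im] at h
  rw [h]
  ring

theorem nq_sq (z : ℂ) : ‖z‖ ^ 2 = z.re ^ 2 + z.im ^ 2 := by
  rw [← normSq_eq_norm_sq, normSq_apply]
  ring

theorem sY_sq {X Y : ℂ} (hX : X ≠ 0) (s : ℝ) :
    s ^ 2 * ‖Y‖ ^ 2 = ((s * (Y / X).re) ^ 2 + (s * (Y / X).im) ^ 2) * (X.re ^ 2 + X.im ^ 2) := by
  rw [← nq_sq X]
  have e : ‖Y‖ = ‖Y / X‖ * ‖X‖ := by
    rw [← norm_mul, div_mul_cancel₀ Y hX]
  rw [e, mul_pow, nq_sq (Y / X)]
  ring

section
variable (a K j : ℕ)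

/-! ### `U` -/

def EU (t : AP × BP) : Ex :=
  Ex.add (Ex.mul (Ex.mul (apE t.1) ePR) (Ex.bp (mu2 (mu2 r2L (qL a j t.2)) (Dn a (K - j - 2)))))
    (Ex.mul (Ex.sc (-1) (apE (ader (ader (ash 2 2 t.1))))) (Ex.bp (mu2 t.2 (Dn a (K - j)))))

theorem EU_re (t : AP × BP) (hK : j + 2 ≤ K) {X Y : ℂ} (hX : X ≠ 0) (l η : ℝ) :
    (EU a K j t).re (px l η X Y) = Da a X.re X.im ^ K * NU a j t X Y η := by
  obtain ⟨m, rfl⟩ := Nat.exists_eq_add_of_le hK
  have hD := (Da_pos a X.re X.im).ne'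
  have e1 : j + 2 + m - j - 2 = m := by omega
  have e2 : j + 2 + m - j = m + 2 := by omega
  simp only [EU, Ex.re, apE_re, ePR, ev2_mu, e_r2, e1, e2]
  rw [show (px l η X Y).f = X.re - 1 from rfl, show (px l η X Y).g = X.im from rfl, Dn_ev, Dn_ev,
    show (px l η X Y).b = Real.sin (η / 2) from rfl, show (px l η X Y).c = Real.cos (η / 2) from rfl,
    show (px l η X Y).d = Real.sin η * (Y / X).re from rfl,
    show (px l η X Y).e = Real.sin η * (Y / X).im from rfl]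
  have h1 := sY_sq (Y := Y) hX (Real.sin η)
  unfold NU Rr
  rw [af_ash22]
  have e3 : Real.sin η ^ 2 * af t.1 η * (ev2 (X.re - 1) X.im (qL a j t.2) /
      Da a X.re X.im ^ (j + 2)) * ‖Y‖ ^ 2 = (Real.sin η ^ 2 * ‖Y‖ ^ 2) * af t.1 η *
      (ev2 (X.re - 1) X.im (qL a j t.2) / Da a X.re X.im ^ (j + 2)) := by ring
  rw [e3, h1]
  unfold af
  have e4 : (1:ℝ) + (X.re - 1) = X.re := by ring
  rw [e4]
  have p1 : Da a X.re X.im ^ (j + 2 + m) = Da a X.re X.im ^ j * Da a X.re X.im ^ 2 *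
    Da a X.re X.im ^ m := by rw [pow_add, pow_add]
  have p2 : Da a X.re X.im ^ (j + 2) = Da a X.re X.im ^ j * Da a X.re X.im ^ 2 := by rw [pow_add]
  have p3 : Da a X.re X.im ^ (m + 2) = Da a X.re X.im ^ m * Da a X.re X.im ^ 2 := by rw [pow_add]
  rw [p1, p2, p3]
  field_simp
  push_cast
  ring

/-! ### `V`, `ξ`-type -/

def EVX (t : AP × BP) : Ex :=
  Ex.mul (apE t.1) (Ex.add
    (Ex.mul (Ex.va 3) (Ex.bp (mu2 (ad2 (mu2 xL (qX a j t.2)) (mu2 yL (qY a j t.2)))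
      (Dn a (K - j - 1)))))
    (Ex.mul (Ex.va 4) (Ex.bp (mu2 (sb2 (mu2 xL (qY a j t.2)) (mu2 yL (qX a j t.2)))
      (Dn a (K - j - 1))))))

theorem EVX_re (t : AP × BP) (hK : j + 1 ≤ K) {X Y : ℂ} (hX : X ≠ 0) (l η : ℝ) :
    (EVX a K j t).re (px l η X Y) = Da a X.re X.im ^ K * NVX a j t X Y η := by
  obtain ⟨m, rfl⟩ := Nat.exists_eq_add_of_le hK
  have hD := (Da_pos a X.re X.im).ne'
  have e1 : j + 1 + m - j - 1 = m := by omega
  simp only [EVX, Ex.re, apE_re, ev2_mu, ev2_ad, e_sb, e_x, e_y, e1]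
  rw [show (px l η X Y).f = X.re - 1 from rfl, show (px l η X Y).g = X.im from rfl, Dn_ev,
    show (px l η X Y).b = Real.sin (η / 2) from rfl, show (px l η X Y).c = Real.cos (η / 2) from rfl,
    show (px l η X Y).d = Real.sin η * (Y / X).re from rfl,
    show (px l η X Y).e = Real.sin η * (Y / X).im from rfl]
  unfold NVX Rr
  rw [af_ash11]
  have h1 := sY_re (Y := Y) hX (Real.sin η)
  have h2 := sY_im (Y := Y) hX (Real.sin η)
  have e3 : Real.sin η * af t.1 η * (ev2 (X.re - 1) X.im (qX a j t.2) /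
      Da a X.re X.im ^ (j + 1) * Y.re + ev2 (X.re - 1) X.im (qY a j t.2) /
      Da a X.re X.im ^ (j + 1) * Y.im) = af t.1 η * (ev2 (X.re - 1) X.im (qX a j t.2) /
      Da a X.re X.im ^ (j + 1) * (Real.sin η * Y.re) + ev2 (X.re - 1) X.im (qY a j t.2) /
      Da a X.re X.im ^ (j + 1) * (Real.sin η * Y.im)) := by ring
  rw [e3, h1, h2]
  unfold af
  have e4 : (1:ℝ) + (X.re - 1) = X.re := by ring
  rw [e4]
  have p1 : Da a X.re X.im ^ (j + 1 + m) = Da a X.re X.im ^ (j + 1) * Da a X.re X.im ^ m := by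
    rw [pow_add]
  rw [p1]
  field_simp
  ring

/-! ### `V`, `η`-type -/

def EVE (t : AP × BP) : Ex :=
  Ex.add (Ex.mul (apE t.1) (Ex.add
    (Ex.mul (Ex.va 3) (Ex.bp (mu2 (sb2 (mu2 xL (qY a j t.2)) (mu2 yL (qX a j t.2)))
      (Dn a (K - j - 1)))))
    (Ex.mul (Ex.va 4) (Ex.bp (mu2 (sm2 (-1) (ad2 (mu2 xL (qX a j t.2)) (mu2 yL (qY a j t.2))))
      (Dn a (K - j - 1)))))))
    (Ex.mul (apE (ader (ash 1 1 t.1))) (Ex.bp (mu2 t.2 (Dn a (K - j)))))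

theorem EVE_re (t : AP × BP) (hK : j + 1 ≤ K) {X Y : ℂ} (hX : X ≠ 0) (l η : ℝ) :
    (EVE a K j t).re (px l η X Y) = Da a X.re X.im ^ K * NVE a j t X Y η := by
  obtain ⟨m, rfl⟩ := Nat.exists_eq_add_of_le hK
  have hD := (Da_pos a X.re X.im).ne'
  have e1 : j + 1 + m - j - 1 = m := by omega
  have e2 : j + 1 + m - j = m + 1 := by omega
  simp only [EVE, Ex.re, apE_re, ev2_mu, ev2_ad, ev2_sm, e_sb, e_x, e_y, e1, e2]
  rw [show (px l η X Y).f = X.re - 1 from rfl, show (px l η X Y).g = X.im from rfl, Dn_ev, Dn_ev,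
    show (px l η X Y).b = Real.sin (η / 2) from rfl, show (px l η X Y).c = Real.cos (η / 2) from rfl,
    show (px l η X Y).d = Real.sin η * (Y / X).re from rfl,
    show (px l η X Y).e = Real.sin η * (Y / X).im from rfl]
  unfold NVE Rr dEta
  rw [af_ash11]
  have h1 := sY_re (Y := Y) hX (Real.sin η)
  have h2 := sY_im (Y := Y) hX (Real.sin η)
  have e3 : Real.sin η * af t.1 η * (-(ev2 (X.re - 1) X.im (qX a j t.2) /
      Da a X.re X.im ^ (j + 1)) * Y.im + ev2 (X.re - 1) X.im (qY a j t.2) /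
      Da a X.re X.im ^ (j + 1) * Y.re) = af t.1 η * (-(ev2 (X.re - 1) X.im (qX a j t.2) /
      Da a X.re X.im ^ (j + 1)) * (Real.sin η * Y.im) + ev2 (X.re - 1) X.im (qY a j t.2) /
      Da a X.re X.im ^ (j + 1) * (Real.sin η * Y.re)) := by ring
  rw [e3, h1, h2]
  unfold af
  have e4 : (1:ℝ) + (X.re - 1) = X.re := by ring
  rw [e4]
  have p1 : Da a X.re X.im ^ (j + 1 + m) = Da a X.re X.im ^ j * Da a X.re X.im *
      Da a X.re X.im ^ m := by rw [pow_add, pow_succ]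
  have p2 : Da a X.re X.im ^ (j + 1) = Da a X.re X.im ^ j * Da a X.re X.im := by rw [pow_succ]
  have p3 : Da a X.re X.im ^ (m + 1) = Da a X.re X.im ^ m * Da a X.re X.im := by rw [pow_succ]
  rw [p1, p2, p3]
  field_simp
  push_cast
  ring

/-! ### fields `a₁ q` -/

def EF0 (t : AP × BP) : Ex :=
  Ex.add (Ex.mul (Ex.mul (apE t.1) ePR) (Ex.bp (mu2 (ad2 (mu2 xL (qX a j t.2))
      (mu2 yL (qY a j t.2))) (Dn a (K - j - 1)))))
    (Ex.mul (Ex.mul (Ex.sc (-1) (apE (adas t.1))) (Ex.va 4)) (Ex.bp (mu2 t.2 (Dn a (K - j)))))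

def EF1 (t : AP × BP) : Ex :=
  Ex.add (Ex.mul (Ex.mul (apE t.1) ePR) (Ex.bp (mu2 (sb2 (mu2 yL (qX a j t.2))
      (mu2 xL (qY a j t.2))) (Dn a (K - j - 1)))))
    (Ex.mul (Ex.mul (Ex.sc (-1) (apE (adas t.1))) (Ex.va 3)) (Ex.bp (mu2 t.2 (Dn a (K - j)))))

theorem qcY {X Y : ℂ} (hX : X ≠ 0) : (Y / X) ^ 1 * conj Y =
    (((Y / X).re ^ 2 + (Y / X).im ^ 2 : ℝ) : ℂ) * conj X := by
  have e : conj Y = conj (Y / X) * conj X := by
    rw [← map_mul, div_mul_cancel₀ Y hX]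
  rw [pow_one, e, ← mul_assoc, mul_conj, normSq_apply]
  congr 2
  ring

theorem EF0_re (t : AP × BP) (hK : j + 1 ≤ K) {X Y : ℂ} (hX : X ≠ 0) (l η : ℝ) :
    (EF0 a K j t).re (px l η X Y) = Da a X.re X.im ^ K * NF0 a j t X Y η := by
  obtain ⟨m, rfl⟩ := Nat.exists_eq_add_of_le hK
  have hD := (Da_pos a X.re X.im).ne'
  have e1 : j + 1 + m - j - 1 = m := by omega
  have e2 : j + 1 + m - j = m + 1 := by omega
  simp only [EF0, Ex.re, apE_re, ePR, ev2_mu, ev2_ad, e_sb, e_x, e_y, e1, e2]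
  rw [show (px l η X Y).f = X.re - 1 from rfl, show (px l η X Y).g = X.im from rfl, Dn_ev, Dn_ev,
    show (px l η X Y).b = Real.sin (η / 2) from rfl, show (px l η X Y).c = Real.cos (η / 2) from rfl,
    show (px l η X Y).d = Real.sin η * (Y / X).re from rfl,
    show (px l η X Y).e = Real.sin η * (Y / X).im from rfl]
  unfold NF0 NG
  rw [qcY hX]
  beta_reduce
  rw [af_ash22, af_adas, pow_one]
  unfold Rr
  simp only [mul_re, mul_im, add_re, add_im, ofReal_re, ofReal_im, I_re, I_im, conj_re, conj_im]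
  unfold af
  have e4 : (1:ℝ) + (X.re - 1) = X.re := by ring
  rw [e4]
  have p1 : Da a X.re X.im ^ (j + 1 + m) = Da a X.re X.im ^ j * Da a X.re X.im *
      Da a X.re X.im ^ m := by rw [pow_add, pow_succ]
  have p2 : Da a X.re X.im ^ (j + 1) = Da a X.re X.im ^ j * Da a X.re X.im := by rw [pow_succ]
  have p3 : Da a X.re X.im ^ (m + 1) = Da a X.re X.im ^ m * Da a X.re X.im := by rw [pow_succ]
  rw [p1, p2, p3]
  field_simp
  push_cast
  ring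

theorem EF1_re (t : AP × BP) (hK : j + 1 ≤ K) {X Y : ℂ} (hX : X ≠ 0) (l η : ℝ) :
    (EF1 a K j t).re (px l η X Y) = Da a X.re X.im ^ K * NF1 a j t X Y η := by
  obtain ⟨m, rfl⟩ := Nat.exists_eq_add_of_le hK
  have hD := (Da_pos a X.re X.im).ne'
  have e1 : j + 1 + m - j - 1 = m := by omega
  have e2 : j + 1 + m - j = m + 1 := by omega
  simp only [EF1, Ex.re, apE_re, ePR, ev2_mu, ev2_ad, e_sb, e_x, e_y, e1, e2]
  rw [show (px l η X Y).f = X.re - 1 from rfl, show (px l η X Y).g = X.im from rfl, Dn_ev, Dn_ev,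
    show (px l η X Y).b = Real.sin (η / 2) from rfl, show (px l η X Y).c = Real.cos (η / 2) from rfl,
    show (px l η X Y).d = Real.sin η * (Y / X).re from rfl,
    show (px l η X Y).e = Real.sin η * (Y / X).im from rfl]
  unfold NF1 NG
  rw [qcY hX]
  beta_reduce
  rw [af_ash22, af_adas, pow_one]
  unfold Rr
  simp only [mul_re, mul_im, add_re, add_im, ofReal_re, ofReal_im, I_re, I_im, conj_re, conj_im]
  unfold af
  have e4 : (1:ℝ) + (X.re - 1) = X.re := by ring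
  rw [e4]
  have p1 : Da a X.re X.im ^ (j + 1 + m) = Da a X.re X.im ^ j * Da a X.re X.im *
      Da a X.re X.im ^ m := by rw [pow_add, pow_succ]
  have p2 : Da a X.re X.im ^ (j + 1) = Da a X.re X.im ^ j * Da a X.re X.im := by rw [pow_succ]
  have p3 : Da a X.re X.im ^ (m + 1) = Da a X.re X.im ^ m * Da a X.re X.im := by rw [pow_succ]
  rw [p1, p2, p3]
  field_simp
  push_cast
  ring

end

/-! ### holomorphic fields `a₂ q²` -/

/-- real and imaginary part of `(u + i v)^m`, `m ≤ 2` -/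
def reB : ℕ → BP
  | 0 => [[1]]
  | 1 => [[0], [1]]
  | _ => G2L

def imB : ℕ → BP
  | 0 => [[0]]
  | 1 => [[0, 1]]
  | _ => [[], [0, 2]]

theorem reB_ev (m : ℕ) (hm : m ≤ 2) (X : ℂ) :
    ev2 (X.re - 1) X.im (reB m) = ((X - 1) ^ m).re := by
  interval_cases m
  · simp [reB, ev2, ev1]
  · simp [reB, ev2, ev1]
  · have h : ((X - 1) ^ 2).re = (X.re - 1) ^ 2 - X.im ^ 2 := by
      rw [pow_two (X - 1), mul_re]
      simp
      ring
    simp only [reB, e_G2, h]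

theorem imB_ev (m : ℕ) (hm : m ≤ 2) (X : ℂ) :
    ev2 (X.re - 1) X.im (imB m) = ((X - 1) ^ m).im := by
  interval_cases m
  · simp [imB, ev2, ev1]
  · simp [imB, ev2, ev1]
  · have h : ((X - 1) ^ 2).im = 2 * (X.re - 1) * X.im := by
      rw [pow_two (X - 1), mul_im]
      simp
      ring
    simp [imB, ev2, ev1, h]
    ring

def EH (a K : ℕ) (t : AP × ℕ) : Ex :=
  Ex.add (Ex.mul (Ex.mul (Ex.sc (-2) (apE t.1)) (Ex.mul (Ex.va 3) (Ex.va 4)))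
      (Ex.bp (mu2 (reB t.2) (Dn a K))))
    (Ex.mul (Ex.mul (apE t.1) (Ex.add (Ex.pow (Ex.va 4) 2) (Ex.sc (-1) (Ex.pow (Ex.va 3) 2))))
      (Ex.bp (mu2 (imB t.2) (Dn a K))))

theorem EH_re (a K : ℕ) (t : AP × ℕ) (ht : t.2 ≤ 2) (X Y : ℂ) (l η : ℝ) :
    (EH a K t).re (px l η X Y) = Da a X.re X.im ^ K * NH t X Y η := by
  simp only [EH, Ex.re, apE_re, ev2_mu]
  rw [show (px l η X Y).f = X.re - 1 from rfl, show (px l η X Y).g = X.im from rfl, Dn_ev,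
    reB_ev _ ht, imB_ev _ ht,
    show (px l η X Y).b = Real.sin (η / 2) from rfl, show (px l η X Y).c = Real.cos (η / 2) from rfl,
    show (px l η X Y).d = Real.sin η * (Y / X).re from rfl,
    show (px l η X Y).e = Real.sin η * (Y / X).im from rfl]
  unfold NH NG
  have e : (t.2 : ℂ) * (X - 1) ^ (t.2 - 1) + I * (I * ((t.2 : ℂ) * (X - 1) ^ (t.2 - 1))) = 0 := by
    linear_combination ((t.2 : ℂ) * (X - 1) ^ (t.2 - 1)) * I_sq
  rw [e, zero_mul]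
  beta_reduce
  rw [af_ash22]
  unfold af
  rw [pow_two (Y / X)]
  simp only [zero_re, mul_re, mul_im]
  push_cast
  ring

end Pool.Agent.Helper69.EK3

end

section

set_option autoImplicit false
open Complex MeasureTheory Metric Set
open scoped Real ComplexConjugate

/-!
# Project EK3: data of a certificate and the target expressions
-/

namespace Pool.Agent.Helper69.EK3

open Pool.Sos71
open Pool.EK71 Pool.Agent.Helper52.EK Pool.Agent.Helper2.EK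
open Pool.Agent.Helper71.EK3 (DL xL yL r2L FL G2L e_D e_x e_y e_r2 e_F e_G2)
open Pool.Agent.Helper71.EKC (Da Da_pos pw2 e_pw sb2 e_sb)

/-- one side of the field: `b = m + sg l (α m + β)`, `r (n - 1) + sg l (r0 + r1 |m+1|² + r2 n) = 0`;
`Ma = M α`, `Mb = M β`, `Maa = M α²`, `Mab = M α β`, `Mbb = M β²` -/
structure Sd where
  sg : ℤ
  Ma : ℤ
  Mb : ℤ
  Maa : ℤ
  Mab : ℤ
  Mbb : ℤ
  r : ℤ
  r0 : ℤ
  r1 : ℤ
  r2 : ℤ
  L0 : List (AP × BP)
  L1 : List (AP × BP)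

structure Dat where
  a : ℕ
  K : ℕ
  kU : ℕ
  kV : ℕ
  kF : ℕ
  kL : ℕ
  h : ℕ
  M : ℤ
  lam : ℤ
  c1 : ℤ
  a2 : ℤ
  UU : List (AP × BP)
  VX : List (AP × BP)
  VE : List (AP × BP)
  F0 : List (AP × BP)
  F1 : List (AP × BP)
  HH : List (AP × ℕ)
  HM : List (ℕ × Bool × ℤ)
  fi : Sd
  fo : Sd

/-! ### expressions -/

def eA : Ex := Ex.sc 2 (Ex.mul (Ex.va 1) (Ex.va 2))
def eB : Ex := Ex.add (Ex.pow (Ex.va 2) 2) (Ex.sc (-1) (Ex.pow (Ex.va 1) 2))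
def eo : Ex := Ex.add (Ex.pow (Ex.va 2) 2) (Ex.pow (Ex.va 1) 2)
def eone : Ex := Ex.pow eo 2
def es1 : Ex := Ex.add (Ex.mul eA (Ex.bp [[1], [2]])) (Ex.va 3)
def es2 : Ex := Ex.add (Ex.mul eA (Ex.bp [[0, 2]])) (Ex.va 4)
def et1 : Ex := Ex.add (Ex.mul eA (Ex.bp [[0], [2]])) (Ex.va 3)
def esq : Ex := Ex.add (Ex.pow es1 2) (Ex.pow es2 2)
/-- `n - 1` -/
def eNM : Ex := Ex.sc 4 (Ex.add esq (Ex.add (Ex.sc (-1) (Ex.mul eA es1)) (Ex.mul eB es2)))
/-- `|m - e₀|²` -/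
def eME : Ex := Ex.sc 4 (Ex.add (Ex.pow et1 2) (Ex.pow es2 2))
/-- `Re m` -/
def eRm : Ex := Ex.add (Ex.sc 2 (Ex.add (Ex.mul eA es1) (Ex.sc (-1) (Ex.mul eB es2))))
  (Ex.sc (-1) eone)
/-- `Re e₀` -/
def eRe : Ex := Ex.add (Ex.pow eA 2) (Ex.sc (-1) (Ex.pow eB 2))

def eTT (M : ℤ) (f : Sd) : Ex :=
  Ex.add (Ex.sc M eME) (Ex.add
    (Ex.mul (Ex.sc f.sg (Ex.va 0)) (Ex.add (Ex.sc f.Ma (Ex.add eNM eME))
      (Ex.sc (2 * f.Mb) (Ex.add eRm (Ex.sc (-1) eRe)))))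
    (Ex.mul (Ex.pow (Ex.va 0) 2) (Ex.add (Ex.sc f.Maa (Ex.add eNM eone))
      (Ex.add (Ex.sc (2 * f.Mab) eRm) (Ex.sc f.Mbb eone)))))

def eCon (f : Sd) : Ex :=
  Ex.add (Ex.sc f.r eNM) (Ex.mul (Ex.sc f.sg (Ex.va 0)) (Ex.add (Ex.sc f.r0 eone)
    (Ex.add (Ex.sc (4 * f.r1) esq) (Ex.sc f.r2 (Ex.add eNM eone)))))

/-- `cos kη`, `sin kη` -/
def csE : ℕ → Ex × Ex
  | 0 => (Ex.lit 1, Ex.lit 0)
  | k + 1 => (Ex.add (Ex.mul (csE k).1 eB) (Ex.sc (-1) (Ex.mul (csE k).2 eA)),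
      Ex.add (Ex.mul (csE k).2 eB) (Ex.mul (csE k).1 eA))

/-- sum of a list of expressions -/
def sumE {ι : Type} (f : ι → Ex) (base : Ex) : List ι → Ex
  | [] => base
  | t :: L => Ex.add (f t) (sumE f base L)

def mulE (a K k : ℕ) (t : AP × BP) : Ex := Ex.mul (apE t.1) (Ex.bp (mu2 t.2 (Dn a (K - k))))

def EHM (a K h : ℕ) (t : ℕ × Bool × ℤ) : Ex :=
  Ex.mul (Ex.mul (Ex.sc t.2.2 (if t.2.1 then (csE t.1).1 else (csE t.1).2)) (Ex.pow eo (h - t.1)))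
    (Ex.bp (mu2 G2L (Dn a K)))

namespace Dat
variable (c : Dat)

/-- the null Lagrangians and `lam |X-1|² + a₂ Re (X-1)²`, times `D^K` -/
def tN : Ex :=
  sumE (EU c.a c.K c.kU) (sumE (EVX c.a c.K c.kV) (sumE (EVE c.a c.K c.kV)
    (sumE (EF0 c.a c.K c.kF) (sumE (EF1 c.a c.K c.kF) (sumE (EH c.a c.K)
      (sumE (EHM c.a c.K c.h)
        (Ex.mul (Ex.pow eo c.h) (Ex.bp (mu2 (ad2 (sm2 c.lam FL) (sm2 c.a2 G2L)) (Dn c.a c.K))))
        c.HM) c.HH) c.F1) c.F0) c.VE) c.VX) c.UU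

def tMul (f : Sd) : Ex :=
  Ex.add (sumE (mulE c.a c.K c.kL) (Ex.sc 0 (Ex.pow eo (c.h - 2))) f.L0)
    (Ex.mul (Ex.va 0) (sumE (mulE c.a c.K c.kL) (Ex.sc 0 (Ex.pow eo (c.h - 2))) f.L1))

def tSide (f : Sd) : Ex :=
  Ex.add c.tN (Ex.add
    (Ex.mul (Ex.mul (Ex.pow eo (c.h - 2)) (Ex.bp (sm2 (-1) (Dn c.a c.K)))) (eTT c.M f))
    (Ex.mul (c.tMul f) (eCon f)))

def tIn : Ex := c.tSide c.fi
def tOut : Ex := c.tSide c.fo

end Dat

/-! ### values -/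

theorem px_A (l η : ℝ) (X Y : ℂ) : eA.re (px l η X Y) = Real.sin η := by
  have e : Real.sin η = 2 * Real.sin (η / 2) * Real.cos (η / 2) := by
    rw [← Real.sin_two_mul]
    congr 1
    ring
  rw [e]
  simp only [eA, Ex.re, px]
  push_cast
  ring

theorem px_B (l η : ℝ) (X Y : ℂ) : eB.re (px l η X Y) = Real.cos η := by
  have e : Real.cos η = Real.cos (η / 2) ^ 2 - Real.sin (η / 2) ^ 2 := by
    rw [← Real.cos_two_mul']
    congr 1
    ring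
  rw [e]
  simp only [eB, Ex.re, px]
  push_cast
  ring

theorem px_o (l η : ℝ) (X Y : ℂ) : eo.re (px l η X Y) = 1 := by
  simp only [eo, Ex.re, px]
  exact Real.cos_sq_add_sin_sq _

theorem sumE_re {ι : Type} (f : ι → Ex) (base : Ex) (L : List ι) (x : Pnt) :
    (sumE f base L).re x = (L.map fun t => (f t).re x).sum + base.re x := by
  induction L with
  | nil => simp [sumE]
  | cons t L ih =>
    simp only [sumE, List.map_cons, List.sum_cons]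
    show (f t).re x + (sumE f base L).re x = _
    rw [ih]
    ring

theorem csE_re (k : ℕ) (l η : ℝ) (X Y : ℂ) :
    (csE k).1.re (px l η X Y) = Real.cos (k * η) ∧ (csE k).2.re (px l η X Y) = Real.sin (k * η) := by
  induction k with
  | zero => simp [csE, Ex.re]
  | succ k ih =>
    have e : ((k + 1 : ℕ) : ℝ) * η = k * η + η := by push_cast; ring
    rw [e, Real.cos_add, Real.sin_add]
    constructor
    · show (csE k).1.re _ * eB.re _ + (-1 : ℤ) * ((csE k).2.re _ * eA.re _) = _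
      rw [ih.1, ih.2, px_A, px_B]
      push_cast
      ring
    · show (csE k).2.re _ * eB.re _ + (csE k).1.re _ * eA.re _ = _
      rw [ih.1, ih.2, px_A, px_B]

/-- `m + 1 = 2 (s + i c) s (2X - 1 + q)` -/
theorem mX_add {X Y : ℂ} {s c : ℝ} (hsc : s ^ 2 + c ^ 2 = 1) :
    mX X Y s c + 1 = 2 * ((s : ℂ) + (c : ℂ) * I) *
      (((s * (2 * X.re - 1) + s * (Y / X).re : ℝ) : ℂ) +
        ((s * (2 * X.im) + s * (Y / X).im : ℝ) : ℂ) * I) := by
  have h1 : 2 * X - 1 + Y / X = ((2 * X.re - 1 + (Y / X).re : ℝ) : ℂ) +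
      ((2 * X.im + (Y / X).im : ℝ) : ℂ) * I := by
    apply Complex.ext
    · simp
    · simp
  have h2 : 1 + e0 s c = 2 * (s : ℂ) * ((s : ℂ) + (c : ℂ) * I) := by
    unfold e0
    have h3 : (s : ℂ) ^ 2 + (c : ℂ) ^ 2 = 1 := by exact_mod_cast hsc
    linear_combination -h3 - (s : ℂ) ^ 2 * I_sq
  unfold mX
  rw [h1, h2]
  push_cast
  ring

section val
variable (l η : ℝ) (X Y : ℂ)

theorem px_s1 : es1.re (px l η X Y) =
    Real.sin η * (2 * X.re - 1) + Real.sin η * (Y / X).re := by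
  show eA.re _ * (Ex.bp [[1], [2]]).re _ + (Ex.va 3).re _ = _
  rw [px_A]
  simp only [Ex.re, ev2, ev1, px]
  push_cast
  ring

theorem px_s2 : es2.re (px l η X Y) = Real.sin η * (2 * X.im) + Real.sin η * (Y / X).im := by
  show eA.re _ * (Ex.bp [[0, 2]]).re _ + (Ex.va 4).re _ = _
  rw [px_A]
  simp only [Ex.re, ev2, ev1, px]
  push_cast
  ring

theorem px_t1 : et1.re (px l η X Y) = Real.sin η * (2 * (X.re - 1)) + Real.sin η * (Y / X).re := by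
  show eA.re _ * (Ex.bp [[0], [2]]).re _ + (Ex.va 3).re _ = _
  rw [px_A]
  simp only [Ex.re, ev2, ev1, px]
  push_cast
  ring

theorem px_sq : esq.re (px l η X Y) = ‖mX X Y (Real.sin η) (Real.cos η) + 1‖ ^ 2 / 4 := by
  show es1.re _ ^ 2 + es2.re _ ^ 2 = _
  rw [px_s1, px_s2, mX_add (Real.sin_sq_add_cos_sq η), norm_mul, norm_mul, mul_pow, mul_pow,
    nq_sq ((Real.sin η : ℂ) + _), nq_sq ((((_ : ℝ) : ℂ)) + _)]
  simp only [add_re, add_im, mul_re, mul_im, ofReal_re, ofReal_im, I_re, I_im, mul_zero,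
    mul_one, sub_zero, add_zero, zero_add, Complex.norm_ofNat]
  have h := Real.sin_sq_add_cos_sq η
  linear_combination (-((Real.sin η * (2 * X.re - 1) + Real.sin η * (Y / X).re) ^ 2 +
    (Real.sin η * (2 * X.im) + Real.sin η * (Y / X).im) ^ 2)) * h

theorem px_Rm : eRm.re (px l η X Y) = (mX X Y (Real.sin η) (Real.cos η)).re := by
  show (2:ℤ) * (eA.re _ * es1.re _ + (-1 : ℤ) * (eB.re _ * es2.re _)) +
    (-1 : ℤ) * (eo.re _ ^ 2) = _
  rw [px_A, px_B, px_o, px_s1, px_s2]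
  have h := congrArg Complex.re (mX_add (X := X) (Y := Y) (Real.sin_sq_add_cos_sq η))
  simp only [add_re, add_im, mul_re, mul_im, ofReal_re, ofReal_im, I_re, I_im, mul_zero,
    mul_one, sub_zero, add_zero, zero_add, one_re, re_ofNat, im_ofNat] at h
  push_cast
  linear_combination -h

theorem px_NM : eNM.re (px l η X Y) = ‖mX X Y (Real.sin η) (Real.cos η)‖ ^ 2 - 1 := by
  show (4:ℤ) * (esq.re _ + ((-1 : ℤ) * (eA.re _ * es1.re _) + eB.re _ * es2.re _)) = _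
  have h1 := px_sq l η X Y
  have h2 := px_Rm l η X Y
  have h3 : eRm.re (px l η X Y) = (2:ℤ) * (eA.re (px l η X Y) * es1.re (px l η X Y) +
    (-1 : ℤ) * (eB.re (px l η X Y) * es2.re (px l η X Y))) + (-1 : ℤ) *
      (eo.re (px l η X Y) ^ 2) := rfl
  rw [px_o] at h3
  have h4 : ‖mX X Y (Real.sin η) (Real.cos η) + 1‖ ^ 2 =
      ‖mX X Y (Real.sin η) (Real.cos η)‖ ^ 2 + 2 * (mX X Y (Real.sin η) (Real.cos η)).re + 1 := by
    rw [nq_sq, nq_sq]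
    simp only [add_re, add_im, one_re, one_im]
    ring
  rw [h4] at h1
  rw [h2] at h3
  push_cast at h3 ⊢
  linear_combination 4 * h1 + 2 * h3

theorem norm_e0 : ‖e0 (Real.sin η) (Real.cos η)‖ = 1 := by
  have h1 : ‖(Real.cos η : ℂ) - (Real.sin η : ℂ) * I‖ ^ 2 = 1 := by
    rw [nq_sq]
    simp only [sub_re, sub_im, mul_re, mul_im, ofReal_re, ofReal_im, I_re, I_im, mul_zero,
      mul_one, sub_zero, add_zero, zero_add, zero_sub]
    nlinarith [Real.sin_sq_add_cos_sq η]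
  unfold e0
  rw [norm_neg, norm_pow, h1]

theorem px_ME : eME.re (px l η X Y) =
    ‖mX X Y (Real.sin η) (Real.cos η) - e0 (Real.sin η) (Real.cos η)‖ ^ 2 := by
  show (4:ℤ) * (et1.re _ ^ 2 + es2.re _ ^ 2) = _
  rw [px_t1, px_s2]
  have h0 : mX X Y (Real.sin η) (Real.cos η) - e0 (Real.sin η) (Real.cos η) =
      (1 + e0 (Real.sin η) (Real.cos η)) * (2 * X - 2 + Y / X) := by
    unfold mX
    ring
  have h2 : 1 + e0 (Real.sin η) (Real.cos η) =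
      2 * (Real.sin η : ℂ) * ((Real.sin η : ℂ) + (Real.cos η : ℂ) * I) := by
    unfold e0
    have h3 : (Real.sin η : ℂ) ^ 2 + (Real.cos η : ℂ) ^ 2 = 1 := by
      exact_mod_cast Real.sin_sq_add_cos_sq η
    linear_combination -h3 - (Real.sin η : ℂ) ^ 2 * I_sq
  have h4 : ‖(Real.sin η : ℂ) + (Real.cos η : ℂ) * I‖ ^ 2 = 1 := by
    rw [nq_sq]
    simp only [add_re, add_im, mul_re, mul_im, ofReal_re, ofReal_im, I_re, I_im, mul_zero,
      mul_one, sub_zero, add_zero, zero_add]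
    exact Real.sin_sq_add_cos_sq η
  rw [h0, h2, norm_mul, mul_pow, norm_mul, mul_pow, h4, norm_mul, mul_pow, Complex.norm_real,
    Real.norm_eq_abs, sq_abs, nq_sq (2 * X - 2 + Y / X)]
  simp only [add_re, add_im, sub_re, sub_im, mul_re, mul_im, re_ofNat, im_ofNat,
    Complex.norm_ofNat]
  push_cast
  ring

theorem px_Re : eRe.re (px l η X Y) = (e0 (Real.sin η) (Real.cos η)).re := by
  show eA.re _ ^ 2 + (-1 : ℤ) * eB.re _ ^ 2 = _
  rw [px_A, px_B]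
  unfold e0
  rw [pow_two ((Real.cos η : ℂ) - _)]
  simp only [neg_re, mul_re, mul_im, sub_re, sub_im, ofReal_re, ofReal_im, I_re, I_im]
  push_cast
  ring

/-- **the loss at a field value `m + sg l (α m + β)`** -/
theorem px_TT {M : ℤ} {f : Sd} {α β : ℝ} (h1 : (f.Ma : ℝ) = M * α) (h2 : (f.Mb : ℝ) = M * β)
    (h3 : (f.Maa : ℝ) = M * α ^ 2) (h4 : (f.Mab : ℝ) = M * (α * β)) (h5 : (f.Mbb : ℝ) = M * β ^ 2)
    (hs : (f.sg : ℝ) ^ 2 = 1) :
    (eTT M f).re (px l η X Y) = M * ‖mX X Y (Real.sin η) (Real.cos η) +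
      (((f.sg : ℝ) * l : ℝ) : ℂ) * ((α : ℂ) * mX X Y (Real.sin η) (Real.cos η) + (β : ℂ)) -
      e0 (Real.sin η) (Real.cos η)‖ ^ 2 := by
  have e : (eTT M f).re (px l η X Y) = M * eME.re (px l η X Y) + ((f.sg * l) *
      (f.Ma * (eNM.re (px l η X Y) + eME.re (px l η X Y)) + ((2 * f.Mb : ℤ) : ℝ) *
      (eRm.re (px l η X Y) + ((-1 : ℤ) : ℝ) * eRe.re (px l η X Y))) + l ^ 2 *
      (f.Maa * (eNM.re (px l η X Y) + eo.re (px l η X Y) ^ 2) + (((2 * f.Mab : ℤ) : ℝ) *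
      eRm.re (px l η X Y) + f.Mbb * eo.re (px l η X Y) ^ 2))) := rfl
  rw [e, px_ME, px_NM, px_Rm, px_Re, px_o]
  have n0 := norm_e0 η
  generalize mX X Y (Real.sin η) (Real.cos η) = m
  have n1 : ‖e0 (Real.sin η) (Real.cos η)‖ ^ 2 = 1 := by rw [n0]; norm_num
  generalize e0 (Real.sin η) (Real.cos η) = z at n1
  rw [nq_sq] at n1
  rw [nq_sq, nq_sq, nq_sq]
  simp only [add_re, add_im, sub_re, sub_im, mul_re, mul_im, ofReal_re, ofReal_im]
  push_cast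
  rw [h1, h2, h3, h4, h5]
  linear_combination (f.sg * l * M * α) * n1 +
    (-(l ^ 2 * M) * ((α * m.re + β) ^ 2 + (α * m.im) ^ 2)) * hs

theorem px_Con (f : Sd) : (eCon f).re (px l η X Y) =
    f.r * (‖mX X Y (Real.sin η) (Real.cos η)‖ ^ 2 - 1) + f.sg * l *
      (f.r0 + f.r1 * ‖mX X Y (Real.sin η) (Real.cos η) + 1‖ ^ 2 +
        f.r2 * ‖mX X Y (Real.sin η) (Real.cos η)‖ ^ 2) := by
  have e : (eCon f).re (px l η X Y) = f.r * eNM.re (px l η X Y) + (f.sg * l) *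
      (f.r0 * eo.re (px l η X Y) ^ 2 + (((4 * f.r1 : ℤ) : ℝ) * esq.re (px l η X Y) +
      f.r2 * (eNM.re (px l η X Y) + eo.re (px l η X Y) ^ 2))) := rfl
  rw [e, px_NM, px_sq, px_o]
  push_cast
  ring

end val

end Pool.Agent.Helper69.EK3

end

section

set_option autoImplicit false
open Complex MeasureTheory Metric Set
open scoped Real ComplexConjugate

/-!
# Project EK3: the centre line
-/

namespace Pool.Agent.Helper69.EK3

open Pool.Sos71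
open Pool.EK71 Pool.Agent.Helper52.EK Pool.Agent.Helper2.EK
open Pool.Agent.Helper71.EK3 (DL xL yL r2L FL G2L e_D e_x e_y e_r2 e_F e_G2)
open Pool.Agent.Helper71.EKC (Da Da_pos pw2 e_pw sb2 e_sb c1_unique c1_conj)

/-! ### parity -/

/-- parity of a polynomial in `y`; `true`: even -/
def par : Bool → List ℤ → Bool
  | _, [] => true
  | true, _ :: l => par false l
  | false, a :: l => decide (a = 0) && par true l

def par2 (b : Bool) (P : BP) : Bool := P.all (par b)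

theorem par_ev (y : ℝ) (l : List ℤ) : (par true l = true → ev1 (-y) l = ev1 y l) ∧
    (par false l = true → ev1 (-y) l = - ev1 y l) := by
  induction l with
  | nil => simp [ev1]
  | cons a l ih =>
    constructor
    · intro h
      simp only [par] at h
      simp only [ev1, ih.2 h]
      ring
    · intro h
      simp only [par, Bool.and_eq_true, decide_eq_true_eq] at h
      simp only [ev1, ih.1 h.2, h.1]
      push_cast
      ring

theorem par2_even (x y : ℝ) (P : BP) (h : par2 true P = true) : ev2 x (-y) P = ev2 x y P := by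
  induction P with
  | nil => simp [ev2]
  | cons r P ih =>
    simp only [par2, List.all_cons, Bool.and_eq_true] at h
    simp only [ev2, (par_ev y r).1 h.1, ih h.2]

theorem par2_odd (x y : ℝ) (P : BP) (h : par2 false P = true) : ev2 x (-y) P = - ev2 x y P := by
  induction P with
  | nil => simp [ev2]
  | cons r P ih =>
    simp only [par2, List.all_cons, Bool.and_eq_true] at h
    simp only [ev2, (par_ev y r).2 h.1, ih h.2]
    ring

/-- `y ↦ -y` -/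
def fl1 (s : ℤ) : List ℤ → List ℤ
  | [] => []
  | a :: l => Int.mul s a :: fl1 (-s) l

def fl2 (P : BP) : BP := P.map (fl1 1)

theorem fl1_ev (s : ℤ) (y : ℝ) (l : List ℤ) : ev1 y (fl1 s l) = s * ev1 (-y) l := by
  induction l generalizing s with
  | nil => simp [fl1, ev1]
  | cons a l ih =>
    simp only [fl1, ev1, ih, imul_cast']
    push_cast
    ring

theorem fl2_ev (x y : ℝ) (P : BP) : ev2 x y (fl2 P) = ev2 x (-y) P := by
  induction P with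
  | nil => simp [fl2, ev2]
  | cons r P ih =>
    have ih' : ev2 x y (P.map (fl1 1)) = ev2 x (-y) P := ih
    simp only [fl2, List.map_cons, ev2, fl1_ev, ih']
    push_cast
    ring

theorem Da_conj (a : ℕ) (X : ℂ) : Da a (conj X).re (conj X).im = Da a X.re X.im := by
  simp [Da]

theorem Rr_conj_even {a j : ℕ} {P : BP} (h : par2 true P = true) (X : ℂ) :
    Rr a j P (conj X) = Rr a j P X := by
  unfold Rr
  rw [Da_conj, conj_re, conj_im, par2_even _ _ _ h]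

theorem Rr_conj_odd {a j : ℕ} {P : BP} (h : par2 false P = true) (X : ℂ) :
    Rr a j P (conj X) = - Rr a j P X := by
  unfold Rr
  rw [Da_conj, conj_re, conj_im, par2_odd _ _ _ h]
  ring

/-! ### the centre terms of the families -/

/-- `R + R ∘ conj` -/
noncomputable def Rs (a j : ℕ) (P : BP) (X : ℂ) : ℝ := Rr a j P X + Rr a j P (conj X)

theorem dEta_conj {a j : ℕ} {P : BP} (h : par2 true P = true) (X Y : ℂ) :
    dEta (Rr a (j + 1) (qX a j P)) (Rr a (j + 1) (qY a j P)) X Y +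
      dEta (Rr a (j + 1) (qX a j P)) (Rr a (j + 1) (qY a j P)) (conj X) (conj Y) = 0 := by
  have h1 := c1_Rr a j P
  have h2 := c1_conj h1
  have h3 : C1f (fun X => Rr a j P X) (fun X => Rr a (j + 1) (qX a j P) (conj X))
      (fun X => - Rr a (j + 1) (qY a j P) (conj X)) :=
    c1_congr h2 (fun X => (Rr_conj_even h X).symm) (fun _ => rfl) (fun _ => rfl)
  obtain ⟨e1, e2⟩ := c1_unique h1 h3 X
  unfold dEta
  rw [conj_re, conj_im, e1, e2]
  ring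

/-- conditions of the families -/
def okU (h j : ℕ) (t : AP × BP) : Bool :=
  dle (2 * j + 2) t.2 && ahom (2 * h - 4) t.1 && (decide (asum t.1 = 0) || par2 true t.2)

def okF (b : Bool) (h j : ℕ) (t : AP × BP) : Bool :=
  dle (2 * j + 2) t.2 && ahom (2 * h - 4) t.1 && (decide (asum t.1 = 0) || par2 b t.2)

theorem asum_ash (a b : ℕ) (g : AP) : asum (ash a b g) = asum g := by
  induction g with
  | nil => rfl
  | cons t g ih =>
    obtain ⟨c, i, j⟩ := t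
    simp only [ash, asum, ih]

theorem KU_conj {a j h : ℕ} (hh : 2 ≤ h) {t : AP × BP} (ht : okU h j t = true) (X Y : ℂ) :
    KU a j t X Y + KU a j t (conj X) (conj Y) =
      - (2 * (asum (ader (ash 2 2 t.1)) : ℝ) / 2 ^ h * Rs a j t.2 X) := by
  simp only [okU, Bool.and_eq_true, Bool.or_eq_true, decide_eq_true_eq] at ht
  obtain ⟨⟨_, h2⟩, h3⟩ := ht
  have e0 : 2 * h - 4 + 2 + 2 = 2 * h := by omega
  have g1 : ahom (2 * h) (ash 2 2 t.1) = true := by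
    have := ahom_ash 2 2 h2
    rwa [e0] at this
  have g2 := ahom_ader g1
  unfold KU Rs
  rw [af_half_even g1, af_half_even g2, asum_ash]
  rcases h3 with h3 | h3
  · rw [h3]
    push_cast
    ring
  · have h4 := dEta_conj (a := a) (j := j) h3 X Y
    linear_combination (4 * ((asum t.1 : ℝ) / 2 ^ h)) * h4

theorem KVE_conj {a j h : ℕ} (hh : 2 ≤ h) {t : AP × BP} (ht : ahom (2 * h - 2) t.1 = true)
    (X Y : ℂ) : KVE a j t X Y + KVE a j t (conj X) (conj Y) =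
      2 * (asum t.1 : ℝ) / 2 ^ h * Rs a j t.2 X := by
  have e0 : 2 * h - 2 + 1 + 1 = 2 * h := by omega
  have g1 : ahom (2 * h) (ash 1 1 t.1) = true := by
    have := ahom_ash 1 1 ht
    rwa [e0] at this
  unfold KVE Rs
  rw [af_half_even g1, asum_ash]
  ring

theorem KF0_conj {a j h : ℕ} (hh : 2 ≤ h) {t : AP × BP} (ht : okF true h j t = true) (X Y : ℂ) :
    KF0 a j t X Y + KF0 a j t (conj X) (conj Y) = 0 := by
  simp only [okF, Bool.and_eq_true, Bool.or_eq_true, decide_eq_true_eq] at ht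
  obtain ⟨⟨_, h2⟩, h3⟩ := ht
  have e0 : 2 * h - 4 + 2 + 2 = 2 * h := by omega
  have g1 : ahom (2 * h) (ash 2 2 t.1) = true := by
    have := ahom_ash 2 2 h2
    rwa [e0] at this
  unfold KF0
  rw [af_half_even g1, asum_ash]
  rcases h3 with h3 | h3
  · rw [h3]
    simp
  · rw [Rr_conj_even h3, pow_one, pow_one, ← map_div₀]
    simp only [mul_im, ofReal_re, ofReal_im, conj_re, conj_im]
    ring

theorem KF1_conj {a j h : ℕ} (hh : 2 ≤ h) {t : AP × BP} (ht : okF false h j t = true) (X Y : ℂ) :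
    KF1 a j t X Y + KF1 a j t (conj X) (conj Y) = 0 := by
  simp only [okF, Bool.and_eq_true, Bool.or_eq_true, decide_eq_true_eq] at ht
  obtain ⟨⟨_, h2⟩, h3⟩ := ht
  have e0 : 2 * h - 4 + 2 + 2 = 2 * h := by omega
  have g1 : ahom (2 * h) (ash 2 2 t.1) = true := by
    have := ahom_ash 2 2 h2
    rwa [e0] at this
  unfold KF1
  rw [af_half_even g1, asum_ash]
  rcases h3 with h3 | h3
  · rw [h3]
    simp
  · rw [Rr_conj_odd h3, pow_one, pow_one, ← map_div₀]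
    simp only [mul_im, mul_re, I_re, I_im, ofReal_re, ofReal_im, conj_re, conj_im]
    ring

theorem KH_conj (t : AP × ℕ) (X Y : ℂ) : KH t X Y + KH t (conj X) (conj Y) = 0 := by
  unfold KH
  have e : (conj X - 1) ^ t.2 * (conj Y / conj X) ^ 2 = conj ((X - 1) ^ t.2 * (Y / X) ^ 2) := by
    simp
  rw [e, conj_im]
  ring

/-! ### the harmonic part -/

/-- `12 ∫ cos kη` resp. `12 ∫ sin kη` over `(0, π/2)`, `1 ≤ k ≤ 4` -/
def hmv : ℕ → Bool → ℤ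
  | 1, true => 12
  | 3, true => -4
  | 1, false => 12
  | 2, false => 12
  | 3, false => 4
  | _, _ => 0

noncomputable def trg (k : ℕ) (b : Bool) (η : ℝ) : ℝ := if b then Real.cos (k * η) else Real.sin (k * η)

theorem trg_cont (k : ℕ) (b : Bool) : Continuous (trg k b) := by
  unfold trg
  cases b
  · simpa using (by fun_prop : Continuous fun η : ℝ => Real.sin (k * η))
  · simpa using (by fun_prop : Continuous fun η : ℝ => Real.cos (k * η))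

theorem trg_int (k : ℕ) (b : Bool) (h1 : 1 ≤ k) (h2 : k ≤ 4) :
    12 * ∫ t in (0:ℝ)..(π / 2), trg k b t = hmv k b := by
  have hk : (k : ℝ) ≠ 0 := by positivity
  cases b
  · have e : ∫ t in (0:ℝ)..(π / 2), trg k false t = (k : ℝ)⁻¹ * (1 - Real.cos (k * (π / 2))) := by
      simp only [trg, Bool.false_eq_true, if_false]
      rw [intervalIntegral.integral_comp_mul_left (fun t => Real.sin t) hk, integral_sin,
        smul_eq_mul, mul_zero, Real.cos_zero]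
    rw [e]
    interval_cases k
    · simp [hmv]
    · have : ((2 : ℕ) : ℝ) * (π / 2) = π := by push_cast; ring
      rw [this, Real.cos_pi]
      simp [hmv]
      norm_num
    · have : ((3 : ℕ) : ℝ) * (π / 2) = π + π / 2 := by push_cast; ring
      rw [this, Real.cos_add, Real.cos_pi_div_two, Real.sin_pi]
      simp [hmv]
      norm_num
    · have : ((4 : ℕ) : ℝ) * (π / 2) = 2 * π := by push_cast; ring
      rw [this, Real.cos_two_pi]
      simp [hmv]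
  · have e : ∫ t in (0:ℝ)..(π / 2), trg k true t = (k : ℝ)⁻¹ * Real.sin (k * (π / 2)) := by
      simp only [trg, if_true]
      rw [intervalIntegral.integral_comp_mul_left (fun t => Real.cos t) hk, integral_cos,
        smul_eq_mul, mul_zero, Real.sin_zero, sub_zero]
    rw [e]
    interval_cases k
    · simp [hmv]
    · have : ((2 : ℕ) : ℝ) * (π / 2) = π := by push_cast; ring
      rw [this, Real.sin_pi]
      simp [hmv]
    · have : ((3 : ℕ) : ℝ) * (π / 2) = π + π / 2 := by push_cast; ring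
      rw [this, Real.sin_add, Real.cos_pi_div_two, Real.sin_pi, Real.cos_pi,
        Real.sin_pi_div_two]
      simp [hmv]
      norm_num
    · have : ((4 : ℕ) : ℝ) * (π / 2) = 2 * π := by push_cast; ring
      rw [this, Real.sin_two_pi]
      simp [hmv]

noncomputable def NM (t : ℕ × Bool × ℤ) (X _Y : ℂ) (η : ℝ) : ℝ :=
  (t.2.2 : ℝ) * (trg t.1 t.2.1 η * ((X - 1) ^ 2).re)

noncomputable def KM (t : ℕ × Bool × ℤ) (X _Y : ℂ) : ℝ :=
  (t.2.2 : ℝ) * ((∫ u in (0:ℝ)..(π / 2), trg t.1 t.2.1 u) * ((X - 1) ^ 2).re)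

theorem isNull_NM (t : ℕ × Bool × ℤ) : IsNull DiscP (NM t) (KM t) :=
  (isNull_har (trg_cont t.1 t.2.1) 2 le_rfl).const_mul (t.2.2 : ℝ)

theorem EHM_re (a K h : ℕ) (t : ℕ × Bool × ℤ) (X Y : ℂ) (l η : ℝ) :
    (EHM a K h t).re (px l η X Y) = Da a X.re X.im ^ K * NM t X Y η := by
  have h1 := csE_re t.1 l η X Y
  have e : (EHM a K h t).re (px l η X Y) = (t.2.2 : ℝ) *
      ((if t.2.1 then (csE t.1).1 else (csE t.1).2).re (px l η X Y)) *
      (eo.re (px l η X Y) ^ (h - t.1)) * ev2 (X.re - 1) X.im (mu2 G2L (Dn a K)) := rfl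
  rw [e, px_o, one_pow, ev2_mu, e_G2, Dn_ev]
  have h3 : ((X - 1) ^ 2).re = (X.re - 1) ^ 2 - X.im ^ 2 := by
    rw [pow_two (X - 1), mul_re]
    simp
    ring
  unfold NM trg
  rw [h3]
  cases hb : t.2.1
  · simp only [Bool.false_eq_true, if_false, h1.2]
    ring
  · simp only [if_true, h1.1]
    ring

theorem KM_conj {t : ℕ × Bool × ℤ} (h1 : 1 ≤ t.1) (h2 : t.1 ≤ 4) (X Y : ℂ) :
    KM t X Y + KM t (conj X) (conj Y) =
      (t.2.2 : ℝ) * hmv t.1 t.2.1 / 6 * ((X.re - 1) ^ 2 - X.im ^ 2) := by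
  have h3 : ∀ X : ℂ, ((X - 1) ^ 2).re = (X.re - 1) ^ 2 - X.im ^ 2 := by
    intro X
    rw [pow_two (X - 1), mul_re]
    simp
    ring
  have h4 := trg_int t.1 t.2.1 h1 h2
  unfold KM
  rw [h3, h3, ← h4, conj_re, conj_im]
  ring

end Pool.Agent.Helper69.EK3

end

section

set_option autoImplicit false
open Complex MeasureTheory Metric Set
open scoped Real ComplexConjugate

/-!
# Project EK3: assembly of the certificate
-/

namespace Pool.Agent.Helper69.EK3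

open Pool.Sos71
open Pool.EK71 Pool.Agent.Helper52.EK Pool.Agent.Helper2.EK
open Pool.Agent.Helper71.EK3 (DL xL yL r2L FL G2L e_D e_x e_y e_r2 e_F e_G2)
open Pool.Agent.Helper71.EKC (Da Da_pos pw2 e_pw sb2 e_sb c1_unique c1_conj)

/-- sum of a list of polynomials -/
def sumB {ι : Type} (f : ι → BP) (base : BP) : List ι → BP
  | [] => base
  | t :: L => ad2 (f t) (sumB f base L)

theorem sumB_ev {ι : Type} (f : ι → BP) (base : BP) (L : List ι) (x y : ℝ) :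
    ev2 x y (sumB f base L) = (L.map fun t => ev2 x y (f t)).sum + ev2 x y base := by
  induction L with
  | nil => simp [sumB]
  | cons t L ih =>
    simp only [sumB, List.map_cons, List.sum_cons, ev2_ad, ih]
    ring

theorem map_sum_mul {ι : Type} (L : List ι) (f : ι → ℝ) (c : ℝ) :
    (L.map fun t => c * f t).sum = c * (L.map f).sum := by
  induction L with
  | nil => simp
  | cons t L ih =>
    simp only [List.map_cons, List.sum_cons, ih]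
    ring

theorem map_sum_add {ι : Type} (L : List ι) (f g : ι → ℝ) :
    (L.map f).sum + (L.map g).sum = (L.map fun t => f t + g t).sum := by
  induction L with
  | nil => simp
  | cons t L ih =>
    simp only [List.map_cons, List.sum_cons, ← ih]
    ring

theorem map_sum_congr {ι : Type} (L : List ι) {f g : ι → ℝ} (h : ∀ t ∈ L, f t = g t) :
    (L.map f).sum = (L.map g).sum := by
  rw [List.map_congr_left h]

theorem c1_list {ι : Type} (L : List ι) (F : ι → ℂ → ℝ)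
    (h : ∀ t, ∃ Fx Fy : ℂ → ℝ, C1f (F t) Fx Fy) :
    ∃ Fx Fy : ℂ → ℝ, C1f (fun X => (L.map fun t => F t X).sum) Fx Fy := by
  induction L with
  | nil => exact ⟨_, _, by simpa using c1_const 0⟩
  | cons t L ih =>
    obtain ⟨Ax, Ay, hA⟩ := h t
    obtain ⟨Bx, By, hB⟩ := ih
    exact ⟨_, _, by simpa only [List.map_cons, List.sum_cons] using c1_add hA hB⟩

namespace Dat
variable (c : Dat)

/-- conditions on the data -/
def wf : Bool :=
  Nat.ble 1 c.a && Nat.ble (c.kU + 2) c.K && Nat.ble (c.kV + 1) c.K && Nat.ble (c.kF + 1) c.K &&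
  Nat.ble c.kL c.K && Nat.ble 2 c.h &&
  c.UU.all (okU c.h c.kU) && c.VX.all (fun t => dle (2 * c.kV + 2) t.2) &&
  c.VE.all (fun t => ahom (2 * c.h - 2) t.1) &&
  c.F0.all (okF true c.h c.kF) && c.F1.all (okF false c.h c.kF) &&
  c.HH.all (fun t => Nat.ble t.2 2) && c.HM.all (fun t => Nat.ble 1 t.1 && Nat.ble t.1 4)

structure Wf : Prop where
  a1 : 1 ≤ c.a
  kU : c.kU + 2 ≤ c.K
  kV : c.kV + 1 ≤ c.K
  kF : c.kF + 1 ≤ c.K
  kL : c.kL ≤ c.K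
  h2 : 2 ≤ c.h
  uu : ∀ t ∈ c.UU, okU c.h c.kU t = true
  vx : ∀ t ∈ c.VX, dle (2 * c.kV + 2) t.2 = true
  ve : ∀ t ∈ c.VE, ahom (2 * c.h - 2) t.1 = true
  f0 : ∀ t ∈ c.F0, okF true c.h c.kF t = true
  f1 : ∀ t ∈ c.F1, okF false c.h c.kF t = true
  hh : ∀ t ∈ c.HH, t.2 ≤ 2
  hm : ∀ t ∈ c.HM, 1 ≤ t.1 ∧ t.1 ≤ 4

theorem wf_iff (h : c.wf = true) : c.Wf := by
  simp only [wf, Bool.and_eq_true, Nat.ble_eq, List.all_eq_true] at h
  obtain ⟨⟨⟨⟨⟨⟨⟨⟨⟨⟨⟨⟨h1, h2⟩, h3⟩, h4⟩, h5⟩, h6⟩, h7⟩, h8⟩, h9⟩, h10⟩, h11⟩, h12⟩, h13⟩ := h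
  exact ⟨h1, h2, h3, h4, h5, h6, h7, h8, h9, h10, h11, h12, h13⟩

/-- the total null Lagrangian -/
noncomputable def NT (X Y : ℂ) (η : ℝ) : ℝ :=
  (c.UU.map fun t => NU c.a c.kU t X Y η).sum + ((c.VX.map fun t => NVX c.a c.kV t X Y η).sum +
  ((c.VE.map fun t => NVE c.a c.kV t X Y η).sum + ((c.F0.map fun t => NF0 c.a c.kF t X Y η).sum +
  ((c.F1.map fun t => NF1 c.a c.kF t X Y η).sum + ((c.HH.map fun t => NH t X Y η).sum +
  (c.HM.map fun t => NM t X Y η).sum)))))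

noncomputable def KT (X Y : ℂ) : ℝ :=
  (c.UU.map fun t => KU c.a c.kU t X Y).sum + ((c.VX.map fun _ => (0:ℝ)).sum +
  ((c.VE.map fun t => KVE c.a c.kV t X Y).sum + ((c.F0.map fun t => KF0 c.a c.kF t X Y).sum +
  ((c.F1.map fun t => KF1 c.a c.kF t X Y).sum + ((c.HH.map fun t => KH t X Y).sum +
  (c.HM.map fun t => KM t X Y).sum)))))

variable {c}

theorem isNull_NT (w : c.Wf) : IsNull DiscP c.NT c.KT := by
  have hU : ∀ t ∈ c.UU, dle (2 * c.kU + 2) t.2 = true := fun t ht => by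
    have := w.uu t ht
    simp only [okU, Bool.and_eq_true] at this
    exact this.1.1
  have h0 : ∀ t ∈ c.F0, dle (2 * c.kF + 2) t.2 = true := fun t ht => by
    have := w.f0 t ht
    simp only [okF, Bool.and_eq_true] at this
    exact this.1.1
  have h1 : ∀ t ∈ c.F1, dle (2 * c.kF + 2) t.2 = true := fun t ht => by
    have := w.f1 t ht
    simp only [okF, Bool.and_eq_true] at this
    exact this.1.1
  exact (IsNull.list c.UU fun t ht => isNull_NU w.a1 t (hU t ht)).add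
    ((IsNull.list c.VX fun t ht => isNull_NVX w.a1 t (w.vx t ht)).add
    ((IsNull.list c.VE fun t _ => isNull_NVE t).add
    ((IsNull.list c.F0 fun t ht => isNull_NF0 w.a1 t (h0 t ht)).add
    ((IsNull.list c.F1 fun t ht => isNull_NF1 w.a1 t (h1 t ht)).add
    ((IsNull.list c.HH fun t ht => isNull_NH t (w.hh t ht)).add
    (IsNull.list c.HM fun t _ => isNull_NM t))))))

theorem tN_re (w : c.Wf) {X Y : ℂ} (hX : X ≠ 0) (l η : ℝ) : c.tN.re (px l η X Y) =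
    Da c.a X.re X.im ^ c.K * (c.NT X Y η + (c.lam * ‖X - 1‖ ^ 2 +
      c.a2 * ((X.re - 1) ^ 2 - X.im ^ 2))) := by
  have e0 : ‖X - 1‖ ^ 2 = (X.re - 1) ^ 2 + X.im ^ 2 := by
    rw [nq_sq]
    simp
  unfold tN
  simp only [sumE_re]
  rw [map_sum_congr c.UU fun t _ => EU_re c.a c.K c.kU t w.kU (Y := Y) hX l η,
    map_sum_congr c.VX fun t _ => EVX_re c.a c.K c.kV t w.kV (Y := Y) hX l η,
    map_sum_congr c.VE fun t _ => EVE_re c.a c.K c.kV t w.kV (Y := Y) hX l η,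
    map_sum_congr c.F0 fun t _ => EF0_re c.a c.K c.kF t w.kF (Y := Y) hX l η,
    map_sum_congr c.F1 fun t _ => EF1_re c.a c.K c.kF t w.kF (Y := Y) hX l η,
    map_sum_congr c.HH fun t ht => EH_re c.a c.K t (w.hh t ht) X Y l η,
    map_sum_congr c.HM fun t _ => EHM_re c.a c.K c.h t X Y l η]
  simp only [map_sum_mul]
  have e1 : (Ex.mul (Ex.pow eo c.h) (Ex.bp (mu2 (ad2 (sm2 c.lam FL) (sm2 c.a2 G2L))
      (Dn c.a c.K)))).re (px l η X Y) = (eo.re (px l η X Y)) ^ c.h *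
      ev2 (X.re - 1) X.im (mu2 (ad2 (sm2 c.lam FL) (sm2 c.a2 G2L)) (Dn c.a c.K)) := rfl
  rw [e1, px_o, one_pow, ev2_mu, ev2_ad, ev2_sm, ev2_sm, e_F, e_G2, Dn_ev, e0]
  unfold NT
  ring

/-! ### centre -/

variable (c)

def cU (t : AP × BP) : BP :=
  sm2 (Int.mul 2712 (asum (ader (ash 2 2 t.1)))) (mu2 (ad2 t.2 (fl2 t.2)) (Dn c.a (c.K - c.kU)))

def cE (t : AP × BP) : BP :=
  sm2 (Int.mul (-2712) (asum t.1)) (mu2 (ad2 t.2 (fl2 t.2)) (Dn c.a (c.K - c.kV)))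

def cM (t : ℕ × Bool × ℤ) : BP :=
  sm2 (Int.mul (Int.mul (-226) (Int.ofNat (2 ^ c.h))) (Int.mul t.2.2 (hmv t.1 t.2.1)))
    (mu2 G2L (Dn c.a c.K))

def c0 : BP :=
  mu2 (sm2 (Int.mul (-4260) (Int.ofNat (2 ^ c.h))) (ad2 (sm2 c.c1 [[0], [1]]) (sm2 c.a2 G2L)))
    (Dn c.a c.K)

/-- the centre polynomial: `12 · 113 · 2^h · D^K · E_c` with `355/113` for `π` -/
def cen : BP := sumB c.cU (sumB c.cE (sumB c.cM c.c0 c.HM) c.VE) c.UU

/-- the centre function with `p` for `π` and `k` for `c₁` -/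
noncomputable def Ecp (k p : ℝ) (X : ℂ) : ℝ :=
  (c.UU.map fun t => 2 * (asum (ader (ash 2 2 t.1)) : ℝ) / 2 ^ c.h * Rs c.a c.kU t.2 X).sum +
  ((c.VE.map fun t => - (2 * (asum t.1 : ℝ) / 2 ^ c.h * Rs c.a c.kV t.2 X)).sum +
  ((c.HM.map fun t => - ((t.2.2 : ℝ) * hmv t.1 t.2.1 / 6 * ((X.re - 1) ^ 2 - X.im ^ 2))).sum +
  (- (k * p * (X.re - 1)) - c.a2 * p * ((X.re - 1) ^ 2 - X.im ^ 2))))

variable {c}

theorem cen_ev (w : c.Wf) (X : ℂ) : ev2 (X.re - 1) X.im c.cen =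
    1356 * 2 ^ c.h * Da c.a X.re X.im ^ c.K * c.Ecp c.c1 (355 / 113) X := by
  have hD := (Da_pos c.a X.re X.im).ne'
  have h2 : (2:ℝ) ^ c.h ≠ 0 := by positivity
  have eU : ∀ t ∈ c.UU, ev2 (X.re - 1) X.im (c.cU t) =
      1356 * 2 ^ c.h * Da c.a X.re X.im ^ c.K *
        (2 * (asum (ader (ash 2 2 t.1)) : ℝ) / 2 ^ c.h * Rs c.a c.kU t.2 X) := by
    intro t _
    obtain ⟨m, hm⟩ := Nat.exists_eq_add_of_le (le_trans (Nat.le_add_right _ 2) w.kU)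
    have e2 : c.K - c.kU = m := by omega
    rw [cU, ev2_sm, ev2_mu, ev2_ad, fl2_ev, Dn_ev, imul_cast', e2]
    unfold Rs Rr
    rw [Da_conj, conj_re, conj_im]
    have p1 : Da c.a X.re X.im ^ c.K = Da c.a X.re X.im ^ c.kU * Da c.a X.re X.im ^ m := by
      rw [hm, pow_add]
    rw [p1]
    field_simp
    push_cast
    ring
  have eE : ∀ t ∈ c.VE, ev2 (X.re - 1) X.im (c.cE t) =
      1356 * 2 ^ c.h * Da c.a X.re X.im ^ c.K *
        (- (2 * (asum t.1 : ℝ) / 2 ^ c.h * Rs c.a c.kV t.2 X)) := by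
    intro t _
    obtain ⟨m, hm⟩ := Nat.exists_eq_add_of_le (le_trans (Nat.le_add_right _ 1) w.kV)
    have e2 : c.K - c.kV = m := by omega
    rw [cE, ev2_sm, ev2_mu, ev2_ad, fl2_ev, Dn_ev, imul_cast', e2]
    unfold Rs Rr
    rw [Da_conj, conj_re, conj_im]
    have p1 : Da c.a X.re X.im ^ c.K = Da c.a X.re X.im ^ c.kV * Da c.a X.re X.im ^ m := by
      rw [hm, pow_add]
    rw [p1]
    field_simp
    push_cast
    ring
  have eM : ∀ t ∈ c.HM, ev2 (X.re - 1) X.im (c.cM t) =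
      1356 * 2 ^ c.h * Da c.a X.re X.im ^ c.K *
        (- ((t.2.2 : ℝ) * hmv t.1 t.2.1 / 6 * ((X.re - 1) ^ 2 - X.im ^ 2))) := by
    intro t _
    rw [cM, ev2_sm, ev2_mu, e_G2, Dn_ev, imul_cast', imul_cast', imul_cast', ofNat_cast']
    push_cast
    ring
  rw [cen, sumB_ev, sumB_ev, sumB_ev, map_sum_congr _ eU, map_sum_congr _ eE, map_sum_congr _ eM,
    map_sum_mul, map_sum_mul, map_sum_mul, c0, ev2_mu, ev2_sm, ev2_ad, ev2_sm, ev2_sm, e_G2,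
    Dn_ev, imul_cast', ofNat_cast']
  unfold Ecp
  simp only [ev2, ev1]
  push_cast
  ring

theorem KT_conj (w : c.Wf) (X Y : ℂ) (k : ℝ) :
    (c.KT X Y + (c.a2 * (π / 2) * ((X.re - 1) ^ 2 - X.im ^ 2) + k * (π / 2) * (X.re - 1))) +
    (c.KT (conj X) (conj Y) + (c.a2 * (π / 2) * (((conj X).re - 1) ^ 2 - (conj X).im ^ 2) +
      k * (π / 2) * ((conj X).re - 1))) = - c.Ecp k π X := by
  have eU := map_sum_congr c.UU fun t ht => KU_conj (a := c.a) w.h2 (w.uu t ht) X Y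
  have eE := map_sum_congr c.VE fun t ht => KVE_conj (a := c.a) (j := c.kV) w.h2 (w.ve t ht) X Y
  have e0 := map_sum_congr c.F0 fun t ht => KF0_conj (a := c.a) w.h2 (w.f0 t ht) X Y
  have e1 := map_sum_congr c.F1 fun t ht => KF1_conj (a := c.a) w.h2 (w.f1 t ht) X Y
  have eH := map_sum_congr c.HH fun t _ => KH_conj t X Y
  have eM := map_sum_congr c.HM fun t ht => KM_conj (w.hm t ht).1 (w.hm t ht).2 X Y
  rw [← map_sum_add] at eU eE e0 e1 eH eM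
  have n0 : ∀ (L : List (AP × BP)), (L.map fun _ => (0:ℝ)).sum = 0 := fun L => by
    induction L with
    | nil => simp
    | cons t L ih => simpa using ih
  have n1 : ∀ (L : List (AP × ℕ)), (L.map fun _ => (0:ℝ)).sum = 0 := fun L => by
    induction L with
    | nil => simp
    | cons t L ih => simpa using ih
  have g1 : (c.UU.map fun t => - (2 * (asum (ader (ash 2 2 t.1)) : ℝ) / 2 ^ c.h *
      Rs c.a c.kU t.2 X)).sum = - (c.UU.map fun t => 2 * (asum (ader (ash 2 2 t.1)) : ℝ) /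
      2 ^ c.h * Rs c.a c.kU t.2 X).sum := by
    have := map_sum_mul c.UU (fun t => 2 * (asum (ader (ash 2 2 t.1)) : ℝ) / 2 ^ c.h *
      Rs c.a c.kU t.2 X) (-1)
    simp only [neg_mul, one_mul] at this
    exact this
  have g2 : (c.VE.map fun t => - (2 * (asum t.1 : ℝ) / 2 ^ c.h * Rs c.a c.kV t.2 X)).sum =
      - (c.VE.map fun t => 2 * (asum t.1 : ℝ) / 2 ^ c.h * Rs c.a c.kV t.2 X).sum := by
    have := map_sum_mul c.VE (fun t => 2 * (asum t.1 : ℝ) / 2 ^ c.h * Rs c.a c.kV t.2 X) (-1)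
    simp only [neg_mul, one_mul] at this
    exact this
  have g3 : (c.HM.map fun t => - ((t.2.2 : ℝ) * hmv t.1 t.2.1 / 6 *
      ((X.re - 1) ^ 2 - X.im ^ 2))).sum = - (c.HM.map fun t => (t.2.2 : ℝ) * hmv t.1 t.2.1 / 6 *
      ((X.re - 1) ^ 2 - X.im ^ 2)).sum := by
    have := map_sum_mul c.HM (fun t => (t.2.2 : ℝ) * hmv t.1 t.2.1 / 6 *
      ((X.re - 1) ^ 2 - X.im ^ 2)) (-1)
    simp only [neg_mul, one_mul] at this
    exact this
  rw [n0] at e0 e1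
  rw [n1] at eH
  rw [g1] at eU
  unfold Ecp KT
  rw [g2, g3, n0, conj_re, conj_im]
  linear_combination eU + eE + e0 + e1 + eH + eM

theorem Ecp_c1 (k p : ℝ) : ∃ Ex Ey : ℂ → ℝ, C1f (c.Ecp k p) Ex Ey := by
  have hR : ∀ (a j : ℕ) (P : BP), ∃ Fx Fy : ℂ → ℝ, C1f (Rs a j P) Fx Fy := fun a j P =>
    ⟨_, _, c1_add (c1_Rr a j P) (c1_conj (c1_Rr a j P))⟩
  have hS : ∃ Fx Fy : ℂ → ℝ, C1f (fun X : ℂ => (X.re - 1) ^ 2 - X.im ^ 2) Fx Fy :=
    ⟨_, _, by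
      have h1 := c1_sub c1_re (c1_const 1)
      have h2 := c1_sub (c1_mul h1 h1) (c1_mul c1_im c1_im)
      exact c1_congr h2 (fun X => by ring) (fun _ => rfl) (fun _ => rfl)⟩
  obtain ⟨A1, A2, hA⟩ := c1_list c.UU (fun t X => 2 * (asum (ader (ash 2 2 t.1)) : ℝ) /
    2 ^ c.h * Rs c.a c.kU t.2 X) (fun t => by
      obtain ⟨_, _, h⟩ := hR c.a c.kU t.2
      exact ⟨_, _, c1_mul (c1_const _) h⟩)
  obtain ⟨B1, B2, hB⟩ := c1_list c.VE (fun t X => - (2 * (asum t.1 : ℝ) / 2 ^ c.h *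
    Rs c.a c.kV t.2 X)) (fun t => by
      obtain ⟨_, _, h⟩ := hR c.a c.kV t.2
      exact ⟨_, _, c1_congr (c1_mul (c1_const (-(2 * (asum t.1 : ℝ) / 2 ^ c.h))) h)
        (fun X => by ring) (fun _ => rfl) (fun _ => rfl)⟩)
  obtain ⟨C1, C2, hC⟩ := c1_list c.HM (fun t X => - ((t.2.2 : ℝ) * hmv t.1 t.2.1 / 6 *
    ((X.re - 1) ^ 2 - X.im ^ 2))) (fun t => by
      obtain ⟨_, _, h⟩ := hS
      exact ⟨_, _, c1_congr (c1_mul (c1_const (-((t.2.2 : ℝ) * hmv t.1 t.2.1 / 6))) h)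
        (fun X => by ring) (fun _ => rfl) (fun _ => rfl)⟩)
  obtain ⟨S1, S2, hS⟩ := hS
  have hL := c1_sub (c1_mul (c1_const (-(k * p))) (c1_sub c1_re (c1_const 1)))
    (c1_mul (c1_const (c.a2 * p)) hS)
  refine ⟨_, _, c1_congr (c1_add hA (c1_add hB (c1_add hC hL))) (fun X => ?_) (fun _ => rfl)
    (fun _ => rfl)⟩
  unfold Ecp
  ring

end Dat

end Pool.Agent.Helper69.EK3

end

section

set_option autoImplicit false
open Complex MeasureTheory Metric Set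
open scoped Real ComplexConjugate

/-! Project EK, module E6e: transfer of the moment bound to the class Σ. -/

namespace Pool.Agent.Helper32.EK

open Pool.Agent.Helper39.Area Pool.Agent.Helper52.EK
open Pool.Agent.Helper24.Br (deriv_ne_of_inj)

/-- E6e: the class Σ -/
theorem final {κ : ℝ} (hM : ∀ p : ℝ, κ ≤ p → ∃ C : ℝ, ∀ (β : ℂ → ℂ) (r : ℝ), Ext β → 0 < r →
      r < 1 → (2 * π)⁻¹ * (∫ α in (0:ℝ)..(2 * π), ‖N β (r * Complex.exp (α * I))‖ ^ (-p)) ≤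
        C * (1 - r ^ 2) ^ (-(p - 1))) :
    ∀ p : ℝ, κ ≤ p → ∃ C : ℝ, ∀ ψ : ℂ → ℂ, DifferentiableOn ℂ ψ {z : ℂ | 1 < ‖z‖} →
      InjOn ψ {z : ℂ | 1 < ‖z‖} →
      (∃ b : ℂ, Filter.Tendsto (fun z => ψ z - z) (Bornology.cobounded ℂ) (nhds b)) →
      ∀ R : ℝ, 1 < R →
      (2 * π)⁻¹ * (∫ θ in (0:ℝ)..(2 * π), ‖deriv ψ (R * Complex.exp (θ * I))‖ ^ (-p)) ≤
        C * (R ^ 2 / (R ^ 2 - 1)) ^ (p - 1) := by
  intro p hp
  obtain ⟨C, hC⟩ := hM p hp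
  refine ⟨C, ?_⟩
  rintro ψ hψ hinj ⟨b, hb⟩ R hR
  have hR0 : 0 < R := by linarith
  have hne : ∀ z : ℂ, 1 < ‖z‖ → deriv ψ z ≠ 0 := fun z hz =>
    deriv_ne_of_inj isOpen_ext hψ hinj hz
  have hexp : ∀ z : ℂ, 1 < ‖z‖ → Complex.exp ((fun z => Complex.log (deriv ψ z)) z) =
      deriv ψ z := fun z hz => Complex.exp_log (hne z hz)
  obtain ⟨hE, hex⟩ := ext_data hψ hinj hb hexp
  have hr0 : 0 < R⁻¹ := by positivity
  have hr1 : R⁻¹ < 1 := inv_lt_one_of_one_lt₀ hR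
  have hmain := hC (toDisc b (fun z => ψ z - z)) R⁻¹ hE hr0 hr1
  obtain ⟨k, hk⟩ : ∃ k : ℝ → ℝ, k = fun (α : ℝ) =>
    ‖N (toDisc b (fun z => ψ z - z)) (((R⁻¹ : ℝ) : ℂ) * Complex.exp (α * I))‖ ^ (-p) := ⟨_, rfl⟩
  have h1 : ∀ θ : ℝ, ‖deriv ψ (R * Complex.exp (θ * I))‖ ^ (-p) = k (-θ) := by
    intro θ
    have hne0 : ((R⁻¹ : ℝ) : ℂ) * Complex.exp (((-θ : ℝ) : ℂ) * I) ≠ 0 := by
      apply mul_ne_zero _ (Complex.exp_ne_zero _)
      exact_mod_cast inv_ne_zero hR0.ne'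
    have hmem : ((R⁻¹ : ℝ) : ℂ) * Complex.exp (((-θ : ℝ) : ℂ) * I) ∈ ball (0:ℂ) 1 := by
      rw [mem_ball_zero_iff, norm_mul, Complex.norm_exp_ofReal_mul_I, mul_one, Complex.norm_real,
        Real.norm_of_nonneg hr0.le]
      exact hr1
    have h2 : (((R⁻¹ : ℝ) : ℂ) * Complex.exp (((-θ : ℝ) : ℂ) * I))⁻¹ =
        (R : ℂ) * Complex.exp ((θ : ℂ) * I) := by
      rw [mul_inv, ← Complex.exp_neg]
      push_cast
      rw [inv_inv]
      congr 2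
      ring
    have h3 := hex _ hmem
    simp only [toDisc] at h3
    rw [if_neg hne0, h2, hexp] at h3
    · simp only [hk, N]
      rw [h3]
    · rw [norm_mul, Complex.norm_exp_ofReal_mul_I, mul_one, Complex.norm_real,
        Real.norm_of_nonneg hR0.le]
      exact hR
  simp_rw [h1]
  rw [intervalIntegral.integral_comp_neg (fun θ => k θ)]
  have hper : Function.Periodic k (2 * π) := by
    intro θ
    simp only [hk]
    have : Complex.exp (((θ + 2 * π : ℝ) : ℂ) * I) = Complex.exp ((θ : ℂ) * I) := by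
      push_cast
      rw [add_mul, Complex.exp_add, Complex.exp_two_pi_mul_I, mul_one]
    rw [this]
  have h2 := hper.intervalIntegral_add_eq (-(2 * π)) 0
  have e1 : -(2 * π) + 2 * π = (0:ℝ) := by ring
  have e2 : (0:ℝ) + 2 * π = 2 * π := by ring
  rw [e1, e2] at h2
  rw [neg_zero, h2]
  have hRR : 0 < R ^ 2 - 1 := by nlinarith
  have hx : (1 - R⁻¹ ^ 2) ^ (-(p - 1)) = (R ^ 2 / (R ^ 2 - 1)) ^ (p - 1) := by
    have h3 : 1 - R⁻¹ ^ 2 = (R ^ 2 / (R ^ 2 - 1))⁻¹ := by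
      rw [inv_pow]
      field_simp
    rw [h3, Real.inv_rpow (by positivity), Real.rpow_neg (by positivity), inv_inv]
  rw [hx] at hmain
  rw [hk]
  exact hmain

end Pool.Agent.Helper32.EK

end

section

set_option autoImplicit false
open Complex MeasureTheory Metric Set
open scoped Real ComplexConjugate

/-!
# Project EK3: from the data of a certificate to the integral means
-/

namespace Pool.Agent.Helper69.EK3

open Pool.Sos71
open Pool.EK71 Pool.Agent.Helper52.EK Pool.Agent.Helper2.EK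
open Pool.Agent.Helper71.EK3 (DL xL yL r2L FL G2L e_D e_x e_y e_r2 e_F e_G2)
open Pool.Agent.Helper71.EKC (Da Da_pos pw2 e_pw sb2 e_sb c1_unique c1_conj)

namespace Dat

/-- conditions on the data; `Ln / Ld` is the bound of `l` inside the disc -/
structure Ok (c : Dat) (Ln Ld : ℤ) : Prop where
  wf : c.wf = true
  M0 : 0 < c.M
  lam0 : 0 ≤ c.lam
  c10 : 0 ≤ c.c1
  isg : c.fi.sg = 1
  iaa : c.M * c.fi.Maa = c.fi.Ma ^ 2
  iab : c.M * c.fi.Mab = c.fi.Ma * c.fi.Mb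
  ibb : c.M * c.fi.Mbb = c.fi.Mb ^ 2
  isz : 4 * (|c.fi.Ma| + |c.fi.Mb|) ≤ c.M
  ir : 0 < c.fi.r
  ir0 : c.fi.r0 = c.fi.r
  ir1 : c.fi.r1 ≤ 0
  ir8 : - (8 * c.fi.r1) ≤ c.fi.r
  ir2 : c.fi.r2 = 0
  osg : c.fo.sg = -1
  oa : 2 * c.fo.Ma = c.M
  ob : c.fo.Mb = 0
  oaa : 4 * c.fo.Maa = c.M
  oab : c.fo.Mab = 0
  obb : c.fo.Mbb = 0
  or : 0 < c.fo.r
  or0 : 2 * c.fo.r0 = c.fo.r
  or1 : c.fo.r1 = 0
  or2 : 2 * c.fo.r2 = c.fo.r
  Ld0 : 0 < Ld
  LA : 0 < Ld * c.fi.r + Ln * c.fi.r1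
  LB : Ln ^ 2 * c.fi.r1 ^ 2 ≤ (Ld * c.fi.r + Ln * c.fi.r1) * (Ln * (c.fi.r + c.fi.r1) - Ld * c.fi.r)

variable {c : Dat} {Ln Ld : ℤ}

theorem div_sq' {M a b : ℤ} (hM : 0 < M) (h : M * b = a ^ 2) : (b : ℝ) = M * ((a : ℝ) / M) ^ 2 := by
  have hM' : (M : ℝ) ≠ 0 := by exact_mod_cast hM.ne'
  have h' : (M : ℝ) * b = a ^ 2 := by exact_mod_cast h
  field_simp
  linear_combination h'

theorem div_mul' {M a b d : ℤ} (hM : 0 < M) (h : M * d = a * b) :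
    (d : ℝ) = M * ((a : ℝ) / M * ((b : ℝ) / M)) := by
  have hM' : (M : ℝ) ≠ 0 := by exact_mod_cast hM.ne'
  have h' : (M : ℝ) * d = a * b := by exact_mod_cast h
  field_simp
  linear_combination h'

/-- the bound of `l` inside the disc -/
theorem lv_le {r r1 Ln Ld : ℤ} (hr : 0 < r) (h1 : r1 ≤ 0) (h8 : - (8 * r1) ≤ r) (hd : 0 < Ld)
    (hA : 0 < Ld * r + Ln * r1)
    (hB : Ln ^ 2 * r1 ^ 2 ≤ (Ld * r + Ln * r1) * (Ln * (r + r1) - Ld * r)) {m : ℂ}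
    (hm : ‖m‖ ≤ 1) : (Ld : ℝ) * lv (-(r1 : ℝ) / r) m ≤ Ln := by
  have hr' : (0:ℝ) < r := by exact_mod_cast hr
  have h1' : (r1 : ℝ) ≤ 0 := by exact_mod_cast h1
  have h8' : -(8 * (r1 : ℝ)) ≤ r := by exact_mod_cast h8
  have hd' : (0:ℝ) < Ld := by exact_mod_cast hd
  have hA' : (0:ℝ) < Ld * r + Ln * r1 := by exact_mod_cast hA
  have hB' : (Ln:ℝ) ^ 2 * r1 ^ 2 ≤ (Ld * r + Ln * r1) * (Ln * (r + r1) - Ld * r) := by
    exact_mod_cast hB
  obtain ⟨d1, d2⟩ := lv_den (ρ := -(r1 : ℝ) / r) (div_nonneg (by linarith) hr'.le) (by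
    rw [mul_div_assoc', div_le_one hr']
    linarith) hm
  unfold lv
  rw [mul_div_assoc', div_le_iff₀ (by linarith)]
  have e : (Ln : ℝ) * (1 - -(r1 : ℝ) / r * ‖m + 1‖ ^ 2) =
      (Ln * (r + r1 * ‖m + 1‖ ^ 2)) / r := by
    field_simp
    ring
  rw [e, le_div_iff₀ hr', nq_sq, nq_sq]
  simp only [add_re, add_im, one_re, one_im, add_zero]
  -- Ld r (1 - x² - y²) ≤ Ln (r + r1 ((x+1)² + y²))
  set A : ℝ := Ld * r + Ln * r1 with hAdef
  have h3 : 0 ≤ A * (m.re ^ 2 + m.im ^ 2) + 2 * Ln * r1 * m.re + (Ln * (r + r1) - Ld * r) := by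
    have h4 : 0 ≤ A * (A * (m.re ^ 2 + m.im ^ 2) + 2 * Ln * r1 * m.re +
        (Ln * (r + r1) - Ld * r)) := by
      have e2 : A * (A * (m.re ^ 2 + m.im ^ 2) + 2 * Ln * r1 * m.re +
        (Ln * (r + r1) - Ld * r)) = (A * m.re + Ln * r1) ^ 2 + (A * m.im) ^ 2 +
          (A * (Ln * (r + r1) - Ld * r) - (Ln:ℝ) ^ 2 * r1 ^ 2) := by ring
      rw [e2]
      have := sq_nonneg (A * m.re + Ln * r1)
      have := sq_nonneg (A * m.im)
      linarith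
    exact nonneg_of_mul_nonneg_right h4 hA'
  rw [hAdef] at h3
  linarith

/-- the field of the certificate -/
noncomputable def Gf (c : Dat) : ℂ → ℂ :=
  Gk ((c.fi.Ma : ℝ) / c.M) ((c.fi.Mb : ℝ) / c.M) (-(c.fi.r1 : ℝ) / c.fi.r)

theorem Ok.rho (o : c.Ok Ln Ld) : 0 ≤ -(c.fi.r1 : ℝ) / c.fi.r ∧ 8 * (-(c.fi.r1 : ℝ) / c.fi.r) ≤ 1 := by
  have hr' : (0:ℝ) < c.fi.r := by exact_mod_cast o.ir
  have h1' : (c.fi.r1 : ℝ) ≤ 0 := by exact_mod_cast o.ir1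
  have h8' : -(8 * (c.fi.r1 : ℝ)) ≤ c.fi.r := by exact_mod_cast o.ir8
  refine ⟨div_nonneg (by linarith) hr'.le, ?_⟩
  rw [mul_div_assoc', div_le_one hr']
  linarith

theorem Ok.glip (o : c.Ok Ln Ld) : GLip c.Gf 15 := by
  obtain ⟨h1, h2⟩ := o.rho
  have hM : (0:ℝ) < c.M := by exact_mod_cast o.M0
  refine Gk_glip h1 h2 ?_
  have h3 : 4 * (|(c.fi.Ma : ℝ)| + |(c.fi.Mb : ℝ)|) ≤ c.M := by exact_mod_cast o.isz
  rw [abs_div, abs_div, abs_of_pos hM, ← add_div, div_le_iff₀ hM]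
  linarith

theorem half_bd {η : ℝ} (hη : η ∈ Icc (0:ℝ) (π / 2)) :
    0 ≤ Real.sin (η / 2) ∧ Real.sin (η / 2) ≤ Real.cos (η / 2) := by
  have hp := Real.pi_pos
  refine ⟨Real.sin_nonneg_of_nonneg_of_le_pi (by linarith [hη.1]) (by linarith [hη.2]), ?_⟩
  have h1 : Real.sin (η / 2) ≤ Real.sin (π / 4) :=
    Real.sin_le_sin_of_le_of_le_pi_div_two (by linarith [hη.1]) (by linarith) (by linarith [hη.2])
  have h2 : Real.cos (π / 4) ≤ Real.cos (η / 2) :=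
    Real.cos_le_cos_of_nonneg_of_le_pi (by linarith [hη.1]) (by linarith) (by linarith [hη.2])
  rw [Real.sin_pi_div_four] at h1
  rw [Real.cos_pi_div_four] at h2
  exact h1.trans h2

theorem tSide_re (w : c.Wf) (f : Sd) {X Y : ℂ} (hX : X ≠ 0) (l η : ℝ)
    (h : (eCon f).re (px l η X Y) = 0) : (c.tSide f).re (px l η X Y) =
    Da c.a X.re X.im ^ c.K * (c.NT X Y η + (c.lam * ‖X - 1‖ ^ 2 +
      c.a2 * ((X.re - 1) ^ 2 - X.im ^ 2)) - (eTT c.M f).re (px l η X Y)) := by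
  have e : (c.tSide f).re (px l η X Y) = c.tN.re (px l η X Y) +
      (((eo.re (px l η X Y)) ^ (c.h - 2) * ev2 (X.re - 1) X.im (sm2 (-1) (Dn c.a c.K))) *
        (eTT c.M f).re (px l η X Y) + (c.tMul f).re (px l η X Y) * (eCon f).re (px l η X Y)) := rfl
  rw [e, h, tN_re w hX, px_o, one_pow, ev2_sm, Dn_ev]
  push_cast
  ring

/-- the pointwise inequality -/
theorem Ok.point (o : c.Ok Ln Ld)
    (hIn : ∀ x : Pnt, 0 ≤ x.b → x.b ≤ x.c → 0 ≤ x.a → (Ld : ℝ) * x.a ≤ Ln → 0 ≤ c.tIn.re x)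
    (hOut : ∀ x : Pnt, 0 ≤ x.b → x.b ≤ x.c → 0 ≤ x.a → x.a ≤ 2 → 0 ≤ c.tOut.re x)
    {X Y : ℂ} (hX : X ≠ 0) {η : ℝ} (hη : η ∈ Icc (0:ℝ) (π / 2)) :
    c.M * TG c.Gf X Y (Real.sin η) (Real.cos η) ≤
      c.NT X Y η + (c.lam * ‖X - 1‖ ^ 2 + c.a2 * ((X.re - 1) ^ 2 - X.im ^ 2)) := by
  obtain ⟨b1, b2⟩ := half_bd hη
  have w := wf_iff c o.wf
  have hM : (0:ℝ) < c.M := by exact_mod_cast o.M0
  have hD : 0 < Da c.a X.re X.im ^ c.K := pow_pos (Da_pos _ _ _) _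
  obtain ⟨r1, r2⟩ := o.rho
  unfold TG Gf Gk
  set m := mX X Y (Real.sin η) (Real.cos η) with hm
  by_cases h1 : ‖m‖ ≤ 1
  · rw [if_pos h1]
    have hr : (0:ℝ) < c.fi.r := by exact_mod_cast o.ir
    obtain ⟨l, hl⟩ : ∃ l : ℝ, l = lv (-(c.fi.r1 : ℝ) / c.fi.r) m := ⟨_, rfl⟩
    obtain ⟨d1, _⟩ := lv_den r1 r2 h1
    have hsg : (c.fi.sg : ℝ) = 1 := by exact_mod_cast o.isg
    have hr0 : (c.fi.r0 : ℝ) = c.fi.r := by exact_mod_cast o.ir0
    have hr2 : (c.fi.r2 : ℝ) = 0 := by exact_mod_cast o.ir2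
    have hc : (eCon c.fi).re (px l η X Y) = 0 := by
      rw [px_Con, ← hm, hsg, hr0, hr2]
      have h3 : l * (1 - -(c.fi.r1 : ℝ) / c.fi.r * ‖m + 1‖ ^ 2) = 1 - ‖m‖ ^ 2 := by
        rw [hl, lv]
        exact div_mul_cancel₀ _ (by linarith)
      have h4 : c.fi.r * (1 - -(c.fi.r1 : ℝ) / c.fi.r * ‖m + 1‖ ^ 2) =
          c.fi.r + c.fi.r1 * ‖m + 1‖ ^ 2 := by
        field_simp
        ring
      linear_combination c.fi.r * h3 - l * h4
    have h5 := hIn (px l η X Y) b1 b2 (by rw [hl] at *; exact (lv_bd r1 r2 h1).1)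
      (by
        show (Ld : ℝ) * l ≤ Ln
        rw [hl]
        exact lv_le o.ir o.ir1 o.ir8 o.Ld0 o.LA o.LB h1)
    have h6 : c.tIn.re (px l η X Y) = _ := tSide_re w c.fi (Y := Y) hX l η hc
    rw [h6] at h5
    have h7 := nonneg_of_mul_nonneg_right h5 hD
    rw [px_TT (α := (c.fi.Ma : ℝ) / c.M) (β := (c.fi.Mb : ℝ) / c.M) l η X Y
      (by field_simp) (by field_simp) (div_sq' o.M0 o.iaa) (div_mul' o.M0 o.iab)
      (div_sq' o.M0 o.ibb) (by rw [hsg]; norm_num), ← hm, hsg, one_mul] at h7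
    unfold Ak
    rw [← hl]
    linarith
  · rw [if_neg h1]
    have h1' : 1 < ‖m‖ := not_le.1 h1
    obtain ⟨l, hl⟩ : ∃ l : ℝ, l = 2 * (‖m‖ ^ 2 - 1) / (1 + ‖m‖ ^ 2) := ⟨_, rfl⟩
    have hp : 0 < 1 + ‖m‖ ^ 2 := by positivity
    have hl' : l * (1 + ‖m‖ ^ 2) = 2 * (‖m‖ ^ 2 - 1) := by
      rw [hl]
      exact div_mul_cancel₀ _ hp.ne'
    have hsg : (c.fo.sg : ℝ) = -1 := by exact_mod_cast o.osg
    have hr0 : 2 * (c.fo.r0 : ℝ) = c.fo.r := by exact_mod_cast o.or0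
    have hr1 : (c.fo.r1 : ℝ) = 0 := by exact_mod_cast o.or1
    have hr2 : 2 * (c.fo.r2 : ℝ) = c.fo.r := by exact_mod_cast o.or2
    have hc : (eCon c.fo).re (px l η X Y) = 0 := by
      rw [px_Con, ← hm, hsg, hr1]
      linear_combination (-(c.fo.r : ℝ) / 2) * hl' - l / 2 * hr0 - l / 2 * ‖m‖ ^ 2 * hr2
    have h5 := hOut (px l η X Y) b1 b2
      (by
        show 0 ≤ l
        rw [hl]
        have : 1 ≤ ‖m‖ ^ 2 := by nlinarith
        exact div_nonneg (by linarith) hp.le)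
      (by
        show l ≤ 2
        rw [hl, div_le_iff₀ hp]
        linarith)
    have h6 : c.tOut.re (px l η X Y) = _ := tSide_re w c.fo (Y := Y) hX l η hc
    rw [h6] at h5
    have h7 := nonneg_of_mul_nonneg_right h5 hD
    have oa : 2 * (c.fo.Ma : ℝ) = c.M := by exact_mod_cast o.oa
    have ob : (c.fo.Mb : ℝ) = 0 := by exact_mod_cast o.ob
    have oaa : 4 * (c.fo.Maa : ℝ) = c.M := by exact_mod_cast o.oaa
    have oab : (c.fo.Mab : ℝ) = 0 := by exact_mod_cast o.oab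
    have obb : (c.fo.Mbb : ℝ) = 0 := by exact_mod_cast o.obb
    rw [px_TT (α := 1 / 2) (β := 0) l η X Y (by linarith) (by rw [ob]; ring)
      (by linarith) (by rw [oab]; ring) (by rw [obb]; ring) (by rw [hsg]; norm_num), ← hm,
      hsg] at h7
    have e : m + ((-1 * l : ℝ) : ℂ) * (((1 / 2 : ℝ) : ℂ) * m + ((0:ℝ) : ℂ)) = Bk m := by
      rw [Bk_eq]
      have h8 : 2 / (1 + ‖m‖ ^ 2) = 1 - l / 2 := by
        rw [div_eq_iff hp.ne']
        linear_combination hl' / 2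
      rw [h8]
      push_cast
      ring
    rw [e] at h7
    linarith

theorem pi_err {p : ℝ} (hp : p = 355 / 113) : 0 ≤ p - π ∧ (p - π) / π ≤ 1 / 10 ^ 7 := by
  have h1 := Real.pi_gt_d20
  have h2 := Real.pi_lt_d20
  have h3 := Real.pi_pos
  subst hp
  refine ⟨by norm_num at h2 ⊢; linarith, ?_⟩
  rw [div_le_iff₀ h3]
  norm_num at h1 ⊢
  linarith

theorem disc_im {X : ℂ} (hX : ‖X‖ ≤ 1) : |(X.re - 1) ^ 2 - X.im ^ 2| ≤ 2 * (1 - X.re) := by
  have h1 : X.re ^ 2 + X.im ^ 2 ≤ 1 := by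
    rw [← nq_sq]
    nlinarith [norm_nonneg X]
  have h2 : X.re ≤ 1 := (Complex.re_le_norm X).trans hX
  rw [abs_le]
  constructor
  · nlinarith [sq_nonneg (X.re - 1)]
  · nlinarith [sq_nonneg X.im]

/-- **the bound for one target from the data** -/
theorem Ok.K_one (o : c.Ok Ln Ld)
    (hIn : ∀ x : Pnt, 0 ≤ x.b → x.b ≤ x.c → 0 ≤ x.a → (Ld : ℝ) * x.a ≤ Ln → 0 ≤ c.tIn.re x)
    (hOut : ∀ x : Pnt, 0 ≤ x.b → x.b ≤ x.c → 0 ≤ x.a → x.a ≤ 2 → 0 ≤ c.tOut.re x)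
    (hCen : ∀ x : Pnt, 0 ≤ -2 * x.f - x.f ^ 2 - x.g ^ 2 → 0 ≤ (Ex.bp c.cen).re x)
    {κ : ℝ} (hκ : (c.lam : ℝ) + c.c1 + (c.c1 + 2 * |(c.a2 : ℝ)|) / 10 ^ 7 < 2 * κ * c.M) :
    ∃ C a₀ : ℝ, a₀ < 1 ∧ ∀ (β : ℂ → ℂ) (R a : ℝ), ExtR β R → a₀ < a → a < 1 →
      Kf (Pool.Agent.Helper52.EK.wf c.Gf β) 1 (-1) (Real.log a) ≤ κ * Real.log (‖N β a‖ / (1 - a ^ 2)) + C := by
  have w := wf_iff c o.wf
  have hM : (0:ℝ) < c.M := by exact_mod_cast o.M0
  have hlam : (0:ℝ) ≤ c.lam := by exact_mod_cast o.lam0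
  have hc1 : (0:ℝ) ≤ c.c1 := by exact_mod_cast o.c10
  obtain ⟨p, hp⟩ : ∃ p : ℝ, p = 355 / 113 := ⟨_, rfl⟩
  obtain ⟨q1, q2⟩ := pi_err hp
  have hpi := Real.pi_pos
  obtain ⟨ε, hε⟩ : ∃ ε : ℝ, ε = (c.c1 + 2 * |(c.a2 : ℝ)|) * ((p - π) / π) := ⟨_, rfl⟩
  have hA : 0 ≤ (c.c1 : ℝ) + 2 * |(c.a2 : ℝ)| := by positivity
  have hε0 : 0 ≤ ε := by
    rw [hε]
    exact mul_nonneg hA (div_nonneg q1 hpi.le)
  have hε1 : ε ≤ (c.c1 + 2 * |(c.a2 : ℝ)|) / 10 ^ 7 := by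
    rw [hε, div_eq_mul_one_div (_ + _ : ℝ) (10 ^ 7 : ℝ)]
    exact mul_le_mul_of_nonneg_left q2 hA
  have hεπ : ε * π = (c.c1 + 2 * |(c.a2 : ℝ)|) * (p - π) := by
    rw [hε]
    field_simp
  obtain ⟨k, hk⟩ : ∃ k : ℝ, k = c.c1 + ε := ⟨_, rfl⟩
  -- the null Lagrangian
  have n1 := (isNull_har (β := fun _ => (1:ℝ)) continuous_const 2 le_rfl).const_mul (c.a2 : ℝ)
  have n2 := (isNull_har (β := fun _ => (1:ℝ)) continuous_const 1 (by norm_num)).const_mul k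
  have hN := (((isNull_NT w).add n1).add n2).const_mul (1 / (c.M : ℝ))
  have hre2 : ∀ X : ℂ, ((X - 1) ^ 2).re = (X.re - 1) ^ 2 - X.im ^ 2 := by
    intro X
    rw [pow_two (X - 1), mul_re]
    simp
    ring
  have hre1 : ∀ X : ℂ, ((X - 1) ^ 1).re = X.re - 1 := by
    intro X
    simp
  have hint : ∫ _ in (0:ℝ)..(π / 2), (1:ℝ) = π / 2 := by simp
  obtain ⟨Ecx, Ecy, hEc⟩ := Ecp_c1 (c := c) k π
  refine K_one3_b (P := DiscP) discP_Xf (lam := c.lam / c.M) (k₂ := (c.lam + k) / c.M)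
    (D := 0) (div_nonneg hlam hM.le) ?_ ?_ o.glip (Gk_conj _ _ _) hN ?_
    (c1_const 0) (c1_mul (c1_const (1 / (c.M : ℝ))) hEc) ?_ ?_
  · rw [div_le_div_iff_of_pos_right hM, hk]
    linarith
  · rw [div_lt_iff₀ hM, hk]
    linarith
  · intro X x₁ x₂ _ hX _
    refine ⟨fun _ => 0, continuous_const, fun _ => le_rfl, by simp, fun ξ hξ η hη => ?_⟩
    have hne := hX.ne _ (pt_mem_RectH hξ hη)
    have h1 := o.point hIn hOut hne (Y := deriv X (pt ξ η)) hη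
    generalize X (pt ξ η) = Z at *
    generalize deriv X (pt ξ η) = Y at *
    have e0 : ‖Z - 1‖ ^ 2 = ‖Z‖ ^ 2 - 2 * Z.re + 1 := by
      rw [nq_sq, nq_sq]
      simp
      ring
    rw [e0] at h1
    rw [hre2, hre1]
    have h2 : TG c.Gf Z Y (Real.sin η) (Real.cos η) ≤ (c.NT Z Y η + (c.lam *
        (‖Z‖ ^ 2 - 2 * Z.re + 1) + c.a2 * ((Z.re - 1) ^ 2 - Z.im ^ 2))) / c.M := by
      rw [le_div_iff₀ hM]
      linarith
    refine h2.trans (le_of_eq ?_)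
    field_simp
    ring
  · intro X Y hX
    have h1 := KT_conj w X Y k
    rw [hint, hre2, hre1, hre2, hre1]
    simp only [zero_mul, add_zero]
    linear_combination (1 / (c.M : ℝ)) * h1
  · intro X hX
    refine mul_nonneg (by positivity) ?_
    have h1 : 0 ≤ (Ex.bp c.cen).re ⟨0, 0, 0, 0, 0, X.re - 1, X.im⟩ := by
      apply hCen
      show 0 ≤ -2 * (X.re - 1) - (X.re - 1) ^ 2 - X.im ^ 2
      have h1 : X.re ^ 2 + X.im ^ 2 ≤ 1 := by
        rw [← nq_sq]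
        nlinarith [norm_nonneg X]
      linarith
    have h2 : (Ex.bp c.cen).re ⟨0, 0, 0, 0, 0, X.re - 1, X.im⟩ = ev2 (X.re - 1) X.im c.cen := rfl
    rw [h2, cen_ev w, ← hp] at h1
    have h3 : 0 ≤ c.Ecp c.c1 p X := by
      refine nonneg_of_mul_nonneg_right h1 ?_
      have := pow_pos (Da_pos c.a X.re X.im) c.K
      positivity
    have h4 : c.Ecp k π X - c.Ecp c.c1 p X = (ε * π - c.c1 * (p - π)) * (1 - X.re) +
        c.a2 * (p - π) * ((X.re - 1) ^ 2 - X.im ^ 2) := by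
      unfold Ecp
      rw [hk]
      ring
    rw [hεπ] at h4
    have h5 := disc_im hX
    have h6 : -(|(c.a2 : ℝ)| * (2 * (1 - X.re))) ≤ c.a2 * ((X.re - 1) ^ 2 - X.im ^ 2) := by
      have h7 : |(c.a2 : ℝ) * ((X.re - 1) ^ 2 - X.im ^ 2)| ≤ |(c.a2 : ℝ)| * (2 * (1 - X.re)) := by
        rw [abs_mul]
        exact mul_le_mul_of_nonneg_left h5 (abs_nonneg _)
      exact (abs_le.1 h7).1
    have h8 := mul_le_mul_of_nonneg_left h6 q1
    linarith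

/-- **the integral means from the data** -/
theorem Ok.moments (o : c.Ok Ln Ld)
    (hIn : ∀ x : Pnt, 0 ≤ x.b → x.b ≤ x.c → 0 ≤ x.a → (Ld : ℝ) * x.a ≤ Ln → 0 ≤ c.tIn.re x)
    (hOut : ∀ x : Pnt, 0 ≤ x.b → x.b ≤ x.c → 0 ≤ x.a → x.a ≤ 2 → 0 ≤ c.tOut.re x)
    (hCen : ∀ x : Pnt, 0 ≤ -2 * x.f - x.f ^ 2 - x.g ^ 2 → 0 ≤ (Ex.bp c.cen).re x)
    {κ : ℝ} (h1 : 1 ≤ κ)
    (hκ : (c.lam : ℝ) + c.c1 + (c.c1 + 2 * |(c.a2 : ℝ)|) / 10 ^ 7 < 2 * κ * c.M) :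
    ∀ p : ℝ, κ ≤ p → ∃ C : ℝ, ∀ ψ : ℂ → ℂ, DifferentiableOn ℂ ψ {z : ℂ | 1 < ‖z‖} →
      InjOn ψ {z : ℂ | 1 < ‖z‖} →
      (∃ b : ℂ, Filter.Tendsto (fun z => ψ z - z) (Bornology.cobounded ℂ) (nhds b)) →
      ∀ R : ℝ, 1 < R →
      (2 * π)⁻¹ * (∫ θ in (0:ℝ)..(2 * π), ‖deriv ψ (R * Complex.exp (θ * I))‖ ^ (-p)) ≤
        C * (R ^ 2 / (R ^ 2 - 1)) ^ (p - 1) := by
  have k1 := o.K_one hIn hOut hCen hκ
  have k2 := Pool.Agent.Helper61.EK.gibbs_of (κ := κ) (G := c.Gf)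
    Pool.Agent.Helper5.EK.entropy
    (fun hw _ h1 h2 => Pool.Agent.Helper26.EK.Kf_cont hw h1 h2)
    (fun h => Pool.Agent.Helper70.EK.wf_cont o.glip h) k1
  exact Pool.Agent.Helper32.EK.final (Pool.Agent.Helper28.EK.moment_Ext h1 k2)

end Dat

end Pool.Agent.Helper69.EK3

end

section

set_option autoImplicit false
open Complex MeasureTheory Metric Set
open scoped Real ComplexConjugate

/-!
# Project EK3: from the data of a certificate to the integral means, general fields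
-/

namespace Pool.Agent.Helper69.EK3

open Pool.Sos71
open Pool.EK71 Pool.Agent.Helper52.EK Pool.Agent.Helper2.EK
open Pool.Agent.Helper71.EK3 (DL xL yL r2L FL G2L e_D e_x e_y e_r2 e_F e_G2)
open Pool.Agent.Helper71.EKC (Da Da_pos pw2 e_pw sb2 e_sb c1_unique c1_conj)

namespace Dat

/-- one side of the data agrees with real parameters; `l ≤ Ln / Ld` -/
structure SideOk (M : ℤ) (f : Sd) (sg : ℤ) (a b p0 p1 p2 : ℝ) : Prop where
  sg : f.sg = sg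
  ma : (f.Ma : ℝ) = M * a
  mb : (f.Mb : ℝ) = M * b
  maa : (f.Maa : ℝ) = M * a ^ 2
  mab : (f.Mab : ℝ) = M * (a * b)
  mbb : (f.Mbb : ℝ) = M * b ^ 2
  r : 0 < f.r
  r0 : (f.r0 : ℝ) = f.r * p0
  r1 : (f.r1 : ℝ) = f.r * p1
  r2 : (f.r2 : ℝ) = f.r * p2

/-- conditions on the data -/
structure Ok2 (c : Dat) (ka kb p0 p1 p2 la lb q0 q1 q2 : ℝ) (Ln Ld Ln' Ld' : ℤ) : Prop where
  wf : c.wf = true
  M0 : 0 < c.M
  lam0 : 0 ≤ c.lam
  c10 : 0 ≤ c.c1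
  fi : SideOk c.M c.fi 1 ka kb p0 p1 p2
  fo : SideOk c.M c.fo (-1) la lb q0 q1 q2
  Ld0 : 0 < Ld
  Ld0' : 0 < Ld'
  inn : InOk ka kb p0 p1 p2 (Ln / Ld)
  out : OutOk la lb q0 q1 q2 (Ln' / Ld')

variable {c : Dat} {ka kb p0 p1 p2 la lb q0 q1 q2 : ℝ} {Ln Ld Ln' Ld' : ℤ}

theorem SideOk.con {M : ℤ} {f : Sd} {sg : ℤ} (h : SideOk M f sg ka kb p0 p1 p2) {X Y : ℂ} {η l : ℝ}
    (hl : l * rF p0 p1 p2 (mX X Y (Real.sin η) (Real.cos η)) =
      sg * (1 - ‖mX X Y (Real.sin η) (Real.cos η)‖ ^ 2)) (hs : (sg : ℝ) ^ 2 = 1) :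
    (eCon f).re (px l η X Y) = 0 := by
  rw [px_Con, h.r0, h.r1, h.r2, h.sg]
  unfold rF at hl
  linear_combination (f.r * (sg : ℝ)) * hl + (f.r * (1 -
    ‖mX X Y (Real.sin η) (Real.cos η)‖ ^ 2)) * hs

/-- the pointwise inequality -/
theorem Ok2.point (o : c.Ok2 ka kb p0 p1 p2 la lb q0 q1 q2 Ln Ld Ln' Ld')
    (hIn : ∀ x : Pnt, 0 ≤ x.b → x.b ≤ x.c → 0 ≤ x.a → (Ld : ℝ) * x.a ≤ Ln → 0 ≤ c.tIn.re x)
    (hOut : ∀ x : Pnt, 0 ≤ x.b → x.b ≤ x.c → 0 ≤ x.a → (Ld' : ℝ) * x.a ≤ Ln' → 0 ≤ c.tOut.re x)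
    {X Y : ℂ} (hX : X ≠ 0) {η : ℝ} (hη : η ∈ Icc (0:ℝ) (π / 2)) :
    c.M * TG (Gq ka kb p0 p1 p2 la lb q0 q1 q2) X Y (Real.sin η) (Real.cos η) ≤
      c.NT X Y η + (c.lam * ‖X - 1‖ ^ 2 + c.a2 * ((X.re - 1) ^ 2 - X.im ^ 2)) := by
  obtain ⟨b1, b2⟩ := half_bd hη
  have w := wf_iff c o.wf
  have hM : (0:ℝ) < c.M := by exact_mod_cast o.M0
  have hD : 0 < Da c.a X.re X.im ^ c.K := pow_pos (Da_pos _ _ _) _
  unfold TG Gq
  set m := mX X Y (Real.sin η) (Real.cos η) with hm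
  by_cases h1 : ‖m‖ ≤ 1
  · rw [if_pos h1]
    obtain ⟨d1, d2, d3⟩ := o.inn.l_bd h1
    obtain ⟨l, hl⟩ : ∃ l : ℝ, l = (1 - ‖m‖ ^ 2) / rF p0 p1 p2 m := ⟨_, rfl⟩
    have hL : (0:ℝ) < Ld := by exact_mod_cast o.Ld0
    rw [← hl] at d2 d3
    have hc : (eCon c.fi).re (px l η X Y) = 0 := by
      refine o.fi.con ?_ (by norm_num)
      rw [← hm, hl, div_mul_cancel₀ _ d1.ne']
      push_cast
      ring
    have h5 := hIn (px l η X Y) b1 b2 d2
      (by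
        show (Ld : ℝ) * l ≤ Ln
        rw [le_div_iff₀ hL] at d3
        linarith)
    have h6 : c.tIn.re (px l η X Y) = _ := tSide_re w c.fi (Y := Y) hX l η hc
    rw [h6] at h5
    have h7 := nonneg_of_mul_nonneg_right h5 hD
    rw [px_TT l η X Y o.fi.ma o.fi.mb o.fi.maa o.fi.mab o.fi.mbb (by rw [o.fi.sg]; norm_num),
      ← hm, o.fi.sg] at h7
    unfold Fq
    rw [← hl]
    push_cast at h7
    rw [one_mul] at h7
    linarith
  · rw [if_neg h1]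
    have h1' : 1 < ‖m‖ := not_le.1 h1
    obtain ⟨d1, d2, d3⟩ := o.out.l_bd h1'.le
    obtain ⟨l, hl⟩ : ∃ l : ℝ, l = (‖m‖ ^ 2 - 1) / rF q0 q1 q2 m := ⟨_, rfl⟩
    have hL : (0:ℝ) < Ld' := by exact_mod_cast o.Ld0'
    rw [← hl] at d2 d3
    have hc : (eCon c.fo).re (px l η X Y) = 0 := by
      refine o.fo.con ?_ (by norm_num)
      rw [← hm, hl, div_mul_cancel₀ _ d1.ne']
      push_cast
      ring
    have h5 := hOut (px l η X Y) b1 b2 d2
      (by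
        show (Ld' : ℝ) * l ≤ Ln'
        rw [le_div_iff₀ hL] at d3
        linarith)
    have h6 : c.tOut.re (px l η X Y) = _ := tSide_re w c.fo (Y := Y) hX l η hc
    rw [h6] at h5
    have h7 := nonneg_of_mul_nonneg_right h5 hD
    rw [px_TT l η X Y o.fo.ma o.fo.mb o.fo.maa o.fo.mab o.fo.mbb (by rw [o.fo.sg]; norm_num),
      ← hm, o.fo.sg] at h7
    have e : (1 - ‖m‖ ^ 2) / rF q0 q1 q2 m = ((-1 : ℤ) : ℝ) * l := by
      rw [hl]
      push_cast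
      ring
    unfold Fq
    rw [e]
    linarith

/-- **the bound for one target from the data** -/
theorem Ok2.K_one (o : c.Ok2 ka kb p0 p1 p2 la lb q0 q1 q2 Ln Ld Ln' Ld')
    (hIn : ∀ x : Pnt, 0 ≤ x.b → x.b ≤ x.c → 0 ≤ x.a → (Ld : ℝ) * x.a ≤ Ln → 0 ≤ c.tIn.re x)
    (hOut : ∀ x : Pnt, 0 ≤ x.b → x.b ≤ x.c → 0 ≤ x.a → (Ld' : ℝ) * x.a ≤ Ln' → 0 ≤ c.tOut.re x)
    (hCen : ∀ x : Pnt, 0 ≤ -2 * x.f - x.f ^ 2 - x.g ^ 2 → 0 ≤ (Ex.bp c.cen).re x)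
    {κ : ℝ} (hκ : (c.lam : ℝ) + c.c1 + (c.c1 + 2 * |(c.a2 : ℝ)|) / 10 ^ 7 < 2 * κ * c.M) :
    ∃ C a₀ : ℝ, a₀ < 1 ∧ ∀ (β : ℂ → ℂ) (R a : ℝ), ExtR β R → a₀ < a → a < 1 →
      Kf (Pool.Agent.Helper52.EK.wf (Gq ka kb p0 p1 p2 la lb q0 q1 q2) β) 1 (-1) (Real.log a) ≤ κ * Real.log (‖N β a‖ / (1 - a ^ 2)) + C := by
  have w := wf_iff c o.wf
  obtain ⟨CG, hGl⟩ := Gq_glip o.inn o.out
  have hM : (0:ℝ) < c.M := by exact_mod_cast o.M0
  have hlam : (0:ℝ) ≤ c.lam := by exact_mod_cast o.lam0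
  have hc1 : (0:ℝ) ≤ c.c1 := by exact_mod_cast o.c10
  obtain ⟨p, hp⟩ : ∃ p : ℝ, p = 355 / 113 := ⟨_, rfl⟩
  obtain ⟨e1, e2⟩ := pi_err hp
  have hpi := Real.pi_pos
  obtain ⟨ε, hε⟩ : ∃ ε : ℝ, ε = (c.c1 + 2 * |(c.a2 : ℝ)|) * ((p - π) / π) := ⟨_, rfl⟩
  have hA : 0 ≤ (c.c1 : ℝ) + 2 * |(c.a2 : ℝ)| := by positivity
  have hε0 : 0 ≤ ε := by
    rw [hε]
    exact mul_nonneg hA (div_nonneg e1 hpi.le)
  have hε1 : ε ≤ (c.c1 + 2 * |(c.a2 : ℝ)|) / 10 ^ 7 := by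
    rw [hε, div_eq_mul_one_div (_ + _ : ℝ) (10 ^ 7 : ℝ)]
    exact mul_le_mul_of_nonneg_left e2 hA
  have hεπ : ε * π = (c.c1 + 2 * |(c.a2 : ℝ)|) * (p - π) := by
    rw [hε]
    field_simp
  obtain ⟨k, hk⟩ : ∃ k : ℝ, k = c.c1 + ε := ⟨_, rfl⟩
  -- the null Lagrangian
  have n1 := (isNull_har (β := fun _ => (1:ℝ)) continuous_const 2 le_rfl).const_mul (c.a2 : ℝ)
  have n2 := (isNull_har (β := fun _ => (1:ℝ)) continuous_const 1 (by norm_num)).const_mul k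
  have hN := (((isNull_NT w).add n1).add n2).const_mul (1 / (c.M : ℝ))
  have hre2 : ∀ X : ℂ, ((X - 1) ^ 2).re = (X.re - 1) ^ 2 - X.im ^ 2 := by
    intro X
    rw [pow_two (X - 1), mul_re]
    simp
    ring
  have hre1 : ∀ X : ℂ, ((X - 1) ^ 1).re = X.re - 1 := by
    intro X
    simp
  have hint : ∫ _ in (0:ℝ)..(π / 2), (1:ℝ) = π / 2 := by simp
  obtain ⟨Ecx, Ecy, hEc⟩ := Ecp_c1 (c := c) k π
  refine K_one3_b (P := DiscP) discP_Xf (lam := c.lam / c.M) (k₂ := (c.lam + k) / c.M)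
    (D := 0) (div_nonneg hlam hM.le) ?_ ?_ hGl (Gq_conj _ _ _ _ _ _ _ _ _ _) hN ?_
    (c1_const 0) (c1_mul (c1_const (1 / (c.M : ℝ))) hEc) ?_ ?_
  · rw [div_le_div_iff_of_pos_right hM, hk]
    linarith
  · rw [div_lt_iff₀ hM, hk]
    linarith
  · intro X x₁ x₂ _ hX _
    refine ⟨fun _ => 0, continuous_const, fun _ => le_rfl, by simp, fun ξ hξ η hη => ?_⟩
    have hne := hX.ne _ (pt_mem_RectH hξ hη)
    have h1 := o.point hIn hOut hne (Y := deriv X (pt ξ η)) hη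
    generalize X (pt ξ η) = Z at *
    generalize deriv X (pt ξ η) = Y at *
    have e0 : ‖Z - 1‖ ^ 2 = ‖Z‖ ^ 2 - 2 * Z.re + 1 := by
      rw [nq_sq, nq_sq]
      simp
      ring
    rw [e0] at h1
    rw [hre2, hre1]
    have h2 : TG (Gq ka kb p0 p1 p2 la lb q0 q1 q2) Z Y (Real.sin η) (Real.cos η) ≤ (c.NT Z Y η + (c.lam *
        (‖Z‖ ^ 2 - 2 * Z.re + 1) + c.a2 * ((Z.re - 1) ^ 2 - Z.im ^ 2))) / c.M := by
      rw [le_div_iff₀ hM]
      linarith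
    refine h2.trans (le_of_eq ?_)
    field_simp
    ring
  · intro X Y hX
    have h1 := KT_conj w X Y k
    rw [hint, hre2, hre1, hre2, hre1]
    simp only [zero_mul, add_zero]
    linear_combination (1 / (c.M : ℝ)) * h1
  · intro X hX
    refine mul_nonneg (by positivity) ?_
    have h1 : 0 ≤ (Ex.bp c.cen).re ⟨0, 0, 0, 0, 0, X.re - 1, X.im⟩ := by
      apply hCen
      show 0 ≤ -2 * (X.re - 1) - (X.re - 1) ^ 2 - X.im ^ 2
      have h1 : X.re ^ 2 + X.im ^ 2 ≤ 1 := by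
        rw [← nq_sq]
        nlinarith [norm_nonneg X]
      linarith
    have h2 : (Ex.bp c.cen).re ⟨0, 0, 0, 0, 0, X.re - 1, X.im⟩ = ev2 (X.re - 1) X.im c.cen := rfl
    rw [h2, cen_ev w, ← hp] at h1
    have h3 : 0 ≤ c.Ecp c.c1 p X := by
      refine nonneg_of_mul_nonneg_right h1 ?_
      have := pow_pos (Da_pos c.a X.re X.im) c.K
      positivity
    have h4 : c.Ecp k π X - c.Ecp c.c1 p X = (ε * π - c.c1 * (p - π)) * (1 - X.re) +
        c.a2 * (p - π) * ((X.re - 1) ^ 2 - X.im ^ 2) := by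
      unfold Ecp
      rw [hk]
      ring
    rw [hεπ] at h4
    have h5 := disc_im hX
    have h6 : -(|(c.a2 : ℝ)| * (2 * (1 - X.re))) ≤ c.a2 * ((X.re - 1) ^ 2 - X.im ^ 2) := by
      have h7 : |(c.a2 : ℝ) * ((X.re - 1) ^ 2 - X.im ^ 2)| ≤ |(c.a2 : ℝ)| * (2 * (1 - X.re)) := by
        rw [abs_mul]
        exact mul_le_mul_of_nonneg_left h5 (abs_nonneg _)
      exact (abs_le.1 h7).1
    have h8 := mul_le_mul_of_nonneg_left h6 e1
    linarith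

/-- **the integral means from the data** -/
theorem Ok2.moments (o : c.Ok2 ka kb p0 p1 p2 la lb q0 q1 q2 Ln Ld Ln' Ld')
    (hIn : ∀ x : Pnt, 0 ≤ x.b → x.b ≤ x.c → 0 ≤ x.a → (Ld : ℝ) * x.a ≤ Ln → 0 ≤ c.tIn.re x)
    (hOut : ∀ x : Pnt, 0 ≤ x.b → x.b ≤ x.c → 0 ≤ x.a → (Ld' : ℝ) * x.a ≤ Ln' → 0 ≤ c.tOut.re x)
    (hCen : ∀ x : Pnt, 0 ≤ -2 * x.f - x.f ^ 2 - x.g ^ 2 → 0 ≤ (Ex.bp c.cen).re x)
    {κ : ℝ} (h1 : 1 ≤ κ)
    (hκ : (c.lam : ℝ) + c.c1 + (c.c1 + 2 * |(c.a2 : ℝ)|) / 10 ^ 7 < 2 * κ * c.M) :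
    ∀ p : ℝ, κ ≤ p → ∃ C : ℝ, ∀ ψ : ℂ → ℂ, DifferentiableOn ℂ ψ {z : ℂ | 1 < ‖z‖} →
      InjOn ψ {z : ℂ | 1 < ‖z‖} →
      (∃ b : ℂ, Filter.Tendsto (fun z => ψ z - z) (Bornology.cobounded ℂ) (nhds b)) →
      ∀ R : ℝ, 1 < R →
      (2 * π)⁻¹ * (∫ θ in (0:ℝ)..(2 * π), ‖deriv ψ (R * Complex.exp (θ * I))‖ ^ (-p)) ≤
        C * (R ^ 2 / (R ^ 2 - 1)) ^ (p - 1) := by
  have k1 := o.K_one hIn hOut hCen hκ
  obtain ⟨CG, hGl⟩ := Gq_glip o.inn o.out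
  have k2 := Pool.Agent.Helper61.EK.gibbs_of (κ := κ) (G := (Gq ka kb p0 p1 p2 la lb q0 q1 q2))
    Pool.Agent.Helper5.EK.entropy
    (fun hw _ h1 h2 => Pool.Agent.Helper26.EK.Kf_cont hw h1 h2)
    (fun h => Pool.Agent.Helper70.EK.wf_cont hGl h) k1
  exact Pool.Agent.Helper32.EK.final (Pool.Agent.Helper28.EK.moment_Ext h1 k2)

end Dat

end Pool.Agent.Helper69.EK3

end

section

set_option autoImplicit false
open Complex MeasureTheory Metric Set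
open scoped Real ComplexConjugate

/-!
# Project EK5: rational functions `P(X) / D ^ j`, `D` a positive quadratic polynomial,
given by integer lists
-/

namespace Pool.Agent.Helper69.EK5

open Pool.EK71 Pool.Agent.Helper52.EK Pool.Agent.Helper2.EK
open Pool.Agent.Helper69.EK3
open Pool.Agent.Helper71.EK3 (xL yL r2L FL G2L e_x e_y e_r2 e_F e_G2 c1_sh iadd_cast ofNat_cast)
open Pool.Agent.Helper71.EKC (c1_unique d_mu d_sb d_sm dY_dX sb2 pw2 e_sb e_pw)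

/-- `D = A (Re X - 1)² + E (Im X)² + B (Re X - 1) + C` -/
structure DQ where
  A : ℤ
  E : ℤ
  B : ℤ
  C : ℤ
  hA : 0 < A
  hE : 0 < E
  hB : B ^ 2 < 4 * (A * C)

noncomputable def Dd (d : DQ) (x y : ℝ) : ℝ :=
  d.A * (x - 1) ^ 2 + d.E * y ^ 2 + d.B * (x - 1) + d.C

theorem Dd_low (d : DQ) : ∃ k : ℝ, 0 < k ∧ ∀ x y : ℝ,
    1 + ((x - 1) ^ 2 + y ^ 2) ≤ k * Dd d x y := by
  have hA : (0:ℝ) < d.A := by exact_mod_cast d.hA
  have hE1 : (0:ℝ) < d.E := by exact_mod_cast d.hE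
  have hB : (d.B : ℝ) ^ 2 < 4 * (d.A * d.C) := by exact_mod_cast d.hB
  have hC : (0:ℝ) < d.C := by
    by_contra h
    nlinarith [sq_nonneg (d.B : ℝ), mul_nonneg hA.le (neg_nonneg.2 (not_lt.1 h))]
  obtain ⟨E, hE⟩ : ∃ E : ℝ, E = 4 * (d.A * d.C) - (d.B : ℝ) ^ 2 := ⟨_, rfl⟩
  have hE0 : 0 < E := by rw [hE]; linarith
  have h0 : ∀ x : ℝ, 1 + (x - 1) ^ 2 ≤ 4 * (d.A + d.C) / E * (d.A * (x - 1) ^ 2 + d.B * (x - 1) + d.C) := by
    intro x
    rw [div_mul_eq_mul_div, le_div_iff₀ hE0]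
    have h1 : 0 ≤ 4 * (((d.A : ℝ) + d.C) * (d.A * (x - 1) ^ 2 + d.B * (x - 1) + d.C)) -
        E * (1 + (x - 1) ^ 2) := by
      have e : 4 * (((d.A : ℝ) + d.C) * (d.A * (x - 1) ^ 2 + d.B * (x - 1) + d.C)) -
        E * (1 + (x - 1) ^ 2) = (2 * d.A * (x - 1) + d.B) ^ 2 + (2 * d.C + d.B * (x - 1)) ^ 2 := by
        rw [hE]
        ring
      rw [e]
      positivity
    linarith
  refine ⟨4 * (d.A + d.C) / E + 1 / d.E, by positivity, fun x y => ?_⟩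
  have h1 := h0 x
  have hq : 0 ≤ d.A * (x - 1) ^ 2 + d.B * (x - 1) + d.C := by
    have h2 : 0 < 4 * ((d.A : ℝ) + d.C) / E := by positivity
    have h3 : 0 < 4 * ((d.A : ℝ) + d.C) / E * (d.A * (x - 1) ^ 2 + d.B * (x - 1) + d.C) := by
      nlinarith [sq_nonneg (x - 1)]
    exact ((mul_pos_iff_of_pos_left h2).1 h3).le
  have h2 : 1 / (d.E : ℝ) * (d.E * y ^ 2) = y ^ 2 := by
    field_simp
  have h3 : 0 ≤ 4 * ((d.A : ℝ) + d.C) / E * (d.E * y ^ 2) := by positivity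
  have h4 : 0 ≤ 1 / (d.E : ℝ) * (d.A * (x - 1) ^ 2 + d.B * (x - 1) + d.C) := by positivity
  unfold Dd
  have e : (4 * ((d.A : ℝ) + d.C) / E + 1 / d.E) * (d.A * (x - 1) ^ 2 + d.E * y ^ 2 +
      d.B * (x - 1) + d.C) = 4 * ((d.A : ℝ) + d.C) / E * (d.A * (x - 1) ^ 2 + d.B * (x - 1) +
      d.C) + 1 / d.E * (d.E * y ^ 2) + 4 * ((d.A : ℝ) + d.C) / E * (d.E * y ^ 2) +
      1 / d.E * (d.A * (x - 1) ^ 2 + d.B * (x - 1) + d.C) := by ring
  rw [e, h2]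
  linarith

theorem Dd_pos (d : DQ) (x y : ℝ) : 0 < Dd d x y := by
  obtain ⟨k, hk, h⟩ := Dd_low d
  have h1 := h x y
  have h2 : 0 < k * Dd d x y := by nlinarith [sq_nonneg (x - 1), sq_nonneg y]
  exact (mul_pos_iff_of_pos_left hk).1 h2

/-- `D` as a polynomial in `(Re X - 1, Im X)` -/
def DL (d : DQ) : BP := [[d.C, 0, d.E], [d.B], [d.A]]

def DxL (d : DQ) : BP := [[d.B], [Int.mul 2 d.A]]
def DyL (d : DQ) : BP := [[0, Int.mul 2 d.E]]

theorem e_D (u y : ℝ) (d : DQ) : ev2 u y (DL d) = Dd d (1 + u) y := by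
  simp only [ev2, ev1, DL, Dd]
  push_cast
  ring

theorem e_Dx (u y : ℝ) (d : DQ) : ev2 u y (DxL d) = 2 * d.A * u + d.B := by
  simp only [ev2, ev1, DxL, imul_cast']
  push_cast
  ring

theorem e_Dy (u y : ℝ) (d : DQ) : ev2 u y (DyL d) = 2 * d.E * y := by
  simp only [ev2, ev1, DyL, imul_cast']
  push_cast
  ring

theorem e_dD (u y : ℝ) (d : DQ) : ev2 u y (dX (DL d)) = 2 * d.A * u + d.B ∧
    ev2 u y (dY (DL d)) = 2 * d.E * y := by
  constructor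
  · simp [DL, dX, dx1, sm1, ev2, ev1]
    ring
  · simp [DL, dY, dyr, dy1, ev2, ev1]
    ring

theorem c1_Dd (d : DQ) : C1f (fun X => Dd d X.re X.im) (fun X => 2 * d.A * (X.re - 1) + d.B)
    (fun X => 2 * d.E * X.im) := by
  refine c1_congr (c1_sh (DL d)) (fun X => ?_) (fun X => ?_) (fun X => ?_)
  · rw [e_D]
    congr 1
    ring
  · rw [(e_dD _ _ d).1]
  · rw [(e_dD _ _ d).2]

/-- `A / D^k` -/
theorem c1_divD (d : DQ) {A Ax Ay : ℂ → ℝ} (hA : C1f A Ax Ay) (k : ℕ) :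
    C1f (fun X => A X / Dd d X.re X.im ^ k)
      (fun X => (Ax X * Dd d X.re X.im - k * (2 * d.A * (X.re - 1) + d.B) * A X)
        / (Dd d X.re X.im ^ k * Dd d X.re X.im))
      (fun X => (Ay X * Dd d X.re X.im - k * (2 * d.E * X.im) * A X)
        / (Dd d X.re X.im ^ k * Dd d X.re X.im)) := by
  induction k with
  | zero =>
    refine c1_congr hA ?_ ?_ ?_ <;> intro X
    · simp
    · have := (Dd_pos d X.re X.im).ne'
      field_simp
      simp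
    · have := (Dd_pos d X.re X.im).ne'
      field_simp
      simp
  | succ k ih =>
    refine c1_congr (c1_mul ih (c1_inv (c1_Dd d) fun X => (Dd_pos d X.re X.im).ne')) ?_ ?_ ?_ <;>
      intro X <;> have := (Dd_pos d X.re X.im).ne' <;> push_cast <;> field_simp <;> ring

/-- numerators of the derivatives of `P / D ^ j` -/
def qX (d : DQ) (j : ℕ) (P : BP) : BP :=
  sb2 (mu2 (DL d) (dX P)) (sm2 (Int.ofNat j) (mu2 (DxL d) P))
def qY (d : DQ) (j : ℕ) (P : BP) : BP :=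
  sb2 (mu2 (DL d) (dY P)) (sm2 (Int.ofNat j) (mu2 (DyL d) P))

/-- `P / D ^ j` at `X`; the variables of `P` are `Re X - 1` and `Im X` -/
noncomputable def Rr (d : DQ) (j : ℕ) (P : BP) (X : ℂ) : ℝ :=
  ev2 (X.re - 1) X.im P / Dd d X.re X.im ^ j

theorem qX_ev (d : DQ) (j : ℕ) (P : BP) (u y : ℝ) : ev2 u y (qX d j P) =
    ev2 u y (dX P) * Dd d (1 + u) y - j * (2 * d.A * u + d.B) * ev2 u y P := by
  rw [qX, e_sb, ev2_mu, ev2_sm, ev2_mu, e_D, e_Dx, ofNat_cast']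
  ring

theorem qY_ev (d : DQ) (j : ℕ) (P : BP) (u y : ℝ) : ev2 u y (qY d j P) =
    ev2 u y (dY P) * Dd d (1 + u) y - j * (2 * d.E * y) * ev2 u y P := by
  rw [qY, e_sb, ev2_mu, ev2_sm, ev2_mu, e_D, e_Dy, ofNat_cast']
  ring

theorem c1_Rr (d : DQ) (j : ℕ) (P : BP) :
    C1f (Rr d j P) (Rr d (j + 1) (qX d j P)) (Rr d (j + 1) (qY d j P)) := by
  have ex : ∀ X : ℂ, 1 + (X.re - 1) = X.re := fun X => by ring
  refine c1_congr (c1_divD d (c1_sh P) j) (fun X => rfl) (fun X => ?_) (fun X => ?_)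
  · unfold Rr
    rw [qX_ev, ex, pow_succ]
  · unfold Rr
    rw [qY_ev, ex, pow_succ]

/-- numerator of the Laplacian of `P / D ^ j` over `D ^ (j + 2)` -/
def qL (d : DQ) (j : ℕ) (P : BP) : BP := ad2 (qX d (j + 1) (qX d j P)) (qY d (j + 1) (qY d j P))

theorem q_comm' (d : DQ) (j : ℕ) (P : BP) (u y : ℝ) :
    ev2 u y (qY d (j + 1) (qX d j P)) = ev2 u y (qX d (j + 1) (qY d j P)) := by
  have exy : ev2 u y (dY (DxL d)) = 0 ∧ ev2 u y (dX (DyL d)) = 0 := by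
    constructor
    · simp [DxL, dY, dyr, dy1, ev2, ev1]
    · simp [DyL, dX, dx1, ev2, ev1]
  rw [qY_ev, qX_ev d j P, qX_ev d (j + 1) (qY d j P), qY_ev d j P]
  have h1 : ev2 u y (dY (qX d j P)) = (2 * d.E * y) * ev2 u y (dX P)
      + Dd d (1 + u) y * ev2 u y (dX (dY P)) - j * (2 * d.A * u + d.B) * ev2 u y (dY P) := by
    rw [qX, (d_sb u y _ _).2, (d_mu u y _ _).2, (d_sm u y _ _).2, (d_mu u y _ _).2, (e_dD u y d).2,
      exy.1, e_D, e_Dx, dY_dX, ofNat_cast']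
    ring
  have h2 : ev2 u y (dX (qY d j P)) = (2 * d.A * u + d.B) * ev2 u y (dY P)
      + Dd d (1 + u) y * ev2 u y (dX (dY P)) - j * (2 * d.E * y) * ev2 u y (dX P) := by
    rw [qY, (d_sb u y _ _).1, (d_mu u y _ _).1, (d_sm u y _ _).1, (d_mu u y _ _).1, (e_dD u y d).1,
      exy.2, e_D, e_Dy, ofNat_cast']
    ring
  rw [h1, h2]
  push_cast
  ring

theorem c2_Rr (d : DQ) (j : ℕ) (P : BP) :
    C2f (Rr d j P) (Rr d (j + 1) (qX d j P)) (Rr d (j + 1) (qY d j P))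
      (Rr d (j + 2) (qL d j P)) := by
  refine ⟨c1_Rr d j P, _, _, _, c1_Rr d (j + 1) (qX d j P),
    c1_congr (c1_Rr d (j + 1) (qY d j P)) (fun _ => rfl)
      (W' := Rr d (j + 1) (qY d j P))
      (Wx' := Rr d (j + 1 + 1) (qY d (j + 1) (qX d j P))) (fun X => ?_) (fun _ => rfl),
      fun X => ?_⟩
  · unfold Rr
    rw [q_comm']
  · unfold Rr
    rw [qL, ev2_ad]
    ring

theorem normsq_sub_one (X : ℂ) : ‖X - 1‖ ^ 2 = (X.re - 1) ^ 2 + X.im ^ 2 := by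
  rw [← normSq_eq_norm_sq, normSq_apply]
  simp
  ring

theorem Rr_le (d : DQ) (j : ℕ) (P : BP) (h : dle (2 * j + 2) P = true) :
    ∃ C : ℝ, 0 ≤ C ∧ ∀ X : ℂ, |Rr d j P X| ≤ C * (1 + ‖X - 1‖ ^ 2) := by
  obtain ⟨k, hk, hl⟩ := Dd_low d
  refine ⟨nr2 P * k ^ j, mul_nonneg (nr2_nonneg P) (by positivity), fun X => ?_⟩
  have e := normsq_sub_one X
  obtain ⟨T, hT⟩ : ∃ T, T = Real.sqrt (1 + ‖X - 1‖ ^ 2) := ⟨_, rfl⟩
  have hT2 : T ^ 2 = 1 + ‖X - 1‖ ^ 2 := by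
    rw [hT]
    exact Real.sq_sqrt (by positivity)
  have hT0 : 0 ≤ T := by rw [hT]; exact Real.sqrt_nonneg _
  have hT1 : 1 ≤ T := by
    have : (1:ℝ) ^ 2 ≤ T ^ 2 := by rw [hT2]; nlinarith [sq_nonneg ‖X - 1‖]
    exact le_of_sq_le_sq this hT0
  have hx : |X.re - 1| ≤ T := by
    refine le_of_sq_le_sq ?_ hT0
    rw [sq_abs, hT2, e]
    nlinarith [sq_nonneg X.im]
  have hy : |X.im| ≤ T := by
    refine le_of_sq_le_sq ?_ hT0
    rw [sq_abs, hT2, e]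
    nlinarith [sq_nonneg (X.re - 1)]
  have h1 := ev2_le' hT1 hx hy _ P h
  have hD : 1 + ‖X - 1‖ ^ 2 ≤ k * Dd d X.re X.im := by
    rw [e]
    exact hl X.re X.im
  have hDp := Dd_pos d X.re X.im
  unfold Rr
  rw [abs_div, abs_of_pos (pow_pos hDp j), div_le_iff₀ (pow_pos hDp j)]
  refine h1.trans ?_
  have e2 : T ^ (2 * j + 2) = (1 + ‖X - 1‖ ^ 2) ^ j * (1 + ‖X - 1‖ ^ 2) := by
    rw [pow_add, pow_mul, hT2]
  rw [e2]
  have h3 : (1 + ‖X - 1‖ ^ 2) ^ j ≤ (k * Dd d X.re X.im) ^ j :=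
    pow_le_pow_left₀ (by positivity) hD j
  rw [mul_pow] at h3
  have h4 : (1 + ‖X - 1‖ ^ 2) ^ j * (1 + ‖X - 1‖ ^ 2) ≤
      (k ^ j * Dd d X.re X.im ^ j) * (1 + ‖X - 1‖ ^ 2) :=
    mul_le_mul_of_nonneg_right h3 (by positivity)
  calc nr2 P * ((1 + ‖X - 1‖ ^ 2) ^ j * (1 + ‖X - 1‖ ^ 2)) ≤
        nr2 P * ((k ^ j * Dd d X.re X.im ^ j) * (1 + ‖X - 1‖ ^ 2)) :=
        mul_le_mul_of_nonneg_left h4 (nr2_nonneg P)
    _ = _ := by ring

end Pool.Agent.Helper69.EK5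

end

section

set_option autoImplicit false
open Complex MeasureTheory Metric Set
open scoped Real ComplexConjugate

/-!
# Project EK5: the families of null Lagrangians
-/

namespace Pool.Agent.Helper69.EK5

open Pool.EK71 Pool.Agent.Helper52.EK Pool.Agent.Helper2.EK
open Pool.Agent.Helper69.EK3
open Pool.Agent.Helper71.EK3 (xL yL r2L FL G2L e_x e_y e_r2 e_F e_G2)
open Pool.Agent.Helper71.EKC (c1_unique pw2 e_pw sb2 e_sb)

variable {P : (ℂ → ℂ) → ℝ → ℝ → Prop}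

noncomputable def NU (a : DQ) (j : ℕ) (t : AP × BP) (X Y : ℂ) (η : ℝ) : ℝ :=
  4 * af (ash 2 2 t.1) η * Rr a (j + 2) (qL a j t.2) X * ‖Y‖ ^ 2 -
    af (ader (ader (ash 2 2 t.1))) η * Rr a j t.2 X

noncomputable def KU (a : DQ) (j : ℕ) (t : AP × BP) (X Y : ℂ) : ℝ :=
  4 * af (ash 2 2 t.1) (π / 2) * dEta (Rr a (j + 1) (qX a j t.2)) (Rr a (j + 1) (qY a j t.2)) X Y -
    2 * af (ader (ash 2 2 t.1)) (π / 2) * Rr a j t.2 X

theorem isNull_NU {a : DQ} {j : ℕ} (t : AP × BP) (h : dle (2 * j + 2) t.2 = true) :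
    IsNull P (NU a j t) (KU a j t) := by
  obtain ⟨C, _, hC⟩ := Rr_le a j t.2 h
  exact isNull_U (c2_Rr a j t.2) (hd22 t.1) (hd22' t.1) (af_cont _)
    (by rw [af_ash22]; simp) (by rw [af_adas]; simp) hC

noncomputable def NVX (a : DQ) (j : ℕ) (t : AP × BP) (X Y : ℂ) (η : ℝ) : ℝ :=
  2 * af (ash 1 1 t.1) η * (Rr a (j + 1) (qX a j t.2) X * Y.re +
    Rr a (j + 1) (qY a j t.2) X * Y.im)

theorem isNull_NVX {a : DQ} {j : ℕ} (t : AP × BP) (h : dle (2 * j + 2) t.2 = true) :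
    IsNull P (NVX a j t) (fun _ _ => 0) := by
  obtain ⟨C, _, hC⟩ := Rr_le a j t.2 h
  exact isNull_W (c1_Rr a j t.2) (continuous_const.mul (af_cont _)) hC

noncomputable def NVE (a : DQ) (j : ℕ) (t : AP × BP) (X Y : ℂ) (η : ℝ) : ℝ :=
  2 * af (ash 1 1 t.1) η * dEta (Rr a (j + 1) (qX a j t.2)) (Rr a (j + 1) (qY a j t.2)) X Y +
    af (ader (ash 1 1 t.1)) η * Rr a j t.2 X

noncomputable def KVE (a : DQ) (j : ℕ) (t : AP × BP) (X _Y : ℂ) : ℝ :=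
  2 * af (ash 1 1 t.1) (π / 2) * Rr a j t.2 X

theorem isNull_NVE {a : DQ} {j : ℕ} (t : AP × BP) : IsNull P (NVE a j t) (KVE a j t) :=
  isNull_V (c1_Rr a j t.2) (hd11 t.1) (af_cont _) (by rw [af_ash11]; simp)

noncomputable def NF0 (a : DQ) (j : ℕ) (t : AP × BP) (X Y : ℂ) (η : ℝ) : ℝ :=
  NG (fun η => 4 * af (ash 2 2 t.1) η) (fun η => 2 * af (ader (ash 2 2 t.1)) η)
    (fun X => (Rr a j t.2 X : ℂ)) (fun X => (Rr a (j + 1) (qX a j t.2) X : ℂ))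
    (fun X => (Rr a (j + 1) (qY a j t.2) X : ℂ)) X Y ((Y / X) ^ 1) η

noncomputable def KF0 (a : DQ) (j : ℕ) (t : AP × BP) (X Y : ℂ) : ℝ :=
  - (4 * af (ash 2 2 t.1) (π / 2) * ((Rr a j t.2 X : ℂ) * (Y / X) ^ 1).im)

noncomputable def NF1 (a : DQ) (j : ℕ) (t : AP × BP) (X Y : ℂ) (η : ℝ) : ℝ :=
  NG (fun η => 4 * af (ash 2 2 t.1) η) (fun η => 2 * af (ader (ash 2 2 t.1)) η)
    (fun X => I * (Rr a j t.2 X : ℂ)) (fun X => I * (Rr a (j + 1) (qX a j t.2) X : ℂ))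
    (fun X => I * (Rr a (j + 1) (qY a j t.2) X : ℂ)) X Y ((Y / X) ^ 1) η

noncomputable def KF1 (a : DQ) (j : ℕ) (t : AP × BP) (X Y : ℂ) : ℝ :=
  - (4 * af (ash 2 2 t.1) (π / 2) * (I * (Rr a j t.2 X : ℂ) * (Y / X) ^ 1).im)

theorem isNull_NF0 {a : DQ} {j : ℕ} (t : AP × BP) (h : dle (2 * j + 2) t.2 = true) :
    IsNull DiscP (NF0 a j t) (KF0 a j t) := by
  obtain ⟨C, hC0, hC⟩ := Rr_le a j t.2 h
  obtain ⟨M, hM0, hM⟩ := af22_bdd t.1
  exact isNull_P (C₀ := 38) (C1c_real (c1_Rr a j t.2)) 1 (hd22 t.1)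
    (continuous_const.mul (af_cont _)) (by rw [af_ash22]; simp) hC0 (by norm_num) hM0 hM
    (fun X => by rw [Complex.norm_real]; exact hC X) DiscP.q_le

theorem isNull_NF1 {a : DQ} {j : ℕ} (t : AP × BP) (h : dle (2 * j + 2) t.2 = true) :
    IsNull DiscP (NF1 a j t) (KF1 a j t) := by
  obtain ⟨C, hC0, hC⟩ := Rr_le a j t.2 h
  obtain ⟨M, hM0, hM⟩ := af22_bdd t.1
  exact isNull_P (C₀ := 38) (C1c_I (c1_Rr a j t.2)) 1 (hd22 t.1)
    (continuous_const.mul (af_cont _)) (by rw [af_ash22]; simp) hC0 (by norm_num) hM0 hM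
    (fun X => by rw [norm_mul, norm_I, one_mul, Complex.norm_real]; exact hC X) DiscP.q_le

end Pool.Agent.Helper69.EK5

end

section

set_option autoImplicit false
open Complex MeasureTheory Metric Set
open scoped Real ComplexConjugate

/-!
# Project EK5: the families as expressions
-/

namespace Pool.Agent.Helper69.EK5

open Pool.Sos71
open Pool.EK71 Pool.Agent.Helper52.EK Pool.Agent.Helper2.EK
open Pool.Agent.Helper69.EK3
open Pool.Agent.Helper71.EK3 (xL yL r2L FL G2L e_x e_y e_r2 e_F e_G2)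
open Pool.Agent.Helper71.EKC (c1_unique pw2 e_pw sb2 e_sb)

def Dn (a : DQ) (n : ℕ) : BP := pw2 (DL a) n

theorem Dn_ev (a : DQ) (n : ℕ) (X : ℂ) : ev2 (X.re - 1) X.im (Dn a n) = Dd a X.re X.im ^ n := by
  rw [Dn, e_pw, e_D]
  congr 2
  ring

section
variable (a : DQ) (K j : ℕ)

/-! ### `U` -/

def EU (t : AP × BP) : Ex :=
  Ex.add (Ex.mul (Ex.mul (apE t.1) ePR) (Ex.bp (mu2 (mu2 r2L (qL a j t.2)) (Dn a (K - j - 2)))))
    (Ex.mul (Ex.sc (-1) (apE (ader (ader (ash 2 2 t.1))))) (Ex.bp (mu2 t.2 (Dn a (K - j)))))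

theorem EU_re (t : AP × BP) (hK : j + 2 ≤ K) {X Y : ℂ} (hX : X ≠ 0) (l η : ℝ) :
    (EU a K j t).re (px l η X Y) = Dd a X.re X.im ^ K * NU a j t X Y η := by
  obtain ⟨m, rfl⟩ := Nat.exists_eq_add_of_le hK
  have hD := (Dd_pos a X.re X.im).ne'
  have e1 : j + 2 + m - j - 2 = m := by omega
  have e2 : j + 2 + m - j = m + 2 := by omega
  simp only [EU, Ex.re, apE_re, ePR, ev2_mu, e_r2, e1, e2]
  rw [show (px l η X Y).f = X.re - 1 from rfl, show (px l η X Y).g = X.im from rfl, Dn_ev, Dn_ev,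
    show (px l η X Y).b = Real.sin (η / 2) from rfl, show (px l η X Y).c = Real.cos (η / 2) from rfl,
    show (px l η X Y).d = Real.sin η * (Y / X).re from rfl,
    show (px l η X Y).e = Real.sin η * (Y / X).im from rfl]
  have h1 := sY_sq (Y := Y) hX (Real.sin η)
  unfold NU Rr
  rw [af_ash22]
  have e3 : Real.sin η ^ 2 * af t.1 η * (ev2 (X.re - 1) X.im (qL a j t.2) /
      Dd a X.re X.im ^ (j + 2)) * ‖Y‖ ^ 2 = (Real.sin η ^ 2 * ‖Y‖ ^ 2) * af t.1 η *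
      (ev2 (X.re - 1) X.im (qL a j t.2) / Dd a X.re X.im ^ (j + 2)) := by ring
  rw [e3, h1]
  unfold af
  have e4 : (1:ℝ) + (X.re - 1) = X.re := by ring
  rw [e4]
  have p1 : Dd a X.re X.im ^ (j + 2 + m) = Dd a X.re X.im ^ j * Dd a X.re X.im ^ 2 *
    Dd a X.re X.im ^ m := by rw [pow_add, pow_add]
  have p2 : Dd a X.re X.im ^ (j + 2) = Dd a X.re X.im ^ j * Dd a X.re X.im ^ 2 := by rw [pow_add]
  have p3 : Dd a X.re X.im ^ (m + 2) = Dd a X.re X.im ^ m * Dd a X.re X.im ^ 2 := by rw [pow_add]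
  rw [p1, p2, p3]
  field_simp
  push_cast
  ring

/-! ### `V`, `ξ`-type -/

def EVX (t : AP × BP) : Ex :=
  Ex.mul (apE t.1) (Ex.add
    (Ex.mul (Ex.va 3) (Ex.bp (mu2 (ad2 (mu2 xL (qX a j t.2)) (mu2 yL (qY a j t.2)))
      (Dn a (K - j - 1)))))
    (Ex.mul (Ex.va 4) (Ex.bp (mu2 (sb2 (mu2 xL (qY a j t.2)) (mu2 yL (qX a j t.2)))
      (Dn a (K - j - 1))))))

theorem EVX_re (t : AP × BP) (hK : j + 1 ≤ K) {X Y : ℂ} (hX : X ≠ 0) (l η : ℝ) :
    (EVX a K j t).re (px l η X Y) = Dd a X.re X.im ^ K * NVX a j t X Y η := by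
  obtain ⟨m, rfl⟩ := Nat.exists_eq_add_of_le hK
  have hD := (Dd_pos a X.re X.im).ne'
  have e1 : j + 1 + m - j - 1 = m := by omega
  simp only [EVX, Ex.re, apE_re, ev2_mu, ev2_ad, e_sb, e_x, e_y, e1]
  rw [show (px l η X Y).f = X.re - 1 from rfl, show (px l η X Y).g = X.im from rfl, Dn_ev,
    show (px l η X Y).b = Real.sin (η / 2) from rfl, show (px l η X Y).c = Real.cos (η / 2) from rfl,
    show (px l η X Y).d = Real.sin η * (Y / X).re from rfl,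
    show (px l η X Y).e = Real.sin η * (Y / X).im from rfl]
  unfold NVX Rr
  rw [af_ash11]
  have h1 := sY_re (Y := Y) hX (Real.sin η)
  have h2 := sY_im (Y := Y) hX (Real.sin η)
  have e3 : Real.sin η * af t.1 η * (ev2 (X.re - 1) X.im (qX a j t.2) /
      Dd a X.re X.im ^ (j + 1) * Y.re + ev2 (X.re - 1) X.im (qY a j t.2) /
      Dd a X.re X.im ^ (j + 1) * Y.im) = af t.1 η * (ev2 (X.re - 1) X.im (qX a j t.2) /
      Dd a X.re X.im ^ (j + 1) * (Real.sin η * Y.re) + ev2 (X.re - 1) X.im (qY a j t.2) /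
      Dd a X.re X.im ^ (j + 1) * (Real.sin η * Y.im)) := by ring
  rw [e3, h1, h2]
  unfold af
  have e4 : (1:ℝ) + (X.re - 1) = X.re := by ring
  rw [e4]
  have p1 : Dd a X.re X.im ^ (j + 1 + m) = Dd a X.re X.im ^ (j + 1) * Dd a X.re X.im ^ m := by
    rw [pow_add]
  rw [p1]
  field_simp
  ring

/-! ### `V`, `η`-type -/

def EVE (t : AP × BP) : Ex :=
  Ex.add (Ex.mul (apE t.1) (Ex.add
    (Ex.mul (Ex.va 3) (Ex.bp (mu2 (sb2 (mu2 xL (qY a j t.2)) (mu2 yL (qX a j t.2)))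
      (Dn a (K - j - 1)))))
    (Ex.mul (Ex.va 4) (Ex.bp (mu2 (sm2 (-1) (ad2 (mu2 xL (qX a j t.2)) (mu2 yL (qY a j t.2))))
      (Dn a (K - j - 1)))))))
    (Ex.mul (apE (ader (ash 1 1 t.1))) (Ex.bp (mu2 t.2 (Dn a (K - j)))))

theorem EVE_re (t : AP × BP) (hK : j + 1 ≤ K) {X Y : ℂ} (hX : X ≠ 0) (l η : ℝ) :
    (EVE a K j t).re (px l η X Y) = Dd a X.re X.im ^ K * NVE a j t X Y η := by
  obtain ⟨m, rfl⟩ := Nat.exists_eq_add_of_le hK
  have hD := (Dd_pos a X.re X.im).ne'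
  have e1 : j + 1 + m - j - 1 = m := by omega
  have e2 : j + 1 + m - j = m + 1 := by omega
  simp only [EVE, Ex.re, apE_re, ev2_mu, ev2_ad, ev2_sm, e_sb, e_x, e_y, e1, e2]
  rw [show (px l η X Y).f = X.re - 1 from rfl, show (px l η X Y).g = X.im from rfl, Dn_ev, Dn_ev,
    show (px l η X Y).b = Real.sin (η / 2) from rfl, show (px l η X Y).c = Real.cos (η / 2) from rfl,
    show (px l η X Y).d = Real.sin η * (Y / X).re from rfl,
    show (px l η X Y).e = Real.sin η * (Y / X).im from rfl]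
  unfold NVE Rr dEta
  rw [af_ash11]
  have h1 := sY_re (Y := Y) hX (Real.sin η)
  have h2 := sY_im (Y := Y) hX (Real.sin η)
  have e3 : Real.sin η * af t.1 η * (-(ev2 (X.re - 1) X.im (qX a j t.2) /
      Dd a X.re X.im ^ (j + 1)) * Y.im + ev2 (X.re - 1) X.im (qY a j t.2) /
      Dd a X.re X.im ^ (j + 1) * Y.re) = af t.1 η * (-(ev2 (X.re - 1) X.im (qX a j t.2) /
      Dd a X.re X.im ^ (j + 1)) * (Real.sin η * Y.im) + ev2 (X.re - 1) X.im (qY a j t.2) /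
      Dd a X.re X.im ^ (j + 1) * (Real.sin η * Y.re)) := by ring
  rw [e3, h1, h2]
  unfold af
  have e4 : (1:ℝ) + (X.re - 1) = X.re := by ring
  rw [e4]
  have p1 : Dd a X.re X.im ^ (j + 1 + m) = Dd a X.re X.im ^ j * Dd a X.re X.im *
      Dd a X.re X.im ^ m := by rw [pow_add, pow_succ]
  have p2 : Dd a X.re X.im ^ (j + 1) = Dd a X.re X.im ^ j * Dd a X.re X.im := by rw [pow_succ]
  have p3 : Dd a X.re X.im ^ (m + 1) = Dd a X.re X.im ^ m * Dd a X.re X.im := by rw [pow_succ]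
  rw [p1, p2, p3]
  field_simp
  push_cast
  ring

/-! ### fields `a₁ q` -/

def EF0 (t : AP × BP) : Ex :=
  Ex.add (Ex.mul (Ex.mul (apE t.1) ePR) (Ex.bp (mu2 (ad2 (mu2 xL (qX a j t.2))
      (mu2 yL (qY a j t.2))) (Dn a (K - j - 1)))))
    (Ex.mul (Ex.mul (Ex.sc (-1) (apE (adas t.1))) (Ex.va 4)) (Ex.bp (mu2 t.2 (Dn a (K - j)))))

def EF1 (t : AP × BP) : Ex :=
  Ex.add (Ex.mul (Ex.mul (apE t.1) ePR) (Ex.bp (mu2 (sb2 (mu2 yL (qX a j t.2))
      (mu2 xL (qY a j t.2))) (Dn a (K - j - 1)))))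
    (Ex.mul (Ex.mul (Ex.sc (-1) (apE (adas t.1))) (Ex.va 3)) (Ex.bp (mu2 t.2 (Dn a (K - j)))))

theorem EF0_re (t : AP × BP) (hK : j + 1 ≤ K) {X Y : ℂ} (hX : X ≠ 0) (l η : ℝ) :
    (EF0 a K j t).re (px l η X Y) = Dd a X.re X.im ^ K * NF0 a j t X Y η := by
  obtain ⟨m, rfl⟩ := Nat.exists_eq_add_of_le hK
  have hD := (Dd_pos a X.re X.im).ne'
  have e1 : j + 1 + m - j - 1 = m := by omega
  have e2 : j + 1 + m - j = m + 1 := by omega
  simp only [EF0, Ex.re, apE_re, ePR, ev2_mu, ev2_ad, e_sb, e_x, e_y, e1, e2]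
  rw [show (px l η X Y).f = X.re - 1 from rfl, show (px l η X Y).g = X.im from rfl, Dn_ev, Dn_ev,
    show (px l η X Y).b = Real.sin (η / 2) from rfl, show (px l η X Y).c = Real.cos (η / 2) from rfl,
    show (px l η X Y).d = Real.sin η * (Y / X).re from rfl,
    show (px l η X Y).e = Real.sin η * (Y / X).im from rfl]
  unfold NF0 NG
  rw [qcY hX]
  beta_reduce
  rw [af_ash22, af_adas, pow_one]
  unfold Rr
  simp only [mul_re, mul_im, add_re, add_im, ofReal_re, ofReal_im, I_re, I_im, conj_re, conj_im]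
  unfold af
  have e4 : (1:ℝ) + (X.re - 1) = X.re := by ring
  rw [e4]
  have p1 : Dd a X.re X.im ^ (j + 1 + m) = Dd a X.re X.im ^ j * Dd a X.re X.im *
      Dd a X.re X.im ^ m := by rw [pow_add, pow_succ]
  have p2 : Dd a X.re X.im ^ (j + 1) = Dd a X.re X.im ^ j * Dd a X.re X.im := by rw [pow_succ]
  have p3 : Dd a X.re X.im ^ (m + 1) = Dd a X.re X.im ^ m * Dd a X.re X.im := by rw [pow_succ]
  rw [p1, p2, p3]
  field_simp
  push_cast
  ring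

theorem EF1_re (t : AP × BP) (hK : j + 1 ≤ K) {X Y : ℂ} (hX : X ≠ 0) (l η : ℝ) :
    (EF1 a K j t).re (px l η X Y) = Dd a X.re X.im ^ K * NF1 a j t X Y η := by
  obtain ⟨m, rfl⟩ := Nat.exists_eq_add_of_le hK
  have hD := (Dd_pos a X.re X.im).ne'
  have e1 : j + 1 + m - j - 1 = m := by omega
  have e2 : j + 1 + m - j = m + 1 := by omega
  simp only [EF1, Ex.re, apE_re, ePR, ev2_mu, ev2_ad, e_sb, e_x, e_y, e1, e2]
  rw [show (px l η X Y).f = X.re - 1 from rfl, show (px l η X Y).g = X.im from rfl, Dn_ev, Dn_ev,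
    show (px l η X Y).b = Real.sin (η / 2) from rfl, show (px l η X Y).c = Real.cos (η / 2) from rfl,
    show (px l η X Y).d = Real.sin η * (Y / X).re from rfl,
    show (px l η X Y).e = Real.sin η * (Y / X).im from rfl]
  unfold NF1 NG
  rw [qcY hX]
  beta_reduce
  rw [af_ash22, af_adas, pow_one]
  unfold Rr
  simp only [mul_re, mul_im, add_re, add_im, ofReal_re, ofReal_im, I_re, I_im, conj_re, conj_im]
  unfold af
  have e4 : (1:ℝ) + (X.re - 1) = X.re := by ring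
  rw [e4]
  have p1 : Dd a X.re X.im ^ (j + 1 + m) = Dd a X.re X.im ^ j * Dd a X.re X.im *
      Dd a X.re X.im ^ m := by rw [pow_add, pow_succ]
  have p2 : Dd a X.re X.im ^ (j + 1) = Dd a X.re X.im ^ j * Dd a X.re X.im := by rw [pow_succ]
  have p3 : Dd a X.re X.im ^ (m + 1) = Dd a X.re X.im ^ m * Dd a X.re X.im := by rw [pow_succ]
  rw [p1, p2, p3]
  field_simp
  push_cast
  ring

end

def EH (a : DQ) (K : ℕ) (t : AP × ℕ) : Ex :=
  Ex.add (Ex.mul (Ex.mul (Ex.sc (-2) (apE t.1)) (Ex.mul (Ex.va 3) (Ex.va 4)))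
      (Ex.bp (mu2 (reB t.2) (Dn a K))))
    (Ex.mul (Ex.mul (apE t.1) (Ex.add (Ex.pow (Ex.va 4) 2) (Ex.sc (-1) (Ex.pow (Ex.va 3) 2))))
      (Ex.bp (mu2 (imB t.2) (Dn a K))))

theorem EH_re (a : DQ) (K : ℕ) (t : AP × ℕ) (ht : t.2 ≤ 2) (X Y : ℂ) (l η : ℝ) :
    (EH a K t).re (px l η X Y) = Dd a X.re X.im ^ K * NH t X Y η := by
  simp only [EH, Ex.re, apE_re, ev2_mu]
  rw [show (px l η X Y).f = X.re - 1 from rfl, show (px l η X Y).g = X.im from rfl, Dn_ev,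
    reB_ev _ ht, imB_ev _ ht,
    show (px l η X Y).b = Real.sin (η / 2) from rfl, show (px l η X Y).c = Real.cos (η / 2) from rfl,
    show (px l η X Y).d = Real.sin η * (Y / X).re from rfl,
    show (px l η X Y).e = Real.sin η * (Y / X).im from rfl]
  unfold NH NG
  have e : (t.2 : ℂ) * (X - 1) ^ (t.2 - 1) + I * (I * ((t.2 : ℂ) * (X - 1) ^ (t.2 - 1))) = 0 := by
    linear_combination ((t.2 : ℂ) * (X - 1) ^ (t.2 - 1)) * I_sq
  rw [e, zero_mul]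
  beta_reduce
  rw [af_ash22]
  unfold af
  rw [pow_two (Y / X)]
  simp only [zero_re, mul_re, mul_im]
  push_cast
  ring

end Pool.Agent.Helper69.EK5

end

section

set_option autoImplicit false
open Complex MeasureTheory Metric Set
open scoped Real ComplexConjugate

/-!
# Project EK5: data of a certificate and the target expressions
-/

namespace Pool.Agent.Helper69.EK5

open Pool.Sos71
open Pool.EK71 Pool.Agent.Helper52.EK Pool.Agent.Helper2.EK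
open Pool.Agent.Helper69.EK3
open Pool.Agent.Helper71.EK3 (xL yL r2L FL G2L e_x e_y e_r2 e_F e_G2)
open Pool.Agent.Helper71.EKC (c1_unique pw2 e_pw sb2 e_sb)

structure Dat where
  a : DQ
  K : ℕ
  kU : ℕ
  kV : ℕ
  kF : ℕ
  kL : ℕ
  h : ℕ
  M : ℤ
  lam : ℤ
  c1 : ℤ
  a2 : ℤ
  UU : List (AP × BP)
  VX : List (AP × BP)
  VE : List (AP × BP)
  F0 : List (AP × BP)
  F1 : List (AP × BP)
  HH : List (AP × ℕ)
  HM : List (ℕ × Bool × ℤ)
  fi : Sd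
  fo : Sd

def mulE (a : DQ) (K k : ℕ) (t : AP × BP) : Ex := Ex.mul (apE t.1) (Ex.bp (mu2 t.2 (Dn a (K - k))))

def EHM (a : DQ) (K h : ℕ) (t : ℕ × Bool × ℤ) : Ex :=
  Ex.mul (Ex.mul (Ex.sc t.2.2 (if t.2.1 then (csE t.1).1 else (csE t.1).2)) (Ex.pow eo (h - t.1)))
    (Ex.bp (mu2 G2L (Dn a K)))

namespace Dat
variable (c : Dat)

/-- the null Lagrangians and `lam |X-1|² + a₂ Re (X-1)²`, times `D^K` -/
def tN : Ex :=
  sumE (EU c.a c.K c.kU) (sumE (EVX c.a c.K c.kV) (sumE (EVE c.a c.K c.kV)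
    (sumE (EF0 c.a c.K c.kF) (sumE (EF1 c.a c.K c.kF) (sumE (EH c.a c.K)
      (sumE (EHM c.a c.K c.h)
        (Ex.mul (Ex.pow eo c.h) (Ex.bp (mu2 (ad2 (sm2 c.lam FL) (sm2 c.a2 G2L)) (Dn c.a c.K))))
        c.HM) c.HH) c.F1) c.F0) c.VE) c.VX) c.UU

def tMul (f : Sd) : Ex :=
  Ex.add (sumE (mulE c.a c.K c.kL) (Ex.sc 0 (Ex.pow eo (c.h - 2))) f.L0)
    (Ex.mul (Ex.va 0) (sumE (mulE c.a c.K c.kL) (Ex.sc 0 (Ex.pow eo (c.h - 2))) f.L1))

def tSide (f : Sd) : Ex :=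
  Ex.add c.tN (Ex.add
    (Ex.mul (Ex.mul (Ex.pow eo (c.h - 2)) (Ex.bp (sm2 (-1) (Dn c.a c.K)))) (eTT c.M f))
    (Ex.mul (c.tMul f) (eCon f)))

def tIn : Ex := c.tSide c.fi
def tOut : Ex := c.tSide c.fo

end Dat

end Pool.Agent.Helper69.EK5

end

section

set_option autoImplicit false
open Complex MeasureTheory Metric Set
open scoped Real ComplexConjugate

/-!
# Project EK5: the centre line
-/

namespace Pool.Agent.Helper69.EK5

open Pool.Sos71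
open Pool.EK71 Pool.Agent.Helper52.EK Pool.Agent.Helper2.EK
open Pool.Agent.Helper69.EK3
open Pool.Agent.Helper71.EK3 (xL yL r2L FL G2L e_x e_y e_r2 e_F e_G2)
open Pool.Agent.Helper71.EKC (c1_unique pw2 e_pw sb2 e_sb)
open Pool.Agent.Helper71.EKC (c1_conj)

theorem Dd_conj (a : DQ) (X : ℂ) : Dd a (conj X).re (conj X).im = Dd a X.re X.im := by
  simp [Dd]

theorem Rr_conj_even {a : DQ} {j : ℕ} {P : BP} (h : par2 true P = true) (X : ℂ) :
    Rr a j P (conj X) = Rr a j P X := by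
  unfold Rr
  rw [Dd_conj, conj_re, conj_im, par2_even _ _ _ h]

theorem Rr_conj_odd {a : DQ} {j : ℕ} {P : BP} (h : par2 false P = true) (X : ℂ) :
    Rr a j P (conj X) = - Rr a j P X := by
  unfold Rr
  rw [Dd_conj, conj_re, conj_im, par2_odd _ _ _ h]
  ring

/-! ### the centre terms of the families -/

/-- `R + R ∘ conj` -/
noncomputable def Rs (a : DQ) (j : ℕ) (P : BP) (X : ℂ) : ℝ := Rr a j P X + Rr a j P (conj X)

theorem dEta_conj {a : DQ} {j : ℕ} {P : BP} (h : par2 true P = true) (X Y : ℂ) :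
    dEta (Rr a (j + 1) (qX a j P)) (Rr a (j + 1) (qY a j P)) X Y +
      dEta (Rr a (j + 1) (qX a j P)) (Rr a (j + 1) (qY a j P)) (conj X) (conj Y) = 0 := by
  have h1 := c1_Rr a j P
  have h2 := c1_conj h1
  have h3 : C1f (fun X => Rr a j P X) (fun X => Rr a (j + 1) (qX a j P) (conj X))
      (fun X => - Rr a (j + 1) (qY a j P) (conj X)) :=
    c1_congr h2 (fun X => (Rr_conj_even h X).symm) (fun _ => rfl) (fun _ => rfl)
  obtain ⟨e1, e2⟩ := c1_unique h1 h3 X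
  unfold dEta
  rw [conj_re, conj_im, e1, e2]
  ring

theorem KU_conj {a : DQ} {j h : ℕ} (hh : 2 ≤ h) {t : AP × BP} (ht : okU h j t = true) (X Y : ℂ) :
    KU a j t X Y + KU a j t (conj X) (conj Y) =
      - (2 * (asum (ader (ash 2 2 t.1)) : ℝ) / 2 ^ h * Rs a j t.2 X) := by
  simp only [okU, Bool.and_eq_true, Bool.or_eq_true, decide_eq_true_eq] at ht
  obtain ⟨⟨_, h2⟩, h3⟩ := ht
  have e0 : 2 * h - 4 + 2 + 2 = 2 * h := by omega
  have g1 : ahom (2 * h) (ash 2 2 t.1) = true := by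
    have := ahom_ash 2 2 h2
    rwa [e0] at this
  have g2 := ahom_ader g1
  unfold KU Rs
  rw [af_half_even g1, af_half_even g2, asum_ash]
  rcases h3 with h3 | h3
  · rw [h3]
    push_cast
    ring
  · have h4 := dEta_conj (a := a) (j := j) h3 X Y
    linear_combination (4 * ((asum t.1 : ℝ) / 2 ^ h)) * h4

theorem KVE_conj {a : DQ} {j h : ℕ} (hh : 2 ≤ h) {t : AP × BP} (ht : ahom (2 * h - 2) t.1 = true)
    (X Y : ℂ) : KVE a j t X Y + KVE a j t (conj X) (conj Y) =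
      2 * (asum t.1 : ℝ) / 2 ^ h * Rs a j t.2 X := by
  have e0 : 2 * h - 2 + 1 + 1 = 2 * h := by omega
  have g1 : ahom (2 * h) (ash 1 1 t.1) = true := by
    have := ahom_ash 1 1 ht
    rwa [e0] at this
  unfold KVE Rs
  rw [af_half_even g1, asum_ash]
  ring

theorem KF0_conj {a : DQ} {j h : ℕ} (hh : 2 ≤ h) {t : AP × BP} (ht : okF true h j t = true) (X Y : ℂ) :
    KF0 a j t X Y + KF0 a j t (conj X) (conj Y) = 0 := by
  simp only [okF, Bool.and_eq_true, Bool.or_eq_true, decide_eq_true_eq] at ht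
  obtain ⟨⟨_, h2⟩, h3⟩ := ht
  have e0 : 2 * h - 4 + 2 + 2 = 2 * h := by omega
  have g1 : ahom (2 * h) (ash 2 2 t.1) = true := by
    have := ahom_ash 2 2 h2
    rwa [e0] at this
  unfold KF0
  rw [af_half_even g1, asum_ash]
  rcases h3 with h3 | h3
  · rw [h3]
    simp
  · rw [Rr_conj_even h3, pow_one, pow_one, ← map_div₀]
    simp only [mul_im, ofReal_re, ofReal_im, conj_re, conj_im]
    ring

theorem KF1_conj {a : DQ} {j h : ℕ} (hh : 2 ≤ h) {t : AP × BP} (ht : okF false h j t = true) (X Y : ℂ) :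
    KF1 a j t X Y + KF1 a j t (conj X) (conj Y) = 0 := by
  simp only [okF, Bool.and_eq_true, Bool.or_eq_true, decide_eq_true_eq] at ht
  obtain ⟨⟨_, h2⟩, h3⟩ := ht
  have e0 : 2 * h - 4 + 2 + 2 = 2 * h := by omega
  have g1 : ahom (2 * h) (ash 2 2 t.1) = true := by
    have := ahom_ash 2 2 h2
    rwa [e0] at this
  unfold KF1
  rw [af_half_even g1, asum_ash]
  rcases h3 with h3 | h3
  · rw [h3]
    simp
  · rw [Rr_conj_odd h3, pow_one, pow_one, ← map_div₀]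
    simp only [mul_im, mul_re, I_re, I_im, ofReal_re, ofReal_im, conj_re, conj_im]
    ring

theorem EHM_re (a : DQ) (K h : ℕ) (t : ℕ × Bool × ℤ) (X Y : ℂ) (l η : ℝ) :
    (EHM a K h t).re (px l η X Y) = Dd a X.re X.im ^ K * NM t X Y η := by
  have h1 := csE_re t.1 l η X Y
  have e : (EHM a K h t).re (px l η X Y) = (t.2.2 : ℝ) *
      ((if t.2.1 then (csE t.1).1 else (csE t.1).2).re (px l η X Y)) *
      (eo.re (px l η X Y) ^ (h - t.1)) * ev2 (X.re - 1) X.im (mu2 G2L (Dn a K)) := rfl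
  rw [e, px_o, one_pow, ev2_mu, e_G2, Dn_ev]
  have h3 : ((X - 1) ^ 2).re = (X.re - 1) ^ 2 - X.im ^ 2 := by
    rw [pow_two (X - 1), mul_re]
    simp
    ring
  unfold NM trg
  rw [h3]
  cases hb : t.2.1
  · simp only [Bool.false_eq_true, if_false, h1.2]
    ring
  · simp only [if_true, h1.1]
    ring

end Pool.Agent.Helper69.EK5

end

section

set_option autoImplicit false
open Complex MeasureTheory Metric Set
open scoped Real ComplexConjugate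

/-!
# Project EK5: assembly of the certificate
-/

namespace Pool.Agent.Helper69.EK5

open Pool.Sos71
open Pool.EK71 Pool.Agent.Helper52.EK Pool.Agent.Helper2.EK
open Pool.Agent.Helper69.EK3
open Pool.Agent.Helper71.EK3 (xL yL r2L FL G2L e_x e_y e_r2 e_F e_G2)
open Pool.Agent.Helper71.EKC (c1_unique pw2 e_pw sb2 e_sb)
open Pool.Agent.Helper71.EKC (c1_conj)

namespace Dat
variable (c : Dat)

/-- conditions on the data -/
def wf : Bool :=
  Nat.ble (c.kU + 2) c.K && Nat.ble (c.kV + 1) c.K && Nat.ble (c.kF + 1) c.K &&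
  Nat.ble c.kL c.K && Nat.ble 2 c.h &&
  c.UU.all (okU c.h c.kU) && c.VX.all (fun t => dle (2 * c.kV + 2) t.2) &&
  c.VE.all (fun t => ahom (2 * c.h - 2) t.1) &&
  c.F0.all (okF true c.h c.kF) && c.F1.all (okF false c.h c.kF) &&
  c.HH.all (fun t => Nat.ble t.2 2) && c.HM.all (fun t => Nat.ble 1 t.1 && Nat.ble t.1 4)

structure Wf : Prop where
  kU : c.kU + 2 ≤ c.K
  kV : c.kV + 1 ≤ c.K
  kF : c.kF + 1 ≤ c.K
  kL : c.kL ≤ c.K
  h2 : 2 ≤ c.h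
  uu : ∀ t ∈ c.UU, okU c.h c.kU t = true
  vx : ∀ t ∈ c.VX, dle (2 * c.kV + 2) t.2 = true
  ve : ∀ t ∈ c.VE, ahom (2 * c.h - 2) t.1 = true
  f0 : ∀ t ∈ c.F0, okF true c.h c.kF t = true
  f1 : ∀ t ∈ c.F1, okF false c.h c.kF t = true
  hh : ∀ t ∈ c.HH, t.2 ≤ 2
  hm : ∀ t ∈ c.HM, 1 ≤ t.1 ∧ t.1 ≤ 4

theorem wf_iff (h : c.wf = true) : c.Wf := by
  simp only [wf, Bool.and_eq_true, Nat.ble_eq, List.all_eq_true] at h
  obtain ⟨⟨⟨⟨⟨⟨⟨⟨⟨⟨⟨h2, h3⟩, h4⟩, h5⟩, h6⟩, h7⟩, h8⟩, h9⟩, h10⟩, h11⟩, h12⟩, h13⟩ := h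
  exact ⟨h2, h3, h4, h5, h6, h7, h8, h9, h10, h11, h12, h13⟩

/-- the total null Lagrangian -/
noncomputable def NT (X Y : ℂ) (η : ℝ) : ℝ :=
  (c.UU.map fun t => NU c.a c.kU t X Y η).sum + ((c.VX.map fun t => NVX c.a c.kV t X Y η).sum +
  ((c.VE.map fun t => NVE c.a c.kV t X Y η).sum + ((c.F0.map fun t => NF0 c.a c.kF t X Y η).sum +
  ((c.F1.map fun t => NF1 c.a c.kF t X Y η).sum + ((c.HH.map fun t => NH t X Y η).sum +
  (c.HM.map fun t => NM t X Y η).sum)))))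

noncomputable def KT (X Y : ℂ) : ℝ :=
  (c.UU.map fun t => KU c.a c.kU t X Y).sum + ((c.VX.map fun _ => (0:ℝ)).sum +
  ((c.VE.map fun t => KVE c.a c.kV t X Y).sum + ((c.F0.map fun t => KF0 c.a c.kF t X Y).sum +
  ((c.F1.map fun t => KF1 c.a c.kF t X Y).sum + ((c.HH.map fun t => KH t X Y).sum +
  (c.HM.map fun t => KM t X Y).sum)))))

variable {c}

theorem isNull_NT (w : c.Wf) : IsNull DiscP c.NT c.KT := by
  have hU : ∀ t ∈ c.UU, dle (2 * c.kU + 2) t.2 = true := fun t ht => by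
    have := w.uu t ht
    simp only [okU, Bool.and_eq_true] at this
    exact this.1.1
  have h0 : ∀ t ∈ c.F0, dle (2 * c.kF + 2) t.2 = true := fun t ht => by
    have := w.f0 t ht
    simp only [okF, Bool.and_eq_true] at this
    exact this.1.1
  have h1 : ∀ t ∈ c.F1, dle (2 * c.kF + 2) t.2 = true := fun t ht => by
    have := w.f1 t ht
    simp only [okF, Bool.and_eq_true] at this
    exact this.1.1
  exact (IsNull.list c.UU fun t ht => isNull_NU t (hU t ht)).add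
    ((IsNull.list c.VX fun t ht => isNull_NVX t (w.vx t ht)).add
    ((IsNull.list c.VE fun t _ => isNull_NVE t).add
    ((IsNull.list c.F0 fun t ht => isNull_NF0 t (h0 t ht)).add
    ((IsNull.list c.F1 fun t ht => isNull_NF1 t (h1 t ht)).add
    ((IsNull.list c.HH fun t ht => isNull_NH t (w.hh t ht)).add
    (IsNull.list c.HM fun t _ => isNull_NM t))))))

theorem tN_re (w : c.Wf) {X Y : ℂ} (hX : X ≠ 0) (l η : ℝ) : c.tN.re (px l η X Y) =
    Dd c.a X.re X.im ^ c.K * (c.NT X Y η + (c.lam * ‖X - 1‖ ^ 2 +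
      c.a2 * ((X.re - 1) ^ 2 - X.im ^ 2))) := by
  have e0 : ‖X - 1‖ ^ 2 = (X.re - 1) ^ 2 + X.im ^ 2 := by
    rw [nq_sq]
    simp
  unfold tN
  simp only [sumE_re]
  rw [map_sum_congr c.UU fun t _ => EU_re c.a c.K c.kU t w.kU (Y := Y) hX l η,
    map_sum_congr c.VX fun t _ => EVX_re c.a c.K c.kV t w.kV (Y := Y) hX l η,
    map_sum_congr c.VE fun t _ => EVE_re c.a c.K c.kV t w.kV (Y := Y) hX l η,
    map_sum_congr c.F0 fun t _ => EF0_re c.a c.K c.kF t w.kF (Y := Y) hX l η,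
    map_sum_congr c.F1 fun t _ => EF1_re c.a c.K c.kF t w.kF (Y := Y) hX l η,
    map_sum_congr c.HH fun t ht => EH_re c.a c.K t (w.hh t ht) X Y l η,
    map_sum_congr c.HM fun t _ => EHM_re c.a c.K c.h t X Y l η]
  simp only [map_sum_mul]
  have e1 : (Ex.mul (Ex.pow eo c.h) (Ex.bp (mu2 (ad2 (sm2 c.lam FL) (sm2 c.a2 G2L))
      (Dn c.a c.K)))).re (px l η X Y) = (eo.re (px l η X Y)) ^ c.h *
      ev2 (X.re - 1) X.im (mu2 (ad2 (sm2 c.lam FL) (sm2 c.a2 G2L)) (Dn c.a c.K)) := rfl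
  rw [e1, px_o, one_pow, ev2_mu, ev2_ad, ev2_sm, ev2_sm, e_F, e_G2, Dn_ev, e0]
  unfold NT
  ring

/-! ### centre -/

variable (c)

def cU (t : AP × BP) : BP :=
  sm2 (Int.mul 2712 (asum (ader (ash 2 2 t.1)))) (mu2 (ad2 t.2 (fl2 t.2)) (Dn c.a (c.K - c.kU)))

def cE (t : AP × BP) : BP :=
  sm2 (Int.mul (-2712) (asum t.1)) (mu2 (ad2 t.2 (fl2 t.2)) (Dn c.a (c.K - c.kV)))

def cM (t : ℕ × Bool × ℤ) : BP :=
  sm2 (Int.mul (Int.mul (-226) (Int.ofNat (2 ^ c.h))) (Int.mul t.2.2 (hmv t.1 t.2.1)))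
    (mu2 G2L (Dn c.a c.K))

def c0 : BP :=
  mu2 (sm2 (Int.mul (-4260) (Int.ofNat (2 ^ c.h))) (ad2 (sm2 c.c1 [[0], [1]]) (sm2 c.a2 G2L)))
    (Dn c.a c.K)

/-- the centre polynomial: `12 · 113 · 2^h · D^K · E_c` with `355/113` for `π` -/
def cen : BP := sumB c.cU (sumB c.cE (sumB c.cM c.c0 c.HM) c.VE) c.UU

/-- the centre function with `p` for `π` and `k` for `c₁` -/
noncomputable def Ecp (k p : ℝ) (X : ℂ) : ℝ :=
  (c.UU.map fun t => 2 * (asum (ader (ash 2 2 t.1)) : ℝ) / 2 ^ c.h * Rs c.a c.kU t.2 X).sum +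
  ((c.VE.map fun t => - (2 * (asum t.1 : ℝ) / 2 ^ c.h * Rs c.a c.kV t.2 X)).sum +
  ((c.HM.map fun t => - ((t.2.2 : ℝ) * hmv t.1 t.2.1 / 6 * ((X.re - 1) ^ 2 - X.im ^ 2))).sum +
  (- (k * p * (X.re - 1)) - c.a2 * p * ((X.re - 1) ^ 2 - X.im ^ 2))))

variable {c}

theorem cen_ev (w : c.Wf) (X : ℂ) : ev2 (X.re - 1) X.im c.cen =
    1356 * 2 ^ c.h * Dd c.a X.re X.im ^ c.K * c.Ecp c.c1 (355 / 113) X := by
  have hD := (Dd_pos c.a X.re X.im).ne'
  have h2 : (2:ℝ) ^ c.h ≠ 0 := by positivity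
  have eU : ∀ t ∈ c.UU, ev2 (X.re - 1) X.im (c.cU t) =
      1356 * 2 ^ c.h * Dd c.a X.re X.im ^ c.K *
        (2 * (asum (ader (ash 2 2 t.1)) : ℝ) / 2 ^ c.h * Rs c.a c.kU t.2 X) := by
    intro t _
    obtain ⟨m, hm⟩ := Nat.exists_eq_add_of_le (le_trans (Nat.le_add_right _ 2) w.kU)
    have e2 : c.K - c.kU = m := by omega
    rw [cU, ev2_sm, ev2_mu, ev2_ad, fl2_ev, Dn_ev, imul_cast', e2]
    unfold Rs Rr
    rw [Dd_conj, conj_re, conj_im]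
    have p1 : Dd c.a X.re X.im ^ c.K = Dd c.a X.re X.im ^ c.kU * Dd c.a X.re X.im ^ m := by
      rw [hm, pow_add]
    rw [p1]
    field_simp
    push_cast
    ring
  have eE : ∀ t ∈ c.VE, ev2 (X.re - 1) X.im (c.cE t) =
      1356 * 2 ^ c.h * Dd c.a X.re X.im ^ c.K *
        (- (2 * (asum t.1 : ℝ) / 2 ^ c.h * Rs c.a c.kV t.2 X)) := by
    intro t _
    obtain ⟨m, hm⟩ := Nat.exists_eq_add_of_le (le_trans (Nat.le_add_right _ 1) w.kV)
    have e2 : c.K - c.kV = m := by omega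
    rw [cE, ev2_sm, ev2_mu, ev2_ad, fl2_ev, Dn_ev, imul_cast', e2]
    unfold Rs Rr
    rw [Dd_conj, conj_re, conj_im]
    have p1 : Dd c.a X.re X.im ^ c.K = Dd c.a X.re X.im ^ c.kV * Dd c.a X.re X.im ^ m := by
      rw [hm, pow_add]
    rw [p1]
    field_simp
    push_cast
    ring
  have eM : ∀ t ∈ c.HM, ev2 (X.re - 1) X.im (c.cM t) =
      1356 * 2 ^ c.h * Dd c.a X.re X.im ^ c.K *
        (- ((t.2.2 : ℝ) * hmv t.1 t.2.1 / 6 * ((X.re - 1) ^ 2 - X.im ^ 2))) := by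
    intro t _
    rw [cM, ev2_sm, ev2_mu, e_G2, Dn_ev, imul_cast', imul_cast', imul_cast', ofNat_cast']
    push_cast
    ring
  rw [cen, sumB_ev, sumB_ev, sumB_ev, map_sum_congr _ eU, map_sum_congr _ eE, map_sum_congr _ eM,
    map_sum_mul, map_sum_mul, map_sum_mul, c0, ev2_mu, ev2_sm, ev2_ad, ev2_sm, ev2_sm, e_G2,
    Dn_ev, imul_cast', ofNat_cast']
  unfold Ecp
  simp only [ev2, ev1]
  push_cast
  ring

theorem KT_conj (w : c.Wf) (X Y : ℂ) (k : ℝ) :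
    (c.KT X Y + (c.a2 * (π / 2) * ((X.re - 1) ^ 2 - X.im ^ 2) + k * (π / 2) * (X.re - 1))) +
    (c.KT (conj X) (conj Y) + (c.a2 * (π / 2) * (((conj X).re - 1) ^ 2 - (conj X).im ^ 2) +
      k * (π / 2) * ((conj X).re - 1))) = - c.Ecp k π X := by
  have eU := map_sum_congr c.UU fun t ht => KU_conj (a := c.a) w.h2 (w.uu t ht) X Y
  have eE := map_sum_congr c.VE fun t ht => KVE_conj (a := c.a) (j := c.kV) w.h2 (w.ve t ht) X Y
  have e0 := map_sum_congr c.F0 fun t ht => KF0_conj (a := c.a) w.h2 (w.f0 t ht) X Y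
  have e1 := map_sum_congr c.F1 fun t ht => KF1_conj (a := c.a) w.h2 (w.f1 t ht) X Y
  have eH := map_sum_congr c.HH fun t _ => KH_conj t X Y
  have eM := map_sum_congr c.HM fun t ht => KM_conj (w.hm t ht).1 (w.hm t ht).2 X Y
  rw [← map_sum_add] at eU eE e0 e1 eH eM
  have n0 : ∀ (L : List (AP × BP)), (L.map fun _ => (0:ℝ)).sum = 0 := fun L => by
    induction L with
    | nil => simp
    | cons t L ih => simpa using ih
  have n1 : ∀ (L : List (AP × ℕ)), (L.map fun _ => (0:ℝ)).sum = 0 := fun L => by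
    induction L with
    | nil => simp
    | cons t L ih => simpa using ih
  have g1 : (c.UU.map fun t => - (2 * (asum (ader (ash 2 2 t.1)) : ℝ) / 2 ^ c.h *
      Rs c.a c.kU t.2 X)).sum = - (c.UU.map fun t => 2 * (asum (ader (ash 2 2 t.1)) : ℝ) /
      2 ^ c.h * Rs c.a c.kU t.2 X).sum := by
    have := map_sum_mul c.UU (fun t => 2 * (asum (ader (ash 2 2 t.1)) : ℝ) / 2 ^ c.h *
      Rs c.a c.kU t.2 X) (-1)
    simp only [neg_mul, one_mul] at this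
    exact this
  have g2 : (c.VE.map fun t => - (2 * (asum t.1 : ℝ) / 2 ^ c.h * Rs c.a c.kV t.2 X)).sum =
      - (c.VE.map fun t => 2 * (asum t.1 : ℝ) / 2 ^ c.h * Rs c.a c.kV t.2 X).sum := by
    have := map_sum_mul c.VE (fun t => 2 * (asum t.1 : ℝ) / 2 ^ c.h * Rs c.a c.kV t.2 X) (-1)
    simp only [neg_mul, one_mul] at this
    exact this
  have g3 : (c.HM.map fun t => - ((t.2.2 : ℝ) * hmv t.1 t.2.1 / 6 *
      ((X.re - 1) ^ 2 - X.im ^ 2))).sum = - (c.HM.map fun t => (t.2.2 : ℝ) * hmv t.1 t.2.1 / 6 *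
      ((X.re - 1) ^ 2 - X.im ^ 2)).sum := by
    have := map_sum_mul c.HM (fun t => (t.2.2 : ℝ) * hmv t.1 t.2.1 / 6 *
      ((X.re - 1) ^ 2 - X.im ^ 2)) (-1)
    simp only [neg_mul, one_mul] at this
    exact this
  rw [n0] at e0 e1
  rw [n1] at eH
  rw [g1] at eU
  unfold Ecp KT
  rw [g2, g3, n0, conj_re, conj_im]
  linear_combination eU + eE + e0 + e1 + eH + eM

theorem Ecp_c1 (k p : ℝ) : ∃ Ex Ey : ℂ → ℝ, C1f (c.Ecp k p) Ex Ey := by
  have hR : ∀ (a : DQ) (j : ℕ) (P : BP), ∃ Fx Fy : ℂ → ℝ, C1f (Rs a j P) Fx Fy := fun a j P =>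
    ⟨_, _, c1_add (c1_Rr a j P) (c1_conj (c1_Rr a j P))⟩
  have hS : ∃ Fx Fy : ℂ → ℝ, C1f (fun X : ℂ => (X.re - 1) ^ 2 - X.im ^ 2) Fx Fy :=
    ⟨_, _, by
      have h1 := c1_sub c1_re (c1_const 1)
      have h2 := c1_sub (c1_mul h1 h1) (c1_mul c1_im c1_im)
      exact c1_congr h2 (fun X => by ring) (fun _ => rfl) (fun _ => rfl)⟩
  obtain ⟨A1, A2, hA⟩ := c1_list c.UU (fun t X => 2 * (asum (ader (ash 2 2 t.1)) : ℝ) /
    2 ^ c.h * Rs c.a c.kU t.2 X) (fun t => by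
      obtain ⟨_, _, h⟩ := hR c.a c.kU t.2
      exact ⟨_, _, c1_mul (c1_const _) h⟩)
  obtain ⟨B1, B2, hB⟩ := c1_list c.VE (fun t X => - (2 * (asum t.1 : ℝ) / 2 ^ c.h *
    Rs c.a c.kV t.2 X)) (fun t => by
      obtain ⟨_, _, h⟩ := hR c.a c.kV t.2
      exact ⟨_, _, c1_congr (c1_mul (c1_const (-(2 * (asum t.1 : ℝ) / 2 ^ c.h))) h)
        (fun X => by ring) (fun _ => rfl) (fun _ => rfl)⟩)
  obtain ⟨C1, C2, hC⟩ := c1_list c.HM (fun t X => - ((t.2.2 : ℝ) * hmv t.1 t.2.1 / 6 *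
    ((X.re - 1) ^ 2 - X.im ^ 2))) (fun t => by
      obtain ⟨_, _, h⟩ := hS
      exact ⟨_, _, c1_congr (c1_mul (c1_const (-((t.2.2 : ℝ) * hmv t.1 t.2.1 / 6))) h)
        (fun X => by ring) (fun _ => rfl) (fun _ => rfl)⟩)
  obtain ⟨S1, S2, hS⟩ := hS
  have hL := c1_sub (c1_mul (c1_const (-(k * p))) (c1_sub c1_re (c1_const 1)))
    (c1_mul (c1_const (c.a2 * p)) hS)
  refine ⟨_, _, c1_congr (c1_add hA (c1_add hB (c1_add hC hL))) (fun X => ?_) (fun _ => rfl)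
    (fun _ => rfl)⟩
  unfold Ecp
  ring

end Dat

end Pool.Agent.Helper69.EK5

end

section

set_option autoImplicit false
open Complex MeasureTheory Metric Set
open scoped Real ComplexConjugate

/-!
# Project EK6: the families of null Lagrangians, angular functions `S g`, `S² g`, `S = sin (η/2)`
-/

namespace Pool.Agent.Helper69.EK6

open Pool.EK71 Pool.Agent.Helper52.EK Pool.Agent.Helper2.EK
open Pool.Agent.Helper69.EK3 hiding qX qY qL Rr c1_Rr c2_Rr Rr_le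
open Pool.Agent.Helper69.EK5 (DQ Dd Dd_pos Dd_low DL e_D qX qY qL Rr c1_Rr c2_Rr Rr_le)
open Pool.Agent.Helper71.EK3 (xL yL r2L FL G2L e_x e_y e_r2 e_F e_G2)
open Pool.Agent.Helper71.EKC (c1_unique pw2 e_pw sb2 e_sb)

variable {P : (ℂ → ℂ) → ℝ → ℝ → Prop}

/-! ### angular functions -/

theorem af_ash20 (g : AP) (η : ℝ) : af (ash 2 0 g) η = Real.sin (η / 2) ^ 2 * af g η := by
  unfold af
  rw [aev_ash]
  ring

theorem af_ash10 (g : AP) (η : ℝ) : af (ash 1 0 g) η = Real.sin (η / 2) * af g η := by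
  unfold af
  rw [aev_ash]
  ring

/-- `2 (S² g)'· 2 / S` as a polynomial: `2 · af (ader (ash 2 0 g)) = S · af (adas g)` -/
def adas : AP → AP
  | [] => []
  | (c, i, j) :: g => (Int.mul (Int.mul 2 c) (Int.ofNat (i + 2)), i, j + 1) ::
      ((match j with
        | 0 => []
        | j' + 1 => [(Int.mul (Int.mul (-2) c) (Int.ofNat (j' + 1)), i + 2, j')]) ++ adas g)

theorem aev_adas (S C : ℝ) (g : AP) :
    2 * aev S C (ader (ash 2 0 g)) = S * aev S C (adas g) := by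
  induction g with
  | nil => simp [ader, ash, adas, aev]
  | cons t g ih =>
    obtain ⟨c, i, j⟩ := t
    cases j with
    | zero =>
      simp only [ash, ader, adas, List.cons_append, List.nil_append, aev, imul_cast', ofNat_cast',
        add_zero]
      rw [mul_add, mul_add, ih]
      push_cast
      ring
    | succ j =>
      simp only [ash, ader, adas, List.cons_append, List.nil_append, aev, imul_cast', ofNat_cast',
        add_zero]
      rw [mul_add, mul_add, mul_add, mul_add, ih]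
      push_cast
      simp only [Nat.succ_eq_add_one]
      ring

theorem af_adas (g : AP) (η : ℝ) :
    2 * af (ader (ash 2 0 g)) η = Real.sin (η / 2) * af (adas g) η := by
  unfold af
  rw [aev_adas]

theorem hd20 (g : AP) (η : ℝ) : HasDerivAt (fun η => 4 * af (ash 2 0 g) η)
    (2 * af (ader (ash 2 0 g)) η) η := by
  refine ((af_hasDerivAt (ash 2 0 g) η).const_mul 4).congr_deriv ?_
  ring

theorem hd20' (g : AP) (η : ℝ) : HasDerivAt (fun η => 2 * af (ader (ash 2 0 g)) η)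
    (af (ader (ader (ash 2 0 g))) η) η := by
  refine ((af_hasDerivAt (ader (ash 2 0 g)) η).const_mul 2).congr_deriv ?_
  ring

theorem hd10 (g : AP) (η : ℝ) : HasDerivAt (fun η => 2 * af (ash 1 0 g) η)
    (af (ader (ash 1 0 g)) η) η := by
  refine ((af_hasDerivAt (ash 1 0 g) η).const_mul 2).congr_deriv ?_
  ring

/-- `S² ≤ S ≤ s` and `0 ≤ S` on the half strip -/
theorem half_le {η : ℝ} (hη : η ∈ Icc (0:ℝ) (π / 2)) :
    0 ≤ Real.sin (η / 2) ∧ Real.sin (η / 2) ≤ Real.sin η ∧ Real.sin (η / 2) ^ 2 ≤ Real.sin η := by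
  have hp := Real.pi_pos
  have h0 : 0 ≤ Real.sin (η / 2) :=
    Real.sin_nonneg_of_nonneg_of_le_pi (by linarith [hη.1]) (by linarith [hη.2])
  have h1 : Real.sin (η / 2) ≤ Real.sin η :=
    Real.sin_le_sin_of_le_of_le_pi_div_two (by linarith [hη.1]) hη.2 (by linarith [hη.1])
  have h2 := Real.sin_le_one (η / 2)
  exact ⟨h0, h1, by nlinarith⟩

/-! ### the families -/

noncomputable def NU (a : DQ) (j : ℕ) (t : AP × BP) (X Y : ℂ) (η : ℝ) : ℝ :=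
  4 * af (ash 2 0 t.1) η * Rr a (j + 2) (qL a j t.2) X * ‖Y‖ ^ 2 -
    af (ader (ader (ash 2 0 t.1))) η * Rr a j t.2 X

noncomputable def KU (a : DQ) (j : ℕ) (t : AP × BP) (X Y : ℂ) : ℝ :=
  4 * af (ash 2 0 t.1) (π / 2) * dEta (Rr a (j + 1) (qX a j t.2)) (Rr a (j + 1) (qY a j t.2)) X Y -
    2 * af (ader (ash 2 0 t.1)) (π / 2) * Rr a j t.2 X

theorem isNull_NU {a : DQ} {j : ℕ} (t : AP × BP) (h : dle (2 * j + 2) t.2 = true) :
    IsNull P (NU a j t) (KU a j t) := by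
  obtain ⟨C, _, hC⟩ := Rr_le a j t.2 h
  exact isNull_U (c2_Rr a j t.2) (hd20 t.1) (hd20' t.1) (af_cont _)
    (by rw [af_ash20]; simp) (by rw [af_adas]; simp) hC

noncomputable def NVX (a : DQ) (j : ℕ) (t : AP × BP) (X Y : ℂ) (η : ℝ) : ℝ :=
  2 * af (ash 1 0 t.1) η * (Rr a (j + 1) (qX a j t.2) X * Y.re +
    Rr a (j + 1) (qY a j t.2) X * Y.im)

theorem isNull_NVX {a : DQ} {j : ℕ} (t : AP × BP) (h : dle (2 * j + 2) t.2 = true) :
    IsNull P (NVX a j t) (fun _ _ => 0) := by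
  obtain ⟨C, _, hC⟩ := Rr_le a j t.2 h
  exact isNull_W (c1_Rr a j t.2) (continuous_const.mul (af_cont _)) hC

noncomputable def NVE (a : DQ) (j : ℕ) (t : AP × BP) (X Y : ℂ) (η : ℝ) : ℝ :=
  2 * af (ash 1 0 t.1) η * dEta (Rr a (j + 1) (qX a j t.2)) (Rr a (j + 1) (qY a j t.2)) X Y +
    af (ader (ash 1 0 t.1)) η * Rr a j t.2 X

noncomputable def KVE (a : DQ) (j : ℕ) (t : AP × BP) (X _Y : ℂ) : ℝ :=
  2 * af (ash 1 0 t.1) (π / 2) * Rr a j t.2 X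

theorem isNull_NVE {a : DQ} {j : ℕ} (t : AP × BP) : IsNull P (NVE a j t) (KVE a j t) :=
  isNull_V (c1_Rr a j t.2) (hd10 t.1) (af_cont _) (by rw [af_ash10]; simp)

noncomputable def NF0 (a : DQ) (j : ℕ) (t : AP × BP) (X Y : ℂ) (η : ℝ) : ℝ :=
  NG (fun η => 4 * af (ash 2 0 t.1) η) (fun η => 2 * af (ader (ash 2 0 t.1)) η)
    (fun X => (Rr a j t.2 X : ℂ)) (fun X => (Rr a (j + 1) (qX a j t.2) X : ℂ))
    (fun X => (Rr a (j + 1) (qY a j t.2) X : ℂ)) X Y ((Y / X) ^ 1) η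

noncomputable def KF0 (a : DQ) (j : ℕ) (t : AP × BP) (X Y : ℂ) : ℝ :=
  - (4 * af (ash 2 0 t.1) (π / 2) * ((Rr a j t.2 X : ℂ) * (Y / X) ^ 1).im)

noncomputable def NF1 (a : DQ) (j : ℕ) (t : AP × BP) (X Y : ℂ) (η : ℝ) : ℝ :=
  NG (fun η => 4 * af (ash 2 0 t.1) η) (fun η => 2 * af (ader (ash 2 0 t.1)) η)
    (fun X => I * (Rr a j t.2 X : ℂ)) (fun X => I * (Rr a (j + 1) (qX a j t.2) X : ℂ))
    (fun X => I * (Rr a (j + 1) (qY a j t.2) X : ℂ)) X Y ((Y / X) ^ 1) η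

noncomputable def KF1 (a : DQ) (j : ℕ) (t : AP × BP) (X Y : ℂ) : ℝ :=
  - (4 * af (ash 2 0 t.1) (π / 2) * (I * (Rr a j t.2 X : ℂ) * (Y / X) ^ 1).im)

theorem af20_bdd (g : AP) : ∃ M : ℝ, 0 ≤ M ∧ ∀ η ∈ Icc (0:ℝ) (π / 2),
    |4 * af (ash 2 0 g) η| ≤ M * Real.sin η ^ 1 := by
  obtain ⟨M, hM0, hM⟩ := af_bdd g
  refine ⟨4 * M, by positivity, fun η hη => ?_⟩
  obtain ⟨h0, _, h2⟩ := half_le hη
  rw [af_ash20, abs_mul, abs_mul, abs_of_nonneg (by norm_num : (0:ℝ) ≤ 4),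
    abs_of_nonneg (sq_nonneg (Real.sin (η / 2))), pow_one]
  have h1 := hM η hη
  have h3 : Real.sin (η / 2) ^ 2 * |af g η| ≤ Real.sin η * M :=
    mul_le_mul h2 h1 (abs_nonneg _) (by nlinarith)
  linarith

theorem isNull_NF0 {a : DQ} {j : ℕ} (t : AP × BP) (h : dle (2 * j + 2) t.2 = true) :
    IsNull DiscP (NF0 a j t) (KF0 a j t) := by
  obtain ⟨C, hC0, hC⟩ := Rr_le a j t.2 h
  obtain ⟨M, hM0, hM⟩ := af20_bdd t.1
  exact isNull_P (C₀ := 38) (C1c_real (c1_Rr a j t.2)) 1 (hd20 t.1)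
    (continuous_const.mul (af_cont _)) (by rw [af_ash20]; simp) hC0 (by norm_num) hM0 hM
    (fun X => by rw [Complex.norm_real]; exact hC X) DiscP.q_le

theorem isNull_NF1 {a : DQ} {j : ℕ} (t : AP × BP) (h : dle (2 * j + 2) t.2 = true) :
    IsNull DiscP (NF1 a j t) (KF1 a j t) := by
  obtain ⟨C, hC0, hC⟩ := Rr_le a j t.2 h
  obtain ⟨M, hM0, hM⟩ := af20_bdd t.1
  exact isNull_P (C₀ := 38) (C1c_I (c1_Rr a j t.2)) 1 (hd20 t.1)
    (continuous_const.mul (af_cont _)) (by rw [af_ash20]; simp) hC0 (by norm_num) hM0 hM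
    (fun X => by rw [norm_mul, norm_I, one_mul, Complex.norm_real]; exact hC X) DiscP.q_le

/-! holomorphic fields -/

/-- primitive of `4 S² g` -/
noncomputable def apr (g : AP) (η : ℝ) : ℝ := ∫ t in (0:ℝ)..η, 4 * af (ash 2 0 g) t

theorem apr_hasDerivAt (g : AP) (η : ℝ) : HasDerivAt (apr g) (4 * af (ash 2 0 g) η) η := by
  have hc : Continuous (fun t => 4 * af (ash 2 0 g) t) := continuous_const.mul (af_cont _)
  exact intervalIntegral.integral_hasDerivAt_right (hc.intervalIntegrable _ _)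
    hc.stronglyMeasurable.stronglyMeasurableAtFilter hc.continuousAt

theorem apr_bdd (g : AP) : ∃ M : ℝ, 0 ≤ M ∧ ∀ η ∈ Icc (0:ℝ) (π / 2),
    |apr g η| ≤ M * Real.sin η ^ 2 := by
  obtain ⟨M, hM0, hM⟩ := af_bdd g
  refine ⟨4 * M * (π / 2), by positivity, fun η hη => ?_⟩
  have hs : 0 ≤ Real.sin η := Real.sin_nonneg_of_nonneg_of_le_pi hη.1
    (hη.2.trans (by linarith [Real.pi_pos]))
  have h1 : ∀ t ∈ Set.uIoc 0 η, ‖4 * af (ash 2 0 g) t‖ ≤ 4 * M * Real.sin η ^ 2 := by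
    intro t ht
    rw [uIoc_of_le hη.1] at ht
    have ht' : t ∈ Icc (0:ℝ) (π / 2) := ⟨ht.1.le, ht.2.trans hη.2⟩
    obtain ⟨g0, g1, _⟩ := half_le ht'
    have hle : Real.sin t ≤ Real.sin η :=
      Real.sin_le_sin_of_le_of_le_pi_div_two (by linarith [ht.1, Real.pi_pos]) hη.2 ht.2
    rw [af_ash20, Real.norm_eq_abs, abs_mul, abs_mul, abs_of_nonneg (by norm_num : (0:ℝ) ≤ 4),
      abs_of_nonneg (sq_nonneg (Real.sin (t / 2)))]
    have h2 := hM t ht'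
    have h3 : Real.sin (t / 2) ^ 2 ≤ Real.sin η ^ 2 := pow_le_pow_left₀ g0 (g1.trans hle) 2
    have h4 : Real.sin (t / 2) ^ 2 * |af g t| ≤ Real.sin η ^ 2 * M :=
      mul_le_mul h3 h2 (abs_nonneg _) (sq_nonneg _)
    linarith
  have h2 := intervalIntegral.norm_integral_le_of_norm_le_const h1
  rw [Real.norm_eq_abs, sub_zero, abs_of_nonneg hη.1] at h2
  unfold apr
  refine h2.trans ?_
  have h3 : 4 * M * Real.sin η ^ 2 * η ≤ 4 * M * Real.sin η ^ 2 * (π / 2) :=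
    mul_le_mul_of_nonneg_left hη.2 (by positivity)
  linarith

noncomputable def NH (t : AP × ℕ) (X Y : ℂ) (η : ℝ) : ℝ :=
  NG (apr t.1) (fun η => 4 * af (ash 2 0 t.1) η) (fun X => (X - 1) ^ t.2)
    (fun X => (t.2 : ℂ) * (X - 1) ^ (t.2 - 1)) (fun X => I * ((t.2 : ℂ) * (X - 1) ^ (t.2 - 1)))
    X Y ((Y / X) ^ 2) η

noncomputable def KH (t : AP × ℕ) (X Y : ℂ) : ℝ :=
  - (apr t.1 (π / 2) * ((X - 1) ^ t.2 * (Y / X) ^ 2).im)

theorem isNull_NH (t : AP × ℕ) (h : t.2 ≤ 2) : IsNull DiscP (NH t) (KH t) := by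
  obtain ⟨M, hM0, hM⟩ := apr_bdd t.1
  exact isNull_P (C₀ := 38) (C1c_pow t.2) 2 (apr_hasDerivAt t.1)
    (continuous_const.mul (af_cont _)) (by simp [apr]) zero_le_one (by norm_num) hM0 hM
    (norm_pow_le t.2 h) DiscP.q_le

end Pool.Agent.Helper69.EK6

end

section

set_option autoImplicit false
open Complex MeasureTheory Metric Set
open scoped Real ComplexConjugate

/-!
# Project EK6: the families as expressions
-/

namespace Pool.Agent.Helper69.EK6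

open Pool.Sos71
open Pool.EK71 Pool.Agent.Helper52.EK Pool.Agent.Helper2.EK
open Pool.Agent.Helper69.EK3 hiding qX qY qL Rr c1_Rr c2_Rr Rr_le Dn Dn_ev
open Pool.Agent.Helper69.EK5 (DQ Dd Dd_pos Dd_low DL e_D qX qY qL Rr c1_Rr c2_Rr Rr_le Dn Dn_ev)
open Pool.Agent.Helper71.EK3 (xL yL r2L FL G2L e_x e_y e_r2 e_F e_G2)
open Pool.Agent.Helper71.EKC (c1_unique pw2 e_pw sb2 e_sb)

/-- the point of the variables -/
noncomputable def px (l η : ℝ) (X Y : ℂ) : Pnt :=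
  ⟨l, Real.sin (η / 2), Real.cos (η / 2), Real.sin (η / 2) * (Y / X).re,
    Real.sin (η / 2) * (Y / X).im, X.re - 1, X.im⟩

section
variable (a : DQ) (K j : ℕ)

/-! ### `U` -/

def EU (t : AP × BP) : Ex :=
  Ex.add (Ex.mul (Ex.mul (Ex.sc 4 (apE t.1)) ePR) (Ex.bp (mu2 (mu2 r2L (qL a j t.2)) (Dn a (K - j - 2)))))
    (Ex.mul (Ex.sc (-1) (apE (ader (ader (ash 2 0 t.1))))) (Ex.bp (mu2 t.2 (Dn a (K - j)))))

theorem EU_re (t : AP × BP) (hK : j + 2 ≤ K) {X Y : ℂ} (hX : X ≠ 0) (l η : ℝ) :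
    (EU a K j t).re (px l η X Y) = Dd a X.re X.im ^ K * NU a j t X Y η := by
  obtain ⟨m, rfl⟩ := Nat.exists_eq_add_of_le hK
  have hD := (Dd_pos a X.re X.im).ne'
  have e1 : j + 2 + m - j - 2 = m := by omega
  have e2 : j + 2 + m - j = m + 2 := by omega
  simp only [EU, Ex.re, apE_re, ePR, ev2_mu, e_r2, e1, e2]
  rw [show (px l η X Y).f = X.re - 1 from rfl, show (px l η X Y).g = X.im from rfl, Dn_ev, Dn_ev,
    show (px l η X Y).b = Real.sin (η / 2) from rfl, show (px l η X Y).c = Real.cos (η / 2) from rfl,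
    show (px l η X Y).d = Real.sin (η / 2) * (Y / X).re from rfl,
    show (px l η X Y).e = Real.sin (η / 2) * (Y / X).im from rfl]
  have h1 := sY_sq (Y := Y) hX (Real.sin (η / 2))
  unfold NU Rr
  rw [af_ash20]
  have e3 : 4 * (Real.sin (η / 2) ^ 2 * af t.1 η) * (ev2 (X.re - 1) X.im (qL a j t.2) /
      Dd a X.re X.im ^ (j + 2)) * ‖Y‖ ^ 2 = 4 * (Real.sin (η / 2) ^ 2 * ‖Y‖ ^ 2) * af t.1 η *
      (ev2 (X.re - 1) X.im (qL a j t.2) / Dd a X.re X.im ^ (j + 2)) := by ring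
  rw [e3, h1]
  unfold af
  have e4 : (1:ℝ) + (X.re - 1) = X.re := by ring
  rw [e4]
  have p1 : Dd a X.re X.im ^ (j + 2 + m) = Dd a X.re X.im ^ j * Dd a X.re X.im ^ 2 *
    Dd a X.re X.im ^ m := by rw [pow_add, pow_add]
  have p2 : Dd a X.re X.im ^ (j + 2) = Dd a X.re X.im ^ j * Dd a X.re X.im ^ 2 := by rw [pow_add]
  have p3 : Dd a X.re X.im ^ (m + 2) = Dd a X.re X.im ^ m * Dd a X.re X.im ^ 2 := by rw [pow_add]
  rw [p1, p2, p3]
  field_simp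
  push_cast
  ring

/-! ### `V`, `ξ`-type -/

def EVX (t : AP × BP) : Ex :=
  Ex.mul (Ex.sc 2 (apE t.1)) (Ex.add
    (Ex.mul (Ex.va 3) (Ex.bp (mu2 (ad2 (mu2 xL (qX a j t.2)) (mu2 yL (qY a j t.2)))
      (Dn a (K - j - 1)))))
    (Ex.mul (Ex.va 4) (Ex.bp (mu2 (sb2 (mu2 xL (qY a j t.2)) (mu2 yL (qX a j t.2)))
      (Dn a (K - j - 1))))))

theorem EVX_re (t : AP × BP) (hK : j + 1 ≤ K) {X Y : ℂ} (hX : X ≠ 0) (l η : ℝ) :
    (EVX a K j t).re (px l η X Y) = Dd a X.re X.im ^ K * NVX a j t X Y η := by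
  obtain ⟨m, rfl⟩ := Nat.exists_eq_add_of_le hK
  have hD := (Dd_pos a X.re X.im).ne'
  have e1 : j + 1 + m - j - 1 = m := by omega
  simp only [EVX, Ex.re, apE_re, ev2_mu, ev2_ad, e_sb, e_x, e_y, e1]
  rw [show (px l η X Y).f = X.re - 1 from rfl, show (px l η X Y).g = X.im from rfl, Dn_ev,
    show (px l η X Y).b = Real.sin (η / 2) from rfl, show (px l η X Y).c = Real.cos (η / 2) from rfl,
    show (px l η X Y).d = Real.sin (η / 2) * (Y / X).re from rfl,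
    show (px l η X Y).e = Real.sin (η / 2) * (Y / X).im from rfl]
  unfold NVX Rr
  rw [af_ash10]
  have h1 := sY_re (Y := Y) hX (Real.sin (η / 2))
  have h2 := sY_im (Y := Y) hX (Real.sin (η / 2))
  have e3 : 2 * (Real.sin (η / 2) * af t.1 η) * (ev2 (X.re - 1) X.im (qX a j t.2) /
      Dd a X.re X.im ^ (j + 1) * Y.re + ev2 (X.re - 1) X.im (qY a j t.2) /
      Dd a X.re X.im ^ (j + 1) * Y.im) = 2 * af t.1 η * (ev2 (X.re - 1) X.im (qX a j t.2) /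
      Dd a X.re X.im ^ (j + 1) * (Real.sin (η / 2) * Y.re) + ev2 (X.re - 1) X.im (qY a j t.2) /
      Dd a X.re X.im ^ (j + 1) * (Real.sin (η / 2) * Y.im)) := by ring
  rw [e3, h1, h2]
  unfold af
  have e4 : (1:ℝ) + (X.re - 1) = X.re := by ring
  rw [e4]
  have p1 : Dd a X.re X.im ^ (j + 1 + m) = Dd a X.re X.im ^ (j + 1) * Dd a X.re X.im ^ m := by
    rw [pow_add]
  rw [p1]
  field_simp
  ring

/-! ### `V`, `η`-type -/

def EVE (t : AP × BP) : Ex :=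
  Ex.add (Ex.mul (Ex.sc 2 (apE t.1)) (Ex.add
    (Ex.mul (Ex.va 3) (Ex.bp (mu2 (sb2 (mu2 xL (qY a j t.2)) (mu2 yL (qX a j t.2)))
      (Dn a (K - j - 1)))))
    (Ex.mul (Ex.va 4) (Ex.bp (mu2 (sm2 (-1) (ad2 (mu2 xL (qX a j t.2)) (mu2 yL (qY a j t.2))))
      (Dn a (K - j - 1)))))))
    (Ex.mul (apE (ader (ash 1 0 t.1))) (Ex.bp (mu2 t.2 (Dn a (K - j)))))

theorem EVE_re (t : AP × BP) (hK : j + 1 ≤ K) {X Y : ℂ} (hX : X ≠ 0) (l η : ℝ) :
    (EVE a K j t).re (px l η X Y) = Dd a X.re X.im ^ K * NVE a j t X Y η := by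
  obtain ⟨m, rfl⟩ := Nat.exists_eq_add_of_le hK
  have hD := (Dd_pos a X.re X.im).ne'
  have e1 : j + 1 + m - j - 1 = m := by omega
  have e2 : j + 1 + m - j = m + 1 := by omega
  simp only [EVE, Ex.re, apE_re, ev2_mu, ev2_ad, ev2_sm, e_sb, e_x, e_y, e1, e2]
  rw [show (px l η X Y).f = X.re - 1 from rfl, show (px l η X Y).g = X.im from rfl, Dn_ev, Dn_ev,
    show (px l η X Y).b = Real.sin (η / 2) from rfl, show (px l η X Y).c = Real.cos (η / 2) from rfl,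
    show (px l η X Y).d = Real.sin (η / 2) * (Y / X).re from rfl,
    show (px l η X Y).e = Real.sin (η / 2) * (Y / X).im from rfl]
  unfold NVE Rr dEta
  rw [af_ash10]
  have h1 := sY_re (Y := Y) hX (Real.sin (η / 2))
  have h2 := sY_im (Y := Y) hX (Real.sin (η / 2))
  have e3 : 2 * (Real.sin (η / 2) * af t.1 η) * (-(ev2 (X.re - 1) X.im (qX a j t.2) /
      Dd a X.re X.im ^ (j + 1)) * Y.im + ev2 (X.re - 1) X.im (qY a j t.2) /
      Dd a X.re X.im ^ (j + 1) * Y.re) = 2 * af t.1 η * (-(ev2 (X.re - 1) X.im (qX a j t.2) /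
      Dd a X.re X.im ^ (j + 1)) * (Real.sin (η / 2) * Y.im) + ev2 (X.re - 1) X.im (qY a j t.2) /
      Dd a X.re X.im ^ (j + 1) * (Real.sin (η / 2) * Y.re)) := by ring
  rw [e3, h1, h2]
  unfold af
  have e4 : (1:ℝ) + (X.re - 1) = X.re := by ring
  rw [e4]
  have p1 : Dd a X.re X.im ^ (j + 1 + m) = Dd a X.re X.im ^ j * Dd a X.re X.im *
      Dd a X.re X.im ^ m := by rw [pow_add, pow_succ]
  have p2 : Dd a X.re X.im ^ (j + 1) = Dd a X.re X.im ^ j * Dd a X.re X.im := by rw [pow_succ]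
  have p3 : Dd a X.re X.im ^ (m + 1) = Dd a X.re X.im ^ m * Dd a X.re X.im := by rw [pow_succ]
  rw [p1, p2, p3]
  field_simp
  push_cast
  ring

/-! ### fields `a₁ q` -/

def EF0 (t : AP × BP) : Ex :=
  Ex.add (Ex.mul (Ex.mul (Ex.sc 4 (apE t.1)) ePR) (Ex.bp (mu2 (ad2 (mu2 xL (qX a j t.2))
      (mu2 yL (qY a j t.2))) (Dn a (K - j - 1)))))
    (Ex.mul (Ex.mul (Ex.sc (-1) (apE (adas t.1))) (Ex.va 4)) (Ex.bp (mu2 t.2 (Dn a (K - j)))))

def EF1 (t : AP × BP) : Ex :=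
  Ex.add (Ex.mul (Ex.mul (Ex.sc 4 (apE t.1)) ePR) (Ex.bp (mu2 (sb2 (mu2 yL (qX a j t.2))
      (mu2 xL (qY a j t.2))) (Dn a (K - j - 1)))))
    (Ex.mul (Ex.mul (Ex.sc (-1) (apE (adas t.1))) (Ex.va 3)) (Ex.bp (mu2 t.2 (Dn a (K - j)))))

theorem EF0_re (t : AP × BP) (hK : j + 1 ≤ K) {X Y : ℂ} (hX : X ≠ 0) (l η : ℝ) :
    (EF0 a K j t).re (px l η X Y) = Dd a X.re X.im ^ K * NF0 a j t X Y η := by
  obtain ⟨m, rfl⟩ := Nat.exists_eq_add_of_le hK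
  have hD := (Dd_pos a X.re X.im).ne'
  have e1 : j + 1 + m - j - 1 = m := by omega
  have e2 : j + 1 + m - j = m + 1 := by omega
  simp only [EF0, Ex.re, apE_re, ePR, ev2_mu, ev2_ad, e_sb, e_x, e_y, e1, e2]
  rw [show (px l η X Y).f = X.re - 1 from rfl, show (px l η X Y).g = X.im from rfl, Dn_ev, Dn_ev,
    show (px l η X Y).b = Real.sin (η / 2) from rfl, show (px l η X Y).c = Real.cos (η / 2) from rfl,
    show (px l η X Y).d = Real.sin (η / 2) * (Y / X).re from rfl,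
    show (px l η X Y).e = Real.sin (η / 2) * (Y / X).im from rfl]
  unfold NF0 NG
  rw [qcY hX]
  beta_reduce
  rw [af_ash20, af_adas, pow_one]
  unfold Rr
  simp only [mul_re, mul_im, add_re, add_im, ofReal_re, ofReal_im, I_re, I_im, conj_re, conj_im]
  unfold af
  have e4 : (1:ℝ) + (X.re - 1) = X.re := by ring
  rw [e4]
  have p1 : Dd a X.re X.im ^ (j + 1 + m) = Dd a X.re X.im ^ j * Dd a X.re X.im *
      Dd a X.re X.im ^ m := by rw [pow_add, pow_succ]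
  have p2 : Dd a X.re X.im ^ (j + 1) = Dd a X.re X.im ^ j * Dd a X.re X.im := by rw [pow_succ]
  have p3 : Dd a X.re X.im ^ (m + 1) = Dd a X.re X.im ^ m * Dd a X.re X.im := by rw [pow_succ]
  rw [p1, p2, p3]
  field_simp
  push_cast
  ring

theorem EF1_re (t : AP × BP) (hK : j + 1 ≤ K) {X Y : ℂ} (hX : X ≠ 0) (l η : ℝ) :
    (EF1 a K j t).re (px l η X Y) = Dd a X.re X.im ^ K * NF1 a j t X Y η := by
  obtain ⟨m, rfl⟩ := Nat.exists_eq_add_of_le hK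
  have hD := (Dd_pos a X.re X.im).ne'
  have e1 : j + 1 + m - j - 1 = m := by omega
  have e2 : j + 1 + m - j = m + 1 := by omega
  simp only [EF1, Ex.re, apE_re, ePR, ev2_mu, ev2_ad, e_sb, e_x, e_y, e1, e2]
  rw [show (px l η X Y).f = X.re - 1 from rfl, show (px l η X Y).g = X.im from rfl, Dn_ev, Dn_ev,
    show (px l η X Y).b = Real.sin (η / 2) from rfl, show (px l η X Y).c = Real.cos (η / 2) from rfl,
    show (px l η X Y).d = Real.sin (η / 2) * (Y / X).re from rfl,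
    show (px l η X Y).e = Real.sin (η / 2) * (Y / X).im from rfl]
  unfold NF1 NG
  rw [qcY hX]
  beta_reduce
  rw [af_ash20, af_adas, pow_one]
  unfold Rr
  simp only [mul_re, mul_im, add_re, add_im, ofReal_re, ofReal_im, I_re, I_im, conj_re, conj_im]
  unfold af
  have e4 : (1:ℝ) + (X.re - 1) = X.re := by ring
  rw [e4]
  have p1 : Dd a X.re X.im ^ (j + 1 + m) = Dd a X.re X.im ^ j * Dd a X.re X.im *
      Dd a X.re X.im ^ m := by rw [pow_add, pow_succ]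
  have p2 : Dd a X.re X.im ^ (j + 1) = Dd a X.re X.im ^ j * Dd a X.re X.im := by rw [pow_succ]
  have p3 : Dd a X.re X.im ^ (m + 1) = Dd a X.re X.im ^ m * Dd a X.re X.im := by rw [pow_succ]
  rw [p1, p2, p3]
  field_simp
  push_cast
  ring

end

def EH (a : DQ) (K : ℕ) (t : AP × ℕ) : Ex :=
  Ex.add (Ex.mul (Ex.mul (Ex.sc (-8) (apE t.1)) (Ex.mul (Ex.va 3) (Ex.va 4)))
      (Ex.bp (mu2 (reB t.2) (Dn a K))))
    (Ex.mul (Ex.mul (Ex.sc 4 (apE t.1)) (Ex.add (Ex.pow (Ex.va 4) 2) (Ex.sc (-1) (Ex.pow (Ex.va 3) 2))))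
      (Ex.bp (mu2 (imB t.2) (Dn a K))))

theorem EH_re (a : DQ) (K : ℕ) (t : AP × ℕ) (ht : t.2 ≤ 2) (X Y : ℂ) (l η : ℝ) :
    (EH a K t).re (px l η X Y) = Dd a X.re X.im ^ K * NH t X Y η := by
  simp only [EH, Ex.re, apE_re, ev2_mu]
  rw [show (px l η X Y).f = X.re - 1 from rfl, show (px l η X Y).g = X.im from rfl, Dn_ev,
    reB_ev _ ht, imB_ev _ ht,
    show (px l η X Y).b = Real.sin (η / 2) from rfl, show (px l η X Y).c = Real.cos (η / 2) from rfl,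
    show (px l η X Y).d = Real.sin (η / 2) * (Y / X).re from rfl,
    show (px l η X Y).e = Real.sin (η / 2) * (Y / X).im from rfl]
  unfold NH NG
  have e : (t.2 : ℂ) * (X - 1) ^ (t.2 - 1) + I * (I * ((t.2 : ℂ) * (X - 1) ^ (t.2 - 1))) = 0 := by
    linear_combination ((t.2 : ℂ) * (X - 1) ^ (t.2 - 1)) * I_sq
  rw [e, zero_mul]
  beta_reduce
  rw [af_ash20]
  unfold af
  rw [pow_two (Y / X)]
  simp only [zero_re, mul_re, mul_im]
  push_cast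
  ring

end Pool.Agent.Helper69.EK6

end

section

set_option autoImplicit false
open Complex MeasureTheory Metric Set
open scoped Real ComplexConjugate

/-!
# Project EK6: data of a certificate and the target expressions
-/

namespace Pool.Agent.Helper69.EK6

open Pool.Sos71
open Pool.EK71 Pool.Agent.Helper52.EK Pool.Agent.Helper2.EK
open Pool.Agent.Helper69.EK3 hiding qX qY qL Rr c1_Rr c2_Rr Rr_le Dn Dn_ev
open Pool.Agent.Helper69.EK5 (DQ Dd Dd_pos Dd_low DL e_D qX qY qL Rr c1_Rr c2_Rr Rr_le Dn Dn_ev)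
open Pool.Agent.Helper71.EK3 (xL yL r2L FL G2L e_x e_y e_r2 e_F e_G2)
open Pool.Agent.Helper71.EKC (c1_unique pw2 e_pw sb2 e_sb)

structure Dat where
  a : DQ
  K : ℕ
  kU : ℕ
  kV : ℕ
  kF : ℕ
  kL : ℕ
  h : ℕ
  M : ℤ
  lam : ℤ
  c1 : ℤ
  a2 : ℤ
  UU : List (AP × BP)
  VX : List (AP × BP)
  VE : List (AP × BP)
  F0 : List (AP × BP)
  F1 : List (AP × BP)
  HH : List (AP × ℕ)
  HM : List (ℕ × Bool × ℤ)
  fi : Sd
  fo : Sd

/-! ### expressions -/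

/-- `sin η Re q`, `sin η Im q` -/
def eP : Ex := Ex.mul (Ex.sc 2 (Ex.va 2)) (Ex.va 3)
def eR : Ex := Ex.mul (Ex.sc 2 (Ex.va 2)) (Ex.va 4)
def es1 : Ex := Ex.add (Ex.mul eA (Ex.bp [[1], [2]])) eP
def es2 : Ex := Ex.add (Ex.mul eA (Ex.bp [[0, 2]])) eR
def et1 : Ex := Ex.add (Ex.mul eA (Ex.bp [[0], [2]])) eP
def esq : Ex := Ex.add (Ex.pow es1 2) (Ex.pow es2 2)
/-- `n - 1` -/
def eNM : Ex := Ex.sc 4 (Ex.add esq (Ex.add (Ex.sc (-1) (Ex.mul eA es1)) (Ex.mul eB es2)))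
/-- `|m - e₀|²` -/
def eME : Ex := Ex.sc 4 (Ex.add (Ex.pow et1 2) (Ex.pow es2 2))
/-- `Re m` -/
def eRm : Ex := Ex.add (Ex.sc 2 (Ex.add (Ex.mul eA es1) (Ex.sc (-1) (Ex.mul eB es2))))
  (Ex.sc (-1) eone)
def eTT (M : ℤ) (f : Sd) : Ex :=
  Ex.add (Ex.sc M eME) (Ex.add
    (Ex.mul (Ex.sc f.sg (Ex.va 0)) (Ex.add (Ex.sc f.Ma (Ex.add eNM eME))
      (Ex.sc (2 * f.Mb) (Ex.add eRm (Ex.sc (-1) eRe)))))
    (Ex.mul (Ex.pow (Ex.va 0) 2) (Ex.add (Ex.sc f.Maa (Ex.add eNM eone))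
      (Ex.add (Ex.sc (2 * f.Mab) eRm) (Ex.sc f.Mbb eone)))))

def eCon (f : Sd) : Ex :=
  Ex.add (Ex.sc f.r eNM) (Ex.mul (Ex.sc f.sg (Ex.va 0)) (Ex.add (Ex.sc f.r0 eone)
    (Ex.add (Ex.sc (4 * f.r1) esq) (Ex.sc f.r2 (Ex.add eNM eone)))))

def mulE (a : DQ) (K k : ℕ) (t : AP × BP) : Ex := Ex.mul (apE t.1) (Ex.bp (mu2 t.2 (Dn a (K - k))))

def EHM (a : DQ) (K h : ℕ) (t : ℕ × Bool × ℤ) : Ex :=
  Ex.mul (Ex.mul (Ex.sc t.2.2 (if t.2.1 then (csE t.1).1 else (csE t.1).2)) (Ex.pow eo (h - t.1)))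
    (Ex.bp (mu2 G2L (Dn a K)))

namespace Dat
variable (c : Dat)

/-- the null Lagrangians and `lam |X-1|² + a₂ Re (X-1)²`, times `D^K` -/
def tN : Ex :=
  sumE (EU c.a c.K c.kU) (sumE (EVX c.a c.K c.kV) (sumE (EVE c.a c.K c.kV)
    (sumE (EF0 c.a c.K c.kF) (sumE (EF1 c.a c.K c.kF) (sumE (EH c.a c.K)
      (sumE (EHM c.a c.K c.h)
        (Ex.mul (Ex.pow eo c.h) (Ex.bp (mu2 (ad2 (sm2 c.lam FL) (sm2 c.a2 G2L)) (Dn c.a c.K))))
        c.HM) c.HH) c.F1) c.F0) c.VE) c.VX) c.UU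

def tMul (f : Sd) : Ex :=
  Ex.add (sumE (mulE c.a c.K c.kL) (Ex.sc 0 (Ex.pow eo (c.h - 2))) f.L0)
    (Ex.mul (Ex.va 0) (sumE (mulE c.a c.K c.kL) (Ex.sc 0 (Ex.pow eo (c.h - 2))) f.L1))

def tSide (f : Sd) : Ex :=
  Ex.add c.tN (Ex.add
    (Ex.mul (Ex.mul (Ex.pow eo (c.h - 2)) (Ex.bp (sm2 (-1) (Dn c.a c.K)))) (eTT c.M f))
    (Ex.mul (c.tMul f) (eCon f)))

def tIn : Ex := c.tSide c.fi
def tOut : Ex := c.tSide c.fo

end Dat

/-! ### values -/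

theorem px_A (l η : ℝ) (X Y : ℂ) : eA.re (px l η X Y) = Real.sin η := by
  have e : Real.sin η = 2 * Real.sin (η / 2) * Real.cos (η / 2) := by
    rw [← Real.sin_two_mul]
    congr 1
    ring
  rw [e]
  simp only [eA, Ex.re, px]
  push_cast
  ring

theorem px_B (l η : ℝ) (X Y : ℂ) : eB.re (px l η X Y) = Real.cos η := by
  have e : Real.cos η = Real.cos (η / 2) ^ 2 - Real.sin (η / 2) ^ 2 := by
    rw [← Real.cos_two_mul']
    congr 1
    ring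
  rw [e]
  simp only [eB, Ex.re, px]
  push_cast
  ring

theorem px_o (l η : ℝ) (X Y : ℂ) : eo.re (px l η X Y) = 1 := by
  simp only [eo, Ex.re, px]
  exact Real.cos_sq_add_sin_sq _

theorem csE_re (k : ℕ) (l η : ℝ) (X Y : ℂ) :
    (csE k).1.re (px l η X Y) = Real.cos (k * η) ∧ (csE k).2.re (px l η X Y) = Real.sin (k * η) := by
  induction k with
  | zero => simp [csE, Ex.re]
  | succ k ih =>
    have e : ((k + 1 : ℕ) : ℝ) * η = k * η + η := by push_cast; ring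
    rw [e, Real.cos_add, Real.sin_add]
    constructor
    · show (csE k).1.re _ * eB.re _ + (-1 : ℤ) * ((csE k).2.re _ * eA.re _) = _
      rw [ih.1, ih.2, px_A, px_B]
      push_cast
      ring
    · show (csE k).2.re _ * eB.re _ + (csE k).1.re _ * eA.re _ = _
      rw [ih.1, ih.2, px_A, px_B]

section val
variable (l η : ℝ) (X Y : ℂ)

theorem px_P : eP.re (px l η X Y) = Real.sin η * (Y / X).re := by
  have e : Real.sin η = 2 * Real.sin (η / 2) * Real.cos (η / 2) := by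
    rw [← Real.sin_two_mul]
    congr 1
    ring
  rw [e]
  simp only [eP, Ex.re, px]
  push_cast
  ring

theorem px_R : eR.re (px l η X Y) = Real.sin η * (Y / X).im := by
  have e : Real.sin η = 2 * Real.sin (η / 2) * Real.cos (η / 2) := by
    rw [← Real.sin_two_mul]
    congr 1
    ring
  rw [e]
  simp only [eR, Ex.re, px]
  push_cast
  ring

theorem px_s1 : es1.re (px l η X Y) =
    Real.sin η * (2 * X.re - 1) + Real.sin η * (Y / X).re := by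
  show eA.re _ * (Ex.bp [[1], [2]]).re _ + eP.re _ = _
  rw [px_A, px_P]
  simp only [Ex.re, ev2, ev1, px]
  push_cast
  ring

theorem px_s2 : es2.re (px l η X Y) = Real.sin η * (2 * X.im) + Real.sin η * (Y / X).im := by
  show eA.re _ * (Ex.bp [[0, 2]]).re _ + eR.re _ = _
  rw [px_A, px_R]
  simp only [Ex.re, ev2, ev1, px]
  push_cast
  ring

theorem px_t1 : et1.re (px l η X Y) = Real.sin η * (2 * (X.re - 1)) + Real.sin η * (Y / X).re := by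
  show eA.re _ * (Ex.bp [[0], [2]]).re _ + eP.re _ = _
  rw [px_A, px_P]
  simp only [Ex.re, ev2, ev1, px]
  push_cast
  ring

theorem px_sq : esq.re (px l η X Y) = ‖mX X Y (Real.sin η) (Real.cos η) + 1‖ ^ 2 / 4 := by
  show es1.re _ ^ 2 + es2.re _ ^ 2 = _
  rw [px_s1, px_s2, mX_add (Real.sin_sq_add_cos_sq η), norm_mul, norm_mul, mul_pow, mul_pow,
    nq_sq ((Real.sin η : ℂ) + _), nq_sq ((((_ : ℝ) : ℂ)) + _)]
  simp only [add_re, add_im, mul_re, mul_im, ofReal_re, ofReal_im, I_re, I_im, mul_zero,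
    mul_one, sub_zero, add_zero, zero_add, Complex.norm_ofNat]
  have h := Real.sin_sq_add_cos_sq η
  linear_combination (-((Real.sin η * (2 * X.re - 1) + Real.sin η * (Y / X).re) ^ 2 +
    (Real.sin η * (2 * X.im) + Real.sin η * (Y / X).im) ^ 2)) * h

theorem px_Rm : eRm.re (px l η X Y) = (mX X Y (Real.sin η) (Real.cos η)).re := by
  show (2:ℤ) * (eA.re _ * es1.re _ + (-1 : ℤ) * (eB.re _ * es2.re _)) +
    (-1 : ℤ) * (eo.re _ ^ 2) = _
  rw [px_A, px_B, px_o, px_s1, px_s2]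
  have h := congrArg Complex.re (mX_add (X := X) (Y := Y) (Real.sin_sq_add_cos_sq η))
  simp only [add_re, add_im, mul_re, mul_im, ofReal_re, ofReal_im, I_re, I_im, mul_zero,
    mul_one, sub_zero, add_zero, zero_add, one_re, re_ofNat, im_ofNat] at h
  push_cast
  linear_combination -h

theorem px_NM : eNM.re (px l η X Y) = ‖mX X Y (Real.sin η) (Real.cos η)‖ ^ 2 - 1 := by
  show (4:ℤ) * (esq.re _ + ((-1 : ℤ) * (eA.re _ * es1.re _) + eB.re _ * es2.re _)) = _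
  have h1 := px_sq l η X Y
  have h2 := px_Rm l η X Y
  have h3 : eRm.re (px l η X Y) = (2:ℤ) * (eA.re (px l η X Y) * es1.re (px l η X Y) +
    (-1 : ℤ) * (eB.re (px l η X Y) * es2.re (px l η X Y))) + (-1 : ℤ) *
      (eo.re (px l η X Y) ^ 2) := rfl
  rw [px_o] at h3
  have h4 : ‖mX X Y (Real.sin η) (Real.cos η) + 1‖ ^ 2 =
      ‖mX X Y (Real.sin η) (Real.cos η)‖ ^ 2 + 2 * (mX X Y (Real.sin η) (Real.cos η)).re + 1 := by
    rw [nq_sq, nq_sq]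
    simp only [add_re, add_im, one_re, one_im]
    ring
  rw [h4] at h1
  rw [h2] at h3
  push_cast at h3 ⊢
  linear_combination 4 * h1 + 2 * h3

theorem px_ME : eME.re (px l η X Y) =
    ‖mX X Y (Real.sin η) (Real.cos η) - e0 (Real.sin η) (Real.cos η)‖ ^ 2 := by
  show (4:ℤ) * (et1.re _ ^ 2 + es2.re _ ^ 2) = _
  rw [px_t1, px_s2]
  have h0 : mX X Y (Real.sin η) (Real.cos η) - e0 (Real.sin η) (Real.cos η) =
      (1 + e0 (Real.sin η) (Real.cos η)) * (2 * X - 2 + Y / X) := by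
    unfold mX
    ring
  have h2 : 1 + e0 (Real.sin η) (Real.cos η) =
      2 * (Real.sin η : ℂ) * ((Real.sin η : ℂ) + (Real.cos η : ℂ) * I) := by
    unfold e0
    have h3 : (Real.sin η : ℂ) ^ 2 + (Real.cos η : ℂ) ^ 2 = 1 := by
      exact_mod_cast Real.sin_sq_add_cos_sq η
    linear_combination -h3 - (Real.sin η : ℂ) ^ 2 * I_sq
  have h4 : ‖(Real.sin η : ℂ) + (Real.cos η : ℂ) * I‖ ^ 2 = 1 := by
    rw [nq_sq]
    simp only [add_re, add_im, mul_re, mul_im, ofReal_re, ofReal_im, I_re, I_im, mul_zero,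
      mul_one, sub_zero, add_zero, zero_add]
    exact Real.sin_sq_add_cos_sq η
  rw [h0, h2, norm_mul, mul_pow, norm_mul, mul_pow, h4, norm_mul, mul_pow, Complex.norm_real,
    Real.norm_eq_abs, sq_abs, nq_sq (2 * X - 2 + Y / X)]
  simp only [add_re, add_im, sub_re, sub_im, mul_re, mul_im, re_ofNat, im_ofNat,
    Complex.norm_ofNat]
  push_cast
  ring

theorem px_Re : eRe.re (px l η X Y) = (e0 (Real.sin η) (Real.cos η)).re := by
  show eA.re _ ^ 2 + (-1 : ℤ) * eB.re _ ^ 2 = _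
  rw [px_A, px_B]
  unfold e0
  rw [pow_two ((Real.cos η : ℂ) - _)]
  simp only [neg_re, mul_re, mul_im, sub_re, sub_im, ofReal_re, ofReal_im, I_re, I_im]
  push_cast
  ring

/-- **the loss at a field value `m + sg l (α m + β)`** -/
theorem px_TT {M : ℤ} {f : Sd} {α β : ℝ} (h1 : (f.Ma : ℝ) = M * α) (h2 : (f.Mb : ℝ) = M * β)
    (h3 : (f.Maa : ℝ) = M * α ^ 2) (h4 : (f.Mab : ℝ) = M * (α * β)) (h5 : (f.Mbb : ℝ) = M * β ^ 2)
    (hs : (f.sg : ℝ) ^ 2 = 1) :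
    (eTT M f).re (px l η X Y) = M * ‖mX X Y (Real.sin η) (Real.cos η) +
      (((f.sg : ℝ) * l : ℝ) : ℂ) * ((α : ℂ) * mX X Y (Real.sin η) (Real.cos η) + (β : ℂ)) -
      e0 (Real.sin η) (Real.cos η)‖ ^ 2 := by
  have e : (eTT M f).re (px l η X Y) = M * eME.re (px l η X Y) + ((f.sg * l) *
      (f.Ma * (eNM.re (px l η X Y) + eME.re (px l η X Y)) + ((2 * f.Mb : ℤ) : ℝ) *
      (eRm.re (px l η X Y) + ((-1 : ℤ) : ℝ) * eRe.re (px l η X Y))) + l ^ 2 *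
      (f.Maa * (eNM.re (px l η X Y) + eo.re (px l η X Y) ^ 2) + (((2 * f.Mab : ℤ) : ℝ) *
      eRm.re (px l η X Y) + f.Mbb * eo.re (px l η X Y) ^ 2))) := rfl
  rw [e, px_ME, px_NM, px_Rm, px_Re, px_o]
  have n0 := norm_e0 η
  generalize mX X Y (Real.sin η) (Real.cos η) = m
  have n1 : ‖e0 (Real.sin η) (Real.cos η)‖ ^ 2 = 1 := by rw [n0]; norm_num
  generalize e0 (Real.sin η) (Real.cos η) = z at n1
  rw [nq_sq] at n1
  rw [nq_sq, nq_sq, nq_sq]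
  simp only [add_re, add_im, sub_re, sub_im, mul_re, mul_im, ofReal_re, ofReal_im]
  push_cast
  rw [h1, h2, h3, h4, h5]
  linear_combination (f.sg * l * M * α) * n1 +
    (-(l ^ 2 * M) * ((α * m.re + β) ^ 2 + (α * m.im) ^ 2)) * hs

theorem px_Con (f : Sd) : (eCon f).re (px l η X Y) =
    f.r * (‖mX X Y (Real.sin η) (Real.cos η)‖ ^ 2 - 1) + f.sg * l *
      (f.r0 + f.r1 * ‖mX X Y (Real.sin η) (Real.cos η) + 1‖ ^ 2 +
        f.r2 * ‖mX X Y (Real.sin η) (Real.cos η)‖ ^ 2) := by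
  have e : (eCon f).re (px l η X Y) = f.r * eNM.re (px l η X Y) + (f.sg * l) *
      (f.r0 * eo.re (px l η X Y) ^ 2 + (((4 * f.r1 : ℤ) : ℝ) * esq.re (px l η X Y) +
      f.r2 * (eNM.re (px l η X Y) + eo.re (px l η X Y) ^ 2))) := rfl
  rw [e, px_NM, px_sq, px_o]
  push_cast
  ring

end val

end Pool.Agent.Helper69.EK6

end

section

set_option autoImplicit false
open Complex MeasureTheory Metric Set
open scoped Real ComplexConjugate

/-!
# Project EK5: from the data of a certificate to the integral means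
-/

namespace Pool.Agent.Helper69.EK5

open Pool.Sos71
open Pool.EK71 Pool.Agent.Helper52.EK Pool.Agent.Helper2.EK
open Pool.Agent.Helper69.EK3
open Pool.Agent.Helper71.EK3 (xL yL r2L FL G2L e_x e_y e_r2 e_F e_G2)
open Pool.Agent.Helper71.EKC (c1_unique pw2 e_pw sb2 e_sb)
open Pool.Agent.Helper71.EKC (c1_conj)
open Pool.Agent.Helper69.EK3.Dat (SideOk half_bd pi_err disc_im)

/-! ### the discs of Bieberbach -/

/-- `16 - |(1 + e₀)(2 σ X - 1 + X'/X) + 2|²` -/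
def eDi (σ : ℤ) : Ex :=
  Ex.add (Ex.sc 16 eone) (Ex.sc (-4) (Ex.add
    (Ex.pow (Ex.add (Ex.va 3) (Ex.mul (Ex.sc (2 * σ) eA) (Ex.bp [[1], [1]]))) 2)
    (Ex.pow (Ex.add (Ex.add (Ex.va 4) (Ex.mul (Ex.sc (2 * σ) eA) (Ex.bp [[0, 1]])))
      (Ex.sc (-1) eB)) 2)))

theorem px_Di (σ : ℤ) (l η : ℝ) (X Y : ℂ) : (eDi σ).re (px l η X Y) =
    16 - ‖dA (σ : ℝ) X Y (Real.sin η) (Real.cos η)‖ ^ 2 := by
  have e : (eDi σ).re (px l η X Y) = ((16 : ℤ) : ℝ) * eo.re (px l η X Y) ^ 2 +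
      ((-4 : ℤ) : ℝ) * ((Real.sin η * (Y / X).re + ((2 * σ : ℤ) : ℝ) * eA.re (px l η X Y) *
        ev2 (X.re - 1) X.im [[1], [1]]) ^ 2 + (Real.sin η * (Y / X).im + ((2 * σ : ℤ) : ℝ) *
        eA.re (px l η X Y) * ev2 (X.re - 1) X.im [[0, 1]] + ((-1 : ℤ) : ℝ) *
        eB.re (px l η X Y)) ^ 2) := rfl
  have h3 := Real.sin_sq_add_cos_sq η
  have h3c : (Real.sin η : ℂ) ^ 2 + (Real.cos η : ℂ) ^ 2 = 1 := by exact_mod_cast h3
  have h4 : ‖(Real.sin η : ℂ) + (Real.cos η : ℂ) * I‖ ^ 2 = 1 := by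
    rw [nq_sq]
    simp only [add_re, add_im, mul_re, mul_im, ofReal_re, ofReal_im, I_re, I_im, mul_zero,
      mul_one, sub_zero, add_zero, zero_add]
    exact h3
  have h5 : dA (σ : ℝ) X Y (Real.sin η) (Real.cos η) =
      2 * ((Real.sin η : ℂ) + (Real.cos η : ℂ) * I) *
        ((Real.sin η : ℂ) * (Y / X) + 2 * (σ : ℂ) * (Real.sin η : ℂ) * X -
          (Real.cos η : ℂ) * I) := by
    unfold dA e0
    push_cast
    have h3c' : Complex.sin η ^ 2 + Complex.cos η ^ 2 = 1 := by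
      push_cast at h3c
      exact h3c
    linear_combination (2 * (σ : ℂ) * X - 1 + Y / X) * (-h3c' - Complex.sin η ^ 2 * I_sq) -
      2 * h3c' + 2 * Complex.cos η ^ 2 * I_sq
  rw [e, px_A, px_B, px_o, h5, norm_mul, norm_mul, mul_pow, mul_pow, h4, nq_sq (_ - _)]
  simp only [ev2, ev1, sub_re, sub_im, add_re, add_im, mul_re, mul_im, ofReal_re, ofReal_im,
    I_re, I_im, intCast_re, intCast_im, re_ofNat, im_ofNat, Complex.norm_ofNat, mul_zero, mul_one,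
    sub_zero, add_zero, zero_add, zero_mul]
  push_cast
  ring

/-- nonnegativity of the target of one side, with two disc multipliers -/
def Side (K : ℕ) (Ln Ld : ℤ) (t : Ex) : Prop :=
  ∃ B : ℝ, ∀ x : Pnt, 0 ≤ x.b → x.b ≤ x.c → x.b ^ 2 + x.c ^ 2 = 1 → 0 ≤ x.a →
    (Ld : ℝ) * x.a ≤ Ln → ∃ q1 q2 : ℝ, 0 ≤ q1 ∧ q1 ≤ B * (1 + x.f ^ 2 + x.g ^ 2) ^ K ∧
      0 ≤ q2 ∧ q2 ≤ B * (1 + x.f ^ 2 + x.g ^ 2) ^ K ∧
      q1 * (eDi 1).re x + q2 * (eDi (-1)).re x ≤ t.re x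

theorem Side.of_pos {K : ℕ} {Ln Ld : ℤ} {t : Ex} (h : ∀ x : Pnt, 0 ≤ x.b → x.b ≤ x.c →
    x.b ^ 2 + x.c ^ 2 = 1 → 0 ≤ x.a → (Ld : ℝ) * x.a ≤ Ln → 0 ≤ t.re x) : Side K Ln Ld t :=
  ⟨0, fun x h1 h2 h3 h4 h5 => ⟨0, 0, le_rfl, by simp, le_rfl, by simp, by
    rw [zero_mul, zero_mul, add_zero]
    exact h x h1 h2 h3 h4 h5⟩⟩

namespace Dat

/-- conditions on the data -/
structure Ok2 (c : Dat) (ka kb p0 p1 p2 la lb q0 q1 q2 : ℝ) (Ln Ld Ln' Ld' : ℤ) : Prop where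
  wf : c.wf = true
  M0 : 0 < c.M
  lam0 : 0 ≤ c.lam
  c10 : 0 ≤ c.c1
  fi : SideOk c.M c.fi 1 ka kb p0 p1 p2
  fo : SideOk c.M c.fo (-1) la lb q0 q1 q2
  Ld0 : 0 < Ld
  Ld0' : 0 < Ld'
  inn : InOk ka kb p0 p1 p2 (Ln / Ld)
  out : OutOk la lb q0 q1 q2 (Ln' / Ld')

variable {c : Dat} {ka kb p0 p1 p2 la lb q0 q1 q2 : ℝ} {Ln Ld Ln' Ld' : ℤ}

theorem tSide_re (w : c.Wf) (f : Sd) {X Y : ℂ} (hX : X ≠ 0) (l η : ℝ)
    (h : (eCon f).re (px l η X Y) = 0) : (c.tSide f).re (px l η X Y) =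
    Dd c.a X.re X.im ^ c.K * (c.NT X Y η + (c.lam * ‖X - 1‖ ^ 2 +
      c.a2 * ((X.re - 1) ^ 2 - X.im ^ 2)) - (eTT c.M f).re (px l η X Y)) := by
  have e : (c.tSide f).re (px l η X Y) = c.tN.re (px l η X Y) +
      (((eo.re (px l η X Y)) ^ (c.h - 2) * ev2 (X.re - 1) X.im (sm2 (-1) (Dn c.a c.K))) *
        (eTT c.M f).re (px l η X Y) + (c.tMul f).re (px l η X Y) * (eCon f).re (px l η X Y)) := rfl
  rw [e, h, tN_re w hX, px_o, one_pow, ev2_sm, Dn_ev]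
  push_cast
  ring

theorem Side.apply {c : Dat} {t : Ex} (h : Side c.K Ln Ld t) : ∃ B : ℝ, 0 ≤ B ∧
    ∀ (X Y : ℂ) (l η : ℝ), η ∈ Icc (0:ℝ) (π / 2) → 0 ≤ l → (Ld : ℝ) * l ≤ Ln →
      ∃ q1 q2 : ℝ, 0 ≤ q1 ∧ q1 ≤ B ∧ 0 ≤ q2 ∧ q2 ≤ B ∧
      Dd c.a X.re X.im ^ c.K * (q1 * (16 - ‖dA 1 X Y (Real.sin η) (Real.cos η)‖ ^ 2) +
        q2 * (16 - ‖dA (-1) X Y (Real.sin η) (Real.cos η)‖ ^ 2)) ≤ t.re (px l η X Y) := by
  obtain ⟨B, hB⟩ := h
  obtain ⟨k, hk, hl⟩ := Dd_low c.a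
  refine ⟨|B| * k ^ c.K, by positivity, fun X Y l η hη l0 l1 => ?_⟩
  obtain ⟨b1, b2⟩ := half_bd hη
  have hD := Dd_pos c.a X.re X.im
  have hDK : 0 < Dd c.a X.re X.im ^ c.K := pow_pos hD _
  obtain ⟨q1, q2, g1, g2, g3, g4, g5⟩ := hB (px l η X Y) b1 b2 (Real.sin_sq_add_cos_sq _) l0 l1
  have hu : (1 + (X.re - 1) ^ 2 + X.im ^ 2) ^ c.K ≤ k ^ c.K * Dd c.a X.re X.im ^ c.K := by
    rw [← mul_pow]
    refine pow_le_pow_left₀ (by positivity) ?_ _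
    have := hl X.re X.im
    linarith
  have hb : B * (1 + (X.re - 1) ^ 2 + X.im ^ 2) ^ c.K ≤
      |B| * k ^ c.K * Dd c.a X.re X.im ^ c.K := by
    have h0 : 0 ≤ (1 + (X.re - 1) ^ 2 + X.im ^ 2) ^ c.K := by positivity
    calc B * (1 + (X.re - 1) ^ 2 + X.im ^ 2) ^ c.K ≤
          |B| * (1 + (X.re - 1) ^ 2 + X.im ^ 2) ^ c.K :=
          mul_le_mul_of_nonneg_right (le_abs_self B) h0
      _ ≤ |B| * (k ^ c.K * Dd c.a X.re X.im ^ c.K) := mul_le_mul_of_nonneg_left hu (abs_nonneg B)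
      _ = _ := by ring
  refine ⟨q1 / Dd c.a X.re X.im ^ c.K, q2 / Dd c.a X.re X.im ^ c.K, div_nonneg g1 hDK.le, ?_,
    div_nonneg g3 hDK.le, ?_, ?_⟩
  · rw [div_le_iff₀ hDK]
    exact g2.trans hb
  · rw [div_le_iff₀ hDK]
    exact g4.trans hb
  · rw [px_Di, px_Di] at g5
    push_cast at g5
    have e : ∀ A B : ℝ, Dd c.a X.re X.im ^ c.K * (q1 / Dd c.a X.re X.im ^ c.K * A +
        q2 / Dd c.a X.re X.im ^ c.K * B) = q1 * A + q2 * B := by
      intro A B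
      field_simp
    rw [e]
    exact g5

theorem SideOk_con {M : ℤ} {f : Sd} {sg : ℤ} (h : SideOk M f sg ka kb p0 p1 p2) {X Y : ℂ} {η l : ℝ}
    (hl : l * rF p0 p1 p2 (mX X Y (Real.sin η) (Real.cos η)) =
      sg * (1 - ‖mX X Y (Real.sin η) (Real.cos η)‖ ^ 2)) (hs : (sg : ℝ) ^ 2 = 1) :
    (eCon f).re (px l η X Y) = 0 := by
  rw [px_Con, h.r0, h.r1, h.r2, h.sg]
  unfold rF at hl
  linear_combination (f.r * (sg : ℝ)) * hl + (f.r * (1 -
    ‖mX X Y (Real.sin η) (Real.cos η)‖ ^ 2)) * hs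

/-- the pointwise inequality -/
theorem Ok2.point (o : c.Ok2 ka kb p0 p1 p2 la lb q0 q1 q2 Ln Ld Ln' Ld')
    (hIn : Side c.K Ln Ld c.tIn) (hOut : Side c.K Ln' Ld' c.tOut) : ∃ B : ℝ, 0 ≤ B ∧
    ∀ X Y : ℂ, X ≠ 0 → ∀ η ∈ Icc (0:ℝ) (π / 2), ∃ l1 l2 : ℝ, 0 ≤ l1 ∧ l1 ≤ B ∧ 0 ≤ l2 ∧ l2 ≤ B ∧
    c.M * TG (Gq ka kb p0 p1 p2 la lb q0 q1 q2) X Y (Real.sin η) (Real.cos η) +
      (l1 * (16 - ‖dA 1 X Y (Real.sin η) (Real.cos η)‖ ^ 2) +
        l2 * (16 - ‖dA (-1) X Y (Real.sin η) (Real.cos η)‖ ^ 2)) ≤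
      c.NT X Y η + (c.lam * ‖X - 1‖ ^ 2 + c.a2 * ((X.re - 1) ^ 2 - X.im ^ 2)) := by
  obtain ⟨B1, hB1, k1⟩ := Side.apply hIn
  obtain ⟨B2, hB2, k2⟩ := Side.apply hOut
  have w := wf_iff c o.wf
  refine ⟨max B1 B2, le_max_of_le_left hB1, fun X Y hX η hη => ?_⟩
  have hM : (0:ℝ) < c.M := by exact_mod_cast o.M0
  have hD : 0 < Dd c.a X.re X.im ^ c.K := pow_pos (Dd_pos _ _ _) _
  unfold TG Gq
  set m := mX X Y (Real.sin η) (Real.cos η) with hm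
  by_cases h1 : ‖m‖ ≤ 1
  · rw [if_pos h1]
    obtain ⟨d1, d2, d3⟩ := o.inn.l_bd h1
    obtain ⟨l, hl⟩ : ∃ l : ℝ, l = (1 - ‖m‖ ^ 2) / rF p0 p1 p2 m := ⟨_, rfl⟩
    have hL : (0:ℝ) < Ld := by exact_mod_cast o.Ld0
    rw [← hl] at d2 d3
    have hc : (eCon c.fi).re (px l η X Y) = 0 := by
      refine SideOk_con o.fi ?_ (by norm_num)
      rw [← hm, hl, div_mul_cancel₀ _ d1.ne']
      push_cast
      ring
    obtain ⟨l1, l2, a1, a2, a3, a4, h5⟩ := k1 X Y l η hη d2 (by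
      rw [le_div_iff₀ hL] at d3
      linarith)
    have h6 : c.tIn.re (px l η X Y) = _ := tSide_re w c.fi (Y := Y) hX l η hc
    rw [h6] at h5
    have h7 := le_of_mul_le_mul_left h5 hD
    rw [px_TT l η X Y o.fi.ma o.fi.mb o.fi.maa o.fi.mab o.fi.mbb (by rw [o.fi.sg]; norm_num),
      ← hm, o.fi.sg] at h7
    refine ⟨l1, l2, a1, a2.trans (le_max_left _ _), a3, a4.trans (le_max_left _ _), ?_⟩
    unfold Fq
    rw [← hl]
    push_cast at h7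
    rw [one_mul] at h7
    linarith
  · rw [if_neg h1]
    have h1' : 1 < ‖m‖ := not_le.1 h1
    obtain ⟨d1, d2, d3⟩ := o.out.l_bd h1'.le
    obtain ⟨l, hl⟩ : ∃ l : ℝ, l = (‖m‖ ^ 2 - 1) / rF q0 q1 q2 m := ⟨_, rfl⟩
    have hL : (0:ℝ) < Ld' := by exact_mod_cast o.Ld0'
    rw [← hl] at d2 d3
    have hc : (eCon c.fo).re (px l η X Y) = 0 := by
      refine SideOk_con o.fo ?_ (by norm_num)
      rw [← hm, hl, div_mul_cancel₀ _ d1.ne']
      push_cast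
      ring
    obtain ⟨l1, l2, a1, a2, a3, a4, h5⟩ := k2 X Y l η hη d2 (by
      rw [le_div_iff₀ hL] at d3
      linarith)
    have h6 : c.tOut.re (px l η X Y) = _ := tSide_re w c.fo (Y := Y) hX l η hc
    rw [h6] at h5
    have h7 := le_of_mul_le_mul_left h5 hD
    rw [px_TT l η X Y o.fo.ma o.fo.mb o.fo.maa o.fo.mab o.fo.mbb (by rw [o.fo.sg]; norm_num),
      ← hm, o.fo.sg] at h7
    have e : (1 - ‖m‖ ^ 2) / rF q0 q1 q2 m = ((-1 : ℤ) : ℝ) * l := by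
      rw [hl]
      push_cast
      ring
    refine ⟨l1, l2, a1, a2.trans (le_max_right _ _), a3, a4.trans (le_max_right _ _), ?_⟩
    unfold Fq
    rw [e]
    linarith

/-- **the bound for one target from the data** -/
theorem Ok2.K_one (o : c.Ok2 ka kb p0 p1 p2 la lb q0 q1 q2 Ln Ld Ln' Ld')
    (hIn : Side c.K Ln Ld c.tIn) (hOut : Side c.K Ln' Ld' c.tOut)
    (hCen : ∀ x : Pnt, 0 ≤ -2 * x.f - x.f ^ 2 - x.g ^ 2 → 0 ≤ (Ex.bp c.cen).re x)
    {κ : ℝ} (hκ : (c.lam : ℝ) + c.c1 + (c.c1 + 2 * |(c.a2 : ℝ)|) / 10 ^ 7 < 2 * κ * c.M) :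
    ∃ C a₀ : ℝ, a₀ < 1 ∧ ∀ (β : ℂ → ℂ) (R a : ℝ), ExtR β R → a₀ < a → a < 1 →
      Kf (Pool.Agent.Helper52.EK.wf (Gq ka kb p0 p1 p2 la lb q0 q1 q2) β) 1 (-1) (Real.log a) ≤ κ * Real.log (‖N β a‖ / (1 - a ^ 2)) + C := by
  have w := wf_iff c o.wf
  obtain ⟨CG, hGl⟩ := Gq_glip o.inn o.out
  have hM : (0:ℝ) < c.M := by exact_mod_cast o.M0
  have hlam : (0:ℝ) ≤ c.lam := by exact_mod_cast o.lam0
  have hc1 : (0:ℝ) ≤ c.c1 := by exact_mod_cast o.c10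
  obtain ⟨p, hp⟩ : ∃ p : ℝ, p = 355 / 113 := ⟨_, rfl⟩
  obtain ⟨e1, e2⟩ := pi_err hp
  have hpi := Real.pi_pos
  obtain ⟨ε, hε⟩ : ∃ ε : ℝ, ε = (c.c1 + 2 * |(c.a2 : ℝ)|) * ((p - π) / π) := ⟨_, rfl⟩
  have hA : 0 ≤ (c.c1 : ℝ) + 2 * |(c.a2 : ℝ)| := by positivity
  have hε0 : 0 ≤ ε := by
    rw [hε]
    exact mul_nonneg hA (div_nonneg e1 hpi.le)
  have hε1 : ε ≤ (c.c1 + 2 * |(c.a2 : ℝ)|) / 10 ^ 7 := by
    rw [hε, div_eq_mul_one_div (_ + _ : ℝ) (10 ^ 7 : ℝ)]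
    exact mul_le_mul_of_nonneg_left e2 hA
  have hεπ : ε * π = (c.c1 + 2 * |(c.a2 : ℝ)|) * (p - π) := by
    rw [hε]
    field_simp
  obtain ⟨k, hk⟩ : ∃ k : ℝ, k = c.c1 + ε := ⟨_, rfl⟩
  -- the null Lagrangian
  have n1 := (isNull_har (β := fun _ => (1:ℝ)) continuous_const 2 le_rfl).const_mul (c.a2 : ℝ)
  have n2 := (isNull_har (β := fun _ => (1:ℝ)) continuous_const 1 (by norm_num)).const_mul k
  have hN := (((isNull_NT w).add n1).add n2).const_mul (1 / (c.M : ℝ))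
  have hre2 : ∀ X : ℂ, ((X - 1) ^ 2).re = (X.re - 1) ^ 2 - X.im ^ 2 := by
    intro X
    rw [pow_two (X - 1), mul_re]
    simp
    ring
  have hre1 : ∀ X : ℂ, ((X - 1) ^ 1).re = X.re - 1 := by
    intro X
    simp
  have hint : ∫ _ in (0:ℝ)..(π / 2), (1:ℝ) = π / 2 := by simp
  obtain ⟨Ecx, Ecy, hEc⟩ := Ecp_c1 (c := c) k π
  obtain ⟨B, hB0, hpt⟩ := o.point hIn hOut
  refine K_one3_d (M := B / c.M) (lam := c.lam / c.M) (k₂ := (c.lam + k) / c.M)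
    (div_nonneg hB0 hM.le) (div_nonneg hlam hM.le) ?_ ?_ hGl (Gq_conj _ _ _ _ _ _ _ _ _ _) hN ?_
    (c1_const 0) (c1_mul (c1_const (1 / (c.M : ℝ))) hEc) ?_ ?_
  · rw [div_le_div_iff_of_pos_right hM, hk]
    linarith
  · rw [div_lt_iff₀ hM, hk]
    linarith
  · intro Z Y hZ η hη
    obtain ⟨l1, l2, a1, a2, a3, a4, h1⟩ := hpt Z Y hZ η hη
    refine ⟨0, l1 / c.M, l2 / c.M, le_rfl, div_nonneg hB0 hM.le, div_nonneg a1 hM.le,
      div_le_div_of_nonneg_right a2 hM.le, div_nonneg a3 hM.le,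
      div_le_div_of_nonneg_right a4 hM.le, ?_⟩
    have e0 : ‖Z - 1‖ ^ 2 = ‖Z‖ ^ 2 - 2 * Z.re + 1 := by
      rw [nq_sq, nq_sq]
      simp
      ring
    rw [e0] at h1
    rw [hre2, hre1]
    refine le_of_mul_le_mul_left (le_trans (le_of_eq ?_) (h1.trans (le_of_eq ?_))) hM
    · field_simp
      ring
    · field_simp
      ring
  · intro X Y hX
    have h1 := KT_conj w X Y k
    rw [hint, hre2, hre1, hre2, hre1]
    simp only [zero_mul, add_zero]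
    linear_combination (1 / (c.M : ℝ)) * h1
  · intro X hX
    refine mul_nonneg (by positivity) ?_
    have h1 : 0 ≤ (Ex.bp c.cen).re ⟨0, 0, 0, 0, 0, X.re - 1, X.im⟩ := by
      apply hCen
      show 0 ≤ -2 * (X.re - 1) - (X.re - 1) ^ 2 - X.im ^ 2
      have h1 : X.re ^ 2 + X.im ^ 2 ≤ 1 := by
        rw [← nq_sq]
        nlinarith [norm_nonneg X]
      linarith
    have h2 : (Ex.bp c.cen).re ⟨0, 0, 0, 0, 0, X.re - 1, X.im⟩ = ev2 (X.re - 1) X.im c.cen := rfl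
    rw [h2, cen_ev w, ← hp] at h1
    have h3 : 0 ≤ c.Ecp c.c1 p X := by
      refine nonneg_of_mul_nonneg_right h1 ?_
      have := pow_pos (Dd_pos c.a X.re X.im) c.K
      positivity
    have h4 : c.Ecp k π X - c.Ecp c.c1 p X = (ε * π - c.c1 * (p - π)) * (1 - X.re) +
        c.a2 * (p - π) * ((X.re - 1) ^ 2 - X.im ^ 2) := by
      unfold Ecp
      rw [hk]
      ring
    rw [hεπ] at h4
    have h5 := disc_im hX
    have h6 : -(|(c.a2 : ℝ)| * (2 * (1 - X.re))) ≤ c.a2 * ((X.re - 1) ^ 2 - X.im ^ 2) := by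
      have h7 : |(c.a2 : ℝ) * ((X.re - 1) ^ 2 - X.im ^ 2)| ≤ |(c.a2 : ℝ)| * (2 * (1 - X.re)) := by
        rw [abs_mul]
        exact mul_le_mul_of_nonneg_left h5 (abs_nonneg _)
      exact (abs_le.1 h7).1
    have h8 := mul_le_mul_of_nonneg_left h6 e1
    linarith

/-- **the integral means from the data** -/
theorem Ok2.moments (o : c.Ok2 ka kb p0 p1 p2 la lb q0 q1 q2 Ln Ld Ln' Ld')
    (hIn : Side c.K Ln Ld c.tIn) (hOut : Side c.K Ln' Ld' c.tOut)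
    (hCen : ∀ x : Pnt, 0 ≤ -2 * x.f - x.f ^ 2 - x.g ^ 2 → 0 ≤ (Ex.bp c.cen).re x)
    {κ : ℝ} (h1 : 1 ≤ κ)
    (hκ : (c.lam : ℝ) + c.c1 + (c.c1 + 2 * |(c.a2 : ℝ)|) / 10 ^ 7 < 2 * κ * c.M) :
    ∀ p : ℝ, κ ≤ p → ∃ C : ℝ, ∀ ψ : ℂ → ℂ, DifferentiableOn ℂ ψ {z : ℂ | 1 < ‖z‖} →
      InjOn ψ {z : ℂ | 1 < ‖z‖} →
      (∃ b : ℂ, Filter.Tendsto (fun z => ψ z - z) (Bornology.cobounded ℂ) (nhds b)) →
      ∀ R : ℝ, 1 < R →
      (2 * π)⁻¹ * (∫ θ in (0:ℝ)..(2 * π), ‖deriv ψ (R * Complex.exp (θ * I))‖ ^ (-p)) ≤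
        C * (R ^ 2 / (R ^ 2 - 1)) ^ (p - 1) := by
  have k1 := o.K_one hIn hOut hCen hκ
  obtain ⟨CG, hGl⟩ := Gq_glip o.inn o.out
  have k2 := Pool.Agent.Helper61.EK.gibbs_of (κ := κ) (G := (Gq ka kb p0 p1 p2 la lb q0 q1 q2))
    Pool.Agent.Helper5.EK.entropy
    (fun hw _ h1 h2 => Pool.Agent.Helper26.EK.Kf_cont hw h1 h2)
    (fun h => Pool.Agent.Helper70.EK.wf_cont hGl h) k1
  exact Pool.Agent.Helper32.EK.final (Pool.Agent.Helper28.EK.moment_Ext h1 k2)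

end Dat

end Pool.Agent.Helper69.EK5

end

section

set_option autoImplicit false
open Complex MeasureTheory Metric Set
open scoped Real ComplexConjugate

/-!
# Project EK6: the centre line
-/

namespace Pool.Agent.Helper69.EK6

open Pool.Sos71
open Pool.EK71 Pool.Agent.Helper52.EK Pool.Agent.Helper2.EK
open Pool.Agent.Helper69.EK3 hiding qX qY qL Rr c1_Rr c2_Rr Rr_le Dn Dn_ev Rr_conj_even Rr_conj_odd Rs dEta_conj
open Pool.Agent.Helper69.EK5 (DQ Dd Dd_pos Dd_low DL e_D qX qY qL Rr c1_Rr c2_Rr Rr_le Dn Dn_ev Dd_conj Rr_conj_even Rr_conj_odd Rs dEta_conj)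
open Pool.Agent.Helper71.EK3 (xL yL r2L FL G2L e_x e_y e_r2 e_F e_G2)
open Pool.Agent.Helper71.EKC (c1_unique pw2 e_pw sb2 e_sb)
open Pool.Agent.Helper71.EKC (c1_conj)

/-- conditions of the families -/
def okU (h j : ℕ) (t : AP × BP) : Bool :=
  dle (2 * j + 2) t.2 && ahom (2 * h - 2) t.1 && (decide (asum t.1 = 0) || par2 true t.2)

def okF (b : Bool) (h j : ℕ) (t : AP × BP) : Bool :=
  dle (2 * j + 2) t.2 && ahom (2 * h - 2) t.1 && (decide (asum t.1 = 0) || par2 b t.2)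

theorem KU_conj {a : DQ} {j h : ℕ} (hh : 2 ≤ h) {t : AP × BP} (ht : okU h j t = true) (X Y : ℂ) :
    KU a j t X Y + KU a j t (conj X) (conj Y) =
      - (2 * (asum (ader (ash 2 0 t.1)) : ℝ) / 2 ^ h * Rs a j t.2 X) := by
  simp only [okU, Bool.and_eq_true, Bool.or_eq_true, decide_eq_true_eq] at ht
  obtain ⟨⟨_, h2⟩, h3⟩ := ht
  have e0 : 2 * h - 2 + 2 + 0 = 2 * h := by omega
  have g1 : ahom (2 * h) (ash 2 0 t.1) = true := by
    have := ahom_ash 2 0 h2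
    rwa [e0] at this
  have g2 := ahom_ader g1
  unfold KU Rs
  rw [af_half_even g1, af_half_even g2, asum_ash]
  rcases h3 with h3 | h3
  · rw [h3]
    push_cast
    ring
  · have h4 := dEta_conj (a := a) (j := j) h3 X Y
    linear_combination (4 * ((asum t.1 : ℝ) / 2 ^ h)) * h4

theorem KVE_conj {a : DQ} {j h : ℕ} (hh : 2 ≤ h) {t : AP × BP} (ht : ahom (2 * h - 1) t.1 = true)
    (X Y : ℂ) : KVE a j t X Y + KVE a j t (conj X) (conj Y) =
      2 * (asum t.1 : ℝ) / 2 ^ h * Rs a j t.2 X := by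
  have e0 : 2 * h - 1 + 1 + 0 = 2 * h := by omega
  have g1 : ahom (2 * h) (ash 1 0 t.1) = true := by
    have := ahom_ash 1 0 ht
    rwa [e0] at this
  unfold KVE Rs
  rw [af_half_even g1, asum_ash]
  ring

theorem KF0_conj {a : DQ} {j h : ℕ} (hh : 2 ≤ h) {t : AP × BP} (ht : okF true h j t = true) (X Y : ℂ) :
    KF0 a j t X Y + KF0 a j t (conj X) (conj Y) = 0 := by
  simp only [okF, Bool.and_eq_true, Bool.or_eq_true, decide_eq_true_eq] at ht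
  obtain ⟨⟨_, h2⟩, h3⟩ := ht
  have e0 : 2 * h - 2 + 2 + 0 = 2 * h := by omega
  have g1 : ahom (2 * h) (ash 2 0 t.1) = true := by
    have := ahom_ash 2 0 h2
    rwa [e0] at this
  unfold KF0
  rw [af_half_even g1, asum_ash]
  rcases h3 with h3 | h3
  · rw [h3]
    simp
  · rw [Rr_conj_even h3, pow_one, pow_one, ← map_div₀]
    simp only [mul_im, ofReal_re, ofReal_im, conj_re, conj_im]
    ring

theorem KF1_conj {a : DQ} {j h : ℕ} (hh : 2 ≤ h) {t : AP × BP} (ht : okF false h j t = true) (X Y : ℂ) :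
    KF1 a j t X Y + KF1 a j t (conj X) (conj Y) = 0 := by
  simp only [okF, Bool.and_eq_true, Bool.or_eq_true, decide_eq_true_eq] at ht
  obtain ⟨⟨_, h2⟩, h3⟩ := ht
  have e0 : 2 * h - 2 + 2 + 0 = 2 * h := by omega
  have g1 : ahom (2 * h) (ash 2 0 t.1) = true := by
    have := ahom_ash 2 0 h2
    rwa [e0] at this
  unfold KF1
  rw [af_half_even g1, asum_ash]
  rcases h3 with h3 | h3
  · rw [h3]
    simp
  · rw [Rr_conj_odd h3, pow_one, pow_one, ← map_div₀]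
    simp only [mul_im, mul_re, I_re, I_im, ofReal_re, ofReal_im, conj_re, conj_im]
    ring

theorem KH_conj (t : AP × ℕ) (X Y : ℂ) : KH t X Y + KH t (conj X) (conj Y) = 0 := by
  unfold KH
  have e : (conj X - 1) ^ t.2 * (conj Y / conj X) ^ 2 = conj ((X - 1) ^ t.2 * (Y / X) ^ 2) := by
    simp
  rw [e, conj_im]
  ring

theorem EHM_re (a : DQ) (K h : ℕ) (t : ℕ × Bool × ℤ) (X Y : ℂ) (l η : ℝ) :
    (EHM a K h t).re (px l η X Y) = Dd a X.re X.im ^ K * NM t X Y η := by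
  have h1 := csE_re t.1 l η X Y
  have e : (EHM a K h t).re (px l η X Y) = (t.2.2 : ℝ) *
      ((if t.2.1 then (csE t.1).1 else (csE t.1).2).re (px l η X Y)) *
      (eo.re (px l η X Y) ^ (h - t.1)) * ev2 (X.re - 1) X.im (mu2 G2L (Dn a K)) := rfl
  rw [e, px_o, one_pow, ev2_mu, e_G2, Dn_ev]
  have h3 : ((X - 1) ^ 2).re = (X.re - 1) ^ 2 - X.im ^ 2 := by
    rw [pow_two (X - 1), mul_re]
    simp
    ring
  unfold NM trg
  rw [h3]
  cases hb : t.2.1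
  · simp only [Bool.false_eq_true, if_false, h1.2]
    ring
  · simp only [if_true, h1.1]
    ring

end Pool.Agent.Helper69.EK6

end

section

set_option autoImplicit false
open Complex MeasureTheory Metric Set
open scoped Real ComplexConjugate

/-!
# Project EK6: assembly of the certificate
-/

namespace Pool.Agent.Helper69.EK6

open Pool.Sos71
open Pool.EK71 Pool.Agent.Helper52.EK Pool.Agent.Helper2.EK
open Pool.Agent.Helper69.EK3 hiding qX qY qL Rr c1_Rr c2_Rr Rr_le Dn Dn_ev Rr_conj_even Rr_conj_odd Rs dEta_conj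
open Pool.Agent.Helper69.EK5 (DQ Dd Dd_pos Dd_low DL e_D qX qY qL Rr c1_Rr c2_Rr Rr_le Dn Dn_ev Dd_conj Rr_conj_even Rr_conj_odd Rs dEta_conj)
open Pool.Agent.Helper71.EK3 (xL yL r2L FL G2L e_x e_y e_r2 e_F e_G2)
open Pool.Agent.Helper71.EKC (c1_unique pw2 e_pw sb2 e_sb)
open Pool.Agent.Helper71.EKC (c1_conj)

namespace Dat
variable (c : Dat)

/-- conditions on the data -/
def wf : Bool :=
  Nat.ble (c.kU + 2) c.K && Nat.ble (c.kV + 1) c.K && Nat.ble (c.kF + 1) c.K &&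
  Nat.ble c.kL c.K && Nat.ble 2 c.h &&
  c.UU.all (okU c.h c.kU) && c.VX.all (fun t => dle (2 * c.kV + 2) t.2) &&
  c.VE.all (fun t => ahom (2 * c.h - 1) t.1) &&
  c.F0.all (okF true c.h c.kF) && c.F1.all (okF false c.h c.kF) &&
  c.HH.all (fun t => Nat.ble t.2 2) && c.HM.all (fun t => Nat.ble 1 t.1 && Nat.ble t.1 4)

structure Wf : Prop where
  kU : c.kU + 2 ≤ c.K
  kV : c.kV + 1 ≤ c.K
  kF : c.kF + 1 ≤ c.K
  kL : c.kL ≤ c.K
  h2 : 2 ≤ c.h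
  uu : ∀ t ∈ c.UU, okU c.h c.kU t = true
  vx : ∀ t ∈ c.VX, dle (2 * c.kV + 2) t.2 = true
  ve : ∀ t ∈ c.VE, ahom (2 * c.h - 1) t.1 = true
  f0 : ∀ t ∈ c.F0, okF true c.h c.kF t = true
  f1 : ∀ t ∈ c.F1, okF false c.h c.kF t = true
  hh : ∀ t ∈ c.HH, t.2 ≤ 2
  hm : ∀ t ∈ c.HM, 1 ≤ t.1 ∧ t.1 ≤ 4

theorem wf_iff (h : c.wf = true) : c.Wf := by
  simp only [wf, Bool.and_eq_true, Nat.ble_eq, List.all_eq_true] at h
  obtain ⟨⟨⟨⟨⟨⟨⟨⟨⟨⟨⟨h2, h3⟩, h4⟩, h5⟩, h6⟩, h7⟩, h8⟩, h9⟩, h10⟩, h11⟩, h12⟩, h13⟩ := h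
  exact ⟨h2, h3, h4, h5, h6, h7, h8, h9, h10, h11, h12, h13⟩

/-- the total null Lagrangian -/
noncomputable def NT (X Y : ℂ) (η : ℝ) : ℝ :=
  (c.UU.map fun t => NU c.a c.kU t X Y η).sum + ((c.VX.map fun t => NVX c.a c.kV t X Y η).sum +
  ((c.VE.map fun t => NVE c.a c.kV t X Y η).sum + ((c.F0.map fun t => NF0 c.a c.kF t X Y η).sum +
  ((c.F1.map fun t => NF1 c.a c.kF t X Y η).sum + ((c.HH.map fun t => NH t X Y η).sum +
  (c.HM.map fun t => NM t X Y η).sum)))))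

noncomputable def KT (X Y : ℂ) : ℝ :=
  (c.UU.map fun t => KU c.a c.kU t X Y).sum + ((c.VX.map fun _ => (0:ℝ)).sum +
  ((c.VE.map fun t => KVE c.a c.kV t X Y).sum + ((c.F0.map fun t => KF0 c.a c.kF t X Y).sum +
  ((c.F1.map fun t => KF1 c.a c.kF t X Y).sum + ((c.HH.map fun t => KH t X Y).sum +
  (c.HM.map fun t => KM t X Y).sum)))))

variable {c}

theorem isNull_NT (w : c.Wf) : IsNull DiscP c.NT c.KT := by
  have hU : ∀ t ∈ c.UU, dle (2 * c.kU + 2) t.2 = true := fun t ht => by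
    have := w.uu t ht
    simp only [okU, Bool.and_eq_true] at this
    exact this.1.1
  have h0 : ∀ t ∈ c.F0, dle (2 * c.kF + 2) t.2 = true := fun t ht => by
    have := w.f0 t ht
    simp only [okF, Bool.and_eq_true] at this
    exact this.1.1
  have h1 : ∀ t ∈ c.F1, dle (2 * c.kF + 2) t.2 = true := fun t ht => by
    have := w.f1 t ht
    simp only [okF, Bool.and_eq_true] at this
    exact this.1.1
  exact (IsNull.list c.UU fun t ht => isNull_NU t (hU t ht)).add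
    ((IsNull.list c.VX fun t ht => isNull_NVX t (w.vx t ht)).add
    ((IsNull.list c.VE fun t _ => isNull_NVE t).add
    ((IsNull.list c.F0 fun t ht => isNull_NF0 t (h0 t ht)).add
    ((IsNull.list c.F1 fun t ht => isNull_NF1 t (h1 t ht)).add
    ((IsNull.list c.HH fun t ht => isNull_NH t (w.hh t ht)).add
    (IsNull.list c.HM fun t _ => isNull_NM t))))))

theorem tN_re (w : c.Wf) {X Y : ℂ} (hX : X ≠ 0) (l η : ℝ) : c.tN.re (px l η X Y) =
    Dd c.a X.re X.im ^ c.K * (c.NT X Y η + (c.lam * ‖X - 1‖ ^ 2 +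
      c.a2 * ((X.re - 1) ^ 2 - X.im ^ 2))) := by
  have e0 : ‖X - 1‖ ^ 2 = (X.re - 1) ^ 2 + X.im ^ 2 := by
    rw [nq_sq]
    simp
  unfold tN
  simp only [sumE_re]
  rw [map_sum_congr c.UU fun t _ => EU_re c.a c.K c.kU t w.kU (Y := Y) hX l η,
    map_sum_congr c.VX fun t _ => EVX_re c.a c.K c.kV t w.kV (Y := Y) hX l η,
    map_sum_congr c.VE fun t _ => EVE_re c.a c.K c.kV t w.kV (Y := Y) hX l η,
    map_sum_congr c.F0 fun t _ => EF0_re c.a c.K c.kF t w.kF (Y := Y) hX l η,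
    map_sum_congr c.F1 fun t _ => EF1_re c.a c.K c.kF t w.kF (Y := Y) hX l η,
    map_sum_congr c.HH fun t ht => EH_re c.a c.K t (w.hh t ht) X Y l η,
    map_sum_congr c.HM fun t _ => EHM_re c.a c.K c.h t X Y l η]
  simp only [map_sum_mul]
  have e1 : (Ex.mul (Ex.pow eo c.h) (Ex.bp (mu2 (ad2 (sm2 c.lam FL) (sm2 c.a2 G2L))
      (Dn c.a c.K)))).re (px l η X Y) = (eo.re (px l η X Y)) ^ c.h *
      ev2 (X.re - 1) X.im (mu2 (ad2 (sm2 c.lam FL) (sm2 c.a2 G2L)) (Dn c.a c.K)) := rfl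
  rw [e1, px_o, one_pow, ev2_mu, ev2_ad, ev2_sm, ev2_sm, e_F, e_G2, Dn_ev, e0]
  unfold NT
  ring

/-! ### centre -/

variable (c)

def cU (t : AP × BP) : BP :=
  sm2 (Int.mul 2712 (asum (ader (ash 2 0 t.1)))) (mu2 (ad2 t.2 (fl2 t.2)) (Dn c.a (c.K - c.kU)))

def cE (t : AP × BP) : BP :=
  sm2 (Int.mul (-2712) (asum t.1)) (mu2 (ad2 t.2 (fl2 t.2)) (Dn c.a (c.K - c.kV)))

def cM (t : ℕ × Bool × ℤ) : BP :=
  sm2 (Int.mul (Int.mul (-226) (Int.ofNat (2 ^ c.h))) (Int.mul t.2.2 (hmv t.1 t.2.1)))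
    (mu2 G2L (Dn c.a c.K))

def c0 : BP :=
  mu2 (sm2 (Int.mul (-4260) (Int.ofNat (2 ^ c.h))) (ad2 (sm2 c.c1 [[0], [1]]) (sm2 c.a2 G2L)))
    (Dn c.a c.K)

/-- the centre polynomial: `12 · 113 · 2^h · D^K · E_c` with `355/113` for `π` -/
def cen : BP := sumB c.cU (sumB c.cE (sumB c.cM c.c0 c.HM) c.VE) c.UU

/-- the centre function with `p` for `π` and `k` for `c₁` -/
noncomputable def Ecp (k p : ℝ) (X : ℂ) : ℝ :=
  (c.UU.map fun t => 2 * (asum (ader (ash 2 0 t.1)) : ℝ) / 2 ^ c.h * Rs c.a c.kU t.2 X).sum +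
  ((c.VE.map fun t => - (2 * (asum t.1 : ℝ) / 2 ^ c.h * Rs c.a c.kV t.2 X)).sum +
  ((c.HM.map fun t => - ((t.2.2 : ℝ) * hmv t.1 t.2.1 / 6 * ((X.re - 1) ^ 2 - X.im ^ 2))).sum +
  (- (k * p * (X.re - 1)) - c.a2 * p * ((X.re - 1) ^ 2 - X.im ^ 2))))

variable {c}

theorem cen_ev (w : c.Wf) (X : ℂ) : ev2 (X.re - 1) X.im c.cen =
    1356 * 2 ^ c.h * Dd c.a X.re X.im ^ c.K * c.Ecp c.c1 (355 / 113) X := by
  have hD := (Dd_pos c.a X.re X.im).ne'
  have h2 : (2:ℝ) ^ c.h ≠ 0 := by positivity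
  have eU : ∀ t ∈ c.UU, ev2 (X.re - 1) X.im (c.cU t) =
      1356 * 2 ^ c.h * Dd c.a X.re X.im ^ c.K *
        (2 * (asum (ader (ash 2 0 t.1)) : ℝ) / 2 ^ c.h * Rs c.a c.kU t.2 X) := by
    intro t _
    obtain ⟨m, hm⟩ := Nat.exists_eq_add_of_le (le_trans (Nat.le_add_right _ 2) w.kU)
    have e2 : c.K - c.kU = m := by omega
    rw [cU, ev2_sm, ev2_mu, ev2_ad, fl2_ev, Dn_ev, imul_cast', e2]
    unfold Rs Rr
    rw [Dd_conj, conj_re, conj_im]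
    have p1 : Dd c.a X.re X.im ^ c.K = Dd c.a X.re X.im ^ c.kU * Dd c.a X.re X.im ^ m := by
      rw [hm, pow_add]
    rw [p1]
    field_simp
    push_cast
    ring
  have eE : ∀ t ∈ c.VE, ev2 (X.re - 1) X.im (c.cE t) =
      1356 * 2 ^ c.h * Dd c.a X.re X.im ^ c.K *
        (- (2 * (asum t.1 : ℝ) / 2 ^ c.h * Rs c.a c.kV t.2 X)) := by
    intro t _
    obtain ⟨m, hm⟩ := Nat.exists_eq_add_of_le (le_trans (Nat.le_add_right _ 1) w.kV)
    have e2 : c.K - c.kV = m := by omega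
    rw [cE, ev2_sm, ev2_mu, ev2_ad, fl2_ev, Dn_ev, imul_cast', e2]
    unfold Rs Rr
    rw [Dd_conj, conj_re, conj_im]
    have p1 : Dd c.a X.re X.im ^ c.K = Dd c.a X.re X.im ^ c.kV * Dd c.a X.re X.im ^ m := by
      rw [hm, pow_add]
    rw [p1]
    field_simp
    push_cast
    ring
  have eM : ∀ t ∈ c.HM, ev2 (X.re - 1) X.im (c.cM t) =
      1356 * 2 ^ c.h * Dd c.a X.re X.im ^ c.K *
        (- ((t.2.2 : ℝ) * hmv t.1 t.2.1 / 6 * ((X.re - 1) ^ 2 - X.im ^ 2))) := by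
    intro t _
    rw [cM, ev2_sm, ev2_mu, e_G2, Dn_ev, imul_cast', imul_cast', imul_cast', ofNat_cast']
    push_cast
    ring
  rw [cen, sumB_ev, sumB_ev, sumB_ev, map_sum_congr _ eU, map_sum_congr _ eE, map_sum_congr _ eM,
    map_sum_mul, map_sum_mul, map_sum_mul, c0, ev2_mu, ev2_sm, ev2_ad, ev2_sm, ev2_sm, e_G2,
    Dn_ev, imul_cast', ofNat_cast']
  unfold Ecp
  simp only [ev2, ev1]
  push_cast
  ring

theorem KT_conj (w : c.Wf) (X Y : ℂ) (k : ℝ) :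
    (c.KT X Y + (c.a2 * (π / 2) * ((X.re - 1) ^ 2 - X.im ^ 2) + k * (π / 2) * (X.re - 1))) +
    (c.KT (conj X) (conj Y) + (c.a2 * (π / 2) * (((conj X).re - 1) ^ 2 - (conj X).im ^ 2) +
      k * (π / 2) * ((conj X).re - 1))) = - c.Ecp k π X := by
  have eU := map_sum_congr c.UU fun t ht => KU_conj (a := c.a) w.h2 (w.uu t ht) X Y
  have eE := map_sum_congr c.VE fun t ht => KVE_conj (a := c.a) (j := c.kV) w.h2 (w.ve t ht) X Y
  have e0 := map_sum_congr c.F0 fun t ht => KF0_conj (a := c.a) w.h2 (w.f0 t ht) X Y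
  have e1 := map_sum_congr c.F1 fun t ht => KF1_conj (a := c.a) w.h2 (w.f1 t ht) X Y
  have eH := map_sum_congr c.HH fun t _ => KH_conj t X Y
  have eM := map_sum_congr c.HM fun t ht => KM_conj (w.hm t ht).1 (w.hm t ht).2 X Y
  rw [← map_sum_add] at eU eE e0 e1 eH eM
  have n0 : ∀ (L : List (AP × BP)), (L.map fun _ => (0:ℝ)).sum = 0 := fun L => by
    induction L with
    | nil => simp
    | cons t L ih => simpa using ih
  have n1 : ∀ (L : List (AP × ℕ)), (L.map fun _ => (0:ℝ)).sum = 0 := fun L => by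
    induction L with
    | nil => simp
    | cons t L ih => simpa using ih
  have g1 : (c.UU.map fun t => - (2 * (asum (ader (ash 2 0 t.1)) : ℝ) / 2 ^ c.h *
      Rs c.a c.kU t.2 X)).sum = - (c.UU.map fun t => 2 * (asum (ader (ash 2 0 t.1)) : ℝ) /
      2 ^ c.h * Rs c.a c.kU t.2 X).sum := by
    have := map_sum_mul c.UU (fun t => 2 * (asum (ader (ash 2 0 t.1)) : ℝ) / 2 ^ c.h *
      Rs c.a c.kU t.2 X) (-1)
    simp only [neg_mul, one_mul] at this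
    exact this
  have g2 : (c.VE.map fun t => - (2 * (asum t.1 : ℝ) / 2 ^ c.h * Rs c.a c.kV t.2 X)).sum =
      - (c.VE.map fun t => 2 * (asum t.1 : ℝ) / 2 ^ c.h * Rs c.a c.kV t.2 X).sum := by
    have := map_sum_mul c.VE (fun t => 2 * (asum t.1 : ℝ) / 2 ^ c.h * Rs c.a c.kV t.2 X) (-1)
    simp only [neg_mul, one_mul] at this
    exact this
  have g3 : (c.HM.map fun t => - ((t.2.2 : ℝ) * hmv t.1 t.2.1 / 6 *
      ((X.re - 1) ^ 2 - X.im ^ 2))).sum = - (c.HM.map fun t => (t.2.2 : ℝ) * hmv t.1 t.2.1 / 6 *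
      ((X.re - 1) ^ 2 - X.im ^ 2)).sum := by
    have := map_sum_mul c.HM (fun t => (t.2.2 : ℝ) * hmv t.1 t.2.1 / 6 *
      ((X.re - 1) ^ 2 - X.im ^ 2)) (-1)
    simp only [neg_mul, one_mul] at this
    exact this
  rw [n0] at e0 e1
  rw [n1] at eH
  rw [g1] at eU
  unfold Ecp KT
  rw [g2, g3, n0, conj_re, conj_im]
  linear_combination eU + eE + e0 + e1 + eH + eM

theorem Ecp_c1 (k p : ℝ) : ∃ Ex Ey : ℂ → ℝ, C1f (c.Ecp k p) Ex Ey := by
  have hR : ∀ (a : DQ) (j : ℕ) (P : BP), ∃ Fx Fy : ℂ → ℝ, C1f (Rs a j P) Fx Fy := fun a j P =>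
    ⟨_, _, c1_add (c1_Rr a j P) (c1_conj (c1_Rr a j P))⟩
  have hS : ∃ Fx Fy : ℂ → ℝ, C1f (fun X : ℂ => (X.re - 1) ^ 2 - X.im ^ 2) Fx Fy :=
    ⟨_, _, by
      have h1 := c1_sub c1_re (c1_const 1)
      have h2 := c1_sub (c1_mul h1 h1) (c1_mul c1_im c1_im)
      exact c1_congr h2 (fun X => by ring) (fun _ => rfl) (fun _ => rfl)⟩
  obtain ⟨A1, A2, hA⟩ := c1_list c.UU (fun t X => 2 * (asum (ader (ash 2 0 t.1)) : ℝ) /
    2 ^ c.h * Rs c.a c.kU t.2 X) (fun t => by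
      obtain ⟨_, _, h⟩ := hR c.a c.kU t.2
      exact ⟨_, _, c1_mul (c1_const _) h⟩)
  obtain ⟨B1, B2, hB⟩ := c1_list c.VE (fun t X => - (2 * (asum t.1 : ℝ) / 2 ^ c.h *
    Rs c.a c.kV t.2 X)) (fun t => by
      obtain ⟨_, _, h⟩ := hR c.a c.kV t.2
      exact ⟨_, _, c1_congr (c1_mul (c1_const (-(2 * (asum t.1 : ℝ) / 2 ^ c.h))) h)
        (fun X => by ring) (fun _ => rfl) (fun _ => rfl)⟩)
  obtain ⟨C1, C2, hC⟩ := c1_list c.HM (fun t X => - ((t.2.2 : ℝ) * hmv t.1 t.2.1 / 6 *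
    ((X.re - 1) ^ 2 - X.im ^ 2))) (fun t => by
      obtain ⟨_, _, h⟩ := hS
      exact ⟨_, _, c1_congr (c1_mul (c1_const (-((t.2.2 : ℝ) * hmv t.1 t.2.1 / 6))) h)
        (fun X => by ring) (fun _ => rfl) (fun _ => rfl)⟩)
  obtain ⟨S1, S2, hS⟩ := hS
  have hL := c1_sub (c1_mul (c1_const (-(k * p))) (c1_sub c1_re (c1_const 1)))
    (c1_mul (c1_const (c.a2 * p)) hS)
  refine ⟨_, _, c1_congr (c1_add hA (c1_add hB (c1_add hC hL))) (fun X => ?_) (fun _ => rfl)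
    (fun _ => rfl)⟩
  unfold Ecp
  ring

end Dat

end Pool.Agent.Helper69.EK6

end

section

set_option autoImplicit false
open Complex MeasureTheory Metric Set
open scoped Real ComplexConjugate

/-!
# Project EK6: from the data of a certificate to the integral means
-/

namespace Pool.Agent.Helper69.EK6

open Pool.Sos71
open Pool.EK71 Pool.Agent.Helper52.EK Pool.Agent.Helper2.EK
open Pool.Agent.Helper69.EK3 hiding qX qY qL Rr c1_Rr c2_Rr Rr_le Dn Dn_ev Rr_conj_even Rr_conj_odd Rs dEta_conj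
open Pool.Agent.Helper69.EK5 (DQ Dd Dd_pos Dd_low DL e_D qX qY qL Rr c1_Rr c2_Rr Rr_le Dn Dn_ev Dd_conj Rr_conj_even Rr_conj_odd Rs dEta_conj)
open Pool.Agent.Helper71.EK3 (xL yL r2L FL G2L e_x e_y e_r2 e_F e_G2)
open Pool.Agent.Helper71.EKC (c1_unique pw2 e_pw sb2 e_sb)
open Pool.Agent.Helper71.EKC (c1_conj)
open Pool.Agent.Helper69.EK3.Dat (SideOk half_bd pi_err disc_im)

/-! ### the discs of Bieberbach -/

/-- `16 - |(1 + e₀)(2 σ X - 1 + X'/X) + 2|²` -/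
def eDi (σ : ℤ) : Ex :=
  Ex.add (Ex.sc 16 eone) (Ex.sc (-4) (Ex.add
    (Ex.pow (Ex.add eP (Ex.mul (Ex.sc (2 * σ) eA) (Ex.bp [[1], [1]]))) 2)
    (Ex.pow (Ex.add (Ex.add eR (Ex.mul (Ex.sc (2 * σ) eA) (Ex.bp [[0, 1]])))
      (Ex.sc (-1) eB)) 2)))

theorem px_Di (σ : ℤ) (l η : ℝ) (X Y : ℂ) : (eDi σ).re (px l η X Y) =
    16 - ‖dA (σ : ℝ) X Y (Real.sin η) (Real.cos η)‖ ^ 2 := by
  have e : (eDi σ).re (px l η X Y) = ((16 : ℤ) : ℝ) * eo.re (px l η X Y) ^ 2 +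
      ((-4 : ℤ) : ℝ) * ((eP.re (px l η X Y) + ((2 * σ : ℤ) : ℝ) * eA.re (px l η X Y) *
        ev2 (X.re - 1) X.im [[1], [1]]) ^ 2 + (eR.re (px l η X Y) + ((2 * σ : ℤ) : ℝ) *
        eA.re (px l η X Y) * ev2 (X.re - 1) X.im [[0, 1]] + ((-1 : ℤ) : ℝ) *
        eB.re (px l η X Y)) ^ 2) := rfl
  have h3 := Real.sin_sq_add_cos_sq η
  have h3c : (Real.sin η : ℂ) ^ 2 + (Real.cos η : ℂ) ^ 2 = 1 := by exact_mod_cast h3
  have h4 : ‖(Real.sin η : ℂ) + (Real.cos η : ℂ) * I‖ ^ 2 = 1 := by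
    rw [nq_sq]
    simp only [add_re, add_im, mul_re, mul_im, ofReal_re, ofReal_im, I_re, I_im, mul_zero,
      mul_one, sub_zero, add_zero, zero_add]
    exact h3
  have h5 : dA (σ : ℝ) X Y (Real.sin η) (Real.cos η) =
      2 * ((Real.sin η : ℂ) + (Real.cos η : ℂ) * I) *
        ((Real.sin η : ℂ) * (Y / X) + 2 * (σ : ℂ) * (Real.sin η : ℂ) * X -
          (Real.cos η : ℂ) * I) := by
    unfold dA e0
    push_cast
    have h3c' : Complex.sin η ^ 2 + Complex.cos η ^ 2 = 1 := by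
      push_cast at h3c
      exact h3c
    linear_combination (2 * (σ : ℂ) * X - 1 + Y / X) * (-h3c' - Complex.sin η ^ 2 * I_sq) -
      2 * h3c' + 2 * Complex.cos η ^ 2 * I_sq
  rw [e, px_A, px_B, px_o, px_P, px_R, h5, norm_mul, norm_mul, mul_pow, mul_pow, h4, nq_sq (_ - _)]
  simp only [ev2, ev1, sub_re, sub_im, add_re, add_im, mul_re, mul_im, ofReal_re, ofReal_im,
    I_re, I_im, intCast_re, intCast_im, re_ofNat, im_ofNat, Complex.norm_ofNat, mul_zero, mul_one,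
    sub_zero, add_zero, zero_add, zero_mul]
  push_cast
  ring

/-- nonnegativity of the target of one side, with two disc multipliers -/
def Side (K : ℕ) (Ln Ld : ℤ) (t : Ex) : Prop :=
  ∃ B : ℝ, ∀ x : Pnt, 0 ≤ x.b → x.b ≤ x.c → x.b ^ 2 + x.c ^ 2 = 1 → 0 ≤ x.a →
    (Ld : ℝ) * x.a ≤ Ln → ∃ q1 q2 : ℝ, 0 ≤ q1 ∧ q1 ≤ B * (1 + x.f ^ 2 + x.g ^ 2) ^ K ∧
      0 ≤ q2 ∧ q2 ≤ B * (1 + x.f ^ 2 + x.g ^ 2) ^ K ∧
      q1 * (eDi 1).re x + q2 * (eDi (-1)).re x ≤ t.re x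

theorem Side.of_pos {K : ℕ} {Ln Ld : ℤ} {t : Ex} (h : ∀ x : Pnt, 0 ≤ x.b → x.b ≤ x.c →
    x.b ^ 2 + x.c ^ 2 = 1 → 0 ≤ x.a → (Ld : ℝ) * x.a ≤ Ln → 0 ≤ t.re x) : Side K Ln Ld t :=
  ⟨0, fun x h1 h2 h3 h4 h5 => ⟨0, 0, le_rfl, by simp, le_rfl, by simp, by
    rw [zero_mul, zero_mul, add_zero]
    exact h x h1 h2 h3 h4 h5⟩⟩

namespace Dat

/-- conditions on the data -/
structure Ok2 (c : Dat) (ka kb p0 p1 p2 la lb q0 q1 q2 : ℝ) (Ln Ld Ln' Ld' : ℤ) : Prop where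
  wf : c.wf = true
  M0 : 0 < c.M
  lam0 : 0 ≤ c.lam
  c10 : 0 ≤ c.c1
  fi : SideOk c.M c.fi 1 ka kb p0 p1 p2
  fo : SideOk c.M c.fo (-1) la lb q0 q1 q2
  Ld0 : 0 < Ld
  Ld0' : 0 < Ld'
  inn : InOk ka kb p0 p1 p2 (Ln / Ld)
  out : OutOk la lb q0 q1 q2 (Ln' / Ld')

variable {c : Dat} {ka kb p0 p1 p2 la lb q0 q1 q2 : ℝ} {Ln Ld Ln' Ld' : ℤ}

theorem tSide_re (w : c.Wf) (f : Sd) {X Y : ℂ} (hX : X ≠ 0) (l η : ℝ)
    (h : (eCon f).re (px l η X Y) = 0) : (c.tSide f).re (px l η X Y) =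
    Dd c.a X.re X.im ^ c.K * (c.NT X Y η + (c.lam * ‖X - 1‖ ^ 2 +
      c.a2 * ((X.re - 1) ^ 2 - X.im ^ 2)) - (eTT c.M f).re (px l η X Y)) := by
  have e : (c.tSide f).re (px l η X Y) = c.tN.re (px l η X Y) +
      (((eo.re (px l η X Y)) ^ (c.h - 2) * ev2 (X.re - 1) X.im (sm2 (-1) (Dn c.a c.K))) *
        (eTT c.M f).re (px l η X Y) + (c.tMul f).re (px l η X Y) * (eCon f).re (px l η X Y)) := rfl
  rw [e, h, tN_re w hX, px_o, one_pow, ev2_sm, Dn_ev]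
  push_cast
  ring

theorem Side.apply {c : Dat} {t : Ex} (h : Side c.K Ln Ld t) : ∃ B : ℝ, 0 ≤ B ∧
    ∀ (X Y : ℂ) (l η : ℝ), η ∈ Icc (0:ℝ) (π / 2) → 0 ≤ l → (Ld : ℝ) * l ≤ Ln →
      ∃ q1 q2 : ℝ, 0 ≤ q1 ∧ q1 ≤ B ∧ 0 ≤ q2 ∧ q2 ≤ B ∧
      Dd c.a X.re X.im ^ c.K * (q1 * (16 - ‖dA 1 X Y (Real.sin η) (Real.cos η)‖ ^ 2) +
        q2 * (16 - ‖dA (-1) X Y (Real.sin η) (Real.cos η)‖ ^ 2)) ≤ t.re (px l η X Y) := by
  obtain ⟨B, hB⟩ := h
  obtain ⟨k, hk, hl⟩ := Dd_low c.a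
  refine ⟨|B| * k ^ c.K, by positivity, fun X Y l η hη l0 l1 => ?_⟩
  obtain ⟨b1, b2⟩ := half_bd hη
  have hD := Dd_pos c.a X.re X.im
  have hDK : 0 < Dd c.a X.re X.im ^ c.K := pow_pos hD _
  obtain ⟨q1, q2, g1, g2, g3, g4, g5⟩ := hB (px l η X Y) b1 b2 (Real.sin_sq_add_cos_sq _) l0 l1
  have hu : (1 + (X.re - 1) ^ 2 + X.im ^ 2) ^ c.K ≤ k ^ c.K * Dd c.a X.re X.im ^ c.K := by
    rw [← mul_pow]
    refine pow_le_pow_left₀ (by positivity) ?_ _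
    have := hl X.re X.im
    linarith
  have hb : B * (1 + (X.re - 1) ^ 2 + X.im ^ 2) ^ c.K ≤
      |B| * k ^ c.K * Dd c.a X.re X.im ^ c.K := by
    have h0 : 0 ≤ (1 + (X.re - 1) ^ 2 + X.im ^ 2) ^ c.K := by positivity
    calc B * (1 + (X.re - 1) ^ 2 + X.im ^ 2) ^ c.K ≤
          |B| * (1 + (X.re - 1) ^ 2 + X.im ^ 2) ^ c.K :=
          mul_le_mul_of_nonneg_right (le_abs_self B) h0
      _ ≤ |B| * (k ^ c.K * Dd c.a X.re X.im ^ c.K) := mul_le_mul_of_nonneg_left hu (abs_nonneg B)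
      _ = _ := by ring
  refine ⟨q1 / Dd c.a X.re X.im ^ c.K, q2 / Dd c.a X.re X.im ^ c.K, div_nonneg g1 hDK.le, ?_,
    div_nonneg g3 hDK.le, ?_, ?_⟩
  · rw [div_le_iff₀ hDK]
    exact g2.trans hb
  · rw [div_le_iff₀ hDK]
    exact g4.trans hb
  · rw [px_Di, px_Di] at g5
    push_cast at g5
    have e : ∀ A B : ℝ, Dd c.a X.re X.im ^ c.K * (q1 / Dd c.a X.re X.im ^ c.K * A +
        q2 / Dd c.a X.re X.im ^ c.K * B) = q1 * A + q2 * B := by
      intro A B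
      field_simp
    rw [e]
    exact g5

theorem SideOk_con {M : ℤ} {f : Sd} {sg : ℤ} (h : SideOk M f sg ka kb p0 p1 p2) {X Y : ℂ} {η l : ℝ}
    (hl : l * rF p0 p1 p2 (mX X Y (Real.sin η) (Real.cos η)) =
      sg * (1 - ‖mX X Y (Real.sin η) (Real.cos η)‖ ^ 2)) (hs : (sg : ℝ) ^ 2 = 1) :
    (eCon f).re (px l η X Y) = 0 := by
  rw [px_Con, h.r0, h.r1, h.r2, h.sg]
  unfold rF at hl
  linear_combination (f.r * (sg : ℝ)) * hl + (f.r * (1 -
    ‖mX X Y (Real.sin η) (Real.cos η)‖ ^ 2)) * hs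

/-- the pointwise inequality -/
theorem Ok2.point (o : c.Ok2 ka kb p0 p1 p2 la lb q0 q1 q2 Ln Ld Ln' Ld')
    (hIn : Side c.K Ln Ld c.tIn) (hOut : Side c.K Ln' Ld' c.tOut) : ∃ B : ℝ, 0 ≤ B ∧
    ∀ X Y : ℂ, X ≠ 0 → ∀ η ∈ Icc (0:ℝ) (π / 2), ∃ l1 l2 : ℝ, 0 ≤ l1 ∧ l1 ≤ B ∧ 0 ≤ l2 ∧ l2 ≤ B ∧
    c.M * TG (Gq ka kb p0 p1 p2 la lb q0 q1 q2) X Y (Real.sin η) (Real.cos η) +
      (l1 * (16 - ‖dA 1 X Y (Real.sin η) (Real.cos η)‖ ^ 2) +
        l2 * (16 - ‖dA (-1) X Y (Real.sin η) (Real.cos η)‖ ^ 2)) ≤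
      c.NT X Y η + (c.lam * ‖X - 1‖ ^ 2 + c.a2 * ((X.re - 1) ^ 2 - X.im ^ 2)) := by
  obtain ⟨B1, hB1, k1⟩ := Side.apply hIn
  obtain ⟨B2, hB2, k2⟩ := Side.apply hOut
  have w := wf_iff c o.wf
  refine ⟨max B1 B2, le_max_of_le_left hB1, fun X Y hX η hη => ?_⟩
  have hM : (0:ℝ) < c.M := by exact_mod_cast o.M0
  have hD : 0 < Dd c.a X.re X.im ^ c.K := pow_pos (Dd_pos _ _ _) _
  unfold TG Gq
  set m := mX X Y (Real.sin η) (Real.cos η) with hm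
  by_cases h1 : ‖m‖ ≤ 1
  · rw [if_pos h1]
    obtain ⟨d1, d2, d3⟩ := o.inn.l_bd h1
    obtain ⟨l, hl⟩ : ∃ l : ℝ, l = (1 - ‖m‖ ^ 2) / rF p0 p1 p2 m := ⟨_, rfl⟩
    have hL : (0:ℝ) < Ld := by exact_mod_cast o.Ld0
    rw [← hl] at d2 d3
    have hc : (eCon c.fi).re (px l η X Y) = 0 := by
      refine SideOk_con o.fi ?_ (by norm_num)
      rw [← hm, hl, div_mul_cancel₀ _ d1.ne']
      push_cast
      ring
    obtain ⟨l1, l2, a1, a2, a3, a4, h5⟩ := k1 X Y l η hη d2 (by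
      rw [le_div_iff₀ hL] at d3
      linarith)
    have h6 : c.tIn.re (px l η X Y) = _ := tSide_re w c.fi (Y := Y) hX l η hc
    rw [h6] at h5
    have h7 := le_of_mul_le_mul_left h5 hD
    rw [px_TT l η X Y o.fi.ma o.fi.mb o.fi.maa o.fi.mab o.fi.mbb (by rw [o.fi.sg]; norm_num),
      ← hm, o.fi.sg] at h7
    refine ⟨l1, l2, a1, a2.trans (le_max_left _ _), a3, a4.trans (le_max_left _ _), ?_⟩
    unfold Fq
    rw [← hl]
    push_cast at h7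
    rw [one_mul] at h7
    linarith
  · rw [if_neg h1]
    have h1' : 1 < ‖m‖ := not_le.1 h1
    obtain ⟨d1, d2, d3⟩ := o.out.l_bd h1'.le
    obtain ⟨l, hl⟩ : ∃ l : ℝ, l = (‖m‖ ^ 2 - 1) / rF q0 q1 q2 m := ⟨_, rfl⟩
    have hL : (0:ℝ) < Ld' := by exact_mod_cast o.Ld0'
    rw [← hl] at d2 d3
    have hc : (eCon c.fo).re (px l η X Y) = 0 := by
      refine SideOk_con o.fo ?_ (by norm_num)
      rw [← hm, hl, div_mul_cancel₀ _ d1.ne']
      push_cast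
      ring
    obtain ⟨l1, l2, a1, a2, a3, a4, h5⟩ := k2 X Y l η hη d2 (by
      rw [le_div_iff₀ hL] at d3
      linarith)
    have h6 : c.tOut.re (px l η X Y) = _ := tSide_re w c.fo (Y := Y) hX l η hc
    rw [h6] at h5
    have h7 := le_of_mul_le_mul_left h5 hD
    rw [px_TT l η X Y o.fo.ma o.fo.mb o.fo.maa o.fo.mab o.fo.mbb (by rw [o.fo.sg]; norm_num),
      ← hm, o.fo.sg] at h7
    have e : (1 - ‖m‖ ^ 2) / rF q0 q1 q2 m = ((-1 : ℤ) : ℝ) * l := by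
      rw [hl]
      push_cast
      ring
    refine ⟨l1, l2, a1, a2.trans (le_max_right _ _), a3, a4.trans (le_max_right _ _), ?_⟩
    unfold Fq
    rw [e]
    linarith

/-- **the bound for one target from the data** -/
theorem Ok2.K_one (o : c.Ok2 ka kb p0 p1 p2 la lb q0 q1 q2 Ln Ld Ln' Ld')
    (hIn : Side c.K Ln Ld c.tIn) (hOut : Side c.K Ln' Ld' c.tOut)
    (hCen : ∀ x : Pnt, 0 ≤ -2 * x.f - x.f ^ 2 - x.g ^ 2 → 0 ≤ (Ex.bp c.cen).re x)
    {κ : ℝ} (hκ : (c.lam : ℝ) + c.c1 + (c.c1 + 2 * |(c.a2 : ℝ)|) / 10 ^ 7 < 2 * κ * c.M) :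
    ∃ C a₀ : ℝ, a₀ < 1 ∧ ∀ (β : ℂ → ℂ) (R a : ℝ), ExtR β R → a₀ < a → a < 1 →
      Kf (Pool.Agent.Helper52.EK.wf (Gq ka kb p0 p1 p2 la lb q0 q1 q2) β) 1 (-1) (Real.log a) ≤ κ * Real.log (‖N β a‖ / (1 - a ^ 2)) + C := by
  have w := wf_iff c o.wf
  obtain ⟨CG, hGl⟩ := Gq_glip o.inn o.out
  have hM : (0:ℝ) < c.M := by exact_mod_cast o.M0
  have hlam : (0:ℝ) ≤ c.lam := by exact_mod_cast o.lam0
  have hc1 : (0:ℝ) ≤ c.c1 := by exact_mod_cast o.c10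
  obtain ⟨p, hp⟩ : ∃ p : ℝ, p = 355 / 113 := ⟨_, rfl⟩
  obtain ⟨e1, e2⟩ := pi_err hp
  have hpi := Real.pi_pos
  obtain ⟨ε, hε⟩ : ∃ ε : ℝ, ε = (c.c1 + 2 * |(c.a2 : ℝ)|) * ((p - π) / π) := ⟨_, rfl⟩
  have hA : 0 ≤ (c.c1 : ℝ) + 2 * |(c.a2 : ℝ)| := by positivity
  have hε0 : 0 ≤ ε := by
    rw [hε]
    exact mul_nonneg hA (div_nonneg e1 hpi.le)
  have hε1 : ε ≤ (c.c1 + 2 * |(c.a2 : ℝ)|) / 10 ^ 7 := by
    rw [hε, div_eq_mul_one_div (_ + _ : ℝ) (10 ^ 7 : ℝ)]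
    exact mul_le_mul_of_nonneg_left e2 hA
  have hεπ : ε * π = (c.c1 + 2 * |(c.a2 : ℝ)|) * (p - π) := by
    rw [hε]
    field_simp
  obtain ⟨k, hk⟩ : ∃ k : ℝ, k = c.c1 + ε := ⟨_, rfl⟩
  -- the null Lagrangian
  have n1 := (isNull_har (β := fun _ => (1:ℝ)) continuous_const 2 le_rfl).const_mul (c.a2 : ℝ)
  have n2 := (isNull_har (β := fun _ => (1:ℝ)) continuous_const 1 (by norm_num)).const_mul k
  have hN := (((isNull_NT w).add n1).add n2).const_mul (1 / (c.M : ℝ))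
  have hre2 : ∀ X : ℂ, ((X - 1) ^ 2).re = (X.re - 1) ^ 2 - X.im ^ 2 := by
    intro X
    rw [pow_two (X - 1), mul_re]
    simp
    ring
  have hre1 : ∀ X : ℂ, ((X - 1) ^ 1).re = X.re - 1 := by
    intro X
    simp
  have hint : ∫ _ in (0:ℝ)..(π / 2), (1:ℝ) = π / 2 := by simp
  obtain ⟨Ecx, Ecy, hEc⟩ := Ecp_c1 (c := c) k π
  obtain ⟨B, hB0, hpt⟩ := o.point hIn hOut
  refine K_one3_d (M := B / c.M) (lam := c.lam / c.M) (k₂ := (c.lam + k) / c.M)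
    (div_nonneg hB0 hM.le) (div_nonneg hlam hM.le) ?_ ?_ hGl (Gq_conj _ _ _ _ _ _ _ _ _ _) hN ?_
    (c1_const 0) (c1_mul (c1_const (1 / (c.M : ℝ))) hEc) ?_ ?_
  · rw [div_le_div_iff_of_pos_right hM, hk]
    linarith
  · rw [div_lt_iff₀ hM, hk]
    linarith
  · intro Z Y hZ η hη
    obtain ⟨l1, l2, a1, a2, a3, a4, h1⟩ := hpt Z Y hZ η hη
    refine ⟨0, l1 / c.M, l2 / c.M, le_rfl, div_nonneg hB0 hM.le, div_nonneg a1 hM.le,
      div_le_div_of_nonneg_right a2 hM.le, div_nonneg a3 hM.le,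
      div_le_div_of_nonneg_right a4 hM.le, ?_⟩
    have e0 : ‖Z - 1‖ ^ 2 = ‖Z‖ ^ 2 - 2 * Z.re + 1 := by
      rw [nq_sq, nq_sq]
      simp
      ring
    rw [e0] at h1
    rw [hre2, hre1]
    refine le_of_mul_le_mul_left (le_trans (le_of_eq ?_) (h1.trans (le_of_eq ?_))) hM
    · field_simp
      ring
    · field_simp
      ring
  · intro X Y hX
    have h1 := KT_conj w X Y k
    rw [hint, hre2, hre1, hre2, hre1]
    simp only [zero_mul, add_zero]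
    linear_combination (1 / (c.M : ℝ)) * h1
  · intro X hX
    refine mul_nonneg (by positivity) ?_
    have h1 : 0 ≤ (Ex.bp c.cen).re ⟨0, 0, 0, 0, 0, X.re - 1, X.im⟩ := by
      apply hCen
      show 0 ≤ -2 * (X.re - 1) - (X.re - 1) ^ 2 - X.im ^ 2
      have h1 : X.re ^ 2 + X.im ^ 2 ≤ 1 := by
        rw [← nq_sq]
        nlinarith [norm_nonneg X]
      linarith
    have h2 : (Ex.bp c.cen).re ⟨0, 0, 0, 0, 0, X.re - 1, X.im⟩ = ev2 (X.re - 1) X.im c.cen := rfl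
    rw [h2, cen_ev w, ← hp] at h1
    have h3 : 0 ≤ c.Ecp c.c1 p X := by
      refine nonneg_of_mul_nonneg_right h1 ?_
      have := pow_pos (Dd_pos c.a X.re X.im) c.K
      positivity
    have h4 : c.Ecp k π X - c.Ecp c.c1 p X = (ε * π - c.c1 * (p - π)) * (1 - X.re) +
        c.a2 * (p - π) * ((X.re - 1) ^ 2 - X.im ^ 2) := by
      unfold Ecp
      rw [hk]
      ring
    rw [hεπ] at h4
    have h5 := disc_im hX
    have h6 : -(|(c.a2 : ℝ)| * (2 * (1 - X.re))) ≤ c.a2 * ((X.re - 1) ^ 2 - X.im ^ 2) := by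
      have h7 : |(c.a2 : ℝ) * ((X.re - 1) ^ 2 - X.im ^ 2)| ≤ |(c.a2 : ℝ)| * (2 * (1 - X.re)) := by
        rw [abs_mul]
        exact mul_le_mul_of_nonneg_left h5 (abs_nonneg _)
      exact (abs_le.1 h7).1
    have h8 := mul_le_mul_of_nonneg_left h6 e1
    linarith

/-- **the integral means from the data** -/
theorem Ok2.moments (o : c.Ok2 ka kb p0 p1 p2 la lb q0 q1 q2 Ln Ld Ln' Ld')
    (hIn : Side c.K Ln Ld c.tIn) (hOut : Side c.K Ln' Ld' c.tOut)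
    (hCen : ∀ x : Pnt, 0 ≤ -2 * x.f - x.f ^ 2 - x.g ^ 2 → 0 ≤ (Ex.bp c.cen).re x)
    {κ : ℝ} (h1 : 1 ≤ κ)
    (hκ : (c.lam : ℝ) + c.c1 + (c.c1 + 2 * |(c.a2 : ℝ)|) / 10 ^ 7 < 2 * κ * c.M) :
    ∀ p : ℝ, κ ≤ p → ∃ C : ℝ, ∀ ψ : ℂ → ℂ, DifferentiableOn ℂ ψ {z : ℂ | 1 < ‖z‖} →
      InjOn ψ {z : ℂ | 1 < ‖z‖} →
      (∃ b : ℂ, Filter.Tendsto (fun z => ψ z - z) (Bornology.cobounded ℂ) (nhds b)) →
      ∀ R : ℝ, 1 < R →
      (2 * π)⁻¹ * (∫ θ in (0:ℝ)..(2 * π), ‖deriv ψ (R * Complex.exp (θ * I))‖ ^ (-p)) ≤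
        C * (R ^ 2 / (R ^ 2 - 1)) ^ (p - 1) := by
  have k1 := o.K_one hIn hOut hCen hκ
  obtain ⟨CG, hGl⟩ := Gq_glip o.inn o.out
  have k2 := Pool.Agent.Helper61.EK.gibbs_of (κ := κ) (G := (Gq ka kb p0 p1 p2 la lb q0 q1 q2))
    Pool.Agent.Helper5.EK.entropy
    (fun hw _ h1 h2 => Pool.Agent.Helper26.EK.Kf_cont hw h1 h2)
    (fun h => Pool.Agent.Helper70.EK.wf_cont hGl h) k1
  exact Pool.Agent.Helper32.EK.final (Pool.Agent.Helper28.EK.moment_Ext h1 k2)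

end Dat

end Pool.Agent.Helper69.EK6

end

section


/-!
The same checker with the weights `S, C, P, R : 1`.
-/

set_option autoImplicit false

namespace Pool.Sos71

def Mon.InW (m : Mon) (B : Bd) : Prop :=
  m.a ≤ B.a ∧ m.b ≤ B.b ∧ m.d ≤ B.d ∧ m.e ≤ B.e ∧ m.f ≤ B.f ∧ m.g ≤ B.g ∧
    m.b + m.c + m.d + m.e = B.w


lemma Mon.InW.add {m n : Mon} {B D : Bd} (h : m.InW B) (h' : n.InW D) : (m.add n).InW (B.add D) := by
  obtain ⟨h1, h2, h3, h4, h5, h6, h7⟩ := h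
  obtain ⟨g1, g2, g3, g4, g5, g6, g7⟩ := h'
  refine ⟨Nat.add_le_add h1 g1, Nat.add_le_add h2 g2, Nat.add_le_add h3 g3,
    Nat.add_le_add h4 g4, Nat.add_le_add h5 g5, Nat.add_le_add h6 g6, ?_⟩
  simp only [Mon.add, Bd.add]; omega

lemma Mon.InW.le {m : Mon} {B D : Bd} (h : m.InW B) (h' : B.le D) : m.InW D := by
  obtain ⟨h1, h2, h3, h4, h5, h6, h7⟩ := h
  obtain ⟨g1, g2, g3, g4, g5, g6, g7⟩ := h'
  exact ⟨h1.trans g1, h2.trans g2, h3.trans g3, h4.trans g4, h5.trans g5, h6.trans g6,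
    h7.trans g7⟩


lemma code_injW {r : Rad} {B : Bd} (hr : r.ok B) {m n : Mon} (hm : m.InW B) (hn : n.InW B)
    (h : m.code r = n.code r) : m = n := by
  obtain ⟨r1, r2, r3, r4, r5⟩ := hr
  obtain ⟨a1, a2, a3, a4, a5, a6, a7⟩ := hm
  obtain ⟨b1, b2, b3, b4, b5, b6, b7⟩ := hn
  simp only [Mon.code] at h
  have g1 : r.rg * m.g ≤ r.rg * B.g := Nat.mul_le_mul_left _ a6
  have g2 : r.rg * n.g ≤ r.rg * B.g := Nat.mul_le_mul_left _ b6
  have g3 : r.ra * m.a ≤ r.ra * B.a := Nat.mul_le_mul_left _ a1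
  have g4 : r.ra * n.a ≤ r.ra * B.a := Nat.mul_le_mul_left _ b1
  have g5 : r.rb * m.b ≤ r.rb * B.b := Nat.mul_le_mul_left _ a2
  have g6 : r.rb * n.b ≤ r.rb * B.b := Nat.mul_le_mul_left _ b2
  have g7 : r.rd * m.d ≤ r.rd * B.d := Nat.mul_le_mul_left _ a3
  have g8 : r.rd * n.d ≤ r.rd * B.d := Nat.mul_le_mul_left _ b3
  obtain ⟨e5, h5⟩ := dig_unique (r := r.re) (by omega) (by omega) h
  obtain ⟨e4, h4⟩ := dig_unique (r := r.rd) (by omega) (by omega) h5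
  obtain ⟨e3, h3⟩ := dig_unique (r := r.rb) (by omega) (by omega) h4
  obtain ⟨e2, h2⟩ := dig_unique (r := r.ra) (by omega) (by omega) h3
  obtain ⟨e1, h1⟩ := dig_unique (r := r.rg) (by omega) (by omega) h2
  have e6 : m.c = n.c := by omega
  cases m; cases n
  simp_all


/-- `v` and `φ` are the values of one polynomial in the box `N` with norm at most `c` -/
def RepW (w : ℤ) (r : Rad) (x : Pnt) (N : Bd) (c : ℕ) (v : ℤ) (φ : ℝ) : Prop :=
  ∃ P : Pol, (∀ t ∈ P, t.2.InW N) ∧ P.nm ≤ c ∧ P.ev w r = v ∧ P.re x = φ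

section RepW
variable {w : ℤ} {r : Rad} {x : Pnt}

lemma RepW.zero (N : Bd) (c : ℕ) : RepW w r x N c 0 0 :=
  ⟨[], by simp, by simp [Pol.nm], by simp [Pol.ev], by simp [Pol.re]⟩

lemma RepW.mon (z : ℤ) {m : Mon} {N : Bd} (h : m.InW N) :
    RepW w r x N z.natAbs (z * w ^ m.code r) (z * m.val x) :=
  ⟨[(z, m)], by simpa using h, by simp [Pol.nm], by simp [Pol.ev], by simp [Pol.re]⟩

lemma RepW.add {N : Bd} {c c' : ℕ} {v v' : ℤ} {φ φ' : ℝ} (h : RepW w r x N c v φ)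
    (h' : RepW w r x N c' v' φ') : RepW w r x N (c + c') (v + v') (φ + φ') := by
  obtain ⟨P, h1, h2, rfl, rfl⟩ := h
  obtain ⟨Q, g1, g2, rfl, rfl⟩ := h'
  refine ⟨P ++ Q, ?_, ?_, ?_, ?_⟩
  · intro t ht
    rcases List.mem_append.1 ht with h | h
    · exact h1 t h
    · exact g1 t h
  · unfold Pol.nm at *
    rw [List.map_append, List.sum_append]; exact Nat.add_le_add h2 g2
  · unfold Pol.ev; rw [List.map_append, List.sum_append]
  · unfold Pol.re; rw [List.map_append, List.sum_append]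

lemma RepW.mul {N N' : Bd} {c c' : ℕ} {v v' : ℤ} {φ φ' : ℝ} (h : RepW w r x N c v φ)
    (h' : RepW w r x N' c' v' φ') : RepW w r x (N.add N') (c * c') (v * v') (φ * φ') := by
  obtain ⟨P, h1, h2, rfl, rfl⟩ := h
  obtain ⟨Q, g1, g2, rfl, rfl⟩ := h'
  refine ⟨P.mul Q, ?_, ?_, Pol.ev_mul _ _ _ _, Pol.re_mul _ _ _⟩
  · intro t ht
    obtain ⟨s, hs, ht⟩ := List.mem_flatMap.1 ht
    obtain ⟨q, hq, rfl⟩ := List.mem_map.1 ht
    exact (h1 s hs).add (g1 q hq)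
  · rw [Pol.nm_mul]; exact Nat.mul_le_mul h2 g2

lemma RepW.smul {N : Bd} {c : ℕ} {v : ℤ} {φ : ℝ} (z : ℤ) (h : RepW w r x N c v φ) :
    RepW w r x N (z.natAbs * c) (z * v) (z * φ) := by
  obtain ⟨P, h1, h2, rfl, rfl⟩ := h
  refine ⟨P.map fun t => (z * t.1, t.2), ?_, ?_, ?_, ?_⟩
  · intro t ht
    obtain ⟨s, hs, rfl⟩ := List.mem_map.1 ht
    exact h1 s hs
  · unfold Pol.nm at *
    rw [List.map_map]
    have : (P.map ((fun t : ℤ × Mon => t.1.natAbs) ∘ fun t => (z * t.1, t.2))).sum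
        = z.natAbs * (P.map (fun t => t.1.natAbs)).sum := by
      rw [← List.sum_map_mul_left]
      congr 1
      refine List.map_congr_left (fun t _ => ?_)
      simp [Int.natAbs_mul]
    rw [this]; exact Nat.mul_le_mul_left _ h2
  · unfold Pol.ev
    rw [List.map_map, ← List.sum_map_mul_left]
    congr 1
    refine List.map_congr_left (fun t _ => ?_)
    simp only [Function.comp]; ring
  · unfold Pol.re
    rw [List.map_map, ← List.sum_map_mul_left]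
    congr 1
    refine List.map_congr_left (fun t _ => ?_)
    simp only [Function.comp]; push_cast; ring

lemma RepW.mono {N : Bd} {c c' : ℕ} {v : ℤ} {φ : ℝ} (h : RepW w r x N c v φ) (hc : c ≤ c') :
    RepW w r x N c' v φ := by
  obtain ⟨P, h1, h2, h3, h4⟩ := h
  exact ⟨P, h1, h2.trans hc, h3, h4⟩

lemma RepW.le {N N' : Bd} {c : ℕ} {v : ℤ} {φ : ℝ} (h : RepW w r x N c v φ) (hN : N.le N') :
    RepW w r x N' c v φ := by
  obtain ⟨P, h1, h2, h3, h4⟩ := h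
  exact ⟨P, fun t ht => (h1 t ht).le hN, h2, h3, h4⟩

end RepW


/-- the value determines the polynomial -/
theorem RepW.eq_zero {w : ℕ} {r : Rad} {x : Pnt} {N : Bd} {c : ℕ} {φ : ℝ}
    (hr : r.ok N) (h : RepW (w : ℤ) r x N c 0 φ) (hc : c < w) : φ = 0 := by
  classical
  obtain ⟨P, h1, h2, h3, rfl⟩ := h
  have h4 : uni r P = 0 := by
    apply poly_zero (w := w)
    · intro k
      exact lt_of_le_of_lt ((uni_coeff r P k).trans h2) hc
    · rw [uni_eval]; exact h3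
  set F : ℕ → ℝ := fun k => if h : ∃ m : Mon, m.InW N ∧ m.code r = k then h.choose.val x else 0
    with hF
  have h5 : ∀ t ∈ P, t.2.val x = F (t.2.code r) := by
    intro t ht
    have h6 : ∃ m : Mon, m.InW N ∧ m.code r = t.2.code r := ⟨t.2, h1 t ht, rfl⟩
    have h7 := h6.choose_spec
    rw [hF]
    simp only
    rw [dif_pos h6, code_injW hr h7.1 (h1 t ht) h7.2]
  have h8 : P.re x = (P.map fun t => (t.1 : ℝ) * F (t.2.code r)).sum := by
    unfold Pol.re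
    congr 1
    refine List.map_congr_left (fun t ht => ?_)
    rw [h5 t ht]
  rw [h8, uni_sum, h4, Polynomial.sum_zero_index]


/-- box of the exponents -/
def Ex.bdW : Ex → Bd
  | lit _ => ⟨0, 0, 0, 0, 0, 0, 0⟩
  | va i => match i with
    | 0 => ⟨1, 0, 0, 0, 0, 0, 0⟩
    | 1 => ⟨0, 1, 0, 0, 0, 0, 1⟩
    | 2 => ⟨0, 0, 0, 0, 0, 0, 1⟩
    | 3 => ⟨0, 0, 1, 0, 0, 0, 1⟩
    | 4 => ⟨0, 0, 0, 1, 0, 0, 1⟩
    | 5 => ⟨0, 0, 0, 0, 1, 0, 0⟩
    | _ => ⟨0, 0, 0, 0, 0, 1, 0⟩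
  | add p q => p.bdW.max q.bdW
  | mul p q => p.bdW.add q.bdW
  | sc _ p => p.bdW
  | pow p n => p.bdW.smul n
  | bp P => ⟨0, 0, 0, 0, dgx P, dgy P, 0⟩

/-- homogeneity -/
def Ex.okW : Ex → Bool
  | lit _ => true
  | va _ => true
  | add p q => p.okW && q.okW && Nat.beq p.bdW.w q.bdW.w
  | mul p q => p.okW && q.okW
  | sc _ p => p.okW
  | pow p _ => p.okW
  | bp _ => true


lemma RepW.of_mon {w : ℤ} {r : Rad} {x : Pnt} {m : Mon} {N : Bd} (h : m.InW N) {v : ℤ} {φ : ℝ}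
    (hv : v = w ^ m.code r) (hφ : φ = m.val x) : RepW w r x N 1 v φ := by
  have := RepW.mon (w := w) (r := r) (x := x) 1 h
  rw [hv, hφ]
  simpa using this

lemma RepW.b1 {w : ℤ} {r : Rad} {x : Pnt} (l : List ℤ) :
    RepW w r x ⟨0, 0, 0, 0, 0, dg1 l, 0⟩ (nm1 l) (iev1 (w ^ r.rg) l) (Pool.EK71.ev1 x.g l) := by
  induction l with
  | nil => exact RepW.zero _ _
  | cons a l ih =>
    have h0 : (⟨0, 0, 0, 0, 0, 0, 0⟩ : Mon).InW ⟨0, 0, 0, 0, 0, dg1 (a :: l), 0⟩ := by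
      simp [Mon.InW]
    have h1 := RepW.mon (w := w) (r := r) (x := x) a h0
    simp only [Mon.code, Mon.val, mul_zero, add_zero, pow_zero, mul_one] at h1
    cases l with
    | nil =>
      have h2 := h1.add (RepW.zero (w := w) (r := r) (x := x) ⟨0, 0, 0, 0, 0, dg1 [a], 0⟩ 0)
      have e1 : iev1 (w ^ r.rg) [a] = a + 0 := by simp [iev1]
      have e2 : Pool.EK71.ev1 x.g [a] = a + 0 := by simp [Pool.EK71.ev1]
      rw [e1, e2]
      exact h2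
    | cons b l =>
      have h2 := RepW.of_mon (w := w) (r := r) (x := x) (m := ⟨0, 0, 0, 0, 0, 0, 1⟩)
        (N := ⟨0, 0, 0, 0, 0, 1, 0⟩) (by simp [Mon.InW]) (v := w ^ r.rg) (φ := x.g)
        (by simp [Mon.code]) (by simp [Mon.val])
      have h3 := h1.add ((h2.mul ih).le (N' := ⟨0, 0, 0, 0, 0, dg1 (a :: b :: l), 0⟩) (by
        refine ⟨by simp [Bd.add], by simp [Bd.add], by simp [Bd.add], by simp [Bd.add],
          by simp [Bd.add], ?_, by simp [Bd.add]⟩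
        show 1 + dg1 (b :: l) ≤ Nat.succ (dg1 (b :: l))
        omega))
      rw [one_mul] at h3
      exact h3

lemma RepW.b2 {w : ℤ} {r : Rad} {x : Pnt} (P : List (List ℤ)) :
    RepW w r x ⟨0, 0, 0, 0, dgx P, dgy P, 0⟩ (nm2 P) (iev2 w (w ^ r.rg) P)
      (Pool.EK71.ev2 x.f x.g P) := by
  induction P with
  | nil => exact RepW.zero _ _
  | cons a l ih =>
    have h1 := (RepW.b1 (w := w) (r := r) (x := x) a).le
      (N' := ⟨0, 0, 0, 0, dgx (a :: l), dgy (a :: l), 0⟩)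
      ⟨le_rfl, le_rfl, le_rfl, le_rfl, Nat.zero_le _, Nat.le_max_left _ _, rfl⟩
    cases l with
    | nil =>
      have h2 := h1.add (RepW.zero (w := w) (r := r) (x := x) ⟨0, 0, 0, 0, dgx [a], dgy [a], 0⟩ 0)
      have e1 : iev2 w (w ^ r.rg) [a] = iev1 (w ^ r.rg) a + 0 := by simp [iev2]
      have e2 : Pool.EK71.ev2 x.f x.g [a] = Pool.EK71.ev1 x.g a + 0 := by simp [Pool.EK71.ev2]
      rw [e1, e2]
      exact h2
    | cons b l =>
      have h2 := RepW.of_mon (w := w) (r := r) (x := x) (m := ⟨0, 0, 0, 0, 0, 1, 0⟩)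
        (N := ⟨0, 0, 0, 0, 1, 0, 0⟩) (by simp [Mon.InW]) (v := w) (φ := x.f)
        (by simp [Mon.code]) (by simp [Mon.val])
      have h3 := h1.add ((h2.mul ih).le
        (N' := ⟨0, 0, 0, 0, dgx (a :: b :: l), dgy (a :: b :: l), 0⟩) (by
        refine ⟨by simp [Bd.add], by simp [Bd.add], by simp [Bd.add], by simp [Bd.add],
          ?_, ?_, by simp [Bd.add]⟩
        · show 1 + dgx (b :: l) ≤ Nat.succ (dgx (b :: l))
          omega
        · show 0 + dgy (b :: l) ≤ Nat.max (dg1 a) (dgy (b :: l))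
          rw [Nat.zero_add]
          exact Nat.le_max_right _ _))
      rw [one_mul] at h3
      exact h3

lemma Ex.repW {w : ℤ} {r : Rad} {x : Pnt} (e : Ex) (h : e.okW = true) :
    RepW w r x e.bdW e.nm (e.ev (r.pt w)) (e.re x) := by
  induction e with
  | lit z =>
    have h1 : (⟨0, 0, 0, 0, 0, 0, 0⟩ : Mon).InW ⟨0, 0, 0, 0, 0, 0, 0⟩ := by simp [Mon.InW]
    have := RepW.mon (w := w) (r := r) (x := x) z h1
    simpa [Mon.code, Mon.val, Ex.ev, Ex.re, Ex.nm, Ex.bdW] using this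
  | va i =>
    match i with
    | 0 => exact RepW.of_mon (m := ⟨1, 0, 0, 0, 0, 0, 0⟩) (by simp [Mon.InW, Ex.bdW])
            (by simp [Ex.ev, Rad.pt, Mon.code]) (by simp [Ex.re, Mon.val])
    | 1 => exact RepW.of_mon (m := ⟨0, 1, 0, 0, 0, 0, 0⟩) (by simp [Mon.InW, Ex.bdW])
            (by simp [Ex.ev, Rad.pt, Mon.code]) (by simp [Ex.re, Mon.val])
    | 2 => exact RepW.of_mon (m := ⟨0, 0, 1, 0, 0, 0, 0⟩) (by simp [Mon.InW, Ex.bdW])
            (by simp [Ex.ev, Mon.code]) (by simp [Ex.re, Mon.val])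
    | 3 => exact RepW.of_mon (m := ⟨0, 0, 0, 1, 0, 0, 0⟩) (by simp [Mon.InW, Ex.bdW])
            (by simp [Ex.ev, Rad.pt, Mon.code]) (by simp [Ex.re, Mon.val])
    | 4 => exact RepW.of_mon (m := ⟨0, 0, 0, 0, 1, 0, 0⟩) (by simp [Mon.InW, Ex.bdW])
            (by simp [Ex.ev, Rad.pt, Mon.code]) (by simp [Ex.re, Mon.val])
    | 5 => exact RepW.of_mon (m := ⟨0, 0, 0, 0, 0, 1, 0⟩) (by simp [Mon.InW, Ex.bdW])
            (by simp [Ex.ev, Rad.pt, Mon.code]) (by simp [Ex.re, Mon.val])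
    | (k + 6) =>
      exact RepW.of_mon (m := ⟨0, 0, 0, 0, 0, 0, 1⟩) (by simp [Mon.InW, Ex.bdW])
        (by simp [Ex.ev, Rad.pt, Mon.code]) (by simp [Ex.re, Mon.val])
  | add p q ihp ihq =>
    simp only [Ex.okW, Bool.and_eq_true] at h
    obtain ⟨⟨h1, h2⟩, h3⟩ := h
    have h3 := Nat.eq_of_beq_eq_true h3
    exact ((ihp h1).le (Bd.le_max_left _ _)).add ((ihq h2).le (Bd.le_max_right _ _ h3))
  | mul p q ihp ihq =>
    simp only [Ex.okW, Bool.and_eq_true] at h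
    exact (ihp h.1).mul (ihq h.2)
  | sc z p ih =>
    simp only [Ex.okW] at h
    exact (ih h).smul z
  | pow p n ih =>
    simp only [Ex.okW] at h
    have ih := ih h
    show RepW w r x (p.bdW.smul n) (npow p.nm n) (ipow (p.ev (r.pt w)) n) (p.re x ^ n)
    induction n with
    | zero =>
      have h1 : (⟨0, 0, 0, 0, 0, 0, 0⟩ : Mon).InW (p.bdW.smul 0) := by simp [Mon.InW, Bd.smul]
      have := RepW.of_mon (w := w) (r := r) (x := x) h1 (v := 1) (φ := 1) (by simp [Mon.code])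
        (by simp [Mon.val])
      simpa [npow, ipow] using this
    | succ n ihn =>
      have h2 := ih.mul ihn
      have e1 : p.bdW.add (p.bdW.smul n) = p.bdW.smul (n + 1) := by
        simp only [Bd.add, Bd.smul]
        congr 1 <;> ring
      rw [e1] at h2
      rw [pow_succ, mul_comm (p.re x ^ n)]
      exact h2
  | bp P => exact RepW.b2 P


section rep
variable {k : ℕ} {r : Rad} {N : Bd} {nf : ℕ}

/-- the shifts are right, the monomials are in the box, the norm is at most `nf` -/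
def Itm.OkW (k : ℕ) (r : Rad) (N : Bd) (nf : ℕ) (i : Itm) : Prop :=
  (i.m.add i.f.m1).InW N ∧ (i.m.add i.f.m2).InW N ∧ i.a = k * i.m.code r ∧
    i.f.b1 = k * i.f.m1.code r ∧ i.f.b2 = k * i.f.m2.code r ∧ i.f.c + i.f.d ≤ nf ∧
    (i.f.s = true → i.f.d <<< i.f.b2 ≤ i.f.c <<< i.f.b1)

def GdW (k : ℕ) (r : Rad) (N : Bd) (nf : ℕ) : List Itm → Prop
  | [] => True
  | i :: it => i.OkW k r N nf ∧ i.f.V = eb (i :: it) ∧ GdW k r N nf it


lemma lin_eqW {B : ℕ} (it : List Itm) (h : GdW k r N nf it) (p acc : ℕ) :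
    lin B it p acc = acc * eb it + sd B it p := by
  induction it generalizing p acc with
  | nil => simp [lin, eb, sd]
  | cons i it ih =>
    obtain ⟨_, h3, h4⟩ := h
    rw [lin, sd, Itm.v_eq, h3]
    rw [eb] at h3 ⊢
    rcases ho : i.e with _ | _
    · simp only [ho] at h3 ⊢
      rw [ih h4]
      show (acc + (p % B) <<< i.a) * eb it + sd B it (p / B) = _
      rw [Nat.shiftLeft_eq]; ring
    · simp only [ho] at h3 ⊢
      rw [ih h4, Fac.ap_eq]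
      show (acc + (p % B) <<< i.a) * i.f.V + (0 * eb it + sd B it (p / B)) = _
      rw [Nat.shiftLeft_eq]; ring


lemma rep_itemW {i : Itm} (h : i.OkW k r N nf) {x : Pnt} :
    RepW ((2 ^ k : ℕ) : ℤ) r x N nf (i.v : ℤ) (i.re x) := by
  obtain ⟨h1, h2, h3, h4, h5, h6, h7⟩ := h
  have r1 := RepW.mon (w := ((2 ^ k : ℕ) : ℤ)) (r := r) (x := x) (i.f.c : ℤ) h1
  rw [two_pow_code, Mon.code_add, Mon.val_add] at r1
  unfold Itm.re Fac.re
  rw [Itm.v_eq]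
  unfold Fac.V Fac.ap
  rcases hs : i.f.s with _ | _
  · have r2 := RepW.mon (w := ((2 ^ k : ℕ) : ℤ)) (r := r) (x := x) (i.f.d : ℤ) h2
    rw [two_pow_code, Mon.code_add, Mon.val_add] at r2
    have r3 := (r1.add r2).mono (c' := nf) (by simpa using h6)
    have e1 : (i.f.c : ℤ) * ((2 ^ (k * (i.m.code r + i.f.m1.code r)) : ℕ) : ℤ)
        + (i.f.d : ℤ) * ((2 ^ (k * (i.m.code r + i.f.m2.code r)) : ℕ) : ℤ) =
        ((2 ^ i.a * (Nat.add (Nat.shiftLeft (Nat.mul i.f.c 1) i.f.b1)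
          (Nat.shiftLeft (Nat.mul i.f.d 1) i.f.b2)) : ℕ) : ℤ) := by
      show _ = ((2 ^ i.a * ((i.f.c * 1) <<< i.f.b1 + (i.f.d * 1) <<< i.f.b2) : ℕ) : ℤ)
      rw [Nat.shiftLeft_eq, Nat.shiftLeft_eq, h3, h4, h5, Nat.mul_add k, Nat.mul_add k, pow_add,
        pow_add]
      push_cast; ring
    rw [e1] at r3
    have e2 : ((i.f.c : ℤ) : ℝ) * (i.m.val x * i.f.m1.val x)
        + ((i.f.d : ℤ) : ℝ) * (i.m.val x * i.f.m2.val x) =
        i.m.val x * (i.f.c * i.f.m1.val x + i.f.d * i.f.m2.val x) := by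
      push_cast; ring
    rw [e2] at r3
    exact r3
  · have r2 := RepW.mon (w := ((2 ^ k : ℕ) : ℤ)) (r := r) (x := x) (-(i.f.d : ℤ)) h2
    rw [two_pow_code, Mon.code_add, Mon.val_add] at r2
    have r3 := (r1.add r2).mono (c' := nf) (by simpa using h6)
    have h8 := h7 hs
    have e1 : (i.f.c : ℤ) * ((2 ^ (k * (i.m.code r + i.f.m1.code r)) : ℕ) : ℤ)
        + -(i.f.d : ℤ) * ((2 ^ (k * (i.m.code r + i.f.m2.code r)) : ℕ) : ℤ) =
        ((2 ^ i.a * (Nat.sub (Nat.shiftLeft (Nat.mul i.f.c 1) i.f.b1)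
          (Nat.shiftLeft (Nat.mul i.f.d 1) i.f.b2)) : ℕ) : ℤ) := by
      show _ = ((2 ^ i.a * ((i.f.c * 1) <<< i.f.b1 - (i.f.d * 1) <<< i.f.b2) : ℕ) : ℤ)
      rw [Nat.cast_mul, Nat.cast_sub (by rw [mul_one, mul_one]; exact h8)]
      rw [Nat.shiftLeft_eq, Nat.shiftLeft_eq, h3, h4, h5, Nat.mul_add k, Nat.mul_add k, pow_add,
        pow_add]
      push_cast; ring
    rw [e1] at r3
    have e2 : ((i.f.c : ℤ) : ℝ) * (i.m.val x * i.f.m1.val x)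
        + ((-(i.f.d : ℤ) : ℤ) : ℝ) * (i.m.val x * i.f.m2.val x) =
        i.m.val x * (i.f.c * i.f.m1.val x - i.f.d * i.f.m2.val x) := by
      push_cast; ring
    rw [e2] at r3
    exact r3

lemma rep_linW {B off : ℕ} (hB : B = 2 * off) (h0 : 0 < off) {x : Pnt} (it : List Itm)
    (h : GdW k r N nf it) (p : ℕ) :
    RepW ((2 ^ k : ℕ) : ℤ) r x N (it.length * (off * nf)) ((sd B it p : ℤ) - off * (tot it : ℤ))
      (rl B off x it p) := by
  induction it generalizing p with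
  | nil =>
    have := RepW.zero (w := ((2 ^ k : ℕ) : ℤ)) (r := r) (x := x) N 0
    simpa [sd, tot, rl] using this
  | cons i it ih =>
    have h1 := rep_itemW h.1 (x := x)
    have h2 := (h1.smul (((p % B : ℕ) : ℤ) - off)).add (ih h.2.2 (p / B))
    have h3 : (((p % B : ℕ) : ℤ) - off).natAbs ≤ off := by
      have : p % B < B := Nat.mod_lt _ (by omega)
      omega
    have e1 : (((p % B : ℕ) : ℤ) - off) * (i.v : ℤ)
        + ((sd B it (p / B) : ℤ) - off * (tot it : ℤ)) =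
        ((sd B (i :: it) p : ℕ) : ℤ) - off * ((tot (i :: it) : ℕ) : ℤ) := by
      have e2 : tot (i :: it) = i.v + tot it := rfl
      rw [sd, e2]
      generalize p % B = d
      push_cast; ring
    have e3 : (((((p % B : ℕ) : ℤ) - off : ℤ)) : ℝ) * i.re x + rl B off x it (p / B) =
        rl B off x (i :: it) p := by
      rw [rl]
      generalize p % B = d
      push_cast; ring
    rw [e1, e3] at h2
    refine h2.mono ?_
    rw [List.length_cons]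
    nlinarith [Nat.mul_le_mul_right nf h3]


lemma rep_sqsW {B off : ℕ} (hB : B = 2 * off) (h0 : 0 < off) {x : Pnt} (it : List Itm)
    (h : GdW k r N nf it) (Ls : List ℕ) {n : ℕ} (hn : it.length ≤ n) :
    RepW ((2 ^ k : ℕ) : ℤ) r x (N.add N) (Ls.length * ((n * (off * nf)) * (n * (off * nf))))
      ((sqs B off it Ls (tot it) : ℕ) : ℤ) (rsq B off x it Ls) := by
  induction it generalizing Ls with
  | nil => exact (RepW.zero _ _)
  | cons i it ih =>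
    cases Ls with
    | nil => exact (RepW.zero _ _)
    | cons L Ls =>
      have h1 := rep_linW hB h0 (x := x) (i :: it) h L
      have h2 := (h1.mono (Nat.mul_le_mul_right (off * nf) hn))
      have h3 := (h2.mul h2).add (ih h.2.2 Ls ((Nat.le_succ _).trans hn))
      have e1 : ((sqs B off (i :: it) (L :: Ls) (tot (i :: it)) : ℕ) : ℤ) =
          ((sd B (i :: it) L : ℤ) - off * (tot (i :: it) : ℤ))
            * ((sd B (i :: it) L : ℤ) - off * (tot (i :: it) : ℤ))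
          + ((sqs B off it Ls (tot it) : ℕ) : ℤ) := by
        rw [sqs, tot_sub, lin_eqW (i :: it) h, zero_mul, zero_add]
        show ((sqd (sd B (i :: it) L) (off * tot (i :: it)) + sqs B off it Ls (tot it) : ℕ) : ℤ) = _
        push_cast
        rw [sqd_eq]
        push_cast; ring
      have e2 : rl B off x (i :: it) L * rl B off x (i :: it) L + rsq B off x it Ls =
          rsq B off x (i :: it) (L :: Ls) := by
        rw [rsq]; ring
      rw [← e1, e2] at h3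
      refine h3.mono (le_of_eq ?_)
      rw [List.length_cons]; ring

lemma rep_exW {B off : ℕ} (hB : B = 2 * off) (h0 : 0 < off) {x : Pnt} (it : List Itm)
    (h : GdW k r N nf it) (Es : List ℕ) {n : ℕ} (hn : it.length ≤ n) :
    RepW ((2 ^ k : ℕ) : ℤ) r x (N.add N) (Es.length * ((n * (off * nf)) * nf))
      (((eps B it Es : ℕ) : ℤ) - ((ens off it Es (tot it) : ℕ) : ℤ)) (rex B off x it Es) := by
  induction it generalizing Es with
  | nil => exact (RepW.zero _ _)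
  | cons i it ih =>
    cases Es with
    | nil => exact (RepW.zero _ _)
    | cons E Es =>
      have h1 := rep_linW hB h0 (x := x) (i :: it) h E
      have h2 := (h1.mono (Nat.mul_le_mul_right (off * nf) hn))
      have h3 := (h2.mul (rep_itemW h.1 (x := x))).add (ih h.2.2 Es ((Nat.le_succ _).trans hn))
      have e1 : ((eps B (i :: it) (E :: Es) : ℕ) : ℤ)
            - ((ens off (i :: it) (E :: Es) (tot (i :: it)) : ℕ) : ℤ) =
          ((sd B (i :: it) E : ℤ) - off * (tot (i :: it) : ℤ)) * (i.v : ℤ)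
          + (((eps B it Es : ℕ) : ℤ) - ((ens off it Es (tot it) : ℕ) : ℤ)) := by
        rw [eps, ens, tot_sub, lin_eqW (i :: it) h, zero_mul, zero_add, Itm.ap_eq, Itm.ap_eq]
        show ((sd B (i :: it) E * i.v + eps B it Es : ℕ) : ℤ)
          - (((off * tot (i :: it)) * i.v + ens off it Es (tot it) : ℕ) : ℤ) = _
        push_cast; ring
      have e2 : rl B off x (i :: it) E * i.re x + rex B off x it Es =
          rex B off x (i :: it) (E :: Es) := rfl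
      rw [← e1, e2] at h3
      refine h3.mono (le_of_eq ?_)
      rw [List.length_cons]; ring

lemma rep_z2W {x : Pnt} (it : List Itm) (h : GdW k r N nf it) :
    RepW ((2 ^ k : ℕ) : ℤ) r x (N.add N) (it.length * (nf * nf)) ((z2 it : ℕ) : ℤ)
      (rz2 x it) := by
  induction it with
  | nil => exact (RepW.zero _ _)
  | cons i it ih =>
    have h1 := rep_itemW h.1 (x := x)
    have h2 := (h1.mul h1).add (ih h.2.2)
    have e1 : ((z2 (i :: it) : ℕ) : ℤ) = (i.v : ℤ) * (i.v : ℤ) + ((z2 it : ℕ) : ℤ) := by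
      rw [z2]
      show ((i.v * i.v + z2 it : ℕ) : ℤ) = _
      push_cast; ring
    have e2 : i.re x * i.re x + rz2 x it = rz2 x (i :: it) := by rw [rz2]; ring
    rw [← e1, e2] at h2
    refine h2.mono (le_of_eq ?_)
    rw [List.length_cons]; ring

end rep


def Mon.inbW (m : Mon) (B : Bd) : Bool :=
  Nat.ble m.a B.a && Nat.ble m.b B.b && Nat.ble m.d B.d && Nat.ble m.e B.e &&
    Nat.ble m.f B.f && Nat.ble m.g B.g && Nat.beq (m.b + m.c + m.d + m.e) B.w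

lemma Mon.inbW_sound {m : Mon} {B : Bd} (h : m.inbW B = true) : m.InW B := by
  simp only [Mon.inbW, Bool.and_eq_true, Nat.ble_eq] at h
  obtain ⟨⟨⟨⟨⟨⟨h1, h2⟩, h3⟩, h4⟩, h5⟩, h6⟩, h7⟩ := h
  exact ⟨h1, h2, h3, h4, h5, h6, Nat.eq_of_beq_eq_true h7⟩


def Itm.okbW (k : ℕ) (r : Rad) (N : Bd) (nf : ℕ) (i : Itm) : Bool :=
  (i.m.add i.f.m1).inbW N && (i.m.add i.f.m2).inbW N && Nat.beq i.a (k * i.m.code r) &&
    Nat.beq i.f.b1 (k * i.f.m1.code r) && Nat.beq i.f.b2 (k * i.f.m2.code r) &&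
    Nat.ble (i.f.c + i.f.d) nf &&
    (match i.f.s with
      | false => true
      | true => Nat.ble (Nat.shiftLeft i.f.d i.f.b2) (Nat.shiftLeft i.f.c i.f.b1))

lemma Itm.okbW_sound {k : ℕ} {r : Rad} {N : Bd} {nf : ℕ} {i : Itm} (h : i.okbW k r N nf = true) :
    i.OkW k r N nf := by
  simp only [Itm.okbW, Bool.and_eq_true] at h
  obtain ⟨⟨⟨⟨⟨⟨h1, h2⟩, h3⟩, h4⟩, h5⟩, h6⟩, h7⟩ := h
  refine ⟨Mon.inbW_sound h1, Mon.inbW_sound h2, Nat.eq_of_beq_eq_true h3,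
    Nat.eq_of_beq_eq_true h4, Nat.eq_of_beq_eq_true h5, Nat.le_of_ble_eq_true h6, ?_⟩
  intro hs
  rw [hs] at h7
  exact Nat.le_of_ble_eq_true h7

def gdbW (k : ℕ) (r : Rad) (N : Bd) (nf : ℕ) : List Itm → Bool
  | [] => true
  | i :: it => i.okbW k r N nf && (i.e || nxt i it) && gdbW k r N nf it

lemma gdbW_sound {k : ℕ} {r : Rad} {N : Bd} {nf : ℕ} {it : List Itm}
    (h : gdbW k r N nf it = true) : GdW k r N nf it := by
  induction it with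
  | nil => trivial
  | cons i it ih =>
    simp only [gdbW, Bool.and_eq_true, Bool.or_eq_true] at h
    obtain ⟨⟨h1, h2⟩, h3⟩ := h
    have h4 := ih h3
    refine ⟨Itm.okbW_sound h1, ?_, h4⟩
    rw [eb]
    rcases he : i.e with _ | _
    · rw [he] at h2
      cases it with
      | nil => simp [nxt] at h2
      | cons j it =>
        have h5 : eqF i.f j.f = true := by simpa [nxt] using h2
        show i.f.V = eb (j :: it)
        rw [eqF_sound h5]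
        exact h4.2.1
    · rfl


def Blk.okW (b : Blk) (k : ℕ) (r : Rad) : Bool :=
  gdbW k r b.N b.nf b.its && b.mult.okW && Nat.beq b.B (2 * b.off) && Nat.blt 0 b.off &&
    Nat.beq b.BE (2 * b.offE) && Nat.blt 0 b.offE &&
    (emp b.E || Nat.ble ((len b.its + 1) * b.offE) (2 * b.dl))


lemma Blk.q_nonnegW {b : Blk} {k : ℕ} {r : Rad} (h : b.okW k r = true) (x : Pnt) : 0 ≤ b.q x := by
  simp only [Blk.okW, Bool.and_eq_true, Bool.or_eq_true, Nat.blt_eq, Nat.ble_eq] at h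
  obtain ⟨⟨⟨⟨⟨⟨_, _⟩, _⟩, _⟩, h5⟩, h6⟩, h7⟩ := h
  have h5 := Nat.eq_of_beq_eq_true h5
  have a1 := rsq_nonneg b.B b.off x b.its b.L
  have a2 := rz2_nonneg x b.its
  have a3 : (0 : ℝ) ≤ b.dl := Nat.cast_nonneg _
  rcases h7 with h7 | h7
  · have hE : b.E = [] := by
      cases hE : b.E with
      | nil => rfl
      | cons a l => rw [hE] at h7; simp [emp] at h7
    have : rex b.BE b.offE x b.its b.E = 0 := by
      rw [hE]
      cases b.its <;> rfl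
    rw [Blk.q, this]
    positivity
  · have a4 := rex_abs h5 h6 x b.its b.E
    have a5 : (((len b.its + 1) * b.offE : ℕ) : ℝ) ≤ ((2 * b.dl : ℕ) : ℝ) := by
      exact_mod_cast h7
    rw [len_eq] at a5
    push_cast at a5
    have a6 := neg_abs_le (rex b.BE b.offE x b.its b.E)
    have a7 : ((b.its.length : ℝ) + 1) * b.offE * rz2 x b.its ≤ 2 * b.dl * rz2 x b.its :=
      mul_le_mul_of_nonneg_right a5 a2
    rw [Blk.q]
    nlinarith

lemma Blk.repW {b : Blk} {k : ℕ} {r : Rad} (h : b.okW k r = true) (x : Pnt) :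
    RepW ((2 ^ k : ℕ) : ℤ) r x (b.N.add b.N) b.nmq ((b.vp : ℤ) - (b.vn : ℤ)) (b.q x) := by
  simp only [Blk.okW, Bool.and_eq_true, Nat.blt_eq] at h
  obtain ⟨⟨⟨⟨⟨⟨h1, _⟩, h3⟩, h4⟩, h5⟩, h6⟩, _⟩ := h
  have h3 := Nat.eq_of_beq_eq_true h3
  have h5 := Nat.eq_of_beq_eq_true h5
  have hg := gdbW_sound h1
  have r1 := rep_sqsW h3 h4 (x := x) b.its hg b.L (n := b.its.length) le_rfl
  have r2 := rep_exW h5 h6 (x := x) b.its hg b.E (n := b.its.length) le_rfl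
  have r3 := (rep_z2W (x := x) b.its hg).smul (b.dl : ℤ)
  have r4 := (r1.add r3).add r2
  have e1 : ((sqs b.B b.off b.its b.L (tot b.its) : ℕ) : ℤ) + (b.dl : ℤ) * ((z2 b.its : ℕ) : ℤ)
      + (((eps b.BE b.its b.E : ℕ) : ℤ) - ((ens b.offE b.its b.E (tot b.its) : ℕ) : ℤ)) =
      (b.vp : ℤ) - (b.vn : ℤ) := by
    have e2 : b.vp = sqs b.B b.off b.its b.L (tot b.its)
      + (dz2 b.dl b.its + eps b.BE b.its b.E) := rfl
    rw [e2, Blk.vn, dz2_eq]; push_cast; ring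
  have e3 : rsq b.B b.off x b.its b.L + ((b.dl : ℤ) : ℝ) * rz2 x b.its
      + rex b.BE b.offE x b.its b.E = b.q x := by
    rw [Blk.q]; push_cast; ring
  rw [e1, e3] at r4
  refine r4.mono (le_of_eq ?_)
  rw [Blk.nmq, len_eq, lenN_eq, lenN_eq]
  simp


def bokW (k : ℕ) (r : Rad) (N : Bd) : List Blk → Bool
  | [] => true
  | b :: bs => b.okW k r && (b.mult.bdW.add (b.N.add b.N)).leb N && bokW k r N bs


def Cert.checkW (c : Cert) : Bool :=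
  c.r.okb c.N && c.target.okW && c.target.bdW.leb c.N && Nat.blt 0 c.s && bokW c.k c.r c.N c.blocks &&
    Nat.blt (Nat.add (Nat.mul c.s c.target.nm) (bnm c.blocks)) (Nat.pow 2 c.k) &&
    eqi (Int.mul (Int.ofNat c.s) (c.target.ev (ipt c.k c.r))) (bsum (ipt c.k c.r) c.blocks)

lemma bsum_repW {k : ℕ} {r : Rad} {N : Bd} (bs : List Blk) (h : bokW k r N bs = true) (x : Pnt) :
    RepW ((2 ^ k : ℕ) : ℤ) r x N (bnm bs) (bsum (ipt k r) bs) (brs x bs) := by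
  induction bs with
  | nil => exact RepW.zero _ _
  | cons b bs ih =>
    simp only [bokW, Bool.and_eq_true] at h
    obtain ⟨⟨h1, h2⟩, h3⟩ := h
    have hm : b.mult.okW = true := by
      simp only [Blk.okW, Bool.and_eq_true] at h1
      exact h1.1.1.1.1.1.2
    have r1 := Ex.repW (w := ((2 ^ k : ℕ) : ℤ)) (r := r) (x := x) b.mult hm
    have r2 := ((r1.mul (Blk.repW h1 x)).le (Bd.leb_sound h2)).add (ih h3)
    rw [← ipt_eq] at r2
    exact r2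

theorem Cert.soundW {c : Cert} (h : c.checkW = true) (x : Pnt) :
    (c.s : ℝ) * c.target.re x = brs x c.blocks := by
  simp only [Cert.checkW, Bool.and_eq_true, Nat.blt_eq] at h
  obtain ⟨⟨⟨⟨⟨⟨h1, h2⟩, h3⟩, h4⟩, h5⟩, h6⟩, h7⟩ := h
  have r1 := (Ex.repW (w := ((2 ^ c.k : ℕ) : ℤ)) (r := c.r) (x := x) c.target h2).le
    (Bd.leb_sound h3)
  have r2 := (bsum_repW c.blocks h5 x).smul (-1)
  have r3 := (r1.smul (c.s : ℤ)).add r2
  have e7 := eqi_sound h7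
  have e8 : (c.s : ℤ) * c.target.ev (c.r.pt ((2 ^ c.k : ℕ) : ℤ))
      + -1 * bsum (ipt c.k c.r) c.blocks = 0 := by
    rw [← ipt_eq]
    have : (c.s : ℤ) * c.target.ev (ipt c.k c.r) = bsum (ipt c.k c.r) c.blocks := e7
    rw [this]; ring
  rw [e8] at r3
  have r4 := r3.eq_zero (Rad.okb_sound h1) (by
    have h6' : c.s * c.target.nm + bnm c.blocks < 2 ^ c.k := h6
    simpa using h6')
  push_cast at r4
  linarith

theorem sos_posW {c : Cert} (h : c.checkW = true) (x : Pnt)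
    (hm : ∀ b ∈ c.blocks, 0 ≤ b.mult.re x) : 0 ≤ c.target.re x := by
  have h1 := Cert.soundW h x
  have h2 : 0 ≤ brs x c.blocks := by
    have h5 : bokW c.k c.r c.N c.blocks = true := by
      simp only [Cert.checkW, Bool.and_eq_true] at h
      exact h.1.1.2
    revert h5 hm
    induction c.blocks with
    | nil => intro _ _; exact le_rfl
    | cons b bs ih =>
      intro hm h5
      simp only [bokW, Bool.and_eq_true] at h5
      exact add_nonneg (mul_nonneg (hm b (by simp)) (Blk.q_nonnegW h5.1.1 x))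
        (ih (fun b' hb => hm b' (by simp [hb])) h5.2)
  have h3 : (0 : ℝ) < c.s := by
    simp only [Cert.checkW, Bool.and_eq_true, Nat.blt_eq] at h
    exact_mod_cast h.1.1.1.2
  rw [← h1] at h2
  exact nonneg_of_mul_nonneg_right h2 h3


end Pool.Sos71

end

section

set_option autoImplicit false

/-!
MP_16b0ee, project EK3 (after helper98): a form of a block is bounded by a power of `1 + u² + v²` if its basis has
no factors `P, R` and small degrees in `u, v`.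
-/

namespace Pool.Sos71.Bdd

open Pool.Sos71

/-- no factors `P, R`, and degree at most `K` in `u, v` -/
def mob (K : ℕ) (m : Mon) : Bool := Nat.beq m.d 0 && Nat.beq m.e 0 && Nat.ble (m.f + m.g) K

/-- the basis has no factors `P, R`, and degrees at most `K` in `u, v` -/
def itb (K : ℕ) : List Itm → Bool
  | [] => true
  | i :: it => mob K (i.m.add i.f.m1) && mob K (i.m.add i.f.m2) && itb K it

theorem mob_iff {K : ℕ} {m : Mon} (h : mob K m = true) : m.d = 0 ∧ m.e = 0 ∧ m.f + m.g ≤ K := by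
  simp only [mob, Bool.and_eq_true, Nat.ble_eq] at h
  obtain ⟨⟨h1, h2⟩, h3⟩ := h
  exact ⟨Nat.eq_of_beq_eq_true h1, Nat.eq_of_beq_eq_true h2, h3⟩

/-- points of the domain -/
def Dom0 (L : ℝ) (x : Pnt) : Prop := (0 ≤ x.a ∧ x.a ≤ L) ∧ |x.b| ≤ 1 ∧ |x.c| ≤ 1

/-- the size of a point -/
noncomputable def rho (x : Pnt) : ℝ := Real.sqrt (1 + x.f ^ 2 + x.g ^ 2)

theorem rho_one (x : Pnt) : 1 ≤ rho x := by
  unfold rho
  rw [Real.one_le_sqrt]
  nlinarith [sq_nonneg x.f, sq_nonneg x.g]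

theorem rho_sq (x : Pnt) : rho x ^ 2 = 1 + x.f ^ 2 + x.g ^ 2 :=
  Real.sq_sqrt (by positivity)

theorem f_le (x : Pnt) : |x.f| ≤ rho x := by
  unfold rho
  rw [← Real.sqrt_sq_eq_abs]
  exact Real.sqrt_le_sqrt (by nlinarith [sq_nonneg x.g])

theorem g_le (x : Pnt) : |x.g| ≤ rho x := by
  unfold rho
  rw [← Real.sqrt_sq_eq_abs]
  exact Real.sqrt_le_sqrt (by nlinarith [sq_nonneg x.f])

theorem mon_le {K : ℕ} {L : ℝ} (hL : 1 ≤ L) {x : Pnt} (hx : Dom0 L x) {m : Mon}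
    (hd : m.d = 0) (he : m.e = 0) (h : m.f + m.g ≤ K) : |m.val x| ≤ L ^ m.a * rho x ^ K := by
  obtain ⟨⟨a0, a1⟩, b1, c1⟩ := hx
  have hr := rho_one x
  unfold Mon.val
  rw [hd, he, pow_zero, pow_zero, mul_one, mul_one]
  simp only [abs_mul, abs_pow]
  have e1 : |x.a| ^ m.a ≤ L ^ m.a := by
    rw [abs_of_nonneg a0]
    exact pow_le_pow_left₀ a0 a1 _
  have e2 : |x.b| ^ m.b ≤ 1 := pow_le_one₀ (abs_nonneg _) b1
  have e3 : |x.c| ^ m.c ≤ 1 := pow_le_one₀ (abs_nonneg _) c1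
  have e4 : |x.f| ^ m.f ≤ rho x ^ m.f := pow_le_pow_left₀ (abs_nonneg _) (f_le x) _
  have e5 : |x.g| ^ m.g ≤ rho x ^ m.g := pow_le_pow_left₀ (abs_nonneg _) (g_le x) _
  have hL0 : 0 ≤ L ^ m.a := by positivity
  have hr0 : 0 ≤ rho x := by linarith
  calc |x.a| ^ m.a * |x.b| ^ m.b * |x.c| ^ m.c * |x.f| ^ m.f * |x.g| ^ m.g
      ≤ L ^ m.a * 1 * 1 * rho x ^ m.f * rho x ^ m.g := by gcongr
    _ = L ^ m.a * rho x ^ (m.f + m.g) := by rw [pow_add]; ring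
    _ ≤ L ^ m.a * rho x ^ K := mul_le_mul_of_nonneg_left (pow_le_pow_right₀ hr h) hL0

theorem itb_cons {K : ℕ} {i : Itm} {it : List Itm} (h : itb K (i :: it) = true) :
    mob K (i.m.add i.f.m1) = true ∧ mob K (i.m.add i.f.m2) = true ∧ itb K it = true := by
  simp only [itb, Bool.and_eq_true] at h
  obtain ⟨⟨h1, h2⟩, h3⟩ := h
  exact ⟨h1, h2, h3⟩

/-- the bound of one element -/
noncomputable def cb (L : ℝ) (i : Itm) : ℝ :=
  i.f.c * L ^ (i.m.add i.f.m1).a + i.f.d * L ^ (i.m.add i.f.m2).a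

theorem cb_nonneg {L : ℝ} (hL : 1 ≤ L) (i : Itm) : 0 ≤ cb L i := by unfold cb; positivity

theorem itm_le {K : ℕ} {L : ℝ} (hL : 1 ≤ L) {x : Pnt} (hx : Dom0 L x) {i : Itm}
    (h1 : mob K (i.m.add i.f.m1) = true) (h2 : mob K (i.m.add i.f.m2) = true) :
    |i.re x| ≤ cb L i * rho x ^ K := by
  obtain ⟨a1, a2, a3⟩ := mob_iff h1
  obtain ⟨b1, b2, b3⟩ := mob_iff h2
  have g1 := mon_le hL hx a1 a2 a3
  have g2 := mon_le hL hx b1 b2 b3
  have c1 : (0:ℝ) ≤ i.f.c := Nat.cast_nonneg _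
  have c2 : (0:ℝ) ≤ i.f.d := Nat.cast_nonneg _
  have k1 := mul_le_mul_of_nonneg_left g1 c1
  have k2 := mul_le_mul_of_nonneg_left g2 c2
  have e : ∀ s : ℝ, |s| ≤ 1 → |i.f.c * (i.m.add i.f.m1).val x + s * (i.f.d * (i.m.add i.f.m2).val x)| ≤
      cb L i * rho x ^ K := by
    intro s hs
    refine (abs_add_le _ _).trans ?_
    rw [abs_mul, abs_mul s, abs_mul (i.f.d : ℝ), abs_of_nonneg c1, abs_of_nonneg c2]
    have : |s| * (i.f.d * |(i.m.add i.f.m2).val x|) ≤ i.f.d * |(i.m.add i.f.m2).val x| :=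
      mul_le_of_le_one_left (mul_nonneg c2 (abs_nonneg _)) hs
    unfold cb
    nlinarith
  unfold Itm.re Fac.re
  rcases i.f.s with _ | _
  · have := e 1 (by simp)
    rw [Mon.val_add, Mon.val_add] at this
    refine le_trans (le_of_eq ?_) this
    congr 1
    simp only
    ring
  · have := e (-1) (by simp)
    rw [Mon.val_add, Mon.val_add] at this
    refine le_trans (le_of_eq ?_) this
    congr 1
    simp only
    ring

theorem rab_bd {K : ℕ} {L : ℝ} (hL : 1 ≤ L) (it : List Itm) (h : itb K it = true) :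
    ∃ C : ℝ, 0 ≤ C ∧ ∀ x, Dom0 L x → rab x it ≤ C * rho x ^ K := by
  induction it with
  | nil => exact ⟨0, le_rfl, fun x _ => by simp [rab]⟩
  | cons i it ih =>
    obtain ⟨h1, h2, h4⟩ := itb_cons h
    obtain ⟨C, hC, hC'⟩ := ih h4
    have hcb := cb_nonneg hL i
    refine ⟨cb L i + C, by positivity, fun x hx => ?_⟩
    have := itm_le hL hx h1 h2
    have := hC' x hx
    rw [rab]
    linarith

theorem rz2_bd {K : ℕ} {L : ℝ} (hL : 1 ≤ L) (it : List Itm) (h : itb K it = true) :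
    ∃ C : ℝ, 0 ≤ C ∧ ∀ x, Dom0 L x → rz2 x it ≤ C * (rho x ^ K) ^ 2 := by
  induction it with
  | nil => exact ⟨0, le_rfl, fun x _ => by simp [rz2]⟩
  | cons i it ih =>
    obtain ⟨h1, h2, h4⟩ := itb_cons h
    obtain ⟨C, hC, hC'⟩ := ih h4
    have hcb := cb_nonneg hL i
    refine ⟨(cb L i) ^ 2 + C, by positivity, fun x hx => ?_⟩
    have h5 := itm_le hL hx h1 h2
    have h6 := hC' x hx
    have h7 : i.re x ^ 2 ≤ (cb L i * rho x ^ K) ^ 2 := by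
      rw [← sq_abs]
      exact pow_le_pow_left₀ (abs_nonneg _) h5 2
    rw [rz2]
    nlinarith

theorem rsq_bd {B off : ℕ} (hB : B = 2 * off) (h0 : 0 < off) {K : ℕ} {L : ℝ} (hL : 1 ≤ L)
    (it : List Itm) (h : itb K it = true) (Ls : List ℕ) :
    ∃ C : ℝ, 0 ≤ C ∧ ∀ x, Dom0 L x → rsq B off x it Ls ≤ C * (rho x ^ K) ^ 2 := by
  induction it generalizing Ls with
  | nil => exact ⟨0, le_rfl, fun x _ => by simp [rsq]⟩
  | cons i it ih =>
    cases Ls with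
    | nil => exact ⟨0, le_rfl, fun x _ => by simp [rsq]⟩
    | cons l Ls =>
      obtain ⟨C, hC, hC'⟩ := ih (itb_cons h).2.2 Ls
      obtain ⟨D, hD, hD'⟩ := rab_bd hL (i :: it) h
      refine ⟨(off * D) ^ 2 + C, by positivity, fun x hx => ?_⟩
      have h1 := rl_abs hB h0 x (i :: it) l
      have h2 := hD' x hx
      have h3 := hC' x hx
      have hoff : (0 : ℝ) ≤ off := Nat.cast_nonneg _
      have h4 : |rl B off x (i :: it) l| ≤ off * D * rho x ^ K := by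
        refine h1.trans ?_
        rw [mul_assoc]
        exact mul_le_mul_of_nonneg_left h2 hoff
      have h5 : rl B off x (i :: it) l ^ 2 ≤ (off * D * rho x ^ K) ^ 2 := by
        rw [← sq_abs]
        exact pow_le_pow_left₀ (abs_nonneg _) h4 2
      rw [rsq]
      nlinarith

/-- **the form of a block is bounded** -/
theorem q_bd {b : Blk} {k : ℕ} {r : Rad} (hb : b.okW k r = true) {K : ℕ}
    (hi : itb K b.its = true) {L : ℝ} (hL : 1 ≤ L) :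
    ∃ C : ℝ, 0 ≤ C ∧ ∀ x, Dom0 L x → b.q x ≤ C * (1 + x.f ^ 2 + x.g ^ 2) ^ K := by
  simp only [Blk.okW, Bool.and_eq_true, Nat.blt_eq] at hb
  obtain ⟨⟨⟨⟨⟨⟨_, _⟩, h3⟩, h4⟩, h5⟩, h6⟩, _⟩ := hb
  have h3 := Nat.eq_of_beq_eq_true h3
  have h5 := Nat.eq_of_beq_eq_true h5
  obtain ⟨C, hC, hC'⟩ := rsq_bd h3 h4 hL b.its hi b.L
  obtain ⟨D, hD, hD'⟩ := rz2_bd hL b.its hi
  refine ⟨C + b.dl * D + (b.its.length + 1) * b.offE * D, by positivity, fun x hx => ?_⟩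
  have e : (rho x ^ K) ^ 2 = (1 + x.f ^ 2 + x.g ^ 2) ^ K := by
    rw [← rho_sq, ← pow_mul, ← pow_mul, mul_comm]
  have h7 := hC' x hx
  have h8 := hD' x hx
  have h9 := rex_abs h5 h6 x b.its b.E
  have h10 := le_abs_self (rex b.BE b.offE x b.its b.E)
  rw [e] at h7 h8
  have h11 : (b.dl : ℝ) * rz2 x b.its ≤ b.dl * (D * (1 + x.f ^ 2 + x.g ^ 2) ^ K) :=
    mul_le_mul_of_nonneg_left h8 (Nat.cast_nonneg _)
  have h12 : ((b.its.length : ℝ) + 1) * b.offE * rz2 x b.its ≤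
      ((b.its.length : ℝ) + 1) * b.offE * (D * (1 + x.f ^ 2 + x.g ^ 2) ^ K) :=
    mul_le_mul_of_nonneg_left h8 (by positivity)
  have h13 : 0 ≤ ((b.its.length : ℝ) + 1) * b.offE * (D * (1 + x.f ^ 2 + x.g ^ 2) ^ K) := by
    positivity
  rw [Blk.q]
  nlinarith

end Pool.Sos71.Bdd

end

section


/-!
From a certificate with the standard multipliers to the hypothesis `Side` of helper69.
-/

set_option autoImplicit false

namespace Pool.Sos71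

open Pool.Agent.Helper69.EK6 (eDi Side)

/-- `1` -/
def mOne : Ex := .lit 1
/-- `S (C - S)` -/
def mAB : Ex := .mul (.va 1) (.add (.va 2) (.sc (-1) (.va 1)))
/-- `l (Ln - Ld l)` -/
def mL (Ln Ld : ℤ) : Ex := .mul (.va 0) (.add (.lit Ln) (.sc (-Ld) (.va 0)))
/-- `S (C - S) l (Ln - Ld l)` -/
def mABL (Ln Ld : ℤ) : Ex := .mul mAB (mL Ln Ld)
/-- `-2 u - u² - v²` -/
def mCen : Ex := .bp [[0, 0, -1], [-2], [-1]]

/-- the domain -/
structure DomL (Ln Ld : ℤ) (x : Pnt) : Prop where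
  b0 : 0 ≤ x.b
  bc : x.b ≤ x.c
  u1 : x.b ^ 2 + x.c ^ 2 = 1
  a0 : 0 ≤ x.a
  a1 : (Ld : ℝ) * x.a ≤ Ln

variable {Ln Ld : ℤ} {x : Pnt}

lemma mOne_re (x : Pnt) : mOne.re x = 1 := by
  show ((1 : ℤ) : ℝ) = 1
  norm_num

lemma mAB_re (x : Pnt) : mAB.re x = x.b * (x.c - x.b) := by
  show x.b * (x.c + ((-1 : ℤ) : ℝ) * x.b) = _
  push_cast; ring

lemma mL_re (Ln Ld : ℤ) (x : Pnt) : (mL Ln Ld).re x = x.a * (Ln - Ld * x.a) := by
  show x.a * ((Ln : ℝ) + ((-Ld : ℤ) : ℝ) * x.a) = _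
  push_cast; ring

lemma mABL_re (Ln Ld : ℤ) (x : Pnt) :
    (mABL Ln Ld).re x = x.b * (x.c - x.b) * (x.a * (Ln - Ld * x.a)) := by
  show mAB.re x * (mL Ln Ld).re x = _
  rw [mAB_re, mL_re]

lemma mCen_re (x : Pnt) : mCen.re x = -2 * x.f - x.f ^ 2 - x.g ^ 2 := by
  simp only [mCen, Ex.re, Pool.EK71.ev2, Pool.EK71.ev1]
  push_cast; ring

lemma mAB_nonneg (h : DomL Ln Ld x) : 0 ≤ mAB.re x := by
  rw [mAB_re]
  exact mul_nonneg h.b0 (by linarith [h.bc])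

lemma mAB_le (h : DomL Ln Ld x) : mAB.re x ≤ 1 := by
  rw [mAB_re]
  nlinarith [h.u1, h.b0, sq_nonneg (x.c - x.b), sq_nonneg x.b, sq_nonneg x.c]

lemma mL_nonneg (h : DomL Ln Ld x) : 0 ≤ (mL Ln Ld).re x := by
  rw [mL_re]
  exact mul_nonneg h.a0 (by linarith [h.a1])

lemma mABL_nonneg (h : DomL Ln Ld x) : 0 ≤ (mABL Ln Ld).re x := by
  show 0 ≤ mAB.re x * (mL Ln Ld).re x
  exact mul_nonneg (mAB_nonneg h) (mL_nonneg h)

/-- a block with an admissible multiplier -/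
def Good (K : ℕ) (Ln Ld : ℤ) (b : Blk) : Prop :=
  (∀ x, DomL Ln Ld x → 0 ≤ b.mult.re x) ∨
    (Bdd.itb K b.its = true ∧ ((∀ x, DomL Ln Ld x → ∃ w : ℝ, 0 ≤ w ∧ w ≤ 1 ∧
      b.mult.re x = w * (eDi 1).re x) ∨ (∀ x, DomL Ln Ld x → ∃ w : ℝ, 0 ≤ w ∧ w ≤ 1 ∧
      b.mult.re x = w * (eDi (-1)).re x)))

section
variable {K : ℕ} {b : Blk}

lemma Good.one (h : b.mult = mOne) : Good K Ln Ld b :=
  Or.inl fun x _ => by rw [h, mOne_re]; norm_num

lemma Good.ab (h : b.mult = mAB) : Good K Ln Ld b :=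
  Or.inl fun x hx => by rw [h]; exact mAB_nonneg hx

lemma Good.l (h : b.mult = mL Ln Ld) : Good K Ln Ld b :=
  Or.inl fun x hx => by rw [h]; exact mL_nonneg hx

lemma Good.abl (h : b.mult = mABL Ln Ld) : Good K Ln Ld b :=
  Or.inl fun x hx => by rw [h]; exact mABL_nonneg hx

lemma Good.d1 (h : b.mult = eDi 1) (hi : Bdd.itb K b.its = true) : Good K Ln Ld b :=
  Or.inr ⟨hi, Or.inl fun x _ => ⟨1, zero_le_one, le_rfl, by rw [h, one_mul]⟩⟩

lemma Good.d2 (h : b.mult = eDi (-1)) (hi : Bdd.itb K b.its = true) : Good K Ln Ld b :=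
  Or.inr ⟨hi, Or.inr fun x _ => ⟨1, zero_le_one, le_rfl, by rw [h, one_mul]⟩⟩

lemma Good.da1 (h : b.mult = .mul mAB (eDi 1)) (hi : Bdd.itb K b.its = true) :
    Good K Ln Ld b :=
  Or.inr ⟨hi, Or.inl fun x hx => ⟨mAB.re x, mAB_nonneg hx, mAB_le hx, by rw [h]; rfl⟩⟩

lemma Good.da2 (h : b.mult = .mul mAB (eDi (-1))) (hi : Bdd.itb K b.its = true) :
    Good K Ln Ld b :=
  Or.inr ⟨hi, Or.inr fun x hx => ⟨mAB.re x, mAB_nonneg hx, mAB_le hx, by rw [h]; rfl⟩⟩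

end

lemma DomL.dom0 (h : DomL Ln Ld x) (hd : 0 < Ld) {L : ℝ} (hL : (Ln : ℝ) / Ld ≤ L) :
    Bdd.Dom0 L x := by
  have hd' : (0 : ℝ) < Ld := by exact_mod_cast hd
  have h1 : x.a ≤ Ln / Ld := by
    rw [le_div_iff₀ hd']
    linarith [h.a1]
  have hc := h.b0.trans h.bc
  refine ⟨⟨h.a0, h1.trans hL⟩, ?_, ?_⟩
  · rw [abs_of_nonneg h.b0]
    nlinarith [h.u1, sq_nonneg x.c]
  · rw [abs_of_nonneg hc]
    nlinarith [h.u1, sq_nonneg x.b]

theorem brs_side {k : ℕ} {r : Rad} {N : Bd} {K : ℕ} (hd : 0 < Ld) (bs : List Blk)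
    (hk : bokW k r N bs = true) (hg : ∀ b ∈ bs, Good K Ln Ld b) :
    ∃ B : ℝ, 0 ≤ B ∧ ∀ x : Pnt, DomL Ln Ld x → ∃ q1 q2 : ℝ, 0 ≤ q1 ∧
      q1 ≤ B * (1 + x.f ^ 2 + x.g ^ 2) ^ K ∧ 0 ≤ q2 ∧ q2 ≤ B * (1 + x.f ^ 2 + x.g ^ 2) ^ K ∧
      q1 * (eDi 1).re x + q2 * (eDi (-1)).re x ≤ brs x bs := by
  induction bs with
  | nil =>
    refine ⟨0, le_rfl, fun x _ => ⟨0, 0, le_rfl, by simp, le_rfl, by simp, ?_⟩⟩
    simp [brs]
  | cons b bs ih =>
    simp only [bokW, Bool.and_eq_true] at hk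
    obtain ⟨⟨k1, _⟩, k3⟩ := hk
    obtain ⟨B, hB, ih⟩ := ih k3 fun b' hb => hg b' (List.mem_cons_of_mem _ hb)
    rcases hg b List.mem_cons_self with h | ⟨hi, h⟩
    · refine ⟨B, hB, fun x hx => ?_⟩
      obtain ⟨q1, q2, a1, a2, a3, a4, a5⟩ := ih x hx
      refine ⟨q1, q2, a1, a2, a3, a4, ?_⟩
      have := mul_nonneg (h x hx) (Blk.q_nonnegW k1 x)
      rw [brs]
      linarith
    · obtain ⟨C, hC, hC'⟩ := Bdd.q_bd k1 hi (L := max 1 ((Ln : ℝ) / Ld)) (le_max_left _ _)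
      refine ⟨B + C, by positivity, fun x hx => ?_⟩
      obtain ⟨q1, q2, a1, a2, a3, a4, a5⟩ := ih x hx
      have hq := Blk.q_nonnegW k1 x
      have hq' := hC' x (hx.dom0 hd (le_max_right _ _))
      have hr : 0 ≤ (1 + x.f ^ 2 + x.g ^ 2) ^ K := by positivity
      rcases h with h | h
      · obtain ⟨w, w0, w1, hw⟩ := h x hx
        have h1 : w * b.q x ≤ b.q x := mul_le_of_le_one_left hq w1
        refine ⟨q1 + w * b.q x, q2, add_nonneg a1 (mul_nonneg w0 hq), ?_, a3, ?_, ?_⟩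
        · rw [add_mul]
          linarith
        · rw [add_mul]
          linarith [mul_nonneg hC hr]
        · rw [brs, hw]
          linarith
      · obtain ⟨w, w0, w1, hw⟩ := h x hx
        have h1 : w * b.q x ≤ b.q x := mul_le_of_le_one_left hq w1
        refine ⟨q1, q2 + w * b.q x, a1, ?_, add_nonneg a3 (mul_nonneg w0 hq), ?_, ?_⟩
        · rw [add_mul]
          linarith [mul_nonneg hC hr]
        · rw [add_mul]
          linarith
        · rw [brs, hw]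
          linarith

/-- **the hypothesis of the final theorem from a certificate** -/
theorem side_of {D : Cert} (h : D.checkW = true) {K : ℕ} (hd : 0 < Ld)
    (hg : ∀ b ∈ D.blocks, Good K Ln Ld b) : Side K Ln Ld D.target := by
  have hk : bokW D.k D.r D.N D.blocks = true := by
    simp only [Cert.checkW, Bool.and_eq_true] at h
    exact h.1.1.2
  have hs : (0 : ℝ) < D.s := by
    simp only [Cert.checkW, Bool.and_eq_true, Nat.blt_eq] at h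
    exact_mod_cast h.1.1.1.2
  obtain ⟨B, hB, hb⟩ := brs_side hd D.blocks hk hg
  refine ⟨B / D.s, fun x h1 h2 h3 h4 h5 => ?_⟩
  obtain ⟨q1, q2, a1, a2, a3, a4, a5⟩ := hb x ⟨h1, h2, h3, h4, h5⟩
  rw [← Cert.soundW h x] at a5
  refine ⟨q1 / D.s, q2 / D.s, div_nonneg a1 hs.le, ?_, div_nonneg a3 hs.le, ?_, ?_⟩
  · rw [div_mul_eq_mul_div]
    exact div_le_div_of_nonneg_right a2 hs.le
  · rw [div_mul_eq_mul_div]
    exact div_le_div_of_nonneg_right a4 hs.le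
  · rw [div_mul_eq_mul_div, div_mul_eq_mul_div, ← add_div, div_le_iff₀ hs]
    linarith

/-- the centre -/
theorem cen_of {D : Cert} (h : D.checkW = true)
    (hg : ∀ b ∈ D.blocks, b.mult = mOne ∨ b.mult = mCen) (x : Pnt)
    (hx : 0 ≤ -2 * x.f - x.f ^ 2 - x.g ^ 2) : 0 ≤ D.target.re x := by
  refine sos_posW h x fun b hb => ?_
  rcases hg b hb with h | h
  · rw [h, mOne_re]; norm_num
  · rw [h, mCen_re]; exact hx

end Pool.Sos71

end
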