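import Pool.Agent.Helper96.ESX.TData

set_option autoImplicit false

namespace Pool.Sos71.T2.D2

open Pool.Sos71 Pool.Agent.Helper69.EK6

def f0_0 : Fac := ⟨1, ⟨0, 0, 0, 0, 0, 0, 0⟩, 0, false, 0, ⟨0, 0, 0, 0, 0, 0, 0⟩, 0⟩
def its0 : List Itm := [⟨⟨0, 0, 0, 0, 0, 1, 0⟩, 99, f0_0, false⟩,
 ⟨⟨0, 0, 0, 0, 0, 2, 0⟩, 198, f0_0, false⟩,
 ⟨⟨0, 0, 0, 0, 0, 3, 0⟩, 297, f0_0, false⟩,
 ⟨⟨0, 0, 0, 0, 0, 0, 2⟩, 1386, f0_0, false⟩,
 ⟨⟨0, 0, 0, 0, 0, 1, 2⟩, 1485, f0_0, true⟩]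

def l0 : List ℕ := [
 685532005430864850666687585814979217436236077564565223531608175887955,
 13010822521876338616161809071644552414327428469188003306,
 146913715586428891660846153464713274785663,
 2904961805110305834201822035,
 42029203121587]

def e0 : List ℕ := [
 1268598074277244076717593460114316458782742302774413219498137351269527,
 18546966482151409321946927729112340192174567270906376459,
 187368044198581337640803558531749330987615,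
 3757995742338805547900980796,
 40933177480405]

def b0 : Blk := ⟨(.lit 1), ⟨0, 0, 0, 0, 3, 2, 0⟩, 1, its0, 70368744177664, 35184372088832, l0, 70368744177664, 35184372088832, e0, 1886252628133322686464⟩

def f1_0 : Fac := ⟨1, ⟨0, 0, 0, 0, 0, 0, 0⟩, 0, false, 0, ⟨0, 0, 0, 0, 0, 0, 0⟩, 0⟩
def its1 : List Itm := [⟨⟨0, 0, 0, 0, 0, 0, 1⟩, 693, f1_0, false⟩,
 ⟨⟨0, 0, 0, 0, 0, 1, 1⟩, 792, f1_0, false⟩,
 ⟨⟨0, 0, 0, 0, 0, 2, 1⟩, 891, f1_0, false⟩,
 ⟨⟨0, 0, 0, 0, 0, 0, 3⟩, 2079, f1_0, true⟩]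

def l1 : List ℕ := [
 6398213733542361379814861275646342246557833289295688816,
 205743640305588516551504994273042380617398,
 2432070862051540645825437949,
 37595179279124]

def e1 : List ℕ := [
 11501265436371277035328336900722057835097824610557783808,
 264445441013391347300900255856930722399468,
 2880416294497503975129684986,
 46691216531741]

def b1 : Blk := ⟨(.lit 1), ⟨0, 0, 0, 0, 2, 3, 0⟩, 1, its1, 70368744177664, 35184372088832, l1, 70368744177664, 35184372088832, e1, 8559283361273991921664⟩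

def f2_0 : Fac := ⟨1, ⟨0, 0, 0, 0, 0, 0, 0⟩, 0, false, 0, ⟨0, 0, 0, 0, 0, 0, 0⟩, 0⟩
def its2 : List Itm := [⟨⟨0, 0, 0, 0, 0, 0, 0⟩, 0, f2_0, false⟩,
 ⟨⟨0, 0, 0, 0, 0, 1, 0⟩, 99, f2_0, false⟩,
 ⟨⟨0, 0, 0, 0, 0, 2, 0⟩, 198, f2_0, false⟩,
 ⟨⟨0, 0, 0, 0, 0, 0, 2⟩, 1386, f2_0, true⟩]

def l2 : List ℕ := [
 11750906867551780469831018436424313867895521624826191072,
 182777453397703142559096082199030598181725,
 2399291530685727388540792474,
 38043629300482]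

def e2 : List ℕ := [
 2993155353254029458848067514552037226532542031903744,
 340282366920977149089602279963405320192,
 38685626227672531637108736,
 4398046511104]

def b2 : Blk := ⟨(.add (.add (.sc (-1) (.pow (.va 6) 2)) (.sc (-2) (.va 5))) (.sc (-1) (.pow (.va 5) 2))), ⟨0, 0, 0, 0, 2, 2, 0⟩, 1, its2, 70368744177664, 35184372088832, l2, 8796093022208, 4398046511104, e2, 471679542894841757696⟩

def f3_0 : Fac := ⟨1, ⟨0, 0, 0, 0, 0, 0, 0⟩, 0, false, 0, ⟨0, 0, 0, 0, 0, 0, 0⟩, 0⟩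
def its3 : List Itm := [⟨⟨0, 0, 0, 0, 0, 0, 1⟩, 693, f3_0, false⟩,
 ⟨⟨0, 0, 0, 0, 0, 1, 1⟩, 792, f3_0, true⟩]

def l3 : List ℕ := [
 3870744360585471722616727161,
 36613961466644]

def b3 : Blk := ⟨(.add (.add (.sc (-1) (.pow (.va 6) 2)) (.sc (-2) (.va 5))) (.sc (-1) (.pow (.va 5) 2))), ⟨0, 0, 0, 0, 1, 1, 0⟩, 1, its3, 70368744177664, 35184372088832, l3, 2, 1, [], 0⟩

def cert : Cert := ⟨99, ⟨7, 49, 49, 49, 49⟩, ⟨0, 0, 0, 0, 6, 6, 0⟩, 2, (.bp c.cen),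
 [b0, b1, b2, b3]⟩

theorem ok : cert.checkW = true := by decide +kernel

end Pool.Sos71.T2.D2
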